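import Pool.Agent.Lib.H31R.N3

/-!
# H31R, part N4: the Ricci tensor in terms of the 2-jet of the metric
-/

open scoped ContDiff Topology
open Set

namespace H31R

variable {d : ℕ}

section jet

variable {R : Type*} [CommRing R]

/-- Christoffel symbols (upper index `k`) in terms of the inverse matrix `K` and of the first
derivatives `g1 m i j = ∂_m G_ij`; `hf` is one half -/
def chJ (hf : R) (K : Matrix (Fin d) (Fin d) R) (g1 : Fin d → Matrix (Fin d) (Fin d) R)
    (k i j : Fin d) : R :=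
  hf * ∑ l, K k l * (g1 i j l + g1 j i l - g1 l i j)

/-- derivative `∂_m` of the Christoffel symbols, `g2 m k i j = ∂_m ∂_k G_ij` -/
def dchJ (hf : R) (K : Matrix (Fin d) (Fin d) R) (g1 : Fin d → Matrix (Fin d) (Fin d) R)
    (g2 : Fin d → Fin d → Matrix (Fin d) (Fin d) R) (m k i j : Fin d) : R :=
  hf * ∑ l, (-(∑ a, ∑ b, K k a * g1 m a b * K b l) * (g1 i j l + g1 j i l - g1 l i j)
    + K k l * (g2 m i j l + g2 m j i l - g2 m l i j))

/-- Ricci tensor in terms of the 2-jet -/
def ricJ (hf : R) (K : Matrix (Fin d) (Fin d) R) (g1 : Fin d → Matrix (Fin d) (Fin d) R)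
    (g2 : Fin d → Fin d → Matrix (Fin d) (Fin d) R) (i j : Fin d) : R :=
  ∑ k, (dchJ hf K g1 g2 k k i j - dchJ hf K g1 g2 j k i k
    + ∑ l, (chJ hf K g1 k k l * chJ hf K g1 l i j - chJ hf K g1 k j l * chJ hf K g1 l i k))

end jet

section smooth

variable {E : Type*} [NormedAddCommGroup E] [NormedSpace ℝ E] {n : WithTop ℕ∞} {x : E}

theorem N_det_at {m : ℕ} {A : E → Matrix (Fin m) (Fin m) ℝ}
    (h : ∀ i j, ContDiffAt ℝ n (fun y => A y i j) x) : ContDiffAt ℝ n (fun y => (A y).det) x := by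
  simp only [Matrix.det_apply']
  exact ContDiffAt.sum fun σ _ => contDiffAt_const.mul (contDiffAt_prod fun i _ => h _ _)

theorem N_inv_at {m : ℕ} {A : E → Matrix (Fin m) (Fin m) ℝ}
    (h : ∀ i j, ContDiffAt ℝ n (fun y => A y i j) x) (hd : (A x).det ≠ 0) (i j : Fin m) :
    ContDiffAt ℝ n (fun y => (A y)⁻¹ i j) x := by
  have h1 : ContDiffAt ℝ n (fun y => ((A y).det)⁻¹) x := (N_det_at h).inv hd
  have h2 : ContDiffAt ℝ n (fun y => (A y).adjugate i j) x := by
    simp only [Matrix.adjugate_apply]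
    apply N_det_at
    intro a b
    by_cases hab : a = j
    · subst hab
      simp only [Matrix.updateRow_self]
      exact contDiffAt_const
    · simp only [Matrix.updateRow_ne hab]
      exact h a b
  have e : (fun y => (A y)⁻¹ i j) = fun y => ((A y).det)⁻¹ * (A y).adjugate i j := by
    funext y
    rw [Matrix.inv_def, Ring.inverse_eq_inv']
    rfl
  rw [e]
  exact h1.mul h2

end smooth

section formula

variable {x : EE d} {G : EE d → Mt d}

theorem N_pd_diff {f : EE d → ℝ} (hf : ContDiffAt ℝ 2 f x) (k : Fin d) :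
    DifferentiableAt ℝ (pd k f) x := by
  have h : ContDiffAt ℝ 1 (fderiv ℝ f) x := hf.fderiv_right (m := 1) (by norm_cast)
  exact (h.differentiableAt (by simp)).clm_apply (differentiableAt_const _)

theorem N_pd_inv (h : ∀ i j, ContDiffAt ℝ 1 (fun y => G y i j) x) (hd : (G x).det ≠ 0)
    (m k l : Fin d) :
    pd m (fun y => (G y)⁻¹ k l) x = -((G x)⁻¹ * pdM m G x * (G x)⁻¹) k l := by
  have hD : ∀ i j, DifferentiableAt ℝ (fun y => G y i j) x := fun i j =>
    (h i j).differentiableAt (by simp)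
  have hI : ∀ i j, DifferentiableAt ℝ (fun y => (G y)⁻¹ i j) x := fun i j =>
    (N_inv_at h hd i j).differentiableAt (by simp)
  have hev : ∀ᶠ y in 𝓝 x, (G y).det ≠ 0 := (N_det_at h).continuousAt.eventually_ne hd
  have hu : IsUnit (G x).det := isUnit_iff_ne_zero.2 hd
  have h1 : pdM m (fun y => G y * (G y)⁻¹) x = 0 := by
    ext i j
    have : (fun y => (G y * (G y)⁻¹) i j) =ᶠ[𝓝 x] fun _ => (1 : Mt d) i j :=
      hev.mono fun y hy => by
        simp only [Matrix.mul_nonsing_inv _ (isUnit_iff_ne_zero.2 hy)]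
    show pd m (fun y => (G y * (G y)⁻¹) i j) x = 0
    rw [N_pd_congr m this, N_pd_const]
  have h2 : pdM m (fun y => G y * (G y)⁻¹) x
      = pdM m G x * (G x)⁻¹ + G x * pdM m (fun y => (G y)⁻¹) x := by
    ext i j
    simp only [pdM, Matrix.mul_apply, Matrix.add_apply]
    rw [N_pd_sum, ← Finset.sum_add_distrib]
    · exact Finset.sum_congr rfl fun l _ => N_pd_mul (hD _ _) (hI _ _) m
    · exact fun l _ => (hD _ _).mul (hI _ _)
  rw [h1] at h2
  have h3 : (G x)⁻¹ * (pdM m G x * (G x)⁻¹ + G x * pdM m (fun y => (G y)⁻¹) x) = 0 := by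
    rw [← h2, Matrix.mul_zero]
  rw [Matrix.mul_add, ← Matrix.mul_assoc, ← Matrix.mul_assoc, Matrix.nonsing_inv_mul _ hu,
    Matrix.one_mul] at h3
  have h4 := eq_neg_of_add_eq_zero_right h3
  have := congrFun (congrFun h4 k) l
  exact this

theorem N_chr_jet (k i j : Fin d) :
    chr G k i j x = chJ (1 / 2) (G x)⁻¹ (fun m => pdM m G x) k i j := rfl

theorem N_dchr_jet (h : ∀ i j, ContDiffAt ℝ 2 (fun y => G y i j) x) (hd : (G x).det ≠ 0)
    (m k i j : Fin d) :
    pd m (chr G k i j) x = dchJ (1 / 2) (G x)⁻¹ (fun m => pdM m G x)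
      (fun m l => pdM m (pdM l G) x) m k i j := by
  have h1 : ∀ i j, ContDiffAt ℝ 1 (fun y => G y i j) x := fun i j => (h i j).of_le (by norm_cast)
  have hI : ∀ i j, DifferentiableAt ℝ (fun y => (G y)⁻¹ i j) x := fun i j =>
    (N_inv_at h1 hd i j).differentiableAt (by simp)
  have hP : ∀ m i j, DifferentiableAt ℝ (pd m (fun y => G y i j)) x := fun m i j =>
    N_pd_diff (h i j) m
  have hc : ∀ l, DifferentiableAt ℝ (fun y => pd i (fun y => G y j l) y + pd j (fun y => G y i l) y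
      - pd l (fun y => G y i j) y) x := fun l => ((hP _ _ _).add (hP _ _ _)).sub (hP _ _ _)
  have hs : ∀ l, DifferentiableAt ℝ (fun y => (G y)⁻¹ k l * (pd i (fun y => G y j l) y
      + pd j (fun y => G y i l) y - pd l (fun y => G y i j) y)) x := fun l => (hI _ _).mul (hc l)
  unfold chr dchJ
  rw [N_pd_cmul (DifferentiableAt.fun_sum fun l _ => hs l), N_pd_sum _ _ fun l _ => hs l]
  congr 1
  refine Finset.sum_congr rfl fun l _ => ?_
  rw [N_pd_mul (hI _ _) (hc l), N_pd_inv h1 hd,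
    N_pd_sub (f := fun y => pd i (fun y => G y j l) y + pd j (fun y => G y i l) y)
      ((hP _ _ _).add (hP _ _ _)) (hP _ _ _), N_pd_add (hP _ _ _) (hP _ _ _)]
  have e : ((G x)⁻¹ * pdM m G x * (G x)⁻¹) k l
      = ∑ a, ∑ b, (G x)⁻¹ k a * pdM m G x a b * (G x)⁻¹ b l := by
    simp only [Matrix.mul_apply, Finset.sum_mul]
    rw [Finset.sum_comm]
  rw [e]
  rfl

/-- the Ricci tensor in terms of the 2-jet of the metric -/
theorem N_ric_jet (h : ∀ i j, ContDiffAt ℝ 2 (fun y => G y i j) x) (hd : (G x).det ≠ 0)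
    (i j : Fin d) :
    ric G i j x = ricJ (1 / 2) (G x)⁻¹ (fun m => pdM m G x) (fun m l => pdM m (pdM l G) x) i j := by
  unfold ric ricJ
  simp only [N_dchr_jet h hd]
  rfl

end formula

end H31R
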