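import Pool.Agent.Lib.H31R.N1

/-!
# H31R, part N2: naturality of the Ricci tensor
-/

open scoped ContDiff Topology
open Set

namespace H31R

variable {d : ℕ}

/-- Jacobian matrix `(a, i) ↦ ∂_i Φ^a` -/
noncomputable def jac (Φ : EE d → EE d) (y : EE d) : Mt d := fun a i => pd i (fun z => Φ z a) y

theorem N_basis (v : EE d) : v = ∑ a, v a • ebas a := by
  ext i
  rw [WithLp.ofLp_sum, Finset.sum_apply]
  simp

theorem N_fderiv_apply {V : Set (EE d)} {x : EE d} (hV : IsOpen V) (hx : x ∈ V)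
    {Φ : EE d → EE d} (hΦ : ContDiffOn ℝ 3 Φ V) (v : EE d) (a : Fin d) :
    fderiv ℝ Φ x v a = fderiv ℝ (fun z => Φ z a) x v := by
  have h : HasFDerivAt Φ (fderiv ℝ Φ x) x :=
    ((hΦ.contDiffAt (hV.mem_nhds hx)).differentiableAt (by simp)).hasFDerivAt
  have h2 : HasFDerivAt (fun z => Φ z a)
      ((EuclideanSpace.proj a : EE d →L[ℝ] ℝ).comp (fderiv ℝ Φ x)) x :=
    (EuclideanSpace.proj a : EE d →L[ℝ] ℝ).hasFDerivAt.comp x h
  rw [h2.fderiv]
  rfl

theorem N_comp_sm {V : Set (EE d)} {Φ : EE d → EE d} (hΦ : ContDiffOn ℝ 3 Φ V) (a : Fin d) :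
    Sm 3 V (fun z => Φ z a) :=
  (EuclideanSpace.proj a : EE d →L[ℝ] ℝ).contDiff.comp_contDiffOn hΦ

theorem N_jac_sm {V : Set (EE d)} (hV : IsOpen V) {Φ : EE d → EE d} (hΦ : ContDiffOn ℝ 3 Φ V) :
    SmM 2 V (jac Φ) := fun a i => N_pd_sm hV (N_comp_sm hΦ a) i

theorem N_jac_vec {V : Set (EE d)} {x : EE d} (hV : IsOpen V) (hx : x ∈ V)
    {Φ : EE d → EE d} (hΦ : ContDiffOn ℝ 3 Φ V) (v : EE d) (a : Fin d) :
    fderiv ℝ Φ x v a = ∑ i, jac Φ x a i * v i := by
  rw [N_fderiv_apply hV hx hΦ]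
  conv_lhs => rw [N_basis v]
  rw [map_sum]
  refine Finset.sum_congr rfl fun i _ => ?_
  rw [map_smul, smul_eq_mul, mul_comm]
  rfl

theorem N_chain {U V : Set (EE d)} {x : EE d} (hU : IsOpen U) (hV : IsOpen V) (hx : x ∈ V)
    {Φ : EE d → EE d} (hΦ : ContDiffOn ℝ 3 Φ V) (hm : MapsTo Φ V U) {f : EE d → ℝ}
    (hf : Sm 1 U f) (k : Fin d) :
    pd k (fun y => f (Φ y)) x = ∑ a, jac Φ x a k * pd a f (Φ x) := by
  have h : HasFDerivAt Φ (fderiv ℝ Φ x) x :=
    ((hΦ.contDiffAt (hV.mem_nhds hx)).differentiableAt (by simp)).hasFDerivAt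
  have h2 : HasFDerivAt f (fderiv ℝ f (Φ x)) (Φ x) := (N_diff hU hf (hm hx)).hasFDerivAt
  have h3 : HasFDerivAt (fun y => f (Φ y)) ((fderiv ℝ f (Φ x)).comp (fderiv ℝ Φ x)) x := h2.comp x h
  unfold pd
  rw [h3.fderiv, ContinuousLinearMap.comp_apply]
  conv_lhs => rw [N_basis (fderiv ℝ Φ x (ebas k))]
  rw [map_sum]
  refine Finset.sum_congr rfl fun a _ => ?_
  rw [map_smul, smul_eq_mul, N_fderiv_apply hV hx hΦ]
  rfl

theorem N_comp_smM {U V : Set (EE d)} {Φ : EE d → EE d} (hΦ : ContDiffOn ℝ 3 Φ V)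
    (hm : MapsTo Φ V U) {n : ℕ} (hn : n ≤ 3) {A : EE d → Mt d} (hA : SmM n U A) :
    SmM n V (fun y => A (Φ y)) :=
  fun i j => (hA i j).comp (hΦ.of_le (by exact_mod_cast hn)) hm

theorem N_chainM {U V : Set (EE d)} {x : EE d} (hU : IsOpen U) (hV : IsOpen V) (hx : x ∈ V)
    {Φ : EE d → EE d} (hΦ : ContDiffOn ℝ 3 Φ V) (hm : MapsTo Φ V U) {A : EE d → Mt d}
    (hA : SmM 1 U A) (k : Fin d) :
    pdM k (fun y => A (Φ y)) x = ∑ a, jac Φ x a k • pdM a A (Φ x) := by
  ext i j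
  rw [Matrix.sum_apply]
  exact N_chain hU hV hx hΦ hm (hA i j) k

section pull

variable {U V : Set (EE d)} {x : EE d} {Φ : EE d → EE d} {G H : EE d → Mt d}

/-- the situation of a pull back: `G` is the pull back, on the open set `V`, of the metric `H`
(defined on the open set `U`) by the smooth map `Φ` with invertible differential -/
structure Pull (U V : Set (EE d)) (Φ : EE d → EE d) (G H : EE d → Mt d) : Prop where
  hU : IsOpen U
  hV : IsOpen V
  hΦ : ContDiffOn ℝ 3 Φ V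
  hm : MapsTo Φ V U
  hJ : ∀ y ∈ V, (jac Φ y).det ≠ 0
  hH : SmM 2 U H
  hs : ∀ y ∈ U, ∀ i j, H y i j = H y j i
  hd : ∀ y ∈ U, (H y).det ≠ 0
  hG : ∀ y ∈ V, G y = (jac Φ y).transpose * H (Φ y) * jac Φ y

theorem Pull.smG (h : Pull U V Φ G H) : SmM 2 V G := by
  intro i j
  have h1 := N_mul_sm (N_mul_sm (N_tr_sm (N_jac_sm h.hV h.hΦ)) (N_comp_smM h.hΦ h.hm (by norm_num) h.hH))
    (N_jac_sm h.hV h.hΦ)
  exact (h1 i j).congr fun y hy => by rw [h.hG y hy]

theorem Pull.symmG (h : Pull U V Φ G H) : ∀ y ∈ V, ∀ i j, G y i j = G y j i := by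
  intro y hy i j
  have h1 : (H (Φ y)).transpose = H (Φ y) := by
    ext a b; exact h.hs _ (h.hm hy) b a
  have h2 : (G y).transpose = G y := by
    rw [h.hG y hy, Matrix.transpose_mul, Matrix.transpose_mul, h1, Matrix.transpose_transpose,
      Matrix.mul_assoc]
  calc G y i j = (G y).transpose j i := rfl
    _ = G y j i := by rw [h2]

theorem Pull.detG (h : Pull U V Φ G H) : ∀ y ∈ V, (G y).det ≠ 0 := by
  intro y hy
  rw [h.hG y hy, Matrix.det_mul, Matrix.det_mul, Matrix.det_transpose]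
  exact mul_ne_zero (mul_ne_zero (h.hJ y hy) (h.hd _ (h.hm hy))) (h.hJ y hy)

/-- the pulled back connection matrices -/
noncomputable def N2_SS (Φ : EE d → EE d) (H : EE d → Mt d) (i : Fin d) (y : EE d) : Mt d :=
  ∑ a, jac Φ y a i • chM H a (Φ y)

theorem N_sum_sm {n : ℕ} {ι : Type*} (s : Finset ι) (F : ι → EE d → Mt d)
    (hF : ∀ a ∈ s, SmM n V (F a)) : SmM n V (fun y => ∑ a ∈ s, F a y) := by
  intro i j
  simp only [Matrix.sum_apply]
  exact ContDiffOn.sum fun a ha => hF a ha i j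

theorem N_smul_sm {n : ℕ} {f : EE d → ℝ} {A : EE d → Mt d} (hf : Sm n V f) (hA : SmM n V A) :
    SmM n V (fun y => f y • A y) := fun i j => hf.mul (hA i j)

theorem N_pdM_smul (hV : IsOpen V) (hx : x ∈ V) {f : EE d → ℝ} {A : EE d → Mt d}
    (hf : Sm 1 V f) (hA : SmM 1 V A) (k : Fin d) :
    pdM k (fun y => f y • A y) x = pd k f x • A x + f x • pdM k A x := by
  ext i j
  exact N_pd_mul (N_diff hV hf hx) (N_diff hV (hA i j) hx) k

theorem N_pdM_sum (hV : IsOpen V) (hx : x ∈ V) {ι : Type*} (s : Finset ι) (F : ι → EE d → Mt d)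
    (hF : ∀ a ∈ s, SmM 1 V (F a)) (k : Fin d) :
    pdM k (fun y => ∑ a ∈ s, F a y) x = ∑ a ∈ s, pdM k (F a) x := by
  ext i j
  rw [Matrix.sum_apply]
  show pd k (fun y => (∑ a ∈ s, F a y) i j) x = _
  simp only [Matrix.sum_apply]
  exact N_pd_sum s (fun a y => F a y i j) (fun a ha => N_diff hV (hF a ha i j) hx) k

theorem Pull.N2_SS_sm (h : Pull U V Φ G H) (i : Fin d) : SmM 1 V (N2_SS Φ H i) :=
  N_sum_sm _ _ fun a _ => N_smul_sm (N_le (N_jac_sm h.hV h.hΦ a i) (by norm_num))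
    (N_comp_smM h.hΦ h.hm (by norm_num) (N_chM_sm (n := 1) h.hU h.hH h.hd a))

/-- second derivatives of `Φ` are symmetric -/
theorem Pull.jac_symm (h : Pull U V Φ G H) (hx : x ∈ V) (c i j : Fin d) :
    pd i (fun y => jac Φ y c j) x = pd j (fun y => jac Φ y c i) x :=
  N_pd_symm h.hV (N_le (N_comp_sm h.hΦ c) (by norm_num)) hx i j

/-- transformation law of the Christoffel symbols -/
theorem Pull.chM_eq (h : Pull U V Φ G H) (hx : x ∈ V) (i : Fin d) :
    chM G i x = (jac Φ x)⁻¹ * (N2_SS Φ H i x * jac Φ x + pdM i (jac Φ) x) := by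
  have hu : IsUnit (jac Φ x).det := isUnit_iff_ne_zero.2 (h.hJ x hx)
  have hut : IsUnit ((jac Φ x).transpose).det := by rwa [Matrix.det_transpose]
  have hJs := N_leM (N_jac_sm h.hV h.hΦ) (show 1 ≤ 2 by norm_num)
  have hHs := N_comp_smM h.hΦ h.hm (by norm_num) (N_leM h.hH (show 1 ≤ 2 by norm_num))
  refine N_chM_unique h.hV hx h.symmG h.detG
    (fun i => (jac Φ x)⁻¹ * (N2_SS Φ H i x * jac Φ x + pdM i (jac Φ) x)) ?_ ?_ i
  · -- symmetry
    intro i j l
    have key : ∀ c, (N2_SS Φ H i x * jac Φ x + pdM i (jac Φ) x) c j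
        = (N2_SS Φ H j x * jac Φ x + pdM j (jac Φ) x) c i := by
      intro c
      rw [Matrix.add_apply, Matrix.add_apply]
      have h1 : pdM i (jac Φ) x c j = pdM j (jac Φ) x c i := h.jac_symm hx c i j
      rw [h1]
      congr 1
      simp only [N2_SS, Matrix.mul_apply, Matrix.sum_apply, Matrix.smul_apply, smul_eq_mul,
        Finset.sum_mul]
      rw [Finset.sum_comm]
      refine Finset.sum_congr rfl fun a _ => Finset.sum_congr rfl fun b _ => ?_
      have : chM H b (Φ x) c a = chM H a (Φ x) c b :=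
        N_chr_symm h.hU (h.hm hx) h.hs c b a
      rw [this]
      ring
    rw [Matrix.mul_apply, Matrix.mul_apply]
    exact Finset.sum_congr rfl fun c _ => by rw [key c]
  · -- compatibility
    intro i
    have e0 : pdM i G x = pdM i (fun y => (jac Φ y).transpose * H (Φ y) * jac Φ y) x :=
      N_pdM_congr h.hV hx (fun y hy => h.hG y hy) i
    have e1 : pdM i (fun y => (jac Φ y).transpose) x = (pdM i (jac Φ) x).transpose := rfl
    rw [e0, N_pdM_mul h.hV hx (N_mul_sm (N_tr_sm hJs) hHs) hJs,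
      N_pdM_mul h.hV hx (N_tr_sm hJs) hHs, e1, N_chainM h.hU h.hV hx h.hΦ h.hm
      (N_leM h.hH (by norm_num)), h.hG x hx]
    have e2 : ∑ a, jac Φ x a i • pdM a H (Φ x)
        = (N2_SS Φ H i x).transpose * H (Φ x) + H (Φ x) * N2_SS Φ H i x := by
      simp only [N2_SS, Matrix.transpose_sum, Matrix.sum_mul, Matrix.mul_sum, Matrix.transpose_smul]
      rw [← Finset.sum_add_distrib]
      refine Finset.sum_congr rfl fun a _ => ?_
      rw [N_chM_compat h.hU (h.hm hx) h.hs h.hd a, smul_add, Matrix.smul_mul, Matrix.mul_smul]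
    rw [e2]
    set J := jac Φ x
    set D := pdM i (jac Φ) x
    set S := N2_SS Φ H i x
    set K := H (Φ x)
    have e3 : J.transpose * K * J * (J⁻¹ * (S * J + D)) = J.transpose * K * (S * J + D) := by
      rw [← Matrix.mul_assoc, Matrix.mul_assoc (J.transpose * K) J J⁻¹, Matrix.mul_nonsing_inv _ hu,
        Matrix.mul_one]
    have e4 : (J⁻¹ * (S * J + D)).transpose * (J.transpose * K * J)
        = (S * J + D).transpose * K * J := by
      rw [Matrix.transpose_mul, Matrix.transpose_nonsing_inv]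
      rw [Matrix.mul_assoc J.transpose K J, ← Matrix.mul_assoc,
        Matrix.mul_assoc (S * J + D).transpose, Matrix.nonsing_inv_mul _ hut, Matrix.mul_one,
        Matrix.mul_assoc]
    rw [e3, e4]
    simp only [Matrix.transpose_add, Matrix.transpose_mul, Matrix.add_mul, Matrix.mul_add,
      Matrix.mul_assoc]
    abel

end pull

end H31R
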