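import Pool.Agent.Lib.H31R.Stat

/-!
# H31R, part N1: partial derivatives of smooth functions, Christoffel symbols,
transformation of the Christoffel symbols under a smooth map
-/

open scoped ContDiff Topology
open Set

namespace H31R

variable {d : ℕ}

/-- `f` is of class `C^n` on `U` -/
abbrev Sm (n : ℕ) (U : Set (EE d)) (f : EE d → ℝ) : Prop := ContDiffOn ℝ n f U

section pd

variable {n : ℕ} {U : Set (EE d)} {f g : EE d → ℝ} {x : EE d}

theorem N_diff (hU : IsOpen U) (hf : Sm (n + 1) U f) (hx : x ∈ U) : DifferentiableAt ℝ f x :=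
  (hf.contDiffAt (hU.mem_nhds hx)).differentiableAt (by simp)

theorem N_le {m : ℕ} (hf : Sm n U f) (hm : m ≤ n) : Sm m U f := hf.of_le (by exact_mod_cast hm)

theorem N_pd_sm (hU : IsOpen U) (hf : Sm (n + 1) U f) (k : Fin d) : Sm n U (pd k f) := by
  have h := hf.fderiv_of_isOpen (m := n) hU (by simp)
  exact h.clm_apply contDiffOn_const

theorem N_pd_congr (k : Fin d) (h : f =ᶠ[𝓝 x] g) : pd k f x = pd k g x := by
  unfold pd; rw [h.fderiv_eq]

theorem N_pd_congr_on (hU : IsOpen U) (hx : x ∈ U) (k : Fin d) (h : ∀ y ∈ U, f y = g y) :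
    pd k f x = pd k g x :=
  N_pd_congr k (Filter.eventuallyEq_iff_exists_mem.2 ⟨U, hU.mem_nhds hx, fun y hy => h y hy⟩)

theorem N_pd_const (k : Fin d) (c : ℝ) : pd k (fun _ => c) x = 0 := by
  simp [pd]

theorem N_pd_add (hf : DifferentiableAt ℝ f x) (hg : DifferentiableAt ℝ g x) (k : Fin d) :
    pd k (fun y => f y + g y) x = pd k f x + pd k g x := by
  unfold pd; rw [fderiv_fun_add hf hg]; rfl

theorem N_pd_sub (hf : DifferentiableAt ℝ f x) (hg : DifferentiableAt ℝ g x) (k : Fin d) :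
    pd k (fun y => f y - g y) x = pd k f x - pd k g x := by
  unfold pd; rw [fderiv_fun_sub hf hg]; rfl

theorem N_pd_neg (k : Fin d) : pd k (fun y => - f y) x = - pd k f x := by
  unfold pd; rw [fderiv_fun_neg]; rfl

theorem N_pd_mul (hf : DifferentiableAt ℝ f x) (hg : DifferentiableAt ℝ g x) (k : Fin d) :
    pd k (fun y => f y * g y) x = pd k f x * g x + f x * pd k g x := by
  unfold pd; rw [fderiv_fun_mul hf hg]
  simp [smul_eq_mul]; ring

theorem N_pd_cmul (hf : DifferentiableAt ℝ f x) (c : ℝ) (k : Fin d) :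
    pd k (fun y => c * f y) x = c * pd k f x := by
  unfold pd; rw [fderiv_const_mul hf]; rfl

theorem N_pd_sum {ι : Type*} (s : Finset ι) (F : ι → EE d → ℝ)
    (hF : ∀ i ∈ s, DifferentiableAt ℝ (F i) x) (k : Fin d) :
    pd k (fun y => ∑ i ∈ s, F i y) x = ∑ i ∈ s, pd k (F i) x := by
  unfold pd; rw [fderiv_fun_sum hF]; simp

theorem N_pd_symm (hU : IsOpen U) (hf : Sm 2 U f) (hx : x ∈ U) (i j : Fin d) :
    pd i (pd j f) x = pd j (pd i f) x := by
  have hc : ContDiffAt ℝ 2 f x := hf.contDiffAt (hU.mem_nhds hx)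
  have hs : IsSymmSndFDerivAt ℝ f x := hc.isSymmSndFDerivAt (by
    rw [minSmoothness_of_isRCLikeNormedField])
  have hd : DifferentiableAt ℝ (fderiv ℝ f) x :=
    (hc.fderiv_right (m := 1) (by norm_cast)).differentiableAt (by simp)
  have key : ∀ i j : Fin d, pd i (pd j f) x = fderiv ℝ (fderiv ℝ f) x (ebas i) (ebas j) := by
    intro i j
    have : (pd j f) = fun y => fderiv ℝ f y (ebas j) := rfl
    unfold pd
    rw [fderiv_clm_apply hd (by fun_prop)]
    simp
  rw [key, key]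
  exact hs _ _

end pd

section matrix

variable {n : ℕ} {U : Set (EE d)} {x : EE d}

/-- matrices -/
abbrev Mt (d : ℕ) := Matrix (Fin d) (Fin d) ℝ

/-- matrix function of class `C^n` -/
def SmM (n : ℕ) (U : Set (EE d)) (A : EE d → Mt d) : Prop := ∀ i j, Sm n U (fun y => A y i j)

theorem N_leM {m : ℕ} {A : EE d → Mt d} (hA : SmM n U A) (hm : m ≤ n) : SmM m U A :=
  fun i j => N_le (hA i j) hm

/-- entrywise partial derivative -/
noncomputable def pdM (k : Fin d) (A : EE d → Mt d) (x : EE d) : Mt d :=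
  fun i j => pd k (fun y => A y i j) x

theorem N_det_sm {m : ℕ} (A : EE d → Matrix (Fin m) (Fin m) ℝ) (h : ∀ i j, Sm n U (fun y => A y i j)) :
    Sm n U (fun y => (A y).det) := by
  simp only [Matrix.det_apply']
  exact ContDiffOn.sum fun σ _ => contDiffOn_const.mul (contDiffOn_prod fun i _ => h _ _)

theorem N_mul_sm {A B : EE d → Mt d} (hA : SmM n U A) (hB : SmM n U B) : SmM n U (fun y => A y * B y) := by
  intro i j
  simp only [Matrix.mul_apply]
  exact ContDiffOn.sum fun k _ => (hA _ _).mul (hB _ _)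

theorem N_tr_sm {A : EE d → Mt d} (hA : SmM n U A) : SmM n U (fun y => (A y).transpose) :=
  fun i j => hA j i

theorem N_add_sm {A B : EE d → Mt d} (hA : SmM n U A) (hB : SmM n U B) : SmM n U (fun y => A y + B y) :=
  fun i j => (hA i j).add (hB i j)

theorem N_inv_sm {A : EE d → Mt d} (hA : SmM n U A) (hd : ∀ y ∈ U, (A y).det ≠ 0) :
    SmM n U (fun y => (A y)⁻¹) := by
  intro i j
  have h1 : Sm n U (fun y => ((A y).det)⁻¹) := (N_det_sm A hA).inv hd
  have h2 : Sm n U (fun y => (A y).adjugate i j) := by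
    simp only [Matrix.adjugate_apply]
    apply N_det_sm
    intro a b
    by_cases hab : a = j
    · subst hab
      simp only [Matrix.updateRow_self]
      exact contDiffOn_const
    · simp only [Matrix.updateRow_ne hab]
      exact hA a b
  refine (h1.mul h2).congr ?_
  intro y hy
  show (A y)⁻¹ i j = _
  rw [Matrix.inv_def, Ring.inverse_eq_inv']
  rfl

theorem N_pdM_sm (hU : IsOpen U) {A : EE d → Mt d} (hA : SmM (n + 1) U A) (k : Fin d) :
    SmM n U (pdM k A) := fun i j => N_pd_sm hU (hA i j) k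

theorem N_pdM_mul (hU : IsOpen U) (hx : x ∈ U) {A B : EE d → Mt d} (hA : SmM (n + 1) U A)
    (hB : SmM (n + 1) U B) (k : Fin d) : pdM k (fun y => A y * B y) x = pdM k A x * B x + A x * pdM k B x := by
  ext i j
  simp only [pdM, Matrix.mul_apply, Matrix.add_apply]
  rw [N_pd_sum, ← Finset.sum_add_distrib]
  · exact Finset.sum_congr rfl fun l _ => N_pd_mul (N_diff hU (hA _ _) hx) (N_diff hU (hB _ _) hx) k
  · exact fun l _ => (N_diff hU (hA _ _) hx).mul (N_diff hU (hB _ _) hx)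

theorem N_pdM_add (hU : IsOpen U) (hx : x ∈ U) {A B : EE d → Mt d} (hA : SmM (n + 1) U A)
    (hB : SmM (n + 1) U B) (k : Fin d) : pdM k (fun y => A y + B y) x = pdM k A x + pdM k B x := by
  ext i j
  exact N_pd_add (N_diff hU (hA _ _) hx) (N_diff hU (hB _ _) hx) k

theorem N_pdM_congr (hU : IsOpen U) (hx : x ∈ U) {A B : EE d → Mt d} (h : ∀ y ∈ U, A y = B y)
    (k : Fin d) : pdM k A x = pdM k B x := by
  ext i j
  exact N_pd_congr_on hU hx k fun y hy => by rw [h y hy]

theorem N_pdM_symm (hU : IsOpen U) (hx : x ∈ U) {A : EE d → Mt d} (hA : SmM 2 U A) (i j : Fin d) :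
    pdM i (pdM j A) x = pdM j (pdM i A) x := by
  ext a b
  exact N_pd_symm hU (hA a b) hx i j

theorem N_pdM_inv (hU : IsOpen U) (hx : x ∈ U) {A : EE d → Mt d} (hA : SmM (n + 1) U A)
    (hd : ∀ y ∈ U, (A y).det ≠ 0) (k : Fin d) :
    pdM k (fun y => (A y)⁻¹) x = - ((A x)⁻¹ * pdM k A x * (A x)⁻¹) := by
  have hi := N_inv_sm hA hd
  have hu : IsUnit (A x).det := isUnit_iff_ne_zero.2 (hd x hx)
  have h1 : pdM k (fun y => A y * (A y)⁻¹) x = 0 := by
    rw [N_pdM_congr hU hx (B := fun _ => (1 : Mt d))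
      (fun y hy => Matrix.mul_nonsing_inv _ (isUnit_iff_ne_zero.2 (hd y hy)))]
    ext i j
    exact N_pd_const k _
  rw [N_pdM_mul hU hx hA hi] at h1
  have h2 : (A x)⁻¹ * (pdM k A x * (A x)⁻¹ + A x * pdM k (fun y => (A y)⁻¹) x) = 0 := by
    rw [h1, Matrix.mul_zero]
  rw [Matrix.mul_add, ← Matrix.mul_assoc, ← Matrix.mul_assoc, Matrix.nonsing_inv_mul _ hu,
    Matrix.one_mul] at h2
  exact eq_neg_of_add_eq_zero_right h2

end matrix

section chr

variable {n : ℕ} {U : Set (EE d)} {x : EE d} {G : EE d → Mt d}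

/-- the matrix of Christoffel symbols `(l, j) ↦ Γ^l_{ij}` -/
noncomputable def chM (G : EE d → Mt d) (i : Fin d) (x : EE d) : Mt d := fun l j => chr G l i j x

theorem N_chr_sm (hU : IsOpen U) (hG : SmM (n + 1) U G) (hd : ∀ y ∈ U, (G y).det ≠ 0)
    (k i j : Fin d) : Sm n U (chr G k i j) := by
  unfold chr
  refine contDiffOn_const.mul (ContDiffOn.sum fun l _ =>
    (N_inv_sm (N_leM hG (Nat.le_succ n)) hd k l).mul ?_)
  exact ((N_pd_sm hU (hG j l) i).add (N_pd_sm hU (hG i l) j)).sub (N_pd_sm hU (hG i j) l)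

theorem N_chM_sm (hU : IsOpen U) (hG : SmM (n + 1) U G) (hd : ∀ y ∈ U, (G y).det ≠ 0)
    (i : Fin d) : SmM n U (chM G i) := fun l j => N_chr_sm hU hG hd l i j

theorem N_pdG_symm (hU : IsOpen U) (hx : x ∈ U) (hs : ∀ y ∈ U, ∀ i j, G y i j = G y j i)
    (k i j : Fin d) : pd k (fun y => G y i j) x = pd k (fun y => G y j i) x :=
  N_pd_congr_on hU hx k fun y hy => hs y hy i j

theorem N_chr_symm (hU : IsOpen U) (hx : x ∈ U) (hs : ∀ y ∈ U, ∀ i j, G y i j = G y j i)
    (k i j : Fin d) : chr G k i j x = chr G k j i x := by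
  unfold chr
  congr 1
  refine Finset.sum_congr rfl fun l _ => ?_
  rw [N_pdG_symm hU hx hs l i j]
  ring

/-- lowering the index -/
theorem N_chr_lower (hx : x ∈ U) (hs : ∀ y ∈ U, ∀ i j, G y i j = G y j i)
    (hd : ∀ y ∈ U, (G y).det ≠ 0) (i j k : Fin d) :
    ∑ l, chr G l i j x * G x l k = (1 / 2) *
      (pd i (fun y => G y j k) x + pd j (fun y => G y i k) x - pd k (fun y => G y i j) x) := by
  have hu : IsUnit (G x).det := isUnit_iff_ne_zero.2 (hd x hx)
  have h1 : G x * (G x)⁻¹ = 1 := Matrix.mul_nonsing_inv _ hu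
  set c : Fin d → ℝ := fun m =>
    pd i (fun y => G y j m) x + pd j (fun y => G y i m) x - pd m (fun y => G y i j) x with hc
  have h2 : ∀ l, chr G l i j x * G x l k = ∑ m, (1 / 2) * (c m * (G x k l * (G x)⁻¹ l m)) := by
    intro l
    unfold chr
    rw [Finset.mul_sum, Finset.sum_mul, hs x hx k l]
    refine Finset.sum_congr rfl fun m _ => ?_
    rw [hc]; ring
  simp only [h2]
  rw [Finset.sum_comm]
  have h3 : ∀ m, ∑ l, (1 / 2) * (c m * (G x k l * (G x)⁻¹ l m)) = (1 / 2) * (c m * (1 : Mt d) k m) := by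
    intro m
    rw [← h1, Matrix.mul_apply, Finset.mul_sum, Finset.mul_sum]
  simp only [h3, Matrix.one_apply]
  simp [hc]

theorem N_chM_compat (hU : IsOpen U) (hx : x ∈ U) (hs : ∀ y ∈ U, ∀ i j, G y i j = G y j i)
    (hd : ∀ y ∈ U, (G y).det ≠ 0) (i : Fin d) :
    pdM i G x = (chM G i x).transpose * G x + G x * chM G i x := by
  ext j k
  simp only [pdM, Matrix.add_apply, Matrix.mul_apply, Matrix.transpose_apply, chM]
  rw [N_chr_lower hx hs hd i j k]
  have h := N_chr_lower hx hs hd i k j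
  have h' : ∑ l, G x j l * chr G l i k x = ∑ l, chr G l i k x * G x l j :=
    Finset.sum_congr rfl fun l _ => by rw [hs x hx j l]; ring
  rw [h', h, N_pdG_symm hU hx hs i k j]
  ring

theorem N_chM_unique (hU : IsOpen U) (hx : x ∈ U) (hs : ∀ y ∈ U, ∀ i j, G y i j = G y j i)
    (hd : ∀ y ∈ U, (G y).det ≠ 0) (Γ : Fin d → Mt d) (hΓ : ∀ i j l, Γ i l j = Γ j l i)
    (hc : ∀ i, pdM i G x = (Γ i).transpose * G x + G x * Γ i) (i : Fin d) :
    chM G i x = Γ i := by
  have hu : IsUnit (G x).det := isUnit_iff_ne_zero.2 (hd x hx)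
  -- lowered symbols
  have hc' : ∀ i j k, pd i (fun y => G y j k) x = ∑ l, Γ i l j * G x l k + ∑ l, Γ i l k * G x l j := by
    intro i j k
    have := congrFun (congrFun (hc i) j) k
    simp only [pdM, Matrix.add_apply, Matrix.mul_apply, Matrix.transpose_apply] at this
    rw [this]
    congr 1
    exact Finset.sum_congr rfl fun l _ => by rw [hs x hx j l]; ring
  have hsw : ∀ i j k, ∑ l, Γ i l j * G x l k = ∑ l, Γ j l i * G x l k := by
    intro i j k
    exact Finset.sum_congr rfl fun l _ => by rw [hΓ i j l]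
  have key : G x * chM G i x = G x * Γ i := by
    ext k j
    simp only [Matrix.mul_apply, chM]
    have h1 : ∑ l, G x k l * chr G l i j x = ∑ l, chr G l i j x * G x l k :=
      Finset.sum_congr rfl fun l _ => by rw [hs x hx k l]; ring
    have h2 : ∑ l, G x k l * Γ i l j = ∑ l, Γ i l j * G x l k :=
      Finset.sum_congr rfl fun l _ => by rw [hs x hx k l]; ring
    rw [h1, h2, N_chr_lower hx hs hd i j k, hc' i j k, hc' j i k, hc' k i j]
    rw [hsw j i k, hsw i k j, hsw j k i]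
    ring
  have h3 : (G x)⁻¹ * (G x * chM G i x) = (G x)⁻¹ * (G x * Γ i) := by rw [key]
  rwa [← Matrix.mul_assoc, ← Matrix.mul_assoc, Matrix.nonsing_inv_mul _ hu, Matrix.one_mul,
    Matrix.one_mul] at h3

end chr

end H31R
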