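import Pool.Agent.Lib.H31R.Defs

/-!
# H31R, chunk B1: the function `Uf`
`Uf x = x S(x) + (1 - S(x)) sign x / 4`, `S(x) = smoothTransition ((64/3)(1/16 - x^2))`, which is
`1` for `|x| ≤ 1/8` and `0` for `|x| ≥ 1/4` (`Real.smoothTransition`: `0` for `x ≤ 0`, `1` for `1 ≤ x`,
smooth, values in `[0,1]`).
-/

open scoped ContDiff
open Real

namespace H31R

/-- auxiliary: the cutoff in `Uf` -/
noncomputable def B1S (x : ℝ) : ℝ := Real.smoothTransition ((64 / 3) * (1 / 16 - x ^ 2))

theorem B1_def (x : ℝ) : Uf x = x * B1S x + (1 - B1S x) * (SignType.sign x : ℝ) / 4 := rfl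

theorem B1S_smooth : ContDiff ℝ ∞ B1S := by
  unfold B1S
  exact Real.smoothTransition.contDiff.comp
    (contDiff_const.mul (contDiff_const.sub (contDiff_id.pow 2)))

theorem B1S_one {x : ℝ} (h : |x| ≤ 1 / 8) : B1S x = 1 := by
  unfold B1S
  apply Real.smoothTransition.one_of_one_le
  have h1 := abs_le.1 h
  nlinarith

theorem B1S_zero {x : ℝ} (h : 1 / 4 ≤ |x|) : B1S x = 0 := by
  unfold B1S
  apply Real.smoothTransition.zero_of_nonpos
  have h1 : (1 / 4 : ℝ) ^ 2 ≤ |x| ^ 2 := pow_le_pow_left₀ (by norm_num) h 2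
  rw [sq_abs] at h1
  nlinarith

theorem B1S_nonneg (x : ℝ) : 0 ≤ B1S x := Real.smoothTransition.nonneg _
theorem B1S_le (x : ℝ) : B1S x ≤ 1 := Real.smoothTransition.le_one _

theorem Uf_eq {x : ℝ} (h : |x| ≤ 1 / 8) : Uf x = x := by
  rw [B1_def, B1S_one h]
  ring

theorem B1_pos {x : ℝ} (h : 0 < x) : Uf x = x * B1S x + (1 - B1S x) * 1 / 4 := by
  rw [B1_def, sign_pos h]
  simp

theorem B1_neg {x : ℝ} (h : x < 0) : Uf x = x * B1S x + (1 - B1S x) * (-1) / 4 := by
  rw [B1_def, sign_neg h]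
  simp

/-- Near `0` the second summand vanishes, away from `0` the sign is locally constant. -/
theorem Uf_smooth : ContDiff ℝ ∞ Uf := by
  rw [contDiff_iff_contDiffAt]
  intro x
  rcases lt_trichotomy x 0 with h | h | h
  · have h1 : Uf =ᶠ[nhds x] fun y => y * B1S y + (1 - B1S y) * (-1) / 4 := by
      filter_upwards [eventually_lt_nhds h] with y hy
      exact B1_neg hy
    refine ContDiffAt.congr_of_eventuallyEq ?_ h1
    have h2 : ContDiff ℝ ∞ fun y => y * B1S y + (1 - B1S y) * (-1) / 4 :=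
      (contDiff_id.mul B1S_smooth).add
        (((contDiff_const.sub B1S_smooth).mul contDiff_const).div_const _)
    exact h2.contDiffAt
  · have h1 : Uf =ᶠ[nhds x] fun y => y := by
      have h2 : ∀ᶠ y in nhds x, |y| < 1 / 8 := by
        have h3 : Filter.Tendsto (fun y : ℝ => |y|) (nhds x) (nhds |x|) :=
          continuous_abs.continuousAt
        exact h3.eventually_lt_const (by rw [h, abs_zero]; norm_num)
      filter_upwards [h2] with y hy
      exact Uf_eq hy.le
    exact ContDiffAt.congr_of_eventuallyEq contDiff_id.contDiffAt h1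
  · have h1 : Uf =ᶠ[nhds x] fun y => y * B1S y + (1 - B1S y) * 1 / 4 := by
      filter_upwards [eventually_gt_nhds h] with y hy
      exact B1_pos hy
    refine ContDiffAt.congr_of_eventuallyEq ?_ h1
    have h2 : ContDiff ℝ ∞ fun y => y * B1S y + (1 - B1S y) * 1 / 4 :=
      (contDiff_id.mul B1S_smooth).add
        (((contDiff_const.sub B1S_smooth).mul contDiff_const).div_const _)
    exact h2.contDiffAt

theorem Uf_right {x : ℝ} (h : 1 / 4 ≤ x) : Uf x = 1 / 4 := by
  rw [B1_pos (by linarith), B1S_zero (by rw [abs_of_pos (by linarith)]; exact h)]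
  ring

theorem Uf_left {x : ℝ} (h : x ≤ -(1 / 4)) : Uf x = -(1 / 4) := by
  rw [B1_neg (by linarith), B1S_zero (by rw [abs_of_neg (by linarith)]; linarith)]
  ring

theorem B1S_even (x : ℝ) : B1S (-x) = B1S x := by
  unfold B1S
  rw [neg_sq]

theorem Uf_odd (x : ℝ) : Uf (-x) = -Uf x := by
  rcases lt_trichotomy x 0 with h | h | h
  · rw [B1_neg h, B1_pos (neg_pos.2 h), B1S_even]
    ring
  · subst h
    rw [neg_zero, Uf_eq (by norm_num)]
    simp
  · rw [B1_pos h, B1_neg (neg_lt_zero.2 h), B1S_even]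
    ring

/-- a convex combination of `x ≥ 1/8` and `1/4` -/
theorem Uf_ge {x : ℝ} (h : 1 / 8 ≤ x) : 1 / 8 ≤ Uf x := by
  rw [B1_pos (by linarith)]
  have h1 := B1S_nonneg x
  have h2 := B1S_le x
  nlinarith

theorem Uf_abs_ge {x : ℝ} : min |x| (1 / 8) ≤ |Uf x| := by
  have key : ∀ y : ℝ, 0 ≤ y → min |y| (1 / 8) ≤ |Uf y| := by
    intro y hy
    by_cases h : y ≤ 1 / 8
    · rw [Uf_eq (by rw [abs_of_nonneg hy]; exact h)]
      exact min_le_left _ _
    · refine (min_le_right _ _).trans ((Uf_ge (by linarith)).trans (le_abs_self _))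
  rcases le_total 0 x with h | h
  · exact key x h
  · have := key (-x) (by linarith)
    rwa [Uf_odd, abs_neg, abs_neg] at this

theorem Uf_abs_le (x : ℝ) : |Uf x| ≤ 1 := by
  have key : ∀ y : ℝ, 0 ≤ y → |Uf y| ≤ 1 := by
    intro y hy
    rcases hy.eq_or_lt with h0 | h0
    · rw [← h0, Uf_eq (by norm_num)]
      norm_num
    · by_cases h : y ≤ 1 / 4
      · rw [B1_pos h0, abs_le]
        have h1 := B1S_nonneg y
        have h2 := B1S_le y
        constructor <;> nlinarith
      · rw [Uf_right (by linarith), abs_le]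
        constructor <;> norm_num
  rcases le_total 0 x with h | h
  · exact key x h
  · have := key (-x) (by linarith)
    rwa [Uf_odd, abs_neg] at this

theorem B1_d_zero {x : ℝ} (h : 1 / 4 < |x|) : deriv Uf x = 0 := by
  rcases lt_abs.1 h with h1 | h1
  · have h2 : Uf =ᶠ[nhds x] fun _ => (1 / 4 : ℝ) := by
      filter_upwards [eventually_gt_nhds h1] with y hy
      exact Uf_right hy.le
    rw [h2.deriv_eq]
    simp
  · have h2 : Uf =ᶠ[nhds x] fun _ => (-(1 / 4) : ℝ) := by
      filter_upwards [eventually_lt_nhds (show x < -(1 / 4) by linarith)] with y hy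
      exact Uf_left hy.le
    rw [h2.deriv_eq]
    simp

theorem B1_dd_zero {x : ℝ} (h : 1 / 4 < |x|) : deriv (deriv Uf) x = 0 := by
  have h2 : deriv Uf =ᶠ[nhds x] fun _ => (0 : ℝ) := by
    have h3 : Filter.Tendsto (fun y : ℝ => |y|) (nhds x) (nhds |x|) :=
      continuous_abs.continuousAt
    filter_upwards [h3.eventually_const_lt h] with y hy
    exact B1_d_zero hy
  rw [h2.deriv_eq]
  simp

theorem B1_bdd {f : ℝ → ℝ} (hf : Continuous f) (h0 : ∀ x, 1 / 4 < |x| → f x = 0) :
    ∃ C : ℝ, 0 < C ∧ ∀ x, |f x| ≤ C := by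
  obtain ⟨C, hC⟩ := (isCompact_Icc (a := (-1 : ℝ)) (b := 1)).exists_bound_of_continuousOn
    hf.continuousOn
  refine ⟨|C| + 1, by positivity, fun x => ?_⟩
  by_cases h : 1 / 4 < |x|
  · rw [h0 x h, abs_zero]
    positivity
  · have h1 := abs_le.1 (not_lt.1 h)
    have h2 := hC x ⟨by linarith, by linarith⟩
    rw [Real.norm_eq_abs] at h2
    linarith [le_abs_self C]

theorem B1_cont_d : Continuous (deriv Uf) :=
  Uf_smooth.continuous_deriv (by simp)

theorem B1_cont_dd : Continuous (deriv (deriv Uf)) := by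
  have h : ContDiff ℝ 1 (deriv Uf) := by
    have h1 : ContDiff ℝ (1 + 1) Uf := by
      have h2 := contDiff_infty.1 Uf_smooth 2
      have h3 : ((2 : ℕ) : WithTop ℕ∞) = 1 + 1 := by norm_num
      rwa [h3] at h2
    exact (contDiff_succ_iff_deriv.1 h1).2.2
  exact h.continuous_deriv le_rfl

/-- The second derivative is continuous and vanishes for `|x| > 1/4`. -/
theorem Uf_dd_bdd : ∃ C : ℝ, 0 < C ∧ ∀ x, |deriv (deriv Uf) x| ≤ C :=
  B1_bdd B1_cont_dd fun _ h => B1_dd_zero h

theorem Uf_d_bdd : ∃ C : ℝ, 0 < C ∧ ∀ x, |deriv Uf x| ≤ C :=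
  B1_bdd B1_cont_d fun _ h => B1_d_zero h

theorem Uf_dd_zero {x : ℝ} (h : |x| < 1 / 8) : deriv (deriv Uf) x = 0 := by
  have h3 : ∀ y : ℝ, |y| < 1 / 8 → deriv Uf y = 1 := by
    intro y hy
    have h1 : Uf =ᶠ[nhds y] fun z => z := by
      have h3 : Filter.Tendsto (fun y : ℝ => |y|) (nhds y) (nhds |y|) :=
        continuous_abs.continuousAt
      filter_upwards [h3.eventually_lt_const hy] with z hz
      exact Uf_eq hz.le
    rw [h1.deriv_eq]
    simp
  have h2 : deriv Uf =ᶠ[nhds x] fun _ => (1 : ℝ) := by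
    have h4 : Filter.Tendsto (fun y : ℝ => |y|) (nhds x) (nhds |x|) :=
      continuous_abs.continuousAt
    filter_upwards [h4.eventually_lt_const h] with y hy
    exact h3 y hy
  rw [h2.deriv_eq]
  simp

end H31R
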