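import Pool.Agent.Lib.H31R.Defs

/-!
# H31R, chunk B2: the function `vf k x = exp (-K) / (1 + K)^2 * chi0 x * cosh (K x)`
-/

open scoped ContDiff
open Real

namespace H31R

theorem chi0_smooth : ContDiff ℝ ∞ chi0 := by
  unfold chi0
  exact Real.smoothTransition.contDiff.comp (by fun_prop)

theorem chi0_one {x : ℝ} (h : |x| ≤ 1 / 16) : chi0 x = 1 := by
  unfold chi0
  apply Real.smoothTransition.one_of_one_le
  have h1 : x ^ 2 ≤ (1 / 16) ^ 2 := sq_le_sq' (by linarith [neg_abs_le x]) (by linarith [le_abs_self x])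
  linarith

theorem chi0_zero {x : ℝ} (h : 1 / 8 ≤ |x|) : chi0 x = 0 := by
  unfold chi0
  apply Real.smoothTransition.zero_of_nonpos
  have h1 : (1 / 8) ^ 2 ≤ x ^ 2 := by
    rw [← sq_abs x]
    exact pow_le_pow_left₀ (by norm_num) h 2
  linarith

theorem chi0_mem (x : ℝ) : 0 ≤ chi0 x ∧ chi0 x ≤ 1 := by
  unfold chi0
  exact ⟨Real.smoothTransition.nonneg _, Real.smoothTransition.le_one _⟩

theorem vf_smooth (k : ℕ) : ContDiff ℝ ∞ (vf k) := by
  unfold vf
  exact (contDiff_const.mul chi0_smooth).mul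
    (Real.contDiff_cosh.comp (contDiff_const.mul contDiff_id))

theorem vf_zero (k : ℕ) {x : ℝ} (h : 1 / 8 ≤ |x|) : vf k x = 0 := by
  unfold vf
  rw [chi0_zero h, mul_zero, zero_mul]

theorem B2_KK_nonneg (k : ℕ) : 0 ≤ KK k := by
  unfold KK
  have := Real.pi_pos
  positivity

theorem B2_c_pos (k : ℕ) : 0 < exp (-KK k) / (1 + KK k) ^ 2 := by
  have := B2_KK_nonneg k
  have h1 := exp_pos (-KK k)
  have h2 : 0 < 1 + KK k := by linarith
  exact div_pos h1 (pow_pos h2 2)

theorem vf_nonneg (k : ℕ) (x : ℝ) : 0 ≤ vf k x := by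
  unfold vf
  exact mul_nonneg (mul_nonneg (B2_c_pos k).le (chi0_mem x).1) (cosh_pos _).le

theorem vf_pos (k : ℕ) {x : ℝ} (h : |x| ≤ 1 / 16) : 0 < vf k x := by
  unfold vf
  rw [chi0_one h, mul_one]
  exact mul_pos (B2_c_pos k) (cosh_pos _)

theorem B2_cosh_le (y : ℝ) : cosh y ≤ exp |y| := by
  rw [cosh_eq]
  have h1 : exp y ≤ exp |y| := exp_le_exp.2 (le_abs_self y)
  have h2 : exp (-y) ≤ exp |y| := exp_le_exp.2 (neg_le_abs y)
  linarith

theorem B2_sinh_le (y : ℝ) : |sinh y| ≤ exp |y| := by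
  rw [sinh_eq, abs_le]
  have h1 : exp y ≤ exp |y| := exp_le_exp.2 (le_abs_self y)
  have h2 : exp (-y) ≤ exp |y| := exp_le_exp.2 (neg_le_abs y)
  have h3 := exp_pos y
  have h4 := exp_pos (-y)
  have h5 := exp_pos |y|
  constructor <;> linarith

theorem B2_exp_le {k : ℕ} {x : ℝ} (h : |x| ≤ 1 / 8) :
    exp (-KK k) * exp |KK k * x| ≤ 1 := by
  have hK := B2_KK_nonneg k
  rw [← exp_add, exp_le_one_iff, abs_mul, abs_of_nonneg hK]
  nlinarith

/-- `cosh (K x) ≤ exp (K / 8)` where `chi0 x ≠ 0`. -/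
theorem vf_le (k : ℕ) (x : ℝ) : vf k x ≤ 1 := by
  rcases le_total (1 / 8) |x| with h | h
  · rw [vf_zero k h]
    norm_num
  · unfold vf
    have hK := B2_KK_nonneg k
    have h1 : (1 : ℝ) ≤ (1 + KK k) ^ 2 := by nlinarith
    have h2 : exp (-KK k) * cosh (KK k * x) ≤ 1 :=
      (mul_le_mul_of_nonneg_left (B2_cosh_le _) (exp_pos _).le).trans (B2_exp_le h)
    have h3 := (chi0_mem x).1
    have h4 := (chi0_mem x).2
    have h5 : exp (-KK k) / (1 + KK k) ^ 2 * chi0 x * cosh (KK k * x) =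
      (exp (-KK k) * cosh (KK k * x)) * (chi0 x / (1 + KK k) ^ 2) := by ring
    rw [h5]
    have h6 : chi0 x / (1 + KK k) ^ 2 ≤ 1 := by
      rw [div_le_one (by linarith)]
      linarith
    have h7 : 0 ≤ chi0 x / (1 + KK k) ^ 2 := by positivity
    have h8 : 0 ≤ exp (-KK k) * cosh (KK k * x) := mul_nonneg (exp_pos _).le (cosh_pos _).le
    calc _ ≤ 1 * 1 := mul_le_mul h2 h6 h7 (by norm_num)
      _ = 1 := by norm_num

theorem B2_deriv_cosh (c K : ℝ) : deriv (fun x : ℝ => c * cosh (K * x)) =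
    fun x => c * (K * sinh (K * x)) := by
  funext x
  have h1 : HasDerivAt (fun x : ℝ => K * x) K x := by
    simpa using (hasDerivAt_id x).const_mul K
  have h2 := (h1.cosh).const_mul c
  rw [h2.deriv]
  ring

theorem B2_deriv_sinh (c K : ℝ) : deriv (fun x : ℝ => c * (K * sinh (K * x))) =
    fun x => c * (K ^ 2 * cosh (K * x)) := by
  funext x
  have h1 : HasDerivAt (fun x : ℝ => K * x) K x := by
    simpa using (hasDerivAt_id x).const_mul K
  have h2 := ((h1.sinh).const_mul K).const_mul c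
  rw [h2.deriv]
  ring

/-- `v'' = K^2 v` where `chi0 = 1`. -/
theorem vf_dd_eq (k : ℕ) {x : ℝ} (h : |x| < 1 / 16) :
    deriv (deriv (vf k)) x = KK k ^ 2 * vf k x := by
  set c : ℝ := exp (-KK k) / (1 + KK k) ^ 2 with hc
  have hopen : IsOpen {y : ℝ | |y| < 1 / 16} := isOpen_lt continuous_abs continuous_const
  have he : vf k =ᶠ[nhds x] fun y => c * cosh (KK k * y) := by
    filter_upwards [hopen.mem_nhds h] with y hy
    have hy' : |y| ≤ 1 / 16 := le_of_lt hy
    unfold vf
    rw [chi0_one hy', mul_one]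
  rw [he.deriv.deriv_eq, B2_deriv_cosh, B2_deriv_sinh, he.eq_of_nhds]
  ring

/-- `v'' - K^2 v = exp (-K) / (1 + K)^2 * (chi0'' cosh (K x) + 2 K chi0' sinh (K x))`, with `chi0'`, `chi0''`
bounded and zero for `|x| > 1/8`, where `cosh (K x), |sinh (K x)| ≤ exp (K |x|)`. The constant does
not depend on `k`. -/
theorem vf_dd_bdd : ∃ C : ℝ, 0 < C ∧ ∀ (k : ℕ) (x : ℝ),
    |deriv (deriv (vf k)) x - KK k ^ 2 * vf k x| ≤ C := by
  have hs := contDiff_infty_iff_deriv.1 chi0_smooth
  have hs2 := contDiff_infty_iff_deriv.1 hs.2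
  obtain ⟨M1, hM1⟩ := (isCompact_Icc (a := (-(1 / 8) : ℝ)) (b := 1 / 8)).exists_bound_of_continuousOn
    hs.2.continuous.continuousOn
  obtain ⟨M2, hM2⟩ := (isCompact_Icc (a := (-(1 / 8) : ℝ)) (b := 1 / 8)).exists_bound_of_continuousOn
    hs2.2.continuous.continuousOn
  have hM1' : 0 ≤ M1 := (norm_nonneg _).trans (hM1 0 ⟨by norm_num, by norm_num⟩)
  have hM2' : 0 ≤ M2 := (norm_nonneg _).trans (hM2 0 ⟨by norm_num, by norm_num⟩)
  refine ⟨M2 + 2 * M1 + 1, by linarith, ?_⟩
  intro k x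
  have hK := B2_KK_nonneg k
  rcases lt_or_ge (1 / 8) |x| with h | h
  · have hopen : IsOpen {y : ℝ | 1 / 8 < |y|} := isOpen_lt continuous_const continuous_abs
    have he : vf k =ᶠ[nhds x] fun _ => (0 : ℝ) := by
      filter_upwards [hopen.mem_nhds h] with y hy
      exact vf_zero k (le_of_lt hy)
    rw [he.deriv.deriv_eq, he.eq_of_nhds]
    simp
    linarith
  · set c : ℝ := exp (-KK k) / (1 + KK k) ^ 2 with hc
    have hcosh : ∀ y : ℝ, HasDerivAt (fun y => cosh (KK k * y)) (KK k * sinh (KK k * y)) y := by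
      intro y
      have h1 : HasDerivAt (fun x : ℝ => KK k * x) (KK k) y := by
        simpa using (hasDerivAt_id y).const_mul (KK k)
      have h2 := h1.cosh
      rwa [mul_comm] at h2
    have hsinh : ∀ y : ℝ, HasDerivAt (fun y => sinh (KK k * y)) (KK k * cosh (KK k * y)) y := by
      intro y
      have h1 : HasDerivAt (fun x : ℝ => KK k * x) (KK k) y := by
        simpa using (hasDerivAt_id y).const_mul (KK k)
      have h2 := h1.sinh
      rwa [mul_comm] at h2
    have hd1 : deriv (vf k) = fun y => c * (deriv chi0 y * cosh (KK k * y) +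
        chi0 y * (KK k * sinh (KK k * y))) := by
      funext y
      have h1 := ((hs.1 y).hasDerivAt.mul (hcosh y)).const_mul c
      have h2 : vf k = fun y => c * (chi0 y * cosh (KK k * y)) := by
        funext z
        unfold vf
        ring
      rw [h2]
      exact h1.deriv
    have hd2 : deriv (deriv (vf k)) x = c * ((deriv (deriv chi0) x * cosh (KK k * x) +
        deriv chi0 x * (KK k * sinh (KK k * x))) + (deriv chi0 x * (KK k * sinh (KK k * x)) +
        chi0 x * (KK k * (KK k * cosh (KK k * x))))) := by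
      rw [hd1]
      have h1 := (((hs2.1 x).hasDerivAt.mul (hcosh x)).add
        ((hs.1 x).hasDerivAt.mul ((hsinh x).const_mul (KK k)))).const_mul c
      exact h1.deriv
    have hx : x ∈ Set.Icc (-(1 / 8) : ℝ) (1 / 8) := abs_le.1 h
    have hb1 : |deriv chi0 x| ≤ M1 := hM1 x hx
    have hb2 : |deriv (deriv chi0) x| ≤ M2 := hM2 x hx
    have hE := B2_exp_le (k := k) h
    have hE0 : 0 ≤ exp |KK k * x| := (exp_pos _).le
    have hc1 : 0 ≤ exp (-KK k) := (exp_pos _).le
    have he : deriv (deriv (vf k)) x - KK k ^ 2 * vf k x =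
        (exp (-KK k) * (deriv (deriv chi0) x * cosh (KK k * x) +
          2 * KK k * (deriv chi0 x * sinh (KK k * x)))) / (1 + KK k) ^ 2 := by
      rw [hd2]
      unfold vf
      rw [hc]
      ring
    have h1K : (0 : ℝ) < (1 + KK k) ^ 2 := by positivity
    rw [he, abs_div, abs_of_pos h1K, div_le_iff₀ h1K, abs_mul, abs_of_nonneg hc1]
    have hq1 : |deriv (deriv chi0) x * cosh (KK k * x)| ≤ M2 * exp |KK k * x| := by
      rw [abs_mul, abs_of_pos (cosh_pos _)]
      exact mul_le_mul hb2 (B2_cosh_le _) (cosh_pos _).le hM2'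
    have hq2 : |2 * KK k * (deriv chi0 x * sinh (KK k * x))| ≤
        2 * KK k * (M1 * exp |KK k * x|) := by
      rw [abs_mul, abs_of_nonneg (by positivity : (0 : ℝ) ≤ 2 * KK k), abs_mul]
      exact mul_le_mul_of_nonneg_left (mul_le_mul hb1 (B2_sinh_le _) (abs_nonneg _) hM1')
        (by positivity)
    have hq3 : |deriv (deriv chi0) x * cosh (KK k * x) +
          2 * KK k * (deriv chi0 x * sinh (KK k * x))| ≤
        (M2 + 2 * KK k * M1) * exp |KK k * x| := by
      refine (abs_add_le _ _).trans ?_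
      linarith
    calc exp (-KK k) * |deriv (deriv chi0) x * cosh (KK k * x) +
          2 * KK k * (deriv chi0 x * sinh (KK k * x))|
        ≤ exp (-KK k) * ((M2 + 2 * KK k * M1) * exp |KK k * x|) :=
          mul_le_mul_of_nonneg_left hq3 hc1
      _ = (M2 + 2 * KK k * M1) * (exp (-KK k) * exp |KK k * x|) := by ring
      _ ≤ (M2 + 2 * KK k * M1) * 1 :=
          mul_le_mul_of_nonneg_left hE (by positivity)
      _ ≤ (M2 + 2 * M1 + 1) * (1 + KK k) ^ 2 := by
          nlinarith [mul_nonneg hM1' hK, mul_nonneg hM2' hK, mul_nonneg hK hK,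
            mul_nonneg hM1' (mul_nonneg hK hK), mul_nonneg hM2' (mul_nonneg hK hK)]

end H31R
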