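import Pool.Agent.Lib.H31R.B1
import Pool.Agent.Lib.H31R.B2

/-!
# H31R, chunk B3: the function `auf k = sqrt (Uf^2 + vf^2)` and the profile functions
-/

open scoped ContDiff
open Real

namespace H31R

theorem B3_U_ge {x : ℝ} (h : 1 / 16 ≤ |x|) : 1 / 16 ≤ |Uf x| := by
  have h1 := Uf_abs_ge (x := x)
  rcases le_total |x| (1 / 8) with h2 | h2
  · rw [min_eq_left h2] at h1
    linarith
  · rw [min_eq_right h2] at h1
    linarith

theorem B3_sq_pos (k : ℕ) (x : ℝ) : 0 < Uf x ^ 2 + vf k x ^ 2 := by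
  rcases le_total |x| (1 / 16) with h | h
  · have := vf_pos k h
    positivity
  · have h1 := B3_U_ge h
    have h2 : Uf x ^ 2 = |Uf x| ^ 2 := (sq_abs _).symm
    have h3 : 0 < |Uf x| := by linarith
    rw [h2]
    positivity

/-- For `|x| ≤ 1/16` one has `vf > 0`; for `|x| ≥ 1/16` one has `|Uf x| ≥ 1/16` (`Uf_abs_ge`). -/
theorem auf_pos (k : ℕ) (x : ℝ) : 0 < auf k x :=
  Real.sqrt_pos.2 (B3_sq_pos k x)

theorem auf_sq (k : ℕ) (x : ℝ) : auf k x ^ 2 = Uf x ^ 2 + vf k x ^ 2 :=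
  Real.sq_sqrt (B3_sq_pos k x).le

theorem auf_smooth (k : ℕ) : ContDiff ℝ ∞ (auf k) := by
  have h : ContDiff ℝ ∞ (fun x => Uf x ^ 2 + vf k x ^ 2) :=
    (Uf_smooth.pow 2).add ((vf_smooth k).pow 2)
  exact h.sqrt (fun x => (B3_sq_pos k x).ne')

theorem auf_ge (k : ℕ) {x : ℝ} (h : 1 / 16 ≤ |x|) : 1 / 16 ≤ auf k x := by
  refine Real.le_sqrt_of_sq_le ?_
  have h1 := B3_U_ge h
  have h2 : Uf x ^ 2 = |Uf x| ^ 2 := (sq_abs _).symm
  rw [h2]
  nlinarith [sq_nonneg (vf k x)]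

theorem auf_le (k : ℕ) (x : ℝ) : auf k x ≤ 2 := by
  refine Real.sqrt_le_iff.2 ⟨by norm_num, ?_⟩
  have h1 := Uf_abs_le x
  have h2 := vf_le k x
  have h3 := vf_nonneg k x
  have h4 := abs_le.1 h1
  nlinarith [h4.1, h4.2]

theorem auf_const (k : ℕ) {x : ℝ} (h : 1 / 4 ≤ |x|) : auf k x = 1 / 4 := by
  have hv : vf k x = 0 := vf_zero k (by linarith)
  have hU : Uf x ^ 2 = (1 / 4) ^ 2 := by
    rcases le_total 0 x with h0 | h0
    · rw [abs_of_nonneg h0] at h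
      rw [Uf_right h]
    · rw [abs_of_nonpos h0] at h
      rw [Uf_left (by linarith)]
      ring
  unfold auf
  rw [hv, hU]
  rw [show ((1 : ℝ) / 4) ^ 2 + 0 ^ 2 = (1 / 4) ^ 2 by ring]
  exact Real.sqrt_sq (by norm_num)

theorem B3_deriv_smooth {f : ℝ → ℝ} (hf : ContDiff ℝ ∞ f) : ContDiff ℝ ∞ (deriv f) :=
  (contDiff_infty_iff_deriv.1 hf).2

theorem B3_hd {f : ℝ → ℝ} (hf : ContDiff ℝ ∞ f) (x : ℝ) : HasDerivAt f (deriv f x) x :=
  ((contDiff_infty_iff_deriv.1 hf).1 x).hasDerivAt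

/-- `a a' = U U' + v v'` -/
theorem B3_aa (k : ℕ) (x : ℝ) :
    auf k x * deriv (auf k) x = Uf x * deriv Uf x + vf k x * deriv (vf k) x := by
  have h1 : HasDerivAt (fun y => auf k y ^ 2) _ x := (B3_hd (auf_smooth k) x).pow 2
  have h2 : HasDerivAt (fun y => Uf y ^ 2 + vf k y ^ 2) _ x :=
    ((B3_hd Uf_smooth x).pow 2).add ((B3_hd (vf_smooth k) x).pow 2)
  have h3 : (fun y => auf k y ^ 2) = fun y => Uf y ^ 2 + vf k y ^ 2 := by
    funext y
    exact auf_sq k y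
  rw [h3] at h1
  have h4 := h1.unique h2
  simp only [Nat.cast_ofNat, Nat.add_one_sub_one, pow_one] at h4
  linarith

theorem b1_smooth (k : ℕ) : ContDiff ℝ ∞ (prof k).b1 :=
  (contDiff_const.mul (vf_smooth k)).div (auf_smooth k) (fun x => (auf_pos k x).ne')

theorem b2_smooth (k : ℕ) : ContDiff ℝ ∞ (prof k).b2 := by
  refine (((B3_deriv_smooth (vf_smooth k)).mul Uf_smooth).sub
    ((vf_smooth k).mul (B3_deriv_smooth Uf_smooth))).div
    (contDiff_const.mul ((auf_smooth k).pow 2)) (fun x => ?_)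
  have := auf_pos k x
  positivity

theorem b3_smooth (k : ℕ) : ContDiff ℝ ∞ (prof k).b3 :=
  (contDiff_const.mul Uf_smooth).div (auf_smooth k) (fun x => (auf_pos k x).ne')

theorem b1_zero (k : ℕ) {x : ℝ} (h : 1 / 8 ≤ |x|) : (prof k).b1 x = 0 := by
  show -(KK k / 2) * vf k x / auf k x = 0
  rw [vf_zero k h, mul_zero, zero_div]

/-- `vf k` vanishes for `|x| ≥ 1/8` (also its derivative, by continuity at `|x| = 1/8`). -/
theorem b2_zero (k : ℕ) {x : ℝ} (h : 1 / 8 ≤ |x|) : (prof k).b2 x = 0 := by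
  have hv := vf_zero k h
  have hd : deriv (vf k) x = 0 := by
    refine IsLocalMin.deriv_eq_zero (Filter.Eventually.of_forall fun y => ?_)
    rw [hv]
    exact vf_nonneg k y
  show (deriv (vf k) x * Uf x - vf k x * deriv Uf x) / (2 * auf k x ^ 2) = 0
  rw [hv, hd, zero_mul, zero_mul, sub_zero, zero_div]

theorem b3_right (k : ℕ) {x : ℝ} (h : 1 / 8 ≤ x) : (prof k).b3 x = KK k / 2 := by
  have hv : vf k x = 0 := vf_zero k (le_trans h (le_abs_self x))
  have hU := Uf_ge h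
  have ha : auf k x = Uf x := by
    unfold auf
    rw [hv, show Uf x ^ 2 + 0 ^ 2 = Uf x ^ 2 by ring]
    exact Real.sqrt_sq (by linarith)
  show KK k / 2 * Uf x / auf k x = KK k / 2
  rw [ha]
  exact mul_div_cancel_right₀ _ (by linarith)

theorem b3_left (k : ℕ) {x : ℝ} (h : x ≤ -(1 / 8)) : (prof k).b3 x = -(KK k / 2) := by
  have hv : vf k x = 0 := vf_zero k (by rw [abs_of_nonpos (by linarith)]; linarith)
  have hU : 1 / 8 ≤ Uf (-x) := Uf_ge (by linarith)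
  rw [Uf_odd] at hU
  have ha : auf k x = -Uf x := by
    unfold auf
    rw [hv, show Uf x ^ 2 + 0 ^ 2 = (-Uf x) ^ 2 by ring]
    exact Real.sqrt_sq (by linarith)
  show KK k / 2 * Uf x / auf k x = -(KK k / 2)
  rw [ha]
  have : Uf x ≠ 0 := by
    intro h0
    rw [h0] at hU
    norm_num at hU
  field_simp

/-- `b1 = -(K/2) v/a`, `b3 = (K/2) U/a`, `b2 = (v'U - vU')/(2 a^2)`, `a^2 = U^2 + v^2`. -/
theorem b1_deriv (k : ℕ) (x : ℝ) :
    deriv (prof k).b1 x = -(2 * (prof k).b2 x * (prof k).b3 x) := by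
  have ha := (auf_pos k x).ne'
  have h1 : HasDerivAt (fun y => -(KK k / 2) * vf k y / auf k y) _ x :=
    ((B3_hd (vf_smooth k) x).const_mul (-(KK k / 2))).div (B3_hd (auf_smooth k) x) ha
  have h2 : deriv (prof k).b1 x = _ := h1.deriv
  rw [h2]
  show _ = -(2 * ((deriv (vf k) x * Uf x - vf k x * deriv Uf x) / (2 * auf k x ^ 2)) *
    (KK k / 2 * Uf x / auf k x))
  have haa := B3_aa k x
  have hsq := auf_sq k x
  rw [div_eq_iff (pow_ne_zero 2 ha)]
  rw [show -(2 * ((deriv (vf k) x * Uf x - vf k x * deriv Uf x) / (2 * auf k x ^ 2)) *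
    (KK k / 2 * Uf x / auf k x)) * auf k x ^ 2 =
    -((deriv (vf k) x * Uf x - vf k x * deriv Uf x) * (KK k / 2 * Uf x)) / auf k x by
      field_simp]
  rw [eq_div_iff ha]
  linear_combination (-(KK k / 2)) * deriv (vf k) x * hsq + (KK k / 2) * vf k x * haa

theorem b3_deriv (k : ℕ) (x : ℝ) :
    deriv (prof k).b3 x = 2 * (prof k).b1 x * (prof k).b2 x := by
  have ha := (auf_pos k x).ne'
  have h1 : HasDerivAt (fun y => KK k / 2 * Uf y / auf k y) _ x :=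
    ((B3_hd Uf_smooth x).const_mul (KK k / 2)).div (B3_hd (auf_smooth k) x) ha
  have h2 : deriv (prof k).b3 x = _ := h1.deriv
  rw [h2]
  show _ = 2 * (-(KK k / 2) * vf k x / auf k x) *
    ((deriv (vf k) x * Uf x - vf k x * deriv Uf x) / (2 * auf k x ^ 2))
  have haa := B3_aa k x
  have hsq := auf_sq k x
  rw [div_eq_iff (pow_ne_zero 2 ha)]
  rw [show 2 * (-(KK k / 2) * vf k x / auf k x) *
    ((deriv (vf k) x * Uf x - vf k x * deriv Uf x) / (2 * auf k x ^ 2)) * auf k x ^ 2 =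
    (-(KK k / 2) * vf k x) * (deriv (vf k) x * Uf x - vf k x * deriv Uf x) / auf k x by
      field_simp]
  rw [eq_div_iff ha]
  linear_combination (KK k / 2) * deriv Uf x * hsq - (KK k / 2) * Uf x * haa

end H31R
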