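import Pool.Agent.Lib.H31R.B3

/-!
# H31R, chunk B4: the bounds which do not depend on `k` (the Laplacian of `u`)
-/

open scoped ContDiff
open Real

namespace H31R

/-- `a * L3 = v (v'' - K^2 v) + U U''` with `L3 = a'' - 4 a (b1^2 + b2^2)`. (From `a^2 = U^2 + v^2`,
`a a' = U U' + v v'`, `a'^2 + a a'' = U'^2 + U U'' + v'^2 + v v''`, `(2 a b2)^2 = (v'U - vU')^2/a^2`,
`(2 a b1)^2 = K^2 v^2`.) -/
theorem L3_eq (k : ℕ) (x : ℝ) :
    auf k x * (deriv (deriv (auf k)) x -
        4 * auf k x * ((prof k).b1 x ^ 2 + (prof k).b2 x ^ 2)) =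
      vf k x * (deriv (deriv (vf k)) x - KK k ^ 2 * vf k x) + Uf x * deriv (deriv Uf) x := by
  have ha := (auf_pos k x).ne'
  have haa := B3_aa k x
  have hsq := auf_sq k x
  have h1 : HasDerivAt (fun y => auf k y * deriv (auf k) y) _ x :=
    (B3_hd (auf_smooth k) x).mul (B3_hd (B3_deriv_smooth (auf_smooth k)) x)
  have h2 : HasDerivAt (fun y => Uf y * deriv Uf y + vf k y * deriv (vf k) y) _ x :=
    ((B3_hd Uf_smooth x).mul (B3_hd (B3_deriv_smooth Uf_smooth) x)).add
      ((B3_hd (vf_smooth k) x).mul (B3_hd (B3_deriv_smooth (vf_smooth k)) x))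
  have h3 : (fun y => auf k y * deriv (auf k) y) =
      fun y => Uf y * deriv Uf y + vf k y * deriv (vf k) y := by
    funext y
    exact B3_aa k y
  rw [h3] at h1
  have h4 := h1.unique h2
  show auf k x * (deriv (deriv (auf k)) x -
        4 * auf k x * ((-(KK k / 2) * vf k x / auf k x) ^ 2 +
          ((deriv (vf k) x * Uf x - vf k x * deriv Uf x) / (2 * auf k x ^ 2)) ^ 2)) = _
  have h5 : auf k x * (deriv (deriv (auf k)) x -
        4 * auf k x * ((-(KK k / 2) * vf k x / auf k x) ^ 2 +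
          ((deriv (vf k) x * Uf x - vf k x * deriv Uf x) / (2 * auf k x ^ 2)) ^ 2)) =
      auf k x * deriv (deriv (auf k)) x - KK k ^ 2 * vf k x ^ 2 -
        (deriv (vf k) x * Uf x - vf k x * deriv Uf x) ^ 2 / auf k x ^ 2 := by
    field_simp
    ring
  rw [h5]
  have h6 : (deriv (vf k) x * Uf x - vf k x * deriv Uf x) ^ 2 / auf k x ^ 2 =
      deriv Uf x ^ 2 + deriv (vf k) x ^ 2 - deriv (auf k) x ^ 2 := by
    rw [div_eq_iff (pow_ne_zero 2 ha)]
    have h7 : (auf k x * deriv (auf k) x) ^ 2 =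
        (Uf x * deriv Uf x + vf k x * deriv (vf k) x) ^ 2 := by rw [haa]
    linear_combination -(deriv Uf x ^ 2 + deriv (vf k) x ^ 2) * hsq + h7
  rw [h6]
  linear_combination h4

/-- `a * L1 = U (v'' - K^2 v) - v U''` with `L1 = 4 a' b2 + 2 a b2' + 4 a b1 b3`
(`2 a^2 b2 = v'U - vU'`, hence `4 a a' b2 + 2 a^2 b2' = v''U - vU''`; `4 a^2 b1 b3 = -K^2 v U`). -/
theorem L1_eq (k : ℕ) (x : ℝ) :
    auf k x * (4 * deriv (auf k) x * (prof k).b2 x + 2 * auf k x * deriv (prof k).b2 x +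
        4 * auf k x * (prof k).b1 x * (prof k).b3 x) =
      Uf x * (deriv (deriv (vf k)) x - KK k ^ 2 * vf k x) - vf k x * deriv (deriv Uf) x := by
  have ha := (auf_pos k x).ne'
  have hb2 : ∀ y, 2 * auf k y ^ 2 * (prof k).b2 y =
      deriv (vf k) y * Uf y - vf k y * deriv Uf y := by
    intro y
    have hy := (auf_pos k y).ne'
    show 2 * auf k y ^ 2 * ((deriv (vf k) y * Uf y - vf k y * deriv Uf y) /
      (2 * auf k y ^ 2)) = _
    field_simp
  have h1 : HasDerivAt (fun y => 2 * auf k y ^ 2 * (prof k).b2 y) _ x :=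
    (((B3_hd (auf_smooth k) x).pow 2).const_mul 2).mul (B3_hd (b2_smooth k) x)
  have h2 : HasDerivAt (fun y => deriv (vf k) y * Uf y - vf k y * deriv Uf y) _ x :=
    ((B3_hd (B3_deriv_smooth (vf_smooth k)) x).mul (B3_hd Uf_smooth x)).sub
      ((B3_hd (vf_smooth k) x).mul (B3_hd (B3_deriv_smooth Uf_smooth) x))
  have h3 : (fun y => 2 * auf k y ^ 2 * (prof k).b2 y) =
      fun y => deriv (vf k) y * Uf y - vf k y * deriv Uf y := by
    funext y
    exact hb2 y
  rw [h3] at h1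
  have h4 := h1.unique h2
  simp only [Nat.cast_ofNat, Nat.add_one_sub_one, pow_one, Pi.pow_apply] at h4
  have h5 : 4 * auf k x ^ 2 * (prof k).b1 x * (prof k).b3 x = -(KK k ^ 2 * vf k x * Uf x) := by
    show 4 * auf k x ^ 2 * (-(KK k / 2) * vf k x / auf k x) * (KK k / 2 * Uf x / auf k x) = _
    field_simp
    ring
  linear_combination h4 + h5

/-- For `|x| < 1/16` both right-hand sides vanish (`vf_dd_eq`, `Uf_dd_zero`); for `|x| ≥ 1/16` one has
`a ≥ 1/16`, `|v|, |U| ≤ a` and the bounds `vf_dd_bdd`, `Uf_dd_bdd`. -/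
theorem L_bdd : ∃ C : ℝ, 0 < C ∧ ∀ (k : ℕ) (x : ℝ),
    |deriv (deriv (auf k)) x - 4 * auf k x * ((prof k).b1 x ^ 2 + (prof k).b2 x ^ 2)|
      ≤ C * auf k x ∧
    |4 * deriv (auf k) x * (prof k).b2 x + 2 * auf k x * deriv (prof k).b2 x +
        4 * auf k x * (prof k).b1 x * (prof k).b3 x| ≤ C * auf k x := by
  obtain ⟨C1, hC1, h1⟩ := vf_dd_bdd
  obtain ⟨C2, hC2, h2⟩ := Uf_dd_bdd
  refine ⟨16 * (C1 + C2), by positivity, fun k x => ?_⟩
  have ha := auf_pos k x
  have hsq := auf_sq k x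
  have hU : |Uf x| ≤ auf k x := by
    refine abs_le_of_sq_le_sq ?_ ha.le
    nlinarith [sq_nonneg (vf k x)]
  have hv : |vf k x| ≤ auf k x := by
    refine abs_le_of_sq_le_sq ?_ ha.le
    nlinarith [sq_nonneg (Uf x)]
  have key : ∀ L X Y : ℝ, auf k x * L = X * (deriv (deriv (vf k)) x - KK k ^ 2 * vf k x) +
      Y * deriv (deriv Uf) x → |X| ≤ auf k x → |Y| ≤ auf k x →
      |L| ≤ 16 * (C1 + C2) * auf k x := by
    intro L X Y hL hX hY
    rcases lt_or_ge |x| (1 / 16) with hx | hx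
    · have e1 : deriv (deriv (vf k)) x - KK k ^ 2 * vf k x = 0 := by
        rw [vf_dd_eq k hx, sub_self]
      have e2 : deriv (deriv Uf) x = 0 := Uf_dd_zero (by linarith)
      rw [e1, e2, mul_zero, mul_zero, add_zero] at hL
      have : L = 0 := by
        rcases mul_eq_zero.1 hL with h | h
        · exact absurd h ha.ne'
        · exact h
      rw [this, abs_zero]
      positivity
    · have hge := auf_ge k hx
      have e3 : auf k x * |L| ≤ auf k x * (C1 + C2) := by
        calc auf k x * |L| = |auf k x * L| := by rw [abs_mul, abs_of_pos ha]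
          _ = |X * (deriv (deriv (vf k)) x - KK k ^ 2 * vf k x) +
              Y * deriv (deriv Uf) x| := by rw [hL]
          _ ≤ |X * (deriv (deriv (vf k)) x - KK k ^ 2 * vf k x)| +
              |Y * deriv (deriv Uf) x| := abs_add_le _ _
          _ = |X| * |deriv (deriv (vf k)) x - KK k ^ 2 * vf k x| +
              |Y| * |deriv (deriv Uf) x| := by rw [abs_mul, abs_mul]
          _ ≤ auf k x * C1 + auf k x * C2 :=
              add_le_add (mul_le_mul hX (h1 k x) (abs_nonneg _) ha.le)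
                (mul_le_mul hY (h2 x) (abs_nonneg _) ha.le)
          _ = auf k x * (C1 + C2) := by ring
      have e4 := le_of_mul_le_mul_left e3 ha
      nlinarith [mul_le_mul_of_nonneg_left hge (by positivity : (0 : ℝ) ≤ 16 * (C1 + C2))]
  constructor
  · exact key _ _ _ (L3_eq k x) hv hU
  · refine key _ (Uf x) (-vf k x) ?_ hU (by rw [abs_neg]; exact hv)
    rw [L1_eq k x]
    ring

end H31R
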