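import Pool.Agent.Lib.H31R.C0a

/-!
# H31R, chunk C0: tangent vectors in the parametrisation `PT`, frame lemma
-/

open scoped ContDiff Topology
open Real Filter

namespace H31R

/-- tangent vector of a curve `PT (X1, X2, X3, w, s)`, with velocities `d1, d2, d3, w', s'` -/
noncomputable def TPT (X1 X2 : ℝ) (w s : V3) (d1 d2 d3 : ℝ) (w' s' : V3) : EE 7 :=
  mk7 d3 (exp X1 • (d1 • w + w')) (exp X2 • (d2 • s + s'))

/-- components of `PT` -/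
theorem C0_comp {X1 X2 X3 : EE 7 → ℝ} {w s : EE 7 → V3} {q : EE 7}
    {X1' X2' X3' : EE 7 →L[ℝ] ℝ} {w' s' : EE 7 →L[ℝ] V3}
    (h1 : HasFDerivAt X1 X1' q) (h2 : HasFDerivAt X2 X2' q) (h3 : HasFDerivAt X3 X3' q)
    (hw : HasFDerivAt w w' q) (hs : HasFDerivAt s s' q) (i : Fin 7) :
    ∃ L : EE 7 →L[ℝ] ℝ, HasFDerivAt (fun r => PT (X1 r) (X2 r) (X3 r) (w r) (s r) i) L q ∧
      ∀ u, L u = TPT (X1 q) (X2 q) (w q) (s q) (X1' u) (X2' u) (X3' u) (w' u) (s' u) i := by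
  have hwi : ∀ j, HasFDerivAt (fun r => w r j) ((ContinuousLinearMap.proj j).comp w') q :=
    fun j => (hasFDerivAt_pi'.1 hw) j
  have hsi : ∀ j, HasFDerivAt (fun r => s r j) ((ContinuousLinearMap.proj j).comp s') q :=
    fun j => (hasFDerivAt_pi'.1 hs) j
  fin_cases i
  · exact ⟨X3', h3, fun u => rfl⟩
  · refine ⟨_, h1.exp.mul (hwi 0), fun u => ?_⟩
    simp [TPT, mk7]; ring
  · refine ⟨_, h1.exp.mul (hwi 1), fun u => ?_⟩
    simp [TPT, mk7]; ring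
  · refine ⟨_, h1.exp.mul (hwi 2), fun u => ?_⟩
    simp [TPT, mk7]; ring
  · refine ⟨_, h2.exp.mul (hsi 0), fun u => ?_⟩
    simp [TPT, mk7]; ring
  · refine ⟨_, h2.exp.mul (hsi 1), fun u => ?_⟩
    simp [TPT, mk7]; ring
  · refine ⟨_, h2.exp.mul (hsi 2), fun u => ?_⟩
    simp [TPT, mk7]; ring

/-- derivative of a map `PT (X1, X2, X3, w, s)` -/
theorem PT_hasFDerivAt {X1 X2 X3 : EE 7 → ℝ} {w s : EE 7 → V3} {q : EE 7}
    {X1' X2' X3' : EE 7 →L[ℝ] ℝ} {w' s' : EE 7 →L[ℝ] V3}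
    (h1 : HasFDerivAt X1 X1' q) (h2 : HasFDerivAt X2 X2' q) (h3 : HasFDerivAt X3 X3' q)
    (hw : HasFDerivAt w w' q) (hs : HasFDerivAt s s' q) :
    DifferentiableAt ℝ (fun r => PT (X1 r) (X2 r) (X3 r) (w r) (s r)) q ∧
    ∀ u, fderiv ℝ (fun r => PT (X1 r) (X2 r) (X3 r) (w r) (s r)) q u =
      TPT (X1 q) (X2 q) (w q) (s q) (X1' u) (X2' u) (X3' u) (w' u) (s' u) := by
  have hd : DifferentiableAt ℝ (fun r => PT (X1 r) (X2 r) (X3 r) (w r) (s r)) q := by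
    rw [differentiableAt_euclidean]
    intro i
    obtain ⟨L, hL, -⟩ := C0_comp h1 h2 h3 hw hs i
    exact hL.differentiableAt
  refine ⟨hd, fun u => ?_⟩
  ext i
  obtain ⟨L, hL, hLu⟩ := C0_comp h1 h2 h3 hw hs i
  have := ((EuclideanSpace.proj i : EE 7 →L[ℝ] ℝ).hasFDerivAt).comp q hd.hasFDerivAt
  have h := this.unique hL
  rw [← hLu, ← h]
  rfl

theorem PT_contDiffAt {X1 X2 X3 : EE 7 → ℝ} {w s : EE 7 → V3} {q : EE 7}
    (h1 : ContDiffAt ℝ ∞ X1 q) (h2 : ContDiffAt ℝ ∞ X2 q) (h3 : ContDiffAt ℝ ∞ X3 q)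
    (hw : ContDiffAt ℝ ∞ w q) (hs : ContDiffAt ℝ ∞ s q) :
    ContDiffAt ℝ ∞ (fun r => PT (X1 r) (X2 r) (X3 r) (w r) (s r)) q := by
  have hwi : ∀ j, ContDiffAt ℝ ∞ (fun r => w r j) q := fun j => (contDiffAt_pi.1 hw) j
  have hsi : ∀ j, ContDiffAt ℝ ∞ (fun r => s r j) q := fun j => (contDiffAt_pi.1 hs) j
  rw [contDiffAt_euclidean]
  intro i
  fin_cases i
  · exact h3
  · exact h1.exp.mul (hwi 0)
  · exact h1.exp.mul (hwi 1)
  · exact h1.exp.mul (hwi 2)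
  · exact h2.exp.mul (hsi 0)
  · exact h2.exp.mul (hsi 1)
  · exact h2.exp.mul (hsi 2)

theorem C0_dot_smul_left (a : ℝ) (u v : V3) : dot (a • u) v = a * dot u v := by
  simp [dot]; ring

theorem C0_dot_smul_right (a : ℝ) (u v : V3) : dot u (a • v) = a * dot u v := by
  simp [dot]; ring

theorem C0_dot_add_right (u v w : V3) : dot u (v + w) = dot u v + dot u w := by
  simp [dot]; ring

/-- the differentials at `p = PT X1 X2 X3 w s` of the tangent vector `TPT ..` -/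
theorem TPT_coord {X1 X2 X3 : ℝ} {w s : V3} (hw : dot w w = 1) (hs : dot s s = 1)
    (d1 d2 d3 : ℝ) {w' s' : V3} (hww : dot w w' = 0) (hss : dot s s' = 0) :
    xi1 (PT X1 X2 X3 w s) (TPT X1 X2 w s d1 d2 d3 w' s') = d1 ∧
    xi2 (PT X1 X2 X3 w s) (TPT X1 X2 w s d1 d2 d3 w' s') = d2 ∧
    xi3 (PT X1 X2 X3 w s) (TPT X1 X2 w s d1 d2 d3 w' s') = d3 ∧
    dw (PT X1 X2 X3 w s) (TPT X1 X2 w s d1 d2 d3 w' s') = w' ∧
    ds (PT X1 X2 X3 w s) (TPT X1 X2 w s d1 d2 d3 w' s') = s' := by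
  obtain ⟨-, -, -, hwv, hsv⟩ := PT_coord (a := X1) (b := X2) (c := X3) hw hs
  have hy : yv (PT X1 X2 X3 w s) = exp X1 • w := yv_mk7 _ _ _
  have hz : zv (PT X1 X2 X3 w s) = exp X2 • s := zv_mk7 _ _ _
  have hyu : yv (TPT X1 X2 w s d1 d2 d3 w' s') = exp X1 • (d1 • w + w') := yv_mk7 _ _ _
  have hzu : zv (TPT X1 X2 w s d1 d2 d3 w' s') = exp X2 • (d2 • s + s') := zv_mk7 _ _ _
  have e1 : exp X1 ≠ 0 := (exp_pos _).ne'
  have e2 : exp X2 ≠ 0 := (exp_pos _).ne'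
  have h1 : xi1 (PT X1 X2 X3 w s) (TPT X1 X2 w s d1 d2 d3 w' s') = d1 := by
    simp only [xi1, hy, hyu, C0_dot_smul_left, C0_dot_smul_right, C0_dot_add_right, hw, hww]
    field_simp
    ring
  have h2 : xi2 (PT X1 X2 X3 w s) (TPT X1 X2 w s d1 d2 d3 w' s') = d2 := by
    simp only [xi2, hz, hzu, C0_dot_smul_left, C0_dot_smul_right, C0_dot_add_right, hs, hss]
    field_simp
    ring
  have n1 : nr (exp X1 • w) = exp X1 := by
    simp only [nr, C0_dot_smul_left, C0_dot_smul_right, hw, mul_one]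
    exact Real.sqrt_mul_self (exp_pos _).le
  have n2 : nr (exp X2 • s) = exp X2 := by
    simp only [nr, C0_dot_smul_left, C0_dot_smul_right, hs, mul_one]
    exact Real.sqrt_mul_self (exp_pos _).le
  refine ⟨h1, h2, rfl, ?_, ?_⟩
  · rw [dw, h1, hwv, hy, hyu, n1, smul_smul, inv_mul_cancel₀ e1, one_smul, add_sub_cancel_left]
  · rw [ds, h2, hsv, hz, hzu, n2, smul_smul, inv_mul_cancel₀ e2, one_smul, add_sub_cancel_left]

/-- velocity of `w = f3` in a frame with body angular velocity `(o1, o2, o3)`: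
`f1' = o3 f2 - o2 f3`, `f2' = o1 f3 - o3 f1`, `f3' = o2 f1 - o1 f2` -/
def wvel (f1 f2 f3 : V3) (o1 o2 : ℝ) : V3 := lc f1 f2 f3 o2 (-o1) 0

/-- velocity of `s = l1 f1 + l2 f2 + h f3` -/
def svel (f1 f2 f3 : V3) (l1 l2 h d1 d2 dh o1 o2 o3 : ℝ) : V3 :=
  lc f1 f2 f3 (d1 - l2 * o3 + h * o2) (d2 + l1 * o3 - h * o1) (dh - l1 * o2 + l2 * o1)

/-- Frame lemma: the ingredients of the metric in a frame. -/
theorem frame_ingr {f1 f2 f3 : V3} (hf : Fr f1 f2 f3) {X1 X2 X3 l1 l2 h : ℝ}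
    (hn : l1 ^ 2 + l2 ^ 2 + h ^ 2 = 1) (e1 e2 e3 d1 d2 dh' o1 o2 o3 : ℝ)
    (ht : l1 * d1 + l2 * d2 + h * dh' = 0) :
    let p := PT X1 X2 X3 f3 (lc f1 f2 f3 l1 l2 h)
    let u := TPT X1 X2 f3 (lc f1 f2 f3 l1 l2 h) e1 e2 e3 (wvel f1 f2 f3 o1 o2)
      (svel f1 f2 f3 l1 l2 h d1 d2 dh' o1 o2 o3)
    p ∈ OM ∧ x1 p = X1 ∧ wv p = f3 ∧ hh p = h ∧ lv p = lc f1 f2 f3 l1 l2 0 ∧
    Jl p = lc f1 f2 f3 (-l2) l1 0 ∧ xi1 p u = e1 ∧ xi2 p u = e2 ∧ xi3 p u = e3 ∧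
    dh p u = dh' ∧ Dl p u = lc f1 f2 f3 (d1 - l2 * o3) (d2 + l1 * o3) 0 ∧
    (1 / 2 : ℝ) • crs (wv p) (dw p u) = lc f1 f2 f3 (o1 / 2) (o2 / 2) 0 := by
  intro p u
  have hs : dot (lc f1 f2 f3 l1 l2 h) (lc f1 f2 f3 l1 l2 h) = 1 := by
    rw [dot_lc hf]; linarith [hn]
  have h3 : lc f1 f2 f3 0 0 1 = f3 := by simp [lc]
  have w3 : ∀ a b c : ℝ, dot f3 (lc f1 f2 f3 a b c) = c := by
    intro a b c
    have : dot (lc f1 f2 f3 0 0 1) (lc f1 f2 f3 a b c) = c := by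
      rw [dot_lc hf]; ring
    rwa [h3] at this
  have x3' : ∀ a b c : ℝ, crs f3 (lc f1 f2 f3 a b c) = lc f1 f2 f3 (-b) a 0 := by
    intro a b c
    have : crs (lc f1 f2 f3 0 0 1) (lc f1 f2 f3 a b c) = lc f1 f2 f3 (-b) a 0 := by
      rw [crs_lc hf]
      congr 1 <;> ring
    rwa [h3] at this
  have hww : dot f3 (wvel f1 f2 f3 o1 o2) = 0 := by
    rw [wvel, w3]
  have hss : dot (lc f1 f2 f3 l1 l2 h) (svel f1 f2 f3 l1 l2 h d1 d2 dh' o1 o2 o3) = 0 := by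
    rw [svel, dot_lc hf]
    linear_combination ht
  obtain ⟨c1, c2, c3, c4, c5⟩ := PT_coord (a := X1) (b := X2) (c := X3) hf.n3 hs
  obtain ⟨t1, t2, t3, t4, t5⟩ := TPT_coord (X1 := X1) (X2 := X2) (X3 := X3) hf.n3 hs e1 e2 e3 hww hss
  have hh' : hh p = h := by
    rw [hh, c4, c5, w3]
  refine ⟨PT_mem hf.n3 hs, c1, c4, hh', ?_, ?_, t1, t2, t3, ?_, ?_, ?_⟩
  · rw [lv, hh', c4, c5]
    simp only [lc]
    module
  · rw [Jl, c4, c5, x3']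
  · rw [dh, t4, t5, c4, c5, wvel, svel, w3, dot_lc hf]
    ring
  · rw [Dl, t5, hh', t4, c4, svel, w3, wvel]
    simp only [lc]
    module
  · rw [t4, c4, wvel, x3']
    simp only [lc]
    module

end H31R
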