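import Pool.Agent.Lib.H31R.Defs

/-!
# H31R, chunk C0a: vectors of `R^3`, orthonormal frames, the parametrisation `PT` of `OM`
-/

open scoped ContDiff Topology
open Real Filter

namespace H31R

/-- positively oriented orthonormal frame -/
structure Fr (f1 f2 f3 : V3) : Prop where
  n1 : dot f1 f1 = 1
  n2 : dot f2 f2 = 1
  n3 : dot f3 f3 = 1
  o12 : dot f1 f2 = 0
  o13 : dot f1 f3 = 0
  o23 : dot f2 f3 = 0
  c12 : crs f1 f2 = f3
  c23 : crs f2 f3 = f1
  c31 : crs f3 f1 = f2

/-- linear combination -/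
def lc (f1 f2 f3 : V3) (a b c : ℝ) : V3 := a • f1 + b • f2 + c • f3

theorem dot_comm (u v : V3) : dot u v = dot v u := by
  unfold dot; ring

theorem C0a_crs0 (u v : V3) : crs u v 0 = u 1 * v 2 - u 2 * v 1 := rfl

theorem C0a_crs1 (u v : V3) : crs u v 1 = u 2 * v 0 - u 0 * v 2 := rfl

theorem C0a_crs2 (u v : V3) : crs u v 2 = u 0 * v 1 - u 1 * v 0 := rfl

theorem C0a_ext {u v : V3} (h0 : u 0 = v 0) (h1 : u 1 = v 1) (h2 : u 2 = v 2) : u = v := by
  funext i
  fin_cases i
  · exact h0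
  · exact h1
  · exact h2

theorem C0a_lc (f1 f2 f3 : V3) (a b c : ℝ) (i : Fin 3) :
    lc f1 f2 f3 a b c i = a * f1 i + b * f2 i + c * f3 i := by
  simp only [lc, Pi.add_apply, Pi.smul_apply, smul_eq_mul]

theorem dot_lc {f1 f2 f3 : V3} (h : Fr f1 f2 f3) (a b c a' b' c' : ℝ) :
    dot (lc f1 f2 f3 a b c) (lc f1 f2 f3 a' b' c') = a * a' + b * b' + c * c' := by
  have h1 := h.n1
  have h2 := h.n2
  have h3 := h.n3
  have h4 := h.o12
  have h5 := h.o13
  have h6 := h.o23
  simp only [dot] at h1 h2 h3 h4 h5 h6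
  simp only [dot, C0a_lc]
  linear_combination a * a' * h1 + b * b' * h2 + c * c' * h3 + (a * b' + b * a') * h4
    + (a * c' + c * a') * h5 + (b * c' + c * b') * h6

theorem crs_lc {f1 f2 f3 : V3} (h : Fr f1 f2 f3) (a b c a' b' c' : ℝ) :
    crs (lc f1 f2 f3 a b c) (lc f1 f2 f3 a' b' c') =
      lc f1 f2 f3 (b * c' - c * b') (c * a' - a * c') (a * b' - b * a') := by
  have h1 := h.c12
  have h2 := h.c23
  have h3 := h.c31
  have h10 := congrFun h1 0
  have h11 := congrFun h1 1
  have h12 := congrFun h1 2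
  have h20 := congrFun h2 0
  have h21 := congrFun h2 1
  have h22 := congrFun h2 2
  have h30 := congrFun h3 0
  have h31 := congrFun h3 1
  have h32 := congrFun h3 2
  simp only [C0a_crs0, C0a_crs1, C0a_crs2] at h10 h11 h12 h20 h21 h22 h30 h31 h32
  refine C0a_ext ?_ ?_ ?_
  · simp only [C0a_crs0, C0a_lc]
    linear_combination (a * b' - b * a') * h10 + (b * c' - c * b') * h20 + (c * a' - a * c') * h30
  · simp only [C0a_crs1, C0a_lc]
    linear_combination (a * b' - b * a') * h11 + (b * c' - c * b') * h21 + (c * a' - a * c') * h31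
  · simp only [C0a_crs2, C0a_lc]
    linear_combination (a * b' - b * a') * h12 + (b * c' - c * b') * h22 + (c * a' - a * c') * h32

/-- every vector is a combination of the vectors of a frame -/
theorem eq_lc {f1 f2 f3 : V3} (h : Fr f1 f2 f3) (v : V3) :
    v = lc f1 f2 f3 (dot v f1) (dot v f2) (dot v f3) := by
  have key : ∀ i j : Fin 3, f1 i * f1 j + f2 i * f2 j + f3 i * f3 j = if i = j then 1 else 0 := by
    have hM : (Matrix.of ![f1, f2, f3]) * (Matrix.of ![f1, f2, f3]).transpose = 1 := by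
      have h1 := h.n1
      have h2 := h.n2
      have h3 := h.n3
      have h4 := h.o12
      have h5 := h.o13
      have h6 := h.o23
      simp only [dot] at h1 h2 h3 h4 h5 h6
      ext i j
      fin_cases i <;> fin_cases j <;>
        simp [Matrix.mul_apply, Fin.sum_univ_three, Matrix.transpose_apply] <;>
        linarith
    have hM2 := mul_eq_one_comm.1 hM
    intro i j
    have := congrFun (congrFun hM2 i) j
    simp only [Matrix.mul_apply, Fin.sum_univ_three, Matrix.transpose_apply, Matrix.one_apply,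
      Matrix.of_apply, Matrix.cons_val_zero, Matrix.cons_val_one, Matrix.cons_val] at this
    exact this
  have k00 := key 0 0
  have k01 := key 0 1
  have k02 := key 0 2
  have k11 := key 1 1
  have k12 := key 1 2
  have k22 := key 2 2
  simp only [Fin.isValue, if_true, zero_ne_one, if_false,
    (by decide : ¬ (0 : Fin 3) = 2), (by decide : ¬ (1 : Fin 3) = 2)] at k00 k01 k02 k11 k12 k22
  refine C0a_ext ?_ ?_ ?_
  · simp only [C0a_lc, dot]
    linear_combination -(v 0) * k00 - v 1 * k01 - v 2 * k02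
  · simp only [C0a_lc, dot]
    linear_combination -(v 0) * k01 - v 1 * k11 - v 2 * k12
  · simp only [C0a_lc, dot]
    linear_combination -(v 0) * k02 - v 1 * k12 - v 2 * k22

/-- two orthonormal vectors define a frame -/
theorem fr_of {w e : V3} (hw : dot w w = 1) (he : dot e e = 1) (hwe : dot w e = 0) :
    Fr e (crs w e) w := by
  simp only [dot] at hw he hwe
  refine ⟨?_, ?_, ?_, ?_, ?_, ?_, ?_, ?_, ?_⟩
  · simpa only [dot] using he
  · simp only [dot, C0a_crs0, C0a_crs1, C0a_crs2]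
    linear_combination (e 0 * e 0 + e 1 * e 1 + e 2 * e 2) * hw + he
      - (w 0 * e 0 + w 1 * e 1 + w 2 * e 2) * hwe
  · simpa only [dot] using hw
  · simp only [dot, C0a_crs0, C0a_crs1, C0a_crs2]
    ring
  · simp only [dot]
    linear_combination hwe
  · simp only [dot, C0a_crs0, C0a_crs1, C0a_crs2]
    ring
  · refine C0a_ext ?_ ?_ ?_ <;> simp only [C0a_crs0, C0a_crs1, C0a_crs2]
    · linear_combination w 0 * he - e 0 * hwe
    · linear_combination w 1 * he - e 1 * hwe
    · linear_combination w 2 * he - e 2 * hwe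
  · refine C0a_ext ?_ ?_ ?_ <;> simp only [C0a_crs0, C0a_crs1, C0a_crs2]
    · linear_combination e 0 * hw - w 0 * hwe
    · linear_combination e 1 * hw - w 1 * hwe
    · linear_combination e 2 * hw - w 2 * hwe
  · rfl

/-- every unit vector is the third vector of a frame -/
theorem exists_perp {w : V3} (hw : dot w w = 1) : ∃ e : V3, dot e e = 1 ∧ dot w e = 0 := by
  have key : ∀ u : V3, dot u u ≠ 0 → dot w u = 0 → ∃ e : V3, dot e e = 1 ∧ dot w e = 0 := by
    intro u hu hwu
    have hpos : 0 < dot u u := by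
      refine lt_of_le_of_ne ?_ (Ne.symm hu)
      simp only [dot]
      nlinarith [mul_self_nonneg (u 0), mul_self_nonneg (u 1), mul_self_nonneg (u 2)]
    have hs : √(dot u u) * √(dot u u) = dot u u := Real.mul_self_sqrt hpos.le
    have hs0 : √(dot u u) ≠ 0 := (Real.sqrt_pos.2 hpos).ne'
    refine ⟨(√(dot u u))⁻¹ • u, ?_, ?_⟩
    · have : dot ((√(dot u u))⁻¹ • u) ((√(dot u u))⁻¹ • u) =
          (√(dot u u))⁻¹ * (√(dot u u))⁻¹ * dot u u := by
        simp only [dot, Pi.smul_apply, smul_eq_mul]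
        ring
      rw [this]
      nth_rewrite 3 [← hs]
      field_simp
    · have : dot w ((√(dot u u))⁻¹ • u) = (√(dot u u))⁻¹ * dot w u := by
        simp only [dot, Pi.smul_apply, smul_eq_mul]
        ring
      rw [this, hwu, mul_zero]
  by_cases h : w 0 = 0 ∧ w 1 = 0
  · refine key ![1, 0, 0] ?_ ?_
    · simp [dot]
    · simp [dot, h.1]
  · refine key ![-(w 1), w 0, 0] ?_ ?_
    · intro h0
      simp only [dot, Matrix.cons_val_zero, Matrix.cons_val_one, Matrix.cons_val] at h0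
      apply h
      constructor
      · nlinarith [mul_self_nonneg (w 0), mul_self_nonneg (w 1)]
      · nlinarith [mul_self_nonneg (w 0), mul_self_nonneg (w 1)]
    · simp only [dot, Matrix.cons_val_zero, Matrix.cons_val_one, Matrix.cons_val]
      ring

theorem yv_mk7 (a : ℝ) (y z : V3) : yv (mk7 a y z) = y := by
  refine C0a_ext ?_ ?_ ?_ <;> rfl

theorem zv_mk7 (a : ℝ) (y z : V3) : zv (mk7 a y z) = z := by
  refine C0a_ext ?_ ?_ ?_ <;> rfl

theorem mk7_zero (a : ℝ) (y z : V3) : (mk7 a y z) 0 = a := rfl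

theorem mk7_eta (p : EE 7) : mk7 (p 0) (yv p) (zv p) = p := by
  ext i
  fin_cases i <;> rfl

theorem OM_open : IsOpen OM := by
  have hy : Continuous yv := by
    refine continuous_pi fun i => ?_
    fin_cases i
    · exact (EuclideanSpace.proj (𝕜 := ℝ) (1 : Fin 7)).continuous
    · exact (EuclideanSpace.proj (𝕜 := ℝ) (2 : Fin 7)).continuous
    · exact (EuclideanSpace.proj (𝕜 := ℝ) (3 : Fin 7)).continuous
  have hz : Continuous zv := by
    refine continuous_pi fun i => ?_
    fin_cases i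
    · exact (EuclideanSpace.proj (𝕜 := ℝ) (4 : Fin 7)).continuous
    · exact (EuclideanSpace.proj (𝕜 := ℝ) (5 : Fin 7)).continuous
    · exact (EuclideanSpace.proj (𝕜 := ℝ) (6 : Fin 7)).continuous
  have h1 : IsOpen {p : EE 7 | yv p ≠ 0} := isOpen_ne_fun hy continuous_const
  have h2 : IsOpen {p : EE 7 | zv p ≠ 0} := isOpen_ne_fun hz continuous_const
  exact h1.inter h2

theorem C0a_dot_pos {y : V3} (h : y ≠ 0) : 0 < dot y y := by
  have h0 : 0 ≤ dot y y := by
    simp only [dot]
    nlinarith [mul_self_nonneg (y 0), mul_self_nonneg (y 1), mul_self_nonneg (y 2)]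
  refine lt_of_le_of_ne h0 fun h1 => h ?_
  simp only [dot] at h1
  refine C0a_ext ?_ ?_ ?_
  · show y 0 = 0
    nlinarith [mul_self_nonneg (y 0), mul_self_nonneg (y 1), mul_self_nonneg (y 2)]
  · show y 1 = 0
    nlinarith [mul_self_nonneg (y 0), mul_self_nonneg (y 1), mul_self_nonneg (y 2)]
  · show y 2 = 0
    nlinarith [mul_self_nonneg (y 0), mul_self_nonneg (y 1), mul_self_nonneg (y 2)]

theorem C0a_dot_nonneg (y : V3) : 0 ≤ dot y y := by
  simp only [dot]
  nlinarith [mul_self_nonneg (y 0), mul_self_nonneg (y 1), mul_self_nonneg (y 2)]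

theorem nr_pos {y : V3} (h : y ≠ 0) : 0 < nr y :=
  Real.sqrt_pos.2 (C0a_dot_pos h)

theorem nr_sq (y : V3) : nr y ^ 2 = dot y y :=
  Real.sq_sqrt (C0a_dot_nonneg y)

theorem C0a_dot_smul (a b : ℝ) (u v : V3) : dot (a • u) (b • v) = a * b * dot u v := by
  simp only [dot, Pi.smul_apply, smul_eq_mul]
  ring

theorem C0a_unit {y : V3} (h : y ≠ 0) : dot ((nr y)⁻¹ • y) ((nr y)⁻¹ • y) = 1 := by
  rw [C0a_dot_smul, ← nr_sq]
  have := (nr_pos h).ne'
  field_simp

theorem C0a_nr_exp {w : V3} (hw : dot w w = 1) (a : ℝ) : nr (exp a • w) = exp a := by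
  unfold nr
  rw [C0a_dot_smul, hw, mul_one]
  exact Real.sqrt_mul_self (exp_pos a).le

theorem C0a_ne {w : V3} (hw : dot w w = 1) (a : ℝ) : exp a • w ≠ 0 := by
  intro h
  have h1 := C0a_nr_exp hw a
  rw [h] at h1
  have h2 : nr (0 : V3) = 0 := by
    simp [nr, dot]
  rw [h2] at h1
  exact (exp_pos a).ne h1

theorem wv_unit {p : EE 7} (hp : p ∈ OM) : dot (wv p) (wv p) = 1 :=
  C0a_unit hp.1

theorem sv_unit {p : EE 7} (hp : p ∈ OM) : dot (sv p) (sv p) = 1 :=
  C0a_unit hp.2

theorem PT_mem {a b c : ℝ} {w s : V3} (hw : dot w w = 1) (hs : dot s s = 1) :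
    PT a b c w s ∈ OM := by
  constructor
  · show yv (mk7 c (exp a • w) (exp b • s)) ≠ 0
    rw [yv_mk7]
    exact C0a_ne hw a
  · show zv (mk7 c (exp a • w) (exp b • s)) ≠ 0
    rw [zv_mk7]
    exact C0a_ne hs b

theorem PT_coord {a b c : ℝ} {w s : V3} (hw : dot w w = 1) (hs : dot s s = 1) :
    x1 (PT a b c w s) = a ∧ x2 (PT a b c w s) = b ∧ x3 (PT a b c w s) = c ∧
      wv (PT a b c w s) = w ∧ sv (PT a b c w s) = s := by
  have hy : yv (PT a b c w s) = exp a • w := yv_mk7 _ _ _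
  have hz : zv (PT a b c w s) = exp b • s := zv_mk7 _ _ _
  refine ⟨?_, ?_, rfl, ?_, ?_⟩
  · unfold x1
    rw [hy, C0a_nr_exp hw, Real.log_exp]
  · unfold x2
    rw [hz, C0a_nr_exp hs, Real.log_exp]
  · unfold wv
    rw [hy, C0a_nr_exp hw, smul_smul, inv_mul_cancel₀ (exp_pos a).ne', one_smul]
  · unfold sv
    rw [hz, C0a_nr_exp hs, smul_smul, inv_mul_cancel₀ (exp_pos b).ne', one_smul]

theorem PT_eta {p : EE 7} (hp : p ∈ OM) : PT (x1 p) (x2 p) (x3 p) (wv p) (sv p) = p := by
  have h1 := nr_pos hp.1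
  have h2 := nr_pos hp.2
  have e1 : exp (x1 p) • wv p = yv p := by
    unfold x1 wv
    rw [Real.exp_log h1, smul_smul, mul_inv_cancel₀ h1.ne', one_smul]
  have e2 : exp (x2 p) • sv p = zv p := by
    unfold x2 sv
    rw [Real.exp_log h2, smul_smul, mul_inv_cancel₀ h2.ne', one_smul]
  unfold PT
  rw [e1, e2]
  exact mk7_eta p

end H31R
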