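import Pool.Agent.Lib.H31R.C0

/-!
# H31R, chunk C1: the metrics `gc` and `go` in a frame
-/

open scoped ContDiff Topology
open Real Filter

namespace H31R

/-- The core metric in two dimensional notation (components with respect to `f1`, `f2`). `Zij`: the numbers
`Z11, Z22, Z33, Z13`; for two tangent vectors: `x1, x2, x3`, and the components of `A` and `B`. -/
noncomputable def gcz (Z11 Z22 Z33 Z13 a R l1 l2 : ℝ) (xu1 xu2 xu3 Au1 Au2 Bu1 Bu2 : ℝ)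
    (xv1 xv2 xv3 Av1 Av2 Bv1 Bv2 : ℝ) : ℝ :=
  let τ := Z11 + Z22 + Z33
  let kap := (1 / 8) * (1 / R - 2 * a / R ^ 2)
  let T := 1 / (8 * R * (R + a) ^ 2)
  let P := 1 - τ / (24 * R) - (Z33 - τ / 3) * kap
  let Q := 1 - τ / (24 * R) + (Z33 - τ / 3) * kap
  xu1 * xv1 * (1 + (Z11 + Z33) / (4 * R)) + xu2 * xv2 * (1 + Z22 / (4 * R)) + xu3 * xv3
    + P * (Au1 * Av1 + Au2 * Av2) / (4 * R) + Q * R * (Bu1 * Bv1 + Bu2 * Bv2)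
    - T * ((Z11 + Z22 - 2 * τ / 3) * ((l1 * Au1 + l2 * Au2) * (l1 * Av1 + l2 * Av2)
        - (-l2 * Au1 + l1 * Au2) * (-l2 * Av1 + l1 * Av2)) / (4 * R)
      + (Z11 - Z22) * R * ((l1 * Bu1 + l2 * Bu2) * (l1 * Bv1 + l2 * Bv2)
        - (-l2 * Bu1 + l1 * Bu2) * (-l2 * Bv1 + l1 * Bv2))
      + Z13 / 2 * ((l1 * Au1 + l2 * Au2) * (-l2 * Bv1 + l1 * Bv2)
        + (-l2 * Au1 + l1 * Au2) * (l1 * Bv1 + l2 * Bv2)
        + (l1 * Av1 + l2 * Av2) * (-l2 * Bu1 + l1 * Bu2)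
        + (-l2 * Av1 + l1 * Av2) * (l1 * Bu1 + l2 * Bu2)))
    + kap * Z13 / 2 * ((-Au2 * Bv1 + Au1 * Bv2) + (-Av2 * Bu1 + Av1 * Bu2))

theorem C1_dot3 {f1 f2 f3 : V3} (hf : Fr f1 f2 f3) (a b c : ℝ) :
    dot f3 (lc f1 f2 f3 a b c) = c := by
  have h3 : lc f1 f2 f3 0 0 1 = f3 := by simp [lc]
  have : dot (lc f1 f2 f3 0 0 1) (lc f1 f2 f3 a b c) = c := by
    rw [dot_lc hf]; ring
  rwa [h3] at this

theorem C1_crs3 {f1 f2 f3 : V3} (hf : Fr f1 f2 f3) (a b c : ℝ) :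
    crs f3 (lc f1 f2 f3 a b c) = lc f1 f2 f3 (-b) a 0 := by
  have h3 : lc f1 f2 f3 0 0 1 = f3 := by simp [lc]
  have : crs (lc f1 f2 f3 0 0 1) (lc f1 f2 f3 a b c) = lc f1 f2 f3 (-b) a 0 := by
    rw [crs_lc hf]
    congr 1 <;> ring
  rwa [h3] at this

/-- `gcore` with vectors given in a frame (`dot_lc`, `crs_lc`). -/
theorem gcore_frame {f1 f2 f3 : V3} (hf : Fr f1 f2 f3) (a a' b1 b2 R l1 l2 : ℝ)
    (xu1 xu2 xu3 Au1 Au2 Bu1 Bu2 xv1 xv2 xv3 Av1 Av2 Bv1 Bv2 : ℝ) :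
    gcore a a' b1 b2 R f3 (lc f1 f2 f3 l1 l2 0) (lc f1 f2 f3 (-l2) l1 0)
      xu1 xu2 xu3 (lc f1 f2 f3 Au1 Au2 0) (lc f1 f2 f3 Bu1 Bu2 0)
      xv1 xv2 xv3 (lc f1 f2 f3 Av1 Av2 0) (lc f1 f2 f3 Bv1 Bv2 0) =
    gcz ((2 * a * b2) ^ 2) ((2 * a * b1) ^ 2) (a' ^ 2) (2 * a * b2 * a') a R l1 l2
      xu1 xu2 xu3 Au1 Au2 Bu1 Bu2 xv1 xv2 xv3 Av1 Av2 Bv1 Bv2 := by
  have d1 : ∀ a b a' b' : ℝ, dot (lc f1 f2 f3 a b 0) (lc f1 f2 f3 a' b' 0) = a * a' + b * b' := by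
    intro a b a' b'
    rw [dot_lc hf]; ring
  have x3' : ∀ a b c : ℝ, crs f3 (lc f1 f2 f3 a b c) = lc f1 f2 f3 (-b) a 0 := C1_crs3 hf
  simp only [gcore, gcz, d1, x3']

/-- The point with frame `f1, f2, f3` and parameters. -/
noncomputable def pfr (f1 f2 f3 : V3) (X1 X2 X3 l1 l2 h : ℝ) : EE 7 :=
  PT X1 X2 X3 f3 (lc f1 f2 f3 l1 l2 h)

/-- The tangent vector with velocities `e1 e2 e3` (of `x1, x2, x3`), `d1 d2 dh` (of `l1, l2, h`), `o1 o2 o3`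
(body angular velocity of the frame). -/
noncomputable def ufr (f1 f2 f3 : V3) (X1 X2 l1 l2 h e1 e2 e3 d1 d2 dh' o1 o2 o3 : ℝ) : EE 7 :=
  TPT X1 X2 f3 (lc f1 f2 f3 l1 l2 h) e1 e2 e3 (wvel f1 f2 f3 o1 o2)
    (svel f1 f2 f3 l1 l2 h d1 d2 dh' o1 o2 o3)

/-- first component of `A` -/
def cA1 (b3 l2 e2 d1 o3 : ℝ) : ℝ := d1 - (o3 - 2 * b3 * e2) * l2
/-- second component of `A` -/
def cA2 (b3 l1 e2 d2 o3 : ℝ) : ℝ := d2 + (o3 - 2 * b3 * e2) * l1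
/-- first component of `B` -/
noncomputable def cB1 (b1 b2 R l1 l2 e1 e2 o1 : ℝ) : ℝ :=
  o1 / 2 - (1 / R) * (b1 * e2 * l1 - b2 * e1 * l2)
/-- second component of `B` -/
noncomputable def cB2 (b1 b2 R l1 l2 e1 e2 o2 : ℝ) : ℝ :=
  o2 / 2 - (1 / R) * (b1 * e2 * l2 + b2 * e1 * l1)

/-- The core metric in a frame. -/
theorem gc_frame (P : Prof) (ε : ℝ) {f1 f2 f3 : V3} (hf : Fr f1 f2 f3)
    {X1 X2 X3 l1 l2 h R : ℝ} (hn : l1 ^ 2 + l2 ^ 2 + h ^ 2 = 1)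
    (hR : R = √((ε ^ 3 * P.a X1) ^ 2 + (l1 ^ 2 + l2 ^ 2)))
    (e1 e2 e3 d1 d2 dh' o1 o2 o3 : ℝ) (ht : l1 * d1 + l2 * d2 + h * dh' = 0)
    (e1' e2' e3' d1' d2' dh'' o1' o2' o3' : ℝ) (ht' : l1 * d1' + l2 * d2' + h * dh'' = 0) :
    gc P ε (pfr f1 f2 f3 X1 X2 X3 l1 l2 h)
      (ufr f1 f2 f3 X1 X2 l1 l2 h e1 e2 e3 d1 d2 dh' o1 o2 o3)
      (ufr f1 f2 f3 X1 X2 l1 l2 h e1' e2' e3' d1' d2' dh'' o1' o2' o3') =
    gcz ((2 * (ε ^ 3 * P.a X1) * P.b2 X1) ^ 2) ((2 * (ε ^ 3 * P.a X1) * P.b1 X1) ^ 2)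
      ((ε ^ 3 * deriv P.a X1) ^ 2) (2 * (ε ^ 3 * P.a X1) * P.b2 X1 * (ε ^ 3 * deriv P.a X1))
      (ε ^ 3 * P.a X1) R l1 l2
      e1 e2 e3 (cA1 (P.b3 X1) l2 e2 d1 o3) (cA2 (P.b3 X1) l1 e2 d2 o3)
      (cB1 (P.b1 X1) (P.b2 X1) R l1 l2 e1 e2 o1) (cB2 (P.b1 X1) (P.b2 X1) R l1 l2 e1 e2 o2)
      e1' e2' e3' (cA1 (P.b3 X1) l2 e2' d1' o3') (cA2 (P.b3 X1) l1 e2' d2' o3')
      (cB1 (P.b1 X1) (P.b2 X1) R l1 l2 e1' e2' o1')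
      (cB2 (P.b1 X1) (P.b2 X1) R l1 l2 e1' e2' o2') := by
  obtain ⟨-, hx1, hw, hh1, hl, hJ, i1, i2, i3, -, hD, hB⟩ :=
    frame_ingr hf (X1 := X1) (X2 := X2) (X3 := X3) hn e1 e2 e3 d1 d2 dh' o1 o2 o3 ht
  obtain ⟨-, -, -, -, -, -, i1', i2', i3', -, hD', hB'⟩ :=
    frame_ingr hf (X1 := X1) (X2 := X2) (X3 := X3) hn e1' e2' e3' d1' d2' dh'' o1' o2' o3' ht'
  have hRR : RR P ε (PT X1 X2 X3 f3 (lc f1 f2 f3 l1 l2 h)) = R := by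
    rw [RR, hx1, hl, dot_lc hf, hR]
    congr 1
    ring
  have hA : Av P (PT X1 X2 X3 f3 (lc f1 f2 f3 l1 l2 h)) (TPT X1 X2 f3 (lc f1 f2 f3 l1 l2 h)
      e1 e2 e3 (wvel f1 f2 f3 o1 o2) (svel f1 f2 f3 l1 l2 h d1 d2 dh' o1 o2 o3)) =
      lc f1 f2 f3 (cA1 (P.b3 X1) l2 e2 d1 o3) (cA2 (P.b3 X1) l1 e2 d2 o3) 0 := by
    rw [Av, hx1, i2, hD, hJ]
    simp only [lc, cA1, cA2]
    module
  have hA' : Av P (PT X1 X2 X3 f3 (lc f1 f2 f3 l1 l2 h)) (TPT X1 X2 f3 (lc f1 f2 f3 l1 l2 h)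
      e1' e2' e3' (wvel f1 f2 f3 o1' o2') (svel f1 f2 f3 l1 l2 h d1' d2' dh'' o1' o2' o3')) =
      lc f1 f2 f3 (cA1 (P.b3 X1) l2 e2' d1' o3') (cA2 (P.b3 X1) l1 e2' d2' o3') 0 := by
    rw [Av, hx1, i2', hD', hJ]
    simp only [lc, cA1, cA2]
    module
  have hBB : Bv P R (PT X1 X2 X3 f3 (lc f1 f2 f3 l1 l2 h)) (TPT X1 X2 f3 (lc f1 f2 f3 l1 l2 h)
      e1 e2 e3 (wvel f1 f2 f3 o1 o2) (svel f1 f2 f3 l1 l2 h d1 d2 dh' o1 o2 o3)) =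
      lc f1 f2 f3 (cB1 (P.b1 X1) (P.b2 X1) R l1 l2 e1 e2 o1)
        (cB2 (P.b1 X1) (P.b2 X1) R l1 l2 e1 e2 o2) 0 := by
    rw [Bv, hB, hx1, i1, i2, hl, hJ]
    simp only [lc, cB1, cB2]
    module
  have hBB' : Bv P R (PT X1 X2 X3 f3 (lc f1 f2 f3 l1 l2 h)) (TPT X1 X2 f3 (lc f1 f2 f3 l1 l2 h)
      e1' e2' e3' (wvel f1 f2 f3 o1' o2') (svel f1 f2 f3 l1 l2 h d1' d2' dh'' o1' o2' o3')) =
      lc f1 f2 f3 (cB1 (P.b1 X1) (P.b2 X1) R l1 l2 e1' e2' o1')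
        (cB2 (P.b1 X1) (P.b2 X1) R l1 l2 e1' e2' o2') 0 := by
    rw [Bv, hB', hx1, i1', i2', hl, hJ]
    simp only [lc, cB1, cB2]
    module
  rw [gc, pfr, ufr, ufr, hRR, hA, hA', hBB, hBB', hx1, hw, hl, hJ, i1, i2, i3, i1', i2', i3',
    gcore_frame hf]

/-- The outer metric in a frame. -/
theorem go_frame (P : Prof) {f1 f2 f3 : V3} (hf : Fr f1 f2 f3)
    {X1 X2 X3 l1 l2 h R : ℝ} (hn : l1 ^ 2 + l2 ^ 2 + h ^ 2 = 1)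
    (hR : R = √(l1 ^ 2 + l2 ^ 2)) (hR0 : 0 < R)
    (e1 e2 e3 d1 d2 dh' o1 o2 o3 : ℝ) (ht : l1 * d1 + l2 * d2 + h * dh' = 0)
    (e1' e2' e3' d1' d2' dh'' o1' o2' o3' : ℝ) (ht' : l1 * d1' + l2 * d2' + h * dh'' = 0) :
    go P (pfr f1 f2 f3 X1 X2 X3 l1 l2 h)
      (ufr f1 f2 f3 X1 X2 l1 l2 h e1 e2 e3 d1 d2 dh' o1 o2 o3)
      (ufr f1 f2 f3 X1 X2 l1 l2 h e1' e2' e3' d1' d2' dh'' o1' o2' o3') =
    e1 * e1' + e2 * e2' + e3 * e3' +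
      (cA1 (P.b3 X1) l2 e2 d1 o3 * cA1 (P.b3 X1) l2 e2' d1' o3' +
        cA2 (P.b3 X1) l1 e2 d2 o3 * cA2 (P.b3 X1) l1 e2' d2' o3') / (4 * R) +
      R * (cB1 (P.b1 X1) (P.b2 X1) R l1 l2 e1 e2 o1 * cB1 (P.b1 X1) (P.b2 X1) R l1 l2 e1' e2' o1' +
        cB2 (P.b1 X1) (P.b2 X1) R l1 l2 e1 e2 o2 * cB2 (P.b1 X1) (P.b2 X1) R l1 l2 e1' e2' o2') +
      psi h * dh' * dh'' := by
  obtain ⟨-, hx1, hw, hh1, hl, hJ, i1, i2, i3, idh, hD, hB⟩ :=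
    frame_ingr hf (X1 := X1) (X2 := X2) (X3 := X3) hn e1 e2 e3 d1 d2 dh' o1 o2 o3 ht
  obtain ⟨-, -, -, -, -, -, i1', i2', i3', idh', hD', hB'⟩ :=
    frame_ingr hf (X1 := X1) (X2 := X2) (X3 := X3) hn e1' e2' e3' d1' d2' dh'' o1' o2' o3' ht'
  have hnl : nr (lv (PT X1 X2 X3 f3 (lc f1 f2 f3 l1 l2 h))) = R := by
    rw [nr, hl, dot_lc hf, hR]
    congr 1
    ring
  have hA : Av P (PT X1 X2 X3 f3 (lc f1 f2 f3 l1 l2 h)) (TPT X1 X2 f3 (lc f1 f2 f3 l1 l2 h)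
      e1 e2 e3 (wvel f1 f2 f3 o1 o2) (svel f1 f2 f3 l1 l2 h d1 d2 dh' o1 o2 o3)) =
      lc f1 f2 f3 (cA1 (P.b3 X1) l2 e2 d1 o3) (cA2 (P.b3 X1) l1 e2 d2 o3) 0 := by
    rw [Av, hx1, i2, hD, hJ]
    simp only [lc, cA1, cA2]
    module
  have hA' : Av P (PT X1 X2 X3 f3 (lc f1 f2 f3 l1 l2 h)) (TPT X1 X2 f3 (lc f1 f2 f3 l1 l2 h)
      e1' e2' e3' (wvel f1 f2 f3 o1' o2') (svel f1 f2 f3 l1 l2 h d1' d2' dh'' o1' o2' o3')) =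
      lc f1 f2 f3 (cA1 (P.b3 X1) l2 e2' d1' o3') (cA2 (P.b3 X1) l1 e2' d2' o3') 0 := by
    rw [Av, hx1, i2', hD', hJ]
    simp only [lc, cA1, cA2]
    module
  have hBB : Bv P R (PT X1 X2 X3 f3 (lc f1 f2 f3 l1 l2 h)) (TPT X1 X2 f3 (lc f1 f2 f3 l1 l2 h)
      e1 e2 e3 (wvel f1 f2 f3 o1 o2) (svel f1 f2 f3 l1 l2 h d1 d2 dh' o1 o2 o3)) =
      lc f1 f2 f3 (cB1 (P.b1 X1) (P.b2 X1) R l1 l2 e1 e2 o1)
        (cB2 (P.b1 X1) (P.b2 X1) R l1 l2 e1 e2 o2) 0 := by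
    rw [Bv, hB, hx1, i1, i2, hl, hJ]
    simp only [lc, cB1, cB2]
    module
  have hBB' : Bv P R (PT X1 X2 X3 f3 (lc f1 f2 f3 l1 l2 h)) (TPT X1 X2 f3 (lc f1 f2 f3 l1 l2 h)
      e1' e2' e3' (wvel f1 f2 f3 o1' o2') (svel f1 f2 f3 l1 l2 h d1' d2' dh'' o1' o2' o3')) =
      lc f1 f2 f3 (cB1 (P.b1 X1) (P.b2 X1) R l1 l2 e1' e2' o1')
        (cB2 (P.b1 X1) (P.b2 X1) R l1 l2 e1' e2' o2') 0 := by
    rw [Bv, hB', hx1, i1', i2', hl, hJ]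
    simp only [lc, cB1, cB2]
    module
  rw [go, pfr, ufr, ufr, hnl, hA, hA', hBB, hBB', hh1, i1, i2, i3, i1', i2', i3', idh, idh',
    dot_lc hf, dot_lc hf]
  ring

/-- every tangent vector is of the form `TPT ..` -/
theorem C1_exists_TPT {X1 X2 : ℝ} {w s : V3} (hw : dot w w = 1) (hs : dot s s = 1) (u : EE 7) :
    ∃ e1 e2 e3 : ℝ, ∃ w' s' : V3, dot w w' = 0 ∧ dot s s' = 0 ∧
      u = TPT X1 X2 w s e1 e2 e3 w' s' := by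
  have e1 : exp X1 ≠ 0 := (exp_pos _).ne'
  have e2 : exp X2 ≠ 0 := (exp_pos _).ne'
  refine ⟨(exp X1)⁻¹ * dot w (yv u), (exp X2)⁻¹ * dot s (zv u), u 0,
    (exp X1)⁻¹ • yv u - ((exp X1)⁻¹ * dot w (yv u)) • w,
    (exp X2)⁻¹ • zv u - ((exp X2)⁻¹ * dot s (zv u)) • s, ?_, ?_, ?_⟩
  · have : dot w ((exp X1)⁻¹ • yv u - ((exp X1)⁻¹ * dot w (yv u)) • w) =
        (exp X1)⁻¹ * dot w (yv u) - (exp X1)⁻¹ * dot w (yv u) * dot w w := by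
      simp only [dot, Pi.sub_apply, Pi.smul_apply, smul_eq_mul]
      ring
    rw [this, hw]; ring
  · have : dot s ((exp X2)⁻¹ • zv u - ((exp X2)⁻¹ * dot s (zv u)) • s) =
        (exp X2)⁻¹ * dot s (zv u) - (exp X2)⁻¹ * dot s (zv u) * dot s s := by
      simp only [dot, Pi.sub_apply, Pi.smul_apply, smul_eq_mul]
      ring
    rw [this, hs]; ring
  · rw [TPT, add_sub_cancel, add_sub_cancel, smul_smul, smul_smul, mul_inv_cancel₀ e1,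
      mul_inv_cancel₀ e2, one_smul, one_smul, mk7_eta]

/-- Every tangent vector at a point of `OM` is of the form `ufr` with given frame (`f3 = w`), if `h ≠ 0`:
one may take `o3 = 0`. -/
theorem exists_ufr {f1 f2 f3 : V3} (hf : Fr f1 f2 f3) {X1 X2 X3 l1 l2 h : ℝ}
    (hn : l1 ^ 2 + l2 ^ 2 + h ^ 2 = 1) (hh0 : h ≠ 0) (u : EE 7) :
    ∃ e1 e2 e3 d1 d2 dh' o1 o2, l1 * d1 + l2 * d2 + h * dh' = 0 ∧
      u = ufr f1 f2 f3 X1 X2 l1 l2 h e1 e2 e3 d1 d2 dh' o1 o2 0 := by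
  have hs : dot (lc f1 f2 f3 l1 l2 h) (lc f1 f2 f3 l1 l2 h) = 1 := by
    rw [dot_lc hf]; linarith [hn]
  obtain ⟨e1, e2, e3, w', s', hww, hss, hu⟩ := C1_exists_TPT (X1 := X1) (X2 := X2) hf.n3 hs u
  have hw' := eq_lc hf w'
  have hs' := eq_lc hf s'
  have hw3 : dot w' f3 = 0 := by rw [dot_comm]; exact hww
  rw [hs', dot_lc hf] at hss
  refine ⟨e1, e2, e3, dot s' f1 - h * dot w' f1, dot s' f2 - h * dot w' f2,
    dot s' f3 + l1 * dot w' f1 + l2 * dot w' f2, -dot w' f2, dot w' f1, ?_, ?_⟩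
  · linear_combination hss
  · rw [hu, ufr, wvel, svel]
    congr 1
    · conv_lhs => rw [hw']
      rw [hw3, neg_neg]
    · conv_lhs => rw [hs']
      congr 1 <;> ring

/-- If `(l1, l2) = (t, 0)`, `t > 0`: every tangent vector is of the form `ufr` with `d2 = 0`. -/
theorem exists_ufr' {f1 f2 f3 : V3} (hf : Fr f1 f2 f3) {X1 X2 X3 t h : ℝ}
    (hn : t ^ 2 + h ^ 2 = 1) (ht0 : 0 < t) (u : EE 7) :
    ∃ e1 e2 e3 d1 dh' o1 o2 o3, t * d1 + h * dh' = 0 ∧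
      u = ufr f1 f2 f3 X1 X2 t 0 h e1 e2 e3 d1 0 dh' o1 o2 o3 := by
  have hs : dot (lc f1 f2 f3 t 0 h) (lc f1 f2 f3 t 0 h) = 1 := by
    rw [dot_lc hf]; linarith [hn]
  obtain ⟨e1, e2, e3, w', s', hww, hss, hu⟩ := C1_exists_TPT (X1 := X1) (X2 := X2) hf.n3 hs u
  have hw' := eq_lc hf w'
  have hs' := eq_lc hf s'
  have hw3 : dot w' f3 = 0 := by rw [dot_comm]; exact hww
  rw [hs', dot_lc hf] at hss
  refine ⟨e1, e2, e3, dot s' f1 - h * dot w' f1,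
    dot s' f3 + t * dot w' f1, -dot w' f2, dot w' f1,
    (dot s' f2 - h * dot w' f2) / t, ?_, ?_⟩
  · linear_combination hss
  · rw [hu, ufr, wvel, svel]
    congr 1
    · conv_lhs => rw [hw']
      rw [hw3, neg_neg]
    · conv_lhs => rw [hs']
      congr 1
      · ring
      · field_simp
        ring
      · ring

/-- Every point of `OM` has a frame with `l = t f1`, `t = sqrt (1 - h^2)`. -/
theorem exists_pfr {p : EE 7} (hp : p ∈ OM) :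
    ∃ f1 f2 f3 : V3, Fr f1 f2 f3 ∧ ∃ t : ℝ, 0 ≤ t ∧ t ^ 2 + hh p ^ 2 = 1 ∧
      dot (lv p) (lv p) = t ^ 2 ∧ p = pfr f1 f2 f3 (x1 p) (x2 p) (x3 p) t 0 (hh p) := by
  have hw := wv_unit hp
  have hs := sv_unit hp
  have hh0 : dot (wv p) (sv p) = hh p := rfl
  have hll : dot (lv p) (lv p) = 1 - hh p ^ 2 := by
    have : dot (lv p) (lv p) = dot (sv p) (sv p) - 2 * hh p * dot (wv p) (sv p)
        + hh p ^ 2 * dot (wv p) (wv p) := by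
      simp only [lv, dot, Pi.sub_apply, Pi.smul_apply, smul_eq_mul]
      ring
    rw [this, hw, hs, hh0]
    ring
  have hwl : dot (wv p) (lv p) = 0 := by
    have : dot (wv p) (lv p) = dot (wv p) (sv p) - hh p * dot (wv p) (wv p) := by
      simp only [lv, dot, Pi.sub_apply, Pi.smul_apply, smul_eq_mul]
      ring
    rw [this, hw, hh0]
    ring
  have hsl : sv p = lv p + hh p • wv p := by simp [lv]
  have hnn : 0 ≤ dot (lv p) (lv p) := by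
    simp only [dot]
    nlinarith [mul_self_nonneg (lv p 0), mul_self_nonneg (lv p 1), mul_self_nonneg (lv p 2)]
  have key : ∃ e : V3, dot e e = 1 ∧ dot (wv p) e = 0 ∧ lv p = nr (lv p) • e := by
    by_cases h0 : lv p = 0
    · obtain ⟨e, he, hwe⟩ := exists_perp hw
      refine ⟨e, he, hwe, ?_⟩
      have : nr (lv p) = 0 := by
        rw [nr, h0]; simp [dot]
      rw [this, zero_smul, h0]
    · have hpos := nr_pos h0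
      refine ⟨(nr (lv p))⁻¹ • lv p, ?_, ?_, ?_⟩
      · rw [C0_dot_smul_left, C0_dot_smul_right, ← nr_sq]
        field_simp
      · rw [C0_dot_smul_right, hwl, mul_zero]
      · rw [smul_smul, mul_inv_cancel₀ hpos.ne', one_smul]
  obtain ⟨e, he, hwe, hle⟩ := key
  refine ⟨e, crs (wv p) e, wv p, fr_of hw he hwe, nr (lv p), Real.sqrt_nonneg _, ?_, ?_, ?_⟩
  · rw [nr_sq, hll]; ring
  · rw [nr_sq]
  · rw [pfr]
    have : lc e (crs (wv p) e) (wv p) (nr (lv p)) 0 (hh p) = sv p := by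
      rw [hsl]
      conv_rhs => rw [hle]
      simp [lc]
    rw [this, PT_eta hp]

end H31R
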