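import Pool.Agent.Lib.H31R.F0

/-!
# H31R, chunk F1: 2-jets at a point of functions `F λ : EE 7 → ℝ`, modulo `O(λ^3)`
-/

open scoped ContDiff Topology
open Real Filter Asymptotics

namespace H31R

/-- value, first and second partial derivatives, modulo `λ^3` -/
@[ext] structure Jet where
  v : T3
  g : Fin 7 → T3
  h : Fin 7 → Fin 7 → T3

namespace Jet

/-- sum of jets -/
def add (a b : Jet) : Jet := ⟨a.v + b.v, fun i => a.g i + b.g i, fun i j => a.h i j + b.h i j⟩

/-- negative of a jet -/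
def neg (a : Jet) : Jet := ⟨-a.v, fun i => -a.g i, fun i j => -a.h i j⟩

/-- product of jets -/
def mul (a b : Jet) : Jet :=
  ⟨a.v * b.v, fun i => a.g i * b.v + a.v * b.g i,
    fun i j => a.h i j * b.v + a.g i * b.g j + a.g j * b.g i + a.v * b.h i j⟩

/-- constant -/
def cst (c : T3) : Jet := ⟨c, fun _ => 0, fun _ _ => 0⟩

/-- product with a constant -/
def smul (c : T3) (a : Jet) : Jet := ⟨c * a.v, fun i => c * a.g i, fun i j => c * a.h i j⟩

/-- composition with a function `f` of one variable with `f 1 = f0`, `f' 1 = f1`, `f'' 1 = f2` -/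
def comp1 (f0 f1 f2 : ℝ) (a : Jet) : Jet :=
  ⟨T3.C f0, fun i => T3.C f1 * a.g i, fun i j => T3.C f1 * a.h i j + T3.C f2 * (a.g i * a.g j)⟩

/-- coordinate function `ξ k` at a point with `ξ k = r` -/
def crd (k : Fin 7) (r : ℝ) : Jet := ⟨T3.C r, fun i => if i = k then 1 else 0, fun _ _ => 0⟩

/-- jet of `f (x + λ ξ 0)` at `ξ 0 = 0` -/
def shf (f0 f1 f2 : ℝ) : Jet :=
  ⟨T3.C f0, fun i => if i = 0 then ⟨0, f1, 0⟩ else 0,
    fun i j => if i = 0 ∧ j = 0 then ⟨0, 0, f2⟩ else 0⟩

end Jet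

/-- `F λ` has the jet `c` at `q`, up to `O(λ^3)` -/
structure JApp (F : ℝ → EE 7 → ℝ) (q : EE 7) (c : Jet) : Prop where
  sm : ∀ᶠ l in 𝓝 (0 : ℝ), ContDiffAt ℝ 2 (F l) q
  v : App (fun l => F l q) c.v
  g : ∀ i, App (fun l => pd i (F l) q) (c.g i)
  h : ∀ i j, App (fun l => pd i (pd j (F l)) q) (c.h i j)

theorem F1_ev {f : EE 7 → ℝ} {q : EE 7} (hf : ContDiffAt ℝ 2 f q) :
    ∀ᶠ x in 𝓝 q, DifferentiableAt ℝ f x :=
  (hf.eventually (by decide)).mono fun x hx => hx.differentiableAt (by decide)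

theorem F1_pd_diff {f : EE 7 → ℝ} {q : EE 7} (hf : ContDiffAt ℝ 2 f q) (j : Fin 7) :
    DifferentiableAt ℝ (pd j f) q := by
  have h1 : ContDiffAt ℝ 1 (fderiv ℝ f) q := hf.fderiv_right (by norm_num)
  exact (h1.differentiableAt (by decide)).clm_apply (differentiableAt_const _)

theorem F1_pd_add {f g : EE 7 → ℝ} {q : EE 7} (hf : DifferentiableAt ℝ f q)
    (hg : DifferentiableAt ℝ g q) (i : Fin 7) :
    pd i (fun x => f x + g x) q = pd i f q + pd i g q := by
  unfold pd
  rw [fderiv_fun_add hf hg]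
  rfl

theorem F1_pd_mul {f g : EE 7 → ℝ} {q : EE 7} (hf : DifferentiableAt ℝ f q)
    (hg : DifferentiableAt ℝ g q) (i : Fin 7) :
    pd i (fun x => f x * g x) q = pd i f q * g q + f q * pd i g q := by
  unfold pd
  rw [fderiv_fun_mul hf hg]
  simp only [add_apply, smul_apply, smul_eq_mul]
  ring

theorem F1_pd_neg {f : EE 7 → ℝ} (q : EE 7) (i : Fin 7) :
    pd i (fun x => -f x) q = -pd i f q := by
  unfold pd
  rw [fderiv_fun_neg]
  rfl

theorem F1_pd_const (r : ℝ) (q : EE 7) (i : Fin 7) : pd i (fun _ => r) q = 0 := by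
  unfold pd
  rw [fderiv_const_apply]
  rfl

theorem F1_pd_congr {f g : EE 7 → ℝ} {q : EE 7} (h : f =ᶠ[𝓝 q] g) (i : Fin 7) :
    pd i f q = pd i g q := by
  unfold pd
  rw [h.fderiv_eq]

theorem F1_pd_ev {f g : EE 7 → ℝ} {q : EE 7} (h : f =ᶠ[𝓝 q] g) (i : Fin 7) :
    pd i f =ᶠ[𝓝 q] pd i g := by
  filter_upwards [h.eventuallyEq_nhds] with x hx
  exact F1_pd_congr hx i

theorem F1_pd2_add {f g : EE 7 → ℝ} {q : EE 7} (hf : ContDiffAt ℝ 2 f q)
    (hg : ContDiffAt ℝ 2 g q) (i j : Fin 7) :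
    pd i (pd j (fun x => f x + g x)) q = pd i (pd j f) q + pd i (pd j g) q := by
  have h : pd j (fun x => f x + g x) =ᶠ[𝓝 q] fun x => pd j f x + pd j g x := by
    filter_upwards [F1_ev hf, F1_ev hg] with x h1 h2
    exact F1_pd_add h1 h2 j
  rw [F1_pd_congr h, F1_pd_add (F1_pd_diff hf j) (F1_pd_diff hg j)]

theorem F1_pd2_mul {f g : EE 7 → ℝ} {q : EE 7} (hf : ContDiffAt ℝ 2 f q)
    (hg : ContDiffAt ℝ 2 g q) (i j : Fin 7) :
    pd i (pd j (fun x => f x * g x)) q = pd i (pd j f) q * g q + pd i f q * pd j g q +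
      pd j f q * pd i g q + f q * pd i (pd j g) q := by
  have h : pd j (fun x => f x * g x) =ᶠ[𝓝 q] fun x => pd j f x * g x + f x * pd j g x := by
    filter_upwards [F1_ev hf, F1_ev hg] with x h1 h2
    exact F1_pd_mul h1 h2 j
  have hfd := hf.differentiableAt (by decide)
  have hgd := hg.differentiableAt (by decide)
  rw [F1_pd_congr h, F1_pd_add ((F1_pd_diff hf j).fun_mul hgd) (hfd.fun_mul (F1_pd_diff hg j)),
    F1_pd_mul (F1_pd_diff hf j) hgd, F1_pd_mul hfd (F1_pd_diff hg j)]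
  ring

theorem F1_pd2_neg {f : EE 7 → ℝ} (q : EE 7) (i j : Fin 7) :
    pd i (pd j (fun x => -f x)) q = -pd i (pd j f) q := by
  have h : pd j (fun x => -f x) = fun x => -pd j f x := by
    ext x
    exact F1_pd_neg x j
  rw [h, F1_pd_neg]

/-- The jet depends only on the germs. -/
theorem JApp.congr {F G : ℝ → EE 7 → ℝ} {q : EE 7} {c : Jet} (hF : JApp F q c)
    (h : ∀ᶠ l in 𝓝 (0 : ℝ), F l =ᶠ[𝓝 q] G l) : JApp G q c := by
  refine ⟨?_, ?_, ?_, ?_⟩
  · filter_upwards [hF.sm, h] with l h1 h2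
    exact h1.congr_of_eventuallyEq h2.symm
  · refine hF.v.congr ?_
    filter_upwards [h] with l h2
    exact h2.eq_of_nhds
  · intro i
    refine (hF.g i).congr ?_
    filter_upwards [h] with l h2
    exact F1_pd_congr h2 i
  · intro i j
    refine (hF.h i j).congr ?_
    filter_upwards [h] with l h2
    exact F1_pd_congr (F1_pd_ev h2 j) i

theorem JApp.add {F G : ℝ → EE 7 → ℝ} {q : EE 7} {c d : Jet} (hF : JApp F q c)
    (hG : JApp G q d) : JApp (fun l x => F l x + G l x) q (c.add d) := by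
  refine ⟨?_, hF.v.add hG.v, ?_, ?_⟩
  · filter_upwards [hF.sm, hG.sm] with l h1 h2
    exact h1.add h2
  · intro i
    refine ((hF.g i).add (hG.g i)).congr ?_
    filter_upwards [hF.sm, hG.sm] with l h1 h2
    exact (F1_pd_add (h1.differentiableAt (by decide)) (h2.differentiableAt (by decide)) i).symm
  · intro i j
    refine ((hF.h i j).add (hG.h i j)).congr ?_
    filter_upwards [hF.sm, hG.sm] with l h1 h2
    exact (F1_pd2_add h1 h2 i j).symm

theorem JApp.neg {F : ℝ → EE 7 → ℝ} {q : EE 7} {c : Jet} (hF : JApp F q c) :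
    JApp (fun l x => -F l x) q c.neg := by
  refine ⟨?_, hF.v.neg, ?_, ?_⟩
  · filter_upwards [hF.sm] with l h1
    exact h1.neg
  · intro i
    refine ((hF.g i).neg).congr (Eventually.of_forall fun l => ?_)
    exact (F1_pd_neg q i).symm
  · intro i j
    refine ((hF.h i j).neg).congr (Eventually.of_forall fun l => ?_)
    exact (F1_pd2_neg q i j).symm

theorem JApp.mul {F G : ℝ → EE 7 → ℝ} {q : EE 7} {c d : Jet} (hF : JApp F q c)
    (hG : JApp G q d) : JApp (fun l x => F l x * G l x) q (c.mul d) := by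
  refine ⟨?_, hF.v.mul hG.v, ?_, ?_⟩
  · filter_upwards [hF.sm, hG.sm] with l h1 h2
    exact h1.mul h2
  · intro i
    refine (((hF.g i).mul hG.v).add (hF.v.mul (hG.g i))).congr ?_
    filter_upwards [hF.sm, hG.sm] with l h1 h2
    exact (F1_pd_mul (h1.differentiableAt (by decide)) (h2.differentiableAt (by decide)) i).symm
  · intro i j
    refine ((((hF.h i j).mul hG.v).add ((hF.g i).mul (hG.g j))).add
      ((hF.g j).mul (hG.g i)) |>.add (hF.v.mul (hG.h i j))).congr ?_
    filter_upwards [hF.sm, hG.sm] with l h1 h2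
    exact (F1_pd2_mul h1 h2 i j).symm

/-- functions of `λ` only -/
theorem JApp.cst {f : ℝ → ℝ} {c : T3} (q : EE 7) (hf : App f c) :
    JApp (fun l _ => f l) q (Jet.cst c) := by
  have h0 : App (fun _ => (0 : ℝ)) (0 : T3) := App.const 0
  refine ⟨Eventually.of_forall fun l => contDiffAt_const, hf, ?_, ?_⟩
  · intro i
    refine h0.congr (Eventually.of_forall fun l => ?_)
    exact (F1_pd_const (f l) q i).symm
  · intro i j
    refine h0.congr (Eventually.of_forall fun l => ?_)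
    have : pd j (fun _ : EE 7 => f l) = fun _ => 0 := by
      ext x
      exact F1_pd_const (f l) x j
    show (0 : ℝ) = pd i (pd j (fun _ : EE 7 => f l)) q
    rw [this, F1_pd_const]

theorem F1_zero_mul (a : T3) : (0 : T3) * a = 0 := zero_mul a

theorem JApp.smul {f : ℝ → ℝ} {c : T3} {F : ℝ → EE 7 → ℝ} {q : EE 7} {d : Jet}
    (hf : App f c) (hF : JApp F q d) : JApp (fun l x => f l * F l x) q (Jet.smul c d) := by
  have h := (JApp.cst q hf).mul hF
  have e : (Jet.cst c).mul d = Jet.smul c d := by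
    ext1
    · rfl
    · funext i
      show (0 : T3) * d.v + c * d.g i = c * d.g i
      rw [zero_mul, zero_add]
    · funext i j
      show (0 : T3) * d.v + 0 * d.g j + 0 * d.g i + c * d.h i j = c * d.h i j
      rw [zero_mul, zero_mul, zero_mul, zero_add, zero_add, zero_add]
  rw [e] at h
  exact h

theorem F1_pd_crd (k i : Fin 7) (q : EE 7) :
    pd i (fun x => x k) q = if i = k then 1 else 0 := by
  unfold pd
  have h : HasFDerivAt (fun x : EE 7 => x k) (EuclideanSpace.proj k : EE 7 →L[ℝ] ℝ) q :=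
    (EuclideanSpace.proj k : EE 7 →L[ℝ] ℝ).hasFDerivAt
  rw [h.fderiv]
  simp [ebas, eq_comm]

/-- coordinate functions -/
theorem JApp.crd (k : Fin 7) (q : EE 7) : JApp (fun _ x => x k) q (Jet.crd k (q k)) := by
  have h0 : App (fun _ => (0 : ℝ)) (0 : T3) := App.const 0
  have h1 : App (fun _ => (1 : ℝ)) (1 : T3) := App.const 1
  refine ⟨Eventually.of_forall fun l => ?_, App.const _, ?_, ?_⟩
  · exact (EuclideanSpace.proj k : EE 7 →L[ℝ] ℝ).contDiff.contDiffAt
  · intro i
    show App _ (if i = k then 1 else 0)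
    by_cases hik : i = k
    · rw [if_pos hik]
      refine h1.congr (Eventually.of_forall fun l => ?_)
      show (1 : ℝ) = pd i (fun x => x k) q
      rw [F1_pd_crd, if_pos hik]
    · rw [if_neg hik]
      refine h0.congr (Eventually.of_forall fun l => ?_)
      show (0 : ℝ) = pd i (fun x => x k) q
      rw [F1_pd_crd, if_neg hik]
  · intro i j
    refine h0.congr (Eventually.of_forall fun l => ?_)
    have : pd j (fun x : EE 7 => x k) = fun _ => if j = k then 1 else 0 := by
      ext x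
      exact F1_pd_crd k j x
    show (0 : ℝ) = pd i (pd j (fun x : EE 7 => x k)) q
    rw [this, F1_pd_const]

theorem F1_pd_comp {f : ℝ → ℝ} {g : EE 7 → ℝ} {q : EE 7} (hf : DifferentiableAt ℝ f (g q))
    (hg : DifferentiableAt ℝ g q) (i : Fin 7) :
    pd i (fun x => f (g x)) q = deriv f (g q) * pd i g q := by
  unfold pd
  have h := (hf.hasDerivAt.comp_hasFDerivAt q hg.hasFDerivAt)
  have h2 : fderiv ℝ (fun x => f (g x)) q = deriv f (g q) • fderiv ℝ g q := h.fderiv
  rw [h2]
  rfl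

theorem F1_pd2_comp {f : ℝ → ℝ} {g : EE 7 → ℝ} {q : EE 7} (hf : ContDiffAt ℝ 2 f (g q))
    (hg : ContDiffAt ℝ 2 g q) (i j : Fin 7) :
    pd i (pd j (fun x => f (g x))) q =
      deriv (deriv f) (g q) * (pd i g q * pd j g q) + deriv f (g q) * pd i (pd j g) q := by
  have hev : ∀ᶠ y in 𝓝 (g q), DifferentiableAt ℝ f y :=
    (hf.eventually (by decide)).mono fun x hx => hx.differentiableAt (by decide)
  have hev2 : ∀ᶠ x in 𝓝 q, DifferentiableAt ℝ f (g x) :=
    hg.continuousAt.eventually hev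
  have h : pd j (fun x => f (g x)) =ᶠ[𝓝 q] fun x => deriv f (g x) * pd j g x := by
    filter_upwards [hev2, F1_ev hg] with x h1 h2
    exact F1_pd_comp h1 h2 j
  have hf' : DifferentiableAt ℝ (deriv f) (g q) := by
    have h1 : ContDiffAt ℝ 1 (fderiv ℝ f) (g q) := hf.fderiv_right (by norm_num)
    have h2 : DifferentiableAt ℝ (fun y => fderiv ℝ f y 1) (g q) :=
      (h1.differentiableAt (by decide)).clm_apply (differentiableAt_const _)
    have h3 : (fun y => fderiv ℝ f y 1) = deriv f := by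
      ext y
      exact fderiv_apply_one_eq_deriv
    rw [h3] at h2
    exact h2
  have hgd := hg.differentiableAt (by decide)
  have hcomp : DifferentiableAt ℝ (fun x => deriv f (g x)) q := hf'.comp q hgd
  rw [F1_pd_congr h, F1_pd_mul hcomp (F1_pd_diff hg j), F1_pd_comp hf' hgd]
  ring

/-- composition with a function of one variable, at points where the inner function is `1` -/
theorem JApp.comp1 {f : ℝ → ℝ} {F : ℝ → EE 7 → ℝ} {q : EE 7} {c : Jet} (hF : JApp F q c)
    (h1 : ∀ l, F l q = 1) (hf : ContDiffAt ℝ 2 f 1) :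
    JApp (fun l x => f (F l x)) q (Jet.comp1 (f 1) (deriv f 1) (deriv (deriv f) 1) c) := by
  have hf' : ∀ l, ContDiffAt ℝ 2 f (F l q) := fun l => by rw [h1 l]; exact hf
  refine ⟨?_, ?_, ?_, ?_⟩
  · filter_upwards [hF.sm] with l hl
    exact (hf' l).comp q hl
  · refine (App.const (f 1)).congr (Eventually.of_forall fun l => ?_)
    show f 1 = f (F l q)
    rw [h1 l]
  · intro i
    refine ((App.const (deriv f 1)).mul (hF.g i)).congr ?_
    filter_upwards [hF.sm] with l hl
    show deriv f 1 * pd i (F l) q = pd i (fun x => f (F l x)) q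
    rw [F1_pd_comp ((hf' l).differentiableAt (by decide)) (hl.differentiableAt (by decide)), h1 l]
  · intro i j
    refine (((App.const (deriv f 1)).mul (hF.h i j)).add
      ((App.const (deriv (deriv f) 1)).mul ((hF.g i).mul (hF.g j)))).congr ?_
    filter_upwards [hF.sm] with l hl
    show deriv f 1 * pd i (pd j (F l)) q +
      deriv (deriv f) 1 * (pd i (F l) q * pd j (F l) q) = pd i (pd j (fun x => f (F l x))) q
    rw [F1_pd2_comp (hf' l) hl, h1 l]
    ring

/-- `f (x + λ ξ 0)` -/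
theorem JApp.shf {f : ℝ → ℝ} (hf : ContDiff ℝ 2 f) (x : ℝ) {q : EE 7} (hq : q 0 = 0) :
    JApp (fun l ξ => f (x + l * ξ 0)) q (Jet.shf (f x) (deriv f x) (deriv (deriv f) x)) := by
  have h0 : App (fun _ => (0 : ℝ)) (0 : T3) := App.const 0
  have hin : ∀ l : ℝ, ContDiffAt ℝ 2 (fun ξ : EE 7 => x + l * ξ 0) q := fun l =>
    contDiffAt_const.add (contDiffAt_const.mul
      (EuclideanSpace.proj 0 : EE 7 →L[ℝ] ℝ).contDiff.contDiffAt)
  have hval : ∀ l : ℝ, x + l * q 0 = x := fun l => by rw [hq, mul_zero, add_zero]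
  have hpd : ∀ (l : ℝ) (i : Fin 7) (y : EE 7),
      pd i (fun ξ : EE 7 => x + l * ξ 0) y = if i = 0 then l else 0 := by
    intro l i y
    have hd : DifferentiableAt ℝ (fun ξ : EE 7 => ξ 0) y :=
      (EuclideanSpace.proj 0 : EE 7 →L[ℝ] ℝ).differentiableAt
    rw [F1_pd_add (differentiableAt_const _) ((differentiableAt_const _).fun_mul hd), F1_pd_const,
      F1_pd_mul (differentiableAt_const _) hd, F1_pd_const, F1_pd_crd]
    by_cases hi : i = 0
    · rw [if_pos hi, if_pos hi]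
      ring
    · rw [if_neg hi, if_neg hi]
      ring
  have hpd2 : ∀ (l : ℝ) (i j : Fin 7),
      pd i (pd j (fun ξ : EE 7 => x + l * ξ 0)) q = 0 := by
    intro l i j
    have : pd j (fun ξ : EE 7 => x + l * ξ 0) = fun _ => if j = 0 then l else 0 := by
      ext y
      exact hpd l j y
    rw [this, F1_pd_const]
  refine ⟨Eventually.of_forall fun l => ?_, ?_, ?_, ?_⟩
  · exact hf.contDiffAt.comp q (hin l)
  · refine (App.const (f x)).congr (Eventually.of_forall fun l => ?_)
    show f x = f (x + l * q 0)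
    rw [hval]
  · intro i
    have key : ∀ l : ℝ, pd i (fun ξ : EE 7 => f (x + l * ξ 0)) q =
        deriv f x * (if i = 0 then l else 0) := by
      intro l
      rw [F1_pd_comp (f := f) (g := fun ξ : EE 7 => x + l * ξ 0)
        (hf.contDiffAt.differentiableAt (by decide)) ((hin l).differentiableAt (by decide)), hpd,
        hval]
    show App _ (if i = 0 then ⟨0, deriv f x, 0⟩ else 0)
    by_cases hi : i = 0
    · rw [if_pos hi]
      have h2 := (App.const (deriv f x)).mul App.lam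
      have e : T3.C (deriv f x) * ⟨0, 1, 0⟩ = ⟨0, deriv f x, 0⟩ := by
        ext <;> simp
      rw [e] at h2
      refine h2.congr (Eventually.of_forall fun l => ?_)
      show deriv f x * l = pd i (fun ξ : EE 7 => f (x + l * ξ 0)) q
      rw [key, if_pos hi]
    · rw [if_neg hi]
      refine h0.congr (Eventually.of_forall fun l => ?_)
      show (0 : ℝ) = pd i (fun ξ : EE 7 => f (x + l * ξ 0)) q
      rw [key, if_neg hi, mul_zero]
  · intro i j
    have key : ∀ l : ℝ, pd i (pd j (fun ξ : EE 7 => f (x + l * ξ 0))) q =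
        deriv (deriv f) x * ((if i = 0 then l else 0) * (if j = 0 then l else 0)) := by
      intro l
      rw [F1_pd2_comp (f := f) (g := fun ξ : EE 7 => x + l * ξ 0) hf.contDiffAt (hin l), hpd,
        hpd, hpd2, hval]
      ring
    show App _ (if i = 0 ∧ j = 0 then ⟨0, 0, deriv (deriv f) x⟩ else 0)
    by_cases hij : i = 0 ∧ j = 0
    · rw [if_pos hij]
      have h2 := (App.const (deriv (deriv f) x)).mul (App.lam.mul App.lam)
      have e : T3.C (deriv (deriv f) x) * ((⟨0, 1, 0⟩ : T3) * ⟨0, 1, 0⟩) =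
          ⟨0, 0, deriv (deriv f) x⟩ := by
        ext <;> simp
      rw [e] at h2
      refine h2.congr (Eventually.of_forall fun l => ?_)
      show deriv (deriv f) x * (l * l) = pd i (pd j (fun ξ : EE 7 => f (x + l * ξ 0))) q
      rw [key, if_pos hij.1, if_pos hij.2]
    · rw [if_neg hij]
      refine h0.congr (Eventually.of_forall fun l => ?_)
      show (0 : ℝ) = pd i (pd j (fun ξ : EE 7 => f (x + l * ξ 0))) q
      rw [key]
      by_cases hi : i = 0
      · have hj : ¬ j = 0 := fun h => hij ⟨hi, h⟩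
        rw [if_neg hj, mul_zero, mul_zero]
      · rw [if_neg hi, zero_mul, mul_zero]

theorem F1_sq {g : ℝ → ℝ} (hg : DifferentiableAt ℝ g 0) :
    App (fun l => l ^ 2 * g l) ⟨0, 0, g 0⟩ := by
  have h1 : (fun l => g l - g 0) =O[𝓝 0] fun l : ℝ => l - 0 := hg.isBigO_sub
  have h2 : (fun l : ℝ => l ^ 2 * (g l - g 0)) =O[𝓝 0] fun l : ℝ => l ^ 2 * (l - 0) :=
    (isBigO_refl _ _).mul h1
  unfold App
  refine (h2.congr_left fun l => ?_).congr_right fun l => ?_
  · show l ^ 2 * (g l - g 0) = l ^ 2 * g l - (0 + 0 * l + g 0 * l ^ 2)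
    ring
  · ring

/-- partial derivatives of a jointly smooth function are jointly smooth -/
theorem F1_joint {H : ℝ × EE 7 → ℝ} {q : EE 7} (hH : ContDiffAt ℝ ∞ H (0, q)) (j : Fin 7) :
    ContDiffAt ℝ ∞ (fun z : ℝ × EE 7 => pd j (fun x => H (z.1, x)) z.2) (0, q) := by
  have hev : ∀ᶠ z in 𝓝 ((0 : ℝ), q), DifferentiableAt ℝ H z := by
    have h1 : ContDiffAt ℝ 1 H (0, q) := hH.of_le (by exact_mod_cast le_top)
    exact (h1.eventually (by decide)).mono fun x hx => hx.differentiableAt (by decide)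
  have hfd : ContDiffAt ℝ ∞ (fderiv ℝ H) (0, q) := hH.fderiv_right (by norm_num)
  have h2 : ContDiffAt ℝ ∞ (fun z : ℝ × EE 7 => fderiv ℝ H z ((0 : ℝ), ebas j)) (0, q) :=
    hfd.clm_apply contDiffAt_const
  refine h2.congr_of_eventuallyEq ?_
  filter_upwards [hev] with z hz
  have h3 : HasFDerivAt (fun x : EE 7 => ((z.1, x) : ℝ × EE 7))
      (ContinuousLinearMap.inr ℝ ℝ (EE 7)) z.2 := hasFDerivAt_prodMk_right z.1 z.2
  have h4 : HasFDerivAt (fun x : EE 7 => H (z.1, x))
      ((fderiv ℝ H z).comp (ContinuousLinearMap.inr ℝ ℝ (EE 7))) z.2 := by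
    have hz' : HasFDerivAt H (fderiv ℝ H z) ((z.1, z.2) : ℝ × EE 7) := hz.hasFDerivAt
    exact hz'.comp z.2 h3
  show fderiv ℝ (fun x : EE 7 => H (z.1, x)) z.2 (ebas j) = _
  rw [h4.fderiv]
  rfl

theorem F1_slice {H : ℝ × EE 7 → ℝ} {q : EE 7} (hH : ContDiffAt ℝ ∞ H (0, q)) :
    DifferentiableAt ℝ (fun l => H (l, q)) 0 := by
  have h1 : DifferentiableAt ℝ H (0, q) := hH.differentiableAt (by decide)
  exact h1.comp (0 : ℝ) ((differentiableAt_id).prodMk (differentiableAt_const _))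

theorem F1_ev_line {H : ℝ × EE 7 → ℝ} {q : EE 7} (hH : ContDiffAt ℝ ∞ H (0, q)) :
    ∀ᶠ l in 𝓝 (0 : ℝ), ContDiffAt ℝ 2 (fun x => H (l, x)) q := by
  have h1 : ContDiffAt ℝ 2 H (0, q) :=
    hH.of_le (show ((2 : ℕ∞) : WithTop ℕ∞) ≤ ((⊤ : ℕ∞) : WithTop ℕ∞) from
      WithTop.coe_le_coe.mpr le_top)
  have hev : ∀ᶠ z in 𝓝 ((0 : ℝ), q), ContDiffAt ℝ 2 H z := h1.eventually (by decide)
  have hc : ContinuousAt (fun l : ℝ => ((l, q) : ℝ × EE 7)) 0 := by fun_prop
  filter_upwards [hc.eventually hev] with l hl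
  exact hl.comp q (contDiffAt_const.prodMk contDiffAt_id)

theorem F1_c {a : ℝ} {c : T3} (h : App (fun _ => a) c) : (⟨0, 0, 1⟩ : T3) * c = ⟨0, 0, a⟩ := by
  have := App.unique h (App.const a)
  rw [this]
  ext <;> simp

/-- A function multiplied by `λ^2`: only the jet at `λ = 0` is needed. (`F` jointly smooth near
`(0, q)`; value and partial derivatives at `q` are functions of `λ` of the form constant + `O(λ)`;
`⟨0, 0, 1⟩ * c = ⟨0, 0, c.c0⟩`, and `c.c0` is the value for the constant function of `λ`.) -/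
theorem JApp.sq_mul {F : ℝ → EE 7 → ℝ} {q : EE 7}
    (hF : ContDiffAt ℝ ∞ (fun z : ℝ × EE 7 => F z.1 z.2) (0, q)) {c : Jet}
    (h0 : JApp (fun _ => F 0) q c) :
    JApp (fun l x => l ^ 2 * F l x) q (Jet.smul ⟨0, 0, 1⟩ c) := by
  have hsm := F1_ev_line hF
  have hpdl : ∀ l : ℝ, ContDiffAt ℝ 2 (F l) q → ∀ i : Fin 7,
      pd i (fun x => l ^ 2 * F l x) q = l ^ 2 * pd i (F l) q := by
    intro l hl i
    rw [F1_pd_mul (differentiableAt_const _) (hl.differentiableAt (by decide)), F1_pd_const]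
    ring
  refine ⟨?_, ?_, ?_, ?_⟩
  · filter_upwards [hsm] with l hl
    exact contDiffAt_const.mul hl
  · show App _ ((⟨0, 0, 1⟩ : T3) * c.v)
    rw [F1_c h0.v]
    exact F1_sq (F1_slice hF)
  · intro i
    show App _ ((⟨0, 0, 1⟩ : T3) * c.g i)
    rw [F1_c (h0.g i)]
    have h1 := F1_sq (F1_slice (F1_joint hF i))
    refine h1.congr ?_
    filter_upwards [hsm] with l hl
    exact (hpdl l hl i).symm
  · intro i j
    show App _ ((⟨0, 0, 1⟩ : T3) * c.h i j)
    rw [F1_c (h0.h i j)]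
    have h1 := F1_sq (F1_slice (F1_joint (F1_joint hF j) i))
    refine h1.congr ?_
    filter_upwards [hsm] with l hl
    show l ^ 2 * pd i (pd j (F l)) q = pd i (pd j (fun x => l ^ 2 * F l x)) q
    rw [F1_pd2_mul contDiffAt_const hl]
    have e1 : pd i (fun _ : EE 7 => l ^ 2) q = 0 := F1_pd_const _ _ _
    have e2 : pd j (fun _ : EE 7 => l ^ 2) q = 0 := F1_pd_const _ _ _
    have e3 : pd i (pd j (fun _ : EE 7 => l ^ 2)) q = 0 := by
      have : pd j (fun _ : EE 7 => l ^ 2) = fun _ => 0 := by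
        ext x
        exact F1_pd_const _ _ _
      rw [this, F1_pd_const]
    rw [e1, e2, e3]
    ring

end H31R
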