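import Pool.Agent.Lib.H31R.C3
import Pool.Agent.Lib.H31R.F1

/-!
# H31R, chunk F2: splitting of the rescaled metric, jets of the basic functions at `xi0 t`
All tables are generated (and the resulting Ricci tensor checked) by computer algebra; they are equalities of
polynomials which follow from the rules of `F1` without using `t^2 + a^2 = 1`, except that the value of
`SS` at `xi0 t` is `1`.
-/

open scoped ContDiff Topology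
open Real Filter

noncomputable section

namespace H31R

/-- the jet with given value, first derivatives (directions 0, 3, 4, 5, 6) and second derivatives
(00, 03, 04, 05, 06, 33, 34, 35, 36, 44, 45, 46, 55, 56, 66), all others zero -/
def mkJ (v g0 g3 g4 g5 g6 h00 h03 h04 h05 h06 h33 h34 h35 h36 h44 h45 h46 h55 h56 h66 : T3) :
    Jet :=
  ⟨v, ![g0, 0, 0, g3, g4, g5, g6],
    ![![h00, 0, 0, h03, h04, h05, h06], ![0, 0, 0, 0, 0, 0, 0], ![0, 0, 0, 0, 0, 0, 0],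
      ![h03, 0, 0, h33, h34, h35, h36], ![h04, 0, 0, h34, h44, h45, h46],
      ![h05, 0, 0, h35, h45, h55, h56], ![h06, 0, 0, h36, h46, h56, h66]]⟩

/-- the zero jet -/
def J0 : Jet := mkJ 0 0 0 0 0 0 0 0 0 0 0 0 0 0 0 0 0 0 0 0 0

/-- the numbers which enter the 2-jet of the rescaled core metric -/
structure Par where
  t : ℝ
  a : ℝ
  s : ℝ
  A1 : ℝ
  A2 : ℝ
  b1 : ℝ
  b2 : ℝ
  b3 : ℝ
  c2 : ℝ
  Z11 : ℝ
  Z22 : ℝ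
  Z33 : ℝ
  Z13 : ℝ

/-- their values at `x` -/
def par (P : Prof) (eta x t : ℝ) : Par where
  t := t
  a := eta * P.a x
  s := 1 / (1 + eta * P.a x)
  A1 := eta * deriv P.a x
  A2 := eta * deriv (deriv P.a) x
  b1 := P.b1 x
  b2 := P.b2 x
  b3 := P.b3 x
  c2 := deriv P.b2 x
  Z11 := (2 * (eta * P.a x) * P.b2 x) ^ 2
  Z22 := (2 * (eta * P.a x) * P.b1 x) ^ 2
  Z33 := (eta * deriv P.a x) ^ 2
  Z13 := 2 * (eta * P.a x) * P.b2 x * (eta * deriv P.a x)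

/-- the hypotheses on the profile -/
structure ProfOK (P : Prof) : Prop where
  sa : ContDiff ℝ ∞ P.a
  s1 : ContDiff ℝ ∞ P.b1
  s2 : ContDiff ℝ ∞ P.b2
  s3 : ContDiff ℝ ∞ P.b3
  pos : ∀ x, 0 < P.a x
  e1 : ∀ x, deriv P.b1 x = -(2 * P.b2 x * P.b3 x)
  e3 : ∀ x, deriv P.b3 x = 2 * P.b1 x * P.b2 x

/-- main part of `gcz` -/
def gczM (R : ℝ) (xu1 xu2 xu3 Au1 Au2 Bu1 Bu2 : ℝ) (xv1 xv2 xv3 Av1 Av2 Bv1 Bv2 : ℝ) : ℝ :=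
  xu1 * xv1 + xu2 * xv2 + xu3 * xv3 + (Au1 * Av1 + Au2 * Av2) / (4 * R)
    + R * (Bu1 * Bv1 + Bu2 * Bv2)

/-- the part of `gcz` which is linear in the `Z` -/
def gczH (Z11 Z22 Z33 Z13 a R l1 l2 : ℝ) (xu1 xu2 Au1 Au2 Bu1 Bu2 : ℝ)
    (xv1 xv2 Av1 Av2 Bv1 Bv2 : ℝ) : ℝ :=
  let τ := Z11 + Z22 + Z33
  let kap := (1 / 8) * (1 / R - 2 * a / R ^ 2)
  let T := 1 / (8 * R * (R + a) ^ 2)
  xu1 * xv1 * ((Z11 + Z33) / (4 * R)) + xu2 * xv2 * (Z22 / (4 * R))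
    + (-(τ / (24 * R)) - (Z33 - τ / 3) * kap) * (Au1 * Av1 + Au2 * Av2) / (4 * R)
    + (-(τ / (24 * R)) + (Z33 - τ / 3) * kap) * R * (Bu1 * Bv1 + Bu2 * Bv2)
    - T * ((Z11 + Z22 - 2 * τ / 3) * ((l1 * Au1 + l2 * Au2) * (l1 * Av1 + l2 * Av2)
        - (-l2 * Au1 + l1 * Au2) * (-l2 * Av1 + l1 * Av2)) / (4 * R)
      + (Z11 - Z22) * R * ((l1 * Bu1 + l2 * Bu2) * (l1 * Bv1 + l2 * Bv2)
        - (-l2 * Bu1 + l1 * Bu2) * (-l2 * Bv1 + l1 * Bv2))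
      + Z13 / 2 * ((l1 * Au1 + l2 * Au2) * (-l2 * Bv1 + l1 * Bv2)
        + (-l2 * Au1 + l1 * Au2) * (l1 * Bv1 + l2 * Bv2)
        + (l1 * Av1 + l2 * Av2) * (-l2 * Bu1 + l1 * Bu2)
        + (-l2 * Av1 + l1 * Av2) * (l1 * Bu1 + l2 * Bu2)))
    + kap * Z13 / 2 * ((-Au2 * Bv1 + Au1 * Bv2) + (-Av2 * Bu1 + Av1 * Bu2))

theorem gcz_split (c Z11 Z22 Z33 Z13 a R l1 l2 : ℝ)
    (xu1 xu2 xu3 Au1 Au2 Bu1 Bu2 xv1 xv2 xv3 Av1 Av2 Bv1 Bv2 : ℝ) :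
    gcz (c * Z11) (c * Z22) (c * Z33) (c * Z13) a R l1 l2
      xu1 xu2 xu3 Au1 Au2 Bu1 Bu2 xv1 xv2 xv3 Av1 Av2 Bv1 Bv2 =
    gczM R xu1 xu2 xu3 Au1 Au2 Bu1 Bu2 xv1 xv2 xv3 Av1 Av2 Bv1 Bv2 +
    c * gczH Z11 Z22 Z33 Z13 a R l1 l2 xu1 xu2 Au1 Au2 Bu1 Bu2 xv1 xv2 Av1 Av2 Bv1 Bv2 := by
  unfold gcz gczM gczH
  simp only []
  generalize (1 / 8) * (1 / R - 2 * a / R ^ 2) = kap
  generalize 1 / (8 * R * (R + a) ^ 2) = T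
  rcases eq_or_ne R 0 with hR | hR
  · subst hR
    simp only [mul_zero, div_zero, zero_mul, add_zero, sub_zero, mul_one]
    ring
  · field_simp
    ring

/-- main part of `gh` -/
def ghM (P : Prof) (lam eta x : ℝ) (ξ u v : EE 7) : ℝ :=
  gczM (√(SS P lam eta x ξ)) (u 0) (u 1) (u 2)
    (cA1 (P.b3 (x + lam * ξ 0)) (ξ 6) (lam * u 1) (u 5) (zo3 ξ u))
    (cA2 (P.b3 (x + lam * ξ 0)) (ξ 5) (lam * u 1) (u 6) (zo3 ξ u))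
    (cB1 (P.b1 (x + lam * ξ 0)) (P.b2 (x + lam * ξ 0)) (√(SS P lam eta x ξ)) (ξ 5) (ξ 6)
      (lam * u 0) (lam * u 1) (zo1 ξ u))
    (cB2 (P.b1 (x + lam * ξ 0)) (P.b2 (x + lam * ξ 0)) (√(SS P lam eta x ξ)) (ξ 5) (ξ 6)
      (lam * u 0) (lam * u 1) (zo2 ξ u))
    (v 0) (v 1) (v 2)
    (cA1 (P.b3 (x + lam * ξ 0)) (ξ 6) (lam * v 1) (v 5) (zo3 ξ v))
    (cA2 (P.b3 (x + lam * ξ 0)) (ξ 5) (lam * v 1) (v 6) (zo3 ξ v))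
    (cB1 (P.b1 (x + lam * ξ 0)) (P.b2 (x + lam * ξ 0)) (√(SS P lam eta x ξ)) (ξ 5) (ξ 6)
      (lam * v 0) (lam * v 1) (zo1 ξ v))
    (cB2 (P.b1 (x + lam * ξ 0)) (P.b2 (x + lam * ξ 0)) (√(SS P lam eta x ξ)) (ξ 5) (ξ 6)
      (lam * v 0) (lam * v 1) (zo2 ξ v))

/-- the correction in `gh` -/
def ghH (P : Prof) (lam eta x : ℝ) (ξ u v : EE 7) : ℝ :=
  gczH ((2 * (eta * P.a (x + lam * ξ 0)) * P.b2 (x + lam * ξ 0)) ^ 2)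
    ((2 * (eta * P.a (x + lam * ξ 0)) * P.b1 (x + lam * ξ 0)) ^ 2)
    ((eta * deriv P.a (x + lam * ξ 0)) ^ 2)
    (2 * (eta * P.a (x + lam * ξ 0)) * P.b2 (x + lam * ξ 0) *
      (eta * deriv P.a (x + lam * ξ 0)))
    (eta * P.a (x + lam * ξ 0)) (√(SS P lam eta x ξ)) (ξ 5) (ξ 6) (u 0) (u 1)
    (cA1 (P.b3 (x + lam * ξ 0)) (ξ 6) (lam * u 1) (u 5) (zo3 ξ u))
    (cA2 (P.b3 (x + lam * ξ 0)) (ξ 5) (lam * u 1) (u 6) (zo3 ξ u))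
    (cB1 (P.b1 (x + lam * ξ 0)) (P.b2 (x + lam * ξ 0)) (√(SS P lam eta x ξ)) (ξ 5) (ξ 6)
      (lam * u 0) (lam * u 1) (zo1 ξ u))
    (cB2 (P.b1 (x + lam * ξ 0)) (P.b2 (x + lam * ξ 0)) (√(SS P lam eta x ξ)) (ξ 5) (ξ 6)
      (lam * u 0) (lam * u 1) (zo2 ξ u))
    (v 0) (v 1)
    (cA1 (P.b3 (x + lam * ξ 0)) (ξ 6) (lam * v 1) (v 5) (zo3 ξ v))
    (cA2 (P.b3 (x + lam * ξ 0)) (ξ 5) (lam * v 1) (v 6) (zo3 ξ v))
    (cB1 (P.b1 (x + lam * ξ 0)) (P.b2 (x + lam * ξ 0)) (√(SS P lam eta x ξ)) (ξ 5) (ξ 6)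
      (lam * v 0) (lam * v 1) (zo1 ξ v))
    (cB2 (P.b1 (x + lam * ξ 0)) (P.b2 (x + lam * ξ 0)) (√(SS P lam eta x ξ)) (ξ 5) (ξ 6)
      (lam * v 0) (lam * v 1) (zo2 ξ v))

theorem gh_split (P : Prof) (lam eta x : ℝ) (ξ u v : EE 7) :
    gh P lam eta x ξ u v = ghM P lam eta x ξ u v + lam ^ 2 * ghH P lam eta x ξ u v := by
  unfold gh ghM ghH
  exact gcz_split _ _ _ _ _ _ _ _ _ _ _ _ _ _ _ _ _ _ _ _ _ _ _


/-! ### calculus with `mkJ` -/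

theorem F2_ext {a b : Jet} (hv : a.v = b.v) (hg : ∀ i, a.g i = b.g i)
    (hh : ∀ i j, a.h i j = b.h i j) : a = b := by
  cases a; cases b
  simp only [Jet.mk.injEq]
  exact ⟨hv, funext hg, funext fun i => funext fun j => hh i j⟩

theorem F2_add (av ag0 ag3 ag4 ag5 ag6 ah00 ah03 ah04 ah05 ah06 ah33 ah34 ah35 ah36 ah44 ah45 ah46 ah55 ah56 ah66 bv bg0 bg3 bg4 bg5 bg6 bh00 bh03 bh04 bh05 bh06 bh33 bh34 bh35 bh36 bh44 bh45 bh46 bh55 bh56 bh66 : T3) :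
    (mkJ av ag0 ag3 ag4 ag5 ag6 ah00 ah03 ah04 ah05 ah06 ah33 ah34 ah35 ah36 ah44 ah45 ah46 ah55 ah56 ah66).add (mkJ bv bg0 bg3 bg4 bg5 bg6 bh00 bh03 bh04 bh05 bh06 bh33 bh34 bh35 bh36 bh44 bh45 bh46 bh55 bh56 bh66) =
      mkJ (av + bv) (ag0 + bg0) (ag3 + bg3) (ag4 + bg4) (ag5 + bg5) (ag6 + bg6) (ah00 + bh00) (ah03 + bh03) (ah04 + bh04) (ah05 + bh05) (ah06 + bh06) (ah33 + bh33) (ah34 + bh34) (ah35 + bh35) (ah36 + bh36) (ah44 + bh44) (ah45 + bh45) (ah46 + bh46) (ah55 + bh55) (ah56 + bh56) (ah66 + bh66) := by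
  refine F2_ext rfl ?_ ?_
  · intro i
    fin_cases i <;> first | rfl | exact add_zero 0
  · intro i j
    fin_cases i <;> fin_cases j <;> first | rfl | exact add_zero 0

theorem F2_neg (av ag0 ag3 ag4 ag5 ag6 ah00 ah03 ah04 ah05 ah06 ah33 ah34 ah35 ah36 ah44 ah45 ah46 ah55 ah56 ah66 : T3) :
    (mkJ av ag0 ag3 ag4 ag5 ag6 ah00 ah03 ah04 ah05 ah06 ah33 ah34 ah35 ah36 ah44 ah45 ah46 ah55 ah56 ah66).neg = mkJ (-av) (-ag0) (-ag3) (-ag4) (-ag5) (-ag6) (-ah00) (-ah03) (-ah04) (-ah05) (-ah06) (-ah33) (-ah34) (-ah35) (-ah36) (-ah44) (-ah45) (-ah46) (-ah55) (-ah56) (-ah66) := by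
  refine F2_ext rfl ?_ ?_
  · intro i
    fin_cases i <;> first | rfl | exact neg_zero
  · intro i j
    fin_cases i <;> fin_cases j <;> first | rfl | exact neg_zero

theorem F2_smul (c av ag0 ag3 ag4 ag5 ag6 ah00 ah03 ah04 ah05 ah06 ah33 ah34 ah35 ah36 ah44 ah45 ah46 ah55 ah56 ah66 : T3) :
    (mkJ av ag0 ag3 ag4 ag5 ag6 ah00 ah03 ah04 ah05 ah06 ah33 ah34 ah35 ah36 ah44 ah45 ah46 ah55 ah56 ah66).smul c = mkJ (c * av) (c * ag0) (c * ag3) (c * ag4) (c * ag5) (c * ag6) (c * ah00) (c * ah03) (c * ah04) (c * ah05) (c * ah06) (c * ah33) (c * ah34) (c * ah35) (c * ah36) (c * ah44) (c * ah45) (c * ah46) (c * ah55) (c * ah56) (c * ah66) := by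
  refine F2_ext rfl ?_ ?_
  · intro i
    fin_cases i <;> first | rfl | exact mul_zero c
  · intro i j
    fin_cases i <;> fin_cases j <;> first | rfl | exact mul_zero c

theorem F2_z2 (x y : T3) : (0 : T3) * y + x * 0 = 0 := by ring

theorem F2_z4 (x y u w : T3) : (0 : T3) * y + 0 * u + w * 0 + x * 0 = 0 := by ring

theorem F2_z4' (x y u w : T3) : (0 : T3) * y + w * 0 + 0 * u + x * 0 = 0 := by ring

theorem F2_z4'' (x y : T3) : (0 : T3) * y + 0 * 0 + 0 * 0 + x * 0 = 0 := by ring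

theorem F2_sw (a b c d : T3) : a + b + c + d = a + c + b + d := by ring

theorem F2_mul (av ag0 ag3 ag4 ag5 ag6 ah00 ah03 ah04 ah05 ah06 ah33 ah34 ah35 ah36 ah44 ah45 ah46 ah55 ah56 ah66 bv bg0 bg3 bg4 bg5 bg6 bh00 bh03 bh04 bh05 bh06 bh33 bh34 bh35 bh36 bh44 bh45 bh46 bh55 bh56 bh66 : T3) :
    (mkJ av ag0 ag3 ag4 ag5 ag6 ah00 ah03 ah04 ah05 ah06 ah33 ah34 ah35 ah36 ah44 ah45 ah46 ah55 ah56 ah66).mul (mkJ bv bg0 bg3 bg4 bg5 bg6 bh00 bh03 bh04 bh05 bh06 bh33 bh34 bh35 bh36 bh44 bh45 bh46 bh55 bh56 bh66) =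
      mkJ (av * bv) (ag0 * bv + av * bg0) (ag3 * bv + av * bg3) (ag4 * bv + av * bg4) (ag5 * bv + av * bg5) (ag6 * bv + av * bg6) (ah00 * bv + ag0 * bg0 + ag0 * bg0 + av * bh00) (ah03 * bv + ag0 * bg3 + ag3 * bg0 + av * bh03) (ah04 * bv + ag0 * bg4 + ag4 * bg0 + av * bh04) (ah05 * bv + ag0 * bg5 + ag5 * bg0 + av * bh05) (ah06 * bv + ag0 * bg6 + ag6 * bg0 + av * bh06) (ah33 * bv + ag3 * bg3 + ag3 * bg3 + av * bh33) (ah34 * bv + ag3 * bg4 + ag4 * bg3 + av * bh34) (ah35 * bv + ag3 * bg5 + ag5 * bg3 + av * bh35) (ah36 * bv + ag3 * bg6 + ag6 * bg3 + av * bh36) (ah44 * bv + ag4 * bg4 + ag4 * bg4 + av * bh44) (ah45 * bv + ag4 * bg5 + ag5 * bg4 + av * bh45) (ah46 * bv + ag4 * bg6 + ag6 * bg4 + av * bh46) (ah55 * bv + ag5 * bg5 + ag5 * bg5 + av * bh55) (ah56 * bv + ag5 * bg6 + ag6 * bg5 + av * bh56) (ah66 * bv + ag6 * bg6 + ag6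 * bg6 + av * bh66) := by
  refine F2_ext rfl ?_ ?_
  · intro i
    fin_cases i <;> first | rfl | exact F2_z2 _ _
  · intro i j
    fin_cases i <;> fin_cases j <;>
      first | rfl | exact F2_z4 _ _ _ _ | exact F2_z4' _ _ _ _ | exact F2_z4'' _ _ | exact F2_sw _ _ _ _

theorem F2_comp1 (f0 f1 f2 : ℝ) (av ag0 ag3 ag4 ag5 ag6 ah00 ah03 ah04 ah05 ah06 ah33 ah34 ah35 ah36 ah44 ah45 ah46 ah55 ah56 ah66 : T3) :
    (mkJ av ag0 ag3 ag4 ag5 ag6 ah00 ah03 ah04 ah05 ah06 ah33 ah34 ah35 ah36 ah44 ah45 ah46 ah55 ah56 ah66).comp1 f0 f1 f2 =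
      mkJ (T3.C f0) (T3.C f1 * ag0) (T3.C f1 * ag3) (T3.C f1 * ag4) (T3.C f1 * ag5) (T3.C f1 * ag6) (T3.C f1 * ah00 + T3.C f2 * (ag0 * ag0)) (T3.C f1 * ah03 + T3.C f2 * (ag0 * ag3)) (T3.C f1 * ah04 + T3.C f2 * (ag0 * ag4)) (T3.C f1 * ah05 + T3.C f2 * (ag0 * ag5)) (T3.C f1 * ah06 + T3.C f2 * (ag0 * ag6)) (T3.C f1 * ah33 + T3.C f2 * (ag3 * ag3)) (T3.C f1 * ah34 + T3.C f2 * (ag3 * ag4)) (T3.C f1 * ah35 + T3.C f2 * (ag3 * ag5)) (T3.C f1 * ah36 + T3.C f2 * (ag3 * ag6)) (T3.C f1 * ah44 + T3.C f2 * (ag4 * ag4)) (T3.C f1 * ah45 + T3.C f2 * (ag4 * ag5)) (T3.C f1 * ah46 + T3.C f2 * (ag4 * ag6)) (T3.C f1 * ah55 + T3.C f2 * (ag5 * ag5)) (T3.C f1 * ah56 + T3.C f2 * (ag5 * ag6)) (T3.C f1 * ah66 + T3.C f2 * (ag6 * ag6)) := by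
  refine F2_ext rfl ?_ ?_
  · intro i
    fin_cases i <;> first | rfl | exact mul_zero _
  · intro i j
    fin_cases i <;> fin_cases j <;>
      first | rfl | (simp only [Jet.comp1, mkJ]; simp; done) | (simp only [Jet.comp1, mkJ]; simp; ring)

theorem F2_cst (c : T3) : Jet.cst c = mkJ c 0 0 0 0 0 0 0 0 0 0 0 0 0 0 0 0 0 0 0 0 := by
  refine F2_ext rfl ?_ ?_
  · intro i
    fin_cases i <;> rfl
  · intro i j
    fin_cases i <;> fin_cases j <;> rfl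

theorem F2_crd3 (r : ℝ) : Jet.crd 3 r = mkJ (T3.C r) 0 1 0 0 0 0 0 0 0 0 0 0 0 0 0 0 0 0 0 0 := by
  refine F2_ext rfl ?_ ?_
  · intro i
    fin_cases i <;> rfl
  · intro i j
    fin_cases i <;> fin_cases j <;> rfl

theorem F2_crd4 (r : ℝ) : Jet.crd 4 r = mkJ (T3.C r) 0 0 1 0 0 0 0 0 0 0 0 0 0 0 0 0 0 0 0 0 := by
  refine F2_ext rfl ?_ ?_
  · intro i
    fin_cases i <;> rfl
  · intro i j
    fin_cases i <;> fin_cases j <;> rfl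

theorem F2_crd5 (r : ℝ) : Jet.crd 5 r = mkJ (T3.C r) 0 0 0 1 0 0 0 0 0 0 0 0 0 0 0 0 0 0 0 0 := by
  refine F2_ext rfl ?_ ?_
  · intro i
    fin_cases i <;> rfl
  · intro i j
    fin_cases i <;> fin_cases j <;> rfl

theorem F2_crd6 (r : ℝ) : Jet.crd 6 r = mkJ (T3.C r) 0 0 0 0 1 0 0 0 0 0 0 0 0 0 0 0 0 0 0 0 := by
  refine F2_ext rfl ?_ ?_
  · intro i
    fin_cases i <;> rfl
  · intro i j
    fin_cases i <;> fin_cases j <;> rfl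

theorem F2_shf (f0 f1 f2 : ℝ) : Jet.shf f0 f1 f2 =
    mkJ (T3.C f0) ⟨0, f1, 0⟩ 0 0 0 0 ⟨0, 0, f2⟩ 0 0 0 0 0 0 0 0 0 0 0 0 0 0 := by
  refine F2_ext rfl ?_ ?_
  · intro i
    fin_cases i <;> rfl
  · intro i j
    fin_cases i <;> fin_cases j <;> rfl

theorem F2_cast {F G : ℝ → EE 7 → ℝ} {q : EE 7} {c d : Jet} (h : JApp F q c)
    (e : ∀ l ξ, F l ξ = G l ξ) (hd : c = d) : JApp G q d := by
  have e' : F = G := by funext l ξ; exact e l ξ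
  rw [← e', ← hd]
  exact h

theorem F2_dd {f f' : ℝ → ℝ} {f2 : ℝ} (h : ∀ᶠ y in 𝓝 (1 : ℝ), HasDerivAt f (f' y) y)
    (h2 : HasDerivAt f' f2 1) : deriv f 1 = f' 1 ∧ deriv (deriv f) 1 = f2 := by
  refine ⟨h.self_of_nhds.deriv, ?_⟩
  have e : deriv f =ᶠ[𝓝 1] f' := by
    filter_upwards [h] with y hy
    exact hy.deriv
  rw [e.deriv_eq]
  exact h2.deriv

theorem F2_t0 (t : ℝ) : xi0 t 0 = 0 := by simp [xi0]
theorem F2_t3 (t : ℝ) : xi0 t 3 = 0 := by simp [xi0]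
theorem F2_t4 (t : ℝ) : xi0 t 4 = 0 := by simp [xi0]
theorem F2_t5 (t : ℝ) : xi0 t 5 = t := by simp [xi0]
theorem F2_t6 (t : ℝ) : xi0 t 6 = 0 := by simp [xi0]

/-! ### functions of one variable -/

theorem F2_sqrt_ev : ∀ᶠ y in 𝓝 (1 : ℝ), HasDerivAt (fun y : ℝ => √y) (1 / (2 * √y)) y := by
  filter_upwards [lt_mem_nhds (show (0 : ℝ) < 1 by norm_num)] with y hy
  exact Real.hasDerivAt_sqrt hy.ne'

theorem F2_sqrt_dd : deriv (fun y : ℝ => √y) 1 = 1 / 2 ∧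
    deriv (deriv (fun y : ℝ => √y)) 1 = -1 / 4 := by
  have h := F2_dd (f2 := -1 / 4) F2_sqrt_ev (by
    have h1 := (Real.hasDerivAt_sqrt (one_ne_zero (α := ℝ))).const_mul 2
    have h2 := h1.inv (by rw [Real.sqrt_one]; norm_num)
    refine (h2.congr_deriv ?_).congr_of_eventuallyEq (Eventually.of_forall fun y => ?_)
    · rw [Real.sqrt_one]; norm_num
    · simp)
  refine ⟨?_, h.2⟩
  rw [h.1, Real.sqrt_one]; norm_num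

theorem F2_isqrt_ev : ∀ᶠ y in 𝓝 (1 : ℝ),
    HasDerivAt (fun y : ℝ => 1 / √y) (-(1 / (2 * √y)) / √y ^ 2) y := by
  filter_upwards [lt_mem_nhds (show (0 : ℝ) < 1 by norm_num)] with y hy
  have h1 := (Real.hasDerivAt_sqrt hy.ne').inv (Real.sqrt_pos.2 hy).ne'
  exact h1.congr_of_eventuallyEq (Eventually.of_forall fun z => by simp)

theorem F2_isqrt_dd : deriv (fun y : ℝ => 1 / √y) 1 = -1 / 2 ∧
    deriv (deriv (fun y : ℝ => 1 / √y)) 1 = 3 / 4 := by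
  have h := F2_dd (f2 := 3 / 4) F2_isqrt_ev (by
    have h0 := Real.hasDerivAt_sqrt (one_ne_zero (α := ℝ))
    have h1 := (h0.pow 3).const_mul 2
    have h2 := (h1.inv (by simp)).neg
    have h3 : HasDerivAt (fun y : ℝ => -(2 * √y ^ 3)⁻¹) (3 / 4) 1 := by
      refine h2.congr_deriv ?_
      simp only [Real.sqrt_one]; norm_num
    refine h3.congr_of_eventuallyEq ?_
    filter_upwards [lt_mem_nhds (show (0 : ℝ) < 1 by norm_num)] with y hy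
    have := (Real.sqrt_pos.2 hy).ne'
    field_simp)
  refine ⟨?_, h.2⟩
  rw [h.1, Real.sqrt_one]; norm_num

theorem F2_inv_dd : deriv (fun y : ℝ => 1 / y) 1 = -1 ∧
    deriv (deriv (fun y : ℝ => 1 / y)) 1 = 2 := by
  have h := F2_dd (f := fun y : ℝ => 1 / y) (f' := fun y : ℝ => -(y ^ 2)⁻¹) (f2 := 2) (by
    filter_upwards [lt_mem_nhds (show (0 : ℝ) < 1 by norm_num)] with y hy
    have h1 := hasDerivAt_inv hy.ne'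
    simpa [one_div] using h1) (by
    have h1 := ((hasDerivAt_pow 2 (1 : ℝ)).inv (by norm_num)).neg
    refine h1.congr_deriv ?_
    norm_num)
  refine ⟨?_, h.2⟩
  rw [h.1]; norm_num

theorem F2_w_ev {a : ℝ} (ha : 0 ≤ a) : ∀ᶠ y in 𝓝 (1 : ℝ),
    HasDerivAt (fun y : ℝ => 1 / (√y + a)) (-(2 * √y * (√y + a) ^ 2)⁻¹) y := by
  filter_upwards [lt_mem_nhds (show (0 : ℝ) < 1 by norm_num)] with y hy
  have hy' := Real.sqrt_pos.2 hy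
  have hya : 0 < √y + a := by linarith
  have h1 := ((Real.hasDerivAt_sqrt hy.ne').add_const a).inv hya.ne'
  have h2 : HasDerivAt (fun y : ℝ => 1 / (√y + a)) (-(1 / (2 * √y)) / (√y + a) ^ 2) y :=
    h1.congr_of_eventuallyEq (Eventually.of_forall fun z => by simp)
  refine h2.congr_deriv ?_
  field_simp

theorem F2_w_dd {a : ℝ} (ha : 0 ≤ a) :
    deriv (fun y : ℝ => 1 / (√y + a)) 1 = -(1 / 2) * (1 / (1 + a)) ^ 2 ∧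
    deriv (deriv (fun y : ℝ => 1 / (√y + a))) 1 =
      (1 / 2) * (1 / (1 + a)) ^ 3 + (1 / 4) * (1 / (1 + a)) ^ 2 := by
  have ha1 : (1 : ℝ) + a ≠ 0 := by positivity
  have h := F2_dd (f2 := (1 / 2) * (1 / (1 + a)) ^ 3 + (1 / 4) * (1 / (1 + a)) ^ 2) (F2_w_ev ha) (by
    have h0 := Real.hasDerivAt_sqrt (one_ne_zero (α := ℝ))
    have h1 := (h0.const_mul 2).mul ((h0.add_const a).pow 2)
    have h2 := (h1.inv (by
      simp only [Pi.mul_apply, Pi.pow_apply, Real.sqrt_one]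
      positivity)).neg
    refine (h2.congr_deriv ?_).congr_of_eventuallyEq (Eventually.of_forall fun y => ?_)
    · simp only [Pi.mul_apply, Pi.pow_apply, Real.sqrt_one]
      field_simp
      ring
    · simp)
  refine ⟨?_, h.2⟩
  rw [h.1, Real.sqrt_one]
  field_simp

theorem F2_two {f : ℝ → ℝ} (h : ContDiff ℝ ∞ f) : ContDiff ℝ 2 f :=
  h.of_le (show ((2 : ℕ∞) : WithTop ℕ∞) ≤ ((⊤ : ℕ∞) : WithTop ℕ∞) from
    WithTop.coe_le_coe.mpr le_top)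

theorem F2_SSv {P : Prof} {eta x t : ℝ} (h1 : (eta * P.a x) ^ 2 + t ^ 2 = 1) (l : ℝ) :
    SS P l eta x (xi0 t) = 1 := by
  unfold SS
  rw [F2_t0, F2_t5, F2_t6, mul_zero, add_zero]
  linarith

theorem F2_j5 (t : ℝ) : JApp (fun _ ξ => ξ 5) (xi0 t)
    (mkJ (T3.C t) 0 0 0 1 0 0 0 0 0 0 0 0 0 0 0 0 0 0 0 0) := by
  have h := JApp.crd 5 (xi0 t)
  rw [F2_t5, F2_crd5] at h
  exact h

theorem F2_j6 (t : ℝ) : JApp (fun _ ξ => ξ 6) (xi0 t)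
    (mkJ 0 0 0 0 0 1 0 0 0 0 0 0 0 0 0 0 0 0 0 0 0) := by
  have h := JApp.crd 6 (xi0 t)
  rw [F2_t6, F2_crd6] at h
  exact h

theorem F2_j3 (t : ℝ) : JApp (fun _ ξ => ξ 3) (xi0 t)
    (mkJ 0 0 1 0 0 0 0 0 0 0 0 0 0 0 0 0 0 0 0 0 0) := by
  have h := JApp.crd 3 (xi0 t)
  rw [F2_t3, F2_crd3] at h
  exact h

theorem F2_j4 (t : ℝ) : JApp (fun _ ξ => ξ 4) (xi0 t)
    (mkJ 0 0 0 1 0 0 0 0 0 0 0 0 0 0 0 0 0 0 0 0 0) := by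
  have h := JApp.crd 4 (xi0 t)
  rw [F2_t4, F2_crd4] at h
  exact h

theorem F2_jsh {f : ℝ → ℝ} (hf : ContDiff ℝ ∞ f) (x t : ℝ) :
    JApp (fun l ξ => f (x + l * ξ 0)) (xi0 t)
      (mkJ (T3.C (f x)) ⟨0, deriv f x, 0⟩ 0 0 0 0 ⟨0, 0, deriv (deriv f) x⟩ 0 0 0 0 0 0 0 0 0 0 0 0 0 0) := by
  have h := JApp.shf (F2_two hf) x (F2_t0 t)
  rw [F2_shf] at h
  exact h

theorem F2_cd_sqrt : ContDiffAt ℝ 2 (fun y : ℝ => √y) 1 :=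
  Real.contDiffAt_sqrt one_ne_zero

theorem F2_cd_isqrt : ContDiffAt ℝ 2 (fun y : ℝ => 1 / √y) 1 :=
  contDiffAt_const.div F2_cd_sqrt (by rw [Real.sqrt_one]; exact one_ne_zero)

theorem F2_cd_w {a : ℝ} (ha : 0 ≤ a) : ContDiffAt ℝ 2 (fun y : ℝ => 1 / (√y + a)) 1 :=
  contDiffAt_const.div (F2_cd_sqrt.add contDiffAt_const) (by rw [Real.sqrt_one]; positivity)

/-- `S` at `λ = 0` -/
theorem F2_jS0 {P : Prof} {eta x t : ℝ} (h1 : (eta * P.a x) ^ 2 + t ^ 2 = 1) :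
    JApp (fun _ ξ => SS P 0 eta x ξ) (xi0 t)
      (mkJ ⟨1, 0, 0⟩ 0 0 0 ⟨2 * t, 0, 0⟩ 0 0 0 0 0 0 0 0 0 0 0 0 0 ⟨2, 0, 0⟩ 0 ⟨2, 0, 0⟩) := by
  have h := (JApp.cst (xi0 t) (App.const ((eta * P.a x) ^ 2))).add
    (((F2_j5 t).mul (F2_j5 t)).add ((F2_j6 t).mul (F2_j6 t)))
  simp only [F2_cst, F2_mul, F2_add] at h
  refine F2_cast h (fun l ξ => by unfold SS; rw [zero_mul, add_zero]; ring) ?_
  congr 1
  all_goals apply T3.ext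
  all_goals simp only [T3.zero_c0, T3.zero_c1, T3.zero_c2, T3.one_c0, T3.one_c1, T3.one_c2, T3.add_c0,
      T3.add_c1, T3.add_c2, T3.neg_c0, T3.neg_c1, T3.neg_c2, T3.mul_c0, T3.mul_c1, T3.mul_c2,
      T3.C_c0, T3.C_c1, T3.C_c2]
  all_goals first | ring1 | linear_combination h1

/-! ## jets of the basic functions -/

section

variable {P : Prof} (hP : ProfOK P) {eta x t : ℝ} (h1 : (eta * P.a x) ^ 2 + t ^ 2 = 1)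
  (ha : 0 ≤ eta)
include hP h1 ha

/-- `S = a(x + λ y1)^2 + l1^2 + l2^2` -/
theorem jet_S (p : Par) (hp : p = par P eta x t) :
    JApp (fun l ξ => SS P l eta x ξ) (xi0 t)
      (mkJ ⟨1, 0, 0⟩ ⟨0, 2 * p.a * p.A1, 0⟩ 0 0 ⟨2 * p.t, 0, 0⟩ 0 ⟨0, 0, 2 * p.A1 ^ 2 + 2 * p.a * p.A2⟩ 0 0 0 0 0 0 0 0 0 0 0 ⟨2, 0, 0⟩ 0 ⟨2, 0, 0⟩) := by
  have hA := JApp.smul (App.const eta) (F2_jsh hP.sa x t)
  have h := (hA.mul hA).add (((F2_j5 t).mul (F2_j5 t)).add ((F2_j6 t).mul (F2_j6 t)))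
  simp only [F2_smul, F2_mul, F2_add] at h
  refine F2_cast h (fun l ξ => by unfold SS; ring) ?_
  subst hp
  congr 1
  all_goals apply T3.ext
  all_goals simp only [T3.zero_c0, T3.zero_c1, T3.zero_c2, T3.one_c0, T3.one_c1, T3.one_c2, T3.add_c0,
      T3.add_c1, T3.add_c2, T3.neg_c0, T3.neg_c1, T3.neg_c2, T3.mul_c0, T3.mul_c1, T3.mul_c2,
      T3.C_c0, T3.C_c1, T3.C_c2, par]
  all_goals first | ring1 | linear_combination h1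

/-- `JApp.comp1` with the square root -/
theorem jet_R (p : Par) (hp : p = par P eta x t) :
    JApp (fun l ξ => √(SS P l eta x ξ)) (xi0 t)
      (mkJ ⟨1, 0, 0⟩ ⟨0, p.a * p.A1, 0⟩ 0 0 ⟨p.t, 0, 0⟩ 0 ⟨0, 0, p.A1 ^ 2 + p.a * p.A2 - p.a ^ 2 * p.A1 ^ 2⟩ 0 0 ⟨0, -p.t * p.a * p.A1, 0⟩ 0 0 0 0 0 0 0 0 ⟨1 - p.t ^ 2, 0, 0⟩ 0 ⟨1, 0, 0⟩) := by
  have h := (jet_S hP h1 ha p hp).comp1 (F2_SSv h1) F2_cd_sqrt
  rw [F2_sqrt_dd.1, F2_sqrt_dd.2, Real.sqrt_one, F2_comp1] at h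
  refine F2_cast h (fun l ξ => rfl) ?_
  congr 1
  all_goals apply T3.ext
  all_goals simp only [T3.zero_c0, T3.zero_c1, T3.zero_c2, T3.one_c0, T3.one_c1, T3.one_c2, T3.add_c0,
      T3.add_c1, T3.add_c2, T3.neg_c0, T3.neg_c1, T3.neg_c2, T3.mul_c0, T3.mul_c1, T3.mul_c2,
      T3.C_c0, T3.C_c1, T3.C_c2]
  all_goals ring1

theorem jet_iR (p : Par) (hp : p = par P eta x t) :
    JApp (fun l ξ => 1 / √(SS P l eta x ξ)) (xi0 t)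
      (mkJ ⟨1, 0, 0⟩ ⟨0, -p.a * p.A1, 0⟩ 0 0 ⟨-p.t, 0, 0⟩ 0 ⟨0, 0, -p.A1 ^ 2 - p.a * p.A2 + 3 * p.a ^ 2 * p.A1 ^ 2⟩ 0 0 ⟨0, 3 * p.t * p.a * p.A1, 0⟩ 0 0 0 0 0 0 0 0 ⟨-1 + 3 * p.t ^ 2, 0, 0⟩ 0 ⟨-1, 0, 0⟩) := by
  have h := (jet_S hP h1 ha p hp).comp1 (F2_SSv h1) F2_cd_isqrt
  rw [F2_isqrt_dd.1, F2_isqrt_dd.2, Real.sqrt_one, F2_comp1] at h
  refine F2_cast h (fun l ξ => rfl) ?_
  congr 1
  all_goals apply T3.ext
  all_goals simp only [T3.zero_c0, T3.zero_c1, T3.zero_c2, T3.one_c0, T3.one_c1, T3.one_c2, T3.add_c0,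
      T3.add_c1, T3.add_c2, T3.neg_c0, T3.neg_c1, T3.neg_c2, T3.mul_c0, T3.mul_c1, T3.mul_c2,
      T3.C_c0, T3.C_c1, T3.C_c2]
  all_goals ring1

/-- `JApp.shf`, `JApp.smul` -/
theorem jet_b1 (p : Par) (hp : p = par P eta x t) :
    JApp (fun l ξ => l * P.b1 (x + l * ξ 0)) (xi0 t)
      (mkJ ⟨0, p.b1, 0⟩ ⟨0, 0, -2 * p.b2 * p.b3⟩ 0 0 0 0 0 0 0 0 0 0 0 0 0 0 0 0 0 0 0) := by
  have h := JApp.smul App.lam (F2_jsh hP.s1 x t)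
  rw [F2_smul] at h
  refine F2_cast h (fun l ξ => rfl) ?_
  subst hp
  rw [hP.e1 x]
  congr 1
  all_goals apply T3.ext
  all_goals simp only [T3.zero_c0, T3.zero_c1, T3.zero_c2, T3.one_c0, T3.one_c1, T3.one_c2, T3.add_c0,
      T3.add_c1, T3.add_c2, T3.neg_c0, T3.neg_c1, T3.neg_c2, T3.mul_c0, T3.mul_c1, T3.mul_c2,
      T3.C_c0, T3.C_c1, T3.C_c2, par]
  all_goals ring1

theorem jet_b2 (p : Par) (hp : p = par P eta x t) :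
    JApp (fun l ξ => l * P.b2 (x + l * ξ 0)) (xi0 t)
      (mkJ ⟨0, p.b2, 0⟩ ⟨0, 0, p.c2⟩ 0 0 0 0 0 0 0 0 0 0 0 0 0 0 0 0 0 0 0) := by
  have h := JApp.smul App.lam (F2_jsh hP.s2 x t)
  rw [F2_smul] at h
  refine F2_cast h (fun l ξ => rfl) ?_
  subst hp
  congr 1
  all_goals apply T3.ext
  all_goals simp only [T3.zero_c0, T3.zero_c1, T3.zero_c2, T3.one_c0, T3.one_c1, T3.one_c2, T3.add_c0,
      T3.add_c1, T3.add_c2, T3.neg_c0, T3.neg_c1, T3.neg_c2, T3.mul_c0, T3.mul_c1, T3.mul_c2,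
      T3.C_c0, T3.C_c1, T3.C_c2, par]
  all_goals ring1

theorem jet_b3 (p : Par) (hp : p = par P eta x t) :
    JApp (fun l ξ => l * P.b3 (x + l * ξ 0)) (xi0 t)
      (mkJ ⟨0, p.b3, 0⟩ ⟨0, 0, 2 * p.b1 * p.b2⟩ 0 0 0 0 0 0 0 0 0 0 0 0 0 0 0 0 0 0 0) := by
  have h := JApp.smul App.lam (F2_jsh hP.s3 x t)
  rw [F2_smul] at h
  refine F2_cast h (fun l ξ => rfl) ?_
  subst hp
  rw [hP.e3 x]
  congr 1
  all_goals apply T3.ext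
  all_goals simp only [T3.zero_c0, T3.zero_c1, T3.zero_c2, T3.one_c0, T3.one_c1, T3.one_c2, T3.add_c0,
      T3.add_c1, T3.add_c2, T3.neg_c0, T3.neg_c1, T3.neg_c2, T3.mul_c0, T3.mul_c1, T3.mul_c2,
      T3.C_c0, T3.C_c1, T3.C_c2, par]
  all_goals ring1

theorem jet_iN (p : Par) (hp : p = par P eta x t) :
    JApp (fun _ ξ => 1 / zN ξ) (xi0 t)
      (mkJ ⟨1, 0, 0⟩ 0 0 0 0 0 0 0 0 0 0 ⟨-2, 0, 0⟩ 0 0 0 ⟨-2, 0, 0⟩ 0 0 0 0 0) := by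
  have h2 := (JApp.cst (xi0 t) (App.const 1)).add
    (((F2_j3 t).mul (F2_j3 t)).add ((F2_j4 t).mul (F2_j4 t)))
  simp only [F2_cst, F2_mul, F2_add] at h2
  have hN : ∀ _ : ℝ, (1 : ℝ) + (xi0 t 3 * xi0 t 3 + xi0 t 4 * xi0 t 4) = 1 := fun _ => by
    rw [F2_t3, F2_t4]; ring
  have h := h2.comp1 hN (f := fun y => 1 / y)
    (contDiffAt_const.div contDiffAt_id one_ne_zero)
  rw [F2_inv_dd.1, F2_inv_dd.2, F2_comp1] at h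
  refine F2_cast h (fun l ξ => by unfold zN; congr 1; ring) ?_
  congr 1
  all_goals apply T3.ext
  all_goals simp only [T3.zero_c0, T3.zero_c1, T3.zero_c2, T3.one_c0, T3.one_c1, T3.one_c2, T3.add_c0,
      T3.add_c1, T3.add_c2, T3.neg_c0, T3.neg_c1, T3.neg_c2, T3.mul_c0, T3.mul_c1, T3.mul_c2,
      T3.C_c0, T3.C_c1, T3.C_c2]
  all_goals ring1

/-- the functions at `λ = 0` -/
theorem jet_R0 (p : Par) (hp : p = par P eta x t) :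
    JApp (fun _ ξ => √(SS P 0 eta x ξ)) (xi0 t)
      (mkJ ⟨1, 0, 0⟩ 0 0 0 ⟨p.t, 0, 0⟩ 0 0 0 0 0 0 0 0 0 0 0 0 0 ⟨1 - p.t ^ 2, 0, 0⟩ 0 ⟨1, 0, 0⟩) := by
  have h := (F2_jS0 h1).comp1 (fun _ => F2_SSv h1 0) F2_cd_sqrt
  rw [F2_sqrt_dd.1, F2_sqrt_dd.2, Real.sqrt_one, F2_comp1] at h
  refine F2_cast h (fun l ξ => rfl) ?_
  subst hp
  congr 1
  all_goals apply T3.ext
  all_goals simp only [T3.zero_c0, T3.zero_c1, T3.zero_c2, T3.one_c0, T3.one_c1, T3.one_c2, T3.add_c0,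
      T3.add_c1, T3.add_c2, T3.neg_c0, T3.neg_c1, T3.neg_c2, T3.mul_c0, T3.mul_c1, T3.mul_c2,
      T3.C_c0, T3.C_c1, T3.C_c2, par]
  all_goals ring1

theorem jet_iR0 (p : Par) (hp : p = par P eta x t) :
    JApp (fun _ ξ => 1 / √(SS P 0 eta x ξ)) (xi0 t)
      (mkJ ⟨1, 0, 0⟩ 0 0 0 ⟨-p.t, 0, 0⟩ 0 0 0 0 0 0 0 0 0 0 0 0 0 ⟨-1 + 3 * p.t ^ 2, 0, 0⟩ 0 ⟨-1, 0, 0⟩) := by
  have h := (F2_jS0 h1).comp1 (fun _ => F2_SSv h1 0) F2_cd_isqrt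
  rw [F2_isqrt_dd.1, F2_isqrt_dd.2, Real.sqrt_one, F2_comp1] at h
  refine F2_cast h (fun l ξ => rfl) ?_
  subst hp
  congr 1
  all_goals apply T3.ext
  all_goals simp only [T3.zero_c0, T3.zero_c1, T3.zero_c2, T3.one_c0, T3.one_c1, T3.one_c2, T3.add_c0,
      T3.add_c1, T3.add_c2, T3.neg_c0, T3.neg_c1, T3.neg_c2, T3.mul_c0, T3.mul_c1, T3.mul_c2,
      T3.C_c0, T3.C_c1, T3.C_c2, par]
  all_goals ring1

theorem jet_kap0 (p : Par) (hp : p = par P eta x t) :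
    JApp (fun _ ξ => (1 / 8) * (1 / √(SS P 0 eta x ξ) - 2 * (eta * P.a x) / √(SS P 0 eta x ξ) ^ 2)) (xi0 t)
      (mkJ ⟨1 / 8 - (1 / 4) * p.a, 0, 0⟩ 0 0 0 ⟨-(1 / 8) * p.t + (1 / 2) * p.t * p.a, 0, 0⟩ 0 0 0 0 0 0 0 0 0 0 0 0 0 ⟨-1 / 8 + (1 / 2) * p.a + (3 / 8) * p.t ^ 2 - 2 * p.t ^ 2 * p.a, 0, 0⟩ 0 ⟨-1 / 8 + (1 / 2) * p.a, 0, 0⟩) := by
  have hi := jet_iR0 hP h1 ha p hp
  have h := JApp.smul (App.const (1 / 8)) (hi.add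
    (JApp.smul (App.const (2 * (eta * P.a x))) (hi.mul hi)).neg)
  simp only [F2_smul, F2_mul, F2_add, F2_neg] at h
  refine F2_cast h (fun l ξ => by ring) ?_
  subst hp
  congr 1
  all_goals apply T3.ext
  all_goals simp only [T3.zero_c0, T3.zero_c1, T3.zero_c2, T3.one_c0, T3.one_c1, T3.one_c2, T3.add_c0,
      T3.add_c1, T3.add_c2, T3.neg_c0, T3.neg_c1, T3.neg_c2, T3.mul_c0, T3.mul_c1, T3.mul_c2,
      T3.C_c0, T3.C_c1, T3.C_c2, par]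
  all_goals ring1

/-- `JApp.comp1` with `1 / (8 sqrt s (sqrt s + a)^2)`; `p.s = 1 / (1 + a)` -/
theorem jet_T0 (p : Par) (hp : p = par P eta x t) :
    JApp (fun _ ξ => 1 / (8 * √(SS P 0 eta x ξ) * (√(SS P 0 eta x ξ) + eta * P.a x) ^ 2)) (xi0 t)
      (mkJ ⟨(1 / 8) * p.s ^ 2, 0, 0⟩ 0 0 0 ⟨-(1 / 8) * p.t * p.s ^ 2 - (1 / 4) * p.t * p.s ^ 3, 0, 0⟩ 0 0 0 0 0 0 0 0 0 0 0 0 0 ⟨-(1 / 8) * p.s ^ 2 - (1 / 4) * p.s ^ 3 + (3 / 8) * p.t ^ 2 * p.s ^ 2 + (3 / 4) * p.t ^ 2 * p.s ^ 3 + (3 / 4) * p.t ^ 2 * p.s ^ 4, 0, 0⟩ 0 ⟨-(1 / 8) * p.s ^ 2 - (1 / 4) * p.s ^ 3, 0, 0⟩) := by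
  have hi := jet_iR0 hP h1 ha p hp
  have haa : 0 ≤ eta * P.a x := mul_nonneg ha (hP.pos x).le
  have hw := (F2_jS0 h1).comp1 (fun _ => F2_SSv h1 0) (F2_cd_w haa)
  rw [(F2_w_dd haa).1, (F2_w_dd haa).2, Real.sqrt_one, F2_comp1] at hw
  have h := JApp.smul (App.const (1 / 8)) (hi.mul (hw.mul hw))
  simp only [F2_smul, F2_mul] at h
  refine F2_cast h (fun l ξ => ?_) ?_
  · have hS : 1 / (√(SS P 0 eta x ξ) + eta * P.a x) * (1 / (√(SS P 0 eta x ξ) + eta * P.a x)) =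
        1 / (√(SS P 0 eta x ξ) + eta * P.a x) ^ 2 := by
      rw [div_mul_div_comm, one_mul, sq]
    rw [hS, div_mul_div_comm, div_mul_div_comm]
    congr 1
    · ring
    · ring
  subst hp
  congr 1
  all_goals apply T3.ext
  all_goals simp only [T3.zero_c0, T3.zero_c1, T3.zero_c2, T3.one_c0, T3.one_c1, T3.one_c2, T3.add_c0,
      T3.add_c1, T3.add_c2, T3.neg_c0, T3.neg_c1, T3.neg_c2, T3.mul_c0, T3.mul_c1, T3.mul_c2,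
      T3.C_c0, T3.C_c1, T3.C_c2, par]
  all_goals ring1

end

end H31R

end
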