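import Pool.Agent.Lib.H31R.M3

/-!
# H31R, chunk M4: the invariant metric `gg`
-/

open scoped ContDiff Topology
open Real Filter

namespace H31R

/-! ### general facts about families of bilinear forms -/

/-- pull-back of a good family -/
theorem M4_pull_good {g : EE 7 → EE 7 → EE 7 → ℝ} {ψ : EE 7 → EE 7} {p : EE 7}
    (hψ : ContDiffAt ℝ ∞ ψ p) (hg : Good g (ψ p)) :
    Good (fun q u v => g (ψ q) (fderiv ℝ ψ q u) (fderiv ℝ ψ q v)) p := by
  refine ⟨?_, ?_, fun i j => ?_⟩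
  · filter_upwards [hψ.continuousAt.eventually hg.lin] with q hq u
    refine ⟨fun v w => ?_, fun c v => ?_⟩
    · rw [map_add, (hq _).map_add]
    · rw [map_smul, (hq _).map_smul]
  · filter_upwards [hψ.continuousAt.eventually hg.symm] with q hq u v
    exact hq _ _
  · have hd : ∀ (u : EE 7) (a : Fin 7), ContDiffAt ℝ ∞ (fun q => (fderiv ℝ ψ q u) a) p := by
      intro u a
      have h1 : ContDiffAt ℝ ∞ (fun q => fderiv ℝ ψ q) p := hψ.fderiv_right (m := ∞) (by simp)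
      have h2 : ContDiffAt ℝ ∞ (fun q => fderiv ℝ ψ q u) p := h1.clm_apply contDiffAt_const
      exact (C4_coord_smooth a _).comp p h2
    have hs : ContDiffAt ℝ ∞ (fun q => ∑ a, ∑ b, mtx g (ψ q) a b * (fderiv ℝ ψ q (ebas i)) a *
        (fderiv ℝ ψ q (ebas j)) b) p := by
      refine ContDiffAt.sum fun a _ => ContDiffAt.sum fun b _ => ?_
      exact (((hg.sm a b).comp p hψ).mul (hd _ a)).mul (hd _ b)
    refine hs.congr_of_eventuallyEq ?_
    filter_upwards [hψ.continuousAt.eventually hg.expand] with q hq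
    exact hq _ _

/-- the matrix of a positive definite form is invertible -/
theorem M4_det {g : EE 7 → EE 7 → EE 7 → ℝ} {p : EE 7} (hg : Good g p)
    (hpos : ∀ u, u ≠ 0 → 0 < g p u u) : (mtx g p).det ≠ 0 := by
  intro hdet
  obtain ⟨v, hv, hMv⟩ := Matrix.exists_mulVec_eq_zero_iff.2 hdet
  have hexp := hg.expand.self_of_nhds
  let w : EE 7 := WithLp.toLp 2 v
  have hw : w ≠ 0 := by
    intro h
    apply hv
    ext i
    have := congrArg (fun z : EE 7 => z i) h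
    exact this
  have hp := hpos w hw
  rw [hexp] at hp
  have h0 : ∑ i, ∑ j, mtx g p i j * w i * w j = 0 := by
    have h1 : ∀ i, ∑ j, mtx g p i j * w i * w j = w i * (Matrix.mulVec (mtx g p) v) i := by
      intro i
      simp only [Matrix.mulVec, dotProduct, Finset.mul_sum]
      refine Finset.sum_congr rfl fun j _ => ?_
      show mtx g p i j * v i * v j = v i * (mtx g p i j * v j)
      ring
    rw [Finset.sum_congr rfl fun i _ => h1 i, hMv]
    simp
  rw [h0] at hp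
  exact lt_irrefl _ hp

/-- a germ of a good family is good -/
theorem M4_congr {g g' : EE 7 → EE 7 → EE 7 → ℝ} {p : EE 7} (hg : Good g p)
    (h : ∀ᶠ q in 𝓝 p, ∀ u v, g' q u v = g q u v) : Good g' p := by
  refine ⟨?_, ?_, fun i j => ?_⟩
  · filter_upwards [hg.lin, h] with q h1 h2 u
    refine ⟨fun v w => ?_, fun c v => ?_⟩
    · rw [h2, h2, h2, (h1 u).map_add]
    · rw [h2, h2, (h1 u).map_smul]
  · filter_upwards [hg.symm, h] with q h1 h2 u v
    rw [h2, h2, h1]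
  · exact (hg.sm i j).congr_of_eventuallyEq (h.mono fun q hq => hq _ _)

/-! ### pull-backs of `g0` by the action -/

/-- pull-back of `g0` by `act k n` -/
noncomputable def M4_pb (k : ℕ) (ε : ℝ) (n : ℤ × ℤ × ℤ) (p u v : EE 7) : ℝ :=
  g0 (prof k) ε (act k n p) (fderiv ℝ (act k n) p u) (fderiv ℝ (act k n) p v)

theorem M4_chain (k : ℕ) (m n : ℤ × ℤ × ℤ) {p : EE 7} (hp : p ∈ OM) (u : EE 7) :
    fderiv ℝ (act k m) (act k n p) (fderiv ℝ (act k n) p u) = fderiv ℝ (act k (m + n)) p u := by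
  have h1 := Tp.TB5_chain k n hp
    ((contDiffAt_act k m (act_mem k n hp)).differentiableAt (by simp)) u
  rw [h1]
  have h2 : (fun q => act k m (act k n q)) =ᶠ[𝓝 p] act k (m + n) := by
    filter_upwards [isOpen_OM.mem_nhds hp] with q hq
    exact (act_add k m n hq).symm
  rw [h2.fderiv_eq]

theorem M4_comp (k : ℕ) (ε : ℝ) (m n : ℤ × ℤ × ℤ) {p : EE 7} (hp : p ∈ OM) (u v : EE 7) :
    M4_pb k ε m (act k n p) (fderiv ℝ (act k n) p u) (fderiv ℝ (act k n) p v) =
      M4_pb k ε (m + n) p u v := by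
  unfold M4_pb
  rw [M4_chain k m n hp, M4_chain k m n hp, act_add k m n hp]

theorem M4_good (k : ℕ) {ε : ℝ} (hε : 0 < ε) (n : ℤ × ℤ × ℤ) {p : EE 7} (hp : p ∈ OM) :
    Good (M4_pb k ε n) p :=
  M4_pull_good (contDiffAt_act k n hp) (M1_g0_good k hε (act_mem k n hp))

theorem M4_act_zero_deriv (k : ℕ) (p u : EE 7) : fderiv ℝ (act k 0) p u = u := by
  have h : act k 0 = id := by
    funext q
    exact act_zero k q
  rw [h, fderiv_id]
  rfl

theorem M4_inj (k : ℕ) (n : ℤ × ℤ × ℤ) {p : EE 7} (hp : p ∈ OM) {u : EE 7}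
    (h : fderiv ℝ (act k n) p u = 0) : u = 0 := by
  have h1 := M4_chain k (-n) n hp u
  rw [h, map_zero, neg_add_cancel, M4_act_zero_deriv] at h1
  exact h1.symm

/-! ### the metric `gg` -/

theorem M4_gg_def (k : ℕ) (ε : ℝ) (p u v : EE 7) :
    gg (prof k) ε k p u v = M4_pb k ε (-slab p, 0, 0) p u v := rfl

theorem M4_slab_le (p : EE 7) : (slab p : ℝ) ≤ x1 p + 1 / 2 := Int.floor_le _

theorem M4_slab_lt (p : EE 7) : x1 p + 1 / 2 < slab p + 1 := Int.lt_floor_add_one _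

/-- `gg` is the pull-back of `g0` by `act k (-m, 0, 0)` where `|x1 p - m| < 3/4`. -/
theorem gg_eq (k : ℕ) (ε : ℝ) {p : EE 7} (hp : p ∈ OM) {m : ℤ} (hm : |x1 p - m| < 3 / 4)
    (u v : EE 7) : gg (prof k) ε k p u v = g0 (prof k) ε (act k (-m, 0, 0) p)
      (fderiv ℝ (act k (-m, 0, 0)) p u) (fderiv ℝ (act k (-m, 0, 0)) p v) := by
  have h1 := M4_slab_le p
  have h2 := M4_slab_lt p
  obtain ⟨h3, h4⟩ := abs_lt.1 hm
  have h5 : (m : ℝ) < slab p + 2 := by linarith
  have h6 : (slab p : ℝ) < m + 2 := by linarith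
  have h7 : m < slab p + 2 := by exact_mod_cast h5
  have h8 : slab p < m + 2 := by exact_mod_cast h6
  have hx : ∀ j : ℤ, x1 (act k (-j, 0, 0) p) = x1 p - j := by
    intro j
    rw [x1_act k _ hp]
    push_cast
    ring
  rw [M4_gg_def]
  show _ = M4_pb k ε (-m, 0, 0) p u v
  rcases lt_trichotomy m (slab p) with h | h | h
  · have hm1 : m = slab p - 1 := by omega
    have hm1' : (m : ℝ) = slab p - 1 := by rw [hm1]; push_cast; ring
    have hq := act_mem k (-slab p, 0, 0) hp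
    have e := M2_g0_1 k hq (by rw [hx]; linarith) (by rw [hx]; linarith) ε
      (fderiv ℝ (act k (-slab p, 0, 0)) p u) (fderiv ℝ (act k (-slab p, 0, 0)) p v)
    have e2 := M4_comp k ε (1, 0, 0) (-slab p, 0, 0) hp u v
    have e3 : ((1, 0, 0) : ℤ × ℤ × ℤ) + (-slab p, 0, 0) = (-m, 0, 0) := by
      rw [Prod.mk_add_mk, Prod.mk_add_mk, hm1]
      simp only [add_zero, neg_sub, Prod.mk.injEq, and_true]
      ring
    rw [e3] at e2
    rw [← e2]
    exact e.symm
  · rw [h]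
  · have hm1 : m = slab p + 1 := by omega
    have hm1' : (m : ℝ) = slab p + 1 := by rw [hm1]; push_cast; ring
    have hq := act_mem k (-m, 0, 0) hp
    have e := M2_g0_1 k hq (by rw [hx]; linarith) (by rw [hx]; linarith) ε
      (fderiv ℝ (act k (-m, 0, 0)) p u) (fderiv ℝ (act k (-m, 0, 0)) p v)
    have e2 := M4_comp k ε (1, 0, 0) (-m, 0, 0) hp u v
    have e3 : ((1, 0, 0) : ℤ × ℤ × ℤ) + (-m, 0, 0) = (-slab p, 0, 0) := by
      rw [Prod.mk_add_mk, Prod.mk_add_mk, hm1]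
      simp
    rw [e3] at e2
    rw [← e2]
    exact e

/-- the same near `p` -/
theorem gg_germ (k : ℕ) (ε : ℝ) {p : EE 7} (hp : p ∈ OM) {m : ℤ} (hm : |x1 p - m| < 3 / 4) :
    ∀ᶠ q in 𝓝 p, ∀ u v, gg (prof k) ε k q u v = g0 (prof k) ε (act k (-m, 0, 0) q)
      (fderiv ℝ (act k (-m, 0, 0)) q u) (fderiv ℝ (act k (-m, 0, 0)) q v) := by
  have hc : ContinuousAt (fun q => |x1 q - m|) p :=
    ((contDiffAt_x1 hp).continuousAt.sub continuousAt_const).abs
  filter_upwards [isOpen_OM.mem_nhds hp, hc.eventually_lt_const hm] with q hq hqm u v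
  exact gg_eq k ε hq hqm u v

theorem M4_slab_abs (p : EE 7) : |x1 p - slab p| ≤ 1 / 2 :=
  abs_le.2 ⟨by linarith [M4_slab_le p], by linarith [M4_slab_lt p]⟩

theorem gg_good (k : ℕ) {ε : ℝ} (hε : 0 < ε) {p : EE 7} (hp : p ∈ OM) :
    Good (gg (prof k) ε k) p :=
  M4_congr (M4_good k hε (-slab p, 0, 0) hp)
    (gg_germ k ε hp (lt_of_le_of_lt (M4_slab_abs p) (by norm_num)))

theorem M4_slab_act (k : ℕ) (n : ℤ × ℤ × ℤ) {p : EE 7} (hp : p ∈ OM) :
    slab (act k n p) = slab p + n.1 := by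
  unfold slab
  rw [x1_act k n hp, ← Int.floor_add_intCast]
  congr 1
  ring

theorem M4_gg_inv (k : ℕ) (ε : ℝ) (n : ℤ × ℤ × ℤ) {p : EE 7} (hp : p ∈ OM) (u v : EE 7) :
    gg (prof k) ε k (act k n p) (fderiv ℝ (act k n) p u) (fderiv ℝ (act k n) p v) =
      gg (prof k) ε k p u v := by
  obtain ⟨n1, n2, n3⟩ := n
  rw [M4_gg_def, M4_gg_def, M4_slab_act k _ hp, M4_comp k ε _ _ hp]
  have e3 : ((-(slab p + n1), 0, 0) : ℤ × ℤ × ℤ) + (n1, n2, n3) =
      (0, n2, n3) + (-slab p, 0, 0) := by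
    rw [Prod.mk_add_mk, Prod.mk_add_mk, Prod.mk_add_mk, Prod.mk_add_mk]
    ext
    · show -(slab p + n1) + n1 = 0 + -slab p
      ring
    · show 0 + n2 = n2 + 0
      ring
    · show 0 + n3 = n3 + 0
      ring
  show M4_pb k ε ((-(slab p + n1), 0, 0) + (n1, n2, n3)) p u v = _
  rw [e3, ← M4_comp k ε _ _ hp]
  exact M2_g0_0 k n2 n3 (act_mem k _ hp) (prof k) ε _ _

theorem M4_inv (k : ℕ) : ∃ ε0 : ℝ, 0 < ε0 ∧ ∀ ε, 0 < ε → ε < ε0 →
    InvMetric k (gg (prof k) ε k) := by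
  obtain ⟨ε0, h0, h⟩ := g0_pos k
  refine ⟨ε0, h0, fun ε hε hε0 => ⟨?_, ?_, ?_, ?_, ?_, ?_⟩⟩
  · intro p hp u u' v
    have hg := gg_good k hε hp
    have hs := hg.symm.self_of_nhds
    have hl := hg.lin.self_of_nhds
    rw [hs (u + u') v, hs u v, hs u' v, (hl v).map_add]
  · intro p hp c u v
    have hg := gg_good k hε hp
    have hs := hg.symm.self_of_nhds
    have hl := hg.lin.self_of_nhds
    rw [hs (c • u) v, hs u v, (hl v).map_smul, smul_eq_mul]
  · intro p hp u v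
    exact (gg_good k hε hp).symm.self_of_nhds u v
  · intro p hp u hu
    rw [M4_gg_def]
    exact h ε hε hε0 _ (act_mem k _ hp) _ fun h1 => hu (M4_inj k _ hp h1)
  · intro i j p hp
    exact ((gg_good k hε hp).sm i j).contDiffWithinAt
  · intro n p hp u v
    exact M4_gg_inv k ε n hp u v

theorem M4_RB (k : ℕ) {ε C : ℝ} (hε : 0 < ε)
    (h : ∀ p ∈ OM, |x1 p| ≤ 1 / 2 → RB (mtx (g0 (prof k) ε)) p C)
    (hg : InvMetric k (gg (prof k) ε k)) :
    ∀ p ∈ OM, RB (mtx (gg (prof k) ε k)) p C := by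
  intro p hp
  have hq := act_mem k (-slab p, 0, 0) hp
  have hx : x1 (act k (-slab p, 0, 0) p) = x1 p - slab p := by
    rw [x1_act k _ hp]
    push_cast
    ring
  refine (RB_pull C (contDiffAt_act k (-slab p, 0, 0) hp) (M1_g0_good k hε hq)
    (gg_germ k ε hp (lt_of_le_of_lt (M4_slab_abs p) (by norm_num)))
    (M4_det (gg_good k hε hp) (hg.pos p hp))).1 (h _ hq ?_)
  rw [hx]
  exact M4_slab_abs p

end H31R
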