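import Pool.Agent.Lib.H31R.QM

/-!
# H31R, part Q: the interface (everything about `MK k` and `prj k` which the other parts use)
-/

open scoped Manifold ContDiff
open Set MeasureTheory

namespace H31R

theorem prj_surj (k : ℕ) (m : (MK k).carrier) : ∃ p ∈ OM, prj k p = m := (qprops k).surj m

theorem prj_eq_iff {k : ℕ} {p q : EE 7} (hp : p ∈ OM) (hq : q ∈ OM) :
    prj k p = prj k q ↔ ∃ n : ℤ × ℤ × ℤ, q = act k n p := (qprops k).eq_iff p hp q hq

theorem prj_act {k : ℕ} {p : EE 7} (hp : p ∈ OM) (n : ℤ × ℤ × ℤ) :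
    prj k (act k n p) = prj k p := ((prj_eq_iff hp (act_mem k n hp)).2 ⟨n, rfl⟩).symm

/-- Every chart is the inverse of `prj k` on a box. -/
theorem chart_spec (k : ℕ) (m : (MK k).carrier) : ∃ p ∈ OM, prj k p = m ∧
    chartAt (EE 7) m m = p ∧ (chartAt (EE 7) m).target = Ubox p ∧
    ∀ q ∈ Ubox p, (chartAt (EE 7) m).symm q = prj k q := (qprops k).chart m

/-- The centre of the chart at `m`. -/
noncomputable def ctr {k : ℕ} (m : (MK k).carrier) : EE 7 := chartAt (EE 7) m m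

theorem ctr_mem {k : ℕ} (m : (MK k).carrier) : ctr m ∈ OM := by
  obtain ⟨p, hp, _, h, _⟩ := chart_spec k m
  rw [ctr, h]
  exact hp

theorem prj_ctr {k : ℕ} (m : (MK k).carrier) : prj k (ctr m) = m := by
  obtain ⟨p, _, h1, h, _⟩ := chart_spec k m
  rw [ctr, h]
  exact h1

theorem chart_target {k : ℕ} (m : (MK k).carrier) :
    (chartAt (EE 7) m).target = Ubox (ctr m) := by
  obtain ⟨p, _, _, h, h2, _⟩ := chart_spec k m
  rw [ctr, h]
  exact h2

theorem chart_symm {k : ℕ} {m : (MK k).carrier} {q : EE 7} (hq : q ∈ Ubox (ctr m)) :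
    (chartAt (EE 7) m).symm q = prj k q := by
  obtain ⟨p, _, _, h, _, h3⟩ := chart_spec k m
  rw [ctr, h] at hq
  exact h3 q hq

theorem chart_prj {k : ℕ} {m : (MK k).carrier} {q : EE 7} (hq : q ∈ Ubox (ctr m)) :
    chartAt (EE 7) m (prj k q) = q := by
  rw [← chart_symm hq]
  exact (chartAt (EE 7) m).right_inv (by rw [chart_target]; exact hq)

theorem exists_act_eq_ctr {k : ℕ} {p : EE 7} (hp : p ∈ OM) :
    ∃ n : ℤ × ℤ × ℤ, act k n p = ctr (prj k p) := by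
  obtain ⟨n, hn⟩ := (prj_eq_iff hp (ctr_mem (prj k p))).1 (prj_ctr (prj k p)).symm
  exact ⟨n, hn.symm⟩

theorem prj_injOn (k : ℕ) (p : EE 7) : InjOn (prj k) (Ubox p) := by
  intro a ha b hb hab
  obtain ⟨n, hn⟩ := (prj_eq_iff ha.1 hb.1).1 hab
  have e1 : n.1 = 0 := QM_int_zero ha.2.1 hb.2.1 (by rw [hn, x1_act k n ha.1])
  have e2 : n.2.1 = 0 := QM_int_zero ha.2.2.1 hb.2.2.1 (by rw [hn, x2_act k n ha.1])
  have e3 : n.2.2 = 0 := QM_int_zero ha.2.2.2 hb.2.2.2 (by rw [hn, x3_act k n a])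
  have hn0 : n = 0 := Prod.ext e1 (Prod.ext e2 e3)
  rw [hn, hn0, act_zero]

theorem QI_act_near {k : ℕ} {n : ℤ × ℤ × ℤ} {p q : EE 7} (hp : p ∈ OM)
    (hn : act k n p ∈ Ubox q) : ∀ᶠ b in nhds p, b ∈ OM ∧ act k n b ∈ Ubox q := by
  have h1 : (act k n) ⁻¹' (Ubox q) ∈ nhds p :=
    (contDiffAt_act k n hp).continuousAt.preimage_mem_nhds (isOpen_Ubox.mem_nhds hn)
  filter_upwards [h1, isOpen_OM.mem_nhds hp] with b hb hb0
  exact ⟨hb0, hb⟩

theorem QI_chart_near {k : ℕ} {n : ℤ × ℤ × ℤ} {p : EE 7} {m : (MK k).carrier} (hp : p ∈ OM)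
    (hn : act k n p ∈ Ubox (ctr m)) :
    (fun b => chartAt (EE 7) m (prj k b)) =ᶠ[nhds p] act k n := by
  filter_upwards [QI_act_near hp hn] with b hb
  rw [← prj_act hb.1 n, chart_prj hb.2]

theorem QI_prj_near {k : ℕ} {n : ℤ × ℤ × ℤ} {p : EE 7} {m : (MK k).carrier} (hp : p ∈ OM)
    (hn : act k n p ∈ Ubox (ctr m)) :
    (fun b => (chartAt (EE 7) m).symm (act k n b)) =ᶠ[nhds p] prj k := by
  filter_upwards [QI_act_near hp hn] with b hb
  rw [chart_symm hb.2, prj_act hb.1 n]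

theorem continuousAt_prj {k : ℕ} {p : EE 7} (hp : p ∈ OM) : ContinuousAt (prj k) p := by
  obtain ⟨n, hn⟩ := exists_act_eq_ctr (k := k) hp
  have h0 : act k n p ∈ Ubox (ctr (prj k p)) := by
    rw [hn]
    exact mem_Ubox (ctr_mem _)
  refine ContinuousAt.congr ?_ (QI_prj_near hp h0)
  refine ContinuousAt.comp (g := (chartAt (EE 7) (prj k p)).symm) ?_
    (contDiffAt_act k n hp).continuousAt
  refine (chartAt (EE 7) (prj k p)).continuousOn_symm.continuousAt ?_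
  refine (chartAt (EE 7) (prj k p)).open_target.mem_nhds ?_
  rw [chart_target]
  exact h0

theorem contMDiffAt_prj {k : ℕ} {p : EE 7} (hp : p ∈ OM) :
    ContMDiffAt (𝓡 7) (𝓡 7) ∞ (prj k) p := by
  rw [contMDiffAt_iff]
  refine ⟨continuousAt_prj hp, ?_⟩
  obtain ⟨n, hn⟩ := exists_act_eq_ctr (k := k) hp
  have h0 : act k n p ∈ Ubox (ctr (prj k p)) := by
    rw [hn]
    exact mem_Ubox (ctr_mem _)
  have h1 : ContDiffAt ℝ ∞ (fun b => chartAt (EE 7) (prj k p) (prj k b)) p :=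
    (contDiffAt_act k n hp).congr_of_eventuallyEq (QI_chart_near hp h0)
  exact h1.contDiffWithinAt

theorem prj_contMDiffOn (k : ℕ) : ContMDiffOn (𝓡 7) (𝓡 7) ∞ (prj k) OM := fun _ hp =>
  (contMDiffAt_prj hp).contMDiffWithinAt

theorem mfderiv_prj {k : ℕ} {p : EE 7} (hp : p ∈ OM) {n : ℤ × ℤ × ℤ}
    (hn : act k n p = ctr (prj k p)) :
    (mfderiv (𝓡 7) (𝓡 7) (prj k) p : EE 7 →L[ℝ] EE 7) = fderiv ℝ (act k n) p := by
  have h0 : act k n p ∈ Ubox (ctr (prj k p)) := by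
    rw [hn]
    exact mem_Ubox (ctr_mem _)
  have hd : MDifferentiableAt (𝓡 7) (𝓡 7) (prj k) p :=
    (contMDiffAt_prj hp).mdifferentiableAt (by simp)
  rw [hd.mfderiv]
  have h1 : (fun b => chartAt (EE 7) (prj k p) (prj k b)) =ᶠ[nhds p] act k n :=
    QI_chart_near hp h0
  rw [← h1.fderiv_eq]
  have h2 : range (𝓡 7 : EE 7 → EE 7) = univ := by simp
  rw [h2, fderivWithin_univ]
  rfl

theorem prj_isOpen_image (k : ℕ) {U : Set (EE 7)} (hU : IsOpen U) (hO : U ⊆ OM) :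
    IsOpen (prj k '' U) := by
  rw [isOpen_iff_mem_nhds]
  rintro m ⟨p, hp, rfl⟩
  obtain ⟨n, hn⟩ := exists_act_eq_ctr (k := k) (hO hp)
  have hback : act k (-n) (ctr (prj k p)) = p := by
    rw [← hn, act_neg_act k n (hO hp)]
  have hc : ctr (prj k p) ∈ OM := ctr_mem _
  have h1 : IsOpen (Ubox (ctr (prj k p)) ∩ act k (-n) ⁻¹' U) :=
    ((continuousOn_act k (-n)).mono (Ubox_sub _)).isOpen_inter_preimage isOpen_Ubox hU
  have h2 : IsOpen ((chartAt (EE 7) (prj k p)).symm '' (Ubox (ctr (prj k p)) ∩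
      act k (-n) ⁻¹' U)) := by
    refine (chartAt (EE 7) (prj k p)).symm.isOpen_image_of_subset_source h1 ?_
    rw [OpenPartialHomeomorph.symm_source, chart_target]
    exact inter_subset_left
  refine Filter.mem_of_superset (h2.mem_nhds ?_) ?_
  · refine ⟨ctr (prj k p), ⟨mem_Ubox hc, ?_⟩, ?_⟩
    · show act k (-n) (ctr (prj k p)) ∈ U
      rw [hback]
      exact hp
    · rw [chart_symm (mem_Ubox hc), prj_ctr]
  · rintro m ⟨q, ⟨hq1, hq2⟩, rfl⟩
    refine ⟨act k (-n) q, hq2, ?_⟩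
    rw [chart_symm hq1, prj_act hq1.1]

theorem act_mem_Ubox {k : ℕ} {n : ℤ × ℤ × ℤ} {p q : EE 7} (hp : p ∈ OM) (hq : q ∈ Ubox p) :
    act k n q ∈ Ubox (act k n p) := by
  refine ⟨act_mem k n hq.1, ?_, ?_, ?_⟩
  · rw [x1_act k n hq.1, x1_act k n hp, add_sub_add_right_eq_sub]
    exact hq.2.1
  · rw [x2_act k n hq.1, x2_act k n hp, add_sub_add_right_eq_sub]
    exact hq.2.2.1
  · rw [x3_act k n q, x3_act k n p, add_sub_add_right_eq_sub]
    exact hq.2.2.2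

/-- Local inverses of the projection. -/
theorem prj_local_inverse (k : ℕ) {p : EE 7} (hp : p ∈ OM) : ∃ σ : (MK k).carrier → EE 7,
    ContMDiffOn (𝓡 7) (𝓡 7) ∞ σ (prj k '' Ubox p) ∧ ∀ q ∈ Ubox p, σ (prj k q) = q := by
  obtain ⟨n, hn⟩ := exists_act_eq_ctr (k := k) hp
  have hsrc : prj k '' Ubox p ⊆ (chartAt (EE 7) (prj k p)).source := by
    rintro _ ⟨q, hq, rfl⟩
    have h1 : act k n q ∈ Ubox (ctr (prj k p)) := by
      rw [← hn]
      exact act_mem_Ubox hp hq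
    rw [← prj_act hq.1 n, ← chart_symm h1]
    exact (chartAt (EE 7) (prj k p)).map_target (by rw [chart_target]; exact h1)
  have hval : ∀ q ∈ Ubox p, chartAt (EE 7) (prj k p) (prj k q) = act k n q := by
    intro q hq
    have h1 : act k n q ∈ Ubox (ctr (prj k p)) := by
      rw [← hn]
      exact act_mem_Ubox hp hq
    rw [← prj_act hq.1 n, chart_prj h1]
  refine ⟨fun m => act k (-n) (chartAt (EE 7) (prj k p) m), ?_, ?_⟩
  · have h2 : ContMDiffOn (𝓡 7) (𝓡 7) ∞ (chartAt (EE 7) (prj k p))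
        (chartAt (EE 7) (prj k p)).source := contMDiffOn_chart
    have h3 : ContMDiffOn (𝓡 7) (𝓡 7) ∞ (act k (-n)) OM := by
      rw [contMDiffOn_iff_contDiffOn]
      exact fun q hq => (contDiffAt_act k (-n) hq).contDiffWithinAt
    refine h3.comp (h2.mono hsrc) ?_
    rintro _ ⟨q, hq, rfl⟩
    show chartAt (EE 7) (prj k p) (prj k q) ∈ OM
    rw [hval q hq]
    exact act_mem k n hq.1
  · intro q hq
    show act k (-n) (chartAt (EE 7) (prj k p) (prj k q)) = q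
    rw [hval q hq, act_neg_act k n hq.1]

/-! ### transfer of metrics -/

/-- The scalar product at a point of `OM`. -/
noncomputable def qin {k : ℕ} {g : EE 7 → EE 7 → EE 7 → ℝ} (hg : InvMetric k g) {p : EE 7}
    (hp : p ∈ OM) : EE 7 →ₗ[ℝ] EE 7 →ₗ[ℝ] ℝ :=
  LinearMap.mk₂ ℝ (fun u v : EE 7 => g p u v)
    (fun u u' v => hg.add_left _ hp u u' v)
    (fun c u v => hg.smul_left _ hp c u v)
    (fun u v v' => by
      rw [hg.symm _ hp, hg.add_left _ hp, hg.symm _ hp v, hg.symm _ hp v'])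
    (fun c u v => by
      rw [hg.symm _ hp, hg.smul_left _ hp, hg.symm _ hp v]
      rfl)

/-- The scalar products on the quotient. -/
noncomputable def qinner {k : ℕ} {g : EE 7 → EE 7 → EE 7 → ℝ} (hg : InvMetric k g)
    (m : (MK k).carrier) :
    TangentSpace (𝓡 7) m →ₗ[ℝ] TangentSpace (𝓡 7) m →ₗ[ℝ] ℝ := qin hg (ctr_mem m)

theorem qinner_prj {k : ℕ} {g : EE 7 → EE 7 → EE 7 → ℝ} (hg : InvMetric k g) {p : EE 7}
    (hp : p ∈ OM) (u v : EE 7) (q : (MK k).carrier) (A : EE 7 →L[ℝ] EE 7) (hq : q = prj k p)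
    (hA : A = (mfderiv (𝓡 7) (𝓡 7) (prj k) p : EE 7 →L[ℝ] EE 7)) :
    g (ctr q) (A u) (A v) = g p u v := by
  obtain ⟨n, hn⟩ := exists_act_eq_ctr (k := k) hp
  rw [hA, mfderiv_prj hp hn, hq, ← hn]
  exact hg.inv n p hp u v

theorem coeff_qinner {k : ℕ} {g : EE 7 → EE 7 → EE 7 → ℝ} (hg : InvMetric k g)
    (m : (MK k).carrier) {y : EE 7} (hy : y ∈ (chartAt (EE 7) m).target) :
    coeff (qinner hg) m y = mtx g y := by
  rw [chart_target] at hy
  ext i j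
  show g (ctr ((chartAt (EE 7) m).symm y))
    ((mfderiv (𝓡 7) (𝓡 7) (chartAt (EE 7) m).symm y : EE 7 →L[ℝ] EE 7) (ebas i))
    ((mfderiv (𝓡 7) (𝓡 7) (chartAt (EE 7) m).symm y : EE 7 →L[ℝ] EE 7) (ebas j)) =
    g y (ebas i) (ebas j)
  refine qinner_prj hg hy.1 _ _ _ _ (chart_symm hy) ?_
  have h1 : (chartAt (EE 7) m).symm =ᶠ[nhds y] prj k := by
    filter_upwards [isOpen_Ubox.mem_nhds hy] with b hb
    exact chart_symm hb
  exact h1.mfderiv_eq

/-- Transfer of invariant metrics. -/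
theorem exists_RMetric {k : ℕ} {g : EE 7 → EE 7 → EE 7 → ℝ} (hg : InvMetric k g) :
    ∃ G : RMetric 7 (MK k).carrier,
      (∀ m, ∀ y ∈ (chartAt (EE 7) m).target, coeff G.inner m y = mtx g y) ∧
      ∀ p ∈ OM, ∀ u v : EE 7, G.inner (prj k p) (mfderiv (𝓡 7) (𝓡 7) (prj k) p u)
        (mfderiv (𝓡 7) (𝓡 7) (prj k) p v) = g p u v := by
  refine ⟨⟨qinner hg, fun m u v => hg.symm _ (ctr_mem m) u v,
    fun m u hu => hg.pos _ (ctr_mem m) u hu, ?_⟩, ?_, ?_⟩
  · intro m i j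
    have h1 : ContDiffOn ℝ ∞ (fun y => mtx g y i j) (chartAt (EE 7) m).target := by
      rw [chart_target]
      exact (hg.smooth i j).mono (Ubox_sub _)
    refine h1.congr fun y hy => ?_
    show coeff (qinner hg) m y i j = mtx g y i j
    rw [coeff_qinner hg m hy]
  · exact fun m y hy => coeff_qinner hg m hy
  · intro p hp u v
    exact qinner_prj hg hp u v _ _ rfl rfl

/-! ### the Ricci bound -/

theorem QI_pd_congr {d : ℕ} {f f' : EE d → ℝ} {x : EE d} (h : f =ᶠ[nhds x] f') (i : Fin d) :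
    pd i f x = pd i f' x := by
  unfold pd
  rw [h.fderiv_eq]

theorem QI_chr_congr {d : ℕ} {G G' : EE d → Matrix (Fin d) (Fin d) ℝ} {x : EE d}
    (h : G =ᶠ[nhds x] G') (a i j : Fin d) : chr G a i j x = chr G' a i j x := by
  have h1 : ∀ a b : Fin d, (fun y => G y a b) =ᶠ[nhds x] fun y => G' y a b := fun a b => by
    filter_upwards [h] with y hy
    rw [hy]
  unfold chr
  rw [h.eq_of_nhds]
  congr 1
  refine Finset.sum_congr rfl fun l _ => ?_
  rw [QI_pd_congr (h1 j l) i, QI_pd_congr (h1 i l) j, QI_pd_congr (h1 i j) l]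

theorem QI_ric_congr {d : ℕ} {G G' : EE d → Matrix (Fin d) (Fin d) ℝ} {x : EE d}
    (h : G =ᶠ[nhds x] G') (i j : Fin d) : ric G i j x = ric G' i j x := by
  have h1 : ∀ a i j : Fin d, chr G a i j =ᶠ[nhds x] chr G' a i j := fun a i j => by
    filter_upwards [h.eventuallyEq_nhds] with y hy
    exact QI_chr_congr hy a i j
  unfold ric
  refine Finset.sum_congr rfl fun a _ => ?_
  rw [QI_pd_congr (h1 a i j) a, QI_pd_congr (h1 a i a) j]
  congr 1
  refine Finset.sum_congr rfl fun l _ => ?_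
  rw [(h1 a a l).eq_of_nhds, (h1 l i j).eq_of_nhds, (h1 a j l).eq_of_nhds,
    (h1 l i a).eq_of_nhds]

theorem QI_RB_congr {d : ℕ} {G G' : EE d → Matrix (Fin d) (Fin d) ℝ} {x : EE d} {C : ℝ}
    (h : G =ᶠ[nhds x] G') (hC : RB G x C) : RB G' x C := by
  intro v
  have := hC v
  simp only [QI_ric_congr h, h.eq_of_nhds] at this
  exact this

/-- The Ricci bound. -/
theorem ricBounded_of_RB {k : ℕ} {g : EE 7 → EE 7 → EE 7 → ℝ} {G : RMetric 7 (MK k).carrier}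
    (hG : ∀ m, ∀ y ∈ (chartAt (EE 7) m).target, coeff G.inner m y = mtx g y) {C : ℝ}
    (hC : ∀ p ∈ OM, RB (mtx g) p C) : RicBounded G C := by
  intro m y hy
  have hy' : y ∈ Ubox (ctr m) := by
    rw [← chart_target]
    exact hy
  refine QI_RB_congr ?_ (hC y hy'.1)
  filter_upwards [(chartAt (EE 7) m).open_target.mem_nhds hy] with z hz
  exact (hG m z hz).symm

/-- Lower bound for the volume: one box. -/
theorem vol_ge {k : ℕ} {g : EE 7 → EE 7 → EE 7 → ℝ} {G : RMetric 7 (MK k).carrier}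
    (hG : ∀ m, ∀ y ∈ (chartAt (EE 7) m).target, coeff G.inner m y = mtx g y) :
    ∃ p ∈ OM, ∀ A ⊆ Ubox p, MeasurableSet A →
      ∫⁻ y in A, ENNReal.ofReal (Real.sqrt (mtx g y).det) ≤ vol G := by
  obtain ⟨m⟩ : Nonempty (MK k).carrier := inferInstance
  refine ⟨ctr m, ctr_mem m, fun A hA hm => ?_⟩
  rw [← chart_target] at hA
  have h1 : ∫⁻ y in A, ENNReal.ofReal (Real.sqrt (mtx g y).det) =
      ∑ _i : Fin 1, ∫⁻ y in A, ENNReal.ofReal (Real.sqrt (coeff G.inner m y).det) := by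
    rw [Fin.sum_univ_one]
    refine setLIntegral_congr_fun hm fun y hy => ?_
    rw [hG m y (hA hy)]
  rw [h1]
  unfold vol
  refine le_iSup_of_le 1 (le_iSup_of_le (fun _ => m) (le_iSup_of_le (fun _ => A)
    (le_iSup_of_le ⟨fun _ => ⟨hm, hA⟩, ?_⟩ le_rfl)))
  intro i j hij
  exact absurd (Subsingleton.elim i j) hij

/-- Upper bound for the distance: curves in `OM`. -/
theorem rdist_le {k : ℕ} {g : EE 7 → EE 7 → EE 7 → ℝ} {G : RMetric 7 (MK k).carrier}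
    (hG : ∀ p ∈ OM, ∀ u v : EE 7, G.inner (prj k p) (mfderiv (𝓡 7) (𝓡 7) (prj k) p u)
      (mfderiv (𝓡 7) (𝓡 7) (prj k) p v) = g p u v)
    {c : ℝ → EE 7} (hc : ContDiff ℝ 1 c) (hO : ∀ t, c t ∈ OM) :
    rdist G (prj k (c 0)) (prj k (c 1)) ≤
      ∫⁻ t in Icc (0 : ℝ) 1, ENNReal.ofReal (Real.sqrt (g (c t) (deriv c t) (deriv c t))) := by
  have hcm : ContMDiff 𝓘(ℝ, ℝ) (𝓡 7) 1 c := hc.contMDiff
  have hγ : ContMDiff 𝓘(ℝ, ℝ) (𝓡 7) 1 (fun t => prj k (c t)) := by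
    intro t
    exact ((contMDiffAt_prj (k := k) (hO t)).of_le (by norm_cast)).comp t (hcm t)
  unfold rdist
  refine (iInf_le_of_le (fun t => prj k (c t)) (iInf_le_of_le ⟨hγ, rfl, rfl⟩ ?_))
  unfold len
  refine lintegral_mono fun t => ?_
  have h1 : mfderiv 𝓘(ℝ, ℝ) (𝓡 7) (fun t => prj k (c t)) t =
      (mfderiv (𝓡 7) (𝓡 7) (prj k) (c t)).comp (mfderiv 𝓘(ℝ, ℝ) (𝓡 7) c t) :=
    mfderiv_comp t ((contMDiffAt_prj (k := k) (hO t)).mdifferentiableAt (by simp))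
      ((hcm t).mdifferentiableAt (by simp))
  have h2 : (mfderiv 𝓘(ℝ, ℝ) (𝓡 7) c t : ℝ →L[ℝ] EE 7) (1 : ℝ) = deriv c t := by
    rw [mfderiv_eq_fderiv]
    rfl
  rw [h1]
  have h3 := hG (c t) (hO t) (deriv c t) (deriv c t)
  rw [← h3, ← h2]
  exact le_rfl

end H31R
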