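import Pool.Agent.Lib.H31R.C7
import Pool.Agent.Lib.H31R.B4
import Pool.Agent.Lib.H31R.QI
import Pool.Agent.Lib.H31R.F2
import Pool.Agent.Lib.H31R.M4

/-!
# H31R, part M: the metrics `gc`, `g0`, `gg` are smooth, symmetric, positive definite, invariant
-/

open scoped ContDiff Topology
open Real Filter

namespace H31R

/-- the profile functions satisfy the hypotheses of part F (`B3`) -/
theorem prof_ok (k : ℕ) : ProfOK (prof k) :=
  ⟨auf_smooth k, b1_smooth k, b2_smooth k, b3_smooth k, auf_pos k, b1_deriv k, b3_deriv k⟩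

/-- core metric (`RR > 0` because `a > 0`) -/
theorem gc_good (k : ℕ) {ε : ℝ} (hε : 0 < ε) {p : EE 7} (hp : p ∈ OM) :
    Good (gc (prof k) ε) p :=
  M1_gc_good k hε hp

/-- slab metric: near `l = 0` it is `gc`, elsewhere `go` is smooth -/
theorem g0_good (k : ℕ) {ε : ℝ} (hε : 0 < ε) {p : EE 7} (hp : p ∈ OM) :
    Good (g0 (prof k) ε) p :=
  M1_g0_good k hε hp

theorem M_cont {p : EE 7} (hp : p ∈ OM) : ContinuousAt (fun q => dot (lv q) (lv q)) p :=
  (C7_dot (C7_lv hp) (C7_lv hp)).continuousAt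

/-- near a point with `|l| < ε / 2` the slab metric is the core metric -/
theorem g0_eq_gc (k : ℕ) {ε : ℝ} (hε : 0 < ε) {p : EE 7} (hp : p ∈ OM)
    (hl : dot (lv p) (lv p) < ε ^ 2 / 4) :
    ∀ᶠ q in 𝓝 p, ∀ u v, g0 (prof k) ε q u v = gc (prof k) ε q u v :=
  ((M_cont hp).eventually_lt_const hl).mono fun _ hq u v => M1_g0_core _ hε hq.le u v

/-- near a point with `|l| > ε` the slab metric is the outer metric -/
theorem g0_eq_go (k : ℕ) {ε : ℝ} (hε : 0 < ε) {p : EE 7} (hp : p ∈ OM)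
    (hl : ε ^ 2 < dot (lv p) (lv p)) :
    ∀ᶠ q in 𝓝 p, ∀ u v, g0 (prof k) ε q u v = go (prof k) q u v :=
  ((M_cont hp).eventually_const_lt hl).mono fun _ hq u v => M1_g0_outer _ hε hq.le u v

/-- The metric `gg` is an invariant Riemannian metric for small `ε`. (Symmetric, bilinear, smooth: `g0_good`
and the slab identity; positive: for `|l| ≤ ε`, `ε` small, `gc` is at least one half of
`xi1^2 + xi2^2 + xi3^2 + |A|^2/(4R) + R |B|^2`, because `a, a'`, the `Z` and `kap`, `T` times `Z` times `|l|^2` are small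
(`a = O(ε^3)`, `a <= R`), and this quadratic form is definite; for `|h| < 1` the form `go` is definite.) -/
theorem gg_inv (k : ℕ) : ∃ ε0 : ℝ, 0 < ε0 ∧ ∀ ε, 0 < ε → ε < ε0 →
    InvMetric k (gg (prof k) ε k) :=
  M4_inv k

/-- The Ricci bound for `gg` from the bound for the slab metric on the slab `|x1| ≤ 1/2`. (Near every point of
`OM` the metric `gg` is the pullback of `g0` by some `act k (n, 0, 0)` which moves the point into the slab
`|x1| ≤ 1/2`: at the boundary of the slab by the slab identity; `RB_pull` or `Pull.RB_iff`.) -/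
theorem gg_RB (k : ℕ) {ε C : ℝ} (hε : 0 < ε)
    (h : ∀ p ∈ OM, |x1 p| ≤ 1 / 2 → RB (mtx (g0 (prof k) ε)) p C)
    (hg : InvMetric k (gg (prof k) ε k)) :
    ∀ p ∈ OM, RB (mtx (gg (prof k) ε k)) p C :=
  M4_RB k hε h hg

end H31R
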