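import Pool.Agent.Lib.H31R.C8a
import Pool.Agent.Lib.H31R.M

/-!
# H31R, chunk C9: region I, `|l| < ε / 2`
-/

open scoped ContDiff Topology
open Real Filter

namespace H31R

/-- the parameters `(η, x, t)` -/
def c9_par (k : ℕ) (E : ℝ) : Set (ℝ × ℝ × ℝ) :=
  {z | z.1 ∈ Set.Icc 0 E ∧ z.2.1 ∈ Set.Icc (-(1 / 2) : ℝ) (1 / 2) ∧ z.2.2 ∈ Set.Icc (0 : ℝ) 1 ∧
    (z.1 * (prof k).a z.2.1) ^ 2 + z.2.2 ^ 2 = 1}

theorem c9_par_compact (k : ℕ) (E : ℝ) : IsCompact (c9_par k E) := by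
  have h1 : IsCompact (Set.Icc 0 E ×ˢ (Set.Icc (-(1 / 2) : ℝ) (1 / 2) ×ˢ Set.Icc (0 : ℝ) 1)) :=
    isCompact_Icc.prod (isCompact_Icc.prod isCompact_Icc)
  have ha : Continuous (prof k).a := (prof_ok k).sa.continuous
  have h2 : IsClosed {z : ℝ × ℝ × ℝ | (z.1 * (prof k).a z.2.1) ^ 2 + z.2.2 ^ 2 = 1} :=
    isClosed_eq (by fun_prop) continuous_const
  have h3 := h1.inter_right h2
  refine h3.of_isClosed_subset ?_ ?_
  · have e : c9_par k E = (Set.Icc 0 E ×ˢ (Set.Icc (-(1 / 2) : ℝ) (1 / 2) ×ˢ Set.Icc (0 : ℝ) 1)) ∩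
        {z : ℝ × ℝ × ℝ | (z.1 * (prof k).a z.2.1) ^ 2 + z.2.2 ^ 2 = 1} := by
      ext z
      simp only [c9_par, Set.mem_ofPred_eq, Set.mem_inter_iff, Set.mem_prod, and_assoc]
    rw [e]
    exact h3.isClosed
  · intro z hz
    exact ⟨⟨hz.1, hz.2.1, hz.2.2.1⟩, hz.2.2.2⟩

theorem c9_xi0 (t : ℝ) : xi0 t = t • (ebas 5 : EE 7) := by
  ext i
  simp [xi0]

theorem c9_xi0_cont : Continuous xi0 := by
  have h : xi0 = fun t => t • (ebas 5 : EE 7) := funext c9_xi0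
  rw [h]
  exact continuous_id.smul continuous_const

theorem c9_xi0_apply (t : ℝ) (i : Fin 7) : xi0 t i = if i = 5 then t else 0 := by
  simp [xi0]

theorem c9_SS (P : Prof) (lam eta x t : ℝ) :
    SS P lam eta x (xi0 t) = (eta * P.a x) ^ 2 + t ^ 2 := by
  unfold SS
  simp [c9_xi0_apply]

/-- the family of metrics -/
noncomputable def c9_G (k : ℕ) (w : ℝ × (ℝ × ℝ)) : EE 7 → Mt 7 := mtx (gh (prof k) w.1 w.2.1 w.2.2)

/-- the set of parameters and base points -/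
def c9_K (k : ℕ) (E : ℝ) : Set ((ℝ × ℝ) × EE 7) :=
  (fun z : ℝ × ℝ × ℝ => ((z.1, z.2.1), xi0 z.2.2)) '' c9_par k E

theorem c9_K_compact (k : ℕ) (E : ℝ) : IsCompact (c9_K k E) :=
  (c9_par_compact k E).image (by
    have := c9_xi0_cont
    fun_prop)

theorem c9_diag (c : Fin 7 → ℝ) (v : Fin 7 → ℝ) (A : Fin 7 → Fin 7 → ℝ)
    (hA : ∀ i j, A i j = if i = j then c i else 0) :
    ∑ i, ∑ j, A i j * v i * v j = ∑ i, c i * v i ^ 2 := by
  refine Finset.sum_congr rfl fun i _ => ?_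
  rw [Finset.sum_eq_single i]
  · rw [hA, if_pos rfl]
    ring
  · intro j _ hj
    rw [hA, if_neg (Ne.symm hj)]
    ring
  · intro h
    exact absurd (Finset.mem_univ i) h

/-- the weights of the metric at the base point -/
noncomputable def c9_c (i : Fin 7) : ℝ := if i = 5 ∨ i = 6 then 1 / 4 else 1

theorem c9_entry {P : Prof} {eta x t : ℝ} (h1 : (eta * P.a x) ^ 2 + t ^ 2 = 1) (i j : Fin 7) :
    mtx (gh P 0 eta x) (xi0 t) i j = if i = j then c9_c i else 0 := by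
  unfold mtx
  rw [gh_lam0 h1]
  fin_cases i <;> fin_cases j <;> simp [c9_c]

theorem c9_pos {P : Prof} {eta x t : ℝ} (h1 : (eta * P.a x) ^ 2 + t ^ 2 = 1) (v : Fin 7 → ℝ)
    (hv : v ≠ 0) : 0 < ∑ i, ∑ j, mtx (gh P 0 eta x) (xi0 t) i j * v i * v j := by
  rw [c9_diag c9_c v _ (c9_entry h1)]
  have hc : ∀ i, 0 < c9_c i := by
    intro i
    unfold c9_c
    split_ifs <;> norm_num
  obtain ⟨i, hi⟩ : ∃ i, v i ≠ 0 := by
    by_contra h
    push Not at h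
    exact hv (funext h)
  refine Finset.sum_pos' (fun j _ => mul_nonneg (hc j).le (sq_nonneg _)) ⟨i, Finset.mem_univ i, ?_⟩
  exact mul_pos (hc i) (by positivity)

theorem c9_fam (k : ℕ) (E : ℝ) : SmFam (c9_G k) (c9_K k E) := by
  refine ⟨c9_K_compact k E, ?_, ?_⟩
  · rintro _ ⟨⟨eta, x, t⟩, hz, rfl⟩ i j
    obtain ⟨h0, -, -, h1⟩ := hz
    simp only at h0 h1
    have hS : 0 < SS (prof k) 0 eta x (xi0 t) := by
      rw [c9_SS, h1]
      exact one_pos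
    have h2 := gh_smooth (prof_ok k) hS h0.1 (ebas i) (ebas j)
    have h3 : ContDiffAt ℝ ∞ (fun w : (ℝ × (ℝ × ℝ)) × EE 7 => (w.1.1, w.1.2.1, w.1.2.2, w.2))
        ((0, (eta, x)), xi0 t) := by
      fun_prop
    exact ContDiffAt.comp (((0, (eta, x)), xi0 t) : (ℝ × (ℝ × ℝ)) × EE 7) h2 h3
  · rintro _ ⟨⟨eta, x, t⟩, hz, rfl⟩ v hv
    obtain ⟨h0, -, -, h1⟩ := hz
    exact c9_pos h1 v hv

theorem c9_eta (k : ℕ) : ∃ E : ℝ, ∀ eta x t : ℝ, 0 ≤ eta → |x| ≤ 1 / 2 →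
    (eta * (prof k).a x) ^ 2 + t ^ 2 = 1 → eta ≤ E := by
  have hc : IsCompact (Set.Icc (-(1 / 2) : ℝ) (1 / 2)) := isCompact_Icc
  obtain ⟨x0, -, hx0⟩ := hc.exists_isMinOn ⟨0, by norm_num⟩ (prof_ok k).sa.continuous.continuousOn
  have hm := (prof_ok k).pos x0
  refine ⟨1 / (prof k).a x0, fun eta x t h0 hx h1 => ?_⟩
  rw [le_div_iff₀ hm]
  have h2 : (prof k).a x0 ≤ (prof k).a x := hx0 (abs_le.1 hx)
  have h3 : eta * (prof k).a x0 ≤ eta * (prof k).a x := mul_le_mul_of_nonneg_left h2 h0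
  have h4 : (eta * (prof k).a x) ^ 2 ≤ 1 := by nlinarith [sq_nonneg t]
  have h5 : eta * (prof k).a x ≤ 1 := by
    by_contra h
    push Not at h
    nlinarith
  linarith

/-- `RB_gh` with the determinant -/
theorem c9_main : ∃ C0 : ℝ, 0 < C0 ∧ ∀ k : ℕ, ∃ C δ : ℝ, 0 ≤ C ∧ 0 < δ ∧
    ∀ eta x t l : ℝ, 0 ≤ eta → |x| ≤ 1 / 2 → 0 ≤ t → (eta * (prof k).a x) ^ 2 + t ^ 2 = 1 →
      0 ≤ l → l ≤ δ → RB (mtx (gh (prof k) l eta x)) (xi0 t) (C0 * l ^ 2 + C * l ^ 3) ∧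
        (mtx (gh (prof k) l eta x) (xi0 t)).det ≠ 0 := by
  obtain ⟨C0, hC0, hF⟩ := F2M_bound
  refine ⟨C0, hC0, fun k => ?_⟩
  obtain ⟨E, hE⟩ := c9_eta k
  have fam := c9_fam k E
  obtain ⟨C, δ, hC, hδ, hRB⟩ := fam.RB_third
    (F := fun z => F2M (par (prof k) z.1.1 z.1.2 (z.2 5))) hC0.le (by
      rintro _ ⟨⟨eta, x, t⟩, hz, rfl⟩ i j
      obtain ⟨h0, -, -, h1⟩ := hz
      have h2 := gh_ric (prof_ok k) h1 h0.1 i j
      have h3 : xi0 t 5 = t := by simp [xi0]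
      simp only [h3]
      exact h2) (by
      rintro _ ⟨⟨eta, x, t⟩, hz, rfl⟩ v
      obtain ⟨h0, -, -, h1⟩ := hz
      have h3 : xi0 t 5 = t := by simp [xi0]
      simp only [h3]
      exact hF k eta x t h0.1 h1 v)
  obtain ⟨C', δ', hC', hδ', hlow⟩ := fam.lower
  refine ⟨C, min δ δ', hC, lt_min hδ hδ', fun eta x t l h0 hx ht h1 hl hlδ => ?_⟩
  have htle : t ≤ 1 := by nlinarith [sq_nonneg (eta * (prof k).a x)]
  have hz : ((eta, x), xi0 t) ∈ c9_K k E :=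
    ⟨(eta, x, t), ⟨⟨h0, hE eta x t h0 hx h1⟩, abs_le.1 hx, ⟨ht, htle⟩, h1⟩, rfl⟩
  refine ⟨hRB _ hz l ⟨hl, hlδ.trans (min_le_left _ _)⟩, ?_⟩
  apply N_det_of_pos
  intro v hv
  have h2 := (hlow _ hz l (by rw [abs_of_nonneg hl]; exact hlδ.trans (min_le_right _ _)) v)
  have h3 : 0 < ∑ i, v i ^ 2 := by
    obtain ⟨i, hi⟩ : ∃ i, v i ≠ 0 := by
      by_contra h
      push Not at h
      exact hv (funext h)
    exact Finset.sum_pos' (fun j _ => sq_nonneg _) ⟨i, Finset.mem_univ i, by positivity⟩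
  refine lt_of_le_of_ne h2.1 fun h4 => ?_
  have h5 : ∑ i, v i ^ 2 ≤
      C' * ∑ i, ∑ j, mtx (gh (prof k) l eta x) (xi0 t) i j * v i * v j := h2.2
  rw [← h4, mul_zero] at h5
  exact absurd h3 (not_lt.2 h5)

/-- The family `gh (prof k)` with parameter `l = λ`, `p = (η, x)` and base points `xi0 t`,
`(η a)^2 + t^2 = 1`, is a smooth family (`SmFam`), and `SmFam.RB_third` applies with `F2M`. -/
theorem RB_gh : ∃ C0 : ℝ, 0 < C0 ∧ ∀ k : ℕ, ∃ C δ : ℝ, 0 ≤ C ∧ 0 < δ ∧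
    ∀ eta x t l : ℝ, 0 ≤ eta → |x| ≤ 1 / 2 → 0 ≤ t → (eta * (prof k).a x) ^ 2 + t ^ 2 = 1 →
      0 ≤ l → l ≤ δ → RB (mtx (gh (prof k) l eta x)) (xi0 t) (C0 * l ^ 2 + C * l ^ 3) := by
  obtain ⟨C0, hC0, h⟩ := c9_main
  refine ⟨C0, hC0, fun k => ?_⟩
  obtain ⟨C, δ, hC, hδ, h2⟩ := h k
  exact ⟨C, δ, hC, hδ, fun eta x t l a b c d e f => (h2 eta x t l a b c d e f).1⟩

theorem c9_RB_mono {G : EE 7 → Mt 7} {x : EE 7} {C C' : ℝ} (hC : 0 < C) (h : RB G x C)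
    (hCC : C ≤ C') : RB G x C' := by
  intro v
  have h1 := h v
  have h2 : 0 ≤ C * ∑ i, ∑ j, G x i j * v i * v j := (abs_nonneg _).trans h1
  have h3 : 0 ≤ ∑ i, ∑ j, G x i j * v i * v j := by
    by_contra hneg
    push Not at hneg
    nlinarith
  exact h1.trans (mul_le_mul_of_nonneg_right hCC h3)

/-- Region I. With the frame of `exists_pfr` (`l = t' f1`, `t' = |l|`), `λ^2 = R = sqrt (a^2 + |l|^2)`,
`η = ε^3 / λ^2`, `t = t' / R`, `sg = sign h` (`h ≠ 0` because `|l| < 1`) one has `p = PSI .. (xi0 t)`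
(`PSI_xi0`); near `xi0 t` the pullback of `gc` is `λ^2 gh` (`PSI_gc`), and `RB_pull_scale` gives
`RB gc p (C0 + C λ)`; `λ → 0` for `ε → 0`, uniformly in `p`. -/
theorem RB_I : ∃ C0 : ℝ, 0 < C0 ∧ ∀ k : ℕ, ∃ ε0 : ℝ, 0 < ε0 ∧ ∀ ε, 0 < ε → ε < ε0 →
    ∀ p ∈ OM, |x1 p| ≤ 1 / 2 → dot (lv p) (lv p) < ε ^ 2 / 4 →
      RB (mtx (gc (prof k) ε)) p C0 := by
  obtain ⟨C0, hC0, hmain⟩ := c9_main
  refine ⟨C0 + 1, by linarith, fun k => ?_⟩
  obtain ⟨C, δ, hC, hδ, hRB⟩ := hmain k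
  -- bound of `a`
  obtain ⟨A, hA0, hA⟩ : ∃ A : ℝ, 0 < A ∧ ∀ x : ℝ, |x| ≤ 1 / 2 → (prof k).a x ≤ A := by
    have hc : IsCompact (Set.Icc (-(1 / 2) : ℝ) (1 / 2)) := isCompact_Icc
    obtain ⟨x0, -, hx0⟩ := hc.exists_isMaxOn ⟨0, by norm_num⟩
      (prof_ok k).sa.continuous.continuousOn
    exact ⟨(prof k).a x0, (prof_ok k).pos x0, fun x hx => hx0 (abs_le.1 hx)⟩
  set m := min δ (1 / (C + 1)) with hm
  have hm0 : 0 < m := lt_min hδ (by positivity)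
  refine ⟨min 1 (m ^ 2 / (A + 1)), lt_min one_pos (by positivity), ?_⟩
  intro ε hε hε0 p hp hx hl
  have hε1 : ε < 1 := hε0.trans_le (min_le_left _ _)
  have hε2 : ε * (A + 1) < m ^ 2 := by
    have := hε0.trans_le (min_le_right _ _)
    rwa [lt_div_iff₀ (by linarith)] at this
  obtain ⟨f1, f2, f3, hf, t', ht', hth, hlt, hpfr⟩ := exists_pfr hp
  set a := ε ^ 3 * (prof k).a (x1 p) with ha
  have ha0 : 0 < a := mul_pos (pow_pos hε 3) ((prof_ok k).pos _)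
  set R := √(a ^ 2 + t' ^ 2) with hR
  have hR0 : 0 < R := Real.sqrt_pos.2 (by positivity)
  have hR2 : R ^ 2 = a ^ 2 + t' ^ 2 := Real.sq_sqrt (by positivity)
  rw [hlt] at hl
  have ht2 : t' < ε / 2 :=
    lt_of_pow_lt_pow_left₀ 2 (by positivity) (by
      have e : (ε / 2) ^ 2 = ε ^ 2 / 4 := by ring
      rw [e]
      exact hl)
  have hεsq : ε ^ 2 < 1 := pow_lt_one₀ hε.le hε1 two_ne_zero
  have htsq : t' ^ 2 < 1 := by linarith
  have haA : a ≤ ε * A := by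
    have h1 := hA (x1 p) hx
    have h2 : ε ^ 3 ≤ ε := pow_le_of_le_one hε.le hε1.le three_ne_zero
    exact mul_le_mul h2 h1 ((prof_ok k).pos _).le hε.le
  have hRle : R ≤ a + t' := by
    rw [hR]
    refine Real.sqrt_le_iff.2 ⟨by positivity, ?_⟩
    have e : (a + t') ^ 2 = a ^ 2 + t' ^ 2 + 2 * (a * t') := by ring
    rw [e]
    have := mul_nonneg ha0.le ht'
    linarith
  have hRm : R < m ^ 2 := by
    have e : ε * (A + 1) = ε * A + ε := by ring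
    rw [e] at hε2
    linarith
  set lam := √R with hlam
  have hlam0 : 0 < lam := Real.sqrt_pos.2 hR0
  have hlam2 : lam ^ 2 = R := Real.sq_sqrt hR0.le
  have hlamm : lam < m := lt_of_pow_lt_pow_left₀ 2 hm0.le (by rw [hlam2]; exact hRm)
  have hlam4 : lam ^ 4 = R ^ 2 := by rw [← hlam2]; ring
  set eta := ε ^ 3 / R with heta
  have heta0 : 0 < eta := div_pos (pow_pos hε 3) hR0
  have heta2 : lam ^ 2 * eta = ε ^ 3 := by
    rw [hlam2, heta]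
    field_simp
  set t := t' / R with ht
  have ht0 : 0 ≤ t := div_nonneg ht' hR0.le
  have h1 : (eta * (prof k).a (x1 p)) ^ 2 + t ^ 2 = 1 := by
    have e1 : eta * (prof k).a (x1 p) = a / R := by
      rw [heta, ha]
      ring
    rw [e1, ht, div_pow, div_pow, ← add_div, ← hR2]
    exact div_self (by positivity)
  have hh0 : hh p ≠ 0 := by
    intro h
    rw [h] at hth
    norm_num at hth
    linarith [htsq, sq_abs t', (by rcases hth with h | h <;> simp [h] : t' ^ 2 = 1)]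
  obtain ⟨sg, hsg, hsgh⟩ : ∃ sg : ℝ, sg ^ 2 = 1 ∧ hh p = sg * √(1 - t' ^ 2) := by
    have h2 : 1 - t' ^ 2 = hh p ^ 2 := by linarith
    rw [h2, Real.sqrt_sq_eq_abs]
    rcases lt_or_gt_of_ne hh0 with h | h
    · exact ⟨-1, by norm_num, by rw [abs_of_neg h]; ring⟩
    · exact ⟨1, by norm_num, by rw [abs_of_pos h]; ring⟩
  have hl4 : lam ^ 4 * t ^ 2 = t' ^ 2 := by
    rw [hlam4, ht]
    field_simp
  have hpsi : PSI f1 f2 f3 (x1 p) (x2 p) (x3 p) lam sg (xi0 t) = p := by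
    rw [PSI_xi0, hl4, ← hsgh]
    have e2 : lam ^ 2 * t = t' := by
      rw [hlam2, ht]
      field_simp
    rw [e2]
    exact hpfr.symm
  have hξ : lam ^ 4 * ((xi0 t) 5 ^ 2 + (xi0 t) 6 ^ 2) < 1 := by
    have e5 : xi0 t 5 = t := by simp [xi0]
    have e6 : xi0 t 6 = 0 := by simp [xi0]
    rw [e5, e6]
    have e7 : lam ^ 4 * (t ^ 2 + (0 : ℝ) ^ 2) = t' ^ 2 := by rw [← hl4]; ring
    rw [e7]
    exact htsq
  have hψ := PSI_smooth f1 f2 f3 (x1 p) (x2 p) (x3 p) lam sg hξ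
  have hg : Good (gc (prof k) ε) (PSI f1 f2 f3 (x1 p) (x2 p) (x3 p) lam sg (xi0 t)) := by
    rw [hpsi]
    exact gc_good k hε hp
  have hpull : ∀ᶠ y in 𝓝 (xi0 t), ∀ u v,
      gc (prof k) ε (PSI f1 f2 f3 (x1 p) (x2 p) (x3 p) lam sg y)
        (fderiv ℝ (PSI f1 f2 f3 (x1 p) (x2 p) (x3 p) lam sg) y u)
        (fderiv ℝ (PSI f1 f2 f3 (x1 p) (x2 p) (x3 p) lam sg) y v) =
      lam ^ 2 * gh (prof k) lam eta (x1 p) y u v := by
    have hcont : Continuous fun y : EE 7 => lam ^ 4 * (y 5 ^ 2 + y 6 ^ 2) := by fun_prop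
    filter_upwards [hcont.continuousAt.eventually (Iio_mem_nhds hξ)] with y hy u v
    have ha' : 0 < eta * (prof k).a (x1 p + lam * y 0) := mul_pos heta0 ((prof_ok k).pos _)
    refine PSI_gc (prof k) hf hlam0 heta2 hsg ha'.le ?_ hy u v
    unfold SS
    positivity
  obtain ⟨hrb, hdet⟩ := hRB eta (x1 p) t lam heta0.le hx ht0 h1 hlam0.le
    (hlamm.le.trans (min_le_left _ _))
  have key := RB_pull_scale (C0 + C * lam) (pow_pos hlam0 2) hψ hg hpull hdet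
  have e3 : lam ^ 2 * (C0 + C * lam) = C0 * lam ^ 2 + C * lam ^ 3 := by ring
  rw [e3] at key
  have key2 := key.2 hrb
  rw [hpsi] at key2
  refine c9_RB_mono (by positivity) key2 ?_
  have h5 : C * lam ≤ 1 := by
    have h6 : lam ≤ 1 / (C + 1) := hlamm.le.trans (min_le_right _ _)
    rw [le_div_iff₀ (by linarith)] at h6
    have e : C * lam = lam * (C + 1) - lam := by ring
    rw [e]
    linarith
  linarith

end H31R
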