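import Pool.Agent.Lib.H31R.C8
import Pool.Agent.Lib.H31R.C9

/-!
# H31R, chunk C10: the Ricci bound
-/

open scoped ContDiff Topology
open Real Filter

namespace H31R

theorem C10_mono {G : EE 7 → Matrix (Fin 7) (Fin 7) ℝ} {x : EE 7} {C C' : ℝ} (hC : 0 < C)
    (h : RB G x C) (hCC : C ≤ C') : RB G x C' := by
  refine N_RB_mono (fun v => ?_) h hCC
  have h1 : 0 ≤ C * ∑ i, ∑ j, G x i j * v i * v j := (abs_nonneg _).trans (h v)
  exact nonneg_of_mul_nonneg_right h1 hC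

theorem C10_slab0 {p : EE 7} (h : |x1 p| < 1 / 2) : slab p = 0 := by
  unfold slab
  rw [Int.floor_eq_zero_iff]
  obtain ⟨h1, h2⟩ := abs_lt.1 h
  constructor <;> linarith

theorem C10_gg (P : Prof) (ε : ℝ) (k : ℕ) {p : EE 7} (h : |x1 p| < 1 / 2) (u v : EE 7) :
    gg P ε k p u v = g0 P ε p u v := by
  unfold gg
  rw [C10_slab0 h]
  have h0 : ((-(0 : ℤ), 0, 0) : ℤ × ℤ × ℤ) = 0 := rfl
  rw [h0]
  have h1 : act k 0 = fun q => q := funext fun q => act_zero k q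
  rw [h1]
  have h2 : fderiv ℝ (fun q : EE 7 => q) p = ContinuousLinearMap.id ℝ (EE 7) := fderiv_fun_id
  rw [h2]
  rfl

/-- the quadratic form of the slab metric -/
theorem C10_quad (k : ℕ) {ε : ℝ} (hε : 0 < ε) {p : EE 7} (hp : p ∈ OM) (v : Fin 7 → ℝ) :
    ∑ i, ∑ j, mtx (g0 (prof k) ε) p i j * v i * v j =
      g0 (prof k) ε p (WithLp.toLp 2 v) (WithLp.toLp 2 v) :=
  ((g0_good k hε hp).expand.self_of_nhds (WithLp.toLp 2 v) (WithLp.toLp 2 v)).symm

theorem C10_pos_lt (k : ℕ) {ε : ℝ} (hε : 0 < ε) (hg : InvMetric k (gg (prof k) ε k)) {p : EE 7}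
    (hp : p ∈ OM) (hx : |x1 p| < 1 / 2) (v : Fin 7 → ℝ) :
    0 ≤ ∑ i, ∑ j, mtx (g0 (prof k) ε) p i j * v i * v j := by
  rw [C10_quad k hε hp, ← C10_gg (prof k) ε k hx]
  by_cases h0 : (WithLp.toLp 2 v : EE 7) = 0
  · rw [h0]
    have h1 := hg.smul_left p hp 0 0 0
    rw [zero_smul, zero_mul] at h1
    rw [h1]
  · exact (hg.pos p hp _ h0).le

/-- the point `p` with `y` multiplied by `e^c` -/
noncomputable def C10_path (p : EE 7) (c : ℝ) : EE 7 := mk7 (p 0) (exp c • yv p) (zv p)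

theorem C10_path_mem {p : EE 7} (hp : p ∈ OM) (c : ℝ) : C10_path p c ∈ OM := by
  refine ⟨?_, ?_⟩
  · rw [C10_path, QA_yv_mk7]
    exact smul_ne_zero (exp_pos c).ne' hp.1
  · rw [C10_path, QA_zv_mk7]
    exact hp.2

theorem C10_path_x1 {p : EE 7} (hp : p ∈ OM) (c : ℝ) : x1 (C10_path p c) = x1 p + c := by
  unfold x1
  rw [C10_path, QA_yv_mk7, QA_nr_smul (exp_pos c).le, log_mul (exp_pos c).ne' (nr_yv_pos hp).ne',
    log_exp, add_comm]

theorem C10_path_tendsto (p : EE 7) : Tendsto (C10_path p) (𝓝 0) (𝓝 p) := by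
  have h1 : Continuous fun c : ℝ => C10_path p c := by
    unfold C10_path
    have h2 : Continuous fun c : ℝ => (p 0, exp c • yv p, zv p) := by fun_prop
    exact contDiff_mk7.continuous.comp h2
  have h3 := h1.tendsto 0
  have h4 : C10_path p 0 = p := by
    unfold C10_path
    rw [exp_zero, one_smul]
    exact mk7_self p
  rw [h4] at h3
  exact h3

theorem C10_pos (k : ℕ) {ε : ℝ} (hε : 0 < ε) (hg : InvMetric k (gg (prof k) ε k)) {p : EE 7}
    (hp : p ∈ OM) (hx : |x1 p| ≤ 1 / 2) (v : Fin 7 → ℝ) :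
    0 ≤ ∑ i, ∑ j, mtx (g0 (prof k) ε) p i j * v i * v j := by
  rcases hx.lt_or_eq with h | h
  · exact C10_pos_lt k hε hg hp h v
  · have hc : ContinuousAt (fun q => ∑ i, ∑ j, mtx (g0 (prof k) ε) q i j * v i * v j) p := by
      refine tendsto_finsetSum _ fun i _ => tendsto_finsetSum _ fun j _ => ?_
      exact ((((g0_good k hε hp).sm i j).continuousAt).mul_const _).mul_const _
    have hx0 : x1 p ≠ 0 := by
      intro h0
      rw [h0, abs_zero] at h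
      norm_num at h
    -- move towards `x1 = 0`
    have ht : Tendsto (fun t : ℝ => C10_path p (-(t * x1 p))) (𝓝[>] 0) (𝓝 p) := by
      refine (C10_path_tendsto p).comp ?_
      have h1 : Tendsto (fun t : ℝ => -(t * x1 p)) (𝓝 0) (𝓝 (-(0 * x1 p))) :=
        Continuous.tendsto (by fun_prop) 0
      rw [zero_mul, neg_zero] at h1
      exact h1.mono_left nhdsWithin_le_nhds
    have h2 := hc.tendsto.comp ht
    refine ge_of_tendsto h2 ?_
    have h3 : ∀ᶠ t : ℝ in 𝓝[>] 0, t < 1 := by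
      exact (eventually_lt_nhds (show (0 : ℝ) < 1 by norm_num)).filter_mono nhdsWithin_le_nhds
    filter_upwards [self_mem_nhdsWithin, h3] with t ht0 ht1
    have ht0' : 0 < t := ht0
    refine C10_pos_lt k hε hg (C10_path_mem hp _) ?_ v
    rw [C10_path_x1 hp]
    have h4 : x1 p + -(t * x1 p) = (1 - t) * x1 p := by ring
    rw [h4, abs_mul, h, abs_of_pos (by linarith)]
    linarith

/-- regions I (`RB_I`, `g0_eq_gc`, `RB_germ`), II (`RB_II`), III (`go_RB`, `g0_eq_go`) -/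
theorem RB_g0 : ∃ C0 : ℝ, 0 < C0 ∧ ∀ k : ℕ, ∃ ε0 : ℝ, 0 < ε0 ∧ ∀ ε, 0 < ε → ε < ε0 →
    ∀ p ∈ OM, |x1 p| ≤ 1 / 2 → RB (mtx (g0 (prof k) ε)) p C0 := by
  obtain ⟨CI, hCI, hI⟩ := RB_I
  obtain ⟨C1, hC1, hIII⟩ := go_RB
  refine ⟨CI + C1 + 1, by positivity, fun k => ?_⟩
  obtain ⟨e1, he1, h1⟩ := hI k
  obtain ⟨C2, e2, hC2, he2, h2⟩ := RB_II k
  obtain ⟨e3, he3, h3⟩ := gg_inv k
  refine ⟨min (min e1 e2) (min e3 (1 / (C2 + 1))), by positivity, fun ε hε hε0 p hp hx => ?_⟩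
  have a1 : ε < e1 := hε0.trans_le ((min_le_left _ _).trans (min_le_left _ _))
  have a2 : ε < e2 := hε0.trans_le ((min_le_left _ _).trans (min_le_right _ _))
  have a3 : ε < e3 := hε0.trans_le ((min_le_right _ _).trans (min_le_left _ _))
  have a4 : ε < 1 / (C2 + 1) := hε0.trans_le ((min_le_right _ _).trans (min_le_right _ _))
  rcases lt_or_ge (dot (lv p) (lv p)) (ε ^ 2 / 4) with b1 | b1
  · have h4 := h1 ε hε a1 p hp hx b1
    have h5 := (RB_germ CI (g0_eq_gc k hε hp b1)).2 h4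
    exact C10_mono hCI h5 (by linarith)
  · rcases le_or_gt (dot (lv p) (lv p)) (ε ^ 2) with b2 | b2
    · have h4 := h2 ε hε a2 p hp hx b1 b2
      refine N_RB_mono (fun v => C10_pos k hε (h3 ε hε a3) hp hx v) h4 ?_
      rw [lt_div_iff₀ (by positivity)] at a4
      nlinarith
    · have hh1 : hh p ^ 2 < 1 := by
        obtain ⟨f1, f2, f3, -, t, -, ht, hl, -⟩ := exists_pfr hp
        have : 0 < ε ^ 2 := by positivity
        rw [hl] at b2
        linarith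
      have h4 := hIII k p hp hh1
      have h5 := (RB_germ C1 (g0_eq_go k hε hp b2)).2 h4
      exact C10_mono hC1 h5 (by linarith)

/-- The Ricci bound of the invariant metrics. -/
theorem RB_gg : ∃ C0 : ℝ, 0 < C0 ∧ ∀ k : ℕ, ∃ ε0 : ℝ, 0 < ε0 ∧ ∀ ε, 0 < ε → ε < ε0 →
    InvMetric k (gg (prof k) ε k) ∧ ∀ p ∈ OM, RB (mtx (gg (prof k) ε k)) p C0 := by
  obtain ⟨C0, hC0, h⟩ := RB_g0
  refine ⟨C0, hC0, fun k => ?_⟩
  obtain ⟨e1, he1, h1⟩ := h k
  obtain ⟨e2, he2, h2⟩ := gg_inv k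
  refine ⟨min e1 e2, by positivity, fun ε hε hε0 => ?_⟩
  have a1 : ε < e1 := hε0.trans_le (min_le_left _ _)
  have a2 : ε < e2 := hε0.trans_le (min_le_right _ _)
  exact ⟨h2 ε hε a2, gg_RB k hε (h1 ε hε a1) (h2 ε hε a2)⟩

end H31R
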