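import Pool.Agent.Lib.H31R.C1
import Pool.Agent.Lib.H31R.B3

/-!
# H31R, chunk C2: rotating frames
-/

open scoped ContDiff Topology
open Real Filter

namespace H31R

/-- `f1, f2, f3 : EE 7 → V3` form an orthonormal frame at `q` and are differentiable at `q`, with body
angular velocity `(o1, o2, o3)`: `f1' = o3 f2 - o2 f3`, `f2' = o1 f3 - o3 f1`, `f3' = o2 f1 - o1 f2`. -/
structure RFat (f1 f2 f3 : EE 7 → V3) (o1 o2 o3 : EE 7 →L[ℝ] ℝ) (q : EE 7) : Prop where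
  fr : Fr (f1 q) (f2 q) (f3 q)
  d1 : HasFDerivAt f1 (o3.smulRight (f2 q) - o2.smulRight (f3 q)) q
  d2 : HasFDerivAt f2 (o1.smulRight (f3 q) - o3.smulRight (f1 q)) q
  d3 : HasFDerivAt f3 (o2.smulRight (f1 q) - o1.smulRight (f2 q)) q

/-- constant frame -/
theorem RFat_const {e1 e2 e3 : V3} (he : Fr e1 e2 e3) (q : EE 7) :
    RFat (fun _ => e1) (fun _ => e2) (fun _ => e3) 0 0 0 q := by
  refine ⟨he, ?_, ?_, ?_⟩
  · have h : HasFDerivAt (fun _ : EE 7 => e1) (0 : EE 7 →L[ℝ] V3) q := hasFDerivAt_const e1 q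
    convert h using 1
    ext u i
    simp
  · have h : HasFDerivAt (fun _ : EE 7 => e2) (0 : EE 7 →L[ℝ] V3) q := hasFDerivAt_const e2 q
    convert h using 1
    ext u i
    simp
  · have h : HasFDerivAt (fun _ : EE 7 => e3) (0 : EE 7 →L[ℝ] V3) q := hasFDerivAt_const e3 q
    convert h using 1
    ext u i
    simp

/-- derivative of a linear combination -/
theorem C2_lc {f1 f2 f3 : EE 7 → V3} {F1 F2 F3 : EE 7 →L[ℝ] V3} {a b c : EE 7 → ℝ}
    {a' b' c' : EE 7 →L[ℝ] ℝ} {q : EE 7}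
    (h1 : HasFDerivAt f1 F1 q) (h2 : HasFDerivAt f2 F2 q) (h3 : HasFDerivAt f3 F3 q)
    (ha : HasFDerivAt a a' q) (hb : HasFDerivAt b b' q) (hc : HasFDerivAt c c' q) :
    HasFDerivAt (fun r => lc (f1 r) (f2 r) (f3 r) (a r) (b r) (c r))
      ((a q • F1 + a'.smulRight (f1 q)) + (b q • F2 + b'.smulRight (f2 q)) +
        (c q • F3 + c'.smulRight (f3 q))) q :=
  ((ha.smul h1).add (hb.smul h2)).add (hc.smul h3)

/-- derivative of `pfr (f1 r) .. (h r)` (`PT_hasFDerivAt` with `w = f3`, `s = lc f1 f2 f3 l1 l2 h`; the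
derivative of `s` is `svel`, the derivative of `w` is `wvel`) -/
theorem pfr_fderiv {f1 f2 f3 : EE 7 → V3} {o1 o2 o3 : EE 7 →L[ℝ] ℝ} {q : EE 7}
    (hf : RFat f1 f2 f3 o1 o2 o3 q) {X1 X2 X3 l1 l2 h : EE 7 → ℝ}
    {X1' X2' X3' l1' l2' h' : EE 7 →L[ℝ] ℝ}
    (h1 : HasFDerivAt X1 X1' q) (h2 : HasFDerivAt X2 X2' q) (h3 : HasFDerivAt X3 X3' q)
    (h4 : HasFDerivAt l1 l1' q) (h5 : HasFDerivAt l2 l2' q) (h6 : HasFDerivAt h h' q) :
    DifferentiableAt ℝ
      (fun r => pfr (f1 r) (f2 r) (f3 r) (X1 r) (X2 r) (X3 r) (l1 r) (l2 r) (h r)) q ∧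
    ∀ u, fderiv ℝ
      (fun r => pfr (f1 r) (f2 r) (f3 r) (X1 r) (X2 r) (X3 r) (l1 r) (l2 r) (h r)) q u =
      ufr (f1 q) (f2 q) (f3 q) (X1 q) (X2 q) (l1 q) (l2 q) (h q)
        (X1' u) (X2' u) (X3' u) (l1' u) (l2' u) (h' u) (o1 u) (o2 u) (o3 u) := by
  obtain ⟨hd, hu⟩ := PT_hasFDerivAt h1 h2 h3 hf.d3 (C2_lc hf.d1 hf.d2 hf.d3 h4 h5 h6)
  refine ⟨hd, fun u => ?_⟩
  have h7 := hu u
  unfold pfr
  rw [h7]
  unfold ufr
  congr 1
  · unfold wvel
    refine C0a_ext ?_ ?_ ?_ <;>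
      simp only [C0a_lc, sub_apply, ContinuousLinearMap.smulRight_apply,
        Pi.sub_apply, Pi.smul_apply, smul_eq_mul] <;> ring
  · unfold svel
    refine C0a_ext ?_ ?_ ?_ <;>
      simp only [C0a_lc, sub_apply, add_apply,
        smul_apply, ContinuousLinearMap.smulRight_apply,
        Pi.sub_apply, Pi.add_apply, Pi.smul_apply, smul_eq_mul] <;> ring

/-- derivative of `l1^2 + l2^2 + h^2 = 1` -/
theorem tang_of_sq {l1 l2 h : EE 7 → ℝ} {l1' l2' h' : EE 7 →L[ℝ] ℝ} {q : EE 7}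
    (h4 : HasFDerivAt l1 l1' q) (h5 : HasFDerivAt l2 l2' q) (h6 : HasFDerivAt h h' q)
    (hn : ∀ᶠ r in 𝓝 q, l1 r ^ 2 + l2 r ^ 2 + h r ^ 2 = 1) (u : EE 7) :
    l1 q * l1' u + l2 q * l2' u + h q * h' u = 0 := by
  have e1 := ((h4.pow 2).add (h5.pow 2)).add (h6.pow 2)
  have e2 : HasFDerivAt (fun _ : EE 7 => (1 : ℝ)) (0 : EE 7 →L[ℝ] ℝ) q := hasFDerivAt_const 1 q
  have e3 := e1.congr_of_eventuallyEq (f₁ := fun _ : EE 7 => (1 : ℝ))
    (hn.mono fun r hr => by simpa using hr.symm)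
  have e4 := e3.unique e2
  have e5 := congrArg (fun L : EE 7 →L[ℝ] ℝ => L u) e4
  simp only [add_apply, smul_apply, smul_eq_mul,
    zero_apply] at e5
  norm_num at e5
  linarith

/-- the vector with components `v` in the frame `f1, f2, f3` -/
def ap (f1 f2 f3 v : V3) : V3 := lc f1 f2 f3 (v 0) (v 1) (v 2)

theorem C2_proj {f : EE 7 → V3} {F : EE 7 →L[ℝ] V3} {q : EE 7} (h : HasFDerivAt f F q)
    (i : Fin 3) : HasFDerivAt (fun r => f r i)
      ((ContinuousLinearMap.proj (R := ℝ) (φ := fun _ : Fin 3 => ℝ) i).comp F) q :=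
  (hasFDerivAt_pi'.1 h) i

theorem C2_fr {e1 e2 e3 r1 r2 r3 : V3} (he : Fr e1 e2 e3) (hr : Fr r1 r2 r3) :
    Fr (ap e1 e2 e3 r1) (ap e1 e2 e3 r2) (ap e1 e2 e3 r3) := by
  have hd : ∀ u v : V3, dot (ap e1 e2 e3 u) (ap e1 e2 e3 v) = dot u v := fun u v => by
    unfold ap
    rw [dot_lc he]
    rfl
  have hc : ∀ u v : V3, crs (ap e1 e2 e3 u) (ap e1 e2 e3 v) = ap e1 e2 e3 (crs u v) :=
    fun u v => by
      unfold ap
      rw [crs_lc he, C0a_crs0, C0a_crs1, C0a_crs2]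
  refine ⟨?_, ?_, ?_, ?_, ?_, ?_, ?_, ?_, ?_⟩
  · rw [hd]; exact hr.n1
  · rw [hd]; exact hr.n2
  · rw [hd]; exact hr.n3
  · rw [hd]; exact hr.o12
  · rw [hd]; exact hr.o13
  · rw [hd]; exact hr.o23
  · rw [hc, hr.c12]
  · rw [hc, hr.c23]
  · rw [hc, hr.c31]

/-- product of two rotating frames (matrices with columns `f` and `r`) -/
theorem RFat.mul {f1 f2 f3 r1 r2 r3 : EE 7 → V3} {o1 o2 o3 p1 p2 p3 : EE 7 →L[ℝ] ℝ} {q : EE 7}
    (hf : RFat f1 f2 f3 o1 o2 o3 q) (hr : RFat r1 r2 r3 p1 p2 p3 q) :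
    RFat (fun x => ap (f1 x) (f2 x) (f3 x) (r1 x)) (fun x => ap (f1 x) (f2 x) (f3 x) (r2 x))
      (fun x => ap (f1 x) (f2 x) (f3 x) (r3 x))
      (r1 q 0 • o1 + r1 q 1 • o2 + r1 q 2 • o3 + p1)
      (r2 q 0 • o1 + r2 q 1 • o2 + r2 q 2 • o3 + p2)
      (r3 q 0 • o1 + r3 q 1 • o2 + r3 q 2 • o3 + p3) q := by
  have c12 := hr.fr.c12
  have c23 := hr.fr.c23
  have c31 := hr.fr.c31
  have a0 := (congrFun c23 0).symm
  have a1 := (congrFun c23 1).symm
  have a2 := (congrFun c23 2).symm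
  have b0 := (congrFun c31 0).symm
  have b1 := (congrFun c31 1).symm
  have b2 := (congrFun c31 2).symm
  have d0 := (congrFun c12 0).symm
  have d1 := (congrFun c12 1).symm
  have d2 := (congrFun c12 2).symm
  rw [C0a_crs0] at a0 b0 d0
  rw [C0a_crs1] at a1 b1 d1
  rw [C0a_crs2] at a2 b2 d2
  refine ⟨C2_fr hf.fr hr.fr, ?_, ?_, ?_⟩
  · refine (C2_lc hf.d1 hf.d2 hf.d3 (C2_proj hr.d1 0) (C2_proj hr.d1 1)
      (C2_proj hr.d1 2)).congr_fderiv ?_
    refine ContinuousLinearMap.ext fun u => C0a_ext ?_ ?_ ?_ <;>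
      simp only [C0a_lc, ap, sub_apply, add_apply,
        smul_apply, ContinuousLinearMap.smulRight_apply,
        ContinuousLinearMap.comp_apply, ContinuousLinearMap.proj_apply,
        Pi.sub_apply, Pi.add_apply, Pi.smul_apply, smul_eq_mul] <;>
      rw [a0, a1, a2] <;> ring
  · refine (C2_lc hf.d1 hf.d2 hf.d3 (C2_proj hr.d2 0) (C2_proj hr.d2 1)
      (C2_proj hr.d2 2)).congr_fderiv ?_
    refine ContinuousLinearMap.ext fun u => C0a_ext ?_ ?_ ?_ <;>
      simp only [C0a_lc, ap, sub_apply, add_apply,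
        smul_apply, ContinuousLinearMap.smulRight_apply,
        ContinuousLinearMap.comp_apply, ContinuousLinearMap.proj_apply,
        Pi.sub_apply, Pi.add_apply, Pi.smul_apply, smul_eq_mul] <;>
      rw [b0, b1, b2] <;> ring
  · refine (C2_lc hf.d1 hf.d2 hf.d3 (C2_proj hr.d3 0) (C2_proj hr.d3 1)
      (C2_proj hr.d3 2)).congr_fderiv ?_
    refine ContinuousLinearMap.ext fun u => C0a_ext ?_ ?_ ?_ <;>
      simp only [C0a_lc, ap, sub_apply, add_apply,
        smul_apply, ContinuousLinearMap.smulRight_apply,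
        ContinuousLinearMap.comp_apply, ContinuousLinearMap.proj_apply,
        Pi.sub_apply, Pi.add_apply, Pi.smul_apply, smul_eq_mul] <;>
      rw [d0, d1, d2] <;> ring

/-- product of a constant frame and a rotating frame -/
theorem RFat.const_mul {e1 e2 e3 : V3} (he : Fr e1 e2 e3) {r1 r2 r3 : EE 7 → V3}
    {p1 p2 p3 : EE 7 →L[ℝ] ℝ} {q : EE 7} (hr : RFat r1 r2 r3 p1 p2 p3 q) :
    RFat (fun x => ap e1 e2 e3 (r1 x)) (fun x => ap e1 e2 e3 (r2 x))
      (fun x => ap e1 e2 e3 (r3 x)) p1 p2 p3 q := by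
  simpa using (RFat_const he q).mul hr

/-- columns of the rotation `Ad (1, b, c, d)` -/
noncomputable def qc1 (b c d : ℝ) : V3 :=
  (1 / (1 + b ^ 2 + c ^ 2 + d ^ 2)) •
    ![1 + b ^ 2 - c ^ 2 - d ^ 2, 2 * (b * c + d), 2 * (b * d - c)]
noncomputable def qc2 (b c d : ℝ) : V3 :=
  (1 / (1 + b ^ 2 + c ^ 2 + d ^ 2)) •
    ![2 * (b * c - d), 1 - b ^ 2 + c ^ 2 - d ^ 2, 2 * (c * d + b)]
noncomputable def qc3 (b c d : ℝ) : V3 :=
  (1 / (1 + b ^ 2 + c ^ 2 + d ^ 2)) •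
    ![2 * (b * d + c), 2 * (c * d - b), 1 - b ^ 2 - c ^ 2 + d ^ 2]

/-- general quadratic polynomial in three variables -/
noncomputable def C2q (k : Fin 10 → ℝ) (b c d : ℝ) : ℝ :=
  k 0 + k 1 * b ^ 2 + k 2 * c ^ 2 + k 3 * d ^ 2 + k 4 * (b * c) + k 5 * (b * d) + k 6 * (c * d) +
    k 7 * b + k 8 * c + k 9 * d

/-- its derivative -/
noncomputable def C2q' (k : Fin 10 → ℝ) (b c d : ℝ) (b' c' d' : EE 7 →L[ℝ] ℝ) : EE 7 →L[ℝ] ℝ :=
  (2 * k 1 * b + k 4 * c + k 5 * d + k 7) • b' + (2 * k 2 * c + k 4 * b + k 6 * d + k 8) • c' +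
    (2 * k 3 * d + k 5 * b + k 6 * c + k 9) • d'

theorem C2q_fderiv (k : Fin 10 → ℝ) {b c d : EE 7 → ℝ} {b' c' d' : EE 7 →L[ℝ] ℝ} {q : EE 7}
    (hb : HasFDerivAt b b' q) (hc : HasFDerivAt c c' q) (hd : HasFDerivAt d d' q) :
    HasFDerivAt (fun r => C2q k (b r) (c r) (d r)) (C2q' k (b q) (c q) (d q) b' c' d') q := by
  have h0 : HasFDerivAt (fun _ : EE 7 => k 0) (0 : EE 7 →L[ℝ] ℝ) q := hasFDerivAt_const _ q
  have h := ((((((((h0.add ((hb.pow 2).const_mul (k 1))).add ((hc.pow 2).const_mul (k 2))).add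
    ((hd.pow 2).const_mul (k 3))).add ((hb.mul hc).const_mul (k 4))).add
    ((hb.mul hd).const_mul (k 5))).add ((hc.mul hd).const_mul (k 6))).add
    (hb.const_mul (k 7))).add (hc.const_mul (k 8))).add (hd.const_mul (k 9))
  refine h.congr_fderiv ?_
  ext u
  simp only [C2q', add_apply, smul_apply, smul_eq_mul, zero_apply, nsmul_eq_mul, Nat.cast_ofNat,
    pow_one]
  norm_num
  ring

theorem C2_quot {N p : EE 7 → ℝ} {N' p' L : EE 7 →L[ℝ] ℝ} {q : EE 7} (hN : HasFDerivAt N N' q)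
    (hp : HasFDerivAt p p' q) (h0 : N q ≠ 0)
    (hL : ∀ u, L u * N q ^ 2 = p' u * N q - p q * N' u) :
    HasFDerivAt (fun r => (1 / N r) * p r) L q := by
  have h1 : HasFDerivAt (fun r => (N r)⁻¹) (-(N q ^ 2)⁻¹ • N') q :=
    (hasDerivAt_inv h0).comp_hasFDerivAt q hN
  have h2 := (h1.mul hp).congr_fderiv (g' := L) (by
    ext u
    have h3 := hL u
    simp only [add_apply, smul_apply, smul_eq_mul]
    field_simp
    linarith)
  refine h2.congr_of_eventuallyEq (Eventually.of_forall fun r => ?_)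
  simp only [one_div]
  rfl

theorem C2_col {b c d : EE 7 → ℝ} {b' c' d' : EE 7 →L[ℝ] ℝ} {q : EE 7}
    (hb : HasFDerivAt b b' q) (hc : HasFDerivAt c c' q) (hd : HasFDerivAt d d' q)
    (K : Fin 3 → Fin 10 → ℝ) (L : EE 7 →L[ℝ] V3) (F : ℝ → ℝ → ℝ → V3)
    (hF : ∀ b c d i, F b c d i = (1 / (1 + b ^ 2 + c ^ 2 + d ^ 2)) * C2q (K i) b c d)
    (hL : ∀ i u, L u i * (1 + b q ^ 2 + c q ^ 2 + d q ^ 2) ^ 2 =
      C2q' (K i) (b q) (c q) (d q) b' c' d' u * (1 + b q ^ 2 + c q ^ 2 + d q ^ 2) -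
      C2q (K i) (b q) (c q) (d q) * (2 * b q * b' u + 2 * c q * c' u + 2 * d q * d' u)) :
    HasFDerivAt (fun r => F (b r) (c r) (d r)) L q := by
  rw [hasFDerivAt_pi']
  intro i
  have hN0 := C2q_fderiv ![1, 1, 1, 1, 0, 0, 0, 0, 0, 0] hb hc hd
  have hN : HasFDerivAt (fun r => 1 + b r ^ 2 + c r ^ 2 + d r ^ 2)
      (C2q' ![1, 1, 1, 1, 0, 0, 0, 0, 0, 0] (b q) (c q) (d q) b' c' d') q := by
    refine hN0.congr_of_eventuallyEq (Eventually.of_forall fun r => ?_)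
    simp [C2q]
  have h1 := C2_quot (L := (ContinuousLinearMap.proj (R := ℝ) (φ := fun _ : Fin 3 => ℝ) i).comp L)
    hN (C2q_fderiv (K i) hb hc hd) (by positivity) (fun u => by
      have h2 := hL i u
      simp only [ContinuousLinearMap.comp_apply, ContinuousLinearMap.proj_apply]
      rw [h2]
      have h3 : C2q' ![1, 1, 1, 1, 0, 0, 0, 0, 0, 0] (b q) (c q) (d q) b' c' d' u =
          2 * b q * b' u + 2 * c q * c' u + 2 * d q * d' u := by
        simp [C2q']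
      rw [h3])
  refine h1.congr_of_eventuallyEq (Eventually.of_forall fun r => ?_)
  exact hF _ _ _ _

theorem C2_qfr (b c d : ℝ) : Fr (qc1 b c d) (qc2 b c d) (qc3 b c d) := by
  have hN : (1 + b ^ 2 + c ^ 2 + d ^ 2) ≠ 0 := by positivity
  refine ⟨?_, ?_, ?_, ?_, ?_, ?_, ?_, ?_, ?_⟩
  · simp [dot, qc1]; field_simp; ring
  · simp [dot, qc2]; field_simp; ring
  · simp [dot, qc3]; field_simp; ring
  · simp [dot, qc1, qc2]; field_simp; ring
  · simp [dot, qc1, qc3]; field_simp; ring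
  · simp [dot, qc2, qc3]; field_simp; ring
  · refine C0a_ext ?_ ?_ ?_
    · rw [C0a_crs0]; simp [qc1, qc2, qc3]; field_simp; ring
    · rw [C0a_crs1]; simp [qc1, qc2, qc3]; field_simp; ring
    · rw [C0a_crs2]; simp [qc1, qc2, qc3]; field_simp; ring
  · refine C0a_ext ?_ ?_ ?_
    · rw [C0a_crs0]; simp [qc1, qc2, qc3]; field_simp; ring
    · rw [C0a_crs1]; simp [qc1, qc2, qc3]; field_simp; ring
    · rw [C0a_crs2]; simp [qc1, qc2, qc3]; field_simp; ring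
  · refine C0a_ext ?_ ?_ ?_
    · rw [C0a_crs0]; simp [qc1, qc2, qc3]; field_simp; ring
    · rw [C0a_crs1]; simp [qc1, qc2, qc3]; field_simp; ring
    · rw [C0a_crs2]; simp [qc1, qc2, qc3]; field_simp; ring

/-- `Ω = 2 (dq - q × dq) / (1 + |q|^2)` for `q = (b, c, d)` (numerically checked) -/
theorem RFat_quat {b c d : EE 7 → ℝ} {b' c' d' : EE 7 →L[ℝ] ℝ} {q : EE 7}
    (hb : HasFDerivAt b b' q) (hc : HasFDerivAt c c' q) (hd : HasFDerivAt d d' q) :
    RFat (fun r => qc1 (b r) (c r) (d r)) (fun r => qc2 (b r) (c r) (d r))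
      (fun r => qc3 (b r) (c r) (d r))
      ((2 / (1 + b q ^ 2 + c q ^ 2 + d q ^ 2)) • (b' - (c q • d' - d q • c')))
      ((2 / (1 + b q ^ 2 + c q ^ 2 + d q ^ 2)) • (c' - (d q • b' - b q • d')))
      ((2 / (1 + b q ^ 2 + c q ^ 2 + d q ^ 2)) • (d' - (b q • c' - c q • b'))) q := by
  have hN : (1 + b q ^ 2 + c q ^ 2 + d q ^ 2) ≠ 0 := by positivity
  refine ⟨C2_qfr _ _ _, ?_, ?_, ?_⟩
  · refine C2_col hb hc hd ![![1, 1, -1, -1, 0, 0, 0, 0, 0, 0], ![0, 0, 0, 0, 2, 0, 0, 0, 0, 2],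
      ![0, 0, 0, 0, 0, 2, 0, 0, -2, 0]] _ qc1 ?_ ?_
    · intro b c d i
      fin_cases i <;> simp [qc1, C2q, -mul_eq_mul_left_iff] <;> ring
    · intro i u
      fin_cases i <;>
        simp [qc2, qc3, C2q, C2q', sub_apply, ContinuousLinearMap.smulRight_apply] <;>
        field_simp <;> ring
  · refine C2_col hb hc hd ![![0, 0, 0, 0, 2, 0, 0, 0, 0, -2], ![1, -1, 1, -1, 0, 0, 0, 0, 0, 0],
      ![0, 0, 0, 0, 0, 0, 2, 2, 0, 0]] _ qc2 ?_ ?_
    · intro b c d i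
      fin_cases i <;> simp [qc2, C2q, -mul_eq_mul_left_iff] <;> ring
    · intro i u
      fin_cases i <;>
        simp [qc1, qc3, C2q, C2q', sub_apply, ContinuousLinearMap.smulRight_apply] <;>
        field_simp <;> ring
  · refine C2_col hb hc hd ![![0, 0, 0, 0, 0, 2, 0, 0, 2, 0], ![0, 0, 0, 0, 0, 0, 2, -2, 0, 0],
      ![1, -1, -1, 1, 0, 0, 0, 0, 0, 0]] _ qc3 ?_ ?_
    · intro b c d i
      fin_cases i <;> simp [qc3, C2q, -mul_eq_mul_left_iff] <;> ring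
    · intro i u
      fin_cases i <;>
        simp [qc1, qc2, C2q, C2q', sub_apply, ContinuousLinearMap.smulRight_apply] <;>
        field_simp <;> ring

/-- columns of the rotation `R3 (K X2) R2 (β)`, `cos β = U / a`, `sin β = v / a` at `X1` -/
noncomputable def rc1 (k : ℕ) (X1 X2 : ℝ) : V3 :=
  ![cos (KK k * X2) * (Uf X1 / auf k X1), sin (KK k * X2) * (Uf X1 / auf k X1),
    -(vf k X1 / auf k X1)]
noncomputable def rc2 (k : ℕ) (_X1 X2 : ℝ) : V3 := ![-sin (KK k * X2), cos (KK k * X2), 0]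
noncomputable def rc3 (k : ℕ) (X1 X2 : ℝ) : V3 :=
  ![cos (KK k * X2) * (vf k X1 / auf k X1), sin (KK k * X2) * (vf k X1 / auf k X1),
    Uf X1 / auf k X1]

theorem C2_UV (k : ℕ) (x : ℝ) : (Uf x / auf k x) ^ 2 + (vf k x / auf k x) ^ 2 = 1 := by
  have h := auf_sq k x
  have h0 := (auf_pos k x).ne'
  rw [div_pow, div_pow, ← add_div, ← h, div_self (pow_ne_zero 2 h0)]

theorem C2_dU (k : ℕ) (x : ℝ) : HasDerivAt (fun y => Uf y / auf k y)
    (-(2 * (prof k).b2 x * (vf k x / auf k x))) x := by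
  have ha := (auf_pos k x).ne'
  refine ((B3_hd Uf_smooth x).div (B3_hd (auf_smooth k) x) ha).congr_deriv ?_
  have haa := B3_aa k x
  have hsq := auf_sq k x
  show _ = -(2 * ((deriv (vf k) x * Uf x - vf k x * deriv Uf x) / (2 * auf k x ^ 2)) *
    (vf k x / auf k x))
  rw [div_eq_iff (pow_ne_zero 2 ha)]
  rw [show -(2 * ((deriv (vf k) x * Uf x - vf k x * deriv Uf x) / (2 * auf k x ^ 2)) *
    (vf k x / auf k x)) * auf k x ^ 2 =
    -((deriv (vf k) x * Uf x - vf k x * deriv Uf x) * vf k x) / auf k x by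
      field_simp]
  rw [eq_div_iff ha]
  linear_combination deriv Uf x * hsq - Uf x * haa

theorem C2_dv (k : ℕ) (x : ℝ) : HasDerivAt (fun y => vf k y / auf k y)
    (2 * (prof k).b2 x * (Uf x / auf k x)) x := by
  have ha := (auf_pos k x).ne'
  refine ((B3_hd (vf_smooth k) x).div (B3_hd (auf_smooth k) x) ha).congr_deriv ?_
  have haa := B3_aa k x
  have hsq := auf_sq k x
  show _ = (2 * ((deriv (vf k) x * Uf x - vf k x * deriv Uf x) / (2 * auf k x ^ 2)) *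
    (Uf x / auf k x))
  rw [div_eq_iff (pow_ne_zero 2 ha)]
  rw [show (2 * ((deriv (vf k) x * Uf x - vf k x * deriv Uf x) / (2 * auf k x ^ 2)) *
    (Uf x / auf k x)) * auf k x ^ 2 =
    ((deriv (vf k) x * Uf x - vf k x * deriv Uf x) * Uf x) / auf k x by
      field_simp]
  rw [eq_div_iff ha]
  linear_combination deriv (vf k) x * hsq - vf k x * haa

/-- `(U/a)^2 + (v/a)^2 = 1`, `(U/a)' = -2 b2 (v/a)`, `(v/a)' = 2 b2 (U/a)`; the body angular velocity is
`(-K X2' sin β, 2 b2 X1', K X2' cos β)` (numerically checked). -/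
theorem RFat_R (k : ℕ) {X1 X2 : EE 7 → ℝ} {X1' X2' : EE 7 →L[ℝ] ℝ} {q : EE 7}
    (h1 : HasFDerivAt X1 X1' q) (h2 : HasFDerivAt X2 X2' q) :
    RFat (fun r => rc1 k (X1 r) (X2 r)) (fun r => rc2 k (X1 r) (X2 r))
      (fun r => rc3 k (X1 r) (X2 r))
      ((2 * (prof k).b1 (X1 q)) • X2') ((2 * (prof k).b2 (X1 q)) • X1')
      ((2 * (prof k).b3 (X1 q)) • X2') q := by
  have hUV := C2_UV k (X1 q)
  have hb1 : 2 * (prof k).b1 (X1 q) = -(KK k * (vf k (X1 q) / auf k (X1 q))) := by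
    show 2 * (-(KK k / 2) * vf k (X1 q) / auf k (X1 q)) = _
    ring
  have hb3 : 2 * (prof k).b3 (X1 q) = KK k * (Uf (X1 q) / auf k (X1 q)) := by
    show 2 * (KK k / 2 * Uf (X1 q) / auf k (X1 q)) = _
    ring
  have dU : HasFDerivAt (fun r => Uf (X1 r) / auf k (X1 r)) _ q :=
    (C2_dU k (X1 q)).comp_hasFDerivAt q h1
  have dv : HasFDerivAt (fun r => vf k (X1 r) / auf k (X1 r)) _ q :=
    (C2_dv k (X1 q)).comp_hasFDerivAt q h1
  have dK : HasFDerivAt (fun r => KK k * X2 r) (KK k • X2') q := h2.const_mul (KK k)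
  have dc : HasFDerivAt (fun r => cos (KK k * X2 r)) _ q := dK.cos
  have ds' : HasFDerivAt (fun r => sin (KK k * X2 r)) _ q := dK.sin
  have hcs := Real.sin_sq_add_cos_sq (KK k * X2 q)
  rw [hb1, hb3]
  set U := Uf (X1 q) / auf k (X1 q) with hU
  set v := vf k (X1 q) / auf k (X1 q) with hv
  set C := cos (KK k * X2 q) with hC
  set S := sin (KK k * X2 q) with hS
  have e1 : rc1 k (X1 q) (X2 q) = ![C * U, S * U, -v] := rfl
  have e2 : rc2 k (X1 q) (X2 q) = ![-S, C, 0] := rfl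
  have e3 : rc3 k (X1 q) (X2 q) = ![C * v, S * v, U] := rfl
  refine ⟨?_, ?_, ?_, ?_⟩
  · show Fr (rc1 k (X1 q) (X2 q)) (rc2 k (X1 q) (X2 q)) (rc3 k (X1 q) (X2 q))
    rw [e1, e2, e3]
    refine ⟨?_, ?_, ?_, ?_, ?_, ?_, ?_, ?_, ?_⟩
    · simp [dot]; linear_combination U ^ 2 * hcs + hUV
    · simp [dot]; linear_combination hcs
    · simp [dot]; linear_combination v ^ 2 * hcs + hUV
    · simp [dot]; ring
    · simp [dot]; linear_combination U * v * hcs
    · simp [dot]; ring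
    · refine C0a_ext ?_ ?_ ?_
      · rw [C0a_crs0]; simp; ring
      · rw [C0a_crs1]; simp; ring
      · rw [C0a_crs2]; simp; linear_combination U * hcs
    · refine C0a_ext ?_ ?_ ?_
      · rw [C0a_crs0]; simp
      · rw [C0a_crs1]; simp
      · rw [C0a_crs2]; simp; linear_combination (-v) * hcs
    · refine C0a_ext ?_ ?_ ?_
      · rw [C0a_crs0]; simp; linear_combination (-S) * hUV
      · rw [C0a_crs1]; simp; linear_combination C * hUV
      · rw [C0a_crs2]; simp; ring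
  · rw [hasFDerivAt_pi']
    intro i
    fin_cases i
    · refine (dc.mul dU).congr_fderiv ?_
      ext u
      simp [e2, e3, add_apply, sub_apply, smul_apply]
      ring
    · refine (ds'.mul dU).congr_fderiv ?_
      ext u
      simp [e2, e3, add_apply, sub_apply, smul_apply]
      ring
    · refine dv.neg.congr_fderiv ?_
      ext u
      simp [e2, e3, add_apply, sub_apply, smul_apply]
      ring
  · rw [hasFDerivAt_pi']
    intro i
    fin_cases i
    · refine ds'.neg.congr_fderiv ?_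
      ext u
      simp [e1, e3, add_apply, sub_apply, smul_apply]
      linear_combination (C * KK k * X2' u) * hUV
    · refine dc.congr_fderiv ?_
      ext u
      simp [e1, e3, add_apply, sub_apply, smul_apply]
      linear_combination (S * KK k * X2' u) * hUV
    · refine (hasFDerivAt_const (0 : ℝ) q).congr_fderiv ?_
      ext u
      simp [e1, e3, add_apply, sub_apply, smul_apply]
      ring
  · rw [hasFDerivAt_pi']
    intro i
    fin_cases i
    · refine (dc.mul dv).congr_fderiv ?_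
      ext u
      simp [e1, e2, add_apply, sub_apply, smul_apply]
      ring
    · refine (ds'.mul dv).congr_fderiv ?_
      ext u
      simp [e1, e2, add_apply, sub_apply, smul_apply]
      ring
    · refine dU.congr_fderiv ?_
      ext u
      simp [e1, e2, add_apply, sub_apply, smul_apply]
      ring

end H31R
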