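import Pool.Agent.Lib.H31R.C3a

/-!
# H31R, chunk C3: the metrics `gc`, `go` in the core chart
-/

open scoped ContDiff Topology
open Real Filter

namespace H31R

/-- the frame of the core chart -/
theorem C3_fr {e1 e2 e3 : V3} (he : Fr e1 e2 e3) (b c d : ℝ) :
    Fr (ap e1 e2 e3 (qc1 b c d)) (ap e1 e2 e3 (qc2 b c d)) (ap e1 e2 e3 (qc3 b c d)) :=
  ((RFat_const (C2_qfr b c d) (0 : EE 7)).const_mul he).fr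

theorem C3_norm {lam sg : ℝ} (hsg : sg ^ 2 = 1) {ξ : EE 7}
    (hξ : lam ^ 4 * (ξ 5 ^ 2 + ξ 6 ^ 2) ≤ 1) :
    (lam ^ 2 * ξ 5) ^ 2 + (lam ^ 2 * ξ 6) ^ 2 +
      (sg * √(1 - lam ^ 4 * (ξ 5 ^ 2 + ξ 6 ^ 2))) ^ 2 = 1 := by
  rw [mul_pow sg, hsg, Real.sq_sqrt (by linarith)]
  ring

theorem C3_cA1 (lam b3 l2 e2 d1 o3 : ℝ) :
    cA1 b3 (lam ^ 2 * l2) e2 (lam ^ 2 * d1) o3 = lam ^ 2 * cA1 b3 l2 e2 d1 o3 := by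
  unfold cA1; ring

theorem C3_cA2 (lam b3 l1 e2 d2 o3 : ℝ) :
    cA2 b3 (lam ^ 2 * l1) e2 (lam ^ 2 * d2) o3 = lam ^ 2 * cA2 b3 l1 e2 d2 o3 := by
  unfold cA2; ring

theorem C3_cB1 {lam R : ℝ} (hlam : lam ≠ 0) (hR : R ≠ 0) (b1 b2 l1 l2 e1 e2 o1 : ℝ) :
    cB1 b1 b2 (lam ^ 2 * R) (lam ^ 2 * l1) (lam ^ 2 * l2) e1 e2 o1 =
      cB1 b1 b2 R l1 l2 e1 e2 o1 := by
  unfold cB1; field_simp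

theorem C3_cB2 {lam R : ℝ} (hlam : lam ≠ 0) (hR : R ≠ 0) (b1 b2 l1 l2 e1 e2 o2 : ℝ) :
    cB2 b1 b2 (lam ^ 2 * R) (lam ^ 2 * l1) (lam ^ 2 * l2) e1 e2 o2 =
      cB2 b1 b2 R l1 l2 e1 e2 o2 := by
  unfold cB2; field_simp

/-- The core metric in the core chart (`gc_frame`, `gcz_scale`; `a = lam^2 eta P.a`, because
`lam^2 eta = ε^3`). -/
theorem PSI_gc (P : Prof) {e1 e2 e3 : V3} (he : Fr e1 e2 e3) {x c2 c3 lam eta ε sg : ℝ}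
    (hlam : 0 < lam) (heta : lam ^ 2 * eta = ε ^ 3) (hsg : sg ^ 2 = 1) {ξ : EE 7}
    (ha : 0 ≤ eta * P.a (x + lam * ξ 0)) (hS : 0 < SS P lam eta x ξ)
    (hξ : lam ^ 4 * (ξ 5 ^ 2 + ξ 6 ^ 2) < 1) (u v : EE 7) :
    gc P ε (PSI e1 e2 e3 x c2 c3 lam sg ξ) (fderiv ℝ (PSI e1 e2 e3 x c2 c3 lam sg) ξ u)
      (fderiv ℝ (PSI e1 e2 e3 x c2 c3 lam sg) ξ v) = lam ^ 2 * gh P lam eta x ξ u v := by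
  obtain ⟨dh1, ht1, hu⟩ := PSI_fderiv he x c2 c3 lam hsg hξ u
  obtain ⟨dh2, ht2, hv⟩ := PSI_fderiv he x c2 c3 lam hsg hξ v
  have hfr := C3_fr he (ξ 3) (ξ 4) 0
  have hn := C3_norm (lam := lam) hsg hξ.le
  have hSS : 0 < √(SS P lam eta x ξ) := Real.sqrt_pos.mpr hS
  have hR : lam ^ 2 * √(SS P lam eta x ξ) = √((ε ^ 3 * P.a (x + lam * ξ 0)) ^ 2 +
      ((lam ^ 2 * ξ 5) ^ 2 + (lam ^ 2 * ξ 6) ^ 2)) := by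
    rw [← heta]
    have h1 : (lam ^ 2 * eta * P.a (x + lam * ξ 0)) ^ 2 +
        ((lam ^ 2 * ξ 5) ^ 2 + (lam ^ 2 * ξ 6) ^ 2) = (lam ^ 2) ^ 2 * SS P lam eta x ξ := by
      unfold SS; ring
    rw [h1, Real.sqrt_mul (by positivity), Real.sqrt_sq (by positivity)]
  rw [hu, hv]
  have h := gc_frame P ε hfr (X1 := x + lam * ξ 0) (X2 := c2 + lam * ξ 1)
    (X3 := c3 + lam * ξ 2) hn hR (lam * u 0) (lam * u 1) (lam * u 2)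
    (lam ^ 2 * u 5) (lam ^ 2 * u 6) dh1 (zo1 ξ u) (zo2 ξ u) (zo3 ξ u) ht1
    (lam * v 0) (lam * v 1) (lam * v 2)
    (lam ^ 2 * v 5) (lam ^ 2 * v 6) dh2 (zo1 ξ v) (zo2 ξ v) (zo3 ξ v) ht2
  have hP : PSI e1 e2 e3 x c2 c3 lam sg ξ = pfr (ap e1 e2 e3 (qc1 (ξ 3) (ξ 4) 0))
    (ap e1 e2 e3 (qc2 (ξ 3) (ξ 4) 0))
    (ap e1 e2 e3 (qc3 (ξ 3) (ξ 4) 0)) (x + lam * ξ 0) (c2 + lam * ξ 1) (c3 + lam * ξ 2)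
    (lam ^ 2 * ξ 5) (lam ^ 2 * ξ 6) (sg * √(1 - lam ^ 4 * (ξ 5 ^ 2 + ξ 6 ^ 2))) := rfl
  rw [hP, h]
  rw [C3_cA1, C3_cA1, C3_cA2, C3_cA2, C3_cB1 hlam.ne' hSS.ne', C3_cB1 hlam.ne' hSS.ne',
    C3_cB2 hlam.ne' hSS.ne', C3_cB2 hlam.ne' hSS.ne', ← heta]
  unfold gh
  rw [← gcz_scale hlam hSS ha]
  congr 1 <;> ring

theorem C3_psi {h : ℝ} (hh : 1 / 4 ≤ h ^ 2) : psi h = 0 := by
  unfold psi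
  exact Real.smoothTransition.zero_of_nonpos (by linarith)

/-- The outer metric in the core chart (`go_frame`; `psi h = 0` because `h^2 ≥ 1/4`). -/
theorem PSI_go (P : Prof) {e1 e2 e3 : V3} (he : Fr e1 e2 e3) {x c2 c3 lam sg : ℝ}
    (hlam : 0 < lam) (hsg : sg ^ 2 = 1) {ξ : EE 7} (hS : 0 < ξ 5 ^ 2 + ξ 6 ^ 2)
    (hξ : lam ^ 4 * (ξ 5 ^ 2 + ξ 6 ^ 2) ≤ 3 / 4) (u v : EE 7) :
    go P (PSI e1 e2 e3 x c2 c3 lam sg ξ) (fderiv ℝ (PSI e1 e2 e3 x c2 c3 lam sg) ξ u)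
      (fderiv ℝ (PSI e1 e2 e3 x c2 c3 lam sg) ξ v) = lam ^ 2 * gh P lam 0 x ξ u v := by
  have hξ1 : lam ^ 4 * (ξ 5 ^ 2 + ξ 6 ^ 2) < 1 := by linarith
  obtain ⟨dh1, ht1, hu⟩ := PSI_fderiv he x c2 c3 lam hsg hξ1 u
  obtain ⟨dh2, ht2, hv⟩ := PSI_fderiv he x c2 c3 lam hsg hξ1 v
  have hfr := C3_fr he (ξ 3) (ξ 4) 0
  have hn := C3_norm (lam := lam) hsg hξ1.le
  have hSS : SS P lam 0 x ξ = ξ 5 ^ 2 + ξ 6 ^ 2 := by unfold SS; ring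
  have hS0 : 0 < √(ξ 5 ^ 2 + ξ 6 ^ 2) := Real.sqrt_pos.mpr hS
  have hR : lam ^ 2 * √(ξ 5 ^ 2 + ξ 6 ^ 2) = √((lam ^ 2 * ξ 5) ^ 2 + (lam ^ 2 * ξ 6) ^ 2) := by
    have h1 : (lam ^ 2 * ξ 5) ^ 2 + (lam ^ 2 * ξ 6) ^ 2 = (lam ^ 2) ^ 2 * (ξ 5 ^ 2 + ξ 6 ^ 2) := by
      ring
    rw [h1, Real.sqrt_mul (by positivity), Real.sqrt_sq (by positivity)]
  have hR0 : 0 < lam ^ 2 * √(ξ 5 ^ 2 + ξ 6 ^ 2) := by positivity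
  have hpsi : psi (sg * √(1 - lam ^ 4 * (ξ 5 ^ 2 + ξ 6 ^ 2))) = 0 := by
    apply C3_psi
    rw [mul_pow, hsg, Real.sq_sqrt (by linarith)]
    linarith
  rw [hu, hv]
  have h := go_frame P hfr (X1 := x + lam * ξ 0) (X2 := c2 + lam * ξ 1)
    (X3 := c3 + lam * ξ 2) hn hR hR0 (lam * u 0) (lam * u 1) (lam * u 2)
    (lam ^ 2 * u 5) (lam ^ 2 * u 6) dh1 (zo1 ξ u) (zo2 ξ u) (zo3 ξ u) ht1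
    (lam * v 0) (lam * v 1) (lam * v 2)
    (lam ^ 2 * v 5) (lam ^ 2 * v 6) dh2 (zo1 ξ v) (zo2 ξ v) (zo3 ξ v) ht2
  have hP : PSI e1 e2 e3 x c2 c3 lam sg ξ = pfr (ap e1 e2 e3 (qc1 (ξ 3) (ξ 4) 0))
    (ap e1 e2 e3 (qc2 (ξ 3) (ξ 4) 0))
    (ap e1 e2 e3 (qc3 (ξ 3) (ξ 4) 0)) (x + lam * ξ 0) (c2 + lam * ξ 1) (c3 + lam * ξ 2)
    (lam ^ 2 * ξ 5) (lam ^ 2 * ξ 6) (sg * √(1 - lam ^ 4 * (ξ 5 ^ 2 + ξ 6 ^ 2))) := rfl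
  rw [hP, h, hpsi]
  rw [C3_cA1, C3_cA1, C3_cA2, C3_cA2, C3_cB1 hlam.ne' hS0.ne', C3_cB1 hlam.ne' hS0.ne',
    C3_cB2 hlam.ne' hS0.ne', C3_cB2 hlam.ne' hS0.ne']
  unfold gh
  rw [hSS]
  set R := √(ξ 5 ^ 2 + ξ 6 ^ 2) with hRdef
  set A1 := cA1 (P.b3 (x + lam * ξ 0)) (ξ 6) (lam * u 1) (u 5) (zo3 ξ u)
  set A2 := cA2 (P.b3 (x + lam * ξ 0)) (ξ 5) (lam * u 1) (u 6) (zo3 ξ u)
  set B1 := cB1 (P.b1 (x + lam * ξ 0)) (P.b2 (x + lam * ξ 0)) R (ξ 5) (ξ 6)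
      (lam * u 0) (lam * u 1) (zo1 ξ u)
  set B2 := cB2 (P.b1 (x + lam * ξ 0)) (P.b2 (x + lam * ξ 0)) R (ξ 5) (ξ 6)
      (lam * u 0) (lam * u 1) (zo2 ξ u)
  set A1' := cA1 (P.b3 (x + lam * ξ 0)) (ξ 6) (lam * v 1) (v 5) (zo3 ξ v)
  set A2' := cA2 (P.b3 (x + lam * ξ 0)) (ξ 5) (lam * v 1) (v 6) (zo3 ξ v)
  set B1' := cB1 (P.b1 (x + lam * ξ 0)) (P.b2 (x + lam * ξ 0)) R (ξ 5) (ξ 6)
      (lam * v 0) (lam * v 1) (zo1 ξ v)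
  set B2' := cB2 (P.b1 (x + lam * ξ 0)) (P.b2 (x + lam * ξ 0)) R (ξ 5) (ξ 6)
      (lam * v 0) (lam * v 1) (zo2 ξ v)
  have hl := hlam.ne'
  have hR' := hS0.ne'
  simp only [gcz, zero_mul, mul_zero, ne_eq, OfNat.ofNat_ne_zero, not_false_eq_true, zero_pow,
    zero_div, add_zero, sub_zero, sub_self]
  field_simp
  try ring

/-- `|l|^2` in the core chart -/
theorem PSI_lv {e1 e2 e3 : V3} (he : Fr e1 e2 e3) {x c2 c3 lam sg : ℝ}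
    (hsg : sg ^ 2 = 1) {ξ : EE 7} (hξ : lam ^ 4 * (ξ 5 ^ 2 + ξ 6 ^ 2) ≤ 1) :
    PSI e1 e2 e3 x c2 c3 lam sg ξ ∈ OM ∧
    dot (lv (PSI e1 e2 e3 x c2 c3 lam sg ξ)) (lv (PSI e1 e2 e3 x c2 c3 lam sg ξ)) =
      lam ^ 4 * (ξ 5 ^ 2 + ξ 6 ^ 2) ∧
    hh (PSI e1 e2 e3 x c2 c3 lam sg ξ) = sg * √(1 - lam ^ 4 * (ξ 5 ^ 2 + ξ 6 ^ 2)) ∧
    x1 (PSI e1 e2 e3 x c2 c3 lam sg ξ) = x + lam * ξ 0 := by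
  have hfr := C3_fr he (ξ 3) (ξ 4) 0
  have hn := C3_norm (lam := lam) hsg hξ
  obtain ⟨h1, h2, -, h3, h4, -⟩ := frame_ingr hfr (X1 := x + lam * ξ 0) (X2 := c2 + lam * ξ 1)
    (X3 := c3 + lam * ξ 2) hn 0 0 0 0 0 0 0 0 0 (by ring)
  refine ⟨h1, ?_, h3, h2⟩
  have hP : PSI e1 e2 e3 x c2 c3 lam sg ξ = PT (x + lam * ξ 0) (c2 + lam * ξ 1) (c3 + lam * ξ 2)
    (ap e1 e2 e3 (qc3 (ξ 3) (ξ 4) 0)) (lc (ap e1 e2 e3 (qc1 (ξ 3) (ξ 4) 0))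
    (ap e1 e2 e3 (qc2 (ξ 3) (ξ 4) 0)) (ap e1 e2 e3 (qc3 (ξ 3) (ξ 4) 0))
    (lam ^ 2 * ξ 5) (lam ^ 2 * ξ 6) (sg * √(1 - lam ^ 4 * (ξ 5 ^ 2 + ξ 6 ^ 2)))) := rfl
  rw [hP, h4, dot_lc hfr]
  ring

/-- the base point `(0, 0, 0, 0, 0, t, 0)` -/
noncomputable def xi0 (t : ℝ) : EE 7 := EuclideanSpace.single 5 t

theorem PSI_xi0 (e1 e2 e3 : V3) (x c2 c3 lam sg t : ℝ) :
    PSI e1 e2 e3 x c2 c3 lam sg (xi0 t) =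
      pfr e1 e2 e3 x c2 c3 (lam ^ 2 * t) 0 (sg * √(1 - lam ^ 4 * t ^ 2)) := by
  have h0 : xi0 t 0 = 0 := by simp [xi0]
  have h1 : xi0 t 1 = 0 := by simp [xi0]
  have h2 : xi0 t 2 = 0 := by simp [xi0]
  have h3 : xi0 t 3 = 0 := by simp [xi0]
  have h4 : xi0 t 4 = 0 := by simp [xi0]
  have h5 : xi0 t 5 = t := by simp [xi0]
  have h6 : xi0 t 6 = 0 := by simp [xi0]
  unfold PSI
  rw [h0, h1, h2, h3, h4, h5, h6]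
  have k1 : ap e1 e2 e3 (qc1 0 0 0) = e1 := by
    simp [ap, lc, qc1]
  have k2 : ap e1 e2 e3 (qc2 0 0 0) = e2 := by
    simp [ap, lc, qc2]
  have k3 : ap e1 e2 e3 (qc3 0 0 0) = e3 := by
    simp [ap, lc, qc3]
  rw [k1, k2, k3]
  congr 1 <;> ring_nf

end H31R
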