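import Pool.Agent.Lib.H31R.C2

/-!
# H31R, chunk C3a: the core chart `PSI` and the rescaled metric `gh`
Coordinates `ξ = (y1, y2, y3, z1, z2, l1, l2)` (indices `0, .., 6`).
-/

open scoped ContDiff Topology
open Real Filter

namespace H31R

/-- the core chart (frame `E q(z)`, `E` the constant frame `e1, e2, e3`) -/
noncomputable def PSI (e1 e2 e3 : V3) (x c2 c3 lam sg : ℝ) (ξ : EE 7) : EE 7 :=
  pfr (ap e1 e2 e3 (qc1 (ξ 3) (ξ 4) 0)) (ap e1 e2 e3 (qc2 (ξ 3) (ξ 4) 0))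
    (ap e1 e2 e3 (qc3 (ξ 3) (ξ 4) 0)) (x + lam * ξ 0) (c2 + lam * ξ 1) (c3 + lam * ξ 2)
    (lam ^ 2 * ξ 5) (lam ^ 2 * ξ 6) (sg * √(1 - lam ^ 4 * (ξ 5 ^ 2 + ξ 6 ^ 2)))

/-- `N = 1 + z1^2 + z2^2` -/
noncomputable def zN (ξ : EE 7) : ℝ := 1 + ξ 3 ^ 2 + ξ 4 ^ 2
/-- body angular velocity of `q(z)` -/
noncomputable def zo1 (ξ u : EE 7) : ℝ := 2 * u 3 / zN ξ
noncomputable def zo2 (ξ u : EE 7) : ℝ := 2 * u 4 / zN ξ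
noncomputable def zo3 (ξ u : EE 7) : ℝ := 2 * (ξ 4 * u 3 - ξ 3 * u 4) / zN ξ

/-- `R^2 = a^2 + |l|^2` in rescaled coordinates -/
noncomputable def SS (P : Prof) (lam eta x : ℝ) (ξ : EE 7) : ℝ :=
  (eta * P.a (x + lam * ξ 0)) ^ 2 + (ξ 5 ^ 2 + ξ 6 ^ 2)

/-- the rescaled core metric -/
noncomputable def gh (P : Prof) (lam eta x : ℝ) (ξ u v : EE 7) : ℝ :=
  gcz (lam ^ 2 * (2 * (eta * P.a (x + lam * ξ 0)) * P.b2 (x + lam * ξ 0)) ^ 2)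
    (lam ^ 2 * (2 * (eta * P.a (x + lam * ξ 0)) * P.b1 (x + lam * ξ 0)) ^ 2)
    (lam ^ 2 * (eta * deriv P.a (x + lam * ξ 0)) ^ 2)
    (lam ^ 2 * (2 * (eta * P.a (x + lam * ξ 0)) * P.b2 (x + lam * ξ 0) *
      (eta * deriv P.a (x + lam * ξ 0))))
    (eta * P.a (x + lam * ξ 0)) (√(SS P lam eta x ξ)) (ξ 5) (ξ 6)
    (u 0) (u 1) (u 2)
    (cA1 (P.b3 (x + lam * ξ 0)) (ξ 6) (lam * u 1) (u 5) (zo3 ξ u))
    (cA2 (P.b3 (x + lam * ξ 0)) (ξ 5) (lam * u 1) (u 6) (zo3 ξ u))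
    (cB1 (P.b1 (x + lam * ξ 0)) (P.b2 (x + lam * ξ 0)) (√(SS P lam eta x ξ)) (ξ 5) (ξ 6)
      (lam * u 0) (lam * u 1) (zo1 ξ u))
    (cB2 (P.b1 (x + lam * ξ 0)) (P.b2 (x + lam * ξ 0)) (√(SS P lam eta x ξ)) (ξ 5) (ξ 6)
      (lam * u 0) (lam * u 1) (zo2 ξ u))
    (v 0) (v 1) (v 2)
    (cA1 (P.b3 (x + lam * ξ 0)) (ξ 6) (lam * v 1) (v 5) (zo3 ξ v))
    (cA2 (P.b3 (x + lam * ξ 0)) (ξ 5) (lam * v 1) (v 6) (zo3 ξ v))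
    (cB1 (P.b1 (x + lam * ξ 0)) (P.b2 (x + lam * ξ 0)) (√(SS P lam eta x ξ)) (ξ 5) (ξ 6)
      (lam * v 0) (lam * v 1) (zo1 ξ v))
    (cB2 (P.b1 (x + lam * ξ 0)) (P.b2 (x + lam * ξ 0)) (√(SS P lam eta x ξ)) (ξ 5) (ξ 6)
      (lam * v 0) (lam * v 1) (zo2 ξ v))

/-- homogeneity of `gcz` -/
theorem gcz_scale {lam : ℝ} (hlam : 0 < lam) {Z11 Z22 Z33 Z13 a R l1 l2 : ℝ} (hR : 0 < R)
    (ha : 0 ≤ a) (xu1 xu2 xu3 Au1 Au2 Bu1 Bu2 xv1 xv2 xv3 Av1 Av2 Bv1 Bv2 : ℝ) :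
    gcz (lam ^ 4 * Z11) (lam ^ 4 * Z22) (lam ^ 4 * Z33) (lam ^ 4 * Z13) (lam ^ 2 * a)
      (lam ^ 2 * R) (lam ^ 2 * l1) (lam ^ 2 * l2)
      (lam * xu1) (lam * xu2) (lam * xu3) (lam ^ 2 * Au1) (lam ^ 2 * Au2) Bu1 Bu2
      (lam * xv1) (lam * xv2) (lam * xv3) (lam ^ 2 * Av1) (lam ^ 2 * Av2) Bv1 Bv2 =
    lam ^ 2 * gcz (lam ^ 2 * Z11) (lam ^ 2 * Z22) (lam ^ 2 * Z33) (lam ^ 2 * Z13) a R l1 l2
      xu1 xu2 xu3 Au1 Au2 Bu1 Bu2 xv1 xv2 xv3 Av1 Av2 Bv1 Bv2 := by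
  have hRa : 0 < R + a := by linarith
  have e2 : (1 / 8) * (1 / (lam ^ 2 * R) - 2 * (lam ^ 2 * a) / (lam ^ 2 * R) ^ 2) =
      (lam ^ 2)⁻¹ * ((1 / 8) * (1 / R - 2 * a / R ^ 2)) := by
    field_simp
  have e3 : 1 / (8 * (lam ^ 2 * R) * (lam ^ 2 * R + lam ^ 2 * a) ^ 2) =
      (lam ^ 6)⁻¹ * (1 / (8 * R * (R + a) ^ 2)) := by
    have : lam ^ 2 * R + lam ^ 2 * a = lam ^ 2 * (R + a) := by ring
    rw [this]
    field_simp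
  unfold gcz
  simp only []
  rw [e2, e3]
  generalize (1 / 8) * (1 / R - 2 * a / R ^ 2) = kap
  generalize 1 / (8 * R * (R + a) ^ 2) = T
  field_simp

/-- coordinates are smooth -/
theorem C3a_co (i : Fin 7) (ξ : EE 7) : ContDiffAt ℝ ∞ (fun r : EE 7 => r i) ξ :=
  (contDiffAt_euclidean.1 (contDiffAt_id (x := ξ))) i

/-- coordinates are differentiable -/
theorem C3a_hd (i : Fin 7) (ξ : EE 7) :
    HasFDerivAt (fun r : EE 7 => r i) (EuclideanSpace.proj i : EE 7 →L[ℝ] ℝ) ξ :=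
  (EuclideanSpace.proj i : EE 7 →L[ℝ] ℝ).hasFDerivAt

theorem C3a_lc {f1 f2 f3 : EE 7 → V3} {a b c : EE 7 → ℝ} {ξ : EE 7}
    (h1 : ContDiffAt ℝ ∞ f1 ξ) (h2 : ContDiffAt ℝ ∞ f2 ξ) (h3 : ContDiffAt ℝ ∞ f3 ξ)
    (ha : ContDiffAt ℝ ∞ a ξ) (hb : ContDiffAt ℝ ∞ b ξ) (hc : ContDiffAt ℝ ∞ c ξ) :
    ContDiffAt ℝ ∞ (fun r => lc (f1 r) (f2 r) (f3 r) (a r) (b r) (c r)) ξ :=
  ((ha.smul h1).add (hb.smul h2)).add (hc.smul h3)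

theorem C3a_ap (e1 e2 e3 : V3) {v : EE 7 → V3} {ξ : EE 7} (hv : ContDiffAt ℝ ∞ v ξ) :
    ContDiffAt ℝ ∞ (fun r => ap e1 e2 e3 (v r)) ξ := by
  have hvi : ∀ j, ContDiffAt ℝ ∞ (fun r => v r j) ξ := fun j => (contDiffAt_pi.1 hv) j
  exact C3a_lc contDiffAt_const contDiffAt_const contDiffAt_const (hvi 0) (hvi 1) (hvi 2)

theorem C3a_N (ξ : EE 7) :
    ContDiffAt ℝ ∞ (fun r : EE 7 => 1 / (1 + r 3 ^ 2 + r 4 ^ 2 + (0 : ℝ) ^ 2)) ξ := by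
  refine contDiffAt_const.div ?_ (by positivity)
  exact (((contDiffAt_const.add ((C3a_co 3 ξ).pow 2)).add ((C3a_co 4 ξ).pow 2)).add
    contDiffAt_const)

theorem C3a_q1 (ξ : EE 7) : ContDiffAt ℝ ∞ (fun r : EE 7 => qc1 (r 3) (r 4) 0) ξ := by
  have h3 := C3a_co 3 ξ
  have h4 := C3a_co 4 ξ
  unfold qc1
  refine (C3a_N ξ).smul (contDiffAt_pi.2 fun i => ?_)
  fin_cases i
  · exact ((contDiffAt_const.add (h3.pow 2)).sub (h4.pow 2)).sub contDiffAt_const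
  · exact contDiffAt_const.mul ((h3.mul h4).add contDiffAt_const)
  · exact contDiffAt_const.mul ((h3.mul contDiffAt_const).sub h4)

theorem C3a_q2 (ξ : EE 7) : ContDiffAt ℝ ∞ (fun r : EE 7 => qc2 (r 3) (r 4) 0) ξ := by
  have h3 := C3a_co 3 ξ
  have h4 := C3a_co 4 ξ
  unfold qc2
  refine (C3a_N ξ).smul (contDiffAt_pi.2 fun i => ?_)
  fin_cases i
  · exact contDiffAt_const.mul ((h3.mul h4).sub contDiffAt_const)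
  · exact ((contDiffAt_const.sub (h3.pow 2)).add (h4.pow 2)).sub contDiffAt_const
  · exact contDiffAt_const.mul ((h4.mul contDiffAt_const).add h3)

theorem C3a_q3 (ξ : EE 7) : ContDiffAt ℝ ∞ (fun r : EE 7 => qc3 (r 3) (r 4) 0) ξ := by
  have h3 := C3a_co 3 ξ
  have h4 := C3a_co 4 ξ
  unfold qc3
  refine (C3a_N ξ).smul (contDiffAt_pi.2 fun i => ?_)
  fin_cases i
  · exact contDiffAt_const.mul ((h3.mul contDiffAt_const).add h4)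
  · exact contDiffAt_const.mul ((h4.mul contDiffAt_const).sub h3)
  · exact ((contDiffAt_const.sub (h3.pow 2)).sub (h4.pow 2)).add contDiffAt_const

theorem C3a_h (lam sg : ℝ) {ξ : EE 7} (hξ : lam ^ 4 * (ξ 5 ^ 2 + ξ 6 ^ 2) < 1) :
    ContDiffAt ℝ ∞ (fun r : EE 7 => sg * √(1 - lam ^ 4 * (r 5 ^ 2 + r 6 ^ 2))) ξ := by
  refine contDiffAt_const.mul (ContDiffAt.sqrt ?_ (by linarith))
  exact contDiffAt_const.sub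
    (contDiffAt_const.mul (((C3a_co 5 ξ).pow 2).add ((C3a_co 6 ξ).pow 2)))

/-- smoothness of the chart -/
theorem PSI_smooth (e1 e2 e3 : V3) (x c2 c3 lam sg : ℝ) {ξ : EE 7}
    (hξ : lam ^ 4 * (ξ 5 ^ 2 + ξ 6 ^ 2) < 1) :
    ContDiffAt ℝ ∞ (PSI e1 e2 e3 x c2 c3 lam sg) ξ := by
  have hq3 := C3a_ap e1 e2 e3 (C3a_q3 ξ)
  unfold PSI pfr
  refine PT_contDiffAt ?_ ?_ ?_ hq3 ?_
  · exact contDiffAt_const.add (contDiffAt_const.mul (C3a_co 0 ξ))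
  · exact contDiffAt_const.add (contDiffAt_const.mul (C3a_co 1 ξ))
  · exact contDiffAt_const.add (contDiffAt_const.mul (C3a_co 2 ξ))
  · exact C3a_lc (C3a_ap e1 e2 e3 (C3a_q1 ξ)) (C3a_ap e1 e2 e3 (C3a_q2 ξ)) hq3
      (contDiffAt_const.mul (C3a_co 5 ξ)) (contDiffAt_const.mul (C3a_co 6 ξ)) (C3a_h lam sg hξ)

theorem C3a_aff (x lam : ℝ) (i : Fin 7) (ξ : EE 7) :
    HasFDerivAt (fun r : EE 7 => x + lam * r i) (lam • (EuclideanSpace.proj i : EE 7 →L[ℝ] ℝ)) ξ :=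
  ((C3a_hd i ξ).const_mul lam).const_add x

/-- the derivative of the chart (`pfr_fderiv`, `RFat.const_mul`, `RFat_quat`) and the tangency
condition; `dh'` is the derivative of the last argument -/
theorem PSI_fderiv {e1 e2 e3 : V3} (he : Fr e1 e2 e3) (x c2 c3 lam : ℝ) {sg : ℝ}
    (hsg : sg ^ 2 = 1) {ξ : EE 7} (hξ : lam ^ 4 * (ξ 5 ^ 2 + ξ 6 ^ 2) < 1) (u : EE 7) :
    ∃ dh' : ℝ,
      (lam ^ 2 * ξ 5) * (lam ^ 2 * u 5) + (lam ^ 2 * ξ 6) * (lam ^ 2 * u 6) +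
        (sg * √(1 - lam ^ 4 * (ξ 5 ^ 2 + ξ 6 ^ 2))) * dh' = 0 ∧
      fderiv ℝ (PSI e1 e2 e3 x c2 c3 lam sg) ξ u =
        ufr (ap e1 e2 e3 (qc1 (ξ 3) (ξ 4) 0)) (ap e1 e2 e3 (qc2 (ξ 3) (ξ 4) 0))
          (ap e1 e2 e3 (qc3 (ξ 3) (ξ 4) 0)) (x + lam * ξ 0) (c2 + lam * ξ 1)
          (lam ^ 2 * ξ 5) (lam ^ 2 * ξ 6) (sg * √(1 - lam ^ 4 * (ξ 5 ^ 2 + ξ 6 ^ 2)))
          (lam * u 0) (lam * u 1) (lam * u 2) (lam ^ 2 * u 5) (lam ^ 2 * u 6) dh'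
          (zo1 ξ u) (zo2 ξ u) (zo3 ξ u) := by
  have hh := ((C3a_h lam sg hξ).differentiableAt (by norm_num)).hasFDerivAt
  have h5 := (C3a_hd 5 ξ).const_mul (lam ^ 2)
  have h6 := (C3a_hd 6 ξ).const_mul (lam ^ 2)
  have hopen : ∀ᶠ r : EE 7 in 𝓝 ξ, lam ^ 4 * (r 5 ^ 2 + r 6 ^ 2) < 1 := by
    have hc : ContinuousAt (fun r : EE 7 => lam ^ 4 * (r 5 ^ 2 + r 6 ^ 2)) ξ :=
      (contDiffAt_const.mul
        (((C3a_co 5 ξ).pow 2).add ((C3a_co 6 ξ).pow 2))).continuousAt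
    exact hc.eventually_lt continuousAt_const hξ
  have hz : HasFDerivAt (fun _ : EE 7 => (0 : ℝ)) (0 : EE 7 →L[ℝ] ℝ) ξ := hasFDerivAt_const 0 ξ
  have hq := RFat.const_mul he (RFat_quat (C3a_hd 3 ξ) (C3a_hd 4 ξ) hz)
  obtain ⟨-, hD⟩ := pfr_fderiv hq (C3a_aff x lam 0 ξ) (C3a_aff c2 lam 1 ξ) (C3a_aff c3 lam 2 ξ)
    h5 h6 hh
  refine ⟨_, tang_of_sq h5 h6 hh ?_ u, ?_⟩
  · filter_upwards [hopen] with r hr
    rw [mul_pow sg, hsg, Real.sq_sqrt (by linarith)]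
    ring
  · have h1 := hD u
    unfold PSI
    rw [h1]
    unfold ufr zo1 zo2 zo3 zN
    have hpr : ∀ i : Fin 7, (EuclideanSpace.proj i : EE 7 →L[ℝ] ℝ) u = u i := fun i => rfl
    simp only [smul_apply, sub_apply, hpr, smul_eq_mul, zero_apply]
    congr 2 <;> ring_nf

end H31R
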