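import Pool.Agent.Lib.H31R.C2

/-!
# H31R, chunk C4: the outer metric in the standard chart `CH`
Coordinates `ξ = (X1, X2, X3, h, q1, q2, q3)` (indices `0, .., 6`); the metric is `gstd`, independent of
`k`, of the frame and of `X1, X2, X3`.
-/

open scoped ContDiff Topology
open Real Filter

namespace H31R

/-- the standard chart of the outer region: frame `E Ad(1,q) R(X)`, `(l1, l2) = (sqrt (1 - h^2), 0)` -/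
noncomputable def CH (k : ℕ) (e1 e2 e3 : V3) (ξ : EE 7) : EE 7 :=
  pfr
    (ap (ap e1 e2 e3 (qc1 (ξ 4) (ξ 5) (ξ 6))) (ap e1 e2 e3 (qc2 (ξ 4) (ξ 5) (ξ 6)))
      (ap e1 e2 e3 (qc3 (ξ 4) (ξ 5) (ξ 6))) (rc1 k (ξ 0) (ξ 1)))
    (ap (ap e1 e2 e3 (qc1 (ξ 4) (ξ 5) (ξ 6))) (ap e1 e2 e3 (qc2 (ξ 4) (ξ 5) (ξ 6)))
      (ap e1 e2 e3 (qc3 (ξ 4) (ξ 5) (ξ 6))) (rc2 k (ξ 0) (ξ 1)))
    (ap (ap e1 e2 e3 (qc1 (ξ 4) (ξ 5) (ξ 6))) (ap e1 e2 e3 (qc2 (ξ 4) (ξ 5) (ξ 6)))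
      (ap e1 e2 e3 (qc3 (ξ 4) (ξ 5) (ξ 6))) (rc3 k (ξ 0) (ξ 1)))
    (ξ 0) (ξ 1) (ξ 2) (√(1 - ξ 3 ^ 2)) 0 (ξ 3)

/-- `1 + |q|^2` -/
noncomputable def qn (ξ : EE 7) : ℝ := 1 + ξ 4 ^ 2 + ξ 5 ^ 2 + ξ 6 ^ 2
/-- body angular velocity of `Ad(1,q)` -/
noncomputable def qo1 (ξ u : EE 7) : ℝ := (2 / qn ξ) * (u 4 - (ξ 5 * u 6 - ξ 6 * u 5))
noncomputable def qo2 (ξ u : EE 7) : ℝ := (2 / qn ξ) * (u 5 - (ξ 6 * u 4 - ξ 4 * u 6))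
noncomputable def qo3 (ξ u : EE 7) : ℝ := (2 / qn ξ) * (u 6 - (ξ 4 * u 5 - ξ 5 * u 4))

/-- the standard metric -/
noncomputable def gstd (ξ u v : EE 7) : ℝ :=
  u 0 * v 0 + u 1 * v 1 + u 2 * v 2
    + (ξ 3 ^ 2 / (4 * √(1 - ξ 3 ^ 2) ^ 3) + psi (ξ 3)) * u 3 * v 3
    + √(1 - ξ 3 ^ 2) / 4 * (qo1 ξ u * qo1 ξ v + qo2 ξ u * qo2 ξ v + qo3 ξ u * qo3 ξ v)

/-! ### auxiliary facts -/

theorem C4_coord (i : Fin 7) (q : EE 7) :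
    HasFDerivAt (fun ξ : EE 7 => ξ i) (EuclideanSpace.proj i : EE 7 →L[ℝ] ℝ) q :=
  (EuclideanSpace.proj i : EE 7 →L[ℝ] ℝ).hasFDerivAt

theorem C4_coord_smooth (i : Fin 7) (q : EE 7) : ContDiffAt ℝ ∞ (fun ξ : EE 7 => ξ i) q :=
  (EuclideanSpace.proj i : EE 7 →L[ℝ] ℝ).contDiff.contDiffAt

theorem C4_lc_smooth {f1 f2 f3 : EE 7 → V3} {a b c : EE 7 → ℝ} {q : EE 7}
    (h1 : ContDiffAt ℝ ∞ f1 q) (h2 : ContDiffAt ℝ ∞ f2 q) (h3 : ContDiffAt ℝ ∞ f3 q)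
    (ha : ContDiffAt ℝ ∞ a q) (hb : ContDiffAt ℝ ∞ b q) (hc : ContDiffAt ℝ ∞ c q) :
    ContDiffAt ℝ ∞ (fun r => lc (f1 r) (f2 r) (f3 r) (a r) (b r) (c r)) q :=
  ((ha.smul h1).add (hb.smul h2)).add (hc.smul h3)

theorem C4_ap_smooth {f1 f2 f3 v : EE 7 → V3} {q : EE 7}
    (h1 : ContDiffAt ℝ ∞ f1 q) (h2 : ContDiffAt ℝ ∞ f2 q) (h3 : ContDiffAt ℝ ∞ f3 q)
    (hv : ContDiffAt ℝ ∞ v q) :
    ContDiffAt ℝ ∞ (fun r => ap (f1 r) (f2 r) (f3 r) (v r)) q :=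
  C4_lc_smooth h1 h2 h3 (contDiffAt_pi.1 hv 0) (contDiffAt_pi.1 hv 1) (contDiffAt_pi.1 hv 2)

theorem C4_q_smooth (q : EE 7) :
    ContDiffAt ℝ ∞ (fun ξ : EE 7 => qc1 (ξ 4) (ξ 5) (ξ 6)) q ∧
    ContDiffAt ℝ ∞ (fun ξ : EE 7 => qc2 (ξ 4) (ξ 5) (ξ 6)) q ∧
    ContDiffAt ℝ ∞ (fun ξ : EE 7 => qc3 (ξ 4) (ξ 5) (ξ 6)) q := by
  have h4 := C4_coord_smooth 4 q
  have h5 := C4_coord_smooth 5 q
  have h6 := C4_coord_smooth 6 q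
  have hN : ContDiffAt ℝ ∞ (fun ξ : EE 7 => 1 / (1 + ξ 4 ^ 2 + ξ 5 ^ 2 + ξ 6 ^ 2)) q := by
    refine contDiffAt_const.div (((contDiffAt_const.add (h4.pow 2)).add (h5.pow 2)).add
      (h6.pow 2)) ?_
    positivity
  have c1 : ContDiffAt ℝ ∞ (fun _ : EE 7 => (1 : ℝ)) q := contDiffAt_const
  have c2 : ContDiffAt ℝ ∞ (fun _ : EE 7 => (2 : ℝ)) q := contDiffAt_const
  refine ⟨?_, ?_, ?_⟩
  · refine hN.smul (contDiffAt_pi.2 fun i => ?_)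
    fin_cases i
    · exact ((c1.add (h4.pow 2)).sub (h5.pow 2)).sub (h6.pow 2)
    · exact c2.mul ((h4.mul h5).add h6)
    · exact c2.mul ((h4.mul h6).sub h5)
  · refine hN.smul (contDiffAt_pi.2 fun i => ?_)
    fin_cases i
    · exact c2.mul ((h4.mul h5).sub h6)
    · exact ((c1.sub (h4.pow 2)).add (h5.pow 2)).sub (h6.pow 2)
    · exact c2.mul ((h5.mul h6).add h4)
  · refine hN.smul (contDiffAt_pi.2 fun i => ?_)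
    fin_cases i
    · exact c2.mul ((h4.mul h6).add h5)
    · exact c2.mul ((h5.mul h6).sub h4)
    · exact ((c1.sub (h4.pow 2)).sub (h5.pow 2)).add (h6.pow 2)

theorem C4_r_smooth (k : ℕ) (q : EE 7) :
    ContDiffAt ℝ ∞ (fun ξ : EE 7 => rc1 k (ξ 0) (ξ 1)) q ∧
    ContDiffAt ℝ ∞ (fun ξ : EE 7 => rc2 k (ξ 0) (ξ 1)) q ∧
    ContDiffAt ℝ ∞ (fun ξ : EE 7 => rc3 k (ξ 0) (ξ 1)) q := by
  have h0 := C4_coord_smooth 0 q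
  have h1 := C4_coord_smooth 1 q
  have hU : ContDiffAt ℝ ∞ (fun ξ : EE 7 => Uf (ξ 0)) q := Uf_smooth.contDiffAt.comp q h0
  have hv : ContDiffAt ℝ ∞ (fun ξ : EE 7 => vf k (ξ 0)) q := (vf_smooth k).contDiffAt.comp q h0
  have ha : ContDiffAt ℝ ∞ (fun ξ : EE 7 => auf k (ξ 0)) q :=
    (auf_smooth k).contDiffAt.comp q h0
  have hne : auf k (q 0) ≠ 0 := (auf_pos k (q 0)).ne'
  have hUa := hU.div ha hne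
  have hva := hv.div ha hne
  have hK : ContDiffAt ℝ ∞ (fun ξ : EE 7 => KK k * ξ 1) q := contDiffAt_const.mul h1
  have hc := hK.cos
  have hs := hK.sin
  refine ⟨?_, ?_, ?_⟩
  · refine contDiffAt_pi.2 fun i => ?_
    fin_cases i
    · exact hc.mul hUa
    · exact hs.mul hUa
    · exact hva.neg
  · refine contDiffAt_pi.2 fun i => ?_
    fin_cases i
    · exact hs.neg
    · exact hc
    · exact contDiffAt_const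
  · refine contDiffAt_pi.2 fun i => ?_
    fin_cases i
    · exact hc.mul hva
    · exact hs.mul hva
    · exact hUa

theorem C4_t_pos {ξ : EE 7} (hξ : ξ 3 ^ 2 < 1) : 0 < √(1 - ξ 3 ^ 2) :=
  Real.sqrt_pos.2 (by linarith)

theorem C4_t_smooth {ξ : EE 7} (hξ : ξ 3 ^ 2 < 1) :
    ContDiffAt ℝ ∞ (fun ξ : EE 7 => √(1 - ξ 3 ^ 2)) ξ :=
  (contDiffAt_const.sub ((C4_coord_smooth 3 ξ).pow 2)).sqrt (by
    show 1 - ξ 3 ^ 2 ≠ 0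
    linarith)

/-- derivative of `sqrt (1 - h^2)` -/
theorem C4_t_deriv {ξ : EE 7} (hξ : ξ 3 ^ 2 < 1) :
    HasFDerivAt (fun ξ : EE 7 => √(1 - ξ 3 ^ 2))
      ((-(ξ 3 / √(1 - ξ 3 ^ 2))) • (EuclideanSpace.proj 3 : EE 7 →L[ℝ] ℝ)) ξ := by
  have h3 := C4_coord 3 ξ
  have h1 : HasFDerivAt (fun ξ : EE 7 => 1 - ξ 3 ^ 2) _ ξ := (h3.pow 2).const_sub 1
  have h2 := h1.sqrt (by
    show 1 - ξ 3 ^ 2 ≠ 0
    linarith)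
  refine h2.congr_fderiv ?_
  have ht := (C4_t_pos hξ).ne'
  ext u
  simp only [smul_apply, neg_apply, smul_eq_mul, nsmul_eq_mul, Nat.cast_ofNat,
    ContinuousLinearMap.smul_apply, ContinuousLinearMap.neg_apply]
  field_simp
  ring

/-- the frame of `CH` -/
noncomputable def C4f1 (k : ℕ) (e1 e2 e3 : V3) (ξ : EE 7) : V3 :=
  ap (ap e1 e2 e3 (qc1 (ξ 4) (ξ 5) (ξ 6))) (ap e1 e2 e3 (qc2 (ξ 4) (ξ 5) (ξ 6)))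
      (ap e1 e2 e3 (qc3 (ξ 4) (ξ 5) (ξ 6))) (rc1 k (ξ 0) (ξ 1))
noncomputable def C4f2 (k : ℕ) (e1 e2 e3 : V3) (ξ : EE 7) : V3 :=
  ap (ap e1 e2 e3 (qc1 (ξ 4) (ξ 5) (ξ 6))) (ap e1 e2 e3 (qc2 (ξ 4) (ξ 5) (ξ 6)))
      (ap e1 e2 e3 (qc3 (ξ 4) (ξ 5) (ξ 6))) (rc2 k (ξ 0) (ξ 1))
noncomputable def C4f3 (k : ℕ) (e1 e2 e3 : V3) (ξ : EE 7) : V3 :=
  ap (ap e1 e2 e3 (qc1 (ξ 4) (ξ 5) (ξ 6))) (ap e1 e2 e3 (qc2 (ξ 4) (ξ 5) (ξ 6)))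
      (ap e1 e2 e3 (qc3 (ξ 4) (ξ 5) (ξ 6))) (rc3 k (ξ 0) (ξ 1))

/-- coordinate functionals -/
noncomputable abbrev C4P (i : Fin 7) : EE 7 →L[ℝ] ℝ := EuclideanSpace.proj i

/-- body angular velocity of the quaternion frame -/
noncomputable def C4W1 (q : EE 7) : EE 7 →L[ℝ] ℝ :=
  (2 / (1 + q 4 ^ 2 + q 5 ^ 2 + q 6 ^ 2)) • (C4P 4 - (q 5 • C4P 6 - q 6 • C4P 5))
noncomputable def C4W2 (q : EE 7) : EE 7 →L[ℝ] ℝ :=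
  (2 / (1 + q 4 ^ 2 + q 5 ^ 2 + q 6 ^ 2)) • (C4P 5 - (q 6 • C4P 4 - q 4 • C4P 6))
noncomputable def C4W3 (q : EE 7) : EE 7 →L[ℝ] ℝ :=
  (2 / (1 + q 4 ^ 2 + q 5 ^ 2 + q 6 ^ 2)) • (C4P 6 - (q 4 • C4P 5 - q 5 • C4P 4))

noncomputable def C4O1 (k : ℕ) (q : EE 7) : EE 7 →L[ℝ] ℝ :=
  rc1 k (q 0) (q 1) 0 • C4W1 q + rc1 k (q 0) (q 1) 1 • C4W2 q + rc1 k (q 0) (q 1) 2 • C4W3 q +
    (2 * (prof k).b1 (q 0)) • C4P 1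
noncomputable def C4O2 (k : ℕ) (q : EE 7) : EE 7 →L[ℝ] ℝ :=
  rc2 k (q 0) (q 1) 0 • C4W1 q + rc2 k (q 0) (q 1) 1 • C4W2 q + rc2 k (q 0) (q 1) 2 • C4W3 q +
    (2 * (prof k).b2 (q 0)) • C4P 0
noncomputable def C4O3 (k : ℕ) (q : EE 7) : EE 7 →L[ℝ] ℝ :=
  rc3 k (q 0) (q 1) 0 • C4W1 q + rc3 k (q 0) (q 1) 1 • C4W2 q + rc3 k (q 0) (q 1) 2 • C4W3 q +
    (2 * (prof k).b3 (q 0)) • C4P 1

theorem C4_RF (k : ℕ) {e1 e2 e3 : V3} (he : Fr e1 e2 e3) (q : EE 7) :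
    RFat (C4f1 k e1 e2 e3) (C4f2 k e1 e2 e3) (C4f3 k e1 e2 e3)
      (C4O1 k q) (C4O2 k q) (C4O3 k q) q :=
  (RFat.const_mul he (RFat_quat (C4_coord 4 q) (C4_coord 5 q) (C4_coord 6 q))).mul
    (RFat_R k (C4_coord 0 q) (C4_coord 1 q))

theorem C4_RFr (k : ℕ) (q : EE 7) :
    Fr (rc1 k (q 0) (q 1)) (rc2 k (q 0) (q 1)) (rc3 k (q 0) (q 1)) :=
  (RFat_R k (C4_coord 0 q) (C4_coord 1 q)).fr

theorem CH_eq (k : ℕ) (e1 e2 e3 : V3) : CH k e1 e2 e3 = fun ξ =>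
    pfr (C4f1 k e1 e2 e3 ξ) (C4f2 k e1 e2 e3 ξ) (C4f3 k e1 e2 e3 ξ) (ξ 0) (ξ 1) (ξ 2)
      (√(1 - ξ 3 ^ 2)) 0 (ξ 3) := rfl

/-- completeness of a frame -/
theorem C4_compl {r1 r2 r3 : V3} (hr : Fr r1 r2 r3) (u v : V3) :
    dot r1 u * dot r1 v + dot r2 u * dot r2 v + dot r3 u * dot r3 v = dot u v := by
  conv_rhs => rw [eq_lc hr u, eq_lc hr v, dot_lc hr]
  rw [dot_comm u r1, dot_comm u r2, dot_comm u r3, dot_comm v r1, dot_comm v r2, dot_comm v r3]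

theorem C4_rows {r1 r2 r3 : V3} (hr : Fr r1 r2 r3) :
    Fr ![r1 0, r2 0, r3 0] ![r1 1, r2 1, r3 1] ![r1 2, r2 2, r3 2] := by
  have key : ∀ i j : Fin 3, r1 i * r1 j + r2 i * r2 j + r3 i * r3 j =
      dot (Pi.single i 1) (Pi.single j 1) := by
    intro i j
    have h := C4_compl hr (Pi.single i 1) (Pi.single j 1)
    have hd : ∀ (r : V3) (i : Fin 3), dot r (Pi.single i 1) = r i := by
      intro r i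
      fin_cases i <;> simp [dot]
    rw [← h, hd, hd, hd, hd, hd, hd]
  have k00 := key 0 0
  have k01 := key 0 1
  have k02 := key 0 2
  have k11 := key 1 1
  have k12 := key 1 2
  have k22 := key 2 2
  simp [dot] at k00 k01 k02 k11 k12 k22
  have h10 := congrFun hr.c12 0
  have h11 := congrFun hr.c12 1
  have h12 := congrFun hr.c12 2
  have h20 := congrFun hr.c23 0
  have h21 := congrFun hr.c23 1
  have h22 := congrFun hr.c23 2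
  have h30 := congrFun hr.c31 0
  have h31 := congrFun hr.c31 1
  have h32 := congrFun hr.c31 2
  simp only [C0a_crs0, C0a_crs1, C0a_crs2] at h10 h11 h12 h20 h21 h22 h30 h31 h32
  refine ⟨?_, ?_, ?_, ?_, ?_, ?_, ?_, ?_, ?_⟩
  · simpa [dot] using k00
  · simpa [dot] using k11
  · simpa [dot] using k22
  · simpa [dot] using k01
  · simpa [dot] using k02
  · simpa [dot] using k12
  · refine C0a_ext ?_ ?_ ?_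
    · rw [C0a_crs0]; simp; linarith
    · rw [C0a_crs1]; simp; linarith
    · rw [C0a_crs2]; simp; linarith
  · refine C0a_ext ?_ ?_ ?_
    · rw [C0a_crs0]; simp; linarith
    · rw [C0a_crs1]; simp; linarith
    · rw [C0a_crs2]; simp; linarith
  · refine C0a_ext ?_ ?_ ?_
    · rw [C0a_crs0]; simp; linarith
    · rw [C0a_crs1]; simp; linarith
    · rw [C0a_crs2]; simp; linarith

theorem CH_smooth (k : ℕ) (e1 e2 e3 : V3) {ξ : EE 7} (hξ : ξ 3 ^ 2 < 1) :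
    ContDiffAt ℝ ∞ (CH k e1 e2 e3) ξ := by
  obtain ⟨q1, q2, q3⟩ := C4_q_smooth ξ
  obtain ⟨r1, r2, r3⟩ := C4_r_smooth k ξ
  have c1 : ContDiffAt ℝ ∞ (fun _ : EE 7 => e1) ξ := contDiffAt_const
  have c2 : ContDiffAt ℝ ∞ (fun _ : EE 7 => e2) ξ := contDiffAt_const
  have c3 : ContDiffAt ℝ ∞ (fun _ : EE 7 => e3) ξ := contDiffAt_const
  have g1 := C4_ap_smooth c1 c2 c3 q1
  have g2 := C4_ap_smooth c1 c2 c3 q2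
  have g3 := C4_ap_smooth c1 c2 c3 q3
  have f1 := C4_ap_smooth g1 g2 g3 r1
  have f2 := C4_ap_smooth g1 g2 g3 r2
  have f3 := C4_ap_smooth g1 g2 g3 r3
  exact PT_contDiffAt (C4_coord_smooth 0 ξ) (C4_coord_smooth 1 ξ) (C4_coord_smooth 2 ξ) f3
    (C4_lc_smooth f1 f2 f3 (C4_t_smooth hξ) contDiffAt_const (C4_coord_smooth 3 ξ))

/-- `pfr_fderiv`, `RFat.mul`, `RFat_R`, `RFat_quat`, `go_frame` with `R = t = sqrt (1 - h^2)`, `l2 = 0`,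
`d1 = -(h/t) u3`, `d2 = 0`. With `o_j = r_j . Ω + p_j` (`r_j` the columns of `R(X)`, `p` its angular
velocity): `A = (d1, t (r_3 . Ω))`, `B = (r_1 . Ω, r_2 . Ω) / 2`, and the `r_j` are orthonormal. -/
theorem CH_go (k : ℕ) {e1 e2 e3 : V3} (he : Fr e1 e2 e3) {ξ : EE 7} (hξ : ξ 3 ^ 2 < 1)
    (u v : EE 7) :
    go (prof k) (CH k e1 e2 e3 ξ) (fderiv ℝ (CH k e1 e2 e3) ξ u)
      (fderiv ℝ (CH k e1 e2 e3) ξ v) = gstd ξ u v := by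
  have hRF := C4_RF k he ξ
  have ht0 := C4_t_pos hξ
  have ht1 : √(1 - ξ 3 ^ 2) ^ 2 = 1 - ξ 3 ^ 2 := Real.sq_sqrt (by linarith)
  have hz : HasFDerivAt (fun _ : EE 7 => (0 : ℝ)) (0 : EE 7 →L[ℝ] ℝ) ξ := hasFDerivAt_const _ _
  obtain ⟨-, hfd⟩ := pfr_fderiv hRF (C4_coord 0 ξ) (C4_coord 1 ξ) (C4_coord 2 ξ)
    (C4_t_deriv hξ) hz (C4_coord 3 ξ)
  have hu := hfd u
  have hv := hfd v
  have hgo := go_frame (prof k) hRF.fr (X1 := ξ 0) (X2 := ξ 1)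
    (X3 := ξ 2) (l1 := √(1 - ξ 3 ^ 2)) (l2 := 0) (h := ξ 3) (R := √(1 - ξ 3 ^ 2))
    (by rw [ht1]; ring) (by rw [ht1]; congr 1; ring) ht0 (u 0) (u 1) (u 2)
    (-(ξ 3 / √(1 - ξ 3 ^ 2)) * u 3) 0 (u 3) (C4O1 k ξ u) (C4O2 k ξ u) (C4O3 k ξ u)
    (by field_simp; ring)
    (v 0) (v 1) (v 2) (-(ξ 3 / √(1 - ξ 3 ^ 2)) * v 3) 0 (v 3) (C4O1 k ξ v) (C4O2 k ξ v)
    (C4O3 k ξ v) (by field_simp; ring)
  rw [CH_eq, hu, hv]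
  refine Eq.trans hgo ?_
  have hc := C4_compl (C4_RFr k ξ) ![C4W1 ξ u, C4W2 ξ u, C4W3 ξ u] ![C4W1 ξ v, C4W2 ξ v, C4W3 ξ v]
  have q1 : ∀ u, C4W1 ξ u = qo1 ξ u := fun u => rfl
  have q2 : ∀ u, C4W2 ξ u = qo2 ξ u := fun u => rfl
  have q3 : ∀ u, C4W3 ξ u = qo3 ξ u := fun u => rfl
  have o1 : ∀ u, C4O1 k ξ u = dot (rc1 k (ξ 0) (ξ 1)) ![C4W1 ξ u, C4W2 ξ u, C4W3 ξ u] +
      2 * (prof k).b1 (ξ 0) * u 1 := fun u => rfl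
  have o2 : ∀ u, C4O2 k ξ u = dot (rc2 k (ξ 0) (ξ 1)) ![C4W1 ξ u, C4W2 ξ u, C4W3 ξ u] +
      2 * (prof k).b2 (ξ 0) * u 0 := fun u => rfl
  have o3 : ∀ u, C4O3 k ξ u = dot (rc3 k (ξ 0) (ξ 1)) ![C4W1 ξ u, C4W2 ξ u, C4W3 ξ u] +
      2 * (prof k).b3 (ξ 0) * u 1 := fun u => rfl
  rw [o1, o2, o3, o1, o2, o3]
  have hc2 : dot ![C4W1 ξ u, C4W2 ξ u, C4W3 ξ u] ![C4W1 ξ v, C4W2 ξ v, C4W3 ξ v] =
      qo1 ξ u * qo1 ξ v + qo2 ξ u * qo2 ξ v + qo3 ξ u * qo3 ξ v := rfl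
  unfold gstd
  rw [← hc2, ← hc]
  set t := √(1 - ξ 3 ^ 2) with ht
  set a1 := dot (rc1 k (ξ 0) (ξ 1)) ![C4W1 ξ u, C4W2 ξ u, C4W3 ξ u]
  set a2 := dot (rc2 k (ξ 0) (ξ 1)) ![C4W1 ξ u, C4W2 ξ u, C4W3 ξ u]
  set a3 := dot (rc3 k (ξ 0) (ξ 1)) ![C4W1 ξ u, C4W2 ξ u, C4W3 ξ u]
  set b1 := dot (rc1 k (ξ 0) (ξ 1)) ![C4W1 ξ v, C4W2 ξ v, C4W3 ξ v]
  set b2 := dot (rc2 k (ξ 0) (ξ 1)) ![C4W1 ξ v, C4W2 ξ v, C4W3 ξ v]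
  set b3 := dot (rc3 k (ξ 0) (ξ 1)) ![C4W1 ξ v, C4W2 ξ v, C4W3 ξ v]
  unfold cA1 cA2 cB1 cB2
  have htn : t ≠ 0 := ht0.ne'
  field_simp
  ring

theorem CH_coord (k : ℕ) {e1 e2 e3 : V3} (he : Fr e1 e2 e3) {ξ : EE 7} (hξ : ξ 3 ^ 2 < 1) :
    CH k e1 e2 e3 ξ ∈ OM ∧ hh (CH k e1 e2 e3 ξ) = ξ 3 ∧ x1 (CH k e1 e2 e3 ξ) = ξ 0 ∧
      0 < nr (lv (CH k e1 e2 e3 ξ)) := by
  have hRF := C4_RF k he ξ
  have ht0 := C4_t_pos hξ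
  have ht1 : √(1 - ξ 3 ^ 2) ^ 2 = 1 - ξ 3 ^ 2 := Real.sq_sqrt (by linarith)
  obtain ⟨h1, h2, -, h3, h4, -⟩ := frame_ingr hRF.fr (X1 := ξ 0) (X2 := ξ 1) (X3 := ξ 2)
    (l1 := √(1 - ξ 3 ^ 2)) (l2 := 0) (h := ξ 3) (by rw [ht1]; ring) 0 0 0 0 0 0 0 0 0 (by ring)
  refine ⟨h1, h3, h2, ?_⟩
  have h5 : lv (CH k e1 e2 e3 ξ) = lc (C4f1 k e1 e2 e3 ξ) (C4f2 k e1 e2 e3 ξ)
    (C4f3 k e1 e2 e3 ξ) (√(1 - ξ 3 ^ 2)) 0 0 := h4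
  rw [h5]
  unfold nr
  rw [dot_lc hRF.fr]
  apply Real.sqrt_pos.2
  nlinarith

/-- base points -/
noncomputable def xst (a b c h : ℝ) : EE 7 := !₂[a, b, c, h, 0, 0, 0]

/-- Every point with `|h| < 1` is in the image: with the frame `f` of `exists_pfr` take for `e_i` the
combination of the `f_j` with the `i`-th components of `rc1, rc2, rc3`. -/
theorem exists_CH (k : ℕ) {p : EE 7} (hp : p ∈ OM) (h1 : hh p ^ 2 < 1) :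
    ∃ e1 e2 e3 : V3, Fr e1 e2 e3 ∧
      CH k e1 e2 e3 (xst (x1 p) (x2 p) (x3 p) (hh p)) = p := by
  obtain ⟨f1, f2, f3, hf, t, ht0, ht1, -, hpf⟩ := exists_pfr hp
  have hR : Fr (rc1 k (x1 p) (x2 p)) (rc2 k (x1 p) (x2 p)) (rc3 k (x1 p) (x2 p)) :=
    C4_RFr k (xst (x1 p) (x2 p) (x3 p) (hh p))
  have ht : √(1 - hh p ^ 2) = t := by
    rw [show 1 - hh p ^ 2 = t ^ 2 by linarith]
    exact Real.sqrt_sq ht0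
  set r1 := rc1 k (x1 p) (x2 p) with hr1
  set r2 := rc2 k (x1 p) (x2 p) with hr2
  set r3 := rc3 k (x1 p) (x2 p) with hr3
  have hrow := C4_rows hR
  refine ⟨ap f1 f2 f3 ![r1 0, r2 0, r3 0], ap f1 f2 f3 ![r1 1, r2 1, r3 1],
    ap f1 f2 f3 ![r1 2, r2 2, r3 2], C2_fr hf hrow, ?_⟩
  set g1 := ap f1 f2 f3 ![r1 0, r2 0, r3 0] with hg1
  set g2 := ap f1 f2 f3 ![r1 1, r2 1, r3 1] with hg2
  set g3 := ap f1 f2 f3 ![r1 2, r2 2, r3 2] with hg3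
  have hq1 : qc1 0 0 0 = ![1, 0, 0] := by
    ext i; fin_cases i <;> simp [qc1]
  have hq2 : qc2 0 0 0 = ![0, 1, 0] := by
    ext i; fin_cases i <;> simp [qc2]
  have hq3 : qc3 0 0 0 = ![0, 0, 1] := by
    ext i; fin_cases i <;> simp [qc3]
  have ha1 : ap g1 g2 g3 ![1, 0, 0] = g1 := by simp [ap, lc]
  have ha2 : ap g1 g2 g3 ![0, 1, 0] = g2 := by simp [ap, lc]
  have ha3 : ap g1 g2 g3 ![0, 0, 1] = g3 := by simp [ap, lc]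
  have key : ∀ r : V3, ap g1 g2 g3 r = lc f1 f2 f3 (dot r1 r) (dot r2 r) (dot r3 r) := by
    intro r
    refine C0a_ext ?_ ?_ ?_ <;>
    · simp only [hg1, hg2, hg3, ap, C0a_lc, dot, Matrix.cons_val_zero, Matrix.cons_val_one,
        Matrix.cons_val]
      ring
  have k1 : ap g1 g2 g3 r1 = f1 := by
    rw [key, hR.n1, dot_comm r2, hR.o12, dot_comm r3, hR.o13]
    simp [lc]
  have k2 : ap g1 g2 g3 r2 = f2 := by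
    rw [key, hR.n2, hR.o12, dot_comm r3, hR.o23]
    simp [lc]
  have k3 : ap g1 g2 g3 r3 = f3 := by
    rw [key, hR.n3, hR.o13, hR.o23]
    simp [lc]
  have hCH : CH k g1 g2 g3 (xst (x1 p) (x2 p) (x3 p) (hh p)) =
      pfr (ap (ap g1 g2 g3 (qc1 0 0 0)) (ap g1 g2 g3 (qc2 0 0 0)) (ap g1 g2 g3 (qc3 0 0 0)) r1)
        (ap (ap g1 g2 g3 (qc1 0 0 0)) (ap g1 g2 g3 (qc2 0 0 0)) (ap g1 g2 g3 (qc3 0 0 0)) r2)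
        (ap (ap g1 g2 g3 (qc1 0 0 0)) (ap g1 g2 g3 (qc2 0 0 0)) (ap g1 g2 g3 (qc3 0 0 0)) r3)
        (x1 p) (x2 p) (x3 p) (√(1 - hh p ^ 2)) 0 (hh p) := rfl
  rw [hCH, hq1, hq2, hq3, ha1, ha2, ha3, k1, k2, k3, ht]
  exact hpf.symm

end H31R
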