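import Pool.Agent.Lib.H31R.Defs
import Pool.Agent.Lib.H31R.N4

/-!
# H31R, chunk NW: naturality of the Ricci bound, in the form used by the parts C and M
(from the naturality theorem of part N)
-/

open scoped ContDiff Topology
open Real Filter

namespace H31R

/-- `g` is, near `p`, a smooth family of symmetric bilinear forms. -/
structure Good (g : EE 7 → EE 7 → EE 7 → ℝ) (p : EE 7) : Prop where
  lin : ∀ᶠ q in 𝓝 p, ∀ u, IsLinearMap ℝ (g q u)
  symm : ∀ᶠ q in 𝓝 p, ∀ u v, g q u v = g q v u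
  sm : ∀ i j, ContDiffAt ℝ ∞ (fun q => mtx g q i j) p

/-- A bilinear form in terms of its matrix. -/
theorem Good.expand {g : EE 7 → EE 7 → EE 7 → ℝ} {p : EE 7} (h : Good g p) :
    ∀ᶠ q in 𝓝 p, ∀ u v, g q u v = ∑ i, ∑ j, mtx g q i j * u i * v j := by
  filter_upwards [h.lin, h.symm] with q hl hs
  intro u v
  have e1 : ∀ (w : EE 7) (v : EE 7), g q w v = ∑ j, v j * g q w (ebas j) := by
    intro w v
    conv_lhs => rw [N_basis v]
    have := map_sum (IsLinearMap.mk' _ (hl w)) (fun a => v a • ebas a) Finset.univ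
    rw [IsLinearMap.mk'_apply] at this
    rw [this]
    refine Finset.sum_congr rfl fun j _ => ?_
    rw [IsLinearMap.mk'_apply, (hl w).map_smul, smul_eq_mul]
  rw [e1 u v, Finset.sum_comm]
  refine Finset.sum_congr rfl fun j _ => ?_
  rw [hs u (ebas j), e1 (ebas j) u, Finset.mul_sum]
  refine Finset.sum_congr rfl fun i _ => ?_
  rw [hs (ebas j) (ebas i)]
  show v j * (u i * g q (ebas i) (ebas j)) = g q (ebas i) (ebas j) * u i * v j
  ring

/-- The Ricci bound is invariant under smooth changes of coordinates. (`det (mtx g' x) ≠ 0` implies that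
the derivative of `ψ` at `x` and `mtx g (ψ x)` are invertible.) -/
theorem RB_pull {g g' : EE 7 → EE 7 → EE 7 → ℝ} {ψ : EE 7 → EE 7} {x : EE 7} (C : ℝ)
    (hψ : ContDiffAt ℝ ∞ ψ x) (hg : Good g (ψ x))
    (hpull : ∀ᶠ y in 𝓝 x, ∀ u v, g' y u v = g (ψ y) (fderiv ℝ ψ y u) (fderiv ℝ ψ y v))
    (hdet : (mtx g' x).det ≠ 0) : RB (mtx g) (ψ x) C ↔ RB (mtx g') x C := by
  have hψ3 : ∀ᶠ y in 𝓝 x, ContDiffAt ℝ 3 ψ y := by
    have h : ContDiffAt ℝ 3 ψ x := hψ.of_le (by norm_cast)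
    exact h.eventually (by norm_cast)
  have hg2 : ∀ᶠ q in 𝓝 (ψ x), ∀ i j, ContDiffAt ℝ 2 (fun q => mtx g q i j) q := by
    rw [Filter.eventually_all]
    intro i
    rw [Filter.eventually_all]
    intro j
    have h : ContDiffAt ℝ 2 (fun q => mtx g q i j) (ψ x) := (hg.sm i j).of_le (by norm_cast)
    exact h.eventually (by norm_cast)
  -- pull back formula for the matrices
  have hmat : ∀ᶠ y in 𝓝 x, mtx g' y = (jac ψ y).transpose * mtx g (ψ y) * jac ψ y := by
    have h1 := hψ.continuousAt.eventually hg.expand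
    filter_upwards [h1, hpull, hψ3] with y h1 h2 h3
    ext i j
    have hJ : ∀ i a, (fderiv ℝ ψ y (ebas i)) a = jac ψ y a i := by
      intro i a
      have hF : HasFDerivAt ψ (fderiv ℝ ψ y) y :=
        (h3.differentiableAt (by simp)).hasFDerivAt
      have h4 : HasFDerivAt (fun z => ψ z a)
          ((EuclideanSpace.proj a : EE 7 →L[ℝ] ℝ).comp (fderiv ℝ ψ y)) y :=
        (EuclideanSpace.proj a : EE 7 →L[ℝ] ℝ).hasFDerivAt.comp y hF
      unfold jac pd
      rw [h4.fderiv]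
      rfl
    show g' y (ebas i) (ebas j) = _
    rw [h2, h1]
    simp only [Matrix.mul_apply, Matrix.transpose_apply, Finset.sum_mul, hJ]
    rw [Finset.sum_comm]
    refine Finset.sum_congr rfl fun b _ => Finset.sum_congr rfl fun a _ => ?_
    ring
  have hx := hmat.self_of_nhds
  rw [hx, Matrix.det_mul, Matrix.det_mul, Matrix.det_transpose] at hdet
  have hJ0 : (jac ψ x).det ≠ 0 := right_ne_zero_of_mul hdet
  have hG0 : (mtx g (ψ x)).det ≠ 0 := right_ne_zero_of_mul (left_ne_zero_of_mul hdet)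
  have hgdet : ∀ᶠ q in 𝓝 (ψ x), (mtx g q).det ≠ 0 :=
    (N_det_at (A := fun q => mtx g q) hg.sm).continuousAt.eventually_ne hG0
  have hgs : ∀ᶠ q in 𝓝 (ψ x), ∀ i j, mtx g q i j = mtx g q j i := by
    filter_upwards [hg.symm] with q hq using fun i j => hq _ _
  obtain ⟨U, hU, hUo, hUx⟩ := eventually_nhds_iff.1 (hg2.and (hgdet.and hgs))
  have hjc : ∀ i j, ContDiffAt ℝ 1 (fun y => jac ψ y i j) x := by
    intro a i
    obtain ⟨V, hV, hVo, hVx⟩ := eventually_nhds_iff.1 hψ3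
    have hc : ContDiffOn ℝ 3 ψ V := fun y hy => (hV y hy).contDiffWithinAt
    exact (N_leM (N_jac_sm hVo hc) (show 1 ≤ 2 by norm_num) a i).contDiffAt (hVo.mem_nhds hVx)
  have hjdet : ∀ᶠ y in 𝓝 x, (jac ψ y).det ≠ 0 :=
    (N_det_at (A := fun y => jac ψ y) hjc).continuousAt.eventually_ne hJ0
  have hmem : ∀ᶠ y in 𝓝 x, ψ y ∈ U := hψ.continuousAt.eventually (hUo.mem_nhds hUx)
  obtain ⟨V, hV, hVo, hVx⟩ := eventually_nhds_iff.1 (hψ3.and (hmat.and (hjdet.and hmem)))
  have hP : Pull U V ψ (mtx g') (mtx g) :=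
    { hU := hUo
      hV := hVo
      hΦ := fun y hy => (hV y hy).1.contDiffWithinAt
      hm := fun y hy => (hV y hy).2.2.2
      hJ := fun y hy => (hV y hy).2.2.1
      hH := fun i j q hq => ((hU q hq).1 i j).contDiffWithinAt
      hs := fun q hq => (hU q hq).2.2
      hd := fun q hq => (hU q hq).2.1
      hG := fun y hy => (hV y hy).2.1 }
  exact (hP.RB_iff hVx).symm

/-- The same with a positive factor: `g' = c * pullback of g`, then `Ric` of `g'` is the pullback of the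
`Ric` of `g`, and `|Ric| ≤ C g` becomes `|Ric| ≤ (C / c) g'`. -/
theorem RB_pull_scale {g g' : EE 7 → EE 7 → EE 7 → ℝ} {ψ : EE 7 → EE 7} {x : EE 7} (C : ℝ)
    {c : ℝ} (hc : 0 < c) (hψ : ContDiffAt ℝ ∞ ψ x) (hg : Good g (ψ x))
    (hpull : ∀ᶠ y in 𝓝 x, ∀ u v, g (ψ y) (fderiv ℝ ψ y u) (fderiv ℝ ψ y v) = c * g' y u v)
    (hdet : (mtx g' x).det ≠ 0) : RB (mtx g) (ψ x) C ↔ RB (mtx g') x (c * C) := by
  have e : mtx (fun y u v => c * g' y u v) = fun y => c • mtx g' y := rfl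
  have hd : (mtx (fun y u v => c * g' y u v) x).det ≠ 0 := by
    rw [e]
    simp only [Matrix.det_smul]
    exact mul_ne_zero (pow_ne_zero _ hc.ne') hdet
  rw [RB_pull C hψ hg (g' := fun y u v => c * g' y u v)
    (hpull.mono fun y hy u v => (hy u v).symm) hd, e, N_RB_scale hc.ne', mul_comm]

/-- The Ricci bound depends only on the germ. -/
theorem RB_germ {g g' : EE 7 → EE 7 → EE 7 → ℝ} {x : EE 7} (C : ℝ)
    (h : ∀ᶠ y in 𝓝 x, ∀ u v, g y u v = g' y u v) : RB (mtx g) x C ↔ RB (mtx g') x C :=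
  N_RB_congr (h.mono fun y hy => by ext i j; exact hy _ _)

end H31R
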