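import Pool.Agent.Lib.H31R.C4
import Pool.Agent.Lib.H31R.NW

/-!
# H31R, chunk C5a: the standard metric `gstd` is smooth, positive, translation invariant
-/

open scoped ContDiff Topology
open Real Filter

namespace H31R

theorem C5a_co (i : Fin 7) (ξ : EE 7) : ContDiffAt ℝ ∞ (fun y : EE 7 => y i) ξ :=
  (EuclideanSpace.proj i : EE 7 →L[ℝ] ℝ).contDiff.contDiffAt

theorem C5a_qn_pos (ξ : EE 7) : 0 < qn ξ := by
  unfold qn
  positivity

theorem C5a_t {ξ : EE 7} (hξ : ξ 3 ^ 2 < 1) :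
    ContDiffAt ℝ ∞ (fun y : EE 7 => √(1 - y 3 ^ 2)) ξ := by
  refine ContDiffAt.sqrt (contDiffAt_const.sub ((C5a_co 3 ξ).pow 2)) ?_
  have : 0 < 1 - ξ 3 ^ 2 := by linarith
  exact this.ne'

theorem C5a_qn (ξ : EE 7) : ContDiffAt ℝ ∞ (fun y : EE 7 => 2 / qn y) ξ := by
  refine ContDiffAt.div contDiffAt_const ?_ (C5a_qn_pos ξ).ne'
  unfold qn
  exact (((contDiffAt_const.add ((C5a_co 4 ξ).pow 2)).add ((C5a_co 5 ξ).pow 2)).add
    ((C5a_co 6 ξ).pow 2))

theorem C5a_qo1 (ξ u : EE 7) : ContDiffAt ℝ ∞ (fun y : EE 7 => qo1 y u) ξ := by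
  unfold qo1
  exact (C5a_qn ξ).mul (contDiffAt_const.sub
    (((C5a_co 5 ξ).mul contDiffAt_const).sub ((C5a_co 6 ξ).mul contDiffAt_const)))

theorem C5a_qo2 (ξ u : EE 7) : ContDiffAt ℝ ∞ (fun y : EE 7 => qo2 y u) ξ := by
  unfold qo2
  exact (C5a_qn ξ).mul (contDiffAt_const.sub
    (((C5a_co 6 ξ).mul contDiffAt_const).sub ((C5a_co 4 ξ).mul contDiffAt_const)))

theorem C5a_qo3 (ξ u : EE 7) : ContDiffAt ℝ ∞ (fun y : EE 7 => qo3 y u) ξ := by
  unfold qo3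
  exact (C5a_qn ξ).mul (contDiffAt_const.sub
    (((C5a_co 4 ξ).mul contDiffAt_const).sub ((C5a_co 5 ξ).mul contDiffAt_const)))

theorem C5a_sm {ξ : EE 7} (hξ : ξ 3 ^ 2 < 1) (u v : EE 7) :
    ContDiffAt ℝ ∞ (fun y => gstd y u v) ξ := by
  have h0 : 0 < 1 - ξ 3 ^ 2 := by linarith
  have ht := C5a_t hξ
  have htpos : 0 < √(1 - ξ 3 ^ 2) := Real.sqrt_pos.2 h0
  unfold gstd psi
  refine ContDiffAt.add (ContDiffAt.add contDiffAt_const ?_) ?_
  · refine ContDiffAt.mul (ContDiffAt.mul (ContDiffAt.add ?_ ?_) contDiffAt_const)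
      contDiffAt_const
    · refine ContDiffAt.div ((C5a_co 3 ξ).pow 2) (contDiffAt_const.mul (ht.pow 3)) ?_
      positivity
    · exact (Real.smoothTransition.contDiff.contDiffAt).comp ξ
        (contDiffAt_const.sub (contDiffAt_const.mul ((C5a_co 3 ξ).pow 2)))
  · exact (ht.div_const 4).mul ((((C5a_qo1 ξ u).mul (C5a_qo1 ξ v)).add
      ((C5a_qo2 ξ u).mul (C5a_qo2 ξ v))).add ((C5a_qo3 ξ u).mul (C5a_qo3 ξ v)))

theorem gstd_good {ξ : EE 7} (hξ : ξ 3 ^ 2 < 1) : Good gstd ξ := by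
  refine ⟨Filter.Eventually.of_forall fun q u => ⟨fun x y => ?_, fun c x => ?_⟩,
    Filter.Eventually.of_forall fun q u v => ?_, fun i j => C5a_sm hξ _ _⟩
  · simp only [gstd, qo1, qo2, qo3, PiLp.add_apply]
    ring
  · simp only [gstd, qo1, qo2, qo3, PiLp.smul_apply, smul_eq_mul]
    ring
  · simp only [gstd]
    ring

theorem gstd_smooth {ξ : EE 7} (hξ : ξ 3 ^ 2 < 1) (i j : Fin 7) :
    ContDiffAt ℝ ∞ (fun y => mtx gstd y i j) ξ := (gstd_good hξ).sm i j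

/-- `psi > 0` for `|h| < 1/2` and `h^2 / (4 t^3) > 0` for `h ≠ 0`; `qo u = 0` implies that the last three
components of `u` vanish (`du = q × du` implies `du = 0`). -/
theorem gstd_pos {ξ : EE 7} (hξ : ξ 3 ^ 2 < 1) {u : EE 7} (hu : u ≠ 0) : 0 < gstd ξ u u := by
  have h0 : 0 < 1 - ξ 3 ^ 2 := by linarith
  have ht : 0 < √(1 - ξ 3 ^ 2) := Real.sqrt_pos.2 h0
  set t := √(1 - ξ 3 ^ 2) with htdef
  have hq := C5a_qn_pos ξ
  have hpsi : 0 ≤ psi (ξ 3) := Real.smoothTransition.nonneg _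
  have hc : 0 < ξ 3 ^ 2 / (4 * t ^ 3) + psi (ξ 3) := by
    by_cases h : ξ 3 = 0
    · rw [h]
      have : psi 0 = 1 := by
        unfold psi
        exact Real.smoothTransition.one_of_one_le (by norm_num)
      rw [this]
      positivity
    · have : 0 < ξ 3 ^ 2 / (4 * t ^ 3) := by positivity
      linarith
  by_contra hneg
  rw [not_lt] at hneg
  apply hu
  have e : gstd ξ u u = u 0 ^ 2 + u 1 ^ 2 + u 2 ^ 2 +
      (ξ 3 ^ 2 / (4 * t ^ 3) + psi (ξ 3)) * u 3 ^ 2 +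
      t / 4 * (qo1 ξ u ^ 2 + qo2 ξ u ^ 2 + qo3 ξ u ^ 2) := by
    simp only [gstd]
    rw [← htdef]
    ring
  rw [e] at hneg
  have a0 := sq_nonneg (u 0)
  have a1 := sq_nonneg (u 1)
  have a2 := sq_nonneg (u 2)
  have a3 : 0 ≤ (ξ 3 ^ 2 / (4 * t ^ 3) + psi (ξ 3)) * u 3 ^ 2 := by positivity
  have a4 : 0 ≤ t / 4 * (qo1 ξ u ^ 2 + qo2 ξ u ^ 2 + qo3 ξ u ^ 2) := by positivity
  have z0 : u 0 = 0 := by
    have : u 0 ^ 2 = 0 := by linarith
    exact pow_eq_zero_iff (two_ne_zero) |>.1 this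
  have z1 : u 1 = 0 := by
    have : u 1 ^ 2 = 0 := by linarith
    exact pow_eq_zero_iff (two_ne_zero) |>.1 this
  have z2 : u 2 = 0 := by
    have : u 2 ^ 2 = 0 := by linarith
    exact pow_eq_zero_iff (two_ne_zero) |>.1 this
  have z3 : u 3 = 0 := by
    have h1 : (ξ 3 ^ 2 / (4 * t ^ 3) + psi (ξ 3)) * u 3 ^ 2 = 0 := by linarith
    have h2 : u 3 ^ 2 = 0 := (mul_eq_zero.1 h1).resolve_left hc.ne'
    exact pow_eq_zero_iff (two_ne_zero) |>.1 h2
  have z4 : qo1 ξ u ^ 2 + qo2 ξ u ^ 2 + qo3 ξ u ^ 2 = 0 := by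
    have h1 : t / 4 * (qo1 ξ u ^ 2 + qo2 ξ u ^ 2 + qo3 ξ u ^ 2) = 0 := by linarith
    exact (mul_eq_zero.1 h1).resolve_left (by positivity)
  have q1 := sq_nonneg (qo1 ξ u)
  have q2 := sq_nonneg (qo2 ξ u)
  have q3 := sq_nonneg (qo3 ξ u)
  have w1 : qo1 ξ u = 0 := by
    have : qo1 ξ u ^ 2 = 0 := by linarith
    exact pow_eq_zero_iff (two_ne_zero) |>.1 this
  have w2 : qo2 ξ u = 0 := by
    have : qo2 ξ u ^ 2 = 0 := by linarith
    exact pow_eq_zero_iff (two_ne_zero) |>.1 this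
  have w3 : qo3 ξ u = 0 := by
    have : qo3 ξ u ^ 2 = 0 := by linarith
    exact pow_eq_zero_iff (two_ne_zero) |>.1 this
  have h2q : 2 / qn ξ ≠ 0 := by positivity
  have y1 : u 4 - (ξ 5 * u 6 - ξ 6 * u 5) = 0 := by
    unfold qo1 at w1
    exact (mul_eq_zero.1 w1).resolve_left h2q
  have y2 : u 5 - (ξ 6 * u 4 - ξ 4 * u 6) = 0 := by
    unfold qo2 at w2
    exact (mul_eq_zero.1 w2).resolve_left h2q
  have y3 : u 6 - (ξ 4 * u 5 - ξ 5 * u 4) = 0 := by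
    unfold qo3 at w3
    exact (mul_eq_zero.1 w3).resolve_left h2q
  have hs : u 4 ^ 2 + u 5 ^ 2 + u 6 ^ 2 = 0 := by
    linear_combination u 4 * y1 + u 5 * y2 + u 6 * y3
  have b4 := sq_nonneg (u 4)
  have b5 := sq_nonneg (u 5)
  have b6 := sq_nonneg (u 6)
  have z4 : u 4 = 0 := by
    have : u 4 ^ 2 = 0 := by linarith
    exact pow_eq_zero_iff (two_ne_zero) |>.1 this
  have z5 : u 5 = 0 := by
    have : u 5 ^ 2 = 0 := by linarith
    exact pow_eq_zero_iff (two_ne_zero) |>.1 this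
  have z6 : u 6 = 0 := by
    have : u 6 ^ 2 = 0 := by linarith
    exact pow_eq_zero_iff (two_ne_zero) |>.1 this
  ext i
  fin_cases i
  · exact z0
  · exact z1
  · exact z2
  · exact z3
  · exact z4
  · exact z5
  · exact z6

theorem gstd_det {ξ : EE 7} (hξ : ξ 3 ^ 2 < 1) : (mtx gstd ξ).det ≠ 0 := by
  intro hdet
  obtain ⟨v, hv, hMv⟩ := Matrix.exists_mulVec_eq_zero_iff.2 hdet
  have hexp := (gstd_good hξ).expand.self_of_nhds
  let w : EE 7 := WithLp.toLp 2 v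
  have hw : w ≠ 0 := by
    intro h
    apply hv
    ext i
    have := congrArg (fun z : EE 7 => z i) h
    exact this
  have hpos := gstd_pos hξ hw
  rw [hexp] at hpos
  have h0 : ∑ i, ∑ j, mtx gstd ξ i j * w i * w j = 0 := by
    have h1 : ∀ i, ∑ j, mtx gstd ξ i j * w i * w j = w i * (Matrix.mulVec (mtx gstd ξ) v) i := by
      intro i
      simp only [Matrix.mulVec, dotProduct, Finset.mul_sum]
      refine Finset.sum_congr rfl fun j _ => ?_
      show mtx gstd ξ i j * v i * v j = v i * (mtx gstd ξ i j * v j)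
      ring
    rw [Finset.sum_congr rfl fun i _ => h1 i, hMv]
    simp
  rw [h0] at hpos
  exact lt_irrefl _ hpos

/-- `gstd` does not depend on `ξ 0, ξ 1, ξ 2` (naturality for a translation). -/
theorem gstd_RB_trans {a b c h : ℝ} (hh1 : h ^ 2 < 1) (C : ℝ) :
    RB (mtx gstd) (xst a b c h) C ↔ RB (mtx gstd) (xst 0 0 0 h) C := by
  let e : EE 7 := !₂[a, b, c, 0, 0, 0, 0]
  let ψ : EE 7 → EE 7 := fun y => y + e
  have hx : ψ (xst 0 0 0 h) = xst a b c h := by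
    ext i
    fin_cases i <;> simp [ψ, e, xst]
  have hψ : ContDiffAt ℝ ∞ ψ (xst 0 0 0 h) := contDiffAt_id.add contDiffAt_const
  have hxh : (xst a b c h) 3 = h := rfl
  have hxh0 : (xst 0 0 0 h) 3 = h := rfl
  have key := RB_pull (g := gstd) (g' := gstd) (ψ := ψ) (x := xst 0 0 0 h) C hψ
    (by rw [hx]; exact gstd_good (by rw [hxh]; exact hh1))
    (Filter.Eventually.of_forall fun y u v => by
      have hf : fderiv ℝ ψ y = ContinuousLinearMap.id ℝ (EE 7) := by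
        have : HasFDerivAt ψ (ContinuousLinearMap.id ℝ (EE 7)) y :=
          (hasFDerivAt_id y).add_const e
        exact this.fderiv
      rw [hf]
      have h3 : (ψ y) 3 = y 3 := by simp [ψ, e]
      have h4 : (ψ y) 4 = y 4 := by simp [ψ, e]
      have h5 : (ψ y) 5 = y 5 := by simp [ψ, e]
      have h6 : (ψ y) 6 = y 6 := by simp [ψ, e]
      simp only [gstd, qo1, qo2, qo3, qn, h3, h4, h5, h6, ContinuousLinearMap.id_apply])
    (gstd_det (by rw [hxh0]; exact hh1))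
  rw [hx] at key
  exact key

end H31R
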