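import Pool.Agent.Lib.H31R.C5a

/-!
# H31R, chunk C5b: the standard metric `gstd` is flat for `1/2 < |h| < 1`
-/

open scoped ContDiff Topology
open Real Filter

namespace H31R

/-- the flattening map `(X, h, q) ↦ (X, sqrt t (1, q) / |(1, q)|)`, `t = sqrt (1 - h^2)` -/
noncomputable def Fl (ξ : EE 7) : EE 7 :=
  !₂[ξ 0, ξ 1, ξ 2, √(√(1 - ξ 3 ^ 2)) / √(qn ξ), √(√(1 - ξ 3 ^ 2)) * ξ 4 / √(qn ξ),
    √(√(1 - ξ 3 ^ 2)) * ξ 5 / √(qn ξ), √(√(1 - ξ 3 ^ 2)) * ξ 6 / √(qn ξ)]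

theorem C5b_r {ξ : EE 7} (hξ : ξ 3 ^ 2 < 1) :
    ContDiffAt ℝ ∞ (fun y : EE 7 => √(√(1 - y 3 ^ 2))) ξ := by
  refine ContDiffAt.sqrt (C5a_t hξ) ?_
  have h0 : 0 < 1 - ξ 3 ^ 2 := by linarith
  exact (Real.sqrt_pos.2 h0).ne'

theorem C5b_m (ξ : EE 7) : ContDiffAt ℝ ∞ (fun y : EE 7 => √(qn y)) ξ := by
  refine ContDiffAt.sqrt ?_ (C5a_qn_pos ξ).ne'
  unfold qn
  exact (((contDiffAt_const.add ((C5a_co 4 ξ).pow 2)).add ((C5a_co 5 ξ).pow 2)).add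
    ((C5a_co 6 ξ).pow 2))

theorem Fl_smooth {ξ : EE 7} (hξ : ξ 3 ^ 2 < 1) : ContDiffAt ℝ ∞ Fl ξ := by
  have hm : √(qn ξ) ≠ 0 := (Real.sqrt_pos.2 (C5a_qn_pos ξ)).ne'
  have hr := C5b_r hξ
  have hM := C5b_m ξ
  rw [contDiffAt_euclidean]
  intro i
  fin_cases i
  · exact C5a_co 0 ξ
  · exact C5a_co 1 ξ
  · exact C5a_co 2 ξ
  · exact hr.div hM hm
  · exact (hr.mul (C5a_co 4 ξ)).div hM hm
  · exact (hr.mul (C5a_co 5 ξ)).div hM hm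
  · exact (hr.mul (C5a_co 6 ξ)).div hM hm

/-- projections -/
noncomputable def C5b_pr (i : Fin 7) : EE 7 →L[ℝ] ℝ := EuclideanSpace.proj i

theorem C5b_pr_apply (i : Fin 7) (u : EE 7) : C5b_pr i u = u i := rfl

theorem C5b_hpr (i : Fin 7) (ξ : EE 7) : HasFDerivAt (fun y : EE 7 => y i) (C5b_pr i) ξ :=
  (C5b_pr i).hasFDerivAt

theorem C5b_dr {ξ : EE 7} (hξ : ξ 3 ^ 2 < 1) :
    HasFDerivAt (fun y : EE 7 => √(√(1 - y 3 ^ 2)))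
      ((-(ξ 3 / (2 * √(√(1 - ξ 3 ^ 2)) * √(1 - ξ 3 ^ 2)))) • C5b_pr 3) ξ := by
  have h0 : 0 < 1 - ξ 3 ^ 2 := by linarith
  have ht : 0 < √(1 - ξ 3 ^ 2) := Real.sqrt_pos.2 h0
  have hr : 0 < √(√(1 - ξ 3 ^ 2)) := Real.sqrt_pos.2 ht
  have h1 := (((C5b_hpr 3 ξ).pow 2).const_sub 1).sqrt h0.ne'
  have h2 := h1.sqrt ht.ne'
  refine h2.congr_fderiv ?_
  ext u
  simp only [smul_apply, neg_apply, C5b_pr_apply,
    smul_eq_mul, nsmul_eq_mul]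
  push_cast
  field_simp

theorem C5b_dm (ξ : EE 7) :
    HasFDerivAt (fun y : EE 7 => √(qn y))
      ((1 / √(qn ξ)) • (ξ 4 • C5b_pr 4 + ξ 5 • C5b_pr 5 + ξ 6 • C5b_pr 6)) ξ := by
  have hq := C5a_qn_pos ξ
  have hm : 0 < √(qn ξ) := Real.sqrt_pos.2 hq
  have h1 : HasFDerivAt qn (((2 : ℕ) * ξ 4 ^ (2 - 1)) • C5b_pr 4 + ((2 : ℕ) * ξ 5 ^ (2 - 1)) • C5b_pr 5
      + ((2 : ℕ) * ξ 6 ^ (2 - 1)) • C5b_pr 6) ξ := by
    have h4 := (C5b_hpr 4 ξ).pow 2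
    have h5 := (C5b_hpr 5 ξ).pow 2
    have h6 := (C5b_hpr 6 ξ).pow 2
    have := ((h4.const_add 1).add h5).add h6
    refine this.congr_fderiv ?_
    ext u
    simp [C5b_pr_apply]
  have h2 := h1.sqrt hq.ne'
  refine h2.congr_fderiv ?_
  ext u
  simp only [smul_apply, add_apply, C5b_pr_apply,
    smul_eq_mul]
  push_cast
  field_simp

/-- derivative of the components -/
noncomputable def C5b_D (ξ : EE 7) (c c' : ℝ) (u : EE 7) : ℝ :=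
  (-(ξ 3 / (2 * √(√(1 - ξ 3 ^ 2)) * √(1 - ξ 3 ^ 2)) * u 3) * c
        + √(√(1 - ξ 3 ^ 2)) * c') / √(qn ξ)
      - √(√(1 - ξ 3 ^ 2)) * c * (ξ 4 * u 4 + ξ 5 * u 5 + ξ 6 * u 6) / √(qn ξ) ^ 3

/-- derivative of the components -/
theorem C5b_comp {ξ : EE 7} (hξ : ξ 3 ^ 2 < 1) {c : EE 7 → ℝ} {c' : EE 7 →L[ℝ] ℝ}
    (hc : HasFDerivAt c c' ξ) (u : EE 7) :
    fderiv ℝ (fun y : EE 7 => √(√(1 - y 3 ^ 2)) * c y / √(qn y)) ξ u =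
      C5b_D ξ (c ξ) (c' u) u := by
  unfold C5b_D
  have hq := C5a_qn_pos ξ
  have hm : 0 < √(qn ξ) := Real.sqrt_pos.2 hq
  have h1 := ((C5b_dr hξ).mul hc).mul ((hasDerivAt_inv hm.ne').comp_hasFDerivAt ξ (C5b_dm ξ))
  have h2 : (fun y : EE 7 => √(√(1 - y 3 ^ 2)) * c y / √(qn y)) =
      (fun y : EE 7 => √(√(1 - y 3 ^ 2))) * c * (Inv.inv ∘ fun y : EE 7 => √(qn y)) := by
    funext y
    exact div_eq_mul_inv _ _
  rw [h2, h1.fderiv]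
  simp only [smul_apply, add_apply, C5b_pr_apply, smul_eq_mul, Pi.mul_apply, Function.comp_apply]
  have hr : 0 < √(√(1 - ξ 3 ^ 2)) := Real.sqrt_pos.2 (Real.sqrt_pos.2 (by linarith))
  have ht : 0 < √(1 - ξ 3 ^ 2) := Real.sqrt_pos.2 (by linarith)
  field_simp
  ring

/-- `Fl` pulls the Euclidean metric back to `gstd`, where `psi = 0`:
`|dQ|^2 = (d sqrt t)^2 + t |d ((1,q)/|(1,q)|)|^2 = dt^2/(4t) + (t/4)|Ω|^2`. -/
theorem Fl_pull {ξ : EE 7} (h0 : 1 / 4 ≤ ξ 3 ^ 2) (hξ : ξ 3 ^ 2 < 1) (u v : EE 7) :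
    gstd ξ u v = ∑ i, (fderiv ℝ Fl ξ u) i * (fderiv ℝ Fl ξ v) i := by
  have hd : DifferentiableAt ℝ Fl ξ := (Fl_smooth hξ).differentiableAt (by simp)
  have hcomp : ∀ i (w : EE 7), (fderiv ℝ Fl ξ w) i = fderiv ℝ (fun y => Fl y i) ξ w := by
    intro i w
    have h := ((C5b_pr i).hasFDerivAt.comp ξ hd.hasFDerivAt).fderiv
    have h2 : (fun y => Fl y i) = (C5b_pr i) ∘ Fl := rfl
    rw [h2, h]
    rfl
  have e0 : ∀ w : EE 7, (fderiv ℝ Fl ξ w) 0 = w 0 := by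
    intro w
    rw [hcomp]
    exact congrArg (fun L : EE 7 →L[ℝ] ℝ => L w) (C5b_hpr 0 ξ).fderiv
  have e1 : ∀ w : EE 7, (fderiv ℝ Fl ξ w) 1 = w 1 := by
    intro w
    rw [hcomp]
    exact congrArg (fun L : EE 7 →L[ℝ] ℝ => L w) (C5b_hpr 1 ξ).fderiv
  have e2 : ∀ w : EE 7, (fderiv ℝ Fl ξ w) 2 = w 2 := by
    intro w
    rw [hcomp]
    exact congrArg (fun L : EE 7 →L[ℝ] ℝ => L w) (C5b_hpr 2 ξ).fderiv
  have e3 : ∀ w : EE 7, (fderiv ℝ Fl ξ w) 3 = C5b_D ξ 1 0 w := by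
    intro w
    rw [hcomp]
    have h := C5b_comp hξ (hasFDerivAt_const (1 : ℝ) ξ) w
    have h2 : (fun y => Fl y 3) = (fun y : EE 7 => √(√(1 - y 3 ^ 2)) * 1 / √(qn y)) := by
      funext y
      rw [mul_one]
      rfl
    rw [h2]
    exact h
  have e4 : ∀ w : EE 7, (fderiv ℝ Fl ξ w) 4 = C5b_D ξ (ξ 4) (w 4) w := by
    intro w
    rw [hcomp]
    exact C5b_comp hξ (C5b_hpr 4 ξ) w
  have e5 : ∀ w : EE 7, (fderiv ℝ Fl ξ w) 5 = C5b_D ξ (ξ 5) (w 5) w := by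
    intro w
    rw [hcomp]
    exact C5b_comp hξ (C5b_hpr 5 ξ) w
  have e6 : ∀ w : EE 7, (fderiv ℝ Fl ξ w) 6 = C5b_D ξ (ξ 6) (w 6) w := by
    intro w
    rw [hcomp]
    exact C5b_comp hξ (C5b_hpr 6 ξ) w
  have hpsi : psi (ξ 3) = 0 := by
    unfold psi
    exact Real.smoothTransition.zero_of_nonpos (by linarith)
  rw [Fin.sum_univ_seven, e0, e1, e2, e3, e4, e5, e6, e0, e1, e2, e3, e4, e5, e6]
  have hq := C5a_qn_pos ξ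
  have hm : 0 < √(qn ξ) := Real.sqrt_pos.2 hq
  have hms : √(qn ξ) ^ 2 = qn ξ := Real.sq_sqrt hq.le
  have ht : 0 < √(1 - ξ 3 ^ 2) := Real.sqrt_pos.2 (by linarith)
  have hr : 0 < √(√(1 - ξ 3 ^ 2)) := Real.sqrt_pos.2 ht
  have hrs : √(√(1 - ξ 3 ^ 2)) ^ 2 = √(1 - ξ 3 ^ 2) := Real.sq_sqrt ht.le
  simp only [gstd, qo1, qo2, qo3, hpsi, C5b_D]
  set t := √(1 - ξ 3 ^ 2)
  set r := √t
  set m := √(qn ξ)
  have hN : m ^ 2 = 1 + ξ 4 ^ 2 + ξ 5 ^ 2 + ξ 6 ^ 2 := hms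
  have hs : (1 + ξ 4 ^ 2 + ξ 5 ^ 2 + ξ 6 ^ 2) * (m⁻¹) ^ 2 = 1 := by
    rw [← hN]
    field_simp
  rw [← hms, ← hrs]
  linear_combination (-((-(ξ 3 / (2 * r * r ^ 2) * u 3)) * (-(ξ 3 / (2 * r * r ^ 2) * v 3))
    - ((-(ξ 3 / (2 * r * r ^ 2) * u 3)) * r * (ξ 4 * v 4 + ξ 5 * v 5 + ξ 6 * v 6)
      + (-(ξ 3 / (2 * r * r ^ 2) * v 3)) * r * (ξ 4 * u 4 + ξ 5 * u 5 + ξ 6 * u 6)) * (m⁻¹) ^ 2
    - r ^ 2 * (u 4 * v 4 + u 5 * v 5 + u 6 * v 6) * (m⁻¹) ^ 2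
    + r ^ 2 * (ξ 4 * u 4 + ξ 5 * u 5 + ξ 6 * u 6) * (ξ 4 * v 4 + ξ 5 * v 5 + ξ 6 * v 6)
      * (m⁻¹) ^ 4)) * hs

theorem C5b_const_ric {d : ℕ} (M : Matrix (Fin d) (Fin d) ℝ) (i j : Fin d) (x : EE d) :
    ric (fun _ => M) i j x = 0 := by
  have h1 : ∀ k i j, chr (fun _ : EE d => M) k i j = fun _ => 0 := by
    intro k i j
    funext x
    unfold chr pd
    simp only [fderiv_fun_const, Pi.zero_apply, zero_apply, add_zero, sub_zero,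
      mul_zero, Finset.sum_const_zero]
  unfold ric
  simp only [h1]
  unfold pd
  simp only [fderiv_fun_const, Pi.zero_apply, zero_apply, add_zero, sub_zero,
      mul_zero, Finset.sum_const_zero]

theorem gstd_flat {ξ : EE 7} (h0 : 1 / 4 < ξ 3 ^ 2) (hξ : ξ 3 ^ 2 < 1) :
    RB (mtx gstd) ξ 0 := by
  let g : EE 7 → EE 7 → EE 7 → ℝ := fun _ u v => ∑ i, u i * v i
  have hg : Good g (Fl ξ) := by
    refine ⟨Filter.Eventually.of_forall fun q u => ⟨fun x y => ?_, fun c x => ?_⟩,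
      Filter.Eventually.of_forall fun q u v => ?_, fun i j => ?_⟩
    · simp only [g, PiLp.add_apply, mul_add, Finset.sum_add_distrib]
    · simp only [g, PiLp.smul_apply, smul_eq_mul, Finset.mul_sum]
      refine Finset.sum_congr rfl fun i _ => ?_
      ring
    · simp only [g]
      refine Finset.sum_congr rfl fun i _ => ?_
      ring
    · exact contDiffAt_const
  have hopen : ∀ᶠ y in 𝓝 ξ, 1 / 4 < y 3 ^ 2 ∧ y 3 ^ 2 < 1 := by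
    have hc : ContinuousAt (fun y : EE 7 => y 3 ^ 2) ξ := ((C5a_co 3 ξ).pow 2).continuousAt
    exact (hc.eventually (lt_mem_nhds h0)).and (hc.eventually (gt_mem_nhds hξ))
  rw [← RB_pull (g := g) (g' := gstd) (ψ := Fl) (x := ξ) 0 (Fl_smooth hξ) hg ?_ (gstd_det hξ)]
  · intro v
    have hric : ∀ i j, ric (mtx g) i j (Fl ξ) = 0 := fun i j =>
      C5b_const_ric (mtx g (Fl ξ)) i j (Fl ξ)
    simp only [hric, zero_mul, Finset.sum_const_zero, abs_zero, le_refl]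
  · filter_upwards [hopen] with y hy u v
    exact Fl_pull hy.1.le hy.2 u v

end H31R
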