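import Pool.Agent.Lib.H31R.N7

/-!
# H31R, part N8: the Ricci bound on a compact set
-/

open scoped ContDiff Topology
open Set Filter

namespace H31R

variable {d : ℕ} {G : EE d → Mt d} {K : Set (EE d)}

theorem N_ric_cont {y : EE d} (hs : ∀ i j, ContDiffAt ℝ ∞ (fun z => G z i j) y)
    (hd : (G y).det ≠ 0) (i j : Fin d) : ContinuousAt (fun z => ric G i j z) y := by
  have h1 : ∀ i j, ContDiffAt ℝ ∞ (fun w : ℝ × EE d => G w.2 i j) ((0 : ℝ), y) := fun i j =>
    ContDiffAt.comp ((0 : ℝ), y) (g := fun z => G z i j) (f := Prod.snd) (hs i j) contDiffAt_snd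
  have h2 := N_ric_joint (P := ℝ) (G := fun _ => G) (z := ((0 : ℝ), y)) h1 hd i j
  have h3 : ContinuousAt (fun z : EE d => ((0 : ℝ), z)) y := by fun_prop
  exact ContinuousAt.comp (g := fun w : ℝ × EE d => ric G i j w.2) (f := fun z => ((0 : ℝ), z))
    h2.continuousAt h3

/-- A metric which is smooth and positive definite near a compact set satisfies a Ricci bound there. -/
theorem N_RB_compact (hK : IsCompact K)
    (hs : ∀ y ∈ K, ∀ i j, ContDiffAt ℝ ∞ (fun z => G z i j) y)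
    (hp : ∀ y ∈ K, ∀ v : Fin d → ℝ, v ≠ 0 → 0 < ∑ i, ∑ j, G y i j * v i * v j) :
    ∃ C, 0 ≤ C ∧ ∀ y ∈ K, RB G y C := by
  have hfam : SmFam (P := ℝ) (fun _ => G) (({0} : Set ℝ) ×ˢ K) := by
    refine ⟨isCompact_singleton.prod hK, ?_, ?_⟩
    · rintro ⟨p, y⟩ ⟨-, hy⟩ i j
      exact ContDiffAt.comp (((0 : ℝ), p), y) (g := fun z => G z i j) (f := Prod.snd) (hs y hy i j)
        contDiffAt_snd
    · rintro ⟨p, y⟩ ⟨-, hy⟩ v hv
      exact hp y hy v hv
  obtain ⟨C1, δ, hC1, hδ, h1⟩ := hfam.lower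
  have hb : ∀ i j, ∃ C, ∀ y ∈ K, ‖ric G i j y‖ ≤ C := fun i j =>
    hK.exists_bound_of_continuousOn fun y hy =>
      (N_ric_cont (hs y hy) (N_det_of_pos (hp y hy)) i j).continuousWithinAt
  choose C hC using hb
  set C2 : ℝ := ∑ i, ∑ j, |C i j| with hC2
  have hC2' : 0 ≤ C2 := Finset.sum_nonneg fun i _ => Finset.sum_nonneg fun j _ => abs_nonneg _
  refine ⟨C2 * d * C1, by positivity, ?_⟩
  intro y hy v
  have e1 := N_qf_bound (A := ricM G y) (ε := C2) (fun i j => by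
    have h3 := hC i j y hy
    refine h3.trans ((le_abs_self _).trans ?_)
    rw [hC2]
    exact (Finset.single_le_sum (f := fun j => |C i j|) (fun j _ => abs_nonneg _)
      (Finset.mem_univ j)).trans (Finset.single_le_sum (f := fun i => ∑ j, |C i j|)
      (fun i _ => Finset.sum_nonneg fun j _ => abs_nonneg _) (Finset.mem_univ i))) v
  have e2 := (h1 (0, y) ⟨rfl, hy⟩ 0 (by simpa using hδ.le) v).2
  refine e1.trans ?_
  calc C2 * d * ∑ i, v i ^ 2 ≤ C2 * d * (C1 * ∑ i, ∑ j, G y i j * v i * v j) :=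
        mul_le_mul_of_nonneg_left e2 (by positivity)
    _ = C2 * d * C1 * ∑ i, ∑ j, G y i j * v i * v j := by ring

end H31R
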