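import Pool.Agent.Lib.H31R.C5b
import Pool.Agent.Lib.H31R.N8

/-!
# H31R, chunk C6: Ricci bound for the standard metric `gstd`
(needs part N: continuity of `ric` in the base point, `RB` from bounds of the entries)
-/

open scoped ContDiff Topology
open Real Filter

namespace H31R

theorem C6_xst3 (a b c h : ℝ) : xst a b c h 3 = h := rfl

theorem C6_pos {ξ : EE 7} (hξ : ξ 3 ^ 2 < 1) (v : Fin 7 → ℝ) :
    ∑ i, ∑ j, mtx gstd ξ i j * v i * v j = gstd ξ (WithLp.toLp 2 v) (WithLp.toLp 2 v) :=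
  ((gstd_good hξ).expand.self_of_nhds (WithLp.toLp 2 v) (WithLp.toLp 2 v)).symm

/-- compactness (`RB` at `xst 0 0 0 h`, `h ∈ [-1/2, 1/2]`: `ric` is continuous there, `gstd` is
positive definite) and `gstd_flat` -/
theorem gstd_RB : ∃ C1 : ℝ, 0 < C1 ∧ ∀ a b c h : ℝ, h ^ 2 < 1 →
    RB (mtx gstd) (xst a b c h) C1 := by
  have hpos : ∀ ξ : EE 7, ξ 3 ^ 2 < 1 → ∀ v : Fin 7 → ℝ, v ≠ 0 →
      0 < ∑ i, ∑ j, mtx gstd ξ i j * v i * v j := by
    intro ξ hξ v hv
    rw [C6_pos hξ]
    refine gstd_pos hξ ?_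
    intro h0
    apply hv
    funext i
    exact congrArg (fun u : EE 7 => u i) h0
  have hc : Continuous fun h : ℝ => xst 0 0 0 h := by
    unfold xst
    refine (PiLp.continuous_toLp 2 _).comp (continuous_pi fun i => ?_)
    fin_cases i <;> first | exact continuous_const | exact continuous_id
  have hK : IsCompact ((fun h : ℝ => xst 0 0 0 h) '' Set.Icc (-(1 / 2)) (1 / 2)) :=
    isCompact_Icc.image hc
  have hlt : ∀ h ∈ Set.Icc (-(1 / 2) : ℝ) (1 / 2), h ^ 2 < 1 := by
    intro h hh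
    nlinarith [hh.1, hh.2]
  obtain ⟨C, hC, hb⟩ := N_RB_compact (G := mtx gstd) hK
    (by
      rintro _ ⟨h, hh, rfl⟩ i j
      exact gstd_smooth (hlt h hh) i j)
    (by
      rintro _ ⟨h, hh, rfl⟩ v hv
      exact hpos _ (hlt h hh) v hv)
  refine ⟨C + 1, by linarith, ?_⟩
  intro a b c h hh
  by_cases h4 : 1 / 4 < h ^ 2
  · exact N_RB_mono (fun v => by
      by_cases hv : v = 0
      · subst hv; simp
      · exact (hpos _ hh v hv).le) (gstd_flat (ξ := xst a b c h) h4 hh) (by linarith)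
  · rw [gstd_RB_trans hh]
    have hm : h ∈ Set.Icc (-(1 / 2) : ℝ) (1 / 2) := by
      have := abs_le_of_sq_le_sq' (a := h) (b := 1 / 2) (by norm_num; linarith) (by norm_num)
      exact this
    exact N_RB_mono (fun v => by
      by_cases hv : v = 0
      · subst hv; simp
      · exact (hpos (xst 0 0 0 h) hh v hv).le) (hb _ ⟨h, hm, rfl⟩) (by linarith)

end H31R
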