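import Pool.Agent.Lib.H31R.C6

/-!
# H31R, chunk C7: Ricci bound of the outer metric `go`
-/

open scoped ContDiff Topology
open Real Filter

namespace H31R

/-! ### smoothness of the ingredients -/

theorem C7_dot {f g : EE 7 → V3} {p : EE 7} (hf : ContDiffAt ℝ ∞ f p) (hg : ContDiffAt ℝ ∞ g p) :
    ContDiffAt ℝ ∞ (fun q => dot (f q) (g q)) p := by
  unfold dot
  exact (((contDiffAt_pi.1 hf 0).mul (contDiffAt_pi.1 hg 0)).add
    ((contDiffAt_pi.1 hf 1).mul (contDiffAt_pi.1 hg 1))).add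
    ((contDiffAt_pi.1 hf 2).mul (contDiffAt_pi.1 hg 2))

theorem C7_crs {f g : EE 7 → V3} {p : EE 7} (hf : ContDiffAt ℝ ∞ f p) (hg : ContDiffAt ℝ ∞ g p) :
    ContDiffAt ℝ ∞ (fun q => crs (f q) (g q)) p := by
  have f0 := contDiffAt_pi.1 hf 0
  have f1 := contDiffAt_pi.1 hf 1
  have f2 := contDiffAt_pi.1 hf 2
  have g0 := contDiffAt_pi.1 hg 0
  have g1 := contDiffAt_pi.1 hg 1
  have g2 := contDiffAt_pi.1 hg 2
  refine contDiffAt_pi.2 fun i => ?_
  fin_cases i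
  · exact (f1.mul g2).sub (f2.mul g1)
  · exact (f2.mul g0).sub (f0.mul g2)
  · exact (f0.mul g1).sub (f1.mul g0)

theorem C7_yv (p : EE 7) : ContDiffAt ℝ ∞ yv p := by
  refine contDiffAt_pi.2 fun i => ?_
  fin_cases i
  · exact C4_coord_smooth 1 p
  · exact C4_coord_smooth 2 p
  · exact C4_coord_smooth 3 p

theorem C7_zv (p : EE 7) : ContDiffAt ℝ ∞ zv p := by
  refine contDiffAt_pi.2 fun i => ?_
  fin_cases i
  · exact C4_coord_smooth 4 p
  · exact C4_coord_smooth 5 p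
  · exact C4_coord_smooth 6 p

theorem C7_nr {f : EE 7 → V3} {p : EE 7} (hf : ContDiffAt ℝ ∞ f p) (h : 0 < dot (f p) (f p)) :
    ContDiffAt ℝ ∞ (fun q => nr (f q)) p :=
  (C7_dot hf hf).sqrt h.ne'

section smooth

variable {p : EE 7} (hp : p ∈ OM)

include hp

theorem C7_nry : ContDiffAt ℝ ∞ (fun q => nr (yv q)) p := C7_nr (C7_yv p) (C0a_dot_pos hp.1)

theorem C7_nrz : ContDiffAt ℝ ∞ (fun q => nr (zv q)) p := C7_nr (C7_zv p) (C0a_dot_pos hp.2)

theorem C7_x1 : ContDiffAt ℝ ∞ x1 p := (C7_nry hp).log (nr_pos hp.1).ne'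

theorem C7_wv : ContDiffAt ℝ ∞ wv p := ((C7_nry hp).inv (nr_pos hp.1).ne').smul (C7_yv p)

theorem C7_sv : ContDiffAt ℝ ∞ sv p := ((C7_nrz hp).inv (nr_pos hp.2).ne').smul (C7_zv p)

theorem C7_hh : ContDiffAt ℝ ∞ hh p := C7_dot (C7_wv hp) (C7_sv hp)

theorem C7_lv : ContDiffAt ℝ ∞ lv p := (C7_sv hp).sub ((C7_hh hp).smul (C7_wv hp))

theorem C7_Jl : ContDiffAt ℝ ∞ Jl p := C7_crs (C7_wv hp) (C7_sv hp)

theorem C7_xi1 (u : EE 7) : ContDiffAt ℝ ∞ (fun q => xi1 q u) p :=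
  (C7_dot (C7_yv p) contDiffAt_const).div (C7_dot (C7_yv p) (C7_yv p)) (C0a_dot_pos hp.1).ne'

theorem C7_xi2 (u : EE 7) : ContDiffAt ℝ ∞ (fun q => xi2 q u) p :=
  (C7_dot (C7_zv p) contDiffAt_const).div (C7_dot (C7_zv p) (C7_zv p)) (C0a_dot_pos hp.2).ne'

theorem C7_dw (u : EE 7) : ContDiffAt ℝ ∞ (fun q => dw q u) p :=
  (((C7_nry hp).inv (nr_pos hp.1).ne').smul contDiffAt_const).sub ((C7_xi1 hp u).smul (C7_wv hp))

theorem C7_ds (u : EE 7) : ContDiffAt ℝ ∞ (fun q => ds q u) p :=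
  (((C7_nrz hp).inv (nr_pos hp.2).ne').smul contDiffAt_const).sub ((C7_xi2 hp u).smul (C7_sv hp))

theorem C7_dh (u : EE 7) : ContDiffAt ℝ ∞ (fun q => dh q u) p :=
  (C7_dot (C7_dw hp u) (C7_sv hp)).add (C7_dot (C7_wv hp) (C7_ds hp u))

theorem C7_Dl (u : EE 7) : ContDiffAt ℝ ∞ (fun q => Dl q u) p :=
  ((C7_ds hp u).sub ((C7_dot (C7_wv hp) (C7_ds hp u)).smul (C7_wv hp))).sub
    ((C7_hh hp).smul (C7_dw hp u))

theorem C7_Av (k : ℕ) (u : EE 7) : ContDiffAt ℝ ∞ (fun q => Av (prof k) q u) p := by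
  have h3 : ContDiffAt ℝ ∞ (fun q => (prof k).b3 (x1 q)) p :=
    (b3_smooth k).contDiffAt.comp p (C7_x1 hp)
  exact (C7_Dl hp u).sub (((contDiffAt_const.mul h3).mul (C7_xi2 hp u)).smul (C7_Jl hp))

theorem C7_Bv (k : ℕ) (u : EE 7) (hl : 0 < dot (lv p) (lv p)) :
    ContDiffAt ℝ ∞ (fun q => Bv (prof k) (nr (lv q)) q u) p := by
  have h1 : ContDiffAt ℝ ∞ (fun q => (prof k).b1 (x1 q)) p :=
    (b1_smooth k).contDiffAt.comp p (C7_x1 hp)
  have h2 : ContDiffAt ℝ ∞ (fun q => (prof k).b2 (x1 q)) p :=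
    (b2_smooth k).contDiffAt.comp p (C7_x1 hp)
  have hn := C7_nr (C7_lv hp) hl
  have hn0 : nr (lv p) ≠ 0 := (Real.sqrt_pos.2 hl).ne'
  have hR : ContDiffAt ℝ ∞ (fun q => 1 / nr (lv q)) p := contDiffAt_const.div hn hn0
  have hc : ContDiffAt ℝ ∞ (fun _ : EE 7 => (1 / 2 : ℝ)) p := contDiffAt_const
  exact (hc.smul (C7_crs (C7_wv hp) (C7_dw hp u))).sub
    (hR.smul (((h1.mul (C7_xi2 hp u)).smul (C7_lv hp)).add
      ((h2.mul (C7_xi1 hp u)).smul (C7_Jl hp))))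

theorem C7_psi : ContDiffAt ℝ ∞ (fun q => psi (hh q)) p := by
  unfold psi
  exact (Real.smoothTransition.contDiff.contDiffAt).comp p
    (contDiffAt_const.sub (contDiffAt_const.mul ((C7_hh hp).pow 2)))

theorem C7_go (k : ℕ) (hl : 0 < dot (lv p) (lv p)) (u v : EE 7) :
    ContDiffAt ℝ ∞ (fun q => go (prof k) q u v) p := by
  have hn := C7_nr (C7_lv hp) hl
  have hn0 : nr (lv p) ≠ 0 := (Real.sqrt_pos.2 hl).ne'
  have hn4 : 4 * nr (lv p) ≠ 0 := mul_ne_zero (by norm_num) hn0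
  have h3 : ContDiffAt ℝ ∞ (fun q : EE 7 => xi3 q u * xi3 q v) p := by
    show ContDiffAt ℝ ∞ (fun _ : EE 7 => u 0 * v 0) p
    exact contDiffAt_const
  exact ((((((C7_xi1 hp u).mul (C7_xi1 hp v)).add ((C7_xi2 hp u).mul (C7_xi2 hp v))).add h3).add
    ((C7_dot (C7_Av hp k u) (C7_Av hp k v)).div (contDiffAt_const.mul hn) hn4)).add
    (hn.mul (C7_dot (C7_Bv hp k u hl) (C7_Bv hp k v hl)))).add
    (((C7_psi hp).mul (C7_dh hp u)).mul (C7_dh hp v))

end smooth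

/-! ### bilinearity -/

theorem C7_yv_add (u v : EE 7) : yv (u + v) = yv u + yv v := by
  refine C0a_ext ?_ ?_ ?_ <;> rfl

theorem C7_zv_add (u v : EE 7) : zv (u + v) = zv u + zv v := by
  refine C0a_ext ?_ ?_ ?_ <;> rfl

theorem C7_yv_smul (c : ℝ) (u : EE 7) : yv (c • u) = c • yv u := by
  refine C0a_ext ?_ ?_ ?_ <;> rfl

theorem C7_zv_smul (c : ℝ) (u : EE 7) : zv (c • u) = c • zv u := by
  refine C0a_ext ?_ ?_ ?_ <;> rfl

theorem C7_dot_add_left (u v w : V3) : dot (u + v) w = dot u w + dot v w := by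
  rw [dot_comm, C0_dot_add_right, dot_comm w u, dot_comm w v]

theorem C7_crs_add (u v w : V3) : crs u (v + w) = crs u v + crs u w := by
  refine C0a_ext ?_ ?_ ?_ <;> simp only [Pi.add_apply, C0a_crs0, C0a_crs1, C0a_crs2] <;> ring

theorem C7_crs_smul (c : ℝ) (u v : V3) : crs u (c • v) = c • crs u v := by
  refine C0a_ext ?_ ?_ ?_ <;>
    simp only [Pi.smul_apply, smul_eq_mul, C0a_crs0, C0a_crs1, C0a_crs2] <;> ring

theorem C7_xi1_add (p u v : EE 7) : xi1 p (u + v) = xi1 p u + xi1 p v := by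
  unfold xi1
  rw [C7_yv_add, C0_dot_add_right, add_div]

theorem C7_xi2_add (p u v : EE 7) : xi2 p (u + v) = xi2 p u + xi2 p v := by
  unfold xi2
  rw [C7_zv_add, C0_dot_add_right, add_div]

theorem C7_xi1_smul (c : ℝ) (p u : EE 7) : xi1 p (c • u) = c * xi1 p u := by
  unfold xi1
  rw [C7_yv_smul, C0_dot_smul_right, mul_div_assoc]

theorem C7_xi2_smul (c : ℝ) (p u : EE 7) : xi2 p (c • u) = c * xi2 p u := by
  unfold xi2
  rw [C7_zv_smul, C0_dot_smul_right, mul_div_assoc]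

theorem C7_dw_add (p u v : EE 7) : dw p (u + v) = dw p u + dw p v := by
  unfold dw
  rw [C7_yv_add, C7_xi1_add]
  module

theorem C7_ds_add (p u v : EE 7) : ds p (u + v) = ds p u + ds p v := by
  unfold ds
  rw [C7_zv_add, C7_xi2_add]
  module

theorem C7_dw_smul (c : ℝ) (p u : EE 7) : dw p (c • u) = c • dw p u := by
  unfold dw
  rw [C7_yv_smul, C7_xi1_smul]
  module

theorem C7_ds_smul (c : ℝ) (p u : EE 7) : ds p (c • u) = c • ds p u := by
  unfold ds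
  rw [C7_zv_smul, C7_xi2_smul]
  module

theorem C7_dh_add (p u v : EE 7) : dh p (u + v) = dh p u + dh p v := by
  unfold dh
  rw [C7_dw_add, C7_ds_add, C0_dot_add_right, C7_dot_add_left]
  ring

theorem C7_dh_smul (c : ℝ) (p u : EE 7) : dh p (c • u) = c * dh p u := by
  unfold dh
  rw [C7_dw_smul, C7_ds_smul, C0_dot_smul_right, C0_dot_smul_left]
  ring

theorem C7_Dl_add (p u v : EE 7) : Dl p (u + v) = Dl p u + Dl p v := by
  unfold Dl
  rw [C7_dw_add, C7_ds_add, C0_dot_add_right]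
  module

theorem C7_Dl_smul (c : ℝ) (p u : EE 7) : Dl p (c • u) = c • Dl p u := by
  unfold Dl
  rw [C7_dw_smul, C7_ds_smul, C0_dot_smul_right]
  module

theorem C7_Av_add (P : Prof) (p u v : EE 7) : Av P p (u + v) = Av P p u + Av P p v := by
  unfold Av
  rw [C7_Dl_add, C7_xi2_add]
  module

theorem C7_Av_smul (P : Prof) (c : ℝ) (p u : EE 7) : Av P p (c • u) = c • Av P p u := by
  unfold Av
  rw [C7_Dl_smul, C7_xi2_smul]
  module

theorem C7_Bv_add (P : Prof) (R : ℝ) (p u v : EE 7) :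
    Bv P R p (u + v) = Bv P R p u + Bv P R p v := by
  unfold Bv
  rw [C7_dw_add, C7_xi1_add, C7_xi2_add, C7_crs_add]
  module

theorem C7_Bv_smul (P : Prof) (R c : ℝ) (p u : EE 7) : Bv P R p (c • u) = c • Bv P R p u := by
  unfold Bv
  rw [C7_dw_smul, C7_xi1_smul, C7_xi2_smul, C7_crs_smul]
  module

theorem C7_go_lin (P : Prof) (p u : EE 7) : IsLinearMap ℝ (go P p u) := by
  refine ⟨fun v w => ?_, fun c v => ?_⟩
  · have h3 : xi3 p (v + w) = xi3 p v + xi3 p w := rfl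
    simp only [go]
    rw [C7_xi1_add, C7_xi2_add, C7_Av_add, C7_Bv_add, C7_dh_add, h3, C0_dot_add_right,
      C0_dot_add_right]
    ring
  · have h3 : xi3 p (c • v) = c * xi3 p v := rfl
    simp only [go]
    rw [C7_xi1_smul, C7_xi2_smul, C7_Av_smul, C7_Bv_smul, C7_dh_smul, h3, C0_dot_smul_right,
      C0_dot_smul_right, smul_eq_mul]
    ring

theorem C7_go_symm (P : Prof) (p u v : EE 7) : go P p u v = go P p v u := by
  simp only [go]
  rw [dot_comm (Av P p u), dot_comm (Bv P (nr (lv p)) p u)]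
  ring

/-- smoothness, bilinearity and symmetry of the outer metric away from `l = 0` -/
theorem go_good (k : ℕ) {p : EE 7} (hp : p ∈ OM) (hl : 0 < dot (lv p) (lv p)) :
    Good (go (prof k)) p :=
  ⟨Filter.Eventually.of_forall fun q u => C7_go_lin _ q u,
    Filter.Eventually.of_forall fun q u v => C7_go_symm _ q u v,
    fun i j => C7_go hp k hl (ebas i) (ebas j)⟩

theorem C7_iff (k : ℕ) {p : EE 7} (hp : p ∈ OM) (h1 : hh p ^ 2 < 1) (C : ℝ) :
    RB (mtx (go (prof k))) p C ↔ RB (mtx gstd) (xst (x1 p) (x2 p) (x3 p) (hh p)) C := by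
  obtain ⟨e1, e2, e3, he, hCH⟩ := exists_CH k hp h1
  have hξ : (xst (x1 p) (x2 p) (x3 p) (hh p)) 3 ^ 2 < 1 := h1
  obtain ⟨-, -, -, hn⟩ := CH_coord k he hξ
  rw [hCH] at hn
  have hl : 0 < dot (lv p) (lv p) := Real.sqrt_pos.1 hn
  have hev : ∀ᶠ y in 𝓝 (xst (x1 p) (x2 p) (x3 p) (hh p)), y 3 ^ 2 < 1 := by
    have hc : ContinuousAt (fun y : EE 7 => y 3 ^ 2) (xst (x1 p) (x2 p) (x3 p) (hh p)) :=
      ((C4_coord_smooth 3 _).pow 2).continuousAt
    exact hc.eventually (Iio_mem_nhds hξ)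
  have key := RB_pull (g := go (prof k)) (g' := gstd) (ψ := CH k e1 e2 e3)
    (x := xst (x1 p) (x2 p) (x3 p) (hh p)) C (CH_smooth k e1 e2 e3 hξ)
    (by rw [hCH]; exact go_good k hp hl)
    (hev.mono fun y hy u v => (CH_go k he hy u v).symm) (gstd_det hξ)
  rw [hCH] at key
  exact key

/-- The outer metric has bounded Ricci curvature (constant independent of `k`); `CH`, `RB_pull`. -/
theorem go_RB : ∃ C1 : ℝ, 0 < C1 ∧ ∀ (k : ℕ) (p : EE 7), p ∈ OM → hh p ^ 2 < 1 →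
    RB (mtx (go (prof k))) p C1 := by
  obtain ⟨C1, hC1, h⟩ := gstd_RB
  exact ⟨C1, hC1, fun k p hp hh1 => (C7_iff k hp hh1 C1).2 (h _ _ _ _ hh1)⟩

/-- The outer metric is flat where `psi = 0`. -/
theorem go_flat (k : ℕ) {p : EE 7} (hp : p ∈ OM) (h0 : 1 / 4 < hh p ^ 2) (h1 : hh p ^ 2 < 1) :
    RB (mtx (go (prof k))) p 0 :=
  (C7_iff k hp h1 0).2 (gstd_flat (ξ := xst (x1 p) (x2 p) (x3 p) (hh p)) h0 h1)

end H31R
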