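import Pool.Agent.Lib.H31R.C8a
import Pool.Agent.Lib.H31R.M
import Pool.Agent.Lib.H31R.C9

/-!
# H31R, chunk C8: region II, `ε / 2 ≤ |l| ≤ ε`
-/

open scoped ContDiff Topology
open Real Filter

namespace H31R

section symm

variable {d : ℕ} {U : Set (EE d)} {G : EE d → Mt d} {x : EE d}

theorem c8_inv_symm (hs : ∀ i j, G x i j = G x j i) (i j : Fin d) :
    (G x)⁻¹ i j = (G x)⁻¹ j i := by
  have h1 : (G x).transpose = G x := by
    ext a b
    exact hs b a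
  have h2 : ((G x)⁻¹).transpose = (G x)⁻¹ := by
    rw [Matrix.transpose_nonsing_inv, h1]
  have h3 := congrFun (congrFun h2 j) i
  rw [Matrix.transpose_apply] at h3
  exact h3

/-- the contracted Christoffel symbols -/
theorem c8_contr (hU : IsOpen U) (hx : x ∈ U) (hs : ∀ y ∈ U, ∀ i j, G y i j = G y j i)
    (i : Fin d) :
    ∑ k, chr G k i k x = (1 / 2) * ((G x)⁻¹ * pdM i G x).trace := by
  have hsx := c8_inv_symm (hs x hx)
  have h1 : ∀ k, chr G k i k x = (1 / 2) * ∑ l, (G x)⁻¹ k l * pd i (fun y => G y k l) x +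
      ((1 / 2) * ∑ l, (G x)⁻¹ k l * pd k (fun y => G y i l) x -
        (1 / 2) * ∑ l, (G x)⁻¹ k l * pd l (fun y => G y i k) x) := by
    intro k
    unfold chr
    rw [← mul_sub, ← mul_add, ← Finset.sum_sub_distrib, ← Finset.sum_add_distrib]
    congr 1
    refine Finset.sum_congr rfl fun l _ => ?_
    ring
  rw [Finset.sum_congr rfl fun k _ => h1 k, Finset.sum_add_distrib, Finset.sum_sub_distrib,
    ← Finset.mul_sum, ← Finset.mul_sum, ← Finset.mul_sum]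
  have h2 : ∑ k, ∑ l, (G x)⁻¹ k l * pd l (fun y => G y i k) x =
      ∑ k, ∑ l, (G x)⁻¹ k l * pd k (fun y => G y i l) x := by
    rw [Finset.sum_comm]
    refine Finset.sum_congr rfl fun k _ => Finset.sum_congr rfl fun l _ => ?_
    rw [hsx l k]
  rw [h2, sub_self, add_zero]
  congr 1
  unfold Matrix.trace
  refine Finset.sum_congr rfl fun k _ => ?_
  rw [Matrix.diag_apply, Matrix.mul_apply]
  refine Finset.sum_congr rfl fun l _ => ?_
  congr 1
  exact N_pdG_symm hU hx hs i k l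

theorem c8_pd_contr (hU : IsOpen U) (hx : x ∈ U) (hG : SmM 2 U G)
    (hs : ∀ y ∈ U, ∀ i j, G y i j = G y j i) (hd : ∀ y ∈ U, (G y).det ≠ 0) (i j : Fin d) :
    ∑ k, pd j (chr G k i k) x = (1 / 2) * ((G x)⁻¹ * pdM j (pdM i G) x).trace -
      (1 / 2) * ((G x)⁻¹ * pdM j G x * (G x)⁻¹ * pdM i G x).trace := by
  have hG1 : SmM (1 + 1) U G := hG
  have hinv : SmM 1 U (fun y => (G y)⁻¹) := N_inv_sm (N_leM hG (by norm_num)) hd
  have hpdi : SmM 1 U (pdM i G) := N_pdM_sm hU hG1 i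
  have hmul : SmM 1 U (fun y => (G y)⁻¹ * pdM i G y) := N_mul_sm hinv hpdi
  have h1 : ∑ k, pd j (chr G k i k) x = pd j (fun y => ∑ k, chr G k i k y) x := by
    rw [N_pd_sum]
    intro k _
    exact N_diff (n := 0) hU (by simpa using N_chr_sm (n := 1) hU hG1 hd k i k) hx
  rw [h1]
  have h2 : pd j (fun y => ∑ k, chr G k i k y) x =
      pd j (fun y => (1 / 2) * ((G y)⁻¹ * pdM i G y).trace) x :=
    N_pd_congr_on hU hx j fun y hy => c8_contr hU hy hs i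
  rw [h2]
  have hdiff : ∀ a b, DifferentiableAt ℝ (fun y => ((G y)⁻¹ * pdM i G y) a b) x := fun a b =>
    N_diff (n := 0) hU (by simpa using hmul a b) hx
  have h3 : pd j (fun y => (1 / 2) * ((G y)⁻¹ * pdM i G y).trace) x =
      (1 / 2) * (pdM j (fun y => (G y)⁻¹ * pdM i G y) x).trace := by
    have e : (fun y => (1 / 2 : ℝ) * ((G y)⁻¹ * pdM i G y).trace) =
        fun y => (1 / 2 : ℝ) * ∑ a, ((G y)⁻¹ * pdM i G y) a a := rfl
    rw [e, N_pd_cmul]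
    · rw [N_pd_sum _ _ fun a _ => hdiff a a]
      rfl
    · have := DifferentiableAt.fun_sum (u := Finset.univ) (fun a _ => hdiff a a)
      exact this
  rw [h3, N_pdM_mul (n := 0) hU hx (by simpa using hinv) (by simpa using hpdi),
    N_pdM_inv (n := 0) hU hx (by simpa using N_leM hG (by norm_num)) hd,
    Matrix.trace_add, neg_mul, Matrix.trace_neg]
  ring

/-- the Ricci tensor is symmetric -/
theorem c8_ric_symm (hU : IsOpen U) (hx : x ∈ U) (hG : SmM 2 U G)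
    (hs : ∀ y ∈ U, ∀ i j, G y i j = G y j i) (hd : ∀ y ∈ U, (G y).det ≠ 0) (i j : Fin d) :
    ric G i j x = ric G j i x := by
  have hsym : ∀ k a b, chr G k a b x = chr G k b a x := N_chr_symm hU hx hs
  have h1 : ∀ i j, ric G i j x = ∑ k, pd k (chr G k i j) x - ∑ k, pd j (chr G k i k) x +
      (∑ k, ∑ l, chr G k k l x * chr G l i j x - ∑ k, ∑ l, chr G k j l x * chr G l i k x) := by
    intro i j
    unfold ric
    rw [← Finset.sum_sub_distrib, ← Finset.sum_sub_distrib, ← Finset.sum_add_distrib]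
    refine Finset.sum_congr rfl fun k _ => ?_
    rw [Finset.sum_sub_distrib]
  rw [h1 i j, h1 j i]
  have e1 : ∑ k, pd k (chr G k i j) x = ∑ k, pd k (chr G k j i) x :=
    Finset.sum_congr rfl fun k _ => N_pd_congr_on hU hx k fun y hy => N_chr_symm hU hy hs k i j
  have e2 : ∑ k, pd j (chr G k i k) x = ∑ k, pd i (chr G k j k) x := by
    rw [c8_pd_contr hU hx hG hs hd, c8_pd_contr hU hx hG hs hd, N_pdM_symm hU hx hG i j]
    congr 1
    congr 1
    rw [Matrix.mul_assoc ((G x)⁻¹ * pdM j G x), Matrix.trace_mul_comm]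
    congr 1
    simp only [Matrix.mul_assoc]
  have e3 : ∑ k, ∑ l, chr G k k l x * chr G l i j x = ∑ k, ∑ l, chr G k k l x * chr G l j i x :=
    Finset.sum_congr rfl fun k _ => Finset.sum_congr rfl fun l _ => by rw [hsym l i j]
  have e4 : ∑ k, ∑ l, chr G k j l x * chr G l i k x = ∑ k, ∑ l, chr G k i l x * chr G l j k x := by
    rw [Finset.sum_comm]
    refine Finset.sum_congr rfl fun k _ => Finset.sum_congr rfl fun l _ => ?_
    rw [hsym l j k, hsym k i l]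
    ring
  rw [e1, e2, e3, e4]

end symm

/-- the rescaled slab metric in the gluing region, `mu = ε / λ^2` -/
noncomputable def gh2 (P : Prof) (eta lam x mu : ℝ) (ξ u v : EE 7) : ℝ :=
  chi ((ξ 5 ^ 2 + ξ 6 ^ 2) / mu ^ 2) * gh P lam eta x ξ u v +
    (1 - chi ((ξ 5 ^ 2 + ξ 6 ^ 2) / mu ^ 2)) * gh P lam 0 x ξ u v

theorem c8_std : Fr ![1, 0, 0] ![0, 1, 0] ![0, 0, 1] := by
  refine ⟨?_, ?_, ?_, ?_, ?_, ?_, ?_, ?_, ?_⟩
  · simp [dot]
  · simp [dot]
  · simp [dot]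
  · simp [dot]
  · simp [dot]
  · simp [dot]
  · refine C0a_ext ?_ ?_ ?_ <;> simp [C0a_crs0, C0a_crs1, C0a_crs2]
  · refine C0a_ext ?_ ?_ ?_ <;> simp [C0a_crs0, C0a_crs1, C0a_crs2]
  · refine C0a_ext ?_ ?_ ?_ <;> simp [C0a_crs0, C0a_crs1, C0a_crs2]

/-- expansion of `gh` -/
theorem c8_expand (P : Prof) (lam eta x : ℝ) (ξ u v : EE 7) :
    gh P lam eta x ξ u v = ∑ i, ∑ j, mtx (gh P lam eta x) ξ i j * u i * v j := by
  have e1 : ∀ w v : EE 7, gh P lam eta x ξ w v = ∑ j, v j * gh P lam eta x ξ w (ebas j) := by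
    intro w v
    conv_lhs => rw [N_basis v]
    have h1 := map_sum (IsLinearMap.mk' _ (gh_lin P lam eta x ξ w)) (fun a => v a • ebas a)
      Finset.univ
    refine h1.trans (Finset.sum_congr rfl fun j _ => ?_)
    exact (gh_lin P lam eta x ξ w).map_smul (v j) (ebas j)
  rw [gh_symm, e1 v u]
  refine Finset.sum_congr rfl fun i _ => ?_
  rw [gh_symm, e1 (ebas i) v, Finset.mul_sum]
  refine Finset.sum_congr rfl fun j _ => ?_
  unfold mtx
  ring

theorem c8_pos (P : Prof) (lam x : ℝ) (v : Fin 7 → ℝ) (hv : v ≠ 0) :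
    0 < ∑ i, ∑ j, mtx (gh P lam 0 x) (xi0 1) i j * v i * v j := by
  have h1 := gh_eta0_pos P lam x (u := WithLp.toLp 2 v) (by
    intro h
    apply hv
    funext i
    have := congrArg (fun w : EE 7 => w i) h
    simpa using this)
  rw [c8_expand] at h1
  exact h1

/-- smoothness at the base point -/
theorem c8_sm (k : ℕ) (lam x : ℝ) (i j : Fin 7) :
    ContDiffAt ℝ ∞ (fun w : ℝ × EE 7 => mtx (gh (prof k) w.1 0 x) w.2 i j) (lam, xi0 1) := by
  have hS : 0 < SS (prof k) lam 0 x (xi0 1) := by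
    rw [c9_SS]
    norm_num
  have h2 := gh_smooth (prof_ok k) hS le_rfl (ebas i) (ebas j)
  have h3 : ContDiffAt ℝ ∞ (fun w : ℝ × EE 7 => (w.1, (0 : ℝ), x, w.2)) (lam, xi0 1) := by
    fun_prop
  exact ContDiffAt.comp ((lam, xi0 1) : ℝ × EE 7) h2 h3

theorem c8_ric_cont (k : ℕ) (lam x : ℝ) (i j : Fin 7) :
    ContinuousAt (fun l => ric (mtx (gh (prof k) l 0 x)) i j (xi0 1)) lam := by
  have h1 := N_ric_joint (P := ℝ) (G := fun l => mtx (gh (prof k) l 0 x)) (z := (lam, xi0 1))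
    (fun i j => c8_sm k lam x i j) (N_det_of_pos (c8_pos (prof k) lam x)) i j
  have h2 : ContinuousAt (fun l : ℝ => (l, xi0 1)) lam := by fun_prop
  exact ContinuousAt.comp (f := fun l : ℝ => (l, xi0 1))
    (g := fun w : ℝ × EE 7 => ric (mtx (gh (prof k) w.1 0 x)) i j w.2) h1.continuousAt h2

theorem c8_det_cont {d : ℕ} {G : EE d → Mt d} {x : EE d}
    (h : ∀ i j, ContinuousAt (fun y => G y i j) x) : ContinuousAt (fun y => (G y).det) x := by
  have h1 : ContinuousAt G x := continuousAt_pi.2 fun i => continuousAt_pi.2 fun j => h i j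
  have hd : Continuous (fun A : Mt d => A.det) := Continuous.matrix_det continuous_id
  exact hd.continuousAt.comp h1

/-- an open set where everything is good -/
theorem c8_open (k : ℕ) (lam x : ℝ) : ∃ U : Set (EE 7), IsOpen U ∧ xi0 1 ∈ U ∧
    SmM 2 U (mtx (gh (prof k) lam 0 x)) ∧ ∀ y ∈ U, (mtx (gh (prof k) lam 0 x) y).det ≠ 0 := by
  have h1 : ∀ i j, ContDiffAt ℝ ∞ (fun y => mtx (gh (prof k) lam 0 x) y i j) (xi0 1) := by
    intro i j
    have h3 : ContDiffAt ℝ ∞ (fun y : EE 7 => ((lam, y) : ℝ × EE 7)) (xi0 1) := by fun_prop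
    exact ContDiffAt.comp (xi0 1) (c8_sm k lam x i j) h3
  have h2 : ∀ᶠ y in 𝓝 (xi0 1), ∀ i j,
      ContDiffAt ℝ 2 (fun y => mtx (gh (prof k) lam 0 x) y i j) y := by
    rw [eventually_all]
    intro i
    rw [eventually_all]
    intro j
    have h : ContDiffAt ℝ 2 (fun y => mtx (gh (prof k) lam 0 x) y i j) (xi0 1) :=
      (h1 i j).of_le (by norm_cast)
    exact h.eventually (by norm_cast)
  have h3 : ∀ᶠ y in 𝓝 (xi0 1), (mtx (gh (prof k) lam 0 x) y).det ≠ 0 := by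
    have hc := c8_det_cont fun i j => (h1 i j).continuousAt
    exact hc.eventually_ne (N_det_of_pos (c8_pos (prof k) lam x))
  obtain ⟨U, hU, hUo, hUx⟩ := mem_nhds_iff.1 (h2.and h3)
  refine ⟨U, hUo, hUx, fun i j y hy => ?_, fun y hy => (hU hy).2⟩
  exact ((hU hy).1 i j).contDiffWithinAt

/-- For `η = 0` the metric `gh` is flat at `xi0 1`: for `λ > 0` small it is `λ^{-2}` times the pullback of `go`
(`PSI_go`, `go_flat`; the Ricci tensor is symmetric, hence it vanishes), for `λ = 0` by continuity. -/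
theorem gh_eta0_flat (k : ℕ) {lam x : ℝ} (h0 : 0 ≤ lam) (h1 : lam ≤ 1 / 2) (i j : Fin 7) :
    ric (mtx (gh (prof k) lam 0 x)) i j (xi0 1) = 0 := by
  have key : ∀ l : ℝ, 0 < l → l ≤ 1 / 2 → ∀ i j,
      ric (mtx (gh (prof k) l 0 x)) i j (xi0 1) = 0 := by
    intro l hl hl2
    have e5 : xi0 1 5 = 1 := by simp [xi0]
    have e6 : xi0 1 6 = 0 := by simp [xi0]
    have hl4 : l ^ 4 ≤ 1 / 16 := by
      have := pow_le_pow_left₀ hl.le hl2 4
      norm_num at this ⊢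
      exact this
    have hl4' : 0 < l ^ 4 := pow_pos hl 4
    have hv : l ^ 4 * ((xi0 1) 5 ^ 2 + (xi0 1) 6 ^ 2) = l ^ 4 := by
      rw [e5, e6]
      ring
    set ψ := PSI ![1, 0, 0] ![0, 1, 0] ![0, 0, 1] x 0 0 l 1 with hψd
    obtain ⟨hp, hlv, hh1, -⟩ := PSI_lv (x := x) (c2 := 0) (c3 := 0) (lam := l) (sg := 1) c8_std
      (by norm_num) (ξ := xi0 1) (by rw [hv]; linarith)
    rw [← hψd] at hp hlv hh1
    rw [hv] at hlv hh1
    have hh2 : hh (ψ (xi0 1)) ^ 2 = 1 - l ^ 4 := by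
      rw [hh1, one_mul]
      exact Real.sq_sqrt (by linarith)
    have hflat := go_flat k hp (by rw [hh2]; linarith) (by rw [hh2]; linarith)
    have hg : Good (go (prof k)) (ψ (xi0 1)) := go_good k hp (by rw [hlv]; exact hl4')
    have hψ : ContDiffAt ℝ ∞ ψ (xi0 1) := PSI_smooth _ _ _ x 0 0 l 1 (by rw [hv]; linarith)
    have hpull : ∀ᶠ y in 𝓝 (xi0 1), ∀ u v,
        go (prof k) (ψ y) (fderiv ℝ ψ y u) (fderiv ℝ ψ y v) =
          l ^ 2 * gh (prof k) l 0 x y u v := by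
      have hc1 : Continuous fun y : EE 7 => l ^ 4 * (y 5 ^ 2 + y 6 ^ 2) := by fun_prop
      have hc2 : Continuous fun y : EE 7 => y 5 ^ 2 + y 6 ^ 2 := by fun_prop
      filter_upwards [hc1.continuousAt.eventually (Iio_mem_nhds
        (show l ^ 4 * ((xi0 1) 5 ^ 2 + (xi0 1) 6 ^ 2) < 3 / 4 by rw [hv]; linarith)),
        hc2.continuousAt.eventually (Ioi_mem_nhds
        (show 0 < (xi0 1) 5 ^ 2 + (xi0 1) 6 ^ 2 by rw [e5, e6]; norm_num))] with y hy1 hy2 u v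
      exact PSI_go (prof k) c8_std hl (by norm_num) hy2 hy1.le u v
    have hdet := N_det_of_pos (c8_pos (prof k) l x)
    have h3 := (RB_pull_scale 0 (pow_pos hl 2) hψ hg hpull hdet).1 hflat
    rw [mul_zero] at h3
    obtain ⟨U, hUo, hUx, hsm, hUd⟩ := c8_open k l x
    have hs : ∀ y ∈ U, ∀ i j, mtx (gh (prof k) l 0 x) y i j = mtx (gh (prof k) l 0 x) y j i :=
      fun y _ i j => gh_symm _ _ _ _ _ _ _
    have hsym := c8_ric_symm hUo hUx hsm hs hUd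
    have hq : ∀ v : Fin 7 → ℝ,
        ∑ i, ∑ j, ric (mtx (gh (prof k) l 0 x)) i j (xi0 1) * v i * v j = 0 := by
      intro v
      have := h3 v
      rw [zero_mul] at this
      exact abs_nonpos_iff.1 this
    -- polarisation
    intro i j
    have hB : ∀ u v : Fin 7 → ℝ,
        ∑ i, ∑ j, ric (mtx (gh (prof k) l 0 x)) i j (xi0 1) * u i * v j +
        ∑ i, ∑ j, ric (mtx (gh (prof k) l 0 x)) i j (xi0 1) * v i * u j = 0 := by
      intro u v
      have h4 := hq (fun a => u a + v a)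
      have h5 := hq u
      have h6 := hq v
      have h7 : ∑ i, ∑ j, ric (mtx (gh (prof k) l 0 x)) i j (xi0 1) * (u i + v i) * (u j + v j) =
          ∑ i, ∑ j, ric (mtx (gh (prof k) l 0 x)) i j (xi0 1) * u i * u j +
          ∑ i, ∑ j, ric (mtx (gh (prof k) l 0 x)) i j (xi0 1) * v i * v j +
          (∑ i, ∑ j, ric (mtx (gh (prof k) l 0 x)) i j (xi0 1) * u i * v j +
          ∑ i, ∑ j, ric (mtx (gh (prof k) l 0 x)) i j (xi0 1) * v i * u j) := by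
        rw [← Finset.sum_add_distrib, ← Finset.sum_add_distrib, ← Finset.sum_add_distrib]
        refine Finset.sum_congr rfl fun i _ => ?_
        rw [← Finset.sum_add_distrib, ← Finset.sum_add_distrib, ← Finset.sum_add_distrib]
        refine Finset.sum_congr rfl fun j _ => ?_
        ring
      rw [h7, h5, h6] at h4
      linarith
    have hS : ∀ a b : Fin 7, ∑ i, ∑ j, ric (mtx (gh (prof k) l 0 x)) i j (xi0 1) *
        (Pi.single a 1 : Fin 7 → ℝ) i * (Pi.single b 1 : Fin 7 → ℝ) j =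
        ric (mtx (gh (prof k) l 0 x)) a b (xi0 1) := by
      intro a b
      rw [Finset.sum_eq_single a]
      · rw [Finset.sum_eq_single b]
        · simp
        · intro c _ hc
          simp [Pi.single_eq_of_ne hc]
        · intro h
          exact absurd (Finset.mem_univ b) h
      · intro c _ hc
        refine Finset.sum_eq_zero fun j _ => ?_
        simp [Pi.single_eq_of_ne hc]
      · intro h
        exact absurd (Finset.mem_univ a) h
    have h8 := hB (Pi.single i 1) (Pi.single j 1)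
    rw [hS, hS, hsym j i] at h8
    linarith
  rcases h0.eq_or_lt with h | h
  · subst h
    have hc := c8_ric_cont k 0 x i j
    have h2 : Tendsto (fun l => ric (mtx (gh (prof k) l 0 x)) i j (xi0 1)) (𝓝[>] 0)
        (𝓝 (ric (mtx (gh (prof k) 0 0 x)) i j (xi0 1))) :=
      hc.tendsto.mono_left nhdsWithin_le_nhds
    have h3 : Tendsto (fun l => ric (mtx (gh (prof k) l 0 x)) i j (xi0 1)) (𝓝[>] 0) (𝓝 0) := by
      refine (tendsto_const_nhds (x := (0 : ℝ))).congr' ?_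
      have : Set.Ioc (0 : ℝ) (1 / 2) ∈ 𝓝[>] (0 : ℝ) := Ioc_mem_nhdsGT (by norm_num)
      filter_upwards [this] with l hl
      exact (key l hl.1 hl.2 i j).symm
    exact tendsto_nhds_unique h2 h3
  · exact key lam h h1 i j

theorem c8_chi_sm (mu : ℝ) (hmu : mu ≠ 0) (ξ : EE 7) :
    ContDiffAt ℝ ∞ (fun w : ℝ × EE 7 => chi ((w.2 5 ^ 2 + w.2 6 ^ 2) / w.1 ^ 2)) (mu, ξ) := by
  unfold chi
  have h : ∀ i : Fin 7, ContDiffAt ℝ ∞ (fun w : ℝ × EE 7 => w.2 i) (mu, ξ) := fun i =>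
    ((EuclideanSpace.proj i : EE 7 →L[ℝ] ℝ).contDiff.contDiffAt).comp (mu, ξ) contDiffAt_snd
  have h1 : ContDiffAt ℝ ∞ (fun w : ℝ × EE 7 => (w.2 5 ^ 2 + w.2 6 ^ 2) / w.1 ^ 2) (mu, ξ) :=
    (((h 5).pow 2).add ((h 6).pow 2)).div (contDiffAt_fst.pow 2) (pow_ne_zero 2 hmu)
  exact (Real.smoothTransition.contDiff.contDiffAt).comp (mu, ξ)
    (contDiffAt_const.mul (contDiffAt_const.sub h1))

/-- the family of metrics -/
noncomputable def c8_G (k : ℕ) (w : ℝ × (ℝ × ℝ × ℝ)) : EE 7 → Mt 7 :=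
  mtx (gh2 (prof k) w.1 w.2.1 w.2.2.1 w.2.2.2)

/-- the set of parameters and base points -/
noncomputable def c8_K : Set ((ℝ × ℝ × ℝ) × EE 7) :=
  (Set.Icc (0 : ℝ) (1 / 2) ×ˢ (Set.Icc (-(1 / 2) : ℝ) (1 / 2) ×ˢ Set.Icc (1 : ℝ) 2)) ×ˢ {xi0 1}

theorem c8_eta0 (P : Prof) (lam x mu : ℝ) : gh2 P 0 lam x mu = gh P lam 0 x := by
  funext ξ u v
  unfold gh2
  ring

theorem c8_fam (k : ℕ) : SmFam (c8_G k) c8_K := by
  refine ⟨(isCompact_Icc.prod (isCompact_Icc.prod isCompact_Icc)).prod isCompact_singleton,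
    ?_, ?_⟩
  · rintro ⟨⟨lam, x, mu⟩, ξ⟩ ⟨⟨-, -, hmu⟩, hξ⟩ i j
    have hξ' : ξ = xi0 1 := hξ
    subst hξ'
    simp only at hmu
    have hmu0 : mu ≠ 0 := by
      intro h
      rw [h] at hmu
      have := hmu.1
      norm_num at this
    have hS : ∀ eta : ℝ, 0 < SS (prof k) lam eta x (xi0 1) := by
      intro eta
      rw [c9_SS]
      positivity
    have hchi := c8_chi_sm mu hmu0 (xi0 1)
    have hchi' : ContDiffAt ℝ ∞ (fun w : (ℝ × (ℝ × ℝ × ℝ)) × EE 7 =>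
        chi ((w.2 5 ^ 2 + w.2 6 ^ 2) / w.1.2.2.2 ^ 2)) ((0, (lam, x, mu)), xi0 1) := by
      have h3 : ContDiffAt ℝ ∞ (fun w : (ℝ × (ℝ × ℝ × ℝ)) × EE 7 => (w.1.2.2.2, w.2))
        ((0, (lam, x, mu)), xi0 1) := by fun_prop
      exact ContDiffAt.comp (g := fun w : ℝ × EE 7 => chi ((w.2 5 ^ 2 + w.2 6 ^ 2) / w.1 ^ 2))
        (((0, (lam, x, mu)), xi0 1) : (ℝ × (ℝ × ℝ × ℝ)) × EE 7) hchi h3
    have h1 : ContDiffAt ℝ ∞ (fun w : (ℝ × (ℝ × ℝ × ℝ)) × EE 7 =>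
        gh (prof k) w.1.2.1 w.1.1 w.1.2.2.1 w.2 (ebas i) (ebas j))
        ((0, (lam, x, mu)), xi0 1) := by
      have h2 := gh_smooth (prof_ok k) (hS 0) le_rfl (ebas i) (ebas j)
      have h3 : ContDiffAt ℝ ∞ (fun w : (ℝ × (ℝ × ℝ × ℝ)) × EE 7 =>
        (w.1.2.1, w.1.1, w.1.2.2.1, w.2)) ((0, (lam, x, mu)), xi0 1) := by fun_prop
      exact ContDiffAt.comp (((0, (lam, x, mu)), xi0 1) : (ℝ × (ℝ × ℝ × ℝ)) × EE 7) h2 h3
    have h1' : ContDiffAt ℝ ∞ (fun w : (ℝ × (ℝ × ℝ × ℝ)) × EE 7 =>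
        gh (prof k) w.1.2.1 0 w.1.2.2.1 w.2 (ebas i) (ebas j))
        ((0, (lam, x, mu)), xi0 1) := by
      have h2 := gh_smooth (prof_ok k) (hS 0) le_rfl (ebas i) (ebas j)
      have h3 : ContDiffAt ℝ ∞ (fun w : (ℝ × (ℝ × ℝ × ℝ)) × EE 7 =>
        (w.1.2.1, (0 : ℝ), w.1.2.2.1, w.2)) ((0, (lam, x, mu)), xi0 1) := by fun_prop
      exact ContDiffAt.comp (((0, (lam, x, mu)), xi0 1) : (ℝ × (ℝ × ℝ × ℝ)) × EE 7) h2 h3
    exact (hchi'.mul h1).add ((contDiffAt_const.sub hchi').mul h1')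
  · rintro ⟨⟨lam, x, mu⟩, ξ⟩ ⟨-, hξ⟩ v hv
    have hξ' : ξ = xi0 1 := hξ
    subst hξ'
    have h1 := c8_pos (prof k) lam x v hv
    unfold c8_G
    simp only
    rw [c8_eta0]
    exact h1

theorem c8_main (k : ℕ) : ∃ C δ : ℝ, 0 ≤ C ∧ 0 < δ ∧ ∀ eta lam x mu : ℝ, 0 ≤ eta → eta ≤ δ →
    0 ≤ lam → lam ≤ 1 / 2 → |x| ≤ 1 / 2 → 1 ≤ mu → mu ≤ 2 →
      RB (mtx (gh2 (prof k) eta lam x mu)) (xi0 1) (C * eta) ∧
        (mtx (gh2 (prof k) eta lam x mu) (xi0 1)).det ≠ 0 := by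
  have fam := c8_fam k
  obtain ⟨C, δ, hC, hδ, hRB⟩ := fam.RB_first (by
    rintro ⟨⟨lam, x, mu⟩, ξ⟩ ⟨⟨hlam, -, -⟩, hξ⟩ i j
    have hξ' : ξ = xi0 1 := hξ
    subst hξ'
    unfold c8_G
    simp only
    rw [c8_eta0]
    exact gh_eta0_flat k hlam.1 hlam.2 i j)
  obtain ⟨C', δ', hC', hδ', hlow⟩ := fam.lower
  refine ⟨C, min δ δ', hC, lt_min hδ hδ', ?_⟩
  intro eta lam x mu h0 hδ1 hl0 hl1 hx hm1 hm2
  have hz : (((lam, x, mu), xi0 1) : (ℝ × ℝ × ℝ) × EE 7) ∈ c8_K :=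
    ⟨⟨⟨hl0, hl1⟩, abs_le.1 hx, ⟨hm1, hm2⟩⟩, rfl⟩
  refine ⟨hRB _ hz eta ⟨h0, hδ1.trans (min_le_left _ _)⟩, ?_⟩
  apply N_det_of_pos
  intro v hv
  have h2 := (hlow _ hz eta (by rw [abs_of_nonneg h0]; exact hδ1.trans (min_le_right _ _)) v)
  have h3 : 0 < ∑ i, v i ^ 2 := by
    obtain ⟨i, hi⟩ : ∃ i, v i ≠ 0 := by
      by_contra h
      push Not at h
      exact hv (funext h)
    exact Finset.sum_pos' (fun j _ => sq_nonneg _) ⟨i, Finset.mem_univ i, by positivity⟩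
  refine lt_of_le_of_ne h2.1 fun h4 => ?_
  have h5 : ∑ i, v i ^ 2 ≤
      C' * ∑ i, ∑ j, mtx (gh2 (prof k) eta lam x mu) (xi0 1) i j * v i * v j := h2.2
  rw [← h4, mul_zero] at h5
  exact absurd h3 (not_lt.2 h5)

/-- `SmFam.RB_first` with `l = η`, `p = (λ, x, μ) ∈ [0, 1/2] × [-1/2, 1/2] × [1, 2]`, base point `xi0 1`. -/
theorem RB_gh2 (k : ℕ) : ∃ C δ : ℝ, 0 ≤ C ∧ 0 < δ ∧ ∀ eta lam x mu : ℝ, 0 ≤ eta → eta ≤ δ →
    0 ≤ lam → lam ≤ 1 / 2 → |x| ≤ 1 / 2 → 1 ≤ mu → mu ≤ 2 →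
      RB (mtx (gh2 (prof k) eta lam x mu)) (xi0 1) (C * eta) := by
  obtain ⟨C, δ, hC, hδ, h⟩ := c8_main k
  exact ⟨C, δ, hC, hδ, fun eta lam x mu a b c d e f g => (h eta lam x mu a b c d e f g).1⟩

/-- Region II. With the frame of `exists_pfr`, `λ^2 = |l|`, `η = ε^3 / λ^2 ≤ 2 ε^2`, `μ = ε / λ^2 ∈ [1, 2]`:
`p = PSI .. (xi0 1)`, the pullback of `g0` is `λ^2 gh2` (`PSI_gc`, `PSI_go`, `PSI_lv`), hence
`RB g0 p (C η / λ^2)`, `η / λ^2 = ε^3 / |l|^2 ≤ 4 ε`. -/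
theorem RB_II (k : ℕ) : ∃ C ε0 : ℝ, 0 ≤ C ∧ 0 < ε0 ∧ ∀ ε, 0 < ε → ε < ε0 →
    ∀ p ∈ OM, |x1 p| ≤ 1 / 2 → ε ^ 2 / 4 ≤ dot (lv p) (lv p) → dot (lv p) (lv p) ≤ ε ^ 2 →
      RB (mtx (g0 (prof k) ε)) p (C * ε) := by
  obtain ⟨C, δ, hC, hδ, hRB⟩ := c8_main k
  refine ⟨4 * C, min (1 / 4) (δ / 2), by positivity, lt_min (by norm_num) (by positivity), ?_⟩
  intro ε hε hε0 p hp hx hlo hhi
  have hε1 : ε < 1 / 4 := hε0.trans_le (min_le_left _ _)
  have hε2 : ε < δ / 2 := hε0.trans_le (min_le_right _ _)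
  obtain ⟨f1, f2, f3, hf, t, ht, hth, hlt, hpfr⟩ := exists_pfr hp
  rw [hlt] at hlo hhi
  have ht1 : ε / 2 ≤ t := by
    apply le_of_sq_le_sq _ ht
    have e : (ε / 2) ^ 2 = ε ^ 2 / 4 := by ring
    rw [e]
    exact hlo
  have ht2 : t ≤ ε := le_of_sq_le_sq hhi hε.le
  have ht0 : 0 < t := by linarith
  have htsq : t ^ 2 < 1 / 16 := by
    have h : t < 1 / 4 := by linarith
    have := pow_lt_pow_left₀ h ht0.le two_ne_zero
    norm_num at this ⊢
    exact this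
  set lam := √t with hlam
  have hlam0 : 0 < lam := Real.sqrt_pos.2 ht0
  have hlam2 : lam ^ 2 = t := Real.sq_sqrt ht0.le
  have hlam4 : lam ^ 4 = t ^ 2 := by rw [← hlam2]; ring
  have hlamh : lam ≤ 1 / 2 := by
    apply le_of_sq_le_sq _ (by norm_num)
    rw [hlam2]
    linarith
  set eta := ε ^ 3 / t with heta
  have heta0 : 0 < eta := div_pos (pow_pos hε 3) ht0
  have heta2 : lam ^ 2 * eta = ε ^ 3 := by
    rw [hlam2, heta]
    field_simp
  have heta3 : eta ≤ 2 * ε ^ 2 := by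
    rw [heta, div_le_iff₀ ht0]
    have h := mul_le_mul_of_nonneg_left ht1 (show 0 ≤ 2 * ε ^ 2 by positivity)
    have e : 2 * ε ^ 2 * (ε / 2) = ε ^ 3 := by ring
    linarith
  have hetaδ : eta ≤ δ := by
    have h : ε ^ 2 ≤ ε := pow_le_of_le_one hε.le (by linarith) two_ne_zero
    linarith
  set mu := ε / t with hmu
  have hmu1 : 1 ≤ mu := by
    rw [hmu, le_div_iff₀ ht0]
    linarith
  have hmu2 : mu ≤ 2 := by
    rw [hmu, div_le_iff₀ ht0]
    linarith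
  have hh0 : hh p ≠ 0 := by
    intro h
    rw [h] at hth
    have : t ^ 2 = 1 := by linarith
    linarith
  obtain ⟨sg, hsg, hsgh⟩ : ∃ sg : ℝ, sg ^ 2 = 1 ∧ hh p = sg * √(1 - t ^ 2) := by
    have h2 : 1 - t ^ 2 = hh p ^ 2 := by linarith
    rw [h2, Real.sqrt_sq_eq_abs]
    rcases lt_or_gt_of_ne hh0 with h | h
    · exact ⟨-1, by norm_num, by rw [abs_of_neg h]; ring⟩
    · exact ⟨1, by norm_num, by rw [abs_of_pos h]; ring⟩
  have e5 : xi0 1 5 = 1 := by simp [xi0]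
  have e6 : xi0 1 6 = 0 := by simp [xi0]
  have hv : lam ^ 4 * ((xi0 1) 5 ^ 2 + (xi0 1) 6 ^ 2) = t ^ 2 := by
    rw [e5, e6, hlam4]
    ring
  set ψ := PSI f1 f2 f3 (x1 p) (x2 p) (x3 p) lam sg with hψd
  have hpsi : ψ (xi0 1) = p := by
    rw [hψd, PSI_xi0, hlam2, hlam4]
    have e2 : t ^ 2 * (1 : ℝ) ^ 2 = t ^ 2 := by ring
    rw [e2, ← hsgh, mul_one]
    exact hpfr.symm
  have hψ : ContDiffAt ℝ ∞ ψ (xi0 1) := PSI_smooth f1 f2 f3 _ _ _ lam sg (by rw [hv]; linarith)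
  have hg : Good (g0 (prof k) ε) (ψ (xi0 1)) := by
    rw [hpsi]
    exact g0_good k hε hp
  have hpull : ∀ᶠ y in 𝓝 (xi0 1), ∀ u v,
      g0 (prof k) ε (ψ y) (fderiv ℝ ψ y u) (fderiv ℝ ψ y v) =
      lam ^ 2 * gh2 (prof k) eta lam (x1 p) mu y u v := by
    have hc1 : Continuous fun y : EE 7 => lam ^ 4 * (y 5 ^ 2 + y 6 ^ 2) := by fun_prop
    have hc2 : Continuous fun y : EE 7 => y 5 ^ 2 + y 6 ^ 2 := by fun_prop
    filter_upwards [hc1.continuousAt.eventually (Iio_mem_nhds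
      (show lam ^ 4 * ((xi0 1) 5 ^ 2 + (xi0 1) 6 ^ 2) < 3 / 4 by rw [hv]; linarith)),
      hc2.continuousAt.eventually (Ioi_mem_nhds
      (show 0 < (xi0 1) 5 ^ 2 + (xi0 1) 6 ^ 2 by rw [e5, e6]; norm_num))] with y hy1 hy2 u v
    have hy1' : lam ^ 4 * (y 5 ^ 2 + y 6 ^ 2) < 3 / 4 := hy1
    have hy2' : 0 < y 5 ^ 2 + y 6 ^ 2 := hy2
    have ha' : 0 < eta * (prof k).a (x1 p + lam * y 0) := mul_pos heta0 ((prof_ok k).pos _)
    have k1 := PSI_gc (prof k) (c2 := x2 p) (c3 := x3 p) hf hlam0 heta2 hsg ha'.le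
      (by unfold SS; positivity) (ξ := y) (by linarith) u v
    have k2 := PSI_go (prof k) (x := x1 p) (c2 := x2 p) (c3 := x3 p) hf hlam0 hsg hy2' hy1'.le u v
    obtain ⟨-, k3, -, -⟩ := PSI_lv (x := x1 p) (c2 := x2 p) (c3 := x3 p) (lam := lam) hf hsg
      (ξ := y) (by linarith)
    rw [← hψd] at k1 k2 k3
    unfold g0
    rw [k1, k2, k3]
    have e7 : lam ^ 4 * (y 5 ^ 2 + y 6 ^ 2) / ε ^ 2 = (y 5 ^ 2 + y 6 ^ 2) / mu ^ 2 := by
      rw [hlam4, hmu]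
      field_simp
    rw [e7]
    unfold gh2
    ring
  obtain ⟨hrb, hdet⟩ := hRB eta lam (x1 p) mu heta0.le hetaδ hlam0.le hlamh hx hmu1 hmu2
  have key := RB_pull_scale (C * eta / t) (pow_pos hlam0 2) hψ hg hpull hdet
  have e3 : lam ^ 2 * (C * eta / t) = C * eta := by
    rw [hlam2]
    field_simp
  rw [e3] at key
  have key2 := key.2 hrb
  rw [hpsi] at key2
  have hle : C * eta / t ≤ 4 * C * ε := by
    rw [div_le_iff₀ ht0]
    have h1 := mul_le_mul_of_nonneg_left heta3 hC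
    have h2 := mul_le_mul_of_nonneg_left ht1 (show 0 ≤ 4 * C * ε by positivity)
    have e : 4 * C * ε * (ε / 2) = C * (2 * ε ^ 2) := by ring
    linarith
  rcases hC.eq_or_lt with h0 | h0
  · rw [← h0] at key2 ⊢
    simpa using key2
  · exact c9_RB_mono (by positivity) key2 hle

end H31R
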