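import Pool.Agent.Lib.H31R.F3a

/-!
# H31R, chunk F3b: jets of the main part, rows 3, 4
-/

open scoped ContDiff Topology
open Real Filter

namespace H31R

theorem F3b_uv3 (P : Prof) (l eta x : ℝ) (ξ : EE 7) (hR : √(SS P l eta x ξ) ≠ 0) :
    ghM P l eta x ξ (ebas 3) (ebas 3) = (√(SS P l eta x ξ) + ξ 4 * ξ 4 *
      ((ξ 5 * ξ 5 + ξ 6 * ξ 6) * (1 / √(SS P l eta x ξ)))) * ((1 / zN ξ) * (1 / zN ξ)) ∧
    ghM P l eta x ξ (ebas 3) (ebas 4) = -((ξ 3 * ξ 4 *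
      ((ξ 5 * ξ 5 + ξ 6 * ξ 6) * (1 / √(SS P l eta x ξ)))) * ((1 / zN ξ) * (1 / zN ξ))) ∧
    ghM P l eta x ξ (ebas 3) (ebas 5) = -(1 / 2) * ((ξ 4 * ξ 6 * (1 / √(SS P l eta x ξ))) *
      (1 / zN ξ)) ∧
    ghM P l eta x ξ (ebas 3) (ebas 6) = 1 / 2 * ((ξ 4 * ξ 5 * (1 / √(SS P l eta x ξ))) *
      (1 / zN ξ)) := by
  have hN := F3a_N ξ
  refine ⟨?_, ?_, ?_, ?_⟩ <;>
    simp only [ghM, gczM, cA1, cA2, cB1, cB2, zo1, zo2, zo3, F3a_val] <;>
    simp [Fin.ext_iff] <;> field_simp <;> try first | ring1 | (ring_nf; simp)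

theorem F3b_uv4 (P : Prof) (l eta x : ℝ) (ξ : EE 7) (hR : √(SS P l eta x ξ) ≠ 0) :
    ghM P l eta x ξ (ebas 4) (ebas 4) = (√(SS P l eta x ξ) + ξ 3 * ξ 3 *
      ((ξ 5 * ξ 5 + ξ 6 * ξ 6) * (1 / √(SS P l eta x ξ)))) * ((1 / zN ξ) * (1 / zN ξ)) ∧
    ghM P l eta x ξ (ebas 4) (ebas 5) = 1 / 2 * ((ξ 3 * ξ 6 * (1 / √(SS P l eta x ξ))) *
      (1 / zN ξ)) ∧
    ghM P l eta x ξ (ebas 4) (ebas 6) = -(1 / 2) * ((ξ 3 * ξ 5 * (1 / √(SS P l eta x ξ))) *
      (1 / zN ξ)) := by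
  have hN := F3a_N ξ
  refine ⟨?_, ?_, ?_⟩ <;>
    simp only [ghM, gczM, cA1, cA2, cB1, cB2, zo1, zo2, zo3, F3a_val] <;>
    simp [Fin.ext_iff] <;> field_simp <;> try first | ring1 | (ring_nf; simp)

variable {P : Prof} (hP : ProfOK P) {eta x t : ℝ} (h1 : (eta * P.a x) ^ 2 + t ^ 2 = 1)
  (ha : 0 ≤ eta)
include hP h1 ha

/-! Notation in the docstrings: `R = √(SS P l eta x ξ)`, `N = zN ξ`, `b_i = P.b_i (x + l ξ0)`, `r2 = ξ5^2 + ξ6^2`, `z1 = ξ3`, `z2 = ξ4`, `l1 = ξ5`, `l2 = ξ6`. Proofs as in `F3a`. -/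

/-- `(3,3)`: `(R + z2^2 r2 / R) / N^2`; `(3,4)`: `-z1 z2 r2 / (N^2 R)`; `(3,5)`: `-z2 l2 / (2 N R)`;
`(3,6)`: `z2 l1 / (2 N R)` -/
theorem ghM_jet3 (p : Par) (hp : p = par P eta x t) : ∀ j : Fin 7, 3 ≤ j →
    JApp (fun l ξ => ghM P l eta x ξ (ebas 3) (ebas j)) (xi0 t) (MJ p 3 j) := by
  have ht : p.t = t := by rw [hp]; rfl
  have hev := F3a_R hP h1
  have R := jet_R hP h1 ha p hp
  have iR := jet_iR hP h1 ha p hp
  have iN := jet_iN hP h1 ha p hp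
  have r2 := F3a_r2 t
  have l1 := F3a_l1 t
  have l2 := F3a_l2 t
  have z1 := F3a_z1 t
  have z2 := F3a_z2 t
  intro j hj
  fin_cases j
  · exact absurd hj (by decide)
  · exact absurd hj (by decide)
  · exact absurd hj (by decide)
  · show JApp (fun l ξ => ghM P l eta x ξ (ebas 3) (ebas 3)) (xi0 t) (MJ33 p)
    have h := (R.add ((z2.mul z2).mul (r2.mul iR))).mul (iN.mul iN)
    refine F3a_cast (h.congr (Eventually.of_forall fun l => ?_)) ?_
    · filter_upwards [hev l] with ξ hξ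
      exact (F3b_uv3 P l eta x ξ hξ).1.symm
    · simp only [F3a_mul, F3a_add, MJ33]
      congr 1 <;> ext <;> simp [ht] <;> ring
  · show JApp (fun l ξ => ghM P l eta x ξ (ebas 3) (ebas 4)) (xi0 t) (MJ34 p)
    have h := (((z1.mul z2).mul (r2.mul iR)).mul (iN.mul iN)).neg
    refine F3a_cast (h.congr (Eventually.of_forall fun l => ?_)) ?_
    · filter_upwards [hev l] with ξ hξ
      exact (F3b_uv3 P l eta x ξ hξ).2.1.symm
    · simp only [F3a_mul, F3a_neg, MJ34]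
      congr 1 <;> ext <;> simp [ht] <;> ring
  · show JApp (fun l ξ => ghM P l eta x ξ (ebas 3) (ebas 5)) (xi0 t) (MJ35 p)
    have h := (JApp.cst (xi0 t) (App.const (-(1 / 2)))).mul (((z2.mul l2).mul iR).mul iN)
    refine F3a_cast (h.congr (Eventually.of_forall fun l => ?_)) ?_
    · filter_upwards [hev l] with ξ hξ
      exact (F3b_uv3 P l eta x ξ hξ).2.2.1.symm
    · simp only [F3a_mul, F3a_cst, MJ35]
      congr 1 <;> ext <;> simp [ht] <;> ring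
  · show JApp (fun l ξ => ghM P l eta x ξ (ebas 3) (ebas 6)) (xi0 t) (MJ36 p)
    have h := (JApp.cst (xi0 t) (App.const (1 / 2))).mul (((z2.mul l1).mul iR).mul iN)
    refine F3a_cast (h.congr (Eventually.of_forall fun l => ?_)) ?_
    · filter_upwards [hev l] with ξ hξ
      exact (F3b_uv3 P l eta x ξ hξ).2.2.2.symm
    · simp only [F3a_mul, F3a_cst, MJ36]
      congr 1 <;> ext <;> simp [ht] <;> ring

/-- `(4,4)`: `(R + z1^2 r2 / R) / N^2`; `(4,5)`: `z1 l2 / (2 N R)`; `(4,6)`: `-z1 l1 / (2 N R)` -/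
theorem ghM_jet4 (p : Par) (hp : p = par P eta x t) : ∀ j : Fin 7, 4 ≤ j →
    JApp (fun l ξ => ghM P l eta x ξ (ebas 4) (ebas j)) (xi0 t) (MJ p 4 j) := by
  have ht : p.t = t := by rw [hp]; rfl
  have hev := F3a_R hP h1
  have R := jet_R hP h1 ha p hp
  have iR := jet_iR hP h1 ha p hp
  have iN := jet_iN hP h1 ha p hp
  have r2 := F3a_r2 t
  have l1 := F3a_l1 t
  have l2 := F3a_l2 t
  have z1 := F3a_z1 t
  intro j hj
  fin_cases j
  · exact absurd hj (by decide)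
  · exact absurd hj (by decide)
  · exact absurd hj (by decide)
  · exact absurd hj (by decide)
  · show JApp (fun l ξ => ghM P l eta x ξ (ebas 4) (ebas 4)) (xi0 t) (MJ44 p)
    have h := (R.add ((z1.mul z1).mul (r2.mul iR))).mul (iN.mul iN)
    refine F3a_cast (h.congr (Eventually.of_forall fun l => ?_)) ?_
    · filter_upwards [hev l] with ξ hξ
      exact (F3b_uv4 P l eta x ξ hξ).1.symm
    · simp only [F3a_mul, F3a_add, MJ44]
      congr 1 <;> ext <;> simp [ht] <;> ring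
  · show JApp (fun l ξ => ghM P l eta x ξ (ebas 4) (ebas 5)) (xi0 t) (MJ45 p)
    have h := (JApp.cst (xi0 t) (App.const (1 / 2))).mul (((z1.mul l2).mul iR).mul iN)
    refine F3a_cast (h.congr (Eventually.of_forall fun l => ?_)) ?_
    · filter_upwards [hev l] with ξ hξ
      exact (F3b_uv4 P l eta x ξ hξ).2.1.symm
    · simp only [F3a_mul, F3a_cst, MJ45]
      congr 1 <;> ext <;> simp [ht] <;> ring
  · show JApp (fun l ξ => ghM P l eta x ξ (ebas 4) (ebas 6)) (xi0 t) (MJ46 p)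
    have h := (JApp.cst (xi0 t) (App.const (-(1 / 2)))).mul (((z1.mul l1).mul iR).mul iN)
    refine F3a_cast (h.congr (Eventually.of_forall fun l => ?_)) ?_
    · filter_upwards [hev l] with ξ hξ
      exact (F3b_uv4 P l eta x ξ hξ).2.2.symm
    · simp only [F3a_mul, F3a_cst, MJ46]
      congr 1 <;> ext <;> simp [ht] <;> ring

end H31R
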