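import Pool.Agent.Lib.H31R.F3t

/-!
# H31R, chunk F3c: jets of the main part, rows 5, 6; symmetry; smoothness of the correction
-/

open scoped ContDiff Topology
open Real Filter

namespace H31R

/-- `JApp` respects equality of jets and functions -/
theorem F3c_eq {F G : ℝ → EE 7 → ℝ} {q : EE 7} {c d : Jet} (hF : JApp F q c)
    (h : ∀ l ξ, G l ξ = F l ξ) (e : c = d) : JApp G q d := by
  subst e
  exact hF.congr (Eventually.of_forall fun l => Eventually.of_forall fun ξ => (h l ξ).symm)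

/-- the zero jet -/
theorem F3c_zero {G : ℝ → EE 7 → ℝ} {q : EE 7} (h : ∀ l ξ, G l ξ = 0) : JApp G q J0 := by
  refine F3c_eq (JApp.cst q (App.const 0)) h ?_
  ext i j <;> (try fin_cases i) <;> (try fin_cases j) <;> rfl

theorem F3c_smul (r : ℝ) {F : ℝ → EE 7 → ℝ} {q : EE 7} {c : Jet} (hF : JApp F q c) :
    JApp (fun l ξ => r * F l ξ) q (Jet.smul (T3.C r) c) :=
  JApp.smul (App.const r) hF

variable {P : Prof} (hP : ProfOK P) {eta x t : ℝ} (h1 : (eta * P.a x) ^ 2 + t ^ 2 = 1)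
  (ha : 0 ≤ eta)
include hP h1 ha

/-! Notation in the docstrings: `R = √(SS P l eta x ξ)`, `N = zN ξ`, `b_i = P.b_i (x + l ξ0)`, `r2 = ξ5^2 + ξ6^2`, `z1 = ξ3`, `z2 = ξ4`, `l1 = ξ5`, `l2 = ξ6`. Proofs as in `F3a`. -/

omit h1 in
theorem F3c_e55 (l : ℝ) (ξ : EE 7) :
    ghM P l eta x ξ (ebas 5) (ebas 5) = (1 / 4) * (1 / √(SS P l eta x ξ)) := by
  have e0 : (ebas 5 : EE 7) 0 = 0 := by simp [ebas]
  have e1 : (ebas 5 : EE 7) 1 = 0 := by simp [ebas]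
  have e2 : (ebas 5 : EE 7) 2 = 0 := by simp [ebas]
  have e3 : (ebas 5 : EE 7) 3 = 0 := by simp [ebas]
  have e4 : (ebas 5 : EE 7) 4 = 0 := by simp [ebas]
  have e5 : (ebas 5 : EE 7) 5 = 1 := by simp [ebas]
  have e6 : (ebas 5 : EE 7) 6 = 0 := by simp [ebas]
  simp only [ghM, gczM, cA1, cA2, cB1, cB2, zo1, zo2, zo3, e0, e1, e2, e3, e4, e5, e6]
  simp
  ring

omit h1 in
theorem F3c_e56 (l : ℝ) (ξ : EE 7) :
    ghM P l eta x ξ (ebas 5) (ebas 6) = 0 := by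
  have e0 : (ebas 5 : EE 7) 0 = 0 := by simp [ebas]
  have e1 : (ebas 5 : EE 7) 1 = 0 := by simp [ebas]
  have e2 : (ebas 5 : EE 7) 2 = 0 := by simp [ebas]
  have e3 : (ebas 5 : EE 7) 3 = 0 := by simp [ebas]
  have e4 : (ebas 5 : EE 7) 4 = 0 := by simp [ebas]
  have e5 : (ebas 5 : EE 7) 5 = 1 := by simp [ebas]
  have e6 : (ebas 5 : EE 7) 6 = 0 := by simp [ebas]
  have f0 : (ebas 6 : EE 7) 0 = 0 := by simp [ebas]
  have f1 : (ebas 6 : EE 7) 1 = 0 := by simp [ebas]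
  have f2 : (ebas 6 : EE 7) 2 = 0 := by simp [ebas]
  have f3 : (ebas 6 : EE 7) 3 = 0 := by simp [ebas]
  have f4 : (ebas 6 : EE 7) 4 = 0 := by simp [ebas]
  have f5 : (ebas 6 : EE 7) 5 = 0 := by simp [ebas]
  have f6 : (ebas 6 : EE 7) 6 = 1 := by simp [ebas]
  simp only [ghM, gczM, cA1, cA2, cB1, cB2, zo1, zo2, zo3, e0, e1, e2, e3, e4, e5, e6,
    f0, f1, f2, f3, f4, f5, f6]
  simp

omit h1 in
theorem F3c_e66 (l : ℝ) (ξ : EE 7) :
    ghM P l eta x ξ (ebas 6) (ebas 6) = (1 / 4) * (1 / √(SS P l eta x ξ)) := by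
  have f0 : (ebas 6 : EE 7) 0 = 0 := by simp [ebas]
  have f1 : (ebas 6 : EE 7) 1 = 0 := by simp [ebas]
  have f2 : (ebas 6 : EE 7) 2 = 0 := by simp [ebas]
  have f3 : (ebas 6 : EE 7) 3 = 0 := by simp [ebas]
  have f4 : (ebas 6 : EE 7) 4 = 0 := by simp [ebas]
  have f5 : (ebas 6 : EE 7) 5 = 0 := by simp [ebas]
  have f6 : (ebas 6 : EE 7) 6 = 1 := by simp [ebas]
  simp only [ghM, gczM, cA1, cA2, cB1, cB2, zo1, zo2, zo3, f0, f1, f2, f3, f4, f5, f6]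
  simp
  ring

theorem F3c_q (p : Par) (hp : p = par P eta x t) :
    JApp (fun l ξ => (1 / 4) * (1 / √(SS P l eta x ξ))) (xi0 t) (MJ55 p) := by
  refine F3c_eq (F3c_smul (1 / 4) (jet_iR hP h1 ha p hp)) (fun l ξ => rfl) ?_
  ext i j <;> (try fin_cases i) <;> (try fin_cases j) <;>
    simp [Jet.smul, mkJ, MJ55] <;> ring

/-- `(5,5)`: `1 / (4 R)`; `(5,6)`: `0` -/
theorem ghM_jet5 (p : Par) (hp : p = par P eta x t) : ∀ j : Fin 7, 5 ≤ j →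
    JApp (fun l ξ => ghM P l eta x ξ (ebas 5) (ebas j)) (xi0 t) (MJ p 5 j) := by
  intro j hj
  fin_cases j
  · exact absurd hj (by decide)
  · exact absurd hj (by decide)
  · exact absurd hj (by decide)
  · exact absurd hj (by decide)
  · exact absurd hj (by decide)
  · exact F3c_eq (F3c_q hP h1 ha p hp) (fun l ξ => F3c_e55 hP ha l ξ) rfl
  · exact F3c_zero (fun l ξ => F3c_e56 hP ha l ξ)

/-- `(6,6)`: `1 / (4 R)` -/
theorem ghM_jet6 (p : Par) (hp : p = par P eta x t) : ∀ j : Fin 7, 6 ≤ j →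
    JApp (fun l ξ => ghM P l eta x ξ (ebas 6) (ebas j)) (xi0 t) (MJ p 6 j) := by
  intro j hj
  fin_cases j
  · exact absurd hj (by decide)
  · exact absurd hj (by decide)
  · exact absurd hj (by decide)
  · exact absurd hj (by decide)
  · exact absurd hj (by decide)
  · exact absurd hj (by decide)
  · exact F3c_eq (F3c_q hP h1 ha p hp) (fun l ξ => F3c_e66 hP ha l ξ) rfl

omit hP h1 ha in
theorem ghM_symm (lam : ℝ) (ξ u v : EE 7) :
    ghM P lam eta x ξ u v = ghM P lam eta x ξ v u := by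
  unfold ghM gczM
  ring

omit hP h1 ha in
theorem ghH_symm (lam : ℝ) (ξ u v : EE 7) :
    ghH P lam eta x ξ u v = ghH P lam eta x ξ v u := by
  unfold ghH gczH
  ring

/-- The correction is smooth in `(λ, ξ)` near `(0, xi0 t)` (there `SS = 1`). -/
theorem ghH_smooth (u v : EE 7) :
    ContDiffAt ℝ ∞ (fun z : ℝ × EE 7 => ghH P z.1 eta x z.2 u v) (0, xi0 t) := by
  have hc : ∀ k : Fin 7, ContDiffAt ℝ ∞ (fun z : ℝ × EE 7 => z.2 k) (0, xi0 t) := fun k =>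
    ((EuclideanSpace.proj k : EE 7 →L[ℝ] ℝ).contDiff.comp contDiff_snd).contDiffAt
  have hl : ContDiffAt ℝ ∞ (fun z : ℝ × EE 7 => z.1) (0, xi0 t) := contDiffAt_fst
  have hin : ContDiffAt ℝ ∞ (fun z : ℝ × EE 7 => x + z.1 * z.2 0) (0, xi0 t) :=
    contDiffAt_const.add (hl.mul (hc 0))
  have hsh : ∀ f : ℝ → ℝ, ContDiff ℝ ∞ f →
      ContDiffAt ℝ ∞ (fun z : ℝ × EE 7 => f (x + z.1 * z.2 0)) (0, xi0 t) := fun f hf =>
    hf.contDiffAt.comp _ hin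
  have hda : ContDiff ℝ ∞ (deriv P.a) := ((contDiff_infty_iff_deriv).1 hP.sa).2
  have hA := hsh _ hP.sa
  have hA' := hsh _ hda
  have hb1 := hsh _ hP.s1
  have hb2 := hsh _ hP.s2
  have hb3 := hsh _ hP.s3
  have hSS : ContDiffAt ℝ ∞ (fun z : ℝ × EE 7 => SS P z.1 eta x z.2) (0, xi0 t) := by
    unfold SS
    exact ((contDiffAt_const.mul hA).pow 2).add (((hc 5).pow 2).add ((hc 6).pow 2))
  have hSv : SS P 0 eta x (xi0 t) = 1 := by
    have q5 : xi0 t 5 = t := by simp [xi0]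
    have q6 : xi0 t 6 = 0 := by simp [xi0]
    unfold SS
    rw [q5, q6, zero_mul, add_zero]
    linarith
  have hR : ContDiffAt ℝ ∞ (fun z : ℝ × EE 7 => √(SS P z.1 eta x z.2)) (0, xi0 t) := by
    refine hSS.sqrt ?_
    show SS P 0 eta x (xi0 t) ≠ 0
    rw [hSv]; norm_num
  have hRv : √(SS P 0 eta x (xi0 t)) = 1 := by rw [hSv, Real.sqrt_one]
  have hN : ContDiffAt ℝ ∞ (fun z : ℝ × EE 7 => zN z.2) (0, xi0 t) := by
    unfold zN
    exact (contDiffAt_const.add ((hc 3).pow 2)).add ((hc 4).pow 2)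
  have hNv : ∀ z : ℝ × EE 7, zN z.2 ≠ 0 := fun z => by
    unfold zN; positivity
  have ho1 : ∀ w : EE 7, ContDiffAt ℝ ∞ (fun z : ℝ × EE 7 => zo1 z.2 w) (0, xi0 t) := fun w => by
    unfold zo1
    exact contDiffAt_const.div hN (hNv _)
  have ho2 : ∀ w : EE 7, ContDiffAt ℝ ∞ (fun z : ℝ × EE 7 => zo2 z.2 w) (0, xi0 t) := fun w => by
    unfold zo2
    exact contDiffAt_const.div hN (hNv _)
  have ho3 : ∀ w : EE 7, ContDiffAt ℝ ∞ (fun z : ℝ × EE 7 => zo3 z.2 w) (0, xi0 t) := fun w => by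
    unfold zo3
    exact (contDiffAt_const.mul (((hc 4).mul contDiffAt_const).sub
      ((hc 3).mul contDiffAt_const))).div hN (hNv _)
  have hR0 : √(SS P 0 eta x (xi0 t)) ≠ 0 := by rw [hRv]; norm_num
  have hA1 : ∀ w : EE 7, ContDiffAt ℝ ∞ (fun z : ℝ × EE 7 =>
      cA1 (P.b3 (x + z.1 * z.2 0)) (z.2 6) (z.1 * w 1) (w 5) (zo3 z.2 w)) (0, xi0 t) := fun w => by
    unfold cA1
    exact contDiffAt_const.sub (((ho3 w).sub ((contDiffAt_const.mul hb3).mul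
      (hl.mul contDiffAt_const))).mul (hc 6))
  have hA2 : ∀ w : EE 7, ContDiffAt ℝ ∞ (fun z : ℝ × EE 7 =>
      cA2 (P.b3 (x + z.1 * z.2 0)) (z.2 5) (z.1 * w 1) (w 6) (zo3 z.2 w)) (0, xi0 t) := fun w => by
    unfold cA2
    exact contDiffAt_const.add (((ho3 w).sub ((contDiffAt_const.mul hb3).mul
      (hl.mul contDiffAt_const))).mul (hc 5))
  have hB1 : ∀ w : EE 7, ContDiffAt ℝ ∞ (fun z : ℝ × EE 7 =>
      cB1 (P.b1 (x + z.1 * z.2 0)) (P.b2 (x + z.1 * z.2 0)) (√(SS P z.1 eta x z.2))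
        (z.2 5) (z.2 6) (z.1 * w 0) (z.1 * w 1) (zo1 z.2 w)) (0, xi0 t) := fun w => by
    unfold cB1
    exact ((ho1 w).div_const 2).sub ((contDiffAt_const.div hR hR0).mul
      (((hb1.mul (hl.mul contDiffAt_const)).mul (hc 5)).sub
        ((hb2.mul (hl.mul contDiffAt_const)).mul (hc 6))))
  have hB2 : ∀ w : EE 7, ContDiffAt ℝ ∞ (fun z : ℝ × EE 7 =>
      cB2 (P.b1 (x + z.1 * z.2 0)) (P.b2 (x + z.1 * z.2 0)) (√(SS P z.1 eta x z.2))
        (z.2 5) (z.2 6) (z.1 * w 0) (z.1 * w 1) (zo2 z.2 w)) (0, xi0 t) := fun w => by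
    unfold cB2
    exact ((ho2 w).div_const 2).sub ((contDiffAt_const.div hR hR0).mul
      (((hb1.mul (hl.mul contDiffAt_const)).mul (hc 6)).add
        ((hb2.mul (hl.mul contDiffAt_const)).mul (hc 5))))
  -- the general statement for `gczH`
  have key : ∀ (Z11 Z22 Z33 Z13 a R l1 l2 Au1 Au2 Bu1 Bu2 Av1 Av2 Bv1 Bv2 : ℝ × EE 7 → ℝ)
      (xu1 xu2 xv1 xv2 : ℝ) (q : ℝ × EE 7),
      ContDiffAt ℝ ∞ Z11 q → ContDiffAt ℝ ∞ Z22 q → ContDiffAt ℝ ∞ Z33 q →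
      ContDiffAt ℝ ∞ Z13 q → ContDiffAt ℝ ∞ a q → ContDiffAt ℝ ∞ R q →
      ContDiffAt ℝ ∞ l1 q → ContDiffAt ℝ ∞ l2 q → ContDiffAt ℝ ∞ Au1 q →
      ContDiffAt ℝ ∞ Au2 q → ContDiffAt ℝ ∞ Bu1 q → ContDiffAt ℝ ∞ Bu2 q →
      ContDiffAt ℝ ∞ Av1 q → ContDiffAt ℝ ∞ Av2 q → ContDiffAt ℝ ∞ Bv1 q →
      ContDiffAt ℝ ∞ Bv2 q → R q ≠ 0 → R q + a q ≠ 0 →
      ContDiffAt ℝ ∞ (fun z => gczH (Z11 z) (Z22 z) (Z33 z) (Z13 z) (a z) (R z) (l1 z) (l2 z)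
        xu1 xu2 (Au1 z) (Au2 z) (Bu1 z) (Bu2 z) xv1 xv2 (Av1 z) (Av2 z) (Bv1 z) (Bv2 z)) q := by
    intro Z11 Z22 Z33 Z13 a R l1 l2 Au1 Au2 Bu1 Bu2 Av1 Av2 Bv1 Bv2 xu1 xu2 xv1 xv2 q
      k1 k2 k3 k4 k5 k6 k7 k8 k9 k10 k11 k12 k13 k14 k15 k16 n1 n2
    unfold gczH
    have n3 : 8 * R q * (R q + a q) ^ 2 ≠ 0 := by
      have := pow_ne_zero 2 n2
      positivity
    have n4 : 24 * R q ≠ 0 := mul_ne_zero (by norm_num) n1
    have n5 : 4 * R q ≠ 0 := mul_ne_zero (by norm_num) n1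
    have n6 : R q ^ 2 ≠ 0 := pow_ne_zero 2 n1
    fun_prop (disch := assumption)
  unfold ghH
  refine key _ _ _ _ _ _ _ _ _ _ _ _ _ _ _ _ _ _ _ _ _ ?_ ?_ ?_ ?_ ?_ hR (hc 5) (hc 6)
    (hA1 u) (hA2 u) (hB1 u) (hB2 u) (hA1 v) (hA2 v) (hB1 v) (hB2 v) hR0 ?_
  · exact (((contDiffAt_const.mul (contDiffAt_const.mul hA)).mul hb2).pow 2)
  · exact (((contDiffAt_const.mul (contDiffAt_const.mul hA)).mul hb1).pow 2)
  · exact ((contDiffAt_const.mul hA').pow 2)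
  · exact ((contDiffAt_const.mul (contDiffAt_const.mul hA)).mul hb2).mul (contDiffAt_const.mul hA')
  · exact contDiffAt_const.mul hA
  · show √(SS P 0 eta x (xi0 t)) + eta * P.a (x + 0 * xi0 t 0) ≠ 0
    rw [hRv, zero_mul, add_zero]
    have := mul_nonneg ha (hP.pos x).le
    positivity

end H31R
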