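import Pool.Agent.Lib.H31R.F3t

/-!
# H31R, chunk F3d: jets of the correction, rows 0, 1, 2 and 3
-/

open scoped ContDiff Topology
open Real Filter

namespace H31R

/-! ## jets which do not depend on `λ` and on the coordinates `0, 1, 2` -/

/-- the jet with real entries (directions 3, 4, 5, 6) -/
noncomputable def f3d (v g3 g4 g5 g6 h33 h34 h35 h36 h44 h45 h46 h55 h56 h66 : ℝ) : Jet :=
  mkJ ⟨v, 0, 0⟩ 0 ⟨g3, 0, 0⟩ ⟨g4, 0, 0⟩ ⟨g5, 0, 0⟩ ⟨g6, 0, 0⟩ 0 0 0 0 0 ⟨h33, 0, 0⟩ ⟨h34, 0, 0⟩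
    ⟨h35, 0, 0⟩ ⟨h36, 0, 0⟩ ⟨h44, 0, 0⟩ ⟨h45, 0, 0⟩ ⟨h46, 0, 0⟩ ⟨h55, 0, 0⟩ ⟨h56, 0, 0⟩ ⟨h66, 0, 0⟩

theorem f3d_T3mul (a b : ℝ) : (⟨a, 0, 0⟩ : T3) * ⟨b, 0, 0⟩ = ⟨a * b, 0, 0⟩ := by
  ext <;> simp

theorem f3d_T3add (a b : ℝ) : (⟨a, 0, 0⟩ : T3) + ⟨b, 0, 0⟩ = ⟨a + b, 0, 0⟩ := by
  ext <;> simp

theorem f3d_mul (v g3 g4 g5 g6 h33 h34 h35 h36 h44 h45 h46 h55 h56 h66
    v' g3' g4' g5' g6' h33' h34' h35' h36' h44' h45' h46' h55' h56' h66' : ℝ) :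
    (f3d v g3 g4 g5 g6 h33 h34 h35 h36 h44 h45 h46 h55 h56 h66).mul
      (f3d v' g3' g4' g5' g6' h33' h34' h35' h36' h44' h45' h46' h55' h56' h66') =
    f3d (v * v') (g3 * v' + v * g3') (g4 * v' + v * g4') (g5 * v' + v * g5') (g6 * v' + v * g6')
      (h33 * v' + g3 * g3' + g3 * g3' + v * h33') (h34 * v' + g3 * g4' + g4 * g3' + v * h34')
      (h35 * v' + g3 * g5' + g5 * g3' + v * h35') (h36 * v' + g3 * g6' + g6 * g3' + v * h36')
      (h44 * v' + g4 * g4' + g4 * g4' + v * h44') (h45 * v' + g4 * g5' + g5 * g4' + v * h45')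
      (h46 * v' + g4 * g6' + g6 * g4' + v * h46') (h55 * v' + g5 * g5' + g5 * g5' + v * h55')
      (h56 * v' + g5 * g6' + g6 * g5' + v * h56') (h66 * v' + g6 * g6' + g6 * g6' + v * h66') := by
  unfold f3d mkJ Jet.mul
  refine Jet.ext ?_ ?_ ?_
  · exact f3d_T3mul _ _
  · funext i
    fin_cases i <;> ext <;> simp <;> ring
  · funext i j
    fin_cases i <;> fin_cases j <;> ext <;> simp <;> ring

theorem f3d_add (v g3 g4 g5 g6 h33 h34 h35 h36 h44 h45 h46 h55 h56 h66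
    v' g3' g4' g5' g6' h33' h34' h35' h36' h44' h45' h46' h55' h56' h66' : ℝ) :
    (f3d v g3 g4 g5 g6 h33 h34 h35 h36 h44 h45 h46 h55 h56 h66).add
      (f3d v' g3' g4' g5' g6' h33' h34' h35' h36' h44' h45' h46' h55' h56' h66') =
    f3d (v + v') (g3 + g3') (g4 + g4') (g5 + g5') (g6 + g6')
      (h33 + h33') (h34 + h34') (h35 + h35') (h36 + h36') (h44 + h44') (h45 + h45')
      (h46 + h46') (h55 + h55') (h56 + h56') (h66 + h66') := by
  unfold f3d mkJ Jet.add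
  refine Jet.ext ?_ ?_ ?_
  · exact f3d_T3add _ _
  · funext i
    fin_cases i <;> ext <;> simp
  · funext i j
    fin_cases i <;> fin_cases j <;> ext <;> simp

theorem f3d_smul (c v g3 g4 g5 g6 h33 h34 h35 h36 h44 h45 h46 h55 h56 h66 : ℝ) :
    Jet.smul (T3.C c) (f3d v g3 g4 g5 g6 h33 h34 h35 h36 h44 h45 h46 h55 h56 h66) =
    f3d (c * v) (c * g3) (c * g4) (c * g5) (c * g6) (c * h33) (c * h34) (c * h35) (c * h36)
      (c * h44) (c * h45) (c * h46) (c * h55) (c * h56) (c * h66) := by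
  unfold f3d mkJ Jet.smul
  refine Jet.ext ?_ ?_ ?_
  · ext <;> simp
  · funext i
    fin_cases i <;> ext <;> simp
  · funext i j
    fin_cases i <;> fin_cases j <;> ext <;> simp

theorem f3d_fin {F G : ℝ → EE 7 → ℝ} {q : EE 7} {c d : Jet} (h : JApp F q c)
    (hF : ∀ l ξ, F l ξ = G l ξ) (hc : c = d) : JApp G q d := by
  have h1 : F = G := funext fun l => funext (hF l)
  rw [← h1, ← hc]
  exact h

theorem f3d_ext {v g0 g3 g4 g5 g6 h00 h03 h04 h05 h06 h33 h34 h35 h36 h44 h45 h46 h55 h56 h66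
    v' g0' g3' g4' g5' g6' h00' h03' h04' h05' h06' h33' h34' h35' h36' h44' h45' h46' h55' h56'
    h66' : T3} (e1 : v = v') (e2 : g0 = g0') (e3 : g3 = g3') (e4 : g4 = g4') (e5 : g5 = g5')
    (e6 : g6 = g6') (e7 : h00 = h00') (e8 : h03 = h03') (e9 : h04 = h04') (e10 : h05 = h05')
    (e11 : h06 = h06') (e12 : h33 = h33') (e13 : h34 = h34') (e14 : h35 = h35')
    (e15 : h36 = h36') (e16 : h44 = h44') (e17 : h45 = h45') (e18 : h46 = h46')
    (e19 : h55 = h55') (e20 : h56 = h56') (e21 : h66 = h66') :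
    mkJ v g0 g3 g4 g5 g6 h00 h03 h04 h05 h06 h33 h34 h35 h36 h44 h45 h46 h55 h56 h66 =
    mkJ v' g0' g3' g4' g5' g6' h00' h03' h04' h05' h06' h33' h34' h35' h36' h44' h45' h46' h55'
      h56' h66' := by
  subst e1 e2 e3 e4 e5 e6 e7 e8 e9 e10 e11 e12 e13 e14 e15 e16 e17 e18 e19 e20 e21
  rfl

theorem f3d_J0 : J0 = f3d 0 0 0 0 0 0 0 0 0 0 0 0 0 0 0 := rfl

/-- a zero function -/
theorem f3d_zero {G : ℝ → EE 7 → ℝ} {q : EE 7} (h : ∀ l ξ, G l ξ = 0) : JApp G q J0 := by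
  have h1 := JApp.cst q (App.const 0)
  refine f3d_fin h1 (fun l ξ => (h l ξ).symm) ?_
  rw [f3d_J0]
  unfold f3d mkJ Jet.cst
  refine Jet.ext ?_ ?_ ?_
  · rfl
  · funext i
    fin_cases i <;> rfl
  · funext i j
    fin_cases i <;> fin_cases j <;> rfl

theorem f3d_xi (t : ℝ) : xi0 t 3 = 0 ∧ xi0 t 4 = 0 ∧ xi0 t 5 = t ∧ xi0 t 6 = 0 := by
  refine ⟨?_, ?_, ?_, ?_⟩ <;> simp [xi0]

theorem f3d_crd (k : Fin 7) (r : ℝ) (hk : 3 ≤ k) : Jet.crd k r =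
    f3d r (if k = 3 then 1 else 0) (if k = 4 then 1 else 0) (if k = 5 then 1 else 0)
      (if k = 6 then 1 else 0) 0 0 0 0 0 0 0 0 0 0 := by
  unfold f3d mkJ Jet.crd
  refine Jet.ext rfl ?_ ?_
  · funext i
    fin_cases k <;> first | exact absurd hk (by decide) | (fin_cases i <;> rfl)
  · funext i j
    fin_cases i <;> fin_cases j <;> rfl

theorem f3d_c3 (t : ℝ) : JApp (fun _ ξ => ξ 3) (xi0 t) (f3d 0 1 0 0 0 0 0 0 0 0 0 0 0 0 0) := by
  have h := JApp.crd 3 (xi0 t)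
  rw [(f3d_xi t).1, f3d_crd 3 0 le_rfl] at h
  exact h

theorem f3d_c4 (t : ℝ) : JApp (fun _ ξ => ξ 4) (xi0 t) (f3d 0 0 1 0 0 0 0 0 0 0 0 0 0 0 0) := by
  have h := JApp.crd 4 (xi0 t)
  rw [(f3d_xi t).2.1, f3d_crd 4 0 (by decide)] at h
  exact h

theorem f3d_c5 (t : ℝ) : JApp (fun _ ξ => ξ 5) (xi0 t) (f3d t 0 0 1 0 0 0 0 0 0 0 0 0 0 0) := by
  have h := JApp.crd 5 (xi0 t)
  rw [(f3d_xi t).2.2.1, f3d_crd 5 t (by decide)] at h
  exact h

theorem f3d_c6 (t : ℝ) : JApp (fun _ ξ => ξ 6) (xi0 t) (f3d 0 0 0 0 1 0 0 0 0 0 0 0 0 0 0) := by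
  have h := JApp.crd 6 (xi0 t)
  rw [(f3d_xi t).2.2.2, f3d_crd 6 0 (by decide)] at h
  exact h


variable {P : Prof} (hP : ProfOK P) {eta x t : ℝ} (h1 : (eta * P.a x) ^ 2 + t ^ 2 = 1)
  (ha : 0 ≤ eta)
include hP h1 ha

/-! Notation in the docstrings: `R = √(SS P l eta x ξ)`, `N = zN ξ`, `b_i = P.b_i (x + l ξ0)`, `r2 = ξ5^2 + ξ6^2`, `z1 = ξ3`, `z2 = ξ4`, `l1 = ξ5`, `l2 = ξ6` (at `l = 0`), `kap`, `T` as in `gczH` (jets `jet_kap0`, `jet_T0`).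
With `τ = Z11 + Z22 + Z33`, `E = Z33 - τ/3`, `C = Z11 + Z22 - 2τ/3`, `D = Z11 - Z22`, `p2 = -τ/(24R) - E kap`,
`q2 = -τ/(24R) + E kap` (constants `Zij = p.Zij`), and for the basis vectors at `λ = 0`: `A(e3) = (2 z2/N)(-l2, l1)`, `B(e3) = (1/N, 0)`,
`A(e4) = -(2 z1/N)(-l2, l1)`, `B(e4) = (0, 1/N)`, `A(e5) = (1,0)`, `A(e6) = (0,1)`, all others `0`. -/

theorem f3d_iR (p : Par) (hp : p = par P eta x t) :
    JApp (fun _ ξ => 1 / √(SS P 0 eta x ξ)) (xi0 t)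
      (f3d 1 0 0 (-p.t) 0 0 0 0 0 0 0 0 (-1 + 3 * p.t ^ 2) 0 (-1)) :=
  jet_iR0 hP h1 ha p hp

theorem f3d_R (p : Par) (hp : p = par P eta x t) :
    JApp (fun _ ξ => √(SS P 0 eta x ξ)) (xi0 t)
      (f3d 1 0 0 p.t 0 0 0 0 0 0 0 0 (1 - p.t ^ 2) 0 1) :=
  jet_R0 hP h1 ha p hp

theorem f3d_iN (p : Par) (hp : p = par P eta x t) :
    JApp (fun _ ξ => 1 / zN ξ) (xi0 t) (f3d 1 0 0 0 0 (-2) 0 0 0 (-2) 0 0 0 0 0) :=
  jet_iN hP h1 ha p hp

theorem f3d_kap (p : Par) (hp : p = par P eta x t) :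
    JApp (fun _ ξ => (1 / 8) * (1 / √(SS P 0 eta x ξ) - 2 * (eta * P.a x) / √(SS P 0 eta x ξ) ^ 2))
      (xi0 t)
      (f3d (1 / 8 - (1 / 4) * p.a) 0 0 (-(1 / 8) * p.t + (1 / 2) * p.t * p.a) 0 0 0 0 0 0 0 0
        (-1 / 8 + (1 / 2) * p.a + (3 / 8) * p.t ^ 2 - 2 * p.t ^ 2 * p.a) 0
        (-1 / 8 + (1 / 2) * p.a)) :=
  jet_kap0 hP h1 ha p hp

theorem f3d_T (p : Par) (hp : p = par P eta x t) :
    JApp (fun _ ξ => 1 / (8 * √(SS P 0 eta x ξ) * (√(SS P 0 eta x ξ) + eta * P.a x) ^ 2)) (xi0 t)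
      (f3d ((1 / 8) * p.s ^ 2) 0 0 (-(1 / 8) * p.t * p.s ^ 2 - (1 / 4) * p.t * p.s ^ 3) 0
        0 0 0 0 0 0 0
        (-(1 / 8) * p.s ^ 2 - (1 / 4) * p.s ^ 3 + (3 / 8) * p.t ^ 2 * p.s ^ 2 +
          (3 / 4) * p.t ^ 2 * p.s ^ 3 + (3 / 4) * p.t ^ 2 * p.s ^ 4) 0
        (-(1 / 8) * p.s ^ 2 - (1 / 4) * p.s ^ 3)) :=
  jet_T0 hP h1 ha p hp

/-- `(0,0)`: `(Z11 + Z33) / (4 R)`; others `0` -/
theorem ghH_jet0 (p : Par) (hp : p = par P eta x t) : ∀ j : Fin 7, 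
    JApp (fun _ ξ => ghH P 0 eta x ξ (ebas 0) (ebas j)) (xi0 t) (HJ p 0 j) := by
  have hr := f3d_iR hP h1 ha p hp
  intro j
  fin_cases j
  · refine f3d_fin (JApp.smul (App.const ((p.Z11 + p.Z33) / 4)) hr) ?_ ?_
    · intro l ξ
      subst hp
      simp only [ghH, gczH, cA1, cA2, cB1, cB2, zo1, zo2, zo3, zero_mul, add_zero, par]
      simp
      ring
    · rw [f3d_smul]
      show _ = HJ00 p
      unfold HJ00 f3d
      apply f3d_ext <;> ext <;> simp <;> ring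
  all_goals
    refine f3d_zero fun l ξ => ?_
    simp only [ghH, gczH, cA1, cA2, cB1, cB2, zo1, zo2, zo3]
    simp

/-- `(1,1)`: `Z22 / (4 R)`; others `0` -/
theorem ghH_jet1 (p : Par) (hp : p = par P eta x t) : ∀ j : Fin 7, 
    JApp (fun _ ξ => ghH P 0 eta x ξ (ebas 1) (ebas j)) (xi0 t) (HJ p 1 j) := by
  have hr := f3d_iR hP h1 ha p hp
  intro j
  fin_cases j
  on_goal 2 =>
    refine f3d_fin (JApp.smul (App.const (p.Z22 / 4)) hr) ?_ ?_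
    · intro l ξ
      subst hp
      simp only [ghH, gczH, cA1, cA2, cB1, cB2, zo1, zo2, zo3, zero_mul, add_zero, par]
      simp
      ring
    · rw [f3d_smul]
      show _ = HJ11 p
      unfold HJ11 f3d
      apply f3d_ext <;> ext <;> simp <;> ring
  all_goals
    refine f3d_zero fun l ξ => ?_
    simp only [ghH, gczH, cA1, cA2, cB1, cB2, zo1, zo2, zo3]
    simp

/-- all `0` -/
theorem ghH_jet2 (p : Par) (hp : p = par P eta x t) : ∀ j : Fin 7, 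
    JApp (fun _ ξ => ghH P 0 eta x ξ (ebas 2) (ebas j)) (xi0 t) (HJ p 2 j) := by
  intro j
  fin_cases j
  all_goals
    refine f3d_zero fun l ξ => ?_
    simp only [ghH, gczH, cA1, cA2, cB1, cB2, zo1, zo2, zo3]
    simp

theorem f3d_33 (p : Par) (hp : p = par P eta x t) :
    JApp (fun _ ξ => ghH P 0 eta x ξ (ebas 3) (ebas 3)) (xi0 t) (HJ33 p) := by
  have hr := f3d_iR hP h1 ha p hp
  have hR := f3d_R hP h1 ha p hp
  have hn := f3d_iN hP h1 ha p hp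
  have hk := f3d_kap hP h1 ha p hp
  have hT := f3d_T hP h1 ha p hp
  have h4 := f3d_c4 t
  have h5 := f3d_c5 t
  have h6 := f3d_c6 t
  have hpt : t = p.t := by subst hp; rfl
  have hn2 := hn.mul hn
  have hzz := h4.mul h4
  have hr2 := (h5.mul h5).add (h6.mul h6)
  have hd2 := (h5.mul h5).add (JApp.smul (App.const (-1)) (h6.mul h6))
  have hp2 := (JApp.smul (App.const (-((p.Z11 + p.Z22 + p.Z33) / 24))) hr).add
    (JApp.smul (App.const (-(p.Z33 - (p.Z11 + p.Z22 + p.Z33) / 3))) hk)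
  have hq2 := (JApp.smul (App.const (-((p.Z11 + p.Z22 + p.Z33) / 24))) hr).add
    (JApp.smul (App.const (p.Z33 - (p.Z11 + p.Z22 + p.Z33) / 3)) hk)
  have H := ((((((hp2.mul hzz).mul hn2).mul hr2).mul hr).add ((hq2.mul hR).mul hn2)).add
    (hT.mul (((JApp.smul (App.const (p.Z11 + p.Z22 - 2 * (p.Z11 + p.Z22 + p.Z33) / 3))
      ((((hzz.mul hn2).mul hr2).mul hr2).mul hr)).add
      (JApp.smul (App.const (-(p.Z11 - p.Z22))) ((hR.mul hd2).mul hn2))).add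
      (JApp.smul (App.const (-(2 * p.Z13))) (((h4.mul hn2).mul hr2).mul h5))))).add
    (JApp.smul (App.const (-(2 * p.Z13))) (((hk.mul h4).mul hn2).mul h5))
  refine f3d_fin H ?_ ?_
  · intro l ξ
    subst hp
    simp only [ghH, gczH, cA1, cA2, cB1, cB2, zo1, zo2, zo3, zero_mul, add_zero, par]
    simp
    ring
  · simp only [f3d_mul, f3d_add, f3d_smul, hpt, mul_zero, zero_mul, add_zero, zero_add, mul_one,
      one_mul]
    unfold HJ33 f3d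
    apply f3d_ext <;> ext <;> simp <;> ring

theorem f3d_34 (p : Par) (hp : p = par P eta x t) :
    JApp (fun _ ξ => ghH P 0 eta x ξ (ebas 3) (ebas 4)) (xi0 t) (HJ34 p) := by
  have hr := f3d_iR hP h1 ha p hp
  have hR := f3d_R hP h1 ha p hp
  have hn := f3d_iN hP h1 ha p hp
  have hk := f3d_kap hP h1 ha p hp
  have hT := f3d_T hP h1 ha p hp
  have h3 := f3d_c3 t
  have h4 := f3d_c4 t
  have h5 := f3d_c5 t
  have h6 := f3d_c6 t
  have hpt : t = p.t := by subst hp; rfl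
  have hn2 := hn.mul hn
  have hr2 := (h5.mul h5).add (h6.mul h6)
  have hd2 := (h5.mul h5).add (JApp.smul (App.const (-1)) (h6.mul h6))
  have hp2 := (JApp.smul (App.const (-((p.Z11 + p.Z22 + p.Z33) / 24))) hr).add
    (JApp.smul (App.const (-(p.Z33 - (p.Z11 + p.Z22 + p.Z33) / 3))) hk)
  have hzz := h3.mul h4
  have hd := (h3.mul h5).add (JApp.smul (App.const (-1)) (h4.mul h6))
  have H := (((JApp.smul (App.const (-1)) ((((hp2.mul hzz).mul hn2).mul hr2).mul hr)).add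
    (JApp.smul (App.const (-1)) (hT.mul (((JApp.smul
      (App.const (p.Z11 + p.Z22 - 2 * (p.Z11 + p.Z22 + p.Z33) / 3))
      ((((hzz.mul hn2).mul hr2).mul hr2).mul hr)).add
      (JApp.smul (App.const (2 * (p.Z11 - p.Z22))) (((hR.mul h5).mul h6).mul hn2))).add
      (JApp.smul (App.const (-p.Z13)) ((hn2.mul hr2).mul hd)))))).add
    (JApp.smul (App.const p.Z13) ((hk.mul hn2).mul hd)))
  refine f3d_fin H ?_ ?_
  · intro l ξ
    subst hp
    simp only [ghH, gczH, cA1, cA2, cB1, cB2, zo1, zo2, zo3, zero_mul, add_zero, par]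
    simp
    ring
  · simp only [f3d_mul, f3d_add, f3d_smul, hpt, mul_zero, zero_mul, add_zero, zero_add, mul_one,
      one_mul]
    unfold HJ34 f3d
    apply f3d_ext <;> ext <;> simp <;> ring

theorem f3d_35 (p : Par) (hp : p = par P eta x t) :
    JApp (fun _ ξ => ghH P 0 eta x ξ (ebas 3) (ebas 5)) (xi0 t) (HJ35 p) := by
  have hr := f3d_iR hP h1 ha p hp
  have hR := f3d_R hP h1 ha p hp
  have hn := f3d_iN hP h1 ha p hp
  have hk := f3d_kap hP h1 ha p hp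
  have hT := f3d_T hP h1 ha p hp
  have h3 := f3d_c3 t
  have h4 := f3d_c4 t
  have h5 := f3d_c5 t
  have h6 := f3d_c6 t
  have hpt : t = p.t := by subst hp; rfl
  have hn2 := hn.mul hn
  have hr2 := (h5.mul h5).add (h6.mul h6)
  have hd2 := (h5.mul h5).add (JApp.smul (App.const (-1)) (h6.mul h6))
  have hp2 := (JApp.smul (App.const (-((p.Z11 + p.Z22 + p.Z33) / 24))) hr).add
    (JApp.smul (App.const (-(p.Z33 - (p.Z11 + p.Z22 + p.Z33) / 3))) hk)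
  have H := ((JApp.smul (App.const (-1 / 2)) ((((hp2.mul h4).mul hn).mul h6).mul hr)).add
    (JApp.smul (App.const (-1)) (hT.mul ((JApp.smul
      (App.const ((p.Z11 + p.Z22 - 2 * (p.Z11 + p.Z22 + p.Z33) / 3) / 2))
      ((((h4.mul hn).mul hr2).mul h6).mul hr)).add
      (JApp.smul (App.const (-p.Z13)) ((h5.mul h6).mul hn))))))
  refine f3d_fin H ?_ ?_
  · intro l ξ
    subst hp
    simp only [ghH, gczH, cA1, cA2, cB1, cB2, zo1, zo2, zo3, zero_mul, add_zero, par]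
    simp
    ring
  · simp only [f3d_mul, f3d_add, f3d_smul, hpt, mul_zero, zero_mul, add_zero, zero_add, mul_one,
      one_mul]
    unfold HJ35 f3d
    apply f3d_ext <;> ext <;> simp <;> ring

theorem f3d_36 (p : Par) (hp : p = par P eta x t) :
    JApp (fun _ ξ => ghH P 0 eta x ξ (ebas 3) (ebas 6)) (xi0 t) (HJ36 p) := by
  have hr := f3d_iR hP h1 ha p hp
  have hR := f3d_R hP h1 ha p hp
  have hn := f3d_iN hP h1 ha p hp
  have hk := f3d_kap hP h1 ha p hp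
  have hT := f3d_T hP h1 ha p hp
  have h3 := f3d_c3 t
  have h4 := f3d_c4 t
  have h5 := f3d_c5 t
  have h6 := f3d_c6 t
  have hpt : t = p.t := by subst hp; rfl
  have hn2 := hn.mul hn
  have hr2 := (h5.mul h5).add (h6.mul h6)
  have hd2 := (h5.mul h5).add (JApp.smul (App.const (-1)) (h6.mul h6))
  have hp2 := (JApp.smul (App.const (-((p.Z11 + p.Z22 + p.Z33) / 24))) hr).add
    (JApp.smul (App.const (-(p.Z33 - (p.Z11 + p.Z22 + p.Z33) / 3))) hk)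
  have H := ((JApp.smul (App.const (1 / 2)) ((((hp2.mul h4).mul hn).mul h5).mul hr)).add
    (JApp.smul (App.const (-1)) (hT.mul ((JApp.smul
      (App.const (-((p.Z11 + p.Z22 - 2 * (p.Z11 + p.Z22 + p.Z33) / 3) / 2)))
      ((((h4.mul hn).mul hr2).mul h5).mul hr)).add
      (JApp.smul (App.const (p.Z13 / 2)) (hd2.mul hn)))))).add
    (JApp.smul (App.const (-(p.Z13 / 2))) (hk.mul hn))
  refine f3d_fin H ?_ ?_
  · intro l ξ
    subst hp
    simp only [ghH, gczH, cA1, cA2, cB1, cB2, zo1, zo2, zo3, zero_mul, add_zero, par]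
    simp
    ring
  · simp only [f3d_mul, f3d_add, f3d_smul, hpt, mul_zero, zero_mul, add_zero, zero_add, mul_one,
      one_mul]
    unfold HJ36 f3d
    apply f3d_ext <;> ext <;> simp <;> ring

/-- `(3,3)`: `p2 z2^2 r2 / (N^2 R) + q2 R / N^2 - T (-C z2^2 r2^2 / (N^2 R) + D R (l1^2 - l2^2) / N^2
+ 2 Z13 z2 r2 l1 / N^2) - 2 kap Z13 z2 l1 / N^2`, and similarly `(3,4)`, `(3,5)`, `(3,6)` (insert `A`, `B` in `gczH`) -/
theorem ghH_jet3 (p : Par) (hp : p = par P eta x t) : ∀ j : Fin 7, 3 ≤ j →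
    JApp (fun _ ξ => ghH P 0 eta x ξ (ebas 3) (ebas j)) (xi0 t) (HJ p 3 j) := by
  intro j hj
  fin_cases j
  · exact absurd hj (by decide)
  · exact absurd hj (by decide)
  · exact absurd hj (by decide)
  · exact f3d_33 hP h1 ha p hp
  · exact f3d_34 hP h1 ha p hp
  · exact f3d_35 hP h1 ha p hp
  · exact f3d_36 hP h1 ha p hp

end H31R
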