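import Pool.Agent.Lib.H31R.F3d

/-!
# H31R, chunk F3e: jets of the correction, rows 4, 5, 6
-/

open scoped ContDiff Topology
open Real Filter

namespace H31R

variable {P : Prof} (hP : ProfOK P) {eta x t : ℝ} (h1 : (eta * P.a x) ^ 2 + t ^ 2 = 1)
  (ha : 0 ≤ eta)
include hP h1 ha

/-! Notation: `R = √(SS P l eta x ξ)`, `N = zN ξ`, `b_i = P.b_i (x + l ξ0)`, `r2 = ξ5^2 + ξ6^2`, `z1 = ξ3`, `z2 = ξ4`, `l1 = ξ5`, `l2 = ξ6` (at `l = 0`), `kap`, `T` as in `gczH` (jets `jet_kap0`, `jet_T0`).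
With `τ = Z11 + Z22 + Z33`, `E = Z33 - τ/3`, `C = Z11 + Z22 - 2τ/3`, `D = Z11 - Z22`, `p2 = -τ/(24R) - E kap`,
`q2 = -τ/(24R) + E kap` (constants `Zij = p.Zij`), and for the basis vectors at `λ = 0`: `A(e3) = (2 z2/N)(-l2, l1)`, `B(e3) = (1/N, 0)`,
`A(e4) = -(2 z1/N)(-l2, l1)`, `B(e4) = (0, 1/N)`, `A(e5) = (1,0)`, `A(e6) = (0,1)`, all others `0`. -/

theorem f3e_44 (p : Par) (hp : p = par P eta x t) :
    JApp (fun _ ξ => ghH P 0 eta x ξ (ebas 4) (ebas 4)) (xi0 t) (HJ44 p) := by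
  have hr := f3d_iR hP h1 ha p hp
  have hR := f3d_R hP h1 ha p hp
  have hn := f3d_iN hP h1 ha p hp
  have hk := f3d_kap hP h1 ha p hp
  have hT := f3d_T hP h1 ha p hp
  have h3 := f3d_c3 t
  have h5 := f3d_c5 t
  have h6 := f3d_c6 t
  have hpt : t = p.t := by subst hp; rfl
  have hr2 := (h5.mul h5).add (h6.mul h6)
  have hd2 := (h5.mul h5).add (JApp.smul (App.const (-1)) (h6.mul h6))
  have hp2 := (JApp.smul (App.const (-((p.Z11 + p.Z22 + p.Z33) / 24))) hr).add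
    (JApp.smul (App.const (-(p.Z33 - (p.Z11 + p.Z22 + p.Z33) / 3))) hk)
  have hn2 := hn.mul hn
  have hzz := h3.mul h3
  have hq2 := (JApp.smul (App.const (-((p.Z11 + p.Z22 + p.Z33) / 24))) hr).add
    (JApp.smul (App.const (p.Z33 - (p.Z11 + p.Z22 + p.Z33) / 3)) hk)
  have H := (((((((hp2.mul hzz).mul hn2).mul hr2).mul hr).add ((hq2.mul hR).mul hn2)).add (hT.mul (((JApp.smul (App.const ((p.Z11 + p.Z22 - 2 * (p.Z11 + p.Z22 + p.Z33) / 3))) ((((hzz.mul hn2).mul hr2).mul hr2).mul hr)).add (JApp.smul (App.const ((p.Z11 - p.Z22))) ((hR.mul hd2).mul hn2))).add (JApp.smul (App.const (2 * p.Z13)) (((h3.mul hn2).mul hr2).mul h6))))).add (JApp.smul (App.const (2 * p.Z13)) (((hk.mul h3).mul hn2).mul h6)))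
  refine f3d_fin H ?_ ?_
  · intro l ξ
    subst hp
    simp only [ghH, gczH, cA1, cA2, cB1, cB2, zo1, zo2, zo3, zero_mul, add_zero, par]
    simp
    ring
  · simp only [f3d_mul, f3d_add, f3d_smul, hpt, mul_zero, zero_mul, add_zero, zero_add, mul_one,
      one_mul]
    unfold HJ44 f3d
    apply f3d_ext <;> ext <;> simp <;> ring

theorem f3e_45 (p : Par) (hp : p = par P eta x t) :
    JApp (fun _ ξ => ghH P 0 eta x ξ (ebas 4) (ebas 5)) (xi0 t) (HJ45 p) := by
  have hr := f3d_iR hP h1 ha p hp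
  have hR := f3d_R hP h1 ha p hp
  have hn := f3d_iN hP h1 ha p hp
  have hk := f3d_kap hP h1 ha p hp
  have hT := f3d_T hP h1 ha p hp
  have h3 := f3d_c3 t
  have h5 := f3d_c5 t
  have h6 := f3d_c6 t
  have hpt : t = p.t := by subst hp; rfl
  have hr2 := (h5.mul h5).add (h6.mul h6)
  have hd2 := (h5.mul h5).add (JApp.smul (App.const (-1)) (h6.mul h6))
  have hp2 := (JApp.smul (App.const (-((p.Z11 + p.Z22 + p.Z33) / 24))) hr).add
    (JApp.smul (App.const (-(p.Z33 - (p.Z11 + p.Z22 + p.Z33) / 3))) hk)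
  have H := (((JApp.smul (App.const (1 / 2)) ((((hp2.mul h3).mul hn).mul h6).mul hr)).add (hT.mul ((JApp.smul (App.const ((p.Z11 + p.Z22 - 2 * (p.Z11 + p.Z22 + p.Z33) / 3) / 2)) ((((h3.mul hn).mul hr2).mul h6).mul hr)).add (JApp.smul (App.const (-(p.Z13 / 2))) (hd2.mul hn))))).add (JApp.smul (App.const (p.Z13 / 2)) (hk.mul hn)))
  refine f3d_fin H ?_ ?_
  · intro l ξ
    subst hp
    simp only [ghH, gczH, cA1, cA2, cB1, cB2, zo1, zo2, zo3, zero_mul, add_zero, par]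
    simp
    ring
  · simp only [f3d_mul, f3d_add, f3d_smul, hpt, mul_zero, zero_mul, add_zero, zero_add, mul_one,
      one_mul]
    unfold HJ45 f3d
    apply f3d_ext <;> ext <;> simp <;> ring

theorem f3e_46 (p : Par) (hp : p = par P eta x t) :
    JApp (fun _ ξ => ghH P 0 eta x ξ (ebas 4) (ebas 6)) (xi0 t) (HJ46 p) := by
  have hr := f3d_iR hP h1 ha p hp
  have hR := f3d_R hP h1 ha p hp
  have hn := f3d_iN hP h1 ha p hp
  have hk := f3d_kap hP h1 ha p hp
  have hT := f3d_T hP h1 ha p hp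
  have h3 := f3d_c3 t
  have h5 := f3d_c5 t
  have h6 := f3d_c6 t
  have hpt : t = p.t := by subst hp; rfl
  have hr2 := (h5.mul h5).add (h6.mul h6)
  have hd2 := (h5.mul h5).add (JApp.smul (App.const (-1)) (h6.mul h6))
  have hp2 := (JApp.smul (App.const (-((p.Z11 + p.Z22 + p.Z33) / 24))) hr).add
    (JApp.smul (App.const (-(p.Z33 - (p.Z11 + p.Z22 + p.Z33) / 3))) hk)
  have H := ((JApp.smul (App.const (-1 / 2)) ((((hp2.mul h3).mul hn).mul h5).mul hr)).add (hT.mul ((JApp.smul (App.const (-((p.Z11 + p.Z22 - 2 * (p.Z11 + p.Z22 + p.Z33) / 3) / 2))) ((((h3.mul hn).mul hr2).mul h5).mul hr)).add (JApp.smul (App.const (-p.Z13)) ((h5.mul h6).mul hn)))))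
  refine f3d_fin H ?_ ?_
  · intro l ξ
    subst hp
    simp only [ghH, gczH, cA1, cA2, cB1, cB2, zo1, zo2, zo3, zero_mul, add_zero, par]
    simp
    ring
  · simp only [f3d_mul, f3d_add, f3d_smul, hpt, mul_zero, zero_mul, add_zero, zero_add, mul_one,
      one_mul]
    unfold HJ46 f3d
    apply f3d_ext <;> ext <;> simp <;> ring

theorem f3e_55 (p : Par) (hp : p = par P eta x t) :
    JApp (fun _ ξ => ghH P 0 eta x ξ (ebas 5) (ebas 5)) (xi0 t) (HJ55 p) := by
  have hr := f3d_iR hP h1 ha p hp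
  have hR := f3d_R hP h1 ha p hp
  have hn := f3d_iN hP h1 ha p hp
  have hk := f3d_kap hP h1 ha p hp
  have hT := f3d_T hP h1 ha p hp
  have h3 := f3d_c3 t
  have h5 := f3d_c5 t
  have h6 := f3d_c6 t
  have hpt : t = p.t := by subst hp; rfl
  have hr2 := (h5.mul h5).add (h6.mul h6)
  have hd2 := (h5.mul h5).add (JApp.smul (App.const (-1)) (h6.mul h6))
  have hp2 := (JApp.smul (App.const (-((p.Z11 + p.Z22 + p.Z33) / 24))) hr).add
    (JApp.smul (App.const (-(p.Z33 - (p.Z11 + p.Z22 + p.Z33) / 3))) hk)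
  have H := ((JApp.smul (App.const (1 / 4)) (hp2.mul hr)).add (hT.mul (JApp.smul (App.const (-((p.Z11 + p.Z22 - 2 * (p.Z11 + p.Z22 + p.Z33) / 3) / 4))) (hd2.mul hr))))
  refine f3d_fin H ?_ ?_
  · intro l ξ
    subst hp
    simp only [ghH, gczH, cA1, cA2, cB1, cB2, zo1, zo2, zo3, zero_mul, add_zero, par]
    simp
    ring
  · simp only [f3d_mul, f3d_add, f3d_smul, hpt, mul_zero, zero_mul, add_zero, zero_add, mul_one,
      one_mul]
    unfold HJ55 f3d
    apply f3d_ext <;> ext <;> simp <;> ring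

theorem f3e_56 (p : Par) (hp : p = par P eta x t) :
    JApp (fun _ ξ => ghH P 0 eta x ξ (ebas 5) (ebas 6)) (xi0 t) (HJ56 p) := by
  have hr := f3d_iR hP h1 ha p hp
  have hR := f3d_R hP h1 ha p hp
  have hn := f3d_iN hP h1 ha p hp
  have hk := f3d_kap hP h1 ha p hp
  have hT := f3d_T hP h1 ha p hp
  have h3 := f3d_c3 t
  have h5 := f3d_c5 t
  have h6 := f3d_c6 t
  have hpt : t = p.t := by subst hp; rfl
  have hr2 := (h5.mul h5).add (h6.mul h6)
  have hd2 := (h5.mul h5).add (JApp.smul (App.const (-1)) (h6.mul h6))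
  have hp2 := (JApp.smul (App.const (-((p.Z11 + p.Z22 + p.Z33) / 24))) hr).add
    (JApp.smul (App.const (-(p.Z33 - (p.Z11 + p.Z22 + p.Z33) / 3))) hk)
  have H := (hT.mul (JApp.smul (App.const (-((p.Z11 + p.Z22 - 2 * (p.Z11 + p.Z22 + p.Z33) / 3) / 2))) ((h5.mul h6).mul hr)))
  refine f3d_fin H ?_ ?_
  · intro l ξ
    subst hp
    simp only [ghH, gczH, cA1, cA2, cB1, cB2, zo1, zo2, zo3, zero_mul, add_zero, par]
    simp
    left
    ring
  · simp only [f3d_mul, f3d_add, f3d_smul, hpt, mul_zero, zero_mul, add_zero, zero_add, mul_one,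
      one_mul]
    unfold HJ56 f3d
    apply f3d_ext <;> ext <;> simp <;> ring

theorem f3e_66 (p : Par) (hp : p = par P eta x t) :
    JApp (fun _ ξ => ghH P 0 eta x ξ (ebas 6) (ebas 6)) (xi0 t) (HJ66 p) := by
  have hr := f3d_iR hP h1 ha p hp
  have hR := f3d_R hP h1 ha p hp
  have hn := f3d_iN hP h1 ha p hp
  have hk := f3d_kap hP h1 ha p hp
  have hT := f3d_T hP h1 ha p hp
  have h3 := f3d_c3 t
  have h5 := f3d_c5 t
  have h6 := f3d_c6 t
  have hpt : t = p.t := by subst hp; rfl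
  have hr2 := (h5.mul h5).add (h6.mul h6)
  have hd2 := (h5.mul h5).add (JApp.smul (App.const (-1)) (h6.mul h6))
  have hp2 := (JApp.smul (App.const (-((p.Z11 + p.Z22 + p.Z33) / 24))) hr).add
    (JApp.smul (App.const (-(p.Z33 - (p.Z11 + p.Z22 + p.Z33) / 3))) hk)
  have H := ((JApp.smul (App.const (1 / 4)) (hp2.mul hr)).add (hT.mul (JApp.smul (App.const ((p.Z11 + p.Z22 - 2 * (p.Z11 + p.Z22 + p.Z33) / 3) / 4)) (hd2.mul hr))))
  refine f3d_fin H ?_ ?_
  · intro l ξ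
    subst hp
    simp only [ghH, gczH, cA1, cA2, cB1, cB2, zo1, zo2, zo3, zero_mul, add_zero, par]
    simp
    ring
  · simp only [f3d_mul, f3d_add, f3d_smul, hpt, mul_zero, zero_mul, add_zero, zero_add, mul_one,
      one_mul]
    unfold HJ66 f3d
    apply f3d_ext <;> ext <;> simp <;> ring

/-- insert `A`, `B` in `gczH` -/
theorem ghH_jet4 (p : Par) (hp : p = par P eta x t) : ∀ j : Fin 7, 4 ≤ j →
    JApp (fun _ ξ => ghH P 0 eta x ξ (ebas 4) (ebas j)) (xi0 t) (HJ p 4 j) := by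
  intro j hj
  fin_cases j
  · exact absurd hj (by decide)
  · exact absurd hj (by decide)
  · exact absurd hj (by decide)
  · exact absurd hj (by decide)
  · exact f3e_44 hP h1 ha p hp
  · exact f3e_45 hP h1 ha p hp
  · exact f3e_46 hP h1 ha p hp

/-- `(5,5)`: `p2 / (4 R) - T C (l1^2 - l2^2) / (4 R)`, `(5,6)`: `-T C (2 l1 l2) / (4 R)` -/
theorem ghH_jet5 (p : Par) (hp : p = par P eta x t) : ∀ j : Fin 7, 5 ≤ j →
    JApp (fun _ ξ => ghH P 0 eta x ξ (ebas 5) (ebas j)) (xi0 t) (HJ p 5 j) := by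
  intro j hj
  fin_cases j
  · exact absurd hj (by decide)
  · exact absurd hj (by decide)
  · exact absurd hj (by decide)
  · exact absurd hj (by decide)
  · exact absurd hj (by decide)
  · exact f3e_55 hP h1 ha p hp
  · exact f3e_56 hP h1 ha p hp

/-- `(6,6)`: `p2 / (4 R) - T C (l2^2 - l1^2) / (4 R)` -/
theorem ghH_jet6 (p : Par) (hp : p = par P eta x t) : ∀ j : Fin 7, 6 ≤ j →
    JApp (fun _ ξ => ghH P 0 eta x ξ (ebas 6) (ebas j)) (xi0 t) (HJ p 6 j) := by
  intro j hj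
  fin_cases j
  · exact absurd hj (by decide)
  · exact absurd hj (by decide)
  · exact absurd hj (by decide)
  · exact absurd hj (by decide)
  · exact absurd hj (by decide)
  · exact absurd hj (by decide)
  · exact f3e_66 hP h1 ha p hp

end H31R
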