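import Pool.Agent.Lib.H31R.F3a
import Pool.Agent.Lib.H31R.F3b
import Pool.Agent.Lib.H31R.F3c
import Pool.Agent.Lib.H31R.F3d
import Pool.Agent.Lib.H31R.F3e

/-!
# H31R, chunk F3: jets of the rescaled core metric
-/

open scoped ContDiff Topology
open Real Filter

namespace H31R

variable {P : Prof} (hP : ProfOK P) {eta x t : ℝ} (h1 : (eta * P.a x) ^ 2 + t ^ 2 = 1)
  (ha : 0 ≤ eta)
include hP h1 ha

theorem F3_M (p : Par) (hp : p = par P eta x t) (i j : Fin 7) (hij : i ≤ j) :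
    JApp (fun l ξ => ghM P l eta x ξ (ebas i) (ebas j)) (xi0 t) (MJ p i j) := by
  fin_cases i
  · exact ghM_jet0 hP h1 ha p hp j
  · exact ghM_jet1 hP h1 ha p hp j
  · exact ghM_jet2 hP h1 ha p hp j
  · exact ghM_jet3 hP h1 ha p hp j hij
  · exact ghM_jet4 hP h1 ha p hp j hij
  · exact ghM_jet5 hP h1 ha p hp j hij
  · exact ghM_jet6 hP h1 ha p hp j hij

theorem F3_H (p : Par) (hp : p = par P eta x t) (i j : Fin 7) (hij : i ≤ j) :
    JApp (fun _ ξ => ghH P 0 eta x ξ (ebas i) (ebas j)) (xi0 t) (HJ p i j) := by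
  fin_cases i
  · exact ghH_jet0 hP h1 ha p hp j
  · exact ghH_jet1 hP h1 ha p hp j
  · exact ghH_jet2 hP h1 ha p hp j
  · exact ghH_jet3 hP h1 ha p hp j hij
  · exact ghH_jet4 hP h1 ha p hp j hij
  · exact ghH_jet5 hP h1 ha p hp j hij
  · exact ghH_jet6 hP h1 ha p hp j hij

omit hP h1 ha in
theorem F3_MJ_symm (p : Par) (i j : Fin 7) : MJ p i j = MJ p j i := by
  fin_cases i <;> fin_cases j <;> rfl

omit hP h1 ha in
theorem F3_HJ_symm (p : Par) (i j : Fin 7) : HJ p i j = HJ p j i := by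
  fin_cases i <;> fin_cases j <;> rfl

theorem F3_le (p : Par) (hp : p = par P eta x t) (i j : Fin 7) (hij : i ≤ j) :
    JApp (fun l ξ => gh P l eta x ξ (ebas i) (ebas j)) (xi0 t) (GJ p i j) := by
  have hM := F3_M hP h1 ha p hp i j hij
  have hH := JApp.sq_mul (F := fun l ξ => ghH P l eta x ξ (ebas i) (ebas j))
    (ghH_smooth hP h1 ha (ebas i) (ebas j)) (F3_H hP h1 ha p hp i j hij)
  exact F3c_eq (hM.add hH) (fun l ξ => gh_split P l eta x ξ (ebas i) (ebas j)) rfl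

/-- `gh_split`, `JApp.sq_mul` and the tables (for `i > j` by symmetry). -/
theorem gh_jet (p : Par) (hp : p = par P eta x t) (i j : Fin 7) :
    JApp (fun l ξ => mtx (gh P l eta x) ξ i j) (xi0 t) (GJ p i j) := by
  rcases le_total i j with hij | hij
  · exact F3_le hP h1 ha p hp i j hij
  · refine F3c_eq (F3_le hP h1 ha p hp j i hij) (fun l ξ => ?_) ?_
    · show gh P l eta x ξ (ebas i) (ebas j) = gh P l eta x ξ (ebas j) (ebas i)
      rw [gh_split, gh_split, ghM_symm, ghH_symm]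
    · unfold GJ
      rw [F3_MJ_symm, F3_HJ_symm]

end H31R
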