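import Pool.Agent.Lib.H31R.F4
import Pool.Agent.Lib.H31R.B4
import Pool.Agent.Lib.H31R.F3

/-!
# H31R, chunk C8a: the rescaled metric: smoothness in all variables, values at `λ = 0` and `η = 0`
-/

open scoped ContDiff Topology
open Real Filter

namespace H31R

/-- smoothness of `gcz` -/
theorem C8a_gcz {E : Type} [NormedAddCommGroup E] [NormedSpace ℝ E]
    {Z11 Z22 Z33 Z13 a R l1 l2 Au1 Au2 Bu1 Bu2 Av1 Av2 Bv1 Bv2 : E → ℝ}
    (xu1 xu2 xu3 xv1 xv2 xv3 : ℝ) {q : E}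
    (k1 : ContDiffAt ℝ ∞ Z11 q) (k2 : ContDiffAt ℝ ∞ Z22 q) (k3 : ContDiffAt ℝ ∞ Z33 q)
    (k4 : ContDiffAt ℝ ∞ Z13 q) (k5 : ContDiffAt ℝ ∞ a q) (k6 : ContDiffAt ℝ ∞ R q)
    (k7 : ContDiffAt ℝ ∞ l1 q) (k8 : ContDiffAt ℝ ∞ l2 q) (k9 : ContDiffAt ℝ ∞ Au1 q)
    (k10 : ContDiffAt ℝ ∞ Au2 q) (k11 : ContDiffAt ℝ ∞ Bu1 q) (k12 : ContDiffAt ℝ ∞ Bu2 q)
    (k13 : ContDiffAt ℝ ∞ Av1 q) (k14 : ContDiffAt ℝ ∞ Av2 q) (k15 : ContDiffAt ℝ ∞ Bv1 q)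
    (k16 : ContDiffAt ℝ ∞ Bv2 q) (n1 : R q ≠ 0) (n2 : R q + a q ≠ 0) :
    ContDiffAt ℝ ∞ (fun z => gcz (Z11 z) (Z22 z) (Z33 z) (Z13 z) (a z) (R z) (l1 z) (l2 z)
      xu1 xu2 xu3 (Au1 z) (Au2 z) (Bu1 z) (Bu2 z) xv1 xv2 xv3 (Av1 z) (Av2 z) (Bv1 z)
      (Bv2 z)) q := by
  unfold gcz
  have n3 : 8 * R q * (R q + a q) ^ 2 ≠ 0 := by
    have := pow_ne_zero 2 n2
    positivity
  have n4 : 24 * R q ≠ 0 := mul_ne_zero (by norm_num) n1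
  have n5 : 4 * R q ≠ 0 := mul_ne_zero (by norm_num) n1
  have n6 : R q ^ 2 ≠ 0 := pow_ne_zero 2 n1
  fun_prop (disch := assumption)

/-- joint smoothness (`SS > 0`, `√SS + η a > 0`, `zN > 0`) -/
theorem gh_smooth {P : Prof} (hP : ProfOK P) {lam eta x : ℝ} {ξ : EE 7}
    (hS : 0 < SS P lam eta x ξ) (ha : 0 ≤ eta) (u v : EE 7) :
    ContDiffAt ℝ ∞ (fun w : ℝ × ℝ × ℝ × EE 7 => gh P w.1 w.2.1 w.2.2.1 w.2.2.2 u v)
      (lam, eta, x, ξ) := by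
  have hc : ∀ k : Fin 7, ContDiffAt ℝ ∞ (fun z : ℝ × ℝ × ℝ × EE 7 => z.2.2.2 k)
      (lam, eta, x, ξ) := fun k =>
    ((EuclideanSpace.proj k : EE 7 →L[ℝ] ℝ).contDiff.comp
      (contDiff_snd.comp (contDiff_snd.comp contDiff_snd))).contDiffAt
  have hl : ContDiffAt ℝ ∞ (fun z : ℝ × ℝ × ℝ × EE 7 => z.1) (lam, eta, x, ξ) := contDiffAt_fst
  have he : ContDiffAt ℝ ∞ (fun z : ℝ × ℝ × ℝ × EE 7 => z.2.1) (lam, eta, x, ξ) :=
    (contDiff_fst.comp contDiff_snd).contDiffAt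
  have hx : ContDiffAt ℝ ∞ (fun z : ℝ × ℝ × ℝ × EE 7 => z.2.2.1) (lam, eta, x, ξ) :=
    (contDiff_fst.comp (contDiff_snd.comp contDiff_snd)).contDiffAt
  have hin : ContDiffAt ℝ ∞ (fun z : ℝ × ℝ × ℝ × EE 7 => z.2.2.1 + z.1 * z.2.2.2 0)
      (lam, eta, x, ξ) := hx.add (hl.mul (hc 0))
  have hsh : ∀ f : ℝ → ℝ, ContDiff ℝ ∞ f →
      ContDiffAt ℝ ∞ (fun z : ℝ × ℝ × ℝ × EE 7 => f (z.2.2.1 + z.1 * z.2.2.2 0))
        (lam, eta, x, ξ) := fun f hf => hf.contDiffAt.comp _ hin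
  have hda : ContDiff ℝ ∞ (deriv P.a) := ((contDiff_infty_iff_deriv).1 hP.sa).2
  have hA := hsh _ hP.sa
  have hA' := hsh _ hda
  have hb1 := hsh _ hP.s1
  have hb2 := hsh _ hP.s2
  have hb3 := hsh _ hP.s3
  have hSS : ContDiffAt ℝ ∞ (fun z : ℝ × ℝ × ℝ × EE 7 => SS P z.1 z.2.1 z.2.2.1 z.2.2.2)
      (lam, eta, x, ξ) := by
    unfold SS
    exact ((he.mul hA).pow 2).add (((hc 5).pow 2).add ((hc 6).pow 2))
  have hR : ContDiffAt ℝ ∞ (fun z : ℝ × ℝ × ℝ × EE 7 => √(SS P z.1 z.2.1 z.2.2.1 z.2.2.2))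
      (lam, eta, x, ξ) := hSS.sqrt hS.ne'
  have hRpos : 0 < √(SS P lam eta x ξ) := Real.sqrt_pos.2 hS
  have hN : ContDiffAt ℝ ∞ (fun z : ℝ × ℝ × ℝ × EE 7 => zN z.2.2.2) (lam, eta, x, ξ) := by
    unfold zN
    exact (contDiffAt_const.add ((hc 3).pow 2)).add ((hc 4).pow 2)
  have hNv : ∀ z : ℝ × ℝ × ℝ × EE 7, zN z.2.2.2 ≠ 0 := fun z => by
    unfold zN; positivity
  have ho1 : ∀ w : EE 7, ContDiffAt ℝ ∞ (fun z : ℝ × ℝ × ℝ × EE 7 => zo1 z.2.2.2 w)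
      (lam, eta, x, ξ) := fun w => by
    unfold zo1
    exact contDiffAt_const.div hN (hNv _)
  have ho2 : ∀ w : EE 7, ContDiffAt ℝ ∞ (fun z : ℝ × ℝ × ℝ × EE 7 => zo2 z.2.2.2 w)
      (lam, eta, x, ξ) := fun w => by
    unfold zo2
    exact contDiffAt_const.div hN (hNv _)
  have ho3 : ∀ w : EE 7, ContDiffAt ℝ ∞ (fun z : ℝ × ℝ × ℝ × EE 7 => zo3 z.2.2.2 w)
      (lam, eta, x, ξ) := fun w => by
    unfold zo3
    exact (contDiffAt_const.mul (((hc 4).mul contDiffAt_const).sub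
      ((hc 3).mul contDiffAt_const))).div hN (hNv _)
  have hR0 : √(SS P lam eta x ξ) ≠ 0 := hRpos.ne'
  have hA1 : ∀ w : EE 7, ContDiffAt ℝ ∞ (fun z : ℝ × ℝ × ℝ × EE 7 =>
      cA1 (P.b3 (z.2.2.1 + z.1 * z.2.2.2 0)) (z.2.2.2 6) (z.1 * w 1) (w 5) (zo3 z.2.2.2 w))
      (lam, eta, x, ξ) := fun w => by
    unfold cA1
    exact contDiffAt_const.sub (((ho3 w).sub ((contDiffAt_const.mul hb3).mul
      (hl.mul contDiffAt_const))).mul (hc 6))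
  have hA2 : ∀ w : EE 7, ContDiffAt ℝ ∞ (fun z : ℝ × ℝ × ℝ × EE 7 =>
      cA2 (P.b3 (z.2.2.1 + z.1 * z.2.2.2 0)) (z.2.2.2 5) (z.1 * w 1) (w 6) (zo3 z.2.2.2 w))
      (lam, eta, x, ξ) := fun w => by
    unfold cA2
    exact contDiffAt_const.add (((ho3 w).sub ((contDiffAt_const.mul hb3).mul
      (hl.mul contDiffAt_const))).mul (hc 5))
  have hB1 : ∀ w : EE 7, ContDiffAt ℝ ∞ (fun z : ℝ × ℝ × ℝ × EE 7 =>
      cB1 (P.b1 (z.2.2.1 + z.1 * z.2.2.2 0)) (P.b2 (z.2.2.1 + z.1 * z.2.2.2 0))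
        (√(SS P z.1 z.2.1 z.2.2.1 z.2.2.2))
        (z.2.2.2 5) (z.2.2.2 6) (z.1 * w 0) (z.1 * w 1) (zo1 z.2.2.2 w))
      (lam, eta, x, ξ) := fun w => by
    unfold cB1
    exact ((ho1 w).div_const 2).sub ((contDiffAt_const.div hR hR0).mul
      (((hb1.mul (hl.mul contDiffAt_const)).mul (hc 5)).sub
        ((hb2.mul (hl.mul contDiffAt_const)).mul (hc 6))))
  have hB2 : ∀ w : EE 7, ContDiffAt ℝ ∞ (fun z : ℝ × ℝ × ℝ × EE 7 =>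
      cB2 (P.b1 (z.2.2.1 + z.1 * z.2.2.2 0)) (P.b2 (z.2.2.1 + z.1 * z.2.2.2 0))
        (√(SS P z.1 z.2.1 z.2.2.1 z.2.2.2))
        (z.2.2.2 5) (z.2.2.2 6) (z.1 * w 0) (z.1 * w 1) (zo2 z.2.2.2 w))
      (lam, eta, x, ξ) := fun w => by
    unfold cB2
    exact ((ho2 w).div_const 2).sub ((contDiffAt_const.div hR hR0).mul
      (((hb1.mul (hl.mul contDiffAt_const)).mul (hc 6)).add
        ((hb2.mul (hl.mul contDiffAt_const)).mul (hc 5))))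
  have hea := he.mul hA
  have h2 : ContDiffAt ℝ ∞ (fun z : ℝ × ℝ × ℝ × EE 7 => z.1 ^ 2) (lam, eta, x, ξ) := hl.pow 2
  unfold gh
  refine C8a_gcz _ _ _ _ _ _ (h2.mul (((contDiffAt_const.mul hea).mul hb2).pow 2))
    (h2.mul (((contDiffAt_const.mul hea).mul hb1).pow 2)) (h2.mul ((he.mul hA').pow 2))
    (h2.mul (((contDiffAt_const.mul hea).mul hb2).mul (he.mul hA'))) hea hR (hc 5) (hc 6)
    (hA1 u) (hA2 u) (hB1 u) (hB2 u) (hA1 v) (hA2 v) (hB1 v) (hB2 v) hR0 ?_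
  have := mul_nonneg ha (hP.pos (x + lam * ξ 0)).le
  show √(SS P lam eta x ξ) + eta * P.a (x + lam * ξ 0) ≠ 0
  positivity

theorem C8a_add (Z11 Z22 Z33 Z13 a R l1 l2 xu1 xu2 xu3 Au1 Au2 Bu1 Bu2 xv1 xv2 xv3 Av1 Av2 Bv1 Bv2
    xv1' xv2' xv3' Av1' Av2' Bv1' Bv2' : ℝ) :
    gcz Z11 Z22 Z33 Z13 a R l1 l2 xu1 xu2 xu3 Au1 Au2 Bu1 Bu2 (xv1 + xv1') (xv2 + xv2')
      (xv3 + xv3') (Av1 + Av1') (Av2 + Av2') (Bv1 + Bv1') (Bv2 + Bv2') =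
    gcz Z11 Z22 Z33 Z13 a R l1 l2 xu1 xu2 xu3 Au1 Au2 Bu1 Bu2 xv1 xv2 xv3 Av1 Av2 Bv1 Bv2 +
    gcz Z11 Z22 Z33 Z13 a R l1 l2 xu1 xu2 xu3 Au1 Au2 Bu1 Bu2 xv1' xv2' xv3' Av1' Av2' Bv1'
      Bv2' := by
  unfold gcz
  simp only []
  ring

theorem C8a_smul (Z11 Z22 Z33 Z13 a R l1 l2 xu1 xu2 xu3 Au1 Au2 Bu1 Bu2 xv1 xv2 xv3 Av1 Av2 Bv1 Bv2
    c : ℝ) :
    gcz Z11 Z22 Z33 Z13 a R l1 l2 xu1 xu2 xu3 Au1 Au2 Bu1 Bu2 (c * xv1) (c * xv2)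
      (c * xv3) (c * Av1) (c * Av2) (c * Bv1) (c * Bv2) =
    c * gcz Z11 Z22 Z33 Z13 a R l1 l2 xu1 xu2 xu3 Au1 Au2 Bu1 Bu2 xv1 xv2 xv3 Av1 Av2 Bv1
      Bv2 := by
  unfold gcz
  simp only []
  ring

/-- bilinear and symmetric -/
theorem gh_lin (P : Prof) (lam eta x : ℝ) (ξ u : EE 7) :
    IsLinearMap ℝ (gh P lam eta x ξ u) := by
  refine ⟨fun v v' => ?_, fun c v => ?_⟩
  · unfold gh
    rw [← C8a_add]
    congr 1
    all_goals simp only [cA1, cA2, cB1, cB2, zo1, zo2, zo3, PiLp.add_apply]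
    all_goals ring
  · unfold gh
    rw [smul_eq_mul, ← C8a_smul]
    congr 1
    all_goals simp only [cA1, cA2, cB1, cB2, zo1, zo2, zo3, PiLp.smul_apply, smul_eq_mul]
    all_goals ring

theorem gh_symm (P : Prof) (lam eta x : ℝ) (ξ u v : EE 7) :
    gh P lam eta x ξ u v = gh P lam eta x ξ v u := by
  unfold gh gcz
  simp only []
  ring

theorem C8a_xi (t : ℝ) : xi0 t 0 = 0 ∧ xi0 t 3 = 0 ∧ xi0 t 4 = 0 ∧ xi0 t 5 = t ∧ xi0 t 6 = 0 := by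
  refine ⟨?_, ?_, ?_, ?_, ?_⟩ <;> simp [xi0]

/-- the value at `λ = 0` at the base point (where `SS = 1`, `zN = 1`) -/
theorem gh_lam0 {P : Prof} {eta x t : ℝ} (h1 : (eta * P.a x) ^ 2 + t ^ 2 = 1) (u v : EE 7) :
    gh P 0 eta x (xi0 t) u v = u 0 * v 0 + u 1 * v 1 + u 2 * v 2 + u 3 * v 3 + u 4 * v 4 +
      (u 5 * v 5 + u 6 * v 6) / 4 := by
  obtain ⟨q0, q3, q4, q5, q6⟩ := C8a_xi t
  have hS : SS P 0 eta x (xi0 t) = 1 := by
    unfold SS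
    rw [q5, q6, zero_mul, add_zero]
    linarith
  have hN : zN (xi0 t) = 1 := by
    unfold zN
    rw [q3, q4]
    ring
  unfold gh gcz
  simp only [cA1, cA2, cB1, cB2, zo1, zo2, zo3]
  rw [hS, hN, q0, q3, q4, q5, q6, Real.sqrt_one]
  ring

/-- for `η = 0` the form is positive definite at the base point `xi0 1` (`R = 1`, all `Z = 0`, sum of squares
`|xi|^2 + |A|^2/4 + |B|^2`) -/
theorem gh_eta0_pos (P : Prof) (lam x : ℝ) {u : EE 7} (hu : u ≠ 0) :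
    0 < gh P lam 0 x (xi0 1) u u := by
  obtain ⟨q0, q3, q4, q5, q6⟩ := C8a_xi 1
  have hS : SS P lam 0 x (xi0 1) = 1 := by
    unfold SS
    rw [q5, q6]
    ring
  have hN : zN (xi0 1) = 1 := by
    unfold zN
    rw [q3, q4]
    ring
  have e : gh P lam 0 x (xi0 1) u u = u 0 ^ 2 + u 1 ^ 2 + u 2 ^ 2 + (u 5 ^ 2 +
      (u 6 - 2 * P.b3 x * (lam * u 1)) ^ 2) / 4 + ((u 3 - P.b1 x * (lam * u 1)) ^ 2 +
      (u 4 - P.b2 x * (lam * u 0)) ^ 2) := by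
    unfold gh gcz
    simp only [cA1, cA2, cB1, cB2, zo1, zo2, zo3]
    rw [hS, hN, q0, q3, q4, q5, q6, Real.sqrt_one, mul_zero, add_zero]
    ring
  rw [e]
  by_contra hneg
  rw [not_lt] at hneg
  have z : ∀ r : ℝ, r ^ 2 = 0 → r = 0 := fun r h => pow_eq_zero_iff two_ne_zero |>.1 h
  have s0 := sq_nonneg (u 0)
  have s1 := sq_nonneg (u 1)
  have s2 := sq_nonneg (u 2)
  have s3 := sq_nonneg (u 3 - P.b1 x * (lam * u 1))
  have s4 := sq_nonneg (u 4 - P.b2 x * (lam * u 0))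
  have s5 := sq_nonneg (u 5)
  have s6 := sq_nonneg (u 6 - 2 * P.b3 x * (lam * u 1))
  have a0 : u 0 = 0 := z _ (by linarith)
  have a1 : u 1 = 0 := z _ (by linarith)
  have a2 : u 2 = 0 := z _ (by linarith)
  have a5 : u 5 = 0 := z _ (by linarith)
  have a6 : u 6 - 2 * P.b3 x * (lam * u 1) = 0 := z _ (by linarith)
  have a3 : u 3 - P.b1 x * (lam * u 1) = 0 := z _ (by linarith)
  have a4 : u 4 - P.b2 x * (lam * u 0) = 0 := z _ (by linarith)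
  rw [a1, mul_zero, mul_zero, sub_zero] at a6 a3
  rw [a0, mul_zero, mul_zero, sub_zero] at a4
  apply hu
  ext i
  fin_cases i
  · exact a0
  · exact a1
  · exact a2
  · exact a3
  · exact a4
  · exact a5
  · exact a6

theorem C8a_F2M (p : Par) (v : Fin 7 → ℝ) : ∑ i, ∑ j, F2M p i j * v i * v j =
    (-(1 / 2) * p.a * (p.A2 - 4 * p.a * (p.b1 ^ 2 + p.b2 ^ 2))) *
      (v 3 ^ 2 + v 4 ^ 2 - (v 5 ^ 2 + v 6 ^ 2) / 4) +
    2 * (p.a / 4 * (4 * p.A1 * p.b2 + 2 * p.a * p.c2 + 4 * p.a * p.b1 * p.b3)) *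
      (v 3 * v 6 - v 4 * v 5) := by
  simp only [Fin.sum_univ_succ, Fin.sum_univ_zero, F2M]
  simp
  ring

/-- The bound for the Ricci tensor at order `λ^2`, with a constant which does not depend on `k`
(`L_bdd`: `A2 = η a''`, `|A2 - 4 a (b1^2 + b2^2)| ≤ C a` etc. with `a = η auf k x ≤ 1`). -/
theorem F2M_bound : ∃ C0 : ℝ, 0 < C0 ∧ ∀ (k : ℕ) (eta x t : ℝ), 0 ≤ eta →
    (eta * (prof k).a x) ^ 2 + t ^ 2 = 1 → ∀ v : Fin 7 → ℝ,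
    |∑ i, ∑ j, F2M (par (prof k) eta x t) i j * v i * v j| ≤
      C0 * ∑ i, ∑ j, mtx (gh (prof k) 0 eta x) (xi0 t) i j * v i * v j := by
  obtain ⟨C, hC, h⟩ := L_bdd
  refine ⟨3 * C, by positivity, fun k eta x t he h1 v => ?_⟩
  obtain ⟨hL, hM⟩ := h k x
  have hap : 0 < auf k x := auf_pos k x
  set a := eta * (prof k).a x with had
  have ha0 : 0 ≤ a := mul_nonneg he hap.le
  have ha1 : a ≤ 1 := by nlinarith [sq_nonneg t]
  have e1 : ∑ i, ∑ j, mtx (gh (prof k) 0 eta x) (xi0 t) i j * v i * v j =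
      v 0 ^ 2 + v 1 ^ 2 + v 2 ^ 2 + v 3 ^ 2 + v 4 ^ 2 + (v 5 ^ 2 + v 6 ^ 2) / 4 := by
    unfold mtx
    simp only [gh_lam0 h1]
    simp only [Fin.sum_univ_succ, Fin.sum_univ_zero, ebas]
    simp
    ring
  rw [C8a_F2M, e1]
  set L := (par (prof k) eta x t).A2 - 4 * (par (prof k) eta x t).a *
    ((par (prof k) eta x t).b1 ^ 2 + (par (prof k) eta x t).b2 ^ 2) with hLd
  set M := 4 * (par (prof k) eta x t).A1 * (par (prof k) eta x t).b2 +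
    2 * (par (prof k) eta x t).a * (par (prof k) eta x t).c2 +
    4 * (par (prof k) eta x t).a * (par (prof k) eta x t).b1 * (par (prof k) eta x t).b3 with hMd
  have hLb : |L| ≤ C * a := by
    have e2 : L = eta * (deriv (deriv (auf k)) x -
        4 * auf k x * ((prof k).b1 x ^ 2 + (prof k).b2 x ^ 2)) := by
      rw [hLd]
      show eta * deriv (deriv (auf k)) x - 4 * (eta * auf k x) *
        ((prof k).b1 x ^ 2 + (prof k).b2 x ^ 2) = _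
      ring
    rw [e2, abs_mul, abs_of_nonneg he]
    calc eta * _ ≤ eta * (C * auf k x) := mul_le_mul_of_nonneg_left hL he
      _ = C * a := by rw [had]; show _ = C * (eta * auf k x); ring
  have hMb : |M| ≤ C * a := by
    have e2 : M = eta * (4 * deriv (auf k) x * (prof k).b2 x + 2 * auf k x * deriv (prof k).b2 x +
        4 * auf k x * (prof k).b1 x * (prof k).b3 x) := by
      rw [hMd]
      show 4 * (eta * deriv (auf k) x) * (prof k).b2 x + 2 * (eta * auf k x) *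
        deriv (prof k).b2 x + 4 * (eta * auf k x) * (prof k).b1 x * (prof k).b3 x = _
      ring
    rw [e2, abs_mul, abs_of_nonneg he]
    calc eta * _ ≤ eta * (C * auf k x) := mul_le_mul_of_nonneg_left hM he
      _ = C * a := by rw [had]; show _ = C * (eta * auf k x); ring
  have hpa : (par (prof k) eta x t).a = a := rfl
  rw [hpa]
  have hCa : C * a ≤ C := by nlinarith
  have b1 : |-(1 / 2) * a * L| ≤ C / 2 := by
    rw [abs_mul, abs_mul, abs_neg, abs_of_nonneg ha0, abs_of_nonneg (by norm_num : (0 : ℝ) ≤ 1 / 2)]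
    have : a * |L| ≤ 1 * C := mul_le_mul ha1 (hLb.trans hCa) (abs_nonneg _) zero_le_one
    nlinarith
  have b2 : |2 * (a / 4 * M)| ≤ C / 2 := by
    rw [abs_mul, abs_mul, abs_of_nonneg (by positivity : 0 ≤ a / 4),
      abs_of_nonneg (by norm_num : (0 : ℝ) ≤ 2)]
    have : a * |M| ≤ 1 * C := mul_le_mul ha1 (hMb.trans hCa) (abs_nonneg _) zero_le_one
    nlinarith
  have b3 : |v 3 ^ 2 + v 4 ^ 2 - (v 5 ^ 2 + v 6 ^ 2) / 4| ≤
      v 3 ^ 2 + v 4 ^ 2 + (v 5 ^ 2 + v 6 ^ 2) / 4 := by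
    rw [abs_le]
    constructor <;> nlinarith [sq_nonneg (v 3), sq_nonneg (v 4), sq_nonneg (v 5), sq_nonneg (v 6)]
  have b4 : |v 3 * v 6 - v 4 * v 5| ≤ v 3 ^ 2 + v 4 ^ 2 + (v 5 ^ 2 + v 6 ^ 2) / 4 := by
    rw [abs_le]
    constructor
    · nlinarith [sq_nonneg (v 3 + v 6 / 2), sq_nonneg (v 4 - v 5 / 2)]
    · nlinarith [sq_nonneg (v 3 - v 6 / 2), sq_nonneg (v 4 + v 5 / 2)]
  have b5 := abs_add_le (-(1 / 2) * a * L * (v 3 ^ 2 + v 4 ^ 2 - (v 5 ^ 2 + v 6 ^ 2) / 4))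
    (2 * (a / 4 * M) * (v 3 * v 6 - v 4 * v 5))
  refine b5.trans ?_
  rw [abs_mul, abs_mul (2 * (a / 4 * M))]
  have b6 := mul_le_mul b1 b3 (abs_nonneg _) (by positivity)
  have b7 := mul_le_mul b2 b4 (abs_nonneg _) (by positivity)
  refine (add_le_add b6 b7).trans ?_
  have b8 : 0 ≤ C * (v 0 ^ 2 + v 1 ^ 2 + v 2 ^ 2) := by positivity
  have b9 : 0 ≤ C * (v 3 ^ 2 + v 4 ^ 2 + (v 5 ^ 2 + v 6 ^ 2) / 4) := by positivity
  linarith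

/-- The Ricci tensor of the rescaled metric at the base point (`App.ric`, `gh_jet`, `GJ_mul_KT`, `ricJ_eval`). -/
theorem gh_ric {P : Prof} (hP : ProfOK P) {eta x t : ℝ} (h1 : (eta * P.a x) ^ 2 + t ^ 2 = 1)
    (ha : 0 ≤ eta) (i j : Fin 7) :
    App (fun l => ric (mtx (gh P l eta x)) i j (xi0 t)) ⟨0, 0, F2M (par P eta x t) i j⟩ := by
  have h := App.ric (fun i j => gh_jet hP h1 ha (par P eta x t) rfl i j)
    (GJ_mul_KT (par P eta x t)) i j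
  have ht : (par P eta x t).t ^ 2 = 1 - (par P eta x t).a ^ 2 := by
    show t ^ 2 = 1 - (eta * P.a x) ^ 2
    linarith
  have hs : (par P eta x t).a * (par P eta x t).s = 1 - (par P eta x t).s := by
    show eta * P.a x * (1 / (1 + eta * P.a x)) = 1 - 1 / (1 + eta * P.a x)
    have := mul_nonneg ha (hP.pos x).le
    have h2 : 1 + eta * P.a x ≠ 0 := by positivity
    field_simp
    ring
  rw [ricJ_eval (par P eta x t) ht hs rfl rfl rfl rfl i j] at h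
  exact h

end H31R
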