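import Pool.Agent.Lib.H31R.QI
import Pool.Agent.Lib.H31R.C1

/-!
# H31R, chunk D0: curves with constant ends (concatenation), bound for the distance
-/

open scoped Manifold ContDiff Topology
open Set MeasureTheory Real Filter

namespace H31R

/-- `p` and `q` are connected in `OM` by a smooth curve, constant for `t ≤ 0` and for `t ≥ 1`, of length at
most `L` for `g`. -/
def Conn (g : EE 7 → EE 7 → EE 7 → ℝ) (p q : EE 7) (L : ℝ) : Prop :=
  ∃ c : ℝ → EE 7, ContDiff ℝ ∞ c ∧ (∀ t, c t ∈ OM) ∧ (∀ t ≤ 0, c t = p) ∧ (∀ t ≥ 1, c t = q) ∧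
    ∫⁻ t in Icc (0 : ℝ) 1, ENNReal.ofReal (√(g (c t) (deriv c t) (deriv c t))) ≤
      ENNReal.ofReal L

/-- a smooth curve which is constant for `t ≤ 0` has derivative `0` there -/
theorem D0_deriv_left {c : ℝ → EE 7} {p : EE 7} (hc : Differentiable ℝ c) (h : ∀ t ≤ 0, c t = p)
    {t : ℝ} (ht : t ≤ 0) : deriv c t = 0 := by
  have h1 : HasDerivWithinAt c (deriv c t) (Iic 0) t := (hc t).hasDerivAt.hasDerivWithinAt
  have h2 : HasDerivWithinAt c (0 : EE 7) (Iic 0) t :=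
    (hasDerivWithinAt_const t (Iic 0) p).congr (fun s hs => h s hs) (h t ht)
  exact (uniqueDiffOn_Iic (0 : ℝ) t ht).eq_deriv _ h1 h2

theorem D0_deriv_right {c : ℝ → EE 7} {p : EE 7} (hc : Differentiable ℝ c) (h : ∀ t ≥ 1, c t = p)
    {t : ℝ} (ht : 1 ≤ t) : deriv c t = 0 := by
  have h1 : HasDerivWithinAt c (deriv c t) (Ici 1) t := (hc t).hasDerivAt.hasDerivWithinAt
  have h2 : HasDerivWithinAt c (0 : EE 7) (Ici 1) t :=
    (hasDerivWithinAt_const t (Ici 1) p).congr (fun s hs => h s hs) (h t ht)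
  exact (uniqueDiffOn_Ici (1 : ℝ) t ht).eq_deriv _ h1 h2

/-- affine reparametrisation of the length -/
theorem D0_affine {g : EE 7 → EE 7 → EE 7 → ℝ}
    (hg : ∀ p (c : ℝ) u, g p (c • u) (c • u) = c ^ 2 * g p u u) {c c1 : ℝ → EE 7} {a b : ℝ}
    (ha : a ≠ 0) {I : Set ℝ} (hI : MeasurableSet I) (h : ∀ t ∈ I, c t = c1 (a * t + b))
    (h' : ∀ t ∈ I, deriv c t = a • deriv c1 (a * t + b)) :
    ∫⁻ t in I, ENNReal.ofReal (√(g (c t) (deriv c t) (deriv c t))) =
      ∫⁻ t in (fun t => a * t + b) '' I, ENNReal.ofReal (√(g (c1 t) (deriv c1 t) (deriv c1 t))) := by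
  have hd : ∀ t ∈ I, HasDerivWithinAt (fun t => a * t + b) a I t := fun t _ => by
    have h0 : HasDerivAt (fun t => a * t + b) (a * 1) t := ((hasDerivAt_id t).const_mul a).add_const b
    rw [mul_one] at h0
    exact h0.hasDerivWithinAt
  have hinj : InjOn (fun t => a * t + b) I := fun s _ t _ hst => by
    have h1 : a * s + b = a * t + b := hst
    exact mul_left_cancel₀ ha (add_right_cancel h1)
  rw [lintegral_image_eq_lintegral_abs_deriv_mul hI hd hinj]
  refine setLIntegral_congr_fun hI fun t ht => ?_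
  have h2 : g (c t) (deriv c t) (deriv c t) = |a| ^ 2 *
      g (c1 (a * t + b)) (deriv c1 (a * t + b)) (deriv c1 (a * t + b)) := by
    rw [h t ht, h' t ht, hg, sq_abs]
  rw [h2, Real.sqrt_mul (sq_nonneg _), Real.sqrt_sq (abs_nonneg a), ENNReal.ofReal_mul (abs_nonneg a)]

/-- `c(t) = c1(2t) + c2(2t - 1) - q`; substitution in the integrals. -/
theorem Conn.trans {g : EE 7 → EE 7 → EE 7 → ℝ}
    (hg : ∀ p (c : ℝ) u, g p (c • u) (c • u) = c ^ 2 * g p u u) {p q r : EE 7} {L L' : ℝ}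
    (hL : 0 ≤ L) (hL' : 0 ≤ L') (h1 : Conn g p q L) (h2 : Conn g q r L') :
    Conn g p r (L + L') := by
  obtain ⟨c1, s1, m1, l1, r1, i1⟩ := h1
  obtain ⟨c2, s2, m2, l2, r2, i2⟩ := h2
  have d1 : Differentiable ℝ c1 := s1.differentiable (by simp)
  have d2 : Differentiable ℝ c2 := s2.differentiable (by simp)
  set c : ℝ → EE 7 := fun t => c1 (2 * t + 0) + c2 (2 * t + -1) - q with hc
  have hA : ∀ t ≤ (1 / 2 : ℝ), c t = c1 (2 * t + 0) := fun t ht => by
    rw [hc]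
    simp only
    rw [l2 (2 * t + -1) (by linarith), add_sub_cancel_right]
  have hB : ∀ t ≥ (1 / 2 : ℝ), c t = c2 (2 * t + -1) := fun t ht => by
    rw [hc]
    simp only
    rw [r1 (2 * t + 0) (by linarith), add_sub_cancel_left]
  have hderiv : ∀ t, deriv c t = (2 : ℝ) • deriv c1 (2 * t + 0) + (2 : ℝ) • deriv c2 (2 * t + -1) := by
    intro t
    have e1 : ∀ b : ℝ, HasDerivAt (fun t : ℝ => 2 * t + b) 2 t := fun b => by
      have h0 : HasDerivAt (fun t : ℝ => 2 * t + b) (2 * 1) t :=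
        ((hasDerivAt_id t).const_mul 2).add_const b
      rwa [mul_one] at h0
    have e2 : HasDerivAt (fun t => c1 (2 * t + 0)) ((2 : ℝ) • deriv c1 (2 * t + 0)) t :=
      (d1 (2 * t + 0)).hasDerivAt.scomp t (e1 0)
    have e3 : HasDerivAt (fun t => c2 (2 * t + -1)) ((2 : ℝ) • deriv c2 (2 * t + -1)) t :=
      (d2 (2 * t + -1)).hasDerivAt.scomp t (e1 (-1))
    exact ((e2.add e3).sub_const q).deriv
  refine ⟨c, ?_, ?_, ?_, ?_, ?_⟩
  · have a0 : ∀ b : ℝ, ContDiff ℝ ∞ (fun t : ℝ => 2 * t + b) := fun b => by fun_prop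
    exact ((s1.comp (a0 0)).add (s2.comp (a0 (-1)))).sub contDiff_const
  · intro t
    rcases le_total t (1 / 2) with ht | ht
    · rw [hA t ht]; exact m1 _
    · rw [hB t ht]; exact m2 _
  · intro t ht
    rw [hA t (by linarith)]
    exact l1 _ (by linarith)
  · intro t ht
    rw [hB t (by linarith)]
    exact r2 _ (by linarith)
  · have hU : Icc (0 : ℝ) 1 = Icc (0 : ℝ) (1 / 2) ∪ Icc (1 / 2 : ℝ) 1 :=
      (Icc_union_Icc_eq_Icc (by norm_num) (by norm_num)).symm
    have e1 : ∫⁻ t in Icc (0 : ℝ) (1 / 2), ENNReal.ofReal (√(g (c t) (deriv c t) (deriv c t))) ≤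
        ENNReal.ofReal L := by
      rw [D0_affine hg (two_ne_zero) measurableSet_Icc (c1 := c1) (b := 0)
        (fun t ht => hA t ht.2) (fun t ht => by
          rw [hderiv t, D0_deriv_left d2 l2 (by linarith [ht.2]), smul_zero, add_zero])]
      have himg : (fun t : ℝ => 2 * t + 0) '' Icc (0 : ℝ) (1 / 2) = Icc (0 : ℝ) 1 := by
        ext y
        constructor
        · rintro ⟨t, ⟨ht0, ht1⟩, rfl⟩
          exact ⟨by simp only; linarith, by simp only; linarith⟩
        · rintro ⟨hy0, hy1⟩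
          exact ⟨y / 2, ⟨by linarith, by linarith⟩, by simp only; ring⟩
      rw [himg]
      exact i1
    have e2 : ∫⁻ t in Icc (1 / 2 : ℝ) 1, ENNReal.ofReal (√(g (c t) (deriv c t) (deriv c t))) ≤
        ENNReal.ofReal L' := by
      rw [D0_affine hg (two_ne_zero) measurableSet_Icc (c1 := c2) (b := -1)
        (fun t ht => hB t ht.1) (fun t ht => by
          rw [hderiv t, D0_deriv_right d1 r1 (by linarith [ht.1]), smul_zero, zero_add])]
      have himg : (fun t : ℝ => 2 * t + -1) '' Icc (1 / 2 : ℝ) 1 = Icc (0 : ℝ) 1 := by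
        ext y
        constructor
        · rintro ⟨t, ⟨ht0, ht1⟩, rfl⟩
          exact ⟨by simp only; linarith, by simp only; linarith⟩
        · rintro ⟨hy0, hy1⟩
          exact ⟨(y + 1) / 2, ⟨by linarith, by linarith⟩, by simp only; ring⟩
      rw [himg]
      exact i2
    rw [hU]
    refine (lintegral_union_le _ _ _).trans ?_
    rw [ENNReal.ofReal_add hL hL']
    exact add_le_add e1 e2

/-- `c(1 - t)` -/
theorem Conn.symm {g : EE 7 → EE 7 → EE 7 → ℝ}
    (hg : ∀ p (c : ℝ) u, g p (c • u) (c • u) = c ^ 2 * g p u u) {p q : EE 7} {L : ℝ}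
    (h : Conn g p q L) : Conn g q p L := by
  obtain ⟨c1, s1, m1, l1, r1, i1⟩ := h
  have d1 : Differentiable ℝ c1 := s1.differentiable (by simp)
  refine ⟨fun t => c1 (-1 * t + 1), ?_, fun t => m1 _, fun t ht => r1 _ (by linarith),
    fun t ht => l1 _ (by linarith), ?_⟩
  · have a0 : ContDiff ℝ ∞ (fun t : ℝ => -1 * t + 1) := by fun_prop
    exact s1.comp a0
  · rw [D0_affine hg (neg_ne_zero.2 one_ne_zero) measurableSet_Icc (c1 := c1) (b := 1)
      (fun t _ => rfl) (fun t _ => ?_)]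
    · have himg : (fun t : ℝ => -1 * t + 1) '' Icc (0 : ℝ) 1 = Icc (0 : ℝ) 1 := by
        ext y
        constructor
        · rintro ⟨t, ⟨ht0, ht1⟩, rfl⟩
          exact ⟨by simp only; linarith, by simp only; linarith⟩
        · rintro ⟨hy0, hy1⟩
          exact ⟨1 - y, ⟨by linarith, by linarith⟩, by simp only; ring⟩
      rw [himg]
      exact i1
    · have e1 : HasDerivAt (fun t : ℝ => -1 * t + 1) (-1) t := by
        have h0 : HasDerivAt (fun t : ℝ => -1 * t + 1) (-1 * 1) t :=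
          ((hasDerivAt_id t).const_mul (-1)).add_const 1
        rwa [mul_one] at h0
      exact ((d1 (-1 * t + 1)).hasDerivAt.scomp t e1).deriv

theorem D0_st_integral : ∫⁻ t in Icc (0 : ℝ) 1, ENNReal.ofReal (deriv Real.smoothTransition t) = 1 := by
  have hcd : ContDiff ℝ 1 Real.smoothTransition := by
    have := Real.smoothTransition.contDiff (n := 1)
    exact_mod_cast this
  have hcont : Continuous (deriv Real.smoothTransition) := hcd.continuous_deriv le_rfl
  have hdiff : Differentiable ℝ Real.smoothTransition := hcd.differentiable (by simp)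
  have hnn : ∀ t, 0 ≤ deriv Real.smoothTransition t := fun t =>
    Real.smoothTransition.monotone.deriv_nonneg
  have hint : ∫ t in (0 : ℝ)..1, deriv Real.smoothTransition t = 1 := by
    rw [intervalIntegral.integral_deriv_eq_sub (fun t _ => hdiff t)
      (hcont.intervalIntegrable 0 1), Real.smoothTransition.one, Real.smoothTransition.zero, sub_zero]
  rw [intervalIntegral.integral_of_le zero_le_one, ← integral_Icc_eq_integral_Ioc] at hint
  rw [← ofReal_integral_eq_lintegral_ofReal (hcont.continuousOn.integrableOn_Icc)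
    (Filter.Eventually.of_forall hnn), hint, ENNReal.ofReal_one]

/-- A smooth curve of speed at most `L` on `[0, 1]`: reparametrise by `Real.smoothTransition` (its derivative
is nonnegative with integral `1` over `[0, 1]`). -/
theorem Conn.of_speed {g : EE 7 → EE 7 → EE 7 → ℝ}
    (hg : ∀ p (c : ℝ) u, g p (c • u) (c • u) = c ^ 2 * g p u u) {γ : ℝ → EE 7} {L : ℝ}
    (hL : 0 ≤ L) (hγ : ∀ t ∈ Icc (0 : ℝ) 1, ContDiffAt ℝ ∞ γ t)
    (hO : ∀ t ∈ Icc (0 : ℝ) 1, γ t ∈ OM)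
    (hs : ∀ t ∈ Icc (0 : ℝ) 1, g (γ t) (deriv γ t) (deriv γ t) ≤ L ^ 2) :
    Conn g (γ 0) (γ 1) L := by
  set φ := Real.smoothTransition with hφ
  have hφI : ∀ t, φ t ∈ Icc (0 : ℝ) 1 := fun t =>
    ⟨Real.smoothTransition.nonneg t, Real.smoothTransition.le_one t⟩
  have hφs : ContDiff ℝ ∞ φ := Real.smoothTransition.contDiff
  have hφd : Differentiable ℝ φ := hφs.differentiable (by simp)
  have hnn : ∀ t, 0 ≤ deriv φ t := fun t => Real.smoothTransition.monotone.deriv_nonneg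
  refine ⟨fun t => γ (φ t), ?_, fun t => hO _ (hφI t), fun t ht => ?_, fun t ht => ?_, ?_⟩
  · rw [contDiff_iff_contDiffAt]
    intro t
    exact (hγ _ (hφI t)).comp t hφs.contDiffAt
  · simp only
    rw [hφ, Real.smoothTransition.zero_of_nonpos ht]
  · simp only
    rw [hφ, Real.smoothTransition.one_of_one_le ht]
  · have hd : ∀ t, deriv (fun t => γ (φ t)) t = deriv φ t • deriv γ (φ t) := fun t =>
      (((hγ _ (hφI t)).differentiableAt (by simp)).hasDerivAt.scomp t (hφd t).hasDerivAt).deriv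
    calc ∫⁻ t in Icc (0 : ℝ) 1, ENNReal.ofReal (√(g (γ (φ t)) (deriv (fun t => γ (φ t)) t)
          (deriv (fun t => γ (φ t)) t)))
        ≤ ∫⁻ t in Icc (0 : ℝ) 1, ENNReal.ofReal L * ENNReal.ofReal (deriv φ t) := by
          refine lintegral_mono fun t => ?_
          rw [← ENNReal.ofReal_mul hL]
          refine ENNReal.ofReal_le_ofReal ?_
          rw [hd t, hg]
          refine Real.sqrt_le_iff.2 ⟨mul_nonneg hL (hnn t), ?_⟩
          have h1 := mul_le_mul_of_nonneg_left (hs _ (hφI t)) (sq_nonneg (deriv φ t))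
          linarith [mul_pow L (deriv φ t) 2, mul_comm (L ^ 2) (deriv φ t ^ 2)]
      _ = ENNReal.ofReal L := by
          rw [lintegral_const_mul' _ _ ENNReal.ofReal_ne_top, D0_st_integral, mul_one]

/-- `rdist_le` -/
theorem Conn.rdist {k : ℕ} {g : EE 7 → EE 7 → EE 7 → ℝ} {G : RMetric 7 (MK k).carrier}
    (hG : ∀ p ∈ OM, ∀ u v : EE 7, G.inner (prj k p) (mfderiv (𝓡 7) (𝓡 7) (prj k) p u)
      (mfderiv (𝓡 7) (𝓡 7) (prj k) p v) = g p u v) {p q : EE 7} {L : ℝ} (h : Conn g p q L) :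
    rdist G (prj k p) (prj k q) ≤ ENNReal.ofReal L := by
  obtain ⟨c, hs, hm, h0, h1, hi⟩ := h
  have h2 := rdist_le hG (c := c) (hs.of_le (by simp)) hm
  rw [h0 0 le_rfl, h1 1 le_rfl] at h2
  exact h2.trans hi

/-- In the slab `-1/2 ≤ x1 < 1/2` the metric `gg` is `g0` (`slab p = 0`, and `act k (0, 0, 0)` is the identity on
the open set `OM`). -/
theorem gg_eq_g0 (k : ℕ) (ε : ℝ) {p : EE 7} (hp : p ∈ OM) (h1 : -(1 / 2) ≤ x1 p)
    (h2 : x1 p < 1 / 2) (u v : EE 7) : gg (prof k) ε k p u v = g0 (prof k) ε p u v := by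
  have hs : slab p = 0 := by
    unfold slab
    rw [Int.floor_eq_zero_iff]
    constructor <;> linarith
  unfold gg
  rw [hs]
  have h0 : ((-(0 : ℤ), 0, 0) : ℤ × ℤ × ℤ) = 0 := rfl
  rw [h0]
  have h1 : act k 0 = fun q => q := funext fun q => act_zero k q
  rw [h1]
  have h2 : fderiv ℝ (fun q : EE 7 => q) p = ContinuousLinearMap.id ℝ (EE 7) := fderiv_fun_id
  rw [h2]
  rfl

theorem D0_floor (x : ℝ) : -(1 / 2) ≤ x + ((-⌊x + 1 / 2⌋ : ℤ) : ℝ) ∧
    x + ((-⌊x + 1 / 2⌋ : ℤ) : ℝ) < 1 / 2 := by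
  have h1 := Int.floor_le (x + 1 / 2)
  have h2 := Int.lt_floor_add_one (x + 1 / 2)
  push_cast
  constructor <;> linarith

/-- Every point of the quotient has a representative with `x_i ∈ [-1/2, 1/2)`. -/
theorem exists_rep (k : ℕ) (m : (MK k).carrier) : ∃ p ∈ OM, prj k p = m ∧
    (-(1 / 2) ≤ x1 p ∧ x1 p < 1 / 2) ∧ (-(1 / 2) ≤ x2 p ∧ x2 p < 1 / 2) ∧
    (-(1 / 2) ≤ x3 p ∧ x3 p < 1 / 2) := by
  obtain ⟨p, hp, hpm⟩ := prj_surj k m
  refine ⟨act k (-⌊x1 p + 1 / 2⌋, -⌊x2 p + 1 / 2⌋, -⌊x3 p + 1 / 2⌋) p, act_mem k _ hp, ?_, ?_, ?_, ?_⟩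
  · rw [prj_act hp, hpm]
  · rw [x1_act k _ hp]
    exact D0_floor _
  · rw [x2_act k _ hp]
    exact D0_floor _
  · rw [x3_act k _ p]
    exact D0_floor _

theorem D0_yv (c : ℝ) (u : EE 7) : yv (c • u) = c • yv u := by
  ext i
  fin_cases i <;> simp [yv]

theorem D0_zv (c : ℝ) (u : EE 7) : zv (c • u) = c • zv u := by
  ext i
  fin_cases i <;> simp [zv]

theorem D0_dot (c : ℝ) (u v : V3) : dot u (c • v) = c * dot u v := by
  simp only [dot, Pi.smul_apply, smul_eq_mul]; ring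

theorem D0_dot' (c : ℝ) (u v : V3) : dot (c • u) v = c * dot u v := by
  simp only [dot, Pi.smul_apply, smul_eq_mul]; ring

theorem D0_crs (c : ℝ) (u v : V3) : crs u (c • v) = c • crs u v := by
  ext i
  fin_cases i <;> simp [crs] <;> ring

theorem D0_xi1 (p : EE 7) (c : ℝ) (u : EE 7) : xi1 p (c • u) = c * xi1 p u := by
  rw [xi1, xi1, D0_yv, D0_dot, mul_div_assoc]

theorem D0_xi2 (p : EE 7) (c : ℝ) (u : EE 7) : xi2 p (c • u) = c * xi2 p u := by
  rw [xi2, xi2, D0_zv, D0_dot, mul_div_assoc]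

theorem D0_xi3 (p : EE 7) (c : ℝ) (u : EE 7) : xi3 p (c • u) = c * xi3 p u := rfl

theorem D0_dw (p : EE 7) (c : ℝ) (u : EE 7) : dw p (c • u) = c • dw p u := by
  rw [dw, dw, D0_yv, D0_xi1]
  module

theorem D0_ds (p : EE 7) (c : ℝ) (u : EE 7) : ds p (c • u) = c • ds p u := by
  rw [ds, ds, D0_zv, D0_xi2]
  module

theorem D0_dh (p : EE 7) (c : ℝ) (u : EE 7) : dh p (c • u) = c * dh p u := by
  rw [dh, dh, D0_dw, D0_ds, D0_dot, D0_dot']
  ring

theorem D0_Dl (p : EE 7) (c : ℝ) (u : EE 7) : Dl p (c • u) = c • Dl p u := by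
  rw [Dl, Dl, D0_dw, D0_ds, D0_dot]
  module

theorem D0_Av (P : Prof) (p : EE 7) (c : ℝ) (u : EE 7) : Av P p (c • u) = c • Av P p u := by
  rw [Av, Av, D0_Dl, D0_xi2]
  module

theorem D0_Bv (P : Prof) (R : ℝ) (p : EE 7) (c : ℝ) (u : EE 7) :
    Bv P R p (c • u) = c • Bv P R p u := by
  rw [Bv, Bv, D0_dw, D0_xi1, D0_xi2, D0_crs]
  module

theorem D0_gc (P : Prof) (ε : ℝ) (p : EE 7) (c : ℝ) (u : EE 7) :
    gc P ε p (c • u) (c • u) = c ^ 2 * gc P ε p u u := by
  unfold gc gcore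
  simp only [D0_xi1, D0_xi2, D0_xi3, D0_Av, D0_Bv, D0_dot, D0_dot', D0_crs]
  ring

theorem D0_go (P : Prof) (p : EE 7) (c : ℝ) (u : EE 7) :
    go P p (c • u) (c • u) = c ^ 2 * go P p u u := by
  unfold go
  simp only [D0_xi1, D0_xi2, D0_xi3, D0_Av, D0_Bv, D0_dot, D0_dot', D0_dh]
  ring

/-- homogeneity of `g0` and `gg` (on `OM` and outside; all ingredients are linear in `u`) -/
theorem g0_smul (k : ℕ) (ε : ℝ) (p : EE 7) (c : ℝ) (u : EE 7) :
    g0 (prof k) ε p (c • u) (c • u) = c ^ 2 * g0 (prof k) ε p u u := by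
  unfold g0
  rw [D0_gc, D0_go]
  ring

theorem gg_smul (k : ℕ) (ε : ℝ) (p : EE 7) (c : ℝ) (u : EE 7) :
    gg (prof k) ε k p (c • u) (c • u) = c ^ 2 * gg (prof k) ε k p u u := by
  unfold gg
  rw [map_smul, g0_smul]

end H31R
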