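import Pool.Agent.Lib.H31R.D0
import Pool.Agent.Lib.H31R.C4
import Pool.Agent.Lib.H31R.B4

/-!
# H31R, chunk D1: moving in the hypersurface `h = 0` (where the slab metric is the outer metric)
-/

open scoped Manifold ContDiff Topology
open Set MeasureTheory Real Filter

namespace H31R

/-- where `|l| > ε` the slab metric is the outer metric (pointwise: `chi = 0`) -/
theorem g0_out (k : ℕ) {ε : ℝ} (hε : 0 < ε) {p : EE 7} (h : ε ^ 2 ≤ dot (lv p) (lv p))
    (u v : EE 7) : g0 (prof k) ε p u v = go (prof k) p u v := by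
  have h1 : chi (dot (lv p) (lv p) / ε ^ 2) = 0 := by
    unfold chi
    apply Real.smoothTransition.zero_of_nonpos
    have h2 : 1 ≤ dot (lv p) (lv p) / ε ^ 2 := by
      rw [le_div_iff₀ (by positivity)]
      linarith
    linarith
  unfold g0
  rw [h1]
  ring

/-- Two unit vectors orthogonal to the unit vector `n` differ by a rotation about `n` by an angle in
`[-π, π]`: `v = cos φ u + sin φ (n × u)`. -/
theorem exists_rot {n u v : V3} (hn : dot n n = 1) (hu : dot u u = 1) (hv : dot v v = 1)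
    (hnu : dot n u = 0) (hnv : dot n v = 0) : ∃ φ : ℝ, |φ| ≤ π ∧ rot n φ u = v := by
  have hF := fr_of hn hu hnu
  have h1 := eq_lc hF v
  rw [dot_comm v n, hnv] at h1
  set a := dot v u with ha
  set b := dot v (crs n u) with hb
  have h2 : a ^ 2 + b ^ 2 = 1 := by
    have h3 := dot_lc hF a b 0 a b 0
    rw [← h1, hv] at h3
    nlinarith [h3]
  refine ⟨Complex.arg ⟨a, b⟩, Complex.abs_arg_le_pi _, ?_⟩
  have hne : (⟨a, b⟩ : ℂ) ≠ 0 := by
    intro h0
    have e1 : a = 0 := congrArg Complex.re h0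
    have e2 : b = 0 := congrArg Complex.im h0
    rw [e1, e2] at h2
    norm_num at h2
  have hnorm : ‖(⟨a, b⟩ : ℂ)‖ = 1 := by
    rw [Complex.norm_def, Complex.normSq_mk]
    rw [show a * a + b * b = 1 by nlinarith [h2]]
    exact Real.sqrt_one
  have hc : cos (Complex.arg ⟨a, b⟩) = a := by
    rw [Complex.cos_arg hne, hnorm, div_one]
  have hs : sin (Complex.arg ⟨a, b⟩) = b := by
    rw [Complex.sin_arg, hnorm, div_one]
  unfold rot
  rw [hc, hs, hnu, mul_zero, zero_smul, add_zero]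
  rw [h1]
  unfold lc
  rw [zero_smul, add_zero]

/-- For two unit vectors there is a unit vector orthogonal to both. -/
theorem exists_orth {u v : V3} (hu : dot u u = 1) (hv : dot v v = 1) :
    ∃ n : V3, dot n n = 1 ∧ dot n u = 0 ∧ dot n v = 0 := by
  obtain ⟨e, he, hue⟩ := exists_perp hu
  have hF := fr_of hu he hue
  have h1 := eq_lc hF v
  set a := dot v e with ha
  set b := dot v (crs u e) with hb
  set c := dot v u with hc
  have key : ∀ x y : ℝ, x ^ 2 + y ^ 2 = 1 → x * a + y * b = 0 →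
      ∃ n : V3, dot n n = 1 ∧ dot n u = 0 ∧ dot n v = 0 := by
    intro x y hxy hab
    refine ⟨lc e (crs u e) u x y 0, ?_, ?_, ?_⟩
    · rw [dot_lc hF]
      nlinarith
    · have h2 : u = lc e (crs u e) u 0 0 1 := by
        unfold lc
        rw [zero_smul, zero_smul, one_smul, zero_add, zero_add]
      conv_lhs => rw [show dot (lc e (crs u e) u x y 0) u =
        dot (lc e (crs u e) u x y 0) (lc e (crs u e) u 0 0 1) by rw [← h2]]
      rw [dot_lc hF]
      ring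
    · rw [h1, dot_lc hF]
      linarith
  by_cases h0 : a ^ 2 + b ^ 2 = 0
  · have ha0 : a = 0 := by nlinarith [sq_nonneg a, sq_nonneg b]
    exact key 1 0 (by norm_num) (by rw [ha0]; ring)
  · have hpos : 0 < a ^ 2 + b ^ 2 := lt_of_le_of_ne (by positivity) (Ne.symm h0)
    have hs : √(a ^ 2 + b ^ 2) ^ 2 = a ^ 2 + b ^ 2 := Real.sq_sqrt hpos.le
    have hs0 : √(a ^ 2 + b ^ 2) ≠ 0 := (Real.sqrt_pos.2 hpos).ne'
    refine key (-b / √(a ^ 2 + b ^ 2)) (a / √(a ^ 2 + b ^ 2)) ?_ ?_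
    · rw [div_pow, div_pow, hs, ← add_div]
      rw [div_eq_iff h0]
      ring
    · field_simp
      ring

theorem D1_dot_rot {n : V3} (hn : dot n n = 1) (φ : ℝ) (a b : V3) :
    dot (rot n φ a) (rot n φ b) = dot a b := by
  have hcs := Real.cos_sq_add_sin_sq φ
  simp only [dot] at hn
  simp only [rot, dot, Pi.add_apply, Pi.smul_apply, smul_eq_mul, C0a_crs0, C0a_crs1, C0a_crs2]
  set c := cos φ
  set s := sin φ
  linear_combination ((a 0 * b 0 + a 1 * b 1 + a 2 * b 2) -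
      (n 0 * a 0 + n 1 * a 1 + n 2 * a 2) * (n 0 * b 0 + n 1 * b 1 + n 2 * b 2)) * hcs +
    (s ^ 2 * (a 0 * b 0 + a 1 * b 1 + a 2 * b 2) + (1 - c) ^ 2 *
      ((n 0 * a 0 + n 1 * a 1 + n 2 * a 2) * (n 0 * b 0 + n 1 * b 1 + n 2 * b 2))) * hn

theorem D1_rot_self {n : V3} (hn : dot n n = 1) (φ : ℝ) : rot n φ n = n := by
  have h : crs n n = 0 := by
    refine C0a_ext ?_ ?_ ?_ <;> simp only [C0a_crs0, C0a_crs1, C0a_crs2, Pi.zero_apply] <;> ring
  unfold rot
  rw [h, hn, smul_zero, add_zero, mul_one, ← add_smul]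
  rw [show cos φ + (1 - cos φ) = 1 by ring, one_smul]

/-- derivative of the rotation -/
theorem D1_rot_deriv {n : V3} (hn : dot n n = 1) (φ : ℝ) (v : V3) (q : EE 7) :
    HasFDerivAt (fun ξ : EE 7 => rot n (ξ 0 * φ) v)
      ((C4P 0).smulRight (φ • crs n (rot n (q 0 * φ) v))) q := by
  have h0 : HasFDerivAt (fun ξ : EE 7 => ξ 0 * φ) (φ • C4P 0) q := by
    have := (C4_coord 0 q).mul_const φ
    exact this
  have hc := h0.cos
  have hs := h0.sin
  have h1 := (hc.smul_const v).add (hs.smul_const (crs n v))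
  have h2 := (((hasFDerivAt_const (1 : ℝ) q).sub hc).mul_const (dot n v)).smul_const n
  have h3 := h1.add h2
  refine HasFDerivAt.congr_fderiv (f := fun ξ : EE 7 => rot n (ξ 0 * φ) v) h3 ?_
  ext u i
  have hn' := hn
  simp only [dot] at hn'
  set x := C4P 0 u with hx
  set S := sin (q 0 * φ) with hS
  set C := cos (q 0 * φ) with hC
  have key : ∀ j : Fin 3, -S * (φ * x) * v j + C * (φ * x) * crs n v j +
      (0 - -S * (φ * x)) * dot n v * n j = x * (φ * crs n (rot n (q 0 * φ) v) j) := by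
    intro j
    unfold rot
    rw [← hS, ← hC]
    fin_cases j
    · show -S * (φ * x) * v 0 + C * (φ * x) * (n 1 * v 2 - n 2 * v 1) +
        (0 - -S * (φ * x)) * (n 0 * v 0 + n 1 * v 1 + n 2 * v 2) * n 0 = x * (φ *
          (n 1 * (C * v 2 + S * (n 0 * v 1 - n 1 * v 0) +
            ((1 - C) * (n 0 * v 0 + n 1 * v 1 + n 2 * v 2)) * n 2) -
           n 2 * (C * v 1 + S * (n 2 * v 0 - n 0 * v 2) +
            ((1 - C) * (n 0 * v 0 + n 1 * v 1 + n 2 * v 2)) * n 1)))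
      linear_combination (x * φ * S * v 0) * hn'
    · show -S * (φ * x) * v 1 + C * (φ * x) * (n 2 * v 0 - n 0 * v 2) +
        (0 - -S * (φ * x)) * (n 0 * v 0 + n 1 * v 1 + n 2 * v 2) * n 1 = x * (φ *
          (n 2 * (C * v 0 + S * (n 1 * v 2 - n 2 * v 1) +
            ((1 - C) * (n 0 * v 0 + n 1 * v 1 + n 2 * v 2)) * n 0) -
           n 0 * (C * v 2 + S * (n 0 * v 1 - n 1 * v 0) +
            ((1 - C) * (n 0 * v 0 + n 1 * v 1 + n 2 * v 2)) * n 2)))
      linear_combination (x * φ * S * v 1) * hn'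
    · show -S * (φ * x) * v 2 + C * (φ * x) * (n 0 * v 1 - n 1 * v 0) +
        (0 - -S * (φ * x)) * (n 0 * v 0 + n 1 * v 1 + n 2 * v 2) * n 2 = x * (φ *
          (n 0 * (C * v 1 + S * (n 2 * v 0 - n 0 * v 2) +
            ((1 - C) * (n 0 * v 0 + n 1 * v 1 + n 2 * v 2)) * n 1) -
           n 1 * (C * v 0 + S * (n 1 * v 2 - n 2 * v 1) +
            ((1 - C) * (n 0 * v 0 + n 1 * v 1 + n 2 * v 2)) * n 0)))
      linear_combination (x * φ * S * v 2) * hn'
  refine Eq.trans ?_ (key i)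
  show -S * (φ * x) * v i + C * (φ * x) * crs n v i +
      (dot n v * (0 - -S * (φ * x))) * n i = _
  ring

theorem D1_dot_crs (n v : V3) : dot v (crs n v) = 0 := by
  simp only [dot, C0a_crs0, C0a_crs1, C0a_crs2]
  ring

theorem D1_crs_le {n v : V3} (hn : dot n n = 1) (hv : dot v v = 1) :
    dot (crs n v) (crs n v) ≤ 1 := by
  have h : dot (crs n v) (crs n v) = dot n n * dot v v - dot n v ^ 2 := by
    simp only [dot, C0a_crs0, C0a_crs1, C0a_crs2]
    ring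
  rw [h, hn, hv]
  nlinarith [sq_nonneg (dot n v)]

/-- the outer metric at a point with `h = 0`, for a rotation of the pair -/
theorem D1_go (k : ℕ) {n w s : V3} (hn : dot n n = 1) (hw : dot w w = 1) (hs : dot s s = 1)
    (hws : dot w s = 0) (φ : ℝ) :
    dot (lv (PT 0 0 0 w s)) (lv (PT 0 0 0 w s)) = 1 ∧
    go (prof k) (PT 0 0 0 w s) (TPT 0 0 w s 0 0 0 (φ • crs n w) (φ • crs n s))
      (TPT 0 0 w s 0 0 0 (φ • crs n w) (φ • crs n s)) ≤ φ ^ 2 / 2 := by
  obtain ⟨-, -, -, hwv, hsv⟩ := PT_coord (a := 0) (b := 0) (c := 0) hw hs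
  have hww' : dot w (φ • crs n w) = 0 := by
    rw [C0_dot_smul_right, D1_dot_crs, mul_zero]
  have hss' : dot s (φ • crs n s) = 0 := by
    rw [C0_dot_smul_right, D1_dot_crs, mul_zero]
  obtain ⟨e1, e2, e3, e4, e5⟩ := TPT_coord (X1 := 0) (X2 := 0) (X3 := 0) hw hs 0 0 0 hww' hss'
  set p := PT 0 0 0 w s with hp
  set u := TPT 0 0 w s 0 0 0 (φ • crs n w) (φ • crs n s) with hu
  have hh0 : hh p = 0 := by
    unfold hh
    rw [hwv, hsv, hws]
  have hlv : lv p = s := by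
    unfold lv
    rw [hh0, hsv, zero_smul, sub_zero]
  have hnr : nr (lv p) = 1 := by
    unfold nr
    rw [hlv, hs, Real.sqrt_one]
  refine ⟨by rw [hlv, hs], ?_⟩
  have hdh : dh p u = 0 := by
    unfold dh
    rw [e4, e5, hwv, hsv]
    simp only [dot, Pi.smul_apply, smul_eq_mul, C0a_crs0, C0a_crs1, C0a_crs2]
    ring
  have hA : Av (prof k) p u = φ • (crs n s - dot w (crs n s) • w) := by
    unfold Av Dl
    rw [e2, e4, e5, hh0, hwv, C0_dot_smul_right, mul_zero, zero_smul, zero_smul, sub_zero,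
      sub_zero, smul_sub, smul_smul]
  have hB : Bv (prof k) (nr (lv p)) p u = (φ / 2) • crs w (crs n w) := by
    unfold Bv
    rw [e1, e2, e4, hwv, mul_zero, mul_zero, zero_smul, zero_smul, add_zero, smul_zero, sub_zero]
    have h1 : crs w (φ • crs n w) = φ • crs w (crs n w) := by
      refine C0a_ext ?_ ?_ ?_ <;>
        simp only [C0a_crs0, C0a_crs1, C0a_crs2, Pi.smul_apply, smul_eq_mul] <;> ring
    rw [h1, smul_smul]
    congr 1
    ring
  have hAA : dot (Av (prof k) p u) (Av (prof k) p u) ≤ φ ^ 2 := by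
    rw [hA, C0a_dot_smul]
    have h2 : dot (crs n s - dot w (crs n s) • w) (crs n s - dot w (crs n s) • w) =
        dot (crs n s) (crs n s) - 2 * dot w (crs n s) ^ 2 +
          dot w (crs n s) ^ 2 * dot w w := by
      simp only [dot, Pi.sub_apply, Pi.smul_apply, smul_eq_mul]
      ring
    rw [h2, hw]
    have h3 := D1_crs_le hn hs
    nlinarith [sq_nonneg (dot w (crs n s)), mul_self_nonneg φ]
  have hBB : dot (Bv (prof k) (nr (lv p)) p u) (Bv (prof k) (nr (lv p)) p u) ≤ φ ^ 2 / 4 := by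
    rw [hB, C0a_dot_smul]
    have h2 : dot (crs w (crs n w)) (crs w (crs n w)) =
        dot w w * dot (crs n w) (crs n w) - dot w (crs n w) ^ 2 := by
      simp only [dot, C0a_crs0, C0a_crs1, C0a_crs2]
      ring
    rw [h2, hw, D1_dot_crs]
    have h3 := D1_crs_le hn hw
    nlinarith [mul_self_nonneg φ]
  rw [hnr] at hBB
  unfold go
  rw [e1, e2, e3, hdh, hnr]
  linarith

/-- Leg 3: rotation of an orthonormal pair at `x = 0`. Curve `PT 0 0 0 (rot n (t φ) w) (rot n (t φ) s)`; there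
`h = 0`, `l = s`, `xi = 0`, `A = D` with `|A| ≤ |s'|`, `B = (1/2) w × w'`, `h' = 0`, hence
`go ≤ (|s'|^2 + |w'|^2)/4 ≤ φ^2/2`. -/
theorem leg3 (k : ℕ) {ε : ℝ} (hε : 0 < ε) (hε1 : ε < 1 / 2) {n w s : V3} (hn : dot n n = 1)
    (hw : dot w w = 1) (hs : dot s s = 1) (hws : dot w s = 0) {φ : ℝ} (hφ : |φ| ≤ π) :
    Conn (gg (prof k) ε k) (PT 0 0 0 w s) (PT 0 0 0 (rot n φ w) (rot n φ s)) 3 := by
  have hw1 : ∀ t : ℝ, dot (rot n t w) (rot n t w) = 1 := fun t => by rw [D1_dot_rot hn, hw]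
  have hs1 : ∀ t : ℝ, dot (rot n t s) (rot n t s) = 1 := fun t => by rw [D1_dot_rot hn, hs]
  have hws1 : ∀ t : ℝ, dot (rot n t w) (rot n t s) = 0 := fun t => by rw [D1_dot_rot hn, hws]
  set γ : ℝ → EE 7 := fun t => PT 0 0 0 (rot n (t * φ) w) (rot n (t * φ) s) with hγ
  have h0 : γ 0 = PT 0 0 0 w s := by
    simp only [hγ, zero_mul]
    rw [show rot n 0 w = w by simp [rot], show rot n 0 s = s by simp [rot]]
  have h1 : γ 1 = PT 0 0 0 (rot n φ w) (rot n φ s) := by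
    simp only [hγ, one_mul]
  -- the auxiliary map on `EE 7`
  set F : EE 7 → EE 7 := fun ξ => PT ((fun _ => (0 : ℝ)) ξ) ((fun _ => (0 : ℝ)) ξ)
    ((fun _ => (0 : ℝ)) ξ) (rot n (ξ 0 * φ) w) (rot n (ξ 0 * φ) s) with hF
  set L : ℝ → EE 7 := fun t => t • ebas 0 with hL
  have hL0 : ∀ t, L t 0 = t := fun t => by simp [hL, ebas]
  have hFγ : ∀ t, F (L t) = γ t := fun t => by simp only [hF, hγ, hL0]
  have hLd : ∀ t, HasDerivAt L (ebas 0) t := by
    intro t
    have := (hasDerivAt_id t).smul_const (ebas (d := 7) 0)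
    rw [one_smul] at this
    exact this
  have hFd : ∀ q : EE 7, DifferentiableAt ℝ F q ∧ ∀ u, fderiv ℝ F q u = _ := fun q =>
    PT_hasFDerivAt (hasFDerivAt_const (0 : ℝ) q) (hasFDerivAt_const (0 : ℝ) q)
      (hasFDerivAt_const (0 : ℝ) q) (D1_rot_deriv hn φ w q) (D1_rot_deriv hn φ s q)
  have hγd : ∀ t, deriv γ t = TPT 0 0 (rot n (t * φ) w) (rot n (t * φ) s) 0 0 0
      (φ • crs n (rot n (t * φ) w)) (φ • crs n (rot n (t * φ) s)) := by
    intro t
    have h2 := ((hFd (L t)).1.hasFDerivAt).comp_hasDerivAt t (hLd t)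
    have h3 : F ∘ L = γ := funext hFγ
    rw [h3] at h2
    rw [h2.deriv, (hFd (L t)).2]
    simp [hL0, ebas]
  have hsm : ContDiff ℝ ∞ γ := by
    have hrs : ∀ v : V3, ContDiff ℝ ∞ (fun ξ : EE 7 => rot n (ξ 0 * φ) v) := by
      intro v
      have h0 : ContDiff ℝ ∞ (fun ξ : EE 7 => ξ 0 * φ) :=
        ((EuclideanSpace.proj 0 : EE 7 →L[ℝ] ℝ).contDiff).mul contDiff_const
      unfold rot
      exact ((h0.cos.smul contDiff_const).add (h0.sin.smul contDiff_const)).add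
        (((contDiff_const.sub h0.cos).mul contDiff_const).smul contDiff_const)
    have hFs : ContDiff ℝ ∞ F := by
      rw [contDiff_iff_contDiffAt]
      intro q
      exact PT_contDiffAt contDiffAt_const contDiffAt_const contDiffAt_const
        (hrs w).contDiffAt (hrs s).contDiffAt
    have hLs : ContDiff ℝ ∞ L := contDiff_id.smul contDiff_const
    have h3 : F ∘ L = γ := funext hFγ
    rw [← h3]
    exact hFs.comp hLs
  have := Conn.of_speed (gg_smul k ε) (γ := γ) (L := 3) (by norm_num)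
    (fun t _ => hsm.contDiffAt) (fun t _ => PT_mem (hw1 _) (hs1 _)) ?_
  · rw [h0, h1] at this
    exact this
  · intro t _
    have hcoord := PT_coord (a := 0) (b := 0) (c := 0) (hw1 (t * φ)) (hs1 (t * φ))
    have hmem : γ t ∈ OM := PT_mem (hw1 _) (hs1 _)
    have hx : x1 (γ t) = 0 := hcoord.1
    obtain ⟨hl, hgo⟩ := D1_go k hn (hw1 (t * φ)) (hs1 (t * φ)) (hws1 (t * φ)) φ
    rw [gg_eq_g0 k ε hmem (by rw [hx]; norm_num) (by rw [hx]; norm_num), g0_out k hε (by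
      show ε ^ 2 ≤ dot (lv (PT 0 0 0 (rot n (t * φ) w) (rot n (t * φ) s)))
        (lv (PT 0 0 0 (rot n (t * φ) w) (rot n (t * φ) s)))
      rw [hl]
      nlinarith), hγd]
    refine le_trans hgo ?_
    have h4 : φ ^ 2 ≤ π ^ 2 := by
      rw [← sq_abs φ]
      exact pow_le_pow_left₀ (abs_nonneg _) hφ 2
    have h5 : π ≤ 3.15 := Real.pi_lt_d2.le
    have h6 : 0 < π := Real.pi_pos
    nlinarith

/-- any two orthonormal pairs at `x = 0` (two legs) -/
theorem conn_pairs (k : ℕ) {ε : ℝ} (hε : 0 < ε) (hε1 : ε < 1 / 2) {w s w' s' : V3}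
    (hw : dot w w = 1) (hs : dot s s = 1) (hws : dot w s = 0)
    (hw' : dot w' w' = 1) (hs' : dot s' s' = 1) (hws' : dot w' s' = 0) :
    Conn (gg (prof k) ε k) (PT 0 0 0 w s) (PT 0 0 0 w' s') 6 := by
  obtain ⟨n, hn, hnw, hnw'⟩ := exists_orth hw hw'
  obtain ⟨φ, hφ, hr⟩ := exists_rot hn hw hw' hnw hnw'
  have h1 := leg3 k hε hε1 hn hw hs hws hφ
  rw [hr] at h1
  have hs2 : dot (rot n φ s) (rot n φ s) = 1 := by rw [D1_dot_rot hn, hs]
  have hws2 : dot w' (rot n φ s) = 0 := by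
    rw [← hr, D1_dot_rot hn, hws]
  obtain ⟨ψ, hψ, hr2⟩ := exists_rot hw' hs2 hs' hws2 hws'
  have h2 := leg3 k hε hε1 hw' hw' hs2 hws2 hψ
  rw [hr2, D1_rot_self hw'] at h2
  have h3 := h1.trans (gg_smul k ε) (by norm_num) (by norm_num) h2
  rw [show (3 : ℝ) + 3 = 6 by norm_num] at h3
  exact h3

/-- Leg 2: from a point with `h = 0` and `x_i ∈ [-1/2, 1/2)` to a point with `h = 0`, `x = 0`. Write
`p = CH k e1 e2 e3 (xst (x1 p) (x2 p) (x3 p) 0)` (`exists_CH`); curve `CH .. (xst ((1-t) x1) ..)`, speed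
`|x| ≤ 1` (`CH_go`, `gstd`). -/
theorem leg2 (k : ℕ) {ε : ℝ} (hε : 0 < ε) (hε1 : ε < 1 / 2) {p : EE 7} (hp : p ∈ OM)
    (hh0 : hh p = 0) (h1 : -(1 / 2) ≤ x1 p ∧ x1 p < 1 / 2)
    (h2 : -(1 / 2) ≤ x2 p ∧ x2 p < 1 / 2) (h3 : -(1 / 2) ≤ x3 p ∧ x3 p < 1 / 2) :
    ∃ w s : V3, dot w w = 1 ∧ dot s s = 1 ∧ dot w s = 0 ∧
      Conn (gg (prof k) ε k) p (PT 0 0 0 w s) 1 := by
  obtain ⟨e1, e2, e3, he, hCH⟩ := exists_CH k hp (by rw [hh0]; norm_num)
  rw [hh0] at hCH
  set v : EE 7 := xst (x1 p) (x2 p) (x3 p) 0 with hv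
  set Ln : ℝ → EE 7 := fun t => (1 - t) • v with hLn
  have hv3 : v 3 = 0 := rfl
  have hL3 : ∀ t, Ln t 3 = 0 := fun t => by
    show (1 - t) * v 3 = 0
    rw [hv3, mul_zero]
  have hL3' : ∀ t, Ln t 3 ^ 2 < 1 := fun t => by rw [hL3]; norm_num
  have hLd : ∀ t, HasDerivAt Ln (-v) t := by
    intro t
    have := ((hasDerivAt_const t (1 : ℝ)).sub (hasDerivAt_id t)).smul_const v
    rw [zero_sub, neg_smul, one_smul] at this
    exact this
  have hLs : ContDiff ℝ ∞ Ln := (contDiff_const.sub contDiff_id).smul contDiff_const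
  set γ : ℝ → EE 7 := fun t => CH k e1 e2 e3 (Ln t) with hγ
  have hγ0 : γ 0 = p := by
    simp only [hγ, hLn, sub_zero, one_smul]
    exact hCH
  have hend := CH_coord k he (hL3' 1)
  have hmem : γ 1 ∈ OM := hend.1
  have hγ1 : γ 1 = PT 0 0 0 (wv (γ 1)) (sv (γ 1)) := by
    have hfr := (C4_RF k he (Ln 1)).fr
    have hL1 : Ln 1 = 0 := by simp only [hLn, sub_self, zero_smul]
    have hγe : γ 1 = PT 0 0 0 (C4f3 k e1 e2 e3 (Ln 1)) (lc (C4f1 k e1 e2 e3 (Ln 1))
        (C4f2 k e1 e2 e3 (Ln 1)) (C4f3 k e1 e2 e3 (Ln 1)) (√(1 - Ln 1 3 ^ 2)) 0 (Ln 1 3)) := by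
      show PT (Ln 1 0) (Ln 1 1) (Ln 1 2) _ _ = _
      rw [hL1]
      rfl
    have hs : dot (lc (C4f1 k e1 e2 e3 (Ln 1)) (C4f2 k e1 e2 e3 (Ln 1))
        (C4f3 k e1 e2 e3 (Ln 1)) (√(1 - Ln 1 3 ^ 2)) 0 (Ln 1 3))
        (lc (C4f1 k e1 e2 e3 (Ln 1)) (C4f2 k e1 e2 e3 (Ln 1))
        (C4f3 k e1 e2 e3 (Ln 1)) (√(1 - Ln 1 3 ^ 2)) 0 (Ln 1 3)) = 1 := by
      rw [dot_lc hfr, hL3]
      simp
    obtain ⟨c1, c2, c3, c4, c5⟩ := PT_coord (a := 0) (b := 0) (c := 0) hfr.n3 hs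
    rw [hγe, c4, c5]
  have hsp := Conn.of_speed (gg_smul k ε) (γ := γ) (L := 1) (by norm_num)
    (fun t _ => (CH_smooth k e1 e2 e3 (hL3' t)).comp t hLs.contDiffAt)
    (fun t _ => (CH_coord k he (hL3' t)).1) ?_
  · rw [hγ0] at hsp
    refine ⟨wv (γ 1), sv (γ 1), wv_unit hmem, sv_unit hmem, ?_, ?_⟩
    · have := hend.2.1
      rw [hL3] at this
      exact this
    · rw [← hγ1]
      exact hsp
  · intro t ht
    obtain ⟨c1, c2, c3, c4⟩ := CH_coord k he (hL3' t)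
    have hγd : deriv γ t = fderiv ℝ (CH k e1 e2 e3) (Ln t) (-v) := by
      have hd := (CH_smooth k e1 e2 e3 (hL3' t)).differentiableAt (by simp)
      exact (hd.hasFDerivAt.comp_hasDerivAt t (hLd t)).deriv
    have hx : x1 (γ t) = (1 - t) * x1 p := c3
    have ht0 := ht.1
    have ht1 := ht.2
    have hlv : dot (lv (γ t)) (lv (γ t)) = 1 := by
      have hw := wv_unit c1
      have hs := sv_unit c1
      have hz : hh (γ t) = 0 := by
        have := c2
        rw [hL3] at this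
        exact this
      unfold lv
      rw [hz, zero_smul, sub_zero]
      exact hs
    have hx1 : -(1 / 2) ≤ x1 (γ t) := by rw [hx]; nlinarith [h1.1, h1.2]
    have hx2 : x1 (γ t) < 1 / 2 := by rw [hx]; nlinarith [h1.1, h1.2]
    have hlv' : ε ^ 2 ≤ dot (lv (γ t)) (lv (γ t)) := by rw [hlv]; nlinarith
    rw [gg_eq_g0 k ε c1 hx1 hx2, g0_out k hε hlv', hγd]
    · rw [CH_go k he (hL3' t)]
      unfold gstd qo1 qo2 qo3
      rw [hL3]
      have hv0 : (-v : EE 7) 0 = -x1 p := rfl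
      have hv1 : (-v : EE 7) 1 = -x2 p := rfl
      have hv2 : (-v : EE 7) 2 = -x3 p := rfl
      have hv3 : (-v : EE 7) 3 = -0 := rfl
      have hv4 : (-v : EE 7) 4 = -0 := rfl
      have hv5 : (-v : EE 7) 5 = -0 := rfl
      have hv6 : (-v : EE 7) 6 = -0 := rfl
      rw [hv0, hv1, hv2, hv3, hv4, hv5, hv6]
      simp only [neg_zero, mul_zero, sub_zero, add_zero]
      nlinarith [h1.1, h1.2, h2.1, h2.2, h3.1, h3.2]

end H31R
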