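import Pool.Agent.Lib.H31R.D1

/-!
# H31R, chunk D2: moving from any point to the hypersurface `h = 0`
-/

open scoped Manifold ContDiff Topology
open Set MeasureTheory Real Filter

namespace H31R

/-- Cauchy-Schwarz in `V3` -/
theorem D2_cs (u v : V3) : dot u v ^ 2 ≤ dot u u * dot v v := by
  simp only [dot]
  nlinarith [sq_nonneg (u 0 * v 1 - u 1 * v 0), sq_nonneg (u 0 * v 2 - u 2 * v 0),
    sq_nonneg (u 1 * v 2 - u 2 * v 1)]

theorem D2_J {w s : V3} (hw : dot w w = 1) :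
    dot (crs w s) (crs w s) = dot (s - dot w s • w) (s - dot w s • w) := by
  have h1 : dot (crs w s) (crs w s) = dot w w * dot s s - dot w s ^ 2 := by
    simp only [dot, C0a_crs0, C0a_crs1, C0a_crs2]
    ring
  have h2 : dot (s - dot w s • w) (s - dot w s • w) =
      dot s s - 2 * dot w s * dot w s + dot w s ^ 2 * dot w w := by
    generalize hc : dot w s = c
    simp only [dot, Pi.sub_apply, Pi.smul_apply, smul_eq_mul] at hc ⊢
    rw [← hc]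
    ring
  rw [h1, h2, hw]
  ring

theorem D2_core {R a Z1 Z2 Z3 D α β : ℝ} (hR : 0 < R) (ha0 : 0 ≤ a) (haR : a ≤ R)
    (hZ1 : 0 ≤ Z1) (hZ2 : 0 ≤ Z2) (hZ3 : 0 ≤ Z3) (hτ : Z1 + Z2 + Z3 ≤ R) (hD : 0 ≤ D)
    (hα0 : 0 ≤ α) (hα : α ≤ R ^ 2 * D) (hβ0 : 0 ≤ β) (hβ : β ≤ R ^ 2 * D) :
    (1 - (Z1 + Z2 + Z3) / (24 * R) -
        (Z3 - (Z1 + Z2 + Z3) / 3) * ((1 / 8) * (1 / R - 2 * a / R ^ 2))) * D / (4 * R) -
      1 / (8 * R * (R + a) ^ 2) * ((Z1 + Z2 - 2 * (Z1 + Z2 + Z3) / 3) * (α - β) / (4 * R)) ≤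
      2 * D / (4 * R) := by
  have h4R : 0 < 4 * R := by linarith
  -- first factor
  have hk : |(1 / 8) * (1 / R - 2 * a / R ^ 2) * R| ≤ 1 / 8 := by
    have e : (1 / 8) * (1 / R - 2 * a / R ^ 2) * R = (1 / 8) * (1 - 2 * (a / R)) := by
      field_simp
    rw [e]
    have h1 : 0 ≤ a / R := by positivity
    have h2 : a / R ≤ 1 := (div_le_one hR).2 haR
    rw [abs_le]
    constructor <;> linarith
  have hz : |(Z3 - (Z1 + Z2 + Z3) / 3) / R| ≤ 2 / 3 := by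
    rw [abs_div, abs_of_pos hR, div_le_iff₀ hR, abs_le]
    constructor <;> linarith
  have hprod : |(Z3 - (Z1 + Z2 + Z3) / 3) * ((1 / 8) * (1 / R - 2 * a / R ^ 2))| ≤ 1 / 12 := by
    have e : (Z3 - (Z1 + Z2 + Z3) / 3) * ((1 / 8) * (1 / R - 2 * a / R ^ 2)) =
        ((Z3 - (Z1 + Z2 + Z3) / 3) / R) * ((1 / 8) * (1 / R - 2 * a / R ^ 2) * R) := by
      field_simp
    rw [e, abs_mul]
    calc |(Z3 - (Z1 + Z2 + Z3) / 3) / R| * |(1 / 8) * (1 / R - 2 * a / R ^ 2) * R| ≤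
          2 / 3 * (1 / 8) := mul_le_mul hz hk (abs_nonneg _) (by norm_num)
      _ = 1 / 12 := by norm_num
  have hτ0 : 0 ≤ (Z1 + Z2 + Z3) / (24 * R) := by positivity
  have hP : (1 - (Z1 + Z2 + Z3) / (24 * R) -
      (Z3 - (Z1 + Z2 + Z3) / 3) * ((1 / 8) * (1 / R - 2 * a / R ^ 2))) ≤ 13 / 12 := by
    have := (abs_le.1 hprod).1
    linarith
  -- second term
  have hT0 : 0 ≤ 1 / (8 * R * (R + a) ^ 2) := by positivity
  have hT : 1 / (8 * R * (R + a) ^ 2) ≤ 1 / (8 * R ^ 3) := by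
    apply one_div_le_one_div_of_le (by positivity)
    have : R ^ 2 ≤ (R + a) ^ 2 := pow_le_pow_left₀ hR.le (by linarith) 2
    nlinarith
  have hab : |α - β| ≤ R ^ 2 * D := by
    rw [abs_le]
    constructor <;> linarith
  have hc : |Z1 + Z2 - 2 * (Z1 + Z2 + Z3) / 3| ≤ 2 / 3 * R := by
    rw [abs_le]
    constructor <;> linarith
  have h2nd : |1 / (8 * R * (R + a) ^ 2) * ((Z1 + Z2 - 2 * (Z1 + Z2 + Z3) / 3) * (α - β))| ≤
      D / 12 := by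
    rw [abs_mul, abs_mul, abs_of_nonneg hT0]
    calc 1 / (8 * R * (R + a) ^ 2) * (|Z1 + Z2 - 2 * (Z1 + Z2 + Z3) / 3| * |α - β|) ≤
          1 / (8 * R ^ 3) * (2 / 3 * R * (R ^ 2 * D)) :=
          mul_le_mul hT (mul_le_mul hc hab (abs_nonneg _) (by positivity)) (by positivity)
            (by positivity)
      _ = D / 12 := by
        field_simp
        ring
  have hsum : (1 - (Z1 + Z2 + Z3) / (24 * R) -
        (Z3 - (Z1 + Z2 + Z3) / 3) * ((1 / 8) * (1 / R - 2 * a / R ^ 2))) * D -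
      1 / (8 * R * (R + a) ^ 2) * ((Z1 + Z2 - 2 * (Z1 + Z2 + Z3) / 3) * (α - β)) ≤ 2 * D := by
    have h1 := mul_le_mul_of_nonneg_right hP hD
    have h2 := (abs_le.1 h2nd).1
    linarith
  have hfin := div_le_div_of_nonneg_right hsum h4R.le
  calc _ = ((1 - (Z1 + Z2 + Z3) / (24 * R) -
        (Z3 - (Z1 + Z2 + Z3) / 3) * ((1 / 8) * (1 / R - 2 * a / R ^ 2))) * D -
      1 / (8 * R * (R + a) ^ 2) * ((Z1 + Z2 - 2 * (Z1 + Z2 + Z3) / 3) * (α - β))) / (4 * R) := by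
        ring
    _ ≤ _ := hfin

theorem D2_crs_zero (w : V3) : crs w 0 = 0 := by
  apply C0a_ext
  · rw [C0a_crs0]; simp
  · rw [C0a_crs1]; simp
  · rw [C0a_crs2]; simp

theorem D2_dot_zero_right (w : V3) : dot w 0 = 0 := by
  simp [dot]

/-- Upper bound of the core metric for vectors with `xi = 0`, `w' = 0`, and `A` proportional to a fixed unit
vector `f1` with `l = r f1`: `gc = P |A|^2/(4R) - T (Z11 + Z22 - 2τ/3) <l,A>^2/(4R)` and the factors are close to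
`1` for small `ε`: with `a = ε^3 a0`, `R ≥ a`, `|l| ≤ R` all of `τ/R`, `Z kap`, `T Z |l|^2` are at most
`C ε^3` (`C` depends on the bounds of `a0`, `a0'`, `b1`, `b2` on `[-1/2, 1/2]` and on the minimum of `a0`). -/
theorem gc_radial_le (k : ℕ) : ∃ ε0 : ℝ, 0 < ε0 ∧ ∀ ε, 0 < ε → ε < ε0 → ∀ p ∈ OM,
    |x1 p| ≤ 1 / 2 → ∀ u : EE 7, xi1 p u = 0 → xi2 p u = 0 → xi3 p u = 0 → dw p u = 0 →
      gc (prof k) ε p u u ≤ 2 * dot (Dl p u) (Dl p u) / (4 * RR (prof k) ε p) := by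
  have hca : Continuous (auf k) := (auf_smooth k).continuous
  have hcd : Continuous (deriv (auf k)) := (B3_deriv_smooth (auf_smooth k)).continuous
  have hc1 : Continuous (prof k).b1 := (b1_smooth k).continuous
  have hc2 : Continuous (prof k).b2 := (b2_smooth k).continuous
  have hcf : Continuous fun x => ((2 * auf k x * (prof k).b2 x) ^ 2 +
      (2 * auf k x * (prof k).b1 x) ^ 2 + deriv (auf k) x ^ 2) / auf k x := by
    refine Continuous.div ?_ hca fun x => (auf_pos k x).ne'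
    fun_prop
  obtain ⟨C, hC⟩ := (isCompact_Icc (a := (-(1 / 2) : ℝ)) (b := 1 / 2)).exists_bound_of_continuousOn
    hcf.continuousOn
  refine ⟨1 / (|C| + 1), by positivity, ?_⟩
  intro ε hε hε0 p hp hx u h1 h2 h3 hdw
  have hx' : x1 p ∈ Icc (-(1 / 2) : ℝ) (1 / 2) := ⟨by linarith [(abs_le.1 hx).1], (abs_le.1 hx).2⟩
  have hCx := hC _ hx'
  rw [Real.norm_eq_abs] at hCx
  have ha0 := auf_pos k (x1 p)
  set a0 := auf k (x1 p) with ha0d
  set b1 := (prof k).b1 (x1 p) with hb1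
  set b2 := (prof k).b2 (x1 p) with hb2
  set a0' := deriv (auf k) (x1 p) with ha0'
  have hprofa : (prof k).a (x1 p) = a0 := rfl
  have hprofd : deriv (prof k).a (x1 p) = a0' := rfl
  have hapos : 0 < ε ^ 3 * a0 := by positivity
  set R := RR (prof k) ε p with hRd
  have hlnn : 0 ≤ dot (lv p) (lv p) := C0a_dot_nonneg _
  have hR2 : R ^ 2 = (ε ^ 3 * a0) ^ 2 + dot (lv p) (lv p) := by
    rw [hRd, RR, Real.sq_sqrt (by positivity), hprofa]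
  have hRpos : 0 < R := by
    rw [hRd, RR]
    apply Real.sqrt_pos.2
    rw [hprofa]
    positivity
  have haR : ε ^ 3 * a0 ≤ R := by
    apply le_of_sq_le_sq _ hRpos.le
    rw [hR2]
    linarith
  -- the trace
  have hε1 : ε < 1 := by
    have : 1 / (|C| + 1) ≤ 1 := by
      rw [div_le_one (by positivity)]
      linarith [abs_nonneg C]
    linarith
  have hε3 : ε ^ 3 * |C| ≤ 1 := by
    have h4 : ε ^ 3 ≤ ε := by
      have : ε ^ 3 ≤ ε ^ 1 := pow_le_pow_of_le_one hε.le hε1.le (by norm_num)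
      simpa using this
    have h5 : ε * (|C| + 1) < 1 := by
      rwa [lt_div_iff₀ (by positivity)] at hε0
    have h6 : ε ^ 3 * |C| ≤ ε * |C| := mul_le_mul_of_nonneg_right h4 (abs_nonneg C)
    nlinarith
  have hτ : (2 * (ε ^ 3 * a0) * b2) ^ 2 + (2 * (ε ^ 3 * a0) * b1) ^ 2 + (ε ^ 3 * a0') ^ 2 ≤ R := by
    have h7 : (2 * a0 * b2) ^ 2 + (2 * a0 * b1) ^ 2 + a0' ^ 2 ≤ |C| * a0 := by
      have h8 := (le_abs_self _).trans (hCx.trans (le_abs_self C))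
      rwa [div_le_iff₀ ha0] at h8
    have e : (2 * (ε ^ 3 * a0) * b2) ^ 2 + (2 * (ε ^ 3 * a0) * b1) ^ 2 + (ε ^ 3 * a0') ^ 2 =
        ε ^ 3 * (ε ^ 3 * ((2 * a0 * b2) ^ 2 + (2 * a0 * b1) ^ 2 + a0' ^ 2)) := by ring
    rw [e]
    have h9 : ε ^ 3 * ((2 * a0 * b2) ^ 2 + (2 * a0 * b1) ^ 2 + a0' ^ 2) ≤ a0 := by
      calc ε ^ 3 * ((2 * a0 * b2) ^ 2 + (2 * a0 * b1) ^ 2 + a0' ^ 2) ≤ ε ^ 3 * (|C| * a0) :=
            mul_le_mul_of_nonneg_left h7 (by positivity)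
        _ = (ε ^ 3 * |C|) * a0 := by ring
        _ ≤ 1 * a0 := mul_le_mul_of_nonneg_right hε3 ha0.le
        _ = a0 := one_mul _
    calc ε ^ 3 * (ε ^ 3 * ((2 * a0 * b2) ^ 2 + (2 * a0 * b1) ^ 2 + a0' ^ 2)) ≤ ε ^ 3 * a0 :=
          mul_le_mul_of_nonneg_left h9 (by positivity)
      _ ≤ R := haR
  -- the ingredients
  have hA : Av (prof k) p u = Dl p u := by
    rw [Av, h2, mul_zero, zero_smul, sub_zero]
  have hB : Bv (prof k) R p u = 0 := by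
    rw [Bv, h1, h2, hdw, D2_crs_zero, mul_zero, mul_zero, zero_smul, zero_smul, add_zero,
      smul_zero, smul_zero, sub_zero]
  have hgc : gc (prof k) ε p u u =
      (1 - ((2 * (ε ^ 3 * a0) * b2) ^ 2 + (2 * (ε ^ 3 * a0) * b1) ^ 2 + (ε ^ 3 * a0') ^ 2) /
          (24 * R) - ((ε ^ 3 * a0') ^ 2 -
            ((2 * (ε ^ 3 * a0) * b2) ^ 2 + (2 * (ε ^ 3 * a0) * b1) ^ 2 + (ε ^ 3 * a0') ^ 2) / 3) *
          ((1 / 8) * (1 / R - 2 * (ε ^ 3 * a0) / R ^ 2))) * dot (Dl p u) (Dl p u) / (4 * R) -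
        1 / (8 * R * (R + ε ^ 3 * a0) ^ 2) *
          (((2 * (ε ^ 3 * a0) * b2) ^ 2 + (2 * (ε ^ 3 * a0) * b1) ^ 2 - 2 *
            ((2 * (ε ^ 3 * a0) * b2) ^ 2 + (2 * (ε ^ 3 * a0) * b1) ^ 2 + (ε ^ 3 * a0') ^ 2) / 3) *
            (dot (lv p) (Dl p u) ^ 2 - dot (Jl p) (Dl p u) ^ 2) / (4 * R)) := by
    rw [gc, ← hRd, hA, hB, h1, h2, h3, hprofa, hprofd, ← hb1, ← hb2]
    simp only [gcore, D2_dot_zero_right]
    ring
  rw [hgc]
  have hw := wv_unit hp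
  have hDnn : 0 ≤ dot (Dl p u) (Dl p u) := C0a_dot_nonneg _
  have hl2 : dot (lv p) (lv p) ≤ R ^ 2 := by
    rw [hR2]
    have : 0 ≤ (ε ^ 3 * a0) ^ 2 := by positivity
    linarith
  have hJ2 : dot (Jl p) (Jl p) = dot (lv p) (lv p) := D2_J hw
  refine D2_core hRpos hapos.le haR (by positivity) (by positivity) (by positivity) hτ hDnn
    (by positivity) ?_ (by positivity) ?_
  · exact (D2_cs _ _).trans (mul_le_mul_of_nonneg_right hl2 hDnn)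
  · refine (D2_cs _ _).trans (mul_le_mul_of_nonneg_right ?_ hDnn)
    rw [hJ2]
    exact hl2

/-- `pfr` is affine in `l1, h` -/
theorem D2_pfr (f1 f2 f3 : V3) (X1 X2 X3 l1 h : ℝ) :
    pfr f1 f2 f3 X1 X2 X3 l1 0 h =
      mk7 X3 (exp X1 • f3) 0 + l1 • mk7 0 0 (exp X2 • f1) + h • mk7 0 0 (exp X2 • f3) := by
  unfold pfr PT mk7 lc
  ext i
  fin_cases i <;> simp <;> ring

theorem D2_ufr (f1 f2 f3 : V3) (X1 X2 l1 h d1 dh' : ℝ) :
    ufr f1 f2 f3 X1 X2 l1 0 h 0 0 0 d1 0 dh' 0 0 0 =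
      d1 • mk7 0 0 (exp X2 • f1) + dh' • mk7 0 0 (exp X2 • f3) := by
  unfold ufr TPT mk7 wvel svel lc
  ext i
  fin_cases i <;> simp <;> ring

/-- `g0` along radial vectors -/
theorem D2_speed (k : ℕ) {ε : ℝ} {f1 f2 f3 : V3} (hf : Fr f1 f2 f3) {X1 X2 X3 l1 h d1 dh' : ℝ}
    (hn : l1 ^ 2 + h ^ 2 = 1) (hl1 : 0 ≤ l1) (ht : l1 * d1 + h * dh' = 0)
    (hd : d1 ^ 2 ≤ 10 * l1) (hdh : dh' ^ 2 ≤ 10)
    (hgc : ∀ p ∈ OM, |x1 p| ≤ 1 / 2 → ∀ u : EE 7, xi1 p u = 0 → xi2 p u = 0 → xi3 p u = 0 →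
      dw p u = 0 →
      gc (prof k) ε p u u ≤ 2 * dot (Dl p u) (Dl p u) / (4 * RR (prof k) ε p))
    (hX1 : |X1| ≤ 1 / 2) :
    g0 (prof k) ε (pfr f1 f2 f3 X1 X2 X3 l1 0 h)
      (ufr f1 f2 f3 X1 X2 l1 0 h 0 0 0 d1 0 dh' 0 0 0)
      (ufr f1 f2 f3 X1 X2 l1 0 h 0 0 0 d1 0 dh' 0 0 0) ≤ 25 := by
  have hn' : l1 ^ 2 + (0 : ℝ) ^ 2 + h ^ 2 = 1 := by linear_combination hn
  have ht' : l1 * d1 + (0 : ℝ) * 0 + h * dh' = 0 := by linear_combination ht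
  obtain ⟨hOM, hx1, hw, hh1, hl, hJ, i1, i2, i3, idh, hD, hB⟩ :=
    frame_ingr hf (X1 := X1) (X2 := X2) (X3 := X3) hn' 0 0 0 d1 0 dh' 0 0 0 ht'
  set p := PT X1 X2 X3 f3 (lc f1 f2 f3 l1 0 h) with hp
  set u := TPT X1 X2 f3 (lc f1 f2 f3 l1 0 h) 0 0 0 (wvel f1 f2 f3 0 0)
      (svel f1 f2 f3 l1 0 h d1 0 dh' 0 0 0) with hu
  have epfr : pfr f1 f2 f3 X1 X2 X3 l1 0 h = p := rfl
  have eufr : ufr f1 f2 f3 X1 X2 l1 0 h 0 0 0 d1 0 dh' 0 0 0 = u := rfl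
  rw [epfr, eufr]
  have hs : dot (lc f1 f2 f3 l1 0 h) (lc f1 f2 f3 l1 0 h) = 1 := by
    rw [dot_lc hf]
    linarith
  have hw0 : wvel f1 f2 f3 0 0 = 0 := by
    simp [wvel, lc]
  have hdw : dw p u = 0 := by
    have hww : dot f3 (wvel f1 f2 f3 0 0) = 0 := by rw [hw0, D2_dot_zero_right]
    have hss : dot (lc f1 f2 f3 l1 0 h) (svel f1 f2 f3 l1 0 h d1 0 dh' 0 0 0) = 0 := by
      rw [svel, dot_lc hf]
      linear_combination ht
    have := (TPT_coord (X1 := X1) (X2 := X2) (X3 := X3) hf.n3 hs 0 0 0 hww hss).2.2.2.1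
    rw [hp, hu, this, hw0]
  have hDD : dot (Dl p u) (Dl p u) = d1 ^ 2 := by
    rw [hD, dot_lc hf]
    ring
  have hlv : dot (lv p) (lv p) = l1 ^ 2 := by
    rw [hl, dot_lc hf]
    ring
  have hnl : nr (lv p) = l1 := by
    rw [nr, hlv, Real.sqrt_sq hl1]
  have ha := auf_pos k (x1 p)
  have hRl : l1 ≤ RR (prof k) ε p := by
    rw [RR, hlv]
    apply Real.le_sqrt_of_sq_le
    have : 0 ≤ (ε ^ 3 * (prof k).a (x1 p)) ^ 2 := sq_nonneg _
    linarith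
  have hR0 : 0 ≤ RR (prof k) ε p := Real.sqrt_nonneg _
  have hgc1 : gc (prof k) ε p u u ≤ 25 := by
    have h1 := hgc p hOM (by rw [hx1]; exact hX1) u i1 i2 i3 hdw
    rw [hDD] at h1
    refine h1.trans ?_
    apply div_le_of_le_mul₀ (by linarith) (by norm_num)
    linarith
  have hA : Av (prof k) p u = Dl p u := by
    rw [Av, i2, mul_zero, zero_smul, sub_zero]
  have hBv : Bv (prof k) (nr (lv p)) p u = 0 := by
    rw [Bv, i1, i2, hdw, D2_crs_zero, mul_zero, mul_zero, zero_smul, zero_smul, add_zero,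
      smul_zero, smul_zero, sub_zero]
  have hpsi0 : 0 ≤ psi (hh p) := Real.smoothTransition.nonneg _
  have hpsi1 : psi (hh p) ≤ 1 := Real.smoothTransition.le_one _
  have hgo : go (prof k) p u u ≤ 25 := by
    rw [go, i1, i2, i3, hA, hBv, hDD, hnl, idh, D2_dot_zero_right]
    have h1 : d1 ^ 2 / (4 * l1) ≤ 10 := by
      apply div_le_of_le_mul₀ (by linarith) (by norm_num)
      linarith
    have h2 : psi (hh p) * dh' * dh' ≤ 10 := by
      have : psi (hh p) * dh' * dh' = psi (hh p) * dh' ^ 2 := by ring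
      rw [this]
      calc psi (hh p) * dh' ^ 2 ≤ 1 * 10 := mul_le_mul hpsi1 hdh (sq_nonneg _) (by norm_num)
        _ = 10 := by norm_num
    linarith
  have hchi0 : 0 ≤ chi (dot (lv p) (lv p) / ε ^ 2) := Real.smoothTransition.nonneg _
  have hchi1 : chi (dot (lv p) (lv p) / ε ^ 2) ≤ 1 := Real.smoothTransition.le_one _
  rw [g0]
  calc chi (dot (lv p) (lv p) / ε ^ 2) * gc (prof k) ε p u u +
        (1 - chi (dot (lv p) (lv p) / ε ^ 2)) * go (prof k) p u u ≤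
      chi (dot (lv p) (lv p) / ε ^ 2) * 25 + (1 - chi (dot (lv p) (lv p) / ε ^ 2)) * 25 :=
        add_le_add (mul_le_mul_of_nonneg_left hgc1 hchi0)
          (mul_le_mul_of_nonneg_left hgo (by linarith))
    _ = 25 := by ring

/-- Leg 1: with the frame of `exists_pfr`, `p = pfr f1 f2 f3 (x1 p) (x2 p) (x3 p) t 0 h`, `t = |l|`, choose
`σ0 ∈ [0, 1]` with `sin (π σ0^2 / 2) = t` and `sg = ±1` with `sg cos (π σ0^2 / 2) = h`; curve
`pfr f1 f2 f3 x1 x2 x3 (sin (π σ^2/2)) 0 (sg cos (π σ^2/2))`, `σ = σ0 + t (1 - σ0)`. There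
`A = D = (π σ σ' cos) f1`, `B = 0`, `|A|^2/(4|l|) ≤ π^2/4` because `sin (π σ^2/2) ≥ σ^2`
(`Real.mul_le_sin`), `R ≥ |l|`, `h'^2 ≤ π^2`, `psi ≤ 1`. -/
theorem leg1 (k : ℕ) : ∃ ε0 : ℝ, 0 < ε0 ∧ ∀ ε, 0 < ε → ε < ε0 → ∀ p ∈ OM,
    (-(1 / 2) ≤ x1 p ∧ x1 p < 1 / 2) → ∃ q ∈ OM, hh q = 0 ∧ x1 q = x1 p ∧ x2 q = x2 p ∧
      x3 q = x3 p ∧ Conn (gg (prof k) ε k) p q 5 := by
  obtain ⟨ε0, hε0, hgc⟩ := gc_radial_le k
  refine ⟨ε0, hε0, ?_⟩
  intro ε hε hεlt p hp hx1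
  have hgc' := hgc ε hε hεlt
  obtain ⟨f1, f2, f3, hf, t, ht0, hth, -, hpp⟩ := exists_pfr hp
  have hpi := Real.pi_pos
  have ht1 : t ≤ 1 := by nlinarith [sq_nonneg (hh p)]
  have harc0 : 0 ≤ Real.arcsin t := Real.arcsin_nonneg.2 ht0
  have harc1 : Real.arcsin t ≤ π / 2 := Real.arcsin_le_pi_div_two t
  set s0 := Real.sqrt (2 / π * Real.arcsin t) with hs0
  have hs0sq : s0 ^ 2 = 2 / π * Real.arcsin t := Real.sq_sqrt (by positivity)
  have hs00 : 0 ≤ s0 := Real.sqrt_nonneg _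
  have hs01 : s0 ≤ 1 := by
    apply Real.sqrt_le_one.2
    rw [div_mul_eq_mul_div, div_le_one hpi]
    linarith
  have hang : π * s0 ^ 2 / 2 = Real.arcsin t := by
    rw [hs0sq]
    field_simp
  obtain ⟨sg, hsg, hsgh⟩ : ∃ sg : ℝ, sg ^ 2 = 1 ∧ sg * |hh p| = hh p := by
    rcases le_total 0 (hh p) with h | h
    · exact ⟨1, by norm_num, by rw [abs_of_nonneg h, one_mul]⟩
    · exact ⟨-1, by norm_num, by rw [abs_of_nonpos h]; ring⟩
  -- the curve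
  let σ : ℝ → ℝ := fun τ => s0 + τ * (1 - s0)
  let γ : ℝ → EE 7 := fun τ => pfr f1 f2 f3 (x1 p) (x2 p) (x3 p) (sin (π * σ τ ^ 2 / 2)) 0
    (sg * cos (π * σ τ ^ 2 / 2))
  have hγ0 : γ 0 = p := by
    show pfr f1 f2 f3 (x1 p) (x2 p) (x3 p) (sin (π * (s0 + 0 * (1 - s0)) ^ 2 / 2)) 0
      (sg * cos (π * (s0 + 0 * (1 - s0)) ^ 2 / 2)) = p
    rw [zero_mul, add_zero, hang, Real.sin_arcsin (by linarith) ht1, Real.cos_arcsin]
    have : 1 - t ^ 2 = hh p ^ 2 := by linarith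
    rw [this, Real.sqrt_sq_eq_abs, hsgh]
    exact hpp.symm
  have hγ1 : γ 1 = pfr f1 f2 f3 (x1 p) (x2 p) (x3 p) 1 0 0 := by
    show pfr f1 f2 f3 (x1 p) (x2 p) (x3 p) (sin (π * (s0 + 1 * (1 - s0)) ^ 2 / 2)) 0
      (sg * cos (π * (s0 + 1 * (1 - s0)) ^ 2 / 2)) = _
    have : π * (s0 + 1 * (1 - s0)) ^ 2 / 2 = π / 2 := by ring
    rw [this, Real.sin_pi_div_two, Real.cos_pi_div_two, mul_zero]
  have hγeq : γ = fun τ => mk7 (x3 p) (exp (x1 p) • f3) 0 +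
      sin (π * σ τ ^ 2 / 2) • mk7 0 0 (exp (x2 p) • f1) +
      (sg * cos (π * σ τ ^ 2 / 2)) • mk7 0 0 (exp (x2 p) • f3) := by
    funext τ
    exact D2_pfr _ _ _ _ _ _ _ _
  have hσd : ∀ τ, HasDerivAt σ (1 - s0) τ := by
    intro τ
    have := ((hasDerivAt_id' τ).mul_const (1 - s0)).const_add s0
    exact this.congr_deriv (one_mul _)
  have hangd : ∀ τ, HasDerivAt (fun τ => π * σ τ ^ 2 / 2) (π * σ τ * (1 - s0)) τ := by
    intro τ
    have := (((hσd τ).pow 2).const_mul π).div_const 2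
    refine this.congr_deriv ?_
    norm_num
    ring
  have hγd : ∀ τ, HasDerivAt γ (ufr f1 f2 f3 (x1 p) (x2 p) (sin (π * σ τ ^ 2 / 2)) 0
      (sg * cos (π * σ τ ^ 2 / 2)) 0 0 0 (cos (π * σ τ ^ 2 / 2) * (π * σ τ * (1 - s0))) 0
      (sg * (-sin (π * σ τ ^ 2 / 2) * (π * σ τ * (1 - s0)))) 0 0 0) τ := by
    intro τ
    rw [D2_ufr, hγeq]
    exact (((hangd τ).sin.smul_const _).const_add _).add
      (((hangd τ).cos.const_mul sg).smul_const _)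
  have hn : ∀ τ, sin (π * σ τ ^ 2 / 2) ^ 2 + (sg * cos (π * σ τ ^ 2 / 2)) ^ 2 = 1 := by
    intro τ
    rw [mul_pow, hsg, one_mul]
    exact Real.sin_sq_add_cos_sq _
  have hOM : ∀ τ, γ τ ∈ OM := by
    intro τ
    refine PT_mem hf.n3 ?_
    rw [dot_lc hf]
    linarith [hn τ]
  have hs : dot (lc f1 f2 f3 1 0 0) (lc f1 f2 f3 1 0 0) = 1 := by
    rw [dot_lc hf]
    ring
  refine ⟨γ 1, hOM 1, ?_, ?_, ?_, ?_, ?_⟩
  · rw [hγ1]
    have := (frame_ingr hf (X1 := x1 p) (X2 := x2 p) (X3 := x3 p) (l1 := 1) (l2 := 0) (h := 0)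
      (by norm_num) 0 0 0 0 0 0 0 0 0 (by norm_num)).2.2.2.1
    exact this
  · rw [hγ1]
    exact (PT_coord hf.n3 hs).1
  · rw [hγ1]
    exact (PT_coord hf.n3 hs).2.1
  · rw [hγ1]
    exact (PT_coord hf.n3 hs).2.2.1
  · rw [show p = γ 0 from hγ0.symm]
    refine Conn.of_speed (gg_smul k ε) (by norm_num) ?_ (fun τ _ => hOM τ) ?_
    · intro τ _
      rw [hγeq]
      fun_prop
    · intro τ hτ
      have hσ0 : 0 ≤ σ τ := by
        show 0 ≤ s0 + τ * (1 - s0)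
        have : 0 ≤ τ * (1 - s0) := mul_nonneg hτ.1 (by linarith)
        linarith
      have hσ1 : σ τ ≤ 1 := by
        show s0 + τ * (1 - s0) ≤ 1
        have : τ * (1 - s0) ≤ 1 * (1 - s0) := mul_le_mul_of_nonneg_right hτ.2 (by linarith)
        linarith
      have hx1γ : x1 (γ τ) = x1 p := by
        refine (PT_coord hf.n3 ?_).1
        rw [dot_lc hf]
        linarith [hn τ]
      rw [gg_eq_g0 k ε (hOM τ) (by rw [hx1γ]; exact hx1.1) (by rw [hx1γ]; exact hx1.2),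
        (hγd τ).deriv]
      have hsq1 : σ τ ^ 2 ≤ 1 := by nlinarith
      have hsin : σ τ ^ 2 ≤ sin (π * σ τ ^ 2 / 2) := by
        have h1 := Real.mul_le_sin (x := π * σ τ ^ 2 / 2) (by positivity) (by nlinarith)
        have h2 : 2 / π * (π * σ τ ^ 2 / 2) = σ τ ^ 2 := by
          field_simp
        rwa [h2] at h1
      have hsin0 : 0 ≤ sin (π * σ τ ^ 2 / 2) := le_trans (sq_nonneg _) hsin
      have hpi2 : π ^ 2 ≤ 10 := by
        have := Real.pi_lt_d2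
        nlinarith
      have hfac : (π * σ τ * (1 - s0)) ^ 2 ≤ 10 * σ τ ^ 2 := by
        have h1 : (1 - s0) ^ 2 ≤ 1 := by nlinarith
        have e : (π * σ τ * (1 - s0)) ^ 2 = π ^ 2 * (1 - s0) ^ 2 * σ τ ^ 2 := by ring
        rw [e]
        refine mul_le_mul_of_nonneg_right ?_ (sq_nonneg _)
        calc π ^ 2 * (1 - s0) ^ 2 ≤ 10 * 1 := mul_le_mul hpi2 h1 (sq_nonneg _) (by norm_num)
          _ = 10 := by norm_num
      have h25 : (25 : ℝ) = 5 ^ 2 := by norm_num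
      rw [← h25]
      refine D2_speed k hf (hn τ) hsin0 ?_ ?_ ?_ hgc' ?_
      · have : sg * (sg * (cos (π * σ τ ^ 2 / 2) * (sin (π * σ τ ^ 2 / 2) *
            (π * σ τ * (1 - s0))))) = cos (π * σ τ ^ 2 / 2) * (sin (π * σ τ ^ 2 / 2) *
            (π * σ τ * (1 - s0))) := by
          rw [← mul_assoc, ← sq, hsg, one_mul]
        linear_combination -this
      · rw [mul_pow]
        have h1 : cos (π * σ τ ^ 2 / 2) ^ 2 ≤ 1 := Real.cos_sq_le_one _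
        calc cos (π * σ τ ^ 2 / 2) ^ 2 * (π * σ τ * (1 - s0)) ^ 2 ≤ 1 * (10 * σ τ ^ 2) :=
              mul_le_mul h1 hfac (sq_nonneg _) (by norm_num)
          _ ≤ 10 * sin (π * σ τ ^ 2 / 2) := by linarith
      · have e : (sg * (-sin (π * σ τ ^ 2 / 2) * (π * σ τ * (1 - s0)))) ^ 2 =
            sg ^ 2 * (sin (π * σ τ ^ 2 / 2) ^ 2 * (π * σ τ * (1 - s0)) ^ 2) := by ring
        rw [e, hsg, one_mul]
        have h1 : sin (π * σ τ ^ 2 / 2) ^ 2 ≤ 1 := Real.sin_sq_le_one _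
        calc sin (π * σ τ ^ 2 / 2) ^ 2 * (π * σ τ * (1 - s0)) ^ 2 ≤ 1 * (10 * σ τ ^ 2) :=
              mul_le_mul h1 hfac (sq_nonneg _) (by norm_num)
          _ ≤ 10 := by linarith
      · rw [abs_le]
        exact ⟨by linarith [hx1.1], hx1.2.le⟩

/-- the diameter bound: `exists_rep`, `leg1`, `leg2`, `conn_pairs` -/
theorem diam_gg : ∃ D0 : ℝ, 0 < D0 ∧ ∀ k : ℕ, ∃ ε0 : ℝ, 0 < ε0 ∧ ∀ ε, 0 < ε → ε < ε0 →
    ∀ G : RMetric 7 (MK k).carrier,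
      (∀ p ∈ OM, ∀ u v : EE 7, G.inner (prj k p) (mfderiv (𝓡 7) (𝓡 7) (prj k) p u)
        (mfderiv (𝓡 7) (𝓡 7) (prj k) p v) = gg (prof k) ε k p u v) →
      ∀ a b, rdist G a b ≤ ENNReal.ofReal D0 := by
  refine ⟨18, by norm_num, fun k => ?_⟩
  obtain ⟨ε0, hε0, hleg⟩ := leg1 k
  refine ⟨min ε0 (1 / 2), lt_min hε0 (by norm_num), ?_⟩
  intro ε hε hεlt G hG a b
  have hε1 : ε < ε0 := hεlt.trans_le (min_le_left _ _)
  have hε2 : ε < 1 / 2 := hεlt.trans_le (min_le_right _ _)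
  have hsm := gg_smul k ε
  -- every point is joined to an orthonormal pair at x = 0
  have key : ∀ a : (MK k).carrier, ∃ p : EE 7, prj k p = a ∧ ∃ w s : V3, dot w w = 1 ∧
      dot s s = 1 ∧ dot w s = 0 ∧ Conn (gg (prof k) ε k) p (PT 0 0 0 w s) (5 + 1) := by
    intro a
    obtain ⟨p, hp, hpa, h1, h2, h3⟩ := exists_rep k a
    obtain ⟨q, hq, hhq, e1, e2, e3, hc1⟩ := hleg ε hε hε1 p hp h1
    obtain ⟨w, s, hw, hs, hws, hc2⟩ := leg2 k hε hε2 hq hhq (by rw [e1]; exact h1)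
      (by rw [e2]; exact h2) (by rw [e3]; exact h3)
    exact ⟨p, hpa, w, s, hw, hs, hws, hc1.trans hsm (by norm_num) (by norm_num) hc2⟩
  obtain ⟨p, hpa, w, s, hw, hs, hws, hc⟩ := key a
  obtain ⟨q, hqb, w', s', hw', hs', hws', hc'⟩ := key b
  have hmid := conn_pairs k hε hε2 hw hs hws hw' hs' hws'
  have htot := (hc.trans hsm (by norm_num) (by norm_num) hmid).trans hsm (by norm_num)
    (by norm_num) (hc'.symm hsm)
  have h := Conn.rdist hG htot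
  rw [hpa, hqb] at h
  have e : (5 + 1 + 6 + (5 + 1) : ℝ) = 18 := by norm_num
  rw [e] at h
  exact h

end H31R
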