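import Pool.Agent.Lib.H31R.D0
import Pool.Agent.Lib.H31R.C5a
import Pool.Agent.Lib.H31R.C7

/-!
# H31R, chunk D3: lower bound for the volume
-/

open scoped Manifold ContDiff Topology
open Set MeasureTheory Real Filter

namespace H31R

/-- determinants of pullbacks -/
theorem D3_det {m m' : Matrix (Fin 7) (Fin 7) ℝ} {B : EE 7 → EE 7 → ℝ}
    (hB : ∀ u v, B u v = ∑ i, ∑ j, m i j * u i * v j) (L : EE 7 →L[ℝ] EE 7)
    (hm' : ∀ i j, m' i j = B (L (ebas i)) (L (ebas j))) :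
    m'.det = m.det * L.det ^ 2 := by
  let M : Matrix (Fin 7) (Fin 7) ℝ := fun a i => (L (ebas i)) a
  have hM : ∀ a i, (L (ebas i)) a = M a i := fun _ _ => rfl
  have h1 : m' = M.transpose * m * M := by
    ext i j
    rw [hm', hB]
    simp only [Matrix.mul_apply, Matrix.transpose_apply, Finset.sum_mul, hM]
    rw [Finset.sum_comm]
    refine Finset.sum_congr rfl fun b _ => Finset.sum_congr rfl fun a _ => ?_
    ring
  have h2 : M.det = L.det := by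
    have h3 : LinearMap.toMatrix (EuclideanSpace.basisFun (Fin 7) ℝ).toBasis
        (EuclideanSpace.basisFun (Fin 7) ℝ).toBasis (L : EE 7 →ₗ[ℝ] EE 7) = M := by
      ext a i
      rw [LinearMap.toMatrix_apply]
      simp [M]
    rw [← h3, LinearMap.det_toMatrix]
  rw [h1, Matrix.det_mul, Matrix.det_mul, Matrix.det_transpose, h2]
  ring

theorem D3_good {k : ℕ} {g : EE 7 → EE 7 → EE 7 → ℝ} (hg : InvMetric k g) {p : EE 7}
    (hp : p ∈ OM) : Good g p := by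
  refine ⟨?_, ?_, fun i j => (hg.smooth i j).contDiffAt (isOpen_OM.mem_nhds hp)⟩
  · filter_upwards [isOpen_OM.mem_nhds hp] with q hq u
    exact ⟨fun x y => by rw [hg.symm q hq, hg.add_left q hq, hg.symm q hq x, hg.symm q hq y],
      fun c x => by rw [hg.symm q hq, hg.smul_left q hq, hg.symm q hq x, smul_eq_mul]⟩
  · filter_upwards [isOpen_OM.mem_nhds hp] with q hq u v
    exact hg.symm q hq u v

theorem D3_vol {k : ℕ} {g : EE 7 → EE 7 → EE 7 → ℝ} {G : RMetric 7 (MK k).carrier}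
    (hG : ∀ m, ∀ y ∈ (chartAt (EE 7) m).target, coeff G.inner m y = mtx g y)
    (m : (MK k).carrier) {A : Set (EE 7)} (hA : A ⊆ Ubox (ctr m)) (hm : MeasurableSet A) :
    ∫⁻ y in A, ENNReal.ofReal (Real.sqrt (mtx g y).det) ≤ vol G := by
  rw [← chart_target] at hA
  have h1 : ∫⁻ y in A, ENNReal.ofReal (Real.sqrt (mtx g y).det) =
      ∑ _i : Fin 1, ∫⁻ y in A, ENNReal.ofReal (Real.sqrt (coeff G.inner m y).det) := by
    rw [Fin.sum_univ_one]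
    refine setLIntegral_congr_fun hm fun y hy => ?_
    rw [hG m y (hA hy)]
  rw [h1]
  unfold vol
  refine le_iSup_of_le 1 (le_iSup_of_le (fun _ => m) (le_iSup_of_le (fun _ => A)
    (le_iSup_of_le ⟨fun _ => ⟨hm, hA⟩, ?_⟩ le_rfl)))
  intro i j hij
  exact absurd (Subsingleton.elim i j) hij

/-- change of variables for `√det` -/
theorem D3_cv {f : EE 7 → EE 7} {A : Set (EE 7)} (hm : MeasurableSet A) (hinj : InjOn f A)
    (hd : ∀ y ∈ A, DifferentiableAt ℝ f y) {m m' : EE 7 → Matrix (Fin 7) (Fin 7) ℝ}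
    (h : ∀ y ∈ A, (m' y).det = (m (f y)).det * (fderiv ℝ f y).det ^ 2) :
    MeasurableSet (f '' A) ∧ ∫⁻ y in f '' A, ENNReal.ofReal (√(m y).det) =
      ∫⁻ y in A, ENNReal.ofReal (√(m' y).det) := by
  have hder : ∀ y ∈ A, HasFDerivWithinAt f (fderiv ℝ f y) A y := fun y hy =>
    (hd y hy).hasFDerivAt.hasFDerivWithinAt
  refine ⟨measurable_image_of_fderivWithin hm hder hinj, ?_⟩
  rw [lintegral_image_eq_lintegral_abs_det_fderiv_mul volume hm hder hinj]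
  refine setLIntegral_congr_fun hm fun y hy => ?_
  rw [h y hy, ← ENNReal.ofReal_mul (abs_nonneg _), Real.sqrt_mul' _ (sq_nonneg _),
    Real.sqrt_sq_eq_abs, mul_comm]

/-- The volume is at least the volume of every box `Ubox p`, `p ∈ OM`. (`vol_ge`-like: take `n` with
`act k n p = ctr (prj k p)`; `act k n` maps `A` into `Ubox (ctr ..)` and preserves the volume of `g`:
`lintegral_image_eq_lintegral_abs_det_fderiv_mul` and `det (mtx g y) = det (mtx g (act y)) * det(D act)^2`.) -/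
theorem vol_ge_box {k : ℕ} {g : EE 7 → EE 7 → EE 7 → ℝ} (hg : InvMetric k g)
    {G : RMetric 7 (MK k).carrier}
    (hG : ∀ m, ∀ y ∈ (chartAt (EE 7) m).target, coeff G.inner m y = mtx g y) {p : EE 7}
    (hp : p ∈ OM) {A : Set (EE 7)} (hA : A ⊆ Ubox p) (hm : MeasurableSet A) :
    ∫⁻ y in A, ENNReal.ofReal (Real.sqrt (mtx g y).det) ≤ vol G := by
  obtain ⟨n, hn⟩ := exists_act_eq_ctr (k := k) hp
  have hsub : act k n '' A ⊆ Ubox (ctr (prj k p)) := by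
    rintro _ ⟨q, hq, rfl⟩
    rw [← hn]
    exact act_mem_Ubox hp (hA hq)
  have hinj : InjOn (act k n) A := by
    intro a ha b hb hab
    have h1 := act_neg_act k n (hA ha).1
    have h2 := act_neg_act k n (hA hb).1
    rw [← h1, hab, h2]
  obtain ⟨h1, h2⟩ := D3_cv (f := act k n) hm hinj
    (fun y hy => (contDiffAt_act k n (hA hy).1).differentiableAt (by simp))
    (m := mtx g) (m' := mtx g) fun y hy =>
      D3_det ((D3_good hg (act_mem k n (hA hy).1)).expand.self_of_nhds) _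
        (fun i j => (hg.inv n y (hA hy).1 _ _).symm)
  rw [← h2]
  exact D3_vol hG (prj k p) hsub h1

theorem D3_dot_left {f1 f2 f3 : V3} (h : Fr f1 f2 f3) (v : V3) :
    dot f1 (ap f1 f2 f3 v) = v 0 ∧ dot f2 (ap f1 f2 f3 v) = v 1 ∧
      dot f3 (ap f1 f2 f3 v) = v 2 := by
  have e1 : f1 = lc f1 f2 f3 1 0 0 := by simp [lc]
  have e2 : f2 = lc f1 f2 f3 0 1 0 := by simp [lc]
  have e3 : f3 = lc f1 f2 f3 0 0 1 := by simp [lc]
  unfold ap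
  refine ⟨?_, ?_, ?_⟩
  · conv_lhs => rw [show dot f1 = dot (lc f1 f2 f3 1 0 0) by rw [← e1]]
    rw [dot_lc h]
    ring
  · conv_lhs => rw [show dot f2 = dot (lc f1 f2 f3 0 1 0) by rw [← e2]]
    rw [dot_lc h]
    ring
  · conv_lhs => rw [show dot f3 = dot (lc f1 f2 f3 0 0 1) by rw [← e3]]
    rw [dot_lc h]
    ring

theorem D3_ap_inj {f1 f2 f3 : V3} (h : Fr f1 f2 f3) {u v : V3}
    (huv : ap f1 f2 f3 u = ap f1 f2 f3 v) : u = v := by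
  obtain ⟨a0, a1, a2⟩ := D3_dot_left h u
  obtain ⟨b0, b1, b2⟩ := D3_dot_left h v
  rw [huv] at a0 a1 a2
  exact C0a_ext (a0.symm.trans b0) (a1.symm.trans b1) (a2.symm.trans b2)

/-- a frame is determined by its products with a fixed frame -/
theorem D3_mul_inj {r1 r2 r3 : V3} (hr : Fr r1 r2 r3) {g1 g2 g3 g1' g2' g3' : V3}
    (h1 : ap g1 g2 g3 r1 = ap g1' g2' g3' r1) (h2 : ap g1 g2 g3 r2 = ap g1' g2' g3' r2)
    (h3 : ap g1 g2 g3 r3 = ap g1' g2' g3' r3) : g1 = g1' ∧ g2 = g2' ∧ g3 = g3' := by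
  have hrow := C4_rows hr
  have n1 := hrow.n1
  have n2 := hrow.n2
  have n3 := hrow.n3
  have o12 := hrow.o12
  have o13 := hrow.o13
  have o23 := hrow.o23
  simp only [dot, Matrix.cons_val_zero, Matrix.cons_val_one, Matrix.cons_val] at n1 n2 n3 o12 o13 o23
  have k1 : ∀ i, g1 i * r1 0 + g2 i * r1 1 + g3 i * r1 2 =
      g1' i * r1 0 + g2' i * r1 1 + g3' i * r1 2 := by
    intro i
    have := congrFun h1 i
    simp only [ap, C0a_lc] at this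
    linarith
  have k2 : ∀ i, g1 i * r2 0 + g2 i * r2 1 + g3 i * r2 2 =
      g1' i * r2 0 + g2' i * r2 1 + g3' i * r2 2 := by
    intro i
    have := congrFun h2 i
    simp only [ap, C0a_lc] at this
    linarith
  have k3 : ∀ i, g1 i * r3 0 + g2 i * r3 1 + g3 i * r3 2 =
      g1' i * r3 0 + g2' i * r3 1 + g3' i * r3 2 := by
    intro i
    have := congrFun h3 i
    simp only [ap, C0a_lc] at this
    linarith
  refine ⟨funext fun i => ?_, funext fun i => ?_, funext fun i => ?_⟩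
  · linear_combination r1 0 * k1 i + r2 0 * k2 i + r3 0 * k3 i - (g1 i - g1' i) * n1 -
      (g2 i - g2' i) * o12 - (g3 i - g3' i) * o13
  · linear_combination r1 1 * k1 i + r2 1 * k2 i + r3 1 * k3 i - (g1 i - g1' i) * o12 -
      (g2 i - g2' i) * n2 - (g3 i - g3' i) * o23
  · linear_combination r1 2 * k1 i + r2 2 * k2 i + r3 2 * k3 i - (g1 i - g1' i) * o13 -
      (g2 i - g2' i) * o23 - (g3 i - g3' i) * n3

/-- the quaternion is determined by the rotation -/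
theorem D3_q_inj {b c d b' c' d' : ℝ} (h1 : qc1 b c d = qc1 b' c' d')
    (h2 : qc2 b c d = qc2 b' c' d') (h3 : qc3 b c d = qc3 b' c' d') :
    b = b' ∧ c = c' ∧ d = d' := by
  have hN : 0 < 1 + b ^ 2 + c ^ 2 + d ^ 2 := by positivity
  have hN' : 0 < 1 + b' ^ 2 + c' ^ 2 + d' ^ 2 := by positivity
  have e00 := congrFun h1 0
  have e11 := congrFun h2 1
  have e22 := congrFun h3 2
  have e01 := congrFun h1 1
  have e10 := congrFun h2 0
  have e02 := congrFun h1 2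
  have e20 := congrFun h3 0
  have e12 := congrFun h2 2
  have e21 := congrFun h3 1
  simp only [qc1, qc2, qc3, Pi.smul_apply, smul_eq_mul, Matrix.cons_val_zero, Matrix.cons_val_one,
    Matrix.cons_val] at e00 e11 e22 e01 e10 e02 e20 e12 e21
  set N := 1 + b ^ 2 + c ^ 2 + d ^ 2 with hNd
  set N' := 1 + b' ^ 2 + c' ^ 2 + d' ^ 2 with hNd'
  have hu : 1 / N * N = 1 := by field_simp
  have hu' : 1 / N' * N' = 1 := by field_simp
  have tr : 1 / N * 4 = 1 / N' * 4 := by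
    have s1 : 1 / N * (1 + b ^ 2 - c ^ 2 - d ^ 2) + 1 / N * (1 - b ^ 2 + c ^ 2 - d ^ 2) +
        1 / N * (1 - b ^ 2 - c ^ 2 + d ^ 2) + 1 = 1 / N * 4 := by
      linear_combination (-1) * hu + (1 / N) * hNd
    have s2 : 1 / N' * (1 + b' ^ 2 - c' ^ 2 - d' ^ 2) + 1 / N' * (1 - b' ^ 2 + c' ^ 2 - d' ^ 2) +
        1 / N' * (1 - b' ^ 2 - c' ^ 2 + d' ^ 2) + 1 = 1 / N' * 4 := by
      linear_combination (-1) * hu' + (1 / N') * hNd'
    rw [← s1, ← s2, e00, e11, e22]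
  have hNN : 1 / N = 1 / N' := by linarith
  have hpos : (0 : ℝ) < 1 / N := by positivity
  rw [← hNN] at e01 e10 e02 e20 e12 e21
  have z1 := mul_left_cancel₀ hpos.ne' e01
  have z2 := mul_left_cancel₀ hpos.ne' e10
  have z3 := mul_left_cancel₀ hpos.ne' e02
  have z4 := mul_left_cancel₀ hpos.ne' e20
  have z5 := mul_left_cancel₀ hpos.ne' e12
  have z6 := mul_left_cancel₀ hpos.ne' e21
  refine ⟨by linarith, by linarith, by linarith⟩

/-- The standard chart is injective: `CH ξ` determines `ξ 0, ξ 1, ξ 2` (the `x_i`), `ξ 3 = h`, the frame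
`f3 = w`, `f1 = l / |l|`, `f2`, hence (multiplying by the inverse of `R(X)` and of `E`) the matrix with columns
`qc1, qc2, qc3`, hence `q` (e.g. from the entries: `(qc1)_0 + (qc2)_1 + (qc3)_2 + 1 = 4/(1+|q|^2)` and the
antisymmetric part is `4 q/(1+|q|^2)`). -/
theorem CH_inj (k : ℕ) {e1 e2 e3 : V3} (he : Fr e1 e2 e3) :
    InjOn (CH k e1 e2 e3) {ξ : EE 7 | ξ 3 ^ 2 < 1} := by
  intro ξ hξ ξ' hξ' hEq
  have hfr := (C4_RF k he ξ).fr
  have hfr' := (C4_RF k he ξ').fr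
  have ht0 := C4_t_pos hξ
  have ht0' := C4_t_pos hξ'
  have ht1 : √(1 - ξ 3 ^ 2) ^ 2 = 1 - ξ 3 ^ 2 := Real.sq_sqrt (by
    have : ξ 3 ^ 2 < 1 := hξ
    linarith)
  have ht1' : √(1 - ξ' 3 ^ 2) ^ 2 = 1 - ξ' 3 ^ 2 := Real.sq_sqrt (by
    have : ξ' 3 ^ 2 < 1 := hξ'
    linarith)
  have hs : dot (lc (C4f1 k e1 e2 e3 ξ) (C4f2 k e1 e2 e3 ξ) (C4f3 k e1 e2 e3 ξ)
      (√(1 - ξ 3 ^ 2)) 0 (ξ 3)) (lc (C4f1 k e1 e2 e3 ξ) (C4f2 k e1 e2 e3 ξ)
      (C4f3 k e1 e2 e3 ξ) (√(1 - ξ 3 ^ 2)) 0 (ξ 3)) = 1 := by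
    rw [dot_lc hfr]
    linarith
  have hs' : dot (lc (C4f1 k e1 e2 e3 ξ') (C4f2 k e1 e2 e3 ξ') (C4f3 k e1 e2 e3 ξ')
      (√(1 - ξ' 3 ^ 2)) 0 (ξ' 3)) (lc (C4f1 k e1 e2 e3 ξ') (C4f2 k e1 e2 e3 ξ')
      (C4f3 k e1 e2 e3 ξ') (√(1 - ξ' 3 ^ 2)) 0 (ξ' 3)) = 1 := by
    rw [dot_lc hfr']
    linarith
  obtain ⟨a0, a1, a2, a3, a4⟩ := PT_coord (a := ξ 0) (b := ξ 1) (c := ξ 2) hfr.n3 hs
  obtain ⟨b0, b1, b2, b3, b4⟩ := PT_coord (a := ξ' 0) (b := ξ' 1) (c := ξ' 2) hfr'.n3 hs'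
  have hP : PT (ξ 0) (ξ 1) (ξ 2) (C4f3 k e1 e2 e3 ξ) (lc (C4f1 k e1 e2 e3 ξ)
      (C4f2 k e1 e2 e3 ξ) (C4f3 k e1 e2 e3 ξ) (√(1 - ξ 3 ^ 2)) 0 (ξ 3)) =
      PT (ξ' 0) (ξ' 1) (ξ' 2) (C4f3 k e1 e2 e3 ξ') (lc (C4f1 k e1 e2 e3 ξ')
      (C4f2 k e1 e2 e3 ξ') (C4f3 k e1 e2 e3 ξ') (√(1 - ξ' 3 ^ 2)) 0 (ξ' 3)) := hEq
  rw [hP] at a0 a1 a2 a3 a4
  have z0 : ξ 0 = ξ' 0 := a0.symm.trans b0
  have z1 : ξ 1 = ξ' 1 := a1.symm.trans b1
  have z2 : ξ 2 = ξ' 2 := a2.symm.trans b2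
  have z3 : ξ 3 = ξ' 3 := by
    have h1 := (CH_coord k he hξ).2.1
    have h2 := (CH_coord k he hξ').2.1
    rw [hEq] at h1
    exact h1.symm.trans h2
  have f3e : C4f3 k e1 e2 e3 ξ = C4f3 k e1 e2 e3 ξ' := a3.symm.trans b3
  have hse := a4.symm.trans b4
  have f1e : C4f1 k e1 e2 e3 ξ = C4f1 k e1 e2 e3 ξ' := by
    rw [f3e, z3] at hse
    unfold lc at hse
    rw [z3] at ht0
    simp only [zero_smul, add_zero] at hse
    have h1 := add_right_cancel hse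
    have h2 := congrArg (fun v => (√(1 - ξ' 3 ^ 2))⁻¹ • v) h1
    simp only [smul_smul, inv_mul_cancel₀ ht0.ne', one_smul] at h2
    exact h2
  have f2e : C4f2 k e1 e2 e3 ξ = C4f2 k e1 e2 e3 ξ' := by
    rw [← hfr.c31, ← hfr'.c31, f3e, f1e]
  have hR := C4_RFr k ξ'
  unfold C4f1 at f1e
  unfold C4f2 at f2e
  unfold C4f3 at f3e
  rw [z0, z1] at f1e f2e f3e
  obtain ⟨g1, g2, g3⟩ := D3_mul_inj hR f1e f2e f3e
  obtain ⟨q1, q2, q3⟩ := D3_q_inj (D3_ap_inj he g1) (D3_ap_inj he g2) (D3_ap_inj he g3)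
  ext i
  fin_cases i
  · exact z0
  · exact z1
  · exact z2
  · exact z3
  · exact q1
  · exact q2
  · exact q3

/-- `gstd` is the pullback of `go` (`CH_go`), in terms of determinants -/
theorem gstd_det_eq (k : ℕ) {e1 e2 e3 : V3} (he : Fr e1 e2 e3) {ξ : EE 7} (hξ : ξ 3 ^ 2 < 1) :
    (mtx gstd ξ).det = (mtx (go (prof k)) (CH k e1 e2 e3 ξ)).det *
      (fderiv ℝ (CH k e1 e2 e3) ξ).det ^ 2 := by
  obtain ⟨h1, h2, -, h3⟩ := CH_coord k he hξ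
  have hl : 0 < dot (lv (CH k e1 e2 e3 ξ)) (lv (CH k e1 e2 e3 ξ)) := Real.sqrt_pos.1 h3
  exact D3_det ((go_good k h1 hl).expand.self_of_nhds) _ fun i j => (CH_go k he hξ _ _).symm

theorem D3_std : Fr ![1, 0, 0] ![0, 1, 0] ![0, 0, 1] := by
  constructor <;> simp [dot, crs]

theorem D3_coord (k : ℕ) {e1 e2 e3 : V3} (he : Fr e1 e2 e3) {ξ : EE 7} (hξ : ξ 3 ^ 2 < 1) :
    x2 (CH k e1 e2 e3 ξ) = ξ 1 ∧ x3 (CH k e1 e2 e3 ξ) = ξ 2 ∧
      dot (lv (CH k e1 e2 e3 ξ)) (lv (CH k e1 e2 e3 ξ)) = 1 - ξ 3 ^ 2 := by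
  have hRF := C4_RF k he ξ
  have ht1 : √(1 - ξ 3 ^ 2) ^ 2 = 1 - ξ 3 ^ 2 := Real.sq_sqrt (by linarith)
  have hfr := hRF.fr
  have hs : dot (lc (C4f1 k e1 e2 e3 ξ) (C4f2 k e1 e2 e3 ξ) (C4f3 k e1 e2 e3 ξ)
      (√(1 - ξ 3 ^ 2)) 0 (ξ 3)) (lc (C4f1 k e1 e2 e3 ξ) (C4f2 k e1 e2 e3 ξ)
      (C4f3 k e1 e2 e3 ξ) (√(1 - ξ 3 ^ 2)) 0 (ξ 3)) = 1 := by
    rw [dot_lc hfr]
    linarith
  obtain ⟨-, a1, a2, -, -⟩ := PT_coord (a := ξ 0) (b := ξ 1) (c := ξ 2) hfr.n3 hs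
  obtain ⟨h1, h2, -, h3, h4, -⟩ := frame_ingr hRF.fr (X1 := ξ 0) (X2 := ξ 1) (X3 := ξ 2)
    (l1 := √(1 - ξ 3 ^ 2)) (l2 := 0) (h := ξ 3) (by rw [ht1]; ring) 0 0 0 0 0 0 0 0 0 (by ring)
  refine ⟨a1, a2, ?_⟩
  have h5 : lv (CH k e1 e2 e3 ξ) = lc (C4f1 k e1 e2 e3 ξ) (C4f2 k e1 e2 e3 ξ)
    (C4f3 k e1 e2 e3 ξ) (√(1 - ξ 3 ^ 2)) 0 0 := h4
  rw [h5, dot_lc hfr]
  linarith

/-- the box -/
def D3B : Set (EE 7) := {ξ | (|ξ 0| < 1 / 2 ∧ |ξ 1| < 1 / 2) ∧ (|ξ 2| < 1 / 2 ∧ |ξ 3| < 1 / 4)}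

theorem D3_open : IsOpen D3B := by
  have hc : ∀ i : Fin 7, Continuous fun ξ : EE 7 => |ξ i| := fun i =>
    ((EuclideanSpace.proj i : EE 7 →L[ℝ] ℝ).continuous).abs
  exact (((isOpen_lt (hc 0) continuous_const).inter (isOpen_lt (hc 1) continuous_const)).inter
    ((isOpen_lt (hc 2) continuous_const).inter (isOpen_lt (hc 3) continuous_const)))

theorem D3_zero : mtx gstd 0 = 1 := by
  have e : ∀ u v : EE 7, gstd 0 u v = u 0 * v 0 + u 1 * v 1 + u 2 * v 2 + u 3 * v 3 + u 4 * v 4 +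
      u 5 * v 5 + u 6 * v 6 := by
    intro u v
    have hpsi : psi 0 = 1 := by
      unfold psi
      exact Real.smoothTransition.one_of_one_le (by norm_num)
    have z : ∀ i : Fin 7, (0 : EE 7) i = 0 := fun _ => rfl
    unfold gstd qo1 qo2 qo3 qn
    simp only [z]
    rw [hpsi]
    norm_num
    ring
  ext i j
  unfold mtx
  rw [e]
  fin_cases i <;> fin_cases j <;> simp [ebas]

theorem D3_pos : 0 < ∫⁻ ξ in D3B, ENNReal.ofReal (√(mtx gstd ξ).det) := by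
  have hc : ContinuousAt (fun ξ => (mtx gstd ξ).det) 0 :=
    (N_det_at (n := ∞) fun i j => gstd_smooth (ξ := 0) (by
      show (0 : ℝ) ^ 2 < 1
      norm_num) i j).continuousAt
  have h1 : ∀ᶠ ξ in 𝓝 (0 : EE 7), 1 / 2 < (mtx gstd ξ).det := by
    refine hc.eventually_const_lt ?_
    show 1 / 2 < (mtx gstd 0).det
    rw [D3_zero, Matrix.det_one]
    norm_num
  have h0 : (0 : EE 7) ∈ D3B := by
    have z : ∀ i : Fin 7, (0 : EE 7) i = 0 := fun _ => rfl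
    unfold D3B
    simp only [mem_ofPred_eq, z]
    norm_num
  obtain ⟨r, hr, hsub⟩ := Metric.mem_nhds_iff.1 (Filter.inter_mem h1 (D3_open.mem_nhds h0))
  have h2 : ∫⁻ _ξ in Metric.ball (0 : EE 7) r, ENNReal.ofReal (√(1 / 2)) ≤
      ∫⁻ ξ in D3B, ENNReal.ofReal (√(mtx gstd ξ).det) := by
    refine (setLIntegral_mono' Metric.isOpen_ball.measurableSet fun ξ hξ => ?_).trans
      (lintegral_mono_set fun ξ hξ => (hsub hξ).2)
    exact ENNReal.ofReal_le_ofReal (Real.sqrt_le_sqrt (le_of_lt (hsub hξ).1))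
  refine lt_of_lt_of_le ?_ h2
  rw [setLIntegral_const]
  refine ENNReal.mul_pos ?_ (Metric.measure_ball_pos volume _ hr).ne'
  rw [Ne, ENNReal.ofReal_eq_zero, not_le]
  positivity

theorem D3_gg_eq (k : ℕ) {ε : ℝ} (hε : 0 < ε) (hε2 : ε < 1 / 2) {p : EE 7} (hp : p ∈ OM)
    (h1 : |x1 p| < 1 / 2) (hl : 15 / 16 ≤ dot (lv p) (lv p)) :
    mtx (gg (prof k) ε k) p = mtx (go (prof k)) p := by
  rw [abs_lt] at h1
  have hchi : chi (dot (lv p) (lv p) / ε ^ 2) = 0 := by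
    unfold chi
    refine Real.smoothTransition.zero_of_nonpos ?_
    have h2 : ε ^ 2 < 1 / 4 := by nlinarith
    have h3 : 1 ≤ dot (lv p) (lv p) / ε ^ 2 := by
      rw [le_div_iff₀ (by positivity)]
      linarith
    linarith
  ext i j
  show gg (prof k) ε k p (ebas i) (ebas j) = go (prof k) p (ebas i) (ebas j)
  rw [gg_eq_g0 k ε hp h1.1.le h1.2]
  unfold g0
  rw [hchi]
  ring

/-- The volume bound. Take the standard basis `e1, e2, e3`, `p = CH k e1 e2 e3 0`, the box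
`B = {|ξ 0|, |ξ 1|, |ξ 2| < 1/2, |ξ 3| < 1/4, |ξ 4|, |ξ 5|, |ξ 6| < 1}` and `A = CH '' B ⊆ Ubox p`. On `A` the metric `gg`
is `g0` (`gg_eq_g0`) and `g0 = go` (`|l|^2 ≥ 15/16 ≥ ε^2`: `chi = 0`), so by the change of variables
`∫_A √det (mtx gg) = ∫_B √det (mtx gstd) =: v0 > 0`, a number which does not depend on `k`, `ε`. (If the integral is
infinite take `v0 = 1`.) -/
theorem vol_gg : ∃ v0 : ℝ, 0 < v0 ∧ ∀ (k : ℕ) (ε : ℝ), 0 < ε → ε < 1 / 2 →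
    InvMetric k (gg (prof k) ε k) → ∀ G : RMetric 7 (MK k).carrier,
      (∀ m, ∀ y ∈ (chartAt (EE 7) m).target,
        coeff G.inner m y = mtx (gg (prof k) ε k) y) →
      ENNReal.ofReal v0 ≤ vol G := by
  obtain ⟨v0, h0, hv⟩ : ∃ v0 : ℝ, 0 < v0 ∧ ENNReal.ofReal v0 ≤
      ∫⁻ ξ in D3B, ENNReal.ofReal (√(mtx gstd ξ).det) := by
    obtain ⟨r, hr0, hr⟩ := ENNReal.lt_iff_exists_nnreal_btwn.1 D3_pos
    refine ⟨r, by exact_mod_cast hr0, ?_⟩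
    rw [ENNReal.ofReal_coe_nnreal]
    exact hr.le
  refine ⟨v0, h0, fun k ε hε hε2 hg G hG => hv.trans ?_⟩
  have hsq : ∀ ξ ∈ D3B, ξ 3 ^ 2 < 1 / 16 := by
    intro ξ hξ
    have h1 := hξ.2.2
    have h2 : ξ 3 ^ 2 = |ξ 3| ^ 2 := (sq_abs _).symm
    rw [h2]
    have h3 := abs_nonneg (ξ 3)
    nlinarith
  have hB : ∀ ξ ∈ D3B, ξ 3 ^ 2 < 1 := fun ξ hξ => (hsq ξ hξ).trans (by norm_num)
  obtain ⟨h1, h2⟩ := D3_cv (f := CH k ![1, 0, 0] ![0, 1, 0] ![0, 0, 1]) (A := D3B)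
    D3_open.measurableSet ((CH_inj k D3_std).mono fun ξ hξ => hB ξ hξ)
    (fun ξ hξ => (CH_smooth k _ _ _ (hB ξ hξ)).differentiableAt (by simp))
    (m := mtx (gg (prof k) ε k)) (m' := mtx gstd) fun ξ hξ => by
      obtain ⟨a1, -, a3, -⟩ := CH_coord k D3_std (hB ξ hξ)
      obtain ⟨-, -, a4⟩ := D3_coord k D3_std (hB ξ hξ)
      rw [D3_gg_eq k hε hε2 a1 (by rw [a3]; exact hξ.1.1) (by
        rw [a4]
        have := hsq ξ hξ
        linarith)]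
      exact gstd_det_eq k D3_std (hB ξ hξ)
  rw [← h2]
  have z : ∀ i : Fin 7, (0 : EE 7) i = 0 := fun _ => rfl
  have h00 : (0 : EE 7) 3 ^ 2 < 1 := by
    rw [z]
    norm_num
  obtain ⟨b1, -, b3, -⟩ := CH_coord k D3_std h00
  obtain ⟨b4, b5, -⟩ := D3_coord k D3_std h00
  refine vol_ge_box hg hG b1 ?_ h1
  rintro _ ⟨ξ, hξ, rfl⟩
  obtain ⟨a1, -, a3, -⟩ := CH_coord k D3_std (hB ξ hξ)
  obtain ⟨a4, a5, -⟩ := D3_coord k D3_std (hB ξ hξ)
  refine ⟨a1, ?_, ?_, ?_⟩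
  · rw [a3, b3, z, sub_zero]
    exact hξ.1.1
  · rw [a4, b4, z, sub_zero]
    exact hξ.1.2
  · rw [a5, b5, z, sub_zero]
    exact hξ.2.1

end H31R
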