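import Pool.Agent.Lib.H31R.Stat

/-!
# H31R: definitions (the open set `OM` of `R^7`, the group action, the metric)
See `PROOF.md`.
-/

open scoped ContDiff
open Real

namespace H31R

/-- vectors of `R^3` -/
abbrev V3 := Fin 3 → ℝ

/-- scalar product -/
def dot (u v : V3) : ℝ := u 0 * v 0 + u 1 * v 1 + u 2 * v 2

/-- vector product -/
def crs (u v : V3) : V3 :=
  ![u 1 * v 2 - u 2 * v 1, u 2 * v 0 - u 0 * v 2, u 0 * v 1 - u 1 * v 0]

/-- Euclidean norm -/
noncomputable def nr (u : V3) : ℝ := √(dot u u)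

/-- determinant -/
def det3 (u v w : V3) : ℝ := dot u (crs v w)

/-- the `y`-part of a point (or tangent vector) -/
def yv (p : EE 7) : V3 := ![p 1, p 2, p 3]

/-- the `z`-part -/
def zv (p : EE 7) : V3 := ![p 4, p 5, p 6]

/-- the open set `y ≠ 0, z ≠ 0` -/
def OM : Set (EE 7) := {p | yv p ≠ 0 ∧ zv p ≠ 0}

/-- the point with parts `a`, `y`, `z` -/
noncomputable def mk7 (a : ℝ) (y z : V3) : EE 7 := !₂[a, y 0, y 1, y 2, z 0, z 1, z 2]

noncomputable def x1 (p : EE 7) : ℝ := Real.log (nr (yv p))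
noncomputable def x2 (p : EE 7) : ℝ := Real.log (nr (zv p))
/-- `x3` -/
noncomputable def x3 (p : EE 7) : ℝ := p 0
noncomputable def wv (p : EE 7) : V3 := (nr (yv p))⁻¹ • yv p
noncomputable def sv (p : EE 7) : V3 := (nr (zv p))⁻¹ • zv p
noncomputable def hh (p : EE 7) : ℝ := dot (wv p) (sv p)
/-- `l = s - h w` -/
noncomputable def lv (p : EE 7) : V3 := sv p - hh p • wv p
/-- `w × s = w × l` -/
noncomputable def Jl (p : EE 7) : V3 := crs (wv p) (sv p)

/-- the point with given `x1, x2, x3, w, s` -/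
noncomputable def PT (a b c : ℝ) (w s : V3) : EE 7 := mk7 c (exp a • w) (exp b • s)

/-- differential of `x1` -/
noncomputable def xi1 (p u : EE 7) : ℝ := dot (yv p) (yv u) / dot (yv p) (yv p)
/-- differential of `x2` -/
noncomputable def xi2 (p u : EE 7) : ℝ := dot (zv p) (zv u) / dot (zv p) (zv p)
/-- differential of `x3` -/
noncomputable def xi3 (_p u : EE 7) : ℝ := u 0
/-- differential of `w` -/
noncomputable def dw (p u : EE 7) : V3 := (nr (yv p))⁻¹ • yv u - xi1 p u • wv p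
/-- differential of `s` -/
noncomputable def ds (p u : EE 7) : V3 := (nr (zv p))⁻¹ • zv u - xi2 p u • sv p
/-- differential of `h` -/
noncomputable def dh (p u : EE 7) : ℝ := dot (dw p u) (sv p) + dot (wv p) (ds p u)
/-- covariant differential of `l` -/
noncomputable def Dl (p u : EE 7) : V3 :=
  ds p u - dot (wv p) (ds p u) • wv p - hh p • dw p u

/-- rotation about the unit vector `w` by the angle `φ` -/
noncomputable def rot (w : V3) (φ : ℝ) (v : V3) : V3 :=
  cos φ • v + sin φ • crs w v + ((1 - cos φ) * dot w v) • w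

/-- the action of `(n1, n2, n3) ∈ Z^3` -/
noncomputable def act (k : ℕ) (n : ℤ × ℤ × ℤ) (p : EE 7) : EE 7 :=
  mk7 (p 0 + n.2.2) (exp n.1 • yv p)
    (exp n.2.1 • rot (wv p) (4 * π * k * n.1 * x2 p) (zv p))

/-- the functions of one variable which enter the metric -/
structure Prof where
  a : ℝ → ℝ
  b1 : ℝ → ℝ
  b2 : ℝ → ℝ
  b3 : ℝ → ℝ

/-- cut-off function: `1` for `r ≤ 1/4`, `0` for `r ≥ 1` -/
noncomputable def chi (r : ℝ) : ℝ := Real.smoothTransition ((4 / 3) * (1 - r))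

/-- bump function: `0` for `|h| ≥ 1/2`, `1` at `0` -/
noncomputable def psi (h : ℝ) : ℝ := Real.smoothTransition (1 - 4 * h ^ 2)

section metric

variable (P : Prof) (ε : ℝ)

/-- `A(u)` -/
noncomputable def Av (p u : EE 7) : V3 := Dl p u - (2 * P.b3 (x1 p) * xi2 p u) • Jl p

/-- `B(u)`, with a parameter `R` -/
noncomputable def Bv (R : ℝ) (p u : EE 7) : V3 :=
  (1 / 2 : ℝ) • crs (wv p) (dw p u) -
    (1 / R) • ((P.b1 (x1 p) * xi2 p u) • lv p + (P.b2 (x1 p) * xi1 p u) • Jl p)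

/-- the symmetric bilinear form of the core metric, as a function of the numbers `a`, `a'`,
`b1`, `b2`, `R`, the vectors `w`, `l`, `J = w × l`, and for two tangent vectors (`u`, `v`) the numbers
`xi` and the vectors `A`, `B` -/
noncomputable def gcore (a a' b1 b2 R : ℝ) (w l J : V3) (xu1 xu2 xu3 : ℝ) (Au Bu : V3)
    (xv1 xv2 xv3 : ℝ) (Av Bv : V3) : ℝ :=
  let Z11 := (2 * a * b2) ^ 2
  let Z22 := (2 * a * b1) ^ 2
  let Z33 := a' ^ 2
  let Z13 := 2 * a * b2 * a'
  let τ := Z11 + Z22 + Z33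
  let kap := (1 / 8) * (1 / R - 2 * a / R ^ 2)
  let T := 1 / (8 * R * (R + a) ^ 2)
  let P := 1 - τ / (24 * R) - (Z33 - τ / 3) * kap
  let Q := 1 - τ / (24 * R) + (Z33 - τ / 3) * kap
  xu1 * xv1 * (1 + (Z11 + Z33) / (4 * R)) + xu2 * xv2 * (1 + Z22 / (4 * R)) + xu3 * xv3
    + P * dot Au Av / (4 * R) + Q * R * dot Bu Bv
    - T * ((Z11 + Z22 - 2 * τ / 3) * (dot l Au * dot l Av - dot J Au * dot J Av) / (4 * R)
      + (Z11 - Z22) * R * (dot l Bu * dot l Bv - dot J Bu * dot J Bv)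
      + Z13 / 2 * (dot l Au * dot J Bv + dot J Au * dot l Bv
        + dot l Av * dot J Bu + dot J Av * dot l Bu))
    + kap * Z13 / 2 * (dot (crs w Au) Bv + dot (crs w Av) Bu)

/-- `R = sqrt (a^2 + |l|^2)` -/
noncomputable def RR (p : EE 7) : ℝ := √((ε ^ 3 * P.a (x1 p)) ^ 2 + dot (lv p) (lv p))

/-- core metric -/
noncomputable def gc (p u v : EE 7) : ℝ :=
  gcore (ε ^ 3 * P.a (x1 p)) (ε ^ 3 * deriv P.a (x1 p)) (P.b1 (x1 p)) (P.b2 (x1 p)) (RR P ε p)
    (wv p) (lv p) (Jl p)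
    (xi1 p u) (xi2 p u) (xi3 p u) (Av P p u) (Bv P (RR P ε p) p u)
    (xi1 p v) (xi2 p v) (xi3 p v) (Av P p v) (Bv P (RR P ε p) p v)

/-- outer metric -/
noncomputable def go (p u v : EE 7) : ℝ :=
  xi1 p u * xi1 p v + xi2 p u * xi2 p v + xi3 p u * xi3 p v
    + dot (Av P p u) (Av P p v) / (4 * nr (lv p))
    + nr (lv p) * dot (Bv P (nr (lv p)) p u) (Bv P (nr (lv p)) p v)
    + psi (hh p) * dh p u * dh p v

/-- slab metric -/
noncomputable def g0 (p u v : EE 7) : ℝ :=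
  chi (dot (lv p) (lv p) / ε ^ 2) * gc P ε p u v
    + (1 - chi (dot (lv p) (lv p) / ε ^ 2)) * go P p u v

/-- number of the slab of `p` -/
noncomputable def slab (p : EE 7) : ℤ := ⌊x1 p + 1 / 2⌋

/-- the metric on `OM`, invariant under the action with parameter `k` -/
noncomputable def gg (k : ℕ) (p u v : EE 7) : ℝ :=
  g0 P ε (act k (-slab p, 0, 0) p) (fderiv ℝ (act k (-slab p, 0, 0)) p u)
    (fderiv ℝ (act k (-slab p, 0, 0)) p v)

end metric

/-- the matrix of a bilinear form in the standard basis -/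
noncomputable def mtx {d : ℕ} (g : EE d → EE d → EE d → ℝ) (p : EE d) :
    Matrix (Fin d) (Fin d) ℝ := fun i j => g p (ebas i) (ebas j)

/-! ## one variable functions -/

/-- `U` -/
noncomputable def Uf (x : ℝ) : ℝ :=
  x * Real.smoothTransition ((64 / 3) * (1 / 16 - x ^ 2)) +
    (1 - Real.smoothTransition ((64 / 3) * (1 / 16 - x ^ 2))) * (SignType.sign x : ℝ) / 4

/-- cut-off: `1` for `|x| ≤ 1/16`, `0` for `|x| ≥ 1/8` -/
noncomputable def chi0 (x : ℝ) : ℝ := Real.smoothTransition ((256 / 3) * (1 / 64 - x ^ 2))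

/-- `K = 2 π k` -/
noncomputable def KK (k : ℕ) : ℝ := 2 * π * k

/-- `v` -/
noncomputable def vf (k : ℕ) (x : ℝ) : ℝ :=
  exp (-KK k) / (1 + KK k) ^ 2 * chi0 x * cosh (KK k * x)

/-- `au` -/
noncomputable def auf (k : ℕ) (x : ℝ) : ℝ := √(Uf x ^ 2 + vf k x ^ 2)

/-- the profile functions -/
noncomputable def prof (k : ℕ) : Prof where
  a := auf k
  b1 x := -(KK k / 2) * vf k x / auf k x
  b2 x := (deriv (vf k) x * Uf x - vf k x * deriv Uf x) / (2 * auf k x ^ 2)
  b3 x := KK k / 2 * Uf x / auf k x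

end H31R
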