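import Pool.Agent.Lib.H31R.Stat

/-!
# H31R, chunk F0: truncated polynomials `c0 + c1 λ + c2 λ^2` modulo `λ^3`, and functions of `λ` which
are given by them up to `O(λ^3)`
-/

open scoped ContDiff Topology
open Real Filter Asymptotics

namespace H31R

/-- `c0 + c1 λ + c2 λ^2` modulo `λ^3` -/
@[ext] structure T3 where
  c0 : ℝ
  c1 : ℝ
  c2 : ℝ

namespace T3

instance : Zero T3 := ⟨⟨0, 0, 0⟩⟩
instance : One T3 := ⟨⟨1, 0, 0⟩⟩
instance : Add T3 := ⟨fun a b => ⟨a.c0 + b.c0, a.c1 + b.c1, a.c2 + b.c2⟩⟩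
instance : Neg T3 := ⟨fun a => ⟨-a.c0, -a.c1, -a.c2⟩⟩
instance : Sub T3 := ⟨fun a b => ⟨a.c0 - b.c0, a.c1 - b.c1, a.c2 - b.c2⟩⟩
instance : Mul T3 := ⟨fun a b => ⟨a.c0 * b.c0, a.c0 * b.c1 + a.c1 * b.c0,
  a.c0 * b.c2 + a.c1 * b.c1 + a.c2 * b.c0⟩⟩
instance : SMul ℝ T3 := ⟨fun r a => ⟨r * a.c0, r * a.c1, r * a.c2⟩⟩

@[simp] theorem zero_c0 : (0 : T3).c0 = 0 := rfl
@[simp] theorem zero_c1 : (0 : T3).c1 = 0 := rfl
@[simp] theorem zero_c2 : (0 : T3).c2 = 0 := rfl
@[simp] theorem one_c0 : (1 : T3).c0 = 1 := rfl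
@[simp] theorem one_c1 : (1 : T3).c1 = 0 := rfl
@[simp] theorem one_c2 : (1 : T3).c2 = 0 := rfl
@[simp] theorem add_c0 (a b : T3) : (a + b).c0 = a.c0 + b.c0 := rfl
@[simp] theorem add_c1 (a b : T3) : (a + b).c1 = a.c1 + b.c1 := rfl
@[simp] theorem add_c2 (a b : T3) : (a + b).c2 = a.c2 + b.c2 := rfl
@[simp] theorem neg_c0 (a : T3) : (-a).c0 = -a.c0 := rfl
@[simp] theorem neg_c1 (a : T3) : (-a).c1 = -a.c1 := rfl
@[simp] theorem neg_c2 (a : T3) : (-a).c2 = -a.c2 := rfl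
@[simp] theorem sub_c0 (a b : T3) : (a - b).c0 = a.c0 - b.c0 := rfl
@[simp] theorem sub_c1 (a b : T3) : (a - b).c1 = a.c1 - b.c1 := rfl
@[simp] theorem sub_c2 (a b : T3) : (a - b).c2 = a.c2 - b.c2 := rfl
@[simp] theorem mul_c0 (a b : T3) : (a * b).c0 = a.c0 * b.c0 := rfl
@[simp] theorem mul_c1 (a b : T3) : (a * b).c1 = a.c0 * b.c1 + a.c1 * b.c0 := rfl
@[simp] theorem mul_c2 (a b : T3) :
    (a * b).c2 = a.c0 * b.c2 + a.c1 * b.c1 + a.c2 * b.c0 := rfl
@[simp] theorem smul_c0 (r : ℝ) (a : T3) : (r • a).c0 = r * a.c0 := rfl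
@[simp] theorem smul_c1 (r : ℝ) (a : T3) : (r • a).c1 = r * a.c1 := rfl
@[simp] theorem smul_c2 (r : ℝ) (a : T3) : (r • a).c2 = r * a.c2 := rfl

instance : CommRing T3 where
  add_assoc a b c := by ext <;> simp <;> ring
  zero_add a := by ext <;> simp
  add_zero a := by ext <;> simp
  add_comm a b := by ext <;> simp <;> ring
  neg_add_cancel a := by ext <;> simp
  sub_eq_add_neg a b := by ext <;> simp <;> ring
  mul_assoc a b c := by ext <;> simp <;> ring
  one_mul a := by ext <;> simp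
  mul_one a := by ext <;> simp
  mul_comm a b := by ext <;> simp <;> ring
  left_distrib a b c := by ext <;> simp <;> ring
  right_distrib a b c := by ext <;> simp <;> ring
  zero_mul a := by ext <;> simp
  mul_zero a := by ext <;> simp
  nsmul := nsmulRec
  zsmul := zsmulRec

/-- constants -/
def C (r : ℝ) : T3 := ⟨r, 0, 0⟩

@[simp] theorem C_c0 (r : ℝ) : (C r).c0 = r := rfl
@[simp] theorem C_c1 (r : ℝ) : (C r).c1 = 0 := rfl
@[simp] theorem C_c2 (r : ℝ) : (C r).c2 = 0 := rfl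

end T3

/-- `f λ = c0 + c1 λ + c2 λ^2 + O(λ^3)` -/
def App (f : ℝ → ℝ) (c : T3) : Prop :=
  (fun l : ℝ => f l - (c.c0 + c.c1 * l + c.c2 * l ^ 2)) =O[𝓝 0] (fun l : ℝ => l ^ 3)

theorem App.congr {f g : ℝ → ℝ} {c : T3} (h : App f c) (e : f =ᶠ[𝓝 0] g) : App g c := by
  refine IsBigO.congr' h ?_ EventuallyEq.rfl
  filter_upwards [e] with l hl
  rw [hl]

theorem App.const (r : ℝ) : App (fun _ => r) (T3.C r) := by
  unfold App
  simp only [T3.C_c0, T3.C_c1, T3.C_c2]
  have h : (fun l : ℝ => r - (r + 0 * l + 0 * l ^ 2)) = fun _ => (0 : ℝ) := by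
    funext l
    ring
  rw [h]
  exact isBigO_zero _ _

theorem App.lam : App (fun l => l) ⟨0, 1, 0⟩ := by
  unfold App
  have h : (fun l : ℝ => l - (0 + 1 * l + 0 * l ^ 2)) = fun _ => (0 : ℝ) := by
    funext l
    ring
  change (fun l : ℝ => l - (0 + 1 * l + 0 * l ^ 2)) =O[𝓝 0] _
  rw [h]
  exact isBigO_zero _ _

theorem App.add {f g : ℝ → ℝ} {c d : T3} (hf : App f c) (hg : App g d) :
    App (fun l => f l + g l) (c + d) := by
  refine (IsBigO.add hf hg).congr_left fun l => ?_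
  simp only [T3.add_c0, T3.add_c1, T3.add_c2]
  ring

theorem App.neg {f : ℝ → ℝ} {c : T3} (hf : App f c) : App (fun l => -f l) (-c) := by
  refine (IsBigO.neg_left hf).congr_left fun l => ?_
  simp only [T3.neg_c0, T3.neg_c1, T3.neg_c2]
  ring

theorem App.sub {f g : ℝ → ℝ} {c d : T3} (hf : App f c) (hg : App g d) :
    App (fun l => f l - g l) (c - d) := by
  refine (IsBigO.sub hf hg).congr_left fun l => ?_
  simp only [T3.sub_c0, T3.sub_c1, T3.sub_c2]
  ring

/-- `f λ → c0` -/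
theorem F0_tendsto {f : ℝ → ℝ} {c : T3} (h : App f c) : Tendsto f (𝓝 0) (𝓝 c.c0) := by
  have h1 : Tendsto (fun l : ℝ => l ^ 3) (𝓝 0) (𝓝 0) := by
    have : Continuous fun l : ℝ => l ^ 3 := by fun_prop
    have h2 := this.tendsto 0
    simpa using h2
  have h2 : Tendsto (fun l : ℝ => f l - (c.c0 + c.c1 * l + c.c2 * l ^ 2)) (𝓝 0) (𝓝 0) :=
    IsBigO.trans_tendsto h h1
  have h3 : Tendsto (fun l : ℝ => c.c0 + c.c1 * l + c.c2 * l ^ 2) (𝓝 0) (𝓝 c.c0) := by
    have : Continuous fun l : ℝ => c.c0 + c.c1 * l + c.c2 * l ^ 2 := by fun_prop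
    have h4 := this.tendsto 0
    simpa using h4
  have h5 := h2.add h3
  rw [zero_add] at h5
  refine h5.congr fun l => ?_
  ring

theorem F0_isBigO_one {f : ℝ → ℝ} {a : ℝ} (h : Tendsto f (𝓝 0) (𝓝 a)) :
    f =O[𝓝 0] (fun _ : ℝ => (1 : ℝ)) := h.isBigO_one ℝ

theorem App.mul {f g : ℝ → ℝ} {c d : T3} (hf : App f c) (hg : App g d) :
    App (fun l => f l * g l) (c * d) := by
  have hg1 := F0_isBigO_one (F0_tendsto hg)
  have hp1 : (fun l : ℝ => c.c0 + c.c1 * l + c.c2 * l ^ 2) =O[𝓝 0] (fun _ : ℝ => (1 : ℝ)) := by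
    have : Continuous fun l : ℝ => c.c0 + c.c1 * l + c.c2 * l ^ 2 := by fun_prop
    exact F0_isBigO_one (this.tendsto 0)
  have hr1 : (fun l : ℝ => (c.c1 * d.c2 + c.c2 * d.c1) + c.c2 * d.c2 * l) =O[𝓝 0]
      (fun _ : ℝ => (1 : ℝ)) := by
    have : Continuous fun l : ℝ => (c.c1 * d.c2 + c.c2 * d.c1) + c.c2 * d.c2 * l := by fun_prop
    exact F0_isBigO_one (this.tendsto 0)
  have h1 := IsBigO.mul hf hg1
  have h2 := IsBigO.mul hg hp1
  have h3 := (isBigO_refl (fun l : ℝ => l ^ 3) (𝓝 0)).mul hr1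
  have h4 := ((h1.add h2).add h3)
  refine (h4.congr_left fun l => ?_).congr_right fun l => mul_one _
  simp only [T3.mul_c0, T3.mul_c1, T3.mul_c2]
  ring

theorem App.smul {f : ℝ → ℝ} {c : T3} (r : ℝ) (hf : App f c) :
    App (fun l => r * f l) (r • c) := by
  refine (IsBigO.const_mul_left hf r).congr_left fun l => ?_
  simp only [T3.smul_c0, T3.smul_c1, T3.smul_c2]
  ring

theorem App.sum {ι : Type*} (s : Finset ι) {f : ι → ℝ → ℝ} {c : ι → T3}
    (h : ∀ i ∈ s, App (f i) (c i)) : App (fun l => ∑ i ∈ s, f i l) (∑ i ∈ s, c i) := by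
  classical
  induction s using Finset.induction_on with
  | empty =>
    simp only [Finset.sum_empty]
    exact App.const 0
  | insert i s hi ih =>
    simp only [Finset.sum_insert hi]
    exact (h i (Finset.mem_insert_self _ _)).add (ih fun j hj => h j (Finset.mem_insert_of_mem hj))

/-- the coefficients are unique -/
theorem App.unique {f : ℝ → ℝ} {c d : T3} (hc : App f c) (hd : App f d) : c = d := by
  have h0 : c.c0 = d.c0 := tendsto_nhds_unique (F0_tendsto hc) (F0_tendsto hd)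
  have h1 : (fun l : ℝ => (d.c1 - c.c1) * l + (d.c2 - c.c2) * l ^ 2) =O[𝓝 0]
      (fun l : ℝ => l ^ 3) := by
    refine (IsBigO.sub hc hd).congr_left fun l => ?_
    rw [h0]
    ring
  have h2 : (fun l : ℝ => (d.c1 - c.c1) + (d.c2 - c.c2) * l) =O[𝓝[≠] 0]
      (fun l : ℝ => l ^ 2) := by
    have h3 := (h1.mono (nhdsWithin_le_nhds (s := {0}ᶜ))).mul
      (isBigO_refl (fun l : ℝ => l⁻¹) (𝓝[≠] 0))
    refine IsBigO.congr' h3 ?_ ?_
    · filter_upwards [self_mem_nhdsWithin] with l hl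
      have hl0 : l ≠ 0 := hl
      field_simp
    · filter_upwards [self_mem_nhdsWithin] with l hl
      have hl0 : l ≠ 0 := hl
      field_simp
  have hz : Tendsto (fun l : ℝ => l ^ 2) (𝓝[≠] 0) (𝓝 0) := by
    have : Continuous fun l : ℝ => l ^ 2 := by fun_prop
    have h4 := (this.tendsto 0).mono_left (nhdsWithin_le_nhds (s := {0}ᶜ))
    simpa using h4
  have hz1 : Tendsto (fun l : ℝ => l) (𝓝[≠] 0) (𝓝 0) :=
    (continuous_id.tendsto 0).mono_left nhdsWithin_le_nhds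
  have h5 : d.c1 - c.c1 = 0 := by
    have h6 := h2.trans_tendsto hz
    have h7 : Tendsto (fun l : ℝ => (d.c1 - c.c1) + (d.c2 - c.c2) * l) (𝓝[≠] 0)
        (𝓝 (d.c1 - c.c1)) := by
      have h8 := (tendsto_const_nhds (x := d.c1 - c.c1)).add (hz1.const_mul (d.c2 - c.c2))
      simpa using h8
    exact tendsto_nhds_unique h7 h6
  have h9 : (fun _ : ℝ => (d.c2 - c.c2)) =O[𝓝[≠] 0] (fun l : ℝ => l) := by
    have h3 := h2.mul (isBigO_refl (fun l : ℝ => l⁻¹) (𝓝[≠] 0))
    refine IsBigO.congr' h3 ?_ ?_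
    · filter_upwards [self_mem_nhdsWithin] with l hl
      have hl0 : l ≠ 0 := hl
      rw [h5]
      field_simp
      ring
    · filter_upwards [self_mem_nhdsWithin] with l hl
      have hl0 : l ≠ 0 := hl
      field_simp
  have h10 : d.c2 - c.c2 = 0 := tendsto_nhds_unique tendsto_const_nhds (h9.trans_tendsto hz1)
  ext
  · exact h0
  · linarith
  · linarith

/-- `f λ → c0` -/
theorem App.tendsto {f : ℝ → ℝ} {c : T3} (h : App f c) : Tendsto f (𝓝 0) (𝓝 c.c0) := by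
  exact F0_tendsto h

theorem F0_prod {ι : Type*} (s : Finset ι) {f : ι → ℝ → ℝ} {c : ι → T3}
    (h : ∀ i ∈ s, App (f i) (c i)) : App (fun l => ∏ i ∈ s, f i l) (∏ i ∈ s, c i) := by
  classical
  induction s using Finset.induction_on with
  | empty =>
    simp only [Finset.prod_empty]
    exact App.const 1
  | insert i s hi ih =>
    simp only [Finset.prod_insert hi]
    exact (h i (Finset.mem_insert_self _ _)).mul (ih fun j hj => h j (Finset.mem_insert_of_mem hj))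

theorem F0_intCast (z : ℤ) : App (fun _ => (z : ℝ)) (z : T3) := by
  induction z using Int.induction_on with
  | zero =>
    simp only [Int.cast_zero]
    exact App.const 0
  | succ n ih =>
    have h := ih.add (App.const 1)
    simp only [Int.cast_add, Int.cast_one]
    exact h
  | pred n ih =>
    have h := ih.sub (App.const 1)
    simp only [Int.cast_sub, Int.cast_one]
    exact h

theorem F0_det {d : ℕ} {G : ℝ → Matrix (Fin d) (Fin d) ℝ} {Gt : Matrix (Fin d) (Fin d) T3}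
    (hG : ∀ i j, App (fun l => G l i j) (Gt i j)) : App (fun l => (G l).det) Gt.det := by
  simp only [Matrix.det_apply']
  exact App.sum _ fun σ _ => (F0_intCast _).mul (F0_prod _ fun i _ => hG _ _)

theorem F0_adj {d : ℕ} {G : ℝ → Matrix (Fin d) (Fin d) ℝ} {Gt : Matrix (Fin d) (Fin d) T3}
    (hG : ∀ i j, App (fun l => G l i j) (Gt i j)) (i j : Fin d) :
    App (fun l => (G l).adjugate i j) (Gt.adjugate i j) := by
  simp only [Matrix.adjugate_apply]
  refine F0_det fun a b => ?_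
  simp only [Matrix.updateRow_apply, Pi.single_apply]
  split_ifs
  · exact App.const 1
  · exact App.const 0
  · exact hG a b

/-- scalar inverse -/
theorem F0_inv {f : ℝ → ℝ} {c d : T3} (hf : App f c) (hcd : c * d = 1) :
    App (fun l => (f l)⁻¹) d := by
  have h0 : c.c0 * d.c0 = 1 := congrArg T3.c0 hcd
  have hc0 : c.c0 ≠ 0 := left_ne_zero_of_mul_eq_one h0
  have hlim := F0_tendsto hf
  have hinv := hlim.inv₀ hc0
  have hb := F0_isBigO_one hinv
  have hq : App (fun l => d.c0 + d.c1 * l + d.c2 * l ^ 2) d := by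
    unfold App
    simp only [sub_self]
    exact isBigO_zero _ _
  have h1 := (App.const 1).sub (hf.mul hq)
  have h2 : T3.C 1 - c * d = 0 := by
    rw [hcd]
    ext <;> simp
  rw [h2] at h1
  have h3 : (fun l => 1 - f l * (d.c0 + d.c1 * l + d.c2 * l ^ 2)) =O[𝓝 0]
      (fun l : ℝ => l ^ 3) := by
    refine IsBigO.congr_left h1 fun l => ?_
    simp
  have h4 := h3.mul hb
  refine (IsBigO.congr' h4 ?_ EventuallyEq.rfl).congr_right fun l => mul_one _
  filter_upwards [hlim.eventually_ne hc0] with l hl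
  field_simp

/-- Inverse matrix: if `K G = 1` modulo `λ^3`, then the inverse of `G λ` is `K` up to `O(λ^3)`.
(`det (G λ)` tends to the determinant of the matrix `c0`, which is invertible; `G⁻¹ - K = G⁻¹ (1 - G K)`,
`1 - G K = O(λ^3)`, `G⁻¹` is bounded.) -/
theorem App.inv {d : ℕ} {G : ℝ → Matrix (Fin d) (Fin d) ℝ} {Gt Kt : Matrix (Fin d) (Fin d) T3}
    (hG : ∀ i j, App (fun l => G l i j) (Gt i j)) (hK : Gt * Kt = 1) :
    ∀ i j, App (fun l => (G l)⁻¹ i j) (Kt i j) := by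
  intro i j
  have hdet : Gt.det * Kt.det = 1 := by rw [← Matrix.det_mul, hK, Matrix.det_one]
  have hKt : Kt = Kt.det • Gt.adjugate := by
    have h1 : Gt.adjugate * Gt * Kt = Gt.adjugate := by rw [Matrix.mul_assoc, hK, Matrix.mul_one]
    rw [Matrix.adjugate_mul, Matrix.smul_mul, Matrix.one_mul] at h1
    rw [← h1, smul_smul, mul_comm, hdet, one_smul]
  have h2 := (F0_inv (F0_det hG) hdet).mul (F0_adj hG i j)
  have h3 : Kt i j = Kt.det * Gt.adjugate i j := by
    conv_lhs => rw [hKt]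
    rfl
  rw [h3]
  refine h2.congr (Eventually.of_forall fun l => ?_)
  simp only
  rw [Matrix.inv_def, Ring.inverse_eq_inv']
  rfl

/-- The same, for `det (G λ) ≠ 0` near `0`. -/
theorem App.det_ne {d : ℕ} {G : ℝ → Matrix (Fin d) (Fin d) ℝ}
    {Gt Kt : Matrix (Fin d) (Fin d) T3}
    (hG : ∀ i j, App (fun l => G l i j) (Gt i j)) (hK : Gt * Kt = 1) :
    ∀ᶠ l in 𝓝 (0 : ℝ), (G l).det ≠ 0 := by
  have hdet : Gt.det * Kt.det = 1 := by rw [← Matrix.det_mul, hK, Matrix.det_one]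
  have h0 : Gt.det.c0 * Kt.det.c0 = 1 := congrArg T3.c0 hdet
  exact (F0_tendsto (F0_det hG)).eventually_ne (left_ne_zero_of_mul_eq_one h0)

end H31R
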