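import Pool.Agent.Lib.H31R.F3t

/-!
# H31R, chunk F3a: jets of the main part, rows 0, 1, 2
-/

open scoped ContDiff Topology
open Real Filter

namespace H31R

theorem F3a_mul (v g0 g3 g4 g5 g6 h00 h03 h04 h05 h06 h33 h34 h35 h36 h44 h45 h46 h55 h56 h66
      v' g0' g3' g4' g5' g6' h00' h03' h04' h05' h06' h33' h34' h35' h36' h44' h45' h46' h55'
      h56' h66' : T3) :
    (mkJ v g0 g3 g4 g5 g6 h00 h03 h04 h05 h06 h33 h34 h35 h36 h44 h45 h46 h55 h56 h66).mul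
      (mkJ
        v' g0' g3' g4' g5' g6' h00' h03' h04' h05' h06' h33' h34' h35' h36' h44' h45' h46' h55'
        h56' h66') =
    mkJ
      (v * v') (g0 * v' + v * g0') (g3 * v' + v * g3') (g4 * v' + v * g4') (g5 * v' + v * g5')
      (g6 * v' + v * g6') (h00 * v' + g0 * g0' + g0 * g0' + v * h00')
      (h03 * v' + g0 * g3' + g3 * g0' + v * h03') (h04 * v' + g0 * g4' + g4 * g0' + v * h04')
      (h05 * v' + g0 * g5' + g5 * g0' + v * h05') (h06 * v' + g0 * g6' + g6 * g0' + v * h06')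
      (h33 * v' + g3 * g3' + g3 * g3' + v * h33') (h34 * v' + g3 * g4' + g4 * g3' + v * h34')
      (h35 * v' + g3 * g5' + g5 * g3' + v * h35') (h36 * v' + g3 * g6' + g6 * g3' + v * h36')
      (h44 * v' + g4 * g4' + g4 * g4' + v * h44') (h45 * v' + g4 * g5' + g5 * g4' + v * h45')
      (h46 * v' + g4 * g6' + g6 * g4' + v * h46') (h55 * v' + g5 * g5' + g5 * g5' + v * h55')
      (h56 * v' + g5 * g6' + g6 * g5' + v * h56') (h66 * v' + g6 * g6' + g6 * g6' + v * h66') := by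
  ext1
  · rfl
  · funext i
    fin_cases i <;> simp [mkJ, Jet.mul]
  · funext i j
    fin_cases i <;> fin_cases j <;> simp [mkJ, Jet.mul] <;> ring

theorem F3a_add (v g0 g3 g4 g5 g6 h00 h03 h04 h05 h06 h33 h34 h35 h36 h44 h45 h46 h55 h56 h66
      v' g0' g3' g4' g5' g6' h00' h03' h04' h05' h06' h33' h34' h35' h36' h44' h45' h46' h55'
      h56' h66' : T3) :
    (mkJ v g0 g3 g4 g5 g6 h00 h03 h04 h05 h06 h33 h34 h35 h36 h44 h45 h46 h55 h56 h66).add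
      (mkJ
        v' g0' g3' g4' g5' g6' h00' h03' h04' h05' h06' h33' h34' h35' h36' h44' h45' h46' h55'
        h56' h66') =
    mkJ
      (v + v') (g0 + g0') (g3 + g3') (g4 + g4') (g5 + g5') (g6 + g6') (h00 + h00') (h03 + h03')
      (h04 + h04') (h05 + h05') (h06 + h06') (h33 + h33') (h34 + h34') (h35 + h35')
      (h36 + h36') (h44 + h44') (h45 + h45') (h46 + h46') (h55 + h55') (h56 + h56')
      (h66 + h66') := by
  ext1
  · rfl
  · funext i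
    fin_cases i <;> simp [mkJ, Jet.add]
  · funext i j
    fin_cases i <;> fin_cases j <;> simp [mkJ, Jet.add]

theorem F3a_neg (v g0 g3 g4 g5 g6 h00 h03 h04 h05 h06 h33 h34 h35 h36 h44 h45 h46 h55 h56 h66 : T3) :
    (mkJ v g0 g3 g4 g5 g6 h00 h03 h04 h05 h06 h33 h34 h35 h36 h44 h45 h46 h55 h56 h66).neg =
    mkJ
      (-v) (-g0) (-g3) (-g4) (-g5) (-g6) (-h00) (-h03) (-h04) (-h05) (-h06) (-h33) (-h34)
      (-h35) (-h36) (-h44) (-h45) (-h46) (-h55) (-h56) (-h66) := by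
  ext1
  · rfl
  · funext i
    fin_cases i <;> simp [mkJ, Jet.neg]
  · funext i j
    fin_cases i <;> fin_cases j <;> simp [mkJ, Jet.neg]

theorem F3a_cst (c : T3) :
    Jet.cst c = mkJ c 0 0 0 0 0 0 0 0 0 0 0 0 0 0 0 0 0 0 0 0 := by
  ext1
  · rfl
  · funext i
    fin_cases i <;> simp [mkJ, Jet.cst]
  · funext i j
    fin_cases i <;> fin_cases j <;> simp [mkJ, Jet.cst]

theorem F3a_crd3 (r : ℝ) :
    Jet.crd 3 r = mkJ (T3.C r) 0 1 0 0 0 0 0 0 0 0 0 0 0 0 0 0 0 0 0 0 := by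
  ext1
  · rfl
  · funext i
    fin_cases i <;> simp [mkJ, Jet.crd]
  · funext i j
    fin_cases i <;> fin_cases j <;> simp [mkJ, Jet.crd]

theorem F3a_crd4 (r : ℝ) :
    Jet.crd 4 r = mkJ (T3.C r) 0 0 1 0 0 0 0 0 0 0 0 0 0 0 0 0 0 0 0 0 := by
  ext1
  · rfl
  · funext i
    fin_cases i <;> simp [mkJ, Jet.crd]
  · funext i j
    fin_cases i <;> fin_cases j <;> simp [mkJ, Jet.crd]

theorem F3a_crd5 (r : ℝ) :
    Jet.crd 5 r = mkJ (T3.C r) 0 0 0 1 0 0 0 0 0 0 0 0 0 0 0 0 0 0 0 0 := by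
  ext1
  · rfl
  · funext i
    fin_cases i <;> simp [mkJ, Jet.crd]
  · funext i j
    fin_cases i <;> fin_cases j <;> simp [mkJ, Jet.crd]

theorem F3a_crd6 (r : ℝ) :
    Jet.crd 6 r = mkJ (T3.C r) 0 0 0 0 1 0 0 0 0 0 0 0 0 0 0 0 0 0 0 0 := by
  ext1
  · rfl
  · funext i
    fin_cases i <;> simp [mkJ, Jet.crd]
  · funext i j
    fin_cases i <;> fin_cases j <;> simp [mkJ, Jet.crd]

theorem F3a_cast {F : ℝ → EE 7 → ℝ} {q : EE 7} {c d : Jet} (h : JApp F q c) (e : c = d) :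
    JApp F q d := e ▸ h

theorem F3a_zero (q : EE 7) : JApp (fun _ _ => 0) q J0 := by
  refine F3a_cast (JApp.cst q (App.const 0)) ?_
  rw [F3a_cst]
  rfl

/-- `ξ 5 ^ 2 + ξ 6 ^ 2` -/
theorem F3a_r2 (t : ℝ) : JApp (fun _ ξ => ξ 5 * ξ 5 + ξ 6 * ξ 6) (xi0 t)
    (mkJ ⟨t ^ 2, 0, 0⟩ 0 0 0 ⟨2 * t, 0, 0⟩ 0 0 0 0 0 0 0 0 0 0 0 0 0 ⟨2, 0, 0⟩ 0 ⟨2, 0, 0⟩) := by
  have h5 : xi0 t 5 = t := by simp [xi0]
  have h6 : xi0 t 6 = 0 := by simp [xi0]
  have a5 := JApp.crd 5 (xi0 t)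
  have a6 := JApp.crd 6 (xi0 t)
  rw [h5, F3a_crd5] at a5
  rw [h6, F3a_crd6] at a6
  refine F3a_cast ((a5.mul a5).add (a6.mul a6)) ?_
  simp only [F3a_mul, F3a_add]
  congr 1 <;> ext <;> simp <;> ring

theorem F3a_z1 (t : ℝ) : JApp (fun _ ξ => ξ 3) (xi0 t)
    (mkJ 0 0 1 0 0 0 0 0 0 0 0 0 0 0 0 0 0 0 0 0 0) := by
  have h : xi0 t 3 = 0 := by simp [xi0]
  have a := JApp.crd 3 (xi0 t)
  rw [h, F3a_crd3] at a
  exact a

theorem F3a_z2 (t : ℝ) : JApp (fun _ ξ => ξ 4) (xi0 t)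
    (mkJ 0 0 0 1 0 0 0 0 0 0 0 0 0 0 0 0 0 0 0 0 0) := by
  have h : xi0 t 4 = 0 := by simp [xi0]
  have a := JApp.crd 4 (xi0 t)
  rw [h, F3a_crd4] at a
  exact a

theorem F3a_l1 (t : ℝ) : JApp (fun _ ξ => ξ 5) (xi0 t)
    (mkJ ⟨t, 0, 0⟩ 0 0 0 1 0 0 0 0 0 0 0 0 0 0 0 0 0 0 0 0) := by
  have h : xi0 t 5 = t := by simp [xi0]
  have a := JApp.crd 5 (xi0 t)
  rw [h, F3a_crd5] at a
  exact a

theorem F3a_l2 (t : ℝ) : JApp (fun _ ξ => ξ 6) (xi0 t)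
    (mkJ 0 0 0 0 0 1 0 0 0 0 0 0 0 0 0 0 0 0 0 0 0) := by
  have h : xi0 t 6 = 0 := by simp [xi0]
  have a := JApp.crd 6 (xi0 t)
  rw [h, F3a_crd6] at a
  exact a

theorem F3a_R {P : Prof} (hP : ProfOK P) {eta x t : ℝ} (h1 : (eta * P.a x) ^ 2 + t ^ 2 = 1)
    (l : ℝ) : ∀ᶠ ξ in 𝓝 (xi0 t), √(SS P l eta x ξ) ≠ 0 := by
  have hc : Continuous fun ξ : EE 7 => SS P l eta x ξ := by
    unfold SS
    have := hP.sa.continuous
    fun_prop
  have h0 : SS P l eta x (xi0 t) = 1 := by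
    have e0 : xi0 t 0 = 0 := by simp [xi0]
    have e5 : xi0 t 5 = t := by simp [xi0]
    have e6 : xi0 t 6 = 0 := by simp [xi0]
    unfold SS
    rw [e0, e5, e6, mul_zero, add_zero]
    linarith
  have h2 : ∀ᶠ ξ in 𝓝 (xi0 t), (0 : ℝ) < SS P l eta x ξ :=
    hc.continuousAt.eventually_const_lt (by
      show (0 : ℝ) < SS P l eta x (xi0 t)
      rw [h0]
      exact one_pos)
  filter_upwards [h2] with ξ hξ
  exact (Real.sqrt_pos.2 hξ).ne'

theorem F3a_N (ξ : EE 7) : zN ξ ≠ 0 := by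
  unfold zN
  positivity

theorem F3a_val (j k : Fin 7) : (ebas j : EE 7) k = if k = j then 1 else 0 := by
  simp [ebas]

theorem F3a_uv0 (P : Prof) (l eta x : ℝ) (ξ : EE 7) (hR : √(SS P l eta x ξ) ≠ 0) :
    ghM P l eta x ξ (ebas 0) (ebas 0) = 1 + (l * P.b2 (x + l * ξ 0)) * (l * P.b2 (x + l * ξ 0)) *
      ((ξ 5 * ξ 5 + ξ 6 * ξ 6) * (1 / √(SS P l eta x ξ))) ∧
    ghM P l eta x ξ (ebas 0) (ebas 1) = 0 ∧
    ghM P l eta x ξ (ebas 0) (ebas 2) = 0 ∧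
    ghM P l eta x ξ (ebas 0) (ebas 3) = (l * P.b2 (x + l * ξ 0)) * ξ 6 * (1 / zN ξ) ∧
    ghM P l eta x ξ (ebas 0) (ebas 4) = -((l * P.b2 (x + l * ξ 0)) * ξ 5 * (1 / zN ξ)) ∧
    ghM P l eta x ξ (ebas 0) (ebas 5) = 0 ∧
    ghM P l eta x ξ (ebas 0) (ebas 6) = 0 := by
  have hN := F3a_N ξ
  refine ⟨?_, ?_, ?_, ?_, ?_, ?_, ?_⟩ <;>
    simp only [ghM, gczM, cA1, cA2, cB1, cB2, zo1, zo2, zo3, F3a_val] <;>
    simp [Fin.ext_iff] <;> field_simp <;> try first | ring1 | (ring_nf; simp)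

theorem F3a_uv1 (P : Prof) (l eta x : ℝ) (ξ : EE 7) (hR : √(SS P l eta x ξ) ≠ 0) :
    ghM P l eta x ξ (ebas 1) (ebas 0) = 0 ∧
    ghM P l eta x ξ (ebas 1) (ebas 1) = 1 + ((l * P.b3 (x + l * ξ 0)) * (l * P.b3 (x + l * ξ 0)) +
      (l * P.b1 (x + l * ξ 0)) * (l * P.b1 (x + l * ξ 0))) *
      ((ξ 5 * ξ 5 + ξ 6 * ξ 6) * (1 / √(SS P l eta x ξ))) ∧
    ghM P l eta x ξ (ebas 1) (ebas 2) = 0 ∧
    ghM P l eta x ξ (ebas 1) (ebas 3) = -(((l * P.b3 (x + l * ξ 0)) * ξ 4 *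
      ((ξ 5 * ξ 5 + ξ 6 * ξ 6) * (1 / √(SS P l eta x ξ))) +
      (l * P.b1 (x + l * ξ 0)) * ξ 5) * (1 / zN ξ)) ∧
    ghM P l eta x ξ (ebas 1) (ebas 4) = ((l * P.b3 (x + l * ξ 0)) * ξ 3 *
      ((ξ 5 * ξ 5 + ξ 6 * ξ 6) * (1 / √(SS P l eta x ξ))) +
      -((l * P.b1 (x + l * ξ 0)) * ξ 6)) * (1 / zN ξ) ∧
    ghM P l eta x ξ (ebas 1) (ebas 5) = 1 / 2 * ((l * P.b3 (x + l * ξ 0)) * ξ 6 *
      (1 / √(SS P l eta x ξ))) ∧
    ghM P l eta x ξ (ebas 1) (ebas 6) = -(1 / 2) * ((l * P.b3 (x + l * ξ 0)) * ξ 5 *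
      (1 / √(SS P l eta x ξ))) := by
  have hN := F3a_N ξ
  refine ⟨?_, ?_, ?_, ?_, ?_, ?_, ?_⟩ <;>
    simp only [ghM, gczM, cA1, cA2, cB1, cB2, zo1, zo2, zo3, F3a_val] <;>
    simp [Fin.ext_iff] <;> field_simp <;> try first | ring1 | (ring_nf; simp)

theorem F3a_uv2 (P : Prof) (l eta x : ℝ) (ξ : EE 7) (j : Fin 7) :
    ghM P l eta x ξ (ebas 2) (ebas j) = if j = 2 then 1 else 0 := by
  fin_cases j <;>
    simp only [ghM, gczM, cA1, cA2, cB1, cB2, zo1, zo2, zo3, F3a_val] <;>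
    simp [Fin.ext_iff]

variable {P : Prof} (hP : ProfOK P) {eta x t : ℝ} (h1 : (eta * P.a x) ^ 2 + t ^ 2 = 1)
  (ha : 0 ≤ eta)
include hP h1 ha

/-! Notation in the docstrings: `R = √(SS P l eta x ξ)`, `N = zN ξ`, `b_i = P.b_i (x + l ξ0)`, `r2 = ξ5^2 + ξ6^2`, `z1 = ξ3`, `z2 = ξ4`, `l1 = ξ5`, `l2 = ξ6`. The proofs: near `xi0 t` the entry is the given expression
(unfold, `R ≠ 0`, `N ≠ 0`), then `JApp.mul`, `JApp.add`, .. with the jets of `F2`, and equality of jets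
(`Jet.ext`, `fin_cases`, `simp`, `ring`). -/

/-- entries `(0,0)`: `1 + (l b2)^2 r2 / R`; `(0,3)`: `(l b2) l2 / N`; `(0,4)`: `-(l b2) l1 / N`; others `0` -/
theorem ghM_jet0 (p : Par) (hp : p = par P eta x t) : ∀ j : Fin 7, 
    JApp (fun l ξ => ghM P l eta x ξ (ebas 0) (ebas j)) (xi0 t) (MJ p 0 j) := by
  have ht : p.t = t := by rw [hp]; rfl
  have hev := F3a_R hP h1
  have b2 := jet_b2 hP h1 ha p hp
  have iR := jet_iR hP h1 ha p hp
  have iN := jet_iN hP h1 ha p hp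
  have r2 := F3a_r2 t
  have l1 := F3a_l1 t
  have l2 := F3a_l2 t
  intro j
  fin_cases j
  · show JApp (fun l ξ => ghM P l eta x ξ (ebas 0) (ebas 0)) (xi0 t) (MJ00 p)
    have h := (JApp.cst (xi0 t) (App.const 1)).add ((b2.mul b2).mul (r2.mul iR))
    refine F3a_cast (h.congr (Eventually.of_forall fun l => ?_)) ?_
    · filter_upwards [hev l] with ξ hξ
      exact (F3a_uv0 P l eta x ξ hξ).1.symm
    · simp only [F3a_mul, F3a_add, F3a_cst, MJ00]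
      congr 1 <;> ext <;> simp [ht] <;> ring
  · show JApp (fun l ξ => ghM P l eta x ξ (ebas 0) (ebas 1)) (xi0 t) J0
    refine (F3a_zero _).congr (Eventually.of_forall fun l => ?_)
    filter_upwards [hev l] with ξ hξ
    exact (F3a_uv0 P l eta x ξ hξ).2.1.symm
  · show JApp (fun l ξ => ghM P l eta x ξ (ebas 0) (ebas 2)) (xi0 t) J0
    refine (F3a_zero _).congr (Eventually.of_forall fun l => ?_)
    filter_upwards [hev l] with ξ hξ
    exact (F3a_uv0 P l eta x ξ hξ).2.2.1.symm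
  · show JApp (fun l ξ => ghM P l eta x ξ (ebas 0) (ebas 3)) (xi0 t) (MJ03 p)
    refine F3a_cast (((b2.mul l2).mul iN).congr (Eventually.of_forall fun l => ?_)) ?_
    · filter_upwards [hev l] with ξ hξ
      exact (F3a_uv0 P l eta x ξ hξ).2.2.2.1.symm
    · simp only [F3a_mul, MJ03]
      congr 1 <;> ext <;> simp
  · show JApp (fun l ξ => ghM P l eta x ξ (ebas 0) (ebas 4)) (xi0 t) (MJ04 p)
    refine F3a_cast (((b2.mul l1).mul iN).neg.congr (Eventually.of_forall fun l => ?_)) ?_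
    · filter_upwards [hev l] with ξ hξ
      exact (F3a_uv0 P l eta x ξ hξ).2.2.2.2.1.symm
    · simp only [F3a_mul, F3a_neg, MJ04]
      congr 1 <;> ext <;> simp [ht] <;> ring
  · show JApp (fun l ξ => ghM P l eta x ξ (ebas 0) (ebas 5)) (xi0 t) J0
    refine (F3a_zero _).congr (Eventually.of_forall fun l => ?_)
    filter_upwards [hev l] with ξ hξ
    exact (F3a_uv0 P l eta x ξ hξ).2.2.2.2.2.1.symm
  · show JApp (fun l ξ => ghM P l eta x ξ (ebas 0) (ebas 6)) (xi0 t) J0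
    refine (F3a_zero _).congr (Eventually.of_forall fun l => ?_)
    filter_upwards [hev l] with ξ hξ
    exact (F3a_uv0 P l eta x ξ hξ).2.2.2.2.2.2.symm

/-- `(1,1)`: `1 + ((l b3)^2 + (l b1)^2) r2 / R`; `(1,3)`: `-(l b3) z2 r2 / (N R) - (l b1) l1 / N`;
`(1,4)`: `(l b3) z1 r2 / (N R) - (l b1) l2 / N`; `(1,5)`: `(l b3) l2 / (2 R)`; `(1,6)`: `-(l b3) l1 / (2 R)`; others `0` -/
theorem ghM_jet1 (p : Par) (hp : p = par P eta x t) : ∀ j : Fin 7, 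
    JApp (fun l ξ => ghM P l eta x ξ (ebas 1) (ebas j)) (xi0 t) (MJ p 1 j) := by
  have ht : p.t = t := by rw [hp]; rfl
  have hev := F3a_R hP h1
  have b1 := jet_b1 hP h1 ha p hp
  have b3 := jet_b3 hP h1 ha p hp
  have iR := jet_iR hP h1 ha p hp
  have iN := jet_iN hP h1 ha p hp
  have r2 := F3a_r2 t
  have l1 := F3a_l1 t
  have l2 := F3a_l2 t
  have z1 := F3a_z1 t
  have z2 := F3a_z2 t
  intro j
  fin_cases j
  · show JApp (fun l ξ => ghM P l eta x ξ (ebas 1) (ebas 0)) (xi0 t) J0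
    refine (F3a_zero _).congr (Eventually.of_forall fun l => ?_)
    filter_upwards [hev l] with ξ hξ
    exact (F3a_uv1 P l eta x ξ hξ).1.symm
  · show JApp (fun l ξ => ghM P l eta x ξ (ebas 1) (ebas 1)) (xi0 t) (MJ11 p)
    have h := (JApp.cst (xi0 t) (App.const 1)).add
      (((b3.mul b3).add (b1.mul b1)).mul (r2.mul iR))
    refine F3a_cast (h.congr (Eventually.of_forall fun l => ?_)) ?_
    · filter_upwards [hev l] with ξ hξ
      exact (F3a_uv1 P l eta x ξ hξ).2.1.symm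
    · simp only [F3a_mul, F3a_add, F3a_cst, MJ11]
      congr 1 <;> ext <;> simp [ht] <;> ring
  · show JApp (fun l ξ => ghM P l eta x ξ (ebas 1) (ebas 2)) (xi0 t) J0
    refine (F3a_zero _).congr (Eventually.of_forall fun l => ?_)
    filter_upwards [hev l] with ξ hξ
    exact (F3a_uv1 P l eta x ξ hξ).2.2.1.symm
  · show JApp (fun l ξ => ghM P l eta x ξ (ebas 1) (ebas 3)) (xi0 t) (MJ13 p)
    have h := ((((b3.mul z2).mul (r2.mul iR)).add (b1.mul l1)).mul iN).neg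
    refine F3a_cast (h.congr (Eventually.of_forall fun l => ?_)) ?_
    · filter_upwards [hev l] with ξ hξ
      exact (F3a_uv1 P l eta x ξ hξ).2.2.2.1.symm
    · simp only [F3a_mul, F3a_add, F3a_neg, MJ13]
      congr 1 <;> ext <;> simp [ht] <;> ring
  · show JApp (fun l ξ => ghM P l eta x ξ (ebas 1) (ebas 4)) (xi0 t) (MJ14 p)
    have h := (((b3.mul z1).mul (r2.mul iR)).add (b1.mul l2).neg).mul iN
    refine F3a_cast (h.congr (Eventually.of_forall fun l => ?_)) ?_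
    · filter_upwards [hev l] with ξ hξ
      exact (F3a_uv1 P l eta x ξ hξ).2.2.2.2.1.symm
    · simp only [F3a_mul, F3a_add, F3a_neg, MJ14]
      congr 1 <;> ext <;> simp [ht] <;> ring
  · show JApp (fun l ξ => ghM P l eta x ξ (ebas 1) (ebas 5)) (xi0 t) (MJ15 p)
    have h := (JApp.cst (xi0 t) (App.const (1 / 2))).mul ((b3.mul l2).mul iR)
    refine F3a_cast (h.congr (Eventually.of_forall fun l => ?_)) ?_
    · filter_upwards [hev l] with ξ hξ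
      exact (F3a_uv1 P l eta x ξ hξ).2.2.2.2.2.1.symm
    · simp only [F3a_mul, F3a_cst, MJ15]
      congr 1 <;> ext <;> simp [ht] <;> ring
  · show JApp (fun l ξ => ghM P l eta x ξ (ebas 1) (ebas 6)) (xi0 t) (MJ16 p)
    have h := (JApp.cst (xi0 t) (App.const (-(1 / 2)))).mul ((b3.mul l1).mul iR)
    refine F3a_cast (h.congr (Eventually.of_forall fun l => ?_)) ?_
    · filter_upwards [hev l] with ξ hξ
      exact (F3a_uv1 P l eta x ξ hξ).2.2.2.2.2.2.symm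
    · simp only [F3a_mul, F3a_cst, MJ16]
      congr 1 <;> ext <;> simp [ht] <;> ring

/-- `(2,2)`: `1`; others `0` -/
theorem ghM_jet2 (p : Par) (hp : p = par P eta x t) : ∀ j : Fin 7, 
    JApp (fun l ξ => ghM P l eta x ξ (ebas 2) (ebas j)) (xi0 t) (MJ p 2 j) := by
  intro j
  have key : JApp (fun l ξ => ghM P l eta x ξ (ebas 2) (ebas j)) (xi0 t)
      (Jet.cst (T3.C (if j = 2 then 1 else 0))) := by
    refine (JApp.cst (xi0 t) (App.const (if j = 2 then 1 else 0))).congr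
      (Eventually.of_forall fun l => Eventually.of_forall fun ξ => ?_)
    exact (F3a_uv2 P l eta x ξ j).symm
  rw [F3a_cst] at key
  fin_cases j
  all_goals first | exact key | (refine F3a_cast key ?_; rfl)

end H31R
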