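import Pool.Agent.Lib.H31R.F2

/-!
# H31R: tables of the 2-jets of the rescaled core metric at `xi0 t` (generated by computer algebra)
-/

noncomputable section

namespace H31R

/-- main part, entry (0, 0) -/
def MJ00 (p : Par) : Jet :=
  mkJ ⟨1, 0, p.t ^ 2 * p.b2 ^ 2⟩ 0 0 0 ⟨0, 0, 2 * p.t * p.b2 ^ 2 - p.t ^ 3 * p.b2 ^ 2⟩ 0 0 0 0 0 0 0 0 0 0 0 0 0 ⟨0, 0, 2 * p.b2 ^ 2 - 5 * p.t ^ 2 * p.b2 ^ 2 + 3 * p.t ^ 4 * p.b2 ^ 2⟩ 0 ⟨0, 0, 2 * p.b2 ^ 2 - p.t ^ 2 * p.b2 ^ 2⟩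

/-- main part, entry (0, 3) -/
def MJ03 (p : Par) : Jet :=
  mkJ 0 0 0 0 0 ⟨0, p.b2, 0⟩ 0 0 0 0 ⟨0, 0, p.c2⟩ 0 0 0 0 0 0 0 0 0 0

/-- main part, entry (0, 4) -/
def MJ04 (p : Par) : Jet :=
  mkJ ⟨0, -p.t * p.b2, 0⟩ ⟨0, 0, -p.t * p.c2⟩ 0 0 ⟨0, -p.b2, 0⟩ 0 0 0 0 ⟨0, 0, -p.c2⟩ 0 ⟨0, 2 * p.t * p.b2, 0⟩ 0 0 0 ⟨0, 2 * p.t * p.b2, 0⟩ 0 0 0 0 0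

/-- main part, entry (1, 1) -/
def MJ11 (p : Par) : Jet :=
  mkJ ⟨1, 0, p.t ^ 2 * p.b3 ^ 2 + p.t ^ 2 * p.b1 ^ 2⟩ 0 0 0 ⟨0, 0, 2 * p.t * p.b3 ^ 2 + 2 * p.t * p.b1 ^ 2 - p.t ^ 3 * p.b3 ^ 2 - p.t ^ 3 * p.b1 ^ 2⟩ 0 0 0 0 0 0 0 0 0 0 0 0 0 ⟨0, 0, 2 * p.b3 ^ 2 + 2 * p.b1 ^ 2 - 5 * p.t ^ 2 * p.b3 ^ 2 - 5 * p.t ^ 2 * p.b1 ^ 2 + 3 * p.t ^ 4 * p.b3 ^ 2 + 3 * p.t ^ 4 * p.b1 ^ 2⟩ 0 ⟨0, 0, 2 * p.b3 ^ 2 + 2 * p.b1 ^ 2 - p.t ^ 2 * p.b3 ^ 2 - p.t ^ 2 * p.b1 ^ 2⟩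

/-- main part, entry (1, 3) -/
def MJ13 (p : Par) : Jet :=
  mkJ ⟨0, -p.t * p.b1, 0⟩ ⟨0, 0, 2 * p.t * p.b2 * p.b3⟩ 0 ⟨0, -p.t ^ 2 * p.b3, 0⟩ ⟨0, -p.b1, 0⟩ 0 0 0 ⟨0, 0, -2 * p.t ^ 2 * p.b1 * p.b2 + p.t ^ 2 * p.a * p.A1 * p.b3⟩ ⟨0, 0, 2 * p.b2 * p.b3⟩ 0 ⟨0, 2 * p.t * p.b1, 0⟩ 0 0 0 ⟨0, 2 * p.t * p.b1, 0⟩ ⟨0, -2 * p.t * p.b3 + p.t ^ 3 * p.b3, 0⟩ 0 0 0 0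

/-- main part, entry (1, 4) -/
def MJ14 (p : Par) : Jet :=
  mkJ 0 0 ⟨0, p.t ^ 2 * p.b3, 0⟩ 0 0 ⟨0, -p.b1, 0⟩ 0 ⟨0, 0, 2 * p.t ^ 2 * p.b1 * p.b2 - p.t ^ 2 * p.a * p.A1 * p.b3⟩ 0 0 ⟨0, 0, 2 * p.b2 * p.b3⟩ 0 0 ⟨0, 2 * p.t * p.b3 - p.t ^ 3 * p.b3, 0⟩ 0 0 0 0 0 0 0

/-- main part, entry (1, 5) -/
def MJ15 (p : Par) : Jet :=
  mkJ 0 0 0 0 0 ⟨0, (1 / 2) * p.b3, 0⟩ 0 0 0 0 ⟨0, 0, p.b1 * p.b2 - (1 / 2) * p.a * p.A1 * p.b3⟩ 0 0 0 0 0 0 0 0 ⟨0, -(1 / 2) * p.t * p.b3, 0⟩ 0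

/-- main part, entry (1, 6) -/
def MJ16 (p : Par) : Jet :=
  mkJ ⟨0, -(1 / 2) * p.t * p.b3, 0⟩ ⟨0, 0, -p.t * p.b1 * p.b2 + (1 / 2) * p.t * p.a * p.A1 * p.b3⟩ 0 0 ⟨0, -(1 / 2) * p.b3 + (1 / 2) * p.t ^ 2 * p.b3, 0⟩ 0 0 0 0 ⟨0, 0, -p.b1 * p.b2 + (1 / 2) * p.a * p.A1 * p.b3 + p.t ^ 2 * p.b1 * p.b2 - (3 / 2) * p.t ^ 2 * p.a * p.A1 * p.b3⟩ 0 0 0 0 0 0 0 0 ⟨0, (3 / 2) * p.t * p.b3 - (3 / 2) * p.t ^ 3 * p.b3, 0⟩ 0 ⟨0, (1 / 2) * p.t * p.b3, 0⟩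

/-- main part, entry (2, 2) -/
def MJ22 (_p : Par) : Jet :=
  mkJ ⟨1, 0, 0⟩ 0 0 0 0 0 0 0 0 0 0 0 0 0 0 0 0 0 0 0 0

/-- main part, entry (3, 3) -/
def MJ33 (p : Par) : Jet :=
  mkJ ⟨1, 0, 0⟩ ⟨0, p.a * p.A1, 0⟩ 0 0 ⟨p.t, 0, 0⟩ 0 ⟨0, 0, p.A1 ^ 2 + p.a * p.A2 - p.a ^ 2 * p.A1 ^ 2⟩ 0 0 ⟨0, -p.t * p.a * p.A1, 0⟩ 0 ⟨-4, 0, 0⟩ 0 0 0 ⟨-4 + 2 * p.t ^ 2, 0, 0⟩ 0 0 ⟨1 - p.t ^ 2, 0, 0⟩ 0 ⟨1, 0, 0⟩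

/-- main part, entry (3, 4) -/
def MJ34 (p : Par) : Jet :=
  mkJ 0 0 0 0 0 0 0 0 0 0 0 0 ⟨-p.t ^ 2, 0, 0⟩ 0 0 0 0 0 0 0 0

/-- main part, entry (3, 5) -/
def MJ35 (_p : Par) : Jet :=
  mkJ 0 0 0 0 0 0 0 0 0 0 0 0 0 0 0 0 0 ⟨-1 / 2, 0, 0⟩ 0 0 0

/-- main part, entry (3, 6) -/
def MJ36 (p : Par) : Jet :=
  mkJ 0 0 0 ⟨(1 / 2) * p.t, 0, 0⟩ 0 0 0 0 ⟨0, -(1 / 2) * p.t * p.a * p.A1, 0⟩ 0 0 0 0 0 0 0 ⟨1 / 2 - (1 / 2) * p.t ^ 2, 0, 0⟩ 0 0 0 0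

/-- main part, entry (4, 4) -/
def MJ44 (p : Par) : Jet :=
  mkJ ⟨1, 0, 0⟩ ⟨0, p.a * p.A1, 0⟩ 0 0 ⟨p.t, 0, 0⟩ 0 ⟨0, 0, p.A1 ^ 2 + p.a * p.A2 - p.a ^ 2 * p.A1 ^ 2⟩ 0 0 ⟨0, -p.t * p.a * p.A1, 0⟩ 0 ⟨-4 + 2 * p.t ^ 2, 0, 0⟩ 0 0 0 ⟨-4, 0, 0⟩ 0 0 ⟨1 - p.t ^ 2, 0, 0⟩ 0 ⟨1, 0, 0⟩

/-- main part, entry (4, 5) -/
def MJ45 (_p : Par) : Jet :=
  mkJ 0 0 0 0 0 0 0 0 0 0 0 0 0 0 ⟨1 / 2, 0, 0⟩ 0 0 0 0 0 0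

/-- main part, entry (4, 6) -/
def MJ46 (p : Par) : Jet :=
  mkJ 0 0 ⟨-(1 / 2) * p.t, 0, 0⟩ 0 0 0 0 ⟨0, (1 / 2) * p.t * p.a * p.A1, 0⟩ 0 0 0 0 0 ⟨-1 / 2 + (1 / 2) * p.t ^ 2, 0, 0⟩ 0 0 0 0 0 0 0

/-- main part, entry (5, 5) -/
def MJ55 (p : Par) : Jet :=
  mkJ ⟨1 / 4, 0, 0⟩ ⟨0, -(1 / 4) * p.a * p.A1, 0⟩ 0 0 ⟨-(1 / 4) * p.t, 0, 0⟩ 0 ⟨0, 0, -(1 / 4) * p.A1 ^ 2 - (1 / 4) * p.a * p.A2 + (3 / 4) * p.a ^ 2 * p.A1 ^ 2⟩ 0 0 ⟨0, (3 / 4) * p.t * p.a * p.A1, 0⟩ 0 0 0 0 0 0 0 0 ⟨-1 / 4 + (3 / 4) * p.t ^ 2, 0, 0⟩ 0 ⟨-1 / 4, 0, 0⟩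

/-- main part, entry (6, 6) -/
def MJ66 (p : Par) : Jet :=
  mkJ ⟨1 / 4, 0, 0⟩ ⟨0, -(1 / 4) * p.a * p.A1, 0⟩ 0 0 ⟨-(1 / 4) * p.t, 0, 0⟩ 0 ⟨0, 0, -(1 / 4) * p.A1 ^ 2 - (1 / 4) * p.a * p.A2 + (3 / 4) * p.a ^ 2 * p.A1 ^ 2⟩ 0 0 ⟨0, (3 / 4) * p.t * p.a * p.A1, 0⟩ 0 0 0 0 0 0 0 0 ⟨-1 / 4 + (3 / 4) * p.t ^ 2, 0, 0⟩ 0 ⟨-1 / 4, 0, 0⟩

/-- 2-jets of the main part -/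
def MJ (p : Par) : Fin 7 → Fin 7 → Jet :=
  ![![MJ00 p, J0, J0, MJ03 p, MJ04 p, J0, J0],
    ![J0, MJ11 p, J0, MJ13 p, MJ14 p, MJ15 p, MJ16 p],
    ![J0, J0, MJ22 p, J0, J0, J0, J0],
    ![MJ03 p, MJ13 p, J0, MJ33 p, MJ34 p, MJ35 p, MJ36 p],
    ![MJ04 p, MJ14 p, J0, MJ34 p, MJ44 p, MJ45 p, MJ46 p],
    ![J0, MJ15 p, J0, MJ35 p, MJ45 p, MJ55 p, J0],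
    ![J0, MJ16 p, J0, MJ36 p, MJ46 p, J0, MJ66 p]]

/-- correction, at `λ = 0`, entry (0, 0) -/
def HJ00 (p : Par) : Jet :=
  mkJ ⟨(1 / 4) * p.Z33 + (1 / 4) * p.Z11, 0, 0⟩ 0 0 0 ⟨-(1 / 4) * p.t * p.Z33 - (1 / 4) * p.t * p.Z11, 0, 0⟩ 0 0 0 0 0 0 0 0 0 0 0 0 0 ⟨-(1 / 4) * p.Z33 - (1 / 4) * p.Z11 + (3 / 4) * p.t ^ 2 * p.Z33 + (3 / 4) * p.t ^ 2 * p.Z11, 0, 0⟩ 0 ⟨-(1 / 4) * p.Z33 - (1 / 4) * p.Z11, 0, 0⟩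

/-- correction, at `λ = 0`, entry (1, 1) -/
def HJ11 (p : Par) : Jet :=
  mkJ ⟨(1 / 4) * p.Z22, 0, 0⟩ 0 0 0 ⟨-(1 / 4) * p.t * p.Z22, 0, 0⟩ 0 0 0 0 0 0 0 0 0 0 0 0 0 ⟨-(1 / 4) * p.Z22 + (3 / 4) * p.t ^ 2 * p.Z22, 0, 0⟩ 0 ⟨-(1 / 4) * p.Z22, 0, 0⟩

/-- correction, at `λ = 0`, entry (3, 3) -/
def HJ33 (p : Par) : Jet :=
  mkJ ⟨(1 / 24) * p.Z33 - (1 / 12) * p.Z22 - (1 / 12) * p.Z11 - (1 / 6) * p.a * p.Z33 + (1 / 12) * p.a * p.Z22 + (1 / 12) * p.a * p.Z11 + (1 / 8) * p.t ^ 2 * p.s ^ 2 * p.Z22 - (1 / 8) * p.t ^ 2 * p.s ^ 2 * p.Z11, 0, 0⟩ 0 0 ⟨-(1 / 4) * p.t * p.Z13 + (1 / 2) * p.t * p.a * p.Z13 - (1 / 4) * p.t ^ 3 * p.s ^ 2 * p.Z13, 0, 0⟩ ⟨(1 / 6) * p.t * p.a * p.Z33 - (1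 / 12) * p.t * p.a * p.Z22 - (1 / 12) * p.t * p.a * p.Z11 + (1 / 4) * p.t * p.s ^ 2 * p.Z22 - (1 / 4) * p.t * p.s ^ 2 * p.Z11 - (1 / 4) * p.t ^ 3 * p.s ^ 3 * p.Z22 + (1 / 4) * p.t ^ 3 * p.s ^ 3 * p.Z11, 0, 0⟩ 0 0 0 0 0 0 ⟨-(1 / 6) * p.Z33 + (1 / 3) * p.Z22 + (1 / 3) * p.Z11 + (2 / 3) * p.a * p.Z33 - (1 / 3) * p.a * p.Z22 - (1 / 3) * p.a * p.Z11 - (1 / 2) * p.t ^ 2 * p.s ^ 2 * p.Z22 + (1 / 2) * p.t ^ 2 * p.s ^ 2 * p.Z11, 0, 0⟩ 0 0 0 ⟨-(1 / 6) * p.Z33 + (1 / 3) * p.Z22 + (1 / 3) * p.Z11 + (2 / 3) * p.a * p.Z33 - (1 / 3) * p.a * p.Z22 - (1 / 3) * p.a * p.Z11 - (1 / 4) * p.t ^ 2 * p.Z33 + (1 / 3) * p.t ^ 2 * p.a * p.Z33 - (1 / 6) * p.t ^ 2 * p.a * p.Z22 - (1 / 6) * p.t ^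 2 * p.a * p.Z11 - (1 / 2) * p.t ^ 2 * p.s ^ 2 * p.Z22 + (1 / 2) * p.t ^ 2 * p.s ^ 2 * p.Z11 - (1 / 6) * p.t ^ 4 * p.s ^ 2 * p.Z33 + (1 / 12) * p.t ^ 4 * p.s ^ 2 * p.Z22 + (1 / 12) * p.t ^ 4 * p.s ^ 2 * p.Z11, 0, 0⟩ ⟨-(1 / 4) * p.Z13 + (1 / 2) * p.a * p.Z13 + (1 / 4) * p.t ^ 2 * p.Z13 - p.t ^ 2 * p.a * p.Z13 - (3 / 4) * p.t ^ 2 * p.s ^ 2 * p.Z13 + (1 / 4) * p.t ^ 4 * p.s ^ 2 * p.Z13 + (1 / 2) * p.t ^ 4 * p.s ^ 3 * p.Z13, 0, 0⟩ 0 ⟨(1 / 6) * p.a * p.Z33 - (1 / 12) * p.a * p.Z22 - (1 / 12) * p.a * p.Z11 + (1 / 4) * p.s ^ 2 * p.Z22 - (1 / 4) * p.s ^ 2 * p.Z11 - (1 / 2) * p.t ^ 2 * p.a * p.Z33 + (1 / 4) * p.t ^ 2 * p.a * p.Z22 + (1 / 4) * p.t ^ 2 * p.a * p.Z11 - (5 / 4) *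 p.t ^ 2 * p.s ^ 3 * p.Z22 + (5 / 4) * p.t ^ 2 * p.s ^ 3 * p.Z11 + (1 / 4) * p.t ^ 4 * p.s ^ 3 * p.Z22 - (1 / 4) * p.t ^ 4 * p.s ^ 3 * p.Z11 + (3 / 4) * p.t ^ 4 * p.s ^ 4 * p.Z22 - (3 / 4) * p.t ^ 4 * p.s ^ 4 * p.Z11, 0, 0⟩ 0 ⟨(1 / 6) * p.a * p.Z33 - (1 / 12) * p.a * p.Z22 - (1 / 12) * p.a * p.Z11 - (1 / 4) * p.s ^ 2 * p.Z22 + (1 / 4) * p.s ^ 2 * p.Z11 - (1 / 4) * p.t ^ 2 * p.s ^ 3 * p.Z22 + (1 / 4) * p.t ^ 2 * p.s ^ 3 * p.Z11, 0, 0⟩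

/-- correction, at `λ = 0`, entry (3, 4) -/
def HJ34 (p : Par) : Jet :=
  mkJ 0 0 ⟨(1 / 8) * p.t * p.Z13 - (1 / 4) * p.t * p.a * p.Z13 + (1 / 8) * p.t ^ 3 * p.s ^ 2 * p.Z13, 0, 0⟩ 0 0 ⟨(1 / 4) * p.t * p.s ^ 2 * p.Z22 - (1 / 4) * p.t * p.s ^ 2 * p.Z11, 0, 0⟩ 0 0 0 0 0 0 ⟨(1 / 8) * p.t ^ 2 * p.Z33 - (1 / 6) * p.t ^ 2 * p.a * p.Z33 + (1 / 12) * p.t ^ 2 * p.a * p.Z22 + (1 / 12) * p.t ^ 2 * p.a * p.Z11 + (1 / 12) * p.t ^ 4 * p.s ^ 2 * p.Z33 - (1 / 24) * p.t ^ 4 * p.s ^ 2 * p.Z22 - (1 / 24) * p.t ^ 4 * p.s ^ 2 * p.Z11, 0, 0⟩ ⟨(1 / 8) * p.Z13 - (1 / 4) * p.a * p.Z13 - (1 / 8) * p.t ^ 2 * p.Z13 + (1 / 2) * p.t ^ 2 * p.a * p.Z13 + (3 / 8) * p.t ^ 2 * p.s ^ 2 * p.Z13 - (1 / 8)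 * p.t ^ 4 * p.s ^ 2 * p.Z13 - (1 / 4) * p.t ^ 4 * p.s ^ 3 * p.Z13, 0, 0⟩ 0 0 0 ⟨-(1 / 8) * p.Z13 + (1 / 4) * p.a * p.Z13 - (1 / 8) * p.t ^ 2 * p.s ^ 2 * p.Z13, 0, 0⟩ 0 ⟨(1 / 4) * p.s ^ 2 * p.Z22 - (1 / 4) * p.s ^ 2 * p.Z11 - (1 / 2) * p.t ^ 2 * p.s ^ 3 * p.Z22 + (1 / 2) * p.t ^ 2 * p.s ^ 3 * p.Z11, 0, 0⟩ 0

/-- correction, at `λ = 0`, entry (3, 5) -/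
def HJ35 (p : Par) : Jet :=
  mkJ 0 0 0 0 0 ⟨(1 / 8) * p.t * p.s ^ 2 * p.Z13, 0, 0⟩ 0 0 0 0 0 0 0 0 0 0 0 ⟨(1 / 16) * p.Z33 - (1 / 12) * p.a * p.Z33 + (1 / 24) * p.a * p.Z22 + (1 / 24) * p.a * p.Z11 + (1 / 24) * p.t ^ 2 * p.s ^ 2 * p.Z33 - (1 / 48) * p.t ^ 2 * p.s ^ 2 * p.Z22 - (1 / 48) * p.t ^ 2 * p.s ^ 2 * p.Z11, 0, 0⟩ 0 ⟨(1 / 8) * p.s ^ 2 * p.Z13 - (1 / 8) * p.t ^ 2 * p.s ^ 2 * p.Z13 - (1 / 4) * p.t ^ 2 * p.s ^ 3 * p.Z13, 0, 0⟩ 0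

/-- correction, at `λ = 0`, entry (3, 6) -/
def HJ36 (p : Par) : Jet :=
  mkJ ⟨-(1 / 16) * p.Z13 + (1 / 8) * p.a * p.Z13 - (1 / 16) * p.t ^ 2 * p.s ^ 2 * p.Z13, 0, 0⟩ 0 0 ⟨-(1 / 16) * p.t * p.Z33 + (1 / 12) * p.t * p.a * p.Z33 - (1 / 24) * p.t * p.a * p.Z22 - (1 / 24) * p.t * p.a * p.Z11 - (1 / 24) * p.t ^ 3 * p.s ^ 2 * p.Z33 + (1 / 48) * p.t ^ 3 * p.s ^ 2 * p.Z22 + (1 / 48) * p.t ^ 3 * p.s ^ 2 * p.Z11, 0, 0⟩ ⟨(1 / 16) * p.t * p.Z13 - (1 / 4) * p.t * p.a * p.Z13 - (1 / 8) * p.t * p.s ^ 2 * p.Z13 + (1 / 16) * p.t ^ 3 * p.s ^ 2 * p.Z13 + (1 / 8) * p.t ^ 3 * p.s ^ 3 * p.Z13, 0, 0⟩ 0 0 0 0 0 0 ⟨(1 / 8) * p.Z13 - (1 / 4) * p.a * p.Z13 + (1 / 8) * p.t ^ 2 * p.s ^ 2 * p.Z13,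 0, 0⟩ 0 0 0 ⟨(1 / 8) * p.Z13 - (1 / 4) * p.a * p.Z13 + (1 / 8) * p.t ^ 2 * p.s ^ 2 * p.Z13, 0, 0⟩ ⟨-(1 / 16) * p.Z33 + (1 / 12) * p.a * p.Z33 - (1 / 24) * p.a * p.Z22 - (1 / 24) * p.a * p.Z11 + (1 / 8) * p.t ^ 2 * p.Z33 - (1 / 4) * p.t ^ 2 * p.a * p.Z33 + (1 / 8) * p.t ^ 2 * p.a * p.Z22 + (1 / 8) * p.t ^ 2 * p.a * p.Z11 - (1 / 8) * p.t ^ 2 * p.s ^ 2 * p.Z33 + (1 / 16) * p.t ^ 2 * p.s ^ 2 * p.Z22 + (1 / 16) * p.t ^ 2 * p.s ^ 2 * p.Z11 + (1 / 12) * p.t ^ 4 * p.s ^ 2 * p.Z33 - (1 / 24) * p.t ^ 4 * p.s ^ 2 * p.Z22 - (1 / 24) * p.t ^ 4 * p.s ^ 2 * p.Z11 + (1 / 12) * p.t ^ 4 * p.s ^ 3 * p.Z33 - (1 / 24) * p.t ^ 4 * p.s ^ 3 * p.Z22 - (1 / 24) * p.t ^ 4 * p.s ^ 3 * p.Z11, 0,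 0⟩ 0 ⟨(1 / 16) * p.Z13 - (1 / 4) * p.a * p.Z13 - (1 / 8) * p.s ^ 2 * p.Z13 - (3 / 16) * p.t ^ 2 * p.Z13 + p.t ^ 2 * p.a * p.Z13 + (5 / 16) * p.t ^ 2 * p.s ^ 2 * p.Z13 + (5 / 8) * p.t ^ 2 * p.s ^ 3 * p.Z13 - (3 / 16) * p.t ^ 4 * p.s ^ 2 * p.Z13 - (3 / 8) * p.t ^ 4 * p.s ^ 3 * p.Z13 - (3 / 8) * p.t ^ 4 * p.s ^ 4 * p.Z13, 0, 0⟩ 0 ⟨(1 / 16) * p.Z13 - (1 / 4) * p.a * p.Z13 + (1 / 8) * p.s ^ 2 * p.Z13 + (1 / 16) * p.t ^ 2 * p.s ^ 2 * p.Z13 + (1 / 8) * p.t ^ 2 * p.s ^ 3 * p.Z13, 0, 0⟩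

/-- correction, at `λ = 0`, entry (4, 4) -/
def HJ44 (p : Par) : Jet :=
  mkJ ⟨(1 / 24) * p.Z33 - (1 / 12) * p.Z22 - (1 / 12) * p.Z11 - (1 / 6) * p.a * p.Z33 + (1 / 12) * p.a * p.Z22 + (1 / 12) * p.a * p.Z11 - (1 / 8) * p.t ^ 2 * p.s ^ 2 * p.Z22 + (1 / 8) * p.t ^ 2 * p.s ^ 2 * p.Z11, 0, 0⟩ 0 0 0 ⟨(1 / 6) * p.t * p.a * p.Z33 - (1 / 12) * p.t * p.a * p.Z22 - (1 / 12) * p.t * p.a * p.Z11 - (1 / 4) * p.t * p.s ^ 2 * p.Z22 + (1 / 4) * p.t * p.s ^ 2 * p.Z11 + (1 / 4) * p.t ^ 3 * p.s ^ 3 * p.Z22 - (1 / 4) * p.t ^ 3 * p.s ^ 3 * p.Z11, 0, 0⟩ 0 0 0 0 0 0 ⟨-(1 / 6) * p.Z33 + (1 / 3) * p.Z22 + (1 / 3) * p.Z11 + (2 / 3) * p.a * p.Z33 - (1 / 3) * p.a * p.Z22 - (1 / 3) * p.a * p.Z11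 - (1 / 4) * p.t ^ 2 * p.Z33 + (1 / 3) * p.t ^ 2 * p.a * p.Z33 - (1 / 6) * p.t ^ 2 * p.a * p.Z22 - (1 / 6) * p.t ^ 2 * p.a * p.Z11 + (1 / 2) * p.t ^ 2 * p.s ^ 2 * p.Z22 - (1 / 2) * p.t ^ 2 * p.s ^ 2 * p.Z11 - (1 / 6) * p.t ^ 4 * p.s ^ 2 * p.Z33 + (1 / 12) * p.t ^ 4 * p.s ^ 2 * p.Z22 + (1 / 12) * p.t ^ 4 * p.s ^ 2 * p.Z11, 0, 0⟩ 0 0 ⟨(1 / 4) * p.Z13 - (1 / 2) * p.a * p.Z13 + (1 / 4) * p.t ^ 2 * p.s ^ 2 * p.Z13, 0, 0⟩ ⟨-(1 / 6) * p.Z33 + (1 / 3) * p.Z22 + (1 / 3) * p.Z11 + (2 / 3) * p.a * p.Z33 - (1 / 3) * p.a * p.Z22 - (1 / 3) * p.a * p.Z11 + (1 / 2) * p.t ^ 2 * p.s ^ 2 * p.Z22 - (1 / 2) * p.t ^ 2 * p.s ^ 2 * p.Z11, 0, 0⟩ 0 0 ⟨(1 / 6) * p.a * p.Z33 - (1 / 12) * p.a * p.Z22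 - (1 / 12) * p.a * p.Z11 - (1 / 4) * p.s ^ 2 * p.Z22 + (1 / 4) * p.s ^ 2 * p.Z11 - (1 / 2) * p.t ^ 2 * p.a * p.Z33 + (1 / 4) * p.t ^ 2 * p.a * p.Z22 + (1 / 4) * p.t ^ 2 * p.a * p.Z11 + (5 / 4) * p.t ^ 2 * p.s ^ 3 * p.Z22 - (5 / 4) * p.t ^ 2 * p.s ^ 3 * p.Z11 - (1 / 4) * p.t ^ 4 * p.s ^ 3 * p.Z22 + (1 / 4) * p.t ^ 4 * p.s ^ 3 * p.Z11 - (3 / 4) * p.t ^ 4 * p.s ^ 4 * p.Z22 + (3 / 4) * p.t ^ 4 * p.s ^ 4 * p.Z11, 0, 0⟩ 0 ⟨(1 / 6) * p.a * p.Z33 - (1 / 12) * p.a * p.Z22 - (1 / 12) * p.a * p.Z11 + (1 / 4) * p.s ^ 2 * p.Z22 - (1 / 4) * p.s ^ 2 * p.Z11 + (1 / 4) * p.t ^ 2 * p.s ^ 3 * p.Z22 - (1 / 4) * p.t ^ 2 * p.s ^ 3 * p.Z11, 0, 0⟩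

/-- correction, at `λ = 0`, entry (4, 5) -/
def HJ45 (p : Par) : Jet :=
  mkJ ⟨(1 / 16) * p.Z13 - (1 / 8) * p.a * p.Z13 - (1 / 16) * p.t ^ 2 * p.s ^ 2 * p.Z13, 0, 0⟩ 0 0 0 ⟨-(1 / 16) * p.t * p.Z13 + (1 / 4) * p.t * p.a * p.Z13 - (1 / 8) * p.t * p.s ^ 2 * p.Z13 + (1 / 16) * p.t ^ 3 * p.s ^ 2 * p.Z13 + (1 / 8) * p.t ^ 3 * p.s ^ 3 * p.Z13, 0, 0⟩ 0 0 0 0 0 0 ⟨-(1 / 8) * p.Z13 + (1 / 4) * p.a * p.Z13 + (1 / 8) * p.t ^ 2 * p.s ^ 2 * p.Z13, 0, 0⟩ 0 0 ⟨-(1 / 16) * p.Z33 + (1 / 12) * p.a * p.Z33 - (1 / 24) * p.a * p.Z22 - (1 / 24) * p.a * p.Z11 - (1 / 24) * p.t ^ 2 * p.s ^ 2 * p.Z33 + (1 / 48) * p.t ^ 2 * p.s ^ 2 * p.Z22 + (1 / 48) * p.t ^ 2 * p.s ^ 2 * p.Z11, 0, 0⟩ ⟨-(1 / 8)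 * p.Z13 + (1 / 4) * p.a * p.Z13 + (1 / 8) * p.t ^ 2 * p.s ^ 2 * p.Z13, 0, 0⟩ 0 0 ⟨-(1 / 16) * p.Z13 + (1 / 4) * p.a * p.Z13 - (1 / 8) * p.s ^ 2 * p.Z13 + (3 / 16) * p.t ^ 2 * p.Z13 - p.t ^ 2 * p.a * p.Z13 + (5 / 16) * p.t ^ 2 * p.s ^ 2 * p.Z13 + (5 / 8) * p.t ^ 2 * p.s ^ 3 * p.Z13 - (3 / 16) * p.t ^ 4 * p.s ^ 2 * p.Z13 - (3 / 8) * p.t ^ 4 * p.s ^ 3 * p.Z13 - (3 / 8) * p.t ^ 4 * p.s ^ 4 * p.Z13, 0, 0⟩ 0 ⟨-(1 / 16) * p.Z13 + (1 / 4) * p.a * p.Z13 + (1 / 8) * p.s ^ 2 * p.Z13 + (1 / 16) * p.t ^ 2 * p.s ^ 2 * p.Z13 + (1 / 8) * p.t ^ 2 * p.s ^ 3 * p.Z13, 0, 0⟩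

/-- correction, at `λ = 0`, entry (4, 6) -/
def HJ46 (p : Par) : Jet :=
  mkJ 0 0 ⟨(1 / 16) * p.t * p.Z33 - (1 / 12) * p.t * p.a * p.Z33 + (1 / 24) * p.t * p.a * p.Z22 + (1 / 24) * p.t * p.a * p.Z11 + (1 / 24) * p.t ^ 3 * p.s ^ 2 * p.Z33 - (1 / 48) * p.t ^ 3 * p.s ^ 2 * p.Z22 - (1 / 48) * p.t ^ 3 * p.s ^ 2 * p.Z11, 0, 0⟩ 0 0 ⟨-(1 / 8) * p.t * p.s ^ 2 * p.Z13, 0, 0⟩ 0 0 0 0 0 0 0 ⟨(1 / 16) * p.Z33 - (1 / 12) * p.a * p.Z33 + (1 / 24) * p.a * p.Z22 + (1 / 24) * p.a * p.Z11 - (1 / 8) * p.t ^ 2 * p.Z33 + (1 / 4) * p.t ^ 2 * p.a * p.Z33 - (1 / 8) * p.t ^ 2 * p.a * p.Z22 - (1 / 8) * p.t ^ 2 * p.a * p.Z11 + (1 / 8) * p.t ^ 2 * p.s ^ 2 * p.Z33 - (1 / 16) * p.t ^ 2 * p.s ^ 2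 * p.Z22 - (1 / 16) * p.t ^ 2 * p.s ^ 2 * p.Z11 - (1 / 12) * p.t ^ 4 * p.s ^ 2 * p.Z33 + (1 / 24) * p.t ^ 4 * p.s ^ 2 * p.Z22 + (1 / 24) * p.t ^ 4 * p.s ^ 2 * p.Z11 - (1 / 12) * p.t ^ 4 * p.s ^ 3 * p.Z33 + (1 / 24) * p.t ^ 4 * p.s ^ 3 * p.Z22 + (1 / 24) * p.t ^ 4 * p.s ^ 3 * p.Z11, 0, 0⟩ 0 0 0 0 0 ⟨-(1 / 8) * p.s ^ 2 * p.Z13 + (1 / 8) * p.t ^ 2 * p.s ^ 2 * p.Z13 + (1 / 4) * p.t ^ 2 * p.s ^ 3 * p.Z13, 0, 0⟩ 0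

/-- correction, at `λ = 0`, entry (5, 5) -/
def HJ55 (p : Par) : Jet :=
  mkJ ⟨-(1 / 32) * p.Z33 + (1 / 24) * p.a * p.Z33 - (1 / 48) * p.a * p.Z22 - (1 / 48) * p.a * p.Z11 + (1 / 48) * p.t ^ 2 * p.s ^ 2 * p.Z33 - (1 / 96) * p.t ^ 2 * p.s ^ 2 * p.Z22 - (1 / 96) * p.t ^ 2 * p.s ^ 2 * p.Z11, 0, 0⟩ 0 0 0 ⟨(1 / 16) * p.t * p.Z33 - (1 / 8) * p.t * p.a * p.Z33 + (1 / 16) * p.t * p.a * p.Z22 + (1 / 16) * p.t * p.a * p.Z11 + (1 / 24) * p.t * p.s ^ 2 * p.Z33 - (1 / 48) * p.t * p.s ^ 2 * p.Z22 - (1 / 48) * p.t * p.s ^ 2 * p.Z11 - (1 / 24) * p.t ^ 3 * p.s ^ 2 * p.Z33 + (1 / 48) * p.t ^ 3 * p.s ^ 2 * p.Z22 + (1 / 48) * p.t ^ 3 * p.s ^ 2 * p.Z11 - (1 / 24) * p.t ^ 3 * p.s ^ 3 * p.Z33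 + (1 / 48) * p.t ^ 3 * p.s ^ 3 * p.Z22 + (1 / 48) * p.t ^ 3 * p.s ^ 3 * p.Z11, 0, 0⟩ 0 0 0 0 0 0 0 0 0 0 0 0 0 ⟨(1 / 16) * p.Z33 - (1 / 8) * p.a * p.Z33 + (1 / 16) * p.a * p.Z22 + (1 / 16) * p.a * p.Z11 + (1 / 24) * p.s ^ 2 * p.Z33 - (1 / 48) * p.s ^ 2 * p.Z22 - (1 / 48) * p.s ^ 2 * p.Z11 - (1 / 4) * p.t ^ 2 * p.Z33 + (5 / 8) * p.t ^ 2 * p.a * p.Z33 - (5 / 16) * p.t ^ 2 * p.a * p.Z22 - (5 / 16) * p.t ^ 2 * p.a * p.Z11 - (5 / 24) * p.t ^ 2 * p.s ^ 2 * p.Z33 + (5 / 48) * p.t ^ 2 * p.s ^ 2 * p.Z22 + (5 / 48) * p.t ^ 2 * p.s ^ 2 * p.Z11 - (5 / 24) * p.t ^ 2 * p.s ^ 3 * p.Z33 + (5 / 48) * p.t ^ 2 * p.s ^ 3 * p.Z22 + (5 / 48) * p.t ^ 2 * p.s ^ 3 * p.Z11 + (1 / 6) * p.t ^ 4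 * p.s ^ 2 * p.Z33 - (1 / 12) * p.t ^ 4 * p.s ^ 2 * p.Z22 - (1 / 12) * p.t ^ 4 * p.s ^ 2 * p.Z11 + (5 / 24) * p.t ^ 4 * p.s ^ 3 * p.Z33 - (5 / 48) * p.t ^ 4 * p.s ^ 3 * p.Z22 - (5 / 48) * p.t ^ 4 * p.s ^ 3 * p.Z11 + (1 / 8) * p.t ^ 4 * p.s ^ 4 * p.Z33 - (1 / 16) * p.t ^ 4 * p.s ^ 4 * p.Z22 - (1 / 16) * p.t ^ 4 * p.s ^ 4 * p.Z11, 0, 0⟩ 0 ⟨(1 / 16) * p.Z33 - (1 / 8) * p.a * p.Z33 + (1 / 16) * p.a * p.Z22 + (1 / 16) * p.a * p.Z11 - (1 / 24) * p.s ^ 2 * p.Z33 + (1 / 48) * p.s ^ 2 * p.Z22 + (1 / 48) * p.s ^ 2 * p.Z11 - (1 / 24) * p.t ^ 2 * p.s ^ 2 * p.Z33 + (1 / 48) * p.t ^ 2 * p.s ^ 2 * p.Z22 + (1 / 48) * p.t ^ 2 * p.s ^ 2 * p.Z11 - (1 / 24) * p.t ^ 2 * p.s ^ 3 * p.Z33 +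 (1 / 48) * p.t ^ 2 * p.s ^ 3 * p.Z22 + (1 / 48) * p.t ^ 2 * p.s ^ 3 * p.Z11, 0, 0⟩

/-- correction, at `λ = 0`, entry (5, 6) -/
def HJ56 (p : Par) : Jet :=
  mkJ 0 0 0 0 0 ⟨(1 / 24) * p.t * p.s ^ 2 * p.Z33 - (1 / 48) * p.t * p.s ^ 2 * p.Z22 - (1 / 48) * p.t * p.s ^ 2 * p.Z11, 0, 0⟩ 0 0 0 0 0 0 0 0 0 0 0 0 0 ⟨(1 / 24) * p.s ^ 2 * p.Z33 - (1 / 48) * p.s ^ 2 * p.Z22 - (1 / 48) * p.s ^ 2 * p.Z11 - (1 / 12) * p.t ^ 2 * p.s ^ 2 * p.Z33 + (1 / 24) * p.t ^ 2 * p.s ^ 2 * p.Z22 + (1 / 24) * p.t ^ 2 * p.s ^ 2 * p.Z11 - (1 / 12) * p.t ^ 2 * p.s ^ 3 * p.Z33 + (1 / 24) * p.t ^ 2 * p.s ^ 3 * p.Z22 + (1 / 24) * p.t ^ 2 * p.s ^ 3 * p.Z11, 0, 0⟩ 0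

/-- correction, at `λ = 0`, entry (6, 6) -/
def HJ66 (p : Par) : Jet :=
  mkJ ⟨-(1 / 32) * p.Z33 + (1 / 24) * p.a * p.Z33 - (1 / 48) * p.a * p.Z22 - (1 / 48) * p.a * p.Z11 - (1 / 48) * p.t ^ 2 * p.s ^ 2 * p.Z33 + (1 / 96) * p.t ^ 2 * p.s ^ 2 * p.Z22 + (1 / 96) * p.t ^ 2 * p.s ^ 2 * p.Z11, 0, 0⟩ 0 0 0 ⟨(1 / 16) * p.t * p.Z33 - (1 / 8) * p.t * p.a * p.Z33 + (1 / 16) * p.t * p.a * p.Z22 + (1 / 16) * p.t * p.a * p.Z11 - (1 / 24) * p.t * p.s ^ 2 * p.Z33 + (1 / 48) * p.t * p.s ^ 2 * p.Z22 + (1 / 48) * p.t * p.s ^ 2 * p.Z11 + (1 / 24) * p.t ^ 3 * p.s ^ 2 * p.Z33 - (1 / 48) * p.t ^ 3 * p.s ^ 2 * p.Z22 - (1 / 48) * p.t ^ 3 * p.s ^ 2 * p.Z11 + (1 / 24) * p.t ^ 3 * p.s ^ 3 * p.Z33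 - (1 / 48) * p.t ^ 3 * p.s ^ 3 * p.Z22 - (1 / 48) * p.t ^ 3 * p.s ^ 3 * p.Z11, 0, 0⟩ 0 0 0 0 0 0 0 0 0 0 0 0 0 ⟨(1 / 16) * p.Z33 - (1 / 8) * p.a * p.Z33 + (1 / 16) * p.a * p.Z22 + (1 / 16) * p.a * p.Z11 - (1 / 24) * p.s ^ 2 * p.Z33 + (1 / 48) * p.s ^ 2 * p.Z22 + (1 / 48) * p.s ^ 2 * p.Z11 - (1 / 4) * p.t ^ 2 * p.Z33 + (5 / 8) * p.t ^ 2 * p.a * p.Z33 - (5 / 16) * p.t ^ 2 * p.a * p.Z22 - (5 / 16) * p.t ^ 2 * p.a * p.Z11 + (5 / 24) * p.t ^ 2 * p.s ^ 2 * p.Z33 - (5 / 48) * p.t ^ 2 * p.s ^ 2 * p.Z22 - (5 / 48) * p.t ^ 2 * p.s ^ 2 * p.Z11 + (5 / 24) * p.t ^ 2 * p.s ^ 3 * p.Z33 - (5 / 48) * p.t ^ 2 * p.s ^ 3 * p.Z22 - (5 / 48) * p.t ^ 2 * p.s ^ 3 * p.Z11 - (1 / 6) * p.t ^ 4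 * p.s ^ 2 * p.Z33 + (1 / 12) * p.t ^ 4 * p.s ^ 2 * p.Z22 + (1 / 12) * p.t ^ 4 * p.s ^ 2 * p.Z11 - (5 / 24) * p.t ^ 4 * p.s ^ 3 * p.Z33 + (5 / 48) * p.t ^ 4 * p.s ^ 3 * p.Z22 + (5 / 48) * p.t ^ 4 * p.s ^ 3 * p.Z11 - (1 / 8) * p.t ^ 4 * p.s ^ 4 * p.Z33 + (1 / 16) * p.t ^ 4 * p.s ^ 4 * p.Z22 + (1 / 16) * p.t ^ 4 * p.s ^ 4 * p.Z11, 0, 0⟩ 0 ⟨(1 / 16) * p.Z33 - (1 / 8) * p.a * p.Z33 + (1 / 16) * p.a * p.Z22 + (1 / 16) * p.a * p.Z11 + (1 / 24) * p.s ^ 2 * p.Z33 - (1 / 48) * p.s ^ 2 * p.Z22 - (1 / 48) * p.s ^ 2 * p.Z11 + (1 / 24) * p.t ^ 2 * p.s ^ 2 * p.Z33 - (1 / 48) * p.t ^ 2 * p.s ^ 2 * p.Z22 - (1 / 48) * p.t ^ 2 * p.s ^ 2 * p.Z11 + (1 / 24) * p.t ^ 2 * p.s ^ 3 * p.Z33 -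 (1 / 48) * p.t ^ 2 * p.s ^ 3 * p.Z22 - (1 / 48) * p.t ^ 2 * p.s ^ 3 * p.Z11, 0, 0⟩

/-- 2-jets of the correction, at `λ = 0` -/
def HJ (p : Par) : Fin 7 → Fin 7 → Jet :=
  ![![HJ00 p, J0, J0, J0, J0, J0, J0],
    ![J0, HJ11 p, J0, J0, J0, J0, J0],
    ![J0, J0, J0, J0, J0, J0, J0],
    ![J0, J0, J0, HJ33 p, HJ34 p, HJ35 p, HJ36 p],
    ![J0, J0, J0, HJ34 p, HJ44 p, HJ45 p, HJ46 p],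
    ![J0, J0, J0, HJ35 p, HJ45 p, HJ55 p, HJ56 p],
    ![J0, J0, J0, HJ36 p, HJ46 p, HJ56 p, HJ66 p]]

/-- 2-jets of the rescaled core metric -/
def GJ (p : Par) (i j : Fin 7) : Jet := (MJ p i j).add (Jet.smul ⟨0, 0, 1⟩ (HJ p i j))

end H31R

end
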