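import Pool.Agent.Lib.H31R.F3t

/-!
# H31R: auxiliary tables for the chunk F4 (computer algebra; see the header of `F4`)
-/

noncomputable section

namespace H31R

/-- Christoffel symbols, lower index first, index 0 -/
def GlT0 (p : Par) : Fin 7 → Fin 7 → T3 :=
  ![![0, 0, 0, 0, 0, ⟨0, 0, -(1 / 8) * p.t * p.Z33 - (1 / 8) * p.t * p.Z11 + p.t * p.b2 ^ 2 - (1 / 2) * p.t ^ 3 * p.b2 ^ 2⟩, 0],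
    ![0, 0, 0, ⟨0, 0, -p.t * p.b2 * p.b3⟩, 0, 0, ⟨0, 0, (1 / 2) * p.t * p.b1 * p.b2 - (1 / 4) * p.t * p.a * p.A1 * p.b3⟩],
    ![0, 0, 0, 0, 0, 0, 0],
    ![0, ⟨0, 0, -p.t * p.b2 * p.b3⟩, 0, ⟨0, -(1 / 2) * p.a * p.A1, 0⟩, 0, 0, ⟨0, (1 / 2) * p.b2, 0⟩],
    ![0, 0, 0, 0, ⟨0, -(1 / 2) * p.a * p.A1, 0⟩, ⟨0, -(1 / 2) * p.b2, 0⟩, 0],
    ![⟨0, 0, -(1 / 8) * p.t * p.Z33 - (1 / 8) * p.t * p.Z11 + p.t * p.b2 ^ 2 - (1 / 2) * p.t ^ 3 * p.b2 ^ 2⟩, 0, 0, 0, ⟨0, -(1 / 2) * p.b2, 0⟩, ⟨0, (1 / 8) * p.a * p.A1, 0⟩, 0],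
    ![0, ⟨0, 0, (1 / 2) * p.t * p.b1 * p.b2 - (1 / 4) * p.t * p.a * p.A1 * p.b3⟩, 0, ⟨0, (1 / 2) * p.b2, 0⟩, 0, 0, ⟨0, (1 / 8) * p.a * p.A1, 0⟩]]

/-- Christoffel symbols, lower index first, index 1 -/
def GlT1 (p : Par) : Fin 7 → Fin 7 → T3 :=
  ![![0, 0, 0, ⟨0, 0, p.t * p.b2 * p.b3⟩, 0, 0, ⟨0, 0, -(1 / 2) * p.t * p.b1 * p.b2 + (1 / 4) * p.t * p.a * p.A1 * p.b3⟩],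
    ![0, 0, 0, 0, 0, ⟨0, 0, -(1 / 8) * p.t * p.Z22 + p.t * p.b3 ^ 2 + p.t * p.b1 ^ 2 - (1 / 2) * p.t ^ 3 * p.b3 ^ 2 - (1 / 2) * p.t ^ 3 * p.b1 ^ 2⟩, 0],
    ![0, 0, 0, 0, 0, 0, 0],
    ![⟨0, 0, p.t * p.b2 * p.b3⟩, 0, 0, 0, 0, ⟨0, -(1 / 2) * p.b1, 0⟩, 0],
    ![0, 0, 0, 0, 0, 0, ⟨0, -(1 / 2) * p.b1, 0⟩],
    ![0, ⟨0, 0, -(1 / 8) * p.t * p.Z22 + p.t * p.b3 ^ 2 + p.t * p.b1 ^ 2 - (1 / 2) * p.t ^ 3 * p.b3 ^ 2 - (1 / 2) * p.t ^ 3 * p.b1 ^ 2⟩, 0, ⟨0, -(1 / 2) * p.b1, 0⟩, 0, 0, ⟨0, (1 / 4) * p.t ^ 2 * p.b3, 0⟩],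
    ![⟨0, 0, -(1 / 2) * p.t * p.b1 * p.b2 + (1 / 4) * p.t * p.a * p.A1 * p.b3⟩, 0, 0, 0, ⟨0, -(1 / 2) * p.b1, 0⟩, ⟨0, (1 / 4) * p.t ^ 2 * p.b3, 0⟩, 0]]

/-- Christoffel symbols, lower index first, index 3 -/
def GlT3 (p : Par) : Fin 7 → Fin 7 → T3 :=
  ![![0, ⟨0, 0, p.t * p.b2 * p.b3⟩, 0, ⟨0, (1 / 2) * p.a * p.A1, 0⟩, 0, 0, ⟨0, (1 / 2) * p.b2, 0⟩],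
    ![⟨0, 0, p.t * p.b2 * p.b3⟩, 0, 0, 0, ⟨0, -p.t ^ 2 * p.b3, 0⟩, ⟨0, -(1 / 2) * p.b1, 0⟩, 0],
    ![0, 0, 0, 0, 0, 0, 0],
    ![⟨0, (1 / 2) * p.a * p.A1, 0⟩, 0, 0, 0, ⟨0, 0, -(1 / 8) * p.t * p.Z13 + (1 / 4) * p.t * p.a * p.Z13 - (1 / 8) * p.t ^ 3 * p.s ^ 2 * p.Z13⟩, ⟨(1 / 2) * p.t, 0, (1 / 12) * p.t * p.a * p.Z33 - (1 / 24) * p.t * p.a * p.Z22 - (1 / 24) * p.t * p.a * p.Z11 + (1 / 8) * p.t * p.s ^ 2 * p.Z22 - (1 / 8) * p.t * p.s ^ 2 * p.Z11 - (1 / 8) * p.t ^ 3 * p.s ^ 3 * p.Z22 + (1 / 8) * p.t ^ 3 * p.s ^ 3 * p.Z11⟩, 0],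
    ![0, ⟨0, -p.t ^ 2 * p.b3, 0⟩, 0, ⟨0, 0, -(1 / 8) * p.t * p.Z13 + (1 / 4) * p.t * p.a * p.Z13 - (1 / 8) * p.t ^ 3 * p.s ^ 2 * p.Z13⟩, 0, 0, ⟨(1 / 2) * p.t, 0, -(1 / 16) * p.t * p.Z33 + (1 / 12) * p.t * p.a * p.Z33 - (1 / 24) * p.t * p.a * p.Z22 - (1 / 24) * p.t * p.a * p.Z11 + (1 / 8) * p.t * p.s ^ 2 * p.Z22 - (1 / 8) * p.t * p.s ^ 2 * p.Z11 - (1 / 24) * p.t ^ 3 * p.s ^ 2 * p.Z33 + (1 / 48) * p.t ^ 3 * p.s ^ 2 * p.Z22 + (1 / 48) * p.t ^ 3 * p.s ^ 2 * p.Z11⟩],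
    ![0, ⟨0, -(1 / 2) * p.b1, 0⟩, 0, ⟨(1 / 2) * p.t, 0, (1 / 12) * p.t * p.a * p.Z33 - (1 / 24) * p.t * p.a * p.Z22 - (1 / 24) * p.t * p.a * p.Z11 + (1 / 8) * p.t * p.s ^ 2 * p.Z22 - (1 / 8) * p.t * p.s ^ 2 * p.Z11 - (1 / 8) * p.t ^ 3 * p.s ^ 3 * p.Z22 + (1 / 8) * p.t ^ 3 * p.s ^ 3 * p.Z11⟩, 0, 0, ⟨0, 0, (1 / 32) * p.t * p.Z13 - (1 / 8) * p.t * p.a * p.Z13 + (1 / 32) * p.t ^ 3 * p.s ^ 2 * p.Z13 + (1 / 16) * p.t ^ 3 * p.s ^ 3 * p.Z13⟩],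
    ![⟨0, (1 / 2) * p.b2, 0⟩, 0, 0, 0, ⟨(1 / 2) * p.t, 0, -(1 / 16) * p.t * p.Z33 + (1 / 12) * p.t * p.a * p.Z33 - (1 / 24) * p.t * p.a * p.Z22 - (1 / 24) * p.t * p.a * p.Z11 + (1 / 8) * p.t * p.s ^ 2 * p.Z22 - (1 / 8) * p.t * p.s ^ 2 * p.Z11 - (1 / 24) * p.t ^ 3 * p.s ^ 2 * p.Z33 + (1 / 48) * p.t ^ 3 * p.s ^ 2 * p.Z22 + (1 / 48) * p.t ^ 3 * p.s ^ 2 * p.Z11⟩, ⟨0, 0, (1 / 32) * p.t * p.Z13 - (1 / 8) * p.t * p.a * p.Z13 + (1 / 32) * p.t ^ 3 * p.s ^ 2 * p.Z13 + (1 / 16) * p.t ^ 3 * p.s ^ 3 * p.Z13⟩, 0]]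

/-- Christoffel symbols, lower index first, index 4 -/
def GlT4 (p : Par) : Fin 7 → Fin 7 → T3 :=
  ![![⟨0, 0, -p.t * p.c2⟩, 0, 0, 0, ⟨0, (1 / 2) * p.a * p.A1, 0⟩, ⟨0, -(1 / 2) * p.b2, 0⟩, 0],
    ![0, 0, 0, ⟨0, p.t ^ 2 * p.b3, 0⟩, 0, 0, ⟨0, -(1 / 2) * p.b1, 0⟩],
    ![0, 0, 0, 0, 0, 0, 0],
    ![0, ⟨0, p.t ^ 2 * p.b3, 0⟩, 0, ⟨0, 0, (1 / 4) * p.t * p.Z13 - (1 / 2) * p.t * p.a * p.Z13 + (1 / 4) * p.t ^ 3 * p.s ^ 2 * p.Z13⟩, 0, 0, ⟨-(1 / 2) * p.t, 0, (1 / 16) * p.t * p.Z33 - (1 / 12) * p.t * p.a * p.Z33 + (1 / 24) * p.t * p.a * p.Z22 + (1 / 24) * p.t * p.a * p.Z11 + (1 / 8) * p.t * p.s ^ 2 * p.Z22 - (1 / 8) * p.t * p.s ^ 2 * p.Z11 + (1 / 24) * p.t ^ 3 * p.s ^ 2 * p.Z33 - (1 / 48) * p.t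 ^ 3 * p.s ^ 2 * p.Z22 - (1 / 48) * p.t ^ 3 * p.s ^ 2 * p.Z11⟩],
    ![⟨0, (1 / 2) * p.a * p.A1, 0⟩, 0, 0, 0, 0, ⟨(1 / 2) * p.t, 0, (1 / 12) * p.t * p.a * p.Z33 - (1 / 24) * p.t * p.a * p.Z22 - (1 / 24) * p.t * p.a * p.Z11 - (1 / 8) * p.t * p.s ^ 2 * p.Z22 + (1 / 8) * p.t * p.s ^ 2 * p.Z11 + (1 / 8) * p.t ^ 3 * p.s ^ 3 * p.Z22 - (1 / 8) * p.t ^ 3 * p.s ^ 3 * p.Z11⟩, 0],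
    ![⟨0, -(1 / 2) * p.b2, 0⟩, 0, 0, 0, ⟨(1 / 2) * p.t, 0, (1 / 12) * p.t * p.a * p.Z33 - (1 / 24) * p.t * p.a * p.Z22 - (1 / 24) * p.t * p.a * p.Z11 - (1 / 8) * p.t * p.s ^ 2 * p.Z22 + (1 / 8) * p.t * p.s ^ 2 * p.Z11 + (1 / 8) * p.t ^ 3 * p.s ^ 3 * p.Z22 - (1 / 8) * p.t ^ 3 * p.s ^ 3 * p.Z11⟩, ⟨0, 0, -(1 / 16) * p.t * p.Z13 + (1 / 4) * p.t * p.a * p.Z13 - (1 / 8) * p.t * p.s ^ 2 * p.Z13 + (1 / 16) * p.t ^ 3 * p.s ^ 2 * p.Z13 + (1 / 8) * p.t ^ 3 * p.s ^ 3 * p.Z13⟩, 0],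
    ![0, ⟨0, -(1 / 2) * p.b1, 0⟩, 0, ⟨-(1 / 2) * p.t, 0, (1 / 16) * p.t * p.Z33 - (1 / 12) * p.t * p.a * p.Z33 + (1 / 24) * p.t * p.a * p.Z22 + (1 / 24) * p.t * p.a * p.Z11 + (1 / 8) * p.t * p.s ^ 2 * p.Z22 - (1 / 8) * p.t * p.s ^ 2 * p.Z11 + (1 / 24) * p.t ^ 3 * p.s ^ 2 * p.Z33 - (1 / 48) * p.t ^ 3 * p.s ^ 2 * p.Z22 - (1 / 48) * p.t ^ 3 * p.s ^ 2 * p.Z11⟩, 0, 0, ⟨0, 0, -(1 / 8) * p.t * p.s ^ 2 * p.Z13⟩]]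

/-- Christoffel symbols, lower index first, index 5 -/
def GlT5 (p : Par) : Fin 7 → Fin 7 → T3 :=
  ![![⟨0, 0, (1 / 8) * p.t * p.Z33 + (1 / 8) * p.t * p.Z11 - p.t * p.b2 ^ 2 + (1 / 2) * p.t ^ 3 * p.b2 ^ 2⟩, 0, 0, 0, ⟨0, (1 / 2) * p.b2, 0⟩, ⟨0, -(1 / 8) * p.a * p.A1, 0⟩, 0],
    ![0, ⟨0, 0, (1 / 8) * p.t * p.Z22 - p.t * p.b3 ^ 2 - p.t * p.b1 ^ 2 + (1 / 2) * p.t ^ 3 * p.b3 ^ 2 + (1 / 2) * p.t ^ 3 * p.b1 ^ 2⟩, 0, ⟨0, (1 / 2) * p.b1, 0⟩, 0, 0, ⟨0, (1 / 2) * p.b3 - (1 / 4) * p.t ^ 2 * p.b3, 0⟩],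
    ![0, 0, 0, 0, 0, 0, 0],
    ![0, ⟨0, (1 / 2) * p.b1, 0⟩, 0, ⟨-(1 / 2) * p.t, 0, -(1 / 12) * p.t * p.a * p.Z33 + (1 / 24) * p.t * p.a * p.Z22 + (1 / 24) * p.t * p.a * p.Z11 - (1 / 8) * p.t * p.s ^ 2 * p.Z22 + (1 / 8) * p.t * p.s ^ 2 * p.Z11 + (1 / 8) * p.t ^ 3 * p.s ^ 3 * p.Z22 - (1 / 8) * p.t ^ 3 * p.s ^ 3 * p.Z11⟩, 0, 0, ⟨0, 0, -(1 / 32) * p.t * p.Z13 + (1 / 8) * p.t * p.a * p.Z13 + (1 / 8) * p.t * p.s ^ 2 * p.Z13 - (1 / 32) * p.t ^ 3 * p.s ^ 2 * p.Z13 - (1 / 16) * p.t ^ 3 * p.s ^ 3 * p.Z13⟩],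
    ![⟨0, (1 / 2) * p.b2, 0⟩, 0, 0, 0, ⟨-(1 / 2) * p.t, 0, -(1 / 12) * p.t * p.a * p.Z33 + (1 / 24) * p.t * p.a * p.Z22 + (1 / 24) * p.t * p.a * p.Z11 + (1 / 8) * p.t * p.s ^ 2 * p.Z22 - (1 / 8) * p.t * p.s ^ 2 * p.Z11 - (1 / 8) * p.t ^ 3 * p.s ^ 3 * p.Z22 + (1 / 8) * p.t ^ 3 * p.s ^ 3 * p.Z11⟩, 0, 0],
    ![⟨0, -(1 / 8) * p.a * p.A1, 0⟩, 0, 0, 0, 0, ⟨-(1 / 8) * p.t, 0, (1 / 32) * p.t * p.Z33 - (1 / 16) * p.t * p.a * p.Z33 + (1 / 32) * p.t * p.a * p.Z22 + (1 / 32) * p.t * p.a * p.Z11 + (1 / 48) * p.t * p.s ^ 2 * p.Z33 - (1 / 96) * p.t * p.s ^ 2 * p.Z22 - (1 / 96) * p.t * p.s ^ 2 * p.Z11 - (1 / 48) * p.t ^ 3 * p.s ^ 2 * p.Z33 + (1 / 96) * p.t ^ 3 * p.s ^ 2 * p.Z22 + (1 / 96) * p.t ^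 3 * p.s ^ 2 * p.Z11 - (1 / 48) * p.t ^ 3 * p.s ^ 3 * p.Z33 + (1 / 96) * p.t ^ 3 * p.s ^ 3 * p.Z22 + (1 / 96) * p.t ^ 3 * p.s ^ 3 * p.Z11⟩, 0],
    ![0, ⟨0, (1 / 2) * p.b3 - (1 / 4) * p.t ^ 2 * p.b3, 0⟩, 0, ⟨0, 0, -(1 / 32) * p.t * p.Z13 + (1 / 8) * p.t * p.a * p.Z13 + (1 / 8) * p.t * p.s ^ 2 * p.Z13 - (1 / 32) * p.t ^ 3 * p.s ^ 2 * p.Z13 - (1 / 16) * p.t ^ 3 * p.s ^ 3 * p.Z13⟩, 0, 0, ⟨(1 / 8) * p.t, 0, -(1 / 32) * p.t * p.Z33 + (1 / 16) * p.t * p.a * p.Z33 - (1 / 32) * p.t * p.a * p.Z22 - (1 / 32) * p.t * p.a * p.Z11 + (1 / 16) * p.t * p.s ^ 2 * p.Z33 - (1 / 32) * p.t * p.s ^ 2 * p.Z22 - (1 / 32) * p.t * p.s ^ 2 * p.Z11 - (1 / 48) * p.t ^ 3 * p.s ^ 2 * p.Z33 + (1 / 96) * p.t ^ 3 * p.s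 ^ 2 * p.Z22 + (1 / 96) * p.t ^ 3 * p.s ^ 2 * p.Z11 - (1 / 48) * p.t ^ 3 * p.s ^ 3 * p.Z33 + (1 / 96) * p.t ^ 3 * p.s ^ 3 * p.Z22 + (1 / 96) * p.t ^ 3 * p.s ^ 3 * p.Z11⟩]]

/-- Christoffel symbols, lower index first, index 6 -/
def GlT6 (p : Par) : Fin 7 → Fin 7 → T3 :=
  ![![0, ⟨0, 0, -(1 / 2) * p.t * p.b1 * p.b2 + (1 / 4) * p.t * p.a * p.A1 * p.b3⟩, 0, ⟨0, -(1 / 2) * p.b2, 0⟩, 0, 0, ⟨0, -(1 / 8) * p.a * p.A1, 0⟩],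
    ![⟨0, 0, -(1 / 2) * p.t * p.b1 * p.b2 + (1 / 4) * p.t * p.a * p.A1 * p.b3⟩, 0, 0, 0, ⟨0, (1 / 2) * p.b1, 0⟩, ⟨0, -(1 / 2) * p.b3 + (1 / 4) * p.t ^ 2 * p.b3, 0⟩, 0],
    ![0, 0, 0, 0, 0, 0, 0],
    ![⟨0, -(1 / 2) * p.b2, 0⟩, 0, 0, 0, ⟨0, 0, -(1 / 8) * p.t * p.s ^ 2 * p.Z22 + (1 / 8) * p.t * p.s ^ 2 * p.Z11⟩, ⟨0, 0, (1 / 32) * p.t * p.Z13 - (1 / 8) * p.t * p.a * p.Z13 - (1 / 8) * p.t * p.s ^ 2 * p.Z13 + (1 / 32) * p.t ^ 3 * p.s ^ 2 * p.Z13 + (1 / 16) * p.t ^ 3 * p.s ^ 3 * p.Z13⟩, 0],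
    ![0, ⟨0, (1 / 2) * p.b1, 0⟩, 0, ⟨0, 0, -(1 / 8) * p.t * p.s ^ 2 * p.Z22 + (1 / 8) * p.t * p.s ^ 2 * p.Z11⟩, 0, 0, 0],
    ![0, ⟨0, -(1 / 2) * p.b3 + (1 / 4) * p.t ^ 2 * p.b3, 0⟩, 0, ⟨0, 0, (1 / 32) * p.t * p.Z13 - (1 / 8) * p.t * p.a * p.Z13 - (1 / 8) * p.t * p.s ^ 2 * p.Z13 + (1 / 32) * p.t ^ 3 * p.s ^ 2 * p.Z13 + (1 / 16) * p.t ^ 3 * p.s ^ 3 * p.Z13⟩, 0, 0, ⟨-(1 / 8) * p.t, 0, (1 / 32) * p.t * p.Z33 - (1 / 16) * p.t * p.a * p.Z33 + (1 / 32) * p.t * p.a * p.Z22 + (1 / 32) * p.t * p.a * p.Z11 - (1 / 48) * p.t * p.s ^ 2 * p.Z33 + (1 / 96) * p.t * p.s ^ 2 * p.Z22 + (1 / 96) * p.t * p.s ^ 2 * p.Z11 + (1 / 48) * p.t ^ 3 * p.s ^ 2 * p.Z33 - (1 / 96) * p.t ^ 3 * p.s ^ 2 * p.Z22 - (1 /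 96) * p.t ^ 3 * p.s ^ 2 * p.Z11 + (1 / 48) * p.t ^ 3 * p.s ^ 3 * p.Z33 - (1 / 96) * p.t ^ 3 * p.s ^ 3 * p.Z22 - (1 / 96) * p.t ^ 3 * p.s ^ 3 * p.Z11⟩],
    ![⟨0, -(1 / 8) * p.a * p.A1, 0⟩, 0, 0, 0, 0, ⟨-(1 / 8) * p.t, 0, (1 / 32) * p.t * p.Z33 - (1 / 16) * p.t * p.a * p.Z33 + (1 / 32) * p.t * p.a * p.Z22 + (1 / 32) * p.t * p.a * p.Z11 - (1 / 48) * p.t * p.s ^ 2 * p.Z33 + (1 / 96) * p.t * p.s ^ 2 * p.Z22 + (1 / 96) * p.t * p.s ^ 2 * p.Z11 + (1 / 48) * p.t ^ 3 * p.s ^ 2 * p.Z33 - (1 / 96) * p.t ^ 3 * p.s ^ 2 * p.Z22 - (1 / 96) * p.t ^ 3 * p.s ^ 2 * p.Z11 + (1 / 48) * p.t ^ 3 * p.s ^ 3 * p.Z33 - (1 / 96) * p.t ^ 3 * p.s ^ 3 * p.Z22 - (1 / 96) * p.t ^ 3 * p.s ^ 3 * p.Z11⟩, 0]]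

/-- Christoffel symbols, lower index first -/
def GlT (p : Par) : Fin 7 → Fin 7 → Fin 7 → T3 :=
  ![GlT0 p, GlT1 p, fun _ _ => 0, GlT3 p, GlT4 p, GlT5 p, GlT6 p]

/-- Christoffel symbols, upper index first, index 0 -/
def GuT0 (p : Par) : Fin 7 → Fin 7 → T3 :=
  ![![0, 0, 0, 0, ⟨0, 0, (1 / 2) * p.t * p.a * p.A1 * p.b2⟩, ⟨0, 0, -(1 / 8) * p.t * p.Z33 - (1 / 8) * p.t * p.Z11 + (1 / 2) * p.t * p.b2 ^ 2 - (1 / 2) * p.t ^ 3 * p.b2 ^ 2⟩, 0],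
    ![0, 0, 0, ⟨0, 0, -p.t * p.b2 * p.b3 + p.t ^ 3 * p.b2 * p.b3⟩, 0, 0, ⟨0, 0, -(1 / 4) * p.t * p.a * p.A1 * p.b3⟩],
    ![0, 0, 0, 0, 0, 0, 0],
    ![0, ⟨0, 0, -p.t * p.b2 * p.b3 + p.t ^ 3 * p.b2 * p.b3⟩, 0, ⟨0, -(1 / 2) * p.a * p.A1, 0⟩, 0, 0, ⟨0, (1 / 2) * p.b2 - (1 / 2) * p.t ^ 2 * p.b2, 0⟩],
    ![⟨0, 0, (1 / 2) * p.t * p.a * p.A1 * p.b2⟩, 0, 0, 0, ⟨0, -(1 / 2) * p.a * p.A1, 0⟩, ⟨0, -(1 / 2) * p.b2 + (1 / 2) * p.t ^ 2 * p.b2, 0⟩, 0],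
    ![⟨0, 0, -(1 / 8) * p.t * p.Z33 - (1 / 8) * p.t * p.Z11 + (1 / 2) * p.t * p.b2 ^ 2 - (1 / 2) * p.t ^ 3 * p.b2 ^ 2⟩, 0, 0, 0, ⟨0, -(1 / 2) * p.b2 + (1 / 2) * p.t ^ 2 * p.b2, 0⟩, ⟨0, (1 / 8) * p.a * p.A1, 0⟩, 0],
    ![0, ⟨0, 0, -(1 / 4) * p.t * p.a * p.A1 * p.b3⟩, 0, ⟨0, (1 / 2) * p.b2 - (1 / 2) * p.t ^ 2 * p.b2, 0⟩, 0, 0, ⟨0, (1 / 8) * p.a * p.A1, 0⟩]]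

/-- Christoffel symbols, upper index first, index 1 -/
def GuT1 (p : Par) : Fin 7 → Fin 7 → T3 :=
  ![![0, 0, 0, ⟨0, 0, (1 / 2) * p.t * p.a * p.A1 * p.b1⟩, 0, 0, 0],
    ![0, 0, 0, 0, ⟨0, 0, p.t * p.b1 * p.b3 - p.t ^ 3 * p.b1 * p.b3⟩, ⟨0, 0, -(1 / 8) * p.t * p.Z22 + (1 / 2) * p.t * p.b1 ^ 2 - (1 / 2) * p.t ^ 3 * p.b1 ^ 2⟩, 0],
    ![0, 0, 0, 0, 0, 0, 0],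
    ![⟨0, 0, (1 / 2) * p.t * p.a * p.A1 * p.b1⟩, 0, 0, 0, 0, ⟨0, -(1 / 2) * p.b1 + (1 / 2) * p.t ^ 2 * p.b1, 0⟩, 0],
    ![0, ⟨0, 0, p.t * p.b1 * p.b3 - p.t ^ 3 * p.b1 * p.b3⟩, 0, 0, 0, 0, ⟨0, -(1 / 2) * p.b1 + (1 / 2) * p.t ^ 2 * p.b1, 0⟩],
    ![0, ⟨0, 0, -(1 / 8) * p.t * p.Z22 + (1 / 2) * p.t * p.b1 ^ 2 - (1 / 2) * p.t ^ 3 * p.b1 ^ 2⟩, 0, ⟨0, -(1 / 2) * p.b1 + (1 / 2) * p.t ^ 2 * p.b1, 0⟩, 0, 0, 0],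
    ![0, 0, 0, 0, ⟨0, -(1 / 2) * p.b1 + (1 / 2) * p.t ^ 2 * p.b1, 0⟩, 0, 0]]

/-- Christoffel symbols, upper index first, index 3 -/
def GuT3 (p : Par) : Fin 7 → Fin 7 → T3 :=
  ![![0, ⟨0, 0, p.t * p.b2 * p.b3⟩, 0, ⟨0, (1 / 2) * p.a * p.A1, 0⟩, 0, 0, ⟨0, (1 / 2) * p.b2, 0⟩],
    ![⟨0, 0, p.t * p.b2 * p.b3⟩, 0, 0, 0, ⟨0, -p.t ^ 2 * p.b3, 0⟩, ⟨0, -(1 / 2) * p.b1, 0⟩, 0],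
    ![0, 0, 0, 0, 0, 0, 0],
    ![⟨0, (1 / 2) * p.a * p.A1, 0⟩, 0, 0, 0, ⟨0, 0, -(1 / 8) * p.t * p.Z13 + (1 / 4) * p.t * p.a * p.Z13 - (1 / 8) * p.t ^ 3 * p.s ^ 2 * p.Z13⟩, ⟨(1 / 2) * p.t, 0, -(1 / 48) * p.t * p.Z33 + (1 / 24) * p.t * p.Z22 + (1 / 24) * p.t * p.Z11 - (1 / 2) * p.t * p.b1 ^ 2 + (1 / 6) * p.t * p.a * p.Z33 - (1 / 12) * p.t * p.a * p.Z22 - (1 / 12) * p.t * p.a * p.Z11 + (1 / 8) * p.t * p.s ^ 2 * p.Z22 - (1 / 8) * p.t * p.s ^ 2 * p.Z11 + (1 / 2) * p.t ^ 3 * p.b1 ^ 2 - (1 / 16) * p.t ^ 3 * p.s ^ 2 * p.Z22 + (1 / 16) * p.t ^ 3 * p.s ^ 2 * p.Z11 - (1 / 8) * p.t ^ 3 * p.s ^ 3 * p.Z22 + (1 / 8) * p.t ^ 3 * p.s ^ 3 * p.Z11⟩, 0],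
    ![0, ⟨0, -p.t ^ 2 * p.b3, 0⟩, 0, ⟨0, 0, -(1 / 8) * p.t * p.Z13 + (1 / 4) * p.t * p.a * p.Z13 - (1 / 8) * p.t ^ 3 * p.s ^ 2 * p.Z13⟩, 0, 0, ⟨(1 / 2) * p.t, 0, -(1 / 12) * p.t * p.Z33 + (1 / 24) * p.t * p.Z22 + (1 / 24) * p.t * p.Z11 - (1 / 2) * p.t * p.b1 ^ 2 + (1 / 6) * p.t * p.a * p.Z33 - (1 / 12) * p.t * p.a * p.Z22 - (1 / 12) * p.t * p.a * p.Z11 + (1 / 8) * p.t * p.s ^ 2 * p.Z22 - (1 / 8) * p.t * p.s ^ 2 * p.Z11 + (1 / 2) * p.t ^ 3 * p.b1 ^ 2 - (1 / 24) * p.t ^ 3 * p.s ^ 2 * p.Z33 - (1 / 24) * p.t ^ 3 * p.s ^ 2 * p.Z22 + (1 / 12) * p.t ^ 3 * p.s ^ 2 * p.Z11⟩],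
    ![0, ⟨0, -(1 / 2) * p.b1, 0⟩, 0, ⟨(1 / 2) * p.t, 0, -(1 / 48) * p.t * p.Z33 + (1 / 24) * p.t * p.Z22 + (1 / 24) * p.t * p.Z11 - (1 / 2) * p.t * p.b1 ^ 2 + (1 / 6) * p.t * p.a * p.Z33 - (1 / 12) * p.t * p.a * p.Z22 - (1 / 12) * p.t * p.a * p.Z11 + (1 / 8) * p.t * p.s ^ 2 * p.Z22 - (1 / 8) * p.t * p.s ^ 2 * p.Z11 + (1 / 2) * p.t ^ 3 * p.b1 ^ 2 - (1 / 16) * p.t ^ 3 * p.s ^ 2 * p.Z22 + (1 / 16) * p.t ^ 3 * p.s ^ 2 * p.Z11 - (1 / 8) * p.t ^ 3 * p.s ^ 3 * p.Z22 + (1 / 8) * p.t ^ 3 * p.s ^ 3 * p.Z11⟩, 0, 0, ⟨0, 0, -(1 / 16) * p.t * p.a * p.Z13 + (1 / 16) * p.t ^ 3 * p.s ^ 3 * p.Z13⟩],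
    ![⟨0, (1 / 2) * p.b2, 0⟩, 0, 0, 0, ⟨(1 / 2) * p.t, 0, -(1 / 12) * p.t * p.Z33 + (1 / 24) * p.t * p.Z22 + (1 / 24) * p.t * p.Z11 - (1 / 2) * p.t * p.b1 ^ 2 + (1 / 6) * p.t * p.a * p.Z33 - (1 / 12) * p.t * p.a * p.Z22 - (1 / 12) * p.t * p.a * p.Z11 + (1 / 8) * p.t * p.s ^ 2 * p.Z22 - (1 / 8) * p.t * p.s ^ 2 * p.Z11 + (1 / 2) * p.t ^ 3 * p.b1 ^ 2 - (1 / 24) * p.t ^ 3 * p.s ^ 2 * p.Z33 - (1 / 24) * p.t ^ 3 * p.s ^ 2 * p.Z22 + (1 / 12) * p.t ^ 3 * p.s ^ 2 * p.Z11⟩, ⟨0, 0, -(1 / 16) * p.t * p.a * p.Z13 + (1 / 16) * p.t ^ 3 * p.s ^ 3 * p.Z13⟩, 0]]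

/-- Christoffel symbols, upper index first, index 4 -/
def GuT4 (p : Par) : Fin 7 → Fin 7 → T3 :=
  ![![⟨0, 0, -p.t * p.c2⟩, 0, 0, 0, ⟨0, (1 / 2) * p.a * p.A1, 0⟩, ⟨0, -(1 / 2) * p.b2, 0⟩, 0],
    ![0, 0, 0, ⟨0, p.t ^ 2 * p.b3, 0⟩, 0, 0, ⟨0, -(1 / 2) * p.b1, 0⟩],
    ![0, 0, 0, 0, 0, 0, 0],
    ![0, ⟨0, p.t ^ 2 * p.b3, 0⟩, 0, ⟨0, 0, (3 / 8) * p.t * p.Z13 - (3 / 4) * p.t * p.a * p.Z13 - (1 / 2) * p.t * p.a * p.A1 * p.b2 + (1 / 8) * p.t ^ 3 * p.s ^ 2 * p.Z13⟩, 0, 0, ⟨-(1 / 2) * p.t, 0, (1 / 12) * p.t * p.Z33 - (1 / 24) * p.t * p.Z22 - (1 / 24) * p.t * p.Z11 + (1 / 2) * p.t * p.b2 ^ 2 - (1 / 6) * p.t * p.a * p.Z33 + (1 / 12) * p.t * p.a * p.Z22 + (1 / 12) * p.t * p.a * p.Z11 + (1 / 8)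 * p.t * p.s ^ 2 * p.Z22 - (1 / 8) * p.t * p.s ^ 2 * p.Z11 - (1 / 2) * p.t ^ 3 * p.b2 ^ 2 + (1 / 24) * p.t ^ 3 * p.s ^ 2 * p.Z33 - (1 / 12) * p.t ^ 3 * p.s ^ 2 * p.Z22 + (1 / 24) * p.t ^ 3 * p.s ^ 2 * p.Z11⟩],
    ![⟨0, (1 / 2) * p.a * p.A1, 0⟩, 0, 0, 0, ⟨0, 0, (1 / 8) * p.t * p.Z13 - (1 / 4) * p.t * p.a * p.Z13 - (1 / 2) * p.t * p.a * p.A1 * p.b2 - (1 / 8) * p.t ^ 3 * p.s ^ 2 * p.Z13⟩, ⟨(1 / 2) * p.t, 0, -(1 / 48) * p.t * p.Z33 + (1 / 24) * p.t * p.Z22 + (1 / 24) * p.t * p.Z11 - (1 / 2) * p.t * p.b2 ^ 2 + (1 / 6) * p.t * p.a * p.Z33 - (1 / 12) * p.t * p.a * p.Z22 - (1 / 12) * p.t * p.a * p.Z11 - (1 / 8) * p.t * p.s ^ 2 * p.Z22 + (1 / 8) * p.t * p.s ^ 2 * p.Z11 + (1 / 2) * p.t ^ 3 *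 p.b2 ^ 2 + (1 / 16) * p.t ^ 3 * p.s ^ 2 * p.Z22 - (1 / 16) * p.t ^ 3 * p.s ^ 2 * p.Z11 + (1 / 8) * p.t ^ 3 * p.s ^ 3 * p.Z22 - (1 / 8) * p.t ^ 3 * p.s ^ 3 * p.Z11⟩, 0],
    ![⟨0, -(1 / 2) * p.b2, 0⟩, 0, 0, 0, ⟨(1 / 2) * p.t, 0, -(1 / 48) * p.t * p.Z33 + (1 / 24) * p.t * p.Z22 + (1 / 24) * p.t * p.Z11 - (1 / 2) * p.t * p.b2 ^ 2 + (1 / 6) * p.t * p.a * p.Z33 - (1 / 12) * p.t * p.a * p.Z22 - (1 / 12) * p.t * p.a * p.Z11 - (1 / 8) * p.t * p.s ^ 2 * p.Z22 + (1 / 8) * p.t * p.s ^ 2 * p.Z11 + (1 / 2) * p.t ^ 3 * p.b2 ^ 2 + (1 / 16) * p.t ^ 3 * p.s ^ 2 * p.Z22 - (1 / 16) * p.t ^ 3 * p.s ^ 2 * p.Z11 + (1 / 8) * p.t ^ 3 * p.s ^ 3 * p.Z22 - (1 / 8) * p.t ^ 3 * p.s ^ 3 * p.Z11⟩, ⟨0, 0, -(1 / 32)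 * p.t * p.Z13 + (3 / 16) * p.t * p.a * p.Z13 - (1 / 8) * p.t * p.s ^ 2 * p.Z13 + (1 / 8) * p.t * p.a * p.A1 * p.b2 + (1 / 32) * p.t ^ 3 * p.s ^ 2 * p.Z13 + (1 / 8) * p.t ^ 3 * p.s ^ 3 * p.Z13⟩, 0],
    ![0, ⟨0, -(1 / 2) * p.b1, 0⟩, 0, ⟨-(1 / 2) * p.t, 0, (1 / 12) * p.t * p.Z33 - (1 / 24) * p.t * p.Z22 - (1 / 24) * p.t * p.Z11 + (1 / 2) * p.t * p.b2 ^ 2 - (1 / 6) * p.t * p.a * p.Z33 + (1 / 12) * p.t * p.a * p.Z22 + (1 / 12) * p.t * p.a * p.Z11 + (1 / 8) * p.t * p.s ^ 2 * p.Z22 - (1 / 8) * p.t * p.s ^ 2 * p.Z11 - (1 / 2) * p.t ^ 3 * p.b2 ^ 2 + (1 / 24) * p.t ^ 3 * p.s ^ 2 * p.Z33 - (1 / 12) * p.t ^ 3 * p.s ^ 2 * p.Z22 + (1 / 24) * p.t ^ 3 * p.s ^ 2 * p.Z11⟩, 0, 0, ⟨0, 0, -(1 / 32) * p.t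 * p.Z13 + (1 / 16) * p.t * p.a * p.Z13 - (1 / 8) * p.t * p.s ^ 2 * p.Z13 + (1 / 8) * p.t * p.a * p.A1 * p.b2 + (1 / 32) * p.t ^ 3 * p.s ^ 2 * p.Z13⟩]]

/-- Christoffel symbols, upper index first, index 5 -/
def GuT5 (p : Par) : Fin 7 → Fin 7 → T3 :=
  ![![⟨0, 0, (1 / 2) * p.t * p.Z33 + (1 / 2) * p.t * p.Z11 - 4 * p.t * p.b2 ^ 2 + 2 * p.t ^ 3 * p.b2 ^ 2⟩, 0, 0, 0, ⟨0, 2 * p.b2, 0⟩, ⟨0, -(1 / 2) * p.a * p.A1, 0⟩, 0],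
    ![0, ⟨0, 0, (1 / 2) * p.t * p.Z22 - 4 * p.t * p.b3 ^ 2 - 4 * p.t * p.b1 ^ 2 + 2 * p.t ^ 3 * p.b3 ^ 2 + 2 * p.t ^ 3 * p.b1 ^ 2⟩, 0, ⟨0, 2 * p.b1, 0⟩, 0, 0, ⟨0, 2 * p.b3 - p.t ^ 2 * p.b3, 0⟩],
    ![0, 0, 0, 0, 0, 0, 0],
    ![0, ⟨0, 2 * p.b1, 0⟩, 0, ⟨-2 * p.t, 0, -(1 / 4) * p.t * p.Z33 - (1 / 2) * p.t * p.s ^ 2 * p.Z22 + (1 / 2) * p.t * p.s ^ 2 * p.Z11 + (1 / 6) * p.t ^ 3 * p.s ^ 2 * p.Z33 - (1 / 12) * p.t ^ 3 * p.s ^ 2 * p.Z22 - (1 / 12) * p.t ^ 3 * p.s ^ 2 * p.Z11 + (1 / 2) * p.t ^ 3 * p.s ^ 3 * p.Z22 - (1 / 2) * p.t ^ 3 * p.s ^ 3 * p.Z11⟩, 0, 0, ⟨0, 0, (1 / 4) * p.t * p.a * p.Z13 + (1 / 2) * p.t * p.s ^ 2 * p.Z13 - (1 / 4) * p.t ^ 3 * p.s ^ 2 * p.Z13 - (1 / 4) * p.t ^ 3 * p.s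 ^ 3 * p.Z13⟩],
    ![⟨0, 2 * p.b2, 0⟩, 0, 0, 0, ⟨-2 * p.t, 0, -(1 / 4) * p.t * p.Z33 + (1 / 2) * p.t * p.s ^ 2 * p.Z22 - (1 / 2) * p.t * p.s ^ 2 * p.Z11 + (1 / 6) * p.t ^ 3 * p.s ^ 2 * p.Z33 - (1 / 12) * p.t ^ 3 * p.s ^ 2 * p.Z22 - (1 / 12) * p.t ^ 3 * p.s ^ 2 * p.Z11 - (1 / 2) * p.t ^ 3 * p.s ^ 3 * p.Z22 + (1 / 2) * p.t ^ 3 * p.s ^ 3 * p.Z11⟩, ⟨0, 0, -(1 / 8) * p.t * p.Z13 + (1 / 4) * p.t * p.a * p.Z13 + (1 / 8) * p.t ^ 3 * p.s ^ 2 * p.Z13⟩, 0],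
    ![⟨0, -(1 / 2) * p.a * p.A1, 0⟩, 0, 0, 0, ⟨0, 0, -(1 / 8) * p.t * p.Z13 + (1 / 4) * p.t * p.a * p.Z13 + (1 / 8) * p.t ^ 3 * p.s ^ 2 * p.Z13⟩, ⟨-(1 / 2) * p.t, 0, (1 / 16) * p.t * p.Z33 - (1 / 6) * p.t * p.a * p.Z33 + (1 / 12) * p.t * p.a * p.Z22 + (1 / 12) * p.t * p.a * p.Z11 + (1 / 12) * p.t * p.s ^ 2 * p.Z33 - (1 / 24) * p.t * p.s ^ 2 * p.Z22 - (1 / 24) * p.t * p.s ^ 2 * p.Z11 - (1 / 24) * p.t ^ 3 * p.s ^ 2 * p.Z33 + (1 / 48) * p.t ^ 3 * p.s ^ 2 * p.Z22 + (1 / 48) * p.t ^ 3 * p.s ^ 2 * p.Z11 - (1 / 12) * p.t ^ 3 * p.s ^ 3 * p.Z33 + (1 / 24) * p.t ^ 3 * p.s ^ 3 * p.Z22 + (1 / 24) * p.t ^ 3 * p.s ^ 3 * p.Z11⟩, 0],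
    ![0, ⟨0, 2 * p.b3 - p.t ^ 2 * p.b3, 0⟩, 0, ⟨0, 0, (1 / 4) * p.t * p.a * p.Z13 + (1 / 2) * p.t * p.s ^ 2 * p.Z13 - (1 / 4) * p.t ^ 3 * p.s ^ 2 * p.Z13 - (1 / 4) * p.t ^ 3 * p.s ^ 3 * p.Z13⟩, 0, 0, ⟨(1 / 2) * p.t, 0, -(1 / 16) * p.t * p.Z33 + (1 / 6) * p.t * p.a * p.Z33 - (1 / 12) * p.t * p.a * p.Z22 - (1 / 12) * p.t * p.a * p.Z11 + (1 / 4) * p.t * p.s ^ 2 * p.Z33 - (1 / 8) * p.t * p.s ^ 2 * p.Z22 - (1 / 8) * p.t * p.s ^ 2 * p.Z11 - (1 / 8) * p.t ^ 3 * p.s ^ 2 * p.Z33 + (1 / 16) * p.t ^ 3 * p.s ^ 2 * p.Z22 + (1 / 16) * p.t ^ 3 * p.s ^ 2 * p.Z11 - (1 / 12) * p.t ^ 3 * p.s ^ 3 * p.Z33 + (1 / 24) * p.t ^ 3 * p.s ^ 3 * p.Z22 + (1 / 24) * p.t ^ 3 * p.s ^ 3 * p.Z11⟩]]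

/-- Christoffel symbols, upper index first, index 6 -/
def GuT6 (p : Par) : Fin 7 → Fin 7 → T3 :=
  ![![0, ⟨0, 0, -2 * p.t * p.b1 * p.b2 + p.t * p.a * p.A1 * p.b3⟩, 0, ⟨0, -2 * p.b2, 0⟩, 0, 0, ⟨0, -(1 / 2) * p.a * p.A1, 0⟩],
    ![⟨0, 0, -2 * p.t * p.b1 * p.b2 + p.t * p.a * p.A1 * p.b3⟩, 0, 0, 0, ⟨0, 2 * p.b1, 0⟩, ⟨0, -2 * p.b3 + p.t ^ 2 * p.b3, 0⟩, 0],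
    ![0, 0, 0, 0, 0, 0, 0],
    ![⟨0, -2 * p.b2, 0⟩, 0, 0, 0, ⟨0, 0, -(1 / 2) * p.t * p.s ^ 2 * p.Z22 + (1 / 2) * p.t * p.s ^ 2 * p.Z11⟩, ⟨0, 0, (1 / 4) * p.t * p.Z13 - p.t * p.b1 * p.b3 - (3 / 4) * p.t * p.a * p.Z13 - (1 / 2) * p.t * p.s ^ 2 * p.Z13 + p.t ^ 3 * p.b1 * p.b3 + (1 / 4) * p.t ^ 3 * p.s ^ 2 * p.Z13 + (1 / 4) * p.t ^ 3 * p.s ^ 3 * p.Z13⟩, 0],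
    ![0, ⟨0, 2 * p.b1, 0⟩, 0, ⟨0, 0, -(1 / 2) * p.t * p.s ^ 2 * p.Z22 + (1 / 2) * p.t * p.s ^ 2 * p.Z11⟩, 0, 0, ⟨0, 0, (1 / 8) * p.t * p.Z13 - p.t * p.b1 * p.b3 - (1 / 4) * p.t * p.a * p.Z13 + p.t ^ 3 * p.b1 * p.b3 + (1 / 8) * p.t ^ 3 * p.s ^ 2 * p.Z13⟩],
    ![0, ⟨0, -2 * p.b3 + p.t ^ 2 * p.b3, 0⟩, 0, ⟨0, 0, (1 / 4) * p.t * p.Z13 - p.t * p.b1 * p.b3 - (3 / 4) * p.t * p.a * p.Z13 - (1 / 2) * p.t * p.s ^ 2 * p.Z13 + p.t ^ 3 * p.b1 * p.b3 + (1 / 4) * p.t ^ 3 * p.s ^ 2 * p.Z13 + (1 / 4) * p.t ^ 3 * p.s ^ 3 * p.Z13⟩, 0, 0, ⟨-(1 / 2) * p.t, 0, (1 / 16) * p.t * p.Z33 - (1 / 6) * p.t * p.a * p.Z33 + (1 / 12) * p.t * p.a * p.Z22 + (1 / 12) * p.t * p.a * p.Z11 - (1 / 12) * p.t * p.s ^ 2 * p.Z33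 + (1 / 24) * p.t * p.s ^ 2 * p.Z22 + (1 / 24) * p.t * p.s ^ 2 * p.Z11 + (1 / 24) * p.t ^ 3 * p.s ^ 2 * p.Z33 - (1 / 48) * p.t ^ 3 * p.s ^ 2 * p.Z22 - (1 / 48) * p.t ^ 3 * p.s ^ 2 * p.Z11 + (1 / 12) * p.t ^ 3 * p.s ^ 3 * p.Z33 - (1 / 24) * p.t ^ 3 * p.s ^ 3 * p.Z22 - (1 / 24) * p.t ^ 3 * p.s ^ 3 * p.Z11⟩],
    ![⟨0, -(1 / 2) * p.a * p.A1, 0⟩, 0, 0, 0, ⟨0, 0, (1 / 8) * p.t * p.Z13 - p.t * p.b1 * p.b3 - (1 / 4) * p.t * p.a * p.Z13 + p.t ^ 3 * p.b1 * p.b3 + (1 / 8) * p.t ^ 3 * p.s ^ 2 * p.Z13⟩, ⟨-(1 / 2) * p.t, 0, (1 / 16) * p.t * p.Z33 - (1 / 6) * p.t * p.a * p.Z33 + (1 / 12) * p.t * p.a * p.Z22 + (1 / 12) * p.t * p.a * p.Z11 - (1 / 12) * p.t * p.s ^ 2 * p.Z33 + (1 / 24) * p.t * p.s ^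 2 * p.Z22 + (1 / 24) * p.t * p.s ^ 2 * p.Z11 + (1 / 24) * p.t ^ 3 * p.s ^ 2 * p.Z33 - (1 / 48) * p.t ^ 3 * p.s ^ 2 * p.Z22 - (1 / 48) * p.t ^ 3 * p.s ^ 2 * p.Z11 + (1 / 12) * p.t ^ 3 * p.s ^ 3 * p.Z33 - (1 / 24) * p.t ^ 3 * p.s ^ 3 * p.Z22 - (1 / 24) * p.t ^ 3 * p.s ^ 3 * p.Z11⟩, 0]]

/-- Christoffel symbols, upper index first -/
def GuT (p : Par) : Fin 7 → Fin 7 → Fin 7 → T3 :=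
  ![GuT0 p, GuT1 p, fun _ _ => 0, GuT3 p, GuT4 p, GuT5 p, GuT6 p]

/-- contraction, index 0 -/
def WT0 (p : Par) : Fin 7 → Fin 7 → T3 :=
  ![![0, 0, 0, 0, ⟨0, 0, -(1 / 2) * p.t * p.a * p.A1 * p.b2⟩, ⟨0, 0, -(1 / 8) * p.t * p.Z33 - (1 / 8) * p.t * p.Z11 + (1 / 2) * p.t * p.b2 ^ 2 - (1 / 2) * p.t ^ 3 * p.b2 ^ 2⟩, 0],
    ![0, 0, 0, ⟨0, 0, -(1 / 2) * p.t * p.a * p.A1 * p.b1⟩, 0, 0, ⟨0, 0, p.t * p.b1 * p.b2⟩],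
    ![0, 0, 0, 0, 0, 0, 0],
    ![0, ⟨0, 0, -p.t * p.b2 * p.b3⟩, 0, ⟨0, -(1 / 2) * p.a * p.A1, 0⟩, 0, 0, ⟨0, (1 / 2) * p.b2, 0⟩],
    ![0, 0, 0, 0, ⟨0, -(1 / 2) * p.a * p.A1, 0⟩, ⟨0, -(1 / 2) * p.b2, 0⟩, 0],
    ![⟨0, 0, -(1 / 2) * p.t * p.Z33 - (1 / 2) * p.t * p.Z11 + 4 * p.t * p.b2 ^ 2 - 2 * p.t ^ 3 * p.b2 ^ 2⟩, 0, 0, 0, ⟨0, -2 * p.b2, 0⟩, ⟨0, (1 / 2) * p.a * p.A1, 0⟩, 0],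
    ![0, ⟨0, 0, 2 * p.t * p.b1 * p.b2 - p.t * p.a * p.A1 * p.b3⟩, 0, ⟨0, 2 * p.b2, 0⟩, 0, 0, ⟨0, (1 / 2) * p.a * p.A1, 0⟩]]

/-- contraction, index 1 -/
def WT1 (p : Par) : Fin 7 → Fin 7 → T3 :=
  ![![0, 0, 0, ⟨0, 0, p.t * p.b2 * p.b3⟩, 0, 0, ⟨0, 0, -p.t * p.b1 * p.b2 + (1 / 4) * p.t * p.a * p.A1 * p.b3⟩],
    ![0, 0, 0, 0, ⟨0, 0, -p.t * p.b1 * p.b3⟩, ⟨0, 0, -(1 / 8) * p.t * p.Z22 + p.t * p.b3 ^ 2 + (1 / 2) * p.t * p.b1 ^ 2 - (1 / 2) * p.t ^ 3 * p.b1 ^ 2⟩, 0],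
    ![0, 0, 0, 0, 0, 0, 0],
    ![⟨0, 0, p.t * p.b2 * p.b3⟩, 0, 0, 0, 0, ⟨0, -(1 / 2) * p.b1, 0⟩, 0],
    ![0, 0, 0, 0, 0, 0, ⟨0, -(1 / 2) * p.b1, 0⟩],
    ![0, ⟨0, 0, -(1 / 2) * p.t * p.Z22 + 4 * p.t * p.b3 ^ 2 + 4 * p.t * p.b1 ^ 2 - 2 * p.t ^ 3 * p.b3 ^ 2 - 2 * p.t ^ 3 * p.b1 ^ 2⟩, 0, ⟨0, -2 * p.b1, 0⟩, 0, 0, ⟨0, p.t ^ 2 * p.b3, 0⟩],
    ![⟨0, 0, -2 * p.t * p.b1 * p.b2 + p.t * p.a * p.A1 * p.b3⟩, 0, 0, 0, ⟨0, -2 * p.b1, 0⟩, ⟨0, p.t ^ 2 * p.b3, 0⟩, 0]]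

/-- contraction, index 3 -/
def WT3 (p : Par) : Fin 7 → Fin 7 → T3 :=
  ![![0, ⟨0, 0, p.t * p.b2 * p.b3 - p.t ^ 3 * p.b2 * p.b3⟩, 0, ⟨0, (1 / 2) * p.a * p.A1, 0⟩, 0, 0, ⟨0, (1 / 2) * p.b2 + (1 / 2) * p.t ^ 2 * p.b2, 0⟩],
    ![⟨0, 0, 2 * p.t * p.b2 * p.b3 + (1 / 2) * p.t * p.a * p.A1 * p.b1⟩, 0, 0, 0, 0, ⟨0, -(1 / 2) * p.b1 + (1 / 2) * p.t ^ 2 * p.b1, 0⟩, 0],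
    ![0, 0, 0, 0, 0, 0, 0],
    ![⟨0, (1 / 2) * p.a * p.A1, 0⟩, 0, 0, 0, 0, ⟨(1 / 2) * p.t, 0, -(1 / 48) * p.t * p.Z33 + (1 / 24) * p.t * p.Z22 + (1 / 24) * p.t * p.Z11 - (1 / 2) * p.t * p.b1 ^ 2 + (1 / 6) * p.t * p.a * p.Z33 - (1 / 12) * p.t * p.a * p.Z22 - (1 / 12) * p.t * p.a * p.Z11 + (1 / 8) * p.t * p.s ^ 2 * p.Z22 - (1 / 8) * p.t * p.s ^ 2 * p.Z11 + (1 / 2) * p.t ^ 3 * p.b1 ^ 2 - (1 / 16) * p.t ^ 3 * p.s ^ 2 * p.Z22 + (1 / 16) * p.t ^ 3 * p.s ^ 2 * p.Z11 - (1 / 8) * p.t ^ 3 * p.s ^ 3 * p.Z22 + (1 / 8) * p.t ^ 3 * p.s ^ 3 * p.Z11⟩, 0],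
    ![0, ⟨0, -p.t ^ 2 * p.b3, 0⟩, 0, ⟨0, 0, -(1 / 4) * p.t * p.Z13 + (1 / 2) * p.t * p.a * p.Z13 + (1 / 2) * p.t * p.a * p.A1 * p.b2⟩, 0, 0, ⟨(1 / 2) * p.t, 0, -(1 / 12) * p.t * p.Z33 + (1 / 24) * p.t * p.Z22 + (1 / 24) * p.t * p.Z11 + (1 / 2) * p.t * p.b2 ^ 2 + (1 / 6) * p.t * p.a * p.Z33 - (1 / 12) * p.t * p.a * p.Z22 - (1 / 12) * p.t * p.a * p.Z11 + (1 / 8) * p.t * p.s ^ 2 * p.Z22 - (1 / 8) * p.t * p.s ^ 2 * p.Z11 + (1 / 2) * p.t ^ 3 * p.b2 ^ 2 - (1 / 24) * p.t ^ 3 * p.s ^ 2 * p.Z33 + (1 / 12) * p.t ^ 3 * p.s ^ 2 * p.Z22 - (1 / 24) * p.t ^ 3 * p.s ^ 2 * p.Z11⟩],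
    ![0, ⟨0, -2 * p.b1, 0⟩, 0, ⟨2 * p.t, 0, (1 / 4) * p.t * p.Z33 + (1 / 2) * p.t * p.s ^ 2 * p.Z22 - (1 / 2) * p.t * p.s ^ 2 * p.Z11 - (1 / 6) * p.t ^ 3 * p.s ^ 2 * p.Z33 + (1 / 12) * p.t ^ 3 * p.s ^ 2 * p.Z22 + (1 / 12) * p.t ^ 3 * p.s ^ 2 * p.Z11 - (1 / 2) * p.t ^ 3 * p.s ^ 3 * p.Z22 + (1 / 2) * p.t ^ 3 * p.s ^ 3 * p.Z11⟩, 0, 0, ⟨0, 0, -(1 / 4) * p.t * p.a * p.Z13 + (1 / 4) * p.t ^ 3 * p.s ^ 2 * p.Z13 + (1 / 4) * p.t ^ 3 * p.s ^ 3 * p.Z13⟩],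
    ![⟨0, 2 * p.b2, 0⟩, 0, 0, 0, ⟨2 * p.t, 0, (1 / 2) * p.t * p.s ^ 2 * p.Z22 - (1 / 2) * p.t * p.s ^ 2 * p.Z11⟩, ⟨0, 0, (1 / 4) * p.t * p.Z13 - p.t * p.b1 * p.b3 - (3 / 4) * p.t * p.a * p.Z13 + p.t ^ 3 * p.b1 * p.b3 + (1 / 4) * p.t ^ 3 * p.s ^ 2 * p.Z13 + (1 / 4) * p.t ^ 3 * p.s ^ 3 * p.Z13⟩, 0]]

/-- contraction, index 4 -/
def WT4 (p : Par) : Fin 7 → Fin 7 → T3 :=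
  ![![⟨0, 0, -p.t * p.c2 + (1 / 2) * p.t * p.a * p.A1 * p.b2⟩, 0, 0, 0, ⟨0, (1 / 2) * p.a * p.A1, 0⟩, ⟨0, -(1 / 2) * p.b2 + (1 / 2) * p.t ^ 2 * p.b2, 0⟩, 0],
    ![0, ⟨0, 0, -p.t * p.b1 * p.b3 + p.t ^ 3 * p.b1 * p.b3⟩, 0, 0, 0, 0, ⟨0, -(1 / 2) * p.b1 - (1 / 2) * p.t ^ 2 * p.b1, 0⟩],
    ![0, 0, 0, 0, 0, 0, 0],
    ![0, ⟨0, p.t ^ 2 * p.b3, 0⟩, 0, ⟨0, 0, (1 / 8) * p.t * p.Z13 - (1 / 4) * p.t * p.a * p.Z13 + (1 / 8) * p.t ^ 3 * p.s ^ 2 * p.Z13⟩, 0, 0, ⟨-(1 / 2) * p.t, 0, (1 / 12) * p.t * p.Z33 - (1 / 24) * p.t * p.Z22 - (1 / 24) * p.t * p.Z11 - (1 / 2) * p.t * p.b1 ^ 2 - (1 / 6) * p.t * p.a * p.Z33 + (1 / 12) * p.t * p.a * p.Z22 + (1 / 12) * p.t * p.a * p.Z11 + (1 / 8) * p.t * p.s ^ 2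 * p.Z22 - (1 / 8) * p.t * p.s ^ 2 * p.Z11 - (1 / 2) * p.t ^ 3 * p.b1 ^ 2 + (1 / 24) * p.t ^ 3 * p.s ^ 2 * p.Z33 + (1 / 24) * p.t ^ 3 * p.s ^ 2 * p.Z22 - (1 / 12) * p.t ^ 3 * p.s ^ 2 * p.Z11⟩],
    ![⟨0, (1 / 2) * p.a * p.A1, 0⟩, 0, 0, 0, ⟨0, 0, -(1 / 8) * p.t * p.Z13 + (1 / 4) * p.t * p.a * p.Z13 + (1 / 2) * p.t * p.a * p.A1 * p.b2 + (1 / 8) * p.t ^ 3 * p.s ^ 2 * p.Z13⟩, ⟨(1 / 2) * p.t, 0, -(1 / 48) * p.t * p.Z33 + (1 / 24) * p.t * p.Z22 + (1 / 24) * p.t * p.Z11 - (1 / 2) * p.t * p.b2 ^ 2 + (1 / 6) * p.t * p.a * p.Z33 - (1 / 12) * p.t * p.a * p.Z22 - (1 / 12) * p.t * p.a * p.Z11 - (1 / 8) * p.t * p.s ^ 2 * p.Z22 + (1 / 8) * p.t * p.s ^ 2 * p.Z11 + (1 / 2) * p.t ^ 3 * p.b2 ^ 2 + (1 /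 16) * p.t ^ 3 * p.s ^ 2 * p.Z22 - (1 / 16) * p.t ^ 3 * p.s ^ 2 * p.Z11 + (1 / 8) * p.t ^ 3 * p.s ^ 3 * p.Z22 - (1 / 8) * p.t ^ 3 * p.s ^ 3 * p.Z11⟩, 0],
    ![⟨0, -2 * p.b2, 0⟩, 0, 0, 0, ⟨2 * p.t, 0, (1 / 4) * p.t * p.Z33 - (1 / 2) * p.t * p.s ^ 2 * p.Z22 + (1 / 2) * p.t * p.s ^ 2 * p.Z11 - (1 / 6) * p.t ^ 3 * p.s ^ 2 * p.Z33 + (1 / 12) * p.t ^ 3 * p.s ^ 2 * p.Z22 + (1 / 12) * p.t ^ 3 * p.s ^ 2 * p.Z11 + (1 / 2) * p.t ^ 3 * p.s ^ 3 * p.Z22 - (1 / 2) * p.t ^ 3 * p.s ^ 3 * p.Z11⟩, ⟨0, 0, -(3 / 8) * p.t * p.Z13 + (5 / 4) * p.t * p.a * p.Z13 - (1 / 2) * p.t * p.s ^ 2 * p.Z13 + (3 / 8) * p.t ^ 3 * p.s ^ 2 * p.Z13 + (1 / 2) * p.t ^ 3 * p.s ^ 3 * p.Z13⟩, 0],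
    ![0, ⟨0, -2 * p.b1, 0⟩, 0, ⟨-2 * p.t, 0, (1 / 2) * p.t * p.s ^ 2 * p.Z22 - (1 / 2) * p.t * p.s ^ 2 * p.Z11⟩, 0, 0, ⟨0, 0, -(1 / 8) * p.t * p.Z13 - p.t * p.b1 * p.b3 + (1 / 4) * p.t * p.a * p.Z13 - (1 / 2) * p.t * p.s ^ 2 * p.Z13 - p.t ^ 3 * p.b1 * p.b3 - (1 / 8) * p.t ^ 3 * p.s ^ 2 * p.Z13⟩]]

/-- contraction, index 5 -/
def WT5 (p : Par) : Fin 7 → Fin 7 → T3 :=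
  ![![⟨0, 0, (1 / 8) * p.t * p.Z33 + (1 / 8) * p.t * p.Z11 - (1 / 2) * p.t * p.b2 ^ 2 + (1 / 2) * p.t ^ 3 * p.b2 ^ 2⟩, 0, 0, 0, ⟨0, (1 / 2) * p.b2 - (1 / 2) * p.t ^ 2 * p.b2, 0⟩, ⟨0, -(1 / 8) * p.a * p.A1, 0⟩, 0],
    ![0, ⟨0, 0, (1 / 8) * p.t * p.Z22 - (1 / 2) * p.t * p.b1 ^ 2 + (1 / 2) * p.t ^ 3 * p.b1 ^ 2⟩, 0, ⟨0, (1 / 2) * p.b1 - (1 / 2) * p.t ^ 2 * p.b1, 0⟩, 0, 0, ⟨0, (1 / 2) * p.b3, 0⟩],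
    ![0, 0, 0, 0, 0, 0, 0],
    ![0, ⟨0, (1 / 2) * p.b1, 0⟩, 0, ⟨-(1 / 2) * p.t, 0, (1 / 48) * p.t * p.Z33 - (1 / 24) * p.t * p.Z22 - (1 / 24) * p.t * p.Z11 + (1 / 2) * p.t * p.b1 ^ 2 - (1 / 6) * p.t * p.a * p.Z33 + (1 / 12) * p.t * p.a * p.Z22 + (1 / 12) * p.t * p.a * p.Z11 - (1 / 8) * p.t * p.s ^ 2 * p.Z22 + (1 / 8) * p.t * p.s ^ 2 * p.Z11 - (1 / 2) * p.t ^ 3 * p.b1 ^ 2 + (1 / 16) * p.t ^ 3 * p.s ^ 2 * p.Z22 - (1 / 16) * p.t ^ 3 * p.s ^ 2 * p.Z11 + (1 / 8) * p.t ^ 3 * p.s ^ 3 * p.Z22 - (1 / 8) * p.t ^ 3 * p.s ^ 3 * p.Z11⟩, 0, 0, ⟨0, 0, (1 / 2) * p.t * p.b1 * p.b3 + (1 / 16) * p.t * p.a * p.Z13 + (1 / 8) * p.t * p.s ^ 2 * p.Z13 - (1 / 16) * p.t ^ 3 * p.s ^ 3 * p.Z13⟩],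
    ![⟨0, (1 / 2) * p.b2, 0⟩, 0, 0, 0, ⟨-(1 / 2) * p.t, 0, (1 / 48) * p.t * p.Z33 - (1 / 24) * p.t * p.Z22 - (1 / 24) * p.t * p.Z11 + (1 / 2) * p.t * p.b2 ^ 2 - (1 / 6) * p.t * p.a * p.Z33 + (1 / 12) * p.t * p.a * p.Z22 + (1 / 12) * p.t * p.a * p.Z11 + (1 / 8) * p.t * p.s ^ 2 * p.Z22 - (1 / 8) * p.t * p.s ^ 2 * p.Z11 - (1 / 2) * p.t ^ 3 * p.b2 ^ 2 - (1 / 16) * p.t ^ 3 * p.s ^ 2 * p.Z22 + (1 / 16) * p.t ^ 3 * p.s ^ 2 * p.Z11 - (1 / 8) * p.t ^ 3 * p.s ^ 3 * p.Z22 + (1 / 8) * p.t ^ 3 * p.s ^ 3 * p.Z11⟩, ⟨0, 0, (1 / 32) * p.t * p.Z13 - (1 / 16) * p.t * p.a * p.Z13 - (1 / 8) * p.t * p.a * p.A1 * p.b2 - (1 / 32) * p.t ^ 3 * p.s ^ 2 * p.Z13⟩, 0],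
    ![⟨0, -(1 / 2) * p.a * p.A1, 0⟩, 0, 0, 0, ⟨0, 0, (1 / 8) * p.t * p.Z13 - (1 / 4) * p.t * p.a * p.Z13 - (1 / 8) * p.t ^ 3 * p.s ^ 2 * p.Z13⟩, ⟨-(1 / 2) * p.t, 0, (1 / 16) * p.t * p.Z33 - (1 / 6) * p.t * p.a * p.Z33 + (1 / 12) * p.t * p.a * p.Z22 + (1 / 12) * p.t * p.a * p.Z11 + (1 / 12) * p.t * p.s ^ 2 * p.Z33 - (1 / 24) * p.t * p.s ^ 2 * p.Z22 - (1 / 24) * p.t * p.s ^ 2 * p.Z11 - (1 / 24) * p.t ^ 3 * p.s ^ 2 * p.Z33 + (1 / 48) * p.t ^ 3 * p.s ^ 2 * p.Z22 + (1 / 48) * p.t ^ 3 * p.s ^ 2 * p.Z11 - (1 / 12) * p.t ^ 3 * p.s ^ 3 * p.Z33 + (1 / 24) * p.t ^ 3 * p.s ^ 3 * p.Z22 + (1 / 24) * p.t ^ 3 * p.s ^ 3 * p.Z11⟩, 0],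
    ![0, ⟨0, 2 * p.b3 - p.t ^ 2 * p.b3, 0⟩, 0, ⟨0, 0, -(1 / 4) * p.t * p.Z13 + p.t * p.b1 * p.b3 + (3 / 4) * p.t * p.a * p.Z13 + (1 / 2) * p.t * p.s ^ 2 * p.Z13 - p.t ^ 3 * p.b1 * p.b3 - (1 / 4) * p.t ^ 3 * p.s ^ 2 * p.Z13 - (1 / 4) * p.t ^ 3 * p.s ^ 3 * p.Z13⟩, 0, 0, ⟨(1 / 2) * p.t, 0, -(1 / 16) * p.t * p.Z33 + p.t * p.b3 ^ 2 + (1 / 6) * p.t * p.a * p.Z33 - (1 / 12) * p.t * p.a * p.Z22 - (1 / 12) * p.t * p.a * p.Z11 + (1 / 4) * p.t * p.s ^ 2 * p.Z33 - (1 / 8) * p.t * p.s ^ 2 * p.Z22 - (1 / 8) * p.t * p.s ^ 2 * p.Z11 - (1 / 24) * p.t ^ 3 * p.s ^ 2 * p.Z33 + (1 / 48) * p.t ^ 3 * p.s ^ 2 * p.Z22 + (1 / 48) * p.t ^ 3 * p.s ^ 2 * p.Z11 - (1 / 12) * p.t ^ 3 * p.s ^ 3 * p.Z33 + (1 / 24) *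 p.t ^ 3 * p.s ^ 3 * p.Z22 + (1 / 24) * p.t ^ 3 * p.s ^ 3 * p.Z11⟩]]

/-- contraction, index 6 -/
def WT6 (p : Par) : Fin 7 → Fin 7 → T3 :=
  ![![0, ⟨0, 0, (1 / 4) * p.t * p.a * p.A1 * p.b3⟩, 0, ⟨0, -(1 / 2) * p.b2, 0⟩, 0, 0, ⟨0, -(1 / 8) * p.a * p.A1, 0⟩],
    ![⟨0, 0, -p.t * p.b1 * p.b2⟩, 0, 0, 0, ⟨0, (1 / 2) * p.b1, 0⟩, ⟨0, -(1 / 2) * p.b3, 0⟩, 0],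
    ![0, 0, 0, 0, 0, 0, 0],
    ![⟨0, -(1 / 2) * p.b2, 0⟩, 0, 0, 0, ⟨0, 0, (1 / 2) * p.t * p.b1 ^ 2 - (1 / 8) * p.t * p.s ^ 2 * p.Z22 + (1 / 8) * p.t * p.s ^ 2 * p.Z11⟩, ⟨0, 0, -(1 / 2) * p.t * p.b1 * p.b3 - (1 / 16) * p.t * p.a * p.Z13 - (1 / 8) * p.t * p.s ^ 2 * p.Z13 + (1 / 16) * p.t ^ 3 * p.s ^ 3 * p.Z13⟩, 0],
    ![0, ⟨0, (1 / 2) * p.b1, 0⟩, 0, ⟨0, 0, -(1 / 2) * p.t * p.b2 ^ 2 - (1 / 8) * p.t * p.s ^ 2 * p.Z22 + (1 / 8) * p.t * p.s ^ 2 * p.Z11⟩, 0, 0, ⟨0, 0, (1 / 32) * p.t * p.Z13 - (1 / 16) * p.t * p.a * p.Z13 - (1 / 8) * p.t * p.a * p.A1 * p.b2 - (1 / 32) * p.t ^ 3 * p.s ^ 2 * p.Z13⟩],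
    ![0, ⟨0, -2 * p.b3 + p.t ^ 2 * p.b3, 0⟩, 0, ⟨0, 0, (1 / 8) * p.t * p.Z13 - (1 / 2) * p.t * p.a * p.Z13 - (1 / 2) * p.t * p.s ^ 2 * p.Z13 + (1 / 8) * p.t ^ 3 * p.s ^ 2 * p.Z13 + (1 / 4) * p.t ^ 3 * p.s ^ 3 * p.Z13⟩, 0, 0, ⟨-(1 / 2) * p.t, 0, (1 / 16) * p.t * p.Z33 - (1 / 6) * p.t * p.a * p.Z33 + (1 / 12) * p.t * p.a * p.Z22 + (1 / 12) * p.t * p.a * p.Z11 - (1 / 12) * p.t * p.s ^ 2 * p.Z33 + (1 / 24) * p.t * p.s ^ 2 * p.Z22 + (1 / 24) * p.t * p.s ^ 2 * p.Z11 + (1 / 8) * p.t ^ 3 * p.s ^ 2 * p.Z33 - (1 / 16) * p.t ^ 3 * p.s ^ 2 * p.Z22 - (1 / 16) * p.t ^ 3 * p.s ^ 2 * p.Z11 + (1 / 12) * p.t ^ 3 * p.s ^ 3 * p.Z33 - (1 / 24) * p.t ^ 3 * p.s ^ 3 * p.Z22 - (1 / 24) * p.t ^ 3 * p.s ^ 3 *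 p.Z11⟩],
    ![⟨0, -(1 / 2) * p.a * p.A1, 0⟩, 0, 0, 0, ⟨0, 0, p.t * p.b1 * p.b3⟩, ⟨-(1 / 2) * p.t, 0, (1 / 16) * p.t * p.Z33 - p.t * p.b3 ^ 2 - (1 / 6) * p.t * p.a * p.Z33 + (1 / 12) * p.t * p.a * p.Z22 + (1 / 12) * p.t * p.a * p.Z11 - (1 / 12) * p.t * p.s ^ 2 * p.Z33 + (1 / 24) * p.t * p.s ^ 2 * p.Z22 + (1 / 24) * p.t * p.s ^ 2 * p.Z11 + (1 / 24) * p.t ^ 3 * p.s ^ 2 * p.Z33 - (1 / 48) * p.t ^ 3 * p.s ^ 2 * p.Z22 - (1 / 48) * p.t ^ 3 * p.s ^ 2 * p.Z11 + (1 / 12) * p.t ^ 3 * p.s ^ 3 * p.Z33 - (1 / 24) * p.t ^ 3 * p.s ^ 3 * p.Z22 - (1 / 24) * p.t ^ 3 * p.s ^ 3 * p.Z11⟩, 0]]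

/-- contraction -/
def WT (p : Par) : Fin 7 → Fin 7 → Fin 7 → T3 :=
  ![WT0 p, WT1 p, fun _ _ => 0, WT3 p, WT4 p, WT5 p, WT6 p]

/-- contraction -/
def VT (p : Par) : Fin 7 → T3 :=
  ![0, 0, 0, 0, ⟨0, 0, -(1 / 2) * p.t * p.Z13 - p.t * p.c2 - 2 * p.t * p.b1 * p.b3 + (3 / 2) * p.t * p.a * p.Z13 - p.t * p.s ^ 2 * p.Z13 + p.t * p.a * p.A1 * p.b2 + (1 / 2) * p.t ^ 3 * p.s ^ 2 * p.Z13 + (1 / 2) * p.t ^ 3 * p.s ^ 3 * p.Z13⟩, ⟨-p.t, 0, (1 / 6) * p.t * p.Z33 + (1 / 24) * p.t * p.Z22 + (1 / 24) * p.t * p.Z11 + p.t * p.b3 ^ 2 - (1 / 3) * p.t * p.a * p.Z33 + (1 / 6) * p.t * p.a * p.Z22 + (1 / 6) * p.t * p.a * p.Z11 + (1 / 3) * p.t * p.s ^ 2 * p.Z33 - (1 / 6) * p.t * p.s ^ 2 * p.Z22 - (1 / 6) *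 p.t * p.s ^ 2 * p.Z11 - (1 / 12) * p.t ^ 3 * p.s ^ 2 * p.Z33 + (1 / 24) * p.t ^ 3 * p.s ^ 2 * p.Z22 + (1 / 24) * p.t ^ 3 * p.s ^ 2 * p.Z11 - (1 / 6) * p.t ^ 3 * p.s ^ 3 * p.Z33 + (1 / 12) * p.t ^ 3 * p.s ^ 3 * p.Z22 + (1 / 12) * p.t ^ 3 * p.s ^ 3 * p.Z11⟩, 0]

end H31R

end
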