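import Pool.Agent.Lib.H31R.N4
import Pool.Agent.Lib.H31R.F1

/-!
# H31R, part N5: the Ricci tensor modulo `O(λ^3)`
-/

open scoped ContDiff Topology
open Set Filter

namespace H31R

theorem N_app_chJ {d : ℕ} {K : ℝ → Matrix (Fin d) (Fin d) ℝ} {Kt : Matrix (Fin d) (Fin d) T3}
    {g1 : ℝ → Fin d → Matrix (Fin d) (Fin d) ℝ} {g1t : Fin d → Matrix (Fin d) (Fin d) T3}
    (hK : ∀ i j, App (fun l => K l i j) (Kt i j))
    (h1 : ∀ m i j, App (fun l => g1 l m i j) (g1t m i j)) (k i j : Fin d) :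
    App (fun l => chJ (1 / 2) (K l) (g1 l) k i j) (chJ (T3.C (1 / 2)) Kt g1t k i j) := by
  unfold chJ
  refine (App.const (1 / 2)).mul (App.sum _ fun l _ => (hK k l).mul ?_)
  exact ((h1 _ _ _).add (h1 _ _ _)).sub (h1 _ _ _)

theorem N_app_dchJ {d : ℕ} {K : ℝ → Matrix (Fin d) (Fin d) ℝ} {Kt : Matrix (Fin d) (Fin d) T3}
    {g1 : ℝ → Fin d → Matrix (Fin d) (Fin d) ℝ} {g1t : Fin d → Matrix (Fin d) (Fin d) T3}
    {g2 : ℝ → Fin d → Fin d → Matrix (Fin d) (Fin d) ℝ}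
    {g2t : Fin d → Fin d → Matrix (Fin d) (Fin d) T3}
    (hK : ∀ i j, App (fun l => K l i j) (Kt i j))
    (h1 : ∀ m i j, App (fun l => g1 l m i j) (g1t m i j))
    (h2 : ∀ m k i j, App (fun l => g2 l m k i j) (g2t m k i j)) (m k i j : Fin d) :
    App (fun l => dchJ (1 / 2) (K l) (g1 l) (g2 l) m k i j)
      (dchJ (T3.C (1 / 2)) Kt g1t g2t m k i j) := by
  unfold dchJ
  refine (App.const (1 / 2)).mul (App.sum _ fun l _ => ?_)
  refine App.add (App.mul (App.neg (App.sum _ fun a _ => App.sum _ fun b _ =>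
    ((hK _ _).mul (h1 _ _ _)).mul (hK _ _))) ?_) ((hK k l).mul ?_)
  · exact ((h1 _ _ _).add (h1 _ _ _)).sub (h1 _ _ _)
  · exact ((h2 _ _ _ _).add (h2 _ _ _ _)).sub (h2 _ _ _ _)

theorem N_app_ricJ {d : ℕ} {K : ℝ → Matrix (Fin d) (Fin d) ℝ} {Kt : Matrix (Fin d) (Fin d) T3}
    {g1 : ℝ → Fin d → Matrix (Fin d) (Fin d) ℝ} {g1t : Fin d → Matrix (Fin d) (Fin d) T3}
    {g2 : ℝ → Fin d → Fin d → Matrix (Fin d) (Fin d) ℝ}
    {g2t : Fin d → Fin d → Matrix (Fin d) (Fin d) T3}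
    (hK : ∀ i j, App (fun l => K l i j) (Kt i j))
    (h1 : ∀ m i j, App (fun l => g1 l m i j) (g1t m i j))
    (h2 : ∀ m k i j, App (fun l => g2 l m k i j) (g2t m k i j)) (i j : Fin d) :
    App (fun l => ricJ (1 / 2) (K l) (g1 l) (g2 l) i j) (ricJ (T3.C (1 / 2)) Kt g1t g2t i j) := by
  unfold ricJ
  refine App.sum _ fun k _ => ?_
  refine App.add (App.sub (N_app_dchJ hK h1 h2 _ _ _ _) (N_app_dchJ hK h1 h2 _ _ _ _))
    (App.sum _ fun l _ => ?_)
  exact App.sub (App.mul (N_app_chJ hK h1 _ _ _) (N_app_chJ hK h1 _ _ _))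
    (App.mul (N_app_chJ hK h1 _ _ _) (N_app_chJ hK h1 _ _ _))

/-- The Ricci tensor of a family of metrics whose entries have the jets `Gt i j`, modulo `O(λ^3)`. -/
theorem App.ric {G : ℝ → EE 7 → Mt 7} {q : EE 7} {Gt : Fin 7 → Fin 7 → Jet}
    {Kt : Matrix (Fin 7) (Fin 7) T3} (hG : ∀ i j, JApp (fun l x => G l x i j) q (Gt i j))
    (hK : (Matrix.of fun i j => (Gt i j).v) * Kt = 1) (i j : Fin 7) :
    App (fun l => ric (G l) i j q)
      (ricJ (T3.C (1 / 2)) Kt (fun m i j => (Gt i j).g m) (fun m k i j => (Gt i j).h m k) i j) := by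
  have hv : ∀ i j, App (fun l => G l q i j) ((Matrix.of fun i j => (Gt i j).v) i j) := fun i j =>
    (hG i j).v
  have hinv := App.inv hv hK
  have hdet := App.det_ne hv hK
  have hsm : ∀ᶠ l in 𝓝 (0 : ℝ), ∀ i j, ContDiffAt ℝ 2 (fun y => G l y i j) q := by
    rw [Filter.eventually_all]
    intro i
    rw [Filter.eventually_all]
    intro j
    exact (hG i j).sm
  refine App.congr (N_app_ricJ (K := fun l => (G l q)⁻¹) (g1 := fun l m => pdM m (G l) q)
    (g2 := fun l m k => pdM m (pdM k (G l)) q) hinv (fun m i j => (hG i j).g m)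
    (fun m k i j => (hG i j).h m k) i j) ?_
  filter_upwards [hdet, hsm] with l hd hs
  exact (N_ric_jet hs hd i j).symm

end H31R
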