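import Pool.Agent.Lib.H31R.F3t
import Pool.Agent.Lib.H31R.N5
import Pool.Agent.Lib.H31R.F4t

/-!
# H31R, chunk F4: evaluation of the Ricci tensor at order `λ^2`
Computer algebra: with the tables `GJ` all components of the Ricci tensor at orders `λ^0` and `λ^1` vanish identically, and
at order `λ^2` one gets, modulo `t^2 = 1 - a^2`, `a s = 1 - s` and the values of the `Zij`, the matrix `F2M`. The auxiliary tables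
(lower Christoffel symbols `GlT k i j = (∂_i g_jk + ∂_j g_ik - ∂_k g_ij)/2`, upper ones `GuT k i j = Σ_l K_kl GlT l i j`,
`WT p l j = Σ_k K_lk GlT p k j`, `VT p = Σ_kl K_kl GlT p k l`) are in `F4t`. With them
`R_ij = Σ_kl K_kl (∂_i∂_l g_kj + ∂_k∂_j g_il - ∂_k∂_l g_ij - ∂_i∂_j g_kl)/2 + Σ_p Σ_l WT p l j * GuT p i l - Σ_p VT p * GuT p i j`
(for each `i, j` at most 33 monomials before the relations are used).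
-/

set_option linter.unusedSimpArgs false
set_option linter.unusedVariables false
set_option linter.unreachableTactic false
set_option linter.unusedTactic false

noncomputable section

namespace H31R

/-- inverse of the value matrix at the base point, modulo `λ^3` -/
def KT (p : Par) : Matrix (Fin 7) (Fin 7) T3 :=
  ![![⟨1, 0, -(1 / 4) * p.Z33 - (1 / 4) * p.Z11⟩, 0, 0, 0, ⟨0, p.t * p.b2, 0⟩, 0, 0],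
    ![0, ⟨1, 0, -(1 / 4) * p.Z22⟩, 0, ⟨0, p.t * p.b1, 0⟩, 0, 0, ⟨0, 2 * p.t * p.b3, 0⟩],
    ![0, 0, ⟨1, 0, 0⟩, 0, 0, 0, 0],
    ![0, ⟨0, p.t * p.b1, 0⟩, 0, ⟨1, 0, -(1 / 24) * p.Z33 + (1 / 12) * p.Z22 + (1 / 12) * p.Z11 + (1 / 6) * p.a * p.Z33 - (1 / 12) * p.a * p.Z22 - (1 / 12) * p.a * p.Z11 + p.t ^ 2 * p.b1 ^ 2 - (1 / 8) * p.t ^ 2 * p.s ^ 2 * p.Z22 + (1 / 8) * p.t ^ 2 * p.s ^ 2 * p.Z11⟩, 0, 0, ⟨0, 0, (1 / 4) * p.Z13 - (1 / 2) * p.a * p.Z13 + 2 * p.t ^ 2 * p.b1 * p.b3 + (1 / 4) * p.t ^ 2 * p.s ^ 2 * p.Z13⟩],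
    ![⟨0, p.t * p.b2, 0⟩, 0, 0, 0, ⟨1, 0, -(1 / 24) * p.Z33 + (1 / 12) * p.Z22 + (1 / 12) * p.Z11 + (1 / 6) * p.a * p.Z33 - (1 / 12) * p.a * p.Z22 - (1 / 12) * p.a * p.Z11 + p.t ^ 2 * p.b2 ^ 2 + (1 / 8) * p.t ^ 2 * p.s ^ 2 * p.Z22 - (1 / 8) * p.t ^ 2 * p.s ^ 2 * p.Z11⟩, ⟨0, 0, -(1 / 4) * p.Z13 + (1 / 2) * p.a * p.Z13 + (1 / 4) * p.t ^ 2 * p.s ^ 2 * p.Z13⟩, 0],
    ![0, 0, 0, 0, ⟨0, 0, -(1 / 4) * p.Z13 + (1 / 2) * p.a * p.Z13 + (1 / 4) * p.t ^ 2 * p.s ^ 2 * p.Z13⟩, ⟨4, 0, (1 / 2) * p.Z33 - (2 / 3) * p.a * p.Z33 + (1 / 3) * p.a * p.Z22 + (1 / 3) * p.a * p.Z11 - (1 / 3) * p.t ^ 2 * p.s ^ 2 * p.Z33 + (1 / 6) * p.t ^ 2 * p.s ^ 2 * p.Z22 + (1 / 6) * p.t ^ 2 * p.s ^ 2 * p.Z11⟩, 0],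
    ![0, ⟨0, 2 * p.t * p.b3, 0⟩, 0, ⟨0, 0, (1 / 4) * p.Z13 - (1 / 2) * p.a * p.Z13 + 2 * p.t ^ 2 * p.b1 * p.b3 + (1 / 4) * p.t ^ 2 * p.s ^ 2 * p.Z13⟩, 0, 0, ⟨4, 0, (1 / 2) * p.Z33 - (2 / 3) * p.a * p.Z33 + (1 / 3) * p.a * p.Z22 + (1 / 3) * p.a * p.Z11 + 4 * p.t ^ 2 * p.b3 ^ 2 + (1 / 3) * p.t ^ 2 * p.s ^ 2 * p.Z33 - (1 / 6) * p.t ^ 2 * p.s ^ 2 * p.Z22 - (1 / 6) * p.t ^ 2 * p.s ^ 2 * p.Z11⟩]]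

/-- the Ricci tensor at order `λ^2` -/
def F2M (p : Par) : Matrix (Fin 7) (Fin 7) ℝ :=
  let L := -(1 / 2) * p.a * (p.A2 - 4 * p.a * (p.b1 ^ 2 + p.b2 ^ 2))
  let M := p.a / 4 * (4 * p.A1 * p.b2 + 2 * p.a * p.c2 + 4 * p.a * p.b1 * p.b3)
  ![![0, 0, 0, 0, 0, 0, 0], ![0, 0, 0, 0, 0, 0, 0], ![0, 0, 0, 0, 0, 0, 0],
    ![0, 0, 0, L, 0, 0, M], ![0, 0, 0, 0, L, -M, 0], ![0, 0, 0, 0, -M, -(L / 4), 0],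
    ![0, 0, 0, M, 0, 0, -(L / 4)]]

section F4gen

variable {R : Type*} [CommRing R] {d : ℕ}

/-- Christoffel symbols with lower indices -/
def F4_Gl (hf : R) (g1 : Fin d → Matrix (Fin d) (Fin d) R) (p i j : Fin d) : R :=
  hf * (g1 i j p + g1 j i p - g1 p i j)

theorem F4_ric (hf : R) (h2 : hf + hf = 1) (K : Matrix (Fin d) (Fin d) R)
    (g1 : Fin d → Matrix (Fin d) (Fin d) R) (g2 : Fin d → Fin d → Matrix (Fin d) (Fin d) R)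
    (hK : ∀ i j, K i j = K j i) (hg : ∀ m i j, g1 m i j = g1 m j i)
    (hg2 : ∀ m k i j, g2 m k i j = g2 m k j i) (hh2 : ∀ m k i j, g2 m k i j = g2 k m i j)
    (i j : Fin d) :
    ricJ hf K g1 g2 i j
      = ∑ k, ∑ l, K k l * (hf * (g2 i l k j + g2 k j i l - g2 k l i j - g2 i j k l))
        + ∑ p, ∑ l, (∑ k, K l k * F4_Gl hf g1 p k j) * (∑ k, K p k * F4_Gl hf g1 k i l)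
        - ∑ p, (∑ k, ∑ l, K k l * F4_Gl hf g1 p k l) * (∑ k, K p k * F4_Gl hf g1 k i j) := by
  have hc : ∀ k i j, chJ hf K g1 k i j = ∑ l, K k l * F4_Gl hf g1 l i j := by
    intro k i j
    unfold chJ F4_Gl
    rw [Finset.mul_sum]
    exact Finset.sum_congr rfl fun l _ => by ring
  have hgl : ∀ m a b, g1 m a b = F4_Gl hf g1 a m b + F4_Gl hf g1 b m a := by
    intro m a b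
    unfold F4_Gl
    rw [hg m b a, hg b m a, hg a m b]
    linear_combination (-(g1 m a b)) * h2
  have hs : ∀ p i j, F4_Gl hf g1 p i j = F4_Gl hf g1 p j i := by
    intro p i j
    unfold F4_Gl
    rw [hg p i j]
    ring
  have hd : ∀ m k i j, dchJ hf K g1 g2 m k i j
      = -(∑ b, chJ hf K g1 k m b * chJ hf K g1 b i j)
        - (∑ b, (∑ a, K k a * F4_Gl hf g1 b m a) * chJ hf K g1 b i j)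
        + ∑ l, K k l * (hf * (g2 m i j l + g2 m j i l - g2 m l i j)) := by
    intro m k i j
    unfold dchJ
    rw [Finset.mul_sum]
    have e1 : ∀ l, hf * (-(∑ a, ∑ b, K k a * g1 m a b * K b l) * (g1 i j l + g1 j i l - g1 l i j)
        + K k l * (g2 m i j l + g2 m j i l - g2 m l i j))
        = -(∑ b, (∑ a, K k a * g1 m a b) * (K b l * F4_Gl hf g1 l i j))
          + K k l * (hf * (g2 m i j l + g2 m j i l - g2 m l i j)) := by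
      intro l
      have e2 : (∑ a, ∑ b, K k a * g1 m a b * K b l) = ∑ b, (∑ a, K k a * g1 m a b) * K b l := by
        rw [Finset.sum_comm]
        exact Finset.sum_congr rfl fun b _ => by rw [Finset.sum_mul]
      have e3 : (∑ b, (∑ a, K k a * g1 m a b) * (K b l * F4_Gl hf g1 l i j))
          = (∑ b, (∑ a, K k a * g1 m a b) * K b l) * F4_Gl hf g1 l i j := by
        rw [Finset.sum_mul]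
        exact Finset.sum_congr rfl fun b _ => by ring
      rw [e2, e3]
      unfold F4_Gl
      ring
    rw [Finset.sum_congr rfl fun l _ => e1 l, Finset.sum_add_distrib, Finset.sum_neg_distrib,
      Finset.sum_comm]
    congr 1
    rw [← neg_add', ← Finset.sum_add_distrib]
    congr 1
    refine Finset.sum_congr rfl fun b _ => ?_
    rw [← Finset.mul_sum, ← hc b i j, hc k m b, ← add_mul, ← Finset.sum_add_distrib]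
    congr 1
    refine Finset.sum_congr rfl fun a _ => ?_
    rw [hgl m a b]
    ring
  have hsw : ∀ f : Fin d → Fin d → R, (∑ k, ∑ l, K k l * f k l) = ∑ k, ∑ l, K k l * f l k := by
    intro f
    rw [Finset.sum_comm]
    exact Finset.sum_congr rfl fun k _ => Finset.sum_congr rfl fun l _ => by rw [hK l k]
  have t3 : (∑ k, ∑ l, K k l * (hf * (g2 k i j l + g2 k j i l - g2 k l i j)))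
      - (∑ k, ∑ l, K k l * (hf * (g2 j i k l + g2 j k i l - g2 j l i k)))
      = ∑ k, ∑ l, K k l * (hf * (g2 i l k j + g2 k j i l - g2 k l i j - g2 i j k l)) := by
    have a1 := hsw fun k l => hf * g2 k i j l
    have a2 := hsw fun k l => hf * g2 j l i k
    have b1 : (∑ k, ∑ l, K k l * (hf * (g2 k i j l + g2 k j i l - g2 k l i j)))
        = (∑ k, ∑ l, K k l * (hf * g2 k i j l))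
          + ∑ k, ∑ l, K k l * (hf * (g2 k j i l - g2 k l i j)) := by
      rw [← Finset.sum_add_distrib]
      refine Finset.sum_congr rfl fun k _ => ?_
      rw [← Finset.sum_add_distrib]
      exact Finset.sum_congr rfl fun l _ => by ring
    have b2 : (∑ k, ∑ l, K k l * (hf * (g2 j i k l + g2 j k i l - g2 j l i k)))
        = (∑ k, ∑ l, K k l * (hf * (g2 j i k l + g2 j k i l)))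
          - ∑ k, ∑ l, K k l * (hf * g2 j l i k) := by
      rw [← Finset.sum_sub_distrib]
      refine Finset.sum_congr rfl fun k _ => ?_
      rw [← Finset.sum_sub_distrib]
      exact Finset.sum_congr rfl fun l _ => by ring
    rw [b1, b2, a1, a2, ← Finset.sum_add_distrib, ← Finset.sum_sub_distrib,
      ← Finset.sum_sub_distrib]
    refine Finset.sum_congr rfl fun k _ => ?_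
    rw [← Finset.sum_add_distrib, ← Finset.sum_sub_distrib, ← Finset.sum_sub_distrib]
    refine Finset.sum_congr rfl fun l _ => ?_
    rw [hh2 l i j k, hg2 i l j k, hh2 j i k l]
    ring
  have t1 : (∑ k, ∑ b, (∑ a, K k a * F4_Gl hf g1 b k a) * chJ hf K g1 b i j)
      = ∑ p, (∑ k, ∑ l, K k l * F4_Gl hf g1 p k l) * (∑ k, K p k * F4_Gl hf g1 k i j) := by
    rw [Finset.sum_comm]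
    refine Finset.sum_congr rfl fun b _ => ?_
    rw [← Finset.sum_mul, hc]
  have t2 : (∑ k, ∑ b, (∑ a, K k a * F4_Gl hf g1 b j a) * chJ hf K g1 b i k)
      = ∑ p, ∑ l, (∑ k, K l k * F4_Gl hf g1 p k j) * (∑ k, K p k * F4_Gl hf g1 k i l) := by
    rw [Finset.sum_comm]
    refine Finset.sum_congr rfl fun b _ => Finset.sum_congr rfl fun k _ => ?_
    rw [hc]
    congr 1
    exact Finset.sum_congr rfl fun a _ => by rw [hs b j a]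
  rw [← t1, ← t2, ← t3]
  unfold ricJ
  simp only [hd, Finset.sum_add_distrib, Finset.sum_sub_distrib, Finset.sum_neg_distrib]
  ring

end F4gen

theorem F4_K (p : Par) :
    KT p 0 0 = ⟨1, 0, - (1 / 4) * p.Z33 - (1 / 4) * p.Z11⟩ ∧
    KT p 0 1 = 0 ∧
    KT p 0 2 = 0 ∧
    KT p 0 3 = 0 ∧
    KT p 0 4 = ⟨0, p.t * p.b2, 0⟩ ∧
    KT p 0 5 = 0 ∧
    KT p 0 6 = 0 ∧
    KT p 1 0 = 0 ∧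
    KT p 1 1 = ⟨1, 0, - (1 / 4) * p.Z22⟩ ∧
    KT p 1 2 = 0 ∧
    KT p 1 3 = ⟨0, p.t * p.b1, 0⟩ ∧
    KT p 1 4 = 0 ∧
    KT p 1 5 = 0 ∧
    KT p 1 6 = ⟨0, 2 * p.t * p.b3, 0⟩ ∧
    KT p 2 0 = 0 ∧
    KT p 2 1 = 0 ∧
    KT p 2 2 = ⟨1, 0, 0⟩ ∧
    KT p 2 3 = 0 ∧
    KT p 2 4 = 0 ∧
    KT p 2 5 = 0 ∧
    KT p 2 6 = 0 ∧
    KT p 3 0 = 0 ∧
    KT p 3 1 = ⟨0, p.t * p.b1, 0⟩ ∧
    KT p 3 2 = 0 ∧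
    KT p 3 3 = ⟨1, 0, - (1 / 24) * p.Z33 + (1 / 12) * p.Z22 + (1 / 12) * p.Z11 + (1 / 6) * p.a * p.Z33 - (1 / 12) * p.a * p.Z22 - (1 / 12) * p.a * p.Z11 + p.t ^ 2 * p.b1 ^ 2 - (1 / 8) * p.t ^ 2 * p.s ^ 2 * p.Z22 + (1 / 8) * p.t ^ 2 * p.s ^ 2 * p.Z11⟩ ∧
    KT p 3 4 = 0 ∧
    KT p 3 5 = 0 ∧
    KT p 3 6 = ⟨0, 0, (1 / 4) * p.Z13 - (1 / 2) * p.a * p.Z13 + 2 * p.t ^ 2 * p.b1 * p.b3 + (1 / 4) * p.t ^ 2 * p.s ^ 2 * p.Z13⟩ ∧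
    KT p 4 0 = ⟨0, p.t * p.b2, 0⟩ ∧
    KT p 4 1 = 0 ∧
    KT p 4 2 = 0 ∧
    KT p 4 3 = 0 ∧
    KT p 4 4 = ⟨1, 0, - (1 / 24) * p.Z33 + (1 / 12) * p.Z22 + (1 / 12) * p.Z11 + (1 / 6) * p.a * p.Z33 - (1 / 12) * p.a * p.Z22 - (1 / 12) * p.a * p.Z11 + p.t ^ 2 * p.b2 ^ 2 + (1 / 8) * p.t ^ 2 * p.s ^ 2 * p.Z22 - (1 / 8) * p.t ^ 2 * p.s ^ 2 * p.Z11⟩ ∧
    KT p 4 5 = ⟨0, 0, - (1 / 4) * p.Z13 + (1 / 2) * p.a * p.Z13 + (1 / 4) * p.t ^ 2 * p.s ^ 2 * p.Z13⟩ ∧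
    KT p 4 6 = 0 ∧
    KT p 5 0 = 0 ∧
    KT p 5 1 = 0 ∧
    KT p 5 2 = 0 ∧
    KT p 5 3 = 0 ∧
    KT p 5 4 = ⟨0, 0, - (1 / 4) * p.Z13 + (1 / 2) * p.a * p.Z13 + (1 / 4) * p.t ^ 2 * p.s ^ 2 * p.Z13⟩ ∧
    KT p 5 5 = ⟨4, 0, (1 / 2) * p.Z33 - (2 / 3) * p.a * p.Z33 + (1 / 3) * p.a * p.Z22 + (1 / 3) * p.a * p.Z11 - (1 / 3) * p.t ^ 2 * p.s ^ 2 * p.Z33 + (1 / 6) * p.t ^ 2 * p.s ^ 2 * p.Z22 + (1 / 6) * p.t ^ 2 * p.s ^ 2 * p.Z11⟩ ∧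
    KT p 5 6 = 0 ∧
    KT p 6 0 = 0 ∧
    KT p 6 1 = ⟨0, 2 * p.t * p.b3, 0⟩ ∧
    KT p 6 2 = 0 ∧
    KT p 6 3 = ⟨0, 0, (1 / 4) * p.Z13 - (1 / 2) * p.a * p.Z13 + 2 * p.t ^ 2 * p.b1 * p.b3 + (1 / 4) * p.t ^ 2 * p.s ^ 2 * p.Z13⟩ ∧
    KT p 6 4 = 0 ∧
    KT p 6 5 = 0 ∧
    KT p 6 6 = ⟨4, 0, (1 / 2) * p.Z33 - (2 / 3) * p.a * p.Z33 + (1 / 3) * p.a * p.Z22 + (1 / 3) * p.a * p.Z11 + 4 * p.t ^ 2 * p.b3 ^ 2 + (1 / 3) * p.t ^ 2 * p.s ^ 2 * p.Z33 - (1 / 6) * p.t ^ 2 * p.s ^ 2 * p.Z22 - (1 / 6) * p.t ^ 2 * p.s ^ 2 * p.Z11⟩ := by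
  refine ⟨?_, ?_, ?_, ?_, ?_, ?_, ?_, ?_, ?_, ?_, ?_, ?_, ?_, ?_, ?_, ?_, ?_, ?_, ?_, ?_, ?_, ?_, ?_, ?_, ?_, ?_, ?_, ?_, ?_, ?_, ?_, ?_, ?_, ?_, ?_, ?_, ?_, ?_, ?_, ?_, ?_, ?_, ?_, ?_, ?_, ?_, ?_, ?_, ?_⟩ <;> rfl

theorem F4_mg (v g0 g3 g4 g5 g6 h00 h03 h04 h05 h06 h33 h34 h35 h36 h44 h45 h46 h55 h56 h66 : T3) :
    (mkJ v g0 g3 g4 g5 g6 h00 h03 h04 h05 h06 h33 h34 h35 h36 h44 h45 h46 h55 h56 h66).g 0 = g0 ∧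
    (mkJ v g0 g3 g4 g5 g6 h00 h03 h04 h05 h06 h33 h34 h35 h36 h44 h45 h46 h55 h56 h66).g 1 = 0 ∧
    (mkJ v g0 g3 g4 g5 g6 h00 h03 h04 h05 h06 h33 h34 h35 h36 h44 h45 h46 h55 h56 h66).g 2 = 0 ∧
    (mkJ v g0 g3 g4 g5 g6 h00 h03 h04 h05 h06 h33 h34 h35 h36 h44 h45 h46 h55 h56 h66).g 3 = g3 ∧
    (mkJ v g0 g3 g4 g5 g6 h00 h03 h04 h05 h06 h33 h34 h35 h36 h44 h45 h46 h55 h56 h66).g 4 = g4 ∧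
    (mkJ v g0 g3 g4 g5 g6 h00 h03 h04 h05 h06 h33 h34 h35 h36 h44 h45 h46 h55 h56 h66).g 5 = g5 ∧
    (mkJ v g0 g3 g4 g5 g6 h00 h03 h04 h05 h06 h33 h34 h35 h36 h44 h45 h46 h55 h56 h66).g 6 = g6 := by
  refine ⟨?_, ?_, ?_, ?_, ?_, ?_, ?_⟩ <;> rfl

theorem F4_mh (v g0 g3 g4 g5 g6 h00 h03 h04 h05 h06 h33 h34 h35 h36 h44 h45 h46 h55 h56 h66 : T3) :
    (mkJ v g0 g3 g4 g5 g6 h00 h03 h04 h05 h06 h33 h34 h35 h36 h44 h45 h46 h55 h56 h66).h 0 0 = h00 ∧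
    (mkJ v g0 g3 g4 g5 g6 h00 h03 h04 h05 h06 h33 h34 h35 h36 h44 h45 h46 h55 h56 h66).h 0 1 = 0 ∧
    (mkJ v g0 g3 g4 g5 g6 h00 h03 h04 h05 h06 h33 h34 h35 h36 h44 h45 h46 h55 h56 h66).h 0 2 = 0 ∧
    (mkJ v g0 g3 g4 g5 g6 h00 h03 h04 h05 h06 h33 h34 h35 h36 h44 h45 h46 h55 h56 h66).h 0 3 = h03 ∧
    (mkJ v g0 g3 g4 g5 g6 h00 h03 h04 h05 h06 h33 h34 h35 h36 h44 h45 h46 h55 h56 h66).h 0 4 = h04 ∧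
    (mkJ v g0 g3 g4 g5 g6 h00 h03 h04 h05 h06 h33 h34 h35 h36 h44 h45 h46 h55 h56 h66).h 0 5 = h05 ∧
    (mkJ v g0 g3 g4 g5 g6 h00 h03 h04 h05 h06 h33 h34 h35 h36 h44 h45 h46 h55 h56 h66).h 0 6 = h06 ∧
    (mkJ v g0 g3 g4 g5 g6 h00 h03 h04 h05 h06 h33 h34 h35 h36 h44 h45 h46 h55 h56 h66).h 1 0 = 0 ∧
    (mkJ v g0 g3 g4 g5 g6 h00 h03 h04 h05 h06 h33 h34 h35 h36 h44 h45 h46 h55 h56 h66).h 1 1 = 0 ∧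
    (mkJ v g0 g3 g4 g5 g6 h00 h03 h04 h05 h06 h33 h34 h35 h36 h44 h45 h46 h55 h56 h66).h 1 2 = 0 ∧
    (mkJ v g0 g3 g4 g5 g6 h00 h03 h04 h05 h06 h33 h34 h35 h36 h44 h45 h46 h55 h56 h66).h 1 3 = 0 ∧
    (mkJ v g0 g3 g4 g5 g6 h00 h03 h04 h05 h06 h33 h34 h35 h36 h44 h45 h46 h55 h56 h66).h 1 4 = 0 ∧
    (mkJ v g0 g3 g4 g5 g6 h00 h03 h04 h05 h06 h33 h34 h35 h36 h44 h45 h46 h55 h56 h66).h 1 5 = 0 ∧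
    (mkJ v g0 g3 g4 g5 g6 h00 h03 h04 h05 h06 h33 h34 h35 h36 h44 h45 h46 h55 h56 h66).h 1 6 = 0 ∧
    (mkJ v g0 g3 g4 g5 g6 h00 h03 h04 h05 h06 h33 h34 h35 h36 h44 h45 h46 h55 h56 h66).h 2 0 = 0 ∧
    (mkJ v g0 g3 g4 g5 g6 h00 h03 h04 h05 h06 h33 h34 h35 h36 h44 h45 h46 h55 h56 h66).h 2 1 = 0 ∧
    (mkJ v g0 g3 g4 g5 g6 h00 h03 h04 h05 h06 h33 h34 h35 h36 h44 h45 h46 h55 h56 h66).h 2 2 = 0 ∧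
    (mkJ v g0 g3 g4 g5 g6 h00 h03 h04 h05 h06 h33 h34 h35 h36 h44 h45 h46 h55 h56 h66).h 2 3 = 0 ∧
    (mkJ v g0 g3 g4 g5 g6 h00 h03 h04 h05 h06 h33 h34 h35 h36 h44 h45 h46 h55 h56 h66).h 2 4 = 0 ∧
    (mkJ v g0 g3 g4 g5 g6 h00 h03 h04 h05 h06 h33 h34 h35 h36 h44 h45 h46 h55 h56 h66).h 2 5 = 0 ∧
    (mkJ v g0 g3 g4 g5 g6 h00 h03 h04 h05 h06 h33 h34 h35 h36 h44 h45 h46 h55 h56 h66).h 2 6 = 0 ∧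
    (mkJ v g0 g3 g4 g5 g6 h00 h03 h04 h05 h06 h33 h34 h35 h36 h44 h45 h46 h55 h56 h66).h 3 0 = h03 ∧
    (mkJ v g0 g3 g4 g5 g6 h00 h03 h04 h05 h06 h33 h34 h35 h36 h44 h45 h46 h55 h56 h66).h 3 1 = 0 ∧
    (mkJ v g0 g3 g4 g5 g6 h00 h03 h04 h05 h06 h33 h34 h35 h36 h44 h45 h46 h55 h56 h66).h 3 2 = 0 ∧
    (mkJ v g0 g3 g4 g5 g6 h00 h03 h04 h05 h06 h33 h34 h35 h36 h44 h45 h46 h55 h56 h66).h 3 3 = h33 ∧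
    (mkJ v g0 g3 g4 g5 g6 h00 h03 h04 h05 h06 h33 h34 h35 h36 h44 h45 h46 h55 h56 h66).h 3 4 = h34 ∧
    (mkJ v g0 g3 g4 g5 g6 h00 h03 h04 h05 h06 h33 h34 h35 h36 h44 h45 h46 h55 h56 h66).h 3 5 = h35 ∧
    (mkJ v g0 g3 g4 g5 g6 h00 h03 h04 h05 h06 h33 h34 h35 h36 h44 h45 h46 h55 h56 h66).h 3 6 = h36 ∧
    (mkJ v g0 g3 g4 g5 g6 h00 h03 h04 h05 h06 h33 h34 h35 h36 h44 h45 h46 h55 h56 h66).h 4 0 = h04 ∧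
    (mkJ v g0 g3 g4 g5 g6 h00 h03 h04 h05 h06 h33 h34 h35 h36 h44 h45 h46 h55 h56 h66).h 4 1 = 0 ∧
    (mkJ v g0 g3 g4 g5 g6 h00 h03 h04 h05 h06 h33 h34 h35 h36 h44 h45 h46 h55 h56 h66).h 4 2 = 0 ∧
    (mkJ v g0 g3 g4 g5 g6 h00 h03 h04 h05 h06 h33 h34 h35 h36 h44 h45 h46 h55 h56 h66).h 4 3 = h34 ∧
    (mkJ v g0 g3 g4 g5 g6 h00 h03 h04 h05 h06 h33 h34 h35 h36 h44 h45 h46 h55 h56 h66).h 4 4 = h44 ∧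
    (mkJ v g0 g3 g4 g5 g6 h00 h03 h04 h05 h06 h33 h34 h35 h36 h44 h45 h46 h55 h56 h66).h 4 5 = h45 ∧
    (mkJ v g0 g3 g4 g5 g6 h00 h03 h04 h05 h06 h33 h34 h35 h36 h44 h45 h46 h55 h56 h66).h 4 6 = h46 ∧
    (mkJ v g0 g3 g4 g5 g6 h00 h03 h04 h05 h06 h33 h34 h35 h36 h44 h45 h46 h55 h56 h66).h 5 0 = h05 ∧
    (mkJ v g0 g3 g4 g5 g6 h00 h03 h04 h05 h06 h33 h34 h35 h36 h44 h45 h46 h55 h56 h66).h 5 1 = 0 ∧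
    (mkJ v g0 g3 g4 g5 g6 h00 h03 h04 h05 h06 h33 h34 h35 h36 h44 h45 h46 h55 h56 h66).h 5 2 = 0 ∧
    (mkJ v g0 g3 g4 g5 g6 h00 h03 h04 h05 h06 h33 h34 h35 h36 h44 h45 h46 h55 h56 h66).h 5 3 = h35 ∧
    (mkJ v g0 g3 g4 g5 g6 h00 h03 h04 h05 h06 h33 h34 h35 h36 h44 h45 h46 h55 h56 h66).h 5 4 = h45 ∧
    (mkJ v g0 g3 g4 g5 g6 h00 h03 h04 h05 h06 h33 h34 h35 h36 h44 h45 h46 h55 h56 h66).h 5 5 = h55 ∧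
    (mkJ v g0 g3 g4 g5 g6 h00 h03 h04 h05 h06 h33 h34 h35 h36 h44 h45 h46 h55 h56 h66).h 5 6 = h56 ∧
    (mkJ v g0 g3 g4 g5 g6 h00 h03 h04 h05 h06 h33 h34 h35 h36 h44 h45 h46 h55 h56 h66).h 6 0 = h06 ∧
    (mkJ v g0 g3 g4 g5 g6 h00 h03 h04 h05 h06 h33 h34 h35 h36 h44 h45 h46 h55 h56 h66).h 6 1 = 0 ∧
    (mkJ v g0 g3 g4 g5 g6 h00 h03 h04 h05 h06 h33 h34 h35 h36 h44 h45 h46 h55 h56 h66).h 6 2 = 0 ∧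
    (mkJ v g0 g3 g4 g5 g6 h00 h03 h04 h05 h06 h33 h34 h35 h36 h44 h45 h46 h55 h56 h66).h 6 3 = h36 ∧
    (mkJ v g0 g3 g4 g5 g6 h00 h03 h04 h05 h06 h33 h34 h35 h36 h44 h45 h46 h55 h56 h66).h 6 4 = h46 ∧
    (mkJ v g0 g3 g4 g5 g6 h00 h03 h04 h05 h06 h33 h34 h35 h36 h44 h45 h46 h55 h56 h66).h 6 5 = h56 ∧
    (mkJ v g0 g3 g4 g5 g6 h00 h03 h04 h05 h06 h33 h34 h35 h36 h44 h45 h46 h55 h56 h66).h 6 6 = h66 := by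
  refine ⟨?_, ?_, ?_, ?_, ?_, ?_, ?_, ?_, ?_, ?_, ?_, ?_, ?_, ?_, ?_, ?_, ?_, ?_, ?_, ?_, ?_, ?_, ?_, ?_, ?_, ?_, ?_, ?_, ?_, ?_, ?_, ?_, ?_, ?_, ?_, ?_, ?_, ?_, ?_, ?_, ?_, ?_, ?_, ?_, ?_, ?_, ?_, ?_, ?_⟩ <;> rfl

theorem F4_M (p : Par) :
    MJ p 0 0 = MJ00 p ∧
    MJ p 0 1 = J0 ∧
    MJ p 0 2 = J0 ∧
    MJ p 0 3 = MJ03 p ∧
    MJ p 0 4 = MJ04 p ∧
    MJ p 0 5 = J0 ∧
    MJ p 0 6 = J0 ∧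
    MJ p 1 0 = J0 ∧
    MJ p 1 1 = MJ11 p ∧
    MJ p 1 2 = J0 ∧
    MJ p 1 3 = MJ13 p ∧
    MJ p 1 4 = MJ14 p ∧
    MJ p 1 5 = MJ15 p ∧
    MJ p 1 6 = MJ16 p ∧
    MJ p 2 0 = J0 ∧
    MJ p 2 1 = J0 ∧
    MJ p 2 2 = MJ22 p ∧
    MJ p 2 3 = J0 ∧
    MJ p 2 4 = J0 ∧
    MJ p 2 5 = J0 ∧
    MJ p 2 6 = J0 ∧
    MJ p 3 0 = MJ03 p ∧
    MJ p 3 1 = MJ13 p ∧
    MJ p 3 2 = J0 ∧
    MJ p 3 3 = MJ33 p ∧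
    MJ p 3 4 = MJ34 p ∧
    MJ p 3 5 = MJ35 p ∧
    MJ p 3 6 = MJ36 p ∧
    MJ p 4 0 = MJ04 p ∧
    MJ p 4 1 = MJ14 p ∧
    MJ p 4 2 = J0 ∧
    MJ p 4 3 = MJ34 p ∧
    MJ p 4 4 = MJ44 p ∧
    MJ p 4 5 = MJ45 p ∧
    MJ p 4 6 = MJ46 p ∧
    MJ p 5 0 = J0 ∧
    MJ p 5 1 = MJ15 p ∧
    MJ p 5 2 = J0 ∧
    MJ p 5 3 = MJ35 p ∧
    MJ p 5 4 = MJ45 p ∧
    MJ p 5 5 = MJ55 p ∧
    MJ p 5 6 = J0 ∧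
    MJ p 6 0 = J0 ∧
    MJ p 6 1 = MJ16 p ∧
    MJ p 6 2 = J0 ∧
    MJ p 6 3 = MJ36 p ∧
    MJ p 6 4 = MJ46 p ∧
    MJ p 6 5 = J0 ∧
    MJ p 6 6 = MJ66 p := by
  refine ⟨?_, ?_, ?_, ?_, ?_, ?_, ?_, ?_, ?_, ?_, ?_, ?_, ?_, ?_, ?_, ?_, ?_, ?_, ?_, ?_, ?_, ?_, ?_, ?_, ?_, ?_, ?_, ?_, ?_, ?_, ?_, ?_, ?_, ?_, ?_, ?_, ?_, ?_, ?_, ?_, ?_, ?_, ?_, ?_, ?_, ?_, ?_, ?_, ?_⟩ <;> rfl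

theorem F4_H (p : Par) :
    HJ p 0 0 = HJ00 p ∧
    HJ p 0 1 = J0 ∧
    HJ p 0 2 = J0 ∧
    HJ p 0 3 = J0 ∧
    HJ p 0 4 = J0 ∧
    HJ p 0 5 = J0 ∧
    HJ p 0 6 = J0 ∧
    HJ p 1 0 = J0 ∧
    HJ p 1 1 = HJ11 p ∧
    HJ p 1 2 = J0 ∧
    HJ p 1 3 = J0 ∧
    HJ p 1 4 = J0 ∧
    HJ p 1 5 = J0 ∧
    HJ p 1 6 = J0 ∧
    HJ p 2 0 = J0 ∧
    HJ p 2 1 = J0 ∧
    HJ p 2 2 = J0 ∧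
    HJ p 2 3 = J0 ∧
    HJ p 2 4 = J0 ∧
    HJ p 2 5 = J0 ∧
    HJ p 2 6 = J0 ∧
    HJ p 3 0 = J0 ∧
    HJ p 3 1 = J0 ∧
    HJ p 3 2 = J0 ∧
    HJ p 3 3 = HJ33 p ∧
    HJ p 3 4 = HJ34 p ∧
    HJ p 3 5 = HJ35 p ∧
    HJ p 3 6 = HJ36 p ∧
    HJ p 4 0 = J0 ∧
    HJ p 4 1 = J0 ∧
    HJ p 4 2 = J0 ∧
    HJ p 4 3 = HJ34 p ∧
    HJ p 4 4 = HJ44 p ∧
    HJ p 4 5 = HJ45 p ∧
    HJ p 4 6 = HJ46 p ∧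
    HJ p 5 0 = J0 ∧
    HJ p 5 1 = J0 ∧
    HJ p 5 2 = J0 ∧
    HJ p 5 3 = HJ35 p ∧
    HJ p 5 4 = HJ45 p ∧
    HJ p 5 5 = HJ55 p ∧
    HJ p 5 6 = HJ56 p ∧
    HJ p 6 0 = J0 ∧
    HJ p 6 1 = J0 ∧
    HJ p 6 2 = J0 ∧
    HJ p 6 3 = HJ36 p ∧
    HJ p 6 4 = HJ46 p ∧
    HJ p 6 5 = HJ56 p ∧
    HJ p 6 6 = HJ66 p := by
  refine ⟨?_, ?_, ?_, ?_, ?_, ?_, ?_, ?_, ?_, ?_, ?_, ?_, ?_, ?_, ?_, ?_, ?_, ?_, ?_, ?_, ?_, ?_, ?_, ?_, ?_, ?_, ?_, ?_, ?_, ?_, ?_, ?_, ?_, ?_, ?_, ?_, ?_, ?_, ?_, ?_, ?_, ?_, ?_, ?_, ?_, ?_, ?_, ?_, ?_⟩ <;> rfl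

theorem F4_tGl0 (p : Par) :
    GlT0 p 0 0 = 0 ∧
    GlT0 p 0 1 = 0 ∧
    GlT0 p 0 2 = 0 ∧
    GlT0 p 0 3 = 0 ∧
    GlT0 p 0 4 = 0 ∧
    GlT0 p 0 5 = ⟨0, 0, - (1 / 8) * p.t * p.Z33 - (1 / 8) * p.t * p.Z11 + p.t * p.b2 ^ 2 - (1 / 2) * p.t ^ 3 * p.b2 ^ 2⟩ ∧
    GlT0 p 0 6 = 0 ∧
    GlT0 p 1 0 = 0 ∧
    GlT0 p 1 1 = 0 ∧
    GlT0 p 1 2 = 0 ∧
    GlT0 p 1 3 = ⟨0, 0, - p.t * p.b2 * p.b3⟩ ∧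
    GlT0 p 1 4 = 0 ∧
    GlT0 p 1 5 = 0 ∧
    GlT0 p 1 6 = ⟨0, 0, (1 / 2) * p.t * p.b1 * p.b2 - (1 / 4) * p.t * p.a * p.A1 * p.b3⟩ ∧
    GlT0 p 2 0 = 0 ∧
    GlT0 p 2 1 = 0 ∧
    GlT0 p 2 2 = 0 ∧
    GlT0 p 2 3 = 0 ∧
    GlT0 p 2 4 = 0 ∧
    GlT0 p 2 5 = 0 ∧
    GlT0 p 2 6 = 0 ∧
    GlT0 p 3 0 = 0 ∧
    GlT0 p 3 1 = ⟨0, 0, - p.t * p.b2 * p.b3⟩ ∧
    GlT0 p 3 2 = 0 ∧
    GlT0 p 3 3 = ⟨0, - (1 / 2) * p.a * p.A1, 0⟩ ∧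
    GlT0 p 3 4 = 0 ∧
    GlT0 p 3 5 = 0 ∧
    GlT0 p 3 6 = ⟨0, (1 / 2) * p.b2, 0⟩ ∧
    GlT0 p 4 0 = 0 ∧
    GlT0 p 4 1 = 0 ∧
    GlT0 p 4 2 = 0 ∧
    GlT0 p 4 3 = 0 ∧
    GlT0 p 4 4 = ⟨0, - (1 / 2) * p.a * p.A1, 0⟩ ∧
    GlT0 p 4 5 = ⟨0, - (1 / 2) * p.b2, 0⟩ ∧
    GlT0 p 4 6 = 0 ∧
    GlT0 p 5 0 = ⟨0, 0, - (1 / 8) * p.t * p.Z33 - (1 / 8) * p.t * p.Z11 + p.t * p.b2 ^ 2 - (1 / 2) * p.t ^ 3 * p.b2 ^ 2⟩ ∧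
    GlT0 p 5 1 = 0 ∧
    GlT0 p 5 2 = 0 ∧
    GlT0 p 5 3 = 0 ∧
    GlT0 p 5 4 = ⟨0, - (1 / 2) * p.b2, 0⟩ ∧
    GlT0 p 5 5 = ⟨0, (1 / 8) * p.a * p.A1, 0⟩ ∧
    GlT0 p 5 6 = 0 ∧
    GlT0 p 6 0 = 0 ∧
    GlT0 p 6 1 = ⟨0, 0, (1 / 2) * p.t * p.b1 * p.b2 - (1 / 4) * p.t * p.a * p.A1 * p.b3⟩ ∧
    GlT0 p 6 2 = 0 ∧
    GlT0 p 6 3 = ⟨0, (1 / 2) * p.b2, 0⟩ ∧
    GlT0 p 6 4 = 0 ∧
    GlT0 p 6 5 = 0 ∧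
    GlT0 p 6 6 = ⟨0, (1 / 8) * p.a * p.A1, 0⟩ := by
  refine ⟨?_, ?_, ?_, ?_, ?_, ?_, ?_, ?_, ?_, ?_, ?_, ?_, ?_, ?_, ?_, ?_, ?_, ?_, ?_, ?_, ?_, ?_, ?_, ?_, ?_, ?_, ?_, ?_, ?_, ?_, ?_, ?_, ?_, ?_, ?_, ?_, ?_, ?_, ?_, ?_, ?_, ?_, ?_, ?_, ?_, ?_, ?_, ?_, ?_⟩ <;> rfl

theorem F4_tGu0 (p : Par) :
    GuT0 p 0 0 = 0 ∧
    GuT0 p 0 1 = 0 ∧
    GuT0 p 0 2 = 0 ∧
    GuT0 p 0 3 = 0 ∧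
    GuT0 p 0 4 = ⟨0, 0, (1 / 2) * p.t * p.a * p.A1 * p.b2⟩ ∧
    GuT0 p 0 5 = ⟨0, 0, - (1 / 8) * p.t * p.Z33 - (1 / 8) * p.t * p.Z11 + (1 / 2) * p.t * p.b2 ^ 2 - (1 / 2) * p.t ^ 3 * p.b2 ^ 2⟩ ∧
    GuT0 p 0 6 = 0 ∧
    GuT0 p 1 0 = 0 ∧
    GuT0 p 1 1 = 0 ∧
    GuT0 p 1 2 = 0 ∧
    GuT0 p 1 3 = ⟨0, 0, - p.t * p.b2 * p.b3 + p.t ^ 3 * p.b2 * p.b3⟩ ∧
    GuT0 p 1 4 = 0 ∧
    GuT0 p 1 5 = 0 ∧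
    GuT0 p 1 6 = ⟨0, 0, - (1 / 4) * p.t * p.a * p.A1 * p.b3⟩ ∧
    GuT0 p 2 0 = 0 ∧
    GuT0 p 2 1 = 0 ∧
    GuT0 p 2 2 = 0 ∧
    GuT0 p 2 3 = 0 ∧
    GuT0 p 2 4 = 0 ∧
    GuT0 p 2 5 = 0 ∧
    GuT0 p 2 6 = 0 ∧
    GuT0 p 3 0 = 0 ∧
    GuT0 p 3 1 = ⟨0, 0, - p.t * p.b2 * p.b3 + p.t ^ 3 * p.b2 * p.b3⟩ ∧
    GuT0 p 3 2 = 0 ∧
    GuT0 p 3 3 = ⟨0, - (1 / 2) * p.a * p.A1, 0⟩ ∧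
    GuT0 p 3 4 = 0 ∧
    GuT0 p 3 5 = 0 ∧
    GuT0 p 3 6 = ⟨0, (1 / 2) * p.b2 - (1 / 2) * p.t ^ 2 * p.b2, 0⟩ ∧
    GuT0 p 4 0 = ⟨0, 0, (1 / 2) * p.t * p.a * p.A1 * p.b2⟩ ∧
    GuT0 p 4 1 = 0 ∧
    GuT0 p 4 2 = 0 ∧
    GuT0 p 4 3 = 0 ∧
    GuT0 p 4 4 = ⟨0, - (1 / 2) * p.a * p.A1, 0⟩ ∧
    GuT0 p 4 5 = ⟨0, - (1 / 2) * p.b2 + (1 / 2) * p.t ^ 2 * p.b2, 0⟩ ∧
    GuT0 p 4 6 = 0 ∧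
    GuT0 p 5 0 = ⟨0, 0, - (1 / 8) * p.t * p.Z33 - (1 / 8) * p.t * p.Z11 + (1 / 2) * p.t * p.b2 ^ 2 - (1 / 2) * p.t ^ 3 * p.b2 ^ 2⟩ ∧
    GuT0 p 5 1 = 0 ∧
    GuT0 p 5 2 = 0 ∧
    GuT0 p 5 3 = 0 ∧
    GuT0 p 5 4 = ⟨0, - (1 / 2) * p.b2 + (1 / 2) * p.t ^ 2 * p.b2, 0⟩ ∧
    GuT0 p 5 5 = ⟨0, (1 / 8) * p.a * p.A1, 0⟩ ∧
    GuT0 p 5 6 = 0 ∧
    GuT0 p 6 0 = 0 ∧
    GuT0 p 6 1 = ⟨0, 0, - (1 / 4) * p.t * p.a * p.A1 * p.b3⟩ ∧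
    GuT0 p 6 2 = 0 ∧
    GuT0 p 6 3 = ⟨0, (1 / 2) * p.b2 - (1 / 2) * p.t ^ 2 * p.b2, 0⟩ ∧
    GuT0 p 6 4 = 0 ∧
    GuT0 p 6 5 = 0 ∧
    GuT0 p 6 6 = ⟨0, (1 / 8) * p.a * p.A1, 0⟩ := by
  refine ⟨?_, ?_, ?_, ?_, ?_, ?_, ?_, ?_, ?_, ?_, ?_, ?_, ?_, ?_, ?_, ?_, ?_, ?_, ?_, ?_, ?_, ?_, ?_, ?_, ?_, ?_, ?_, ?_, ?_, ?_, ?_, ?_, ?_, ?_, ?_, ?_, ?_, ?_, ?_, ?_, ?_, ?_, ?_, ?_, ?_, ?_, ?_, ?_, ?_⟩ <;> rfl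

theorem F4_tW0 (p : Par) :
    WT0 p 0 0 = 0 ∧
    WT0 p 0 1 = 0 ∧
    WT0 p 0 2 = 0 ∧
    WT0 p 0 3 = 0 ∧
    WT0 p 0 4 = ⟨0, 0, - (1 / 2) * p.t * p.a * p.A1 * p.b2⟩ ∧
    WT0 p 0 5 = ⟨0, 0, - (1 / 8) * p.t * p.Z33 - (1 / 8) * p.t * p.Z11 + (1 / 2) * p.t * p.b2 ^ 2 - (1 / 2) * p.t ^ 3 * p.b2 ^ 2⟩ ∧
    WT0 p 0 6 = 0 ∧
    WT0 p 1 0 = 0 ∧
    WT0 p 1 1 = 0 ∧
    WT0 p 1 2 = 0 ∧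
    WT0 p 1 3 = ⟨0, 0, - (1 / 2) * p.t * p.a * p.A1 * p.b1⟩ ∧
    WT0 p 1 4 = 0 ∧
    WT0 p 1 5 = 0 ∧
    WT0 p 1 6 = ⟨0, 0, p.t * p.b1 * p.b2⟩ ∧
    WT0 p 2 0 = 0 ∧
    WT0 p 2 1 = 0 ∧
    WT0 p 2 2 = 0 ∧
    WT0 p 2 3 = 0 ∧
    WT0 p 2 4 = 0 ∧
    WT0 p 2 5 = 0 ∧
    WT0 p 2 6 = 0 ∧
    WT0 p 3 0 = 0 ∧
    WT0 p 3 1 = ⟨0, 0, - p.t * p.b2 * p.b3⟩ ∧
    WT0 p 3 2 = 0 ∧
    WT0 p 3 3 = ⟨0, - (1 / 2) * p.a * p.A1, 0⟩ ∧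
    WT0 p 3 4 = 0 ∧
    WT0 p 3 5 = 0 ∧
    WT0 p 3 6 = ⟨0, (1 / 2) * p.b2, 0⟩ ∧
    WT0 p 4 0 = 0 ∧
    WT0 p 4 1 = 0 ∧
    WT0 p 4 2 = 0 ∧
    WT0 p 4 3 = 0 ∧
    WT0 p 4 4 = ⟨0, - (1 / 2) * p.a * p.A1, 0⟩ ∧
    WT0 p 4 5 = ⟨0, - (1 / 2) * p.b2, 0⟩ ∧
    WT0 p 4 6 = 0 ∧
    WT0 p 5 0 = ⟨0, 0, - (1 / 2) * p.t * p.Z33 - (1 / 2) * p.t * p.Z11 + 4 * p.t * p.b2 ^ 2 - 2 * p.t ^ 3 * p.b2 ^ 2⟩ ∧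
    WT0 p 5 1 = 0 ∧
    WT0 p 5 2 = 0 ∧
    WT0 p 5 3 = 0 ∧
    WT0 p 5 4 = ⟨0, - 2 * p.b2, 0⟩ ∧
    WT0 p 5 5 = ⟨0, (1 / 2) * p.a * p.A1, 0⟩ ∧
    WT0 p 5 6 = 0 ∧
    WT0 p 6 0 = 0 ∧
    WT0 p 6 1 = ⟨0, 0, 2 * p.t * p.b1 * p.b2 - p.t * p.a * p.A1 * p.b3⟩ ∧
    WT0 p 6 2 = 0 ∧
    WT0 p 6 3 = ⟨0, 2 * p.b2, 0⟩ ∧
    WT0 p 6 4 = 0 ∧
    WT0 p 6 5 = 0 ∧
    WT0 p 6 6 = ⟨0, (1 / 2) * p.a * p.A1, 0⟩ := by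
  refine ⟨?_, ?_, ?_, ?_, ?_, ?_, ?_, ?_, ?_, ?_, ?_, ?_, ?_, ?_, ?_, ?_, ?_, ?_, ?_, ?_, ?_, ?_, ?_, ?_, ?_, ?_, ?_, ?_, ?_, ?_, ?_, ?_, ?_, ?_, ?_, ?_, ?_, ?_, ?_, ?_, ?_, ?_, ?_, ?_, ?_, ?_, ?_, ?_, ?_⟩ <;> rfl

theorem F4_tGl1 (p : Par) :
    GlT1 p 0 0 = 0 ∧
    GlT1 p 0 1 = 0 ∧
    GlT1 p 0 2 = 0 ∧
    GlT1 p 0 3 = ⟨0, 0, p.t * p.b2 * p.b3⟩ ∧
    GlT1 p 0 4 = 0 ∧
    GlT1 p 0 5 = 0 ∧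
    GlT1 p 0 6 = ⟨0, 0, - (1 / 2) * p.t * p.b1 * p.b2 + (1 / 4) * p.t * p.a * p.A1 * p.b3⟩ ∧
    GlT1 p 1 0 = 0 ∧
    GlT1 p 1 1 = 0 ∧
    GlT1 p 1 2 = 0 ∧
    GlT1 p 1 3 = 0 ∧
    GlT1 p 1 4 = 0 ∧
    GlT1 p 1 5 = ⟨0, 0, - (1 / 8) * p.t * p.Z22 + p.t * p.b3 ^ 2 + p.t * p.b1 ^ 2 - (1 / 2) * p.t ^ 3 * p.b3 ^ 2 - (1 / 2) * p.t ^ 3 * p.b1 ^ 2⟩ ∧
    GlT1 p 1 6 = 0 ∧
    GlT1 p 2 0 = 0 ∧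
    GlT1 p 2 1 = 0 ∧
    GlT1 p 2 2 = 0 ∧
    GlT1 p 2 3 = 0 ∧
    GlT1 p 2 4 = 0 ∧
    GlT1 p 2 5 = 0 ∧
    GlT1 p 2 6 = 0 ∧
    GlT1 p 3 0 = ⟨0, 0, p.t * p.b2 * p.b3⟩ ∧
    GlT1 p 3 1 = 0 ∧
    GlT1 p 3 2 = 0 ∧
    GlT1 p 3 3 = 0 ∧
    GlT1 p 3 4 = 0 ∧
    GlT1 p 3 5 = ⟨0, - (1 / 2) * p.b1, 0⟩ ∧
    GlT1 p 3 6 = 0 ∧
    GlT1 p 4 0 = 0 ∧
    GlT1 p 4 1 = 0 ∧
    GlT1 p 4 2 = 0 ∧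
    GlT1 p 4 3 = 0 ∧
    GlT1 p 4 4 = 0 ∧
    GlT1 p 4 5 = 0 ∧
    GlT1 p 4 6 = ⟨0, - (1 / 2) * p.b1, 0⟩ ∧
    GlT1 p 5 0 = 0 ∧
    GlT1 p 5 1 = ⟨0, 0, - (1 / 8) * p.t * p.Z22 + p.t * p.b3 ^ 2 + p.t * p.b1 ^ 2 - (1 / 2) * p.t ^ 3 * p.b3 ^ 2 - (1 / 2) * p.t ^ 3 * p.b1 ^ 2⟩ ∧
    GlT1 p 5 2 = 0 ∧
    GlT1 p 5 3 = ⟨0, - (1 / 2) * p.b1, 0⟩ ∧
    GlT1 p 5 4 = 0 ∧
    GlT1 p 5 5 = 0 ∧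
    GlT1 p 5 6 = ⟨0, (1 / 4) * p.t ^ 2 * p.b3, 0⟩ ∧
    GlT1 p 6 0 = ⟨0, 0, - (1 / 2) * p.t * p.b1 * p.b2 + (1 / 4) * p.t * p.a * p.A1 * p.b3⟩ ∧
    GlT1 p 6 1 = 0 ∧
    GlT1 p 6 2 = 0 ∧
    GlT1 p 6 3 = 0 ∧
    GlT1 p 6 4 = ⟨0, - (1 / 2) * p.b1, 0⟩ ∧
    GlT1 p 6 5 = ⟨0, (1 / 4) * p.t ^ 2 * p.b3, 0⟩ ∧
    GlT1 p 6 6 = 0 := by
  refine ⟨?_, ?_, ?_, ?_, ?_, ?_, ?_, ?_, ?_, ?_, ?_, ?_, ?_, ?_, ?_, ?_, ?_, ?_, ?_, ?_, ?_, ?_, ?_, ?_, ?_, ?_, ?_, ?_, ?_, ?_, ?_, ?_, ?_, ?_, ?_, ?_, ?_, ?_, ?_, ?_, ?_, ?_, ?_, ?_, ?_, ?_, ?_, ?_, ?_⟩ <;> rfl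

theorem F4_tGu1 (p : Par) :
    GuT1 p 0 0 = 0 ∧
    GuT1 p 0 1 = 0 ∧
    GuT1 p 0 2 = 0 ∧
    GuT1 p 0 3 = ⟨0, 0, (1 / 2) * p.t * p.a * p.A1 * p.b1⟩ ∧
    GuT1 p 0 4 = 0 ∧
    GuT1 p 0 5 = 0 ∧
    GuT1 p 0 6 = 0 ∧
    GuT1 p 1 0 = 0 ∧
    GuT1 p 1 1 = 0 ∧
    GuT1 p 1 2 = 0 ∧
    GuT1 p 1 3 = 0 ∧
    GuT1 p 1 4 = ⟨0, 0, p.t * p.b1 * p.b3 - p.t ^ 3 * p.b1 * p.b3⟩ ∧
    GuT1 p 1 5 = ⟨0, 0, - (1 / 8) * p.t * p.Z22 + (1 / 2) * p.t * p.b1 ^ 2 - (1 / 2) * p.t ^ 3 * p.b1 ^ 2⟩ ∧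
    GuT1 p 1 6 = 0 ∧
    GuT1 p 2 0 = 0 ∧
    GuT1 p 2 1 = 0 ∧
    GuT1 p 2 2 = 0 ∧
    GuT1 p 2 3 = 0 ∧
    GuT1 p 2 4 = 0 ∧
    GuT1 p 2 5 = 0 ∧
    GuT1 p 2 6 = 0 ∧
    GuT1 p 3 0 = ⟨0, 0, (1 / 2) * p.t * p.a * p.A1 * p.b1⟩ ∧
    GuT1 p 3 1 = 0 ∧
    GuT1 p 3 2 = 0 ∧
    GuT1 p 3 3 = 0 ∧
    GuT1 p 3 4 = 0 ∧
    GuT1 p 3 5 = ⟨0, - (1 / 2) * p.b1 + (1 / 2) * p.t ^ 2 * p.b1, 0⟩ ∧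
    GuT1 p 3 6 = 0 ∧
    GuT1 p 4 0 = 0 ∧
    GuT1 p 4 1 = ⟨0, 0, p.t * p.b1 * p.b3 - p.t ^ 3 * p.b1 * p.b3⟩ ∧
    GuT1 p 4 2 = 0 ∧
    GuT1 p 4 3 = 0 ∧
    GuT1 p 4 4 = 0 ∧
    GuT1 p 4 5 = 0 ∧
    GuT1 p 4 6 = ⟨0, - (1 / 2) * p.b1 + (1 / 2) * p.t ^ 2 * p.b1, 0⟩ ∧
    GuT1 p 5 0 = 0 ∧
    GuT1 p 5 1 = ⟨0, 0, - (1 / 8) * p.t * p.Z22 + (1 / 2) * p.t * p.b1 ^ 2 - (1 / 2) * p.t ^ 3 * p.b1 ^ 2⟩ ∧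
    GuT1 p 5 2 = 0 ∧
    GuT1 p 5 3 = ⟨0, - (1 / 2) * p.b1 + (1 / 2) * p.t ^ 2 * p.b1, 0⟩ ∧
    GuT1 p 5 4 = 0 ∧
    GuT1 p 5 5 = 0 ∧
    GuT1 p 5 6 = 0 ∧
    GuT1 p 6 0 = 0 ∧
    GuT1 p 6 1 = 0 ∧
    GuT1 p 6 2 = 0 ∧
    GuT1 p 6 3 = 0 ∧
    GuT1 p 6 4 = ⟨0, - (1 / 2) * p.b1 + (1 / 2) * p.t ^ 2 * p.b1, 0⟩ ∧
    GuT1 p 6 5 = 0 ∧
    GuT1 p 6 6 = 0 := by
  refine ⟨?_, ?_, ?_, ?_, ?_, ?_, ?_, ?_, ?_, ?_, ?_, ?_, ?_, ?_, ?_, ?_, ?_, ?_, ?_, ?_, ?_, ?_, ?_, ?_, ?_, ?_, ?_, ?_, ?_, ?_, ?_, ?_, ?_, ?_, ?_, ?_, ?_, ?_, ?_, ?_, ?_, ?_, ?_, ?_, ?_, ?_, ?_, ?_, ?_⟩ <;> rfl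

theorem F4_tW1 (p : Par) :
    WT1 p 0 0 = 0 ∧
    WT1 p 0 1 = 0 ∧
    WT1 p 0 2 = 0 ∧
    WT1 p 0 3 = ⟨0, 0, p.t * p.b2 * p.b3⟩ ∧
    WT1 p 0 4 = 0 ∧
    WT1 p 0 5 = 0 ∧
    WT1 p 0 6 = ⟨0, 0, - p.t * p.b1 * p.b2 + (1 / 4) * p.t * p.a * p.A1 * p.b3⟩ ∧
    WT1 p 1 0 = 0 ∧
    WT1 p 1 1 = 0 ∧
    WT1 p 1 2 = 0 ∧
    WT1 p 1 3 = 0 ∧
    WT1 p 1 4 = ⟨0, 0, - p.t * p.b1 * p.b3⟩ ∧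
    WT1 p 1 5 = ⟨0, 0, - (1 / 8) * p.t * p.Z22 + p.t * p.b3 ^ 2 + (1 / 2) * p.t * p.b1 ^ 2 - (1 / 2) * p.t ^ 3 * p.b1 ^ 2⟩ ∧
    WT1 p 1 6 = 0 ∧
    WT1 p 2 0 = 0 ∧
    WT1 p 2 1 = 0 ∧
    WT1 p 2 2 = 0 ∧
    WT1 p 2 3 = 0 ∧
    WT1 p 2 4 = 0 ∧
    WT1 p 2 5 = 0 ∧
    WT1 p 2 6 = 0 ∧
    WT1 p 3 0 = ⟨0, 0, p.t * p.b2 * p.b3⟩ ∧
    WT1 p 3 1 = 0 ∧
    WT1 p 3 2 = 0 ∧
    WT1 p 3 3 = 0 ∧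
    WT1 p 3 4 = 0 ∧
    WT1 p 3 5 = ⟨0, - (1 / 2) * p.b1, 0⟩ ∧
    WT1 p 3 6 = 0 ∧
    WT1 p 4 0 = 0 ∧
    WT1 p 4 1 = 0 ∧
    WT1 p 4 2 = 0 ∧
    WT1 p 4 3 = 0 ∧
    WT1 p 4 4 = 0 ∧
    WT1 p 4 5 = 0 ∧
    WT1 p 4 6 = ⟨0, - (1 / 2) * p.b1, 0⟩ ∧
    WT1 p 5 0 = 0 ∧
    WT1 p 5 1 = ⟨0, 0, - (1 / 2) * p.t * p.Z22 + 4 * p.t * p.b3 ^ 2 + 4 * p.t * p.b1 ^ 2 - 2 * p.t ^ 3 * p.b3 ^ 2 - 2 * p.t ^ 3 * p.b1 ^ 2⟩ ∧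
    WT1 p 5 2 = 0 ∧
    WT1 p 5 3 = ⟨0, - 2 * p.b1, 0⟩ ∧
    WT1 p 5 4 = 0 ∧
    WT1 p 5 5 = 0 ∧
    WT1 p 5 6 = ⟨0, p.t ^ 2 * p.b3, 0⟩ ∧
    WT1 p 6 0 = ⟨0, 0, - 2 * p.t * p.b1 * p.b2 + p.t * p.a * p.A1 * p.b3⟩ ∧
    WT1 p 6 1 = 0 ∧
    WT1 p 6 2 = 0 ∧
    WT1 p 6 3 = 0 ∧
    WT1 p 6 4 = ⟨0, - 2 * p.b1, 0⟩ ∧
    WT1 p 6 5 = ⟨0, p.t ^ 2 * p.b3, 0⟩ ∧
    WT1 p 6 6 = 0 := by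
  refine ⟨?_, ?_, ?_, ?_, ?_, ?_, ?_, ?_, ?_, ?_, ?_, ?_, ?_, ?_, ?_, ?_, ?_, ?_, ?_, ?_, ?_, ?_, ?_, ?_, ?_, ?_, ?_, ?_, ?_, ?_, ?_, ?_, ?_, ?_, ?_, ?_, ?_, ?_, ?_, ?_, ?_, ?_, ?_, ?_, ?_, ?_, ?_, ?_, ?_⟩ <;> rfl

theorem F4_tGl3 (p : Par) :
    GlT3 p 0 0 = 0 ∧
    GlT3 p 0 1 = ⟨0, 0, p.t * p.b2 * p.b3⟩ ∧
    GlT3 p 0 2 = 0 ∧
    GlT3 p 0 3 = ⟨0, (1 / 2) * p.a * p.A1, 0⟩ ∧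
    GlT3 p 0 4 = 0 ∧
    GlT3 p 0 5 = 0 ∧
    GlT3 p 0 6 = ⟨0, (1 / 2) * p.b2, 0⟩ ∧
    GlT3 p 1 0 = ⟨0, 0, p.t * p.b2 * p.b3⟩ ∧
    GlT3 p 1 1 = 0 ∧
    GlT3 p 1 2 = 0 ∧
    GlT3 p 1 3 = 0 ∧
    GlT3 p 1 4 = ⟨0, - p.t ^ 2 * p.b3, 0⟩ ∧
    GlT3 p 1 5 = ⟨0, - (1 / 2) * p.b1, 0⟩ ∧
    GlT3 p 1 6 = 0 ∧
    GlT3 p 2 0 = 0 ∧
    GlT3 p 2 1 = 0 ∧
    GlT3 p 2 2 = 0 ∧
    GlT3 p 2 3 = 0 ∧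
    GlT3 p 2 4 = 0 ∧
    GlT3 p 2 5 = 0 ∧
    GlT3 p 2 6 = 0 ∧
    GlT3 p 3 0 = ⟨0, (1 / 2) * p.a * p.A1, 0⟩ ∧
    GlT3 p 3 1 = 0 ∧
    GlT3 p 3 2 = 0 ∧
    GlT3 p 3 3 = 0 ∧
    GlT3 p 3 4 = ⟨0, 0, - (1 / 8) * p.t * p.Z13 + (1 / 4) * p.t * p.a * p.Z13 - (1 / 8) * p.t ^ 3 * p.s ^ 2 * p.Z13⟩ ∧
    GlT3 p 3 5 = ⟨(1 / 2) * p.t, 0, (1 / 12) * p.t * p.a * p.Z33 - (1 / 24) * p.t * p.a * p.Z22 - (1 / 24) * p.t * p.a * p.Z11 + (1 / 8) * p.t * p.s ^ 2 * p.Z22 - (1 / 8) * p.t * p.s ^ 2 * p.Z11 - (1 / 8) * p.t ^ 3 * p.s ^ 3 * p.Z22 + (1 / 8) * p.t ^ 3 * p.s ^ 3 * p.Z11⟩ ∧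
    GlT3 p 3 6 = 0 ∧
    GlT3 p 4 0 = 0 ∧
    GlT3 p 4 1 = ⟨0, - p.t ^ 2 * p.b3, 0⟩ ∧
    GlT3 p 4 2 = 0 ∧
    GlT3 p 4 3 = ⟨0, 0, - (1 / 8) * p.t * p.Z13 + (1 / 4) * p.t * p.a * p.Z13 - (1 / 8) * p.t ^ 3 * p.s ^ 2 * p.Z13⟩ ∧
    GlT3 p 4 4 = 0 ∧
    GlT3 p 4 5 = 0 ∧
    GlT3 p 4 6 = ⟨(1 / 2) * p.t, 0, - (1 / 16) * p.t * p.Z33 + (1 / 12) * p.t * p.a * p.Z33 - (1 / 24) * p.t * p.a * p.Z22 - (1 / 24) * p.t * p.a * p.Z11 + (1 / 8) * p.t * p.s ^ 2 * p.Z22 - (1 / 8) * p.t * p.s ^ 2 * p.Z11 - (1 / 24) * p.t ^ 3 * p.s ^ 2 * p.Z33 + (1 / 48) * p.t ^ 3 * p.s ^ 2 * p.Z22 + (1 / 48) * p.t ^ 3 * p.s ^ 2 * p.Z11⟩ ∧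
    GlT3 p 5 0 = 0 ∧
    GlT3 p 5 1 = ⟨0, - (1 / 2) * p.b1, 0⟩ ∧
    GlT3 p 5 2 = 0 ∧
    GlT3 p 5 3 = ⟨(1 / 2) * p.t, 0, (1 / 12) * p.t * p.a * p.Z33 - (1 / 24) * p.t * p.a * p.Z22 - (1 / 24) * p.t * p.a * p.Z11 + (1 / 8) * p.t * p.s ^ 2 * p.Z22 - (1 / 8) * p.t * p.s ^ 2 * p.Z11 - (1 / 8) * p.t ^ 3 * p.s ^ 3 * p.Z22 + (1 / 8) * p.t ^ 3 * p.s ^ 3 * p.Z11⟩ ∧
    GlT3 p 5 4 = 0 ∧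
    GlT3 p 5 5 = 0 ∧
    GlT3 p 5 6 = ⟨0, 0, (1 / 32) * p.t * p.Z13 - (1 / 8) * p.t * p.a * p.Z13 + (1 / 32) * p.t ^ 3 * p.s ^ 2 * p.Z13 + (1 / 16) * p.t ^ 3 * p.s ^ 3 * p.Z13⟩ ∧
    GlT3 p 6 0 = ⟨0, (1 / 2) * p.b2, 0⟩ ∧
    GlT3 p 6 1 = 0 ∧
    GlT3 p 6 2 = 0 ∧
    GlT3 p 6 3 = 0 ∧
    GlT3 p 6 4 = ⟨(1 / 2) * p.t, 0, - (1 / 16) * p.t * p.Z33 + (1 / 12) * p.t * p.a * p.Z33 - (1 / 24) * p.t * p.a * p.Z22 - (1 / 24) * p.t * p.a * p.Z11 + (1 / 8) * p.t * p.s ^ 2 * p.Z22 - (1 / 8) * p.t * p.s ^ 2 * p.Z11 - (1 / 24) * p.t ^ 3 * p.s ^ 2 * p.Z33 + (1 / 48) * p.t ^ 3 * p.s ^ 2 * p.Z22 + (1 / 48) * p.t ^ 3 * p.s ^ 2 * p.Z11⟩ ∧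
    GlT3 p 6 5 = ⟨0, 0, (1 / 32) * p.t * p.Z13 - (1 / 8) * p.t * p.a * p.Z13 + (1 / 32) * p.t ^ 3 * p.s ^ 2 * p.Z13 + (1 / 16) * p.t ^ 3 * p.s ^ 3 * p.Z13⟩ ∧
    GlT3 p 6 6 = 0 := by
  refine ⟨?_, ?_, ?_, ?_, ?_, ?_, ?_, ?_, ?_, ?_, ?_, ?_, ?_, ?_, ?_, ?_, ?_, ?_, ?_, ?_, ?_, ?_, ?_, ?_, ?_, ?_, ?_, ?_, ?_, ?_, ?_, ?_, ?_, ?_, ?_, ?_, ?_, ?_, ?_, ?_, ?_, ?_, ?_, ?_, ?_, ?_, ?_, ?_, ?_⟩ <;> rfl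

theorem F4_tGu3 (p : Par) :
    GuT3 p 0 0 = 0 ∧
    GuT3 p 0 1 = ⟨0, 0, p.t * p.b2 * p.b3⟩ ∧
    GuT3 p 0 2 = 0 ∧
    GuT3 p 0 3 = ⟨0, (1 / 2) * p.a * p.A1, 0⟩ ∧
    GuT3 p 0 4 = 0 ∧
    GuT3 p 0 5 = 0 ∧
    GuT3 p 0 6 = ⟨0, (1 / 2) * p.b2, 0⟩ ∧
    GuT3 p 1 0 = ⟨0, 0, p.t * p.b2 * p.b3⟩ ∧
    GuT3 p 1 1 = 0 ∧
    GuT3 p 1 2 = 0 ∧
    GuT3 p 1 3 = 0 ∧
    GuT3 p 1 4 = ⟨0, - p.t ^ 2 * p.b3, 0⟩ ∧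
    GuT3 p 1 5 = ⟨0, - (1 / 2) * p.b1, 0⟩ ∧
    GuT3 p 1 6 = 0 ∧
    GuT3 p 2 0 = 0 ∧
    GuT3 p 2 1 = 0 ∧
    GuT3 p 2 2 = 0 ∧
    GuT3 p 2 3 = 0 ∧
    GuT3 p 2 4 = 0 ∧
    GuT3 p 2 5 = 0 ∧
    GuT3 p 2 6 = 0 ∧
    GuT3 p 3 0 = ⟨0, (1 / 2) * p.a * p.A1, 0⟩ ∧
    GuT3 p 3 1 = 0 ∧
    GuT3 p 3 2 = 0 ∧
    GuT3 p 3 3 = 0 ∧
    GuT3 p 3 4 = ⟨0, 0, - (1 / 8) * p.t * p.Z13 + (1 / 4) * p.t * p.a * p.Z13 - (1 / 8) * p.t ^ 3 * p.s ^ 2 * p.Z13⟩ ∧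
    GuT3 p 3 5 = ⟨(1 / 2) * p.t, 0, - (1 / 48) * p.t * p.Z33 + (1 / 24) * p.t * p.Z22 + (1 / 24) * p.t * p.Z11 - (1 / 2) * p.t * p.b1 ^ 2 + (1 / 6) * p.t * p.a * p.Z33 - (1 / 12) * p.t * p.a * p.Z22 - (1 / 12) * p.t * p.a * p.Z11 + (1 / 8) * p.t * p.s ^ 2 * p.Z22 - (1 / 8) * p.t * p.s ^ 2 * p.Z11 + (1 / 2) * p.t ^ 3 * p.b1 ^ 2 - (1 / 16) * p.t ^ 3 * p.s ^ 2 * p.Z22 + (1 / 16) * p.t ^ 3 * p.s ^ 2 * p.Z11 - (1 / 8) * p.t ^ 3 * p.s ^ 3 * p.Z22 + (1 / 8) * p.t ^ 3 * p.s ^ 3 * p.Z11⟩ ∧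
    GuT3 p 3 6 = 0 ∧
    GuT3 p 4 0 = 0 ∧
    GuT3 p 4 1 = ⟨0, - p.t ^ 2 * p.b3, 0⟩ ∧
    GuT3 p 4 2 = 0 ∧
    GuT3 p 4 3 = ⟨0, 0, - (1 / 8) * p.t * p.Z13 + (1 / 4) * p.t * p.a * p.Z13 - (1 / 8) * p.t ^ 3 * p.s ^ 2 * p.Z13⟩ ∧
    GuT3 p 4 4 = 0 ∧
    GuT3 p 4 5 = 0 ∧
    GuT3 p 4 6 = ⟨(1 / 2) * p.t, 0, - (1 / 12) * p.t * p.Z33 + (1 / 24) * p.t * p.Z22 + (1 / 24) * p.t * p.Z11 - (1 / 2) * p.t * p.b1 ^ 2 + (1 / 6) * p.t * p.a * p.Z33 - (1 / 12) * p.t * p.a * p.Z22 - (1 / 12) * p.t * p.a * p.Z11 + (1 / 8) * p.t * p.s ^ 2 * p.Z22 - (1 / 8) * p.t * p.s ^ 2 * p.Z11 + (1 / 2) * p.t ^ 3 * p.b1 ^ 2 - (1 / 24) * p.t ^ 3 * p.s ^ 2 * p.Z33 - (1 / 24) * p.t ^ 3 * p.s ^ 2 * p.Z22 + (1 / 12) * p.t ^ 3 * p.s ^ 2 * p.Z11⟩ ∧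
    GuT3 p 5 0 = 0 ∧
    GuT3 p 5 1 = ⟨0, - (1 / 2) * p.b1, 0⟩ ∧
    GuT3 p 5 2 = 0 ∧
    GuT3 p 5 3 = ⟨(1 / 2) * p.t, 0, - (1 / 48) * p.t * p.Z33 + (1 / 24) * p.t * p.Z22 + (1 / 24) * p.t * p.Z11 - (1 / 2) * p.t * p.b1 ^ 2 + (1 / 6) * p.t * p.a * p.Z33 - (1 / 12) * p.t * p.a * p.Z22 - (1 / 12) * p.t * p.a * p.Z11 + (1 / 8) * p.t * p.s ^ 2 * p.Z22 - (1 / 8) * p.t * p.s ^ 2 * p.Z11 + (1 / 2) * p.t ^ 3 * p.b1 ^ 2 - (1 / 16) * p.t ^ 3 * p.s ^ 2 * p.Z22 + (1 / 16) * p.t ^ 3 * p.s ^ 2 * p.Z11 - (1 / 8) * p.t ^ 3 * p.s ^ 3 * p.Z22 + (1 / 8) * p.t ^ 3 * p.s ^ 3 * p.Z11⟩ ∧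
    GuT3 p 5 4 = 0 ∧
    GuT3 p 5 5 = 0 ∧
    GuT3 p 5 6 = ⟨0, 0, - (1 / 16) * p.t * p.a * p.Z13 + (1 / 16) * p.t ^ 3 * p.s ^ 3 * p.Z13⟩ ∧
    GuT3 p 6 0 = ⟨0, (1 / 2) * p.b2, 0⟩ ∧
    GuT3 p 6 1 = 0 ∧
    GuT3 p 6 2 = 0 ∧
    GuT3 p 6 3 = 0 ∧
    GuT3 p 6 4 = ⟨(1 / 2) * p.t, 0, - (1 / 12) * p.t * p.Z33 + (1 / 24) * p.t * p.Z22 + (1 / 24) * p.t * p.Z11 - (1 / 2) * p.t * p.b1 ^ 2 + (1 / 6) * p.t * p.a * p.Z33 - (1 / 12) * p.t * p.a * p.Z22 - (1 / 12) * p.t * p.a * p.Z11 + (1 / 8) * p.t * p.s ^ 2 * p.Z22 - (1 / 8) * p.t * p.s ^ 2 * p.Z11 + (1 / 2) * p.t ^ 3 * p.b1 ^ 2 - (1 / 24) * p.t ^ 3 * p.s ^ 2 * p.Z33 - (1 / 24) * p.t ^ 3 * p.s ^ 2 * p.Z22 + (1 / 12) * p.t ^ 3 * p.s ^ 2 * p.Z11⟩ ∧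
    GuT3 p 6 5 = ⟨0, 0, - (1 / 16) * p.t * p.a * p.Z13 + (1 / 16) * p.t ^ 3 * p.s ^ 3 * p.Z13⟩ ∧
    GuT3 p 6 6 = 0 := by
  refine ⟨?_, ?_, ?_, ?_, ?_, ?_, ?_, ?_, ?_, ?_, ?_, ?_, ?_, ?_, ?_, ?_, ?_, ?_, ?_, ?_, ?_, ?_, ?_, ?_, ?_, ?_, ?_, ?_, ?_, ?_, ?_, ?_, ?_, ?_, ?_, ?_, ?_, ?_, ?_, ?_, ?_, ?_, ?_, ?_, ?_, ?_, ?_, ?_, ?_⟩ <;> rfl

theorem F4_tW3 (p : Par) :
    WT3 p 0 0 = 0 ∧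
    WT3 p 0 1 = ⟨0, 0, p.t * p.b2 * p.b3 - p.t ^ 3 * p.b2 * p.b3⟩ ∧
    WT3 p 0 2 = 0 ∧
    WT3 p 0 3 = ⟨0, (1 / 2) * p.a * p.A1, 0⟩ ∧
    WT3 p 0 4 = 0 ∧
    WT3 p 0 5 = 0 ∧
    WT3 p 0 6 = ⟨0, (1 / 2) * p.b2 + (1 / 2) * p.t ^ 2 * p.b2, 0⟩ ∧
    WT3 p 1 0 = ⟨0, 0, 2 * p.t * p.b2 * p.b3 + (1 / 2) * p.t * p.a * p.A1 * p.b1⟩ ∧
    WT3 p 1 1 = 0 ∧
    WT3 p 1 2 = 0 ∧
    WT3 p 1 3 = 0 ∧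
    WT3 p 1 4 = 0 ∧
    WT3 p 1 5 = ⟨0, - (1 / 2) * p.b1 + (1 / 2) * p.t ^ 2 * p.b1, 0⟩ ∧
    WT3 p 1 6 = 0 ∧
    WT3 p 2 0 = 0 ∧
    WT3 p 2 1 = 0 ∧
    WT3 p 2 2 = 0 ∧
    WT3 p 2 3 = 0 ∧
    WT3 p 2 4 = 0 ∧
    WT3 p 2 5 = 0 ∧
    WT3 p 2 6 = 0 ∧
    WT3 p 3 0 = ⟨0, (1 / 2) * p.a * p.A1, 0⟩ ∧
    WT3 p 3 1 = 0 ∧
    WT3 p 3 2 = 0 ∧
    WT3 p 3 3 = 0 ∧
    WT3 p 3 4 = 0 ∧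
    WT3 p 3 5 = ⟨(1 / 2) * p.t, 0, - (1 / 48) * p.t * p.Z33 + (1 / 24) * p.t * p.Z22 + (1 / 24) * p.t * p.Z11 - (1 / 2) * p.t * p.b1 ^ 2 + (1 / 6) * p.t * p.a * p.Z33 - (1 / 12) * p.t * p.a * p.Z22 - (1 / 12) * p.t * p.a * p.Z11 + (1 / 8) * p.t * p.s ^ 2 * p.Z22 - (1 / 8) * p.t * p.s ^ 2 * p.Z11 + (1 / 2) * p.t ^ 3 * p.b1 ^ 2 - (1 / 16) * p.t ^ 3 * p.s ^ 2 * p.Z22 + (1 / 16) * p.t ^ 3 * p.s ^ 2 * p.Z11 - (1 / 8) * p.t ^ 3 * p.s ^ 3 * p.Z22 + (1 / 8) * p.t ^ 3 * p.s ^ 3 * p.Z11⟩ ∧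
    WT3 p 3 6 = 0 ∧
    WT3 p 4 0 = 0 ∧
    WT3 p 4 1 = ⟨0, - p.t ^ 2 * p.b3, 0⟩ ∧
    WT3 p 4 2 = 0 ∧
    WT3 p 4 3 = ⟨0, 0, - (1 / 4) * p.t * p.Z13 + (1 / 2) * p.t * p.a * p.Z13 + (1 / 2) * p.t * p.a * p.A1 * p.b2⟩ ∧
    WT3 p 4 4 = 0 ∧
    WT3 p 4 5 = 0 ∧
    WT3 p 4 6 = ⟨(1 / 2) * p.t, 0, - (1 / 12) * p.t * p.Z33 + (1 / 24) * p.t * p.Z22 + (1 / 24) * p.t * p.Z11 + (1 / 2) * p.t * p.b2 ^ 2 + (1 / 6) * p.t * p.a * p.Z33 - (1 / 12) * p.t * p.a * p.Z22 - (1 / 12) * p.t * p.a * p.Z11 + (1 / 8) * p.t * p.s ^ 2 * p.Z22 - (1 / 8) * p.t * p.s ^ 2 * p.Z11 + (1 / 2) * p.t ^ 3 * p.b2 ^ 2 - (1 / 24) * p.t ^ 3 * p.s ^ 2 * p.Z33 + (1 / 12) * p.t ^ 3 * p.s ^ 2 * p.Z22 - (1 / 24) * p.t ^ 3 * p.s ^ 2 * p.Z11⟩ ∧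
    WT3 p 5 0 = 0 ∧
    WT3 p 5 1 = ⟨0, - 2 * p.b1, 0⟩ ∧
    WT3 p 5 2 = 0 ∧
    WT3 p 5 3 = ⟨2 * p.t, 0, (1 / 4) * p.t * p.Z33 + (1 / 2) * p.t * p.s ^ 2 * p.Z22 - (1 / 2) * p.t * p.s ^ 2 * p.Z11 - (1 / 6) * p.t ^ 3 * p.s ^ 2 * p.Z33 + (1 / 12) * p.t ^ 3 * p.s ^ 2 * p.Z22 + (1 / 12) * p.t ^ 3 * p.s ^ 2 * p.Z11 - (1 / 2) * p.t ^ 3 * p.s ^ 3 * p.Z22 + (1 / 2) * p.t ^ 3 * p.s ^ 3 * p.Z11⟩ ∧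
    WT3 p 5 4 = 0 ∧
    WT3 p 5 5 = 0 ∧
    WT3 p 5 6 = ⟨0, 0, - (1 / 4) * p.t * p.a * p.Z13 + (1 / 4) * p.t ^ 3 * p.s ^ 2 * p.Z13 + (1 / 4) * p.t ^ 3 * p.s ^ 3 * p.Z13⟩ ∧
    WT3 p 6 0 = ⟨0, 2 * p.b2, 0⟩ ∧
    WT3 p 6 1 = 0 ∧
    WT3 p 6 2 = 0 ∧
    WT3 p 6 3 = 0 ∧
    WT3 p 6 4 = ⟨2 * p.t, 0, (1 / 2) * p.t * p.s ^ 2 * p.Z22 - (1 / 2) * p.t * p.s ^ 2 * p.Z11⟩ ∧
    WT3 p 6 5 = ⟨0, 0, (1 / 4) * p.t * p.Z13 - p.t * p.b1 * p.b3 - (3 / 4) * p.t * p.a * p.Z13 + p.t ^ 3 * p.b1 * p.b3 + (1 / 4) * p.t ^ 3 * p.s ^ 2 * p.Z13 + (1 / 4) * p.t ^ 3 * p.s ^ 3 * p.Z13⟩ ∧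
    WT3 p 6 6 = 0 := by
  refine ⟨?_, ?_, ?_, ?_, ?_, ?_, ?_, ?_, ?_, ?_, ?_, ?_, ?_, ?_, ?_, ?_, ?_, ?_, ?_, ?_, ?_, ?_, ?_, ?_, ?_, ?_, ?_, ?_, ?_, ?_, ?_, ?_, ?_, ?_, ?_, ?_, ?_, ?_, ?_, ?_, ?_, ?_, ?_, ?_, ?_, ?_, ?_, ?_, ?_⟩ <;> rfl

theorem F4_tGl4 (p : Par) :
    GlT4 p 0 0 = ⟨0, 0, - p.t * p.c2⟩ ∧
    GlT4 p 0 1 = 0 ∧
    GlT4 p 0 2 = 0 ∧
    GlT4 p 0 3 = 0 ∧
    GlT4 p 0 4 = ⟨0, (1 / 2) * p.a * p.A1, 0⟩ ∧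
    GlT4 p 0 5 = ⟨0, - (1 / 2) * p.b2, 0⟩ ∧
    GlT4 p 0 6 = 0 ∧
    GlT4 p 1 0 = 0 ∧
    GlT4 p 1 1 = 0 ∧
    GlT4 p 1 2 = 0 ∧
    GlT4 p 1 3 = ⟨0, p.t ^ 2 * p.b3, 0⟩ ∧
    GlT4 p 1 4 = 0 ∧
    GlT4 p 1 5 = 0 ∧
    GlT4 p 1 6 = ⟨0, - (1 / 2) * p.b1, 0⟩ ∧
    GlT4 p 2 0 = 0 ∧
    GlT4 p 2 1 = 0 ∧
    GlT4 p 2 2 = 0 ∧
    GlT4 p 2 3 = 0 ∧
    GlT4 p 2 4 = 0 ∧
    GlT4 p 2 5 = 0 ∧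
    GlT4 p 2 6 = 0 ∧
    GlT4 p 3 0 = 0 ∧
    GlT4 p 3 1 = ⟨0, p.t ^ 2 * p.b3, 0⟩ ∧
    GlT4 p 3 2 = 0 ∧
    GlT4 p 3 3 = ⟨0, 0, (1 / 4) * p.t * p.Z13 - (1 / 2) * p.t * p.a * p.Z13 + (1 / 4) * p.t ^ 3 * p.s ^ 2 * p.Z13⟩ ∧
    GlT4 p 3 4 = 0 ∧
    GlT4 p 3 5 = 0 ∧
    GlT4 p 3 6 = ⟨- (1 / 2) * p.t, 0, (1 / 16) * p.t * p.Z33 - (1 / 12) * p.t * p.a * p.Z33 + (1 / 24) * p.t * p.a * p.Z22 + (1 / 24) * p.t * p.a * p.Z11 + (1 / 8) * p.t * p.s ^ 2 * p.Z22 - (1 / 8) * p.t * p.s ^ 2 * p.Z11 + (1 / 24) * p.t ^ 3 * p.s ^ 2 * p.Z33 - (1 / 48) * p.t ^ 3 * p.s ^ 2 * p.Z22 - (1 / 48) * p.t ^ 3 * p.s ^ 2 * p.Z11⟩ ∧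
    GlT4 p 4 0 = ⟨0, (1 / 2) * p.a * p.A1, 0⟩ ∧
    GlT4 p 4 1 = 0 ∧
    GlT4 p 4 2 = 0 ∧
    GlT4 p 4 3 = 0 ∧
    GlT4 p 4 4 = 0 ∧
    GlT4 p 4 5 = ⟨(1 / 2) * p.t, 0, (1 / 12) * p.t * p.a * p.Z33 - (1 / 24) * p.t * p.a * p.Z22 - (1 / 24) * p.t * p.a * p.Z11 - (1 / 8) * p.t * p.s ^ 2 * p.Z22 + (1 / 8) * p.t * p.s ^ 2 * p.Z11 + (1 / 8) * p.t ^ 3 * p.s ^ 3 * p.Z22 - (1 / 8) * p.t ^ 3 * p.s ^ 3 * p.Z11⟩ ∧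
    GlT4 p 4 6 = 0 ∧
    GlT4 p 5 0 = ⟨0, - (1 / 2) * p.b2, 0⟩ ∧
    GlT4 p 5 1 = 0 ∧
    GlT4 p 5 2 = 0 ∧
    GlT4 p 5 3 = 0 ∧
    GlT4 p 5 4 = ⟨(1 / 2) * p.t, 0, (1 / 12) * p.t * p.a * p.Z33 - (1 / 24) * p.t * p.a * p.Z22 - (1 / 24) * p.t * p.a * p.Z11 - (1 / 8) * p.t * p.s ^ 2 * p.Z22 + (1 / 8) * p.t * p.s ^ 2 * p.Z11 + (1 / 8) * p.t ^ 3 * p.s ^ 3 * p.Z22 - (1 / 8) * p.t ^ 3 * p.s ^ 3 * p.Z11⟩ ∧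
    GlT4 p 5 5 = ⟨0, 0, - (1 / 16) * p.t * p.Z13 + (1 / 4) * p.t * p.a * p.Z13 - (1 / 8) * p.t * p.s ^ 2 * p.Z13 + (1 / 16) * p.t ^ 3 * p.s ^ 2 * p.Z13 + (1 / 8) * p.t ^ 3 * p.s ^ 3 * p.Z13⟩ ∧
    GlT4 p 5 6 = 0 ∧
    GlT4 p 6 0 = 0 ∧
    GlT4 p 6 1 = ⟨0, - (1 / 2) * p.b1, 0⟩ ∧
    GlT4 p 6 2 = 0 ∧
    GlT4 p 6 3 = ⟨- (1 / 2) * p.t, 0, (1 / 16) * p.t * p.Z33 - (1 / 12) * p.t * p.a * p.Z33 + (1 / 24) * p.t * p.a * p.Z22 + (1 / 24) * p.t * p.a * p.Z11 + (1 / 8) * p.t * p.s ^ 2 * p.Z22 - (1 / 8) * p.t * p.s ^ 2 * p.Z11 + (1 / 24) * p.t ^ 3 * p.s ^ 2 * p.Z33 - (1 / 48) * p.t ^ 3 * p.s ^ 2 * p.Z22 - (1 / 48) * p.t ^ 3 * p.s ^ 2 * p.Z11⟩ ∧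
    GlT4 p 6 4 = 0 ∧
    GlT4 p 6 5 = 0 ∧
    GlT4 p 6 6 = ⟨0, 0, - (1 / 8) * p.t * p.s ^ 2 * p.Z13⟩ := by
  refine ⟨?_, ?_, ?_, ?_, ?_, ?_, ?_, ?_, ?_, ?_, ?_, ?_, ?_, ?_, ?_, ?_, ?_, ?_, ?_, ?_, ?_, ?_, ?_, ?_, ?_, ?_, ?_, ?_, ?_, ?_, ?_, ?_, ?_, ?_, ?_, ?_, ?_, ?_, ?_, ?_, ?_, ?_, ?_, ?_, ?_, ?_, ?_, ?_, ?_⟩ <;> rfl

theorem F4_tGu4 (p : Par) :
    GuT4 p 0 0 = ⟨0, 0, - p.t * p.c2⟩ ∧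
    GuT4 p 0 1 = 0 ∧
    GuT4 p 0 2 = 0 ∧
    GuT4 p 0 3 = 0 ∧
    GuT4 p 0 4 = ⟨0, (1 / 2) * p.a * p.A1, 0⟩ ∧
    GuT4 p 0 5 = ⟨0, - (1 / 2) * p.b2, 0⟩ ∧
    GuT4 p 0 6 = 0 ∧
    GuT4 p 1 0 = 0 ∧
    GuT4 p 1 1 = 0 ∧
    GuT4 p 1 2 = 0 ∧
    GuT4 p 1 3 = ⟨0, p.t ^ 2 * p.b3, 0⟩ ∧
    GuT4 p 1 4 = 0 ∧
    GuT4 p 1 5 = 0 ∧
    GuT4 p 1 6 = ⟨0, - (1 / 2) * p.b1, 0⟩ ∧
    GuT4 p 2 0 = 0 ∧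
    GuT4 p 2 1 = 0 ∧
    GuT4 p 2 2 = 0 ∧
    GuT4 p 2 3 = 0 ∧
    GuT4 p 2 4 = 0 ∧
    GuT4 p 2 5 = 0 ∧
    GuT4 p 2 6 = 0 ∧
    GuT4 p 3 0 = 0 ∧
    GuT4 p 3 1 = ⟨0, p.t ^ 2 * p.b3, 0⟩ ∧
    GuT4 p 3 2 = 0 ∧
    GuT4 p 3 3 = ⟨0, 0, (3 / 8) * p.t * p.Z13 - (3 / 4) * p.t * p.a * p.Z13 - (1 / 2) * p.t * p.a * p.A1 * p.b2 + (1 / 8) * p.t ^ 3 * p.s ^ 2 * p.Z13⟩ ∧
    GuT4 p 3 4 = 0 ∧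
    GuT4 p 3 5 = 0 ∧
    GuT4 p 3 6 = ⟨- (1 / 2) * p.t, 0, (1 / 12) * p.t * p.Z33 - (1 / 24) * p.t * p.Z22 - (1 / 24) * p.t * p.Z11 + (1 / 2) * p.t * p.b2 ^ 2 - (1 / 6) * p.t * p.a * p.Z33 + (1 / 12) * p.t * p.a * p.Z22 + (1 / 12) * p.t * p.a * p.Z11 + (1 / 8) * p.t * p.s ^ 2 * p.Z22 - (1 / 8) * p.t * p.s ^ 2 * p.Z11 - (1 / 2) * p.t ^ 3 * p.b2 ^ 2 + (1 / 24) * p.t ^ 3 * p.s ^ 2 * p.Z33 - (1 / 12) * p.t ^ 3 * p.s ^ 2 * p.Z22 + (1 / 24) * p.t ^ 3 * p.s ^ 2 * p.Z11⟩ ∧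
    GuT4 p 4 0 = ⟨0, (1 / 2) * p.a * p.A1, 0⟩ ∧
    GuT4 p 4 1 = 0 ∧
    GuT4 p 4 2 = 0 ∧
    GuT4 p 4 3 = 0 ∧
    GuT4 p 4 4 = ⟨0, 0, (1 / 8) * p.t * p.Z13 - (1 / 4) * p.t * p.a * p.Z13 - (1 / 2) * p.t * p.a * p.A1 * p.b2 - (1 / 8) * p.t ^ 3 * p.s ^ 2 * p.Z13⟩ ∧
    GuT4 p 4 5 = ⟨(1 / 2) * p.t, 0, - (1 / 48) * p.t * p.Z33 + (1 / 24) * p.t * p.Z22 + (1 / 24) * p.t * p.Z11 - (1 / 2) * p.t * p.b2 ^ 2 + (1 / 6) * p.t * p.a * p.Z33 - (1 / 12) * p.t * p.a * p.Z22 - (1 / 12) * p.t * p.a * p.Z11 - (1 / 8) * p.t * p.s ^ 2 * p.Z22 + (1 / 8) * p.t * p.s ^ 2 * p.Z11 + (1 / 2) * p.t ^ 3 * p.b2 ^ 2 + (1 / 16) * p.t ^ 3 * p.s ^ 2 * p.Z22 - (1 / 16) * p.t ^ 3 * p.s ^ 2 * p.Z11 + (1 / 8) * p.t ^ 3 * p.s ^ 3 * p.Z22 - (1 / 8) * p.t ^ 3 * p.s ^ 3 * p.Z11⟩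 ∧
    GuT4 p 4 6 = 0 ∧
    GuT4 p 5 0 = ⟨0, - (1 / 2) * p.b2, 0⟩ ∧
    GuT4 p 5 1 = 0 ∧
    GuT4 p 5 2 = 0 ∧
    GuT4 p 5 3 = 0 ∧
    GuT4 p 5 4 = ⟨(1 / 2) * p.t, 0, - (1 / 48) * p.t * p.Z33 + (1 / 24) * p.t * p.Z22 + (1 / 24) * p.t * p.Z11 - (1 / 2) * p.t * p.b2 ^ 2 + (1 / 6) * p.t * p.a * p.Z33 - (1 / 12) * p.t * p.a * p.Z22 - (1 / 12) * p.t * p.a * p.Z11 - (1 / 8) * p.t * p.s ^ 2 * p.Z22 + (1 / 8) * p.t * p.s ^ 2 * p.Z11 + (1 / 2) * p.t ^ 3 * p.b2 ^ 2 + (1 / 16) * p.t ^ 3 * p.s ^ 2 * p.Z22 - (1 / 16) * p.t ^ 3 * p.s ^ 2 * p.Z11 + (1 / 8) * p.t ^ 3 * p.s ^ 3 * p.Z22 - (1 / 8) * p.t ^ 3 * p.s ^ 3 * p.Z11⟩ ∧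
    GuT4 p 5 5 = ⟨0, 0, - (1 / 32) * p.t * p.Z13 + (3 / 16) * p.t * p.a * p.Z13 - (1 / 8) * p.t * p.s ^ 2 * p.Z13 + (1 / 8) * p.t * p.a * p.A1 * p.b2 + (1 / 32) * p.t ^ 3 * p.s ^ 2 * p.Z13 + (1 / 8) * p.t ^ 3 * p.s ^ 3 * p.Z13⟩ ∧
    GuT4 p 5 6 = 0 ∧
    GuT4 p 6 0 = 0 ∧
    GuT4 p 6 1 = ⟨0, - (1 / 2) * p.b1, 0⟩ ∧
    GuT4 p 6 2 = 0 ∧
    GuT4 p 6 3 = ⟨- (1 / 2) * p.t, 0, (1 / 12) * p.t * p.Z33 - (1 / 24) * p.t * p.Z22 - (1 / 24) * p.t * p.Z11 + (1 / 2) * p.t * p.b2 ^ 2 - (1 / 6) * p.t * p.a * p.Z33 + (1 / 12) * p.t * p.a * p.Z22 + (1 / 12) * p.t * p.a * p.Z11 + (1 / 8) * p.t * p.s ^ 2 * p.Z22 - (1 / 8) * p.t * p.s ^ 2 * p.Z11 - (1 / 2) * p.t ^ 3 * p.b2 ^ 2 + (1 / 24) * p.t ^ 3 * p.s ^ 2 * p.Z33 - (1 / 12) * p.t ^ 3 * p.s ^ 2 * p.Z22 +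 (1 / 24) * p.t ^ 3 * p.s ^ 2 * p.Z11⟩ ∧
    GuT4 p 6 4 = 0 ∧
    GuT4 p 6 5 = 0 ∧
    GuT4 p 6 6 = ⟨0, 0, - (1 / 32) * p.t * p.Z13 + (1 / 16) * p.t * p.a * p.Z13 - (1 / 8) * p.t * p.s ^ 2 * p.Z13 + (1 / 8) * p.t * p.a * p.A1 * p.b2 + (1 / 32) * p.t ^ 3 * p.s ^ 2 * p.Z13⟩ := by
  refine ⟨?_, ?_, ?_, ?_, ?_, ?_, ?_, ?_, ?_, ?_, ?_, ?_, ?_, ?_, ?_, ?_, ?_, ?_, ?_, ?_, ?_, ?_, ?_, ?_, ?_, ?_, ?_, ?_, ?_, ?_, ?_, ?_, ?_, ?_, ?_, ?_, ?_, ?_, ?_, ?_, ?_, ?_, ?_, ?_, ?_, ?_, ?_, ?_, ?_⟩ <;> rfl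

theorem F4_tW4 (p : Par) :
    WT4 p 0 0 = ⟨0, 0, - p.t * p.c2 + (1 / 2) * p.t * p.a * p.A1 * p.b2⟩ ∧
    WT4 p 0 1 = 0 ∧
    WT4 p 0 2 = 0 ∧
    WT4 p 0 3 = 0 ∧
    WT4 p 0 4 = ⟨0, (1 / 2) * p.a * p.A1, 0⟩ ∧
    WT4 p 0 5 = ⟨0, - (1 / 2) * p.b2 + (1 / 2) * p.t ^ 2 * p.b2, 0⟩ ∧
    WT4 p 0 6 = 0 ∧
    WT4 p 1 0 = 0 ∧
    WT4 p 1 1 = ⟨0, 0, - p.t * p.b1 * p.b3 + p.t ^ 3 * p.b1 * p.b3⟩ ∧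
    WT4 p 1 2 = 0 ∧
    WT4 p 1 3 = 0 ∧
    WT4 p 1 4 = 0 ∧
    WT4 p 1 5 = 0 ∧
    WT4 p 1 6 = ⟨0, - (1 / 2) * p.b1 - (1 / 2) * p.t ^ 2 * p.b1, 0⟩ ∧
    WT4 p 2 0 = 0 ∧
    WT4 p 2 1 = 0 ∧
    WT4 p 2 2 = 0 ∧
    WT4 p 2 3 = 0 ∧
    WT4 p 2 4 = 0 ∧
    WT4 p 2 5 = 0 ∧
    WT4 p 2 6 = 0 ∧
    WT4 p 3 0 = 0 ∧
    WT4 p 3 1 = ⟨0, p.t ^ 2 * p.b3, 0⟩ ∧
    WT4 p 3 2 = 0 ∧
    WT4 p 3 3 = ⟨0, 0, (1 / 8) * p.t * p.Z13 - (1 / 4) * p.t * p.a * p.Z13 + (1 / 8) * p.t ^ 3 * p.s ^ 2 * p.Z13⟩ ∧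
    WT4 p 3 4 = 0 ∧
    WT4 p 3 5 = 0 ∧
    WT4 p 3 6 = ⟨- (1 / 2) * p.t, 0, (1 / 12) * p.t * p.Z33 - (1 / 24) * p.t * p.Z22 - (1 / 24) * p.t * p.Z11 - (1 / 2) * p.t * p.b1 ^ 2 - (1 / 6) * p.t * p.a * p.Z33 + (1 / 12) * p.t * p.a * p.Z22 + (1 / 12) * p.t * p.a * p.Z11 + (1 / 8) * p.t * p.s ^ 2 * p.Z22 - (1 / 8) * p.t * p.s ^ 2 * p.Z11 - (1 / 2) * p.t ^ 3 * p.b1 ^ 2 + (1 / 24) * p.t ^ 3 * p.s ^ 2 * p.Z33 + (1 / 24) * p.t ^ 3 * p.s ^ 2 * p.Z22 - (1 / 12) * p.t ^ 3 * p.s ^ 2 * p.Z11⟩ ∧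
    WT4 p 4 0 = ⟨0, (1 / 2) * p.a * p.A1, 0⟩ ∧
    WT4 p 4 1 = 0 ∧
    WT4 p 4 2 = 0 ∧
    WT4 p 4 3 = 0 ∧
    WT4 p 4 4 = ⟨0, 0, - (1 / 8) * p.t * p.Z13 + (1 / 4) * p.t * p.a * p.Z13 + (1 / 2) * p.t * p.a * p.A1 * p.b2 + (1 / 8) * p.t ^ 3 * p.s ^ 2 * p.Z13⟩ ∧
    WT4 p 4 5 = ⟨(1 / 2) * p.t, 0, - (1 / 48) * p.t * p.Z33 + (1 / 24) * p.t * p.Z22 + (1 / 24) * p.t * p.Z11 - (1 / 2) * p.t * p.b2 ^ 2 + (1 / 6) * p.t * p.a * p.Z33 - (1 / 12) * p.t * p.a * p.Z22 - (1 / 12) * p.t * p.a * p.Z11 - (1 / 8) * p.t * p.s ^ 2 * p.Z22 + (1 / 8) * p.t * p.s ^ 2 * p.Z11 + (1 / 2) * p.t ^ 3 * p.b2 ^ 2 + (1 / 16) * p.t ^ 3 * p.s ^ 2 * p.Z22 - (1 / 16) * p.t ^ 3 * p.s ^ 2 * p.Z11 + (1 / 8) * p.t ^ 3 * p.s ^ 3 * p.Z22 - (1 / 8) * p.t ^ 3 * p.s ^ 3 * p.Z11⟩ ∧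
    WT4 p 4 6 = 0 ∧
    WT4 p 5 0 = ⟨0, - 2 * p.b2, 0⟩ ∧
    WT4 p 5 1 = 0 ∧
    WT4 p 5 2 = 0 ∧
    WT4 p 5 3 = 0 ∧
    WT4 p 5 4 = ⟨2 * p.t, 0, (1 / 4) * p.t * p.Z33 - (1 / 2) * p.t * p.s ^ 2 * p.Z22 + (1 / 2) * p.t * p.s ^ 2 * p.Z11 - (1 / 6) * p.t ^ 3 * p.s ^ 2 * p.Z33 + (1 / 12) * p.t ^ 3 * p.s ^ 2 * p.Z22 + (1 / 12) * p.t ^ 3 * p.s ^ 2 * p.Z11 + (1 / 2) * p.t ^ 3 * p.s ^ 3 * p.Z22 - (1 / 2) * p.t ^ 3 * p.s ^ 3 * p.Z11⟩ ∧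
    WT4 p 5 5 = ⟨0, 0, - (3 / 8) * p.t * p.Z13 + (5 / 4) * p.t * p.a * p.Z13 - (1 / 2) * p.t * p.s ^ 2 * p.Z13 + (3 / 8) * p.t ^ 3 * p.s ^ 2 * p.Z13 + (1 / 2) * p.t ^ 3 * p.s ^ 3 * p.Z13⟩ ∧
    WT4 p 5 6 = 0 ∧
    WT4 p 6 0 = 0 ∧
    WT4 p 6 1 = ⟨0, - 2 * p.b1, 0⟩ ∧
    WT4 p 6 2 = 0 ∧
    WT4 p 6 3 = ⟨- 2 * p.t, 0, (1 / 2) * p.t * p.s ^ 2 * p.Z22 - (1 / 2) * p.t * p.s ^ 2 * p.Z11⟩ ∧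
    WT4 p 6 4 = 0 ∧
    WT4 p 6 5 = 0 ∧
    WT4 p 6 6 = ⟨0, 0, - (1 / 8) * p.t * p.Z13 - p.t * p.b1 * p.b3 + (1 / 4) * p.t * p.a * p.Z13 - (1 / 2) * p.t * p.s ^ 2 * p.Z13 - p.t ^ 3 * p.b1 * p.b3 - (1 / 8) * p.t ^ 3 * p.s ^ 2 * p.Z13⟩ := by
  refine ⟨?_, ?_, ?_, ?_, ?_, ?_, ?_, ?_, ?_, ?_, ?_, ?_, ?_, ?_, ?_, ?_, ?_, ?_, ?_, ?_, ?_, ?_, ?_, ?_, ?_, ?_, ?_, ?_, ?_, ?_, ?_, ?_, ?_, ?_, ?_, ?_, ?_, ?_, ?_, ?_, ?_, ?_, ?_, ?_, ?_, ?_, ?_, ?_, ?_⟩ <;> rfl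

theorem F4_tGl5 (p : Par) :
    GlT5 p 0 0 = ⟨0, 0, (1 / 8) * p.t * p.Z33 + (1 / 8) * p.t * p.Z11 - p.t * p.b2 ^ 2 + (1 / 2) * p.t ^ 3 * p.b2 ^ 2⟩ ∧
    GlT5 p 0 1 = 0 ∧
    GlT5 p 0 2 = 0 ∧
    GlT5 p 0 3 = 0 ∧
    GlT5 p 0 4 = ⟨0, (1 / 2) * p.b2, 0⟩ ∧
    GlT5 p 0 5 = ⟨0, - (1 / 8) * p.a * p.A1, 0⟩ ∧
    GlT5 p 0 6 = 0 ∧
    GlT5 p 1 0 = 0 ∧
    GlT5 p 1 1 = ⟨0, 0, (1 / 8) * p.t * p.Z22 - p.t * p.b3 ^ 2 - p.t * p.b1 ^ 2 + (1 / 2) * p.t ^ 3 * p.b3 ^ 2 + (1 / 2) * p.t ^ 3 * p.b1 ^ 2⟩ ∧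
    GlT5 p 1 2 = 0 ∧
    GlT5 p 1 3 = ⟨0, (1 / 2) * p.b1, 0⟩ ∧
    GlT5 p 1 4 = 0 ∧
    GlT5 p 1 5 = 0 ∧
    GlT5 p 1 6 = ⟨0, (1 / 2) * p.b3 - (1 / 4) * p.t ^ 2 * p.b3, 0⟩ ∧
    GlT5 p 2 0 = 0 ∧
    GlT5 p 2 1 = 0 ∧
    GlT5 p 2 2 = 0 ∧
    GlT5 p 2 3 = 0 ∧
    GlT5 p 2 4 = 0 ∧
    GlT5 p 2 5 = 0 ∧
    GlT5 p 2 6 = 0 ∧
    GlT5 p 3 0 = 0 ∧
    GlT5 p 3 1 = ⟨0, (1 / 2) * p.b1, 0⟩ ∧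
    GlT5 p 3 2 = 0 ∧
    GlT5 p 3 3 = ⟨- (1 / 2) * p.t, 0, - (1 / 12) * p.t * p.a * p.Z33 + (1 / 24) * p.t * p.a * p.Z22 + (1 / 24) * p.t * p.a * p.Z11 - (1 / 8) * p.t * p.s ^ 2 * p.Z22 + (1 / 8) * p.t * p.s ^ 2 * p.Z11 + (1 / 8) * p.t ^ 3 * p.s ^ 3 * p.Z22 - (1 / 8) * p.t ^ 3 * p.s ^ 3 * p.Z11⟩ ∧
    GlT5 p 3 4 = 0 ∧
    GlT5 p 3 5 = 0 ∧
    GlT5 p 3 6 = ⟨0, 0, - (1 / 32) * p.t * p.Z13 + (1 / 8) * p.t * p.a * p.Z13 + (1 / 8) * p.t * p.s ^ 2 * p.Z13 - (1 / 32) * p.t ^ 3 * p.s ^ 2 * p.Z13 - (1 / 16) * p.t ^ 3 * p.s ^ 3 * p.Z13⟩ ∧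
    GlT5 p 4 0 = ⟨0, (1 / 2) * p.b2, 0⟩ ∧
    GlT5 p 4 1 = 0 ∧
    GlT5 p 4 2 = 0 ∧
    GlT5 p 4 3 = 0 ∧
    GlT5 p 4 4 = ⟨- (1 / 2) * p.t, 0, - (1 / 12) * p.t * p.a * p.Z33 + (1 / 24) * p.t * p.a * p.Z22 + (1 / 24) * p.t * p.a * p.Z11 + (1 / 8) * p.t * p.s ^ 2 * p.Z22 - (1 / 8) * p.t * p.s ^ 2 * p.Z11 - (1 / 8) * p.t ^ 3 * p.s ^ 3 * p.Z22 + (1 / 8) * p.t ^ 3 * p.s ^ 3 * p.Z11⟩ ∧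
    GlT5 p 4 5 = 0 ∧
    GlT5 p 4 6 = 0 ∧
    GlT5 p 5 0 = ⟨0, - (1 / 8) * p.a * p.A1, 0⟩ ∧
    GlT5 p 5 1 = 0 ∧
    GlT5 p 5 2 = 0 ∧
    GlT5 p 5 3 = 0 ∧
    GlT5 p 5 4 = 0 ∧
    GlT5 p 5 5 = ⟨- (1 / 8) * p.t, 0, (1 / 32) * p.t * p.Z33 - (1 / 16) * p.t * p.a * p.Z33 + (1 / 32) * p.t * p.a * p.Z22 + (1 / 32) * p.t * p.a * p.Z11 + (1 / 48) * p.t * p.s ^ 2 * p.Z33 - (1 / 96) * p.t * p.s ^ 2 * p.Z22 - (1 / 96) * p.t * p.s ^ 2 * p.Z11 - (1 / 48) * p.t ^ 3 * p.s ^ 2 * p.Z33 + (1 / 96) * p.t ^ 3 * p.s ^ 2 * p.Z22 + (1 / 96) * p.t ^ 3 * p.s ^ 2 * p.Z11 - (1 / 48) * p.t ^ 3 * p.s ^ 3 * p.Z33 + (1 / 96) * p.t ^ 3 * p.s ^ 3 * p.Z22 + (1 / 96) * p.t ^ 3 * p.s ^ 3 * p.Z11⟩ ∧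
    GlT5 p 5 6 = 0 ∧
    GlT5 p 6 0 = 0 ∧
    GlT5 p 6 1 = ⟨0, (1 / 2) * p.b3 - (1 / 4) * p.t ^ 2 * p.b3, 0⟩ ∧
    GlT5 p 6 2 = 0 ∧
    GlT5 p 6 3 = ⟨0, 0, - (1 / 32) * p.t * p.Z13 + (1 / 8) * p.t * p.a * p.Z13 + (1 / 8) * p.t * p.s ^ 2 * p.Z13 - (1 / 32) * p.t ^ 3 * p.s ^ 2 * p.Z13 - (1 / 16) * p.t ^ 3 * p.s ^ 3 * p.Z13⟩ ∧
    GlT5 p 6 4 = 0 ∧
    GlT5 p 6 5 = 0 ∧
    GlT5 p 6 6 = ⟨(1 / 8) * p.t, 0, - (1 / 32) * p.t * p.Z33 + (1 / 16) * p.t * p.a * p.Z33 - (1 / 32) * p.t * p.a * p.Z22 - (1 / 32) * p.t * p.a * p.Z11 + (1 / 16) * p.t * p.s ^ 2 * p.Z33 - (1 / 32) * p.t * p.s ^ 2 * p.Z22 - (1 / 32) * p.t * p.s ^ 2 * p.Z11 - (1 / 48) * p.t ^ 3 * p.s ^ 2 * p.Z33 + (1 / 96) * p.t ^ 3 * p.s ^ 2 * p.Z22 + (1 / 96) * p.t ^ 3 * p.s ^ 2 * p.Z11 -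 (1 / 48) * p.t ^ 3 * p.s ^ 3 * p.Z33 + (1 / 96) * p.t ^ 3 * p.s ^ 3 * p.Z22 + (1 / 96) * p.t ^ 3 * p.s ^ 3 * p.Z11⟩ := by
  refine ⟨?_, ?_, ?_, ?_, ?_, ?_, ?_, ?_, ?_, ?_, ?_, ?_, ?_, ?_, ?_, ?_, ?_, ?_, ?_, ?_, ?_, ?_, ?_, ?_, ?_, ?_, ?_, ?_, ?_, ?_, ?_, ?_, ?_, ?_, ?_, ?_, ?_, ?_, ?_, ?_, ?_, ?_, ?_, ?_, ?_, ?_, ?_, ?_, ?_⟩ <;> rfl

theorem F4_tGu5 (p : Par) :
    GuT5 p 0 0 = ⟨0, 0, (1 / 2) * p.t * p.Z33 + (1 / 2) * p.t * p.Z11 - 4 * p.t * p.b2 ^ 2 + 2 * p.t ^ 3 * p.b2 ^ 2⟩ ∧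
    GuT5 p 0 1 = 0 ∧
    GuT5 p 0 2 = 0 ∧
    GuT5 p 0 3 = 0 ∧
    GuT5 p 0 4 = ⟨0, 2 * p.b2, 0⟩ ∧
    GuT5 p 0 5 = ⟨0, - (1 / 2) * p.a * p.A1, 0⟩ ∧
    GuT5 p 0 6 = 0 ∧
    GuT5 p 1 0 = 0 ∧
    GuT5 p 1 1 = ⟨0, 0, (1 / 2) * p.t * p.Z22 - 4 * p.t * p.b3 ^ 2 - 4 * p.t * p.b1 ^ 2 + 2 * p.t ^ 3 * p.b3 ^ 2 + 2 * p.t ^ 3 * p.b1 ^ 2⟩ ∧
    GuT5 p 1 2 = 0 ∧
    GuT5 p 1 3 = ⟨0, 2 * p.b1, 0⟩ ∧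
    GuT5 p 1 4 = 0 ∧
    GuT5 p 1 5 = 0 ∧
    GuT5 p 1 6 = ⟨0, 2 * p.b3 - p.t ^ 2 * p.b3, 0⟩ ∧
    GuT5 p 2 0 = 0 ∧
    GuT5 p 2 1 = 0 ∧
    GuT5 p 2 2 = 0 ∧
    GuT5 p 2 3 = 0 ∧
    GuT5 p 2 4 = 0 ∧
    GuT5 p 2 5 = 0 ∧
    GuT5 p 2 6 = 0 ∧
    GuT5 p 3 0 = 0 ∧
    GuT5 p 3 1 = ⟨0, 2 * p.b1, 0⟩ ∧
    GuT5 p 3 2 = 0 ∧
    GuT5 p 3 3 = ⟨- 2 * p.t, 0, - (1 / 4) * p.t * p.Z33 - (1 / 2) * p.t * p.s ^ 2 * p.Z22 + (1 / 2) * p.t * p.s ^ 2 * p.Z11 + (1 / 6) * p.t ^ 3 * p.s ^ 2 * p.Z33 - (1 / 12) * p.t ^ 3 * p.s ^ 2 * p.Z22 - (1 / 12) * p.t ^ 3 * p.s ^ 2 * p.Z11 + (1 / 2) * p.t ^ 3 * p.s ^ 3 * p.Z22 - (1 / 2) * p.t ^ 3 * p.s ^ 3 * p.Z11⟩ ∧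
    GuT5 p 3 4 = 0 ∧
    GuT5 p 3 5 = 0 ∧
    GuT5 p 3 6 = ⟨0, 0, (1 / 4) * p.t * p.a * p.Z13 + (1 / 2) * p.t * p.s ^ 2 * p.Z13 - (1 / 4) * p.t ^ 3 * p.s ^ 2 * p.Z13 - (1 / 4) * p.t ^ 3 * p.s ^ 3 * p.Z13⟩ ∧
    GuT5 p 4 0 = ⟨0, 2 * p.b2, 0⟩ ∧
    GuT5 p 4 1 = 0 ∧
    GuT5 p 4 2 = 0 ∧
    GuT5 p 4 3 = 0 ∧
    GuT5 p 4 4 = ⟨- 2 * p.t, 0, - (1 / 4) * p.t * p.Z33 + (1 / 2) * p.t * p.s ^ 2 * p.Z22 - (1 / 2) * p.t * p.s ^ 2 * p.Z11 + (1 / 6) * p.t ^ 3 * p.s ^ 2 * p.Z33 - (1 / 12) * p.t ^ 3 * p.s ^ 2 * p.Z22 - (1 / 12) * p.t ^ 3 * p.s ^ 2 * p.Z11 - (1 / 2) * p.t ^ 3 * p.s ^ 3 * p.Z22 + (1 / 2) * p.t ^ 3 * p.s ^ 3 * p.Z11⟩ ∧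
    GuT5 p 4 5 = ⟨0, 0, - (1 / 8) * p.t * p.Z13 + (1 / 4) * p.t * p.a * p.Z13 + (1 / 8) * p.t ^ 3 * p.s ^ 2 * p.Z13⟩ ∧
    GuT5 p 4 6 = 0 ∧
    GuT5 p 5 0 = ⟨0, - (1 / 2) * p.a * p.A1, 0⟩ ∧
    GuT5 p 5 1 = 0 ∧
    GuT5 p 5 2 = 0 ∧
    GuT5 p 5 3 = 0 ∧
    GuT5 p 5 4 = ⟨0, 0, - (1 / 8) * p.t * p.Z13 + (1 / 4) * p.t * p.a * p.Z13 + (1 / 8) * p.t ^ 3 * p.s ^ 2 * p.Z13⟩ ∧
    GuT5 p 5 5 = ⟨- (1 / 2) * p.t, 0, (1 / 16) * p.t * p.Z33 - (1 / 6) * p.t * p.a * p.Z33 + (1 / 12) * p.t * p.a * p.Z22 + (1 / 12) * p.t * p.a * p.Z11 + (1 / 12) * p.t * p.s ^ 2 * p.Z33 - (1 / 24) * p.t * p.s ^ 2 * p.Z22 - (1 / 24) * p.t * p.s ^ 2 * p.Z11 - (1 / 24) * p.t ^ 3 * p.s ^ 2 * p.Z33 + (1 / 48) * p.t ^ 3 * p.s ^ 2 * p.Z22 + (1 / 48) * p.t ^ 3 * p.s ^ 2 * p.Z11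 - (1 / 12) * p.t ^ 3 * p.s ^ 3 * p.Z33 + (1 / 24) * p.t ^ 3 * p.s ^ 3 * p.Z22 + (1 / 24) * p.t ^ 3 * p.s ^ 3 * p.Z11⟩ ∧
    GuT5 p 5 6 = 0 ∧
    GuT5 p 6 0 = 0 ∧
    GuT5 p 6 1 = ⟨0, 2 * p.b3 - p.t ^ 2 * p.b3, 0⟩ ∧
    GuT5 p 6 2 = 0 ∧
    GuT5 p 6 3 = ⟨0, 0, (1 / 4) * p.t * p.a * p.Z13 + (1 / 2) * p.t * p.s ^ 2 * p.Z13 - (1 / 4) * p.t ^ 3 * p.s ^ 2 * p.Z13 - (1 / 4) * p.t ^ 3 * p.s ^ 3 * p.Z13⟩ ∧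
    GuT5 p 6 4 = 0 ∧
    GuT5 p 6 5 = 0 ∧
    GuT5 p 6 6 = ⟨(1 / 2) * p.t, 0, - (1 / 16) * p.t * p.Z33 + (1 / 6) * p.t * p.a * p.Z33 - (1 / 12) * p.t * p.a * p.Z22 - (1 / 12) * p.t * p.a * p.Z11 + (1 / 4) * p.t * p.s ^ 2 * p.Z33 - (1 / 8) * p.t * p.s ^ 2 * p.Z22 - (1 / 8) * p.t * p.s ^ 2 * p.Z11 - (1 / 8) * p.t ^ 3 * p.s ^ 2 * p.Z33 + (1 / 16) * p.t ^ 3 * p.s ^ 2 * p.Z22 + (1 / 16) * p.t ^ 3 * p.s ^ 2 * p.Z11 - (1 / 12) * p.t ^ 3 * p.s ^ 3 * p.Z33 + (1 / 24) * p.t ^ 3 * p.s ^ 3 * p.Z22 + (1 / 24) * p.t ^ 3 * p.s ^ 3 * p.Z11⟩ := by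
  refine ⟨?_, ?_, ?_, ?_, ?_, ?_, ?_, ?_, ?_, ?_, ?_, ?_, ?_, ?_, ?_, ?_, ?_, ?_, ?_, ?_, ?_, ?_, ?_, ?_, ?_, ?_, ?_, ?_, ?_, ?_, ?_, ?_, ?_, ?_, ?_, ?_, ?_, ?_, ?_, ?_, ?_, ?_, ?_, ?_, ?_, ?_, ?_, ?_, ?_⟩ <;> rfl

theorem F4_tW5 (p : Par) :
    WT5 p 0 0 = ⟨0, 0, (1 / 8) * p.t * p.Z33 + (1 / 8) * p.t * p.Z11 - (1 / 2) * p.t * p.b2 ^ 2 + (1 / 2) * p.t ^ 3 * p.b2 ^ 2⟩ ∧
    WT5 p 0 1 = 0 ∧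
    WT5 p 0 2 = 0 ∧
    WT5 p 0 3 = 0 ∧
    WT5 p 0 4 = ⟨0, (1 / 2) * p.b2 - (1 / 2) * p.t ^ 2 * p.b2, 0⟩ ∧
    WT5 p 0 5 = ⟨0, - (1 / 8) * p.a * p.A1, 0⟩ ∧
    WT5 p 0 6 = 0 ∧
    WT5 p 1 0 = 0 ∧
    WT5 p 1 1 = ⟨0, 0, (1 / 8) * p.t * p.Z22 - (1 / 2) * p.t * p.b1 ^ 2 + (1 / 2) * p.t ^ 3 * p.b1 ^ 2⟩ ∧
    WT5 p 1 2 = 0 ∧
    WT5 p 1 3 = ⟨0, (1 / 2) * p.b1 - (1 / 2) * p.t ^ 2 * p.b1, 0⟩ ∧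
    WT5 p 1 4 = 0 ∧
    WT5 p 1 5 = 0 ∧
    WT5 p 1 6 = ⟨0, (1 / 2) * p.b3, 0⟩ ∧
    WT5 p 2 0 = 0 ∧
    WT5 p 2 1 = 0 ∧
    WT5 p 2 2 = 0 ∧
    WT5 p 2 3 = 0 ∧
    WT5 p 2 4 = 0 ∧
    WT5 p 2 5 = 0 ∧
    WT5 p 2 6 = 0 ∧
    WT5 p 3 0 = 0 ∧
    WT5 p 3 1 = ⟨0, (1 / 2) * p.b1, 0⟩ ∧
    WT5 p 3 2 = 0 ∧
    WT5 p 3 3 = ⟨- (1 / 2) * p.t, 0, (1 / 48) * p.t * p.Z33 - (1 / 24) * p.t * p.Z22 - (1 / 24) * p.t * p.Z11 + (1 / 2) * p.t * p.b1 ^ 2 - (1 / 6) * p.t * p.a * p.Z33 + (1 / 12) * p.t * p.a * p.Z22 + (1 / 12) * p.t * p.a * p.Z11 - (1 / 8) * p.t * p.s ^ 2 * p.Z22 + (1 / 8) * p.t * p.s ^ 2 * p.Z11 - (1 / 2) * p.t ^ 3 * p.b1 ^ 2 + (1 / 16) * p.t ^ 3 * p.s ^ 2 * p.Z22 - (1 / 16) * p.t ^ 3 * p.s ^ 2 * p.Z11 + (1 / 8) * p.t ^ 3 * p.s ^ 3 * p.Z22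 - (1 / 8) * p.t ^ 3 * p.s ^ 3 * p.Z11⟩ ∧
    WT5 p 3 4 = 0 ∧
    WT5 p 3 5 = 0 ∧
    WT5 p 3 6 = ⟨0, 0, (1 / 2) * p.t * p.b1 * p.b3 + (1 / 16) * p.t * p.a * p.Z13 + (1 / 8) * p.t * p.s ^ 2 * p.Z13 - (1 / 16) * p.t ^ 3 * p.s ^ 3 * p.Z13⟩ ∧
    WT5 p 4 0 = ⟨0, (1 / 2) * p.b2, 0⟩ ∧
    WT5 p 4 1 = 0 ∧
    WT5 p 4 2 = 0 ∧
    WT5 p 4 3 = 0 ∧
    WT5 p 4 4 = ⟨- (1 / 2) * p.t, 0, (1 / 48) * p.t * p.Z33 - (1 / 24) * p.t * p.Z22 - (1 / 24) * p.t * p.Z11 + (1 / 2) * p.t * p.b2 ^ 2 - (1 / 6) * p.t * p.a * p.Z33 + (1 / 12) * p.t * p.a * p.Z22 + (1 / 12) * p.t * p.a * p.Z11 + (1 / 8) * p.t * p.s ^ 2 * p.Z22 - (1 / 8) * p.t * p.s ^ 2 * p.Z11 - (1 / 2) * p.t ^ 3 * p.b2 ^ 2 - (1 / 16) * p.t ^ 3 * p.s ^ 2 * p.Z22 + (1 / 16) * p.t ^ 3 * p.s ^ 2 * p.Z11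 - (1 / 8) * p.t ^ 3 * p.s ^ 3 * p.Z22 + (1 / 8) * p.t ^ 3 * p.s ^ 3 * p.Z11⟩ ∧
    WT5 p 4 5 = ⟨0, 0, (1 / 32) * p.t * p.Z13 - (1 / 16) * p.t * p.a * p.Z13 - (1 / 8) * p.t * p.a * p.A1 * p.b2 - (1 / 32) * p.t ^ 3 * p.s ^ 2 * p.Z13⟩ ∧
    WT5 p 4 6 = 0 ∧
    WT5 p 5 0 = ⟨0, - (1 / 2) * p.a * p.A1, 0⟩ ∧
    WT5 p 5 1 = 0 ∧
    WT5 p 5 2 = 0 ∧
    WT5 p 5 3 = 0 ∧
    WT5 p 5 4 = ⟨0, 0, (1 / 8) * p.t * p.Z13 - (1 / 4) * p.t * p.a * p.Z13 - (1 / 8) * p.t ^ 3 * p.s ^ 2 * p.Z13⟩ ∧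
    WT5 p 5 5 = ⟨- (1 / 2) * p.t, 0, (1 / 16) * p.t * p.Z33 - (1 / 6) * p.t * p.a * p.Z33 + (1 / 12) * p.t * p.a * p.Z22 + (1 / 12) * p.t * p.a * p.Z11 + (1 / 12) * p.t * p.s ^ 2 * p.Z33 - (1 / 24) * p.t * p.s ^ 2 * p.Z22 - (1 / 24) * p.t * p.s ^ 2 * p.Z11 - (1 / 24) * p.t ^ 3 * p.s ^ 2 * p.Z33 + (1 / 48) * p.t ^ 3 * p.s ^ 2 * p.Z22 + (1 / 48) * p.t ^ 3 * p.s ^ 2 * p.Z11 - (1 / 12) * p.t ^ 3 * p.s ^ 3 * p.Z33 + (1 / 24) * p.t ^ 3 * p.s ^ 3 * p.Z22 + (1 / 24) * p.t ^ 3 * p.s ^ 3 * p.Z11⟩ ∧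
    WT5 p 5 6 = 0 ∧
    WT5 p 6 0 = 0 ∧
    WT5 p 6 1 = ⟨0, 2 * p.b3 - p.t ^ 2 * p.b3, 0⟩ ∧
    WT5 p 6 2 = 0 ∧
    WT5 p 6 3 = ⟨0, 0, - (1 / 4) * p.t * p.Z13 + p.t * p.b1 * p.b3 + (3 / 4) * p.t * p.a * p.Z13 + (1 / 2) * p.t * p.s ^ 2 * p.Z13 - p.t ^ 3 * p.b1 * p.b3 - (1 / 4) * p.t ^ 3 * p.s ^ 2 * p.Z13 - (1 / 4) * p.t ^ 3 * p.s ^ 3 * p.Z13⟩ ∧
    WT5 p 6 4 = 0 ∧
    WT5 p 6 5 = 0 ∧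
    WT5 p 6 6 = ⟨(1 / 2) * p.t, 0, - (1 / 16) * p.t * p.Z33 + p.t * p.b3 ^ 2 + (1 / 6) * p.t * p.a * p.Z33 - (1 / 12) * p.t * p.a * p.Z22 - (1 / 12) * p.t * p.a * p.Z11 + (1 / 4) * p.t * p.s ^ 2 * p.Z33 - (1 / 8) * p.t * p.s ^ 2 * p.Z22 - (1 / 8) * p.t * p.s ^ 2 * p.Z11 - (1 / 24) * p.t ^ 3 * p.s ^ 2 * p.Z33 + (1 / 48) * p.t ^ 3 * p.s ^ 2 * p.Z22 + (1 / 48) * p.t ^ 3 * p.s ^ 2 * p.Z11 - (1 / 12) * p.t ^ 3 * p.s ^ 3 * p.Z33 + (1 / 24) * p.t ^ 3 * p.s ^ 3 * p.Z22 + (1 / 24) * p.t ^ 3 * p.s ^ 3 * p.Z11⟩ := by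
  refine ⟨?_, ?_, ?_, ?_, ?_, ?_, ?_, ?_, ?_, ?_, ?_, ?_, ?_, ?_, ?_, ?_, ?_, ?_, ?_, ?_, ?_, ?_, ?_, ?_, ?_, ?_, ?_, ?_, ?_, ?_, ?_, ?_, ?_, ?_, ?_, ?_, ?_, ?_, ?_, ?_, ?_, ?_, ?_, ?_, ?_, ?_, ?_, ?_, ?_⟩ <;> rfl

theorem F4_tGl6 (p : Par) :
    GlT6 p 0 0 = 0 ∧
    GlT6 p 0 1 = ⟨0, 0, - (1 / 2) * p.t * p.b1 * p.b2 + (1 / 4) * p.t * p.a * p.A1 * p.b3⟩ ∧
    GlT6 p 0 2 = 0 ∧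
    GlT6 p 0 3 = ⟨0, - (1 / 2) * p.b2, 0⟩ ∧
    GlT6 p 0 4 = 0 ∧
    GlT6 p 0 5 = 0 ∧
    GlT6 p 0 6 = ⟨0, - (1 / 8) * p.a * p.A1, 0⟩ ∧
    GlT6 p 1 0 = ⟨0, 0, - (1 / 2) * p.t * p.b1 * p.b2 + (1 / 4) * p.t * p.a * p.A1 * p.b3⟩ ∧
    GlT6 p 1 1 = 0 ∧
    GlT6 p 1 2 = 0 ∧
    GlT6 p 1 3 = 0 ∧
    GlT6 p 1 4 = ⟨0, (1 / 2) * p.b1, 0⟩ ∧
    GlT6 p 1 5 = ⟨0, - (1 / 2) * p.b3 + (1 / 4) * p.t ^ 2 * p.b3, 0⟩ ∧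
    GlT6 p 1 6 = 0 ∧
    GlT6 p 2 0 = 0 ∧
    GlT6 p 2 1 = 0 ∧
    GlT6 p 2 2 = 0 ∧
    GlT6 p 2 3 = 0 ∧
    GlT6 p 2 4 = 0 ∧
    GlT6 p 2 5 = 0 ∧
    GlT6 p 2 6 = 0 ∧
    GlT6 p 3 0 = ⟨0, - (1 / 2) * p.b2, 0⟩ ∧
    GlT6 p 3 1 = 0 ∧
    GlT6 p 3 2 = 0 ∧
    GlT6 p 3 3 = 0 ∧
    GlT6 p 3 4 = ⟨0, 0, - (1 / 8) * p.t * p.s ^ 2 * p.Z22 + (1 / 8) * p.t * p.s ^ 2 * p.Z11⟩ ∧
    GlT6 p 3 5 = ⟨0, 0, (1 / 32) * p.t * p.Z13 - (1 / 8) * p.t * p.a * p.Z13 - (1 / 8) * p.t * p.s ^ 2 * p.Z13 + (1 / 32) * p.t ^ 3 * p.s ^ 2 * p.Z13 + (1 / 16) * p.t ^ 3 * p.s ^ 3 * p.Z13⟩ ∧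
    GlT6 p 3 6 = 0 ∧
    GlT6 p 4 0 = 0 ∧
    GlT6 p 4 1 = ⟨0, (1 / 2) * p.b1, 0⟩ ∧
    GlT6 p 4 2 = 0 ∧
    GlT6 p 4 3 = ⟨0, 0, - (1 / 8) * p.t * p.s ^ 2 * p.Z22 + (1 / 8) * p.t * p.s ^ 2 * p.Z11⟩ ∧
    GlT6 p 4 4 = 0 ∧
    GlT6 p 4 5 = 0 ∧
    GlT6 p 4 6 = 0 ∧
    GlT6 p 5 0 = 0 ∧
    GlT6 p 5 1 = ⟨0, - (1 / 2) * p.b3 + (1 / 4) * p.t ^ 2 * p.b3, 0⟩ ∧
    GlT6 p 5 2 = 0 ∧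
    GlT6 p 5 3 = ⟨0, 0, (1 / 32) * p.t * p.Z13 - (1 / 8) * p.t * p.a * p.Z13 - (1 / 8) * p.t * p.s ^ 2 * p.Z13 + (1 / 32) * p.t ^ 3 * p.s ^ 2 * p.Z13 + (1 / 16) * p.t ^ 3 * p.s ^ 3 * p.Z13⟩ ∧
    GlT6 p 5 4 = 0 ∧
    GlT6 p 5 5 = 0 ∧
    GlT6 p 5 6 = ⟨- (1 / 8) * p.t, 0, (1 / 32) * p.t * p.Z33 - (1 / 16) * p.t * p.a * p.Z33 + (1 / 32) * p.t * p.a * p.Z22 + (1 / 32) * p.t * p.a * p.Z11 - (1 / 48) * p.t * p.s ^ 2 * p.Z33 + (1 / 96) * p.t * p.s ^ 2 * p.Z22 + (1 / 96) * p.t * p.s ^ 2 * p.Z11 + (1 / 48) * p.t ^ 3 * p.s ^ 2 * p.Z33 - (1 / 96) * p.t ^ 3 * p.s ^ 2 * p.Z22 - (1 / 96) * p.t ^ 3 * p.s ^ 2 * p.Z11 + (1 / 48) * p.t ^ 3 * p.s ^ 3 * p.Z33 - (1 / 96) * p.t ^ 3 * p.s ^ 3 * p.Z22 - (1 / 96) * p.t ^ 3 * p.s ^ 3 * p.Z11⟩ ∧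
    GlT6 p 6 0 = ⟨0, - (1 / 8) * p.a * p.A1, 0⟩ ∧
    GlT6 p 6 1 = 0 ∧
    GlT6 p 6 2 = 0 ∧
    GlT6 p 6 3 = 0 ∧
    GlT6 p 6 4 = 0 ∧
    GlT6 p 6 5 = ⟨- (1 / 8) * p.t, 0, (1 / 32) * p.t * p.Z33 - (1 / 16) * p.t * p.a * p.Z33 + (1 / 32) * p.t * p.a * p.Z22 + (1 / 32) * p.t * p.a * p.Z11 - (1 / 48) * p.t * p.s ^ 2 * p.Z33 + (1 / 96) * p.t * p.s ^ 2 * p.Z22 + (1 / 96) * p.t * p.s ^ 2 * p.Z11 + (1 / 48) * p.t ^ 3 * p.s ^ 2 * p.Z33 - (1 / 96) * p.t ^ 3 * p.s ^ 2 * p.Z22 - (1 / 96) * p.t ^ 3 * p.s ^ 2 * p.Z11 + (1 / 48) * p.t ^ 3 * p.s ^ 3 * p.Z33 - (1 / 96) * p.t ^ 3 * p.s ^ 3 * p.Z22 - (1 / 96) * p.t ^ 3 * p.s ^ 3 * p.Z11⟩ ∧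
    GlT6 p 6 6 = 0 := by
  refine ⟨?_, ?_, ?_, ?_, ?_, ?_, ?_, ?_, ?_, ?_, ?_, ?_, ?_, ?_, ?_, ?_, ?_, ?_, ?_, ?_, ?_, ?_, ?_, ?_, ?_, ?_, ?_, ?_, ?_, ?_, ?_, ?_, ?_, ?_, ?_, ?_, ?_, ?_, ?_, ?_, ?_, ?_, ?_, ?_, ?_, ?_, ?_, ?_, ?_⟩ <;> rfl

theorem F4_tGu6 (p : Par) :
    GuT6 p 0 0 = 0 ∧
    GuT6 p 0 1 = ⟨0, 0, - 2 * p.t * p.b1 * p.b2 + p.t * p.a * p.A1 * p.b3⟩ ∧
    GuT6 p 0 2 = 0 ∧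
    GuT6 p 0 3 = ⟨0, - 2 * p.b2, 0⟩ ∧
    GuT6 p 0 4 = 0 ∧
    GuT6 p 0 5 = 0 ∧
    GuT6 p 0 6 = ⟨0, - (1 / 2) * p.a * p.A1, 0⟩ ∧
    GuT6 p 1 0 = ⟨0, 0, - 2 * p.t * p.b1 * p.b2 + p.t * p.a * p.A1 * p.b3⟩ ∧
    GuT6 p 1 1 = 0 ∧
    GuT6 p 1 2 = 0 ∧
    GuT6 p 1 3 = 0 ∧
    GuT6 p 1 4 = ⟨0, 2 * p.b1, 0⟩ ∧
    GuT6 p 1 5 = ⟨0, - 2 * p.b3 + p.t ^ 2 * p.b3, 0⟩ ∧
    GuT6 p 1 6 = 0 ∧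
    GuT6 p 2 0 = 0 ∧
    GuT6 p 2 1 = 0 ∧
    GuT6 p 2 2 = 0 ∧
    GuT6 p 2 3 = 0 ∧
    GuT6 p 2 4 = 0 ∧
    GuT6 p 2 5 = 0 ∧
    GuT6 p 2 6 = 0 ∧
    GuT6 p 3 0 = ⟨0, - 2 * p.b2, 0⟩ ∧
    GuT6 p 3 1 = 0 ∧
    GuT6 p 3 2 = 0 ∧
    GuT6 p 3 3 = 0 ∧
    GuT6 p 3 4 = ⟨0, 0, - (1 / 2) * p.t * p.s ^ 2 * p.Z22 + (1 / 2) * p.t * p.s ^ 2 * p.Z11⟩ ∧
    GuT6 p 3 5 = ⟨0, 0, (1 / 4) * p.t * p.Z13 - p.t * p.b1 * p.b3 - (3 / 4) * p.t * p.a * p.Z13 - (1 / 2) * p.t * p.s ^ 2 * p.Z13 + p.t ^ 3 * p.b1 * p.b3 + (1 / 4) * p.t ^ 3 * p.s ^ 2 * p.Z13 + (1 / 4) * p.t ^ 3 * p.s ^ 3 * p.Z13⟩ ∧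
    GuT6 p 3 6 = 0 ∧
    GuT6 p 4 0 = 0 ∧
    GuT6 p 4 1 = ⟨0, 2 * p.b1, 0⟩ ∧
    GuT6 p 4 2 = 0 ∧
    GuT6 p 4 3 = ⟨0, 0, - (1 / 2) * p.t * p.s ^ 2 * p.Z22 + (1 / 2) * p.t * p.s ^ 2 * p.Z11⟩ ∧
    GuT6 p 4 4 = 0 ∧
    GuT6 p 4 5 = 0 ∧
    GuT6 p 4 6 = ⟨0, 0, (1 / 8) * p.t * p.Z13 - p.t * p.b1 * p.b3 - (1 / 4) * p.t * p.a * p.Z13 + p.t ^ 3 * p.b1 * p.b3 + (1 / 8) * p.t ^ 3 * p.s ^ 2 * p.Z13⟩ ∧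
    GuT6 p 5 0 = 0 ∧
    GuT6 p 5 1 = ⟨0, - 2 * p.b3 + p.t ^ 2 * p.b3, 0⟩ ∧
    GuT6 p 5 2 = 0 ∧
    GuT6 p 5 3 = ⟨0, 0, (1 / 4) * p.t * p.Z13 - p.t * p.b1 * p.b3 - (3 / 4) * p.t * p.a * p.Z13 - (1 / 2) * p.t * p.s ^ 2 * p.Z13 + p.t ^ 3 * p.b1 * p.b3 + (1 / 4) * p.t ^ 3 * p.s ^ 2 * p.Z13 + (1 / 4) * p.t ^ 3 * p.s ^ 3 * p.Z13⟩ ∧
    GuT6 p 5 4 = 0 ∧
    GuT6 p 5 5 = 0 ∧
    GuT6 p 5 6 = ⟨- (1 / 2) * p.t, 0, (1 / 16) * p.t * p.Z33 - (1 / 6) * p.t * p.a * p.Z33 + (1 / 12) * p.t * p.a * p.Z22 + (1 / 12) * p.t * p.a * p.Z11 - (1 / 12) * p.t * p.s ^ 2 * p.Z33 + (1 / 24) * p.t * p.s ^ 2 * p.Z22 + (1 / 24) * p.t * p.s ^ 2 * p.Z11 + (1 / 24) * p.t ^ 3 * p.s ^ 2 * p.Z33 - (1 / 48) * p.t ^ 3 * p.s ^ 2 * p.Z22 - (1 / 48) * p.t ^ 3 * p.s ^ 2 * p.Z11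 + (1 / 12) * p.t ^ 3 * p.s ^ 3 * p.Z33 - (1 / 24) * p.t ^ 3 * p.s ^ 3 * p.Z22 - (1 / 24) * p.t ^ 3 * p.s ^ 3 * p.Z11⟩ ∧
    GuT6 p 6 0 = ⟨0, - (1 / 2) * p.a * p.A1, 0⟩ ∧
    GuT6 p 6 1 = 0 ∧
    GuT6 p 6 2 = 0 ∧
    GuT6 p 6 3 = 0 ∧
    GuT6 p 6 4 = ⟨0, 0, (1 / 8) * p.t * p.Z13 - p.t * p.b1 * p.b3 - (1 / 4) * p.t * p.a * p.Z13 + p.t ^ 3 * p.b1 * p.b3 + (1 / 8) * p.t ^ 3 * p.s ^ 2 * p.Z13⟩ ∧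
    GuT6 p 6 5 = ⟨- (1 / 2) * p.t, 0, (1 / 16) * p.t * p.Z33 - (1 / 6) * p.t * p.a * p.Z33 + (1 / 12) * p.t * p.a * p.Z22 + (1 / 12) * p.t * p.a * p.Z11 - (1 / 12) * p.t * p.s ^ 2 * p.Z33 + (1 / 24) * p.t * p.s ^ 2 * p.Z22 + (1 / 24) * p.t * p.s ^ 2 * p.Z11 + (1 / 24) * p.t ^ 3 * p.s ^ 2 * p.Z33 - (1 / 48) * p.t ^ 3 * p.s ^ 2 * p.Z22 - (1 / 48) * p.t ^ 3 * p.s ^ 2 * p.Z11 + (1 / 12) * p.t ^ 3 * p.s ^ 3 * p.Z33 - (1 / 24) * p.t ^ 3 * p.s ^ 3 * p.Z22 - (1 / 24) * p.t ^ 3 * p.s ^ 3 * p.Z11⟩ ∧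
    GuT6 p 6 6 = 0 := by
  refine ⟨?_, ?_, ?_, ?_, ?_, ?_, ?_, ?_, ?_, ?_, ?_, ?_, ?_, ?_, ?_, ?_, ?_, ?_, ?_, ?_, ?_, ?_, ?_, ?_, ?_, ?_, ?_, ?_, ?_, ?_, ?_, ?_, ?_, ?_, ?_, ?_, ?_, ?_, ?_, ?_, ?_, ?_, ?_, ?_, ?_, ?_, ?_, ?_, ?_⟩ <;> rfl

theorem F4_tW6 (p : Par) :
    WT6 p 0 0 = 0 ∧
    WT6 p 0 1 = ⟨0, 0, (1 / 4) * p.t * p.a * p.A1 * p.b3⟩ ∧
    WT6 p 0 2 = 0 ∧
    WT6 p 0 3 = ⟨0, - (1 / 2) * p.b2, 0⟩ ∧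
    WT6 p 0 4 = 0 ∧
    WT6 p 0 5 = 0 ∧
    WT6 p 0 6 = ⟨0, - (1 / 8) * p.a * p.A1, 0⟩ ∧
    WT6 p 1 0 = ⟨0, 0, - p.t * p.b1 * p.b2⟩ ∧
    WT6 p 1 1 = 0 ∧
    WT6 p 1 2 = 0 ∧
    WT6 p 1 3 = 0 ∧
    WT6 p 1 4 = ⟨0, (1 / 2) * p.b1, 0⟩ ∧
    WT6 p 1 5 = ⟨0, - (1 / 2) * p.b3, 0⟩ ∧
    WT6 p 1 6 = 0 ∧
    WT6 p 2 0 = 0 ∧
    WT6 p 2 1 = 0 ∧
    WT6 p 2 2 = 0 ∧
    WT6 p 2 3 = 0 ∧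
    WT6 p 2 4 = 0 ∧
    WT6 p 2 5 = 0 ∧
    WT6 p 2 6 = 0 ∧
    WT6 p 3 0 = ⟨0, - (1 / 2) * p.b2, 0⟩ ∧
    WT6 p 3 1 = 0 ∧
    WT6 p 3 2 = 0 ∧
    WT6 p 3 3 = 0 ∧
    WT6 p 3 4 = ⟨0, 0, (1 / 2) * p.t * p.b1 ^ 2 - (1 / 8) * p.t * p.s ^ 2 * p.Z22 + (1 / 8) * p.t * p.s ^ 2 * p.Z11⟩ ∧
    WT6 p 3 5 = ⟨0, 0, - (1 / 2) * p.t * p.b1 * p.b3 - (1 / 16) * p.t * p.a * p.Z13 - (1 / 8) * p.t * p.s ^ 2 * p.Z13 + (1 / 16) * p.t ^ 3 * p.s ^ 3 * p.Z13⟩ ∧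
    WT6 p 3 6 = 0 ∧
    WT6 p 4 0 = 0 ∧
    WT6 p 4 1 = ⟨0, (1 / 2) * p.b1, 0⟩ ∧
    WT6 p 4 2 = 0 ∧
    WT6 p 4 3 = ⟨0, 0, - (1 / 2) * p.t * p.b2 ^ 2 - (1 / 8) * p.t * p.s ^ 2 * p.Z22 + (1 / 8) * p.t * p.s ^ 2 * p.Z11⟩ ∧
    WT6 p 4 4 = 0 ∧
    WT6 p 4 5 = 0 ∧
    WT6 p 4 6 = ⟨0, 0, (1 / 32) * p.t * p.Z13 - (1 / 16) * p.t * p.a * p.Z13 - (1 / 8) * p.t * p.a * p.A1 * p.b2 - (1 / 32) * p.t ^ 3 * p.s ^ 2 * p.Z13⟩ ∧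
    WT6 p 5 0 = 0 ∧
    WT6 p 5 1 = ⟨0, - 2 * p.b3 + p.t ^ 2 * p.b3, 0⟩ ∧
    WT6 p 5 2 = 0 ∧
    WT6 p 5 3 = ⟨0, 0, (1 / 8) * p.t * p.Z13 - (1 / 2) * p.t * p.a * p.Z13 - (1 / 2) * p.t * p.s ^ 2 * p.Z13 + (1 / 8) * p.t ^ 3 * p.s ^ 2 * p.Z13 + (1 / 4) * p.t ^ 3 * p.s ^ 3 * p.Z13⟩ ∧
    WT6 p 5 4 = 0 ∧
    WT6 p 5 5 = 0 ∧
    WT6 p 5 6 = ⟨- (1 / 2) * p.t, 0, (1 / 16) * p.t * p.Z33 - (1 / 6) * p.t * p.a * p.Z33 + (1 / 12) * p.t * p.a * p.Z22 + (1 / 12) * p.t * p.a * p.Z11 - (1 / 12) * p.t * p.s ^ 2 * p.Z33 + (1 / 24) * p.t * p.s ^ 2 * p.Z22 + (1 / 24) * p.t * p.s ^ 2 * p.Z11 + (1 / 8) * p.t ^ 3 * p.s ^ 2 * p.Z33 - (1 / 16) * p.t ^ 3 * p.s ^ 2 * p.Z22 - (1 / 16) * p.t ^ 3 * p.s ^ 2 * p.Z11 + (1 / 12) * p.t ^ 3 * p.s ^ 3 * p.Z33 - (1 / 24)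 * p.t ^ 3 * p.s ^ 3 * p.Z22 - (1 / 24) * p.t ^ 3 * p.s ^ 3 * p.Z11⟩ ∧
    WT6 p 6 0 = ⟨0, - (1 / 2) * p.a * p.A1, 0⟩ ∧
    WT6 p 6 1 = 0 ∧
    WT6 p 6 2 = 0 ∧
    WT6 p 6 3 = 0 ∧
    WT6 p 6 4 = ⟨0, 0, p.t * p.b1 * p.b3⟩ ∧
    WT6 p 6 5 = ⟨- (1 / 2) * p.t, 0, (1 / 16) * p.t * p.Z33 - p.t * p.b3 ^ 2 - (1 / 6) * p.t * p.a * p.Z33 + (1 / 12) * p.t * p.a * p.Z22 + (1 / 12) * p.t * p.a * p.Z11 - (1 / 12) * p.t * p.s ^ 2 * p.Z33 + (1 / 24) * p.t * p.s ^ 2 * p.Z22 + (1 / 24) * p.t * p.s ^ 2 * p.Z11 + (1 / 24) * p.t ^ 3 * p.s ^ 2 * p.Z33 - (1 / 48) * p.t ^ 3 * p.s ^ 2 * p.Z22 - (1 / 48) * p.t ^ 3 * p.s ^ 2 * p.Z11 + (1 / 12) * p.t ^ 3 * p.s ^ 3 * p.Z33 - (1 / 24) * p.t ^ 3 * p.s ^ 3 * p.Z22 - (1 / 24) * p.t ^ 3 * p.s ^ 3 * p.Z11⟩ ∧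
    WT6 p 6 6 = 0 := by
  refine ⟨?_, ?_, ?_, ?_, ?_, ?_, ?_, ?_, ?_, ?_, ?_, ?_, ?_, ?_, ?_, ?_, ?_, ?_, ?_, ?_, ?_, ?_, ?_, ?_, ?_, ?_, ?_, ?_, ?_, ?_, ?_, ?_, ?_, ?_, ?_, ?_, ?_, ?_, ?_, ?_, ?_, ?_, ?_, ?_, ?_, ?_, ?_, ?_, ?_⟩ <;> rfl

theorem F4_mv (v g0 g3 g4 g5 g6 h00 h03 h04 h05 h06 h33 h34 h35 h36 h44 h45 h46 h55 h56 h66 : T3) :
    (mkJ v g0 g3 g4 g5 g6 h00 h03 h04 h05 h06 h33 h34 h35 h36 h44 h45 h46 h55 h56 h66).v = v := rfl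

theorem F4_v (p : Par) (i j : Fin 7) :
    (GJ p i j).v = (MJ p i j).v + ⟨0, 0, 1⟩ * (HJ p i j).v := rfl

theorem GJ_mul_KT (p : Par) : (Matrix.of fun i j => (GJ p i j).v) * KT p = 1 := by
  refine Matrix.ext fun i j => ?_
  rw [Matrix.mul_apply]
  simp only [Fin.sum_univ_seven, Matrix.of_apply, F4_v]
  fin_cases i <;> fin_cases j <;>
    simp only [Fin.mk_one, Fin.zero_eta, Fin.reduceFinMk, F4_K, mul_zero, zero_mul, add_zero, sub_zero, zero_add, zero_sub] <;>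
    simp only [F4_M, F4_H, MJ00, MJ03, MJ04, MJ11, MJ13, MJ14, MJ15, MJ16, MJ22, MJ33, MJ34, MJ35, MJ36, MJ44, MJ45,
      MJ46, MJ55, MJ66, HJ00, HJ11, HJ33, HJ34, HJ35, HJ36, HJ44, HJ45, HJ46, HJ55, HJ56, HJ66, J0, F4_mv, mul_zero, zero_mul, add_zero, sub_zero, zero_add, zero_sub] <;>
    refine T3.ext ?_ ?_ ?_ <;>
    simp [Matrix.one_apply, T3.add_c0, T3.add_c1, T3.add_c2, T3.sub_c0, T3.sub_c1, T3.sub_c2, T3.neg_c0,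
      T3.neg_c1, T3.neg_c2, T3.mul_c0, T3.mul_c1, T3.mul_c2, T3.zero_c0, T3.zero_c1, T3.zero_c2,
      T3.C_c0, T3.C_c1, T3.C_c2] <;> ring

theorem F4_g (p : Par) (m i j : Fin 7) :
    (GJ p i j).g m = (MJ p i j).g m + ⟨0, 0, 1⟩ * (HJ p i j).g m := rfl

theorem F4_h (p : Par) (k l i j : Fin 7) :
    (GJ p i j).h k l = (MJ p i j).h k l + ⟨0, 0, 1⟩ * (HJ p i j).h k l := rfl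

theorem F4_T (p : Par) : (GlT p 0 = GlT0 p ∧ GlT p 1 = GlT1 p ∧ GlT p 3 = GlT3 p ∧ GlT p 4 = GlT4 p ∧ GlT p 5 = GlT5 p ∧ GlT p 6 = GlT6 p) ∧ (∀ i j, GlT p 2 i j = 0) ∧
  (GuT p 0 = GuT0 p ∧ GuT p 1 = GuT1 p ∧ GuT p 3 = GuT3 p ∧ GuT p 4 = GuT4 p ∧ GuT p 5 = GuT5 p ∧ GuT p 6 = GuT6 p) ∧ (∀ i j, GuT p 2 i j = 0) ∧
  (WT p 0 = WT0 p ∧ WT p 1 = WT1 p ∧ WT p 3 = WT3 p ∧ WT p 4 = WT4 p ∧ WT p 5 = WT5 p ∧ WT p 6 = WT6 p) ∧ (∀ i j, WT p 2 i j = 0) := by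
  refine ⟨⟨?_, ?_, ?_, ?_, ?_, ?_⟩, ?_, ⟨?_, ?_, ?_, ?_, ?_, ?_⟩, ?_, ⟨?_, ?_, ?_, ?_, ?_, ?_⟩, ?_⟩
  all_goals first | rfl | exact fun _ _ => rfl

theorem F4_Gl0 (p : Par) (i j : Fin 7) :
    F4_Gl (T3.C (1 / 2)) (fun m i j => (GJ p i j).g m) 0 i j = GlT0 p i j := by
  unfold F4_Gl
  simp only [F4_g]
  fin_cases i <;> fin_cases j <;>
    simp only [Fin.mk_one, Fin.zero_eta, Fin.reduceFinMk, F4_M, F4_H, MJ00, MJ03, MJ04, MJ11, MJ13, MJ14, MJ15, MJ16, MJ22, MJ33, MJ34, MJ35, MJ36, MJ44, MJ45,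
      MJ46, MJ55, MJ66, HJ00, HJ11, HJ33, HJ34, HJ35, HJ36, HJ44, HJ45, HJ46, HJ55, HJ56, HJ66, J0, F4_mg, F4_tGl0, mul_zero, zero_mul, add_zero, sub_zero, zero_add, zero_sub] <;>
    refine T3.ext ?_ ?_ ?_ <;>
    simp only [T3.add_c0, T3.add_c1, T3.add_c2, T3.sub_c0, T3.sub_c1, T3.sub_c2, T3.neg_c0,
      T3.neg_c1, T3.neg_c2, T3.mul_c0, T3.mul_c1, T3.mul_c2, T3.zero_c0, T3.zero_c1, T3.zero_c2,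
      T3.C_c0, T3.C_c1, T3.C_c2] <;> ring

theorem F4_Gl1 (p : Par) (i j : Fin 7) :
    F4_Gl (T3.C (1 / 2)) (fun m i j => (GJ p i j).g m) 1 i j = GlT1 p i j := by
  unfold F4_Gl
  simp only [F4_g]
  fin_cases i <;> fin_cases j <;>
    simp only [Fin.mk_one, Fin.zero_eta, Fin.reduceFinMk, F4_M, F4_H, MJ00, MJ03, MJ04, MJ11, MJ13, MJ14, MJ15, MJ16, MJ22, MJ33, MJ34, MJ35, MJ36, MJ44, MJ45,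
      MJ46, MJ55, MJ66, HJ00, HJ11, HJ33, HJ34, HJ35, HJ36, HJ44, HJ45, HJ46, HJ55, HJ56, HJ66, J0, F4_mg, F4_tGl1, mul_zero, zero_mul, add_zero, sub_zero, zero_add, zero_sub] <;>
    refine T3.ext ?_ ?_ ?_ <;>
    simp only [T3.add_c0, T3.add_c1, T3.add_c2, T3.sub_c0, T3.sub_c1, T3.sub_c2, T3.neg_c0,
      T3.neg_c1, T3.neg_c2, T3.mul_c0, T3.mul_c1, T3.mul_c2, T3.zero_c0, T3.zero_c1, T3.zero_c2,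
      T3.C_c0, T3.C_c1, T3.C_c2] <;> ring

theorem F4_Gl2 (p : Par) (i j : Fin 7) :
    F4_Gl (T3.C (1 / 2)) (fun m i j => (GJ p i j).g m) 2 i j = 0 := by
  unfold F4_Gl
  simp only [F4_g]
  fin_cases i <;> fin_cases j <;>
    simp only [Fin.mk_one, Fin.zero_eta, Fin.reduceFinMk, F4_M, F4_H, MJ00, MJ03, MJ04, MJ11, MJ13, MJ14, MJ15, MJ16, MJ22, MJ33, MJ34, MJ35, MJ36, MJ44, MJ45,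
      MJ46, MJ55, MJ66, HJ00, HJ11, HJ33, HJ34, HJ35, HJ36, HJ44, HJ45, HJ46, HJ55, HJ56, HJ66, J0, F4_mg, mul_zero, zero_mul, add_zero, sub_zero, zero_add, zero_sub] <;>
    refine T3.ext ?_ ?_ ?_ <;>
    simp only [T3.add_c0, T3.add_c1, T3.add_c2, T3.sub_c0, T3.sub_c1, T3.sub_c2, T3.neg_c0,
      T3.neg_c1, T3.neg_c2, T3.mul_c0, T3.mul_c1, T3.mul_c2, T3.zero_c0, T3.zero_c1, T3.zero_c2,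
      T3.C_c0, T3.C_c1, T3.C_c2] <;> ring

theorem F4_Gl3 (p : Par) (i j : Fin 7) :
    F4_Gl (T3.C (1 / 2)) (fun m i j => (GJ p i j).g m) 3 i j = GlT3 p i j := by
  unfold F4_Gl
  simp only [F4_g]
  fin_cases i <;> fin_cases j <;>
    simp only [Fin.mk_one, Fin.zero_eta, Fin.reduceFinMk, F4_M, F4_H, MJ00, MJ03, MJ04, MJ11, MJ13, MJ14, MJ15, MJ16, MJ22, MJ33, MJ34, MJ35, MJ36, MJ44, MJ45,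
      MJ46, MJ55, MJ66, HJ00, HJ11, HJ33, HJ34, HJ35, HJ36, HJ44, HJ45, HJ46, HJ55, HJ56, HJ66, J0, F4_mg, F4_tGl3, mul_zero, zero_mul, add_zero, sub_zero, zero_add, zero_sub] <;>
    refine T3.ext ?_ ?_ ?_ <;>
    simp only [T3.add_c0, T3.add_c1, T3.add_c2, T3.sub_c0, T3.sub_c1, T3.sub_c2, T3.neg_c0,
      T3.neg_c1, T3.neg_c2, T3.mul_c0, T3.mul_c1, T3.mul_c2, T3.zero_c0, T3.zero_c1, T3.zero_c2,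
      T3.C_c0, T3.C_c1, T3.C_c2] <;> ring

theorem F4_Gl4 (p : Par) (i j : Fin 7) :
    F4_Gl (T3.C (1 / 2)) (fun m i j => (GJ p i j).g m) 4 i j = GlT4 p i j := by
  unfold F4_Gl
  simp only [F4_g]
  fin_cases i <;> fin_cases j <;>
    simp only [Fin.mk_one, Fin.zero_eta, Fin.reduceFinMk, F4_M, F4_H, MJ00, MJ03, MJ04, MJ11, MJ13, MJ14, MJ15, MJ16, MJ22, MJ33, MJ34, MJ35, MJ36, MJ44, MJ45,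
      MJ46, MJ55, MJ66, HJ00, HJ11, HJ33, HJ34, HJ35, HJ36, HJ44, HJ45, HJ46, HJ55, HJ56, HJ66, J0, F4_mg, F4_tGl4, mul_zero, zero_mul, add_zero, sub_zero, zero_add, zero_sub] <;>
    refine T3.ext ?_ ?_ ?_ <;>
    simp only [T3.add_c0, T3.add_c1, T3.add_c2, T3.sub_c0, T3.sub_c1, T3.sub_c2, T3.neg_c0,
      T3.neg_c1, T3.neg_c2, T3.mul_c0, T3.mul_c1, T3.mul_c2, T3.zero_c0, T3.zero_c1, T3.zero_c2,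
      T3.C_c0, T3.C_c1, T3.C_c2] <;> ring

theorem F4_Gl5 (p : Par) (i j : Fin 7) :
    F4_Gl (T3.C (1 / 2)) (fun m i j => (GJ p i j).g m) 5 i j = GlT5 p i j := by
  unfold F4_Gl
  simp only [F4_g]
  fin_cases i <;> fin_cases j <;>
    simp only [Fin.mk_one, Fin.zero_eta, Fin.reduceFinMk, F4_M, F4_H, MJ00, MJ03, MJ04, MJ11, MJ13, MJ14, MJ15, MJ16, MJ22, MJ33, MJ34, MJ35, MJ36, MJ44, MJ45,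
      MJ46, MJ55, MJ66, HJ00, HJ11, HJ33, HJ34, HJ35, HJ36, HJ44, HJ45, HJ46, HJ55, HJ56, HJ66, J0, F4_mg, F4_tGl5, mul_zero, zero_mul, add_zero, sub_zero, zero_add, zero_sub] <;>
    refine T3.ext ?_ ?_ ?_ <;>
    simp only [T3.add_c0, T3.add_c1, T3.add_c2, T3.sub_c0, T3.sub_c1, T3.sub_c2, T3.neg_c0,
      T3.neg_c1, T3.neg_c2, T3.mul_c0, T3.mul_c1, T3.mul_c2, T3.zero_c0, T3.zero_c1, T3.zero_c2,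
      T3.C_c0, T3.C_c1, T3.C_c2] <;> ring

theorem F4_Gl6 (p : Par) (i j : Fin 7) :
    F4_Gl (T3.C (1 / 2)) (fun m i j => (GJ p i j).g m) 6 i j = GlT6 p i j := by
  unfold F4_Gl
  simp only [F4_g]
  fin_cases i <;> fin_cases j <;>
    simp only [Fin.mk_one, Fin.zero_eta, Fin.reduceFinMk, F4_M, F4_H, MJ00, MJ03, MJ04, MJ11, MJ13, MJ14, MJ15, MJ16, MJ22, MJ33, MJ34, MJ35, MJ36, MJ44, MJ45,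
      MJ46, MJ55, MJ66, HJ00, HJ11, HJ33, HJ34, HJ35, HJ36, HJ44, HJ45, HJ46, HJ55, HJ56, HJ66, J0, F4_mg, F4_tGl6, mul_zero, zero_mul, add_zero, sub_zero, zero_add, zero_sub] <;>
    refine T3.ext ?_ ?_ ?_ <;>
    simp only [T3.add_c0, T3.add_c1, T3.add_c2, T3.sub_c0, T3.sub_c1, T3.sub_c2, T3.neg_c0,
      T3.neg_c1, T3.neg_c2, T3.mul_c0, T3.mul_c1, T3.mul_c2, T3.zero_c0, T3.zero_c1, T3.zero_c2,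
      T3.C_c0, T3.C_c1, T3.C_c2] <;> ring

theorem F4_Gls (p : Par) (k i j : Fin 7) :
    F4_Gl (T3.C (1 / 2)) (fun m i j => (GJ p i j).g m) k i j = GlT p k i j := by
  fin_cases k
  exacts [F4_Gl0 p i j, F4_Gl1 p i j, F4_Gl2 p i j, F4_Gl3 p i j, F4_Gl4 p i j, F4_Gl5 p i j,
    F4_Gl6 p i j]

theorem F4_Gu0 (p : Par) (i j : Fin 7) :
    ∑ l, KT p 0 l * GlT p l i j = GuT0 p i j := by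
  simp only [Fin.sum_univ_seven, F4_K, F4_T, mul_zero, zero_mul, add_zero, sub_zero, zero_add, zero_sub]
  fin_cases i <;> fin_cases j <;>
    simp only [Fin.mk_one, Fin.zero_eta, Fin.reduceFinMk, F4_tGl0, F4_tGl1, F4_tGl3, F4_tGl4, F4_tGl5, F4_tGl6, F4_tGu0, mul_zero, zero_mul, add_zero, sub_zero, zero_add, zero_sub] <;>
    refine T3.ext ?_ ?_ ?_ <;>
    simp only [T3.add_c0, T3.add_c1, T3.add_c2, T3.sub_c0, T3.sub_c1, T3.sub_c2, T3.neg_c0,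
      T3.neg_c1, T3.neg_c2, T3.mul_c0, T3.mul_c1, T3.mul_c2, T3.zero_c0, T3.zero_c1, T3.zero_c2,
      T3.C_c0, T3.C_c1, T3.C_c2] <;> ring

theorem F4_Gu1 (p : Par) (i j : Fin 7) :
    ∑ l, KT p 1 l * GlT p l i j = GuT1 p i j := by
  simp only [Fin.sum_univ_seven, F4_K, F4_T, mul_zero, zero_mul, add_zero, sub_zero, zero_add, zero_sub]
  fin_cases i <;> fin_cases j <;>
    simp only [Fin.mk_one, Fin.zero_eta, Fin.reduceFinMk, F4_tGl0, F4_tGl1, F4_tGl3, F4_tGl4, F4_tGl5, F4_tGl6, F4_tGu1, mul_zero, zero_mul, add_zero, sub_zero, zero_add, zero_sub] <;>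
    refine T3.ext ?_ ?_ ?_ <;>
    simp only [T3.add_c0, T3.add_c1, T3.add_c2, T3.sub_c0, T3.sub_c1, T3.sub_c2, T3.neg_c0,
      T3.neg_c1, T3.neg_c2, T3.mul_c0, T3.mul_c1, T3.mul_c2, T3.zero_c0, T3.zero_c1, T3.zero_c2,
      T3.C_c0, T3.C_c1, T3.C_c2] <;> ring

theorem F4_Gu2 (p : Par) (i j : Fin 7) : ∑ l, KT p 2 l * GlT p l i j = 0 := by
  simp only [Fin.sum_univ_seven, F4_K, F4_T, mul_zero, zero_mul, add_zero]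

theorem F4_Gu3 (p : Par) (i j : Fin 7) :
    ∑ l, KT p 3 l * GlT p l i j = GuT3 p i j := by
  simp only [Fin.sum_univ_seven, F4_K, F4_T, mul_zero, zero_mul, add_zero, sub_zero, zero_add, zero_sub]
  fin_cases i <;> fin_cases j <;>
    simp only [Fin.mk_one, Fin.zero_eta, Fin.reduceFinMk, F4_tGl0, F4_tGl1, F4_tGl3, F4_tGl4, F4_tGl5, F4_tGl6, F4_tGu3, mul_zero, zero_mul, add_zero, sub_zero, zero_add, zero_sub] <;>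
    refine T3.ext ?_ ?_ ?_ <;>
    simp only [T3.add_c0, T3.add_c1, T3.add_c2, T3.sub_c0, T3.sub_c1, T3.sub_c2, T3.neg_c0,
      T3.neg_c1, T3.neg_c2, T3.mul_c0, T3.mul_c1, T3.mul_c2, T3.zero_c0, T3.zero_c1, T3.zero_c2,
      T3.C_c0, T3.C_c1, T3.C_c2] <;> ring

theorem F4_Gu4 (p : Par) (i j : Fin 7) :
    ∑ l, KT p 4 l * GlT p l i j = GuT4 p i j := by
  simp only [Fin.sum_univ_seven, F4_K, F4_T, mul_zero, zero_mul, add_zero, sub_zero, zero_add, zero_sub]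
  fin_cases i <;> fin_cases j <;>
    simp only [Fin.mk_one, Fin.zero_eta, Fin.reduceFinMk, F4_tGl0, F4_tGl1, F4_tGl3, F4_tGl4, F4_tGl5, F4_tGl6, F4_tGu4, mul_zero, zero_mul, add_zero, sub_zero, zero_add, zero_sub] <;>
    refine T3.ext ?_ ?_ ?_ <;>
    simp only [T3.add_c0, T3.add_c1, T3.add_c2, T3.sub_c0, T3.sub_c1, T3.sub_c2, T3.neg_c0,
      T3.neg_c1, T3.neg_c2, T3.mul_c0, T3.mul_c1, T3.mul_c2, T3.zero_c0, T3.zero_c1, T3.zero_c2,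
      T3.C_c0, T3.C_c1, T3.C_c2] <;> ring

theorem F4_Gu5 (p : Par) (i j : Fin 7) :
    ∑ l, KT p 5 l * GlT p l i j = GuT5 p i j := by
  simp only [Fin.sum_univ_seven, F4_K, F4_T, mul_zero, zero_mul, add_zero, sub_zero, zero_add, zero_sub]
  fin_cases i <;> fin_cases j <;>
    simp only [Fin.mk_one, Fin.zero_eta, Fin.reduceFinMk, F4_tGl0, F4_tGl1, F4_tGl3, F4_tGl4, F4_tGl5, F4_tGl6, F4_tGu5, mul_zero, zero_mul, add_zero, sub_zero, zero_add, zero_sub] <;>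
    refine T3.ext ?_ ?_ ?_ <;>
    simp only [T3.add_c0, T3.add_c1, T3.add_c2, T3.sub_c0, T3.sub_c1, T3.sub_c2, T3.neg_c0,
      T3.neg_c1, T3.neg_c2, T3.mul_c0, T3.mul_c1, T3.mul_c2, T3.zero_c0, T3.zero_c1, T3.zero_c2,
      T3.C_c0, T3.C_c1, T3.C_c2] <;> ring

theorem F4_Gu6 (p : Par) (i j : Fin 7) :
    ∑ l, KT p 6 l * GlT p l i j = GuT6 p i j := by
  simp only [Fin.sum_univ_seven, F4_K, F4_T, mul_zero, zero_mul, add_zero, sub_zero, zero_add, zero_sub]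
  fin_cases i <;> fin_cases j <;>
    simp only [Fin.mk_one, Fin.zero_eta, Fin.reduceFinMk, F4_tGl0, F4_tGl1, F4_tGl3, F4_tGl4, F4_tGl5, F4_tGl6, F4_tGu6, mul_zero, zero_mul, add_zero, sub_zero, zero_add, zero_sub] <;>
    refine T3.ext ?_ ?_ ?_ <;>
    simp only [T3.add_c0, T3.add_c1, T3.add_c2, T3.sub_c0, T3.sub_c1, T3.sub_c2, T3.neg_c0,
      T3.neg_c1, T3.neg_c2, T3.mul_c0, T3.mul_c1, T3.mul_c2, T3.zero_c0, T3.zero_c1, T3.zero_c2,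
      T3.C_c0, T3.C_c1, T3.C_c2] <;> ring

theorem F4_Gus (p : Par) (k i j : Fin 7) : ∑ l, KT p k l * GlT p l i j = GuT p k i j := by
  fin_cases k
  exacts [F4_Gu0 p i j, F4_Gu1 p i j, F4_Gu2 p i j, F4_Gu3 p i j, F4_Gu4 p i j, F4_Gu5 p i j,
    F4_Gu6 p i j]

theorem F4_W0 (p : Par) (i j : Fin 7) :
    ∑ l, KT p i l * GlT0 p l j = WT0 p i j := by
  simp only [Fin.sum_univ_seven]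
  fin_cases i <;> fin_cases j <;>
    simp only [Fin.mk_one, Fin.zero_eta, Fin.reduceFinMk, F4_K, F4_tGl0, F4_tW0, mul_zero, zero_mul, add_zero, sub_zero, zero_add, zero_sub] <;>
    refine T3.ext ?_ ?_ ?_ <;>
    simp only [T3.add_c0, T3.add_c1, T3.add_c2, T3.sub_c0, T3.sub_c1, T3.sub_c2, T3.neg_c0,
      T3.neg_c1, T3.neg_c2, T3.mul_c0, T3.mul_c1, T3.mul_c2, T3.zero_c0, T3.zero_c1, T3.zero_c2,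
      T3.C_c0, T3.C_c1, T3.C_c2] <;> ring

theorem F4_W1 (p : Par) (i j : Fin 7) :
    ∑ l, KT p i l * GlT1 p l j = WT1 p i j := by
  simp only [Fin.sum_univ_seven]
  fin_cases i <;> fin_cases j <;>
    simp only [Fin.mk_one, Fin.zero_eta, Fin.reduceFinMk, F4_K, F4_tGl1, F4_tW1, mul_zero, zero_mul, add_zero, sub_zero, zero_add, zero_sub] <;>
    refine T3.ext ?_ ?_ ?_ <;>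
    simp only [T3.add_c0, T3.add_c1, T3.add_c2, T3.sub_c0, T3.sub_c1, T3.sub_c2, T3.neg_c0,
      T3.neg_c1, T3.neg_c2, T3.mul_c0, T3.mul_c1, T3.mul_c2, T3.zero_c0, T3.zero_c1, T3.zero_c2,
      T3.C_c0, T3.C_c1, T3.C_c2] <;> ring

theorem F4_W3 (p : Par) (i j : Fin 7) :
    ∑ l, KT p i l * GlT3 p l j = WT3 p i j := by
  simp only [Fin.sum_univ_seven]
  fin_cases i <;> fin_cases j <;>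
    simp only [Fin.mk_one, Fin.zero_eta, Fin.reduceFinMk, F4_K, F4_tGl3, F4_tW3, mul_zero, zero_mul, add_zero, sub_zero, zero_add, zero_sub] <;>
    refine T3.ext ?_ ?_ ?_ <;>
    simp only [T3.add_c0, T3.add_c1, T3.add_c2, T3.sub_c0, T3.sub_c1, T3.sub_c2, T3.neg_c0,
      T3.neg_c1, T3.neg_c2, T3.mul_c0, T3.mul_c1, T3.mul_c2, T3.zero_c0, T3.zero_c1, T3.zero_c2,
      T3.C_c0, T3.C_c1, T3.C_c2] <;> ring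

theorem F4_W4 (p : Par) (i j : Fin 7) :
    ∑ l, KT p i l * GlT4 p l j = WT4 p i j := by
  simp only [Fin.sum_univ_seven]
  fin_cases i <;> fin_cases j <;>
    simp only [Fin.mk_one, Fin.zero_eta, Fin.reduceFinMk, F4_K, F4_tGl4, F4_tW4, mul_zero, zero_mul, add_zero, sub_zero, zero_add, zero_sub] <;>
    refine T3.ext ?_ ?_ ?_ <;>
    simp only [T3.add_c0, T3.add_c1, T3.add_c2, T3.sub_c0, T3.sub_c1, T3.sub_c2, T3.neg_c0,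
      T3.neg_c1, T3.neg_c2, T3.mul_c0, T3.mul_c1, T3.mul_c2, T3.zero_c0, T3.zero_c1, T3.zero_c2,
      T3.C_c0, T3.C_c1, T3.C_c2] <;> ring

theorem F4_W5 (p : Par) (i j : Fin 7) :
    ∑ l, KT p i l * GlT5 p l j = WT5 p i j := by
  simp only [Fin.sum_univ_seven]
  fin_cases i <;> fin_cases j <;>
    simp only [Fin.mk_one, Fin.zero_eta, Fin.reduceFinMk, F4_K, F4_tGl5, F4_tW5, mul_zero, zero_mul, add_zero, sub_zero, zero_add, zero_sub] <;>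
    refine T3.ext ?_ ?_ ?_ <;>
    simp only [T3.add_c0, T3.add_c1, T3.add_c2, T3.sub_c0, T3.sub_c1, T3.sub_c2, T3.neg_c0,
      T3.neg_c1, T3.neg_c2, T3.mul_c0, T3.mul_c1, T3.mul_c2, T3.zero_c0, T3.zero_c1, T3.zero_c2,
      T3.C_c0, T3.C_c1, T3.C_c2] <;> ring

theorem F4_W6 (p : Par) (i j : Fin 7) :
    ∑ l, KT p i l * GlT6 p l j = WT6 p i j := by
  simp only [Fin.sum_univ_seven]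
  fin_cases i <;> fin_cases j <;>
    simp only [Fin.mk_one, Fin.zero_eta, Fin.reduceFinMk, F4_K, F4_tGl6, F4_tW6, mul_zero, zero_mul, add_zero, sub_zero, zero_add, zero_sub] <;>
    refine T3.ext ?_ ?_ ?_ <;>
    simp only [T3.add_c0, T3.add_c1, T3.add_c2, T3.sub_c0, T3.sub_c1, T3.sub_c2, T3.neg_c0,
      T3.neg_c1, T3.neg_c2, T3.mul_c0, T3.mul_c1, T3.mul_c2, T3.zero_c0, T3.zero_c1, T3.zero_c2,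
      T3.C_c0, T3.C_c1, T3.C_c2] <;> ring

theorem F4_W2 (p : Par) (i j : Fin 7) : ∑ l, KT p i l * GlT p 2 l j = WT p 2 i j := by
  simp only [F4_T, mul_zero, Finset.sum_const_zero]

theorem F4_Ws (p : Par) (k i j : Fin 7) : ∑ l, KT p i l * GlT p k l j = WT p k i j := by
  fin_cases k
  exacts [F4_W0 p i j, F4_W1 p i j, F4_W2 p i j, F4_W3 p i j, F4_W4 p i j, F4_W5 p i j,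
    F4_W6 p i j]

theorem F4_tV (p : Par) :
    VT p 0 = 0 ∧
    VT p 1 = 0 ∧
    VT p 2 = 0 ∧
    VT p 3 = 0 ∧
    VT p 4 = ⟨0, 0, - (1 / 2) * p.t * p.Z13 - p.t * p.c2 - 2 * p.t * p.b1 * p.b3 + (3 / 2) * p.t * p.a * p.Z13 - p.t * p.s ^ 2 * p.Z13 + p.t * p.a * p.A1 * p.b2 + (1 / 2) * p.t ^ 3 * p.s ^ 2 * p.Z13 + (1 / 2) * p.t ^ 3 * p.s ^ 3 * p.Z13⟩ ∧
    VT p 5 = ⟨- p.t, 0, (1 / 6) * p.t * p.Z33 + (1 / 24) * p.t * p.Z22 + (1 / 24) * p.t * p.Z11 + p.t * p.b3 ^ 2 - (1 / 3) * p.t * p.a * p.Z33 + (1 / 6) * p.t * p.a * p.Z22 + (1 / 6) * p.t * p.a * p.Z11 + (1 / 3) * p.t * p.s ^ 2 * p.Z33 - (1 / 6) * p.t * p.s ^ 2 * p.Z22 - (1 / 6) * p.t * p.s ^ 2 * p.Z11 - (1 / 12) * p.t ^ 3 * p.s ^ 2 * p.Z33 + (1 / 24) * p.t ^ 3 * p.s ^ 2 * p.Z22 + (1 / 24)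 * p.t ^ 3 * p.s ^ 2 * p.Z11 - (1 / 6) * p.t ^ 3 * p.s ^ 3 * p.Z33 + (1 / 12) * p.t ^ 3 * p.s ^ 3 * p.Z22 + (1 / 12) * p.t ^ 3 * p.s ^ 3 * p.Z11⟩ ∧
    VT p 6 = 0 := by
  refine ⟨?_, ?_, ?_, ?_, ?_, ?_, ?_⟩ <;> rfl

theorem F4_Vs (p : Par) (k : Fin 7) : ∑ i, ∑ l, KT p i l * GlT p k i l = VT p k := by
  simp only [Fin.sum_univ_seven]
  fin_cases k <;>
    simp only [Fin.mk_one, Fin.zero_eta, Fin.reduceFinMk, F4_K, F4_T, F4_tV, F4_tGl0, F4_tGl1, F4_tGl3, F4_tGl4, F4_tGl5, F4_tGl6, mul_zero, zero_mul, add_zero, sub_zero, zero_add, zero_sub] <;>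
    refine T3.ext ?_ ?_ ?_ <;>
    simp only [T3.add_c0, T3.add_c1, T3.add_c2, T3.sub_c0, T3.sub_c1, T3.sub_c2, T3.neg_c0,
      T3.neg_c1, T3.neg_c2, T3.mul_c0, T3.mul_c1, T3.mul_c2, T3.zero_c0, T3.zero_c1, T3.zero_c2,
      T3.C_c0, T3.C_c1, T3.C_c2] <;> ring

theorem F4_F2 (p : Par) :
    F2M p 0 0 = 0 ∧
    F2M p 0 1 = 0 ∧
    F2M p 0 2 = 0 ∧
    F2M p 0 3 = 0 ∧
    F2M p 0 4 = 0 ∧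
    F2M p 0 5 = 0 ∧
    F2M p 0 6 = 0 ∧
    F2M p 1 0 = 0 ∧
    F2M p 1 1 = 0 ∧
    F2M p 1 2 = 0 ∧
    F2M p 1 3 = 0 ∧
    F2M p 1 4 = 0 ∧
    F2M p 1 5 = 0 ∧
    F2M p 1 6 = 0 ∧
    F2M p 2 0 = 0 ∧
    F2M p 2 1 = 0 ∧
    F2M p 2 2 = 0 ∧
    F2M p 2 3 = 0 ∧
    F2M p 2 4 = 0 ∧
    F2M p 2 5 = 0 ∧
    F2M p 2 6 = 0 ∧
    F2M p 3 0 = 0 ∧
    F2M p 3 1 = 0 ∧
    F2M p 3 2 = 0 ∧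
    F2M p 3 3 = (-(1 / 2) * p.a * (p.A2 - 4 * p.a * (p.b1 ^ 2 + p.b2 ^ 2))) ∧
    F2M p 3 4 = 0 ∧
    F2M p 3 5 = 0 ∧
    F2M p 3 6 = (p.a / 4 * (4 * p.A1 * p.b2 + 2 * p.a * p.c2 + 4 * p.a * p.b1 * p.b3)) ∧
    F2M p 4 0 = 0 ∧
    F2M p 4 1 = 0 ∧
    F2M p 4 2 = 0 ∧
    F2M p 4 3 = 0 ∧
    F2M p 4 4 = (-(1 / 2) * p.a * (p.A2 - 4 * p.a * (p.b1 ^ 2 + p.b2 ^ 2))) ∧
    F2M p 4 5 = -(p.a / 4 * (4 * p.A1 * p.b2 + 2 * p.a * p.c2 + 4 * p.a * p.b1 * p.b3)) ∧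
    F2M p 4 6 = 0 ∧
    F2M p 5 0 = 0 ∧
    F2M p 5 1 = 0 ∧
    F2M p 5 2 = 0 ∧
    F2M p 5 3 = 0 ∧
    F2M p 5 4 = -(p.a / 4 * (4 * p.A1 * p.b2 + 2 * p.a * p.c2 + 4 * p.a * p.b1 * p.b3)) ∧
    F2M p 5 5 = -((-(1 / 2) * p.a * (p.A2 - 4 * p.a * (p.b1 ^ 2 + p.b2 ^ 2))) / 4) ∧
    F2M p 5 6 = 0 ∧
    F2M p 6 0 = 0 ∧
    F2M p 6 1 = 0 ∧
    F2M p 6 2 = 0 ∧
    F2M p 6 3 = (p.a / 4 * (4 * p.A1 * p.b2 + 2 * p.a * p.c2 + 4 * p.a * p.b1 * p.b3)) ∧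
    F2M p 6 4 = 0 ∧
    F2M p 6 5 = 0 ∧
    F2M p 6 6 = -((-(1 / 2) * p.a * (p.A2 - 4 * p.a * (p.b1 ^ 2 + p.b2 ^ 2))) / 4) := by
  refine ⟨?_, ?_, ?_, ?_, ?_, ?_, ?_, ?_, ?_, ?_, ?_, ?_, ?_, ?_, ?_, ?_, ?_, ?_, ?_, ?_, ?_, ?_, ?_, ?_, ?_, ?_, ?_, ?_, ?_, ?_, ?_, ?_, ?_, ?_, ?_, ?_, ?_, ?_, ?_, ?_, ?_, ?_, ?_, ?_, ?_, ?_, ?_, ?_, ?_⟩ <;> rfl

theorem F4_Ks (p : Par) (i j : Fin 7) : KT p i j = KT p j i := by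
  fin_cases i <;> fin_cases j <;> rfl

theorem F4_Ms (p : Par) (i j : Fin 7) : MJ p i j = MJ p j i := by
  fin_cases i <;> fin_cases j <;> rfl

theorem F4_Hs (p : Par) (i j : Fin 7) : HJ p i j = HJ p j i := by
  fin_cases i <;> fin_cases j <;> rfl

theorem F4_Gs (p : Par) (i j : Fin 7) : GJ p i j = GJ p j i := by
  unfold GJ
  rw [F4_Ms, F4_Hs]

theorem F4_mhs (v g0 g3 g4 g5 g6 h00 h03 h04 h05 h06 h33 h34 h35 h36 h44 h45 h46 h55 h56 h66 : T3)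
    (k l : Fin 7) :
    (mkJ v g0 g3 g4 g5 g6 h00 h03 h04 h05 h06 h33 h34 h35 h36 h44 h45 h46 h55 h56 h66).h k l
      = (mkJ v g0 g3 g4 g5 g6 h00 h03 h04 h05 h06 h33 h34 h35 h36 h44 h45 h46 h55 h56 h66).h l k
    := by
  fin_cases k <;> fin_cases l <;> rfl

theorem F4_Mhs (p : Par) (i j k l : Fin 7) : (MJ p i j).h k l = (MJ p i j).h l k := by
  fin_cases i <;> fin_cases j <;> exact F4_mhs _ _ _ _ _ _ _ _ _ _ _ _ _ _ _ _ _ _ _ _ _ k l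

theorem F4_Hhs (p : Par) (i j k l : Fin 7) : (HJ p i j).h k l = (HJ p i j).h l k := by
  fin_cases i <;> fin_cases j <;> exact F4_mhs _ _ _ _ _ _ _ _ _ _ _ _ _ _ _ _ _ _ _ _ _ k l

theorem F4_Ghs (p : Par) (i j k l : Fin 7) : (GJ p i j).h k l = (GJ p i j).h l k := by
  rw [F4_h, F4_h, F4_Mhs, F4_Hhs]

theorem F4_half : T3.C (1 / 2) + T3.C (1 / 2) = 1 := by
  refine T3.ext ?_ ?_ ?_ <;>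
    simp only [T3.add_c0, T3.add_c1, T3.add_c2, T3.C_c0, T3.C_c1, T3.C_c2, T3.one_c0, T3.one_c1,
      T3.one_c2] <;> norm_num

theorem F4_main (p : Par) (i j : Fin 7) :
    ricJ (T3.C (1 / 2)) (KT p) (fun m i j => (GJ p i j).g m)
      (fun m k i j => (GJ p i j).h m k) i j
      = ∑ k, ∑ l, KT p k l * (T3.C (1 / 2) * ((GJ p k j).h i l + (GJ p i l).h k j - (GJ p i j).h k l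
          - (GJ p k l).h i j))
        + ∑ q, ∑ l, WT p q l j * GuT p q i l - ∑ q, VT p q * GuT p q i j := by
  rw [F4_ric (T3.C (1 / 2)) F4_half (KT p) (fun m i j => (GJ p i j).g m)
    (fun m k i j => (GJ p i j).h m k) (F4_Ks p) (fun m i j => by rw [F4_Gs])
    (fun m k i j => by rw [F4_Gs]) (fun m k i j => F4_Ghs p i j m k) i j]
  simp only [F4_Gls, F4_Gus, F4_Ws, F4_Vs]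

theorem F4_e00 (p : Par) (ht : p.t ^ 2 = 1 - p.a ^ 2) (hs : p.a * p.s = 1 - p.s)
    (h11 : p.Z11 = (2 * p.a * p.b2) ^ 2) (h22 : p.Z22 = (2 * p.a * p.b1) ^ 2)
    (h33 : p.Z33 = p.A1 ^ 2) (h13 : p.Z13 = 2 * p.a * p.b2 * p.A1) :
    ∑ k, ∑ l, KT p k l * (T3.C (1 / 2) * ((GJ p k 0).h 0 l + (GJ p 0 l).h k 0
          - (GJ p 0 0).h k l - (GJ p k l).h 0 0))
        + ∑ q, ∑ l, WT p q l 0 * GuT p q 0 l - ∑ q, VT p q * GuT p q 0 0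
      = ⟨0, 0, F2M p 0 0⟩ := by
  simp only [Fin.sum_univ_seven, F4_K, F4_T, F4_tV, mul_zero, zero_mul, add_zero, sub_zero, zero_add, zero_sub]
  simp only [F4_tW0, F4_tW1, F4_tW3, F4_tW4, F4_tW5, F4_tW6, mul_zero, zero_mul, add_zero, sub_zero, zero_add, zero_sub]
  simp only [F4_tGu0, F4_tGu1, F4_tGu3, F4_tGu4, F4_tGu5, F4_tGu6, mul_zero, zero_mul, add_zero, sub_zero, zero_add, zero_sub]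
  simp only [F4_h, F4_M, F4_H, MJ00, MJ03, MJ04, MJ11, MJ13, MJ14, MJ15, MJ16, MJ22, MJ33, MJ34, MJ35, MJ36, MJ44, MJ45,
      MJ46, MJ55, MJ66, HJ00, HJ11, HJ33, HJ34, HJ35, HJ36, HJ44, HJ45, HJ46, HJ55, HJ56, HJ66, J0, F4_mh, mul_zero, zero_mul, add_zero, sub_zero, zero_add, zero_sub]
  refine T3.ext ?_ ?_ ?_
  · simp only [T3.add_c0, T3.add_c1, T3.add_c2, T3.sub_c0, T3.sub_c1, T3.sub_c2, T3.neg_c0,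
      T3.neg_c1, T3.neg_c2, T3.mul_c0, T3.mul_c1, T3.mul_c2, T3.zero_c0, T3.zero_c1, T3.zero_c2,
      T3.C_c0, T3.C_c1, T3.C_c2]
    ring
  · simp only [T3.add_c0, T3.add_c1, T3.add_c2, T3.sub_c0, T3.sub_c1, T3.sub_c2, T3.neg_c0,
      T3.neg_c1, T3.neg_c2, T3.mul_c0, T3.mul_c1, T3.mul_c2, T3.zero_c0, T3.zero_c1, T3.zero_c2,
      T3.C_c0, T3.C_c1, T3.C_c2]
    ring
  · simp only [T3.add_c0, T3.add_c1, T3.add_c2, T3.sub_c0, T3.sub_c1, T3.sub_c2, T3.neg_c0,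
      T3.neg_c1, T3.neg_c2, T3.mul_c0, T3.mul_c1, T3.mul_c2, T3.zero_c0, T3.zero_c1, T3.zero_c2,
      T3.C_c0, T3.C_c1, T3.C_c2, F4_F2]
    linear_combination (-4 * p.t ^ 2 * p.b2 ^ 2 - p.A1 ^ 2 + 4 * p.b2 ^ 2) * ht
      + (-p.t ^ 2 + 1) * h11
      + (-p.t ^ 2 + 1) * h33

theorem F4_e01 (p : Par) :
    ∑ k, ∑ l, KT p k l * (T3.C (1 / 2) * ((GJ p k 1).h 0 l + (GJ p 0 l).h k 1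
          - (GJ p 0 1).h k l - (GJ p k l).h 0 1))
        + ∑ q, ∑ l, WT p q l 1 * GuT p q 0 l - ∑ q, VT p q * GuT p q 0 1
      = ⟨0, 0, F2M p 0 1⟩ := by
  simp only [Fin.sum_univ_seven, F4_K, F4_T, F4_tV, mul_zero, zero_mul, add_zero, sub_zero, zero_add, zero_sub]
  simp only [F4_tW0, F4_tW1, F4_tW3, F4_tW4, F4_tW5, F4_tW6, mul_zero, zero_mul, add_zero, sub_zero, zero_add, zero_sub]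
  simp only [F4_tGu0, F4_tGu1, F4_tGu3, F4_tGu4, F4_tGu5, F4_tGu6, mul_zero, zero_mul, add_zero, sub_zero, zero_add, zero_sub]
  simp only [F4_h, F4_M, F4_H, MJ00, MJ03, MJ04, MJ11, MJ13, MJ14, MJ15, MJ16, MJ22, MJ33, MJ34, MJ35, MJ36, MJ44, MJ45,
      MJ46, MJ55, MJ66, HJ00, HJ11, HJ33, HJ34, HJ35, HJ36, HJ44, HJ45, HJ46, HJ55, HJ56, HJ66, J0, F4_mh, mul_zero, zero_mul, add_zero, sub_zero, zero_add, zero_sub]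
  refine T3.ext ?_ ?_ ?_ <;>
    simp only [T3.add_c0, T3.add_c1, T3.add_c2, T3.sub_c0, T3.sub_c1, T3.sub_c2, T3.neg_c0,
      T3.neg_c1, T3.neg_c2, T3.mul_c0, T3.mul_c1, T3.mul_c2, T3.zero_c0, T3.zero_c1, T3.zero_c2,
      T3.C_c0, T3.C_c1, T3.C_c2, F4_F2] <;> ring

theorem F4_e02 (p : Par) :
    ∑ k, ∑ l, KT p k l * (T3.C (1 / 2) * ((GJ p k 2).h 0 l + (GJ p 0 l).h k 2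
          - (GJ p 0 2).h k l - (GJ p k l).h 0 2))
        + ∑ q, ∑ l, WT p q l 2 * GuT p q 0 l - ∑ q, VT p q * GuT p q 0 2
      = ⟨0, 0, F2M p 0 2⟩ := by
  simp only [Fin.sum_univ_seven, F4_K, F4_T, F4_tV, mul_zero, zero_mul, add_zero, sub_zero, zero_add, zero_sub]
  simp only [F4_tW0, F4_tW1, F4_tW3, F4_tW4, F4_tW5, F4_tW6, mul_zero, zero_mul, add_zero, sub_zero, zero_add, zero_sub]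
  simp only [F4_tGu0, F4_tGu1, F4_tGu3, F4_tGu4, F4_tGu5, F4_tGu6, mul_zero, zero_mul, add_zero, sub_zero, zero_add, zero_sub]
  simp only [F4_h, F4_M, F4_H, MJ00, MJ03, MJ04, MJ11, MJ13, MJ14, MJ15, MJ16, MJ22, MJ33, MJ34, MJ35, MJ36, MJ44, MJ45,
      MJ46, MJ55, MJ66, HJ00, HJ11, HJ33, HJ34, HJ35, HJ36, HJ44, HJ45, HJ46, HJ55, HJ56, HJ66, J0, F4_mh, mul_zero, zero_mul, add_zero, sub_zero, zero_add, zero_sub]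
  refine T3.ext ?_ ?_ ?_ <;>
    simp only [T3.add_c0, T3.add_c1, T3.add_c2, T3.sub_c0, T3.sub_c1, T3.sub_c2, T3.neg_c0,
      T3.neg_c1, T3.neg_c2, T3.mul_c0, T3.mul_c1, T3.mul_c2, T3.zero_c0, T3.zero_c1, T3.zero_c2,
      T3.C_c0, T3.C_c1, T3.C_c2, F4_F2] <;> ring

theorem F4_e03 (p : Par) :
    ∑ k, ∑ l, KT p k l * (T3.C (1 / 2) * ((GJ p k 3).h 0 l + (GJ p 0 l).h k 3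
          - (GJ p 0 3).h k l - (GJ p k l).h 0 3))
        + ∑ q, ∑ l, WT p q l 3 * GuT p q 0 l - ∑ q, VT p q * GuT p q 0 3
      = ⟨0, 0, F2M p 0 3⟩ := by
  simp only [Fin.sum_univ_seven, F4_K, F4_T, F4_tV, mul_zero, zero_mul, add_zero, sub_zero, zero_add, zero_sub]
  simp only [F4_tW0, F4_tW1, F4_tW3, F4_tW4, F4_tW5, F4_tW6, mul_zero, zero_mul, add_zero, sub_zero, zero_add, zero_sub]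
  simp only [F4_tGu0, F4_tGu1, F4_tGu3, F4_tGu4, F4_tGu5, F4_tGu6, mul_zero, zero_mul, add_zero, sub_zero, zero_add, zero_sub]
  simp only [F4_h, F4_M, F4_H, MJ00, MJ03, MJ04, MJ11, MJ13, MJ14, MJ15, MJ16, MJ22, MJ33, MJ34, MJ35, MJ36, MJ44, MJ45,
      MJ46, MJ55, MJ66, HJ00, HJ11, HJ33, HJ34, HJ35, HJ36, HJ44, HJ45, HJ46, HJ55, HJ56, HJ66, J0, F4_mh, mul_zero, zero_mul, add_zero, sub_zero, zero_add, zero_sub]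
  refine T3.ext ?_ ?_ ?_ <;>
    simp only [T3.add_c0, T3.add_c1, T3.add_c2, T3.sub_c0, T3.sub_c1, T3.sub_c2, T3.neg_c0,
      T3.neg_c1, T3.neg_c2, T3.mul_c0, T3.mul_c1, T3.mul_c2, T3.zero_c0, T3.zero_c1, T3.zero_c2,
      T3.C_c0, T3.C_c1, T3.C_c2, F4_F2] <;> ring

theorem F4_e04 (p : Par) :
    ∑ k, ∑ l, KT p k l * (T3.C (1 / 2) * ((GJ p k 4).h 0 l + (GJ p 0 l).h k 4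
          - (GJ p 0 4).h k l - (GJ p k l).h 0 4))
        + ∑ q, ∑ l, WT p q l 4 * GuT p q 0 l - ∑ q, VT p q * GuT p q 0 4
      = ⟨0, 0, F2M p 0 4⟩ := by
  simp only [Fin.sum_univ_seven, F4_K, F4_T, F4_tV, mul_zero, zero_mul, add_zero, sub_zero, zero_add, zero_sub]
  simp only [F4_tW0, F4_tW1, F4_tW3, F4_tW4, F4_tW5, F4_tW6, mul_zero, zero_mul, add_zero, sub_zero, zero_add, zero_sub]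
  simp only [F4_tGu0, F4_tGu1, F4_tGu3, F4_tGu4, F4_tGu5, F4_tGu6, mul_zero, zero_mul, add_zero, sub_zero, zero_add, zero_sub]
  simp only [F4_h, F4_M, F4_H, MJ00, MJ03, MJ04, MJ11, MJ13, MJ14, MJ15, MJ16, MJ22, MJ33, MJ34, MJ35, MJ36, MJ44, MJ45,
      MJ46, MJ55, MJ66, HJ00, HJ11, HJ33, HJ34, HJ35, HJ36, HJ44, HJ45, HJ46, HJ55, HJ56, HJ66, J0, F4_mh, mul_zero, zero_mul, add_zero, sub_zero, zero_add, zero_sub]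
  refine T3.ext ?_ ?_ ?_ <;>
    simp only [T3.add_c0, T3.add_c1, T3.add_c2, T3.sub_c0, T3.sub_c1, T3.sub_c2, T3.neg_c0,
      T3.neg_c1, T3.neg_c2, T3.mul_c0, T3.mul_c1, T3.mul_c2, T3.zero_c0, T3.zero_c1, T3.zero_c2,
      T3.C_c0, T3.C_c1, T3.C_c2, F4_F2] <;> ring

theorem F4_e05 (p : Par) :
    ∑ k, ∑ l, KT p k l * (T3.C (1 / 2) * ((GJ p k 5).h 0 l + (GJ p 0 l).h k 5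
          - (GJ p 0 5).h k l - (GJ p k l).h 0 5))
        + ∑ q, ∑ l, WT p q l 5 * GuT p q 0 l - ∑ q, VT p q * GuT p q 0 5
      = ⟨0, 0, F2M p 0 5⟩ := by
  simp only [Fin.sum_univ_seven, F4_K, F4_T, F4_tV, mul_zero, zero_mul, add_zero, sub_zero, zero_add, zero_sub]
  simp only [F4_tW0, F4_tW1, F4_tW3, F4_tW4, F4_tW5, F4_tW6, mul_zero, zero_mul, add_zero, sub_zero, zero_add, zero_sub]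
  simp only [F4_tGu0, F4_tGu1, F4_tGu3, F4_tGu4, F4_tGu5, F4_tGu6, mul_zero, zero_mul, add_zero, sub_zero, zero_add, zero_sub]
  simp only [F4_h, F4_M, F4_H, MJ00, MJ03, MJ04, MJ11, MJ13, MJ14, MJ15, MJ16, MJ22, MJ33, MJ34, MJ35, MJ36, MJ44, MJ45,
      MJ46, MJ55, MJ66, HJ00, HJ11, HJ33, HJ34, HJ35, HJ36, HJ44, HJ45, HJ46, HJ55, HJ56, HJ66, J0, F4_mh, mul_zero, zero_mul, add_zero, sub_zero, zero_add, zero_sub]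
  refine T3.ext ?_ ?_ ?_ <;>
    simp only [T3.add_c0, T3.add_c1, T3.add_c2, T3.sub_c0, T3.sub_c1, T3.sub_c2, T3.neg_c0,
      T3.neg_c1, T3.neg_c2, T3.mul_c0, T3.mul_c1, T3.mul_c2, T3.zero_c0, T3.zero_c1, T3.zero_c2,
      T3.C_c0, T3.C_c1, T3.C_c2, F4_F2] <;> ring

theorem F4_e06 (p : Par) :
    ∑ k, ∑ l, KT p k l * (T3.C (1 / 2) * ((GJ p k 6).h 0 l + (GJ p 0 l).h k 6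
          - (GJ p 0 6).h k l - (GJ p k l).h 0 6))
        + ∑ q, ∑ l, WT p q l 6 * GuT p q 0 l - ∑ q, VT p q * GuT p q 0 6
      = ⟨0, 0, F2M p 0 6⟩ := by
  simp only [Fin.sum_univ_seven, F4_K, F4_T, F4_tV, mul_zero, zero_mul, add_zero, sub_zero, zero_add, zero_sub]
  simp only [F4_tW0, F4_tW1, F4_tW3, F4_tW4, F4_tW5, F4_tW6, mul_zero, zero_mul, add_zero, sub_zero, zero_add, zero_sub]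
  simp only [F4_tGu0, F4_tGu1, F4_tGu3, F4_tGu4, F4_tGu5, F4_tGu6, mul_zero, zero_mul, add_zero, sub_zero, zero_add, zero_sub]
  simp only [F4_h, F4_M, F4_H, MJ00, MJ03, MJ04, MJ11, MJ13, MJ14, MJ15, MJ16, MJ22, MJ33, MJ34, MJ35, MJ36, MJ44, MJ45,
      MJ46, MJ55, MJ66, HJ00, HJ11, HJ33, HJ34, HJ35, HJ36, HJ44, HJ45, HJ46, HJ55, HJ56, HJ66, J0, F4_mh, mul_zero, zero_mul, add_zero, sub_zero, zero_add, zero_sub]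
  refine T3.ext ?_ ?_ ?_ <;>
    simp only [T3.add_c0, T3.add_c1, T3.add_c2, T3.sub_c0, T3.sub_c1, T3.sub_c2, T3.neg_c0,
      T3.neg_c1, T3.neg_c2, T3.mul_c0, T3.mul_c1, T3.mul_c2, T3.zero_c0, T3.zero_c1, T3.zero_c2,
      T3.C_c0, T3.C_c1, T3.C_c2, F4_F2] <;> ring

theorem F4_e10 (p : Par) :
    ∑ k, ∑ l, KT p k l * (T3.C (1 / 2) * ((GJ p k 0).h 1 l + (GJ p 1 l).h k 0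
          - (GJ p 1 0).h k l - (GJ p k l).h 1 0))
        + ∑ q, ∑ l, WT p q l 0 * GuT p q 1 l - ∑ q, VT p q * GuT p q 1 0
      = ⟨0, 0, F2M p 1 0⟩ := by
  simp only [Fin.sum_univ_seven, F4_K, F4_T, F4_tV, mul_zero, zero_mul, add_zero, sub_zero, zero_add, zero_sub]
  simp only [F4_tW0, F4_tW1, F4_tW3, F4_tW4, F4_tW5, F4_tW6, mul_zero, zero_mul, add_zero, sub_zero, zero_add, zero_sub]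
  simp only [F4_tGu0, F4_tGu1, F4_tGu3, F4_tGu4, F4_tGu5, F4_tGu6, mul_zero, zero_mul, add_zero, sub_zero, zero_add, zero_sub]
  simp only [F4_h, F4_M, F4_H, MJ00, MJ03, MJ04, MJ11, MJ13, MJ14, MJ15, MJ16, MJ22, MJ33, MJ34, MJ35, MJ36, MJ44, MJ45,
      MJ46, MJ55, MJ66, HJ00, HJ11, HJ33, HJ34, HJ35, HJ36, HJ44, HJ45, HJ46, HJ55, HJ56, HJ66, J0, F4_mh, mul_zero, zero_mul, add_zero, sub_zero, zero_add, zero_sub]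
  refine T3.ext ?_ ?_ ?_ <;>
    simp only [T3.add_c0, T3.add_c1, T3.add_c2, T3.sub_c0, T3.sub_c1, T3.sub_c2, T3.neg_c0,
      T3.neg_c1, T3.neg_c2, T3.mul_c0, T3.mul_c1, T3.mul_c2, T3.zero_c0, T3.zero_c1, T3.zero_c2,
      T3.C_c0, T3.C_c1, T3.C_c2, F4_F2] <;> ring

theorem F4_e11 (p : Par) (ht : p.t ^ 2 = 1 - p.a ^ 2) (hs : p.a * p.s = 1 - p.s)
    (h11 : p.Z11 = (2 * p.a * p.b2) ^ 2) (h22 : p.Z22 = (2 * p.a * p.b1) ^ 2)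
    (h33 : p.Z33 = p.A1 ^ 2) (h13 : p.Z13 = 2 * p.a * p.b2 * p.A1) :
    ∑ k, ∑ l, KT p k l * (T3.C (1 / 2) * ((GJ p k 1).h 1 l + (GJ p 1 l).h k 1
          - (GJ p 1 1).h k l - (GJ p k l).h 1 1))
        + ∑ q, ∑ l, WT p q l 1 * GuT p q 1 l - ∑ q, VT p q * GuT p q 1 1
      = ⟨0, 0, F2M p 1 1⟩ := by
  simp only [Fin.sum_univ_seven, F4_K, F4_T, F4_tV, mul_zero, zero_mul, add_zero, sub_zero, zero_add, zero_sub]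
  simp only [F4_tW0, F4_tW1, F4_tW3, F4_tW4, F4_tW5, F4_tW6, mul_zero, zero_mul, add_zero, sub_zero, zero_add, zero_sub]
  simp only [F4_tGu0, F4_tGu1, F4_tGu3, F4_tGu4, F4_tGu5, F4_tGu6, mul_zero, zero_mul, add_zero, sub_zero, zero_add, zero_sub]
  simp only [F4_h, F4_M, F4_H, MJ00, MJ03, MJ04, MJ11, MJ13, MJ14, MJ15, MJ16, MJ22, MJ33, MJ34, MJ35, MJ36, MJ44, MJ45,
      MJ46, MJ55, MJ66, HJ00, HJ11, HJ33, HJ34, HJ35, HJ36, HJ44, HJ45, HJ46, HJ55, HJ56, HJ66, J0, F4_mh, mul_zero, zero_mul, add_zero, sub_zero, zero_add, zero_sub]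
  refine T3.ext ?_ ?_ ?_
  · simp only [T3.add_c0, T3.add_c1, T3.add_c2, T3.sub_c0, T3.sub_c1, T3.sub_c2, T3.neg_c0,
      T3.neg_c1, T3.neg_c2, T3.mul_c0, T3.mul_c1, T3.mul_c2, T3.zero_c0, T3.zero_c1, T3.zero_c2,
      T3.C_c0, T3.C_c1, T3.C_c2]
    ring
  · simp only [T3.add_c0, T3.add_c1, T3.add_c2, T3.sub_c0, T3.sub_c1, T3.sub_c2, T3.neg_c0,
      T3.neg_c1, T3.neg_c2, T3.mul_c0, T3.mul_c1, T3.mul_c2, T3.zero_c0, T3.zero_c1, T3.zero_c2,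
      T3.C_c0, T3.C_c1, T3.C_c2]
    ring
  · simp only [T3.add_c0, T3.add_c1, T3.add_c2, T3.sub_c0, T3.sub_c1, T3.sub_c2, T3.neg_c0,
      T3.neg_c1, T3.neg_c2, T3.mul_c0, T3.mul_c1, T3.mul_c2, T3.zero_c0, T3.zero_c1, T3.zero_c2,
      T3.C_c0, T3.C_c1, T3.C_c2, F4_F2]
    linear_combination (-4 * p.t ^ 2 * p.b1 ^ 2 + 4 * p.b1 ^ 2) * ht
      + (-p.t ^ 2 + 1) * h22

theorem F4_e12 (p : Par) :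
    ∑ k, ∑ l, KT p k l * (T3.C (1 / 2) * ((GJ p k 2).h 1 l + (GJ p 1 l).h k 2
          - (GJ p 1 2).h k l - (GJ p k l).h 1 2))
        + ∑ q, ∑ l, WT p q l 2 * GuT p q 1 l - ∑ q, VT p q * GuT p q 1 2
      = ⟨0, 0, F2M p 1 2⟩ := by
  simp only [Fin.sum_univ_seven, F4_K, F4_T, F4_tV, mul_zero, zero_mul, add_zero, sub_zero, zero_add, zero_sub]
  simp only [F4_tW0, F4_tW1, F4_tW3, F4_tW4, F4_tW5, F4_tW6, mul_zero, zero_mul, add_zero, sub_zero, zero_add, zero_sub]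
  simp only [F4_tGu0, F4_tGu1, F4_tGu3, F4_tGu4, F4_tGu5, F4_tGu6, mul_zero, zero_mul, add_zero, sub_zero, zero_add, zero_sub]
  simp only [F4_h, F4_M, F4_H, MJ00, MJ03, MJ04, MJ11, MJ13, MJ14, MJ15, MJ16, MJ22, MJ33, MJ34, MJ35, MJ36, MJ44, MJ45,
      MJ46, MJ55, MJ66, HJ00, HJ11, HJ33, HJ34, HJ35, HJ36, HJ44, HJ45, HJ46, HJ55, HJ56, HJ66, J0, F4_mh, mul_zero, zero_mul, add_zero, sub_zero, zero_add, zero_sub]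
  refine T3.ext ?_ ?_ ?_ <;>
    simp only [T3.add_c0, T3.add_c1, T3.add_c2, T3.sub_c0, T3.sub_c1, T3.sub_c2, T3.neg_c0,
      T3.neg_c1, T3.neg_c2, T3.mul_c0, T3.mul_c1, T3.mul_c2, T3.zero_c0, T3.zero_c1, T3.zero_c2,
      T3.C_c0, T3.C_c1, T3.C_c2, F4_F2] <;> ring

theorem F4_e13 (p : Par) :
    ∑ k, ∑ l, KT p k l * (T3.C (1 / 2) * ((GJ p k 3).h 1 l + (GJ p 1 l).h k 3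
          - (GJ p 1 3).h k l - (GJ p k l).h 1 3))
        + ∑ q, ∑ l, WT p q l 3 * GuT p q 1 l - ∑ q, VT p q * GuT p q 1 3
      = ⟨0, 0, F2M p 1 3⟩ := by
  simp only [Fin.sum_univ_seven, F4_K, F4_T, F4_tV, mul_zero, zero_mul, add_zero, sub_zero, zero_add, zero_sub]
  simp only [F4_tW0, F4_tW1, F4_tW3, F4_tW4, F4_tW5, F4_tW6, mul_zero, zero_mul, add_zero, sub_zero, zero_add, zero_sub]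
  simp only [F4_tGu0, F4_tGu1, F4_tGu3, F4_tGu4, F4_tGu5, F4_tGu6, mul_zero, zero_mul, add_zero, sub_zero, zero_add, zero_sub]
  simp only [F4_h, F4_M, F4_H, MJ00, MJ03, MJ04, MJ11, MJ13, MJ14, MJ15, MJ16, MJ22, MJ33, MJ34, MJ35, MJ36, MJ44, MJ45,
      MJ46, MJ55, MJ66, HJ00, HJ11, HJ33, HJ34, HJ35, HJ36, HJ44, HJ45, HJ46, HJ55, HJ56, HJ66, J0, F4_mh, mul_zero, zero_mul, add_zero, sub_zero, zero_add, zero_sub]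
  refine T3.ext ?_ ?_ ?_ <;>
    simp only [T3.add_c0, T3.add_c1, T3.add_c2, T3.sub_c0, T3.sub_c1, T3.sub_c2, T3.neg_c0,
      T3.neg_c1, T3.neg_c2, T3.mul_c0, T3.mul_c1, T3.mul_c2, T3.zero_c0, T3.zero_c1, T3.zero_c2,
      T3.C_c0, T3.C_c1, T3.C_c2, F4_F2] <;> ring

theorem F4_e14 (p : Par) :
    ∑ k, ∑ l, KT p k l * (T3.C (1 / 2) * ((GJ p k 4).h 1 l + (GJ p 1 l).h k 4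
          - (GJ p 1 4).h k l - (GJ p k l).h 1 4))
        + ∑ q, ∑ l, WT p q l 4 * GuT p q 1 l - ∑ q, VT p q * GuT p q 1 4
      = ⟨0, 0, F2M p 1 4⟩ := by
  simp only [Fin.sum_univ_seven, F4_K, F4_T, F4_tV, mul_zero, zero_mul, add_zero, sub_zero, zero_add, zero_sub]
  simp only [F4_tW0, F4_tW1, F4_tW3, F4_tW4, F4_tW5, F4_tW6, mul_zero, zero_mul, add_zero, sub_zero, zero_add, zero_sub]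
  simp only [F4_tGu0, F4_tGu1, F4_tGu3, F4_tGu4, F4_tGu5, F4_tGu6, mul_zero, zero_mul, add_zero, sub_zero, zero_add, zero_sub]
  simp only [F4_h, F4_M, F4_H, MJ00, MJ03, MJ04, MJ11, MJ13, MJ14, MJ15, MJ16, MJ22, MJ33, MJ34, MJ35, MJ36, MJ44, MJ45,
      MJ46, MJ55, MJ66, HJ00, HJ11, HJ33, HJ34, HJ35, HJ36, HJ44, HJ45, HJ46, HJ55, HJ56, HJ66, J0, F4_mh, mul_zero, zero_mul, add_zero, sub_zero, zero_add, zero_sub]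
  refine T3.ext ?_ ?_ ?_ <;>
    simp only [T3.add_c0, T3.add_c1, T3.add_c2, T3.sub_c0, T3.sub_c1, T3.sub_c2, T3.neg_c0,
      T3.neg_c1, T3.neg_c2, T3.mul_c0, T3.mul_c1, T3.mul_c2, T3.zero_c0, T3.zero_c1, T3.zero_c2,
      T3.C_c0, T3.C_c1, T3.C_c2, F4_F2] <;> ring

theorem F4_e15 (p : Par) :
    ∑ k, ∑ l, KT p k l * (T3.C (1 / 2) * ((GJ p k 5).h 1 l + (GJ p 1 l).h k 5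
          - (GJ p 1 5).h k l - (GJ p k l).h 1 5))
        + ∑ q, ∑ l, WT p q l 5 * GuT p q 1 l - ∑ q, VT p q * GuT p q 1 5
      = ⟨0, 0, F2M p 1 5⟩ := by
  simp only [Fin.sum_univ_seven, F4_K, F4_T, F4_tV, mul_zero, zero_mul, add_zero, sub_zero, zero_add, zero_sub]
  simp only [F4_tW0, F4_tW1, F4_tW3, F4_tW4, F4_tW5, F4_tW6, mul_zero, zero_mul, add_zero, sub_zero, zero_add, zero_sub]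
  simp only [F4_tGu0, F4_tGu1, F4_tGu3, F4_tGu4, F4_tGu5, F4_tGu6, mul_zero, zero_mul, add_zero, sub_zero, zero_add, zero_sub]
  simp only [F4_h, F4_M, F4_H, MJ00, MJ03, MJ04, MJ11, MJ13, MJ14, MJ15, MJ16, MJ22, MJ33, MJ34, MJ35, MJ36, MJ44, MJ45,
      MJ46, MJ55, MJ66, HJ00, HJ11, HJ33, HJ34, HJ35, HJ36, HJ44, HJ45, HJ46, HJ55, HJ56, HJ66, J0, F4_mh, mul_zero, zero_mul, add_zero, sub_zero, zero_add, zero_sub]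
  refine T3.ext ?_ ?_ ?_ <;>
    simp only [T3.add_c0, T3.add_c1, T3.add_c2, T3.sub_c0, T3.sub_c1, T3.sub_c2, T3.neg_c0,
      T3.neg_c1, T3.neg_c2, T3.mul_c0, T3.mul_c1, T3.mul_c2, T3.zero_c0, T3.zero_c1, T3.zero_c2,
      T3.C_c0, T3.C_c1, T3.C_c2, F4_F2] <;> ring

theorem F4_e16 (p : Par) :
    ∑ k, ∑ l, KT p k l * (T3.C (1 / 2) * ((GJ p k 6).h 1 l + (GJ p 1 l).h k 6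
          - (GJ p 1 6).h k l - (GJ p k l).h 1 6))
        + ∑ q, ∑ l, WT p q l 6 * GuT p q 1 l - ∑ q, VT p q * GuT p q 1 6
      = ⟨0, 0, F2M p 1 6⟩ := by
  simp only [Fin.sum_univ_seven, F4_K, F4_T, F4_tV, mul_zero, zero_mul, add_zero, sub_zero, zero_add, zero_sub]
  simp only [F4_tW0, F4_tW1, F4_tW3, F4_tW4, F4_tW5, F4_tW6, mul_zero, zero_mul, add_zero, sub_zero, zero_add, zero_sub]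
  simp only [F4_tGu0, F4_tGu1, F4_tGu3, F4_tGu4, F4_tGu5, F4_tGu6, mul_zero, zero_mul, add_zero, sub_zero, zero_add, zero_sub]
  simp only [F4_h, F4_M, F4_H, MJ00, MJ03, MJ04, MJ11, MJ13, MJ14, MJ15, MJ16, MJ22, MJ33, MJ34, MJ35, MJ36, MJ44, MJ45,
      MJ46, MJ55, MJ66, HJ00, HJ11, HJ33, HJ34, HJ35, HJ36, HJ44, HJ45, HJ46, HJ55, HJ56, HJ66, J0, F4_mh, mul_zero, zero_mul, add_zero, sub_zero, zero_add, zero_sub]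
  refine T3.ext ?_ ?_ ?_ <;>
    simp only [T3.add_c0, T3.add_c1, T3.add_c2, T3.sub_c0, T3.sub_c1, T3.sub_c2, T3.neg_c0,
      T3.neg_c1, T3.neg_c2, T3.mul_c0, T3.mul_c1, T3.mul_c2, T3.zero_c0, T3.zero_c1, T3.zero_c2,
      T3.C_c0, T3.C_c1, T3.C_c2, F4_F2] <;> ring

theorem F4_e20 (p : Par) :
    ∑ k, ∑ l, KT p k l * (T3.C (1 / 2) * ((GJ p k 0).h 2 l + (GJ p 2 l).h k 0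
          - (GJ p 2 0).h k l - (GJ p k l).h 2 0))
        + ∑ q, ∑ l, WT p q l 0 * GuT p q 2 l - ∑ q, VT p q * GuT p q 2 0
      = ⟨0, 0, F2M p 2 0⟩ := by
  simp only [Fin.sum_univ_seven, F4_K, F4_T, F4_tV, mul_zero, zero_mul, add_zero, sub_zero, zero_add, zero_sub]
  simp only [F4_tW0, F4_tW1, F4_tW3, F4_tW4, F4_tW5, F4_tW6, mul_zero, zero_mul, add_zero, sub_zero, zero_add, zero_sub]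
  simp only [F4_tGu0, F4_tGu1, F4_tGu3, F4_tGu4, F4_tGu5, F4_tGu6, mul_zero, zero_mul, add_zero, sub_zero, zero_add, zero_sub]
  simp only [F4_h, F4_M, F4_H, MJ00, MJ03, MJ04, MJ11, MJ13, MJ14, MJ15, MJ16, MJ22, MJ33, MJ34, MJ35, MJ36, MJ44, MJ45,
      MJ46, MJ55, MJ66, HJ00, HJ11, HJ33, HJ34, HJ35, HJ36, HJ44, HJ45, HJ46, HJ55, HJ56, HJ66, J0, F4_mh, mul_zero, zero_mul, add_zero, sub_zero, zero_add, zero_sub]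
  refine T3.ext ?_ ?_ ?_ <;>
    simp only [T3.add_c0, T3.add_c1, T3.add_c2, T3.sub_c0, T3.sub_c1, T3.sub_c2, T3.neg_c0,
      T3.neg_c1, T3.neg_c2, T3.mul_c0, T3.mul_c1, T3.mul_c2, T3.zero_c0, T3.zero_c1, T3.zero_c2,
      T3.C_c0, T3.C_c1, T3.C_c2, F4_F2] <;> ring

theorem F4_e21 (p : Par) :
    ∑ k, ∑ l, KT p k l * (T3.C (1 / 2) * ((GJ p k 1).h 2 l + (GJ p 2 l).h k 1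
          - (GJ p 2 1).h k l - (GJ p k l).h 2 1))
        + ∑ q, ∑ l, WT p q l 1 * GuT p q 2 l - ∑ q, VT p q * GuT p q 2 1
      = ⟨0, 0, F2M p 2 1⟩ := by
  simp only [Fin.sum_univ_seven, F4_K, F4_T, F4_tV, mul_zero, zero_mul, add_zero, sub_zero, zero_add, zero_sub]
  simp only [F4_tW0, F4_tW1, F4_tW3, F4_tW4, F4_tW5, F4_tW6, mul_zero, zero_mul, add_zero, sub_zero, zero_add, zero_sub]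
  simp only [F4_tGu0, F4_tGu1, F4_tGu3, F4_tGu4, F4_tGu5, F4_tGu6, mul_zero, zero_mul, add_zero, sub_zero, zero_add, zero_sub]
  simp only [F4_h, F4_M, F4_H, MJ00, MJ03, MJ04, MJ11, MJ13, MJ14, MJ15, MJ16, MJ22, MJ33, MJ34, MJ35, MJ36, MJ44, MJ45,
      MJ46, MJ55, MJ66, HJ00, HJ11, HJ33, HJ34, HJ35, HJ36, HJ44, HJ45, HJ46, HJ55, HJ56, HJ66, J0, F4_mh, mul_zero, zero_mul, add_zero, sub_zero, zero_add, zero_sub]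
  refine T3.ext ?_ ?_ ?_ <;>
    simp only [T3.add_c0, T3.add_c1, T3.add_c2, T3.sub_c0, T3.sub_c1, T3.sub_c2, T3.neg_c0,
      T3.neg_c1, T3.neg_c2, T3.mul_c0, T3.mul_c1, T3.mul_c2, T3.zero_c0, T3.zero_c1, T3.zero_c2,
      T3.C_c0, T3.C_c1, T3.C_c2, F4_F2] <;> ring

theorem F4_e22 (p : Par) :
    ∑ k, ∑ l, KT p k l * (T3.C (1 / 2) * ((GJ p k 2).h 2 l + (GJ p 2 l).h k 2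
          - (GJ p 2 2).h k l - (GJ p k l).h 2 2))
        + ∑ q, ∑ l, WT p q l 2 * GuT p q 2 l - ∑ q, VT p q * GuT p q 2 2
      = ⟨0, 0, F2M p 2 2⟩ := by
  simp only [Fin.sum_univ_seven, F4_K, F4_T, F4_tV, mul_zero, zero_mul, add_zero, sub_zero, zero_add, zero_sub]
  simp only [F4_tW0, F4_tW1, F4_tW3, F4_tW4, F4_tW5, F4_tW6, mul_zero, zero_mul, add_zero, sub_zero, zero_add, zero_sub]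
  simp only [F4_tGu0, F4_tGu1, F4_tGu3, F4_tGu4, F4_tGu5, F4_tGu6, mul_zero, zero_mul, add_zero, sub_zero, zero_add, zero_sub]
  simp only [F4_h, F4_M, F4_H, MJ00, MJ03, MJ04, MJ11, MJ13, MJ14, MJ15, MJ16, MJ22, MJ33, MJ34, MJ35, MJ36, MJ44, MJ45,
      MJ46, MJ55, MJ66, HJ00, HJ11, HJ33, HJ34, HJ35, HJ36, HJ44, HJ45, HJ46, HJ55, HJ56, HJ66, J0, F4_mh, mul_zero, zero_mul, add_zero, sub_zero, zero_add, zero_sub]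
  refine T3.ext ?_ ?_ ?_ <;>
    simp only [T3.add_c0, T3.add_c1, T3.add_c2, T3.sub_c0, T3.sub_c1, T3.sub_c2, T3.neg_c0,
      T3.neg_c1, T3.neg_c2, T3.mul_c0, T3.mul_c1, T3.mul_c2, T3.zero_c0, T3.zero_c1, T3.zero_c2,
      T3.C_c0, T3.C_c1, T3.C_c2, F4_F2] <;> ring

theorem F4_e23 (p : Par) :
    ∑ k, ∑ l, KT p k l * (T3.C (1 / 2) * ((GJ p k 3).h 2 l + (GJ p 2 l).h k 3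
          - (GJ p 2 3).h k l - (GJ p k l).h 2 3))
        + ∑ q, ∑ l, WT p q l 3 * GuT p q 2 l - ∑ q, VT p q * GuT p q 2 3
      = ⟨0, 0, F2M p 2 3⟩ := by
  simp only [Fin.sum_univ_seven, F4_K, F4_T, F4_tV, mul_zero, zero_mul, add_zero, sub_zero, zero_add, zero_sub]
  simp only [F4_tW0, F4_tW1, F4_tW3, F4_tW4, F4_tW5, F4_tW6, mul_zero, zero_mul, add_zero, sub_zero, zero_add, zero_sub]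
  simp only [F4_tGu0, F4_tGu1, F4_tGu3, F4_tGu4, F4_tGu5, F4_tGu6, mul_zero, zero_mul, add_zero, sub_zero, zero_add, zero_sub]
  simp only [F4_h, F4_M, F4_H, MJ00, MJ03, MJ04, MJ11, MJ13, MJ14, MJ15, MJ16, MJ22, MJ33, MJ34, MJ35, MJ36, MJ44, MJ45,
      MJ46, MJ55, MJ66, HJ00, HJ11, HJ33, HJ34, HJ35, HJ36, HJ44, HJ45, HJ46, HJ55, HJ56, HJ66, J0, F4_mh, mul_zero, zero_mul, add_zero, sub_zero, zero_add, zero_sub]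
  refine T3.ext ?_ ?_ ?_ <;>
    simp only [T3.add_c0, T3.add_c1, T3.add_c2, T3.sub_c0, T3.sub_c1, T3.sub_c2, T3.neg_c0,
      T3.neg_c1, T3.neg_c2, T3.mul_c0, T3.mul_c1, T3.mul_c2, T3.zero_c0, T3.zero_c1, T3.zero_c2,
      T3.C_c0, T3.C_c1, T3.C_c2, F4_F2] <;> ring

theorem F4_e24 (p : Par) :
    ∑ k, ∑ l, KT p k l * (T3.C (1 / 2) * ((GJ p k 4).h 2 l + (GJ p 2 l).h k 4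
          - (GJ p 2 4).h k l - (GJ p k l).h 2 4))
        + ∑ q, ∑ l, WT p q l 4 * GuT p q 2 l - ∑ q, VT p q * GuT p q 2 4
      = ⟨0, 0, F2M p 2 4⟩ := by
  simp only [Fin.sum_univ_seven, F4_K, F4_T, F4_tV, mul_zero, zero_mul, add_zero, sub_zero, zero_add, zero_sub]
  simp only [F4_tW0, F4_tW1, F4_tW3, F4_tW4, F4_tW5, F4_tW6, mul_zero, zero_mul, add_zero, sub_zero, zero_add, zero_sub]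
  simp only [F4_tGu0, F4_tGu1, F4_tGu3, F4_tGu4, F4_tGu5, F4_tGu6, mul_zero, zero_mul, add_zero, sub_zero, zero_add, zero_sub]
  simp only [F4_h, F4_M, F4_H, MJ00, MJ03, MJ04, MJ11, MJ13, MJ14, MJ15, MJ16, MJ22, MJ33, MJ34, MJ35, MJ36, MJ44, MJ45,
      MJ46, MJ55, MJ66, HJ00, HJ11, HJ33, HJ34, HJ35, HJ36, HJ44, HJ45, HJ46, HJ55, HJ56, HJ66, J0, F4_mh, mul_zero, zero_mul, add_zero, sub_zero, zero_add, zero_sub]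
  refine T3.ext ?_ ?_ ?_ <;>
    simp only [T3.add_c0, T3.add_c1, T3.add_c2, T3.sub_c0, T3.sub_c1, T3.sub_c2, T3.neg_c0,
      T3.neg_c1, T3.neg_c2, T3.mul_c0, T3.mul_c1, T3.mul_c2, T3.zero_c0, T3.zero_c1, T3.zero_c2,
      T3.C_c0, T3.C_c1, T3.C_c2, F4_F2] <;> ring

theorem F4_e25 (p : Par) :
    ∑ k, ∑ l, KT p k l * (T3.C (1 / 2) * ((GJ p k 5).h 2 l + (GJ p 2 l).h k 5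
          - (GJ p 2 5).h k l - (GJ p k l).h 2 5))
        + ∑ q, ∑ l, WT p q l 5 * GuT p q 2 l - ∑ q, VT p q * GuT p q 2 5
      = ⟨0, 0, F2M p 2 5⟩ := by
  simp only [Fin.sum_univ_seven, F4_K, F4_T, F4_tV, mul_zero, zero_mul, add_zero, sub_zero, zero_add, zero_sub]
  simp only [F4_tW0, F4_tW1, F4_tW3, F4_tW4, F4_tW5, F4_tW6, mul_zero, zero_mul, add_zero, sub_zero, zero_add, zero_sub]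
  simp only [F4_tGu0, F4_tGu1, F4_tGu3, F4_tGu4, F4_tGu5, F4_tGu6, mul_zero, zero_mul, add_zero, sub_zero, zero_add, zero_sub]
  simp only [F4_h, F4_M, F4_H, MJ00, MJ03, MJ04, MJ11, MJ13, MJ14, MJ15, MJ16, MJ22, MJ33, MJ34, MJ35, MJ36, MJ44, MJ45,
      MJ46, MJ55, MJ66, HJ00, HJ11, HJ33, HJ34, HJ35, HJ36, HJ44, HJ45, HJ46, HJ55, HJ56, HJ66, J0, F4_mh, mul_zero, zero_mul, add_zero, sub_zero, zero_add, zero_sub]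
  refine T3.ext ?_ ?_ ?_ <;>
    simp only [T3.add_c0, T3.add_c1, T3.add_c2, T3.sub_c0, T3.sub_c1, T3.sub_c2, T3.neg_c0,
      T3.neg_c1, T3.neg_c2, T3.mul_c0, T3.mul_c1, T3.mul_c2, T3.zero_c0, T3.zero_c1, T3.zero_c2,
      T3.C_c0, T3.C_c1, T3.C_c2, F4_F2] <;> ring

theorem F4_e26 (p : Par) :
    ∑ k, ∑ l, KT p k l * (T3.C (1 / 2) * ((GJ p k 6).h 2 l + (GJ p 2 l).h k 6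
          - (GJ p 2 6).h k l - (GJ p k l).h 2 6))
        + ∑ q, ∑ l, WT p q l 6 * GuT p q 2 l - ∑ q, VT p q * GuT p q 2 6
      = ⟨0, 0, F2M p 2 6⟩ := by
  simp only [Fin.sum_univ_seven, F4_K, F4_T, F4_tV, mul_zero, zero_mul, add_zero, sub_zero, zero_add, zero_sub]
  simp only [F4_tW0, F4_tW1, F4_tW3, F4_tW4, F4_tW5, F4_tW6, mul_zero, zero_mul, add_zero, sub_zero, zero_add, zero_sub]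
  simp only [F4_tGu0, F4_tGu1, F4_tGu3, F4_tGu4, F4_tGu5, F4_tGu6, mul_zero, zero_mul, add_zero, sub_zero, zero_add, zero_sub]
  simp only [F4_h, F4_M, F4_H, MJ00, MJ03, MJ04, MJ11, MJ13, MJ14, MJ15, MJ16, MJ22, MJ33, MJ34, MJ35, MJ36, MJ44, MJ45,
      MJ46, MJ55, MJ66, HJ00, HJ11, HJ33, HJ34, HJ35, HJ36, HJ44, HJ45, HJ46, HJ55, HJ56, HJ66, J0, F4_mh, mul_zero, zero_mul, add_zero, sub_zero, zero_add, zero_sub]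
  refine T3.ext ?_ ?_ ?_ <;>
    simp only [T3.add_c0, T3.add_c1, T3.add_c2, T3.sub_c0, T3.sub_c1, T3.sub_c2, T3.neg_c0,
      T3.neg_c1, T3.neg_c2, T3.mul_c0, T3.mul_c1, T3.mul_c2, T3.zero_c0, T3.zero_c1, T3.zero_c2,
      T3.C_c0, T3.C_c1, T3.C_c2, F4_F2] <;> ring

theorem F4_e30 (p : Par) :
    ∑ k, ∑ l, KT p k l * (T3.C (1 / 2) * ((GJ p k 0).h 3 l + (GJ p 3 l).h k 0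
          - (GJ p 3 0).h k l - (GJ p k l).h 3 0))
        + ∑ q, ∑ l, WT p q l 0 * GuT p q 3 l - ∑ q, VT p q * GuT p q 3 0
      = ⟨0, 0, F2M p 3 0⟩ := by
  simp only [Fin.sum_univ_seven, F4_K, F4_T, F4_tV, mul_zero, zero_mul, add_zero, sub_zero, zero_add, zero_sub]
  simp only [F4_tW0, F4_tW1, F4_tW3, F4_tW4, F4_tW5, F4_tW6, mul_zero, zero_mul, add_zero, sub_zero, zero_add, zero_sub]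
  simp only [F4_tGu0, F4_tGu1, F4_tGu3, F4_tGu4, F4_tGu5, F4_tGu6, mul_zero, zero_mul, add_zero, sub_zero, zero_add, zero_sub]
  simp only [F4_h, F4_M, F4_H, MJ00, MJ03, MJ04, MJ11, MJ13, MJ14, MJ15, MJ16, MJ22, MJ33, MJ34, MJ35, MJ36, MJ44, MJ45,
      MJ46, MJ55, MJ66, HJ00, HJ11, HJ33, HJ34, HJ35, HJ36, HJ44, HJ45, HJ46, HJ55, HJ56, HJ66, J0, F4_mh, mul_zero, zero_mul, add_zero, sub_zero, zero_add, zero_sub]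
  refine T3.ext ?_ ?_ ?_ <;>
    simp only [T3.add_c0, T3.add_c1, T3.add_c2, T3.sub_c0, T3.sub_c1, T3.sub_c2, T3.neg_c0,
      T3.neg_c1, T3.neg_c2, T3.mul_c0, T3.mul_c1, T3.mul_c2, T3.zero_c0, T3.zero_c1, T3.zero_c2,
      T3.C_c0, T3.C_c1, T3.C_c2, F4_F2] <;> ring

theorem F4_e31 (p : Par) :
    ∑ k, ∑ l, KT p k l * (T3.C (1 / 2) * ((GJ p k 1).h 3 l + (GJ p 3 l).h k 1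
          - (GJ p 3 1).h k l - (GJ p k l).h 3 1))
        + ∑ q, ∑ l, WT p q l 1 * GuT p q 3 l - ∑ q, VT p q * GuT p q 3 1
      = ⟨0, 0, F2M p 3 1⟩ := by
  simp only [Fin.sum_univ_seven, F4_K, F4_T, F4_tV, mul_zero, zero_mul, add_zero, sub_zero, zero_add, zero_sub]
  simp only [F4_tW0, F4_tW1, F4_tW3, F4_tW4, F4_tW5, F4_tW6, mul_zero, zero_mul, add_zero, sub_zero, zero_add, zero_sub]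
  simp only [F4_tGu0, F4_tGu1, F4_tGu3, F4_tGu4, F4_tGu5, F4_tGu6, mul_zero, zero_mul, add_zero, sub_zero, zero_add, zero_sub]
  simp only [F4_h, F4_M, F4_H, MJ00, MJ03, MJ04, MJ11, MJ13, MJ14, MJ15, MJ16, MJ22, MJ33, MJ34, MJ35, MJ36, MJ44, MJ45,
      MJ46, MJ55, MJ66, HJ00, HJ11, HJ33, HJ34, HJ35, HJ36, HJ44, HJ45, HJ46, HJ55, HJ56, HJ66, J0, F4_mh, mul_zero, zero_mul, add_zero, sub_zero, zero_add, zero_sub]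
  refine T3.ext ?_ ?_ ?_ <;>
    simp only [T3.add_c0, T3.add_c1, T3.add_c2, T3.sub_c0, T3.sub_c1, T3.sub_c2, T3.neg_c0,
      T3.neg_c1, T3.neg_c2, T3.mul_c0, T3.mul_c1, T3.mul_c2, T3.zero_c0, T3.zero_c1, T3.zero_c2,
      T3.C_c0, T3.C_c1, T3.C_c2, F4_F2] <;> ring

theorem F4_e32 (p : Par) :
    ∑ k, ∑ l, KT p k l * (T3.C (1 / 2) * ((GJ p k 2).h 3 l + (GJ p 3 l).h k 2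
          - (GJ p 3 2).h k l - (GJ p k l).h 3 2))
        + ∑ q, ∑ l, WT p q l 2 * GuT p q 3 l - ∑ q, VT p q * GuT p q 3 2
      = ⟨0, 0, F2M p 3 2⟩ := by
  simp only [Fin.sum_univ_seven, F4_K, F4_T, F4_tV, mul_zero, zero_mul, add_zero, sub_zero, zero_add, zero_sub]
  simp only [F4_tW0, F4_tW1, F4_tW3, F4_tW4, F4_tW5, F4_tW6, mul_zero, zero_mul, add_zero, sub_zero, zero_add, zero_sub]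
  simp only [F4_tGu0, F4_tGu1, F4_tGu3, F4_tGu4, F4_tGu5, F4_tGu6, mul_zero, zero_mul, add_zero, sub_zero, zero_add, zero_sub]
  simp only [F4_h, F4_M, F4_H, MJ00, MJ03, MJ04, MJ11, MJ13, MJ14, MJ15, MJ16, MJ22, MJ33, MJ34, MJ35, MJ36, MJ44, MJ45,
      MJ46, MJ55, MJ66, HJ00, HJ11, HJ33, HJ34, HJ35, HJ36, HJ44, HJ45, HJ46, HJ55, HJ56, HJ66, J0, F4_mh, mul_zero, zero_mul, add_zero, sub_zero, zero_add, zero_sub]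
  refine T3.ext ?_ ?_ ?_ <;>
    simp only [T3.add_c0, T3.add_c1, T3.add_c2, T3.sub_c0, T3.sub_c1, T3.sub_c2, T3.neg_c0,
      T3.neg_c1, T3.neg_c2, T3.mul_c0, T3.mul_c1, T3.mul_c2, T3.zero_c0, T3.zero_c1, T3.zero_c2,
      T3.C_c0, T3.C_c1, T3.C_c2, F4_F2] <;> ring

theorem F4_e33 (p : Par) (ht : p.t ^ 2 = 1 - p.a ^ 2) (hs : p.a * p.s = 1 - p.s)
    (h11 : p.Z11 = (2 * p.a * p.b2) ^ 2) (h22 : p.Z22 = (2 * p.a * p.b1) ^ 2)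
    (h33 : p.Z33 = p.A1 ^ 2) (h13 : p.Z13 = 2 * p.a * p.b2 * p.A1) :
    ∑ k, ∑ l, KT p k l * (T3.C (1 / 2) * ((GJ p k 3).h 3 l + (GJ p 3 l).h k 3
          - (GJ p 3 3).h k l - (GJ p k l).h 3 3))
        + ∑ q, ∑ l, WT p q l 3 * GuT p q 3 l - ∑ q, VT p q * GuT p q 3 3
      = ⟨0, 0, F2M p 3 3⟩ := by
  simp only [Fin.sum_univ_seven, F4_K, F4_T, F4_tV, mul_zero, zero_mul, add_zero, sub_zero, zero_add, zero_sub]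
  simp only [F4_tW0, F4_tW1, F4_tW3, F4_tW4, F4_tW5, F4_tW6, mul_zero, zero_mul, add_zero, sub_zero, zero_add, zero_sub]
  simp only [F4_tGu0, F4_tGu1, F4_tGu3, F4_tGu4, F4_tGu5, F4_tGu6, mul_zero, zero_mul, add_zero, sub_zero, zero_add, zero_sub]
  simp only [F4_h, F4_M, F4_H, MJ00, MJ03, MJ04, MJ11, MJ13, MJ14, MJ15, MJ16, MJ22, MJ33, MJ34, MJ35, MJ36, MJ44, MJ45,
      MJ46, MJ55, MJ66, HJ00, HJ11, HJ33, HJ34, HJ35, HJ36, HJ44, HJ45, HJ46, HJ55, HJ56, HJ66, J0, F4_mh, mul_zero, zero_mul, add_zero, sub_zero, zero_add, zero_sub]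
  refine T3.ext ?_ ?_ ?_
  · simp only [T3.add_c0, T3.add_c1, T3.add_c2, T3.sub_c0, T3.sub_c1, T3.sub_c2, T3.neg_c0,
      T3.neg_c1, T3.neg_c2, T3.mul_c0, T3.mul_c1, T3.mul_c2, T3.zero_c0, T3.zero_c1, T3.zero_c2,
      T3.C_c0, T3.C_c1, T3.C_c2]
    ring
  · simp only [T3.add_c0, T3.add_c1, T3.add_c2, T3.sub_c0, T3.sub_c1, T3.sub_c2, T3.neg_c0,
      T3.neg_c1, T3.neg_c2, T3.mul_c0, T3.mul_c1, T3.mul_c2, T3.zero_c0, T3.zero_c1, T3.zero_c2,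
      T3.C_c0, T3.C_c1, T3.C_c2]
    ring
  · simp only [T3.add_c0, T3.add_c1, T3.add_c2, T3.sub_c0, T3.sub_c1, T3.sub_c2, T3.neg_c0,
      T3.neg_c1, T3.neg_c2, T3.mul_c0, T3.mul_c1, T3.mul_c2, T3.zero_c0, T3.zero_c1, T3.zero_c2,
      T3.C_c0, T3.C_c1, T3.C_c2, F4_F2]
    linear_combination (-6 * p.t ^ 2 * p.a ^ 2 * p.s ^ 4 * p.b1 ^ 2 + 6 * p.t ^ 2 * p.a ^ 2 * p.s ^ 4 * p.b2 ^ 2 - (10 / 3) * p.t ^ 2 * p.a ^ 2 * p.s ^ 3 * p.b1 ^ 2 + (14 / 3) * p.t ^ 2 * p.a ^ 2 * p.s ^ 3 * p.b2 ^ 2 - (5 / 3) * p.t ^ 2 * p.a ^ 2 * p.s ^ 2 * p.b1 ^ 2 + (7 / 3) * p.t ^ 2 * p.a ^ 2 * p.s ^ 2 * p.b2 ^ 2 - (1 / 3) * p.t ^ 2 * p.s ^ 3 * p.A1 ^ 2 - (1 / 6) * p.t ^ 2 * p.s ^ 2 * p.A1 ^ 2 + 2 * p.t ^ 2 * p.b1 ^ 2 - 2 * p.t ^ 2 * p.b2 ^ 2 + 6 * p.a ^ 4 * p.s ^ 4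 * p.b1 ^ 2 - 6 * p.a ^ 4 * p.s ^ 4 * p.b2 ^ 2 + (10 / 3) * p.a ^ 4 * p.s ^ 3 * p.b1 ^ 2 - (14 / 3) * p.a ^ 4 * p.s ^ 3 * p.b2 ^ 2 + (5 / 3) * p.a ^ 4 * p.s ^ 2 * p.b1 ^ 2 - (7 / 3) * p.a ^ 4 * p.s ^ 2 * p.b2 ^ 2 - 6 * p.a ^ 2 * p.s ^ 4 * p.b1 ^ 2 + 6 * p.a ^ 2 * p.s ^ 4 * p.b2 ^ 2 + (1 / 3) * p.a ^ 2 * p.s ^ 3 * p.A1 ^ 2 + (26 / 3) * p.a ^ 2 * p.s ^ 3 * p.b1 ^ 2 - (22 / 3) * p.a ^ 2 * p.s ^ 3 * p.b2 ^ 2 + (1 / 6) * p.a ^ 2 * p.s ^ 2 * p.A1 ^ 2 - p.a ^ 2 * p.s ^ 2 * p.b1 ^ 2 - p.a ^ 2 * p.s ^ 2 * p.b2 ^ 2 - (5 / 3) * p.a ^ 2 * p.b1 ^ 2 + (7 / 3) * p.a ^ 2 * p.b2 ^ 2 - (1 / 3) * p.s ^ 3 * p.A1 ^ 2 + (1 / 2) * p.s ^ 2 * p.A1 ^ 2 + (5 / 6) * p.A1 ^ 2 - 2 * p.b1 ^ 2 - 2 * p.b2 ^ 2) * ht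
      + (-6 * p.a ^ 5 * p.s ^ 3 * p.b1 ^ 2 + 6 * p.a ^ 5 * p.s ^ 3 * p.b2 ^ 2 - (10 / 3) * p.a ^ 5 * p.s ^ 2 * p.b1 ^ 2 + (14 / 3) * p.a ^ 5 * p.s ^ 2 * p.b2 ^ 2 - (5 / 3) * p.a ^ 5 * p.s * p.b1 ^ 2 + (7 / 3) * p.a ^ 5 * p.s * p.b2 ^ 2 + 6 * p.a ^ 4 * p.s ^ 3 * p.b1 ^ 2 - 6 * p.a ^ 4 * p.s ^ 3 * p.b2 ^ 2 - (8 / 3) * p.a ^ 4 * p.s ^ 2 * p.b1 ^ 2 + (4 / 3) * p.a ^ 4 * p.s ^ 2 * p.b2 ^ 2 - (5 / 3) * p.a ^ 4 * p.s * p.b1 ^ 2 + (7 / 3) * p.a ^ 4 * p.s * p.b2 ^ 2 - (5 / 3) * p.a ^ 4 * p.b1 ^ 2 + (7 / 3) * p.a ^ 4 * p.b2 ^ 2 + 6 * p.a ^ 3 * p.s ^ 3 * p.b1 ^ 2 - 6 * p.a ^ 3 * p.s ^ 3 * p.b2 ^ 2 - (1 / 3) * p.a ^ 3 * p.s ^ 2 * p.A1 ^ 2 + (10 / 3) * p.a ^ 3 * p.s ^ 2 * p.b1 ^ 2 - (14 / 3) * p.a ^ 3 * p.s ^ 2 * p.b2 ^ 2 - (1 / 6) * p.a ^ 3 * p.s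 * p.A1 ^ 2 + (5 / 3) * p.a ^ 3 * p.s * p.b1 ^ 2 - (7 / 3) * p.a ^ 3 * p.s * p.b2 ^ 2 - 6 * p.a ^ 2 * p.s ^ 3 * p.b1 ^ 2 + 6 * p.a ^ 2 * p.s ^ 3 * p.b2 ^ 2 + (1 / 3) * p.a ^ 2 * p.s ^ 2 * p.A1 ^ 2 + (8 / 3) * p.a ^ 2 * p.s ^ 2 * p.b1 ^ 2 - (4 / 3) * p.a ^ 2 * p.s ^ 2 * p.b2 ^ 2 - (1 / 6) * p.a ^ 2 * p.s * p.A1 ^ 2 + (5 / 3) * p.a ^ 2 * p.s * p.b1 ^ 2 - (7 / 3) * p.a ^ 2 * p.s * p.b2 ^ 2 - (1 / 6) * p.a ^ 2 * p.A1 ^ 2 + (5 / 3) * p.a ^ 2 * p.b1 ^ 2 - (7 / 3) * p.a ^ 2 * p.b2 ^ 2 + (1 / 3) * p.a * p.s ^ 2 * p.A1 ^ 2 + (1 / 6) * p.a * p.s * p.A1 ^ 2 - (1 / 3) * p.s ^ 2 * p.A1 ^ 2 + (1 / 6) * p.s * p.A1 ^ 2 + (1 / 6) * p.A1 ^ 2) * hs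
      + ((3 / 2) * p.t ^ 4 * p.s ^ 4 + (7 / 6) * p.t ^ 4 * p.s ^ 3 + (7 / 12) * p.t ^ 4 * p.s ^ 2 - 3 * p.t ^ 2 * p.s ^ 3 - (5 / 6) * p.t ^ 2 * p.s ^ 2 + (1 / 12) * p.t ^ 2) * h11
      + (-(3 / 2) * p.t ^ 4 * p.s ^ 4 - (5 / 6) * p.t ^ 4 * p.s ^ 3 - (5 / 12) * p.t ^ 4 * p.s ^ 2 + 3 * p.t ^ 2 * p.s ^ 3 + (1 / 6) * p.t ^ 2 * p.s ^ 2 + (1 / 12) * p.t ^ 2) * h22
      + (-(1 / 3) * p.t ^ 4 * p.s ^ 3 - (1 / 6) * p.t ^ 4 * p.s ^ 2 + (2 / 3) * p.t ^ 2 * p.s ^ 2 + (5 / 6) * p.t ^ 2 - (1 / 2)) * h33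

theorem F4_e34 (p : Par) :
    ∑ k, ∑ l, KT p k l * (T3.C (1 / 2) * ((GJ p k 4).h 3 l + (GJ p 3 l).h k 4
          - (GJ p 3 4).h k l - (GJ p k l).h 3 4))
        + ∑ q, ∑ l, WT p q l 4 * GuT p q 3 l - ∑ q, VT p q * GuT p q 3 4
      = ⟨0, 0, F2M p 3 4⟩ := by
  simp only [Fin.sum_univ_seven, F4_K, F4_T, F4_tV, mul_zero, zero_mul, add_zero, sub_zero, zero_add, zero_sub]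
  simp only [F4_tW0, F4_tW1, F4_tW3, F4_tW4, F4_tW5, F4_tW6, mul_zero, zero_mul, add_zero, sub_zero, zero_add, zero_sub]
  simp only [F4_tGu0, F4_tGu1, F4_tGu3, F4_tGu4, F4_tGu5, F4_tGu6, mul_zero, zero_mul, add_zero, sub_zero, zero_add, zero_sub]
  simp only [F4_h, F4_M, F4_H, MJ00, MJ03, MJ04, MJ11, MJ13, MJ14, MJ15, MJ16, MJ22, MJ33, MJ34, MJ35, MJ36, MJ44, MJ45,
      MJ46, MJ55, MJ66, HJ00, HJ11, HJ33, HJ34, HJ35, HJ36, HJ44, HJ45, HJ46, HJ55, HJ56, HJ66, J0, F4_mh, mul_zero, zero_mul, add_zero, sub_zero, zero_add, zero_sub]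
  refine T3.ext ?_ ?_ ?_ <;>
    simp only [T3.add_c0, T3.add_c1, T3.add_c2, T3.sub_c0, T3.sub_c1, T3.sub_c2, T3.neg_c0,
      T3.neg_c1, T3.neg_c2, T3.mul_c0, T3.mul_c1, T3.mul_c2, T3.zero_c0, T3.zero_c1, T3.zero_c2,
      T3.C_c0, T3.C_c1, T3.C_c2, F4_F2] <;> ring

theorem F4_e35 (p : Par) :
    ∑ k, ∑ l, KT p k l * (T3.C (1 / 2) * ((GJ p k 5).h 3 l + (GJ p 3 l).h k 5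
          - (GJ p 3 5).h k l - (GJ p k l).h 3 5))
        + ∑ q, ∑ l, WT p q l 5 * GuT p q 3 l - ∑ q, VT p q * GuT p q 3 5
      = ⟨0, 0, F2M p 3 5⟩ := by
  simp only [Fin.sum_univ_seven, F4_K, F4_T, F4_tV, mul_zero, zero_mul, add_zero, sub_zero, zero_add, zero_sub]
  simp only [F4_tW0, F4_tW1, F4_tW3, F4_tW4, F4_tW5, F4_tW6, mul_zero, zero_mul, add_zero, sub_zero, zero_add, zero_sub]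
  simp only [F4_tGu0, F4_tGu1, F4_tGu3, F4_tGu4, F4_tGu5, F4_tGu6, mul_zero, zero_mul, add_zero, sub_zero, zero_add, zero_sub]
  simp only [F4_h, F4_M, F4_H, MJ00, MJ03, MJ04, MJ11, MJ13, MJ14, MJ15, MJ16, MJ22, MJ33, MJ34, MJ35, MJ36, MJ44, MJ45,
      MJ46, MJ55, MJ66, HJ00, HJ11, HJ33, HJ34, HJ35, HJ36, HJ44, HJ45, HJ46, HJ55, HJ56, HJ66, J0, F4_mh, mul_zero, zero_mul, add_zero, sub_zero, zero_add, zero_sub]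
  refine T3.ext ?_ ?_ ?_ <;>
    simp only [T3.add_c0, T3.add_c1, T3.add_c2, T3.sub_c0, T3.sub_c1, T3.sub_c2, T3.neg_c0,
      T3.neg_c1, T3.neg_c2, T3.mul_c0, T3.mul_c1, T3.mul_c2, T3.zero_c0, T3.zero_c1, T3.zero_c2,
      T3.C_c0, T3.C_c1, T3.C_c2, F4_F2] <;> ring

theorem F4_e36 (p : Par) (ht : p.t ^ 2 = 1 - p.a ^ 2) (hs : p.a * p.s = 1 - p.s)
    (h11 : p.Z11 = (2 * p.a * p.b2) ^ 2) (h22 : p.Z22 = (2 * p.a * p.b1) ^ 2)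
    (h33 : p.Z33 = p.A1 ^ 2) (h13 : p.Z13 = 2 * p.a * p.b2 * p.A1) :
    ∑ k, ∑ l, KT p k l * (T3.C (1 / 2) * ((GJ p k 6).h 3 l + (GJ p 3 l).h k 6
          - (GJ p 3 6).h k l - (GJ p k l).h 3 6))
        + ∑ q, ∑ l, WT p q l 6 * GuT p q 3 l - ∑ q, VT p q * GuT p q 3 6
      = ⟨0, 0, F2M p 3 6⟩ := by
  simp only [Fin.sum_univ_seven, F4_K, F4_T, F4_tV, mul_zero, zero_mul, add_zero, sub_zero, zero_add, zero_sub]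
  simp only [F4_tW0, F4_tW1, F4_tW3, F4_tW4, F4_tW5, F4_tW6, mul_zero, zero_mul, add_zero, sub_zero, zero_add, zero_sub]
  simp only [F4_tGu0, F4_tGu1, F4_tGu3, F4_tGu4, F4_tGu5, F4_tGu6, mul_zero, zero_mul, add_zero, sub_zero, zero_add, zero_sub]
  simp only [F4_h, F4_M, F4_H, MJ00, MJ03, MJ04, MJ11, MJ13, MJ14, MJ15, MJ16, MJ22, MJ33, MJ34, MJ35, MJ36, MJ44, MJ45,
      MJ46, MJ55, MJ66, HJ00, HJ11, HJ33, HJ34, HJ35, HJ36, HJ44, HJ45, HJ46, HJ55, HJ56, HJ66, J0, F4_mh, mul_zero, zero_mul, add_zero, sub_zero, zero_add, zero_sub]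
  refine T3.ext ?_ ?_ ?_
  · simp only [T3.add_c0, T3.add_c1, T3.add_c2, T3.sub_c0, T3.sub_c1, T3.sub_c2, T3.neg_c0,
      T3.neg_c1, T3.neg_c2, T3.mul_c0, T3.mul_c1, T3.mul_c2, T3.zero_c0, T3.zero_c1, T3.zero_c2,
      T3.C_c0, T3.C_c1, T3.C_c2]
    ring
  · simp only [T3.add_c0, T3.add_c1, T3.add_c2, T3.sub_c0, T3.sub_c1, T3.sub_c2, T3.neg_c0,
      T3.neg_c1, T3.neg_c2, T3.mul_c0, T3.mul_c1, T3.mul_c2, T3.zero_c0, T3.zero_c1, T3.zero_c2,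
      T3.C_c0, T3.C_c1, T3.C_c2]
    ring
  · simp only [T3.add_c0, T3.add_c1, T3.add_c2, T3.sub_c0, T3.sub_c1, T3.sub_c2, T3.neg_c0,
      T3.neg_c1, T3.neg_c2, T3.mul_c0, T3.mul_c1, T3.mul_c2, T3.zero_c0, T3.zero_c1, T3.zero_c2,
      T3.C_c0, T3.C_c1, T3.C_c2, F4_F2]
    linear_combination ((3 / 2) * p.t ^ 2 * p.a * p.s ^ 4 * p.A1 * p.b2 + (3 / 2) * p.t ^ 2 * p.a * p.s ^ 3 * p.A1 * p.b2 + (3 / 4) * p.t ^ 2 * p.a * p.s ^ 2 * p.A1 * p.b2 - (3 / 2) * p.a ^ 3 * p.s ^ 4 * p.A1 * p.b2 - (3 / 2) * p.a ^ 3 * p.s ^ 3 * p.A1 * p.b2 - (3 / 4) * p.a ^ 3 * p.s ^ 2 * p.A1 * p.b2 + (3 / 2) * p.a * p.s ^ 4 * p.A1 * p.b2 - 2 * p.a * p.s ^ 3 * p.A1 * p.b2 - p.a * p.s ^ 2 * p.A1 * p.b2 + (3 / 4) * p.a * p.A1 * p.b2 - p.b1 * p.b3 - (1 / 2) * p.c2) * ht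
      + ((3 / 2) * p.a ^ 4 * p.s ^ 3 * p.A1 * p.b2 + (3 / 2) * p.a ^ 4 * p.s ^ 2 * p.A1 * p.b2 + (3 / 4) * p.a ^ 4 * p.s * p.A1 * p.b2 - (3 / 2) * p.a ^ 3 * p.s ^ 3 * p.A1 * p.b2 + (3 / 4) * p.a ^ 3 * p.s * p.A1 * p.b2 + (3 / 4) * p.a ^ 3 * p.A1 * p.b2 - (3 / 2) * p.a ^ 2 * p.s ^ 3 * p.A1 * p.b2 - p.a ^ 2 * p.s ^ 2 * p.A1 * p.b2 - (1 / 2) * p.a ^ 2 * p.s * p.A1 * p.b2 + (3 / 2) * p.a * p.s ^ 3 * p.A1 * p.b2 - (1 / 2) * p.a * p.s ^ 2 * p.A1 * p.b2 - (1 / 2) * p.a * p.s * p.A1 * p.b2 - (1 / 2) * p.a * p.A1 * p.b2) * hs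
      + ((3 / 4) * p.t ^ 4 * p.s ^ 4 + (3 / 4) * p.t ^ 4 * p.s ^ 3 + (3 / 8) * p.t ^ 4 * p.s ^ 2 - (7 / 4) * p.t ^ 2 * p.s ^ 3 - (7 / 8) * p.t ^ 2 * p.s ^ 2 - (3 / 8) * p.t ^ 2 + (1 / 2) * p.s ^ 2 + (1 / 8)) * h13

theorem F4_e40 (p : Par) :
    ∑ k, ∑ l, KT p k l * (T3.C (1 / 2) * ((GJ p k 0).h 4 l + (GJ p 4 l).h k 0
          - (GJ p 4 0).h k l - (GJ p k l).h 4 0))
        + ∑ q, ∑ l, WT p q l 0 * GuT p q 4 l - ∑ q, VT p q * GuT p q 4 0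
      = ⟨0, 0, F2M p 4 0⟩ := by
  simp only [Fin.sum_univ_seven, F4_K, F4_T, F4_tV, mul_zero, zero_mul, add_zero, sub_zero, zero_add, zero_sub]
  simp only [F4_tW0, F4_tW1, F4_tW3, F4_tW4, F4_tW5, F4_tW6, mul_zero, zero_mul, add_zero, sub_zero, zero_add, zero_sub]
  simp only [F4_tGu0, F4_tGu1, F4_tGu3, F4_tGu4, F4_tGu5, F4_tGu6, mul_zero, zero_mul, add_zero, sub_zero, zero_add, zero_sub]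
  simp only [F4_h, F4_M, F4_H, MJ00, MJ03, MJ04, MJ11, MJ13, MJ14, MJ15, MJ16, MJ22, MJ33, MJ34, MJ35, MJ36, MJ44, MJ45,
      MJ46, MJ55, MJ66, HJ00, HJ11, HJ33, HJ34, HJ35, HJ36, HJ44, HJ45, HJ46, HJ55, HJ56, HJ66, J0, F4_mh, mul_zero, zero_mul, add_zero, sub_zero, zero_add, zero_sub]
  refine T3.ext ?_ ?_ ?_ <;>
    simp only [T3.add_c0, T3.add_c1, T3.add_c2, T3.sub_c0, T3.sub_c1, T3.sub_c2, T3.neg_c0,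
      T3.neg_c1, T3.neg_c2, T3.mul_c0, T3.mul_c1, T3.mul_c2, T3.zero_c0, T3.zero_c1, T3.zero_c2,
      T3.C_c0, T3.C_c1, T3.C_c2, F4_F2] <;> ring

theorem F4_e41 (p : Par) :
    ∑ k, ∑ l, KT p k l * (T3.C (1 / 2) * ((GJ p k 1).h 4 l + (GJ p 4 l).h k 1
          - (GJ p 4 1).h k l - (GJ p k l).h 4 1))
        + ∑ q, ∑ l, WT p q l 1 * GuT p q 4 l - ∑ q, VT p q * GuT p q 4 1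
      = ⟨0, 0, F2M p 4 1⟩ := by
  simp only [Fin.sum_univ_seven, F4_K, F4_T, F4_tV, mul_zero, zero_mul, add_zero, sub_zero, zero_add, zero_sub]
  simp only [F4_tW0, F4_tW1, F4_tW3, F4_tW4, F4_tW5, F4_tW6, mul_zero, zero_mul, add_zero, sub_zero, zero_add, zero_sub]
  simp only [F4_tGu0, F4_tGu1, F4_tGu3, F4_tGu4, F4_tGu5, F4_tGu6, mul_zero, zero_mul, add_zero, sub_zero, zero_add, zero_sub]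
  simp only [F4_h, F4_M, F4_H, MJ00, MJ03, MJ04, MJ11, MJ13, MJ14, MJ15, MJ16, MJ22, MJ33, MJ34, MJ35, MJ36, MJ44, MJ45,
      MJ46, MJ55, MJ66, HJ00, HJ11, HJ33, HJ34, HJ35, HJ36, HJ44, HJ45, HJ46, HJ55, HJ56, HJ66, J0, F4_mh, mul_zero, zero_mul, add_zero, sub_zero, zero_add, zero_sub]
  refine T3.ext ?_ ?_ ?_ <;>
    simp only [T3.add_c0, T3.add_c1, T3.add_c2, T3.sub_c0, T3.sub_c1, T3.sub_c2, T3.neg_c0,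
      T3.neg_c1, T3.neg_c2, T3.mul_c0, T3.mul_c1, T3.mul_c2, T3.zero_c0, T3.zero_c1, T3.zero_c2,
      T3.C_c0, T3.C_c1, T3.C_c2, F4_F2] <;> ring

theorem F4_e42 (p : Par) :
    ∑ k, ∑ l, KT p k l * (T3.C (1 / 2) * ((GJ p k 2).h 4 l + (GJ p 4 l).h k 2
          - (GJ p 4 2).h k l - (GJ p k l).h 4 2))
        + ∑ q, ∑ l, WT p q l 2 * GuT p q 4 l - ∑ q, VT p q * GuT p q 4 2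
      = ⟨0, 0, F2M p 4 2⟩ := by
  simp only [Fin.sum_univ_seven, F4_K, F4_T, F4_tV, mul_zero, zero_mul, add_zero, sub_zero, zero_add, zero_sub]
  simp only [F4_tW0, F4_tW1, F4_tW3, F4_tW4, F4_tW5, F4_tW6, mul_zero, zero_mul, add_zero, sub_zero, zero_add, zero_sub]
  simp only [F4_tGu0, F4_tGu1, F4_tGu3, F4_tGu4, F4_tGu5, F4_tGu6, mul_zero, zero_mul, add_zero, sub_zero, zero_add, zero_sub]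
  simp only [F4_h, F4_M, F4_H, MJ00, MJ03, MJ04, MJ11, MJ13, MJ14, MJ15, MJ16, MJ22, MJ33, MJ34, MJ35, MJ36, MJ44, MJ45,
      MJ46, MJ55, MJ66, HJ00, HJ11, HJ33, HJ34, HJ35, HJ36, HJ44, HJ45, HJ46, HJ55, HJ56, HJ66, J0, F4_mh, mul_zero, zero_mul, add_zero, sub_zero, zero_add, zero_sub]
  refine T3.ext ?_ ?_ ?_ <;>
    simp only [T3.add_c0, T3.add_c1, T3.add_c2, T3.sub_c0, T3.sub_c1, T3.sub_c2, T3.neg_c0,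
      T3.neg_c1, T3.neg_c2, T3.mul_c0, T3.mul_c1, T3.mul_c2, T3.zero_c0, T3.zero_c1, T3.zero_c2,
      T3.C_c0, T3.C_c1, T3.C_c2, F4_F2] <;> ring

theorem F4_e43 (p : Par) :
    ∑ k, ∑ l, KT p k l * (T3.C (1 / 2) * ((GJ p k 3).h 4 l + (GJ p 4 l).h k 3
          - (GJ p 4 3).h k l - (GJ p k l).h 4 3))
        + ∑ q, ∑ l, WT p q l 3 * GuT p q 4 l - ∑ q, VT p q * GuT p q 4 3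
      = ⟨0, 0, F2M p 4 3⟩ := by
  simp only [Fin.sum_univ_seven, F4_K, F4_T, F4_tV, mul_zero, zero_mul, add_zero, sub_zero, zero_add, zero_sub]
  simp only [F4_tW0, F4_tW1, F4_tW3, F4_tW4, F4_tW5, F4_tW6, mul_zero, zero_mul, add_zero, sub_zero, zero_add, zero_sub]
  simp only [F4_tGu0, F4_tGu1, F4_tGu3, F4_tGu4, F4_tGu5, F4_tGu6, mul_zero, zero_mul, add_zero, sub_zero, zero_add, zero_sub]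
  simp only [F4_h, F4_M, F4_H, MJ00, MJ03, MJ04, MJ11, MJ13, MJ14, MJ15, MJ16, MJ22, MJ33, MJ34, MJ35, MJ36, MJ44, MJ45,
      MJ46, MJ55, MJ66, HJ00, HJ11, HJ33, HJ34, HJ35, HJ36, HJ44, HJ45, HJ46, HJ55, HJ56, HJ66, J0, F4_mh, mul_zero, zero_mul, add_zero, sub_zero, zero_add, zero_sub]
  refine T3.ext ?_ ?_ ?_ <;>
    simp only [T3.add_c0, T3.add_c1, T3.add_c2, T3.sub_c0, T3.sub_c1, T3.sub_c2, T3.neg_c0,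
      T3.neg_c1, T3.neg_c2, T3.mul_c0, T3.mul_c1, T3.mul_c2, T3.zero_c0, T3.zero_c1, T3.zero_c2,
      T3.C_c0, T3.C_c1, T3.C_c2, F4_F2] <;> ring

theorem F4_e44 (p : Par) (ht : p.t ^ 2 = 1 - p.a ^ 2) (hs : p.a * p.s = 1 - p.s)
    (h11 : p.Z11 = (2 * p.a * p.b2) ^ 2) (h22 : p.Z22 = (2 * p.a * p.b1) ^ 2)
    (h33 : p.Z33 = p.A1 ^ 2) (h13 : p.Z13 = 2 * p.a * p.b2 * p.A1) :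
    ∑ k, ∑ l, KT p k l * (T3.C (1 / 2) * ((GJ p k 4).h 4 l + (GJ p 4 l).h k 4
          - (GJ p 4 4).h k l - (GJ p k l).h 4 4))
        + ∑ q, ∑ l, WT p q l 4 * GuT p q 4 l - ∑ q, VT p q * GuT p q 4 4
      = ⟨0, 0, F2M p 4 4⟩ := by
  simp only [Fin.sum_univ_seven, F4_K, F4_T, F4_tV, mul_zero, zero_mul, add_zero, sub_zero, zero_add, zero_sub]
  simp only [F4_tW0, F4_tW1, F4_tW3, F4_tW4, F4_tW5, F4_tW6, mul_zero, zero_mul, add_zero, sub_zero, zero_add, zero_sub]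
  simp only [F4_tGu0, F4_tGu1, F4_tGu3, F4_tGu4, F4_tGu5, F4_tGu6, mul_zero, zero_mul, add_zero, sub_zero, zero_add, zero_sub]
  simp only [F4_h, F4_M, F4_H, MJ00, MJ03, MJ04, MJ11, MJ13, MJ14, MJ15, MJ16, MJ22, MJ33, MJ34, MJ35, MJ36, MJ44, MJ45,
      MJ46, MJ55, MJ66, HJ00, HJ11, HJ33, HJ34, HJ35, HJ36, HJ44, HJ45, HJ46, HJ55, HJ56, HJ66, J0, F4_mh, mul_zero, zero_mul, add_zero, sub_zero, zero_add, zero_sub]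
  refine T3.ext ?_ ?_ ?_
  · simp only [T3.add_c0, T3.add_c1, T3.add_c2, T3.sub_c0, T3.sub_c1, T3.sub_c2, T3.neg_c0,
      T3.neg_c1, T3.neg_c2, T3.mul_c0, T3.mul_c1, T3.mul_c2, T3.zero_c0, T3.zero_c1, T3.zero_c2,
      T3.C_c0, T3.C_c1, T3.C_c2]
    ring
  · simp only [T3.add_c0, T3.add_c1, T3.add_c2, T3.sub_c0, T3.sub_c1, T3.sub_c2, T3.neg_c0,
      T3.neg_c1, T3.neg_c2, T3.mul_c0, T3.mul_c1, T3.mul_c2, T3.zero_c0, T3.zero_c1, T3.zero_c2,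
      T3.C_c0, T3.C_c1, T3.C_c2]
    ring
  · simp only [T3.add_c0, T3.add_c1, T3.add_c2, T3.sub_c0, T3.sub_c1, T3.sub_c2, T3.neg_c0,
      T3.neg_c1, T3.neg_c2, T3.mul_c0, T3.mul_c1, T3.mul_c2, T3.zero_c0, T3.zero_c1, T3.zero_c2,
      T3.C_c0, T3.C_c1, T3.C_c2, F4_F2]
    linear_combination (6 * p.t ^ 2 * p.a ^ 2 * p.s ^ 4 * p.b1 ^ 2 - 6 * p.t ^ 2 * p.a ^ 2 * p.s ^ 4 * p.b2 ^ 2 + (14 / 3) * p.t ^ 2 * p.a ^ 2 * p.s ^ 3 * p.b1 ^ 2 - (10 / 3) * p.t ^ 2 * p.a ^ 2 * p.s ^ 3 * p.b2 ^ 2 + (7 / 3) * p.t ^ 2 * p.a ^ 2 * p.s ^ 2 * p.b1 ^ 2 - (5 / 3) * p.t ^ 2 * p.a ^ 2 * p.s ^ 2 * p.b2 ^ 2 - (1 / 3) * p.t ^ 2 * p.s ^ 3 * p.A1 ^ 2 - (1 / 6) * p.t ^ 2 * p.s ^ 2 * p.A1 ^ 2 - 2 * p.t ^ 2 * p.b1 ^ 2 + 2 * p.t ^ 2 * p.b2 ^ 2 - 6 * p.a ^ 4 * p.s ^ 4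 * p.b1 ^ 2 + 6 * p.a ^ 4 * p.s ^ 4 * p.b2 ^ 2 - (14 / 3) * p.a ^ 4 * p.s ^ 3 * p.b1 ^ 2 + (10 / 3) * p.a ^ 4 * p.s ^ 3 * p.b2 ^ 2 - (7 / 3) * p.a ^ 4 * p.s ^ 2 * p.b1 ^ 2 + (5 / 3) * p.a ^ 4 * p.s ^ 2 * p.b2 ^ 2 + 6 * p.a ^ 2 * p.s ^ 4 * p.b1 ^ 2 - 6 * p.a ^ 2 * p.s ^ 4 * p.b2 ^ 2 + (1 / 3) * p.a ^ 2 * p.s ^ 3 * p.A1 ^ 2 - (22 / 3) * p.a ^ 2 * p.s ^ 3 * p.b1 ^ 2 + (26 / 3) * p.a ^ 2 * p.s ^ 3 * p.b2 ^ 2 + (1 / 6) * p.a ^ 2 * p.s ^ 2 * p.A1 ^ 2 - p.a ^ 2 * p.s ^ 2 * p.b1 ^ 2 - p.a ^ 2 * p.s ^ 2 * p.b2 ^ 2 + (7 / 3) * p.a ^ 2 * p.b1 ^ 2 - (5 / 3) * p.a ^ 2 * p.b2 ^ 2 - (1 / 3) * p.s ^ 3 * p.A1 ^ 2 + (1 / 2) * p.s ^ 2 * p.A1 ^ 2 + (5 / 6) * p.A1 ^ 2 - 2 * p.b1 ^ 2 - 2 * p.b2 ^ 2) * ht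
      + (6 * p.a ^ 5 * p.s ^ 3 * p.b1 ^ 2 - 6 * p.a ^ 5 * p.s ^ 3 * p.b2 ^ 2 + (14 / 3) * p.a ^ 5 * p.s ^ 2 * p.b1 ^ 2 - (10 / 3) * p.a ^ 5 * p.s ^ 2 * p.b2 ^ 2 + (7 / 3) * p.a ^ 5 * p.s * p.b1 ^ 2 - (5 / 3) * p.a ^ 5 * p.s * p.b2 ^ 2 - 6 * p.a ^ 4 * p.s ^ 3 * p.b1 ^ 2 + 6 * p.a ^ 4 * p.s ^ 3 * p.b2 ^ 2 + (4 / 3) * p.a ^ 4 * p.s ^ 2 * p.b1 ^ 2 - (8 / 3) * p.a ^ 4 * p.s ^ 2 * p.b2 ^ 2 + (7 / 3) * p.a ^ 4 * p.s * p.b1 ^ 2 - (5 / 3) * p.a ^ 4 * p.s * p.b2 ^ 2 + (7 / 3) * p.a ^ 4 * p.b1 ^ 2 - (5 / 3) * p.a ^ 4 * p.b2 ^ 2 - 6 * p.a ^ 3 * p.s ^ 3 * p.b1 ^ 2 + 6 * p.a ^ 3 * p.s ^ 3 * p.b2 ^ 2 - (1 / 3) * p.a ^ 3 * p.s ^ 2 * p.A1 ^ 2 - (14 / 3) * p.a ^ 3 * p.s ^ 2 * p.b1 ^ 2 + (10 / 3) * p.a ^ 3 * p.s ^ 2 * p.b2 ^ 2 - (1 / 6) * p.a ^ 3 * p.s *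 p.A1 ^ 2 - (7 / 3) * p.a ^ 3 * p.s * p.b1 ^ 2 + (5 / 3) * p.a ^ 3 * p.s * p.b2 ^ 2 + 6 * p.a ^ 2 * p.s ^ 3 * p.b1 ^ 2 - 6 * p.a ^ 2 * p.s ^ 3 * p.b2 ^ 2 + (1 / 3) * p.a ^ 2 * p.s ^ 2 * p.A1 ^ 2 - (4 / 3) * p.a ^ 2 * p.s ^ 2 * p.b1 ^ 2 + (8 / 3) * p.a ^ 2 * p.s ^ 2 * p.b2 ^ 2 - (1 / 6) * p.a ^ 2 * p.s * p.A1 ^ 2 - (7 / 3) * p.a ^ 2 * p.s * p.b1 ^ 2 + (5 / 3) * p.a ^ 2 * p.s * p.b2 ^ 2 - (1 / 6) * p.a ^ 2 * p.A1 ^ 2 - (7 / 3) * p.a ^ 2 * p.b1 ^ 2 + (5 / 3) * p.a ^ 2 * p.b2 ^ 2 + (1 / 3) * p.a * p.s ^ 2 * p.A1 ^ 2 + (1 / 6) * p.a * p.s * p.A1 ^ 2 - (1 / 3) * p.s ^ 2 * p.A1 ^ 2 + (1 / 6) * p.s * p.A1 ^ 2 + (1 / 6) * p.A1 ^ 2) * hs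
      + (-(3 / 2) * p.t ^ 4 * p.s ^ 4 - (5 / 6) * p.t ^ 4 * p.s ^ 3 - (5 / 12) * p.t ^ 4 * p.s ^ 2 + 3 * p.t ^ 2 * p.s ^ 3 + (1 / 6) * p.t ^ 2 * p.s ^ 2 + (1 / 12) * p.t ^ 2) * h11
      + ((3 / 2) * p.t ^ 4 * p.s ^ 4 + (7 / 6) * p.t ^ 4 * p.s ^ 3 + (7 / 12) * p.t ^ 4 * p.s ^ 2 - 3 * p.t ^ 2 * p.s ^ 3 - (5 / 6) * p.t ^ 2 * p.s ^ 2 + (1 / 12) * p.t ^ 2) * h22
      + (-(1 / 3) * p.t ^ 4 * p.s ^ 3 - (1 / 6) * p.t ^ 4 * p.s ^ 2 + (2 / 3) * p.t ^ 2 * p.s ^ 2 + (5 / 6) * p.t ^ 2 - (1 / 2)) * h33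

theorem F4_e45 (p : Par) (ht : p.t ^ 2 = 1 - p.a ^ 2) (hs : p.a * p.s = 1 - p.s)
    (h11 : p.Z11 = (2 * p.a * p.b2) ^ 2) (h22 : p.Z22 = (2 * p.a * p.b1) ^ 2)
    (h33 : p.Z33 = p.A1 ^ 2) (h13 : p.Z13 = 2 * p.a * p.b2 * p.A1) :
    ∑ k, ∑ l, KT p k l * (T3.C (1 / 2) * ((GJ p k 5).h 4 l + (GJ p 4 l).h k 5
          - (GJ p 4 5).h k l - (GJ p k l).h 4 5))
        + ∑ q, ∑ l, WT p q l 5 * GuT p q 4 l - ∑ q, VT p q * GuT p q 4 5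
      = ⟨0, 0, F2M p 4 5⟩ := by
  simp only [Fin.sum_univ_seven, F4_K, F4_T, F4_tV, mul_zero, zero_mul, add_zero, sub_zero, zero_add, zero_sub]
  simp only [F4_tW0, F4_tW1, F4_tW3, F4_tW4, F4_tW5, F4_tW6, mul_zero, zero_mul, add_zero, sub_zero, zero_add, zero_sub]
  simp only [F4_tGu0, F4_tGu1, F4_tGu3, F4_tGu4, F4_tGu5, F4_tGu6, mul_zero, zero_mul, add_zero, sub_zero, zero_add, zero_sub]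
  simp only [F4_h, F4_M, F4_H, MJ00, MJ03, MJ04, MJ11, MJ13, MJ14, MJ15, MJ16, MJ22, MJ33, MJ34, MJ35, MJ36, MJ44, MJ45,
      MJ46, MJ55, MJ66, HJ00, HJ11, HJ33, HJ34, HJ35, HJ36, HJ44, HJ45, HJ46, HJ55, HJ56, HJ66, J0, F4_mh, mul_zero, zero_mul, add_zero, sub_zero, zero_add, zero_sub]
  refine T3.ext ?_ ?_ ?_
  · simp only [T3.add_c0, T3.add_c1, T3.add_c2, T3.sub_c0, T3.sub_c1, T3.sub_c2, T3.neg_c0,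
      T3.neg_c1, T3.neg_c2, T3.mul_c0, T3.mul_c1, T3.mul_c2, T3.zero_c0, T3.zero_c1, T3.zero_c2,
      T3.C_c0, T3.C_c1, T3.C_c2]
    ring
  · simp only [T3.add_c0, T3.add_c1, T3.add_c2, T3.sub_c0, T3.sub_c1, T3.sub_c2, T3.neg_c0,
      T3.neg_c1, T3.neg_c2, T3.mul_c0, T3.mul_c1, T3.mul_c2, T3.zero_c0, T3.zero_c1, T3.zero_c2,
      T3.C_c0, T3.C_c1, T3.C_c2]
    ring
  · simp only [T3.add_c0, T3.add_c1, T3.add_c2, T3.sub_c0, T3.sub_c1, T3.sub_c2, T3.neg_c0,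
      T3.neg_c1, T3.neg_c2, T3.mul_c0, T3.mul_c1, T3.mul_c2, T3.zero_c0, T3.zero_c1, T3.zero_c2,
      T3.C_c0, T3.C_c1, T3.C_c2, F4_F2]
    linear_combination (-(1 / 2) * p.t ^ 2 * p.a * p.s ^ 3 * p.A1 * p.b2 - (1 / 4) * p.t ^ 2 * p.a * p.s ^ 2 * p.A1 * p.b2 + (1 / 2) * p.a ^ 3 * p.s ^ 3 * p.A1 * p.b2 + (1 / 4) * p.a ^ 3 * p.s ^ 2 * p.A1 * p.b2 + p.a * p.s ^ 2 * p.A1 * p.b2 - (1 / 4) * p.a * p.A1 * p.b2 + p.b1 * p.b3 + (1 / 2) * p.c2) * ht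
      + (-(1 / 2) * p.a ^ 4 * p.s ^ 2 * p.A1 * p.b2 - (1 / 4) * p.a ^ 4 * p.s * p.A1 * p.b2 + (1 / 2) * p.a ^ 3 * p.s ^ 2 * p.A1 * p.b2 - (1 / 4) * p.a ^ 3 * p.s * p.A1 * p.b2 - (1 / 4) * p.a ^ 3 * p.A1 * p.b2) * hs
      + (-(1 / 4) * p.t ^ 4 * p.s ^ 3 - (1 / 8) * p.t ^ 4 * p.s ^ 2 + (1 / 4) * p.t ^ 2 * p.s ^ 3 + (5 / 8) * p.t ^ 2 * p.s ^ 2 + (1 / 8) * p.t ^ 2 - (1 / 2) * p.s ^ 2 - (1 / 8)) * h13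

theorem F4_e46 (p : Par) :
    ∑ k, ∑ l, KT p k l * (T3.C (1 / 2) * ((GJ p k 6).h 4 l + (GJ p 4 l).h k 6
          - (GJ p 4 6).h k l - (GJ p k l).h 4 6))
        + ∑ q, ∑ l, WT p q l 6 * GuT p q 4 l - ∑ q, VT p q * GuT p q 4 6
      = ⟨0, 0, F2M p 4 6⟩ := by
  simp only [Fin.sum_univ_seven, F4_K, F4_T, F4_tV, mul_zero, zero_mul, add_zero, sub_zero, zero_add, zero_sub]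
  simp only [F4_tW0, F4_tW1, F4_tW3, F4_tW4, F4_tW5, F4_tW6, mul_zero, zero_mul, add_zero, sub_zero, zero_add, zero_sub]
  simp only [F4_tGu0, F4_tGu1, F4_tGu3, F4_tGu4, F4_tGu5, F4_tGu6, mul_zero, zero_mul, add_zero, sub_zero, zero_add, zero_sub]
  simp only [F4_h, F4_M, F4_H, MJ00, MJ03, MJ04, MJ11, MJ13, MJ14, MJ15, MJ16, MJ22, MJ33, MJ34, MJ35, MJ36, MJ44, MJ45,
      MJ46, MJ55, MJ66, HJ00, HJ11, HJ33, HJ34, HJ35, HJ36, HJ44, HJ45, HJ46, HJ55, HJ56, HJ66, J0, F4_mh, mul_zero, zero_mul, add_zero, sub_zero, zero_add, zero_sub]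
  refine T3.ext ?_ ?_ ?_ <;>
    simp only [T3.add_c0, T3.add_c1, T3.add_c2, T3.sub_c0, T3.sub_c1, T3.sub_c2, T3.neg_c0,
      T3.neg_c1, T3.neg_c2, T3.mul_c0, T3.mul_c1, T3.mul_c2, T3.zero_c0, T3.zero_c1, T3.zero_c2,
      T3.C_c0, T3.C_c1, T3.C_c2, F4_F2] <;> ring

theorem F4_e50 (p : Par) :
    ∑ k, ∑ l, KT p k l * (T3.C (1 / 2) * ((GJ p k 0).h 5 l + (GJ p 5 l).h k 0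
          - (GJ p 5 0).h k l - (GJ p k l).h 5 0))
        + ∑ q, ∑ l, WT p q l 0 * GuT p q 5 l - ∑ q, VT p q * GuT p q 5 0
      = ⟨0, 0, F2M p 5 0⟩ := by
  simp only [Fin.sum_univ_seven, F4_K, F4_T, F4_tV, mul_zero, zero_mul, add_zero, sub_zero, zero_add, zero_sub]
  simp only [F4_tW0, F4_tW1, F4_tW3, F4_tW4, F4_tW5, F4_tW6, mul_zero, zero_mul, add_zero, sub_zero, zero_add, zero_sub]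
  simp only [F4_tGu0, F4_tGu1, F4_tGu3, F4_tGu4, F4_tGu5, F4_tGu6, mul_zero, zero_mul, add_zero, sub_zero, zero_add, zero_sub]
  simp only [F4_h, F4_M, F4_H, MJ00, MJ03, MJ04, MJ11, MJ13, MJ14, MJ15, MJ16, MJ22, MJ33, MJ34, MJ35, MJ36, MJ44, MJ45,
      MJ46, MJ55, MJ66, HJ00, HJ11, HJ33, HJ34, HJ35, HJ36, HJ44, HJ45, HJ46, HJ55, HJ56, HJ66, J0, F4_mh, mul_zero, zero_mul, add_zero, sub_zero, zero_add, zero_sub]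
  refine T3.ext ?_ ?_ ?_ <;>
    simp only [T3.add_c0, T3.add_c1, T3.add_c2, T3.sub_c0, T3.sub_c1, T3.sub_c2, T3.neg_c0,
      T3.neg_c1, T3.neg_c2, T3.mul_c0, T3.mul_c1, T3.mul_c2, T3.zero_c0, T3.zero_c1, T3.zero_c2,
      T3.C_c0, T3.C_c1, T3.C_c2, F4_F2] <;> ring

theorem F4_e51 (p : Par) :
    ∑ k, ∑ l, KT p k l * (T3.C (1 / 2) * ((GJ p k 1).h 5 l + (GJ p 5 l).h k 1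
          - (GJ p 5 1).h k l - (GJ p k l).h 5 1))
        + ∑ q, ∑ l, WT p q l 1 * GuT p q 5 l - ∑ q, VT p q * GuT p q 5 1
      = ⟨0, 0, F2M p 5 1⟩ := by
  simp only [Fin.sum_univ_seven, F4_K, F4_T, F4_tV, mul_zero, zero_mul, add_zero, sub_zero, zero_add, zero_sub]
  simp only [F4_tW0, F4_tW1, F4_tW3, F4_tW4, F4_tW5, F4_tW6, mul_zero, zero_mul, add_zero, sub_zero, zero_add, zero_sub]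
  simp only [F4_tGu0, F4_tGu1, F4_tGu3, F4_tGu4, F4_tGu5, F4_tGu6, mul_zero, zero_mul, add_zero, sub_zero, zero_add, zero_sub]
  simp only [F4_h, F4_M, F4_H, MJ00, MJ03, MJ04, MJ11, MJ13, MJ14, MJ15, MJ16, MJ22, MJ33, MJ34, MJ35, MJ36, MJ44, MJ45,
      MJ46, MJ55, MJ66, HJ00, HJ11, HJ33, HJ34, HJ35, HJ36, HJ44, HJ45, HJ46, HJ55, HJ56, HJ66, J0, F4_mh, mul_zero, zero_mul, add_zero, sub_zero, zero_add, zero_sub]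
  refine T3.ext ?_ ?_ ?_ <;>
    simp only [T3.add_c0, T3.add_c1, T3.add_c2, T3.sub_c0, T3.sub_c1, T3.sub_c2, T3.neg_c0,
      T3.neg_c1, T3.neg_c2, T3.mul_c0, T3.mul_c1, T3.mul_c2, T3.zero_c0, T3.zero_c1, T3.zero_c2,
      T3.C_c0, T3.C_c1, T3.C_c2, F4_F2] <;> ring

theorem F4_e52 (p : Par) :
    ∑ k, ∑ l, KT p k l * (T3.C (1 / 2) * ((GJ p k 2).h 5 l + (GJ p 5 l).h k 2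
          - (GJ p 5 2).h k l - (GJ p k l).h 5 2))
        + ∑ q, ∑ l, WT p q l 2 * GuT p q 5 l - ∑ q, VT p q * GuT p q 5 2
      = ⟨0, 0, F2M p 5 2⟩ := by
  simp only [Fin.sum_univ_seven, F4_K, F4_T, F4_tV, mul_zero, zero_mul, add_zero, sub_zero, zero_add, zero_sub]
  simp only [F4_tW0, F4_tW1, F4_tW3, F4_tW4, F4_tW5, F4_tW6, mul_zero, zero_mul, add_zero, sub_zero, zero_add, zero_sub]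
  simp only [F4_tGu0, F4_tGu1, F4_tGu3, F4_tGu4, F4_tGu5, F4_tGu6, mul_zero, zero_mul, add_zero, sub_zero, zero_add, zero_sub]
  simp only [F4_h, F4_M, F4_H, MJ00, MJ03, MJ04, MJ11, MJ13, MJ14, MJ15, MJ16, MJ22, MJ33, MJ34, MJ35, MJ36, MJ44, MJ45,
      MJ46, MJ55, MJ66, HJ00, HJ11, HJ33, HJ34, HJ35, HJ36, HJ44, HJ45, HJ46, HJ55, HJ56, HJ66, J0, F4_mh, mul_zero, zero_mul, add_zero, sub_zero, zero_add, zero_sub]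
  refine T3.ext ?_ ?_ ?_ <;>
    simp only [T3.add_c0, T3.add_c1, T3.add_c2, T3.sub_c0, T3.sub_c1, T3.sub_c2, T3.neg_c0,
      T3.neg_c1, T3.neg_c2, T3.mul_c0, T3.mul_c1, T3.mul_c2, T3.zero_c0, T3.zero_c1, T3.zero_c2,
      T3.C_c0, T3.C_c1, T3.C_c2, F4_F2] <;> ring

theorem F4_e53 (p : Par) :
    ∑ k, ∑ l, KT p k l * (T3.C (1 / 2) * ((GJ p k 3).h 5 l + (GJ p 5 l).h k 3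
          - (GJ p 5 3).h k l - (GJ p k l).h 5 3))
        + ∑ q, ∑ l, WT p q l 3 * GuT p q 5 l - ∑ q, VT p q * GuT p q 5 3
      = ⟨0, 0, F2M p 5 3⟩ := by
  simp only [Fin.sum_univ_seven, F4_K, F4_T, F4_tV, mul_zero, zero_mul, add_zero, sub_zero, zero_add, zero_sub]
  simp only [F4_tW0, F4_tW1, F4_tW3, F4_tW4, F4_tW5, F4_tW6, mul_zero, zero_mul, add_zero, sub_zero, zero_add, zero_sub]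
  simp only [F4_tGu0, F4_tGu1, F4_tGu3, F4_tGu4, F4_tGu5, F4_tGu6, mul_zero, zero_mul, add_zero, sub_zero, zero_add, zero_sub]
  simp only [F4_h, F4_M, F4_H, MJ00, MJ03, MJ04, MJ11, MJ13, MJ14, MJ15, MJ16, MJ22, MJ33, MJ34, MJ35, MJ36, MJ44, MJ45,
      MJ46, MJ55, MJ66, HJ00, HJ11, HJ33, HJ34, HJ35, HJ36, HJ44, HJ45, HJ46, HJ55, HJ56, HJ66, J0, F4_mh, mul_zero, zero_mul, add_zero, sub_zero, zero_add, zero_sub]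
  refine T3.ext ?_ ?_ ?_ <;>
    simp only [T3.add_c0, T3.add_c1, T3.add_c2, T3.sub_c0, T3.sub_c1, T3.sub_c2, T3.neg_c0,
      T3.neg_c1, T3.neg_c2, T3.mul_c0, T3.mul_c1, T3.mul_c2, T3.zero_c0, T3.zero_c1, T3.zero_c2,
      T3.C_c0, T3.C_c1, T3.C_c2, F4_F2] <;> ring

theorem F4_e54 (p : Par) (ht : p.t ^ 2 = 1 - p.a ^ 2) (hs : p.a * p.s = 1 - p.s)
    (h11 : p.Z11 = (2 * p.a * p.b2) ^ 2) (h22 : p.Z22 = (2 * p.a * p.b1) ^ 2)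
    (h33 : p.Z33 = p.A1 ^ 2) (h13 : p.Z13 = 2 * p.a * p.b2 * p.A1) :
    ∑ k, ∑ l, KT p k l * (T3.C (1 / 2) * ((GJ p k 4).h 5 l + (GJ p 5 l).h k 4
          - (GJ p 5 4).h k l - (GJ p k l).h 5 4))
        + ∑ q, ∑ l, WT p q l 4 * GuT p q 5 l - ∑ q, VT p q * GuT p q 5 4
      = ⟨0, 0, F2M p 5 4⟩ := by
  simp only [Fin.sum_univ_seven, F4_K, F4_T, F4_tV, mul_zero, zero_mul, add_zero, sub_zero, zero_add, zero_sub]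
  simp only [F4_tW0, F4_tW1, F4_tW3, F4_tW4, F4_tW5, F4_tW6, mul_zero, zero_mul, add_zero, sub_zero, zero_add, zero_sub]
  simp only [F4_tGu0, F4_tGu1, F4_tGu3, F4_tGu4, F4_tGu5, F4_tGu6, mul_zero, zero_mul, add_zero, sub_zero, zero_add, zero_sub]
  simp only [F4_h, F4_M, F4_H, MJ00, MJ03, MJ04, MJ11, MJ13, MJ14, MJ15, MJ16, MJ22, MJ33, MJ34, MJ35, MJ36, MJ44, MJ45,
      MJ46, MJ55, MJ66, HJ00, HJ11, HJ33, HJ34, HJ35, HJ36, HJ44, HJ45, HJ46, HJ55, HJ56, HJ66, J0, F4_mh, mul_zero, zero_mul, add_zero, sub_zero, zero_add, zero_sub]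
  refine T3.ext ?_ ?_ ?_
  · simp only [T3.add_c0, T3.add_c1, T3.add_c2, T3.sub_c0, T3.sub_c1, T3.sub_c2, T3.neg_c0,
      T3.neg_c1, T3.neg_c2, T3.mul_c0, T3.mul_c1, T3.mul_c2, T3.zero_c0, T3.zero_c1, T3.zero_c2,
      T3.C_c0, T3.C_c1, T3.C_c2]
    ring
  · simp only [T3.add_c0, T3.add_c1, T3.add_c2, T3.sub_c0, T3.sub_c1, T3.sub_c2, T3.neg_c0,
      T3.neg_c1, T3.neg_c2, T3.mul_c0, T3.mul_c1, T3.mul_c2, T3.zero_c0, T3.zero_c1, T3.zero_c2,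
      T3.C_c0, T3.C_c1, T3.C_c2]
    ring
  · simp only [T3.add_c0, T3.add_c1, T3.add_c2, T3.sub_c0, T3.sub_c1, T3.sub_c2, T3.neg_c0,
      T3.neg_c1, T3.neg_c2, T3.mul_c0, T3.mul_c1, T3.mul_c2, T3.zero_c0, T3.zero_c1, T3.zero_c2,
      T3.C_c0, T3.C_c1, T3.C_c2, F4_F2]
    linear_combination (-(1 / 2) * p.t ^ 2 * p.a * p.s ^ 3 * p.A1 * p.b2 - (1 / 4) * p.t ^ 2 * p.a * p.s ^ 2 * p.A1 * p.b2 + (1 / 2) * p.a ^ 3 * p.s ^ 3 * p.A1 * p.b2 + (1 / 4) * p.a ^ 3 * p.s ^ 2 * p.A1 * p.b2 + p.a * p.s ^ 2 * p.A1 * p.b2 - (1 / 4) * p.a * p.A1 * p.b2 + p.b1 * p.b3 + (1 / 2) * p.c2) * ht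
      + (-(1 / 2) * p.a ^ 4 * p.s ^ 2 * p.A1 * p.b2 - (1 / 4) * p.a ^ 4 * p.s * p.A1 * p.b2 + (1 / 2) * p.a ^ 3 * p.s ^ 2 * p.A1 * p.b2 - (1 / 4) * p.a ^ 3 * p.s * p.A1 * p.b2 - (1 / 4) * p.a ^ 3 * p.A1 * p.b2) * hs
      + (-(1 / 4) * p.t ^ 4 * p.s ^ 3 - (1 / 8) * p.t ^ 4 * p.s ^ 2 + (1 / 4) * p.t ^ 2 * p.s ^ 3 + (5 / 8) * p.t ^ 2 * p.s ^ 2 + (1 / 8) * p.t ^ 2 - (1 / 2) * p.s ^ 2 - (1 / 8)) * h13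

theorem F4_e55 (p : Par) (ht : p.t ^ 2 = 1 - p.a ^ 2) (hs : p.a * p.s = 1 - p.s)
    (h11 : p.Z11 = (2 * p.a * p.b2) ^ 2) (h22 : p.Z22 = (2 * p.a * p.b1) ^ 2)
    (h33 : p.Z33 = p.A1 ^ 2) (h13 : p.Z13 = 2 * p.a * p.b2 * p.A1) :
    ∑ k, ∑ l, KT p k l * (T3.C (1 / 2) * ((GJ p k 5).h 5 l + (GJ p 5 l).h k 5
          - (GJ p 5 5).h k l - (GJ p k l).h 5 5))
        + ∑ q, ∑ l, WT p q l 5 * GuT p q 5 l - ∑ q, VT p q * GuT p q 5 5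
      = ⟨0, 0, F2M p 5 5⟩ := by
  simp only [Fin.sum_univ_seven, F4_K, F4_T, F4_tV, mul_zero, zero_mul, add_zero, sub_zero, zero_add, zero_sub]
  simp only [F4_tW0, F4_tW1, F4_tW3, F4_tW4, F4_tW5, F4_tW6, mul_zero, zero_mul, add_zero, sub_zero, zero_add, zero_sub]
  simp only [F4_tGu0, F4_tGu1, F4_tGu3, F4_tGu4, F4_tGu5, F4_tGu6, mul_zero, zero_mul, add_zero, sub_zero, zero_add, zero_sub]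
  simp only [F4_h, F4_M, F4_H, MJ00, MJ03, MJ04, MJ11, MJ13, MJ14, MJ15, MJ16, MJ22, MJ33, MJ34, MJ35, MJ36, MJ44, MJ45,
      MJ46, MJ55, MJ66, HJ00, HJ11, HJ33, HJ34, HJ35, HJ36, HJ44, HJ45, HJ46, HJ55, HJ56, HJ66, J0, F4_mh, mul_zero, zero_mul, add_zero, sub_zero, zero_add, zero_sub]
  refine T3.ext ?_ ?_ ?_
  · simp only [T3.add_c0, T3.add_c1, T3.add_c2, T3.sub_c0, T3.sub_c1, T3.sub_c2, T3.neg_c0,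
      T3.neg_c1, T3.neg_c2, T3.mul_c0, T3.mul_c1, T3.mul_c2, T3.zero_c0, T3.zero_c1, T3.zero_c2,
      T3.C_c0, T3.C_c1, T3.C_c2]
    ring
  · simp only [T3.add_c0, T3.add_c1, T3.add_c2, T3.sub_c0, T3.sub_c1, T3.sub_c2, T3.neg_c0,
      T3.neg_c1, T3.neg_c2, T3.mul_c0, T3.mul_c1, T3.mul_c2, T3.zero_c0, T3.zero_c1, T3.zero_c2,
      T3.C_c0, T3.C_c1, T3.C_c2]
    ring
  · simp only [T3.add_c0, T3.add_c1, T3.add_c2, T3.sub_c0, T3.sub_c1, T3.sub_c2, T3.neg_c0,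
      T3.neg_c1, T3.neg_c2, T3.mul_c0, T3.mul_c1, T3.mul_c2, T3.zero_c0, T3.zero_c1, T3.zero_c2,
      T3.C_c0, T3.C_c1, T3.C_c2, F4_F2]
    linear_combination (-(1 / 2) * p.t ^ 2 * p.a ^ 2 * p.s ^ 4 * p.b1 ^ 2 - (1 / 2) * p.t ^ 2 * p.a ^ 2 * p.s ^ 4 * p.b2 ^ 2 - (1 / 2) * p.t ^ 2 * p.a ^ 2 * p.s ^ 3 * p.b1 ^ 2 - (1 / 2) * p.t ^ 2 * p.a ^ 2 * p.s ^ 3 * p.b2 ^ 2 - (1 / 4) * p.t ^ 2 * p.a ^ 2 * p.s ^ 2 * p.b1 ^ 2 - (1 / 4) * p.t ^ 2 * p.a ^ 2 * p.s ^ 2 * p.b2 ^ 2 + (1 / 4) * p.t ^ 2 * p.s ^ 4 * p.A1 ^ 2 + (1 / 4) * p.t ^ 2 * p.s ^ 3 * p.A1 ^ 2 + (1 / 8) * p.t ^ 2 * p.s ^ 2 * p.A1 ^ 2 - (1 / 2) * p.t ^ 2 * p.b1 ^ 2 - (1 / 2) * p.t ^ 2 * p.b2 ^ 2 + (1 / 2) * p.a ^ 4 * p.s ^ 4 * p.b1 ^ 2 + (1 / 2) * p.a ^ 4 * p.s ^ 4 * p.b2 ^ 2 + (1 / 2) *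 p.a ^ 4 * p.s ^ 3 * p.b1 ^ 2 + (1 / 2) * p.a ^ 4 * p.s ^ 3 * p.b2 ^ 2 + (1 / 4) * p.a ^ 4 * p.s ^ 2 * p.b1 ^ 2 + (1 / 4) * p.a ^ 4 * p.s ^ 2 * p.b2 ^ 2 - (1 / 4) * p.a ^ 2 * p.s ^ 4 * p.A1 ^ 2 - (1 / 2) * p.a ^ 2 * p.s ^ 4 * p.b1 ^ 2 - (1 / 2) * p.a ^ 2 * p.s ^ 4 * p.b2 ^ 2 - (1 / 4) * p.a ^ 2 * p.s ^ 3 * p.A1 ^ 2 + (5 / 6) * p.a ^ 2 * p.s ^ 3 * p.b1 ^ 2 + (5 / 6) * p.a ^ 2 * p.s ^ 3 * p.b2 ^ 2 - (1 / 8) * p.a ^ 2 * p.s ^ 2 * p.A1 ^ 2 + (5 / 12) * p.a ^ 2 * p.s ^ 2 * p.b1 ^ 2 + (5 / 12) * p.a ^ 2 * p.s ^ 2 * p.b2 ^ 2 - (1 / 4) * p.a ^ 2 * p.b1 ^ 2 - (1 / 4) * p.a ^ 2 * p.b2 ^ 2 + (1 / 4) * p.s ^ 4 * p.A1 ^ 2 - (5 / 12) * p.s ^ 3 * p.A1 ^ 2 - (5 / 24) * p.s ^ 2 * p.A1 ^ 2 - (1 / 8) * p.A1 ^ 2 + (1 / 2) * p.b1 ^ 2 + (1 / 2) * p.b2 ^ 2) *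 ht
      + (-(1 / 2) * p.a ^ 5 * p.s ^ 3 * p.b1 ^ 2 - (1 / 2) * p.a ^ 5 * p.s ^ 3 * p.b2 ^ 2 - (1 / 2) * p.a ^ 5 * p.s ^ 2 * p.b1 ^ 2 - (1 / 2) * p.a ^ 5 * p.s ^ 2 * p.b2 ^ 2 - (1 / 4) * p.a ^ 5 * p.s * p.b1 ^ 2 - (1 / 4) * p.a ^ 5 * p.s * p.b2 ^ 2 + (1 / 2) * p.a ^ 4 * p.s ^ 3 * p.b1 ^ 2 + (1 / 2) * p.a ^ 4 * p.s ^ 3 * p.b2 ^ 2 - (1 / 4) * p.a ^ 4 * p.s * p.b1 ^ 2 - (1 / 4) * p.a ^ 4 * p.s * p.b2 ^ 2 - (1 / 4) * p.a ^ 4 * p.b1 ^ 2 - (1 / 4) * p.a ^ 4 * p.b2 ^ 2 + (1 / 4) * p.a ^ 3 * p.s ^ 3 * p.A1 ^ 2 + (1 / 2) * p.a ^ 3 * p.s ^ 3 * p.b1 ^ 2 + (1 / 2) * p.a ^ 3 * p.s ^ 3 * p.b2 ^ 2 + (1 / 4) * p.a ^ 3 * p.s ^ 2 * p.A1 ^ 2 + (1 / 6) * p.a ^ 3 * p.s ^ 2 * p.b1 ^ 2 + (1 / 6) * p.a ^ 3 * p.s ^ 2 * p.b2 ^ 2 + (1 / 8) * p.a ^ 3 * p.s * p.A1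 ^ 2 + (1 / 12) * p.a ^ 3 * p.s * p.b1 ^ 2 + (1 / 12) * p.a ^ 3 * p.s * p.b2 ^ 2 - (1 / 4) * p.a ^ 2 * p.s ^ 3 * p.A1 ^ 2 - (1 / 2) * p.a ^ 2 * p.s ^ 3 * p.b1 ^ 2 - (1 / 2) * p.a ^ 2 * p.s ^ 3 * p.b2 ^ 2 + (1 / 3) * p.a ^ 2 * p.s ^ 2 * p.b1 ^ 2 + (1 / 3) * p.a ^ 2 * p.s ^ 2 * p.b2 ^ 2 + (1 / 8) * p.a ^ 2 * p.s * p.A1 ^ 2 + (1 / 12) * p.a ^ 2 * p.s * p.b1 ^ 2 + (1 / 12) * p.a ^ 2 * p.s * p.b2 ^ 2 + (1 / 8) * p.a ^ 2 * p.A1 ^ 2 + (1 / 12) * p.a ^ 2 * p.b1 ^ 2 + (1 / 12) * p.a ^ 2 * p.b2 ^ 2 - (1 / 4) * p.a * p.s ^ 3 * p.A1 ^ 2 - (1 / 12) * p.a * p.s ^ 2 * p.A1 ^ 2 - (1 / 24) * p.a * p.s * p.A1 ^ 2 + (1 / 4) * p.s ^ 3 * p.A1 ^ 2 - (1 / 6) * p.s ^ 2 * p.A1 ^ 2 - (1 / 24) * p.s * p.A1 ^ 2 - (1 / 24) * p.A1 ^ 2) * hs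
      + (-(1 / 8) * p.t ^ 4 * p.s ^ 4 - (1 / 8) * p.t ^ 4 * p.s ^ 3 - (1 / 16) * p.t ^ 4 * p.s ^ 2 + (1 / 3) * p.t ^ 2 * p.s ^ 3 + (1 / 6) * p.t ^ 2 * p.s ^ 2 - (3 / 16) * p.t ^ 2 - (1 / 6) * p.s ^ 2 + (1 / 24)) * h11
      + (-(1 / 8) * p.t ^ 4 * p.s ^ 4 - (1 / 8) * p.t ^ 4 * p.s ^ 3 - (1 / 16) * p.t ^ 4 * p.s ^ 2 + (1 / 3) * p.t ^ 2 * p.s ^ 3 + (1 / 6) * p.t ^ 2 * p.s ^ 2 - (3 / 16) * p.t ^ 2 - (1 / 6) * p.s ^ 2 + (1 / 24)) * h22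
      + ((1 / 4) * p.t ^ 4 * p.s ^ 4 + (1 / 4) * p.t ^ 4 * p.s ^ 3 + (1 / 8) * p.t ^ 4 * p.s ^ 2 - (2 / 3) * p.t ^ 2 * p.s ^ 3 - (1 / 3) * p.t ^ 2 * p.s ^ 2 - (1 / 8) * p.t ^ 2 + (1 / 3) * p.s ^ 2 + (1 / 24)) * h33

theorem F4_e56 (p : Par) :
    ∑ k, ∑ l, KT p k l * (T3.C (1 / 2) * ((GJ p k 6).h 5 l + (GJ p 5 l).h k 6
          - (GJ p 5 6).h k l - (GJ p k l).h 5 6))
        + ∑ q, ∑ l, WT p q l 6 * GuT p q 5 l - ∑ q, VT p q * GuT p q 5 6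
      = ⟨0, 0, F2M p 5 6⟩ := by
  simp only [Fin.sum_univ_seven, F4_K, F4_T, F4_tV, mul_zero, zero_mul, add_zero, sub_zero, zero_add, zero_sub]
  simp only [F4_tW0, F4_tW1, F4_tW3, F4_tW4, F4_tW5, F4_tW6, mul_zero, zero_mul, add_zero, sub_zero, zero_add, zero_sub]
  simp only [F4_tGu0, F4_tGu1, F4_tGu3, F4_tGu4, F4_tGu5, F4_tGu6, mul_zero, zero_mul, add_zero, sub_zero, zero_add, zero_sub]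
  simp only [F4_h, F4_M, F4_H, MJ00, MJ03, MJ04, MJ11, MJ13, MJ14, MJ15, MJ16, MJ22, MJ33, MJ34, MJ35, MJ36, MJ44, MJ45,
      MJ46, MJ55, MJ66, HJ00, HJ11, HJ33, HJ34, HJ35, HJ36, HJ44, HJ45, HJ46, HJ55, HJ56, HJ66, J0, F4_mh, mul_zero, zero_mul, add_zero, sub_zero, zero_add, zero_sub]
  refine T3.ext ?_ ?_ ?_ <;>
    simp only [T3.add_c0, T3.add_c1, T3.add_c2, T3.sub_c0, T3.sub_c1, T3.sub_c2, T3.neg_c0,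
      T3.neg_c1, T3.neg_c2, T3.mul_c0, T3.mul_c1, T3.mul_c2, T3.zero_c0, T3.zero_c1, T3.zero_c2,
      T3.C_c0, T3.C_c1, T3.C_c2, F4_F2] <;> ring

theorem F4_e60 (p : Par) :
    ∑ k, ∑ l, KT p k l * (T3.C (1 / 2) * ((GJ p k 0).h 6 l + (GJ p 6 l).h k 0
          - (GJ p 6 0).h k l - (GJ p k l).h 6 0))
        + ∑ q, ∑ l, WT p q l 0 * GuT p q 6 l - ∑ q, VT p q * GuT p q 6 0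
      = ⟨0, 0, F2M p 6 0⟩ := by
  simp only [Fin.sum_univ_seven, F4_K, F4_T, F4_tV, mul_zero, zero_mul, add_zero, sub_zero, zero_add, zero_sub]
  simp only [F4_tW0, F4_tW1, F4_tW3, F4_tW4, F4_tW5, F4_tW6, mul_zero, zero_mul, add_zero, sub_zero, zero_add, zero_sub]
  simp only [F4_tGu0, F4_tGu1, F4_tGu3, F4_tGu4, F4_tGu5, F4_tGu6, mul_zero, zero_mul, add_zero, sub_zero, zero_add, zero_sub]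
  simp only [F4_h, F4_M, F4_H, MJ00, MJ03, MJ04, MJ11, MJ13, MJ14, MJ15, MJ16, MJ22, MJ33, MJ34, MJ35, MJ36, MJ44, MJ45,
      MJ46, MJ55, MJ66, HJ00, HJ11, HJ33, HJ34, HJ35, HJ36, HJ44, HJ45, HJ46, HJ55, HJ56, HJ66, J0, F4_mh, mul_zero, zero_mul, add_zero, sub_zero, zero_add, zero_sub]
  refine T3.ext ?_ ?_ ?_ <;>
    simp only [T3.add_c0, T3.add_c1, T3.add_c2, T3.sub_c0, T3.sub_c1, T3.sub_c2, T3.neg_c0,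
      T3.neg_c1, T3.neg_c2, T3.mul_c0, T3.mul_c1, T3.mul_c2, T3.zero_c0, T3.zero_c1, T3.zero_c2,
      T3.C_c0, T3.C_c1, T3.C_c2, F4_F2] <;> ring

theorem F4_e61 (p : Par) :
    ∑ k, ∑ l, KT p k l * (T3.C (1 / 2) * ((GJ p k 1).h 6 l + (GJ p 6 l).h k 1
          - (GJ p 6 1).h k l - (GJ p k l).h 6 1))
        + ∑ q, ∑ l, WT p q l 1 * GuT p q 6 l - ∑ q, VT p q * GuT p q 6 1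
      = ⟨0, 0, F2M p 6 1⟩ := by
  simp only [Fin.sum_univ_seven, F4_K, F4_T, F4_tV, mul_zero, zero_mul, add_zero, sub_zero, zero_add, zero_sub]
  simp only [F4_tW0, F4_tW1, F4_tW3, F4_tW4, F4_tW5, F4_tW6, mul_zero, zero_mul, add_zero, sub_zero, zero_add, zero_sub]
  simp only [F4_tGu0, F4_tGu1, F4_tGu3, F4_tGu4, F4_tGu5, F4_tGu6, mul_zero, zero_mul, add_zero, sub_zero, zero_add, zero_sub]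
  simp only [F4_h, F4_M, F4_H, MJ00, MJ03, MJ04, MJ11, MJ13, MJ14, MJ15, MJ16, MJ22, MJ33, MJ34, MJ35, MJ36, MJ44, MJ45,
      MJ46, MJ55, MJ66, HJ00, HJ11, HJ33, HJ34, HJ35, HJ36, HJ44, HJ45, HJ46, HJ55, HJ56, HJ66, J0, F4_mh, mul_zero, zero_mul, add_zero, sub_zero, zero_add, zero_sub]
  refine T3.ext ?_ ?_ ?_ <;>
    simp only [T3.add_c0, T3.add_c1, T3.add_c2, T3.sub_c0, T3.sub_c1, T3.sub_c2, T3.neg_c0,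
      T3.neg_c1, T3.neg_c2, T3.mul_c0, T3.mul_c1, T3.mul_c2, T3.zero_c0, T3.zero_c1, T3.zero_c2,
      T3.C_c0, T3.C_c1, T3.C_c2, F4_F2] <;> ring

theorem F4_e62 (p : Par) :
    ∑ k, ∑ l, KT p k l * (T3.C (1 / 2) * ((GJ p k 2).h 6 l + (GJ p 6 l).h k 2
          - (GJ p 6 2).h k l - (GJ p k l).h 6 2))
        + ∑ q, ∑ l, WT p q l 2 * GuT p q 6 l - ∑ q, VT p q * GuT p q 6 2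
      = ⟨0, 0, F2M p 6 2⟩ := by
  simp only [Fin.sum_univ_seven, F4_K, F4_T, F4_tV, mul_zero, zero_mul, add_zero, sub_zero, zero_add, zero_sub]
  simp only [F4_tW0, F4_tW1, F4_tW3, F4_tW4, F4_tW5, F4_tW6, mul_zero, zero_mul, add_zero, sub_zero, zero_add, zero_sub]
  simp only [F4_tGu0, F4_tGu1, F4_tGu3, F4_tGu4, F4_tGu5, F4_tGu6, mul_zero, zero_mul, add_zero, sub_zero, zero_add, zero_sub]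
  simp only [F4_h, F4_M, F4_H, MJ00, MJ03, MJ04, MJ11, MJ13, MJ14, MJ15, MJ16, MJ22, MJ33, MJ34, MJ35, MJ36, MJ44, MJ45,
      MJ46, MJ55, MJ66, HJ00, HJ11, HJ33, HJ34, HJ35, HJ36, HJ44, HJ45, HJ46, HJ55, HJ56, HJ66, J0, F4_mh, mul_zero, zero_mul, add_zero, sub_zero, zero_add, zero_sub]
  refine T3.ext ?_ ?_ ?_ <;>
    simp only [T3.add_c0, T3.add_c1, T3.add_c2, T3.sub_c0, T3.sub_c1, T3.sub_c2, T3.neg_c0,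
      T3.neg_c1, T3.neg_c2, T3.mul_c0, T3.mul_c1, T3.mul_c2, T3.zero_c0, T3.zero_c1, T3.zero_c2,
      T3.C_c0, T3.C_c1, T3.C_c2, F4_F2] <;> ring

theorem F4_e63 (p : Par) (ht : p.t ^ 2 = 1 - p.a ^ 2) (hs : p.a * p.s = 1 - p.s)
    (h11 : p.Z11 = (2 * p.a * p.b2) ^ 2) (h22 : p.Z22 = (2 * p.a * p.b1) ^ 2)
    (h33 : p.Z33 = p.A1 ^ 2) (h13 : p.Z13 = 2 * p.a * p.b2 * p.A1) :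
    ∑ k, ∑ l, KT p k l * (T3.C (1 / 2) * ((GJ p k 3).h 6 l + (GJ p 6 l).h k 3
          - (GJ p 6 3).h k l - (GJ p k l).h 6 3))
        + ∑ q, ∑ l, WT p q l 3 * GuT p q 6 l - ∑ q, VT p q * GuT p q 6 3
      = ⟨0, 0, F2M p 6 3⟩ := by
  simp only [Fin.sum_univ_seven, F4_K, F4_T, F4_tV, mul_zero, zero_mul, add_zero, sub_zero, zero_add, zero_sub]
  simp only [F4_tW0, F4_tW1, F4_tW3, F4_tW4, F4_tW5, F4_tW6, mul_zero, zero_mul, add_zero, sub_zero, zero_add, zero_sub]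
  simp only [F4_tGu0, F4_tGu1, F4_tGu3, F4_tGu4, F4_tGu5, F4_tGu6, mul_zero, zero_mul, add_zero, sub_zero, zero_add, zero_sub]
  simp only [F4_h, F4_M, F4_H, MJ00, MJ03, MJ04, MJ11, MJ13, MJ14, MJ15, MJ16, MJ22, MJ33, MJ34, MJ35, MJ36, MJ44, MJ45,
      MJ46, MJ55, MJ66, HJ00, HJ11, HJ33, HJ34, HJ35, HJ36, HJ44, HJ45, HJ46, HJ55, HJ56, HJ66, J0, F4_mh, mul_zero, zero_mul, add_zero, sub_zero, zero_add, zero_sub]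
  refine T3.ext ?_ ?_ ?_
  · simp only [T3.add_c0, T3.add_c1, T3.add_c2, T3.sub_c0, T3.sub_c1, T3.sub_c2, T3.neg_c0,
      T3.neg_c1, T3.neg_c2, T3.mul_c0, T3.mul_c1, T3.mul_c2, T3.zero_c0, T3.zero_c1, T3.zero_c2,
      T3.C_c0, T3.C_c1, T3.C_c2]
    ring
  · simp only [T3.add_c0, T3.add_c1, T3.add_c2, T3.sub_c0, T3.sub_c1, T3.sub_c2, T3.neg_c0,
      T3.neg_c1, T3.neg_c2, T3.mul_c0, T3.mul_c1, T3.mul_c2, T3.zero_c0, T3.zero_c1, T3.zero_c2,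
      T3.C_c0, T3.C_c1, T3.C_c2]
    ring
  · simp only [T3.add_c0, T3.add_c1, T3.add_c2, T3.sub_c0, T3.sub_c1, T3.sub_c2, T3.neg_c0,
      T3.neg_c1, T3.neg_c2, T3.mul_c0, T3.mul_c1, T3.mul_c2, T3.zero_c0, T3.zero_c1, T3.zero_c2,
      T3.C_c0, T3.C_c1, T3.C_c2, F4_F2]
    linear_combination ((3 / 2) * p.t ^ 2 * p.a * p.s ^ 4 * p.A1 * p.b2 + (3 / 2) * p.t ^ 2 * p.a * p.s ^ 3 * p.A1 * p.b2 + (3 / 4) * p.t ^ 2 * p.a * p.s ^ 2 * p.A1 * p.b2 - (3 / 2) * p.a ^ 3 * p.s ^ 4 * p.A1 * p.b2 - (3 / 2) * p.a ^ 3 * p.s ^ 3 * p.A1 * p.b2 - (3 / 4) * p.a ^ 3 * p.s ^ 2 * p.A1 * p.b2 + (3 / 2) * p.a * p.s ^ 4 * p.A1 * p.b2 - 2 * p.a * p.s ^ 3 * p.A1 * p.b2 - p.a * p.s ^ 2 * p.A1 * p.b2 + (3 / 4) * p.a * p.A1 * p.b2 - p.b1 * p.b3 - (1 / 2) * p.c2) * ht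
      + ((3 / 2) * p.a ^ 4 * p.s ^ 3 * p.A1 * p.b2 + (3 / 2) * p.a ^ 4 * p.s ^ 2 * p.A1 * p.b2 + (3 / 4) * p.a ^ 4 * p.s * p.A1 * p.b2 - (3 / 2) * p.a ^ 3 * p.s ^ 3 * p.A1 * p.b2 + (3 / 4) * p.a ^ 3 * p.s * p.A1 * p.b2 + (3 / 4) * p.a ^ 3 * p.A1 * p.b2 - (3 / 2) * p.a ^ 2 * p.s ^ 3 * p.A1 * p.b2 - p.a ^ 2 * p.s ^ 2 * p.A1 * p.b2 - (1 / 2) * p.a ^ 2 * p.s * p.A1 * p.b2 + (3 / 2) * p.a * p.s ^ 3 * p.A1 * p.b2 - (1 / 2) * p.a * p.s ^ 2 * p.A1 * p.b2 - (1 / 2) * p.a * p.s * p.A1 * p.b2 - (1 / 2) * p.a * p.A1 * p.b2) * hs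
      + ((3 / 4) * p.t ^ 4 * p.s ^ 4 + (3 / 4) * p.t ^ 4 * p.s ^ 3 + (3 / 8) * p.t ^ 4 * p.s ^ 2 - (7 / 4) * p.t ^ 2 * p.s ^ 3 - (7 / 8) * p.t ^ 2 * p.s ^ 2 - (3 / 8) * p.t ^ 2 + (1 / 2) * p.s ^ 2 + (1 / 8)) * h13

theorem F4_e64 (p : Par) :
    ∑ k, ∑ l, KT p k l * (T3.C (1 / 2) * ((GJ p k 4).h 6 l + (GJ p 6 l).h k 4
          - (GJ p 6 4).h k l - (GJ p k l).h 6 4))
        + ∑ q, ∑ l, WT p q l 4 * GuT p q 6 l - ∑ q, VT p q * GuT p q 6 4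
      = ⟨0, 0, F2M p 6 4⟩ := by
  simp only [Fin.sum_univ_seven, F4_K, F4_T, F4_tV, mul_zero, zero_mul, add_zero, sub_zero, zero_add, zero_sub]
  simp only [F4_tW0, F4_tW1, F4_tW3, F4_tW4, F4_tW5, F4_tW6, mul_zero, zero_mul, add_zero, sub_zero, zero_add, zero_sub]
  simp only [F4_tGu0, F4_tGu1, F4_tGu3, F4_tGu4, F4_tGu5, F4_tGu6, mul_zero, zero_mul, add_zero, sub_zero, zero_add, zero_sub]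
  simp only [F4_h, F4_M, F4_H, MJ00, MJ03, MJ04, MJ11, MJ13, MJ14, MJ15, MJ16, MJ22, MJ33, MJ34, MJ35, MJ36, MJ44, MJ45,
      MJ46, MJ55, MJ66, HJ00, HJ11, HJ33, HJ34, HJ35, HJ36, HJ44, HJ45, HJ46, HJ55, HJ56, HJ66, J0, F4_mh, mul_zero, zero_mul, add_zero, sub_zero, zero_add, zero_sub]
  refine T3.ext ?_ ?_ ?_ <;>
    simp only [T3.add_c0, T3.add_c1, T3.add_c2, T3.sub_c0, T3.sub_c1, T3.sub_c2, T3.neg_c0,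
      T3.neg_c1, T3.neg_c2, T3.mul_c0, T3.mul_c1, T3.mul_c2, T3.zero_c0, T3.zero_c1, T3.zero_c2,
      T3.C_c0, T3.C_c1, T3.C_c2, F4_F2] <;> ring

theorem F4_e65 (p : Par) :
    ∑ k, ∑ l, KT p k l * (T3.C (1 / 2) * ((GJ p k 5).h 6 l + (GJ p 6 l).h k 5
          - (GJ p 6 5).h k l - (GJ p k l).h 6 5))
        + ∑ q, ∑ l, WT p q l 5 * GuT p q 6 l - ∑ q, VT p q * GuT p q 6 5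
      = ⟨0, 0, F2M p 6 5⟩ := by
  simp only [Fin.sum_univ_seven, F4_K, F4_T, F4_tV, mul_zero, zero_mul, add_zero, sub_zero, zero_add, zero_sub]
  simp only [F4_tW0, F4_tW1, F4_tW3, F4_tW4, F4_tW5, F4_tW6, mul_zero, zero_mul, add_zero, sub_zero, zero_add, zero_sub]
  simp only [F4_tGu0, F4_tGu1, F4_tGu3, F4_tGu4, F4_tGu5, F4_tGu6, mul_zero, zero_mul, add_zero, sub_zero, zero_add, zero_sub]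
  simp only [F4_h, F4_M, F4_H, MJ00, MJ03, MJ04, MJ11, MJ13, MJ14, MJ15, MJ16, MJ22, MJ33, MJ34, MJ35, MJ36, MJ44, MJ45,
      MJ46, MJ55, MJ66, HJ00, HJ11, HJ33, HJ34, HJ35, HJ36, HJ44, HJ45, HJ46, HJ55, HJ56, HJ66, J0, F4_mh, mul_zero, zero_mul, add_zero, sub_zero, zero_add, zero_sub]
  refine T3.ext ?_ ?_ ?_ <;>
    simp only [T3.add_c0, T3.add_c1, T3.add_c2, T3.sub_c0, T3.sub_c1, T3.sub_c2, T3.neg_c0,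
      T3.neg_c1, T3.neg_c2, T3.mul_c0, T3.mul_c1, T3.mul_c2, T3.zero_c0, T3.zero_c1, T3.zero_c2,
      T3.C_c0, T3.C_c1, T3.C_c2, F4_F2] <;> ring

theorem F4_e66 (p : Par) (ht : p.t ^ 2 = 1 - p.a ^ 2) (hs : p.a * p.s = 1 - p.s)
    (h11 : p.Z11 = (2 * p.a * p.b2) ^ 2) (h22 : p.Z22 = (2 * p.a * p.b1) ^ 2)
    (h33 : p.Z33 = p.A1 ^ 2) (h13 : p.Z13 = 2 * p.a * p.b2 * p.A1) :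
    ∑ k, ∑ l, KT p k l * (T3.C (1 / 2) * ((GJ p k 6).h 6 l + (GJ p 6 l).h k 6
          - (GJ p 6 6).h k l - (GJ p k l).h 6 6))
        + ∑ q, ∑ l, WT p q l 6 * GuT p q 6 l - ∑ q, VT p q * GuT p q 6 6
      = ⟨0, 0, F2M p 6 6⟩ := by
  simp only [Fin.sum_univ_seven, F4_K, F4_T, F4_tV, mul_zero, zero_mul, add_zero, sub_zero, zero_add, zero_sub]
  simp only [F4_tW0, F4_tW1, F4_tW3, F4_tW4, F4_tW5, F4_tW6, mul_zero, zero_mul, add_zero, sub_zero, zero_add, zero_sub]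
  simp only [F4_tGu0, F4_tGu1, F4_tGu3, F4_tGu4, F4_tGu5, F4_tGu6, mul_zero, zero_mul, add_zero, sub_zero, zero_add, zero_sub]
  simp only [F4_h, F4_M, F4_H, MJ00, MJ03, MJ04, MJ11, MJ13, MJ14, MJ15, MJ16, MJ22, MJ33, MJ34, MJ35, MJ36, MJ44, MJ45,
      MJ46, MJ55, MJ66, HJ00, HJ11, HJ33, HJ34, HJ35, HJ36, HJ44, HJ45, HJ46, HJ55, HJ56, HJ66, J0, F4_mh, mul_zero, zero_mul, add_zero, sub_zero, zero_add, zero_sub]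
  refine T3.ext ?_ ?_ ?_
  · simp only [T3.add_c0, T3.add_c1, T3.add_c2, T3.sub_c0, T3.sub_c1, T3.sub_c2, T3.neg_c0,
      T3.neg_c1, T3.neg_c2, T3.mul_c0, T3.mul_c1, T3.mul_c2, T3.zero_c0, T3.zero_c1, T3.zero_c2,
      T3.C_c0, T3.C_c1, T3.C_c2]
    ring
  · simp only [T3.add_c0, T3.add_c1, T3.add_c2, T3.sub_c0, T3.sub_c1, T3.sub_c2, T3.neg_c0,
      T3.neg_c1, T3.neg_c2, T3.mul_c0, T3.mul_c1, T3.mul_c2, T3.zero_c0, T3.zero_c1, T3.zero_c2,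
      T3.C_c0, T3.C_c1, T3.C_c2]
    ring
  · simp only [T3.add_c0, T3.add_c1, T3.add_c2, T3.sub_c0, T3.sub_c1, T3.sub_c2, T3.neg_c0,
      T3.neg_c1, T3.neg_c2, T3.mul_c0, T3.mul_c1, T3.mul_c2, T3.zero_c0, T3.zero_c1, T3.zero_c2,
      T3.C_c0, T3.C_c1, T3.C_c2, F4_F2]
    linear_combination (-(1 / 2) * p.t ^ 2 * p.a ^ 2 * p.s ^ 4 * p.b1 ^ 2 - (1 / 2) * p.t ^ 2 * p.a ^ 2 * p.s ^ 4 * p.b2 ^ 2 - (1 / 2) * p.t ^ 2 * p.a ^ 2 * p.s ^ 3 * p.b1 ^ 2 - (1 / 2) * p.t ^ 2 * p.a ^ 2 * p.s ^ 3 * p.b2 ^ 2 - (1 / 4) * p.t ^ 2 * p.a ^ 2 * p.s ^ 2 * p.b1 ^ 2 - (1 / 4) * p.t ^ 2 * p.a ^ 2 * p.s ^ 2 * p.b2 ^ 2 + (1 / 4) * p.t ^ 2 * p.s ^ 4 * p.A1 ^ 2 + (1 / 4) * p.t ^ 2 * p.s ^ 3 * p.A1 ^ 2 + (1 / 8) * p.t ^ 2 * p.s ^ 2 * p.A1 ^ 2 + (1 / 2) * p.t ^ 2 *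 p.b1 ^ 2 + (1 / 2) * p.t ^ 2 * p.b2 ^ 2 + (1 / 2) * p.a ^ 4 * p.s ^ 4 * p.b1 ^ 2 + (1 / 2) * p.a ^ 4 * p.s ^ 4 * p.b2 ^ 2 + (1 / 2) * p.a ^ 4 * p.s ^ 3 * p.b1 ^ 2 + (1 / 2) * p.a ^ 4 * p.s ^ 3 * p.b2 ^ 2 + (1 / 4) * p.a ^ 4 * p.s ^ 2 * p.b1 ^ 2 + (1 / 4) * p.a ^ 4 * p.s ^ 2 * p.b2 ^ 2 - (1 / 4) * p.a ^ 2 * p.s ^ 4 * p.A1 ^ 2 - (1 / 2) * p.a ^ 2 * p.s ^ 4 * p.b1 ^ 2 - (1 / 2) * p.a ^ 2 * p.s ^ 4 * p.b2 ^ 2 - (1 / 4) * p.a ^ 2 * p.s ^ 3 * p.A1 ^ 2 + (5 / 6) * p.a ^ 2 * p.s ^ 3 * p.b1 ^ 2 + (5 / 6) * p.a ^ 2 * p.s ^ 3 * p.b2 ^ 2 - (1 / 8) * p.a ^ 2 * p.s ^ 2 * p.A1 ^ 2 + (5 / 12) * p.a ^ 2 * p.s ^ 2 * p.b1 ^ 2 + (5 / 12) * p.a ^ 2 * p.s ^ 2 * p.b2 ^ 2 - (1 / 4) * p.a ^ 2 * p.b1 ^ 2 - (1 / 4) * p.a ^ 2 * p.b2 ^ 2 + (1 / 4) * p.s ^ 4 * p.A1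 ^ 2 - (5 / 12) * p.s ^ 3 * p.A1 ^ 2 - (5 / 24) * p.s ^ 2 * p.A1 ^ 2 - (1 / 8) * p.A1 ^ 2 + (1 / 2) * p.b1 ^ 2 + (1 / 2) * p.b2 ^ 2) * ht
      + (-(1 / 2) * p.a ^ 5 * p.s ^ 3 * p.b1 ^ 2 - (1 / 2) * p.a ^ 5 * p.s ^ 3 * p.b2 ^ 2 - (1 / 2) * p.a ^ 5 * p.s ^ 2 * p.b1 ^ 2 - (1 / 2) * p.a ^ 5 * p.s ^ 2 * p.b2 ^ 2 - (1 / 4) * p.a ^ 5 * p.s * p.b1 ^ 2 - (1 / 4) * p.a ^ 5 * p.s * p.b2 ^ 2 + (1 / 2) * p.a ^ 4 * p.s ^ 3 * p.b1 ^ 2 + (1 / 2) * p.a ^ 4 * p.s ^ 3 * p.b2 ^ 2 - (1 / 4) * p.a ^ 4 * p.s * p.b1 ^ 2 - (1 / 4) * p.a ^ 4 * p.s * p.b2 ^ 2 - (1 / 4) * p.a ^ 4 * p.b1 ^ 2 - (1 / 4) * p.a ^ 4 * p.b2 ^ 2 + (1 / 4) * p.a ^ 3 * p.s ^ 3 * p.A1 ^ 2 + (1 / 2) * p.a ^ 3 * p.s ^ 3 * p.b1 ^ 2 + (1 / 2) * p.a ^ 3 * p.s ^ 3 * p.b2 ^ 2 + (1 / 4) * p.a ^ 3 *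 p.s ^ 2 * p.A1 ^ 2 + (1 / 6) * p.a ^ 3 * p.s ^ 2 * p.b1 ^ 2 + (1 / 6) * p.a ^ 3 * p.s ^ 2 * p.b2 ^ 2 + (1 / 8) * p.a ^ 3 * p.s * p.A1 ^ 2 + (1 / 12) * p.a ^ 3 * p.s * p.b1 ^ 2 + (1 / 12) * p.a ^ 3 * p.s * p.b2 ^ 2 - (1 / 4) * p.a ^ 2 * p.s ^ 3 * p.A1 ^ 2 - (1 / 2) * p.a ^ 2 * p.s ^ 3 * p.b1 ^ 2 - (1 / 2) * p.a ^ 2 * p.s ^ 3 * p.b2 ^ 2 + (1 / 3) * p.a ^ 2 * p.s ^ 2 * p.b1 ^ 2 + (1 / 3) * p.a ^ 2 * p.s ^ 2 * p.b2 ^ 2 + (1 / 8) * p.a ^ 2 * p.s * p.A1 ^ 2 + (1 / 12) * p.a ^ 2 * p.s * p.b1 ^ 2 + (1 / 12) * p.a ^ 2 * p.s * p.b2 ^ 2 + (1 / 8) * p.a ^ 2 * p.A1 ^ 2 + (1 / 12) * p.a ^ 2 * p.b1 ^ 2 + (1 / 12) * p.a ^ 2 * p.b2 ^ 2 - (1 / 4) * p.a * p.s ^ 3 * p.A1 ^ 2 - (1 / 12) * p.a * p.s ^ 2 * p.A1 ^ 2 - (1 / 24) * p.a * p.s * p.A1 ^ 2 + (1 / 4)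 * p.s ^ 3 * p.A1 ^ 2 - (1 / 6) * p.s ^ 2 * p.A1 ^ 2 - (1 / 24) * p.s * p.A1 ^ 2 - (1 / 24) * p.A1 ^ 2) * hs
      + (-(1 / 8) * p.t ^ 4 * p.s ^ 4 - (1 / 8) * p.t ^ 4 * p.s ^ 3 - (1 / 16) * p.t ^ 4 * p.s ^ 2 + (1 / 3) * p.t ^ 2 * p.s ^ 3 + (1 / 6) * p.t ^ 2 * p.s ^ 2 + (1 / 16) * p.t ^ 2 - (1 / 6) * p.s ^ 2 + (1 / 24)) * h11
      + (-(1 / 8) * p.t ^ 4 * p.s ^ 4 - (1 / 8) * p.t ^ 4 * p.s ^ 3 - (1 / 16) * p.t ^ 4 * p.s ^ 2 + (1 / 3) * p.t ^ 2 * p.s ^ 3 + (1 / 6) * p.t ^ 2 * p.s ^ 2 + (1 / 16) * p.t ^ 2 - (1 / 6) * p.s ^ 2 + (1 / 24)) * h22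
      + ((1 / 4) * p.t ^ 4 * p.s ^ 4 + (1 / 4) * p.t ^ 4 * p.s ^ 3 + (1 / 8) * p.t ^ 4 * p.s ^ 2 - (2 / 3) * p.t ^ 2 * p.s ^ 3 - (1 / 3) * p.t ^ 2 * p.s ^ 2 - (1 / 8) * p.t ^ 2 + (1 / 3) * p.s ^ 2 + (1 / 24)) * h33

theorem ricJ_eval (p : Par) (ht : p.t ^ 2 = 1 - p.a ^ 2) (hs : p.a * p.s = 1 - p.s)
    (h11 : p.Z11 = (2 * p.a * p.b2) ^ 2) (h22 : p.Z22 = (2 * p.a * p.b1) ^ 2)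
    (h33 : p.Z33 = p.A1 ^ 2) (h13 : p.Z13 = 2 * p.a * p.b2 * p.A1)
    (i j : Fin 7) :
    ricJ (T3.C (1 / 2)) (KT p) (fun m i j => (GJ p i j).g m)
      (fun m k i j => (GJ p i j).h m k) i j = ⟨0, 0, F2M p i j⟩ := by
  rw [F4_main]
  fin_cases i <;> fin_cases j
  exacts [F4_e00 p ht hs h11 h22 h33 h13, F4_e01 p, F4_e02 p, F4_e03 p, F4_e04 p, F4_e05 p, F4_e06 p,
    F4_e10 p, F4_e11 p ht hs h11 h22 h33 h13, F4_e12 p, F4_e13 p, F4_e14 p, F4_e15 p, F4_e16 p,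
    F4_e20 p, F4_e21 p, F4_e22 p, F4_e23 p, F4_e24 p, F4_e25 p, F4_e26 p,
    F4_e30 p, F4_e31 p, F4_e32 p, F4_e33 p ht hs h11 h22 h33 h13, F4_e34 p, F4_e35 p, F4_e36 p ht hs h11 h22 h33 h13,
    F4_e40 p, F4_e41 p, F4_e42 p, F4_e43 p, F4_e44 p ht hs h11 h22 h33 h13, F4_e45 p ht hs h11 h22 h33 h13, F4_e46 p,
    F4_e50 p, F4_e51 p, F4_e52 p, F4_e53 p, F4_e54 p ht hs h11 h22 h33 h13, F4_e55 p ht hs h11 h22 h33 h13, F4_e56 p,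
    F4_e60 p, F4_e61 p, F4_e62 p, F4_e63 p ht hs h11 h22 h33 h13, F4_e64 p, F4_e65 p, F4_e66 p ht hs h11 h22 h33 h13]

end H31R

end
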