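import Pool.Agent.Lib.H31R.Stat2

/-!
# H31R, chunk S1: from metrics on the tangent spaces to compatible families of matrices

`mat p y = coeff g.inner p y`. `compat`: near `y` one has `(chartAt p).symm = (chartAt q).symm ∘ change p q`, so
`mfderiv (chartAt p).symm y e_i = mfderiv (chartAt q).symm (change p q y) (fderiv (change p q) y e_i)` and
`fderiv (change p q) y e_i = ∑ a, jacobian p q y a i • e_a`; bilinearity. `pos`: `mfderiv (chartAt p).symm y` is
injective. Lengths: the derivative of `(chartAt m).symm` at `chartAt m m` is the identity of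
`TangentSpace m = EE d`, and `mfderiv γ t 1 = velocity γ t`.
-/

open scoped Manifold ContDiff
open Set MeasureTheory

namespace H31R

section S1

variable {d : ℕ} {M : Type} [TopologicalSpace M] [ChartedSpace (EE d) M]

open Ch

theorem S1_mem (p q : M) {y : EE d} (_hy : y ∈ (chartAt (EE d) p).target)
    (hq : (chartAt (EE d) p).symm y ∈ (chartAt (EE d) q).source) :
    change p q y ∈ (chartAt (EE d) q).target ∧
      (chartAt (EE d) q).symm (change p q y) = (chartAt (EE d) p).symm y :=
  ⟨(chartAt (EE d) q).map_source hq, (chartAt (EE d) q).left_inv hq⟩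

theorem S1_near (p q : M) {y : EE d} (hy : y ∈ (chartAt (EE d) p).target)
    (hq : (chartAt (EE d) p).symm y ∈ (chartAt (EE d) q).source) :
    ∀ᶠ z in nhds y, z ∈ (chartAt (EE d) p).target ∧
      (chartAt (EE d) p).symm z ∈ (chartAt (EE d) q).source := by
  have h1 : (chartAt (EE d) p).target ∈ nhds y := (chartAt (EE d) p).open_target.mem_nhds hy
  have h2 : ContinuousAt (chartAt (EE d) p).symm y :=
    (chartAt (EE d) p).continuousAt_symm hy
  have h3 := h2.preimage_mem_nhds ((chartAt (EE d) q).open_source.mem_nhds hq)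
  filter_upwards [h1, h3] with z hz hz2
  exact ⟨hz, hz2⟩

variable [IsManifold (𝓡 d) ∞ M]

theorem S1_smooth (p q : M) {y : EE d} (hy : y ∈ (chartAt (EE d) p).target)
    (hq : (chartAt (EE d) p).symm y ∈ (chartAt (EE d) q).source) :
    ContDiffAt ℝ ∞ (change p q) y := by
  have h1 : ContMDiffAt (𝓡 d) (𝓡 d) ∞ (chartAt (EE d) p).symm y :=
    contMDiffOn_chart_symm.contMDiffAt ((chartAt (EE d) p).open_target.mem_nhds hy)
  have h2 : ContMDiffAt (𝓡 d) (𝓡 d) ∞ (chartAt (EE d) q) ((chartAt (EE d) p).symm y) :=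
    contMDiffOn_chart.contMDiffAt ((chartAt (EE d) q).open_source.mem_nhds hq)
  exact contMDiffAt_iff_contDiffAt.1 (h2.comp y h1)

/-- the derivative of the inverse of a chart -/
theorem S1_mfderiv (p : M) {y : EE d} (hy : y ∈ (chartAt (EE d) p).target) :
    (mfderiv (𝓡 d) (𝓡 d) (chartAt (EE d) p).symm y : EE d →L[ℝ] EE d) =
      fderiv ℝ (change p ((chartAt (EE d) p).symm y)) y := by
  have hd : MDifferentiableAt (𝓡 d) (𝓡 d) (chartAt (EE d) p).symm y :=
    mdifferentiableAt_atlas_symm (chart_mem_atlas _ _) hy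
  rw [hd.mfderiv]
  have h2 : range (𝓡 d : EE d → EE d) = univ := by simp
  rw [h2, fderivWithin_univ]
  rfl

theorem S1_chain (p q : M) {y : EE d} (hy : y ∈ (chartAt (EE d) p).target)
    (hq : (chartAt (EE d) p).symm y ∈ (chartAt (EE d) q).source) (v : EE d) :
    fderiv ℝ (change p ((chartAt (EE d) p).symm y)) y v =
      fderiv ℝ (change q ((chartAt (EE d) q).symm (change p q y))) (change p q y)
        (fderiv ℝ (change p q) y v) := by
  obtain ⟨h1, h2⟩ := S1_mem p q hy hq
  rw [h2]
  have h3 : change p ((chartAt (EE d) p).symm y) =ᶠ[nhds y]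
      (change q ((chartAt (EE d) p).symm y)) ∘ (change p q) := by
    filter_upwards [S1_near p q hy hq] with z hz
    show _ = chartAt (EE d) _ ((chartAt (EE d) q).symm (change p q z))
    rw [(S1_mem p q hz.1 hz.2).2]
    rfl
  have h4 : (chartAt (EE d) q).symm (change p q y) ∈
      (chartAt (EE d) ((chartAt (EE d) p).symm y)).source := by
    rw [h2]
    exact mem_chart_source _ _
  have h5 : DifferentiableAt ℝ (change q ((chartAt (EE d) p).symm y)) (change p q y) :=
    (S1_smooth q _ h1 h4).differentiableAt (by simp)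
  have h6 : DifferentiableAt ℝ (change p q) y :=
    (S1_smooth p q hy hq).differentiableAt (by simp)
  rw [h3.fderiv_eq, fderiv_comp y h5 h6]
  rfl

/-- The scalar product at a point, on `EE d`. -/
noncomputable def S1_B (g : RMetric d M) (q : M) : EE d →ₗ[ℝ] EE d →ₗ[ℝ] ℝ := g.inner q

theorem S1_coeff (g : RMetric d M) (p : M) {y : EE d}
    (hy : y ∈ (chartAt (EE d) p).target) (i j : Fin d) :
    coeff g.inner p y i j = S1_B g ((chartAt (EE d) p).symm y)
      (fderiv ℝ (change p ((chartAt (EE d) p).symm y)) y (ebas i))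
      (fderiv ℝ (change p ((chartAt (EE d) p).symm y)) y (ebas j)) := by
  rw [← S1_mfderiv p hy]
  rfl

theorem S1_sum (v : EE d) : v = ∑ i, v i • (ebas i : EE d) := by
  ext k
  simp only [WithLp.ofLp_sum, WithLp.ofLp_smul, Finset.sum_apply, Pi.smul_apply,
    PiLp.ofLp_single, smul_eq_mul, ebas]
  rw [Finset.sum_eq_single k]
  · simp
  · intro b _ hb
    rw [Pi.single_eq_of_ne hb.symm, mul_zero]
  · intro h
    exact absurd (Finset.mem_univ k) h

theorem S1_bil (B : EE d →ₗ[ℝ] EE d →ₗ[ℝ] ℝ) (L : EE d →L[ℝ] EE d) (u v : EE d) :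
    B (L u) (L v) = ∑ i, ∑ j, B (L (ebas i)) (L (ebas j)) * u i * v j := by
  conv_lhs => rw [S1_sum u, S1_sum v]
  simp only [map_sum, map_smul, LinearMap.sum_apply, LinearMap.smul_apply, smul_eq_mul]
  rw [Finset.sum_comm]
  refine Finset.sum_congr rfl fun i _ => ?_
  rw [Finset.mul_sum]
  refine Finset.sum_congr rfl fun j _ => ?_
  ring

end S1

theorem transfer {d : ℕ} {M : Type} [TopologicalSpace M] [ChartedSpace (EE d) M]
    [IsManifold (𝓡 d) ∞ M] (g : RMetric d M) : ∃ g' : Ch.Metric d M,
      (∀ p y, g'.mat p y = coeff g.inner p y) ∧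
      (∀ γ : ℝ → M, ContMDiff 𝓘(ℝ, ℝ) (𝓡 d) 1 γ → Ch.len g' γ = len g γ) := by
  refine ⟨⟨fun p y => coeff g.inner p y, g.smooth, ?_, ?_, ?_⟩, fun _ _ => rfl, ?_⟩
  · intro p y hy i j
    exact g.symm _ _ _
  · intro p y hy v hv
    have e : ∑ i, ∑ j, coeff g.inner p y i j * v i * v j =
        S1_B g ((chartAt (EE d) p).symm y)
          (fderiv ℝ (Ch.change p ((chartAt (EE d) p).symm y)) y (WithLp.toLp 2 v))
          (fderiv ℝ (Ch.change p ((chartAt (EE d) p).symm y)) y (WithLp.toLp 2 v)) := by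
      rw [S1_bil]
      refine Finset.sum_congr rfl fun i _ => Finset.sum_congr rfl fun j _ => ?_
      rw [S1_coeff g p hy]
    rw [e]
    refine g.pos _ _ ?_
    intro h0
    apply hv
    have hm : (chartAt (EE d) p).symm y ∈ (chartAt (EE d) p).source :=
      (chartAt (EE d) p).map_target hy
    have hm' : (chartAt (EE d) p).symm y ∈
        (chartAt (EE d) ((chartAt (EE d) p).symm y)).source := mem_chart_source _ _
    set m := (chartAt (EE d) p).symm y with hmdef
    obtain ⟨h1, h2⟩ := S1_mem p m hy hm'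
    have h3 : (Ch.change m p) ∘ (Ch.change p m) =ᶠ[nhds y] id := by
      filter_upwards [S1_near p m hy hm'] with z hz
      show chartAt (EE d) p ((chartAt (EE d) m).symm (Ch.change p m z)) = z
      rw [(S1_mem p m hz.1 hz.2).2]
      exact (chartAt (EE d) p).right_inv hz.1
    have h4 : DifferentiableAt ℝ (Ch.change p m) y :=
      (S1_smooth p m hy hm').differentiableAt (by simp)
    have h5 : DifferentiableAt ℝ (Ch.change m p) (Ch.change p m y) :=
      (S1_smooth m p h1 (by rw [h2]; exact hm)).differentiableAt (by simp)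
    have h6 : fderiv ℝ ((Ch.change m p) ∘ (Ch.change p m)) y = fderiv ℝ id y := h3.fderiv_eq
    rw [fderiv_comp y h5 h4, fderiv_id] at h6
    have h7 := congrArg (fun L : EE d →L[ℝ] EE d => L (WithLp.toLp 2 v)) h6
    have h8 : fderiv ℝ (Ch.change p m) y (WithLp.toLp 2 v) = 0 := h0
    simp only [ContinuousLinearMap.comp_apply, h8, map_zero, ContinuousLinearMap.id_apply] at h7
    have h9 : (WithLp.toLp 2 v : EE d) = 0 := h7.symm
    funext i
    have := congrArg (fun w : EE d => w i) h9
    simpa using this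
  · intro p q y hy hq
    obtain ⟨h1, h2⟩ := S1_mem p q hy hq
    ext i j
    show coeff g.inner p y i j = _
    rw [S1_coeff g p hy, S1_chain p q hy hq, S1_chain p q hy hq, S1_bil]
    simp only [Matrix.mul_apply, Matrix.transpose_apply, Finset.sum_mul]
    rw [Finset.sum_comm]
    refine Finset.sum_congr rfl fun b _ => Finset.sum_congr rfl fun a _ => ?_
    have hJ : ∀ (c i : Fin d), (fderiv ℝ (Ch.change p q) y (ebas i)) c =
        Ch.jacobian p q y c i := by
      intro c i
      have hd : DifferentiableAt ℝ (Ch.change p q) y :=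
        (S1_smooth p q hy hq).differentiableAt (by simp)
      have h := ((EuclideanSpace.proj (𝕜 := ℝ) c).hasFDerivAt.comp y hd.hasFDerivAt).fderiv
      have h' : fderiv ℝ (fun z => Ch.change p q z c) y =
          (EuclideanSpace.proj (𝕜 := ℝ) c).comp (fderiv ℝ (Ch.change p q) y) := h
      show _ = fderiv ℝ (fun z => Ch.change p q z c) y (ebas i)
      rw [h']
      rfl
    rw [hJ, hJ, S1_coeff g q h1, h2]
    ring
  · intro γ hγ
    unfold Ch.len len
    refine lintegral_congr fun t => ?_
    congr 2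
    set m := γ t with hm
    set y := chartAt (EE d) m m with hy
    have hyt : y ∈ (chartAt (EE d) m).target := mem_chart_target _ _
    have hsy : (chartAt (EE d) m).symm y = m := (chartAt (EE d) m).left_inv (mem_chart_source _ _)
    have h1 : (mfderiv 𝓘(ℝ, ℝ) (𝓡 d) γ t : ℝ →L[ℝ] EE d) 1 = Ch.velocity γ t := by
      have hd : MDifferentiableAt 𝓘(ℝ, ℝ) (𝓡 d) γ t := (hγ t).mdifferentiableAt (by simp)
      rw [hd.mfderiv]
      have h2 : range (𝓘(ℝ, ℝ) : ℝ → ℝ) = univ := by simp
      rw [h2, fderivWithin_univ]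
      rfl
    have h2 : ∀ w : EE d, fderiv ℝ (Ch.change m ((chartAt (EE d) m).symm y)) y w = w := by
      intro w
      have h3 : Ch.change m ((chartAt (EE d) m).symm y) =ᶠ[nhds y] id := by
        rw [hsy]
        filter_upwards [(chartAt (EE d) m).open_target.mem_nhds hyt] with z hz
        exact (chartAt (EE d) m).right_inv hz
      rw [h3.fderiv_eq, fderiv_id]
      rfl
    have h4 : g.inner m (mfderiv 𝓘(ℝ, ℝ) (𝓡 d) γ t (1 : ℝ))
        (mfderiv 𝓘(ℝ, ℝ) (𝓡 d) γ t (1 : ℝ)) = S1_B g m (Ch.velocity γ t) (Ch.velocity γ t) := by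
      rw [← h1]
      rfl
    refine Eq.trans ?_ h4.symm
    have h5 := S1_bil (S1_B g m) (ContinuousLinearMap.id ℝ (EE d)) (Ch.velocity γ t)
      (Ch.velocity γ t)
    simp only [ContinuousLinearMap.id_apply] at h5
    rw [h5]
    refine Finset.sum_congr rfl fun i _ => Finset.sum_congr rfl fun j _ => ?_
    show coeff g.inner m y i j * _ * _ = _
    rw [S1_coeff g m hyt, h2, h2, hsy]

/-- the three bounds -/
theorem transfer_class {d : ℕ} {M : ClosedManifold d} {lam v D : ℝ} (h : InClass lam v D M) :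
    ∃ g : Ch.Metric d M.carrier, Ch.RicBounded g lam ∧ ENNReal.ofReal v ≤ Ch.vol g ∧
      ∀ x y, Ch.rdist g x y ≤ ENNReal.ofReal D := by
  obtain ⟨g, h1, h2, h3⟩ := h
  obtain ⟨g', e1, e2⟩ := transfer g
  have e3 : ∀ p, g'.mat p = coeff g.inner p := fun p => funext fun y => e1 p y
  refine ⟨g', ?_, ?_, ?_⟩
  · intro p y hy
    rw [e3 p]
    exact h1 p y hy
  · refine h2.trans (le_of_eq ?_)
    unfold vol Ch.vol
    simp only [e3]
  · intro x y
    refine le_trans (le_of_eq ?_) (h3 x y)
    unfold rdist Ch.rdist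
    refine iInf_congr fun γ => iInf_congr fun hγ => ?_
    exact e2 γ hγ.1

end H31R
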