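import Pool.Agent.Lib.H31R.TG2

/-!
# H31R, chunk TG3: the diffeomorphism lifts to an equivariant map

`smooth_lift`: locally `F = σ ∘ f` with a local inverse `σ` of `prj l` (`prj_local_inverse`: near `q` with
`F q = p` one has `F q' ∈ Ubox p`, so `σ (f q') = σ (prj l (F q')) = F q'`), a composition of smooth maps
(`ContMDiffOn` between vector spaces is `ContDiffOn`).
`exists_maps`: let `Φ : MK k ≃ MK l`; `f = Φ ∘ prj k`, `PH` its lift (`lift_OM`). `PH ∘ act k n` and `PH` are two lifts of `f`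
on the connected set `OM` (`prj_act`), so `PH ∘ act k n = act l (m n) ∘ PH` (`lift_unique`). The same for `Φ⁻¹` gives
`PH'`, and `PH' ∘ PH` and the identity are lifts of `prj k`.
-/

open scoped Manifold ContDiff Topology
open Real Set MeasureTheory

namespace H31R.Tp

theorem smooth_lift {l : ℕ} {f : EE 7 → (MK l).carrier} (hf : ContMDiffOn (𝓡 7) (𝓡 7) ∞ f OM)
    {F : EE 7 → EE 7} (hF : ContinuousOn F OM) (hm : ∀ p ∈ OM, F p ∈ OM)
    (he : ∀ p ∈ OM, prj l (F p) = f p) : ContDiffOn ℝ ∞ F OM := by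
  intro p0 hp0
  obtain ⟨σ, hσ, hσ2⟩ := prj_local_inverse l (hm p0 hp0)
  have hU : IsOpen (OM ∩ F ⁻¹' Ubox (F p0)) := hF.isOpen_inter_preimage isOpen_OM isOpen_Ubox
  have hp0U : p0 ∈ OM ∩ F ⁻¹' Ubox (F p0) := ⟨hp0, mem_Ubox (hm p0 hp0)⟩
  have h1 : ContMDiffOn (𝓡 7) (𝓡 7) ∞ (σ ∘ f) (OM ∩ F ⁻¹' Ubox (F p0)) := by
    refine hσ.comp (hf.mono inter_subset_left) ?_
    rintro q ⟨hq1, hq2⟩
    exact ⟨F q, hq2, he q hq1⟩
  have h2 : ContDiffOn ℝ ∞ (σ ∘ f) (OM ∩ F ⁻¹' Ubox (F p0)) := contMDiffOn_iff_contDiffOn.1 h1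
  have h3 : ContDiffOn ℝ ∞ F (OM ∩ F ⁻¹' Ubox (F p0)) := by
    refine h2.congr ?_
    rintro q ⟨hq1, hq2⟩
    show F q = σ (f q)
    rw [← he q hq1, hσ2 (F q) hq2]
  exact (h3.contDiffAt (hU.mem_nhds hp0U)).contDiffWithinAt

theorem TG3_half {k l : ℕ} (Φ : Diffeomorph (𝓡 7) (𝓡 7) (MK k).carrier (MK l).carrier ∞) :
    ∃ (PH : EE 7 → EE 7) (m : ℤ × ℤ × ℤ → ℤ × ℤ × ℤ), EqMap k l PH m ∧
      ∀ p ∈ OM, prj l (PH p) = Φ (prj k p) := by
  have hf : ContMDiffOn (𝓡 7) (𝓡 7) ∞ (fun p => Φ (prj k p)) OM :=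
    Φ.contMDiff.comp_contMDiffOn (prj_contMDiffOn k)
  obtain ⟨PH, h1, h2, h3⟩ := lift_OM hf.continuousOn
  have h4 : ∀ n : ℤ × ℤ × ℤ, ∃ n' : ℤ × ℤ × ℤ, ∀ p ∈ OM, PH (act k n p) = act l n' (PH p) := by
    intro n
    refine lift_unique OM_preconnected h1 (F' := fun p => PH (act k n p))
      (h1.comp (continuousOn_act k n) fun p hp => act_mem k n hp) h2
      (fun p hp => h2 _ (act_mem k n hp)) fun p hp => ?_
    rw [h3 p hp, h3 _ (act_mem k n hp)]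
    show Φ (prj k p) = Φ (prj k (act k n p))
    rw [prj_act hp]
  choose m hm using h4
  exact ⟨PH, m, ⟨smooth_lift hf h1 h2 h3, h2, fun n p hp => hm n p hp⟩, h3⟩

theorem TG3_id {k : ℕ} {F : EE 7 → EE 7} (hF : ContinuousOn F OM) (hm : ∀ p ∈ OM, F p ∈ OM)
    (he : ∀ p ∈ OM, prj k (F p) = prj k p) : ∃ n : ℤ × ℤ × ℤ, ∀ p ∈ OM, F p = act k n p :=
  lift_unique OM_preconnected (F := fun p => p) continuousOn_id hF (fun _ hp => hp) hm
    fun p hp => (he p hp).symm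

theorem exists_maps {k l : ℕ} (h : Diffeomorphic (MK k) (MK l)) :
    ∃ (PH PH' : EE 7 → EE 7) (m m' : ℤ × ℤ × ℤ → ℤ × ℤ × ℤ) (n0 n0' : ℤ × ℤ × ℤ),
      EqMap k l PH m ∧ EqMap l k PH' m' ∧ (∀ p ∈ OM, PH' (PH p) = act k n0 p) ∧
      ∀ p ∈ OM, PH (PH' p) = act l n0' p := by
  obtain ⟨Φ⟩ := h
  obtain ⟨PH, m, h1, h2⟩ := TG3_half Φ
  obtain ⟨PH', m', h3, h4⟩ := TG3_half Φ.symm
  obtain ⟨n0, hn0⟩ := TG3_id (k := k) (F := fun p => PH' (PH p))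
    (h3.smooth.continuousOn.comp h1.smooth.continuousOn h1.maps)
    (fun p hp => h3.maps _ (h1.maps p hp)) fun p hp => by
      rw [h4 _ (h1.maps p hp), h2 p hp]
      exact Φ.left_inv _
  obtain ⟨n0', hn0'⟩ := TG3_id (k := l) (F := fun p => PH (PH' p))
    (h1.smooth.continuousOn.comp h3.smooth.continuousOn h3.maps)
    (fun p hp => h1.maps _ (h3.maps p hp)) fun p hp => by
      rw [h2 _ (h3.maps p hp), h4 p hp]
      exact Φ.right_inv _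
  exact ⟨PH, PH', m, m', n0, n0', h1, h3, hn0, hn0'⟩

end H31R.Tp
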