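import Pool.Agent.Lib.H31R.TF3
import Pool.Agent.Lib.H31R.TG3

/-!
# H31R, part T: `M_k` and `M_l` are not diffeomorphic for `k ≠ l`
-/

namespace H31R

theorem eq_of_diffeomorphic {k l : ℕ} (hk : 1 ≤ k) (hl : 1 ≤ l)
    (h : Diffeomorphic (MK k) (MK l)) : k = l := by
  obtain ⟨PH, PH', m, m', n0, n0', h1, h2, h3, h4⟩ := Tp.exists_maps h
  exact Nat.dvd_antisymm (Tp.dvd_of_maps hl h2 h1 h4) (Tp.dvd_of_maps hk h1 h2 h3)

end H31R
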