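import Pool.Agent.Lib.H31R.C10
import Pool.Agent.Lib.H31R.D2
import Pool.Agent.Lib.H31R.D3
import Pool.Agent.Lib.H31R.T
import Pool.Agent.Lib.H31R.S1

/-!
# H31R: final assembly
-/

open scoped Manifold ContDiff Topology
open Set MeasureTheory

namespace H31R

theorem finitenessFails_seven : FinitenessFails 7 := by
  obtain ⟨C0, hC0, hR⟩ := RB_gg
  obtain ⟨v0, hv0, hV⟩ := vol_gg
  obtain ⟨D0, hD0, hD⟩ := diam_gg
  refine ⟨C0, v0, D0, hC0, hv0, hD0, fun n => MK (n + 1), fun n => ?_, fun m n hmn h => ?_⟩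
  · obtain ⟨e1, he1, h1⟩ := hR (n + 1)
    obtain ⟨e2, he2, h2⟩ := hD (n + 1)
    obtain ⟨ε, hε0, hε⟩ : ∃ ε : ℝ, 0 < ε ∧ ε < min e1 (min e2 (1 / 2)) :=
      exists_between (lt_min he1 (lt_min he2 (by norm_num)))
    have h3 : ε < e1 := lt_of_lt_of_le hε (min_le_left _ _)
    have h4 : ε < e2 := lt_of_lt_of_le hε ((min_le_right _ _).trans (min_le_left _ _))
    have h5 : ε < 1 / 2 := lt_of_lt_of_le hε ((min_le_right _ _).trans (min_le_right _ _))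
    obtain ⟨hI, hRB⟩ := h1 ε hε0 h3
    obtain ⟨G, hG1, hG2⟩ := exists_RMetric hI
    exact ⟨G, ricBounded_of_RB hG1 hRB, hV (n + 1) ε hε0 h5 hI G hG1, h2 ε hε0 h4 G hG2⟩
  · exact hmn (Nat.succ_injective (eq_of_diffeomorphic (Nat.succ_pos m) (Nat.succ_pos n) h))

theorem finitenessFails_seven_ch : ∃ lam v D : ℝ, 0 < lam ∧ 0 < v ∧ 0 < D ∧
    ∃ M : ℕ → ClosedManifold 7,
      (∀ n, ∃ g : Ch.Metric 7 (M n).carrier, Ch.RicBounded g lam ∧ ENNReal.ofReal v ≤ Ch.vol g ∧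
        ∀ x y, Ch.rdist g x y ≤ ENNReal.ofReal D) ∧
      ∀ m n, m ≠ n → ¬ Diffeomorphic (M m) (M n) := by
  obtain ⟨lam, v, D, h1, h2, h3, M, h4, h5⟩ := finitenessFails_seven
  exact ⟨lam, v, D, h1, h2, h3, M, fun n => transfer_class (h4 n), h5⟩

end H31R
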