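import Pool.Agent.Lib.H31R.PC

/-!
# H31R, part P: volume and diameter of the product with a torus
-/

open scoped Manifold ContDiff Topology
open Set MeasureTheory

namespace H31R

/-! ### the identification preserves the volume -/

theorem jn_symm_measurePreserving (d m : ℕ) :
    MeasurePreserving (fun z : EE (d + m) => (jp1 d m z, jp2 d m z)) volume volume := by
  have h1 : MeasurePreserving (fun z : EE (d + m) => WithLp.ofLp z) volume volume :=
    PiLp.volume_preserving_ofLp (Fin (d + m))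
  have h2 : MeasurePreserving
      (MeasurableEquiv.piCongrLeft (fun _ : Fin (d + m) => ℝ) finSumFinEquiv).symm
      volume volume :=
    (volume_measurePreserving_piCongrLeft (fun _ : Fin (d + m) => ℝ) finSumFinEquiv).symm
  have h3 : MeasurePreserving
      (MeasurableEquiv.sumPiEquivProdPi (fun _ : Fin d ⊕ Fin m => ℝ)) volume volume :=
    volume_measurePreserving_sumPiEquivProdPi (fun _ : Fin d ⊕ Fin m => ℝ)
  have h4 : MeasurePreserving (Prod.map (@WithLp.toLp 2 (Fin d → ℝ)) (id : (Fin m → ℝ) → _))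
      volume volume :=
    (PiLp.volume_preserving_toLp (Fin d)).prod (MeasurePreserving.id volume)
  exact h4.comp (h3.comp (h2.comp h1))

theorem PD_emb (d m : ℕ) :
    MeasurableEmbedding (fun z : EE (d + m) => (jp1 d m z, jp2 d m z)) :=
  (jn d m).symm.toHomeomorph.measurableEmbedding

/-- the unit cube with centre `c` -/
def cube {m : ℕ} (c : Fin m → ℝ) : Set (Fin m → ℝ) :=
  Set.pi univ fun j => Ioo (c j - 1 / 2) (c j + 1 / 2)

theorem volume_cube {m : ℕ} (c : Fin m → ℝ) : volume (cube c) = 1 := by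
  unfold cube
  rw [volume_pi_pi]
  have h : ∀ j, volume (Ioo (c j - 1 / 2) (c j + 1 / 2)) = 1 := by
    intro j
    rw [Real.volume_Ioo]
    have : c j + 1 / 2 - (c j - 1 / 2) = 1 := by ring
    rw [this, ENNReal.ofReal_one]
  simp only [h, Finset.prod_const_one]

theorem PD_integral {d m : ℕ} {f : EE d → ENNReal} {A : Set (EE d)}
    (hf : AEMeasurable f (volume.restrict A)) (hA : MeasurableSet A) (c : Fin m → ℝ) :
    ∫⁻ y in {y : EE (d + m) | jp1 d m y ∈ A ∧ jp2 d m y ∈ cube c}, f (jp1 d m y) =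
      ∫⁻ x in A, f x := by
  have e : {y : EE (d + m) | jp1 d m y ∈ A ∧ jp2 d m y ∈ cube c} =
      (fun z : EE (d + m) => (jp1 d m z, jp2 d m z)) ⁻¹' (A ×ˢ cube c) := rfl
  rw [e, (jn_symm_measurePreserving d m).setLIntegral_comp_preimage_emb (PD_emb d m)
    (fun z : EE d × (Fin m → ℝ) => f z.1)]
  have hv : (volume : Measure (EE d × (Fin m → ℝ))) = volume.prod volume := rfl
  rw [hv, ← Measure.prod_restrict]
  have h1 : AEMeasurable (fun z : EE d × (Fin m → ℝ) => f z.1)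
      ((volume.restrict A).prod (volume.restrict (cube c))) := hf.comp_fst
  rw [lintegral_prod _ h1]
  simp only [lintegral_const, Measure.restrict_apply_univ, volume_cube, mul_one]

section vol

variable {d m : ℕ} {M : Type} [TopologicalSpace M] [ChartedSpace (EE d) M]
  [IsManifold (𝓡 d) ∞ M]

theorem PD_meas (g : RMetric d M) (c : M) {A : Set (EE d)} (hA : MeasurableSet A)
    (hA2 : A ⊆ (chartAt (EE d) c).target) :
    AEMeasurable (fun y => ENNReal.ofReal (Real.sqrt (coeff g.inner c y).det))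
      (volume.restrict A) := by
  have h1 : ContinuousOn (fun y => (coeff g.inner c y).det) (chartAt (EE d) c).target := by
    simp only [Matrix.det_apply]
    refine continuousOn_finsetSum _ fun σ _ => ?_
    refine ContinuousOn.const_smul ?_ _
    exact continuousOn_finsetProd _ fun i _ => (g.smooth c _ _).continuousOn
  have h2 : ContinuousOn (fun y => ENNReal.ofReal (Real.sqrt (coeff g.inner c y).det)) A :=
    ENNReal.continuous_ofReal.comp_continuousOn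
      (Real.continuous_sqrt.comp_continuousOn (h1.mono hA2))
  exact h2.aemeasurable hA

theorem vol_prod_ge (m : ℕ) (g : RMetric d M) : vol g ≤ vol (pmet m g) := by
  refine iSup_le fun n => iSup_le fun c => iSup_le fun A => iSup_le fun h => ?_
  obtain ⟨h1, h2⟩ := h
  let q : Fin n → PTor M m := fun i => pmk (c i) 0
  let A' : Fin n → Set (EE (d + m)) := fun i =>
    {y | jp1 d m y ∈ A i ∧ jp2 d m y ∈ cube fun j => crep ((q i).2 j)}
  have hA' : ∀ i, A' i ⊆ (chartAt (EE (d + m)) (q i)).target := by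
    intro i y hy
    exact (mem_PTor_chart_target (q i) y).2 ⟨(h1 i).2 hy.1, fun j => hy.2 j (mem_univ j)⟩
  have hm' : ∀ i, MeasurableSet (A' i) := by
    intro i
    refine ((h1 i).1.preimage (jp1 d m).continuous.measurable).inter ?_
    have hc : MeasurableSet (cube fun j => crep ((q i).2 j)) :=
      MeasurableSet.univ_pi fun j => measurableSet_Ioo
    exact hc.preimage (jp2 d m).continuous.measurable
  have hsum : ∑ i, ∫⁻ y in A i, ENNReal.ofReal (Real.sqrt (coeff g.inner (c i) y).det) =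
      ∑ i, ∫⁻ y in A' i, ENNReal.ofReal (Real.sqrt (coeff (pmet m g).inner (q i) y).det) := by
    refine Finset.sum_congr rfl fun i _ => ?_
    rw [← PD_integral (PD_meas g (c i) (h1 i).1 (h1 i).2) (h1 i).1
      (fun j => crep ((q i).2 j))]
    refine setLIntegral_congr_fun (hm' i) fun y hy => ?_
    have e : coeff (pmet m g).inner (q i) y = blk m (coeff g.inner (c i) (jp1 d m y)) :=
      coeff_pinner g.inner (q i) (hA' i hy)
    rw [e, blk_det]
  rw [hsum]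
  refine le_iSup_of_le n (le_iSup_of_le q (le_iSup_of_le A' (le_iSup_of_le ⟨?_, ?_⟩ le_rfl)))
  · exact fun i => ⟨hm' i, hA' i⟩
  · intro i j hij
    show Disjoint ((chartAt (EE (d + m)) (q i)).symm '' A' i)
      ((chartAt (EE (d + m)) (q j)).symm '' A' j)
    rw [Set.disjoint_left]
    rintro _ ⟨y, hy, rfl⟩ ⟨z, hz, hzy⟩
    have h3 := congrArg Prod.fst hzy
    refine Set.disjoint_left.1 (h2 hij) ⟨jp1 d m y, hy.1, rfl⟩ ⟨jp1 d m z, hz.1, ?_⟩
    exact h3

/-! ### distances -/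

theorem PD_crep_mem (s : S1) : 0 ≤ crep s ∧ crep s < 1 := by
  have h : crep s ∈ Ico (0 : ℝ) (0 + 1) := (AddCircle.equivIco (1 : ℝ) 0 s).2
  exact ⟨h.1, by linarith [h.2]⟩

theorem PD_sqrt_add {x y : ℝ} (hx : 0 ≤ x) (hy : 0 ≤ y) :
    Real.sqrt (x + y) ≤ Real.sqrt x + Real.sqrt y := by
  rw [Real.sqrt_le_iff]
  refine ⟨add_nonneg (Real.sqrt_nonneg x) (Real.sqrt_nonneg y), ?_⟩
  have h1 := Real.sq_sqrt hx
  have h2 := Real.sq_sqrt hy
  have h3 := mul_nonneg (Real.sqrt_nonneg x) (Real.sqrt_nonneg y)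
  have h4 : (Real.sqrt x + Real.sqrt y) ^ 2 = Real.sqrt x ^ 2 + Real.sqrt y ^ 2 +
      2 * (Real.sqrt x * Real.sqrt y) := by ring
  rw [h4, h1, h2]
  linarith

theorem rdist_prod_le (m : ℕ) (g : RMetric d M) (x y : PTor M m) :
    rdist (pmet m g) x y ≤ rdist g x.1 y.1 + m := by
  let a : Fin m → ℝ := fun j => crep (x.2 j)
  let b : Fin m → ℝ := fun j => crep (y.2 j)
  unfold rdist
  rw [ENNReal.iInf_add (ι := ℝ → M)]
  refine le_iInf fun γ => ?_
  rw [ENNReal.iInf_add]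
  refine le_iInf fun h => ?_
  obtain ⟨hγ, h0, h1⟩ := h
  let Γ : ℝ → PTor M m := fun t => pmk (γ t) (a + t • (b - a))
  have hd : ∀ t, HasFDerivAt (fun t : ℝ => a + t • (b - a))
      ((ContinuousLinearMap.id ℝ ℝ).smulRight (b - a)) t := fun t =>
    ((hasFDerivAt_id t).smul_const (b - a)).const_add a
  have hΓ : ContMDiff 𝓘(ℝ, ℝ) (𝓡 (d + m)) 1 Γ := by
    intro t
    refine contMDiffAt_pt (hγ t) ?_
    have : ContDiff ℝ 1 (fun t : ℝ => a + t • (b - a)) := by fun_prop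
    exact this.contMDiff t
  have hΓ0 : Γ 0 = x := by
    refine Prod.ext h0 ?_
    funext j
    show ((a j + 0 * (b j - a j) : ℝ) : S1) = x.2 j
    rw [zero_mul, add_zero]
    exact coe_crep _
  have hΓ1 : Γ 1 = y := by
    refine Prod.ext h1 ?_
    funext j
    show ((a j + 1 * (b j - a j) : ℝ) : S1) = y.2 j
    rw [one_mul, add_sub_cancel]
    exact coe_crep _
  have hle : (⨅ (γ : ℝ → PTor M m) (_ : ContMDiff 𝓘(ℝ, ℝ) (𝓡 (d + m)) 1 γ ∧ γ 0 = x ∧ γ 1 = y),
      len (pmet m g) γ) ≤ len (pmet m g) Γ := iInf₂_le Γ ⟨hΓ, hΓ0, hΓ1⟩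
  refine hle.trans ?_
  have hder : ∀ t : ℝ, (mfderiv 𝓘(ℝ, ℝ) (𝓡 (d + m)) Γ t : ℝ →L[ℝ] EE (d + m)) 1 =
      jn d m ((mfderiv 𝓘(ℝ, ℝ) (𝓡 d) γ t : ℝ →L[ℝ] EE d) 1, b - a) := by
    intro t
    have h2 := (mfderiv_pt (m := m) ((hγ t).mdifferentiableAt (by simp))
      (hd t).differentiableAt.mdifferentiableAt).2 1
    refine Eq.trans h2 ?_
    have h3 : (mfderiv 𝓘(ℝ, ℝ) 𝓘(ℝ, Fin m → ℝ) (fun t : ℝ => a + t • (b - a)) t :
        ℝ →L[ℝ] (Fin m → ℝ)) = (ContinuousLinearMap.id ℝ ℝ).smulRight (b - a) := by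
      rw [mfderiv_eq_fderiv]
      exact (hd t).fderiv
    have h4 : ((ContinuousLinearMap.id ℝ ℝ).smulRight (b - a) : ℝ →L[ℝ] (Fin m → ℝ)) 1 =
        b - a := by simp
    have h5 : (mfderiv 𝓘(ℝ, ℝ) 𝓘(ℝ, Fin m → ℝ) (fun t : ℝ => a + t • (b - a)) t :
        ℝ →L[ℝ] (Fin m → ℝ)) 1 = b - a :=
      (congrArg (fun L : ℝ →L[ℝ] (Fin m → ℝ) => L 1) h3).trans h4
    exact congrArg (fun w : Fin m → ℝ =>
      jn d m ((mfderiv 𝓘(ℝ, ℝ) (𝓡 d) γ t : ℝ →L[ℝ] EE d) 1, w)) h5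
  have hS : ∑ j, (b - a) j * (b - a) j ≤ (m : ℝ) := by
    have h5 : ∀ j ∈ (Finset.univ : Finset (Fin m)), (b - a) j * (b - a) j ≤ 1 := by
      intro j _
      have h6 := PD_crep_mem (x.2 j)
      have h7 := PD_crep_mem (y.2 j)
      show (crep (y.2 j) - crep (x.2 j)) * (crep (y.2 j) - crep (x.2 j)) ≤ 1
      have h8 : |crep (y.2 j) - crep (x.2 j)| ≤ 1 := abs_le.2 ⟨by linarith, by linarith⟩
      rw [← abs_mul_abs_self]
      exact mul_le_one₀ h8 (abs_nonneg _) h8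
    refine (Finset.sum_le_sum h5).trans ?_
    simp
  have hm : Real.sqrt (m : ℝ) ≤ m := by
    rw [Real.sqrt_le_iff]
    refine ⟨Nat.cast_nonneg m, ?_⟩
    have : m ≤ m ^ 2 := Nat.le_self_pow (by norm_num) m
    exact_mod_cast this
  unfold len
  calc ∫⁻ t in Icc (0 : ℝ) 1, ENNReal.ofReal (Real.sqrt
        ((pmet m g).inner (Γ t) (mfderiv 𝓘(ℝ, ℝ) (𝓡 (d + m)) Γ t (1 : ℝ))
          (mfderiv 𝓘(ℝ, ℝ) (𝓡 (d + m)) Γ t (1 : ℝ))))
      ≤ ∫⁻ t in Icc (0 : ℝ) 1, (ENNReal.ofReal (Real.sqrt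
        (g.inner (γ t) (mfderiv 𝓘(ℝ, ℝ) (𝓡 d) γ t (1 : ℝ))
          (mfderiv 𝓘(ℝ, ℝ) (𝓡 d) γ t (1 : ℝ)))) + ENNReal.ofReal m) := by
        refine lintegral_mono fun t => ?_
        rw [← ENNReal.ofReal_add (Real.sqrt_nonneg _) (Nat.cast_nonneg m)]
        apply ENNReal.ofReal_le_ofReal
        have e1 : (pmet m g).inner (Γ t) (mfderiv 𝓘(ℝ, ℝ) (𝓡 (d + m)) Γ t (1 : ℝ))
          (mfderiv 𝓘(ℝ, ℝ) (𝓡 (d + m)) Γ t (1 : ℝ)) =
            g.inner (γ t) (mfderiv 𝓘(ℝ, ℝ) (𝓡 d) γ t (1 : ℝ))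
              (mfderiv 𝓘(ℝ, ℝ) (𝓡 d) γ t (1 : ℝ)) + ∑ j, (b - a) j * (b - a) j := by
          have h9 := pbil_apply (m := m) (g.inner (γ t) : EE d →ₗ[ℝ] EE d →ₗ[ℝ] ℝ)
            (jn d m ((mfderiv 𝓘(ℝ, ℝ) (𝓡 d) γ t : ℝ →L[ℝ] EE d) 1, b - a))
            (jn d m ((mfderiv 𝓘(ℝ, ℝ) (𝓡 d) γ t : ℝ →L[ℝ] EE d) 1, b - a))
          rw [← hder t, hder t, jp1_jn, jp2_jn, ← hder t] at h9
          exact h9
        rw [e1]
        have e2 : Real.sqrt (∑ j, (b - a) j * (b - a) j) ≤ m :=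
          (Real.sqrt_le_sqrt hS).trans hm
        have e3 : 0 ≤ ∑ j, (b - a) j * (b - a) j :=
          Finset.sum_nonneg fun j _ => mul_self_nonneg _
        have e4 : 0 ≤ g.inner (γ t) (mfderiv 𝓘(ℝ, ℝ) (𝓡 d) γ t (1 : ℝ))
              (mfderiv 𝓘(ℝ, ℝ) (𝓡 d) γ t (1 : ℝ)) := by
          by_cases h10 : mfderiv 𝓘(ℝ, ℝ) (𝓡 d) γ t (1 : ℝ) = 0
          · rw [h10, map_zero]
          · exact (g.pos _ _ h10).le
        exact (PD_sqrt_add e4 e3).trans (by linarith)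
    _ = (∫⁻ t in Icc (0 : ℝ) 1, ENNReal.ofReal (Real.sqrt
        (g.inner (γ t) (mfderiv 𝓘(ℝ, ℝ) (𝓡 d) γ t (1 : ℝ))
          (mfderiv 𝓘(ℝ, ℝ) (𝓡 d) γ t (1 : ℝ))))) + m := by
        rw [lintegral_add_right _ measurable_const]
        congr 1
        simp

end vol

/-- The classes are stable under products with flat tori. -/
theorem inClass_prodTorus {d : ℕ} {lam v D : ℝ} (hl : 0 ≤ lam) (hD : 0 ≤ D)
    {M : ClosedManifold d} (h : InClass lam v D M) (m : ℕ) :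
    InClass lam v (D + m) (prodTorus M m) := by
  obtain ⟨g, h1, h2, h3⟩ := h
  refine ⟨pmet m g, ricBounded_prod m hl h1, h2.trans (vol_prod_ge m g), fun x y => ?_⟩
  refine (rdist_prod_le m g x y).trans ?_
  rw [ENNReal.ofReal_add hD (Nat.cast_nonneg m), ENNReal.ofReal_natCast]
  exact add_le_add_left (h3 _ _) _

end H31R
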