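import Pool.Agent.Lib.H31R.TP1

/-!
# H31R, part P3 (2): products with tori: equivariant maps and homotopies
-/

open scoped Manifold ContDiff Topology
open Real Set MeasureTheory

namespace H31R.Tp

/-- A smooth map `MK k → MK l` lifts to an equivariant map. -/
theorem TP2_half {k l : ℕ} {f : (MK k).carrier → (MK l).carrier} (hf0 : ContMDiff (𝓡 7) (𝓡 7) ∞ f) :
    ∃ (PH : EE 7 → EE 7) (m : ℤ × ℤ × ℤ → ℤ × ℤ × ℤ), EqMap k l PH m ∧
      ∀ p ∈ OM, prj l (PH p) = f (prj k p) := by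
  have hf : ContMDiffOn (𝓡 7) (𝓡 7) ∞ (fun p => f (prj k p)) OM :=
    hf0.comp_contMDiffOn (prj_contMDiffOn k)
  obtain ⟨PH, h1, h2, h3⟩ := lift_OM hf.continuousOn
  have h4 : ∀ n : ℤ × ℤ × ℤ, ∃ n' : ℤ × ℤ × ℤ, ∀ p ∈ OM, PH (act k n p) = act l n' (PH p) := by
    intro n
    refine lift_unique OM_preconnected h1 (F' := fun p => PH (act k n p))
      (h1.comp (continuousOn_act k n) fun p hp => act_mem k n hp) h2
      (fun p hp => h2 _ (act_mem k n hp)) fun p hp => ?_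
    rw [h3 p hp, h3 _ (act_mem k n hp)]
    show f (prj k p) = f (prj k (act k n p))
    rw [prj_act hp]
  choose m hm using h4
  exact ⟨PH, m, ⟨smooth_lift hf h1 h2 h3, h2, fun n p hp => hm n p hp⟩, h3⟩

theorem TP2_prj_smooth {k n : ℕ} {F : QQ n → EE 7} (hF : ContDiff ℝ ∞ F) (hm : ∀ t, F t ∈ OM) :
    ContMDiff 𝓘(ℝ, QQ n) (𝓡 7) ∞ fun t => prj k (F t) := by
  intro t
  exact ((prj_contMDiffOn k).contMDiffAt (isOpen_OM.mem_nhds (hm t))).comp t
    (hF.contMDiff t)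

/-- The line through `t` in the direction `e`, in the source. -/
theorem TP2_const_line {n : ℕ} {t e : QQ n} {a : QQ n → ℝ} (ha : Continuous a)
    (h : ∀ r : ℝ, ((a (t + r • e) : ℝ) : S1) = (a t : ℝ)) (r : ℝ) : a (t + r • e) = a t := by
  have h1 : Continuous fun s : QQ 1 => a (t + s 0 • e) := by fun_prop
  obtain ⟨j, hj⟩ := TP1_circle_unique (n := 1) (a := fun s => a (t + s 0 • e)) (b := fun _ => a t)
    h1 continuous_const (fun s => h (s 0))
  have h2 := hj 0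
  have h3 := hj (fun _ => r)
  simp only [Pi.zero_apply, zero_smul, add_zero] at h2 h3
  linarith

theorem TP2_const_line_OM {l n : ℕ} {t e : QQ n} {G : QQ n → EE 7} (hG : Continuous G)
    (hm : ∀ t, G t ∈ OM) (h : ∀ r : ℝ, prj l (G (t + r • e)) = prj l (G t)) (r : ℝ) :
    G (t + r • e) = G t := by
  have h1 : Continuous fun s : QQ 1 => G (t + s 0 • e) := by fun_prop
  obtain ⟨j, hj⟩ := TP1_unique (n := 1) (l := l) (F := fun _ => G t)
    (F' := fun s : QQ 1 => G (t + s 0 • e)) continuous_const h1 (fun _ => hm _) (fun _ => hm _)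
    (fun s => (h (s 0)).symm)
  have h2 := hj 0
  have h3 := hj (fun _ => r)
  simp only [Pi.zero_apply, zero_smul, add_zero] at h2 h3
  rw [h3, ← h2]

theorem TP2_edge {F : QQ 2 → EE 7} (hF : ContDiff ℝ ∞ F)
    (cw : ∀ t, t 0 = 0 ∨ t 0 = 1 → fderiv ℝ F t (eb 1) = 0) {t : QQ 2} (ht : t 0 = 0 ∨ t 0 = 1)
    (r : ℝ) : F (t + r • eb 1) = F t := by
  have h1 : ∀ r : ℝ, HasDerivAt (fun r : ℝ => F (t + r • eb 1)) 0 r := by
    intro r
    have h0 : (t + r • eb 1 : QQ 2) 0 = t 0 := by simp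
    have h2 : HasDerivAt (fun r : ℝ => t + r • (eb 1 : QQ 2)) (eb 1) r := by
      have := ((hasDerivAt_id r).smul_const (eb 1 : QQ 2)).const_add t
      simpa using this
    have h3 : HasFDerivAt F (fderiv ℝ F (t + r • eb 1)) (t + r • (eb 1 : QQ 2)) :=
      ((hF.differentiable (by simp)) _).hasFDerivAt
    have h4 := h3.comp_hasDerivAt r h2
    rw [cw _ (by rw [h0]; exact ht)] at h4
    exact h4
  have h2 := is_const_of_deriv_eq_zero (fun x => (h1 x).differentiableAt) (fun x => (h1 x).deriv) r 0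
  simpa using h2

theorem TP2_zero_of {n : ℕ} {F : QQ n → EE 7} {t : QQ n} {i : Fin n} (hF : ContDiff ℝ ∞ F)
    (h : ∀ r : ℝ, F (t + r • eb i) = F t) : fderiv ℝ F t (eb i) = 0 := by
  have h1 : HasDerivAt (fun r : ℝ => F (t + r • eb i)) (fderiv ℝ F t (eb i)) 0 := by
    have h2 : HasDerivAt (fun r : ℝ => t + r • (eb i : QQ n)) (eb i) 0 := by
      have := ((hasDerivAt_id (0 : ℝ)).smul_const (eb i : QQ n)).const_add t
      simpa using this
    have h3 : HasFDerivAt F (fderiv ℝ F t) (t + (0 : ℝ) • (eb i : QQ n)) := by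
      rw [zero_smul, add_zero]
      exact ((hF.differentiable (by simp)) t).hasFDerivAt
    exact h3.comp_hasDerivAt (0 : ℝ) h2
  have h4 : (fun r : ℝ => F (t + r • eb i)) = fun _ => F t := funext h
  rw [h4] at h1
  exact h1.unique (hasDerivAt_const (0 : ℝ) (F t))

/-- The first component of the diffeomorphism. -/
noncomputable def TP2_f {k l m : ℕ}
    (Φ : (prodTorus (MK k) m).carrier → (prodTorus (MK l) m).carrier) (x : (MK k).carrier) :
    (MK l).carrier :=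
  (Φ (pmk x 0)).1

theorem TP2_f_smooth {k l m : ℕ}
    {Φ : (prodTorus (MK k) m).carrier → (prodTorus (MK l) m).carrier}
    (hΦ : ContMDiff (𝓡 (7 + m)) (𝓡 (7 + m)) ∞ Φ) : ContMDiff (𝓡 7) (𝓡 7) ∞ (TP2_f Φ) := by
  have h1 : ContMDiff (𝓡 7) (𝓡 (7 + m)) ∞ (fun x : (MK k).carrier => (pmk x 0 : PTor _ m)) := by
    intro x
    exact contMDiffAt_pt (f := fun x : (MK k).carrier => x) (a := fun _ => (0 : Fin m → ℝ))
      contMDiffAt_id contMDiffAt_const
  exact (contMDiff_pr1 (d := 7) (m := m) (M := (MK l).carrier)).comp (hΦ.comp h1)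

/-- The homotopy: `PH' ∘ PH` and the identity give the same periods over spheres. -/
theorem TP2_JJ {k l m : ℕ}
    (Φ : Diffeomorph (𝓡 (7 + m)) (𝓡 (7 + m)) (prodTorus (MK k) m).carrier
      (prodTorus (MK l) m).carrier ∞)
    {PH PH' : EE 7 → EE 7} {μ μ' : ℤ × ℤ × ℤ → ℤ × ℤ × ℤ} (h : EqMap k l PH μ)
    (h' : EqMap l k PH' μ') (e : ∀ p ∈ OM, prj l (PH p) = TP2_f Φ (prj k p))
    (e' : ∀ p ∈ OM, prj k (PH' p) = TP2_f Φ.symm (prj l p))
    {Y : EE 7 → EE 7 → EE 7 → ℝ} (hY : Inv k Y) (hYc : CForm OM Y) {F : QQ 2 → EE 7} (hF : Surf F)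
    (cw : ∀ t, t 0 = 0 ∨ t 0 = 1 → fderiv ℝ F t (eb 1) = 0) :
    JJ (pull PH (pull PH' Y)) F = JJ Y F := by
  -- the map `q` and its torus part
  set q : QQ 2 → PTor (MK l).carrier m := fun t => Φ (pmk (prj k (F t)) 0) with hq
  have hqs : ContMDiff 𝓘(ℝ, QQ 2) (𝓡 (7 + m)) ∞ q := by
    refine Φ.contMDiff.comp ?_
    intro t
    exact contMDiffAt_pt (f := fun t => prj k (F t)) (a := fun _ => (0 : Fin m → ℝ))
      (TP2_prj_smooth hF.smooth hF.mem t) contMDiffAt_const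
  obtain ⟨a, hac, ha⟩ := TP1_torus_lift hqs.continuous
  have has : ContDiff ℝ ∞ a := TP1_torus_smooth hqs hac ha
  have hedge : ∀ t : QQ 2, t 0 = 0 ∨ t 0 = 1 → ∀ r : ℝ, F (t + r • eb 1) = F t :=
    fun t ht r => TP2_edge hF.smooth cw ht r
  have hai : ∀ i, Continuous fun t => a t i := fun i => (continuous_apply i).comp hac
  have hae : ∀ t : QQ 2, t 0 = 0 ∨ t 0 = 1 → ∀ r : ℝ, a (t + r • eb 1) = a t := by
    intro t ht r
    funext i
    refine TP2_const_line (a := fun t => a t i) (hai i) (fun r => ?_) r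
    rw [ha, ha]
    simp only [hq]
    rw [hedge t ht r]
  have hap : ∀ t, a (t + eb 1) = a t := by
    intro t
    funext i
    obtain ⟨j, hj⟩ := TP1_circle_unique (n := 2) (a := fun t => a t i)
      (b := fun t => a (t + eb 1) i) (hai i) ((hai i).comp (by fun_prop)) (fun t => by
        rw [ha, ha]
        simp only [hq]
        rw [hF.per])
    have h0 : a (0 + eb 1) i = a 0 i + j := hj 0
    have h1 := congrFun (hae 0 (Or.inl rfl) 1) i
    rw [one_smul] at h1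
    rw [h1] at h0
    have hj0 : (j : ℝ) = 0 := by linarith
    have h2 : a (t + eb 1) i = a t i + j := hj t
    rw [h2, hj0, add_zero]
  -- the homotopy in the quotient
  set T : QQ 3 → (MK k).carrier := fun s =>
    (Φ.symm (pmk (prj l (PH (F ![s 1, s 2]))) (s 0 • a ![s 1, s 2]))).1 with hT
  have hv : ContDiff ℝ ∞ fun s : QQ 3 => (![s 1, s 2] : QQ 2) := by
    refine contDiff_pi.2 fun i => ?_
    fin_cases i
    · exact contDiff_apply ℝ ℝ (1 : Fin 3)
    · exact contDiff_apply ℝ ℝ (2 : Fin 3)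
  have hPF : ContDiff ℝ ∞ fun t => PH (F t) := h.smooth.comp_contDiff hF.smooth hF.mem
  have hTs : ContMDiff 𝓘(ℝ, QQ 3) (𝓡 7) ∞ T := by
    refine (contMDiff_pr1 (d := 7) (m := m) (M := (MK k).carrier)).comp
      (Φ.symm.contMDiff.comp ?_)
    intro s
    refine contMDiffAt_pt (f := fun s : QQ 3 => prj l (PH (F ![s 1, s 2])))
      (a := fun s : QQ 3 => s 0 • a ![s 1, s 2]) ?_ ?_
    · exact TP2_prj_smooth (hPF.comp hv) (fun s => h.maps _ (hF.mem _)) s
    · exact ((contDiff_apply ℝ ℝ (0 : Fin 3)).smul (has.comp hv)).contMDiff s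
  obtain ⟨G, hGc, hGm, hG⟩ := TP1_exists_lift hTs.continuous
  have hGs : ContDiff ℝ ∞ G := TP1_smooth hTs hGc hGm hG
  -- edges
  have hvec : ∀ (s : QQ 3) (r : ℝ), (![(s + r • eb 2 : QQ 3) 1, (s + r • eb 2 : QQ 3) 2] : QQ 2) =
      ![s 1, s 2] + r • eb 1 := by
    intro s r
    funext i
    fin_cases i <;> simp
  have hTe : ∀ s : QQ 3, s 1 = 0 ∨ s 1 = 1 → ∀ r : ℝ, T (s + r • eb 2) = T s := by
    intro s hs r
    have h0 : (s + r • eb 2 : QQ 3) 0 = s 0 := by simp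
    simp only [hT]
    rw [hvec, h0, hedge ![s 1, s 2] hs r, hae ![s 1, s 2] hs r]
  have hGe : ∀ s : QQ 3, s 1 = 0 ∨ s 1 = 1 → ∀ r : ℝ, G (s + r • eb 2) = G s := by
    intro s hs r
    refine TP2_const_line_OM (l := k) hGc hGm (fun r => ?_) r
    rw [hG, hG, hTe s hs r]
  have hGp : ∀ s, G (s + eb 2) = G s := by
    obtain ⟨n0, hn0⟩ := TP1_unique (l := k) (F := G) (F' := fun s => G (s + eb 2)) hGc
      (hGc.comp (by fun_prop)) hGm (fun _ => hGm _) (fun s => by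
        rw [hG, hG]
        have h0 : (s + eb 2 : QQ 3) 0 = s 0 := by simp
        have h1 := hvec s 1
        rw [one_smul, one_smul] at h1
        simp only [hT]
        rw [h1, h0, hF.per, hap])
    have h1 := hGe 0 (Or.inl rfl) 1
    rw [one_smul] at h1
    have h2 : G (0 + eb 2) = act k n0 (G 0) := hn0 0
    rw [h1] at h2
    have h3 := TP1_free (hGm 0) h2.symm
    intro s
    have h4 : G (s + eb 2) = act k n0 (G s) := hn0 s
    rw [h4, h3, act_zero]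
  have hhom := JJ_homotopy hYc hGs hGm hGp (Or.inr fun t ht => TP2_zero_of hGs (hGe t ht))
  -- the two ends
  have hGa : ∀ c : ℝ, ContDiff ℝ ∞ fun t : QQ 2 => G ![c, t 0, t 1] := by
    intro c
    refine hGs.comp (contDiff_pi.2 fun i => ?_)
    fin_cases i
    · exact contDiff_const
    · exact contDiff_apply ℝ ℝ (0 : Fin 2)
    · exact contDiff_apply ℝ ℝ (1 : Fin 2)
  have hvv : ∀ t : QQ 2, (![t 0, t 1] : QQ 2) = t := by
    intro t
    funext i
    fin_cases i <;> rfl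
  have hTc : ∀ (c : ℝ) (t : QQ 2), T ![c, t 0, t 1] =
      (Φ.symm (pmk (prj l (PH (F t))) (c • a t))).1 := by
    intro c t
    have h0 : T ![c, t 0, t 1] =
      (Φ.symm (pmk (prj l (PH (F ![t 0, t 1]))) (c • a ![t 0, t 1]))).1 := rfl
    rw [h0, hvv]
  have hqe : ∀ t, (pmk (prj l (PH (F t))) (a t) : PTor _ m) = q t := by
    intro t
    refine Prod.ext ?_ ?_
    · show prj l (PH (F t)) = (q t).1
      rw [e _ (hF.mem t)]
      rfl
    · funext i
      exact ha t i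
  obtain ⟨n1, hn1⟩ := TP1_unique (l := k) (F := F) (F' := fun t : QQ 2 => G ![1, t 0, t 1])
    hF.smooth.continuous (hGa 1).continuous hF.mem (fun _ => hGm _) (fun t => by
      rw [hG, hTc, one_smul, hqe]
      simp only [hq]
      have h1 : Φ.symm (Φ (pmk (prj k (F t)) 0)) = pmk (prj k (F t)) 0 := Φ.left_inv _
      rw [h1]
      rfl)
  have hPPF : ContDiff ℝ ∞ fun t => PH' (PH (F t)) :=
    h'.smooth.comp_contDiff hPF fun t => h.maps _ (hF.mem t)
  obtain ⟨n2, hn2⟩ := TP1_unique (l := k) (F := fun t => PH' (PH (F t)))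
    (F' := fun t : QQ 2 => G ![0, t 0, t 1])
    hPPF.continuous (hGa 0).continuous (fun t => h'.maps _ (h.maps _ (hF.mem t)))
    (fun _ => hGm _) (fun t => by
      rw [hG, hTc, zero_smul, e' _ (h.maps _ (hF.mem t))]
      rfl)
  have j1 : JJ Y (fun t : QQ 2 => G ![1, t 0, t 1]) = JJ Y F := by
    have h1 : (fun t : QQ 2 => G ![1, t 0, t 1]) = fun t => act k n1 (F t) := funext hn1
    rw [h1]
    exact TE4_JJ_act hY n1 hF.smooth hF.mem
  have j0 : JJ Y (fun t : QQ 2 => G ![0, t 0, t 1]) = JJ Y fun t => PH' (PH (F t)) := by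
    have h1 : (fun t : QQ 2 => G ![0, t 0, t 1]) = fun t => act k n2 (PH' (PH (F t))) := funext hn2
    rw [h1]
    exact TE4_JJ_act hY n2 hPPF fun t => h'.maps _ (h.maps _ (hF.mem t))
  rw [j1, j0] at hhom
  rw [JJ_pull hF h.smooth, JJ_pull (hF.comp h.smooth h.maps) h'.smooth]
  exact hhom.symm

theorem TP2_main {k l : ℕ} {PH PH' : EE 7 → EE 7} {m m' : ℤ × ℤ × ℤ → ℤ × ℤ × ℤ}
    (h : EqMap k l PH m) (h' : EqMap l k PH' m') {Y : EE 7 → EE 7 → EE 7 → ℝ}
    (hYc : CForm OM Y) {F : QQ 2 → EE 7} (hF : Surf F)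
    (hJ : JJ (pull PH (pull PH' Y)) F = JJ Y F) :
    JJ (pull PH Wf) F * JJ (pull PH' Y) Sw + JJ (pull PH (Xf l)) F * JJ (pull PH' Y) Ss =
      JJ Y F := by
  have hs := hF.comp h.smooth h.maps
  have hc : CForm OM (pull PH' Y) := h'.cform hYc
  have h1 := JJ_eq hc hs
  have h2 : JJ (pull PH' Y) (fun t => PH (F t)) = JJ Y F := by
    rw [← JJ_pull hF h.smooth]
    exact hJ
  rw [h2] at h1
  rw [JJ_pull hF h.smooth, JJ_pull hF h.smooth, JJ_Xf l hs]
  exact h1.symm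

/-- Divisibility, with the weaker hypothesis on the periods. -/
theorem TP2_dvd {k l : ℕ} (hk : 1 ≤ k) {PH PH' : EE 7 → EE 7}
    {m m' : ℤ × ℤ × ℤ → ℤ × ℤ × ℤ} (h : EqMap k l PH m) (h' : EqMap l k PH' m')
    (hJ : ∀ Y : EE 7 → EE 7 → EE 7 → ℝ, Inv k Y → CForm OM Y → ∀ F : QQ 2 → EE 7, Surf F →
      (∀ t, t 0 = 0 ∨ t 0 = 1 → fderiv ℝ F t (eb 1) = 0) →
      JJ (pull PH (pull PH' Y)) F = JJ Y F) : l ∣ k := by
  obtain ⟨pw, ps, qw, qs, e1, e2, e3, e4⟩ := periods_int h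
  obtain ⟨pw', ps', qw', qs', e1', e2', e3', e4'⟩ := periods_int h'
  have i1 : JJ (pull PH Wf) Sw * JJ (pull PH' Wf) Sw +
      JJ (pull PH (Xf l)) Sw * JJ (pull PH' Wf) Ss = 1 := by
    rw [TP2_main h h' cform_Wf surf_Sw (hJ _ (inv_Wf k) cform_Wf _ surf_Sw TF2_Sw), JJ_Wf_Sw]
  have i2 : JJ (pull PH Wf) Ss * JJ (pull PH' Wf) Sw +
      JJ (pull PH (Xf l)) Ss * JJ (pull PH' Wf) Ss = 0 := by
    rw [TP2_main h h' cform_Wf surf_Ss (hJ _ (inv_Wf k) cform_Wf _ surf_Ss TF2_Ss), JJ_Wf_Ss]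
  have i3 : JJ (pull PH Wf) Sw * JJ (pull PH' (Xf k)) Sw +
      JJ (pull PH (Xf l)) Sw * JJ (pull PH' (Xf k)) Ss = 0 := by
    rw [TP2_main h h' (cform_Xf k) surf_Sw (hJ _ (inv_Xf k) (cform_Xf k) _ surf_Sw TF2_Sw),
      JJ_Xf k surf_Sw, JJ_Af_Sw]
  have i4 : JJ (pull PH Wf) Ss * JJ (pull PH' (Xf k)) Sw +
      JJ (pull PH (Xf l)) Ss * JJ (pull PH' (Xf k)) Ss = 1 := by
    rw [TP2_main h h' (cform_Xf k) surf_Ss (hJ _ (inv_Xf k) (cform_Xf k) _ surf_Ss TF2_Ss),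
      JJ_Xf k surf_Ss, JJ_Af_Ss]
  have w0 := rel_W0 h
  have x0 := rel_X0 h
  have w1 := rel_W1 h (ε := 1) (Or.inl rfl)
  have wm := rel_W1 h (ε := -1) (Or.inr rfl)
  have x1 := rel_X1 h (ε := 1) (Or.inl rfl)
  have xm := rel_X1 h (ε := -1) (Or.inr rfl)
  have aw := YT_sub (h.cform cform_Wf) (h.inv (inv_Wf l))
  have ax := YT_sub (h.cform (cform_Xf l)) (h.inv (inv_Xf l))
  rw [e1, e3, e1', e2'] at i1
  rw [e2, e4, e1', e2'] at i2
  rw [e1, e3, e3', e4'] at i3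
  rw [e2, e4, e3', e4'] at i4
  rw [e1, e2] at w0 w1 wm
  rw [e3, e4] at x0
  rw [e3, e4, e1, e2] at x1 xm
  rw [e2] at aw
  rw [e4] at ax
  have hk1 : (1 : ℤ) ≤ (k : ℤ) := by exact_mod_cast hk
  have := TF3_int (k := (k : ℤ)) (l := (l : ℤ)) (D := Dm m) hk1 (by exact_mod_cast i1)
    (by exact_mod_cast i2) (by exact_mod_cast i3) (by exact_mod_cast i4) (by exact_mod_cast w0)
    (by exact_mod_cast x0) (by simpa using w1) (a1 := YT (pull PH Wf) 1)
    (am := YT (pull PH Wf) (-1)) (b1 := YT (pull PH (Xf l)) 1) (bm := YT (pull PH (Xf l)) (-1))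
    (by rw [← wm]; ring) (by rw [aw]; push_cast; ring) (by rw [ax]; push_cast; ring)
    (by have := x1; push_cast; linear_combination this)
    (by have := xm; push_cast; linear_combination this)
  exact_mod_cast this

end H31R.Tp

namespace H31R

/-- `M_k × T^m` and `M_l × T^m` are not diffeomorphic for `k ≠ l`. -/
theorem eq_of_diffeomorphic_prodTorus {k l : ℕ} (hk : 1 ≤ k) (hl : 1 ≤ l) {m : ℕ}
    (h : Diffeomorphic (prodTorus (MK k) m) (prodTorus (MK l) m)) : k = l := by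
  obtain ⟨Φ⟩ := h
  obtain ⟨PH, μ, h1, e1⟩ := Tp.TP2_half (Tp.TP2_f_smooth Φ.contMDiff)
  obtain ⟨PH', μ', h2, e2⟩ := Tp.TP2_half (Tp.TP2_f_smooth Φ.symm.contMDiff)
  refine Nat.dvd_antisymm ?_ ?_
  · refine Tp.TP2_dvd hl h2 h1 fun Y hY hYc F hF cw => ?_
    refine Tp.TP2_JJ Φ.symm h2 h1 e2 ?_ hY hYc hF cw
    exact e1
  · exact Tp.TP2_dvd hk h1 h2 fun Y hY hYc F hF cw => Tp.TP2_JJ Φ h1 h2 e1 e2 hY hYc hF cw

end H31R
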