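import Pool.Agent.Lib.H31R.Final
import Pool.Agent.Lib.H31R.PD
import Pool.Agent.Lib.H31R.TP2

/-!
# H31R: all dimensions `d ≥ 7`
-/

open scoped Manifold ContDiff Topology
open Set MeasureTheory

namespace H31R

/-- The bounds in dimension 7, with the explicit sequence. -/
theorem inClass_MK : ∃ lam v D : ℝ, 0 < lam ∧ 0 < v ∧ 0 < D ∧
    ∀ n : ℕ, InClass lam v D (MK (n + 1)) := by
  obtain ⟨C0, hC0, hR⟩ := RB_gg
  obtain ⟨v0, hv0, hV⟩ := vol_gg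
  obtain ⟨D0, hD0, hD⟩ := diam_gg
  refine ⟨C0, v0, D0, hC0, hv0, hD0, fun n => ?_⟩
  obtain ⟨e1, he1, h1⟩ := hR (n + 1)
  obtain ⟨e2, he2, h2⟩ := hD (n + 1)
  obtain ⟨ε, hε0, hε⟩ : ∃ ε : ℝ, 0 < ε ∧ ε < min e1 (min e2 (1 / 2)) :=
    exists_between (lt_min he1 (lt_min he2 (by norm_num)))
  have h3 : ε < e1 := lt_of_lt_of_le hε (min_le_left _ _)
  have h4 : ε < e2 := lt_of_lt_of_le hε ((min_le_right _ _).trans (min_le_left _ _))
  have h5 : ε < 1 / 2 := lt_of_lt_of_le hε ((min_le_right _ _).trans (min_le_right _ _))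
  obtain ⟨hI, hRB⟩ := h1 ε hε0 h3
  obtain ⟨G, hG1, hG2⟩ := exists_RMetric hI
  exact ⟨G, ricBounded_of_RB hG1 hRB, hV (n + 1) ε hε0 h5 hI G hG1, h2 ε hε0 h4 G hG2⟩

/-- In every dimension `d ≥ 7`: the class with suitable bounds contains infinitely many
diffeomorphism types. -/
theorem finitenessFails_all (d : ℕ) (hd : 7 ≤ d) : ∃ lam v D : ℝ, 0 < lam ∧ 0 < v ∧ 0 < D ∧
    ∃ M : ℕ → ClosedManifold d,
      (∀ n, ∃ g : Ch.Metric d (M n).carrier, Ch.RicBounded g lam ∧ ENNReal.ofReal v ≤ Ch.vol g ∧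
        ∀ x y, Ch.rdist g x y ≤ ENNReal.ofReal D) ∧
      ∀ m n, m ≠ n → ¬ Diffeomorphic (M m) (M n) := by
  obtain ⟨m, rfl⟩ := Nat.exists_eq_add_of_le hd
  obtain ⟨lam, v, D, h1, h2, h3, h4⟩ := inClass_MK
  refine ⟨lam, v, D + m, h1, h2, by positivity, fun n => prodTorus (MK (n + 1)) m, fun n => ?_,
    fun a b hab h => ?_⟩
  · exact transfer_class (inClass_prodTorus h1.le h3.le (h4 n) m)
  · exact hab (Nat.succ_injective
      (eq_of_diffeomorphic_prodTorus (Nat.succ_pos a) (Nat.succ_pos b) h))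

end H31R
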