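import Pool.Agent.Lib.H31R.C7

/-!
# H31R, chunk M1: the slab metric `g0` is a smooth family of symmetric bilinear forms
-/

open scoped ContDiff Topology
open Real Filter

namespace H31R

/-! ### algebra -/

theorem M1_gcore_symm (a a' b1 b2 R : ℝ) (w l J : V3) (xu1 xu2 xu3 : ℝ) (Au Bu : V3)
    (xv1 xv2 xv3 : ℝ) (Av Bv : V3) :
    gcore a a' b1 b2 R w l J xu1 xu2 xu3 Au Bu xv1 xv2 xv3 Av Bv =
      gcore a a' b1 b2 R w l J xv1 xv2 xv3 Av Bv xu1 xu2 xu3 Au Bu := by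
  unfold gcore
  simp only
  rw [dot_comm Au Av, dot_comm Bu Bv]
  ring

theorem M1_gcore_add (a a' b1 b2 R : ℝ) (w l J : V3) (xu1 xu2 xu3 : ℝ) (Au Bu : V3)
    (xv1 xv2 xv3 : ℝ) (Av Bv : V3) (yv1 yv2 yv3 : ℝ) (Cv Dv : V3) :
    gcore a a' b1 b2 R w l J xu1 xu2 xu3 Au Bu (xv1 + yv1) (xv2 + yv2) (xv3 + yv3) (Av + Cv)
      (Bv + Dv) = gcore a a' b1 b2 R w l J xu1 xu2 xu3 Au Bu xv1 xv2 xv3 Av Bv +
      gcore a a' b1 b2 R w l J xu1 xu2 xu3 Au Bu yv1 yv2 yv3 Cv Dv := by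
  unfold gcore
  simp only [C0_dot_add_right, C7_crs_add, C7_dot_add_left]
  ring

theorem M1_gcore_smul (a a' b1 b2 R : ℝ) (w l J : V3) (xu1 xu2 xu3 : ℝ) (Au Bu : V3)
    (c : ℝ) (yv1 yv2 yv3 : ℝ) (Cv Dv : V3) :
    gcore a a' b1 b2 R w l J xu1 xu2 xu3 Au Bu (c * yv1) (c * yv2) (c * yv3) (c • Cv)
      (c • Dv) = c * gcore a a' b1 b2 R w l J xu1 xu2 xu3 Au Bu yv1 yv2 yv3 Cv Dv := by
  unfold gcore
  simp only [C0_dot_smul_right, C7_crs_smul, C0_dot_smul_left]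
  ring

theorem M1_gc_symm (P : Prof) (ε : ℝ) (p u v : EE 7) : gc P ε p u v = gc P ε p v u :=
  M1_gcore_symm _ _ _ _ _ _ _ _ _ _ _ _ _ _ _ _ _ _

theorem M1_gc_lin (P : Prof) (ε : ℝ) (p u : EE 7) : IsLinearMap ℝ (gc P ε p u) := by
  refine ⟨fun v w => ?_, fun c v => ?_⟩
  · have h3 : xi3 p (v + w) = xi3 p v + xi3 p w := rfl
    unfold gc
    rw [C7_xi1_add, C7_xi2_add, C7_Av_add, C7_Bv_add, h3, M1_gcore_add]
  · have h3 : xi3 p (c • v) = c * xi3 p v := rfl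
    unfold gc
    rw [C7_xi1_smul, C7_xi2_smul, C7_Av_smul, C7_Bv_smul, h3, M1_gcore_smul, smul_eq_mul]

theorem M1_g0_symm (P : Prof) (ε : ℝ) (p u v : EE 7) : g0 P ε p u v = g0 P ε p v u := by
  unfold g0
  rw [M1_gc_symm, C7_go_symm]

theorem M1_g0_lin (P : Prof) (ε : ℝ) (p u : EE 7) : IsLinearMap ℝ (g0 P ε p u) := by
  refine ⟨fun v w => ?_, fun c v => ?_⟩
  · unfold g0
    rw [(M1_gc_lin P ε p u).map_add, (C7_go_lin P p u).map_add]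
    ring
  · unfold g0
    rw [(M1_gc_lin P ε p u).map_smul, (C7_go_lin P p u).map_smul]
    simp only [smul_eq_mul]
    ring

/-! ### the cut-off function -/

theorem M1_chi_smooth : ContDiff ℝ ∞ chi :=
  Real.smoothTransition.contDiff.comp (contDiff_const.mul (contDiff_const.sub contDiff_id))

theorem M1_chi_one {r : ℝ} (h : r ≤ 1 / 4) : chi r = 1 :=
  Real.smoothTransition.one_of_one_le (by linarith)

theorem M1_chi_zero {r : ℝ} (h : 1 ≤ r) : chi r = 0 :=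
  Real.smoothTransition.zero_of_nonpos (by linarith)

theorem M1_chi_nonneg (r : ℝ) : 0 ≤ chi r := Real.smoothTransition.nonneg _

theorem M1_chi_le_one (r : ℝ) : chi r ≤ 1 := Real.smoothTransition.le_one _

/-! ### smoothness -/

theorem M1_real {a a' b1 b2 R : EE 7 → ℝ} {xu1 xu2 xu3 xv1 xv2 xv3 : EE 7 → ℝ}
    {d1 d2 d3 d4 d5 d6 d7 d8 d9 d10 d11 d12 : EE 7 → ℝ} {p : EE 7}
    (ha : ContDiffAt ℝ ∞ a p) (ha' : ContDiffAt ℝ ∞ a' p) (hb1 : ContDiffAt ℝ ∞ b1 p)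
    (hb2 : ContDiffAt ℝ ∞ b2 p) (hR : ContDiffAt ℝ ∞ R p)
    (h1 : ContDiffAt ℝ ∞ xu1 p) (h2 : ContDiffAt ℝ ∞ xu2 p) (h3 : ContDiffAt ℝ ∞ xu3 p)
    (h4 : ContDiffAt ℝ ∞ xv1 p) (h5 : ContDiffAt ℝ ∞ xv2 p) (h6 : ContDiffAt ℝ ∞ xv3 p)
    (e1 : ContDiffAt ℝ ∞ d1 p) (e2 : ContDiffAt ℝ ∞ d2 p) (e3 : ContDiffAt ℝ ∞ d3 p)
    (e4 : ContDiffAt ℝ ∞ d4 p) (e5 : ContDiffAt ℝ ∞ d5 p) (e6 : ContDiffAt ℝ ∞ d6 p)
    (e7 : ContDiffAt ℝ ∞ d7 p) (e8 : ContDiffAt ℝ ∞ d8 p) (e9 : ContDiffAt ℝ ∞ d9 p)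
    (e10 : ContDiffAt ℝ ∞ d10 p) (e11 : ContDiffAt ℝ ∞ d11 p) (e12 : ContDiffAt ℝ ∞ d12 p)
    (k0 : R p ≠ 0) (k1 : 8 * R p * (R p + a p) ^ 2 ≠ 0) (k2 : 4 * R p ≠ 0)
    (k3 : 24 * R p ≠ 0) (k4 : R p ^ 2 ≠ 0) :
    ContDiffAt ℝ ∞ (fun q =>
      let Z11 := (2 * a q * b2 q) ^ 2
      let Z22 := (2 * a q * b1 q) ^ 2
      let Z33 := a' q ^ 2
      let Z13 := 2 * a q * b2 q * a' q
      let τ := Z11 + Z22 + Z33
      let kap := (1 / 8) * (1 / R q - 2 * a q / R q ^ 2)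
      let T := 1 / (8 * R q * (R q + a q) ^ 2)
      let P := 1 - τ / (24 * R q) - (Z33 - τ / 3) * kap
      let Q := 1 - τ / (24 * R q) + (Z33 - τ / 3) * kap
      xu1 q * xv1 q * (1 + (Z11 + Z33) / (4 * R q)) + xu2 q * xv2 q * (1 + Z22 / (4 * R q)) +
        xu3 q * xv3 q
        + P * d1 q / (4 * R q) + Q * R q * d2 q
        - T * ((Z11 + Z22 - 2 * τ / 3) * (d3 q * d4 q - d5 q * d6 q) / (4 * R q)
          + (Z11 - Z22) * R q * (d7 q * d8 q - d9 q * d10 q)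
          + Z13 / 2 * (d3 q * d10 q + d5 q * d8 q + d4 q * d9 q + d6 q * d7 q))
        + kap * Z13 / 2 * (d11 q + d12 q)) p := by
  simp only
  fun_prop (disch := assumption)

theorem M1_core {a a' b1 b2 R : EE 7 → ℝ} {xu1 xu2 xu3 xv1 xv2 xv3 : EE 7 → ℝ}
    {w l J Au Bu Av Bv : EE 7 → V3} {p : EE 7}
    (ha : ContDiffAt ℝ ∞ a p) (ha' : ContDiffAt ℝ ∞ a' p) (hb1 : ContDiffAt ℝ ∞ b1 p)
    (hb2 : ContDiffAt ℝ ∞ b2 p) (hR : ContDiffAt ℝ ∞ R p)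
    (h1 : ContDiffAt ℝ ∞ xu1 p) (h2 : ContDiffAt ℝ ∞ xu2 p) (h3 : ContDiffAt ℝ ∞ xu3 p)
    (h4 : ContDiffAt ℝ ∞ xv1 p) (h5 : ContDiffAt ℝ ∞ xv2 p) (h6 : ContDiffAt ℝ ∞ xv3 p)
    (hw : ContDiffAt ℝ ∞ w p) (hl : ContDiffAt ℝ ∞ l p) (hJ : ContDiffAt ℝ ∞ J p)
    (hAu : ContDiffAt ℝ ∞ Au p) (hBu : ContDiffAt ℝ ∞ Bu p)
    (hAv : ContDiffAt ℝ ∞ Av p) (hBv : ContDiffAt ℝ ∞ Bv p)
    (hR0 : R p ≠ 0) (hRa : R p + a p ≠ 0) :
    ContDiffAt ℝ ∞ (fun q => gcore (a q) (a' q) (b1 q) (b2 q) (R q) (w q) (l q) (J q) (xu1 q)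
      (xu2 q) (xu3 q) (Au q) (Bu q) (xv1 q) (xv2 q) (xv3 q) (Av q) (Bv q)) p :=
  M1_real ha ha' hb1 hb2 hR h1 h2 h3 h4 h5 h6 (C7_dot hAu hAv) (C7_dot hBu hBv) (C7_dot hl hAu)
    (C7_dot hl hAv) (C7_dot hJ hAu) (C7_dot hJ hAv) (C7_dot hl hBu) (C7_dot hl hBv)
    (C7_dot hJ hBu) (C7_dot hJ hBv) (C7_dot (C7_crs hw hAu) hBv) (C7_dot (C7_crs hw hAv) hBu)
    hR0 (mul_ne_zero (mul_ne_zero (by norm_num) hR0) (pow_ne_zero _ hRa))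
    (mul_ne_zero (by norm_num) hR0) (mul_ne_zero (by norm_num) hR0) (pow_ne_zero _ hR0)

theorem M1_RR_pos (k : ℕ) {ε : ℝ} (hε : 0 < ε) (p : EE 7) : 0 < RR (prof k) ε p := by
  have h1 : 0 < ε ^ 3 * (prof k).a (x1 p) := mul_pos (pow_pos hε 3) (auf_pos k _)
  exact Real.sqrt_pos.2 (add_pos_of_pos_of_nonneg (pow_pos h1 2) (C0a_dot_nonneg _))

theorem M1_a (k : ℕ) {p : EE 7} (hp : p ∈ OM) :
    ContDiffAt ℝ ∞ (fun q => (prof k).a (x1 q)) p :=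
  (auf_smooth k).contDiffAt.comp p (C7_x1 hp)

theorem M1_RR (k : ℕ) {ε : ℝ} (hε : 0 < ε) {p : EE 7} (hp : p ∈ OM) :
    ContDiffAt ℝ ∞ (RR (prof k) ε) p := by
  have h1 : 0 < ε ^ 3 * (prof k).a (x1 p) := mul_pos (pow_pos hε 3) (auf_pos k _)
  unfold RR
  exact (((contDiffAt_const.mul (M1_a k hp)).pow 2).add (C7_dot (C7_lv hp) (C7_lv hp))).sqrt
    (add_pos_of_pos_of_nonneg (pow_pos h1 2) (C0a_dot_nonneg _)).ne'

theorem M1_Bv (k : ℕ) {ε : ℝ} (hε : 0 < ε) {p : EE 7} (hp : p ∈ OM) (u : EE 7) :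
    ContDiffAt ℝ ∞ (fun q => Bv (prof k) (RR (prof k) ε q) q u) p := by
  have h1 : ContDiffAt ℝ ∞ (fun q => (prof k).b1 (x1 q)) p :=
    (b1_smooth k).contDiffAt.comp p (C7_x1 hp)
  have h2 : ContDiffAt ℝ ∞ (fun q => (prof k).b2 (x1 q)) p :=
    (b2_smooth k).contDiffAt.comp p (C7_x1 hp)
  have hR : ContDiffAt ℝ ∞ (fun q => 1 / RR (prof k) ε q) p :=
    contDiffAt_const.div (M1_RR k hε hp) (M1_RR_pos k hε p).ne'
  have hc : ContDiffAt ℝ ∞ (fun _ : EE 7 => (1 / 2 : ℝ)) p := contDiffAt_const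
  exact (hc.smul (C7_crs (C7_wv hp) (C7_dw hp u))).sub
    (hR.smul (((h1.mul (C7_xi2 hp u)).smul (C7_lv hp)).add
      ((h2.mul (C7_xi1 hp u)).smul (C7_Jl hp))))

theorem M1_gc_smooth (k : ℕ) {ε : ℝ} (hε : 0 < ε) {p : EE 7} (hp : p ∈ OM) (u v : EE 7) :
    ContDiffAt ℝ ∞ (fun q => gc (prof k) ε q u v) p := by
  have ha : ContDiffAt ℝ ∞ (fun q => ε ^ 3 * (prof k).a (x1 q)) p :=
    contDiffAt_const.mul (M1_a k hp)
  have ha' : ContDiffAt ℝ ∞ (fun q => ε ^ 3 * deriv (prof k).a (x1 q)) p :=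
    contDiffAt_const.mul ((B3_deriv_smooth (auf_smooth k)).contDiffAt.comp p (C7_x1 hp))
  have h1 : ContDiffAt ℝ ∞ (fun q => (prof k).b1 (x1 q)) p :=
    (b1_smooth k).contDiffAt.comp p (C7_x1 hp)
  have h2 : ContDiffAt ℝ ∞ (fun q => (prof k).b2 (x1 q)) p :=
    (b2_smooth k).contDiffAt.comp p (C7_x1 hp)
  have h3 : ∀ u : EE 7, ContDiffAt ℝ ∞ (fun q : EE 7 => xi3 q u) p := by
    intro u
    show ContDiffAt ℝ ∞ (fun _ : EE 7 => u 0) p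
    exact contDiffAt_const
  have hpos : 0 < ε ^ 3 * (prof k).a (x1 p) := mul_pos (pow_pos hε 3) (auf_pos k _)
  exact M1_core ha ha' h1 h2 (M1_RR k hε hp) (C7_xi1 hp u) (C7_xi2 hp u) (h3 u) (C7_xi1 hp v)
    (C7_xi2 hp v) (h3 v) (C7_wv hp) (C7_lv hp) (C7_Jl hp) (C7_Av hp k u) (M1_Bv k hε hp u)
    (C7_Av hp k v) (M1_Bv k hε hp v) (M1_RR_pos k hε p).ne' (add_pos (M1_RR_pos k hε p) hpos).ne'

theorem M1_gc_good (k : ℕ) {ε : ℝ} (hε : 0 < ε) {p : EE 7} (hp : p ∈ OM) :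
    Good (gc (prof k) ε) p :=
  ⟨Filter.Eventually.of_forall fun q u => M1_gc_lin _ _ q u,
    Filter.Eventually.of_forall fun q u v => M1_gc_symm _ _ q u v,
    fun i j => M1_gc_smooth k hε hp (ebas i) (ebas j)⟩

theorem M1_chi (ε : ℝ) {p : EE 7} (hp : p ∈ OM) :
    ContDiffAt ℝ ∞ (fun q => chi (dot (lv q) (lv q) / ε ^ 2)) p :=
  M1_chi_smooth.contDiffAt.comp p ((C7_dot (C7_lv hp) (C7_lv hp)).div_const _)

/-- near `l = 0` the slab metric is the core metric -/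
theorem M1_g0_core (P : Prof) {ε : ℝ} (hε : 0 < ε) {p : EE 7}
    (h : dot (lv p) (lv p) ≤ ε ^ 2 / 4) (u v : EE 7) : g0 P ε p u v = gc P ε p u v := by
  have h1 : dot (lv p) (lv p) / ε ^ 2 ≤ 1 / 4 := by
    rw [div_le_iff₀ (pow_pos hε 2)]
    linarith
  unfold g0
  rw [M1_chi_one h1]
  ring

/-- away from `l = 0` the slab metric is the outer metric -/
theorem M1_g0_outer (P : Prof) {ε : ℝ} (hε : 0 < ε) {p : EE 7}
    (h : ε ^ 2 ≤ dot (lv p) (lv p)) (u v : EE 7) : g0 P ε p u v = go P p u v := by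
  have h1 : 1 ≤ dot (lv p) (lv p) / ε ^ 2 := by
    rw [le_div_iff₀ (pow_pos hε 2)]
    linarith
  unfold g0
  rw [M1_chi_zero h1]
  ring

theorem M1_g0_smooth (k : ℕ) {ε : ℝ} (hε : 0 < ε) {p : EE 7} (hp : p ∈ OM) (u v : EE 7) :
    ContDiffAt ℝ ∞ (fun q => g0 (prof k) ε q u v) p := by
  rcases (C0a_dot_nonneg (lv p)).eq_or_lt with h0 | h0
  · have hc : ContinuousAt (fun q => dot (lv q) (lv q)) p :=
      (C7_dot (C7_lv hp) (C7_lv hp)).continuousAt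
    have hev : ∀ᶠ q in 𝓝 p, dot (lv q) (lv q) < ε ^ 2 / 4 := by
      apply hc.eventually_lt_const
      show dot (lv p) (lv p) < ε ^ 2 / 4
      rw [← h0]
      positivity
    exact (M1_gc_smooth k hε hp u v).congr_of_eventuallyEq
      (hev.mono fun q hq => M1_g0_core _ hε hq.le u v)
  · have hc := M1_chi ε hp
    exact (hc.mul (M1_gc_smooth k hε hp u v)).add ((contDiffAt_const.sub hc).mul (C7_go hp k h0 u v))

/-- The slab metric is smooth, bilinear and symmetric. -/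
theorem M1_g0_good (k : ℕ) {ε : ℝ} (hε : 0 < ε) {p : EE 7} (hp : p ∈ OM) :
    Good (g0 (prof k) ε) p :=
  ⟨Filter.Eventually.of_forall fun q u => M1_g0_lin _ _ q u,
    Filter.Eventually.of_forall fun q u v => M1_g0_symm _ _ q u v,
    fun i j => M1_g0_smooth k hε hp (ebas i) (ebas j)⟩

end H31R
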