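import Pool.Agent.Lib.H31R.TB1

/-!
# H31R, chunk TB5: invariance under the action

`wv_act`, `x1_act`, `x2_act`, `x3_act` (QA.lean) give by the chain rule (both sides are differentiated,
`contDiffAt_act`) `dw (act p) (D act u) = dw p u`, `xi1 (act p) (D act u) = xi1 p u`, `xi2 ... = xi2 p u`.
`sv (act k n p) = rot (wv p) φ (sv p)`, `φ = 4 π k n.1 x2 p`; so `hh` is invariant,
`lv (act p) = cos φ • lv p + sin φ • crs (wv p) (lv p)` and `Jl (act p) = crs w (lv (act p))`. Differentiate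
the formula for `lv` and project to the plane orthogonal to `w`: with
`Dl p u = (fderiv lv p u) - <w, fderiv lv p u> w` one gets
`Dl (act p) (D act u) = rot w φ (Dl p u) + (4 π k n.1 xi2 p u) • Jl (act p)`, so
`DDv k (act p) (D act u) = rot w φ (DDv k p u)` (`x1 (act p) = x1 p + n.1`), and everything follows from
`dot (rot w φ a) (rot w φ b) = dot a b`, `det3 w (rot w φ a) (rot w φ b) = det3 w a b` and
`Jl (act p) = rot w φ (Jl p)`. (All the invariances were checked numerically.)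
-/

open scoped ContDiff Topology
open Real Set MeasureTheory

namespace H31R.Tp

/-! ### algebra of rotations -/

theorem TB5_ext {u v : V3} (h0 : u 0 = v 0) (h1 : u 1 = v 1) (h2 : u 2 = v 2) : u = v :=
  C0a_ext h0 h1 h2

theorem TB5_dot_rot {w : V3} (hw : dot w w = 1) (φ : ℝ) (v : V3) :
    dot w (rot w φ v) = dot w v := by
  have hw' : w 0 * w 0 + w 1 * w 1 + w 2 * w 2 = 1 := hw
  simp only [rot, crs, dot, Pi.add_apply, Pi.smul_apply, smul_eq_mul, Matrix.cons_val_zero,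
    Matrix.cons_val_one, Matrix.cons_val]
  linear_combination (1 - cos φ) * (w 0 * v 0 + w 1 * v 1 + w 2 * v 2) * hw'

theorem TB5_rot_dot {w : V3} (hw : dot w w = 1) (φ : ℝ) (a b : V3) :
    dot (rot w φ a) (rot w φ b) = dot a b := by
  have hcs := Real.sin_sq_add_cos_sq φ
  have hw' : w 0 * w 0 + w 1 * w 1 + w 2 * w 2 = 1 := hw
  simp only [rot, crs, dot, Pi.add_apply, Pi.smul_apply, smul_eq_mul, Matrix.cons_val_zero,
    Matrix.cons_val_one, Matrix.cons_val]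
  linear_combination ((a 0 * b 0 + a 1 * b 1 + a 2 * b 2) * sin φ ^ 2 +
    (w 0 * a 0 + w 1 * a 1 + w 2 * a 2) * (w 0 * b 0 + w 1 * b 1 + w 2 * b 2) *
      (1 - cos φ) ^ 2) * hw' +
    ((a 0 * b 0 + a 1 * b 1 + a 2 * b 2) - (w 0 * a 0 + w 1 * a 1 + w 2 * a 2) *
      (w 0 * b 0 + w 1 * b 1 + w 2 * b 2)) * hcs

/-- `w × rot v = rot (w × v)` -/
theorem TB5_crs_rot {w : V3} (hw : dot w w = 1) (φ : ℝ) (v : V3) :
    crs w (rot w φ v) = rot w φ (crs w v) := by
  have hw' : w 0 * w 0 + w 1 * w 1 + w 2 * w 2 = 1 := hw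
  refine TB5_ext ?_ ?_ ?_ <;>
  · simp only [rot, crs, dot, Pi.add_apply, Pi.smul_apply, smul_eq_mul, Matrix.cons_val_zero,
      Matrix.cons_val_one, Matrix.cons_val]
    ring

theorem TB5_rot_sub (w : V3) (φ : ℝ) (a b : V3) :
    rot w φ (a - b) = rot w φ a - rot w φ b := by
  refine TB5_ext ?_ ?_ ?_ <;>
  · simp only [rot, crs, dot, Pi.add_apply, Pi.sub_apply, Pi.smul_apply, smul_eq_mul,
      Matrix.cons_val_zero, Matrix.cons_val_one, Matrix.cons_val]
    ring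

/-- `det (w, rot a, rot b) = det (w, a, b)` -/
theorem TB5_det_rot {w : V3} (hw : dot w w = 1) (φ : ℝ) (a b : V3) :
    det3 w (rot w φ a) (rot w φ b) = det3 w a b := by
  have h1 : ∀ a b : V3, det3 w a b = dot (crs w a) b := by
    intro a b
    simp only [det3, crs, dot, Matrix.cons_val_zero, Matrix.cons_val_one, Matrix.cons_val]
    ring
  rw [h1, h1, TB5_crs_rot hw, TB5_rot_dot hw]

/-- the derivative of `rot w φ s`, projected -/
theorem TB5_alg {w w' s s' : V3} (hw : dot w w = 1) (hw' : dot w w' = 0) (φ c : ℝ) (D : V3)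
    (hD : D = cos φ • s' + sin φ • (crs w' s + crs w s') +
      ((1 - cos φ) * (dot w' s + dot w s')) • w + ((1 - cos φ) * dot w s) • w' +
      c • (-(sin φ) • s + cos φ • crs w s + (sin φ * dot w s) • w)) :
    D - dot w D • w - dot w s • w' =
      rot w φ (s' - dot w s' • w - dot w s • w') + c • crs w (rot w φ s) := by
  have h1 : w 0 * w 0 + w 1 * w 1 + w 2 * w 2 = 1 := hw
  have h2 : w 0 * w' 0 + w 1 * w' 1 + w 2 * w' 2 = 0 := hw'
  subst hD
  refine TB5_ext ?_ ?_ ?_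
  · simp only [rot, crs, dot, Pi.add_apply, Pi.sub_apply, Pi.smul_apply, smul_eq_mul,
      Matrix.cons_val_zero, Matrix.cons_val_one, Matrix.cons_val]
    linear_combination (-(1 - cos φ) * (w' 0 * s 0 + w' 1 * s 1 + w' 2 * s 2) * w 0 -
      sin φ * (w' 1 * s 2 - w' 2 * s 1) +
      c * sin φ * (s 0 - (w 0 * s 0 + w 1 * s 1 + w 2 * s 2) * w 0)) * h1 +
      sin φ * (w 1 * s 2 - w 2 * s 1) * h2
  · simp only [rot, crs, dot, Pi.add_apply, Pi.sub_apply, Pi.smul_apply, smul_eq_mul,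
      Matrix.cons_val_zero, Matrix.cons_val_one, Matrix.cons_val]
    linear_combination (-(1 - cos φ) * (w' 0 * s 0 + w' 1 * s 1 + w' 2 * s 2) * w 1 -
      sin φ * (w' 2 * s 0 - w' 0 * s 2) +
      c * sin φ * (s 1 - (w 0 * s 0 + w 1 * s 1 + w 2 * s 2) * w 1)) * h1 +
      sin φ * (w 2 * s 0 - w 0 * s 2) * h2
  · simp only [rot, crs, dot, Pi.add_apply, Pi.sub_apply, Pi.smul_apply, smul_eq_mul,
      Matrix.cons_val_zero, Matrix.cons_val_one, Matrix.cons_val]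
    linear_combination (-(1 - cos φ) * (w' 0 * s 0 + w' 1 * s 1 + w' 2 * s 2) * w 2 -
      sin φ * (w' 0 * s 1 - w' 1 * s 0) +
      c * sin φ * (s 2 - (w 0 * s 0 + w 1 * s 1 + w 2 * s 2) * w 2)) * h1 +
      sin φ * (w 0 * s 1 - w 1 * s 0) * h2

/-! ### derivatives -/

theorem TB5_crs_fderiv {f g : EE 7 → V3} {f' g' : EE 7 →L[ℝ] V3} {q : EE 7}
    (hf : HasFDerivAt f f' q) (hg : HasFDerivAt g g' q) :
    ∃ L : EE 7 →L[ℝ] V3, HasFDerivAt (fun r => crs (f r) (g r)) L q ∧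
      ∀ u, L u = crs (f' u) (g q) + crs (f q) (g' u) := by
  have hf' : ∀ i, HasFDerivAt (fun r => f r i) ((ContinuousLinearMap.proj i).comp f') q :=
    hasFDerivAt_pi'.1 hf
  have hg' : ∀ i, HasFDerivAt (fun r => g r i) ((ContinuousLinearMap.proj i).comp g') q :=
    hasFDerivAt_pi'.1 hg
  have h : ∀ i : Fin 3, ∃ L : EE 7 →L[ℝ] ℝ, HasFDerivAt (fun r => crs (f r) (g r) i) L q ∧
      ∀ u, L u = (crs (f' u) (g q) + crs (f q) (g' u)) i := by
    intro i
    fin_cases i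
    · refine ⟨_, ((hf' 1).mul (hg' 2)).sub ((hf' 2).mul (hg' 1)), fun u => ?_⟩
      simp [crs]
      ring
    · refine ⟨_, ((hf' 2).mul (hg' 0)).sub ((hf' 0).mul (hg' 2)), fun u => ?_⟩
      simp [crs]
      ring
    · refine ⟨_, ((hf' 0).mul (hg' 1)).sub ((hf' 1).mul (hg' 0)), fun u => ?_⟩
      simp [crs]
      ring
  choose L hL hLu using h
  refine ⟨ContinuousLinearMap.pi L, hasFDerivAt_pi.2 hL, fun u => ?_⟩
  funext i
  exact hLu i u

theorem TB5_rot_fderiv {f g : EE 7 → V3} {f' g' : EE 7 →L[ℝ] V3} {φ : EE 7 → ℝ}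
    {φ' : EE 7 →L[ℝ] ℝ} {q : EE 7} (hf : HasFDerivAt f f' q) (hφ : HasFDerivAt φ φ' q)
    (hg : HasFDerivAt g g' q) :
    ∃ L : EE 7 →L[ℝ] V3, HasFDerivAt (fun r => rot (f r) (φ r) (g r)) L q ∧
      ∀ u, L u = cos (φ q) • g' u + sin (φ q) • (crs (f' u) (g q) + crs (f q) (g' u)) +
      ((1 - cos (φ q)) * (dot (f' u) (g q) + dot (f q) (g' u))) • f q +
      ((1 - cos (φ q)) * dot (f q) (g q)) • f' u +
      φ' u • (-(sin (φ q)) • g q + cos (φ q) • crs (f q) (g q) +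
        (sin (φ q) * dot (f q) (g q)) • f q) := by
  obtain ⟨L, hL, hLu⟩ := TB5_crs_fderiv hf hg
  have h1 := ((hφ.cos.smul hg).add (hφ.sin.smul hL)).add
    (((hφ.cos.const_sub 1).mul (TB1_dot_fderiv hf hg)).smul hf)
  refine ⟨_, h1, fun u => ?_⟩
  have hc : dot (g q) (f' u) = dot (f' u) (g q) := dot_comm _ _
  simp only [add_apply, smul_apply, neg_apply, ContinuousLinearMap.smulRight_apply, hLu,
    ContinuousLinearMap.comp_apply, TB1_dot_apply, smul_eq_mul, Pi.mul_apply, hc]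
  module

/-! ### the action -/

variable {p : EE 7}

theorem TB5_sv_act (k : ℕ) (n : ℤ × ℤ × ℤ) (hp : p ∈ OM) :
    sv (act k n p) = rot (wv p) (4 * π * k * n.1 * x2 p) (sv p) := by
  unfold sv
  rw [nr_zv_act k n hp, zv_act, QA_rot_smul, smul_smul]
  congr 1
  have := (Real.exp_pos (n.2.1 : ℝ)).ne'
  rw [mul_inv]
  field_simp

theorem hh_act (k : ℕ) (n : ℤ × ℤ × ℤ) {p : EE 7} (hp : p ∈ OM) : hh (act k n p) = hh p := by
  unfold hh
  rw [wv_act, TB5_sv_act k n hp, TB5_dot_rot (wv_unit hp)]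

theorem TB5_Jl_act (k : ℕ) (n : ℤ × ℤ × ℤ) (hp : p ∈ OM) :
    Jl (act k n p) = rot (wv p) (4 * π * k * n.1 * x2 p) (Jl p) := by
  unfold Jl
  rw [wv_act, TB5_sv_act k n hp, TB5_crs_rot (wv_unit hp)]

theorem TB5_chain {F : Type*} [NormedAddCommGroup F] [NormedSpace ℝ F] (k : ℕ)
    (n : ℤ × ℤ × ℤ) (hp : p ∈ OM) {f : EE 7 → F} (hf : DifferentiableAt ℝ f (act k n p))
    (u : EE 7) : fderiv ℝ f (act k n p) (fderiv ℝ (act k n) p u) =
      fderiv ℝ (fun q => f (act k n q)) p u := by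
  have h : fderiv ℝ (fun q => f (act k n q)) p = _ :=
    fderiv_comp p hf ((contDiffAt_act k n hp).differentiableAt (by simp))
  rw [h]
  rfl

theorem TB5_dw_act (k : ℕ) (n : ℤ × ℤ × ℤ) (hp : p ∈ OM) (u : EE 7) :
    dw (act k n p) (fderiv ℝ (act k n) p u) = dw p u := by
  have hq := act_mem k n hp
  rw [← fderiv_wv hq, ← fderiv_wv hp,
    TB5_chain k n hp ((contDiffAt_wv hq).differentiableAt (by simp))]
  congr 2
  funext q
  exact wv_act k n q

theorem TB5_xi1_act (k : ℕ) (n : ℤ × ℤ × ℤ) (hp : p ∈ OM) (u : EE 7) :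
    xi1 (act k n p) (fderiv ℝ (act k n) p u) = xi1 p u := by
  have hq := act_mem k n hp
  rw [← fderiv_x1 hq, ← fderiv_x1 hp,
    TB5_chain k n hp ((contDiffAt_x1 hq).differentiableAt (by simp))]
  have h : (fun q => x1 (act k n q)) =ᶠ[𝓝 p] fun q => x1 q + n.1 := by
    filter_upwards [isOpen_OM.mem_nhds hp] with q hq
    exact x1_act k n hq
  rw [h.fderiv_eq, fderiv_add_const]

theorem TB5_xi2_act (k : ℕ) (n : ℤ × ℤ × ℤ) (hp : p ∈ OM) (u : EE 7) :
    xi2 (act k n p) (fderiv ℝ (act k n) p u) = xi2 p u := by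
  have hq := act_mem k n hp
  rw [← fderiv_x2 hq, ← fderiv_x2 hp,
    TB5_chain k n hp ((contDiffAt_x2 hq).differentiableAt (by simp))]
  have h : (fun q => x2 (act k n q)) =ᶠ[𝓝 p] fun q => x2 q + n.2.1 := by
    filter_upwards [isOpen_OM.mem_nhds hp] with q hq
    exact x2_act k n hq
  rw [h.fderiv_eq, fderiv_add_const]

theorem TB5_xi3_act (k : ℕ) (n : ℤ × ℤ × ℤ) (hp : p ∈ OM) (u : EE 7) :
    xi3 (act k n p) (fderiv ℝ (act k n) p u) = xi3 p u := by
  rw [← fderiv_x3 (p := act k n p), ← fderiv_x3 (p := p),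
    TB5_chain k n hp ((contDiffAt_x3 _).differentiableAt (by simp))]
  have h : (fun q => x3 (act k n q)) = fun q => x3 q + n.2.2 := by
    funext q
    exact x3_act k n q
  rw [h, fderiv_add_const]

theorem TB5_dh_act (k : ℕ) (n : ℤ × ℤ × ℤ) (hp : p ∈ OM) (u : EE 7) :
    dh (act k n p) (fderiv ℝ (act k n) p u) = dh p u := by
  have hq := act_mem k n hp
  rw [← fderiv_hh hq, ← fderiv_hh hp,
    TB5_chain k n hp ((TB1_hh hq).differentiableAt (by simp))]
  have h : (fun q => hh (act k n q)) =ᶠ[𝓝 p] hh := by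
    filter_upwards [isOpen_OM.mem_nhds hp] with q hq
    exact hh_act k n hq
  rw [h.fderiv_eq]

theorem TB5_Dl_act (k : ℕ) (n : ℤ × ℤ × ℤ) (hp : p ∈ OM) (u : EE 7) :
    Dl (act k n p) (fderiv ℝ (act k n) p u) =
      rot (wv p) (4 * π * k * n.1 * x2 p) (Dl p u) +
        (4 * π * k * n.1 * xi2 p u) • Jl (act k n p) := by
  have hq := act_mem k n hp
  obtain ⟨Lw, hLw, hLwu⟩ := hasFDerivAt_wv hp
  obtain ⟨Ls, hLs, hLsu⟩ := hasFDerivAt_sv hp
  have hx : HasFDerivAt (fun q => 4 * π * k * n.1 * x2 q)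
      ((4 * π * k * n.1) • fderiv ℝ x2 p) p :=
    ((contDiffAt_x2 hp).differentiableAt (by simp)).hasFDerivAt.const_mul _
  obtain ⟨L, hL, hLu⟩ := TB5_rot_fderiv hLw hx hLs
  have h1 : ds (act k n p) (fderiv ℝ (act k n) p u) = L u := by
    rw [← fderiv_sv hq, TB5_chain k n hp ((contDiffAt_sv hq).differentiableAt (by simp))]
    have h : (fun q => sv (act k n q)) =ᶠ[𝓝 p]
        fun q => rot (wv q) (4 * π * k * n.1 * x2 q) (sv q) := by
      filter_upwards [isOpen_OM.mem_nhds hp] with q hq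
      exact TB5_sv_act k n hq
    rw [h.fderiv_eq, hL.fderiv]
  have h2 := TB5_alg (wv_unit hp) (dot_wv_dw hp u) (4 * π * k * n.1 * x2 p)
    (4 * π * k * n.1 * xi2 p u) (L u) (s := sv p) (s' := ds p u) (by
      rw [hLu, hLwu, hLsu, smul_apply, fderiv_x2 hp, smul_eq_mul])
  unfold Dl
  rw [h1, wv_act, hh_act k n hp, TB5_dw_act k n hp]
  have h3 : Jl (act k n p) = crs (wv p) (rot (wv p) (4 * π * k * n.1 * x2 p) (sv p)) := by
    unfold Jl
    rw [wv_act, TB5_sv_act k n hp]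
  rw [h3]
  exact h2

theorem TB5_DDv_act (k : ℕ) (n : ℤ × ℤ × ℤ) (hp : p ∈ OM) (u : EE 7) :
    DDv k (act k n p) (fderiv ℝ (act k n) p u) =
      rot (wv p) (4 * π * k * n.1 * x2 p) (DDv k p u) := by
  unfold DDv
  rw [TB5_Dl_act k n hp, x1_act k n hp, TB5_xi2_act k n hp, TB5_rot_sub, QA_rot_smul,
    TB5_Jl_act k n hp]
  module

theorem inv_Wf (k : ℕ) : Inv k Wf := by
  intro n p hp u v
  unfold Wf
  rw [wv_act, TB5_dw_act k n hp, TB5_dw_act k n hp]

theorem inv_Thf (k : ℕ) : Inv k Thf := by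
  intro n p hp u v
  unfold Thf
  rw [TB5_xi1_act k n hp, TB5_xi1_act k n hp, TB5_xi2_act k n hp, TB5_xi2_act k n hp]

theorem inv_FF (l : ℕ) : Inv l (FF l) := by
  intro n p hp u v
  unfold FF
  rw [wv_act, TB5_dw_act l n hp, TB5_dw_act l n hp, inv_Thf l n p hp]

theorem inv1_TTv (l : ℕ) : Inv1 l (TTv l) := by
  intro n p hp u
  unfold TTv
  rw [TB5_DDv_act l n hp, TB5_Jl_act l n hp, TB5_rot_dot (wv_unit hp)]

theorem inv_Xf (l : ℕ) : Inv l (Xf l) := by
  intro n p hp u v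
  unfold Xf
  rw [hh_act l n hp, wv_act, TB5_DDv_act l n hp, TB5_DDv_act l n hp,
    TB5_det_rot (wv_unit hp), TB5_dh_act l n hp, TB5_dh_act l n hp, inv1_TTv l n p hp,
    inv1_TTv l n p hp, inv_FF l n p hp]

end H31R.Tp
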