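import Pool.Agent.Lib.H31R.M1
import Pool.Agent.Lib.H31R.TB5

/-!
# H31R, chunk M2: invariance of the slab metric under `act k (0, n2, n3)`, slab identity
-/

open scoped ContDiff Topology
open Real Filter

namespace H31R

theorem M2_rot_self {w : V3} (hw : dot w w = 1) (φ : ℝ) : rot w φ w = w := by
  have h : crs w w = 0 := by
    refine C0a_ext ?_ ?_ ?_ <;> simp only [C0a_crs0, C0a_crs1, C0a_crs2, Pi.zero_apply] <;> ring
  unfold rot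
  rw [hw, h]
  module

theorem M2_lv_act (k : ℕ) (n : ℤ × ℤ × ℤ) {p : EE 7} (hp : p ∈ OM) :
    lv (act k n p) = rot (wv p) (4 * π * k * n.1 * x2 p) (lv p) := by
  unfold lv
  rw [wv_act, Tp.TB5_sv_act k n hp, Tp.hh_act k n hp, Tp.TB5_rot_sub, QA_rot_smul,
    M2_rot_self (wv_unit hp)]

theorem M2_dot_lv_act (k : ℕ) (n : ℤ × ℤ × ℤ) {p : EE 7} (hp : p ∈ OM) :
    dot (lv (act k n p)) (lv (act k n p)) = dot (lv p) (lv p) := by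
  rw [M2_lv_act k n hp, Tp.TB5_rot_dot (wv_unit hp)]

theorem M2_nr_lv_act (k : ℕ) (n : ℤ × ℤ × ℤ) {p : EE 7} (hp : p ∈ OM) :
    nr (lv (act k n p)) = nr (lv p) := by
  unfold nr
  rw [M2_dot_lv_act k n hp]

section zero

variable (k : ℕ) (n2 n3 : ℤ) {p : EE 7} (hp : p ∈ OM)

include hp

theorem M2_x1_0 : x1 (act k (0, n2, n3) p) = x1 p := by
  rw [x1_act k _ hp]
  simp

theorem M2_phi (p : EE 7) : 4 * π * k * ((0 : ℤ) : ℝ) * x2 p = 0 := by simp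

theorem M2_lv_0 : lv (act k (0, n2, n3) p) = lv p := by
  rw [M2_lv_act k _ hp]
  show rot (wv p) (4 * π * k * ((0 : ℤ) : ℝ) * x2 p) (lv p) = lv p
  rw [Int.cast_zero, mul_zero, zero_mul, QA_rot_zero]

theorem M2_Jl_0 : Jl (act k (0, n2, n3) p) = Jl p := by
  rw [Tp.TB5_Jl_act k _ hp]
  show rot (wv p) (4 * π * k * ((0 : ℤ) : ℝ) * x2 p) (Jl p) = Jl p
  rw [Int.cast_zero, mul_zero, zero_mul, QA_rot_zero]

theorem M2_Dl_0 (u : EE 7) : Dl (act k (0, n2, n3) p) (fderiv ℝ (act k (0, n2, n3)) p u) =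
    Dl p u := by
  rw [Tp.TB5_Dl_act k _ hp]
  show rot (wv p) (4 * π * k * ((0 : ℤ) : ℝ) * x2 p) (Dl p u) +
    (4 * π * k * ((0 : ℤ) : ℝ) * xi2 p u) • Jl (act k (0, n2, n3) p) = Dl p u
  rw [Int.cast_zero, mul_zero, zero_mul, zero_mul, QA_rot_zero, zero_smul, add_zero]

theorem M2_Av_0 (P : Prof) (u : EE 7) :
    Av P (act k (0, n2, n3) p) (fderiv ℝ (act k (0, n2, n3)) p u) = Av P p u := by
  unfold Av
  rw [M2_Dl_0 k n2 n3 hp, M2_x1_0 k n2 n3 hp, M2_Jl_0 k n2 n3 hp, Tp.TB5_xi2_act k _ hp]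

theorem M2_Bv_0 (P : Prof) (R : ℝ) (u : EE 7) :
    Bv P R (act k (0, n2, n3) p) (fderiv ℝ (act k (0, n2, n3)) p u) = Bv P R p u := by
  unfold Bv
  rw [wv_act, M2_lv_0 k n2 n3 hp, M2_x1_0 k n2 n3 hp, M2_Jl_0 k n2 n3 hp,
    Tp.TB5_xi2_act k _ hp, Tp.TB5_xi1_act k _ hp, Tp.TB5_dw_act k _ hp]

theorem M2_RR_0 (P : Prof) (ε : ℝ) : RR P ε (act k (0, n2, n3) p) = RR P ε p := by
  unfold RR
  rw [M2_lv_0 k n2 n3 hp, M2_x1_0 k n2 n3 hp]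

theorem M2_gc_0 (P : Prof) (ε : ℝ) (u v : EE 7) :
    gc P ε (act k (0, n2, n3) p) (fderiv ℝ (act k (0, n2, n3)) p u)
      (fderiv ℝ (act k (0, n2, n3)) p v) = gc P ε p u v := by
  unfold gc
  rw [M2_RR_0 k n2 n3 hp, wv_act, M2_lv_0 k n2 n3 hp, M2_x1_0 k n2 n3 hp, M2_Jl_0 k n2 n3 hp,
    Tp.TB5_xi1_act k _ hp, Tp.TB5_xi2_act k _ hp, Tp.TB5_xi3_act k _ hp, M2_Av_0 k n2 n3 hp,
    M2_Bv_0 k n2 n3 hp, Tp.TB5_xi1_act k _ hp, Tp.TB5_xi2_act k _ hp, Tp.TB5_xi3_act k _ hp,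
    M2_Av_0 k n2 n3 hp, M2_Bv_0 k n2 n3 hp]

theorem M2_go_0 (P : Prof) (u v : EE 7) :
    go P (act k (0, n2, n3) p) (fderiv ℝ (act k (0, n2, n3)) p u)
      (fderiv ℝ (act k (0, n2, n3)) p v) = go P p u v := by
  unfold go
  rw [M2_lv_0 k n2 n3 hp, Tp.hh_act k _ hp,
    Tp.TB5_xi1_act k _ hp, Tp.TB5_xi2_act k _ hp, Tp.TB5_xi3_act k _ hp, M2_Av_0 k n2 n3 hp,
    M2_Bv_0 k n2 n3 hp, Tp.TB5_dh_act k _ hp, Tp.TB5_xi1_act k _ hp, Tp.TB5_xi2_act k _ hp,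
    Tp.TB5_xi3_act k _ hp,
    M2_Av_0 k n2 n3 hp, M2_Bv_0 k n2 n3 hp, Tp.TB5_dh_act k _ hp]

/-- `g0` is invariant under the elements `(0, n2, n3)` of the group -/
theorem M2_g0_0 (P : Prof) (ε : ℝ) (u v : EE 7) :
    g0 P ε (act k (0, n2, n3) p) (fderiv ℝ (act k (0, n2, n3)) p u)
      (fderiv ℝ (act k (0, n2, n3)) p v) = g0 P ε p u v := by
  unfold g0
  rw [M2_gc_0 k n2 n3 hp, M2_go_0 k n2 n3 hp, M2_lv_0 k n2 n3 hp]

end zero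

/-! ### the slab identity -/

/-- `gcore` for `b1 = b2 = 0` and `a' = 0` -/
theorem M2_gcore_flat (a R : ℝ) (w l J : V3) (xu1 xu2 xu3 : ℝ) (Au Bu : V3)
    (xv1 xv2 xv3 : ℝ) (Av Bv : V3) :
    gcore a 0 0 0 R w l J xu1 xu2 xu3 Au Bu xv1 xv2 xv3 Av Bv =
      xu1 * xv1 + xu2 * xv2 + xu3 * xv3 + dot Au Av / (4 * R) + R * dot Bu Bv := by
  unfold gcore
  simp only
  ring

theorem M2_deriv_a (k : ℕ) {x : ℝ} (h : 1 / 4 < |x|) : deriv (prof k).a x = 0 := by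
  have hev : (prof k).a =ᶠ[𝓝 x] fun _ => 1 / 4 := by
    have hc : ContinuousAt (fun y : ℝ => |y|) x := continuous_abs.continuousAt
    filter_upwards [hc.eventually_const_lt h] with y hy
    exact auf_const k hy.le
  rw [hev.deriv_eq, deriv_const]

section slab

variable (k : ℕ) {p : EE 7} (hp : p ∈ OM) (h1 : -(3 / 4) < x1 p) (h2 : x1 p < -(1 / 4))

include hp

theorem M2_x1_1 : x1 (act k (1, 0, 0) p) = x1 p + 1 := by
  rw [x1_act k _ hp]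
  simp

include h1 h2

theorem M2_Av_1 (u : EE 7) :
    Av (prof k) (act k (1, 0, 0) p) (fderiv ℝ (act k (1, 0, 0)) p u) =
      rot (wv p) (4 * π * k * (((1, 0, 0) : ℤ × ℤ × ℤ).1 : ℤ) * x2 p) (Av (prof k) p u) := by
  unfold Av
  rw [Tp.TB5_Dl_act k _ hp, Tp.TB5_xi2_act k _ hp, Tp.TB5_rot_sub, QA_rot_smul, M2_x1_1 k hp,
    Tp.TB5_Jl_act k _ hp, b3_right k (by linarith), b3_left k (by linarith)]
  have hn : ((((1, 0, 0) : ℤ × ℤ × ℤ).1 : ℤ) : ℝ) = 1 := by simp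
  rw [hn]
  unfold KK
  module

theorem M2_Bv_1 (R : ℝ) (u : EE 7) :
    Bv (prof k) R (act k (1, 0, 0) p) (fderiv ℝ (act k (1, 0, 0)) p u) = Bv (prof k) R p u := by
  have e1 : 1 / 8 ≤ |x1 p| := by
    rw [abs_of_neg (by linarith)]
    linarith
  have e2 : 1 / 8 ≤ |x1 p + 1| := by
    rw [abs_of_pos (by linarith)]
    linarith
  unfold Bv
  rw [wv_act, Tp.TB5_xi2_act k _ hp, Tp.TB5_xi1_act k _ hp, Tp.TB5_dw_act k _ hp, M2_x1_1 k hp,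
    b1_zero k e1, b1_zero k e2, b2_zero k e1, b2_zero k e2]
  simp only [zero_mul, zero_smul, add_zero]

theorem M2_a_1 : (prof k).a (x1 p + 1) = (prof k).a (x1 p) := by
  show auf k (x1 p + 1) = auf k (x1 p)
  rw [auf_const k (x := x1 p + 1), auf_const k (x := x1 p)]
  · rw [abs_of_neg (by linarith)]
    linarith
  · rw [abs_of_pos (by linarith)]
    linarith

theorem M2_RR_1 (ε : ℝ) : RR (prof k) ε (act k (1, 0, 0) p) = RR (prof k) ε p := by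
  unfold RR
  rw [M2_dot_lv_act k _ hp, M2_x1_1 k hp, M2_a_1 k hp h1 h2]

theorem M2_gc_1 (ε : ℝ) (u v : EE 7) :
    gc (prof k) ε (act k (1, 0, 0) p) (fderiv ℝ (act k (1, 0, 0)) p u)
      (fderiv ℝ (act k (1, 0, 0)) p v) = gc (prof k) ε p u v := by
  have e1 : 1 / 4 < |x1 p| := by
    rw [abs_of_neg (by linarith)]
    linarith
  have e2 : 1 / 4 < |x1 p + 1| := by
    rw [abs_of_pos (by linarith)]
    linarith
  have e3 : 1 / 8 ≤ |x1 p| := by linarith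
  have e4 : 1 / 8 ≤ |x1 p + 1| := by linarith
  unfold gc
  rw [M2_RR_1 k hp h1 h2, M2_Av_1 k hp h1 h2, M2_Av_1 k hp h1 h2, M2_Bv_1 k hp h1 h2,
    M2_Bv_1 k hp h1 h2, Tp.TB5_xi1_act k _ hp, Tp.TB5_xi2_act k _ hp, Tp.TB5_xi3_act k _ hp,
    Tp.TB5_xi1_act k _ hp, Tp.TB5_xi2_act k _ hp, Tp.TB5_xi3_act k _ hp, M2_x1_1 k hp,
    b1_zero k e3, b1_zero k e4, b2_zero k e3, b2_zero k e4, M2_deriv_a k e1, M2_deriv_a k e2,
    mul_zero, M2_gcore_flat, M2_gcore_flat, Tp.TB5_rot_dot (wv_unit hp)]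

theorem M2_go_1 (u v : EE 7) :
    go (prof k) (act k (1, 0, 0) p) (fderiv ℝ (act k (1, 0, 0)) p u)
      (fderiv ℝ (act k (1, 0, 0)) p v) = go (prof k) p u v := by
  unfold go
  rw [M2_nr_lv_act k _ hp, M2_Av_1 k hp h1 h2, M2_Av_1 k hp h1 h2, M2_Bv_1 k hp h1 h2,
    M2_Bv_1 k hp h1 h2, Tp.TB5_xi1_act k _ hp, Tp.TB5_xi2_act k _ hp, Tp.TB5_xi3_act k _ hp,
    Tp.TB5_xi1_act k _ hp, Tp.TB5_xi2_act k _ hp, Tp.TB5_xi3_act k _ hp, Tp.hh_act k _ hp,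
    Tp.TB5_dh_act k _ hp, Tp.TB5_dh_act k _ hp, Tp.TB5_rot_dot (wv_unit hp)]

/-- the slab identity -/
theorem M2_g0_1 (ε : ℝ) (u v : EE 7) :
    g0 (prof k) ε (act k (1, 0, 0) p) (fderiv ℝ (act k (1, 0, 0)) p u)
      (fderiv ℝ (act k (1, 0, 0)) p v) = g0 (prof k) ε p u v := by
  unfold g0
  rw [M2_gc_1 k hp h1 h2, M2_go_1 k hp h1 h2, M2_dot_lv_act k _ hp]

end slab

end H31R
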