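import Pool.Agent.Lib.H31R.M2

/-!
# H31R, chunk M3: positivity of the slab metric
-/

open scoped ContDiff Topology
open Real Filter

namespace H31R

/-! ### algebra of vectors -/

theorem M3_eq_zero {v : V3} (h : dot v v = 0) : v = 0 := by
  by_contra hv
  exact (C0a_dot_pos hv).ne' h

/-- Lagrange's identity -/
theorem M3_lagrange (u v : V3) : dot (crs u v) (crs u v) = dot u u * dot v v - dot u v ^ 2 := by
  simp only [dot, C0a_crs0, C0a_crs1, C0a_crs2]
  ring

theorem M3_cs (u v : V3) : dot u v ^ 2 ≤ dot u u * dot v v := by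
  have h := C0a_dot_nonneg (crs u v)
  rw [M3_lagrange] at h
  linarith

theorem M3_crs_le {w : V3} (hw : dot w w = 1) (v : V3) : dot (crs w v) (crs w v) ≤ dot v v := by
  rw [M3_lagrange, hw]
  nlinarith [sq_nonneg (dot w v)]

theorem M3_crs_eq_zero {w v : V3} (hw : dot w w = 1) (hwv : dot w v = 0) (h : crs w v = 0) :
    v = 0 := by
  have h1 := M3_lagrange w v
  rw [h, hw, hwv] at h1
  apply M3_eq_zero
  have h2 : dot (0 : V3) 0 = 0 := by simp [dot]
  rw [h2] at h1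
  linarith

/-- the kernel of the coordinate forms -/
theorem M3_ker0 {p u : EE 7} (hp : p ∈ OM) (h1 : xi1 p u = 0) (h2 : xi2 p u = 0)
    (h3 : xi3 p u = 0) (hw : dw p u = 0) (hs : ds p u = 0) : u = 0 := by
  unfold dw at hw
  unfold ds at hs
  rw [h1, zero_smul, sub_zero] at hw
  rw [h2, zero_smul, sub_zero] at hs
  have hy : yv u = 0 := (smul_eq_zero.1 hw).resolve_left (inv_ne_zero (nr_pos hp.1).ne')
  have hz : zv u = 0 := (smul_eq_zero.1 hs).resolve_left (inv_ne_zero (nr_pos hp.2).ne')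
  have h0 : u 0 = 0 := h3
  have e := mk7_self u
  rw [hy, hz, h0] at e
  rw [← e]
  ext i
  fin_cases i <;> rfl

theorem M3_ker {P : Prof} {R : ℝ} {p u : EE 7} (hp : p ∈ OM) (h1 : xi1 p u = 0)
    (h2 : xi2 p u = 0) (h3 : xi3 p u = 0) (hA : Av P p u = 0) (hB : Bv P R p u = 0)
    (hh0 : hh p = 0 → dh p u = 0) : u = 0 := by
  have hw1 := wv_unit hp
  unfold Bv at hB
  rw [h1, h2, mul_zero, mul_zero, zero_smul, zero_smul, add_zero, smul_zero, sub_zero] at hB
  have hB' : crs (wv p) (dw p u) = 0 := (smul_eq_zero.1 hB).resolve_left (by norm_num)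
  have hw0 : dw p u = 0 := M3_crs_eq_zero hw1 (Tp.dot_wv_dw hp u) hB'
  unfold Av at hA
  rw [h2, mul_zero, zero_smul, sub_zero] at hA
  unfold Dl at hA
  rw [hw0, smul_zero, sub_zero] at hA
  have hds : ds p u = dot (wv p) (ds p u) • wv p := sub_eq_zero.1 hA
  have hs0 := Tp.dot_sv_ds hp u
  have hz : dot (wv p) (ds p u) = 0 := by
    by_cases hh1 : hh p = 0
    · have := hh0 hh1
      unfold dh at this
      rw [hw0] at this
      have h4 : dot (0 : V3) (sv p) = 0 := by simp [dot]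
      rw [h4, zero_add] at this
      exact this
    · rw [hds, C0_dot_smul_right] at hs0
      have h5 : dot (sv p) (wv p) = hh p := dot_comm _ _
      rw [h5] at hs0
      exact (mul_eq_zero.1 hs0).resolve_right hh1
  rw [hz, zero_smul] at hds
  exact M3_ker0 hp h1 h2 h3 hw0 hds

/-! ### the outer metric -/

theorem M3_psi_nonneg (h : ℝ) : 0 ≤ psi h := Real.smoothTransition.nonneg _

theorem M3_psi_zero : psi 0 = 1 := Real.smoothTransition.one_of_one_le (by norm_num)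

theorem go_pos (P : Prof) {p u : EE 7} (hp : p ∈ OM) (hl : 0 < dot (lv p) (lv p)) (hu : u ≠ 0) :
    0 < go P p u u := by
  have hn : 0 < nr (lv p) := Real.sqrt_pos.2 hl
  by_contra hneg
  apply hu
  have h := not_lt.1 hneg
  unfold go at h
  have a1 := mul_self_nonneg (xi1 p u)
  have a2 := mul_self_nonneg (xi2 p u)
  have a3 := mul_self_nonneg (xi3 p u)
  have a4 : 0 ≤ dot (Av P p u) (Av P p u) / (4 * nr (lv p)) :=
    div_nonneg (C0a_dot_nonneg _) (by linarith)
  have a5 : 0 ≤ nr (lv p) * dot (Bv P (nr (lv p)) p u) (Bv P (nr (lv p)) p u) :=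
    mul_nonneg hn.le (C0a_dot_nonneg _)
  have a6 : 0 ≤ psi (hh p) * dh p u * dh p u := by
    rw [mul_assoc]
    exact mul_nonneg (M3_psi_nonneg _) (mul_self_nonneg _)
  have b1 : xi1 p u * xi1 p u = 0 := by linarith
  have b2 : xi2 p u * xi2 p u = 0 := by linarith
  have b3 : xi3 p u * xi3 p u = 0 := by linarith
  have b4 : dot (Av P p u) (Av P p u) / (4 * nr (lv p)) = 0 := by linarith
  have b5 : nr (lv p) * dot (Bv P (nr (lv p)) p u) (Bv P (nr (lv p)) p u) = 0 := by linarith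
  have b6 : psi (hh p) * dh p u * dh p u = 0 := by linarith
  refine M3_ker (P := P) (R := nr (lv p)) hp (mul_self_eq_zero.1 b1) (mul_self_eq_zero.1 b2)
    (mul_self_eq_zero.1 b3) (M3_eq_zero ?_) (M3_eq_zero ?_) ?_
  · exact (div_eq_zero_iff.1 b4).resolve_right (by linarith)
  · exact (mul_eq_zero.1 b5).resolve_left hn.ne'
  · intro h0
    rw [h0, M3_psi_zero, one_mul] at b6
    exact mul_self_eq_zero.1 b6

/-! ### the core metric -/

theorem M3_num {x1 x2 x3 s1 s2 s3 z R a L NA NB lA JA lB JB c : ℝ} (hR : 0 < R) (ha : 0 < a)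
    (haR : a ≤ R) (hL : 0 ≤ L) (hLR : L ≤ R ^ 2) (h1 : 0 ≤ s1) (h2 : 0 ≤ s2) (h3 : 0 ≤ s3)
    (hz : z ^ 2 = s1 * s3) (ht : s1 + s2 + s3 ≤ R / 10) (hA : 0 ≤ NA) (hB : 0 ≤ NB)
    (hlA : lA ^ 2 ≤ L * NA) (hJA : JA ^ 2 ≤ L * NA) (hlB : lB ^ 2 ≤ L * NB)
    (hJB : JB ^ 2 ≤ L * NB) (hc : c ^ 2 ≤ NA * NB) :
    x1 * x1 + x2 * x2 + x3 * x3 + (NA / (4 * R) + R * NB) / 2 ≤
      x1 * x1 * (1 + (s1 + s3) / (4 * R)) + x2 * x2 * (1 + s2 / (4 * R)) + x3 * x3
      + (1 - (s1 + s2 + s3) / (24 * R) - (s3 - (s1 + s2 + s3) / 3) *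
        ((1 / 8) * (1 / R - 2 * a / R ^ 2))) * NA / (4 * R)
      + (1 - (s1 + s2 + s3) / (24 * R) + (s3 - (s1 + s2 + s3) / 3) *
        ((1 / 8) * (1 / R - 2 * a / R ^ 2))) * R * NB
      - 1 / (8 * R * (R + a) ^ 2) * ((s1 + s2 - 2 * (s1 + s2 + s3) / 3) *
        (lA * lA - JA * JA) / (4 * R) + (s1 - s2) * R * (lB * lB - JB * JB)
        + z / 2 * (lA * JB + JA * lB + lA * JB + JA * lB))
      + (1 / 8) * (1 / R - 2 * a / R ^ 2) * z / 2 * (c + c) := by
  obtain ⟨al, hal⟩ : ∃ al, al = NA / (4 * R) := ⟨_, rfl⟩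
  obtain ⟨be, hbe⟩ : ∃ be, be = R * NB := ⟨_, rfl⟩
  obtain ⟨t, hte⟩ : ∃ t, t = s1 + s2 + s3 := ⟨_, rfl⟩
  obtain ⟨kap, hkap⟩ : ∃ kap, kap = (1 / 8) * (1 / R - 2 * a / R ^ 2) := ⟨_, rfl⟩
  obtain ⟨T, hT⟩ : ∃ T, T = 1 / (8 * R * (R + a) ^ 2) := ⟨_, rfl⟩
  obtain ⟨r, hr⟩ : ∃ r, r = 1 / R := ⟨_, rfl⟩
  have hr0 : 0 < r := by rw [hr]; positivity
  have hrR : r * R = 1 := by rw [hr]; field_simp
  have hal0 : 0 ≤ al := by rw [hal]; positivity
  have hbe0 : 0 ≤ be := by rw [hbe]; positivity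
  have hab0 : 0 ≤ al + be := add_nonneg hal0 hbe0
  have ht0 : 0 ≤ t := by rw [hte]; positivity
  have htr : t * r ≤ 1 / 10 := by
    have : t * r ≤ R / 10 * r := mul_le_mul_of_nonneg_right (hte ▸ ht) hr0.le
    calc t * r ≤ R / 10 * r := this
      _ = (r * R) / 10 := by ring
      _ = 1 / 10 := by rw [hrR]
  have hkap1 : |kap| ≤ r / 8 := by
    have e : kap = (r / 8) * (1 - 2 * (a * r)) := by
      rw [hkap, hr]
      field_simp
    have h5 : 0 ≤ a * r := by positivity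
    have h6 : a * r ≤ 1 := by
      calc a * r ≤ R * r := mul_le_mul_of_nonneg_right haR hr0.le
        _ = 1 := by rw [mul_comm, hrR]
    rw [e, abs_mul, abs_of_pos (by positivity : 0 < r / 8)]
    have h7 : |1 - 2 * (a * r)| ≤ 1 := abs_le.2 ⟨by linarith, by linarith⟩
    exact mul_le_of_le_one_right (by positivity) h7
  have hT0 : 0 < T := by rw [hT]; positivity
  have hTL : T * L ≤ r / 8 := by
    have h5 : T * (R + a) ^ 2 = r / 8 := by
      rw [hT, hr]
      field_simp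
    have h6 : L ≤ (R + a) ^ 2 :=
      hLR.trans (pow_le_pow_left₀ hR.le (by linarith) 2)
    calc T * L ≤ T * (R + a) ^ 2 := mul_le_mul_of_nonneg_left h6 hT0.le
      _ = r / 8 := h5
  have hNA : NA = 4 * R * al := by rw [hal]; field_simp
  have hNB : NB = r * be := by
    rw [hbe, hr]
    field_simp
  have key : ∀ x y : ℝ, x ^ 2 ≤ y ^ 2 → 0 ≤ y → |x| ≤ y := fun x y h hy =>
    abs_le.2 (abs_le_of_sq_le_sq' h hy)
  have hz1 : |z| ≤ t / 2 := by
    apply key _ _ _ (by positivity)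
    rw [hz]
    have h5 : (s1 + s3) ^ 2 ≤ t ^ 2 := pow_le_pow_left₀ (by positivity) (by linarith) 2
    have h6 := sq_nonneg (s1 - s3)
    have h7 : (s1 - s3) ^ 2 = (s1 + s3) ^ 2 - 4 * (s1 * s3) := by ring
    have h8 : (t / 2) ^ 2 = t ^ 2 / 4 := by ring
    rw [h8]
    linarith
  -- mixed products
  have hmix : ∀ c : ℝ, c ^ 2 ≤ NA * NB → |c| ≤ al + be := by
    intro c hc
    have h5 : NA * NB = 4 * al * be := by
      rw [hNA, hNB]
      linear_combination 4 * al * be * hrR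
    apply key _ _ _ hab0
    have h6 := sq_nonneg (al - be)
    have h7 : (al - be) ^ 2 = (al + be) ^ 2 - 4 * al * be := by ring
    linarith
  have hmixL : ∀ x y : ℝ, x ^ 2 ≤ L * NA → y ^ 2 ≤ L * NB → |x * y| ≤ L * (al + be) := by
    intro x y hx hy
    have h5 : NA * NB = 4 * al * be := by
      rw [hNA, hNB]
      linear_combination 4 * al * be * hrR
    have h6 : (x * y) ^ 2 ≤ (L * (al + be)) ^ 2 := by
      calc (x * y) ^ 2 = x ^ 2 * y ^ 2 := by ring
        _ ≤ (L * NA) * (L * NB) := mul_le_mul hx hy (sq_nonneg _) (by positivity)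
        _ = L ^ 2 * (4 * al * be) := by rw [← h5]; ring
        _ ≤ L ^ 2 * (al + be) ^ 2 :=
          mul_le_mul_of_nonneg_left (by
            have h6 := sq_nonneg (al - be)
            have h7 : (al - be) ^ 2 = (al + be) ^ 2 - 4 * al * be := by ring
            linarith) (sq_nonneg _)
        _ = (L * (al + be)) ^ 2 := by ring
    exact key _ _ h6 (by positivity)
  -- the bounds
  have q1 : |s3 - t / 3| ≤ t := abs_le.2 ⟨by linarith, by linarith⟩
  have q2 : |s1 + s2 - 2 * t / 3| ≤ t := abs_le.2 ⟨by linarith, by linarith⟩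
  have q3 : |s1 - s2| ≤ t := abs_le.2 ⟨by linarith, by linarith⟩
  have q4 : |lA * lA - JA * JA| ≤ L * NA :=
    abs_le.2 ⟨by linarith [mul_self_nonneg lA, sq JA], by linarith [mul_self_nonneg JA, sq lA]⟩
  have q5 : |lB * lB - JB * JB| ≤ L * NB :=
    abs_le.2 ⟨by linarith [mul_self_nonneg lB, sq JB], by linarith [mul_self_nonneg JB, sq lB]⟩
  have w1 : |(s3 - t / 3) * kap| ≤ 1 / 80 := by
    rw [abs_mul]
    calc |s3 - t / 3| * |kap| ≤ t * (r / 8) := mul_le_mul q1 hkap1 (abs_nonneg _) ht0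
      _ = t * r / 8 := by ring
      _ ≤ 1 / 80 := by linarith
  have w1a : |(s3 - t / 3) * kap * al| ≤ al / 80 := by
    rw [abs_mul, abs_of_nonneg hal0]
    exact (mul_le_mul_of_nonneg_right w1 hal0).trans_eq (by ring)
  have w1b : |(s3 - t / 3) * kap * be| ≤ be / 80 := by
    rw [abs_mul, abs_of_nonneg hbe0]
    exact (mul_le_mul_of_nonneg_right w1 hbe0).trans_eq (by ring)
  have w2 : |T * (s1 + s2 - 2 * t / 3) * ((lA * lA - JA * JA) * (r / 4))| ≤ al / 80 := by
    rw [abs_mul, abs_mul, abs_mul, abs_of_pos hT0, abs_of_pos (by positivity : 0 < r / 4)]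
    calc T * |s1 + s2 - 2 * t / 3| * (|lA * lA - JA * JA| * (r / 4))
        ≤ T * t * ((L * NA) * (r / 4)) := by
          apply mul_le_mul (mul_le_mul_of_nonneg_left q2 hT0.le)
            (mul_le_mul_of_nonneg_right q4 (by positivity)) (by positivity) (by positivity)
      _ = (T * L) * t * al * (r * R) := by rw [hNA]; ring
      _ = (T * L) * (t * al) := by rw [hrR]; ring
      _ ≤ (r / 8) * (t * al) := mul_le_mul_of_nonneg_right hTL (by positivity)
      _ = (t * r) * al / 8 := by ring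
      _ ≤ (1 / 10) * al / 8 := by
        exact div_le_div_of_nonneg_right (mul_le_mul_of_nonneg_right htr hal0) (by norm_num)
      _ = al / 80 := by ring
  have w3 : |T * (s1 - s2) * R * (lB * lB - JB * JB)| ≤ be / 80 := by
    rw [abs_mul, abs_mul, abs_mul, abs_of_pos hT0, abs_of_pos hR]
    calc T * |s1 - s2| * R * |lB * lB - JB * JB|
        ≤ T * t * R * (L * NB) := by
          apply mul_le_mul _ q5 (by positivity) (by positivity)
          exact mul_le_mul_of_nonneg_right (mul_le_mul_of_nonneg_left q3 hT0.le) hR.le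
      _ = (T * L) * t * be * (r * R) := by rw [hNB]; ring
      _ = (T * L) * (t * be) := by rw [hrR]; ring
      _ ≤ (r / 8) * (t * be) := mul_le_mul_of_nonneg_right hTL (by positivity)
      _ = (t * r) * be / 8 := by ring
      _ ≤ (1 / 10) * be / 8 := by
        exact div_le_div_of_nonneg_right (mul_le_mul_of_nonneg_right htr hbe0) (by norm_num)
      _ = be / 80 := by ring
  have w4 : ∀ x y : ℝ, x ^ 2 ≤ L * NA → y ^ 2 ≤ L * NB → |T * z * (x * y)| ≤ (al + be) / 160 := by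
    intro x y hx hy
    rw [abs_mul, abs_mul, abs_of_pos hT0]
    calc T * |z| * |x * y| ≤ T * (t / 2) * (L * (al + be)) := by
          apply mul_le_mul (mul_le_mul_of_nonneg_left hz1 hT0.le) (hmixL x y hx hy)
            (abs_nonneg _) (by positivity)
      _ = (T * L) * (t / 2 * (al + be)) := by ring
      _ ≤ (r / 8) * (t / 2 * (al + be)) := mul_le_mul_of_nonneg_right hTL (by positivity)
      _ = (t * r) * (al + be) / 16 := by ring
      _ ≤ (1 / 10) * (al + be) / 16 := by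
        exact div_le_div_of_nonneg_right (mul_le_mul_of_nonneg_right htr hab0) (by norm_num)
      _ = (al + be) / 160 := by ring
  have w5 : |kap * z * c| ≤ (al + be) / 160 := by
    rw [abs_mul, abs_mul]
    calc |kap| * |z| * |c| ≤ (r / 8) * (t / 2) * (al + be) := by
          apply mul_le_mul (mul_le_mul hkap1 hz1 (abs_nonneg _) (by positivity)) (hmix c hc)
            (abs_nonneg _) (by positivity)
      _ = (t * r) * (al + be) / 16 := by ring
      _ ≤ (1 / 10) * (al + be) / 16 := by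
        exact div_le_div_of_nonneg_right (mul_le_mul_of_nonneg_right htr hab0) (by norm_num)
      _ = (al + be) / 160 := by ring
  have w6 : t * r / 24 * (al + be) ≤ (al + be) / 240 := by
    calc t * r / 24 * (al + be) = (t * r) * (al + be) / 24 := by ring
      _ ≤ (1 / 10) * (al + be) / 24 := by
        exact div_le_div_of_nonneg_right (mul_le_mul_of_nonneg_right htr hab0) (by norm_num)
      _ = (al + be) / 240 := by ring
  have d4 : ∀ y : ℝ, y / (4 * R) = y * (r / 4) := by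
    intro y
    rw [hr]
    field_simp
  have d24 : ∀ y : ℝ, y / (24 * R) = y * (r / 24) := by
    intro y
    rw [hr]
    field_simp
  rw [← hte, ← hkap, ← hT]
  have e : x1 * x1 * (1 + (s1 + s3) / (4 * R)) + x2 * x2 * (1 + s2 / (4 * R)) + x3 * x3
      + (1 - t / (24 * R) - (s3 - t / 3) * kap) * NA / (4 * R)
      + (1 - t / (24 * R) + (s3 - t / 3) * kap) * R * NB
      - T * ((s1 + s2 - 2 * t / 3) * (lA * lA - JA * JA) / (4 * R)
        + (s1 - s2) * R * (lB * lB - JB * JB)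
        + z / 2 * (lA * JB + JA * lB + lA * JB + JA * lB))
      + kap * z / 2 * (c + c) =
      x1 * x1 + x2 * x2 + x3 * x3 + x1 * x1 * ((s1 + s3) * (r / 4)) + x2 * x2 * (s2 * (r / 4))
      + (al + be) - t * r / 24 * (al + be) - (s3 - t / 3) * kap * al + (s3 - t / 3) * kap * be
      - T * (s1 + s2 - 2 * t / 3) * ((lA * lA - JA * JA) * (r / 4))
      - T * (s1 - s2) * R * (lB * lB - JB * JB) - T * z * (lA * JB) - T * z * (JA * lB)
      + kap * z * c := by
    rw [d4, d4, d4, d4, d24, hNA, hNB]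
    linear_combination ((1 - t * (r / 24) - (s3 - t / 3) * kap) * al +
      (1 - t * (r / 24) + (s3 - t / 3) * kap) * be) * hrR
  rw [e, ← hal, ← hbe]
  have z1 : 0 ≤ x1 * x1 * ((s1 + s3) * (r / 4)) := by
    have := mul_self_nonneg x1
    positivity
  have z2 : 0 ≤ x2 * x2 * (s2 * (r / 4)) := by
    have := mul_self_nonneg x2
    positivity
  have v1 := abs_le.1 w1a
  have v2 := abs_le.1 w1b
  have v3 := abs_le.1 w2
  have v4 := abs_le.1 w3
  have v5 := abs_le.1 (w4 lA JB hlA hJB)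
  have v6 := abs_le.1 (w4 JA lB hJA hlB)
  have v7 := abs_le.1 w5
  linarith [v1.1, v1.2, v2.1, v2.2, v3.1, v3.2, v4.1, v4.2, v5.1, v5.2, v6.1, v6.2, v7.1, v7.2]

/-- constants of the profile functions -/
theorem M3_const (k : ℕ) : ∃ c C : ℝ, 0 < c ∧ 0 < C ∧ (∀ x, c ≤ (prof k).a x) ∧
    ∀ x, (2 * (prof k).a x * (prof k).b2 x) ^ 2 + (2 * (prof k).a x * (prof k).b1 x) ^ 2 +
      deriv (prof k).a x ^ 2 ≤ C := by
  have hac : Continuous (prof k).a := (auf_smooth k).continuous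
  obtain ⟨x0, -, hx0⟩ := (isCompact_Icc (a := (-1 : ℝ)) (b := 1)).exists_isMinOn
    ⟨0, by norm_num⟩ hac.continuousOn
  have hdc : Continuous (deriv (prof k).a) := (B3_deriv_smooth (auf_smooth k)).continuous
  have hGc : Continuous fun x => (2 * (prof k).a x * (prof k).b2 x) ^ 2 +
      (2 * (prof k).a x * (prof k).b1 x) ^ 2 + deriv (prof k).a x ^ 2 :=
    ((((continuous_const.mul hac).mul (b2_smooth k).continuous).pow 2).add
      (((continuous_const.mul hac).mul (b1_smooth k).continuous).pow 2)).add (hdc.pow 2)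
  obtain ⟨C, hC, hCb⟩ := B1_bdd hGc (fun x hx => by
    have h8 : 1 / 8 ≤ |x| := by linarith
    rw [b1_zero k h8, b2_zero k h8, M2_deriv_a k hx]
    ring)
  refine ⟨min ((prof k).a x0) (1 / 16), C, lt_min (auf_pos k x0) (by norm_num), hC, fun x => ?_,
    fun x => (le_abs_self _).trans (hCb x)⟩
  by_cases hx : |x| ≤ 1
  · exact (min_le_left _ _).trans (hx0 (abs_le.1 hx))
  · exact (min_le_right _ _).trans (auf_ge k (by linarith [not_le.1 hx]))

theorem M3_dot_lv {p : EE 7} (hp : p ∈ OM) : dot (lv p) (lv p) = 1 - hh p ^ 2 := by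
  have hw := wv_unit hp
  have hs := sv_unit hp
  have h1 : dot (lv p) (lv p) = dot (sv p) (sv p) - 2 * hh p * dot (wv p) (sv p) +
      hh p ^ 2 * dot (wv p) (wv p) := by
    simp only [lv, dot, Pi.sub_apply, Pi.smul_apply, smul_eq_mul]
    ring
  rw [h1, hw, hs]
  have h2 : dot (wv p) (sv p) = hh p := rfl
  rw [h2]
  ring

theorem M3_dot_wl {p : EE 7} (hp : p ∈ OM) : dot (wv p) (lv p) = 0 := by
  have hw := wv_unit hp
  have h1 : dot (wv p) (lv p) = dot (wv p) (sv p) - hh p * dot (wv p) (wv p) := by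
    simp only [lv, dot, Pi.sub_apply, Pi.smul_apply, smul_eq_mul]
    ring
  rw [h1, hw]
  have h2 : dot (wv p) (sv p) = hh p := rfl
  rw [h2]
  ring

theorem M3_dot_JJ {p : EE 7} (hp : p ∈ OM) : dot (Jl p) (Jl p) = dot (lv p) (lv p) := by
  unfold Jl
  rw [M3_lagrange, wv_unit hp, sv_unit hp, M3_dot_lv hp]
  have h2 : dot (wv p) (sv p) = hh p := rfl
  rw [h2]
  ring

theorem M3_crs_self (w : V3) : dot (crs w w) (crs w w) = 0 := by
  rw [M3_lagrange]
  ring

/-- The core metric is at least one half of the obvious quadratic form. -/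
theorem M3_gc_ge (k : ℕ) {c C ε : ℝ} (hc : 0 < c) (hε : 0 < ε)
    (hca : ∀ x, c ≤ (prof k).a x)
    (hCb : ∀ x, (2 * (prof k).a x * (prof k).b2 x) ^ 2 + (2 * (prof k).a x * (prof k).b1 x) ^ 2 +
      deriv (prof k).a x ^ 2 ≤ C) (hsm : ε ^ 3 * C ≤ c / 10) {p : EE 7} (hp : p ∈ OM)
    (u : EE 7) :
    xi1 p u * xi1 p u + xi2 p u * xi2 p u + xi3 p u * xi3 p u +
      (dot (Av (prof k) p u) (Av (prof k) p u) / (4 * RR (prof k) ε p) +
        RR (prof k) ε p * dot (Bv (prof k) (RR (prof k) ε p) p u)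
          (Bv (prof k) (RR (prof k) ε p) p u)) / 2 ≤ gc (prof k) ε p u u := by
  have hR := M1_RR_pos k hε p
  have hε3 : 0 < ε ^ 3 := pow_pos hε 3
  have ha : 0 < ε ^ 3 * (prof k).a (x1 p) := mul_pos hε3 (auf_pos k _)
  have hL := C0a_dot_nonneg (lv p)
  have hR2 : RR (prof k) ε p ^ 2 = (ε ^ 3 * (prof k).a (x1 p)) ^ 2 + dot (lv p) (lv p) :=
    Real.sq_sqrt (add_nonneg (sq_nonneg _) hL)
  have haR : ε ^ 3 * (prof k).a (x1 p) ≤ RR (prof k) ε p := by
    apply Real.le_sqrt_of_sq_le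
    linarith
  have hLR : dot (lv p) (lv p) ≤ RR (prof k) ε p ^ 2 := by
    rw [hR2]
    linarith [sq_nonneg (ε ^ 3 * (prof k).a (x1 p))]
  have hA := C0a_dot_nonneg (Av (prof k) p u)
  have hB := C0a_dot_nonneg (Bv (prof k) (RR (prof k) ε p) p u)
  have hτ : (2 * (ε ^ 3 * (prof k).a (x1 p)) * (prof k).b2 (x1 p)) ^ 2 +
      (2 * (ε ^ 3 * (prof k).a (x1 p)) * (prof k).b1 (x1 p)) ^ 2 +
      (ε ^ 3 * deriv (prof k).a (x1 p)) ^ 2 ≤ RR (prof k) ε p / 10 := by
    calc (2 * (ε ^ 3 * (prof k).a (x1 p)) * (prof k).b2 (x1 p)) ^ 2 +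
      (2 * (ε ^ 3 * (prof k).a (x1 p)) * (prof k).b1 (x1 p)) ^ 2 +
      (ε ^ 3 * deriv (prof k).a (x1 p)) ^ 2 =
        ε ^ 3 * (ε ^ 3 * ((2 * (prof k).a (x1 p) * (prof k).b2 (x1 p)) ^ 2 +
          (2 * (prof k).a (x1 p) * (prof k).b1 (x1 p)) ^ 2 + deriv (prof k).a (x1 p) ^ 2)) := by
          ring
      _ ≤ ε ^ 3 * (ε ^ 3 * C) := by
          apply mul_le_mul_of_nonneg_left _ hε3.le
          exact mul_le_mul_of_nonneg_left (hCb _) hε3.le
      _ ≤ ε ^ 3 * (c / 10) := mul_le_mul_of_nonneg_left hsm hε3.le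
      _ ≤ ε ^ 3 * ((prof k).a (x1 p) / 10) := by
          apply mul_le_mul_of_nonneg_left _ hε3.le
          linarith [hca (x1 p)]
      _ = ε ^ 3 * (prof k).a (x1 p) / 10 := by ring
      _ ≤ RR (prof k) ε p / 10 := by linarith
  have hJ : ∀ v : V3, dot (Jl p) v ^ 2 ≤ dot (lv p) (lv p) * dot v v := by
    intro v
    have := M3_cs (Jl p) v
    rwa [M3_dot_JJ hp] at this
  have hc2 : dot (crs (wv p) (Av (prof k) p u)) (Bv (prof k) (RR (prof k) ε p) p u) ^ 2 ≤
      dot (Av (prof k) p u) (Av (prof k) p u) *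
        dot (Bv (prof k) (RR (prof k) ε p) p u) (Bv (prof k) (RR (prof k) ε p) p u) :=
    (M3_cs _ _).trans (mul_le_mul_of_nonneg_right (M3_crs_le (wv_unit hp) _) hB)
  exact M3_num (x1 := xi1 p u) (x2 := xi2 p u) (x3 := xi3 p u)
    (z := 2 * (ε ^ 3 * (prof k).a (x1 p)) * (prof k).b2 (x1 p) * (ε ^ 3 * deriv (prof k).a (x1 p)))
    hR ha haR hL hLR (sq_nonneg _) (sq_nonneg _)
    (sq_nonneg _) (by ring) hτ hA hB (M3_cs _ _) (hJ _) (M3_cs _ _) (hJ _) hc2

theorem M3_gc_pos (k : ℕ) {c C ε : ℝ} (hc : 0 < c) (hε : 0 < ε)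
    (hca : ∀ x, c ≤ (prof k).a x)
    (hCb : ∀ x, (2 * (prof k).a x * (prof k).b2 x) ^ 2 + (2 * (prof k).a x * (prof k).b1 x) ^ 2 +
      deriv (prof k).a x ^ 2 ≤ C) (hsm : ε ^ 3 * C ≤ c / 10) {p : EE 7} (hp : p ∈ OM)
    (hl : dot (lv p) (lv p) < 1) {u : EE 7} (hu : u ≠ 0) : 0 < gc (prof k) ε p u u := by
  have hR := M1_RR_pos k hε p
  have hge := M3_gc_ge k hc hε hca hCb hsm hp u
  by_contra hneg
  apply hu
  have h := hge.trans (not_lt.1 hneg)
  have a1 := mul_self_nonneg (xi1 p u)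
  have a2 := mul_self_nonneg (xi2 p u)
  have a3 := mul_self_nonneg (xi3 p u)
  have a4 : 0 ≤ dot (Av (prof k) p u) (Av (prof k) p u) / (4 * RR (prof k) ε p) :=
    div_nonneg (C0a_dot_nonneg _) (by linarith)
  have a5 : 0 ≤ RR (prof k) ε p * dot (Bv (prof k) (RR (prof k) ε p) p u)
      (Bv (prof k) (RR (prof k) ε p) p u) := mul_nonneg hR.le (C0a_dot_nonneg _)
  have b1 : xi1 p u * xi1 p u = 0 := by linarith
  have b2 : xi2 p u * xi2 p u = 0 := by linarith
  have b3 : xi3 p u * xi3 p u = 0 := by linarith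
  have b4 : dot (Av (prof k) p u) (Av (prof k) p u) / (4 * RR (prof k) ε p) = 0 := by linarith
  have b5 : RR (prof k) ε p * dot (Bv (prof k) (RR (prof k) ε p) p u)
      (Bv (prof k) (RR (prof k) ε p) p u) = 0 := by linarith
  refine M3_ker (P := prof k) (R := RR (prof k) ε p) hp (mul_self_eq_zero.1 b1)
    (mul_self_eq_zero.1 b2) (mul_self_eq_zero.1 b3) (M3_eq_zero ?_) (M3_eq_zero ?_) ?_
  · exact (div_eq_zero_iff.1 b4).resolve_right (by linarith)
  · exact (mul_eq_zero.1 b5).resolve_left hR.ne'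
  · intro h0
    exfalso
    rw [M3_dot_lv hp, h0] at hl
    norm_num at hl

/-- Positivity of the slab metric. -/
theorem g0_pos (k : ℕ) : ∃ ε0 : ℝ, 0 < ε0 ∧ ∀ ε, 0 < ε → ε < ε0 → ∀ p ∈ OM, ∀ u, u ≠ 0 →
    0 < g0 (prof k) ε p u u := by
  obtain ⟨c, C, hc, hC, hca, hCb⟩ := M3_const k
  refine ⟨min 1 (c / (10 * C)), lt_min one_pos (by positivity), fun ε hε hε0 p hp u hu => ?_⟩
  have h1 : ε < 1 := hε0.trans_le (min_le_left _ _)
  have h2 : ε < c / (10 * C) := hε0.trans_le (min_le_right _ _)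
  have hsm : ε ^ 3 * C ≤ c / 10 := by
    have h3 : ε ^ 3 ≤ ε := by
      calc ε ^ 3 ≤ ε ^ 1 := pow_le_pow_of_le_one hε.le h1.le (by norm_num)
        _ = ε := pow_one _
    calc ε ^ 3 * C ≤ ε * C := mul_le_mul_of_nonneg_right h3 hC.le
      _ ≤ c / (10 * C) * C := mul_le_mul_of_nonneg_right h2.le hC.le
      _ = c / 10 := by field_simp
  have hε2 : ε ^ 2 < 1 := pow_lt_one₀ hε.le h1 (by norm_num)
  rcases lt_or_ge (dot (lv p) (lv p)) (ε ^ 2) with hl | hl
  · have hgc : 0 < gc (prof k) ε p u u :=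
      M3_gc_pos k hc hε hca hCb hsm hp (hl.trans hε2) hu
    rcases le_or_gt (dot (lv p) (lv p)) (ε ^ 2 / 4) with hl' | hl'
    · rw [M1_g0_core _ hε hl']
      exact hgc
    · have hgo : 0 < go (prof k) p u u :=
        go_pos _ hp (lt_trans (by positivity) hl') hu
      have hx0 := M1_chi_nonneg (dot (lv p) (lv p) / ε ^ 2)
      have hx1 := M1_chi_le_one (dot (lv p) (lv p) / ε ^ 2)
      have hm : 0 < min (gc (prof k) ε p u u) (go (prof k) p u u) := lt_min hgc hgo
      unfold g0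
      have e1 := mul_le_mul_of_nonneg_left (min_le_left (gc (prof k) ε p u u)
        (go (prof k) p u u)) hx0
      have e2 := mul_le_mul_of_nonneg_left (min_le_right (gc (prof k) ε p u u)
        (go (prof k) p u u)) (sub_nonneg.2 hx1)
      linarith
  · rw [M1_g0_outer _ hε hl]
    exact go_pos _ hp (lt_of_lt_of_le (by positivity) hl) hu

end H31R
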