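import Pool.Agent.Lib.H31R.N2

/-!
# H31R, part N3: naturality of the Ricci tensor and of the Ricci bound
-/

open scoped ContDiff Topology
open Set

namespace H31R

variable {d : ℕ}

/-- curvature matrices -/
noncomputable def Rm (G : EE d → Mt d) (i j : Fin d) (x : EE d) : Mt d :=
  pdM i (chM G j) x - pdM j (chM G i) x + (chM G i x * chM G j x - chM G j x * chM G i x)

/-- the Ricci tensor as a matrix -/
noncomputable def ricM (G : EE d → Mt d) (x : EE d) : Mt d := fun i j => ric G i j x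

theorem N_ric_eq {U : Set (EE d)} {x : EE d} {G : EE d → Mt d} (hU : IsOpen U) (hx : x ∈ U)
    (hs : ∀ y ∈ U, ∀ i j, G y i j = G y j i) (i j : Fin d) :
    ric G i j x = ∑ k, Rm G k j x k i := by
  unfold ric Rm
  refine Finset.sum_congr rfl fun k _ => ?_
  simp only [Matrix.add_apply, Matrix.sub_apply, Matrix.mul_apply, pdM, chM]
  have e1 : pd k (chr G k i j) x = pd k (fun y => chr G k j i y) x :=
    N_pd_congr_on hU hx k fun y hy => N_chr_symm hU hy hs k i j
  have e2 : pd j (chr G k i k) x = pd j (fun y => chr G k k i y) x :=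
    N_pd_congr_on hU hx j fun y hy => N_chr_symm hU hy hs k i k
  rw [e1, e2, ← Finset.sum_sub_distrib]
  congr 1
  refine Finset.sum_congr rfl fun l _ => ?_
  rw [N_chr_symm hU hx hs l i j, N_chr_symm hU hx hs l i k]

section pull

variable {U V : Set (EE d)} {x : EE d} {Φ : EE d → EE d} {G H : EE d → Mt d}

theorem Pull.pdM_SS (h : Pull U V Φ G H) (hx : x ∈ V) (i j : Fin d) :
    pdM i (N2_SS Φ H j) x = ∑ a, (pd i (fun y => jac Φ y a j) x • chM H a (Φ x)
      + jac Φ x a j • ∑ b, jac Φ x b i • pdM b (chM H a) (Φ x)) := by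
  have hJs := N_leM (N_jac_sm h.hV h.hΦ) (show 1 ≤ 2 by norm_num)
  have hCs : ∀ a, SmM 1 V (fun y => chM H a (Φ y)) := fun a =>
    N_comp_smM h.hΦ h.hm (by norm_num) (N_chM_sm (n := 1) h.hU h.hH h.hd a)
  have e : pdM i (N2_SS Φ H j) x = pdM i (fun y => ∑ a, jac Φ y a j • chM H a (Φ y)) x := rfl
  rw [e, N_pdM_sum h.hV hx _ _ (fun a _ => N_smul_sm (hJs a j) (hCs a))]
  refine Finset.sum_congr rfl fun a _ => ?_
  rw [N_pdM_smul h.hV hx (hJs a j) (hCs a), N_chainM h.hU h.hV hx h.hΦ h.hm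
    (N_chM_sm (n := 1) h.hU h.hH h.hd a)]

theorem Pull.curv_SS (h : Pull U V Φ G H) (hx : x ∈ V) (i j : Fin d) :
    pdM i (N2_SS Φ H j) x - pdM j (N2_SS Φ H i) x + (N2_SS Φ H i x * N2_SS Φ H j x - N2_SS Φ H j x * N2_SS Φ H i x)
      = ∑ a, ∑ b, (jac Φ x a i * jac Φ x b j) • Rm H a b (Φ x) := by
  rw [h.pdM_SS hx, h.pdM_SS hx]
  have e1 : ∑ a, (pd i (fun y => jac Φ y a j) x • chM H a (Φ x)
      + jac Φ x a j • ∑ b, jac Φ x b i • pdM b (chM H a) (Φ x))
      = ∑ a, pd i (fun y => jac Φ y a j) x • chM H a (Φ x)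
        + ∑ a, ∑ b, (jac Φ x a i * jac Φ x b j) • pdM a (chM H b) (Φ x) := by
    rw [Finset.sum_add_distrib]
    congr 1
    rw [Finset.sum_comm]
    refine Finset.sum_congr rfl fun a _ => ?_
    rw [Finset.smul_sum]
    refine Finset.sum_congr rfl fun b _ => ?_
    rw [smul_smul, mul_comm]
  have e2 : ∑ a, (pd j (fun y => jac Φ y a i) x • chM H a (Φ x)
      + jac Φ x a i • ∑ b, jac Φ x b j • pdM b (chM H a) (Φ x))
      = ∑ a, pd i (fun y => jac Φ y a j) x • chM H a (Φ x)
        + ∑ a, ∑ b, (jac Φ x a i * jac Φ x b j) • pdM b (chM H a) (Φ x) := by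
    rw [Finset.sum_add_distrib]
    congr 1
    · refine Finset.sum_congr rfl fun a _ => ?_
      rw [h.jac_symm hx a i j]
    · refine Finset.sum_congr rfl fun a _ => ?_
      rw [Finset.smul_sum]
      refine Finset.sum_congr rfl fun b _ => ?_
      rw [smul_smul]
  have e3 : N2_SS Φ H i x * N2_SS Φ H j x = ∑ a, ∑ b, (jac Φ x a i * jac Φ x b j) •
      (chM H a (Φ x) * chM H b (Φ x)) := by
    simp only [N2_SS, Finset.sum_mul, Finset.mul_sum, Matrix.smul_mul, Matrix.mul_smul, smul_smul]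
    rw [Finset.sum_comm]
    refine Finset.sum_congr rfl fun a _ => Finset.sum_congr rfl fun b _ => ?_
    rw [mul_comm]
  have e4 : N2_SS Φ H j x * N2_SS Φ H i x = ∑ a, ∑ b, (jac Φ x a i * jac Φ x b j) •
      (chM H b (Φ x) * chM H a (Φ x)) := by
    simp only [N2_SS, Finset.sum_mul, Finset.mul_sum, Matrix.smul_mul, Matrix.mul_smul, smul_smul]
  rw [e1, e2, e3, e4, add_sub_add_left_eq_sub]
  rw [← Finset.sum_sub_distrib, ← Finset.sum_sub_distrib, ← Finset.sum_add_distrib]
  refine Finset.sum_congr rfl fun a _ => ?_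
  rw [← Finset.sum_sub_distrib, ← Finset.sum_sub_distrib, ← Finset.sum_add_distrib]
  refine Finset.sum_congr rfl fun b _ => ?_
  rw [← smul_sub, ← smul_sub, ← smul_add]
  rfl

/-- transformation law of the curvature -/
theorem Pull.Rm_eq (h : Pull U V Φ G H) (hx : x ∈ V) (i j : Fin d) :
    jac Φ x * Rm G i j x
      = (∑ a, ∑ b, (jac Φ x a i * jac Φ x b j) • Rm H a b (Φ x)) * jac Φ x := by
  have hJs2 := N_jac_sm h.hV h.hΦ
  have hJs := N_leM hJs2 (show 1 ≤ 2 by norm_num)
  have hΓ : ∀ i, SmM 1 V (chM G i) := fun i => N_chM_sm (n := 1) h.hV h.smG h.detG i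
  have key : ∀ i, ∀ y ∈ V, jac Φ y * chM G i y = N2_SS Φ H i y * jac Φ y + pdM i (jac Φ) y := by
    intro i y hy
    have hu : IsUnit (jac Φ y).det := isUnit_iff_ne_zero.2 (h.hJ y hy)
    rw [h.chM_eq hy i, ← Matrix.mul_assoc, Matrix.mul_nonsing_inv _ hu, Matrix.one_mul]
  have hd : ∀ i j, pdM i (jac Φ) x * chM G j x + jac Φ x * pdM i (chM G j) x
      = pdM i (N2_SS Φ H j) x * jac Φ x + N2_SS Φ H j x * pdM i (jac Φ) x + pdM i (pdM j (jac Φ)) x := by
    intro i j
    rw [← N_pdM_mul h.hV hx hJs (hΓ j) i, ← N_pdM_mul h.hV hx (h.N2_SS_sm j) hJs i,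
      ← N_pdM_add h.hV hx (N_mul_sm (h.N2_SS_sm j) hJs) (N_pdM_sm h.hV hJs2 j) i]
    exact N_pdM_congr h.hV hx (key j) i
  have h1 := hd i j
  have h2 := hd j i
  rw [N_pdM_symm h.hV hx hJs2 j i] at h2
  have ki := key i x hx
  have kj := key j x hx
  rw [← h.curv_SS hx]
  unfold Rm
  set J := jac Φ x
  set Si := N2_SS Φ H i x
  set Sj := N2_SS Φ H j x
  set Γi := chM G i x
  set Γj := chM G j x
  set Di := pdM i (jac Φ) x
  set Dj := pdM j (jac Φ) x
  set DDij := pdM i (pdM j (jac Φ)) x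
  set Sij := pdM i (N2_SS Φ H j) x
  set Sji := pdM j (N2_SS Φ H i) x
  set Γij := pdM i (chM G j) x
  set Γji := pdM j (chM G i) x
  have hDi : Di = J * Γi - Si * J := by rw [ki]; abel
  have hDj : Dj = J * Γj - Sj * J := by rw [kj]; abel
  have a1 : J * Γij = Sij * J + Sj * Di + DDij - Di * Γj := by rw [← h1]; abel
  have a2 : J * Γji = Sji * J + Si * Dj + DDij - Dj * Γi := by rw [← h2]; abel
  rw [Matrix.mul_add, Matrix.mul_sub, a1, a2, hDi, hDj]
  simp only [Matrix.mul_sub, Matrix.sub_mul, Matrix.add_mul, Matrix.mul_assoc]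
  abel

/-- transformation law of the Ricci tensor -/
theorem Pull.ricM_eq (h : Pull U V Φ G H) (hx : x ∈ V) :
    ricM G x = (jac Φ x).transpose * ricM H (Φ x) * jac Φ x := by
  have hu : IsUnit (jac Φ x).det := isUnit_iff_ne_zero.2 (h.hJ x hx)
  have hJJ : jac Φ x * (jac Φ x)⁻¹ = 1 := Matrix.mul_nonsing_inv _ hu
  ext i j
  show ric G i j x = _
  rw [N_ric_eq h.hV hx h.symmG]
  have e : ∀ k, Rm G k j x = (jac Φ x)⁻¹ *
      ((∑ a, ∑ b, (jac Φ x a k * jac Φ x b j) • Rm H a b (Φ x)) * jac Φ x) := by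
    intro k
    rw [← h.Rm_eq hx, ← Matrix.mul_assoc, Matrix.nonsing_inv_mul _ hu, Matrix.one_mul]
  set J := jac Φ x
  set T : Fin d → Fin d → ℝ := fun a p => ∑ q, ∑ b, J b j * J q i * Rm H a b (Φ x) p q with hT
  have e2 : ∀ k p, ((∑ a, ∑ b, (J a k * J b j) • Rm H a b (Φ x)) * J) p i = ∑ a, J a k * T a p := by
    intro k p
    simp only [Matrix.mul_apply, Matrix.sum_apply, Matrix.smul_apply, smul_eq_mul,
      Finset.sum_mul, hT, Finset.mul_sum]
    rw [Finset.sum_comm]
    refine Finset.sum_congr rfl fun a _ => Finset.sum_congr rfl fun q _ =>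
      Finset.sum_congr rfl fun b _ => ?_
    ring
  have e3 : ∑ k, Rm G k j x k i = ∑ a, T a a := by
    have e4 : ∀ k, Rm G k j x k i = ∑ p, ∑ a, (J a k * J⁻¹ k p) * T a p := by
      intro k
      rw [e k, Matrix.mul_apply]
      refine Finset.sum_congr rfl fun p _ => ?_
      rw [e2, Finset.mul_sum]
      refine Finset.sum_congr rfl fun a _ => ?_
      ring
    simp only [e4]
    rw [Finset.sum_comm]
    have e5 : ∀ p, ∑ k, ∑ a, (J a k * J⁻¹ k p) * T a p = T p p := by
      intro p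
      rw [Finset.sum_comm]
      have e6 : ∀ a, ∑ k, (J a k * J⁻¹ k p) * T a p = (1 : Mt d) a p * T a p := by
        intro a
        rw [← Finset.sum_mul, ← hJJ, Matrix.mul_apply]
      simp only [e6, Matrix.one_apply]
      simp
    simp only [e5]
  rw [e3]
  simp only [Matrix.mul_apply, Matrix.transpose_apply, hT]
  have e7 : ∀ q b, ricM H (Φ x) q b = ∑ a, Rm H a b (Φ x) a q := fun q b =>
    N_ric_eq h.hU (h.hm hx) h.hs q b
  simp only [e7, Finset.mul_sum, Finset.sum_mul]
  rw [Finset.sum_comm]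
  have e8 : ∀ q, ∑ a, ∑ b, J b j * J q i * Rm H a b (Φ x) a q
      = ∑ b, ∑ a, J q i * Rm H a b (Φ x) a q * J b j := by
    intro q
    rw [Finset.sum_comm]
    refine Finset.sum_congr rfl fun b _ => Finset.sum_congr rfl fun a _ => ?_
    ring
  simp only [e8]
  rw [Finset.sum_comm]

/-- quadratic form of a matrix -/
theorem N_qf_conj (A J : Mt d) (v : Fin d → ℝ) :
    ∑ i, ∑ j, (J.transpose * A * J) i j * v i * v j
      = ∑ a, ∑ b, A a b * (J.mulVec v) a * (J.mulVec v) b := by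
  have h : ∀ (B : Mt d) (w : Fin d → ℝ), ∑ i, ∑ j, B i j * w i * w j = w ⬝ᵥ B.mulVec w := by
    intro B w
    simp only [dotProduct, Matrix.mulVec, Finset.mul_sum]
    exact Finset.sum_congr rfl fun i _ => Finset.sum_congr rfl fun j _ => by ring
  rw [h, h, Matrix.mul_assoc, ← Matrix.mulVec_mulVec, Matrix.dotProduct_mulVec,
    Matrix.vecMul_transpose, Matrix.mulVec_mulVec]

/-- The Ricci bound is natural. -/
theorem Pull.RB_iff (h : Pull U V Φ G H) (hx : x ∈ V) {C : ℝ} : RB G x C ↔ RB H (Φ x) C := by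
  have hu : IsUnit (jac Φ x).det := isUnit_iff_ne_zero.2 (h.hJ x hx)
  have hr : ∀ v : Fin d → ℝ, ∑ i, ∑ j, ric G i j x * v i * v j
      = ∑ a, ∑ b, ric H a b (Φ x) * ((jac Φ x).mulVec v) a * ((jac Φ x).mulVec v) b := by
    intro v
    have := N_qf_conj (ricM H (Φ x)) (jac Φ x) v
    rw [← h.ricM_eq hx] at this
    exact this
  have hg : ∀ v : Fin d → ℝ, ∑ i, ∑ j, G x i j * v i * v j
      = ∑ a, ∑ b, H (Φ x) a b * ((jac Φ x).mulVec v) a * ((jac Φ x).mulVec v) b := by
    intro v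
    have := N_qf_conj (H (Φ x)) (jac Φ x) v
    rw [← h.hG x hx] at this
    exact this
  constructor
  · intro hR v
    have h1 := hR ((jac Φ x)⁻¹.mulVec v)
    rw [hr, hg, Matrix.mulVec_mulVec, Matrix.mul_nonsing_inv _ hu, Matrix.one_mulVec] at h1
    exact h1
  · intro hR v
    rw [hr, hg]
    exact hR _

end pull

section local_

variable {x : EE d} {G H : EE d → Mt d}

theorem N_chr_congr (h : G =ᶠ[𝓝 x] H) (k i j : Fin d) : chr G k i j x = chr H k i j x := by
  have hp : ∀ m a b, pd m (fun y => G y a b) x = pd m (fun y => H y a b) x := fun m a b =>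
    N_pd_congr m (h.mono fun y hy => by simp only [hy])
  unfold chr
  simp only [hp, h.eq_of_nhds]

theorem N_ric_congr (h : G =ᶠ[𝓝 x] H) (i j : Fin d) : ric G i j x = ric H i j x := by
  have hp : ∀ m a b c, pd m (chr G a b c) x = pd m (chr H a b c) x := fun m a b c =>
    N_pd_congr m (h.eventuallyEq_nhds.mono fun y hy => N_chr_congr hy a b c)
  unfold ric
  simp only [hp, N_chr_congr h]

theorem N_RB_congr (h : G =ᶠ[𝓝 x] H) {C : ℝ} : RB G x C ↔ RB H x C := by
  unfold RB
  simp only [N_ric_congr h, h.eq_of_nhds]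

theorem N_chr_scale {c : ℝ} (hc : c ≠ 0) (k i j : Fin d) : chr (fun y => c • G y) k i j = chr G k i j := by
  funext x
  have hp : ∀ m a b, pd m (fun y => c * G y a b) x = c * pd m (fun y => G y a b) x := by
    intro m a b
    have := congrFun (fderiv_const_smul_field (𝕜 := ℝ) (f := fun y => G y a b) c) x
    unfold pd
    have e : (fun y => c * G y a b) = c • (fun y => G y a b) := rfl
    rw [e, this]; rfl
  have hi : (c • G x)⁻¹ = c⁻¹ • (G x)⁻¹ := by
    by_cases hd : IsUnit (G x).det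
    · exact Matrix.inv_smul' (A := G x) (Units.mk0 c hc) hd
    · have h1 : ¬ IsUnit (c • G x).det := by
        rw [Matrix.det_smul, isUnit_iff_ne_zero, not_not]
        rw [isUnit_iff_ne_zero, not_not] at hd
        rw [hd, mul_zero]
      rw [Matrix.nonsing_inv_apply_not_isUnit _ hd, Matrix.nonsing_inv_apply_not_isUnit _ h1,
        smul_zero]
  unfold chr
  simp only [hi, Matrix.smul_apply, smul_eq_mul, hp]
  congr 1
  refine Finset.sum_congr rfl fun l _ => ?_
  field_simp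

theorem N_ric_scale {c : ℝ} (hc : c ≠ 0) (i j : Fin d) : ric (fun y => c • G y) i j x = ric G i j x := by
  unfold ric
  simp only [N_chr_scale hc]

/-- scaling of the metric: `c G` has Ricci bound `C` iff `G` has the bound `c C` -/
theorem N_RB_scale {c : ℝ} (hc : c ≠ 0) {C : ℝ} : RB (fun y => c • G y) x C ↔ RB G x (C * c) := by
  unfold RB
  simp only [N_ric_scale hc, Matrix.smul_apply, smul_eq_mul]
  refine forall_congr' fun v => ?_
  have : ∑ i, ∑ j, c * G x i j * v i * v j = c * ∑ i, ∑ j, G x i j * v i * v j := by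
    simp only [Finset.mul_sum]
    exact Finset.sum_congr rfl fun i _ => Finset.sum_congr rfl fun j _ => by ring
  rw [this, mul_assoc]

theorem N_chr_const (A : Mt d) (k i j : Fin d) : chr (fun _ => A) k i j = fun _ => 0 := by
  funext x
  unfold chr
  simp [N_pd_const]

theorem N_ric_const (A : Mt d) (i j : Fin d) : ric (fun _ => A) i j x = 0 := by
  unfold ric
  simp [N_chr_const, N_pd_const]

theorem N_RB_mono {C C' : ℝ} (hG : ∀ v : Fin d → ℝ, 0 ≤ ∑ i, ∑ j, G x i j * v i * v j)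
    (h : RB G x C) (hCC : C ≤ C') : RB G x C' :=
  fun v => (h v).trans (mul_le_mul_of_nonneg_right hCC (hG v))

/-- a pull back of a constant metric is Ricci flat -/
theorem Pull.ric_flat {U V : Set (EE d)} {Φ : EE d → EE d} {A : Mt d}
    (h : Pull U V Φ G (fun _ => A)) (hx : x ∈ V) (i j : Fin d) : ric G i j x = 0 := by
  have h1 := h.ricM_eq hx
  have h2 : ricM (fun _ => A) (Φ x) = 0 := by
    ext a b; exact N_ric_const A a b
  rw [h2] at h1
  have := congrFun (congrFun h1 i) j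
  simpa [ricM] using this

theorem Pull.RB_flat {U V : Set (EE d)} {Φ : EE d → EE d} {A : Mt d}
    (h : Pull U V Φ G (fun _ => A)) (hx : x ∈ V) : RB G x 0 := by
  intro v
  simp [h.ric_flat hx]

end local_

end H31R
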