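import Pool.Agent.Lib.H31R.N5

/-!
# H31R, part N6: joint smoothness of the Ricci tensor of a smooth family of metrics, and estimates
which are uniform on compact sets of parameters
-/

open scoped ContDiff Topology
open Set Filter

namespace H31R

section joint

variable {d : ℕ} {P : Type*} [NormedAddCommGroup P] [NormedSpace ℝ P]

theorem N_fderiv_at_infty {E : Type*} [NormedAddCommGroup E] [NormedSpace ℝ E] {F : E → ℝ} {z : E}
    (h : ContDiffAt ℝ ∞ F z) (v : E) : ContDiffAt ℝ ∞ (fun w => fderiv ℝ F w v) z := by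
  have h1 : ContDiffAt ℝ ∞ (fderiv ℝ F) z := h.fderiv_right (m := ∞) (by simp)
  exact h1.clm_apply contDiffAt_const

theorem N_pd_joint {F : P × EE d → ℝ} {z : P × EE d} (h : ContDiffAt ℝ ∞ F z) (k : Fin d) :
    ContDiffAt ℝ ∞ (fun w : P × EE d => pd k (fun y => F (w.1, y)) w.2) z := by
  refine (N_fderiv_at_infty h (0, ebas k)).congr_of_eventuallyEq ?_
  have h1 : ∀ᶠ w in 𝓝 z, ContDiffAt ℝ 1 F w := by
    have h2 : ContDiffAt ℝ 1 F z := h.of_le (by norm_cast)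
    exact h2.eventually (by simp)
  filter_upwards [h1] with w hw
  have hF : HasFDerivAt F (fderiv ℝ F w) w := (hw.differentiableAt (by simp)).hasFDerivAt
  have hc : HasFDerivAt (fun y : EE d => (w.1, y)) (ContinuousLinearMap.inr ℝ P (EE d)) w.2 :=
    hasFDerivAt_prodMk_right w.1 w.2
  have h3 : HasFDerivAt (fun y => F (w.1, y)) ((fderiv ℝ F w).comp
      (ContinuousLinearMap.inr ℝ P (EE d))) w.2 := by
    have : HasFDerivAt F (fderiv ℝ F w) (w.1, w.2) := hF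
    exact this.comp w.2 hc
  unfold pd
  rw [h3.fderiv]
  rfl

theorem N_chr_joint {G : P → EE d → Mt d} {z : P × EE d}
    (h : ∀ i j, ContDiffAt ℝ ∞ (fun w : P × EE d => G w.1 w.2 i j) z) (hd : (G z.1 z.2).det ≠ 0)
    (k i j : Fin d) : ContDiffAt ℝ ∞ (fun w : P × EE d => chr (G w.1) k i j w.2) z := by
  unfold chr
  refine contDiffAt_const.mul (ContDiffAt.sum fun l _ => ?_)
  refine (N_inv_at (A := fun w : P × EE d => G w.1 w.2) h hd k l).mul ?_
  have hp : ∀ m i j, ContDiffAt ℝ ∞ (fun w : P × EE d => pd m (fun y => G w.1 y i j) w.2) z :=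
    fun m i j => N_pd_joint (F := fun w : P × EE d => G w.1 w.2 i j) (h i j) m
  exact ((hp _ _ _).add (hp _ _ _)).sub (hp _ _ _)

/-- joint smoothness of the Ricci tensor -/
theorem N_ric_joint {G : P → EE d → Mt d} {z : P × EE d}
    (h : ∀ i j, ContDiffAt ℝ ∞ (fun w : P × EE d => G w.1 w.2 i j) z) (hd : (G z.1 z.2).det ≠ 0)
    (i j : Fin d) : ContDiffAt ℝ ∞ (fun w : P × EE d => ric (G w.1) i j w.2) z := by
  unfold ric
  refine ContDiffAt.sum fun k _ => ?_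
  have hc := fun k i j => N_chr_joint h hd k i j
  have hp : ∀ m k i j, ContDiffAt ℝ ∞ (fun w : P × EE d => pd m (chr (G w.1) k i j) w.2) z :=
    fun m k i j => N_pd_joint (F := fun w : P × EE d => chr (G w.1) k i j w.2) (hc k i j) m
  refine ((hp _ _ _ _).sub (hp _ _ _ _)).add (ContDiffAt.sum fun l _ => ?_)
  exact ((hc _ _ _).mul (hc _ _ _)).sub ((hc _ _ _).mul (hc _ _ _))

end joint

section unif

variable {P : Type*} [NormedAddCommGroup P] [NormedSpace ℝ P]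

/-- derivative in the direction of the first variable -/
noncomputable def D1 (f : ℝ × P → ℝ) (z : ℝ × P) : ℝ := fderiv ℝ f z (1, 0)

theorem N_D1_cda {f : ℝ × P → ℝ} {z : ℝ × P} (h : ContDiffAt ℝ ∞ f z) :
    ContDiffAt ℝ ∞ (D1 f) z := N_fderiv_at_infty h (1, 0)

theorem N_D1_hasDeriv {f : ℝ × P → ℝ} {l : ℝ} {p : P} (h : DifferentiableAt ℝ f (l, p)) :
    HasDerivAt (fun t => f (t, p)) (D1 f (l, p)) l := by
  have hF : HasFDerivAt f (fderiv ℝ f (l, p)) (l, p) := h.hasFDerivAt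
  have hc : HasDerivAt (fun t : ℝ => (t, p)) ((1 : ℝ), (0 : P)) l :=
    (hasDerivAt_id l).prodMk (hasDerivAt_const l p)
  exact hF.comp_hasDerivAt l hc

/-- one step of integration -/
theorem N_step {g g' : ℝ → ℝ} {M δ : ℝ} {k : ℕ} (hM : 0 ≤ M)
    (h : ∀ l ∈ Icc 0 δ, HasDerivAt g (g' l) l) (hb : ∀ l ∈ Icc 0 δ, |g' l| ≤ M * l ^ k)
    (h0 : g 0 = 0) : ∀ l ∈ Icc 0 δ, |g l| ≤ M * l ^ (k + 1) := by
  intro l hl
  have h1 := (convex_Icc (0 : ℝ) l).norm_image_sub_le_of_norm_hasDerivWithin_le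
    (f := g) (f' := g') (C := M * l ^ k)
    (fun x hx => (h x ⟨hx.1, hx.2.trans hl.2⟩).hasDerivWithinAt)
    (fun x hx => (hb x ⟨hx.1, hx.2.trans hl.2⟩).trans
      (mul_le_mul_of_nonneg_left (pow_le_pow_left₀ hx.1 hx.2 k) hM))
    (left_mem_Icc.2 hl.1) (right_mem_Icc.2 hl.1)
  rw [h0, sub_zero, sub_zero, Real.norm_eq_abs, Real.norm_eq_abs, abs_of_nonneg hl.1] at h1
  rw [pow_succ, ← mul_assoc]
  exact h1

omit [NormedSpace ℝ P] in
/-- a property which holds near every point `(0, p)`, `p ∈ K`, with a constant depending on `p`,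
holds uniformly -/
theorem N_unif {K : Set P} (hK : IsCompact K) {q : ℝ → ℝ × P → Prop}
    (hmono : ∀ C C' z, C ≤ C' → q C z → q C' z)
    (h : ∀ p ∈ K, ∃ C, ∀ᶠ z in 𝓝 ((0 : ℝ), p), q C z) :
    ∃ C δ, 0 ≤ C ∧ 0 < δ ∧ ∀ p ∈ K, ∀ l : ℝ, |l| ≤ δ → q C (l, p) := by
  have h1 : ∃ C, ∀ᶠ z in 𝓝ˢ (({0} : Set ℝ) ×ˢ K), q C z := by
    refine (isCompact_singleton.prod hK).induction_on
      (p := fun S => ∃ C, ∀ᶠ z in 𝓝ˢ S, q C z) ?_ ?_ ?_ ?_
    · exact ⟨0, by simp⟩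
    · rintro s t hst ⟨C, hC⟩
      exact ⟨C, hC.filter_mono (nhdsSet_mono hst)⟩
    · rintro s t ⟨C, hC⟩ ⟨C', hC'⟩
      refine ⟨max C C', ?_⟩
      rw [nhdsSet_union, eventually_sup]
      exact ⟨hC.mono fun z hz => hmono _ _ z (le_max_left _ _) hz,
        hC'.mono fun z hz => hmono _ _ z (le_max_right _ _) hz⟩
    · rintro ⟨l, p⟩ ⟨hl, hp⟩
      obtain rfl : l = 0 := hl
      obtain ⟨C, hC⟩ := h p hp
      obtain ⟨u, hu, huo, hup⟩ := eventually_nhds_iff.1 hC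
      refine ⟨u, mem_nhdsWithin_of_mem_nhds (huo.mem_nhds hup), C, ?_⟩
      rw [huo.nhdsSet_eq]
      exact hu
  obtain ⟨C, hC⟩ := h1
  rw [isCompact_singleton.nhdsSet_prod_eq hK, nhdsSet_singleton] at hC
  obtain ⟨s, hs, t, ht, hst⟩ := Filter.eventually_prod_iff.1 hC
  obtain ⟨ε, hε, hεs⟩ := Metric.eventually_nhds_iff.1 hs
  refine ⟨max C 0, ε / 2, le_max_right _ _, half_pos hε, ?_⟩
  intro p hp l hl
  refine hmono _ _ _ (le_max_left _ _) (hst (hεs ?_) (subset_of_mem_nhdsSet ht hp))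
  rw [Real.dist_eq, sub_zero]
  exact lt_of_le_of_lt hl (half_lt_self hε)

theorem N_bound_at {f : ℝ × P → ℝ} {z : ℝ × P} (h : ContDiffAt ℝ ∞ f z) :
    ∃ C, ∀ᶠ w in 𝓝 z, |f w| ≤ C := by
  refine ⟨|f z| + 1, ?_⟩
  have h1 : ContinuousAt (fun w => |f w|) z := h.continuousAt.abs
  filter_upwards [h1.eventually (gt_mem_nhds (lt_add_one |f z|))] with w hw using le_of_lt hw

theorem N_diff_near {f : ℝ × P → ℝ} {z : ℝ × P} (h : ContDiffAt ℝ ∞ f z) :
    ∀ᶠ w in 𝓝 z, DifferentiableAt ℝ f w := by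
  have h1 : ContDiffAt ℝ 1 f z := h.of_le (by norm_cast)
  filter_upwards [h1.eventually (by simp)] with w hw using hw.differentiableAt (by simp)

/-- uniform first order estimate -/
theorem N_unif1 {K : Set P} (hK : IsCompact K) {f : ℝ × P → ℝ}
    (hf : ∀ p ∈ K, ContDiffAt ℝ ∞ f (0, p)) :
    ∃ C δ, 0 ≤ C ∧ 0 < δ ∧ ∀ p ∈ K, ∀ l ∈ Icc 0 δ, |f (l, p) - f (0, p)| ≤ C * l := by
  obtain ⟨C, δ, hC, hδ, h⟩ := N_unif hK (q := fun C z => DifferentiableAt ℝ f z ∧ |D1 f z| ≤ C)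
    (fun C C' z hCC h => ⟨h.1, h.2.trans hCC⟩) (fun p hp => by
      obtain ⟨C, h⟩ := N_bound_at (N_D1_cda (hf p hp))
      exact ⟨C, (N_diff_near (hf p hp)).and h⟩)
  refine ⟨C, δ, hC, hδ, fun p hp l hl => ?_⟩
  have hab : ∀ l ∈ Icc 0 δ, |l| ≤ δ := fun l hl => by rw [abs_of_nonneg hl.1]; exact hl.2
  have := N_step (g := fun l => f (l, p) - f (0, p)) (g' := fun l => D1 f (l, p)) (k := 0) hC
    (fun l hl => (N_D1_hasDeriv (h p hp l (hab l hl)).1).sub_const _)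
    (fun l hl => by rw [pow_zero, mul_one]; exact (h p hp l (hab l hl)).2) (sub_self _) l hl
  simpa using this

/-- uniform third order estimate -/
theorem N_unif3 {K : Set P} (hK : IsCompact K) {f : ℝ × P → ℝ}
    (hf : ∀ p ∈ K, ContDiffAt ℝ ∞ f (0, p)) :
    ∃ C δ, 0 ≤ C ∧ 0 < δ ∧ ∀ p ∈ K, ∀ l ∈ Icc 0 δ,
      |f (l, p) - (f (0, p) + D1 f (0, p) * l + D1 (D1 f) (0, p) / 2 * l ^ 2)| ≤ C * l ^ 3 := by
  obtain ⟨C, δ, hC, hδ, h⟩ := N_unif hK (q := fun C z => (DifferentiableAt ℝ f z ∧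
      DifferentiableAt ℝ (D1 f) z ∧ DifferentiableAt ℝ (D1 (D1 f)) z) ∧ |D1 (D1 (D1 f)) z| ≤ C)
    (fun C C' z hCC h => ⟨h.1, h.2.trans hCC⟩) (fun p hp => by
      have h1 := N_D1_cda (hf p hp)
      have h2 := N_D1_cda h1
      obtain ⟨C, h⟩ := N_bound_at (N_D1_cda h2)
      exact ⟨C, ((N_diff_near (hf p hp)).and ((N_diff_near h1).and (N_diff_near h2))).and h⟩)
  refine ⟨C, δ, hC, hδ, fun p hp => ?_⟩
  have hab : ∀ l ∈ Icc 0 δ, |l| ≤ δ := fun l hl => by rw [abs_of_nonneg hl.1]; exact hl.2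
  have s1 := N_step (g := fun l => D1 (D1 f) (l, p) - D1 (D1 f) (0, p))
    (g' := fun l => D1 (D1 (D1 f)) (l, p)) (k := 0) hC
    (fun l hl => (N_D1_hasDeriv (h p hp l (hab l hl)).1.2.2).sub_const _)
    (fun l hl => by rw [pow_zero, mul_one]; exact (h p hp l (hab l hl)).2) (sub_self _)
  have s2 := N_step (g := fun l => D1 f (l, p) - (D1 f (0, p) + D1 (D1 f) (0, p) * l))
    (g' := fun l => D1 (D1 f) (l, p) - D1 (D1 f) (0, p)) (k := 1) hC
    (fun l hl => by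
      have e := ((hasDerivAt_id l).const_mul (D1 (D1 f) (0, p))).const_add (D1 f (0, p))
      have := (N_D1_hasDeriv (h p hp l (hab l hl)).1.2.1).sub e
      rw [mul_one] at this
      exact this)
    (fun l hl => by simpa using s1 l hl) (by simp)
  exact N_step (g := fun l => f (l, p) - (f (0, p) + D1 f (0, p) * l
      + D1 (D1 f) (0, p) / 2 * l ^ 2))
    (g' := fun l => D1 f (l, p) - (D1 f (0, p) + D1 (D1 f) (0, p) * l)) (k := 2) hC
    (fun l hl => by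
      have e1 := ((hasDerivAt_id l).const_mul (D1 f (0, p))).const_add (f (0, p))
      have e2 := (hasDerivAt_pow 2 l).const_mul (D1 (D1 f) (0, p) / 2)
      have := (N_D1_hasDeriv (h p hp l (hab l hl)).1.1).sub (e1.add e2)
      refine this.congr_deriv ?_
      simp only [mul_one, Nat.cast_ofNat, Nat.add_one_sub_one, pow_one]
      ring)
    (fun l hl => by simpa using s2 l hl) (by simp)

/-- a polynomial of degree two which is `O(l^3)` vanishes -/
theorem N_poly_zero {a b c M δ : ℝ} (hδ : 0 < δ)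
    (h : ∀ l ∈ Ioc 0 δ, |a + b * l + c * l ^ 2| ≤ M * l ^ 3) : a = 0 ∧ b = 0 ∧ c = 0 := by
  have lim : ∀ F : ℝ → ℝ, ContinuousAt F 0 → (∀ l ∈ Ioc 0 (min δ 1), |F l| ≤ |M| * l) →
      F 0 = 0 := by
    intro F hF hb
    have h1 : Tendsto (fun l => |F l|) (𝓝[>] 0) (𝓝 |F 0|) :=
      hF.abs.tendsto.mono_left nhdsWithin_le_nhds
    have h2 : Tendsto (fun l : ℝ => |M| * l) (𝓝[>] 0) (𝓝 (|M| * 0)) :=
      ((continuous_const.mul continuous_id).tendsto 0).mono_left nhdsWithin_le_nhds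
    rw [mul_zero] at h2
    have h3 : ∀ᶠ l in 𝓝[>] (0 : ℝ), |F l| ≤ |M| * l := by
      filter_upwards [Ioc_mem_nhdsGT (lt_min hδ one_pos)] with l hl using hb l hl
    have := le_of_tendsto_of_tendsto h1 h2 h3
    exact abs_nonpos_iff.1 this
  have h' : ∀ l ∈ Ioc 0 (min δ 1), |a + b * l + c * l ^ 2| ≤ |M| * l ^ 3 := fun l hl =>
    (h l ⟨hl.1, hl.2.trans (min_le_left _ _)⟩).trans
      (mul_le_mul_of_nonneg_right (le_abs_self M) (pow_nonneg hl.1.le 3))
  have hl1 : ∀ l ∈ Ioc 0 (min δ 1), l ≤ 1 := fun l hl => hl.2.trans (min_le_right _ _)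
  have ha : a = 0 := by
    have := lim (fun l => a + b * l + c * l ^ 2) (by fun_prop) (fun l hl => (h' l hl).trans (by
      refine mul_le_mul_of_nonneg_left ?_ (abs_nonneg M)
      calc l ^ 3 ≤ l ^ 1 := pow_le_pow_of_le_one hl.1.le (hl1 l hl) (by norm_num)
        _ = l := pow_one l))
    simpa using this
  subst ha
  have hb : b = 0 := by
    have := lim (fun l => b + c * l) (by fun_prop) (fun l hl => by
      have h2 := h' l hl
      have e : |0 + b * l + c * l ^ 2| = |b + c * l| * l := by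
        rw [show 0 + b * l + c * l ^ 2 = (b + c * l) * l by ring, abs_mul, abs_of_pos hl.1]
      rw [e] at h2
      have h3 : |b + c * l| ≤ |M| * l ^ 2 := by
        refine le_of_mul_le_mul_right ?_ hl.1
        calc |b + c * l| * l ≤ |M| * l ^ 3 := h2
          _ = |M| * l ^ 2 * l := by ring
      refine h3.trans (mul_le_mul_of_nonneg_left ?_ (abs_nonneg M))
      calc l ^ 2 ≤ l ^ 1 := pow_le_pow_of_le_one hl.1.le (hl1 l hl) (by norm_num)
        _ = l := pow_one l)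
    simpa using this
  subst hb
  refine ⟨rfl, rfl, ?_⟩
  exact lim (fun _ => c) (by fun_prop) (fun l hl => by
    have h2 := h' l hl
    have e : |0 + 0 * l + c * l ^ 2| = |c| * l ^ 2 := by
      rw [show 0 + 0 * l + c * l ^ 2 = c * l ^ 2 by ring, abs_mul, abs_of_pos (pow_pos hl.1 2)]
    rw [e] at h2
    refine le_of_mul_le_mul_right ?_ (pow_pos hl.1 2)
    calc |c| * l ^ 2 ≤ |M| * l ^ 3 := h2
      _ = |M| * l * l ^ 2 := by ring)

/-- uniform version of `App` -/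
theorem N_unif_app {K : Set P} (hK : IsCompact K) {f : ℝ × P → ℝ}
    (hf : ∀ p ∈ K, ContDiffAt ℝ ∞ f (0, p)) {c : P → T3}
    (hc : ∀ p ∈ K, App (fun l => f (l, p)) (c p)) :
    ∃ C δ, 0 ≤ C ∧ 0 < δ ∧ ∀ p ∈ K, ∀ l ∈ Icc 0 δ,
      |f (l, p) - ((c p).c0 + (c p).c1 * l + (c p).c2 * l ^ 2)| ≤ C * l ^ 3 := by
  obtain ⟨C, δ, hC, hδ, h⟩ := N_unif3 hK hf
  refine ⟨C, δ, hC, hδ, fun p hp => ?_⟩
  have key : f (0, p) - (c p).c0 = 0 ∧ D1 f (0, p) - (c p).c1 = 0 ∧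
      D1 (D1 f) (0, p) / 2 - (c p).c2 = 0 := by
    obtain ⟨M, hM⟩ := (hc p hp).bound
    obtain ⟨ε, hε, hM⟩ := Metric.eventually_nhds_iff.1 hM
    refine N_poly_zero (M := C + M) (δ := min δ (ε / 2)) (lt_min hδ (half_pos hε)) ?_
    intro l hl
    have h1 := h p hp l ⟨hl.1.le, hl.2.trans (min_le_left _ _)⟩
    have h2 : ‖f (l, p) - ((c p).c0 + (c p).c1 * l + (c p).c2 * l ^ 2)‖ ≤ M * ‖l ^ 3‖ := by
      refine hM ?_
      rw [Real.dist_eq, sub_zero, abs_of_pos hl.1]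
      exact (hl.2.trans (min_le_right _ _)).trans_lt (half_lt_self hε)
    rw [Real.norm_eq_abs, Real.norm_eq_abs, abs_of_pos (pow_pos hl.1 3)] at h2
    have e : f (0, p) - (c p).c0 + (D1 f (0, p) - (c p).c1) * l
        + (D1 (D1 f) (0, p) / 2 - (c p).c2) * l ^ 2
        = (f (l, p) - ((c p).c0 + (c p).c1 * l + (c p).c2 * l ^ 2))
          - (f (l, p) - (f (0, p) + D1 f (0, p) * l + D1 (D1 f) (0, p) / 2 * l ^ 2)) := by ring
    rw [e]
    refine (abs_sub _ _).trans ?_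
    linarith
  intro l hl
  have h1 := h p hp l hl
  rw [sub_eq_zero.1 key.1, sub_eq_zero.1 key.2.1, sub_eq_zero.1 key.2.2] at h1
  exact h1

end unif

section RBs

variable {d : ℕ}

theorem N_qf_bound {A : Mt d} {ε : ℝ} (hA : ∀ i j, |A i j| ≤ ε) (v : Fin d → ℝ) :
    |∑ i, ∑ j, A i j * v i * v j| ≤ ε * d * ∑ i, v i ^ 2 := by
  have h1 : |∑ i, ∑ j, A i j * v i * v j| ≤ ∑ i, ∑ j, ε * ((v i ^ 2 + v j ^ 2) / 2) := by
    refine (Finset.abs_sum_le_sum_abs _ _).trans (Finset.sum_le_sum fun i _ => ?_)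
    refine (Finset.abs_sum_le_sum_abs _ _).trans (Finset.sum_le_sum fun j _ => ?_)
    rw [mul_assoc, abs_mul, abs_mul]
    have h2 : |v i| * |v j| ≤ (v i ^ 2 + v j ^ 2) / 2 := by
      have := two_mul_le_add_sq |v i| |v j|
      rw [sq_abs, sq_abs] at this
      linarith
    have h0 : 0 ≤ |v i| * |v j| := by positivity
    exact mul_le_mul (hA i j) h2 h0 ((abs_nonneg _).trans (hA i j))
  have h2 : ∑ i : Fin d, ∑ j : Fin d, ε * ((v i ^ 2 + v j ^ 2) / 2) = ε * d * ∑ i, v i ^ 2 := by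
    have e1 : ∀ i : Fin d, ∑ j : Fin d, ε * ((v i ^ 2 + v j ^ 2) / 2)
        = ε / 2 * (d * v i ^ 2) + ε / 2 * ∑ j, v j ^ 2 := by
      intro i
      rw [Finset.mul_sum]
      have : ∑ j : Fin d, ε / 2 * v i ^ 2 = ε / 2 * (d * v i ^ 2) := by
        rw [Finset.sum_const, Finset.card_univ, Fintype.card_fin, nsmul_eq_mul]; ring
      rw [← this, ← Finset.sum_add_distrib]
      exact Finset.sum_congr rfl fun j _ => by ring
    simp only [e1]
    rw [Finset.sum_add_distrib, Finset.sum_const, Finset.card_univ, Fintype.card_fin,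
      nsmul_eq_mul, ← Finset.mul_sum, ← Finset.mul_sum]
    ring
  exact h1.trans h2.le

/-- a positive definite form is bounded below -/
theorem N_pos_bound {A : Mt d} (hA : ∀ v : Fin d → ℝ, v ≠ 0 → 0 < ∑ i, ∑ j, A i j * v i * v j) :
    ∃ C, 0 < C ∧ ∀ v : Fin d → ℝ, ∑ i, v i ^ 2 ≤ C * ∑ i, ∑ j, A i j * v i * v j := by
  set S : Set (EE d) := Metric.sphere 0 1 with hS
  have hcont : ContinuousOn (fun v : EE d => (∑ i, ∑ j, A i j * v i * v j)⁻¹) S := by
    refine ContinuousOn.inv₀ (by fun_prop) ?_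
    intro v hv
    refine (hA v ?_).ne'
    intro h0
    have : v = 0 := by ext i; exact congrFun h0 i
    rw [hS, this] at hv
    simp at hv
  obtain ⟨C, hC⟩ := (isCompact_sphere (0 : EE d) 1).exists_bound_of_continuousOn hcont
  refine ⟨max C 1, lt_max_of_lt_right one_pos, ?_⟩
  intro v
  by_cases hv : v = 0
  · subst hv; simp
  set w : EE d := WithLp.toLp 2 v with hw
  have hnorm : ‖w‖ ^ 2 = ∑ i, v i ^ 2 := by
    rw [EuclideanSpace.norm_sq_eq]
    simp [hw]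
  have hw0 : w ≠ 0 := by
    intro h0
    apply hv
    funext i
    have := congrArg (fun u : EE d => u i) h0
    exact this
  have hn : 0 < ‖w‖ := norm_pos_iff.2 hw0
  set u : EE d := ‖w‖⁻¹ • w with hu
  have huS : u ∈ S := by
    rw [hS, mem_sphere_zero_iff_norm, hu, norm_smul, norm_inv, norm_norm,
      inv_mul_cancel₀ hn.ne']
  have hq : ∑ i, ∑ j, A i j * u i * u j = (‖w‖ ^ 2)⁻¹ * ∑ i, ∑ j, A i j * v i * v j := by
    rw [Finset.mul_sum]
    refine Finset.sum_congr rfl fun i _ => ?_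
    rw [Finset.mul_sum]
    refine Finset.sum_congr rfl fun j _ => ?_
    have e : ∀ i, u i = ‖w‖⁻¹ * v i := fun i => rfl
    rw [e, e]
    have := hn.ne'
    field_simp
  have hpos := hA v hv
  have hb := hC u huS
  rw [hq, mul_inv, inv_inv, Real.norm_eq_abs, abs_of_pos (by positivity)] at hb
  rw [← hnorm]
  have hb2 : ‖w‖ ^ 2 * (∑ i, ∑ j, A i j * v i * v j)⁻¹ ≤ max C 1 := hb.trans (le_max_left _ _)
  rwa [← div_eq_mul_inv, div_le_iff₀ hpos] at hb2

variable {P : Type*} [NormedAddCommGroup P] [NormedSpace ℝ P]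

theorem N_reassoc {F : (ℝ × P) × EE d → ℝ} {l : ℝ} {z : P × EE d}
    (h : ContDiffAt ℝ ∞ F ((l, z.1), z.2)) :
    ContDiffAt ℝ ∞ (fun w : ℝ × (P × EE d) => F ((w.1, w.2.1), w.2.2)) (l, z) := by
  have h1 : ContDiffAt ℝ ∞ (fun w : ℝ × (P × EE d) => ((w.1, w.2.1), w.2.2)) (l, z) := by
    fun_prop
  exact ContDiffAt.comp (l, z) (g := F) h h1

end RBs

end H31R
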