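import Pool.Agent.Lib.H31R.N6

/-!
# H31R, part N7: uniform Ricci bounds for smooth families of metrics
-/

open scoped ContDiff Topology
open Set Filter

namespace H31R

variable {d : ℕ} {P : Type*} [NormedAddCommGroup P] [NormedSpace ℝ P]

/-- `G` is, near `(0, p, y)` for `(p, y) ∈ K`, a smooth family of matrices, positive definite at
`(0, p, y)` -/
structure SmFam (G : ℝ × P → EE d → Mt d) (K : Set (P × EE d)) : Prop where
  compact : IsCompact K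
  smooth : ∀ z ∈ K, ∀ i j, ContDiffAt ℝ ∞ (fun w : (ℝ × P) × EE d => G w.1 w.2 i j)
    ((0, z.1), z.2)
  pos : ∀ z ∈ K, ∀ v : Fin d → ℝ, v ≠ 0 → 0 < ∑ i, ∑ j, G (0, z.1) z.2 i j * v i * v j

variable {G : ℝ × P → EE d → Mt d} {K : Set (P × EE d)}

theorem N_det_of_pos {A : Mt d} (hA : ∀ v : Fin d → ℝ, v ≠ 0 → 0 < ∑ i, ∑ j, A i j * v i * v j) :
    A.det ≠ 0 := by
  intro h0
  obtain ⟨v, hv, hv0⟩ := Matrix.exists_mulVec_eq_zero_iff.2 h0
  have h := hA v hv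
  have e : ∑ i, ∑ j, A i j * v i * v j = ∑ i, v i * A.mulVec v i := by
    refine Finset.sum_congr rfl fun i _ => ?_
    simp only [Matrix.mulVec, dotProduct, Finset.mul_sum]
    exact Finset.sum_congr rfl fun j _ => by ring
  rw [e, hv0] at h
  simp at h

theorem SmFam.entry (h : SmFam G K) {z : P × EE d} (hz : z ∈ K) (i j : Fin d) :
    ContDiffAt ℝ ∞ (fun w : ℝ × (P × EE d) => G (w.1, w.2.1) w.2.2 i j) (0, z) :=
  N_reassoc (F := fun w : (ℝ × P) × EE d => G w.1 w.2 i j) (h.smooth z hz i j)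

theorem SmFam.ricSm (h : SmFam G K) {z : P × EE d} (hz : z ∈ K) (i j : Fin d) :
    ContDiffAt ℝ ∞ (fun w : ℝ × (P × EE d) => ric (G (w.1, w.2.1)) i j w.2.2) (0, z) :=
  N_reassoc (F := fun w : (ℝ × P) × EE d => ric (G w.1) i j w.2)
    (N_ric_joint (z := ((0, z.1), z.2)) (h.smooth z hz) (N_det_of_pos (h.pos z hz)) i j)

/-- simultaneous bound for finitely many functions -/
theorem N_simul {Q : Type*} {ι : Type*} [Fintype ι] {K : Set Q} {f : ι → ℝ → Q → ℝ} {k : ℕ}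
    (h : ∀ a, ∃ C δ, 0 ≤ C ∧ 0 < δ ∧ ∀ p ∈ K, ∀ l ∈ Icc (0 : ℝ) δ, |f a l p| ≤ C * l ^ k) :
    ∃ C δ, 0 ≤ C ∧ 0 < δ ∧ ∀ p ∈ K, ∀ l ∈ Icc (0 : ℝ) δ, ∀ a, |f a l p| ≤ C * l ^ k := by
  choose C δ hC hδ hb using h
  by_cases hι : Nonempty ι
  · refine ⟨∑ a, C a, Finset.univ.inf' Finset.univ_nonempty δ, Finset.sum_nonneg fun a _ => hC a,
      (Finset.lt_inf'_iff _).2 fun a _ => hδ a, ?_⟩
    intro p hp l hl a
    refine (hb a p hp l ⟨hl.1, hl.2.trans (Finset.inf'_le _ (Finset.mem_univ a))⟩).trans ?_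
    refine mul_le_mul_of_nonneg_right ?_ (pow_nonneg hl.1 k)
    exact Finset.single_le_sum (fun a _ => hC a) (Finset.mem_univ a)
  · exact ⟨0, 1, le_rfl, one_pos, fun p _ l _ a => absurd ⟨a⟩ hι⟩

theorem N_qf_sub (A B : Mt d) (v : Fin d → ℝ) :
    ∑ i, ∑ j, A i j * v i * v j - ∑ i, ∑ j, B i j * v i * v j
      = ∑ i, ∑ j, (A - B) i j * v i * v j := by
  rw [← Finset.sum_sub_distrib]
  refine Finset.sum_congr rfl fun i _ => ?_
  rw [← Finset.sum_sub_distrib]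
  refine Finset.sum_congr rfl fun j _ => ?_
  rw [Matrix.sub_apply]; ring

/-- The metrics are uniformly equivalent to the standard metric. -/
theorem SmFam.lower (h : SmFam G K) : ∃ C δ, 0 ≤ C ∧ 0 < δ ∧ ∀ z ∈ K, ∀ l : ℝ, |l| ≤ δ →
    ∀ v : Fin d → ℝ, 0 ≤ ∑ i, ∑ j, G (l, z.1) z.2 i j * v i * v j ∧
      ∑ i, v i ^ 2 ≤ C * ∑ i, ∑ j, G (l, z.1) z.2 i j * v i * v j := by
  refine N_unif (P := P × EE d) h.compact
    (q := fun C w => ∀ v : Fin d → ℝ, 0 ≤ ∑ i, ∑ j, G (w.1, w.2.1) w.2.2 i j * v i * v j ∧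
      ∑ i, v i ^ 2 ≤ C * ∑ i, ∑ j, G (w.1, w.2.1) w.2.2 i j * v i * v j) ?_ ?_
  · intro C C' w hCC hq v
    exact ⟨(hq v).1, (hq v).2.trans (mul_le_mul_of_nonneg_right hCC (hq v).1)⟩
  · intro z hz
    obtain ⟨C0, hC0, hb⟩ := N_pos_bound (h.pos z hz)
    set A := G (0, z.1) z.2 with hA
    set ε : ℝ := 1 / (2 * C0 * (d + 1)) with hε
    have hε0 : 0 < ε := by positivity
    have hnear : ∀ᶠ w in 𝓝 ((0 : ℝ), z), ∀ i j, |(G (w.1, w.2.1) w.2.2 - A) i j| ≤ ε := by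
      rw [Filter.eventually_all]
      intro i
      rw [Filter.eventually_all]
      intro j
      have hc := (h.entry hz i j).continuousAt
      have := Metric.continuousAt_iff'.1 hc ε hε0
      filter_upwards [this] with w hw
      exact le_of_lt hw
    refine ⟨2 * C0, ?_⟩
    filter_upwards [hnear] with w hw
    intro v
    have h1 := N_qf_bound hw v
    rw [← N_qf_sub] at h1
    have h2 := hb v
    set g := ∑ i, ∑ j, G (w.1, w.2.1) w.2.2 i j * v i * v j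
    set a := ∑ i, ∑ j, A i j * v i * v j
    set s := ∑ i, v i ^ 2
    have hs : 0 ≤ s := Finset.sum_nonneg fun i _ => sq_nonneg _
    have h3 : ε * d * s ≤ s / (2 * C0) := by
      have : ε * d ≤ 1 / (2 * C0) := by
        rw [hε, div_mul_eq_mul_div, one_mul, div_le_div_iff₀ (by positivity) (by positivity)]
        nlinarith
      calc ε * d * s ≤ 1 / (2 * C0) * s := mul_le_mul_of_nonneg_right this hs
        _ = s / (2 * C0) := by ring
    have h4 : s / C0 ≤ a := by rw [div_le_iff₀ hC0]; linarith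
    have h5 : a - s / (2 * C0) ≤ g := by
      have := (abs_le.1 (h1.trans h3)).1
      linarith
    have h6 : s / C0 = 2 * (s / (2 * C0)) := by field_simp
    have h7 : s / (2 * C0) ≤ g := by linarith
    refine ⟨le_trans (by positivity) h7, ?_⟩
    rw [div_le_iff₀ (by positivity)] at h7
    linarith

/-- First order Ricci bound: a family which is Ricci flat at `l = 0`. -/
theorem SmFam.RB_first (h : SmFam G K) (h0 : ∀ z ∈ K, ∀ i j, ric (G (0, z.1)) i j z.2 = 0) :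
    ∃ C δ, 0 ≤ C ∧ 0 < δ ∧ ∀ z ∈ K, ∀ l ∈ Icc 0 δ, RB (G (l, z.1)) z.2 (C * l) := by
  obtain ⟨C1, δ1, hC1, hδ1, h1⟩ := h.lower
  obtain ⟨C2, δ2, hC2, hδ2, h2⟩ := N_simul (ι := Fin d × Fin d) (K := K) (k := 1)
    (f := fun a l z => ric (G (l, z.1)) a.1 a.2 z.2) (fun a => by
      obtain ⟨C, δ, hC, hδ, hb⟩ := N_unif1 h.compact
        (f := fun w : ℝ × (P × EE d) => ric (G (w.1, w.2.1)) a.1 a.2 w.2.2)
        (fun z hz => h.ricSm hz a.1 a.2)
      refine ⟨C, δ, hC, hδ, fun z hz l hl => ?_⟩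
      have := hb z hz l hl
      simp only [h0 z hz, sub_zero] at this
      rwa [pow_one])
  refine ⟨C2 * d * C1, min δ1 δ2, by positivity, lt_min hδ1 hδ2, ?_⟩
  intro z hz l hl v
  have hl1 : |l| ≤ δ1 := by rw [abs_of_nonneg hl.1]; exact hl.2.trans (min_le_left _ _)
  have e1 := N_qf_bound (A := fun i j => ric (G (l, z.1)) i j z.2) (ε := C2 * l)
    (fun i j => by
      have := h2 z hz l ⟨hl.1, hl.2.trans (min_le_right _ _)⟩ (i, j)
      rwa [pow_one] at this) v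
  have e2 := (h1 z hz l hl1 v).2
  refine e1.trans ?_
  have hl0 : 0 ≤ l := hl.1
  calc C2 * l * d * ∑ i, v i ^ 2
      ≤ C2 * l * d * (C1 * ∑ i, ∑ j, G (l, z.1) z.2 i j * v i * v j) :=
        mul_le_mul_of_nonneg_left e2 (by positivity)
    _ = C2 * d * C1 * l * ∑ i, ∑ j, G (l, z.1) z.2 i j * v i * v j := by ring

/-- Third order Ricci bound: if `Ric = F l^2 + O(l^3)` with `|F| ≤ C0 G` at `l = 0`, then
`|Ric| ≤ (C0 l^2 + C l^3) G` uniformly. -/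
theorem SmFam.RB_third (h : SmFam G K) {F : P × EE d → Mt d} {C0 : ℝ} (hC0 : 0 ≤ C0)
    (hF : ∀ z ∈ K, ∀ i j, App (fun l => ric (G (l, z.1)) i j z.2) ⟨0, 0, F z i j⟩)
    (hb : ∀ z ∈ K, ∀ v : Fin d → ℝ, |∑ i, ∑ j, F z i j * v i * v j|
      ≤ C0 * ∑ i, ∑ j, G (0, z.1) z.2 i j * v i * v j) :
    ∃ C δ, 0 ≤ C ∧ 0 < δ ∧ ∀ z ∈ K, ∀ l ∈ Icc 0 δ,
      RB (G (l, z.1)) z.2 (C0 * l ^ 2 + C * l ^ 3) := by
  obtain ⟨C1, δ1, hC1, hδ1, h1⟩ := h.lower
  obtain ⟨C2, δ2, hC2, hδ2, h2⟩ := N_simul (ι := Fin d × Fin d) (K := K) (k := 3)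
    (f := fun a l z => ric (G (l, z.1)) a.1 a.2 z.2 - F z a.1 a.2 * l ^ 2) (fun a => by
      obtain ⟨C, δ, hC, hδ, hb⟩ := N_unif_app h.compact
        (f := fun w : ℝ × (P × EE d) => ric (G (w.1, w.2.1)) a.1 a.2 w.2.2)
        (fun z hz => h.ricSm hz a.1 a.2) (c := fun z => ⟨0, 0, F z a.1 a.2⟩)
        (fun z hz => hF z hz a.1 a.2)
      refine ⟨C, δ, hC, hδ, fun z hz l hl => ?_⟩
      have := hb z hz l hl
      simpa using this)
  obtain ⟨C3, δ3, hC3, hδ3, h3⟩ := N_simul (ι := Fin d × Fin d) (K := K) (k := 1)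
    (f := fun a l z => G (0, z.1) z.2 a.1 a.2 - G (l, z.1) z.2 a.1 a.2) (fun a => by
      obtain ⟨C, δ, hC, hδ, hb⟩ := N_unif1 h.compact
        (f := fun w : ℝ × (P × EE d) => G (w.1, w.2.1) w.2.2 a.1 a.2)
        (fun z hz => h.entry hz a.1 a.2)
      refine ⟨C, δ, hC, hδ, fun z hz l hl => ?_⟩
      have := hb z hz l hl
      rw [pow_one, abs_sub_comm]
      exact this)
  refine ⟨(C0 * C3 + C2) * d * C1, min δ1 (min δ2 δ3), by positivity,
    lt_min hδ1 (lt_min hδ2 hδ3), ?_⟩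
  intro z hz l hl v
  have hl0 : 0 ≤ l := hl.1
  have hl1 : |l| ≤ δ1 := by rw [abs_of_nonneg hl.1]; exact hl.2.trans (min_le_left _ _)
  have hl2 : l ∈ Icc 0 δ2 := ⟨hl0, hl.2.trans ((min_le_right _ _).trans (min_le_left _ _))⟩
  have hl3 : l ∈ Icc 0 δ3 := ⟨hl0, hl.2.trans ((min_le_right _ _).trans (min_le_right _ _))⟩
  set s := ∑ i, v i ^ 2
  set gl := ∑ i, ∑ j, G (l, z.1) z.2 i j * v i * v j with hgl
  set g0 := ∑ i, ∑ j, G (0, z.1) z.2 i j * v i * v j with hg0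
  have e1 : |∑ i, ∑ j, ric (G (l, z.1)) i j z.2 * v i * v j
      - ∑ i, ∑ j, (l ^ 2 • F z) i j * v i * v j| ≤ C2 * l ^ 3 * d * s := by
    have h4 := N_qf_sub (ricM (G (l, z.1)) z.2) (l ^ 2 • F z) v
    have h5 : ∑ i, ∑ j, ric (G (l, z.1)) i j z.2 * v i * v j
        = ∑ i, ∑ j, ricM (G (l, z.1)) z.2 i j * v i * v j := rfl
    rw [h5, h4]
    refine N_qf_bound (fun i j => ?_) v
    have := h2 z hz l hl2 (i, j)
    rw [Matrix.sub_apply, Matrix.smul_apply, smul_eq_mul, mul_comm (l ^ 2)]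
    exact this
  have e2 : |g0 - gl| ≤ C3 * l * d * s := by
    rw [hg0, hgl, N_qf_sub]
    refine N_qf_bound (fun i j => ?_) v
    have := h3 z hz l hl3 (i, j)
    rwa [pow_one] at this
  have e3 := (h1 z hz l hl1 v).2
  have e4 : |∑ i, ∑ j, (l ^ 2 • F z) i j * v i * v j| ≤ l ^ 2 * (C0 * g0) := by
    have : ∑ i, ∑ j, (l ^ 2 • F z) i j * v i * v j = l ^ 2 * ∑ i, ∑ j, F z i j * v i * v j := by
      simp only [Finset.mul_sum, Matrix.smul_apply, smul_eq_mul]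
      exact Finset.sum_congr rfl fun i _ => Finset.sum_congr rfl fun j _ => by ring
    rw [this, abs_mul, abs_of_nonneg (by positivity : (0 : ℝ) ≤ l ^ 2)]
    exact mul_le_mul_of_nonneg_left (hb z hz v) (by positivity)
  have e5 : g0 ≤ gl + C3 * l * d * s := by
    have := (abs_le.1 e2).2
    linarith
  have e6 : l ^ 2 * (C0 * g0) ≤ l ^ 2 * (C0 * (gl + C3 * l * d * s)) :=
    mul_le_mul_of_nonneg_left (mul_le_mul_of_nonneg_left e5 hC0) (by positivity)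
  have e7 : |∑ i, ∑ j, ric (G (l, z.1)) i j z.2 * v i * v j|
      ≤ C2 * l ^ 3 * d * s + l ^ 2 * (C0 * (gl + C3 * l * d * s)) := by
    have := abs_sub_abs_le_abs_sub (∑ i, ∑ j, ric (G (l, z.1)) i j z.2 * v i * v j)
      (∑ i, ∑ j, (l ^ 2 • F z) i j * v i * v j)
    linarith
  refine e7.trans ?_
  have e8 : (C0 * C3 + C2) * d * l ^ 3 * s ≤ (C0 * C3 + C2) * d * l ^ 3 * (C1 * gl) :=
    mul_le_mul_of_nonneg_left e3 (by positivity)
  have e9 : C2 * l ^ 3 * d * s + l ^ 2 * (C0 * (gl + C3 * l * d * s))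
      = C0 * l ^ 2 * gl + (C0 * C3 + C2) * d * l ^ 3 * s := by ring
  have e10 : (C0 * l ^ 2 + (C0 * C3 + C2) * d * C1 * l ^ 3) * gl
      = C0 * l ^ 2 * gl + (C0 * C3 + C2) * d * l ^ 3 * (C1 * gl) := by ring
  rw [e9, e10]
  linarith

end H31R
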