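import Pool.Agent.Lib.H31R.Stat

/-!
# H31R, part P: product of a closed manifold with a torus
-/

open scoped Manifold ContDiff Topology
open Set

namespace H31R

/-- the circle `R / Z` -/
abbrev S1 := AddCircle (1 : ℝ)

/-! ### `EE d × R^m = EE (d + m)` -/

/-- The identification `EE d × R^m = EE (d + m)`, as a linear map. -/
noncomputable def jnL (d m : ℕ) : (EE d × (Fin m → ℝ)) ≃ₗ[ℝ] EE (d + m) where
  toFun x := WithLp.toLp 2 (Fin.append (fun i => x.1 i) x.2)
  map_add' x y := by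
    ext i
    refine Fin.addCases (fun i => ?_) (fun i => ?_) i <;> simp [Fin.append_left, Fin.append_right]
  map_smul' c x := by
    ext i
    refine Fin.addCases (fun i => ?_) (fun i => ?_) i <;> simp [Fin.append_left, Fin.append_right]
  invFun z := (WithLp.toLp 2 fun i => z (Fin.castAdd m i), fun j => z (Fin.natAdd d j))
  left_inv x := by
    refine Prod.ext ?_ ?_
    · ext i
      simp [Fin.append_left]
    · ext i
      simp [Fin.append_right]
  right_inv z := by
    ext i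
    refine Fin.addCases (fun i => ?_) (fun i => ?_) i <;> simp [Fin.append_left, Fin.append_right]

/-- The identification `EE d × R^m = EE (d + m)`. -/
noncomputable def jn (d m : ℕ) : (EE d × (Fin m → ℝ)) ≃L[ℝ] EE (d + m) :=
  (jnL d m).toContinuousLinearEquiv

theorem jn_left {d m : ℕ} (x : EE d) (y : Fin m → ℝ) (i : Fin d) :
    jn d m (x, y) (Fin.castAdd m i) = x i := by
  show Fin.append (fun i => x i) y (Fin.castAdd m i) = x i
  rw [Fin.append_left]

theorem jn_right {d m : ℕ} (x : EE d) (y : Fin m → ℝ) (j : Fin m) :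
    jn d m (x, y) (Fin.natAdd d j) = y j := by
  show Fin.append (fun i => x i) y (Fin.natAdd d j) = y j
  rw [Fin.append_right]

/-- first part of a vector -/
noncomputable def jp1 (d m : ℕ) : EE (d + m) →L[ℝ] EE d :=
  (ContinuousLinearMap.fst ℝ (EE d) (Fin m → ℝ)).comp (jn d m).symm.toContinuousLinearMap

/-- second part of a vector -/
noncomputable def jp2 (d m : ℕ) : EE (d + m) →L[ℝ] (Fin m → ℝ) :=
  (ContinuousLinearMap.snd ℝ (EE d) (Fin m → ℝ)).comp (jn d m).symm.toContinuousLinearMap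

theorem jp1_apply {d m : ℕ} (z : EE (d + m)) (i : Fin d) : jp1 d m z i = z (Fin.castAdd m i) := rfl

theorem jp2_apply {d m : ℕ} (z : EE (d + m)) (j : Fin m) : jp2 d m z j = z (Fin.natAdd d j) := rfl

@[simp] theorem jp1_jn {d m : ℕ} (x : EE d) (y : Fin m → ℝ) : jp1 d m (jn d m (x, y)) = x := by
  show ((jn d m).symm (jn d m (x, y))).1 = x
  rw [ContinuousLinearEquiv.symm_apply_apply]

@[simp] theorem jp2_jn {d m : ℕ} (x : EE d) (y : Fin m → ℝ) : jp2 d m (jn d m (x, y)) = y := by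
  show ((jn d m).symm (jn d m (x, y))).2 = y
  rw [ContinuousLinearEquiv.symm_apply_apply]

theorem jn_jp {d m : ℕ} (z : EE (d + m)) : jn d m (jp1 d m z, jp2 d m z) = z :=
  (jn d m).apply_symm_apply z

theorem jn_ext {d m : ℕ} {z z' : EE (d + m)} (h1 : jp1 d m z = jp1 d m z')
    (h2 : jp2 d m z = jp2 d m z') : z = z' := by
  rw [← jn_jp z, ← jn_jp z', h1, h2]

theorem jp1_ebas_left {d m : ℕ} (i : Fin d) : jp1 d m (ebas (Fin.castAdd m i)) = ebas i := by
  ext j
  rw [jp1_apply]
  simp only [EuclideanSpace.single_apply, Fin.castAdd_inj]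

theorem jp2_ebas_left {d m : ℕ} (i : Fin d) : jp2 d m (ebas (Fin.castAdd m i)) = 0 := by
  ext j
  rw [jp2_apply]
  simp only [EuclideanSpace.single_apply, Pi.zero_apply, ite_eq_right_iff, one_ne_zero, imp_false]
  intro h
  have := congrArg Fin.val h
  simp at this
  omega

theorem jp1_ebas_right {d m : ℕ} (i : Fin m) : jp1 d m (ebas (Fin.natAdd d i)) = 0 := by
  ext j
  rw [jp1_apply]
  simp only [EuclideanSpace.single_apply, PiLp.zero_apply, ite_eq_right_iff, one_ne_zero,
    imp_false]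
  intro h
  have := congrArg Fin.val h
  simp at this
  omega

theorem jp2_ebas_right {d m : ℕ} (i : Fin m) :
    jp2 d m (ebas (Fin.natAdd d i)) = Pi.single i 1 := by
  ext j
  rw [jp2_apply]
  simp only [EuclideanSpace.single_apply, Pi.single_apply]
  congr 1
  simp

/-! ### charts of the circle -/

/-- The chart of the circle with values in `(a, a + 1)`. -/
noncomputable def cch (a : ℝ) : OpenPartialHomeomorph S1 ℝ :=
  (AddCircle.openPartialHomeomorphCoe (1 : ℝ) a).symm

theorem cch_symm (a r : ℝ) : (cch a).symm r = (r : S1) := rfl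

theorem cch_target (a : ℝ) : (cch a).target = Ioo a (a + 1) := rfl

theorem cch_source (a : ℝ) : (cch a).source = {(a : S1)}ᶜ := rfl

theorem cch_mem {a : ℝ} {s : S1} (hs : s ≠ a) : cch a s ∈ Ioo a (a + 1) :=
  (cch a).map_source (x := s) hs

theorem coe_cch {a : ℝ} {s : S1} (hs : s ≠ a) : ((cch a s : ℝ) : S1) = s :=
  (cch a).left_inv (x := s) hs

theorem cch_coe {a r : ℝ} (hr : r ∈ Ioo a (a + 1)) : cch a (r : S1) = r :=
  (cch a).right_inv (x := r) hr

theorem coe_ne_coe {a r : ℝ} (hr : r ∈ Ioo a (a + 1)) : (r : S1) ≠ a :=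
  (cch a).map_target (x := r) hr

theorem coe_add_int (r : ℝ) (n : ℤ) : ((r + n : ℝ) : S1) = r := by
  have h : ((n : ℝ) : S1) = 0 := AddCircle.coe_eq_zero_iff (1 : ℝ) |>.2 ⟨n, by simp⟩
  rw [AddCircle.coe_add, h, add_zero]

theorem exists_int_of_coe_eq {r s : ℝ} (h : (r : S1) = s) : ∃ n : ℤ, s = r + n := by
  have h1 : ((s - r : ℝ) : S1) = 0 := by
    rw [AddCircle.coe_sub, h, sub_self]
  obtain ⟨n, hn⟩ := (AddCircle.coe_eq_zero_iff (1 : ℝ)).1 h1
  refine ⟨n, ?_⟩
  rw [zsmul_eq_mul, mul_one] at hn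
  linarith

theorem cch_near {a t : ℝ} (ht : (t : S1) ≠ a) :
    ∃ n : ℤ, (fun r : ℝ => cch a (r : S1)) =ᶠ[𝓝 t] fun r => r + n := by
  obtain ⟨n, hn⟩ := exists_int_of_coe_eq (coe_cch ht).symm
  refine ⟨n, ?_⟩
  have h1 : t + n ∈ Ioo a (a + 1) := by
    rw [← hn]
    exact cch_mem ht
  have hc : ContinuousAt (fun r : ℝ => r + n) t := by fun_prop
  filter_upwards [hc.preimage_mem_nhds (isOpen_Ioo.mem_nhds h1)] with r hr
  rw [← coe_add_int r n]
  exact cch_coe hr

/-- The representative in `[0, 1)`. -/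
noncomputable def crep (s : S1) : ℝ := (AddCircle.equivIco (1 : ℝ) 0 s : ℝ)

theorem coe_crep (s : S1) : ((crep s : ℝ) : S1) = s := AddCircle.coe_equivIco

theorem crep_mem (s : S1) : crep s - 1 / 2 < crep s ∧ crep s < crep s - 1 / 2 + 1 := by
  constructor <;> linarith

theorem ne_crep (s : S1) : s ≠ ((crep s - 1 / 2 : ℝ) : S1) := by
  have h := coe_ne_coe (a := crep s - 1 / 2) (r := crep s) (crep_mem s)
  rw [coe_crep] at h
  exact h

/-! ### the product -/

/-- The underlying space of the product of `M` with the `m`-dimensional torus. -/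
def PTor (M : Type) (m : ℕ) : Type := M × (Fin m → S1)

/-- The point `(x, a mod Z^m)`. -/
def pmk {M : Type} {m : ℕ} (x : M) (a : Fin m → ℝ) : PTor M m := (x, fun i => (a i : S1))

theorem pmk_fst {M : Type} {m : ℕ} (x : M) (a : Fin m → ℝ) : (pmk x a).1 = x := rfl

theorem pmk_snd {M : Type} {m : ℕ} (x : M) (a : Fin m → ℝ) (i : Fin m) :
    (pmk x a).2 i = (a i : S1) := rfl

theorem exists_pmk {M : Type} {m : ℕ} (q : PTor M m) : ∃ x a, q = pmk x a := by
  refine ⟨q.1, fun i => crep (q.2 i), ?_⟩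
  refine Prod.ext rfl ?_
  funext i
  exact (coe_crep _).symm

section prod

variable {d m : ℕ} {M : Type} [TopologicalSpace M]

instance : TopologicalSpace (PTor M m) := inferInstanceAs (TopologicalSpace (M × (Fin m → S1)))

instance [T2Space M] : T2Space (PTor M m) := inferInstanceAs (T2Space (M × (Fin m → S1)))

instance [CompactSpace M] : CompactSpace (PTor M m) :=
  inferInstanceAs (CompactSpace (M × (Fin m → S1)))

instance [ConnectedSpace M] : ConnectedSpace (PTor M m) :=
  inferInstanceAs (ConnectedSpace (M × (Fin m → S1)))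

/-- The product of charts. -/
noncomputable def pch (e : OpenPartialHomeomorph M (EE d)) (a : Fin m → ℝ) :
    OpenPartialHomeomorph (PTor M m) (EE (d + m)) :=
  (e.prod (OpenPartialHomeomorph.pi fun i => cch (a i))).transHomeomorph
    (jn d m).toHomeomorph

theorem pch_apply (e : OpenPartialHomeomorph M (EE d)) (a : Fin m → ℝ) (q : PTor M m) :
    pch e a q = jn d m (e q.1, fun i => cch (a i) (q.2 i)) := rfl

theorem pch_symm (e : OpenPartialHomeomorph M (EE d)) (a : Fin m → ℝ) (y : EE (d + m)) :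
    (pch e a).symm y = (e.symm (jp1 d m y), fun i => (jp2 d m y i : S1)) := rfl

theorem mem_pch_source (e : OpenPartialHomeomorph M (EE d)) (a : Fin m → ℝ) (q : PTor M m) :
    q ∈ (pch e a).source ↔ q.1 ∈ e.source ∧ ∀ i, q.2 i ≠ a i := by
  show q.1 ∈ e.source ∧ q.2 ∈ Set.pi univ (fun i => (cch (a i)).source) ↔ _
  simp [cch_source]

theorem mem_pch_target (e : OpenPartialHomeomorph M (EE d)) (a : Fin m → ℝ) (y : EE (d + m)) :
    y ∈ (pch e a).target ↔ jp1 d m y ∈ e.target ∧ ∀ i, jp2 d m y i ∈ Ioo (a i) (a i + 1) := by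
  show jp1 d m y ∈ e.target ∧ jp2 d m y ∈ Set.pi univ (fun i => (cch (a i)).target) ↔ _
  simp [cch_target]

variable [ChartedSpace (EE d) M]

noncomputable instance : ChartedSpace (EE (d + m)) (PTor M m) where
  atlas := {e | ∃ e1 ∈ atlas (EE d) M, ∃ a : Fin m → ℝ, e = pch e1 a}
  chartAt q := pch (chartAt (EE d) q.1) (fun i => crep (q.2 i) - 1 / 2)
  mem_chart_source q := by
    rw [mem_pch_source]
    exact ⟨mem_chart_source _ _, fun i => ne_crep _⟩
  chart_mem_atlas q := ⟨_, chart_mem_atlas _ _, _, rfl⟩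

theorem PTor_chartAt (q : PTor M m) : chartAt (EE (d + m)) q =
    pch (chartAt (EE d) q.1) (fun i => crep (q.2 i) - 1 / 2) := rfl

variable [IsManifold (𝓡 d) ∞ M]

/-- Transition functions of `M`. -/
theorem PA_trans {e1 e2 : OpenPartialHomeomorph M (EE d)} (h1 : e1 ∈ atlas (EE d) M)
    (h2 : e2 ∈ atlas (EE d) M) {y : EE d} (hy : y ∈ e1.target) (hy2 : e1.symm y ∈ e2.source) :
    ContDiffAt ℝ ∞ (fun b => e2 (e1.symm b)) y := by
  rw [← contMDiffAt_iff_contDiffAt]
  have a1 : ContMDiffAt (𝓡 d) (𝓡 d) ∞ e1.symm y :=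
    (contMDiffOn_symm_of_mem_maximalAtlas
      (IsManifold.subset_maximalAtlas h1)).contMDiffAt (e1.open_target.mem_nhds hy)
  have a2 : ContMDiffAt (𝓡 d) (𝓡 d) ∞ e2 (e1.symm y) :=
    (contMDiffOn_of_mem_maximalAtlas
      (IsManifold.subset_maximalAtlas h2)).contMDiffAt (e2.open_source.mem_nhds hy2)
  exact a2.comp y a1

theorem PA_pi_circle {a : Fin m → ℝ} {t : Fin m → ℝ} (ht : ∀ i, (t i : S1) ≠ a i) :
    ∃ n : Fin m → ℤ, (fun r : Fin m → ℝ => fun i => cch (a i) (r i : S1)) =ᶠ[𝓝 t]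
      fun r => r + fun i => (n i : ℝ) := by
  choose n hn using fun i => cch_near (ht i)
  refine ⟨n, ?_⟩
  have h : ∀ i, ∀ᶠ r : Fin m → ℝ in 𝓝 t, cch (a i) (r i : S1) = r i + n i := fun i =>
    (continuous_apply i).continuousAt.eventually (hn i)
  filter_upwards [Filter.eventually_all.2 h] with r hr
  funext i
  exact hr i

instance : IsManifold (𝓡 (d + m)) ∞ (PTor M m) := by
  refine isManifold_of_contDiffOn (𝓡 (d + m)) ∞ (PTor M m) ?_
  rintro e e' ⟨e1, he1, a1, rfl⟩ ⟨e2, he2, a2, rfl⟩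
  intro y hy
  have hy1 : y ∈ ((pch e1 a1).symm.trans (pch e2 a2)).source := by
    simpa using hy
  have hy2 : jp1 d m y ∈ e1.target ∧ ∀ i, jp2 d m y i ∈ Ioo (a1 i) (a1 i + 1) :=
    (mem_pch_target e1 a1 y).1 hy1.1
  have hy3 : e1.symm (jp1 d m y) ∈ e2.source ∧ ∀ i, (jp2 d m y i : S1) ≠ a2 i :=
    (mem_pch_source e2 a2 _).1 hy1.2
  have h1 : ContDiffAt ℝ ∞ (fun b => pch e2 a2 ((pch e1 a1).symm b)) y := by
    show ContDiffAt ℝ ∞ (fun b => jn d m (e2 (e1.symm (jp1 d m b)),
      fun i => cch (a2 i) (jp2 d m b i : S1))) y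
    have c1 : ContDiffAt ℝ ∞ (fun b => e2 (e1.symm (jp1 d m b))) y :=
      (PA_trans he1 he2 hy2.1 hy3.1).comp y (jp1 d m).contDiff.contDiffAt
    obtain ⟨n, hn⟩ := PA_pi_circle hy3.2
    have c2 : ContDiffAt ℝ ∞ (fun r : Fin m → ℝ => fun i => cch (a2 i) (r i : S1))
        (jp2 d m y) :=
      (contDiffAt_id.add contDiffAt_const).congr_of_eventuallyEq hn
    exact (jn d m).contDiff.contDiffAt.comp y
      (c1.prodMk (c2.comp y (jp2 d m).contDiff.contDiffAt))
  exact h1.contDiffWithinAt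

end prod

/-- The product of a closed manifold with the `m`-dimensional torus. -/
noncomputable def prodTorus {d : ℕ} (M : ClosedManifold d) (m : ℕ) : ClosedManifold (d + m) where
  carrier := PTor M.carrier m

end H31R
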