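import Pool.Agent.Lib.H31R.PA

/-!
# H31R, part P: smooth maps into and out of the product with a torus
-/

open scoped Manifold ContDiff Topology
open Set

namespace H31R

section maps

variable {d m : ℕ} {M : Type} [TopologicalSpace M] [ChartedSpace (EE d) M]
variable {E : Type*} [NormedAddCommGroup E] [NormedSpace ℝ E] {H : Type*} [TopologicalSpace H]
  {J : ModelWithCorners ℝ E H} {N : Type*} [TopologicalSpace N] [ChartedSpace H N]

theorem PB_chart_apply (q r : PTor M m) : chartAt (EE (d + m)) q r =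
    jn d m (chartAt (EE d) q.1 r.1, fun i => cch (crep (q.2 i) - 1 / 2) (r.2 i)) := rfl

theorem PB_continuous_coe : Continuous fun a : Fin m → ℝ => (fun i => (a i : S1) : Fin m → S1) :=
  continuous_pi fun i => (AddCircle.continuous_mk' (1 : ℝ)).comp (continuous_apply i)

theorem PB_cont {f : N → M} {a : N → Fin m → ℝ} {p : N} (h1 : ContinuousAt f p)
    (h2 : ContinuousAt a p) :
    ContinuousAt (fun p => pmk (f p) (a p)) p :=
  (h1.prodMk (PB_continuous_coe.continuousAt.comp h2) :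
    ContinuousAt (fun p => ((f p, fun i => (a p i : S1)) : M × (Fin m → S1))) p)

/-- the representative of the map in the charts -/
theorem PB_rep {f : N → M} {a : N → Fin m → ℝ} {p : N} (h2 : ContinuousAt a p) :
    ∃ n : Fin m → ℤ, ∀ᶠ y in 𝓝 p,
      chartAt (EE (d + m)) (pmk (f p) (a p))
        (pmk (f y) (a y)) =
      jn d m (chartAt (EE d) (f p) (f y), a y + fun i => (n i : ℝ)) := by
  obtain ⟨n, hn⟩ := PA_pi_circle (a := fun i => crep (a p i : S1) - 1 / 2) (t := a p)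
    fun i => ne_crep _
  refine ⟨n, ?_⟩
  filter_upwards [h2.eventually hn] with y hy
  rw [PB_chart_apply]
  show jn d m (chartAt (EE d) (f p) (f y),
    fun i => cch (crep (a p i : S1) - 1 / 2) (a y i : S1)) = _
  rw [hy]

/-- Smoothness of maps into the product. -/
theorem contMDiffAt_pt {n : WithTop ℕ∞} {f : N → M} {a : N → Fin m → ℝ} {p : N}
    (h1 : ContMDiffAt J (𝓡 d) n f p) (h2 : ContMDiffAt J 𝓘(ℝ, Fin m → ℝ) n a p) :
    ContMDiffAt J (𝓡 (d + m)) n (fun p => (pmk (f p) (a p))) p := by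
  obtain ⟨c1, d1⟩ := contMDiffAt_iff.1 h1
  obtain ⟨c2, d2⟩ := contMDiffAt_iff.1 h2
  rw [contMDiffAt_iff]
  refine ⟨PB_cont c1 c2, ?_⟩
  obtain ⟨k, hk⟩ := PB_rep (d := d) (f := f) c2
  have hs : Filter.Tendsto (extChartAt J p).symm (𝓝[range J] (extChartAt J p p)) (𝓝 p) := by
    have := (continuousAt_extChartAt_symm p (I := J))
    have h3 := this.tendsto
    rw [extChartAt_to_inv] at h3
    exact h3.mono_left nhdsWithin_le_nhds
  have h4 : ContDiffWithinAt ℝ n (fun y => jn d m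
      ((extChartAt (𝓡 d) (f p) ∘ f ∘ (extChartAt J p).symm) y,
      (extChartAt 𝓘(ℝ, Fin m → ℝ) (a p) ∘ a ∘ (extChartAt J p).symm) y +
        fun i => (k i : ℝ))) (range J) (extChartAt J p p) :=
    (jn d m).contDiff.contDiffAt.comp_contDiffWithinAt _ (d1.prodMk (d2.add contDiffWithinAt_const))
  refine h4.congr_of_eventuallyEq (hs.eventually hk) ?_
  have h5 := hk.self_of_nhds
  show chartAt (EE (d + m)) (pmk (f p) (a p)) (pmk (f ((extChartAt J p).symm (extChartAt J p p)))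
      (a ((extChartAt J p).symm (extChartAt J p p)))) = _
  rw [extChartAt_to_inv, h5]
  show _ = jn d m (chartAt (EE d) (f p) (f ((extChartAt J p).symm (extChartAt J p p))),
    a ((extChartAt J p).symm (extChartAt J p p)) + fun i => (k i : ℝ))
  rw [extChartAt_to_inv]

theorem mfderiv_pt {f : N → M} {a : N → Fin m → ℝ} {p : N}
    (h1 : MDifferentiableAt J (𝓡 d) f p) (h2 : MDifferentiableAt J 𝓘(ℝ, Fin m → ℝ) a p) :
    MDifferentiableAt J (𝓡 (d + m)) (fun p => (pmk (f p) (a p) : PTor M m)) p ∧ ∀ u : E,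
      (mfderiv J (𝓡 (d + m)) (fun p => (pmk (f p) (a p) : PTor M m)) p : E →L[ℝ] EE (d + m)) u =
        jn d m ((mfderiv J (𝓡 d) f p : E →L[ℝ] EE d) u,
          (mfderiv J 𝓘(ℝ, Fin m → ℝ) a p : E →L[ℝ] (Fin m → ℝ)) u) := by
  have c1 := h1.continuousAt
  have c2 := h2.continuousAt
  obtain ⟨k, hk⟩ := PB_rep (d := d) (f := f) c2
  have hs : Filter.Tendsto (extChartAt J p).symm (𝓝[range J] (extChartAt J p p)) (𝓝 p) := by
    have := (continuousAt_extChartAt_symm p (I := J))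
    have h3 := this.tendsto
    rw [extChartAt_to_inv] at h3
    exact h3.mono_left nhdsWithin_le_nhds
  have e1 : HasFDerivWithinAt (writtenInExtChartAt J (𝓡 d) p f)
      (mfderiv J (𝓡 d) f p : E →L[ℝ] EE d) (range J) (extChartAt J p p) := h1.hasMFDerivAt.2
  have e2 : HasFDerivWithinAt (writtenInExtChartAt J 𝓘(ℝ, Fin m → ℝ) p a)
      (mfderiv J 𝓘(ℝ, Fin m → ℝ) a p : E →L[ℝ] (Fin m → ℝ)) (range J) (extChartAt J p p) :=
    h2.hasMFDerivAt.2
  have e3 : HasFDerivWithinAt (fun y => jn d m (writtenInExtChartAt J (𝓡 d) p f y,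
      writtenInExtChartAt J 𝓘(ℝ, Fin m → ℝ) p a y + fun i => (k i : ℝ)))
      ((jn d m : (EE d × (Fin m → ℝ)) →L[ℝ] EE (d + m)).comp
        ((mfderiv J (𝓡 d) f p : E →L[ℝ] EE d).prod
          (mfderiv J 𝓘(ℝ, Fin m → ℝ) a p : E →L[ℝ] (Fin m → ℝ)))) (range J)
      (extChartAt J p p) :=
    (jn d m : (EE d × (Fin m → ℝ)) →L[ℝ] EE (d + m)).hasFDerivAt.comp_hasFDerivWithinAt _
      (e1.prodMk (e2.add_const _))
  have h5 := hk.self_of_nhds
  have e4 : HasFDerivWithinAt (writtenInExtChartAt J (𝓡 (d + m)) p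
      (fun p => (pmk (f p) (a p) : PTor M m)))
      ((jn d m : (EE d × (Fin m → ℝ)) →L[ℝ] EE (d + m)).comp
        ((mfderiv J (𝓡 d) f p : E →L[ℝ] EE d).prod
          (mfderiv J 𝓘(ℝ, Fin m → ℝ) a p : E →L[ℝ] (Fin m → ℝ)))) (range J)
      (extChartAt J p p) := by
    refine e3.congr_of_eventuallyEq (hs.eventually hk) ?_
    show chartAt (EE (d + m)) (pmk (f p) (a p)) (pmk (f ((extChartAt J p).symm (extChartAt J p p)))
      (a ((extChartAt J p).symm (extChartAt J p p)))) = _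
    rw [extChartAt_to_inv, h5]
    show _ = jn d m (chartAt (EE d) (f p) (f ((extChartAt J p).symm (extChartAt J p p))),
      a ((extChartAt J p).symm (extChartAt J p p)) + fun i => (k i : ℝ))
    rw [extChartAt_to_inv]
  have e5 : HasMFDerivAt J (𝓡 (d + m)) (fun p => (pmk (f p) (a p) : PTor M m)) p
      ((jn d m : (EE d × (Fin m → ℝ)) →L[ℝ] EE (d + m)).comp
        ((mfderiv J (𝓡 d) f p : E →L[ℝ] EE d).prod
          (mfderiv J 𝓘(ℝ, Fin m → ℝ) a p : E →L[ℝ] (Fin m → ℝ)))) :=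
    ⟨PB_cont c1 c2, e4⟩
  refine ⟨e5.mdifferentiableAt, fun u => ?_⟩
  rw [e5.mfderiv]
  rfl

/-! ### the projection to `M` -/

theorem contMDiff_pr1 : ContMDiff (𝓡 (d + m)) (𝓡 d) ∞ (fun q : PTor M m => q.1) := by
  intro q
  rw [contMDiffAt_iff]
  refine ⟨(continuous_fst : Continuous (fun q : M × (Fin m → S1) => q.1)).continuousAt, ?_⟩
  have h : (fun y : EE (d + m) => chartAt (EE d) q.1 (((chartAt (EE (d + m)) q).symm y).1)) =ᶠ[
      𝓝 (chartAt (EE (d + m)) q q)] fun y => jp1 d m y := by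
    have ht : chartAt (EE (d + m)) q q ∈ (chartAt (EE (d + m)) q).target :=
      mem_chart_target _ _
    filter_upwards [(chartAt (EE (d + m)) q).open_target.mem_nhds ht] with y hy
    exact (chartAt (EE d) q.1).right_inv ((mem_pch_target _ _ y).1 hy).1
  have h1 : ContDiffAt ℝ ∞ (fun y : EE (d + m) =>
      chartAt (EE d) q.1 (((chartAt (EE (d + m)) q).symm y).1)) (chartAt (EE (d + m)) q q) :=
    (jp1 d m).contDiff.contDiffAt.congr_of_eventuallyEq h
  exact h1.contDiffWithinAt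

theorem mfderiv_pr1 (q : PTor M m) (u : EE (d + m)) :
    (mfderiv (𝓡 (d + m)) (𝓡 d) (fun q : PTor M m => q.1) q : EE (d + m) →L[ℝ] EE d) u =
      jp1 d m u := by
  have hd : MDifferentiableAt (𝓡 (d + m)) (𝓡 d) (fun q : PTor M m => q.1) q :=
    (contMDiff_pr1 q).mdifferentiableAt (by simp)
  rw [hd.mfderiv]
  have h : (fun y : EE (d + m) => chartAt (EE d) q.1 (((chartAt (EE (d + m)) q).symm y).1)) =ᶠ[
      𝓝 (chartAt (EE (d + m)) q q)] fun y => jp1 d m y := by
    have ht : chartAt (EE (d + m)) q q ∈ (chartAt (EE (d + m)) q).target :=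
      mem_chart_target _ _
    filter_upwards [(chartAt (EE (d + m)) q).open_target.mem_nhds ht] with y hy
    exact (chartAt (EE d) q.1).right_inv ((mem_pch_target _ _ y).1 hy).1
  have h2 : range (𝓡 (d + m) : EE (d + m) → EE (d + m)) = univ := by simp
  rw [h2, fderivWithin_univ]
  have h3 : fderiv ℝ (fun y : EE (d + m) =>
      chartAt (EE d) q.1 (((chartAt (EE (d + m)) q).symm y).1)) (chartAt (EE (d + m)) q q) =
      jp1 d m := by
    rw [h.fderiv_eq]
    exact (jp1 d m).fderiv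
  exact congrArg (fun L : EE (d + m) →L[ℝ] EE d => L u) h3

/-! ### the charts -/

variable [IsManifold (𝓡 d) ∞ M]

theorem PTor_chart_symm (q : PTor M m) (y : EE (d + m)) : (chartAt (EE (d + m)) q).symm y =
    pmk ((chartAt (EE d) q.1).symm (jp1 d m y)) (jp2 d m y) := rfl

theorem mem_PTor_chart_target (q : PTor M m) (y : EE (d + m)) :
    y ∈ (chartAt (EE (d + m)) q).target ↔ jp1 d m y ∈ (chartAt (EE d) q.1).target ∧
      ∀ i, jp2 d m y i ∈ Ioo (crep (q.2 i) - 1 / 2) (crep (q.2 i) + 1 / 2) := by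
  have h := mem_pch_target (chartAt (EE d) q.1) (fun i => crep (q.2 i) - 1 / 2) y
  have e : ∀ i, crep (q.2 i) - 1 / 2 + 1 = crep (q.2 i) + 1 / 2 := fun i => by ring
  simp only [e] at h
  exact h

/-- derivative of the inverse of a chart of the product -/
theorem mfderiv_PTor_chart_symm (q : PTor M m) {y : EE (d + m)}
    (hy : y ∈ (chartAt (EE (d + m)) q).target) (u : EE (d + m)) :
    (mfderiv (𝓡 (d + m)) (𝓡 (d + m)) (chartAt (EE (d + m)) q).symm y :
      EE (d + m) →L[ℝ] EE (d + m)) u =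
      jn d m ((mfderiv (𝓡 d) (𝓡 d) (chartAt (EE d) q.1).symm (jp1 d m y) : EE d →L[ℝ] EE d)
        (jp1 d m u), jp2 d m u) := by
  have hy1 := ((mem_PTor_chart_target q y).1 hy).1
  have hc : MDifferentiableAt (𝓡 d) (𝓡 d) (chartAt (EE d) q.1).symm (jp1 d m y) :=
    mdifferentiableAt_atlas_symm (chart_mem_atlas _ _) hy1
  have hj1 : MDifferentiableAt (𝓡 (d + m)) (𝓡 d) (jp1 d m) y :=
    (jp1 d m).differentiableAt.mdifferentiableAt
  have hj2 : MDifferentiableAt (𝓡 (d + m)) 𝓘(ℝ, Fin m → ℝ) (jp2 d m) y :=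
    (jp2 d m).differentiableAt.mdifferentiableAt
  have h := (mfderiv_pt (m := m) (hc.comp y hj1) hj2).2 u
  have e1 : (fun y : EE (d + m) => (pmk (((chartAt (EE d) q.1).symm ∘ jp1 d m) y)
      (jp2 d m y) : PTor M m)) = (chartAt (EE (d + m)) q).symm := rfl
  rw [e1] at h
  have f1 : (mfderiv (𝓡 (d + m)) (𝓡 d) (jp1 d m) y : EE (d + m) →L[ℝ] EE d) = jp1 d m := by
    rw [mfderiv_eq_fderiv]
    exact (jp1 d m).fderiv
  have f2 : (mfderiv (𝓡 (d + m)) 𝓘(ℝ, Fin m → ℝ) (jp2 d m) y :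
      EE (d + m) →L[ℝ] (Fin m → ℝ)) = jp2 d m := by
    rw [mfderiv_eq_fderiv]
    exact (jp2 d m).fderiv
  have f3 : (mfderiv (𝓡 (d + m)) (𝓡 d) ((chartAt (EE d) q.1).symm ∘ jp1 d m) y :
      EE (d + m) →L[ℝ] EE d) =
      (mfderiv (𝓡 d) (𝓡 d) (chartAt (EE d) q.1).symm (jp1 d m y) : EE d →L[ℝ] EE d).comp
        (mfderiv (𝓡 (d + m)) (𝓡 d) (jp1 d m) y : EE (d + m) →L[ℝ] EE d) :=
    mfderiv_comp y hc hj1
  rw [f1] at f3
  refine Eq.trans h ?_
  exact congrArg₂ (fun (A : EE (d + m) →L[ℝ] EE d) (B : EE (d + m) →L[ℝ] (Fin m → ℝ)) =>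
    jn d m (A u, B u)) f3 f2

/-- Local lifts of the second component of a smooth map into the product. -/
theorem exists_lift {n : WithTop ℕ∞} (hn : n ≤ ∞) {F : N → PTor M m} {p : N}
    (hF : ContMDiffAt J (𝓡 (d + m)) n F p) :
    ∃ a : N → Fin m → ℝ, ContMDiffAt J 𝓘(ℝ, Fin m → ℝ) n a p ∧
      ∀ᶠ y in 𝓝 p, ∀ i, ((a y i : ℝ) : S1) = (F y).2 i := by
  refine ⟨fun y => jp2 d m (chartAt (EE (d + m)) (F p) (F y)), ?_, ?_⟩
  · have h1 : ContMDiffAt (𝓡 (d + m)) (𝓡 (d + m)) n (chartAt (EE (d + m)) (F p)) (F p) :=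
      ((contMDiffOn_chart (x := F p) (n := ∞)).contMDiffAt
        ((chartAt (EE (d + m)) (F p)).open_source.mem_nhds (mem_chart_source _ _))).of_le hn
    have h2 : ContMDiffAt J (𝓡 (d + m)) n (fun y => chartAt (EE (d + m)) (F p) (F y)) p :=
      h1.comp p hF
    exact ((jp2 d m).contDiff.contMDiff.contMDiffAt).comp p h2
  · have h3 : ∀ᶠ y in 𝓝 p, F y ∈ (chartAt (EE (d + m)) (F p)).source :=
      hF.continuousAt.eventually
        ((chartAt (EE (d + m)) (F p)).open_source.mem_nhds (mem_chart_source _ _))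
    filter_upwards [h3] with y hy i
    rw [PB_chart_apply, jp2_jn]
    exact coe_cch (((mem_pch_source _ _ _).1 hy).2 i)

/-- Every continuous lift of the second component of a smooth map is smooth. -/
theorem lift_smooth {n : WithTop ℕ∞} (hn : n ≤ ∞) {F : N → PTor M m} {p : N}
    (hF : ContMDiffAt J (𝓡 (d + m)) n F p) {b : N → Fin m → ℝ} (hb : ContinuousAt b p)
    (h : ∀ᶠ y in 𝓝 p, ∀ i, ((b y i : ℝ) : S1) = (F y).2 i) :
    ContMDiffAt J 𝓘(ℝ, Fin m → ℝ) n b p := by
  obtain ⟨a, ha, hae⟩ := exists_lift hn hF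
  have hac := ha.continuousAt
  -- the difference is locally constant
  have hc : ContinuousAt (fun y => b y - a y) p := hb.sub hac
  have hbp := h.self_of_nhds
  have hap := hae.self_of_nhds
  have hcl : ∀ᶠ y in 𝓝 p, ∀ i, |(b y - a y) i - (b p - a p) i| < 1 := by
    rw [Filter.eventually_all]
    intro i
    have h1 : ContinuousAt (fun y => |(b y - a y) i - (b p - a p) i|) p :=
      (((continuous_apply i).continuousAt.comp hc).sub continuousAt_const).abs
    refine h1.eventually_lt_const ?_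
    simp
  have hev : b =ᶠ[𝓝 p] fun y => a y + (b p - a p) := by
    filter_upwards [hcl, h, hae] with y h1 h2 h3
    funext i
    obtain ⟨k, hk⟩ := exists_int_of_coe_eq ((h3 i).trans (h2 i).symm)
    obtain ⟨l, hl⟩ := exists_int_of_coe_eq ((hap i).trans (hbp i).symm)
    have h4 := h1 i
    simp only [Pi.sub_apply] at h4
    rw [hk, hl] at h4
    have h5 : a y i + (k : ℝ) - a y i - (a p i + (l : ℝ) - a p i) = ((k - l : ℤ) : ℝ) := by
      push_cast
      ring
    rw [h5] at h4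
    have h6 : k - l = 0 := by
      rw [abs_lt] at h4
      have h7 : (-1 : ℤ) < k - l := by exact_mod_cast h4.1
      have h8 : k - l < 1 := by exact_mod_cast h4.2
      omega
    have h9 : k = l := by omega
    show b y i = a y i + (b p i - a p i)
    rw [hk, hl, h9]
    ring
  exact (ha.add contMDiffAt_const).congr_of_eventuallyEq hev

end maps

end H31R
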