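import Pool.Agent.Lib.H31R.PB
import Pool.Agent.Lib.H31R.QI

/-!
# H31R, part P: the product metric and its Ricci curvature
-/

open scoped Manifold ContDiff Topology
open Set

namespace H31R

/-! ### block matrices -/

/-- the block matrix `A ⊕ 1` -/
noncomputable def blk {d : ℕ} (m : ℕ) (A : Matrix (Fin d) (Fin d) ℝ) :
    Matrix (Fin (d + m)) (Fin (d + m)) ℝ :=
  Matrix.reindex finSumFinEquiv finSumFinEquiv (Matrix.fromBlocks A 0 0 1)

section blk

variable {d m : ℕ} (A : Matrix (Fin d) (Fin d) ℝ)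

theorem blk_ll (i j : Fin d) : blk m A (Fin.castAdd m i) (Fin.castAdd m j) = A i j := by
  simp [blk, Matrix.reindex_apply, finSumFinEquiv_symm_apply_castAdd]

theorem blk_lr (i : Fin d) (j : Fin m) : blk m A (Fin.castAdd m i) (Fin.natAdd d j) = 0 := by
  simp [blk, Matrix.reindex_apply, finSumFinEquiv_symm_apply_castAdd,
    finSumFinEquiv_symm_apply_natAdd]

theorem blk_rl (i : Fin m) (j : Fin d) : blk m A (Fin.natAdd d i) (Fin.castAdd m j) = 0 := by
  simp [blk, Matrix.reindex_apply, finSumFinEquiv_symm_apply_castAdd,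
    finSumFinEquiv_symm_apply_natAdd]

theorem blk_rr (i j : Fin m) :
    blk m A (Fin.natAdd d i) (Fin.natAdd d j) = if i = j then 1 else 0 := by
  simp [blk, Matrix.reindex_apply, finSumFinEquiv_symm_apply_natAdd, Matrix.one_apply]

theorem blk_det : (blk m A).det = A.det := by
  unfold blk
  rw [Matrix.det_reindex_self, Matrix.det_fromBlocks_zero₂₁, Matrix.det_one, mul_one]

theorem blk_inv (hA : A.det ≠ 0) : (blk m A)⁻¹ = blk m A⁻¹ := by
  apply Matrix.inv_eq_right_inv
  unfold blk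
  rw [Matrix.reindex_apply, Matrix.reindex_apply, Matrix.submatrix_mul_equiv,
    Matrix.fromBlocks_multiply, Matrix.mul_nonsing_inv _ (isUnit_iff_ne_zero.2 hA)]
  simp

end blk

/-! ### derivatives of functions of the first part -/

section pd

variable {d m : ℕ}

theorem PC_diff_iff (f : EE d → ℝ) (y : EE (d + m)) :
    DifferentiableAt ℝ (fun z => f (jp1 d m z)) y ↔ DifferentiableAt ℝ f (jp1 d m y) := by
  constructor
  · intro h
    have e : f = fun x => (fun z => f (jp1 d m z)) (jn d m (x, jp2 d m y)) := by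
      funext x
      simp
    rw [e]
    have h1 : DifferentiableAt ℝ (fun x : EE d => jn d m (x, jp2 d m y)) (jp1 d m y) :=
      (jn d m).differentiableAt.comp _ (differentiableAt_id.prodMk (differentiableAt_const _))
    refine DifferentiableAt.comp (g := fun z => f (jp1 d m z)) (jp1 d m y) ?_ h1
    rw [jn_jp]
    exact h
  · intro h
    exact h.comp y (jp1 d m).differentiableAt

theorem PC_fderiv (f : EE d → ℝ) (y u : EE (d + m)) :
    fderiv ℝ (fun z => f (jp1 d m z)) y u = fderiv ℝ f (jp1 d m y) (jp1 d m u) := by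
  by_cases h : DifferentiableAt ℝ f (jp1 d m y)
  · have h1 : HasFDerivAt (fun z => f (jp1 d m z))
        ((fderiv ℝ f (jp1 d m y)).comp (jp1 d m)) y :=
      h.hasFDerivAt.comp y (jp1 d m).hasFDerivAt
    rw [h1.fderiv]
    rfl
  · have h1 : ¬ DifferentiableAt ℝ (fun z => f (jp1 d m z)) y := fun h2 =>
      h ((PC_diff_iff f y).1 h2)
    rw [fderiv_zero_of_not_differentiableAt h1, fderiv_zero_of_not_differentiableAt h]
    rfl

theorem PC_pd_left (f : EE d → ℝ) (y : EE (d + m)) (k : Fin d) :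
    pd (Fin.castAdd m k) (fun z => f (jp1 d m z)) y = pd k f (jp1 d m y) := by
  unfold pd
  rw [PC_fderiv, jp1_ebas_left]

theorem PC_pd_right (f : EE d → ℝ) (y : EE (d + m)) (k : Fin m) :
    pd (Fin.natAdd d k) (fun z => f (jp1 d m z)) y = 0 := by
  unfold pd
  rw [PC_fderiv, jp1_ebas_right, map_zero]

theorem PC_pd_const (c : ℝ) (y : EE d) (k : Fin d) : pd k (fun _ => c) y = 0 := by
  unfold pd
  rw [fderiv_fun_const]
  rfl

end pd

/-! ### Ricci curvature of the product -/

section ric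

variable {d m : ℕ} (G : EE d → Matrix (Fin d) (Fin d) ℝ)

/-- the coefficients of the product metric -/
noncomputable def blkf (m : ℕ) (G : EE d → Matrix (Fin d) (Fin d) ℝ) (y : EE (d + m)) :
    Matrix (Fin (d + m)) (Fin (d + m)) ℝ := blk m (G (jp1 d m y))

theorem PC_pdG_left (y : EE (d + m)) (k i j : Fin d) :
    pd (Fin.castAdd m k) (fun z => G (jp1 d m z) i j) y = pd k (fun x => G x i j) (jp1 d m y) :=
  PC_pd_left (fun x => G x i j) y k

theorem PC_pdG_right (y : EE (d + m)) (k : Fin m) (i j : Fin d) :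
    pd (Fin.natAdd d k) (fun z => G (jp1 d m z) i j) y = 0 :=
  PC_pd_right (fun x => G x i j) y k

theorem PC_pd_const' (c : ℝ) (y : EE (d + m)) (k : Fin (d + m)) :
    pd k (fun _ => c) y = 0 := PC_pd_const c y k

theorem blkf_ll (i j : Fin d) : (fun y => blkf m G y (Fin.castAdd m i) (Fin.castAdd m j)) =
    fun y => (fun x => G x i j) (jp1 d m y) := by
  funext y
  exact blk_ll _ _ _

theorem blkf_lr (i : Fin d) (j : Fin m) :
    (fun y => blkf m G y (Fin.castAdd m i) (Fin.natAdd d j)) = fun _ => 0 := by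
  funext y
  exact blk_lr _ _ _

theorem blkf_rl (i : Fin m) (j : Fin d) :
    (fun y => blkf m G y (Fin.natAdd d i) (Fin.castAdd m j)) = fun _ => 0 := by
  funext y
  exact blk_rl _ _ _

theorem blkf_rr (i j : Fin m) :
    (fun y => blkf m G y (Fin.natAdd d i) (Fin.natAdd d j)) = fun _ => if i = j then 1 else 0 := by
  funext y
  exact blk_rr _ _ _

theorem chr_blk_lll {y : EE (d + m)} (hy : (G (jp1 d m y)).det ≠ 0) (k i j : Fin d) :
    chr (blkf m G) (Fin.castAdd m k) (Fin.castAdd m i) (Fin.castAdd m j) y =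
      chr G k i j (jp1 d m y) := by
  unfold chr
  have e : (blkf m G y)⁻¹ = blk m (G (jp1 d m y))⁻¹ := blk_inv _ hy
  rw [e, Fin.sum_univ_add]
  simp only [blk_ll, blk_lr, zero_mul, Finset.sum_const_zero, add_zero, blkf_ll, PC_pdG_left]

theorem chr_blk_r {y : EE (d + m)} (hy : (G (jp1 d m y)).det ≠ 0) (k : Fin m)
    (i j : Fin (d + m)) : chr (blkf m G) (Fin.natAdd d k) i j y = 0 := by
  unfold chr
  have e : (blkf m G y)⁻¹ = blk m (G (jp1 d m y))⁻¹ := blk_inv _ hy
  rw [e, Fin.sum_univ_add]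
  simp only [blk_rl, blk_rr, zero_mul, Finset.sum_const_zero, zero_add, ite_mul, one_mul,
    Finset.sum_ite_eq, Finset.mem_univ, if_true]
  refine Fin.addCases (fun i => ?_) (fun i => ?_) i <;>
    refine Fin.addCases (fun j => ?_) (fun j => ?_) j <;>
    simp only [blkf_ll, blkf_lr, blkf_rl, blkf_rr, PC_pd_const, PC_pdG_right] <;> ring

theorem chr_blk_lrx {y : EE (d + m)} (hy : (G (jp1 d m y)).det ≠ 0) (k : Fin d) (i : Fin m)
    (j : Fin (d + m)) : chr (blkf m G) (Fin.castAdd m k) (Fin.natAdd d i) j y = 0 := by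
  unfold chr
  have e : (blkf m G y)⁻¹ = blk m (G (jp1 d m y))⁻¹ := blk_inv _ hy
  rw [e, Fin.sum_univ_add]
  refine Fin.addCases (fun j => ?_) (fun j => ?_) j <;>
    simp only [blk_ll, blk_lr, zero_mul, Finset.sum_const_zero, add_zero, blkf_ll, blkf_lr,
      blkf_rl, blkf_rr, PC_pd_const, PC_pdG_right, add_zero, sub_self, mul_zero,
      Finset.sum_const_zero]

theorem chr_blk_lxr {y : EE (d + m)} (hy : (G (jp1 d m y)).det ≠ 0) (k : Fin d)
    (i : Fin (d + m)) (j : Fin m) :
    chr (blkf m G) (Fin.castAdd m k) i (Fin.natAdd d j) y = 0 := by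
  unfold chr
  have e : (blkf m G y)⁻¹ = blk m (G (jp1 d m y))⁻¹ := blk_inv _ hy
  rw [e, Fin.sum_univ_add]
  refine Fin.addCases (fun i => ?_) (fun i => ?_) i <;>
    simp only [blk_ll, blk_lr, zero_mul, Finset.sum_const_zero, add_zero, blkf_ll, blkf_lr,
      blkf_rl, blkf_rr, PC_pd_const, PC_pdG_right, add_zero, sub_self, mul_zero,
      Finset.sum_const_zero]

section values

variable {G} {y : EE (d + m)} (hG : ∀ᶠ x in 𝓝 (jp1 d m y), (G x).det ≠ 0)

include hG

theorem PC_ev : ∀ᶠ z in 𝓝 y, (G (jp1 d m z)).det ≠ 0 :=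
  (jp1 d m).continuous.continuousAt.eventually hG

theorem PC_p1 (a : Fin (d + m)) (k i j : Fin d) :
    pd a (chr (blkf m G) (Fin.castAdd m k) (Fin.castAdd m i) (Fin.castAdd m j)) y =
      pd a (fun z => chr G k i j (jp1 d m z)) y :=
  QI_pd_congr ((PC_ev hG).mono fun _ hz => chr_blk_lll G hz k i j) a

theorem PC_p2 (a : Fin (d + m)) (k : Fin m) (i j : Fin (d + m)) :
    pd a (chr (blkf m G) (Fin.natAdd d k) i j) y = 0 :=
  (QI_pd_congr (f' := fun _ => 0) ((PC_ev hG).mono fun _ hz => chr_blk_r G hz k i j) a).trans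
    (PC_pd_const _ _ _)

theorem PC_p3 (a : Fin (d + m)) (k : Fin d) (i : Fin m) (j : Fin (d + m)) :
    pd a (chr (blkf m G) (Fin.castAdd m k) (Fin.natAdd d i) j) y = 0 :=
  (QI_pd_congr (f' := fun _ => 0) ((PC_ev hG).mono fun _ hz => chr_blk_lrx G hz k i j) a).trans
    (PC_pd_const _ _ _)

theorem PC_p4 (a : Fin (d + m)) (k : Fin d) (i : Fin (d + m)) (j : Fin m) :
    pd a (chr (blkf m G) (Fin.castAdd m k) i (Fin.natAdd d j)) y = 0 :=
  (QI_pd_congr (f' := fun _ => 0) ((PC_ev hG).mono fun _ hz => chr_blk_lxr G hz k i j) a).trans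
    (PC_pd_const _ _ _)

theorem ric_blk_ll (i j : Fin d) :
    ric (blkf m G) (Fin.castAdd m i) (Fin.castAdd m j) y = ric G i j (jp1 d m y) := by
  have hy : (G (jp1 d m y)).det ≠ 0 := hG.self_of_nhds
  unfold ric
  rw [Fin.sum_univ_add]
  simp only [Fin.sum_univ_add, PC_p1 hG, PC_p2 hG, PC_pd_left, chr_blk_r G hy,
    chr_blk_lll G hy, chr_blk_lrx G hy, mul_zero, zero_mul, sub_self,
    Finset.sum_const_zero, add_zero]

theorem ric_blk_r (i : Fin m) (j : Fin (d + m)) :
    ric (blkf m G) (Fin.natAdd d i) j y = 0 := by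
  have hy : (G (jp1 d m y)).det ≠ 0 := hG.self_of_nhds
  unfold ric
  rw [Fin.sum_univ_add]
  simp only [Fin.sum_univ_add, PC_p3 hG, PC_p2 hG, chr_blk_r G hy,
    chr_blk_lrx G hy, mul_zero, sub_self,
    Finset.sum_const_zero, add_zero]

theorem ric_blk_lr (i : Fin d) (j : Fin m) :
    ric (blkf m G) (Fin.castAdd m i) (Fin.natAdd d j) y = 0 := by
  have hy : (G (jp1 d m y)).det ≠ 0 := hG.self_of_nhds
  unfold ric
  rw [Fin.sum_univ_add]
  simp only [Fin.sum_univ_add, PC_p1 hG, PC_p2 hG, PC_p4 hG, PC_pd_right, chr_blk_r G hy,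
    chr_blk_lrx G hy, chr_blk_lxr G hy, mul_zero, zero_mul, sub_self,
    Finset.sum_const_zero, add_zero]

theorem RB_blk {C : ℝ} (hC : 0 ≤ C) (h : RB G (jp1 d m y) C) : RB (blkf m G) y C := by
  intro v
  have h1 := h (fun i => v (Fin.castAdd m i))
  have e1 : ∑ i, ∑ j, ric (blkf m G) i j y * v i * v j =
      ∑ i, ∑ j, ric G i j (jp1 d m y) * v (Fin.castAdd m i) * v (Fin.castAdd m j) := by
    rw [Fin.sum_univ_add]
    simp only [Fin.sum_univ_add, ric_blk_ll hG, ric_blk_r hG, ric_blk_lr hG, zero_mul,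
      Finset.sum_const_zero, add_zero]
  have e2 : ∑ i, ∑ j, blkf m G y i j * v i * v j =
      ∑ i, ∑ j, G (jp1 d m y) i j * v (Fin.castAdd m i) * v (Fin.castAdd m j) +
        ∑ i, v (Fin.natAdd d i) * v (Fin.natAdd d i) := by
    unfold blkf
    rw [Fin.sum_univ_add]
    simp only [Fin.sum_univ_add, blk_ll, blk_lr, blk_rl, blk_rr, zero_mul,
      Finset.sum_const_zero, add_zero, zero_add, ite_mul, one_mul, Finset.sum_ite_eq,
      Finset.mem_univ, if_true]
  rw [e1, e2]
  refine h1.trans (mul_le_mul_of_nonneg_left ?_ hC)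
  exact le_add_of_nonneg_right (Finset.sum_nonneg fun i _ => mul_self_nonneg _)

end values

end ric

/-! ### the product metric -/

section metric

variable {d m : ℕ}

/-- the bilinear form `B ⊕ standard` -/
noncomputable def pbil (m : ℕ) (B : EE d →ₗ[ℝ] EE d →ₗ[ℝ] ℝ) :
    EE (d + m) →ₗ[ℝ] EE (d + m) →ₗ[ℝ] ℝ :=
  LinearMap.mk₂ ℝ (fun u v : EE (d + m) => B (jp1 d m u) (jp1 d m v) +
      ∑ j, jp2 d m u j * jp2 d m v j)
    (fun u u' v => by
      simp only [map_add, LinearMap.add_apply, Pi.add_apply, add_mul, Finset.sum_add_distrib]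
      ring)
    (fun c u v => by
      simp only [map_smul, LinearMap.smul_apply, smul_eq_mul, Pi.smul_apply, mul_assoc,
        Finset.mul_sum, mul_add])
    (fun u v v' => by
      simp only [map_add, Pi.add_apply, mul_add, Finset.sum_add_distrib]
      ring)
    (fun c u v => by
      simp only [map_smul, smul_eq_mul, Pi.smul_apply, Finset.mul_sum, mul_add]
      congr 1
      refine Finset.sum_congr rfl fun j _ => ?_
      ring)

theorem pbil_apply (B : EE d →ₗ[ℝ] EE d →ₗ[ℝ] ℝ) (u v : EE (d + m)) :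
    pbil m B u v = B (jp1 d m u) (jp1 d m v) + ∑ j, jp2 d m u j * jp2 d m v j := rfl

theorem pbil_symm {B : EE d →ₗ[ℝ] EE d →ₗ[ℝ] ℝ} (hB : ∀ u v, B u v = B v u)
    (u v : EE (d + m)) : pbil m B u v = pbil m B v u := by
  rw [pbil_apply, pbil_apply, hB]
  congr 1
  exact Finset.sum_congr rfl fun j _ => mul_comm _ _

theorem pbil_pos {B : EE d →ₗ[ℝ] EE d →ₗ[ℝ] ℝ} (hB : ∀ u, u ≠ 0 → 0 < B u u)
    (u : EE (d + m)) (hu : u ≠ 0) : 0 < pbil m B u u := by
  rw [pbil_apply]
  have h2 : 0 ≤ ∑ j, jp2 d m u j * jp2 d m u j := Finset.sum_nonneg fun j _ => mul_self_nonneg _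
  by_cases h1 : jp1 d m u = 0
  · rw [h1, map_zero, zero_add]
    rcases h2.eq_or_lt with h3 | h3
    · exfalso
      apply hu
      refine jn_ext (by rw [h1, map_zero]) ?_
      have h4 := (Finset.sum_eq_zero_iff_of_nonneg fun j _ => mul_self_nonneg _).1 h3.symm
      funext j
      rw [map_zero]
      exact mul_self_eq_zero.1 (h4 j (Finset.mem_univ j))
    · exact h3
  · exact add_pos_of_pos_of_nonneg (hB _ h1) h2

/-- the coefficients of the pull-back of `pbil` by a block map -/
theorem pbil_blk (B : EE d →ₗ[ℝ] EE d →ₗ[ℝ] ℝ) (A : EE d →L[ℝ] EE d)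
    (A' : EE (d + m) →L[ℝ] EE (d + m)) (hA : ∀ u, A' u = jn d m (A (jp1 d m u), jp2 d m u)) :
    (fun i j => pbil m B (A' (ebas i)) (A' (ebas j)) : Matrix (Fin (d + m)) (Fin (d + m)) ℝ) =
      blk m (fun i j => B (A (ebas i)) (A (ebas j))) := by
  ext i j
  show pbil m B (A' (ebas i)) (A' (ebas j)) = _
  rw [hA, hA, pbil_apply]
  simp only [jp1_jn, jp2_jn]
  refine Fin.addCases (fun i => ?_) (fun i => ?_) i <;>
    refine Fin.addCases (fun j => ?_) (fun j => ?_) j
  · rw [blk_ll, jp1_ebas_left, jp1_ebas_left, jp2_ebas_left, jp2_ebas_left]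
    simp only [Pi.zero_apply, mul_zero, Finset.sum_const_zero, add_zero]
  · rw [blk_lr, jp1_ebas_left, jp1_ebas_right, jp2_ebas_left, jp2_ebas_right]
    simp only [Pi.zero_apply, zero_mul, Finset.sum_const_zero, add_zero, map_zero]
  · rw [blk_rl, jp1_ebas_left, jp1_ebas_right, jp2_ebas_left, jp2_ebas_right]
    simp only [Pi.zero_apply, mul_zero, Finset.sum_const_zero, add_zero, map_zero,
      LinearMap.zero_apply]
  · rw [blk_rr, jp1_ebas_right, jp1_ebas_right, jp2_ebas_right, jp2_ebas_right]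
    simp only [map_zero, zero_add, Pi.single_apply, mul_ite, mul_one, mul_zero,
      Finset.sum_ite_eq', Finset.mem_univ, if_true]
    by_cases h : i = j
    · rw [if_pos h, if_pos h.symm]
    · rw [if_neg h, if_neg (Ne.symm h)]

variable {M : Type} [TopologicalSpace M] [ChartedSpace (EE d) M]

/-- the scalar products of the product metric -/
noncomputable def pinner
    (inner : ∀ q : M, TangentSpace (𝓡 d) q →ₗ[ℝ] TangentSpace (𝓡 d) q →ₗ[ℝ] ℝ) (q : PTor M m) :
    TangentSpace (𝓡 (d + m)) q →ₗ[ℝ] TangentSpace (𝓡 (d + m)) q →ₗ[ℝ] ℝ :=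
  pbil m (inner q.1)

variable [IsManifold (𝓡 d) ∞ M]

theorem coeff_pinner
    (inner : ∀ q : M, TangentSpace (𝓡 d) q →ₗ[ℝ] TangentSpace (𝓡 d) q →ₗ[ℝ] ℝ) (q : PTor M m)
    {y : EE (d + m)} (hy : y ∈ (chartAt (EE (d + m)) q).target) :
    coeff (pinner inner) q y = blk m (coeff inner q.1 (jp1 d m y)) :=
  pbil_blk (inner ((chartAt (EE d) q.1).symm (jp1 d m y)))
    (mfderiv (𝓡 d) (𝓡 d) (chartAt (EE d) q.1).symm (jp1 d m y))
    (mfderiv (𝓡 (d + m)) (𝓡 (d + m)) (chartAt (EE (d + m)) q).symm y)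
    (mfderiv_PTor_chart_symm q hy)

/-- The product of a Riemannian metric with the flat metric of the torus. -/
noncomputable def pmet (m : ℕ) (g : RMetric d M) : RMetric (d + m) (PTor M m) where
  inner := pinner g.inner
  symm q u v := pbil_symm (fun u v => g.symm q.1 u v) u v
  pos q u hu := pbil_pos (fun u hu => g.pos q.1 u hu) u hu
  smooth q i j := by
    have h1 : ContDiffOn ℝ ∞ (fun y : EE (d + m) => blk m (coeff g.inner q.1 (jp1 d m y)) i j)
        (chartAt (EE (d + m)) q).target := by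
      refine Fin.addCases (fun i => ?_) (fun i => ?_) i <;>
        refine Fin.addCases (fun j => ?_) (fun j => ?_) j
      · simp only [blk_ll]
        refine (g.smooth q.1 i j).comp (jp1 d m).contDiff.contDiffOn fun y hy => ?_
        exact ((mem_PTor_chart_target q y).1 hy).1
      · simp only [blk_lr]
        exact contDiffOn_const
      · simp only [blk_rl]
        exact contDiffOn_const
      · simp only [blk_rr]
        exact contDiffOn_const
    refine h1.congr fun y hy => ?_
    rw [coeff_pinner g.inner q hy]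

theorem PC_det {B : EE d →ₗ[ℝ] EE d →ₗ[ℝ] ℝ} (hs : ∀ u v, B u v = B v u)
    (hB : ∀ u, u ≠ 0 → 0 < B u u) {A : EE d →L[ℝ] EE d} (hA : Function.Injective A) :
    0 < (Matrix.of fun i j => B (A (ebas i)) (A (ebas j))).det := by
  apply Matrix.PosDef.det_pos
  refine Matrix.PosDef.of_dotProduct_mulVec_pos ?_ fun x hx => ?_
  · ext i j
    simp [Matrix.conjTranspose_apply, hs (A (ebas j))]
  · have hx2 : (∑ i, x i • ebas i : EE d) ≠ 0 := by
      intro h
      apply hx
      funext j
      have := congrArg (fun z : EE d => z j) h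
      simpa [Finset.sum_apply, Pi.single_apply] using this
    have h1 := hB (A (∑ i, x i • ebas i)) fun h => hx2 (hA (by rw [h, map_zero]))
    have h2 : B (A (∑ i, x i • ebas i)) (A (∑ i, x i • ebas i)) =
        ∑ i, ∑ j, x i * (B (A (ebas i)) (A (ebas j)) * x j) := by
      rw [map_sum, map_sum]
      simp only [map_smul, map_sum, LinearMap.sum_apply, LinearMap.smul_apply, smul_eq_mul]
      refine Finset.sum_congr rfl fun i _ => ?_
      rw [Finset.mul_sum]
      refine Finset.sum_congr rfl fun j _ => ?_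
      rw [hs (A (ebas j))]
      ring
    rw [h2] at h1
    simpa [dotProduct, Matrix.mulVec, Finset.mul_sum] using h1

/-- the coefficients of a Riemannian metric have nonzero determinant -/
theorem coeff_det (g : RMetric d M) (q : M) {y : EE d} (hy : y ∈ (chartAt (EE d) q).target) :
    0 < (coeff g.inner q y).det := by
  have hinj : Function.Injective
      (mfderiv (𝓡 d) (𝓡 d) (chartAt (EE d) q).symm y : EE d →L[ℝ] EE d) :=
    (mdifferentiable_chart (I := 𝓡 d) q).symm.mfderiv_injective hy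
  exact PC_det (g.symm _) (g.pos _) hinj

theorem ricBounded_prod (m : ℕ) {g : RMetric d M} {C : ℝ} (hC : 0 ≤ C) (h : RicBounded g C) :
    RicBounded (pmet m g) C := by
  intro q y hy
  have hy1 := ((mem_PTor_chart_target q y).1 hy).1
  have h1 : RB (blkf m (coeff g.inner q.1)) y C := by
    refine RB_blk ?_ hC (h q.1 _ hy1)
    filter_upwards [(chartAt (EE d) q.1).open_target.mem_nhds hy1] with x hx
    exact (coeff_det g q.1 hx).ne'
  refine QI_RB_congr ?_ h1
  filter_upwards [(chartAt (EE (d + m)) q).open_target.mem_nhds hy] with z hz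
  exact (coeff_pinner g.inner q hz).symm

end metric

end H31R
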