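import Pool.Agent.Lib.H31R.Defs

/-!
# H31R, part Q: the quotient manifold `OM / Z^3` (definitions)
-/

open scoped Manifold ContDiff
open Set

namespace H31R

/-- The box `{q ∈ OM : |x_i q - x_i p| < 1/2}`. -/
def Ubox (p : EE 7) : Set (EE 7) :=
  {q | q ∈ OM ∧ |x1 q - x1 p| < 1 / 2 ∧ |x2 q - x2 p| < 1 / 2 ∧ |x3 q - x3 p| < 1 / 2}

/-- `M` with the projection `π` (used only on `OM`) is the quotient of `OM` by the action of `Z^3`; the
charts are the inverses of the restrictions of `π` to boxes. -/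
structure QProps (k : ℕ) (M : ClosedManifold 7) (π : EE 7 → M.carrier) : Prop where
  surj : ∀ m, ∃ p ∈ OM, π p = m
  eq_iff : ∀ p ∈ OM, ∀ q ∈ OM, π p = π q ↔ ∃ n : ℤ × ℤ × ℤ, q = act k n p
  chart : ∀ m : M.carrier, ∃ p ∈ OM, π p = m ∧ chartAt (EE 7) m m = p ∧
    (chartAt (EE 7) m).target = Ubox p ∧ ∀ q ∈ Ubox p, (chartAt (EE 7) m).symm q = π q

/-- Invariant Riemannian metrics on `OM`. -/
structure InvMetric (k : ℕ) (g : EE 7 → EE 7 → EE 7 → ℝ) : Prop where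
  add_left : ∀ p ∈ OM, ∀ u u' v, g p (u + u') v = g p u v + g p u' v
  smul_left : ∀ p ∈ OM, ∀ (c : ℝ) (u v), g p (c • u) v = c * g p u v
  symm : ∀ p ∈ OM, ∀ u v, g p u v = g p v u
  pos : ∀ p ∈ OM, ∀ u, u ≠ 0 → 0 < g p u u
  smooth : ∀ i j, ContDiffOn ℝ ∞ (fun p => mtx g p i j) OM
  inv : ∀ n : ℤ × ℤ × ℤ, ∀ p ∈ OM, ∀ u v,
    g (act k n p) (fderiv ℝ (act k n) p u) (fderiv ℝ (act k n) p v) = g p u v

end H31R
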