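import Pool.Agent.Lib.H31R.Q0

/-!
# H31R, part Q: the action of `Z^3` on `OM`
-/

open scoped Manifold ContDiff
open Set

namespace H31R

/-! ### vector algebra -/

theorem QA_dot_pos {u : V3} (hu : u ≠ 0) : 0 < dot u u := by
  by_contra h
  apply hu
  unfold dot at h
  have a0 : u 0 * u 0 = 0 := by
    nlinarith [mul_self_nonneg (u 0), mul_self_nonneg (u 1), mul_self_nonneg (u 2)]
  have a1 : u 1 * u 1 = 0 := by
    nlinarith [mul_self_nonneg (u 0), mul_self_nonneg (u 1), mul_self_nonneg (u 2)]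
  have a2 : u 2 * u 2 = 0 := by
    nlinarith [mul_self_nonneg (u 0), mul_self_nonneg (u 1), mul_self_nonneg (u 2)]
  ext i
  fin_cases i
  · exact mul_self_eq_zero.1 a0
  · exact mul_self_eq_zero.1 a1
  · exact mul_self_eq_zero.1 a2

theorem QA_nr_pos {u : V3} (hu : u ≠ 0) : 0 < nr u := Real.sqrt_pos.2 (QA_dot_pos hu)

theorem QA_ne_of_dot {u : V3} (hu : dot u u ≠ 0) : u ≠ 0 := by
  rintro rfl
  exact hu (by simp [dot])

theorem QA_dot_smul (c : ℝ) (u : V3) : dot (c • u) (c • u) = c ^ 2 * dot u u := by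
  simp only [dot, Pi.smul_apply, smul_eq_mul]
  ring

theorem QA_nr_smul {c : ℝ} (hc : 0 ≤ c) (u : V3) : nr (c • u) = c * nr u := by
  unfold nr
  rw [QA_dot_smul, Real.sqrt_mul (by positivity), Real.sqrt_sq hc]

theorem QA_nr_sq (u : V3) : nr u ^ 2 = dot u u := by
  unfold nr
  rw [Real.sq_sqrt]
  unfold dot
  nlinarith [mul_self_nonneg (u 0), mul_self_nonneg (u 1), mul_self_nonneg (u 2)]

theorem QA_unit {u : V3} (hu : u ≠ 0) : dot ((nr u)⁻¹ • u) ((nr u)⁻¹ • u) = 1 := by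
  rw [QA_dot_smul, ← QA_nr_sq]
  have := QA_nr_pos hu
  field_simp

theorem QA_rot_dot {w : V3} (hw : dot w w = 1) (φ : ℝ) (v : V3) :
    dot (rot w φ v) (rot w φ v) = dot v v := by
  have hcs := Real.sin_sq_add_cos_sq φ
  have hw' : w 0 * w 0 + w 1 * w 1 + w 2 * w 2 = 1 := hw
  simp only [rot, crs, dot, Pi.add_apply, Pi.smul_apply, smul_eq_mul, Matrix.cons_val_zero,
    Matrix.cons_val_one, Matrix.cons_val]
  linear_combination ((v 0 * v 0 + v 1 * v 1 + v 2 * v 2) * Real.sin φ ^ 2 +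
    (w 0 * v 0 + w 1 * v 1 + w 2 * v 2) ^ 2 * (1 - Real.cos φ) ^ 2) * hw' +
    ((v 0 * v 0 + v 1 * v 1 + v 2 * v 2) - (w 0 * v 0 + w 1 * v 1 + w 2 * v 2) ^ 2) * hcs

theorem QA_rot_add {w : V3} (hw : dot w w = 1) (φ ψ : ℝ) (v : V3) :
    rot w φ (rot w ψ v) = rot w (φ + ψ) v := by
  have hw' : w 0 * w 0 + w 1 * w 1 + w 2 * w 2 = 1 := hw
  ext i
  have key : ∀ i : Fin 3, i = 0 ∨ i = 1 ∨ i = 2 := by decide
  rcases key i with rfl | rfl | rfl
  · simp only [rot, crs, dot, Pi.add_apply, Pi.smul_apply, smul_eq_mul, Matrix.cons_val_zero,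
      Matrix.cons_val_one, Matrix.cons_val, Real.sin_add, Real.cos_add]
    linear_combination (-(Real.sin φ * Real.sin ψ * v 0) +
      (1 - Real.cos φ) * (1 - Real.cos ψ) * (w 0 * v 0 + w 1 * v 1 + w 2 * v 2) * w 0) * hw'
  · simp only [rot, crs, dot, Pi.add_apply, Pi.smul_apply, smul_eq_mul, Matrix.cons_val_zero,
      Matrix.cons_val_one, Matrix.cons_val, Real.sin_add, Real.cos_add]
    linear_combination (-(Real.sin φ * Real.sin ψ * v 1) +
      (1 - Real.cos φ) * (1 - Real.cos ψ) * (w 0 * v 0 + w 1 * v 1 + w 2 * v 2) * w 1) * hw'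
  · simp only [rot, crs, dot, Pi.add_apply, Pi.smul_apply, smul_eq_mul, Matrix.cons_val_zero,
      Matrix.cons_val_one, Matrix.cons_val, Real.sin_add, Real.cos_add]
    linear_combination (-(Real.sin φ * Real.sin ψ * v 2) +
      (1 - Real.cos φ) * (1 - Real.cos ψ) * (w 0 * v 0 + w 1 * v 1 + w 2 * v 2) * w 2) * hw'

theorem QA_rot_smul (w : V3) (φ c : ℝ) (v : V3) : rot w φ (c • v) = c • rot w φ v := by
  ext i
  have key : ∀ i : Fin 3, i = 0 ∨ i = 1 ∨ i = 2 := by decide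
  rcases key i with rfl | rfl | rfl <;>
  · simp only [rot, crs, dot, Pi.add_apply, Pi.smul_apply, smul_eq_mul, Matrix.cons_val_zero,
      Matrix.cons_val_one, Matrix.cons_val]
    ring

theorem QA_rot_zero (w v : V3) : rot w 0 v = v := by
  ext i
  simp [rot]

theorem QA_rot_period (w : V3) (φ : ℝ) (m : ℤ) (v : V3) :
    rot w (φ + m * (2 * Real.pi)) v = rot w φ v := by
  unfold rot
  rw [Real.cos_add_int_mul_two_pi, Real.sin_add_int_mul_two_pi]

/-! ### the parts of a point -/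

theorem QA_yv_mk7 (a : ℝ) (y z : V3) : yv (mk7 a y z) = y := by
  ext i
  fin_cases i <;> rfl

theorem QA_zv_mk7 (a : ℝ) (y z : V3) : zv (mk7 a y z) = z := by
  ext i
  fin_cases i <;> rfl

theorem QA_mk7_zero (a : ℝ) (y z : V3) : (mk7 a y z) 0 = a := rfl

theorem mk7_self (p : EE 7) : mk7 (p 0) (yv p) (zv p) = p := by
  ext i
  fin_cases i <;> rfl

theorem nr_yv_pos {p : EE 7} (hp : p ∈ OM) : 0 < nr (yv p) := QA_nr_pos hp.1

theorem nr_zv_pos {p : EE 7} (hp : p ∈ OM) : 0 < nr (zv p) := QA_nr_pos hp.2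

theorem QA_wv_unit {p : EE 7} (hp : p ∈ OM) : dot (wv p) (wv p) = 1 := QA_unit hp.1

theorem QA_sv_unit {p : EE 7} (hp : p ∈ OM) : dot (sv p) (sv p) = 1 := QA_unit hp.2

theorem yv_act (k : ℕ) (n : ℤ × ℤ × ℤ) (p : EE 7) : yv (act k n p) = Real.exp n.1 • yv p :=
  QA_yv_mk7 _ _ _

theorem zv_act (k : ℕ) (n : ℤ × ℤ × ℤ) (p : EE 7) : zv (act k n p) =
    Real.exp n.2.1 • rot (wv p) (4 * Real.pi * k * n.1 * x2 p) (zv p) := QA_zv_mk7 _ _ _

theorem nr_yv_act (k : ℕ) (n : ℤ × ℤ × ℤ) (p : EE 7) :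
    nr (yv (act k n p)) = Real.exp n.1 * nr (yv p) := by
  rw [yv_act, QA_nr_smul (Real.exp_pos _).le]

theorem nr_zv_act (k : ℕ) (n : ℤ × ℤ × ℤ) {p : EE 7} (hp : p ∈ OM) :
    nr (zv (act k n p)) = Real.exp n.2.1 * nr (zv p) := by
  rw [zv_act, QA_nr_smul (Real.exp_pos _).le]
  congr 1
  unfold nr
  rw [QA_rot_dot (QA_wv_unit hp)]

theorem act_zero (k : ℕ) (p : EE 7) : act k 0 p = p := by
  unfold act
  simp only [Prod.fst_zero, Prod.snd_zero, Int.cast_zero, add_zero, Real.exp_zero, one_smul,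
    mul_zero, zero_mul, QA_rot_zero]
  exact mk7_self p

theorem act_mem (k : ℕ) (n : ℤ × ℤ × ℤ) {p : EE 7} (hp : p ∈ OM) : act k n p ∈ OM := by
  refine ⟨?_, ?_⟩
  · intro h
    have h1 := nr_yv_act k n p
    rw [h] at h1
    have h2 : nr 0 = 0 := by simp [nr, dot]
    rw [h2] at h1
    have := mul_pos (Real.exp_pos (n.1 : ℝ)) (nr_yv_pos hp)
    linarith
  · intro h
    have h1 := nr_zv_act k n hp
    rw [h] at h1
    have h2 : nr 0 = 0 := by simp [nr, dot]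
    rw [h2] at h1
    have := mul_pos (Real.exp_pos (n.2.1 : ℝ)) (nr_zv_pos hp)
    linarith

theorem x1_act (k : ℕ) (n : ℤ × ℤ × ℤ) {p : EE 7} (hp : p ∈ OM) :
    x1 (act k n p) = x1 p + n.1 := by
  unfold x1
  rw [nr_yv_act, Real.log_mul (Real.exp_pos _).ne' (nr_yv_pos hp).ne', Real.log_exp, add_comm]

theorem x2_act (k : ℕ) (n : ℤ × ℤ × ℤ) {p : EE 7} (hp : p ∈ OM) :
    x2 (act k n p) = x2 p + n.2.1 := by
  unfold x2
  rw [nr_zv_act k n hp, Real.log_mul (Real.exp_pos _).ne' (nr_zv_pos hp).ne', Real.log_exp,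
    add_comm]

theorem x3_act (k : ℕ) (n : ℤ × ℤ × ℤ) (p : EE 7) :
    x3 (act k n p) = x3 p + n.2.2 := rfl

theorem wv_act (k : ℕ) (n : ℤ × ℤ × ℤ) (p : EE 7) : wv (act k n p) = wv p := by
  unfold wv
  rw [nr_yv_act, yv_act, smul_smul]
  congr 1
  rw [mul_inv, mul_comm (Real.exp _)⁻¹, mul_assoc, inv_mul_cancel₀ (Real.exp_pos _).ne', mul_one]

theorem act_def (k : ℕ) (n : ℤ × ℤ × ℤ) (p : EE 7) : act k n p =
    mk7 (p 0 + n.2.2) (Real.exp n.1 • yv p)
      (Real.exp n.2.1 • rot (wv p) (4 * Real.pi * k * n.1 * x2 p) (zv p)) := rfl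

theorem act_coord0 (k : ℕ) (n : ℤ × ℤ × ℤ) (p : EE 7) : act k n p 0 = p 0 + n.2.2 := rfl

theorem act_add (k : ℕ) (m n : ℤ × ℤ × ℤ) {p : EE 7} (hp : p ∈ OM) :
    act k (m + n) p = act k m (act k n p) := by
  rw [act_def k m (act k n p), yv_act, zv_act, wv_act, x2_act k n hp, act_coord0,
    act_def k (m + n) p, QA_rot_smul, QA_rot_add (QA_wv_unit hp), smul_smul, smul_smul]
  have h1 : (4 * Real.pi * k * m.1 * (x2 p + n.2.1) + 4 * Real.pi * k * n.1 * x2 p : ℝ) =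
      4 * Real.pi * k * ((m + n).1 : ℤ) * x2 p + ((2 * k * m.1 * n.2.1 : ℤ) : ℝ) *
        (2 * Real.pi) := by
    rw [Prod.fst_add]
    push_cast
    ring
  rw [h1, QA_rot_period]
  have h2 : ∀ (a b : ℝ) (y y' z z' : V3), a = b → y = y' → z = z' → mk7 a y z = mk7 b y' z' := by
    rintro a b y y' z z' rfl rfl rfl
    rfl
  refine h2 _ _ _ _ _ _ ?_ ?_ ?_
  · simp only [Prod.snd_add, Int.cast_add]
    ring
  · simp only [Prod.fst_add, Int.cast_add, Real.exp_add]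
  · simp only [Prod.fst_add, Prod.snd_add, Int.cast_add, Real.exp_add]

/-- the inverse of `act k n` is `act k (-n)` -/
theorem act_neg_act (k : ℕ) (n : ℤ × ℤ × ℤ) {p : EE 7} (hp : p ∈ OM) :
    act k (-n) (act k n p) = p := by
  rw [← act_add k (-n) n hp, neg_add_cancel, act_zero]

/-! ### smoothness -/

theorem contDiff_yv : ContDiff ℝ ∞ yv := by
  rw [contDiff_pi]
  intro i
  fin_cases i
  · exact (contDiff_euclidean.1 contDiff_id) 1
  · exact (contDiff_euclidean.1 contDiff_id) 2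
  · exact (contDiff_euclidean.1 contDiff_id) 3

theorem contDiff_zv : ContDiff ℝ ∞ zv := by
  rw [contDiff_pi]
  intro i
  fin_cases i
  · exact (contDiff_euclidean.1 contDiff_id) 4
  · exact (contDiff_euclidean.1 contDiff_id) 5
  · exact (contDiff_euclidean.1 contDiff_id) 6

theorem contDiff_mk7 : ContDiff ℝ ∞ (fun q : ℝ × V3 × V3 => mk7 q.1 q.2.1 q.2.2) := by
  rw [contDiff_euclidean]
  intro i
  fin_cases i
  · exact contDiff_fst
  · exact (contDiff_pi.1 (contDiff_fst.comp contDiff_snd)) 0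
  · exact (contDiff_pi.1 (contDiff_fst.comp contDiff_snd)) 1
  · exact (contDiff_pi.1 (contDiff_fst.comp contDiff_snd)) 2
  · exact (contDiff_pi.1 (contDiff_snd.comp contDiff_snd)) 0
  · exact (contDiff_pi.1 (contDiff_snd.comp contDiff_snd)) 1
  · exact (contDiff_pi.1 (contDiff_snd.comp contDiff_snd)) 2

/-- Scalar products of smooth functions are smooth. -/
theorem ContDiffAt.dot3 {E : Type*} [NormedAddCommGroup E] [NormedSpace ℝ E] {f g : E → V3}
    {x : E} {n : ℕ∞ω} (hf : ContDiffAt ℝ n f x) (hg : ContDiffAt ℝ n g x) :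
    ContDiffAt ℝ n (fun y => dot (f y) (g y)) x := by
  unfold dot
  have h1 := contDiffAt_pi.1 hf
  have h2 := contDiffAt_pi.1 hg
  exact (((h1 0).mul (h2 0)).add ((h1 1).mul (h2 1))).add ((h1 2).mul (h2 2))

/-- Vector products of smooth functions are smooth. -/
theorem ContDiffAt.crs3 {E : Type*} [NormedAddCommGroup E] [NormedSpace ℝ E] {f g : E → V3}
    {x : E} {n : ℕ∞ω} (hf : ContDiffAt ℝ n f x) (hg : ContDiffAt ℝ n g x) :
    ContDiffAt ℝ n (fun y => crs (f y) (g y)) x := by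
  have h1 := contDiffAt_pi.1 hf
  have h2 := contDiffAt_pi.1 hg
  rw [contDiffAt_pi]
  intro i
  fin_cases i
  · exact ((h1 1).mul (h2 2)).sub ((h1 2).mul (h2 1))
  · exact ((h1 2).mul (h2 0)).sub ((h1 0).mul (h2 2))
  · exact ((h1 0).mul (h2 1)).sub ((h1 1).mul (h2 0))

theorem ContDiffAt.nr3 {E : Type*} [NormedAddCommGroup E] [NormedSpace ℝ E] {f : E → V3}
    {x : E} {n : ℕ∞ω} (hf : ContDiffAt ℝ n f x) (h0 : f x ≠ 0) :
    ContDiffAt ℝ n (fun y => nr (f y)) x := by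
  unfold nr
  exact (ContDiffAt.dot3 hf hf).sqrt (QA_dot_pos h0).ne'

/-- Rotations of smooth functions are smooth. -/
theorem ContDiffAt.rot3 {E : Type*} [NormedAddCommGroup E] [NormedSpace ℝ E] {f g : E → V3}
    {φ : E → ℝ} {x : E} {n : ℕ∞ω} (hf : ContDiffAt ℝ n f x) (hφ : ContDiffAt ℝ n φ x)
    (hg : ContDiffAt ℝ n g x) :
    ContDiffAt ℝ n (fun y => rot (f y) (φ y) (g y)) x := by
  unfold rot
  exact ((hφ.cos.smul hg).add (hφ.sin.smul (ContDiffAt.crs3 hf hg))).add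
    (((contDiffAt_const.sub hφ.cos).mul (ContDiffAt.dot3 hf hg)).smul hf)

theorem contDiffAt_x1 {p : EE 7} (hp : p ∈ OM) : ContDiffAt ℝ ∞ x1 p :=
  (ContDiffAt.nr3 contDiff_yv.contDiffAt hp.1).log (nr_yv_pos hp).ne'

theorem contDiffAt_x2 {p : EE 7} (hp : p ∈ OM) : ContDiffAt ℝ ∞ x2 p :=
  (ContDiffAt.nr3 contDiff_zv.contDiffAt hp.2).log (nr_zv_pos hp).ne'

theorem contDiffAt_x3 (p : EE 7) : ContDiffAt ℝ ∞ x3 p :=
  ((contDiff_euclidean.1 contDiff_id) 0).contDiffAt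

theorem contDiffAt_wv {p : EE 7} (hp : p ∈ OM) : ContDiffAt ℝ ∞ wv p :=
  ((ContDiffAt.nr3 contDiff_yv.contDiffAt hp.1).inv (nr_yv_pos hp).ne').smul
    contDiff_yv.contDiffAt

theorem contDiffAt_sv {p : EE 7} (hp : p ∈ OM) : ContDiffAt ℝ ∞ sv p :=
  ((ContDiffAt.nr3 contDiff_zv.contDiffAt hp.2).inv (nr_zv_pos hp).ne').smul
    contDiff_zv.contDiffAt

theorem contDiffAt_act (k : ℕ) (n : ℤ × ℤ × ℤ) {p : EE 7} (hp : p ∈ OM) :
    ContDiffAt ℝ ∞ (act k n) p := by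
  have h1 : ContDiffAt ℝ ∞ (fun q : EE 7 => (q 0 + (n.2.2 : ℝ), Real.exp n.1 • yv q,
      Real.exp n.2.1 • rot (wv q) (4 * Real.pi * k * n.1 * x2 q) (zv q))) p := by
    refine ContDiffAt.prodMk ((contDiffAt_x3 p).add contDiffAt_const) (ContDiffAt.prodMk
      (contDiff_yv.contDiffAt.const_smul _) (ContDiffAt.const_smul _
        (ContDiffAt.rot3 (contDiffAt_wv hp) (contDiffAt_const.mul (contDiffAt_x2 hp))
          contDiff_zv.contDiffAt)))
  exact contDiff_mk7.contDiffAt.comp p h1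

theorem isOpen_OM : IsOpen OM := by
  have h1 : IsOpen {p : EE 7 | yv p ≠ 0} := isOpen_ne.preimage contDiff_yv.continuous
  have h2 : IsOpen {p : EE 7 | zv p ≠ 0} := isOpen_ne.preimage contDiff_zv.continuous
  exact h1.inter h2

theorem continuousOn_x1 : ContinuousOn x1 OM := fun _ hp =>
  (contDiffAt_x1 hp).continuousAt.continuousWithinAt

theorem continuousOn_x2 : ContinuousOn x2 OM := fun _ hp =>
  (contDiffAt_x2 hp).continuousAt.continuousWithinAt

theorem continuous_x3 : Continuous x3 :=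
  continuous_iff_continuousAt.2 fun p => (contDiffAt_x3 p).continuousAt

theorem continuousOn_act (k : ℕ) (n : ℤ × ℤ × ℤ) : ContinuousOn (act k n) OM := fun _ hp =>
  (contDiffAt_act k n hp).continuousAt.continuousWithinAt

end H31R
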