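import Pool.Agent.Lib.H31R.QT

/-!
# H31R, part Q: existence of the quotient manifold
-/

open scoped Manifold ContDiff
open Set

namespace H31R

/-- A point of `OM`. -/
noncomputable def QM_base : EE 7 := mk7 0 ![1, 0, 0] ![1, 0, 0]

theorem QM_base_mem : QM_base ∈ OM := by
  refine ⟨?_, ?_⟩
  · intro h
    have := congrFun h 0
    simp [yv, QM_base, mk7] at this
  · intro h
    have := congrFun h 0
    simp [zv, QM_base, mk7] at this

open Classical in
/-- The projection as a function on `EE 7`. -/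
noncomputable def qpi (k : ℕ) (p : EE 7) : Qt k :=
  if h : p ∈ OM then qt k ⟨p, h⟩ else qt k ⟨QM_base, QM_base_mem⟩

theorem qpi_of_mem {k : ℕ} {p : EE 7} (hp : p ∈ OM) : qpi k p = qt k ⟨p, hp⟩ := dif_pos hp

theorem continuousOn_qpi (k : ℕ) : ContinuousOn (qpi k) OM := by
  rw [continuousOn_iff_continuous_restrict]
  have h : (fun p : ↥OM => qpi k p.1) = fun p : ↥OM => qt k p := by
    ext p
    exact qpi_of_mem p.2
  show Continuous (fun p : ↥OM => qpi k p.1)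
  rw [h]
  exact continuous_qt k

theorem isOpen_qpi_image (k : ℕ) {U : Set (EE 7)} (hU : IsOpen U) (hO : U ⊆ OM) :
    IsOpen (qpi k '' U) := by
  have h1 : IsOpen (Subtype.val ⁻¹' U : Set ↥OM) := hU.preimage continuous_subtype_val
  have h2 := isOpenMap_qt k _ h1
  convert h2 using 1
  ext m
  constructor
  · rintro ⟨p, hp, rfl⟩
    exact ⟨⟨p, hO hp⟩, hp, (qpi_of_mem (hO hp)).symm⟩
  · rintro ⟨p, hp, rfl⟩
    exact ⟨p.1, hp, qpi_of_mem p.2⟩

theorem qpi_eq_iff {k : ℕ} {p q : EE 7} (hp : p ∈ OM) (hq : q ∈ OM) :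
    qpi k p = qpi k q ↔ ∃ n : ℤ × ℤ × ℤ, q = act k n p := by
  rw [qpi_of_mem hp, qpi_of_mem hq, qt_eq_iff]
  constructor
  · rintro ⟨n, hn⟩
    exact ⟨n, congrArg Subtype.val hn⟩
  · rintro ⟨n, hn⟩
    exact ⟨n, Subtype.ext hn⟩

theorem qpi_surj (k : ℕ) (m : Qt k) : ∃ p ∈ OM, qpi k p = m := by
  obtain ⟨p, rfl⟩ := qt_surj k m
  exact ⟨p.1, p.2, qpi_of_mem p.2⟩

theorem isOpen_Ubox {p : EE 7} : IsOpen (Ubox p) := by
  have h1 : IsOpen (OM ∩ x1 ⁻¹' {t | |t - x1 p| < 1 / 2}) :=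
    continuousOn_x1.isOpen_inter_preimage isOpen_OM
      (isOpen_lt (by fun_prop) continuous_const)
  have h2 : IsOpen (OM ∩ x2 ⁻¹' {t | |t - x2 p| < 1 / 2}) :=
    continuousOn_x2.isOpen_inter_preimage isOpen_OM
      (isOpen_lt (by fun_prop) continuous_const)
  have h3 : IsOpen (OM ∩ x3 ⁻¹' {t | |t - x3 p| < 1 / 2}) :=
    continuous_x3.continuousOn.isOpen_inter_preimage isOpen_OM
      (isOpen_lt (by fun_prop) continuous_const)
  convert (h1.inter h2).inter h3 using 1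
  ext q
  simp only [Ubox, mem_setOf_eq, mem_inter_iff, mem_preimage]
  tauto

theorem Ubox_sub (p : EE 7) : Ubox p ⊆ OM := fun _ hq => hq.1

theorem mem_Ubox {p : EE 7} (hp : p ∈ OM) : p ∈ Ubox p := by
  refine ⟨hp, ?_, ?_, ?_⟩ <;> simp

theorem QM_int_zero {n : ℤ} {a b c : ℝ} (h1 : |a - c| < 1 / 2) (h2 : |b - c| < 1 / 2)
    (h : b = a + n) : n = 0 := by
  rw [abs_lt] at h1 h2
  have h3 : (n : ℝ) < 1 := by linarith [h1.1, h1.2, h2.1, h2.2]
  have h4 : (-1 : ℝ) < n := by linarith [h1.1, h1.2, h2.1, h2.2]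
  have h5 : n < 1 := by exact_mod_cast h3
  have h6 : -1 < n := by exact_mod_cast h4
  omega

theorem qpi_injOn (k : ℕ) (p : EE 7) : InjOn (qpi k) (Ubox p) := by
  intro a ha b hb hab
  obtain ⟨n, hn⟩ := (qpi_eq_iff ha.1 hb.1).1 hab
  have e1 : n.1 = 0 := QM_int_zero ha.2.1 hb.2.1 (by rw [hn, x1_act k n ha.1])
  have e2 : n.2.1 = 0 := QM_int_zero ha.2.2.1 hb.2.2.1 (by rw [hn, x2_act k n ha.1])
  have e3 : n.2.2 = 0 := QM_int_zero ha.2.2.2 hb.2.2.2 (by rw [hn, x3_act k n a])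
  have hn0 : n = 0 := Prod.ext e1 (Prod.ext e2 e3)
  rw [hn, hn0, act_zero]

/-- The chart: inverse of `qpi k` on `Ubox p`. -/
noncomputable def qch (k : ℕ) (p : EE 7) : OpenPartialHomeomorph (Qt k) (EE 7) :=
  (OpenPartialHomeomorph.ofContinuousOpenRestrict
    (Set.InjOn.toPartialEquiv (qpi k) (Ubox p) (qpi_injOn k p))
    ((continuousOn_qpi k).mono (Ubox_sub p))
    (by
      intro U hU
      obtain ⟨V, hV, rfl⟩ := isOpen_induced_iff.1 hU
      have : ((Ubox p).domRestrict (qpi k)) '' (Subtype.val ⁻¹' V) = qpi k '' (Ubox p ∩ V) := by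
        ext m
        constructor
        · rintro ⟨q, hq, rfl⟩
          exact ⟨q.1, ⟨q.2, hq⟩, rfl⟩
        · rintro ⟨q, hq, rfl⟩
          exact ⟨⟨q, hq.1⟩, hq.2, rfl⟩
      show IsOpen (((Ubox p).domRestrict (qpi k)) '' (Subtype.val ⁻¹' V))
      rw [this]
      exact isOpen_qpi_image k (isOpen_Ubox.inter hV) fun q hq => hq.1.1)
    isOpen_Ubox).symm

theorem qch_source (k : ℕ) (p : EE 7) : (qch k p).source = qpi k '' Ubox p := rfl

theorem qch_target (k : ℕ) (p : EE 7) : (qch k p).target = Ubox p := rfl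

theorem qch_symm (k : ℕ) (p q : EE 7) : (qch k p).symm q = qpi k q := rfl

theorem qch_apply (k : ℕ) {p q : EE 7} (hq : q ∈ Ubox p) : qch k p (qpi k q) = q := by
  have h := (qch k p).right_inv (x := q) (by rw [qch_target]; exact hq)
  rw [qch_symm] at h
  exact h

/-- The chosen representative. -/
noncomputable def qrep (k : ℕ) (m : Qt k) : EE 7 := (qpi_surj k m).choose

theorem qrep_mem (k : ℕ) (m : Qt k) : qrep k m ∈ OM := (qpi_surj k m).choose_spec.1

theorem qpi_qrep (k : ℕ) (m : Qt k) : qpi k (qrep k m) = m := (qpi_surj k m).choose_spec.2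

noncomputable instance (k : ℕ) : ChartedSpace (EE 7) (Qt k) where
  atlas := {e | ∃ p ∈ OM, e = qch k p}
  chartAt m := qch k (qrep k m)
  mem_chart_source m := by
    rw [qch_source]
    exact ⟨qrep k m, mem_Ubox (qrep_mem k m), qpi_qrep k m⟩
  chart_mem_atlas m := ⟨qrep k m, qrep_mem k m, rfl⟩

theorem Qt_chartAt (k : ℕ) (m : Qt k) : chartAt (EE 7) m = qch k (qrep k m) := rfl

theorem qch_trans {k : ℕ} {p q : EE 7} {n : ℤ × ℤ × ℤ} {a : EE 7} (ha : a ∈ OM)
    (hn : act k n a ∈ Ubox q) :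
    (fun b => qch k q (qpi k b)) =ᶠ[nhds a] act k n := by
  have h1 : (act k n) ⁻¹' (Ubox q) ∈ nhds a :=
    (contDiffAt_act k n ha).continuousAt.preimage_mem_nhds (isOpen_Ubox.mem_nhds hn)
  filter_upwards [h1, isOpen_OM.mem_nhds ha] with b hb hb0
  have h2 : qpi k b = qpi k (act k n b) :=
    (qpi_eq_iff hb0 (act_mem k n hb0)).2 ⟨n, rfl⟩
  rw [h2, qch_apply k hb]

instance (k : ℕ) : IsManifold (𝓡 7) ∞ (Qt k) := by
  refine isManifold_of_contDiffOn (𝓡 7) ∞ (Qt k) ?_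
  rintro e e' ⟨p, hp, rfl⟩ ⟨q, hq, rfl⟩
  intro a ha
  have ha1 : a ∈ ((qch k p).symm.trans (qch k q)).source := by
    simpa using ha
  have ha2 : a ∈ Ubox p := by
    have := ha1.1
    exact this
  have ha3 : qpi k a ∈ qpi k '' Ubox q := ha1.2
  obtain ⟨c, hc, hca⟩ := ha3
  obtain ⟨n, hn⟩ := (qpi_eq_iff ha2.1 hc.1).1 hca.symm
  have h1 : ContDiffAt ℝ ∞ (fun b => qch k q (qpi k b)) a := by
    refine (contDiffAt_act k n ha2.1).congr_of_eventuallyEq (qch_trans (p := p) ha2.1 ?_)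
    rw [← hn]
    exact hc
  exact h1.contDiffWithinAt

theorem exists_MK (k : ℕ) : ∃ (M : ClosedManifold 7) (π : EE 7 → M.carrier), QProps k M π := by
  refine ⟨{ carrier := Qt k }, qpi k, ?_⟩
  refine ⟨qpi_surj k, fun p hp q hq => qpi_eq_iff hp hq, ?_⟩
  intro m
  refine ⟨qrep k m, qrep_mem k m, qpi_qrep k m, ?_, rfl, fun q _ => rfl⟩
  have h := qch_apply k (mem_Ubox (qrep_mem k m))
  rw [qpi_qrep] at h
  exact h

/-- The manifold `M_k`. -/
noncomputable def MK (k : ℕ) : ClosedManifold 7 := (exists_MK k).choose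

/-- The projection `OM → M_k`. -/
noncomputable def prj (k : ℕ) : EE 7 → (MK k).carrier := (exists_MK k).choose_spec.choose

theorem qprops (k : ℕ) : QProps k (MK k) (prj k) := (exists_MK k).choose_spec.choose_spec

end H31R
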