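import Pool.Agent.Lib.H31R.QA

/-!
# H31R, part Q: topology of the quotient `OM / Z^3`
-/

open scoped Manifold ContDiff
open Set

namespace H31R

/-- `OM` as a type, with the action of `Z^3` with parameter `k`. -/
def OMt (_k : ℕ) : Type := ↥OM

noncomputable instance (k : ℕ) : TopologicalSpace (OMt k) := inferInstanceAs (TopologicalSpace ↥OM)

instance (k : ℕ) : T2Space (OMt k) := inferInstanceAs (T2Space ↥OM)

instance (k : ℕ) : LocallyCompactSpace (OMt k) := isOpen_OM.locallyCompactSpace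

noncomputable instance (k : ℕ) : AddAction (ℤ × ℤ × ℤ) (OMt k) where
  vadd n p := ⟨act k n p.1, act_mem k n p.2⟩
  zero_vadd p := Subtype.ext (act_zero k p.1)
  add_vadd m n p := Subtype.ext (act_add k m n p.2)

theorem OMt_vadd_val {k : ℕ} (n : ℤ × ℤ × ℤ) (p : OMt k) : (n +ᵥ p).1 = act k n p.1 := rfl

theorem continuous_OMt_val (k : ℕ) : Continuous (fun p : OMt k => (p.1 : EE 7)) :=
  continuous_subtype_val

instance (k : ℕ) : ContinuousConstVAdd (ℤ × ℤ × ℤ) (OMt k) := ⟨fun n => by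
  refine Continuous.subtype_mk ?_ _
  exact (continuousOn_act k n).comp_continuous continuous_subtype_val fun p => p.2⟩

/-- the coordinates `x_i` -/
noncomputable def xx (k : ℕ) (p : OMt k) : ℝ × ℝ × ℝ := (x1 p.1, x2 p.1, x3 p.1)

theorem continuous_xx (k : ℕ) : Continuous (xx k) := by
  refine Continuous.prodMk ?_ (Continuous.prodMk ?_ ?_)
  · exact continuousOn_x1.comp_continuous continuous_subtype_val fun p => p.2
  · exact continuousOn_x2.comp_continuous continuous_subtype_val fun p => p.2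
  · exact continuous_x3.comp continuous_subtype_val

theorem QT_finite (C : ℝ) : {n : ℤ × ℤ × ℤ | |(n.1 : ℝ)| ≤ C ∧ |(n.2.1 : ℝ)| ≤ C ∧
    |(n.2.2 : ℝ)| ≤ C}.Finite := by
  refine (Set.finite_Icc (-⌈C⌉, -⌈C⌉, -⌈C⌉) (⌈C⌉, ⌈C⌉, ⌈C⌉)).subset ?_
  have key : ∀ m : ℤ, |(m : ℝ)| ≤ C → -⌈C⌉ ≤ m ∧ m ≤ ⌈C⌉ := by
    intro m hm
    obtain ⟨h1, h2⟩ := abs_le.1 hm
    have h3 : C ≤ ⌈C⌉ := Int.le_ceil C
    constructor
    · have : ((-⌈C⌉ : ℤ) : ℝ) ≤ m := by
        push_cast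
        linarith
      exact_mod_cast this
    · have : (m : ℝ) ≤ (⌈C⌉ : ℤ) := by linarith
      exact_mod_cast this
  rintro ⟨a, b, c⟩ ⟨h1, h2, h3⟩
  exact ⟨⟨(key a h1).1, (key b h2).1, (key c h3).1⟩, ⟨(key a h1).2, (key b h2).2, (key c h3).2⟩⟩

instance (k : ℕ) : ProperlyDiscontinuousVAdd (ℤ × ℤ × ℤ) (OMt k) := ⟨by
  intro K L hK hL
  obtain ⟨C, hC⟩ := hK.exists_bound_of_continuousOn (continuous_xx k).continuousOn
  obtain ⟨D, hD⟩ := hL.exists_bound_of_continuousOn (continuous_xx k).continuousOn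
  refine (QT_finite (C + D)).subset ?_
  rintro n ⟨q, ⟨p, hp, rfl⟩, hq⟩
  have h1 := hC p hp
  have h2 := hD _ hq
  simp only [xx, Prod.norm_def, sup_le_iff, OMt_vadd_val, x1_act k n p.2, x2_act k n p.2,
    x3_act k n p.1, Real.norm_eq_abs, abs_le] at h1 h2
  simp only [mem_setOf_eq, abs_le]
  refine ⟨⟨?_, ?_⟩, ⟨?_, ?_⟩, ⟨?_, ?_⟩⟩ <;> linarith [h1.1.1, h1.1.2, h1.2.1.1, h1.2.1.2,
    h1.2.2.1, h1.2.2.2, h2.1.1, h2.1.2, h2.2.1.1, h2.2.1.2, h2.2.2.1, h2.2.2.2]⟩

/-- The quotient. -/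
def Qt (k : ℕ) : Type := Quotient (AddAction.orbitRel (ℤ × ℤ × ℤ) (OMt k))

noncomputable instance (k : ℕ) : TopologicalSpace (Qt k) :=
  inferInstanceAs (TopologicalSpace (Quotient (AddAction.orbitRel (ℤ × ℤ × ℤ) (OMt k))))

instance (k : ℕ) : T2Space (Qt k) :=
  t2Space_of_properlyDiscontinuousVAdd_of_t2Space (Γ := ℤ × ℤ × ℤ) (T := OMt k)

/-- The projection. -/
noncomputable def qt (k : ℕ) (p : OMt k) : Qt k := Quotient.mk (AddAction.orbitRel (ℤ × ℤ × ℤ) (OMt k)) p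

theorem continuous_qt (k : ℕ) : Continuous (qt k) := continuous_quotient_mk'

theorem isOpenMap_qt (k : ℕ) : IsOpenMap (qt k) :=
  isOpenMap_quotient_mk'_add (Γ := ℤ × ℤ × ℤ) (T := OMt k)

theorem qt_surj (k : ℕ) : Function.Surjective (qt k) := Quotient.mk_surjective

theorem qt_eq_iff {k : ℕ} {p q : OMt k} : qt k p = qt k q ↔ ∃ n : ℤ × ℤ × ℤ, q = n +ᵥ p := by
  have h0 : qt k p = qt k q ↔ (AddAction.orbitRel (ℤ × ℤ × ℤ) (OMt k)) p q :=
    Quotient.eq (r := AddAction.orbitRel (ℤ × ℤ × ℤ) (OMt k))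
  rw [h0]
  constructor
  · intro h
    have h' := (AddAction.orbitRel (ℤ × ℤ × ℤ) (OMt k)).symm h
    obtain ⟨n, hn⟩ := AddAction.orbitRel_apply.1 h'
    exact ⟨n, hn.symm⟩
  · rintro ⟨n, rfl⟩
    exact (AddAction.orbitRel (ℤ × ℤ × ℤ) (OMt k)).symm (AddAction.orbitRel_apply.2 ⟨n, rfl⟩)

/-! ### compactness -/

theorem QT_norm_sq (p : EE 7) : ‖p‖ ^ 2 = p 0 ^ 2 + nr (yv p) ^ 2 + nr (zv p) ^ 2 := by
  rw [EuclideanSpace.real_norm_sq_eq, QA_nr_sq, QA_nr_sq, Fin.sum_univ_seven]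
  simp only [dot, yv, zv, Matrix.cons_val_zero, Matrix.cons_val_one, Matrix.cons_val]
  ring

/-- A compact fundamental set. -/
def QK : Set (EE 7) := {p | (0 ≤ p 0 ∧ p 0 ≤ 1) ∧ (1 ≤ nr (yv p) ∧ nr (yv p) ≤ Real.exp 1) ∧
  (1 ≤ nr (zv p) ∧ nr (zv p) ≤ Real.exp 1)}

theorem continuous_nr : Continuous nr := by
  unfold nr dot
  fun_prop

theorem isCompact_QK : IsCompact QK := by
  refine Metric.isCompact_of_isClosed_isBounded ?_ ?_
  · have h0 : Continuous fun p : EE 7 => p 0 := continuous_x3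
    have h1 : Continuous fun p : EE 7 => nr (yv p) := continuous_nr.comp contDiff_yv.continuous
    have h2 : Continuous fun p : EE 7 => nr (zv p) := continuous_nr.comp contDiff_zv.continuous
    refine IsClosed.inter (IsClosed.inter ?_ ?_) (IsClosed.inter (IsClosed.inter ?_ ?_)
      (IsClosed.inter ?_ ?_))
    · exact isClosed_le continuous_const h0
    · exact isClosed_le h0 continuous_const
    · exact isClosed_le continuous_const h1
    · exact isClosed_le h1 continuous_const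
    · exact isClosed_le continuous_const h2
    · exact isClosed_le h2 continuous_const
  · rw [isBounded_iff_forall_norm_le]
    refine ⟨1 + 2 * Real.exp 1, ?_⟩
    rintro p ⟨⟨a1, a2⟩, ⟨b1, b2⟩, ⟨c1, c2⟩⟩
    have h := QT_norm_sq p
    have he : 0 < Real.exp 1 := Real.exp_pos 1
    refine le_of_sq_le_sq ?_ (by positivity)
    rw [h]
    nlinarith

theorem QK_sub {p : EE 7} (hp : p ∈ QK) : p ∈ OM := by
  refine ⟨?_, ?_⟩
  · intro h
    have h1 := hp.2.1.1
    rw [h] at h1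
    have h2 : nr 0 = 0 := by simp [nr, dot]
    rw [h2] at h1
    linarith
  · intro h
    have h1 := hp.2.2.1
    rw [h] at h1
    have h2 : nr 0 = 0 := by simp [nr, dot]
    rw [h2] at h1
    linarith

/-- The translation into the fundamental set. -/
noncomputable def fl (p : EE 7) : ℤ × ℤ × ℤ := (-⌊x1 p⌋, -⌊x2 p⌋, -⌊x3 p⌋)

theorem act_fl_mem (k : ℕ) {p : EE 7} (hp : p ∈ OM) : act k (fl p) p ∈ QK := by
  have h1 := x1_act k (fl p) hp
  have h2 := x2_act k (fl p) hp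
  have h3 := x3_act k (fl p) p
  have hq := act_mem k (fl p) hp
  have e1 : nr (yv (act k (fl p) p)) = Real.exp (x1 (act k (fl p) p)) := by
    unfold x1
    rw [Real.exp_log (nr_yv_pos hq)]
  have e2 : nr (zv (act k (fl p) p)) = Real.exp (x2 (act k (fl p) p)) := by
    unfold x2
    rw [Real.exp_log (nr_zv_pos hq)]
  have f1 := Int.floor_le (x1 p)
  have f2 := Int.floor_le (x2 p)
  have f3 := Int.floor_le (x3 p)
  have g1 := Int.lt_floor_add_one (x1 p)
  have g2 := Int.lt_floor_add_one (x2 p)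
  have g3 := Int.lt_floor_add_one (x3 p)
  simp only [fl, Int.cast_neg] at h1 h2 h3
  refine ⟨⟨?_, ?_⟩, ⟨?_, ?_⟩, ⟨?_, ?_⟩⟩
  · show 0 ≤ x3 (act k (fl p) p)
    simp only [fl]
    rw [h3]
    linarith
  · show x3 (act k (fl p) p) ≤ 1
    simp only [fl]
    rw [h3]
    linarith
  · rw [e1]
    apply Real.one_le_exp
    simp only [fl]
    rw [h1]
    linarith
  · rw [e1]
    apply Real.exp_le_exp.2
    simp only [fl]
    rw [h1]
    linarith
  · rw [e2]
    apply Real.one_le_exp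
    simp only [fl]
    rw [h2]
    linarith
  · rw [e2]
    apply Real.exp_le_exp.2
    simp only [fl]
    rw [h2]
    linarith

instance (k : ℕ) : CompactSpace (Qt k) := by
  have h1 : IsCompact (Subtype.val ⁻¹' QK : Set ↥OM) := by
    rw [Subtype.isCompact_iff]
    have : (Subtype.val '' (Subtype.val ⁻¹' QK : Set ↥OM)) = QK := by
      rw [Subtype.image_preimage_coe]
      exact inter_eq_right.2 fun p hp => QK_sub hp
    rw [this]
    exact isCompact_QK
  have h2 := IsCompact.image (f := qt k) h1 (continuous_qt k)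
  rw [← isCompact_univ_iff]
  convert h2
  symm
  rw [eq_univ_iff_forall]
  intro m
  obtain ⟨p, rfl⟩ := qt_surj k m
  refine ⟨fl p.1 +ᵥ p, ?_, ?_⟩
  · exact act_fl_mem k p.2
  · exact (qt_eq_iff.2 ⟨fl p.1, rfl⟩).symm

/-! ### connectedness -/

theorem QT_image : (fun q : ℝ × V3 × V3 => mk7 q.1 q.2.1 q.2.2) ''
    (univ ×ˢ ({0}ᶜ ×ˢ {0}ᶜ)) = OM := by
  ext p
  constructor
  · rintro ⟨⟨a, y, z⟩, ⟨_, hy, hz⟩, rfl⟩
    exact ⟨by rw [QA_yv_mk7]; exact hy, by rw [QA_zv_mk7]; exact hz⟩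
  · intro hp
    exact ⟨(p 0, yv p, zv p), ⟨mem_univ _, hp.1, hp.2⟩, mk7_self p⟩

theorem isConnected_OM : IsConnected OM := by
  rw [← QT_image]
  have h1 : 1 < Module.rank ℝ V3 := by
    rw [rank_fin_fun]
    norm_cast
  refine IsConnected.image ?_ _ contDiff_mk7.continuous.continuousOn
  exact isConnected_univ.prod ((isConnected_compl_singleton_of_one_lt_rank h1 0).prod
    (isConnected_compl_singleton_of_one_lt_rank h1 0))

instance (k : ℕ) : ConnectedSpace (OMt k) := isConnected_iff_connectedSpace.1 isConnected_OM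

instance (k : ℕ) : ConnectedSpace (Qt k) :=
  (qt_surj k).connectedSpace (continuous_qt k)

end H31R
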