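import Mathlib

/-!
# H31R: definitions of the final statement (closed manifolds, Riemannian metrics, Ricci tensor,
volume, distance)
-/

open scoped Manifold ContDiff
open Set MeasureTheory

namespace H31R

/-- Euclidean space of dimension `d`. -/
abbrev EE (d : ℕ) := EuclideanSpace ℝ (Fin d)

/-- The `k`-th standard basis vector. -/
noncomputable abbrev ebas {d : ℕ} (k : Fin d) : EE d := EuclideanSpace.single k (1 : ℝ)

/-- The partial derivative in the direction of the `k`-th coordinate. -/
noncomputable def pd {d : ℕ} (k : Fin d) (f : EE d → ℝ) (x : EE d) : ℝ := fderiv ℝ f x (ebas k)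

/-- Christoffel symbols (upper index `k`, lower indices `i`, `j`) of the metric with
coefficients `G` (a function with values in the `d × d` matrices). -/
noncomputable def chr {d : ℕ} (G : EE d → Matrix (Fin d) (Fin d) ℝ) (k i j : Fin d)
    (x : EE d) : ℝ :=
  (1 / 2) * ∑ l, (G x)⁻¹ k l *
    (pd i (fun y => G y j l) x + pd j (fun y => G y i l) x - pd l (fun y => G y i j) x)

/-- Ricci curvature, in coordinates, of the metric with coefficients `G`. -/
noncomputable def ric {d : ℕ} (G : EE d → Matrix (Fin d) (Fin d) ℝ) (i j : Fin d)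
    (x : EE d) : ℝ :=
  ∑ k, (pd k (chr G k i j) x - pd j (chr G k i k) x
    + ∑ l, (chr G k k l x * chr G l i j x - chr G k j l x * chr G l i k x))

/-- `|Ric(v, v)| ≤ C g(v, v)` at the point `x`, in coordinates. -/
def RB {d : ℕ} (G : EE d → Matrix (Fin d) (Fin d) ℝ) (x : EE d) (C : ℝ) : Prop :=
  ∀ v : Fin d → ℝ, |∑ i, ∑ j, ric G i j x * v i * v j| ≤ C * ∑ i, ∑ j, G x i j * v i * v j

section Manifold

variable {d : ℕ} {M : Type} [TopologicalSpace M] [ChartedSpace (EE d) M]

/-- The coefficients, in the chart at `p`, of a family of bilinear forms on the tangent spaces. -/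
noncomputable def coeff
    (inner : ∀ q : M, TangentSpace (𝓡 d) q →ₗ[ℝ] TangentSpace (𝓡 d) q →ₗ[ℝ] ℝ) (p : M)
    (y : EE d) : Matrix (Fin d) (Fin d) ℝ := fun i j =>
  inner ((chartAt (EE d) p).symm y)
    (mfderiv (𝓡 d) (𝓡 d) (chartAt (EE d) p).symm y (ebas i))
    (mfderiv (𝓡 d) (𝓡 d) (chartAt (EE d) p).symm y (ebas j))

/-- A smooth Riemannian metric on the `d`-dimensional manifold `M`: a scalar product on every
tangent space, with smooth coefficients in the charts. -/
structure RMetric (d : ℕ) (M : Type) [TopologicalSpace M] [ChartedSpace (EE d) M] where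
  /-- the scalar products -/
  inner : ∀ q : M, TangentSpace (𝓡 d) q →ₗ[ℝ] TangentSpace (𝓡 d) q →ₗ[ℝ] ℝ
  symm : ∀ q u v, inner q u v = inner q v u
  pos : ∀ q u, u ≠ 0 → 0 < inner q u u
  smooth : ∀ p : M, ∀ i j, ContDiffOn ℝ ∞ (fun y => coeff inner p y i j)
    (chartAt (EE d) p).target

/-- The bound `|Ric| ≤ lam`, that is `-lam g ≤ Ric ≤ lam g` (in all charts `chartAt p`). -/
def RicBounded (g : RMetric d M) (lam : ℝ) : Prop :=
  ∀ p : M, ∀ y ∈ (chartAt (EE d) p).target, RB (coeff g.inner p) y lam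

/-- The Riemannian volume: the supremum of the sums of the volumes (computed in the charts
`chartAt p`) of finitely many pairwise disjoint sets, each contained in the domain of a chart. -/
noncomputable def vol (g : RMetric d M) : ENNReal :=
  ⨆ (n : ℕ) (c : Fin n → M) (A : Fin n → Set (EE d))
    (_ : (∀ i, MeasurableSet (A i) ∧ A i ⊆ (chartAt (EE d) (c i)).target) ∧
      Pairwise fun i j => Disjoint ((chartAt (EE d) (c i)).symm '' A i)
        ((chartAt (EE d) (c j)).symm '' A j)),
    ∑ i, ∫⁻ y in A i, ENNReal.ofReal (Real.sqrt (coeff g.inner (c i) y).det)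

/-- The length of the curve `γ` on `[0, 1]`. -/
noncomputable def len (g : RMetric d M) (γ : ℝ → M) : ENNReal :=
  ∫⁻ t in Icc (0 : ℝ) 1, ENNReal.ofReal (Real.sqrt
    (g.inner (γ t) (mfderiv 𝓘(ℝ, ℝ) (𝓡 d) γ t (1 : ℝ)) (mfderiv 𝓘(ℝ, ℝ) (𝓡 d) γ t (1 : ℝ))))

/-- The Riemannian distance: infimum of the lengths of the `C¹` curves. -/
noncomputable def rdist (g : RMetric d M) (x y : M) : ENNReal :=
  ⨅ (γ : ℝ → M) (_ : ContMDiff 𝓘(ℝ, ℝ) (𝓡 d) 1 γ ∧ γ 0 = x ∧ γ 1 = y), len g γ

end Manifold

/-- A closed (compact, connected, without boundary) smooth manifold of dimension `d`. -/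
structure ClosedManifold (d : ℕ) where
  /-- the points -/
  carrier : Type
  [top : TopologicalSpace carrier]
  [charted : ChartedSpace (EE d) carrier]
  [mfd : IsManifold (𝓡 d) ∞ carrier]
  [t2 : T2Space carrier]
  [cpt : CompactSpace carrier]
  [conn : ConnectedSpace carrier]

attribute [instance] ClosedManifold.top ClosedManifold.charted ClosedManifold.mfd
  ClosedManifold.t2 ClosedManifold.cpt ClosedManifold.conn

/-- The class `M(d, lam, v, D)`: closed `d`-manifolds which admit a metric with `|Ric| ≤ lam`,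
volume at least `v` and diameter at most `D`. -/
def InClass {d : ℕ} (lam v D : ℝ) (M : ClosedManifold d) : Prop :=
  ∃ g : RMetric d M.carrier, RicBounded g lam ∧ ENNReal.ofReal v ≤ vol g ∧
    ∀ x y, rdist g x y ≤ ENNReal.ofReal D

/-- Diffeomorphic manifolds. -/
def Diffeomorphic {d : ℕ} (M N : ClosedManifold d) : Prop :=
  Nonempty (Diffeomorph (𝓡 d) (𝓡 d) M.carrier N.carrier ∞)

/-- The negation of Q1 for the dimension `d`. -/
def FinitenessFails (d : ℕ) : Prop :=
  ∃ lam v D : ℝ, 0 < lam ∧ 0 < v ∧ 0 < D ∧ ∃ M : ℕ → ClosedManifold d,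
    (∀ n, InClass lam v D (M n)) ∧ ∀ m n, m ≠ n → ¬ Diffeomorphic (M m) (M n)

end H31R
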