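import Pool.Agent.Lib.H31R.Stat

/-!
# H31R: the final statement in terms of charts (Riemannian metrics as compatible families of matrices)
The metric `RMetric` of `Stat.lean` (scalar products on the tangent spaces) gives such a family:
`transfer` below. (The terms of `Stat.lean` are too long when printed in full.)
-/

open scoped Manifold ContDiff
open Set MeasureTheory

namespace H31R.Ch

section Manifold

variable {d : ℕ} {M : Type} [TopologicalSpace M] [ChartedSpace (EE d) M]

/-- Change of coordinates from the chart at `p` to the chart at `q`. -/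
noncomputable def change (p q : M) (y : EE d) : EE d :=
  chartAt (EE d) q ((chartAt (EE d) p).symm y)

/-- Jacobian matrix of the change of coordinates. -/
noncomputable def jacobian (p q : M) (y : EE d) : Matrix (Fin d) (Fin d) ℝ :=
  fun a i => pd i (fun z => change p q z a) y

/-- A smooth Riemannian metric on the `d`-dimensional manifold `M`, given by its matrices
`mat p` in the charts `chartAt p`, `p : M`: smooth, symmetric, positive definite, and compatible
with the changes of coordinates. -/
structure Metric (d : ℕ) (M : Type) [TopologicalSpace M] [ChartedSpace (EE d) M] where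
  /-- the matrix of the metric in the chart at `p` -/
  mat : M → EE d → Matrix (Fin d) (Fin d) ℝ
  smooth : ∀ p i j, ContDiffOn ℝ ∞ (fun y => mat p y i j) (chartAt (EE d) p).target
  symm : ∀ p, ∀ y ∈ (chartAt (EE d) p).target, ∀ i j, mat p y i j = mat p y j i
  pos : ∀ p, ∀ y ∈ (chartAt (EE d) p).target, ∀ v : Fin d → ℝ, v ≠ 0 →
    0 < ∑ i, ∑ j, mat p y i j * v i * v j
  compat : ∀ p q, ∀ y ∈ (chartAt (EE d) p).target,
    (chartAt (EE d) p).symm y ∈ (chartAt (EE d) q).source →
    mat p y = (jacobian p q y).transpose * mat q (change p q y) * jacobian p q y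

/-- The bound `|Ric| ≤ lam`, that is `-lam g ≤ Ric ≤ lam g` (in all charts `chartAt p`). -/
def RicBounded (g : Metric d M) (lam : ℝ) : Prop :=
  ∀ p : M, ∀ y ∈ (chartAt (EE d) p).target, RB (g.mat p) y lam

/-- The Riemannian volume: the supremum of the sums of the volumes (computed in the charts
`chartAt p`) of finitely many pairwise disjoint sets, each contained in the domain of a chart. -/
noncomputable def vol (g : Metric d M) : ENNReal :=
  ⨆ (n : ℕ) (c : Fin n → M) (A : Fin n → Set (EE d))
    (_ : (∀ i, MeasurableSet (A i) ∧ A i ⊆ (chartAt (EE d) (c i)).target) ∧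
      Pairwise fun i j => Disjoint ((chartAt (EE d) (c i)).symm '' A i)
        ((chartAt (EE d) (c j)).symm '' A j)),
    ∑ i, ∫⁻ y in A i, ENNReal.ofReal (Real.sqrt (g.mat (c i) y).det)

/-- The coordinates, in the chart at `γ t`, of the velocity of the curve `γ` at time `t`. -/
noncomputable def velocity (γ : ℝ → M) (t : ℝ) : EE d :=
  deriv (fun s => chartAt (EE d) (γ t) (γ s)) t

/-- The length of the curve `γ` on `[0, 1]`. -/
noncomputable def len (g : Metric d M) (γ : ℝ → M) : ENNReal :=
  ∫⁻ t in Icc (0 : ℝ) 1, ENNReal.ofReal (Real.sqrt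
    (∑ i, ∑ j, g.mat (γ t) (chartAt (EE d) (γ t) (γ t)) i j * velocity γ t i * velocity γ t j))

/-- The Riemannian distance: infimum of the lengths of the `C¹` curves. -/
noncomputable def rdist (g : Metric d M) (x y : M) : ENNReal :=
  ⨅ (γ : ℝ → M) (_ : ContMDiff 𝓘(ℝ, ℝ) (𝓡 d) 1 γ ∧ γ 0 = x ∧ γ 1 = y), len g γ

end Manifold

end H31R.Ch
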