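import Pool.Agent.Lib.H31R.TDefs

/-!
# H31R, chunk TA1: calculus of 1-forms and 2-forms, pull-backs

Suggestion for `pull_cform`, `pull_isD`: let `b` be a basis of `F` (`Module.finBasis ℝ F`). On `V` one has
`Y q a c = ∑ i j, (b.coord i a) * (b.coord j c) * Y q (b i) (b j)`, so `(q, a, c) ↦ Y q a c` is smooth on
`V × F × F`, and the derivative of `p ↦ Y (G p) (fderiv G p v) (fderiv G p w)` in the direction `u` is
`(D_{DG u} Y) (DG v) (DG w) + Y (G p) (D²G (u, v)) (DG w) + Y (G p) (DG v) (D²G (u, w))`, where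
`D_a Y (c, d) = fderiv (fun q => Y q c d) (G p) a` for constant vectors `c`, `d`. In the cyclic sum the
terms with the second derivative cancel since it is symmetric (`ContDiffAt.isSymmSndFDerivAt`) and
`Y` is antisymmetric.
-/

open scoped ContDiff
open Real Set MeasureTheory

namespace H31R.Tp

variable {E F : Type} [NormedAddCommGroup E] [NormedSpace ℝ E] [NormedAddCommGroup F]
  [NormedSpace ℝ F]

/-- Antisymmetry gives linearity in the second argument. -/
theorem CForm.add_right {U : Set E} {Y : E → E → E → ℝ} (h : CForm U Y) {p : E} (hp : p ∈ U)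
    (u v v' : E) : Y p u (v + v') = Y p u v + Y p u v' := by
  rw [h.alt p hp, h.add_left p hp, h.alt p hp u v, h.alt p hp u v']
  ring

theorem CForm.smul_right {U : Set E} {Y : E → E → E → ℝ} (h : CForm U Y) {p : E} (hp : p ∈ U)
    (c : ℝ) (u v : E) : Y p u (c • v) = c * Y p u v := by
  rw [h.alt p hp, h.smul_left p hp, h.alt p hp u v]
  ring

theorem CForm.self {U : Set E} {Y : E → E → E → ℝ} (h : CForm U Y) {p : E} (hp : p ∈ U)
    (u : E) : Y p u u = 0 := by
  have h1 := h.alt p hp u u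
  linarith

/-- the bilinear map at a point -/
noncomputable def TA1_bil {U : Set E} {Y : E → E → E → ℝ} (h : CForm U Y) {p : E} (hp : p ∈ U) :
    E →ₗ[ℝ] E →ₗ[ℝ] ℝ :=
  LinearMap.mk₂ ℝ (Y p) (fun u u' v => h.add_left p hp u u' v)
    (fun c u v => h.smul_left p hp c u v) (fun u v v' => h.add_right hp u v v')
    (fun c u v => h.smul_right hp c u v)

theorem TA1_bil_apply {U : Set E} {Y : E → E → E → ℝ} (h : CForm U Y) {p : E} (hp : p ∈ U)
    (u v : E) : TA1_bil h hp u v = Y p u v := rfl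

/-- the coordinates -/
noncomputable def TA1_co [FiniteDimensional ℝ F] (i : Fin (Module.finrank ℝ F)) : F →L[ℝ] ℝ :=
  LinearMap.toContinuousLinearMap ((Module.finBasis ℝ F).coord i)

theorem TA1_sum [FiniteDimensional ℝ F] (a : F) :
    a = ∑ i, TA1_co i a • Module.finBasis ℝ F i := by
  conv_lhs => rw [← (Module.finBasis ℝ F).sum_repr a]
  rfl

theorem TA1_expand [FiniteDimensional ℝ F] {V : Set F} {Y : F → F → F → ℝ} (h : CForm V Y) {q : F}
    (hq : q ∈ V) (a c : F) :
    Y q a c = ∑ i, ∑ j, TA1_co i a * TA1_co j c *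
      Y q (Module.finBasis ℝ F i) (Module.finBasis ℝ F j) := by
  rw [← TA1_bil_apply h hq]
  conv_lhs => rw [TA1_sum a, TA1_sum c]
  rw [map_sum (TA1_bil h hq), LinearMap.sum_apply]
  refine Finset.sum_congr rfl fun i _ => ?_
  rw [map_sum]
  refine Finset.sum_congr rfl fun j _ => ?_
  rw [map_smul, map_smul, LinearMap.smul_apply, smul_eq_mul, smul_eq_mul, TA1_bil_apply]
  ring

theorem TA1_expand1 [FiniteDimensional ℝ F] {V : Set F} {β : F → F → ℝ} {Z : F → F → F → ℝ}
    (h : IsD V β Z) {q : F} (hq : q ∈ V) (a : F) :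
    β q a = ∑ i, TA1_co i a * β q (Module.finBasis ℝ F i) := by
  let L : F →ₗ[ℝ] ℝ :=
    { toFun := β q
      map_add' := fun u v => h.add q hq u v
      map_smul' := fun c u => by rw [h.smul q hq]; rfl }
  change L a = ∑ i, TA1_co i a * L (Module.finBasis ℝ F i)
  conv_lhs => rw [TA1_sum a]
  rw [map_sum]
  refine Finset.sum_congr rfl fun i _ => ?_
  rw [map_smul, smul_eq_mul]

/-- the derivative of `Y (G p) (A p) (C p)` -/
theorem TA1_fderiv [FiniteDimensional ℝ F] {V : Set F} (hV : IsOpen V) {Y : F → F → F → ℝ}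
    (hY : CForm V Y) {G A C : E → F} {G' A' C' : E →L[ℝ] F} {p : E} (hp : G p ∈ V)
    (hG : HasFDerivAt G G' p) (hA : HasFDerivAt A A' p) (hC : HasFDerivAt C C' p) :
    DifferentiableAt ℝ (fun p' => Y (G p') (A p') (C p')) p ∧
    ∀ u, fderiv ℝ (fun p' => Y (G p') (A p') (C p')) p u = Y (G p) (A' u) (C p) +
      Y (G p) (A p) (C' u) + fderiv ℝ (fun q => Y q (A p) (C p)) (G p) (G' u) := by
  have hd : ∀ i j, DifferentiableAt ℝ (fun q => Y q (Module.finBasis ℝ F i)
      (Module.finBasis ℝ F j)) (G p) := fun i j =>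
    ((hY.smooth _ _).contDiffAt (hV.mem_nhds hp)).differentiableAt (by simp)
  have hev : ∀ᶠ p' in nhds p, G p' ∈ V := hG.continuousAt.eventually (hV.mem_nhds hp)
  have h1 : (fun p' => Y (G p') (A p') (C p')) =ᶠ[nhds p] fun p' => ∑ i, ∑ j,
      TA1_co i (A p') * TA1_co j (C p') *
      Y (G p') (Module.finBasis ℝ F i) (Module.finBasis ℝ F j) := by
    filter_upwards [hev] with p' hp'
    exact TA1_expand hY hp' _ _
  have hterm : ∀ i j, HasFDerivAt (fun p' => TA1_co i (A p') * TA1_co j (C p') *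
      Y (G p') (Module.finBasis ℝ F i) (Module.finBasis ℝ F j)) _ p := fun i j =>
    ((((TA1_co i).hasFDerivAt.comp p hA).mul ((TA1_co j).hasFDerivAt.comp p hC)).mul
      ((hd i j).hasFDerivAt.comp p hG))
  have h2 := HasFDerivAt.fun_sum (u := Finset.univ) fun i _ =>
    HasFDerivAt.fun_sum (u := Finset.univ) fun j _ => hterm i j
  have h3 := h2.congr_of_eventuallyEq h1
  refine ⟨h3.differentiableAt, fun u => ?_⟩
  rw [h3.fderiv]
  have h4 : (fun q => Y q (A p) (C p)) =ᶠ[nhds (G p)] fun q => ∑ i, ∑ j,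
      TA1_co i (A p) * TA1_co j (C p) *
      Y q (Module.finBasis ℝ F i) (Module.finBasis ℝ F j) := by
    filter_upwards [hV.mem_nhds hp] with q hq
    exact TA1_expand hY hq _ _
  have h5 := HasFDerivAt.fun_sum (u := Finset.univ) fun i _ =>
    HasFDerivAt.fun_sum (u := Finset.univ) fun j _ =>
      (hd i j).hasFDerivAt.const_mul (TA1_co i (A p) * TA1_co j (C p))
  rw [(h5.congr_of_eventuallyEq h4).fderiv, TA1_expand hY hp (A' u), TA1_expand hY hp (A p) (C' u)]
  simp only [sum_apply]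
  rw [← Finset.sum_add_distrib, ← Finset.sum_add_distrib]
  refine Finset.sum_congr rfl fun i _ => ?_
  rw [← Finset.sum_add_distrib, ← Finset.sum_add_distrib]
  refine Finset.sum_congr rfl fun j _ => ?_
  simp only [add_apply, smul_apply, smul_eq_mul,
    ContinuousLinearMap.comp_apply, Function.comp_apply, Pi.mul_apply]
  ring

/-- the derivative of `β (G p) (A p)` -/
theorem TA1_fderiv1 [FiniteDimensional ℝ F] {V : Set F} (hV : IsOpen V) {β : F → F → ℝ}
    {Z : F → F → F → ℝ}
    (h : IsD V β Z) {G A : E → F} {G' A' : E →L[ℝ] F} {p : E} (hp : G p ∈ V)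
    (hG : HasFDerivAt G G' p) (hA : HasFDerivAt A A' p) :
    ∀ u, fderiv ℝ (fun p' => β (G p') (A p')) p u = β (G p) (A' u) +
      fderiv ℝ (fun q => β q (A p)) (G p) (G' u) := by
  have hd : ∀ i, DifferentiableAt ℝ (fun q => β q (Module.finBasis ℝ F i)) (G p) := fun i =>
    ((h.smooth _).contDiffAt (hV.mem_nhds hp)).differentiableAt (by simp)
  have hev : ∀ᶠ p' in nhds p, G p' ∈ V := hG.continuousAt.eventually (hV.mem_nhds hp)
  have h1 : (fun p' => β (G p') (A p')) =ᶠ[nhds p] fun p' => ∑ i,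
      TA1_co i (A p') * β (G p') (Module.finBasis ℝ F i) := by
    filter_upwards [hev] with p' hp'
    exact TA1_expand1 h hp' _
  have h2 := HasFDerivAt.fun_sum (u := Finset.univ) fun i _ =>
    ((TA1_co i).hasFDerivAt.comp p hA).mul ((hd i).hasFDerivAt.comp p hG)
  have h3 := h2.congr_of_eventuallyEq h1
  intro u
  rw [h3.fderiv]
  have h4 : (fun q => β q (A p)) =ᶠ[nhds (G p)] fun q => ∑ i,
      TA1_co i (A p) * β q (Module.finBasis ℝ F i) := by
    filter_upwards [hV.mem_nhds hp] with q hq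
    exact TA1_expand1 h hq _
  have h5 := HasFDerivAt.fun_sum (u := Finset.univ) fun i _ =>
      (hd i).hasFDerivAt.const_mul (TA1_co i (A p))
  rw [(h5.congr_of_eventuallyEq h4).fderiv, TA1_expand1 h hp (A' u)]
  simp only [sum_apply]
  rw [← Finset.sum_add_distrib]
  refine Finset.sum_congr rfl fun i _ => ?_
  simp only [add_apply, smul_apply, smul_eq_mul,
    ContinuousLinearMap.comp_apply, Function.comp_apply]
  ring

/-- Linear combinations of closed forms. -/
theorem CForm.comb {U : Set E} (hU : IsOpen U) {Y Y' : E → E → E → ℝ} (h : CForm U Y)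
    (h' : CForm U Y') (a b : ℝ) : CForm U fun p u v => a * Y p u v + b * Y' p u v := by
  refine ⟨fun p hp u u' v => ?_, fun p hp c u v => ?_, fun p hp u v => ?_, fun u v => ?_,
    fun p hp u v w => ?_⟩
  · simp only [h.add_left p hp, h'.add_left p hp]
    ring
  · simp only [h.smul_left p hp, h'.smul_left p hp]
    ring
  · rw [h.alt p hp u v, h'.alt p hp u v]
    ring
  · exact (contDiffOn_const.mul (h.smooth u v)).add (contDiffOn_const.mul (h'.smooth u v))
  · have hd : ∀ (v w u : E), fderiv ℝ (fun q => a * Y q v w + b * Y' q v w) p u =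
        a * fderiv ℝ (fun q => Y q v w) p u + b * fderiv ℝ (fun q => Y' q v w) p u := by
      intro v w u
      have d1 : DifferentiableAt ℝ (fun q => Y q v w) p :=
        ((h.smooth _ _).contDiffAt (hU.mem_nhds hp)).differentiableAt (by simp)
      have d2 : DifferentiableAt ℝ (fun q => Y' q v w) p :=
        ((h'.smooth _ _).contDiffAt (hU.mem_nhds hp)).differentiableAt (by simp)
      rw [((d1.hasFDerivAt.const_mul a).fun_add (d2.hasFDerivAt.const_mul b)).fderiv]
      simp only [add_apply, smul_apply, smul_eq_mul]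
    simp only [hd]
    linear_combination a * h.closed p hp u v w + b * h'.closed p hp u v w

theorem CForm.congr {U : Set E} (hU : IsOpen U) {Y Y' : E → E → E → ℝ} (h : CForm U Y)
    (he : ∀ p ∈ U, ∀ u v, Y' p u v = Y p u v) : CForm U Y' := by
  refine ⟨fun p hp u u' v => ?_, fun p hp c u v => ?_, fun p hp u v => ?_, fun u v => ?_,
    fun p hp u v w => ?_⟩
  · simp only [he p hp, h.add_left p hp]
  · simp only [he p hp, h.smul_left p hp]
  · rw [he p hp, he p hp, h.alt p hp u v]
  · exact (h.smooth u v).congr fun p hp => he p hp u v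
  · have hd : ∀ (v w u : E), fderiv ℝ (fun q => Y' q v w) p u = fderiv ℝ (fun q => Y q v w) p u := by
      intro v w u
      have h1 : (fun q => Y' q v w) =ᶠ[nhds p] fun q => Y q v w := by
        filter_upwards [hU.mem_nhds hp] with q hq
        exact he q hq v w
      rw [h1.fderiv_eq]
    simp only [hd]
    exact h.closed p hp u v w

theorem IsD.congr {U : Set E} (hU : IsOpen U) {β β' : E → E → ℝ} {Z Z' : E → E → E → ℝ}
    (h : IsD U β Z) (he : ∀ p ∈ U, ∀ u, β' p u = β p u) (hz : ∀ p ∈ U, ∀ u v, Z' p u v = Z p u v) :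
    IsD U β' Z' := by
  refine ⟨fun p hp u v => ?_, fun p hp c u => ?_, fun u => ?_, fun p hp u v => ?_⟩
  · rw [he p hp, he p hp, he p hp, h.add p hp]
  · rw [he p hp, he p hp, h.smul p hp]
  · exact (h.smooth u).congr fun p hp => he p hp u
  · have hd : ∀ (v u : E), fderiv ℝ (fun q => β' q v) p u = fderiv ℝ (fun q => β q v) p u := by
      intro v u
      have h1 : (fun q => β' q v) =ᶠ[nhds p] fun q => β q v := by
        filter_upwards [hU.mem_nhds hp] with q hq
        exact he q hq v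
      rw [h1.fderiv_eq]
    rw [hd, hd, hz p hp, h.d p hp]

/-- smoothness of directional derivatives -/
theorem TA1_smooth_fderiv {U : Set E} (hU : IsOpen U) {G : E → F} (hG : ContDiffOn ℝ ∞ G U)
    (v : E) : ContDiffOn ℝ ∞ (fun p => fderiv ℝ G p v) U := by
  have h1 : ContDiffOn ℝ ∞ (fderiv ℝ G) U := hG.fderiv_of_isOpen hU (by simp)
  exact h1.clm_apply contDiffOn_const

/-- second derivatives -/
theorem TA1_snd {U : Set E} (hU : IsOpen U) {G : E → F} (hG : ContDiffOn ℝ ∞ G U) {p : E}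
    (hp : p ∈ U) (v : E) :
    HasFDerivAt (fun q => fderiv ℝ G q v)
      ((ContinuousLinearMap.apply ℝ F v).comp (fderiv ℝ (fderiv ℝ G) p)) p := by
  have h1 : ContDiffOn ℝ ∞ (fderiv ℝ G) U := hG.fderiv_of_isOpen hU (by simp)
  have h2 : DifferentiableAt ℝ (fderiv ℝ G) p :=
    (h1.contDiffAt (hU.mem_nhds hp)).differentiableAt (by simp)
  exact (ContinuousLinearMap.apply ℝ F v).hasFDerivAt.comp p h2.hasFDerivAt

theorem TA1_symm {U : Set E} (hU : IsOpen U) {G : E → F} (hG : ContDiffOn ℝ ∞ G U) {p : E}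
    (hp : p ∈ U) (u v : E) :
    fderiv ℝ (fderiv ℝ G) p u v = fderiv ℝ (fderiv ℝ G) p v u := by
  have h1 : IsSymmSndFDerivAt ℝ G p :=
    (hG.contDiffAt (hU.mem_nhds hp)).isSymmSndFDerivAt (by
      rw [minSmoothness_of_isRCLikeNormedField]
      exact WithTop.coe_le_coe.2 (le_top : (2 : ℕ∞) ≤ ⊤))
  exact h1 u v

/-- Exact forms are closed. -/
theorem IsD.cform {U : Set E} (hU : IsOpen U) {β : E → E → ℝ} {Z : E → E → E → ℝ}
    (h : IsD U β Z) : CForm U Z := by
  have hd : ∀ u, ∀ p ∈ U, DifferentiableAt ℝ (fun q => β q u) p := fun u p hp =>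
    ((h.smooth u).contDiffAt (hU.mem_nhds hp)).differentiableAt (by simp)
  refine ⟨fun p hp u u' v => ?_, fun p hp c u v => ?_, fun p hp u v => ?_, fun u v => ?_,
    fun p hp u v w => ?_⟩
  · rw [← h.d p hp, ← h.d p hp, ← h.d p hp, map_add]
    have h1 : (fun q => β q (u + u')) =ᶠ[nhds p] fun q => β q u + β q u' := by
      filter_upwards [hU.mem_nhds hp] with q hq
      exact h.add q hq u u'
    rw [h1.fderiv_eq, fderiv_fun_add (hd u p hp) (hd u' p hp), add_apply]
    ring
  · rw [← h.d p hp, ← h.d p hp, map_smul, smul_eq_mul]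
    have h1 : (fun q => β q (c • u)) =ᶠ[nhds p] fun q => c * β q u := by
      filter_upwards [hU.mem_nhds hp] with q hq
      exact h.smul q hq c u
    rw [h1.fderiv_eq, ((hd u p hp).hasFDerivAt.const_mul c).fderiv, smul_apply, smul_eq_mul]
    ring
  · rw [← h.d p hp, ← h.d p hp]
    ring
  · have h1 : ContDiffOn ℝ ∞ (fun p => fderiv ℝ (fun q => β q v) p u -
        fderiv ℝ (fun q => β q u) p v) U :=
      (TA1_smooth_fderiv hU (h.smooth v) u).sub (TA1_smooth_fderiv hU (h.smooth u) v)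
    exact h1.congr fun p hp => (h.d p hp u v).symm
  · have hk : ∀ u v w, fderiv ℝ (fun q => Z q v w) p u =
        fderiv ℝ (fderiv ℝ (fun q => β q w)) p u v - fderiv ℝ (fderiv ℝ (fun q => β q v)) p u w := by
      intro u v w
      have h1 : (fun q => Z q v w) =ᶠ[nhds p] fun q => fderiv ℝ (fun q => β q w) q v -
          fderiv ℝ (fun q => β q v) q w := by
        filter_upwards [hU.mem_nhds hp] with q hq
        exact (h.d q hq v w).symm
      rw [h1.fderiv_eq, ((TA1_snd hU (h.smooth w) hp v).fun_sub (TA1_snd hU (h.smooth v) hp w)).fderiv]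
      rfl
    rw [hk, hk, hk, TA1_symm hU (h.smooth w) hp u v, TA1_symm hU (h.smooth v) hp u w,
      TA1_symm hU (h.smooth u) hp v w]
    ring

theorem TA1_smooth_pull [FiniteDimensional ℝ F] {U : Set E} {V : Set F} (hU : IsOpen U)
    {G : E → F} (hG : ContDiffOn ℝ ∞ G U) (hm : ∀ p ∈ U, G p ∈ V)
    {Y : F → F → F → ℝ} (hY : CForm V Y) (u v : E) :
    ContDiffOn ℝ ∞ (fun p => pull G Y p u v) U := by
  have h1 : ContDiffOn ℝ ∞ (fun p => ∑ i, ∑ j,
      TA1_co i (fderiv ℝ G p u) * TA1_co j (fderiv ℝ G p v) *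
      Y (G p) (Module.finBasis ℝ F i) (Module.finBasis ℝ F j)) U := by
    refine ContDiffOn.sum fun i _ => ContDiffOn.sum fun j _ => ?_
    refine ContDiffOn.mul (ContDiffOn.mul ?_ ?_) ?_
    · exact (TA1_co i).contDiff.comp_contDiffOn (TA1_smooth_fderiv hU hG u)
    · exact (TA1_co j).contDiff.comp_contDiffOn (TA1_smooth_fderiv hU hG v)
    · exact (hY.smooth _ _).comp hG hm
  exact h1.congr fun p hp => TA1_expand hY (hm p hp) _ _

/-- The pull-back of a closed form is closed. -/
theorem pull_cform [FiniteDimensional ℝ F] {U : Set E} {V : Set F} (hU : IsOpen U)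
    (hV : IsOpen V) {G : E → F} (hG : ContDiffOn ℝ ∞ G U) (hm : ∀ p ∈ U, G p ∈ V)
    {Y : F → F → F → ℝ} (hY : CForm V Y) : CForm U (pull G Y) := by
  refine ⟨fun p hp u u' v => ?_, fun p hp c u v => ?_, fun p hp u v => ?_, fun u v => ?_,
    fun p hp u v w => ?_⟩
  · unfold pull
    rw [map_add, hY.add_left _ (hm p hp)]
  · unfold pull
    rw [map_smul, hY.smul_left _ (hm p hp)]
  · unfold pull
    rw [hY.alt _ (hm p hp)]
  · exact TA1_smooth_pull hU hG hm hY u v
  · have hGd : HasFDerivAt G (fderiv ℝ G p) p :=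
      ((hG.contDiffAt (hU.mem_nhds hp)).differentiableAt (by simp)).hasFDerivAt
    have hk : ∀ u v w, fderiv ℝ (fun q => pull G Y q v w) p u =
        Y (G p) (fderiv ℝ (fderiv ℝ G) p u v) (fderiv ℝ G p w) +
        Y (G p) (fderiv ℝ G p v) (fderiv ℝ (fderiv ℝ G) p u w) +
        fderiv ℝ (fun q => Y q (fderiv ℝ G p v) (fderiv ℝ G p w)) (G p) (fderiv ℝ G p u) := by
      intro u v w
      exact (TA1_fderiv hV hY (hm p hp) hGd (TA1_snd hU hG hp v) (TA1_snd hU hG hp w)).2 u
    have hc := hY.closed (G p) (hm p hp) (fderiv ℝ G p u) (fderiv ℝ G p v) (fderiv ℝ G p w)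
    rw [hk, hk, hk, TA1_symm hU hG hp v u, TA1_symm hU hG hp w u, TA1_symm hU hG hp w v,
      hY.alt _ (hm p hp) (fderiv ℝ G p w) (fderiv ℝ (fderiv ℝ G) p u v),
      hY.alt _ (hm p hp) (fderiv ℝ G p v) (fderiv ℝ (fderiv ℝ G) p u w),
      hY.alt _ (hm p hp) (fderiv ℝ G p u) (fderiv ℝ (fderiv ℝ G) p v w)]
    linear_combination hc

/-- The pull-back commutes with `d`. -/
theorem pull_isD [FiniteDimensional ℝ F] {U : Set E} {V : Set F} (hU : IsOpen U)
    (hV : IsOpen V) {G : E → F} (hG : ContDiffOn ℝ ∞ G U) (hm : ∀ p ∈ U, G p ∈ V)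
    {β : F → F → ℝ} {Z : F → F → F → ℝ} (h : IsD V β Z) : IsD U (pull1 G β) (pull G Z) := by
  refine ⟨fun p hp u v => ?_, fun p hp c u => ?_, fun u => ?_, fun p hp u v => ?_⟩
  · unfold pull1
    rw [map_add, h.add _ (hm p hp)]
  · unfold pull1
    rw [map_smul, h.smul _ (hm p hp)]
  · have h1 : ContDiffOn ℝ ∞ (fun p => ∑ i,
        TA1_co i (fderiv ℝ G p u) * β (G p) (Module.finBasis ℝ F i)) U := by
      refine ContDiffOn.sum fun i _ => ?_
      refine ContDiffOn.mul ?_ ?_
      · exact (TA1_co i).contDiff.comp_contDiffOn (TA1_smooth_fderiv hU hG u)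
      · exact (h.smooth _).comp hG hm
    exact h1.congr fun p hp => TA1_expand1 h (hm p hp) _
  · have hGd : HasFDerivAt G (fderiv ℝ G p) p :=
      ((hG.contDiffAt (hU.mem_nhds hp)).differentiableAt (by simp)).hasFDerivAt
    have hk : ∀ u v, fderiv ℝ (fun q => pull1 G β q v) p u =
        β (G p) (fderiv ℝ (fderiv ℝ G) p u v) +
        fderiv ℝ (fun q => β q (fderiv ℝ G p v)) (G p) (fderiv ℝ G p u) := by
      intro u v
      exact TA1_fderiv1 hV h (hm p hp) hGd (TA1_snd hU hG hp v) u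
    have hc := h.d (G p) (hm p hp) (fderiv ℝ G p u) (fderiv ℝ G p v)
    unfold pull
    rw [hk, hk, TA1_symm hU hG hp v u, ← hc]
    ring

/-- Chain rule. -/
theorem pull_pull {E' : Type} [NormedAddCommGroup E'] [NormedSpace ℝ E'] {G : E → F} {H : F → E'}
    {p : E} (hG : DifferentiableAt ℝ G p) (hH : DifferentiableAt ℝ H (G p))
    (Y : E' → E' → E' → ℝ) (u v : E) : pull G (pull H Y) p u v = pull (fun q => H (G q)) Y p u v := by
  unfold pull
  rw [fderiv_fun_comp p hH hG]
  rfl

/-- A closed form is continuous (as a function of the point and of both vectors). -/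
theorem CForm.continuousOn [FiniteDimensional ℝ F] {V : Set F} {Y : F → F → F → ℝ}
    (hY : CForm V Y) : ContinuousOn (fun q : F × F × F => Y q.1 q.2.1 q.2.2) (V ×ˢ univ) := by
  have h1 : ContinuousOn (fun q : F × F × F => ∑ i, ∑ j,
      TA1_co i q.2.1 * TA1_co j q.2.2 *
      Y q.1 (Module.finBasis ℝ F i) (Module.finBasis ℝ F j)) (V ×ˢ univ) := by
    refine continuousOn_finsetSum _ fun i _ => continuousOn_finsetSum _ fun j _ => ?_
    refine ContinuousOn.mul (Continuous.continuousOn ?_) ?_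
    · exact ((TA1_co i).continuous.comp (by fun_prop)).mul ((TA1_co j).continuous.comp (by fun_prop))
    · exact (hY.smooth _ _).continuousOn.comp continuous_fst.continuousOn fun q hq => hq.1
  exact h1.congr fun q hq => TA1_expand hY hq.1 _ _

end H31R.Tp
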