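import Pool.Agent.Lib.H31R.TDefs

/-!
# H31R, chunk TA2: Stokes on the unit square and on the unit cube

`MeasureTheory.integral_divergence_of_hasFDerivAt_off_countable` (n = 1, 2) with `f` = the coefficients
of the form: for the square `f = ![β · (eb 1), -β · (eb 0)]`, for the cube
`f = ![Z · (eb 1) (eb 2), -Z · (eb 0) (eb 2), Z · (eb 0) (eb 1)]` (its divergence vanishes since `Z` is
closed; use `alt` to rewrite `Z (eb 2) (eb 0)`).
-/

open scoped ContDiff
open Real Set MeasureTheory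

namespace H31R.Tp

/-- The divergence theorem on the unit cube. -/
theorem TA2_div {n : ℕ} (g : Fin (n + 1) → QQ (n + 1) → ℝ) (hg : ∀ i, ContDiff ℝ 1 (g i)) :
    MM (fun t => ∑ i, fderiv ℝ (g i) t (eb i)) =
      ∑ i, (MM (fun x : QQ n => g i (i.insertNth 1 x)) - MM (fun x : QQ n => g i (i.insertNth 0 x))) := by
  have hc : ∀ i, Continuous (fun t => fderiv ℝ (g i) t (eb i)) := fun i =>
    ((hg i).continuous_fderiv (by simp)).clm_apply continuous_const
  have h := integral_divergence_of_hasFDerivAt_off_countable' (E := ℝ) (0 : QQ (n + 1)) 1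
    (fun i => by simp) g (fun i => fderiv ℝ (g i)) ∅ countable_empty
    (fun i => (hg i).continuous.continuousOn)
    (fun x _ i => ((hg i).differentiable (by simp)).differentiableAt.hasFDerivAt)
    ((continuous_finsetSum _ fun i _ => hc i).continuousOn.integrableOn_compact isCompact_Icc)
  unfold MM
  rw [h]
  refine Finset.sum_congr rfl fun i _ => ?_
  rfl

theorem TA2_neg {n : ℕ} (f : QQ n → ℝ) : MM (fun x => -f x) = -MM f := by
  unfold MM
  exact integral_neg _

theorem stokes2 {β : QQ 2 → QQ 2 → ℝ} {Z : QQ 2 → QQ 2 → QQ 2 → ℝ} (h : IsD univ β Z) :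
    MM (fun t => Z t (eb 0) (eb 1)) =
      (MM (fun x : QQ 1 => β ![1, x 0] (eb 1)) - MM (fun x : QQ 1 => β ![0, x 0] (eb 1))) -
      (MM (fun x : QQ 1 => β ![x 0, 1] (eb 0)) - MM (fun x : QQ 1 => β ![x 0, 0] (eb 0))) := by
  have hs : ∀ u, ContDiff ℝ 1 (fun t => β t u) := fun u =>
    (contDiffOn_univ.1 (h.smooth u)).of_le (by simp)
  have h1 := TA2_div (n := 1) ![fun t => β t (eb 1), fun t => -β t (eb 0)] (by
    intro i
    fin_cases i
    · exact hs _
    · exact (hs _).neg)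
  have h2 : (fun t : QQ 2 => ∑ i, fderiv ℝ ((![fun t => β t (eb 1), fun t => -β t (eb 0)] :
      Fin 2 → QQ 2 → ℝ) i) t (eb i)) = fun t => Z t (eb 0) (eb 1) := by
    funext t
    rw [Fin.sum_univ_two, ← h.d t (mem_univ _)]
    simp only [Matrix.cons_val_zero, Matrix.cons_val_one]
    rw [fderiv_fun_neg, neg_apply]
    ring
  rw [h2, Fin.sum_univ_two] at h1
  rw [h1]
  have e0 : ∀ (c : ℝ) (x : QQ 1), (Fin.insertNth (0 : Fin 2) c x : QQ 2) = ![c, x 0] := by
    intro c x
    funext j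
    fin_cases j <;> rfl
  have e1 : ∀ (c : ℝ) (x : QQ 1), (Fin.insertNth (1 : Fin 2) c x : QQ 2) = ![x 0, c] := by
    intro c x
    funext j
    fin_cases j <;> rfl
  simp only [Matrix.cons_val_zero, Matrix.cons_val_one, e0, e1]
  rw [TA2_neg, TA2_neg]
  ring

theorem stokes3 {Z : QQ 3 → QQ 3 → QQ 3 → ℝ} (h : CForm univ Z) :
    (MM (fun x : QQ 2 => Z ![1, x 0, x 1] (eb 1) (eb 2)) -
        MM (fun x : QQ 2 => Z ![0, x 0, x 1] (eb 1) (eb 2))) -
      (MM (fun x : QQ 2 => Z ![x 0, 1, x 1] (eb 0) (eb 2)) -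
        MM (fun x : QQ 2 => Z ![x 0, 0, x 1] (eb 0) (eb 2))) +
      (MM (fun x : QQ 2 => Z ![x 0, x 1, 1] (eb 0) (eb 1)) -
        MM (fun x : QQ 2 => Z ![x 0, x 1, 0] (eb 0) (eb 1))) = 0 := by
  have hs : ∀ u v, ContDiff ℝ 1 (fun t => Z t u v) := fun u v =>
    (contDiffOn_univ.1 (h.smooth u v)).of_le (by simp)
  have h1 := TA2_div (n := 2) ![fun t => Z t (eb 1) (eb 2), fun t => -Z t (eb 0) (eb 2),
    fun t => Z t (eb 0) (eb 1)] (by
    intro i
    fin_cases i
    · exact hs _ _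
    · exact (hs _ _).neg
    · exact hs _ _)
  have h2 : (fun t : QQ 3 => ∑ i, fderiv ℝ ((![fun t => Z t (eb 1) (eb 2),
      fun t => -Z t (eb 0) (eb 2), fun t => Z t (eb 0) (eb 1)] :
      Fin 3 → QQ 3 → ℝ) i) t (eb i)) = fun t => 0 := by
    funext t
    rw [Fin.sum_univ_three, ← h.closed t (mem_univ _) (eb 0) (eb 1) (eb 2)]
    have h3 : (fun q => Z q (eb 2) (eb 0)) = fun q => -Z q (eb 0) (eb 2) := by
      funext q
      exact h.alt q (mem_univ _) _ _
    rw [h3]
    rfl
  rw [h2, Fin.sum_univ_three] at h1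
  have e0 : ∀ (c : ℝ) (x : QQ 2), (Fin.insertNth (0 : Fin 3) c x : QQ 3) = ![c, x 0, x 1] := by
    intro c x
    funext j
    fin_cases j <;> rfl
  have e1 : ∀ (c : ℝ) (x : QQ 2), (Fin.insertNth (1 : Fin 3) c x : QQ 3) = ![x 0, c, x 1] := by
    intro c x
    funext j
    fin_cases j <;> rfl
  have e2 : ∀ (c : ℝ) (x : QQ 2), (Fin.insertNth (2 : Fin 3) c x : QQ 3) = ![x 0, x 1, c] := by
    intro c x
    funext j
    fin_cases j <;> rfl
  simp only [Matrix.cons_val_zero, Matrix.cons_val_one, Matrix.cons_val_two, Matrix.tail_cons,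
    Matrix.head_cons, e0, e1, e2] at h1
  rw [TA2_neg, TA2_neg] at h1
  have h4 : MM (fun _ : QQ 3 => (0 : ℝ)) = 0 := by
    unfold MM
    simp
  rw [h4] at h1
  linarith

/-- The mean of a derivative of a periodic function is `0`. -/
theorem MM_deriv_periodic {m : ℕ} {f : QQ m → ℝ} (hf : ContDiff ℝ 1 f) (i : Fin m)
    (hp : ∀ t, f (t + eb i) = f t) : MM (fun t => fderiv ℝ f t (eb i)) = 0 := by
  classical
  obtain ⟨n, rfl⟩ : ∃ n, m = n + 1 := ⟨m - 1, by have := i.pos; omega⟩
  have h1 := TA2_div (n := n) (fun j => if j = i then f else fun _ => 0) (by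
    intro j
    split_ifs
    · exact hf
    · exact contDiff_const)
  have h2 : (fun t : QQ (n + 1) => ∑ j, fderiv ℝ ((fun j => if j = i then f else fun _ => 0) j) t
      (eb j)) = fun t => fderiv ℝ f t (eb i) := by
    funext t
    rw [Finset.sum_eq_single i]
    · simp
    · intro j _ hj
      simp [hj]
    · intro h
      exact absurd (Finset.mem_univ _) h
  rw [h2] at h1
  rw [h1]
  refine Finset.sum_eq_zero fun j _ => ?_
  by_cases hj : j = i
  · subst hj
    have h3 : ∀ x : QQ n, (Fin.insertNth j (1 : ℝ) x : QQ (n + 1)) = Fin.insertNth j (0 : ℝ) x + eb j := by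
      intro x
      funext l
      refine Fin.succAboveCases j ?_ (fun l => ?_) l
      · simp
      · simp [Fin.succAbove_ne]
    simp only [if_true, h3, hp, sub_self]
  · simp [hj]

end H31R.Tp
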