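import Pool.Agent.Lib.H31R.TA1
import Pool.Agent.Lib.H31R.TA2


/-!
# H31R, chunk TA3: homotopy invariance, exact forms

`JJ_homotopy`: `stokes3` for `Z = pull G Y` (closed by `pull_cform`); `Z ![a, x 0, x 1] (eb 1) (eb 2)` is
the integrand of `JJ Y (fun t => G ![a, t 0, t 1])` by the chain rule. The faces `t 2 = 0, 1` cancel by
`per` (the derivative of `G` at `t + eb 2` and at `t` agree); the faces `t 1 = 0, 1` cancel or vanish
(`G` has derivative `0` in the direction `eb 2`).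
`JJ_exact`: `stokes2` for `pull1 F β`, `pull F Z` in the same way.
-/

open scoped ContDiff
open Real Set MeasureTheory

namespace H31R.Tp

/-- the face `t 0 = a` -/
theorem TA3_face (a : ℝ) (t : QQ 2) :
    HasFDerivAt (fun t : QQ 2 => (![a, t 0, t 1] : QQ 3))
      (ContinuousLinearMap.pi ![0, ContinuousLinearMap.proj 0, ContinuousLinearMap.proj 1] :
        QQ 2 →L[ℝ] QQ 3) t := by
  rw [hasFDerivAt_pi]
  intro i
  fin_cases i
  · exact hasFDerivAt_const a t
  · exact (ContinuousLinearMap.proj (R := ℝ) (φ := fun _ : Fin 2 => ℝ) 0).hasFDerivAt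
  · exact (ContinuousLinearMap.proj (R := ℝ) (φ := fun _ : Fin 2 => ℝ) 1).hasFDerivAt

theorem TA3_L0 : (ContinuousLinearMap.pi ![0, ContinuousLinearMap.proj 0,
    ContinuousLinearMap.proj 1] : QQ 2 →L[ℝ] QQ 3) (eb 0) = eb 1 := by
  funext i
  fin_cases i <;> simp [eb]

theorem TA3_L1 : (ContinuousLinearMap.pi ![0, ContinuousLinearMap.proj 0,
    ContinuousLinearMap.proj 1] : QQ 2 →L[ℝ] QQ 3) (eb 1) = eb 2 := by
  funext i
  fin_cases i <;> simp [eb]

theorem TA3_pull_face {G : QQ 3 → EE 7} (hG : ContDiff ℝ ∞ G) (Y : EE 7 → EE 7 → EE 7 → ℝ)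
    (a : ℝ) (t : QQ 2) :
    pull (fun t : QQ 2 => G ![a, t 0, t 1]) Y t (eb 0) (eb 1) =
      pull G Y ![a, t 0, t 1] (eb 1) (eb 2) := by
  have h1 : HasFDerivAt G (fderiv ℝ G ![a, t 0, t 1]) ![a, t 0, t 1] :=
    (hG.differentiable (by simp) _).hasFDerivAt
  have h2 := h1.comp t (TA3_face a t)
  have h3 : fderiv ℝ (fun t : QQ 2 => G ![a, t 0, t 1]) t = (fderiv ℝ G ![a, t 0, t 1]).comp
      (ContinuousLinearMap.pi ![0, ContinuousLinearMap.proj 0, ContinuousLinearMap.proj 1] :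
        QQ 2 →L[ℝ] QQ 3) := h2.fderiv
  unfold pull
  rw [h3, ContinuousLinearMap.comp_apply, ContinuousLinearMap.comp_apply, TA3_L0, TA3_L1]

/-- periodicity of the derivative -/
theorem TA3_per {m : ℕ} {G : QQ m → EE 7} {e : QQ m} (h : ∀ t, G (t + e) = G t) (t : QQ m) :
    fderiv ℝ G (t + e) = fderiv ℝ G t := by
  have h1 : (fun t => G (t + e)) = G := funext h
  rw [← fderiv_comp_add_right, h1]

theorem TA3_pull_per {m : ℕ} {G : QQ m → EE 7} {e : QQ m} (h : ∀ t, G (t + e) = G t)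
    (Y : EE 7 → EE 7 → EE 7 → ℝ) (t u v : QQ m) : pull G Y (t + e) u v = pull G Y t u v := by
  unfold pull
  rw [TA3_per h, h]

theorem TA3_pull1_per {m : ℕ} {G : QQ m → EE 7} {e : QQ m} (h : ∀ t, G (t + e) = G t)
    (β : EE 7 → EE 7 → ℝ) (t u : QQ m) : pull1 G β (t + e) u = pull1 G β t u := by
  unfold pull1
  rw [TA3_per h, h]

theorem TA3_zero_right {U : Set (EE 7)} {Y : EE 7 → EE 7 → EE 7 → ℝ} (hY : CForm U Y) {p : EE 7}
    (hp : p ∈ U) (u : EE 7) : Y p u 0 = 0 := by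
  have h := hY.smul_left p hp 0 0 u
  rw [zero_smul, zero_mul] at h
  rw [hY.alt p hp, h, neg_zero]

theorem JJ_homotopy {Y : EE 7 → EE 7 → EE 7 → ℝ} (hY : CForm OM Y) {G : QQ 3 → EE 7}
    (hG : ContDiff ℝ ∞ G) (mem : ∀ t, G t ∈ OM) (per : ∀ t, G (t + eb 2) = G t)
    (cl : (∀ t, G (t + eb 1) = G t) ∨ ∀ t, t 1 = 0 ∨ t 1 = 1 → fderiv ℝ G t (eb 2) = 0) :
    JJ Y (fun t => G ![1, t 0, t 1]) = JJ Y (fun t => G ![0, t 0, t 1]) := by
  have hZ : CForm univ (pull G Y) :=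
    pull_cform isOpen_univ OM_open hG.contDiffOn (fun p _ => mem p) hY
  have hS := stokes3 hZ
  have h2 : ∀ x : QQ 2, pull G Y ![x 0, x 1, 1] (eb 0) (eb 1) =
      pull G Y ![x 0, x 1, 0] (eb 0) (eb 1) := by
    intro x
    have e : (![x 0, x 1, 1] : QQ 3) = ![x 0, x 1, 0] + eb 2 := by
      funext i
      fin_cases i <;> simp [eb]
    rw [e, TA3_pull_per per]
  have h1 : MM (fun x : QQ 2 => pull G Y ![x 0, 1, x 1] (eb 0) (eb 2)) =
      MM (fun x : QQ 2 => pull G Y ![x 0, 0, x 1] (eb 0) (eb 2)) := by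
    congr 1
    funext x
    rcases cl with cl | cl
    · have e : (![x 0, 1, x 1] : QQ 3) = ![x 0, 0, x 1] + eb 1 := by
        funext i
        fin_cases i <;> simp [eb]
      rw [e, TA3_pull_per cl]
    · unfold pull
      rw [cl _ (Or.inr rfl), cl _ (Or.inl rfl), TA3_zero_right hY (mem _),
        TA3_zero_right hY (mem _)]
  have h3 : MM (fun x : QQ 2 => pull G Y ![x 0, x 1, 1] (eb 0) (eb 1)) =
      MM (fun x : QQ 2 => pull G Y ![x 0, x 1, 0] (eb 0) (eb 1)) := by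
    congr 1
    funext x
    exact h2 x
  have h0 : ∀ a : ℝ, JJ Y (fun t => G ![a, t 0, t 1]) =
      MM (fun x : QQ 2 => pull G Y ![a, x 0, x 1] (eb 1) (eb 2)) := by
    intro a
    unfold JJ
    congr 1
    funext x
    exact TA3_pull_face hG Y a x
  rw [h0, h0]
  linarith

theorem JJ_exact {β : EE 7 → EE 7 → ℝ} {Z : EE 7 → EE 7 → EE 7 → ℝ} (h : IsD OM β Z)
    {F : QQ 2 → EE 7} (hF : Surf F) : JJ Z F = 0 := by
  have hD : IsD univ (pull1 F β) (pull F Z) :=
    pull_isD isOpen_univ OM_open hF.smooth.contDiffOn (fun p _ => hF.mem p) h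
  have hS := stokes2 hD
  have hz : ∀ p ∈ OM, β p 0 = 0 := by
    intro p hp
    have := h.smul p hp 0 0
    rwa [zero_smul, zero_mul] at this
  have h1 : MM (fun x : QQ 1 => pull1 F β ![1, x 0] (eb 1)) =
      MM (fun x : QQ 1 => pull1 F β ![0, x 0] (eb 1)) := by
    congr 1
    funext x
    rcases hF.cl with cl | cl
    · have e : (![1, x 0] : QQ 2) = ![0, x 0] + eb 0 := by
        funext i
        fin_cases i <;> simp [eb]
      rw [e, TA3_pull1_per cl]
    · unfold pull1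
      rw [cl _ (Or.inr rfl), cl _ (Or.inl rfl), hz _ (hF.mem _), hz _ (hF.mem _)]
  have h2 : MM (fun x : QQ 1 => pull1 F β ![x 0, 1] (eb 0)) =
      MM (fun x : QQ 1 => pull1 F β ![x 0, 0] (eb 0)) := by
    congr 1
    funext x
    have e : (![x 0, 1] : QQ 2) = ![x 0, 0] + eb 1 := by
      funext i
      fin_cases i <;> simp [eb]
    rw [e, TA3_pull1_per hF.per]
  unfold JJ
  rw [hS, h1, h2]
  ring

theorem TA3_int {Y : EE 7 → EE 7 → EE 7 → ℝ} (hY : CForm OM Y) {F : QQ 2 → EE 7} (hF : Surf F) :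
    IntegrableOn (fun t => pull F Y t (eb 0) (eb 1)) (Icc (0 : QQ 2) 1) := by
  have hZ : CForm univ (pull F Y) :=
    pull_cform isOpen_univ OM_open hF.smooth.contDiffOn (fun p _ => hF.mem p) hY
  have hc : ContinuousOn (fun t => pull F Y t (eb 0) (eb 1)) (Icc (0 : QQ 2) 1) :=
    (hZ.smooth (eb 0) (eb 1)).continuousOn.mono (subset_univ _)
  exact hc.integrableOn_compact isCompact_Icc

/-- Linearity of `JJ`. -/
theorem JJ_comb {Y Y' : EE 7 → EE 7 → EE 7 → ℝ} (hY : CForm OM Y) (hY' : CForm OM Y') (a b : ℝ)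
    {F : QQ 2 → EE 7} (hF : Surf F) :
    JJ (fun p u v => a * Y p u v + b * Y' p u v) F = a * JJ Y F + b * JJ Y' F := by
  unfold JJ MM
  have h1 := (TA3_int hY hF).const_mul a
  have h2 := (TA3_int hY' hF).const_mul b
  have h3 : (fun t => pull F (fun p u v => a * Y p u v + b * Y' p u v) t (eb 0) (eb 1)) =
      fun t => a * pull F Y t (eb 0) (eb 1) + b * pull F Y' t (eb 0) (eb 1) := rfl
  rw [h3, integral_add h1 h2, integral_const_mul, integral_const_mul]

theorem JJ_congr {Y Y' : EE 7 → EE 7 → EE 7 → ℝ} (h : ∀ p ∈ OM, ∀ u v, Y p u v = Y' p u v)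
    {F : QQ 2 → EE 7} (mem : ∀ t, F t ∈ OM) : JJ Y F = JJ Y' F := by
  unfold JJ
  congr 1
  funext t
  exact h _ (mem t) _ _

/-- Composition of a closed surface with a smooth map `OM → OM`. -/
theorem Surf.comp {F : QQ 2 → EE 7} (hF : Surf F) {G : EE 7 → EE 7} (hG : ContDiffOn ℝ ∞ G OM)
    (hm : ∀ p ∈ OM, G p ∈ OM) : Surf fun t => G (F t) := by
  refine ⟨hG.comp_contDiff hF.smooth hF.mem, fun t => hm _ (hF.mem t), fun t => ?_, ?_⟩
  · rw [hF.per]
  · rcases hF.cl with cl | cl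
    · left
      intro t
      rw [cl]
    · right
      intro t ht
      have h1 : DifferentiableAt ℝ G (F t) :=
        (hG.contDiffAt (OM_open.mem_nhds (hF.mem t))).differentiableAt (by simp)
      have h2 : DifferentiableAt ℝ F t := hF.smooth.differentiable (by simp) t
      have h3 : fderiv ℝ (fun t => G (F t)) t = (fderiv ℝ G (F t)).comp (fderiv ℝ F t) :=
        (h1.hasFDerivAt.comp t h2.hasFDerivAt).fderiv
      rw [h3, ContinuousLinearMap.comp_apply, cl t ht, map_zero]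

theorem JJ_pull {F : QQ 2 → EE 7} (hF : Surf F) {G : EE 7 → EE 7} (hG : ContDiffOn ℝ ∞ G OM)
    (Y : EE 7 → EE 7 → EE 7 → ℝ) : JJ (pull G Y) F = JJ Y fun t => G (F t) := by
  unfold JJ
  congr 1
  funext t
  have h1 : DifferentiableAt ℝ G (F t) :=
    (hG.contDiffAt (OM_open.mem_nhds (hF.mem t))).differentiableAt (by simp)
  have h2 : DifferentiableAt ℝ F t := hF.smooth.differentiable (by simp) t
  exact pull_pull h2 h1 Y _ _

end H31R.Tp
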