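import Pool.Agent.Lib.H31R.TA2

/-!
# H31R, chunk TA5a: means over the unit cube: parameters, translations

`MM_hasFDerivAt`: differentiation under the integral (compact cube, continuous derivative;
`hasFDerivAt_integral_of_dominated_of_fderiv_le` or the versions for `ContDiff` integrands); it is
enough to have it for a real parameter.
`MM_translate`: the derivative of `r ↦ MM (fun t => f (t + r • s))` is
`∑ i, s i * MM (fun t => fderiv f (t + r • s) (eb i)) = 0` (`MM_deriv_periodic`).
-/

open scoped ContDiff
open Real Set MeasureTheory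

namespace H31R.Tp

theorem ta5a_int {m : ℕ} {f : QQ m → ℝ} (hf : Continuous f) :
    IntegrableOn f (Icc (0 : QQ m) 1) :=
  hf.continuousOn.integrableOn_compact isCompact_Icc

/-- Differentiation under the integral sign. -/
theorem MM_hasDerivAt {m : ℕ} {f : ℝ × QQ m → ℝ} (hf : ContDiff ℝ 1 f) (r : ℝ) :
    HasDerivAt (fun r => MM fun t => f (r, t)) (MM fun t => fderiv ℝ f (r, t) (1, 0)) r := by
  have hc : Continuous fun q : ℝ × QQ m => fderiv ℝ f q (1, 0) :=
    (hf.continuous_fderiv one_ne_zero).clm_apply continuous_const
  obtain ⟨C, hC⟩ := ((isCompact_Icc (a := r - 1) (b := r + 1)).prod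
    (isCompact_Icc (a := (0 : QQ m)) (b := 1))).exists_bound_of_continuousOn hc.continuousOn
  unfold MM
  have key := hasDerivAt_integral_of_dominated_loc_of_deriv_le (μ := volume.restrict (Icc (0 : QQ m) 1))
    (F := fun r t => f (r, t)) (F' := fun r t => fderiv ℝ f (r, t) (1, 0)) (x₀ := r)
    (s := Icc (r - 1) (r + 1)) (bound := fun _ => C) (Icc_mem_nhds (by linarith) (by linarith))
    ?_ ?_ ?_ ?_ ?_ ?_
  · exact key.2
  · refine Filter.Eventually.of_forall fun x => ?_
    exact (hf.continuous.comp (by fun_prop : Continuous fun t : QQ m => (x, t))).aestronglyMeasurable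
  · exact ta5a_int (hf.continuous.comp (by fun_prop : Continuous fun t : QQ m => (r, t)))
  · exact (hc.comp (by fun_prop : Continuous fun t : QQ m => (r, t))).aestronglyMeasurable
  · refine ae_restrict_of_forall_mem measurableSet_Icc fun t ht x hx => ?_
    exact hC (x, t) ⟨hx, ht⟩
  · exact ta5a_int continuous_const
  · refine Filter.Eventually.of_forall fun t x _ => ?_
    have h1 : HasFDerivAt f (fderiv ℝ f (x, t)) (x, t) :=
      (hf.differentiable one_ne_zero (x, t)).hasFDerivAt
    have h2 : HasDerivAt (fun y : ℝ => (y, t)) ((1 : ℝ), (0 : QQ m)) x :=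
      (hasDerivAt_id x).prodMk (hasDerivAt_const x t)
    exact h1.comp_hasDerivAt x h2

theorem MM_add {m : ℕ} {f g : QQ m → ℝ} (hf : Continuous f) (hg : Continuous g) :
    MM (fun t => f t + g t) = MM f + MM g := by
  unfold MM
  exact integral_add (ta5a_int hf) (ta5a_int hg)

theorem MM_sub {m : ℕ} {f g : QQ m → ℝ} (hf : Continuous f) (hg : Continuous g) :
    MM (fun t => f t - g t) = MM f - MM g := by
  unfold MM
  exact integral_sub (ta5a_int hf) (ta5a_int hg)

theorem MM_mul {m : ℕ} (c : ℝ) (f : QQ m → ℝ) : MM (fun t => c * f t) = c * MM f := by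
  unfold MM
  exact integral_const_mul _ _

theorem MM_const {m : ℕ} (c : ℝ) : MM (fun _ : QQ m => c) = c := by
  unfold MM
  rw [setIntegral_const]
  have h : volume.real (Icc (0 : QQ m) 1) = 1 := by
    rw [measureReal_def, Real.volume_Icc_pi]
    simp
  rw [h, one_smul]

/-- Fubini. -/
theorem MM_comm {m m' : ℕ} {f : QQ m → QQ m' → ℝ}
    (hf : Continuous fun q : QQ m × QQ m' => f q.1 q.2) :
    MM (fun s => MM fun t => f s t) = MM fun t => MM fun s => f s t := by
  unfold MM
  apply integral_integral_swap
  rw [Measure.prod_restrict]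
  exact hf.continuousOn.integrableOn_compact (isCompact_Icc.prod isCompact_Icc)

theorem ta5a_sum {m : ℕ} {h : Fin m → QQ m → ℝ} (hc : ∀ i, Continuous (h i)) (s : QQ m) :
    MM (fun t => ∑ i, s i * h i t) = ∑ i, s i * MM (h i) := by
  unfold MM
  rw [integral_finsetSum]
  · refine Finset.sum_congr rfl fun i _ => ?_
    exact integral_const_mul _ _
  · intro i _
    exact ta5a_int (continuous_const.mul (hc i))

/-- Translations. -/
theorem MM_translate {m : ℕ} {f : QQ m → ℝ} (hf : ContDiff ℝ 1 f)
    (hp : ∀ i t, f (t + eb i) = f t) (s : QQ m) : MM (fun t => f (t + s)) = MM f := by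
  have hF : ContDiff ℝ 1 (fun q : ℝ × QQ m => f (q.2 + q.1 • s)) :=
    hf.comp (contDiff_snd.add (contDiff_fst.smul contDiff_const))
  have hd : ∀ r : ℝ, HasDerivAt (fun r : ℝ => MM fun t : QQ m => f (t + r • s)) 0 r := by
    intro r
    have h1 := MM_hasDerivAt hF r
    have h2 : (MM fun t => fderiv ℝ (fun q : ℝ × QQ m => f (q.2 + q.1 • s)) (r, t) (1, 0)) = 0 := by
      have h3 : ∀ t, fderiv ℝ (fun q : ℝ × QQ m => f (q.2 + q.1 • s)) (r, t) (1, 0) =
          ∑ i, s i * fderiv ℝ (fun t => f (t + r • s)) t (eb i) := by
        intro t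
        have h4 : HasFDerivAt f (fderiv ℝ f (t + r • s)) (t + r • s) :=
          (hf.differentiable one_ne_zero _).hasFDerivAt
        have h5 : HasFDerivAt (fun q : ℝ × QQ m => q.2 + q.1 • s)
            (ContinuousLinearMap.snd ℝ ℝ (QQ m) +
              (ContinuousLinearMap.fst ℝ ℝ (QQ m)).smulRight s) (r, t) :=
          hasFDerivAt_snd.add (hasFDerivAt_fst.smul_const s)
        have h6 := (h4.comp (r, t) h5).fderiv
        have h7 : (f ∘ fun q : ℝ × QQ m => q.2 + q.1 • s) =
            fun q : ℝ × QQ m => f (q.2 + q.1 • s) := rfl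
        rw [h7] at h6
        rw [h6]
        have h8 : ∀ v, fderiv ℝ (fun t => f (t + r • s)) t v = fderiv ℝ f (t + r • s) v := by
          intro v
          have h9 : HasFDerivAt (fun t : QQ m => t + r • s) (ContinuousLinearMap.id ℝ (QQ m)) t :=
            (hasFDerivAt_id t).add_const _
          have h10 := (h4.comp t h9).fderiv
          have h11 : (f ∘ fun t : QQ m => t + r • s) = fun t => f (t + r • s) := rfl
          rw [h11] at h10
          rw [h10]
          rfl
        simp_rw [h8]
        have h12 : ∑ i, s i • (eb i : QQ m) = s := by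
          ext j
          rw [Finset.sum_apply, Finset.sum_eq_single j]
          · simp
          · intro i _ hij
            simp [Pi.single_apply, Ne.symm hij]
          · intro hj
            exact absurd (Finset.mem_univ j) hj
        have h13 : fderiv ℝ f (t + r • s) s = ∑ i, s i * fderiv ℝ f (t + r • s) (eb i) := by
          have h14 := congrArg (fderiv ℝ f (t + r • s)) h12
          rw [map_sum] at h14
          rw [← h14]
          refine Finset.sum_congr rfl fun i _ => ?_
          rw [map_smul, smul_eq_mul]
        rw [← h13]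
        simp
      have hf' : ContDiff ℝ 1 (fun t : QQ m => f (t + r • s)) :=
        hf.comp (contDiff_id.add contDiff_const)
      simp_rw [h3]
      rw [ta5a_sum]
      · apply Finset.sum_eq_zero
        intro i _
        rw [MM_deriv_periodic hf' i, mul_zero]
        intro t
        have := hp i (t + r • s)
        rw [← this]
        congr 1
        abel
      · intro i
        exact (hf'.continuous_fderiv one_ne_zero).clm_apply continuous_const
    rw [h2] at h1
    exact h1
  have hconst := is_const_of_deriv_eq_zero (fun r => (hd r).differentiableAt)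
    (fun r => (hd r).deriv) 1 0
  simpa using hconst

end H31R.Tp
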