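import Pool.Agent.Lib.H31R.TA1
import Pool.Agent.Lib.H31R.TA2
import Pool.Agent.Lib.H31R.TA5a

/-!
# H31R, chunk TA4: `∫ dβ ∧ Z' = 0` on the torus `T^4`

With `b i = β · (eb i)`, `z i j = co Z' · i j` one has `wedge (co Z) (co Z') = ∑ c, ∂_c (V c)`, where
`V 0 = b 1 * z 2 3 - b 2 * z 1 3 + b 3 * z 1 2`, `V 1 = -(b 0 * z 2 3 - b 2 * z 0 3 + b 3 * z 0 2)`,
`V 2 = b 0 * z 1 3 - b 1 * z 0 3 + b 3 * z 0 1`, `V 3 = -(b 0 * z 1 2 - b 1 * z 0 2 + b 2 * z 0 1)`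
(the derivatives of the `z` cancel since `Z'` is closed). Apply `MM_deriv_periodic` to each `V c`.
-/

open scoped ContDiff
open Real Set MeasureTheory

namespace H31R.Tp

/-- the potentials -/
noncomputable def ta4V (β : QQ 4 → QQ 4 → ℝ) (Z' : QQ 4 → QQ 4 → QQ 4 → ℝ) (i j k : Fin 4)
    (t : QQ 4) : ℝ :=
  β t (eb i) * Z' t (eb j) (eb k) - β t (eb j) * Z' t (eb i) (eb k) +
    β t (eb k) * Z' t (eb i) (eb j)

theorem ta4_smooth {β : QQ 4 → QQ 4 → ℝ} {Z Z' : QQ 4 → QQ 4 → QQ 4 → ℝ} (h : IsD univ β Z)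
    (h' : CForm univ Z') (i j k : Fin 4) : ContDiff ℝ 1 (ta4V β Z' i j k) := by
  have hb : ∀ u, ContDiff ℝ 1 fun t => β t u := fun u =>
    (contDiffOn_univ.1 (h.smooth u)).of_le (by exact_mod_cast le_top)
  have hz : ∀ u v, ContDiff ℝ 1 fun t => Z' t u v := fun u v =>
    (contDiffOn_univ.1 (h'.smooth u v)).of_le (by exact_mod_cast le_top)
  unfold ta4V
  exact (((hb _).mul (hz _ _)).sub ((hb _).mul (hz _ _))).add ((hb _).mul (hz _ _))

theorem ta4_deriv {β : QQ 4 → QQ 4 → ℝ} {Z Z' : QQ 4 → QQ 4 → QQ 4 → ℝ} (h : IsD univ β Z)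
    (h' : CForm univ Z') (i j k : Fin 4) (t v : QQ 4) :
    fderiv ℝ (ta4V β Z' i j k) t v =
      (fderiv ℝ (fun t => β t (eb i)) t v * Z' t (eb j) (eb k) +
        β t (eb i) * fderiv ℝ (fun t => Z' t (eb j) (eb k)) t v) -
      (fderiv ℝ (fun t => β t (eb j)) t v * Z' t (eb i) (eb k) +
        β t (eb j) * fderiv ℝ (fun t => Z' t (eb i) (eb k)) t v) +
      (fderiv ℝ (fun t => β t (eb k)) t v * Z' t (eb i) (eb j) +
        β t (eb k) * fderiv ℝ (fun t => Z' t (eb i) (eb j)) t v) := by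
  have hb : ∀ u, HasFDerivAt (fun t => β t u) (fderiv ℝ (fun t => β t u) t) t := fun u =>
    (((contDiffOn_univ.1 (h.smooth u)).differentiable (by simp)) t).hasFDerivAt
  have hz : ∀ u v, HasFDerivAt (fun t => Z' t u v) (fderiv ℝ (fun t => Z' t u v) t) t := fun u v =>
    (((contDiffOn_univ.1 (h'.smooth u v)).differentiable (by simp)) t).hasFDerivAt
  have h1 := (((hb (eb i)).mul (hz (eb j) (eb k))).sub ((hb (eb j)).mul (hz (eb i) (eb k)))).add
    ((hb (eb k)).mul (hz (eb i) (eb j)))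
  have h2 : fderiv ℝ (ta4V β Z' i j k) t = _ := h1.fderiv
  rw [h2]
  simp only [add_apply, sub_apply,
    smul_apply, smul_eq_mul]
  ring

theorem ta4_zero {β : QQ 4 → QQ 4 → ℝ} {Z Z' : QQ 4 → QQ 4 → QQ 4 → ℝ} (h : IsD univ β Z)
    (hp : Per1 β) (h' : CForm univ Z') (hp' : Per Z') (i j k l : Fin 4) :
    MM (fun t => fderiv ℝ (ta4V β Z' i j k) t (eb l)) = 0 := by
  apply MM_deriv_periodic (ta4_smooth h h' i j k)
  intro t
  unfold ta4V
  simp only [hp l t, hp' l t]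

theorem ta4_cont {β : QQ 4 → QQ 4 → ℝ} {Z Z' : QQ 4 → QQ 4 → QQ 4 → ℝ} (h : IsD univ β Z)
    (h' : CForm univ Z') (i j k l : Fin 4) :
    Continuous (fun t => fderiv ℝ (ta4V β Z' i j k) t (eb l)) :=
  ((ta4_smooth h h' i j k).continuous_fderiv one_ne_zero).clm_apply continuous_const

theorem wedge_exact {β : QQ 4 → QQ 4 → ℝ} {Z Z' : QQ 4 → QQ 4 → QQ 4 → ℝ} (h : IsD univ β Z)
    (hp : Per1 β) (h' : CForm univ Z') (hp' : Per Z') :
    MM (fun t => wedge (co Z t) (co Z' t)) = 0 := by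
  have key : ∀ t, wedge (co Z t) (co Z' t) =
      (fderiv ℝ (ta4V β Z' 1 2 3) t (eb 0) - fderiv ℝ (ta4V β Z' 0 2 3) t (eb 1)) +
      (fderiv ℝ (ta4V β Z' 0 1 3) t (eb 2) - fderiv ℝ (ta4V β Z' 0 1 2) t (eb 3)) := by
    intro t
    rw [ta4_deriv h h', ta4_deriv h h', ta4_deriv h h', ta4_deriv h h']
    have hd := fun i j : Fin 4 => h.d t (mem_univ t) (eb i) (eb j)
    have hcl := fun i j k : Fin 4 => h'.closed t (mem_univ t) (eb i) (eb j) (eb k)
    have halt : ∀ (i k : Fin 4) (v : QQ 4), fderiv ℝ (fun q => Z' q (eb k) (eb i)) t v =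
        - fderiv ℝ (fun q => Z' q (eb i) (eb k)) t v := by
      intro i k v
      have h1 : (fun q => Z' q (eb k) (eb i)) = fun q => -Z' q (eb i) (eb k) := by
        funext q
        exact h'.alt q (mem_univ q) _ _
      rw [h1]
      have h2 : fderiv ℝ (fun q => -Z' q (eb i) (eb k)) t =
          -fderiv ℝ (fun q => Z' q (eb i) (eb k)) t := fderiv_neg
      rw [h2]
      rfl
    unfold wedge co
    rw [← hd 0 1, ← hd 0 2, ← hd 0 3, ← hd 1 2, ← hd 1 3, ← hd 2 3]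
    have c0 := hcl 1 2 3
    have c1 := hcl 0 2 3
    have c2 := hcl 0 1 3
    have c3 := hcl 0 1 2
    rw [halt 1 3] at c0
    rw [halt 0 3] at c1 c2
    rw [halt 0 2] at c3
    linear_combination β t (eb 0) * c0 - β t (eb 1) * c1 + β t (eb 2) * c2 - β t (eb 3) * c3
  simp_rw [key]
  rw [MM_add, MM_sub, MM_sub, ta4_zero h hp h' hp', ta4_zero h hp h' hp', ta4_zero h hp h' hp',
    ta4_zero h hp h' hp']
  · ring
  · exact ta4_cont h h' _ _ _ _
  · exact ta4_cont h h' _ _ _ _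
  · exact ta4_cont h h' _ _ _ _
  · exact ta4_cont h h' _ _ _ _
  · exact (ta4_cont h h' _ _ _ _).sub (ta4_cont h h' _ _ _ _)
  · exact (ta4_cont h h' _ _ _ _).sub (ta4_cont h h' _ _ _ _)

end H31R.Tp
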