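import Pool.Agent.Lib.H31R.TA5a

/-!
# H31R, chunk TA6: means over coordinate tori

Let `K t = MM (fun a : QQ 2 => Z (t + a 0 • eb i + a 1 • eb j) (eb i) (eb j))`. It has derivative `0`
(directions `i`, `j`: periodicity; other directions `c`: `∂_c Z_ij = -∂_i Z_jc - ∂_j Z_ci` since `Z` is
closed, and the mean of these derivatives over `a` is `0`: `MM_deriv_periodic` for the function
`a ↦ Z (t + a 0 • eb i + a 1 • eb j) ..` on `QQ 2`), so it is constant, and its mean over `t` is `mc Z i j`
(`MM_comm`, `MM_translate`). The left side of `mean_slice` is `K` at the point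
`Function.update (Function.update t i 0) j 0`.
-/

open scoped ContDiff
open Real Set MeasureTheory

namespace H31R.Tp

/-- A function with zero partial derivatives is constant. -/
theorem ta6_const {K : QQ 4 → ℝ} (h : ∀ (s : QQ 4) (c : Fin 4) (r : ℝ),
    HasDerivAt (fun r : ℝ => K (s + r • eb c)) 0 r) (t : QQ 4) : K t = K 0 := by
  have h1 : ∀ (s : QQ 4) (c : Fin 4) (r : ℝ), K (s + r • eb c) = K s := by
    intro s c r
    have h2 := is_const_of_deriv_eq_zero (fun x => (h s c x).differentiableAt)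
      (fun x => (h s c x).deriv) r 0
    simpa using h2
  have h2 : t = 0 + t 0 • eb 0 + t 1 • eb 1 + t 2 • eb 2 + t 3 • eb 3 := by
    funext k
    fin_cases k <;> simp [Pi.single_apply]
  rw [h2, h1, h1, h1, h1]

/-- Partial derivative with respect to the real parameter. -/
theorem ta6_partial {m : ℕ} {f : ℝ × QQ m → ℝ} (hf : ContDiff ℝ 1 f) (r : ℝ) (t : QQ m) :
    HasDerivAt (fun r => f (r, t)) (fderiv ℝ f (r, t) (1, 0)) r := by
  have h1 : HasFDerivAt f (fderiv ℝ f (r, t)) (r, t) :=
    (hf.differentiable (by simp) (r, t)).hasFDerivAt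
  exact h1.comp_hasDerivAt r ((hasDerivAt_id r).prodMk (hasDerivAt_const r t))

/-- Differentiation under the mean, pointwise version. -/
theorem ta6_deriv {m : ℕ} {f : ℝ × QQ m → ℝ} (hf : ContDiff ℝ 1 f) (r : ℝ) {g : QQ m → ℝ}
    (hg : ∀ t, HasDerivAt (fun r => f (r, t)) (g t) r) :
    HasDerivAt (fun r => MM fun t => f (r, t)) (MM g) r := by
  have h := MM_hasDerivAt hf r
  have e : (fun t => fderiv ℝ f (r, t) (1, 0)) = g := by
    funext t
    exact (ta6_partial hf r t).unique (hg t)
  rwa [e] at h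

theorem ta6_comp {Z : QQ 4 → QQ 4 → QQ 4 → ℝ} (h : CForm univ Z) (u v : QQ 4) {E : Type}
    [NormedAddCommGroup E] [NormedSpace ℝ E] {g : E → QQ 4} (hg : ContDiff ℝ ∞ g) :
    ContDiff ℝ ∞ fun x => Z (g x) u v :=
  (contDiffOn_univ.1 (h.smooth u v)).comp hg

/-- The mean of a derivative along a coordinate torus vanishes. -/
theorem ta6_zero {Z : QQ 4 → QQ 4 → QQ 4 → ℝ} (h : CForm univ Z) (hp : Per Z) (i j : Fin 4)
    (s u v : QQ 4) (b : Fin 2) :
    MM (fun a : QQ 2 => fderiv ℝ (fun q => Z q u v) (s + a 0 • eb i + a 1 • eb j)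
      (if b = 0 then eb i else eb j)) = 0 := by
  have hg : ContDiff ℝ ∞ fun a : QQ 2 => s + a 0 • (eb i : QQ 4) + a 1 • eb j := by fun_prop
  have hZ := ta6_comp h u v hg
  have hper : ∀ a : QQ 2, Z (s + (a + eb b) 0 • (eb i : QQ 4) + (a + eb b) 1 • eb j) u v =
      Z (s + a 0 • (eb i : QQ 4) + a 1 • eb j) u v := by
    intro a
    obtain rfl | rfl : b = 0 ∨ b = 1 := by fin_cases b <;> simp
    · have : s + (a + (eb 0 : QQ 2)) 0 • (eb i : QQ 4) + (a + (eb 0 : QQ 2)) 1 • eb j =
          (s + a 0 • (eb i : QQ 4) + a 1 • eb j) + eb i := by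
        simp only [Pi.add_apply, Pi.single_eq_same]
        have : (eb 0 : QQ 2) 1 = 0 := by simp
        rw [this]
        module
      exact (congrArg (fun q => Z q u v) this).trans (hp i _ u v)
    · have : s + (a + (eb 1 : QQ 2)) 0 • (eb i : QQ 4) + (a + (eb 1 : QQ 2)) 1 • eb j =
          (s + a 0 • (eb i : QQ 4) + a 1 • eb j) + eb j := by
        simp only [Pi.add_apply, Pi.single_eq_same]
        have : (eb 1 : QQ 2) 0 = 0 := by simp
        rw [this]
        module
      exact (congrArg (fun q => Z q u v) this).trans (hp j _ u v)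
  have h0 := MM_deriv_periodic (hZ.of_le (by simp)) b hper
  rw [← h0]
  congr 1
  funext a
  have hd : HasFDerivAt (fun q => Z q u v)
      (fderiv ℝ (fun q => Z q u v) (s + a 0 • (eb i : QQ 4) + a 1 • eb j))
      (s + a 0 • (eb i : QQ 4) + a 1 • eb j) :=
    ((contDiffOn_univ.1 (h.smooth u v)).differentiable (by simp) _).hasFDerivAt
  have hgd : HasFDerivAt (fun a : QQ 2 => s + a 0 • (eb i : QQ 4) + a 1 • eb j)
      ((ContinuousLinearMap.proj 0 : QQ 2 →L[ℝ] ℝ).smulRight (eb i : QQ 4) +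
        (ContinuousLinearMap.proj 1 : QQ 2 →L[ℝ] ℝ).smulRight (eb j : QQ 4)) a := by
    have e1 : HasFDerivAt (fun a : QQ 2 => a 0 • (eb i : QQ 4))
        ((ContinuousLinearMap.proj 0 : QQ 2 →L[ℝ] ℝ).smulRight (eb i : QQ 4)) a :=
      ((ContinuousLinearMap.proj 0 : QQ 2 →L[ℝ] ℝ).smulRight (eb i : QQ 4)).hasFDerivAt
    have e2 : HasFDerivAt (fun a : QQ 2 => a 1 • (eb j : QQ 4))
        ((ContinuousLinearMap.proj 1 : QQ 2 →L[ℝ] ℝ).smulRight (eb j : QQ 4)) a :=
      ((ContinuousLinearMap.proj 1 : QQ 2 →L[ℝ] ℝ).smulRight (eb j : QQ 4)).hasFDerivAt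
    exact (e1.const_add s).add e2
  have hc := hd.comp a hgd
  have e := hc.fderiv
  have e' : fderiv ℝ (fun a : QQ 2 => Z (s + a 0 • (eb i : QQ 4) + a 1 • eb j) u v) a =
      (fderiv ℝ (fun q => Z q u v) (s + a 0 • (eb i : QQ 4) + a 1 • eb j)).comp
      ((ContinuousLinearMap.proj 0 : QQ 2 →L[ℝ] ℝ).smulRight (eb i : QQ 4) +
        (ContinuousLinearMap.proj 1 : QQ 2 →L[ℝ] ℝ).smulRight (eb j : QQ 4)) := e
  rw [e']
  obtain rfl | rfl : b = 0 ∨ b = 1 := by fin_cases b <;> simp
  · simp
  · simp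

/-- The mean of `Z (eb i) (eb j)` is the mean over each 2-dimensional coordinate torus. -/
theorem mean_slice {Z : QQ 4 → QQ 4 → QQ 4 → ℝ} (h : CForm univ Z) (hp : Per Z) {i j : Fin 4}
    (hij : i ≠ j) (t : QQ 4) :
    MM (fun x : QQ 2 => Z (Function.update (Function.update t i (x 0)) j (x 1)) (eb i) (eb j)) =
      mc Z i j := by
  let K : QQ 4 → ℝ := fun t => MM fun a : QQ 2 => Z (t + a 0 • eb i + a 1 • eb j) (eb i) (eb j)
  have hK : ∀ t, K t = K 0 := by
    refine ta6_const fun s c r => ?_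
    have hg : ContDiff ℝ ∞ fun q : ℝ × QQ 2 =>
        (s + q.1 • (eb c : QQ 4)) + q.2 0 • (eb i : QQ 4) + q.2 1 • eb j := by fun_prop
    have hf := ta6_comp h (eb i) (eb j) hg
    have hz := contDiffOn_univ.1 (h.smooth (eb i) (eb j))
    have hder := ta6_deriv (f := fun q : ℝ × QQ 2 =>
      Z ((s + q.1 • (eb c : QQ 4)) + q.2 0 • (eb i : QQ 4) + q.2 1 • eb j) (eb i) (eb j))
      (hf.of_le (by simp)) r
      (g := fun a => fderiv ℝ (fun q => Z q (eb i) (eb j))
        ((s + r • (eb c : QQ 4)) + a 0 • (eb i : QQ 4) + a 1 • eb j) (eb c)) (by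
        intro a
        have hd : HasFDerivAt (fun q => Z q (eb i) (eb j))
            (fderiv ℝ (fun q => Z q (eb i) (eb j))
              ((s + r • (eb c : QQ 4)) + a 0 • (eb i : QQ 4) + a 1 • eb j))
            ((s + r • (eb c : QQ 4)) + a 0 • (eb i : QQ 4) + a 1 • eb j) :=
          (hz.differentiable (by simp) _).hasFDerivAt
        have hg' : HasDerivAt (fun r : ℝ => (s + r • (eb c : QQ 4)) + a 0 • (eb i : QQ 4) +
            a 1 • eb j) (eb c : QQ 4) r := by
          have := (((hasDerivAt_id r).smul_const (eb c : QQ 4)).const_add s).add_const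
            (a 0 • (eb i : QQ 4)) |>.add_const (a 1 • (eb j : QQ 4))
          simpa using this
        exact hd.comp_hasDerivAt r hg')
    have h0 : MM (fun a : QQ 2 => fderiv ℝ (fun q => Z q (eb i) (eb j))
        ((s + r • (eb c : QQ 4)) + a 0 • (eb i : QQ 4) + a 1 • eb j) (eb c)) = 0 := by
      have e : (fun a : QQ 2 => fderiv ℝ (fun q => Z q (eb i) (eb j))
          ((s + r • (eb c : QQ 4)) + a 0 • (eb i : QQ 4) + a 1 • eb j) (eb c)) =
          fun a => (-1) * fderiv ℝ (fun q => Z q (eb j) (eb c))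
            ((s + r • (eb c : QQ 4)) + a 0 • (eb i : QQ 4) + a 1 • eb j) (eb i) +
            (-1) * fderiv ℝ (fun q => Z q (eb c) (eb i))
            ((s + r • (eb c : QQ 4)) + a 0 • (eb i : QQ 4) + a 1 • eb j) (eb j) := by
        funext a
        have := h.closed ((s + r • (eb c : QQ 4)) + a 0 • (eb i : QQ 4) + a 1 • eb j)
          (mem_univ _) (eb c) (eb i) (eb j)
        linarith
      have cd : ∀ (u v w : QQ 4), Continuous fun a : QQ 2 => (-1) * fderiv ℝ (fun q => Z q u v)
          ((s + r • (eb c : QQ 4)) + a 0 • (eb i : QQ 4) + a 1 • eb j) w := by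
        intro u v w
        have h1 : Continuous (fderiv ℝ (fun q => Z q u v)) :=
          (contDiffOn_univ.1 (h.smooth u v)).continuous_fderiv (by simp)
        have h2 : Continuous fun a : QQ 2 =>
            (s + r • (eb c : QQ 4)) + a 0 • (eb i : QQ 4) + a 1 • eb j := by fun_prop
        exact continuous_const.mul ((h1.comp h2).clm_apply continuous_const)
      rw [e, MM_add (cd _ _ _) (cd _ _ _), MM_mul, MM_mul]
      have z1 := ta6_zero h hp i j (s + r • (eb c : QQ 4)) (eb j) (eb c) 0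
      have z2 := ta6_zero h hp i j (s + r • (eb c : QQ 4)) (eb c) (eb i) 1
      simp only [if_true] at z1
      simp only [if_neg (show (1 : Fin 2) ≠ 0 by decide)] at z2
      rw [z1, z2]
      ring
    rw [h0] at hder
    exact hder
  have hK' : K 0 = mc Z i j := by
    have h1 : MM K = K 0 := by
      have : K = fun _ => K 0 := funext hK
      rw [this, MM_const]
    have hc : Continuous fun q : QQ 4 × QQ 2 =>
        Z (q.1 + q.2 0 • (eb i : QQ 4) + q.2 1 • eb j) (eb i) (eb j) :=
      (ta6_comp h (eb i) (eb j) (g := fun q : QQ 4 × QQ 2 =>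
        q.1 + q.2 0 • (eb i : QQ 4) + q.2 1 • eb j) (by fun_prop)).continuous
    have h2 := MM_comm (f := fun (t : QQ 4) (a : QQ 2) =>
      Z (t + a 0 • (eb i : QQ 4) + a 1 • eb j) (eb i) (eb j)) hc
    have h3 : ∀ a : QQ 2, MM (fun t : QQ 4 =>
        Z (t + a 0 • (eb i : QQ 4) + a 1 • eb j) (eb i) (eb j)) = mc Z i j := by
      intro a
      have h4 := MM_translate (f := fun t => Z t (eb i) (eb j))
        ((contDiffOn_univ.1 (h.smooth (eb i) (eb j))).of_le (by simp))
        (fun k t => hp k t _ _) (a 0 • (eb i : QQ 4) + a 1 • eb j)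
      simp only [← add_assoc] at h4
      exact h4
    rw [← h1]
    refine Eq.trans h2 ?_
    simp only [h3]
    exact MM_const _
  rw [← hK', ← hK (Function.update (Function.update t i 0) j 0)]
  congr 1
  funext x
  congr 1
  funext k
  by_cases hki : k = i
  · subst hki
    simp [Function.update_of_ne hij, Pi.single_apply, hij]
  · by_cases hkj : k = j
    · subst hkj
      simp [Pi.single_apply, hki]
    · simp [Function.update_of_ne hki, Function.update_of_ne hkj, Pi.single_apply, hki, hkj]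

end H31R.Tp
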