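import Pool.Agent.Lib.H31R.TA4
import Pool.Agent.Lib.H31R.TA5a
import Pool.Agent.Lib.H31R.TA6

/-!
# H31R, chunk TA5: means of closed periodic 2-forms on `T^4`

Let `I s = MM (fun t => wedge (co Z t) (co Z' (t + s)))`. Since `Z'` is closed,
`∂_i (Z' (eb j) (eb k)) = ∂_j (Z' (eb i) (eb k)) - ∂_k (Z' (eb i) (eb j))`, i.e. `∂_i Z' = dβ` with
`β t u = Z' (t + s) (eb i) u`, so the derivative of `I` in the direction `eb i` is
`MM (fun t => wedge (co Z t) (co (dβ) t)) = 0` by `wedge_exact` (`wedge a b = wedge b a`). So `I` is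
constant, and by Fubini
`I 0 = MM (fun s => I s) = MM (fun t => wedge (co Z t) (mc Z')) = wedge (mc Z) (mc Z')`
(`MM_translate` for the coefficients of `Z'`).
-/

open scoped ContDiff
open Real Set MeasureTheory

namespace H31R.Tp

theorem ta5_wedge_comm (a b : Fin 4 → Fin 4 → ℝ) : wedge a b = wedge b a := by
  unfold wedge; ring

theorem ta5_co {Z : QQ 4 → QQ 4 → QQ 4 → ℝ} (h : CForm univ Z) (i j : Fin 4) :
    ContDiff ℝ ∞ fun t => co Z t i j :=
  contDiffOn_univ.1 (h.smooth (eb i) (eb j))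

theorem ta5_wedge_cont {X : Type} [TopologicalSpace X] {a b : X → Fin 4 → Fin 4 → ℝ}
    (ha : ∀ i j, Continuous fun x => a x i j) (hb : ∀ i j, Continuous fun x => b x i j) :
    Continuous fun x => wedge (a x) (b x) := by
  unfold wedge
  exact ((((((ha 0 1).mul (hb 2 3)).sub ((ha 0 2).mul (hb 1 3))).add ((ha 0 3).mul (hb 1 2))).add
    ((ha 1 2).mul (hb 0 3))).sub ((ha 1 3).mul (hb 0 2))).add ((ha 2 3).mul (hb 0 1))

/-- The mean of the product with a constant form. -/
theorem ta5_wedge_mean {a : QQ 4 → Fin 4 → Fin 4 → ℝ} (A B : Fin 4 → Fin 4 → ℝ)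
    (ha : ∀ i j, Continuous fun x => a x i j) (hA : ∀ i j, MM (fun x => a x i j) = A i j) :
    MM (fun x => wedge (a x) B) = wedge A B := by
  have c : ∀ i j k l, Continuous fun x => B k l * a x i j := fun i j k l =>
    continuous_const.mul (ha i j)
  have e : (fun x => wedge (a x) B) = fun x => (((((B 2 3 * a x 0 1 - B 1 3 * a x 0 2) +
      B 1 2 * a x 0 3) + B 0 3 * a x 1 2) - B 0 2 * a x 1 3) + B 0 1 * a x 2 3) := by
    funext x
    unfold wedge; ring
  have s1 : Continuous fun x => B 2 3 * a x 0 1 - B 1 3 * a x 0 2 := (c _ _ _ _).sub (c _ _ _ _)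
  have s2 : Continuous fun x => (B 2 3 * a x 0 1 - B 1 3 * a x 0 2) + B 1 2 * a x 0 3 :=
    s1.add (c _ _ _ _)
  have s3 : Continuous fun x => ((B 2 3 * a x 0 1 - B 1 3 * a x 0 2) + B 1 2 * a x 0 3) +
      B 0 3 * a x 1 2 := s2.add (c _ _ _ _)
  have s4 : Continuous fun x => (((B 2 3 * a x 0 1 - B 1 3 * a x 0 2) + B 1 2 * a x 0 3) +
      B 0 3 * a x 1 2) - B 0 2 * a x 1 3 := s3.sub (c _ _ _ _)
  rw [e, MM_add s4 (c _ _ _ _), MM_sub s3 (c _ _ _ _), MM_add s2 (c _ _ _ _),
    MM_add s1 (c _ _ _ _), MM_sub (c _ _ _ _) (c _ _ _ _)]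
  simp only [MM_mul, hA]
  unfold wedge; ring

theorem ta5_transl {Z' : QQ 4 → QQ 4 → QQ 4 → ℝ} (s u v t w : QQ 4) :
    fderiv ℝ (fun q => Z' (q + s) u v) t w = fderiv ℝ (fun q => Z' q u v) (t + s) w := by
  rw [fderiv_comp_add_right (f := fun q => Z' q u v) s]

theorem ta5_exact {Z' : QQ 4 → QQ 4 → QQ 4 → ℝ} (h' : CForm univ Z') (i : Fin 4) (s : QQ 4) :
    IsD univ (fun t u => Z' (t + s) (eb i) u)
      (fun t u v => fderiv ℝ (fun q => Z' q u v) (t + s) (eb i)) where
  add := fun p _ u v => CForm.add_right h' (mem_univ _) _ _ _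
  smul := fun p _ c u => CForm.smul_right h' (mem_univ _) _ _ _
  smooth := fun u => by
    have hz := contDiffOn_univ.1 (h'.smooth (eb i) u)
    exact (hz.comp (contDiff_id.add contDiff_const)).contDiffOn
  d := fun p _ u v => by
    rw [ta5_transl, ta5_transl]
    have h1 := h'.closed (p + s) (mem_univ _) (eb i) u v
    have h2 : (fun q => Z' q v (eb i)) = fun q => -Z' q (eb i) v := by
      funext q; exact h'.alt q (mem_univ _) _ _
    rw [h2] at h1
    have h3 : fderiv ℝ (fun q => -Z' q (eb i) v) (p + s) u =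
        -fderiv ℝ (fun q => Z' q (eb i) v) (p + s) u := by
      rw [fderiv_fun_neg]; rfl
    rw [h3] at h1
    linarith

theorem ta5_wedge_deriv {a b : Fin 4 → Fin 4 → ℝ} {f : ℝ → Fin 4 → Fin 4 → ℝ} {r : ℝ}
    (hf : ∀ i j, HasDerivAt (fun r => f r i j) (b i j) r) :
    HasDerivAt (fun r => wedge a (f r)) (wedge a b) r := by
  unfold wedge
  exact ((((((hf 2 3).const_mul (a 0 1)).sub ((hf 1 3).const_mul (a 0 2))).add
    ((hf 1 2).const_mul (a 0 3))).add ((hf 0 3).const_mul (a 1 2))).sub
    ((hf 0 2).const_mul (a 1 3))).add ((hf 0 1).const_mul (a 2 3))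

theorem ta5_wedge_smooth {E : Type} [NormedAddCommGroup E] [NormedSpace ℝ E]
    {a b : E → Fin 4 → Fin 4 → ℝ} (ha : ∀ i j, ContDiff ℝ ∞ fun x => a x i j)
    (hb : ∀ i j, ContDiff ℝ ∞ fun x => b x i j) : ContDiff ℝ ∞ fun x => wedge (a x) (b x) := by
  unfold wedge
  exact ((((((ha 0 1).mul (hb 2 3)).sub ((ha 0 2).mul (hb 1 3))).add ((ha 0 3).mul (hb 1 2))).add
    ((ha 1 2).mul (hb 0 3))).sub ((ha 1 3).mul (hb 0 2))).add ((ha 2 3).mul (hb 0 1))

/-- The integral of the product of two closed forms is the product of the means. -/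
theorem mean_wedge {Z Z' : QQ 4 → QQ 4 → QQ 4 → ℝ} (h : CForm univ Z) (hp : Per Z)
    (h' : CForm univ Z') (hp' : Per Z') :
    MM (fun t => wedge (co Z t) (co Z' t)) = wedge (mc Z) (mc Z') := by
  let I : QQ 4 → ℝ := fun s => MM fun t => wedge (co Z t) (co Z' (t + s))
  have hI : ∀ s, I s = I 0 := by
    refine ta6_const fun s i r => ?_
    have hsm : ContDiff ℝ ∞ fun q : ℝ × QQ 4 =>
        wedge (co Z q.2) (co Z' (q.2 + (s + q.1 • (eb i : QQ 4)))) := by
      refine ta5_wedge_smooth (fun k l => (ta5_co h k l).comp contDiff_snd) (fun k l => ?_)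
      exact (ta5_co h' k l).comp (g := fun t => co Z' t k l)
        (f := fun q : ℝ × QQ 4 => q.2 + (s + q.1 • (eb i : QQ 4))) (by fun_prop)
    have hder := ta6_deriv (f := fun q : ℝ × QQ 4 =>
        wedge (co Z q.2) (co Z' (q.2 + (s + q.1 • (eb i : QQ 4))))) (hsm.of_le (by simp)) r
      (g := fun t => wedge (co Z t)
        (co (fun t u v => fderiv ℝ (fun q => Z' q u v) (t + (s + r • (eb i : QQ 4))) (eb i)) t))
      (by
        intro t
        refine ta5_wedge_deriv (a := co Z t)
          (b := co (fun t u v => fderiv ℝ (fun q => Z' q u v) (t + (s + r • (eb i : QQ 4))) (eb i)) t)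
          (f := fun r => co Z' (t + (s + r • (eb i : QQ 4)))) fun k l => ?_
        have hd : HasFDerivAt (fun q => Z' q (eb k) (eb l))
            (fderiv ℝ (fun q => Z' q (eb k) (eb l)) (t + (s + r • (eb i : QQ 4))))
            (t + (s + r • (eb i : QQ 4))) :=
          ((contDiffOn_univ.1 (h'.smooth (eb k) (eb l))).differentiable (by simp) _).hasFDerivAt
        have hg' : HasDerivAt (fun r : ℝ => t + (s + r • (eb i : QQ 4))) (eb i : QQ 4) r := by
          have := (((hasDerivAt_id r).smul_const (eb i : QQ 4)).const_add s).const_add t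
          simpa using this
        exact hd.comp_hasDerivAt r hg')
    have h0 : MM (fun t => wedge (co Z t)
        (co (fun t u v => fderiv ℝ (fun q => Z' q u v) (t + (s + r • (eb i : QQ 4))) (eb i)) t)) =
        0 := by
      have h1 := wedge_exact (ta5_exact h' i (s + r • (eb i : QQ 4)))
        (fun k t u => by
          have : t + eb k + (s + r • (eb i : QQ 4)) = (t + (s + r • (eb i : QQ 4))) + eb k := by
            module
          rw [this]
          exact hp' k _ _ _) h hp
      rw [← h1]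
      congr 1
      funext t
      exact ta5_wedge_comm _ _
    rw [h0] at hder
    exact hder
  have hI0 : I 0 = MM fun t => wedge (co Z t) (co Z' t) := by
    simp only [I, add_zero]
  have h1 : MM I = I 0 := by
    have : I = fun _ => I 0 := funext hI
    rw [this, MM_const]
  have hc : Continuous fun q : QQ 4 × QQ 4 => wedge (co Z q.2) (co Z' (q.2 + q.1)) := by
    refine ta5_wedge_cont (fun k l => ((ta5_co h k l).comp contDiff_snd).continuous) (fun k l => ?_)
    exact ((ta5_co h' k l).comp (g := fun t => co Z' t k l)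
      (f := fun q : QQ 4 × QQ 4 => q.2 + q.1) (by fun_prop)).continuous
  have h2 := MM_comm (f := fun (s t : QQ 4) => wedge (co Z t) (co Z' (t + s))) hc
  have h3 : ∀ t, MM (fun s => wedge (co Z t) (co Z' (t + s))) = wedge (co Z t) (mc Z') := by
    intro t
    have h4 : ∀ k l, MM (fun s => co Z' (t + s) k l) = mc Z' k l := by
      intro k l
      have h5 := MM_translate (f := fun s => Z' s (eb k) (eb l))
        ((ta5_co h' k l).of_le (by simp)) (fun m s => hp' m s _ _) t
      simp only [add_comm _ t] at h5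
      exact h5
    have h6 := ta5_wedge_mean (a := fun s => co Z' (t + s)) (mc Z')
      (co Z t) (fun k l => ((ta5_co h' k l).comp (g := fun t => co Z' t k l)
      (f := fun q : QQ 4 => t + q) (by fun_prop)).continuous) h4
    simp only [ta5_wedge_comm _ (co Z t)] at h6
    exact h6
  have h7 := ta5_wedge_mean (a := fun t => co Z t) (mc Z) (mc Z')
    (fun k l => (ta5_co h k l).continuous) (fun k l => rfl)
  rw [← hI0, ← h1, ← h7]
  refine Eq.trans h2 ?_
  simp only [h3]

end H31R.Tp
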