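import Pool.Agent.Lib.H31R.TA5a

/-!
# H31R, chunk TA7: mean of `dx ∧ dy`

Write `x t = x' t + ∑ a i * t i`, `y t = y' t + ∑ b i * t i` with `x'`, `y'` periodic. Use `MM_deriv_periodic`
and `∂_i x' ∂_j y' - ∂_j x' ∂_i y' = ∂_i (x' ∂_j y') - ∂_j (x' ∂_i y')` (symmetry of the second derivative).
-/

open scoped ContDiff
open Real Set MeasureTheory

namespace H31R.Tp

theorem ta7_contDiff_pd {m : ℕ} {f : QQ m → ℝ} (hf : ContDiff ℝ ∞ f) (j : Fin m) :
    ContDiff ℝ ∞ fun t => fderiv ℝ f t (eb j) :=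
  (hf.fderiv_right (m := ∞) (by simp)).clm_apply contDiff_const

theorem ta7_symm {m : ℕ} {f : QQ m → ℝ} (hf : ContDiff ℝ ∞ f) (i j : Fin m) (t : QQ m) :
    fderiv ℝ (fun s => fderiv ℝ f s (eb j)) t (eb i) =
      fderiv ℝ (fun s => fderiv ℝ f s (eb i)) t (eb j) := by
  have hd : DifferentiableAt ℝ (fderiv ℝ f) t :=
    ((hf.fderiv_right (m := ∞) (by simp)).differentiable (by simp)).differentiableAt
  have h1 : ∀ v : QQ m, fderiv ℝ (fun s => fderiv ℝ f s v) t = (fderiv ℝ (fderiv ℝ f) t).flip v := by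
    intro v
    have := hd.hasFDerivAt.clm_apply (hasFDerivAt_const v t)
    rw [this.fderiv]
    ext w
    simp
  rw [h1, h1]
  have h2 : IsSymmSndFDerivAt ℝ f t := (hf.contDiffAt).isSymmSndFDerivAt
    (by simp only [minSmoothness_of_isRCLikeNormedField]; exact WithTop.coe_le_coe.2 (show (2 : ℕ∞) ≤ ⊤ from le_top))
  exact h2 (eb i) (eb j)

theorem ta7_per {m : ℕ} {f : QQ m → ℝ} {i : Fin m} (hp : ∀ t, f (t + eb i) = f t) (v t : QQ m) :
    fderiv ℝ f (t + eb i) v = fderiv ℝ f t v := by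
  have h : (fun s => f (s + eb i)) = f := funext hp
  have h2 : fderiv ℝ (fun s => f (s + eb i)) t v = fderiv ℝ f t v := by rw [h]
  rw [← h2, fderiv_comp_add_right]

theorem ta7_core {x y : QQ 4 → ℝ} (hx : ContDiff ℝ ∞ x) (hy : ContDiff ℝ ∞ y)
    (ha : ∀ i t, x (t + eb i) = x t) (hb : ∀ i t, y (t + eb i) = y t) (i j : Fin 4) :
    MM (fun t => fderiv ℝ x t (eb i) * fderiv ℝ y t (eb j) -
      fderiv ℝ x t (eb j) * fderiv ℝ y t (eb i)) = 0 := by
  have hyj := ta7_contDiff_pd hy j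
  have hyi := ta7_contDiff_pd hy i
  have hP : ContDiff ℝ ∞ fun t => x t * fderiv ℝ y t (eb j) := hx.mul hyj
  have hQ : ContDiff ℝ ∞ fun t => x t * fderiv ℝ y t (eb i) := hx.mul hyi
  have e : (fun t => fderiv ℝ x t (eb i) * fderiv ℝ y t (eb j) -
      fderiv ℝ x t (eb j) * fderiv ℝ y t (eb i)) =
      fun t => fderiv ℝ (fun t => x t * fderiv ℝ y t (eb j)) t (eb i) -
        fderiv ℝ (fun t => x t * fderiv ℝ y t (eb i)) t (eb j) := by
    funext t
    have d1 : DifferentiableAt ℝ x t := hx.differentiable (by simp) t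
    have d2 : DifferentiableAt ℝ (fun t => fderiv ℝ y t (eb j)) t :=
      hyj.differentiable (by simp) t
    have d3 : DifferentiableAt ℝ (fun t => fderiv ℝ y t (eb i)) t :=
      hyi.differentiable (by simp) t
    rw [fderiv_fun_mul d1 d2, fderiv_fun_mul d1 d3]
    simp only [_root_.add_apply, _root_.smul_apply, smul_eq_mul]
    rw [ta7_symm hy i j t]
    ring
  rw [e, MM_sub (ta7_contDiff_pd hP i).continuous (ta7_contDiff_pd hQ j).continuous,
    MM_deriv_periodic (hP.of_le (by simp)) i (fun t => by rw [ha, ta7_per (hb i)]),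
    MM_deriv_periodic (hQ.of_le (by simp)) j (fun t => by rw [ha, ta7_per (hb j)]), sub_zero]

/-- The mean of `dx ∧ dy` for functions with constant periods. -/
theorem mean_dxdy {x y : QQ 4 → ℝ} (hx : ContDiff ℝ ∞ x) (hy : ContDiff ℝ ∞ y) {a b : Fin 4 → ℝ}
    (ha : ∀ i t, x (t + eb i) = x t + a i) (hb : ∀ i t, y (t + eb i) = y t + b i) (i j : Fin 4) :
    MM (fun t => fderiv ℝ x t (eb i) * fderiv ℝ y t (eb j) -
      fderiv ℝ x t (eb j) * fderiv ℝ y t (eb i)) = a i * b j - a j * b i := by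
  -- the linear parts
  let L : (Fin 4 → ℝ) → (QQ 4 →L[ℝ] ℝ) := fun c =>
    ∑ i, c i • (ContinuousLinearMap.proj i : QQ 4 →L[ℝ] ℝ)
  have hL : ∀ c i, L c (eb i) = c i := by
    intro c i
    simp [L, Pi.single_apply]
  have key : ∀ (z : QQ 4 → ℝ) (c : Fin 4 → ℝ), ContDiff ℝ ∞ z → (∀ i t, z (t + eb i) = z t + c i) →
      ContDiff ℝ ∞ (fun t => z t - L c t) ∧ (∀ i t, z (t + eb i) - L c (t + eb i) = z t - L c t) ∧
      ∀ i t, fderiv ℝ z t (eb i) = fderiv ℝ (fun t => z t - L c t) t (eb i) + c i := by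
    intro z c hz hc
    refine ⟨hz.sub (L c).contDiff, fun i t => ?_, fun i t => ?_⟩
    · rw [hc, map_add, hL]; ring
    · rw [fderiv_fun_sub (hz.differentiable (by simp) t) (L c).differentiableAt]
      simp only [_root_.sub_apply, ContinuousLinearMap.fderiv, hL]
      ring
  obtain ⟨hx', hpx, hdx⟩ := key x a hx ha
  obtain ⟨hy', hpy, hdy⟩ := key y b hy hb
  set x' : QQ 4 → ℝ := fun t => x t - L a t with hx'def
  set y' : QQ 4 → ℝ := fun t => y t - L b t with hy'def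
  have c1 := fun k => (ta7_contDiff_pd hx' k).continuous
  have c2 := fun k => (ta7_contDiff_pd hy' k).continuous
  have e : (fun t => fderiv ℝ x t (eb i) * fderiv ℝ y t (eb j) -
      fderiv ℝ x t (eb j) * fderiv ℝ y t (eb i)) =
      fun t => (fderiv ℝ x' t (eb i) * fderiv ℝ y' t (eb j) -
        fderiv ℝ x' t (eb j) * fderiv ℝ y' t (eb i)) +
        ((a i * fderiv ℝ y' t (eb j) - a j * fderiv ℝ y' t (eb i)) +
        ((b j * fderiv ℝ x' t (eb i) - b i * fderiv ℝ x' t (eb j)) +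
        (a i * b j - a j * b i))) := by
    funext t
    rw [hdx i t, hdx j t, hdy i t, hdy j t]
    ring
  have m1 : ∀ k, MM (fun t => fderiv ℝ x' t (eb k)) = 0 := fun k =>
    MM_deriv_periodic (hx'.of_le (by simp)) k (hpx k)
  have m2 : ∀ k, MM (fun t => fderiv ℝ y' t (eb k)) = 0 := fun k =>
    MM_deriv_periodic (hy'.of_le (by simp)) k (hpy k)
  have s1 : Continuous fun t => fderiv ℝ x' t (eb i) * fderiv ℝ y' t (eb j) -
      fderiv ℝ x' t (eb j) * fderiv ℝ y' t (eb i) := ((c1 i).mul (c2 j)).sub ((c1 j).mul (c2 i))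
  have s2 : ∀ c k, Continuous fun t => c * fderiv ℝ y' t (eb k) := fun c k =>
    continuous_const.mul (c2 k)
  have s3 : ∀ c k, Continuous fun t => c * fderiv ℝ x' t (eb k) := fun c k =>
    continuous_const.mul (c1 k)
  have s4 : Continuous fun t => a i * fderiv ℝ y' t (eb j) - a j * fderiv ℝ y' t (eb i) :=
    (s2 _ _).sub (s2 _ _)
  have s5 : Continuous fun t => b j * fderiv ℝ x' t (eb i) - b i * fderiv ℝ x' t (eb j) :=
    (s3 _ _).sub (s3 _ _)
  have s6 : Continuous fun t => (b j * fderiv ℝ x' t (eb i) - b i * fderiv ℝ x' t (eb j)) +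
      (a i * b j - a j * b i) := s5.add continuous_const
  have s7 : Continuous fun t => (a i * fderiv ℝ y' t (eb j) - a j * fderiv ℝ y' t (eb i)) +
      ((b j * fderiv ℝ x' t (eb i) - b i * fderiv ℝ x' t (eb j)) + (a i * b j - a j * b i)) :=
    s4.add s6
  rw [e, MM_add s1 s7, MM_add s4 s6, MM_add s5 continuous_const, MM_sub (s2 _ _) (s2 _ _),
    MM_sub (s3 _ _) (s3 _ _), MM_mul, MM_mul, MM_mul, MM_mul, MM_const, m1, m1, m2, m2,
    ta7_core hx' hy' hpx hpy i j]
  ring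

end H31R.Tp
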