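import Pool.Agent.Lib.H31R.TDefs

/-!
# H31R, chunk TB1: the functions `w`, `s`, `x1`, `x2`, `h` on `OM` and their differentials

`QA.lean` contains `contDiffAt_wv`, `contDiffAt_sv`, `contDiffAt_x1`, `contDiffAt_x2`, `contDiff_yv`, ...
The second derivatives are symmetric (`ContDiffAt.isSymmSndFDerivAt`), since near `p` one has
`dw q v = fderiv wv q v` etc.
-/

open scoped ContDiff Topology
open Real Set MeasureTheory

namespace H31R.Tp

variable {p : EE 7}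

/-! ### linear maps -/

/-- `yv` as a linear map -/
noncomputable def TB1_Y : EE 7 →L[ℝ] V3 :=
  ContinuousLinearMap.pi ![EuclideanSpace.proj 1, EuclideanSpace.proj 2, EuclideanSpace.proj 3]

/-- `zv` as a linear map -/
noncomputable def TB1_Z : EE 7 →L[ℝ] V3 :=
  ContinuousLinearMap.pi ![EuclideanSpace.proj 4, EuclideanSpace.proj 5, EuclideanSpace.proj 6]

theorem TB1_Y_apply (u : EE 7) : TB1_Y u = yv u := by
  ext i
  fin_cases i <;> rfl

theorem TB1_Z_apply (u : EE 7) : TB1_Z u = zv u := by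
  ext i
  fin_cases i <;> rfl

/-- scalar product with `a` -/
noncomputable def TB1_dot (a : V3) : V3 →L[ℝ] ℝ :=
  a 0 • ContinuousLinearMap.proj 0 + a 1 • ContinuousLinearMap.proj 1 +
    a 2 • ContinuousLinearMap.proj 2

theorem TB1_dot_apply (a u : V3) : TB1_dot a u = dot a u := rfl

theorem TB1_dot_fderiv {E : Type*} [NormedAddCommGroup E] [NormedSpace ℝ E] {f g : E → V3}
    {f' g' : E →L[ℝ] V3} {q : E} (hf : HasFDerivAt f f' q) (hg : HasFDerivAt g g' q) :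
    HasFDerivAt (fun r => dot (f r) (g r))
      ((TB1_dot (g q)).comp f' + (TB1_dot (f q)).comp g') q := by
  have hf' := hasFDerivAt_pi'.1 hf
  have hg' := hasFDerivAt_pi'.1 hg
  have h := (((hf' 0).mul (hg' 0)).add ((hf' 1).mul (hg' 1))).add ((hf' 2).mul (hg' 2))
  refine h.congr_fderiv ?_
  ext u
  simp [TB1_dot]
  ring

theorem TB1_x {Y : EE 7 →L[ℝ] V3} (hp : Y p ≠ 0) :
    HasFDerivAt (fun q => Real.log (nr (Y q)))
      ((dot (Y p) (Y p))⁻¹ • (TB1_dot (Y p)).comp Y) p := by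
  have h1 := TB1_dot_fderiv (Y.hasFDerivAt (x := p)) (Y.hasFDerivAt (x := p))
  have h2 := (h1.log (QA_dot_pos hp).ne').const_mul (1 / 2)
  have h3 : (fun q => Real.log (nr (Y q))) = fun q => 1 / 2 * Real.log (dot (Y q) (Y q)) := by
    funext q
    unfold nr
    rw [Real.log_sqrt (by
      simp only [dot]
      nlinarith [mul_self_nonneg (Y q 0), mul_self_nonneg (Y q 1), mul_self_nonneg (Y q 2)])]
    ring
  rw [h3]
  refine h2.congr_fderiv ?_
  ext u
  simp only [smul_apply, add_apply, ContinuousLinearMap.comp_apply, smul_eq_mul, smul_add]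
  ring

theorem TB1_w {Y : EE 7 →L[ℝ] V3} (hp : Y p ≠ 0) :
    HasFDerivAt (fun q => (nr (Y q))⁻¹ • Y q)
      ((nr (Y p))⁻¹ • Y - ((dot (Y p) (Y p))⁻¹ • (TB1_dot (Y p)).comp Y).smulRight
        ((nr (Y p))⁻¹ • Y p)) p := by
  have h1 := ((TB1_x hp).neg.exp).smul (Y.hasFDerivAt (x := p))
  have h2 : (fun q => (nr (Y q))⁻¹ • Y q) =ᶠ[𝓝 p]
      fun q => Real.exp (-Real.log (nr (Y q))) • Y q := by
    have h3 : {q | Y q ≠ 0} ∈ 𝓝 p := (isOpen_ne.preimage Y.continuous).mem_nhds hp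
    filter_upwards [h3] with q hq
    rw [Real.exp_neg, Real.exp_log (QA_nr_pos hq)]
  have h4 := h1.congr_of_eventuallyEq h2
  refine h4.congr_fderiv ?_
  have h5 : Real.exp (-Real.log (nr (Y p))) = (nr (Y p))⁻¹ := by
    rw [Real.exp_neg, Real.exp_log (QA_nr_pos hp)]
  ext u i
  simp only [Pi.neg_apply, h5, add_apply, sub_apply, smul_apply, neg_apply,
    ContinuousLinearMap.smulRight_apply, Pi.add_apply, Pi.sub_apply, Pi.smul_apply, smul_eq_mul,
    ContinuousLinearMap.comp_apply]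
  ring

theorem hasFDerivAt_wv (hp : p ∈ OM) : ∃ L : EE 7 →L[ℝ] V3, HasFDerivAt wv L p ∧
    ∀ u, L u = dw p u := by
  have hy : TB1_Y p ≠ 0 := by
    rw [TB1_Y_apply]
    exact hp.1
  have h := TB1_w hy
  have h1 : (fun q => (nr (TB1_Y q))⁻¹ • TB1_Y q) = wv := by
    funext q
    rw [TB1_Y_apply]
    rfl
  rw [h1] at h
  refine ⟨_, h, fun u => ?_⟩
  simp only [sub_apply, smul_apply, ContinuousLinearMap.smulRight_apply, TB1_Y_apply,
    ContinuousLinearMap.comp_apply, TB1_dot_apply, smul_eq_mul]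
  unfold dw xi1 wv
  rw [div_eq_inv_mul]

theorem hasFDerivAt_sv (hp : p ∈ OM) : ∃ L : EE 7 →L[ℝ] V3, HasFDerivAt sv L p ∧
    ∀ u, L u = ds p u := by
  have hy : TB1_Z p ≠ 0 := by
    rw [TB1_Z_apply]
    exact hp.2
  have h := TB1_w hy
  have h1 : (fun q => (nr (TB1_Z q))⁻¹ • TB1_Z q) = sv := by
    funext q
    rw [TB1_Z_apply]
    rfl
  rw [h1] at h
  refine ⟨_, h, fun u => ?_⟩
  simp only [sub_apply, smul_apply, ContinuousLinearMap.smulRight_apply, TB1_Z_apply,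
    ContinuousLinearMap.comp_apply, TB1_dot_apply, smul_eq_mul]
  unfold ds xi2 sv
  rw [div_eq_inv_mul]

theorem fderiv_wv (hp : p ∈ OM) (u : EE 7) : fderiv ℝ wv p u = dw p u := by
  obtain ⟨L, hL, h⟩ := hasFDerivAt_wv hp
  rw [hL.fderiv, h]

theorem fderiv_sv (hp : p ∈ OM) (u : EE 7) : fderiv ℝ sv p u = ds p u := by
  obtain ⟨L, hL, h⟩ := hasFDerivAt_sv hp
  rw [hL.fderiv, h]

theorem fderiv_x1 (hp : p ∈ OM) (u : EE 7) : fderiv ℝ x1 p u = xi1 p u := by
  have hy : TB1_Y p ≠ 0 := by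
    rw [TB1_Y_apply]
    exact hp.1
  have h := TB1_x hy
  have h1 : (fun q => Real.log (nr (TB1_Y q))) = x1 := by
    funext q
    rw [TB1_Y_apply]
    rfl
  rw [h1] at h
  rw [h.fderiv]
  simp only [smul_apply, TB1_Y_apply, ContinuousLinearMap.comp_apply, TB1_dot_apply, smul_eq_mul]
  unfold xi1
  rw [div_eq_inv_mul]

theorem fderiv_x2 (hp : p ∈ OM) (u : EE 7) : fderiv ℝ x2 p u = xi2 p u := by
  have hy : TB1_Z p ≠ 0 := by
    rw [TB1_Z_apply]
    exact hp.2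
  have h := TB1_x hy
  have h1 : (fun q => Real.log (nr (TB1_Z q))) = x2 := by
    funext q
    rw [TB1_Z_apply]
    rfl
  rw [h1] at h
  rw [h.fderiv]
  simp only [smul_apply, TB1_Z_apply, ContinuousLinearMap.comp_apply, TB1_dot_apply, smul_eq_mul]
  unfold xi2
  rw [div_eq_inv_mul]

theorem fderiv_x3 (u : EE 7) : fderiv ℝ x3 p u = xi3 p u := by
  have h : HasFDerivAt x3 (EuclideanSpace.proj 0 : EE 7 →L[ℝ] ℝ) p :=
    (EuclideanSpace.proj 0 : EE 7 →L[ℝ] ℝ).hasFDerivAt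
  rw [h.fderiv]
  rfl

theorem fderiv_hh (hp : p ∈ OM) (u : EE 7) : fderiv ℝ hh p u = dh p u := by
  obtain ⟨L, hL, h⟩ := hasFDerivAt_wv hp
  obtain ⟨L', hL', h'⟩ := hasFDerivAt_sv hp
  have h1 : HasFDerivAt hh _ p := TB1_dot_fderiv hL hL'
  rw [h1.fderiv]
  simp only [add_apply, ContinuousLinearMap.comp_apply, TB1_dot_apply, h, h']
  unfold dh
  rw [dot_comm (sv p)]

theorem smooth_wv : ContDiffOn ℝ ∞ wv OM := fun _ hp => (contDiffAt_wv hp).contDiffWithinAt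

theorem smooth_sv : ContDiffOn ℝ ∞ sv OM := fun _ hp => (contDiffAt_sv hp).contDiffWithinAt

theorem smooth_x1 : ContDiffOn ℝ ∞ x1 OM := fun _ hp => (contDiffAt_x1 hp).contDiffWithinAt

theorem smooth_x2 : ContDiffOn ℝ ∞ x2 OM := fun _ hp => (contDiffAt_x2 hp).contDiffWithinAt

theorem TB1_hh (hp : p ∈ OM) : ContDiffAt ℝ ∞ hh p :=
  ContDiffAt.dot3 (contDiffAt_wv hp) (contDiffAt_sv hp)

theorem smooth_hh : ContDiffOn ℝ ∞ hh OM := fun _ hp => (TB1_hh hp).contDiffWithinAt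

theorem smooth_Jl : ContDiffOn ℝ ∞ Jl OM := fun _ hp =>
  (ContDiffAt.crs3 (contDiffAt_wv hp) (contDiffAt_sv hp)).contDiffWithinAt

theorem TB1_xi1 (hp : p ∈ OM) (u : EE 7) : ContDiffAt ℝ ∞ (fun p => xi1 p u) p :=
  (ContDiffAt.dot3 contDiff_yv.contDiffAt contDiffAt_const).div
    (ContDiffAt.dot3 contDiff_yv.contDiffAt contDiff_yv.contDiffAt) (QA_dot_pos hp.1).ne'

theorem TB1_xi2 (hp : p ∈ OM) (u : EE 7) : ContDiffAt ℝ ∞ (fun p => xi2 p u) p :=
  (ContDiffAt.dot3 contDiff_zv.contDiffAt contDiffAt_const).div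
    (ContDiffAt.dot3 contDiff_zv.contDiffAt contDiff_zv.contDiffAt) (QA_dot_pos hp.2).ne'

theorem TB1_dw (hp : p ∈ OM) (u : EE 7) : ContDiffAt ℝ ∞ (fun p => dw p u) p :=
  (((ContDiffAt.nr3 contDiff_yv.contDiffAt hp.1).inv (QA_nr_pos hp.1).ne').smul
    contDiffAt_const).sub ((TB1_xi1 hp u).smul (contDiffAt_wv hp))

theorem TB1_ds (hp : p ∈ OM) (u : EE 7) : ContDiffAt ℝ ∞ (fun p => ds p u) p :=
  (((ContDiffAt.nr3 contDiff_zv.contDiffAt hp.2).inv (QA_nr_pos hp.2).ne').smul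
    contDiffAt_const).sub ((TB1_xi2 hp u).smul (contDiffAt_sv hp))

theorem smooth_dw (u : EE 7) : ContDiffOn ℝ ∞ (fun p => dw p u) OM := fun _ hp =>
  (TB1_dw hp u).contDiffWithinAt

theorem smooth_ds (u : EE 7) : ContDiffOn ℝ ∞ (fun p => ds p u) OM := fun _ hp =>
  (TB1_ds hp u).contDiffWithinAt

theorem smooth_xi1 (u : EE 7) : ContDiffOn ℝ ∞ (fun p => xi1 p u) OM := fun _ hp =>
  (TB1_xi1 hp u).contDiffWithinAt

theorem smooth_xi2 (u : EE 7) : ContDiffOn ℝ ∞ (fun p => xi2 p u) OM := fun _ hp =>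
  (TB1_xi2 hp u).contDiffWithinAt

theorem smooth_dh (u : EE 7) : ContDiffOn ℝ ∞ (fun p => dh p u) OM := fun _ hp =>
  ((ContDiffAt.dot3 (TB1_dw hp u) (contDiffAt_sv hp)).add
    (ContDiffAt.dot3 (contDiffAt_wv hp) (TB1_ds hp u))).contDiffWithinAt

theorem TB1_perp {y v : V3} (hy : y ≠ 0) :
    dot ((nr y)⁻¹ • y) ((nr y)⁻¹ • v - (dot y v / dot y y) • ((nr y)⁻¹ • y)) = 0 := by
  have h1 := (QA_dot_pos hy).ne'
  have h2 : dot ((nr y)⁻¹ • y) ((nr y)⁻¹ • v - (dot y v / dot y y) • ((nr y)⁻¹ • y)) =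
      (nr y)⁻¹ * (nr y)⁻¹ * (dot y v - dot y v / dot y y * dot y y) := by
    simp only [dot, Pi.sub_apply, Pi.smul_apply, smul_eq_mul]
    ring
  rw [h2, div_mul_cancel₀ _ h1, sub_self, mul_zero]

theorem dot_wv_dw (hp : p ∈ OM) (u : EE 7) : dot (wv p) (dw p u) = 0 := TB1_perp hp.1

theorem dot_sv_ds (hp : p ∈ OM) (u : EE 7) : dot (sv p) (ds p u) = 0 := TB1_perp hp.2

/-- symmetry of second derivatives -/
theorem TB1_symm {F : Type*} [NormedAddCommGroup F] [NormedSpace ℝ F] {f : EE 7 → F}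
    {D : EE 7 → EE 7 → F} (hf : ∀ q ∈ OM, ContDiffAt ℝ ∞ f q)
    (hD : ∀ q ∈ OM, ∀ v, fderiv ℝ f q v = D q v) (hp : p ∈ OM) (u v : EE 7) :
    fderiv ℝ (fun q => D q v) p u = fderiv ℝ (fun q => D q u) p v := by
  have h1 : ∀ v, (fun q => D q v) =ᶠ[𝓝 p] fun q => fderiv ℝ f q v := fun v => by
    filter_upwards [isOpen_OM.mem_nhds hp] with q hq
    exact (hD q hq v).symm
  rw [(h1 v).fderiv_eq, (h1 u).fderiv_eq]
  have h2 : DifferentiableAt ℝ (fderiv ℝ f) p :=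
    ((hf p hp).fderiv_right (m := 1) (by norm_cast)).differentiableAt (by norm_num)
  have h3 : ∀ v u, fderiv ℝ (fun q => fderiv ℝ f q v) p u = fderiv ℝ (fderiv ℝ f) p u v := by
    intro v u
    rw [fderiv_clm_apply h2 (differentiableAt_const v)]
    simp
  rw [h3, h3]
  exact ((hf p hp).isSymmSndFDerivAt (by simp; norm_cast)) u v

theorem dw_symm (hp : p ∈ OM) (u v : EE 7) :
    fderiv ℝ (fun q => dw q v) p u = fderiv ℝ (fun q => dw q u) p v :=
  TB1_symm (fun _ hq => contDiffAt_wv hq) (fun _ hq v => fderiv_wv hq v) hp u v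

theorem ds_symm (hp : p ∈ OM) (u v : EE 7) :
    fderiv ℝ (fun q => ds q v) p u = fderiv ℝ (fun q => ds q u) p v :=
  TB1_symm (fun _ hq => contDiffAt_sv hq) (fun _ hq v => fderiv_sv hq v) hp u v

theorem xi1_symm (hp : p ∈ OM) (u v : EE 7) :
    fderiv ℝ (fun q => xi1 q v) p u = fderiv ℝ (fun q => xi1 q u) p v :=
  TB1_symm (fun _ hq => contDiffAt_x1 hq) (fun _ hq v => fderiv_x1 hq v) hp u v

theorem xi2_symm (hp : p ∈ OM) (u v : EE 7) :
    fderiv ℝ (fun q => xi2 q v) p u = fderiv ℝ (fun q => xi2 q u) p v :=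
  TB1_symm (fun _ hq => contDiffAt_x2 hq) (fun _ hq v => fderiv_x2 hq v) hp u v

theorem TB1_dot_add (a b c : V3) : dot a (b + c) = dot a b + dot a c := by
  simp only [dot, Pi.add_apply]
  ring

theorem TB1_dot_add_left (a b c : V3) : dot (a + b) c = dot a c + dot b c := by
  simp only [dot, Pi.add_apply]
  ring

theorem TB1_dot_smul (a : V3) (c : ℝ) (b : V3) : dot a (c • b) = c * dot a b := by
  simp only [dot, Pi.smul_apply, smul_eq_mul]
  ring

theorem TB1_dot_smul_left (a : V3) (c : ℝ) (b : V3) : dot (c • a) b = c * dot a b := by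
  simp only [dot, Pi.smul_apply, smul_eq_mul]
  ring

theorem TB1_yv_add (u v : EE 7) : yv (u + v) = yv u + yv v := by
  rw [← TB1_Y_apply, map_add, TB1_Y_apply, TB1_Y_apply]

theorem TB1_zv_add (u v : EE 7) : zv (u + v) = zv u + zv v := by
  rw [← TB1_Z_apply, map_add, TB1_Z_apply, TB1_Z_apply]

theorem TB1_yv_smul (c : ℝ) (u : EE 7) : yv (c • u) = c • yv u := by
  rw [← TB1_Y_apply, map_smul, TB1_Y_apply]

theorem TB1_zv_smul (c : ℝ) (u : EE 7) : zv (c • u) = c • zv u := by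
  rw [← TB1_Z_apply, map_smul, TB1_Z_apply]

/-- linearity of `dw`, `ds`, `xi1`, `xi2`, `dh` in the tangent vector -/
theorem xi1_add (u v : EE 7) : xi1 p (u + v) = xi1 p u + xi1 p v := by
  unfold xi1
  rw [TB1_yv_add, TB1_dot_add, add_div]

theorem xi2_add (u v : EE 7) : xi2 p (u + v) = xi2 p u + xi2 p v := by
  unfold xi2
  rw [TB1_zv_add, TB1_dot_add, add_div]

theorem dw_add (u v : EE 7) : dw p (u + v) = dw p u + dw p v := by
  unfold dw
  rw [TB1_yv_add, xi1_add, smul_add, add_smul]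
  abel

theorem ds_add (u v : EE 7) : ds p (u + v) = ds p u + ds p v := by
  unfold ds
  rw [TB1_zv_add, xi2_add, smul_add, add_smul]
  abel

theorem dh_add (u v : EE 7) : dh p (u + v) = dh p u + dh p v := by
  unfold dh
  rw [dw_add, ds_add, TB1_dot_add, TB1_dot_add_left]
  ring

theorem xi1_smul (c : ℝ) (u : EE 7) : xi1 p (c • u) = c * xi1 p u := by
  unfold xi1
  rw [TB1_yv_smul, TB1_dot_smul, mul_div_assoc]

theorem xi2_smul (c : ℝ) (u : EE 7) : xi2 p (c • u) = c * xi2 p u := by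
  unfold xi2
  rw [TB1_zv_smul, TB1_dot_smul, mul_div_assoc]

theorem dw_smul (c : ℝ) (u : EE 7) : dw p (c • u) = c • dw p u := by
  unfold dw
  rw [TB1_yv_smul, xi1_smul]
  module

theorem ds_smul (c : ℝ) (u : EE 7) : ds p (c • u) = c • ds p u := by
  unfold ds
  rw [TB1_zv_smul, xi2_smul]
  module

theorem dh_smul (c : ℝ) (u : EE 7) : dh p (c • u) = c * dh p u := by
  unfold dh
  rw [dw_smul, ds_smul, TB1_dot_smul, TB1_dot_smul_left]
  ring

end H31R.Tp
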