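import Pool.Agent.Lib.H31R.TA1
import Pool.Agent.Lib.H31R.TB1

/-!
# H31R, chunk TB2: the closed forms `Wf`, `Af`, `Thf`

Closedness of `Wf`: the derivative of `q ↦ det3 (w) (dw v) (dw v')` in the direction `u` is
`det3 (dw u) (dw v) (dw v') + det3 w (w_uv) (dw v') + det3 w (dw v) (w_uv')`, `w_uv = fderiv (fun q => dw q v) p u`
symmetric in `u`, `v` (`dw_symm`); in the cyclic sum the terms with second derivatives cancel, and
`det3 (dw u) (dw v) (dw v') = 0` since the three vectors are orthogonal to `w /= 0`. The same for `Af`.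
`Thf = d (x1 dx2)`: use `IsD.cform`.
-/

open scoped ContDiff
open Real Set MeasureTheory

namespace H31R.Tp

/-- Three vectors orthogonal to a unit vector are linearly dependent. -/
theorem det3_eq_zero {w a b c : V3} (hw : dot w w = 1) (ha : dot w a = 0) (hb : dot w b = 0)
    (hc : dot w c = 0) : det3 a b c = 0 := by
  obtain ⟨e, he, hwe⟩ := exists_perp hw
  have hf := fr_of hw he hwe
  have ha1 := eq_lc hf a
  have hb1 := eq_lc hf b
  have hc1 := eq_lc hf c
  rw [dot_comm a w, ha] at ha1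
  rw [dot_comm b w, hb] at hb1
  rw [dot_comm c w, hc] at hc1
  rw [ha1, hb1, hc1, det3, crs_lc hf, dot_lc hf]
  ring

theorem TB2_deriv {f g k : EE 7 → V3} {F G K : EE 7 →L[ℝ] V3} {p : EE 7} (hf : HasFDerivAt f F p)
    (hg : HasFDerivAt g G p) (hk : HasFDerivAt k K p) : ∃ L : EE 7 →L[ℝ] ℝ,
    HasFDerivAt (fun q => det3 (f q) (g q) (k q)) L p ∧
    ∀ u, L u = det3 (F u) (g p) (k p) + det3 (f p) (G u) (k p) + det3 (f p) (g p) (K u) := by
  have f' : ∀ i, HasFDerivAt (fun q => f q i) ((ContinuousLinearMap.proj i).comp F) p :=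
    fun i => hasFDerivAt_pi'.1 hf i
  have g' : ∀ i, HasFDerivAt (fun q => g q i) ((ContinuousLinearMap.proj i).comp G) p :=
    fun i => hasFDerivAt_pi'.1 hg i
  have k' : ∀ i, HasFDerivAt (fun q => k q i) ((ContinuousLinearMap.proj i).comp K) p :=
    fun i => hasFDerivAt_pi'.1 hk i
  refine ⟨_, (((f' 0).mul (((g' 1).mul (k' 2)).sub ((g' 2).mul (k' 1)))).add
    ((f' 1).mul (((g' 2).mul (k' 0)).sub ((g' 0).mul (k' 2))))).add
    ((f' 2).mul (((g' 0).mul (k' 1)).sub ((g' 1).mul (k' 0)))), fun u => ?_⟩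
  simp only [det3, dot, C0a_crs0, C0a_crs1, C0a_crs2, add_apply, sub_apply, smul_apply,
    ContinuousLinearMap.comp_apply, ContinuousLinearMap.proj_apply, smul_eq_mul, Pi.mul_apply,
    Pi.sub_apply]
  ring

theorem TB2_gen {w : EE 7 → V3} {D : EE 7 → EE 7 → V3} (hw : ∀ p ∈ OM, dot (w p) (w p) = 1)
    (hwd : ∀ p ∈ OM, ∀ u, dot (w p) (D p u) = 0)
    (hder : ∀ p ∈ OM, ∃ L : EE 7 →L[ℝ] V3, HasFDerivAt w L p ∧ ∀ u, L u = D p u)
    (hw' : ContDiffOn ℝ ∞ w OM) (hD : ∀ u, ContDiffOn ℝ ∞ (fun p => D p u) OM)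
    (hsymm : ∀ p ∈ OM, ∀ u v, fderiv ℝ (fun q => D q v) p u = fderiv ℝ (fun q => D q u) p v)
    (hadd : ∀ p u v, D p (u + v) = D p u + D p v) (hsmul : ∀ p (c : ℝ) u, D p (c • u) = c • D p u) :
    CForm OM fun p u v => det3 (w p) (D p u) (D p v) / (4 * π) := by
  have hne : (∞ : WithTop ℕ∞) ≠ 0 := by simp
  constructor
  · intro p _ u u' v
    simp only [det3, dot, C0a_crs0, C0a_crs1, C0a_crs2, hadd, Pi.add_apply]
    ring
  · intro p _ c u v
    simp only [det3, dot, C0a_crs0, C0a_crs1, C0a_crs2, hsmul, Pi.smul_apply, smul_eq_mul]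
    ring
  · intro p _ u v
    simp only [det3, dot, C0a_crs0, C0a_crs1, C0a_crs2]
    ring
  · intro u v
    have f' : ∀ i, ContDiffOn ℝ ∞ (fun q => w q i) OM := fun i => contDiffOn_pi.1 hw' i
    have g' : ∀ i, ContDiffOn ℝ ∞ (fun q => D q u i) OM := fun i => contDiffOn_pi.1 (hD u) i
    have k' : ∀ i, ContDiffOn ℝ ∞ (fun q => D q v i) OM := fun i => contDiffOn_pi.1 (hD v) i
    exact ((((f' 0).mul (((g' 1).mul (k' 2)).sub ((g' 2).mul (k' 1)))).add
      ((f' 1).mul (((g' 2).mul (k' 0)).sub ((g' 0).mul (k' 2))))).add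
      ((f' 2).mul (((g' 0).mul (k' 1)).sub ((g' 1).mul (k' 0))))).div_const _
  · intro p hp
    have hO := OM_open.mem_nhds hp
    obtain ⟨W, hW, hWu⟩ := hder p hp
    have hd : ∀ v, HasFDerivAt (fun q => D q v) (fderiv ℝ (fun q => D q v) p) p := fun v =>
      (((hD v).contDiffAt hO).differentiableAt hne).hasFDerivAt
    have key : ∀ u v x, fderiv ℝ (fun q => det3 (w q) (D q v) (D q x) / (4 * π)) p u =
        (det3 (D p u) (D p v) (D p x) + det3 (w p) (fderiv ℝ (fun q => D q v) p u) (D p x) +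
          det3 (w p) (D p v) (fderiv ℝ (fun q => D q x) p u)) / (4 * π) := by
      intro u v x
      obtain ⟨L, hL, hLu⟩ := TB2_deriv hW (hd v) (hd x)
      have h := hL.mul_const (4 * π)⁻¹
      have h2 := h.congr_of_eventuallyEq (f₁ := fun q => det3 (w q) (D q v) (D q x) / (4 * π))
        (Filter.Eventually.of_forall fun q => div_eq_mul_inv _ _)
      rw [h2.fderiv]
      simp only [smul_apply, smul_eq_mul, hLu, hWu]
      ring
    intro u v x
    rw [key u v x, key v x u, key x u v, hsymm p hp u v, hsymm p hp u x, hsymm p hp v x]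
    have h0 := det3_eq_zero (hw p hp) (hwd p hp u) (hwd p hp v) (hwd p hp x)
    simp only [det3, dot, C0a_crs0, C0a_crs1, C0a_crs2] at h0 ⊢
    linear_combination (3 / (4 * π)) * h0

theorem cform_Wf : CForm OM Wf :=
  TB2_gen (fun _ hp => wv_unit hp) (fun _ hp u => dot_wv_dw hp u) (fun _ hp => hasFDerivAt_wv hp)
    smooth_wv smooth_dw (fun _ hp u v => dw_symm hp u v) (fun _ u v => dw_add u v)
    (fun _ c u => dw_smul c u)

theorem cform_Af : CForm OM Af :=
  TB2_gen (fun _ hp => sv_unit hp) (fun _ hp u => dot_sv_ds hp u) (fun _ hp => hasFDerivAt_sv hp)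
    smooth_sv smooth_ds (fun _ hp u v => ds_symm hp u v) (fun _ u v => ds_add u v)
    (fun _ c u => ds_smul c u)

theorem isD_Thf : IsD OM (fun p u => x1 p * xi2 p u) Thf := by
  have hne : (∞ : WithTop ℕ∞) ≠ 0 := by simp
  constructor
  · intro p _ u v
    simp only [xi2_add]
    ring
  · intro p _ c u
    simp only [xi2_smul]
    ring
  · intro u
    exact smooth_x1.mul (smooth_xi2 u)
  · intro p hp
    have hO := OM_open.mem_nhds hp
    have hx1 : HasFDerivAt x1 (fderiv ℝ x1 p) p :=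
      ((smooth_x1.contDiffAt hO).differentiableAt hne).hasFDerivAt
    have hxi : ∀ v, HasFDerivAt (fun q => xi2 q v) (fderiv ℝ (fun q => xi2 q v) p) p := fun v =>
      (((smooth_xi2 v).contDiffAt hO).differentiableAt hne).hasFDerivAt
    have key : ∀ u v, fderiv ℝ (fun q => x1 q * xi2 q v) p u =
        xi1 p u * xi2 p v + x1 p * fderiv ℝ (fun q => xi2 q v) p u := by
      intro u v
      have h2 := (hx1.mul (hxi v)).congr_of_eventuallyEq (f₁ := fun q => x1 q * xi2 q v)
        (Filter.Eventually.of_forall fun q => rfl)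
      rw [h2.fderiv]
      simp only [add_apply, smul_apply, smul_eq_mul, fderiv_x1 hp]
      ring
    intro u v
    rw [key, key, xi2_symm hp u v, Thf]
    ring

theorem cform_Thf : CForm OM Thf := isD_Thf.cform OM_open

theorem cform_FF (l : ℕ) : CForm OM (FF l) := by
  have h := CForm.comb OM_open cform_Wf cform_Thf (4 * π) (4 * π * l)
  refine h.congr OM_open fun p _ u v => ?_
  have hpi : (4 * π) ≠ 0 := by positivity
  rw [FF, Wf, mul_div_cancel₀ _ hpi]

end H31R.Tp
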