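import Pool.Agent.Lib.H31R.TB2

/-!
# H31R, chunk TB3: `Xf l = Af - d (βf l)`

`4 π d(βf)(u, v) = <dw u × s + w × ds u, dw v> - <dw v × s + w × ds v, dw u>
   - 4 π l ((dh u x1 + h xi1 u) xi2 v - (dh v x1 + h xi1 v) xi2 u)` (the second derivatives cancel by
`dw_symm`, `xi2_symm`). Then the identity with the definition of `Xf` is polynomial in the
components of `w`, `s`, `dw u`, `dw v`, `ds u`, `ds v` and in `x1`, `xi1`, `xi2`, modulo `|w|^2 = |s|^2 = 1`,
`<w, dw u> = <w, dw v> = <s, ds u> = <s, ds v> = 0`. It was checked numerically. For a proof by hand write the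
vectors in an orthonormal frame `(e, f, w)` with `s = ρ e + h w` (`C0a.lean`: `exists_perp`, `fr_of`, `eq_lc`,
`dot_lc`, `crs_lc`), `ρ^2 + h^2 = 1`: then `dw u = (a1, a2, 0)`, `ds u = (b1, b2, b3)` with
`ρ b1 + h b3 = 0`, and the identity is a small polynomial identity (no division is necessary if
one treats `ρ = 0` by continuity or by multiplying with `ρ`; alternatively find the
`linear_combination` directly in components).
-/

open scoped ContDiff
open Real Set MeasureTheory

namespace H31R.Tp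

theorem TB3_lc_add (f1 f2 f3 : V3) (a b c a' b' c' : ℝ) :
    lc f1 f2 f3 a b c + lc f1 f2 f3 a' b' c' = lc f1 f2 f3 (a + a') (b + b') (c + c') := by
  simp only [lc]
  module

theorem TB3_lc_sub (f1 f2 f3 : V3) (a b c a' b' c' : ℝ) :
    lc f1 f2 f3 a b c - lc f1 f2 f3 a' b' c' = lc f1 f2 f3 (a - a') (b - b') (c - c') := by
  simp only [lc]
  module

theorem TB3_lc_smul (f1 f2 f3 : V3) (r a b c : ℝ) :
    r • lc f1 f2 f3 a b c = lc f1 f2 f3 (r * a) (r * b) (r * c) := by
  simp only [lc]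
  module

/-- The algebraic identity in a frame. -/
theorem TB3_frame {f1 f2 f3 : V3} (hf : Fr f1 f2 f3) {s1 s2 h a1 a2 a1' a2' b1 b2 b3 b1' b2' b3' : ℝ}
    (c xu xv : ℝ) (hn : s1 ^ 2 + s2 ^ 2 + h ^ 2 = 1) (ht : s1 * b1 + s2 * b2 + h * b3 = 0)
    (ht' : s1 * b1' + s2 * b2' + h * b3' = 0) {w s a a' b b' : V3} (hw : w = lc f1 f2 f3 0 0 1)
    (hs : s = lc f1 f2 f3 s1 s2 h) (ha : a = lc f1 f2 f3 a1 a2 0) (ha' : a' = lc f1 f2 f3 a1' a2' 0)
    (hb : b = lc f1 f2 f3 b1 b2 b3) (hb' : b' = lc f1 f2 f3 b1' b2' b3') :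
    dot (crs a s) a' + dot (crs w b) a' - (dot (crs a' s) a + dot (crs w b') a)
      - c * ((dot a s + dot w b) * xv - (dot a' s + dot w b') * xu) =
    det3 s b b' -
      (dot w s * det3 w (b - dot w b • w - dot w s • a - (c * xu) • crs w s)
          (b' - dot w b' • w - dot w s • a' - (c * xv) • crs w s)
        - ((dot a s + dot w b) *
            dot (crs w s) (b' - dot w b' • w - dot w s • a' - (c * xv) • crs w s)
          - (dot a' s + dot w b') *
            dot (crs w s) (b - dot w b • w - dot w s • a - (c * xu) • crs w s))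
        + dot w s * det3 w a a') := by
  subst hw hs ha ha' hb hb'
  simp only [det3, TB3_lc_sub, TB3_lc_smul, crs_lc hf, dot_lc hf]
  linear_combination (h * (a1 * a2' - a2 * a1') + a1' * b2 - a2' * b1 - a1 * b2' + a2 * b1' +
    c * ((s1 * a1 + s2 * a2 + b3) * xv - (s1 * a1' + s2 * a2' + b3') * xu)) * hn +
    (-a1' * s2 + a2' * s1 - c * h * xv) * ht + (a1 * s2 - a2 * s1 + c * h * xu) * ht'

/-- The algebraic identity. -/
theorem TB3_alg {w s a a' b b' : V3} (hw : dot w w = 1) (hs : dot s s = 1) (ha : dot w a = 0)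
    (ha' : dot w a' = 0) (hb : dot s b = 0) (hb' : dot s b' = 0) (c xu xv : ℝ) :
    dot (crs a s) a' + dot (crs w b) a' - (dot (crs a' s) a + dot (crs w b') a)
      - c * ((dot a s + dot w b) * xv - (dot a' s + dot w b') * xu) =
    det3 s b b' -
      (dot w s * det3 w (b - dot w b • w - dot w s • a - (c * xu) • crs w s)
          (b' - dot w b' • w - dot w s • a' - (c * xv) • crs w s)
        - ((dot a s + dot w b) *
            dot (crs w s) (b' - dot w b' • w - dot w s • a' - (c * xv) • crs w s)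
          - (dot a' s + dot w b') *
            dot (crs w s) (b - dot w b • w - dot w s • a - (c * xu) • crs w s))
        + dot w s * det3 w a a') := by
  obtain ⟨e, he, hwe⟩ := exists_perp hw
  have hf := fr_of hw he hwe
  have h3 : w = lc e (crs w e) w 0 0 1 := by simp [lc]
  have hs' := eq_lc hf s
  have ha1 := eq_lc hf a
  have ha1' := eq_lc hf a'
  have hb1 := eq_lc hf b
  have hb1' := eq_lc hf b'
  rw [dot_comm a w, ha] at ha1
  rw [dot_comm a' w, ha'] at ha1'
  refine TB3_frame hf c xu xv ?_ ?_ ?_ h3 hs' ha1 ha1' hb1 hb1'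
  · rw [hs', dot_lc hf] at hs
    linear_combination hs
  · have h := hb
    rw [hs', hb1, dot_lc hf] at h
    exact h
  · have h := hb'
    rw [hs', hb1', dot_lc hf] at h
    exact h

theorem TB3_deriv {f g k : EE 7 → V3} {F G K : EE 7 →L[ℝ] V3} {p : EE 7} (hf : HasFDerivAt f F p)
    (hg : HasFDerivAt g G p) (hk : HasFDerivAt k K p) : ∃ L : EE 7 →L[ℝ] ℝ,
    HasFDerivAt (fun q => dot (crs (f q) (g q)) (k q)) L p ∧
    ∀ u, L u = dot (crs (F u) (g p)) (k p) + dot (crs (f p) (G u)) (k p) +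
      dot (crs (f p) (g p)) (K u) := by
  have f' : ∀ i, HasFDerivAt (fun q => f q i) ((ContinuousLinearMap.proj i).comp F) p :=
    fun i => hasFDerivAt_pi'.1 hf i
  have g' : ∀ i, HasFDerivAt (fun q => g q i) ((ContinuousLinearMap.proj i).comp G) p :=
    fun i => hasFDerivAt_pi'.1 hg i
  have k' : ∀ i, HasFDerivAt (fun q => k q i) ((ContinuousLinearMap.proj i).comp K) p :=
    fun i => hasFDerivAt_pi'.1 hk i
  refine ⟨_, (((((f' 1).mul (g' 2)).sub ((f' 2).mul (g' 1))).mul (k' 0)).add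
    ((((f' 2).mul (g' 0)).sub ((f' 0).mul (g' 2))).mul (k' 1))).add
    ((((f' 0).mul (g' 1)).sub ((f' 1).mul (g' 0))).mul (k' 2)), fun u => ?_⟩
  simp only [dot, C0a_crs0, C0a_crs1, C0a_crs2, add_apply, sub_apply, smul_apply,
    ContinuousLinearMap.comp_apply, ContinuousLinearMap.proj_apply, smul_eq_mul, Pi.mul_apply, Pi.sub_apply]
  ring

/-- The derivative of `βf`. -/
theorem TB3_beta (l : ℕ) {p : EE 7} (hp : p ∈ OM) (u v : EE 7) :
    fderiv ℝ (fun q => βf l q v) p u =
      (dot (crs (dw p u) (sv p)) (dw p v) + dot (crs (wv p) (ds p u)) (dw p v) +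
        dot (crs (wv p) (sv p)) (fderiv ℝ (fun q => dw q v) p u) -
        4 * π * l * (dh p u * x1 p * xi2 p v + hh p * xi1 p u * xi2 p v +
          hh p * x1 p * fderiv ℝ (fun q => xi2 q v) p u)) / (4 * π) := by
  obtain ⟨W, hW, hWu⟩ := hasFDerivAt_wv hp
  obtain ⟨S, hS, hSu⟩ := hasFDerivAt_sv hp
  have hO := OM_open.mem_nhds hp
  have hne : (∞ : WithTop ℕ∞) ≠ 0 := by simp
  have hd : HasFDerivAt (fun q => dw q v) (fderiv ℝ (fun q => dw q v) p) p :=
    (((smooth_dw v).contDiffAt hO).differentiableAt hne).hasFDerivAt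
  have hh' : HasFDerivAt hh (fderiv ℝ hh p) p :=
    ((smooth_hh.contDiffAt hO).differentiableAt hne).hasFDerivAt
  have hx1 : HasFDerivAt x1 (fderiv ℝ x1 p) p :=
    ((smooth_x1.contDiffAt hO).differentiableAt hne).hasFDerivAt
  have hxi : HasFDerivAt (fun q => xi2 q v) (fderiv ℝ (fun q => xi2 q v) p) p :=
    (((smooth_xi2 v).contDiffAt hO).differentiableAt hne).hasFDerivAt
  obtain ⟨L, hL, hLu⟩ := TB3_deriv hW hS hd
  have hprod := (hh'.mul hx1).mul hxi
  have h := (hL.sub (hprod.const_mul (4 * π * l))).mul_const (4 * π)⁻¹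
  have h2 := h.congr_of_eventuallyEq (f₁ := fun q => βf l q v)
    (Filter.Eventually.of_forall fun q => by
      simp only [βf, Jl, div_eq_mul_inv, Pi.sub_apply, Pi.mul_apply]
      ring)
  rw [h2.fderiv]
  simp only [add_apply, sub_apply, smul_apply, smul_eq_mul, hLu, hWu, hSu, fderiv_hh hp, fderiv_x1 hp,
    Pi.mul_apply]
  ring

theorem isD_βf (l : ℕ) : IsD OM (βf l) (fun p u v => Af p u v - Xf l p u v) := by
  constructor
  · intro p _ u v
    have h1 : dot (Jl p) (dw p u + dw p v) = dot (Jl p) (dw p u) + dot (Jl p) (dw p v) := by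
      simp only [dot, Pi.add_apply]
      ring
    simp only [βf, dw_add, xi2_add, h1]
    ring
  · intro p _ c u
    have h1 : dot (Jl p) (c • dw p u) = c * dot (Jl p) (dw p u) := by
      simp only [dot, Pi.smul_apply, smul_eq_mul]
      ring
    simp only [βf, dw_smul, xi2_smul, h1]
    ring
  · intro u
    have hJ : ∀ i, ContDiffOn ℝ ∞ (fun q => Jl q i) OM := fun i => contDiffOn_pi.1 smooth_Jl i
    have hd : ∀ i, ContDiffOn ℝ ∞ (fun q => dw q u i) OM := fun i => contDiffOn_pi.1 (smooth_dw u) i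
    have h1 : ContDiffOn ℝ ∞ (fun q => dot (Jl q) (dw q u)) OM :=
      (((hJ 0).mul (hd 0)).add ((hJ 1).mul (hd 1))).add ((hJ 2).mul (hd 2))
    have h2 : ContDiffOn ℝ ∞ (fun q => 4 * π * l * hh q * x1 q * xi2 q u) OM :=
      ((contDiffOn_const.mul smooth_hh).mul smooth_x1).mul (smooth_xi2 u)
    exact (h1.sub h2).div_const _
  · intro p hp u v
    rw [TB3_beta l hp, TB3_beta l hp, dw_symm hp u v, xi2_symm hp u v]
    have h := TB3_alg (wv_unit hp) (sv_unit hp) (dot_wv_dw hp u) (dot_wv_dw hp v) (dot_sv_ds hp u)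
      (dot_sv_ds hp v) (4 * π * l * x1 p) (xi2 p u) (xi2 p v)
    simp only [Af, Xf, TTv, DDv, Dl, FF, Thf, Jl, dh, hh] at h ⊢
    rw [← sub_div, ← sub_div]
    congr 1
    linear_combination h

theorem cform_Xf (l : ℕ) : CForm OM (Xf l) := by
  have h := CForm.comb OM_open cform_Af ((isD_βf l).cform OM_open) 1 (-1)
  refine h.congr OM_open fun p _ u v => ?_
  ring

end H31R.Tp
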