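import Pool.Agent.Lib.H31R.TB2

/-!
# H31R, chunk TB4: the differential of `TTv`

`TTv l p u = <w × s, ds u> - h <w × s, dw u> - 4 π l (1 - h^2) x1 xi2 u`. In the antisymmetric derivative the
second derivatives cancel (`dw_symm`, `ds_symm`, `xi2_symm`), and the rest is a polynomial identity in
the components of `w`, `s`, `dw u`, `dw v`, `ds u`, `ds v` modulo `|w|^2 = |s|^2 = 1`, `<w, dw> = <s, ds> = 0`
(checked numerically); an orthonormal frame `(e, f, w)` with `s = ρ e + h w` helps (see chunk TB3).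
-/

open scoped ContDiff
open Real Set MeasureTheory

namespace H31R.Tp

section calc1

variable {p : EE 7}

theorem tb4_comp {A : EE 7 → V3} (hA : DifferentiableAt ℝ A p) (i : Fin 3) :
    ∃ L : EE 7 →L[ℝ] ℝ, HasFDerivAt (fun q => A q i) L p ∧ ∀ u, L u = fderiv ℝ A p u i :=
  ⟨(ContinuousLinearMap.proj i).comp (fderiv ℝ A p),
    (ContinuousLinearMap.proj (R := ℝ) (φ := fun _ : Fin 3 => ℝ) i).hasFDerivAt.comp p
      hA.hasFDerivAt, fun _ => rfl⟩

theorem tb4_dot3 {A B C : EE 7 → V3} (hA : DifferentiableAt ℝ A p) (hB : DifferentiableAt ℝ B p)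
    (hC : DifferentiableAt ℝ C p) (u : EE 7) :
    DifferentiableAt ℝ (fun q => dot (crs (A q) (B q)) (C q)) p ∧
    fderiv ℝ (fun q => dot (crs (A q) (B q)) (C q)) p u =
      dot (crs (fderiv ℝ A p u) (B p)) (C p) + dot (crs (A p) (fderiv ℝ B p u)) (C p) +
        dot (crs (A p) (B p)) (fderiv ℝ C p u) := by
  obtain ⟨a0, ha0, ea0⟩ := tb4_comp hA 0
  obtain ⟨a1, ha1, ea1⟩ := tb4_comp hA 1
  obtain ⟨a2, ha2, ea2⟩ := tb4_comp hA 2
  obtain ⟨b0, hb0, eb0⟩ := tb4_comp hB 0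
  obtain ⟨b1, hb1, eb1⟩ := tb4_comp hB 1
  obtain ⟨b2, hb2, eb2⟩ := tb4_comp hB 2
  obtain ⟨c0, hc0, ec0⟩ := tb4_comp hC 0
  obtain ⟨c1, hc1, ec1⟩ := tb4_comp hC 1
  obtain ⟨c2, hc2, ec2⟩ := tb4_comp hC 2
  have H := ((((ha1.fun_mul hb2).fun_sub (ha2.fun_mul hb1)).fun_mul hc0).fun_add
    (((ha2.fun_mul hb0).fun_sub (ha0.fun_mul hb2)).fun_mul hc1)).fun_add
    (((ha0.fun_mul hb1).fun_sub (ha1.fun_mul hb0)).fun_mul hc2)
  have H' : HasFDerivAt (fun q => dot (crs (A q) (B q)) (C q)) _ p := H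
  refine ⟨H'.differentiableAt, ?_⟩
  rw [H'.fderiv]
  simp only [add_apply, sub_apply,
    smul_apply, smul_eq_mul, ea0, ea1, ea2, eb0, eb1, eb2, ec0, ec1, ec2, dot,
    C0a_crs0, C0a_crs1, C0a_crs2]
  ring

end calc1

section alg

theorem tb4_sub (e f g : V3) (a b c a' b' c' : ℝ) :
    lc e f g a b c - lc e f g a' b' c' = lc e f g (a - a') (b - b') (c - c') := by
  simp only [lc]
  module

theorem tb4_smul (e f g : V3) (t a b c : ℝ) :
    t • lc e f g a b c = lc e f g (t * a) (t * b) (t * c) := by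
  simp only [lc]
  module

/-- the polynomial identity in coordinates -/
theorem tb4_alg {e f g : V3} (F : Fr e f g) {s1 s2 h a1 a2 c1 c2 b1 b2 b3 d1 d2 d3 : ℝ}
    (r1 : s1 * b1 + s2 * b2 + h * b3 = 0) (r2 : s1 * d1 + s2 * d2 + h * d3 = 0)
    (r3 : s1 * s1 + s2 * s2 + h * h = 1) {w s a c b d : V3} (hw : w = lc e f g 0 0 1)
    (hs : s = lc e f g s1 s2 h) (ha : a = lc e f g a1 a2 0) (hc : c = lc e f g c1 c2 0)
    (hb : b = lc e f g b1 b2 b3) (hd : d = lc e f g d1 d2 d3) (k x ya yc xa xc : ℝ) :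
    (dot (crs a s) d + dot (crs w b) d - (dot a s + dot w b) * dot (crs w s) c -
      dot w s * (dot (crs a s) c + dot (crs w b) c) -
      k * (-2 * dot w s * (dot a s + dot w b) * x * xc + (1 - dot w s ^ 2) * ya * xc)) -
    (dot (crs c s) b + dot (crs w d) b - (dot c s + dot w d) * dot (crs w s) a -
      dot w s * (dot (crs c s) a + dot (crs w d) a) -
      k * (-2 * dot w s * (dot c s + dot w d) * x * xa + (1 - dot w s ^ 2) * yc * xa)) =
    2 * dot w s * (dot w s * det3 w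
        (b - dot w b • w - dot w s • a - (k * x * xa) • crs w s)
        (d - dot w d • w - dot w s • c - (k * x * xc) • crs w s) -
      ((dot a s + dot w b) *
          dot (crs w s) (d - dot w d • w - dot w s • c - (k * x * xc) • crs w s) -
        (dot c s + dot w d) *
          dot (crs w s) (b - dot w b • w - dot w s • a - (k * x * xa) • crs w s)) +
      dot w s * (det3 w a c + k * (ya * xc - yc * xa))) -
    (1 + dot w s ^ 2) * (det3 w a c + k * (ya * xc - yc * xa)) := by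
  subst hw hs ha hc hb hd
  simp only [det3, dot_lc F, crs_lc F, tb4_sub, tb4_smul]
  linear_combination (2 * (s1 * (d2 - h * c2) - s2 * (d1 - h * c1)) + 2 * h ^ 2 * k * x * xc) * r1 -
    (2 * (s1 * (b2 - h * a2) - s2 * (b1 - h * a1)) + 2 * h ^ 2 * k * x * xa) * r2 -
    (2 * ((b1 - h * a1) * (d2 - h * c2) - (b2 - h * a2) * (d1 - h * c1)) + (a1 * c2 - a2 * c1) +
      2 * h * k * x * ((s1 * a1 + s2 * a2 + b3) * xc - (s1 * c1 + s2 * c2 + d3) * xa)) * r3

end alg

section main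

variable {p : EE 7}

theorem tb4_dw0 (hp : p ∈ OM) (u : EE 7) : dot (wv p) (dw p u) = 0 := dot_wv_dw hp u

theorem tb4_ds0 (hp : p ∈ OM) (u : EE 7) : dot (sv p) (ds p u) = 0 := dot_sv_ds hp u

/-- the polynomial identity for the forms -/
theorem tb4_id (hp : p ∈ OM) (u v : EE 7) (k x ya yc xa xc : ℝ) :
    (dot (crs (dw p u) (sv p)) (ds p v) + dot (crs (wv p) (ds p u)) (ds p v) -
      (dot (dw p u) (sv p) + dot (wv p) (ds p u)) * dot (crs (wv p) (sv p)) (dw p v) -
      dot (wv p) (sv p) * (dot (crs (dw p u) (sv p)) (dw p v) +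
        dot (crs (wv p) (ds p u)) (dw p v)) -
      k * (-2 * dot (wv p) (sv p) * (dot (dw p u) (sv p) + dot (wv p) (ds p u)) * x * xc +
        (1 - dot (wv p) (sv p) ^ 2) * ya * xc)) -
    (dot (crs (dw p v) (sv p)) (ds p u) + dot (crs (wv p) (ds p v)) (ds p u) -
      (dot (dw p v) (sv p) + dot (wv p) (ds p v)) * dot (crs (wv p) (sv p)) (dw p u) -
      dot (wv p) (sv p) * (dot (crs (dw p v) (sv p)) (dw p u) +
        dot (crs (wv p) (ds p v)) (dw p u)) -
      k * (-2 * dot (wv p) (sv p) * (dot (dw p v) (sv p) + dot (wv p) (ds p v)) * x * xa +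
        (1 - dot (wv p) (sv p) ^ 2) * yc * xa)) =
    2 * dot (wv p) (sv p) * (dot (wv p) (sv p) * det3 (wv p)
        (ds p u - dot (wv p) (ds p u) • wv p - dot (wv p) (sv p) • dw p u -
          (k * x * xa) • crs (wv p) (sv p))
        (ds p v - dot (wv p) (ds p v) • wv p - dot (wv p) (sv p) • dw p v -
          (k * x * xc) • crs (wv p) (sv p)) -
      ((dot (dw p u) (sv p) + dot (wv p) (ds p u)) *
          dot (crs (wv p) (sv p)) (ds p v - dot (wv p) (ds p v) • wv p -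
            dot (wv p) (sv p) • dw p v - (k * x * xc) • crs (wv p) (sv p)) -
        (dot (dw p v) (sv p) + dot (wv p) (ds p v)) *
          dot (crs (wv p) (sv p)) (ds p u - dot (wv p) (ds p u) • wv p -
            dot (wv p) (sv p) • dw p u - (k * x * xa) • crs (wv p) (sv p))) +
      dot (wv p) (sv p) * (det3 (wv p) (dw p u) (dw p v) + k * (ya * xc - yc * xa))) -
    (1 + dot (wv p) (sv p) ^ 2) *
      (det3 (wv p) (dw p u) (dw p v) + k * (ya * xc - yc * xa)) := by
  obtain ⟨e, he, hwe⟩ := exists_perp (wv_unit hp)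
  have F := fr_of (wv_unit hp) he hwe
  have hz : ∀ A : V3, dot (wv p) A = 0 →
      A = lc e (crs (wv p) e) (wv p) (dot A e) (dot A (crs (wv p) e)) 0 := by
    intro A hA
    have h1 := eq_lc F A
    rwa [dot_comm A (wv p), hA] at h1
  have hs := eq_lc F (sv p)
  have hs' : dot (sv p) (sv p) = 1 := sv_unit hp
  have hb := eq_lc F (ds p u)
  have hd := eq_lc F (ds p v)
  have hb0 := tb4_ds0 hp u
  have hd0 := tb4_ds0 hp v
  have hw : wv p = lc e (crs (wv p) e) (wv p) 0 0 1 := by simp [lc]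
  refine tb4_alg F ?_ ?_ ?_ hw hs (hz _ (tb4_dw0 hp u)) (hz _ (tb4_dw0 hp v)) hb hd
    k x ya yc xa xc
  · rw [hs, hb, dot_lc F] at hb0
    exact hb0
  · rw [hs, hd, dot_lc F] at hd0
    exact hd0
  · rw [hs, dot_lc F] at hs'
    exact hs'

theorem tb4_TT (l : ℕ) (hp : p ∈ OM) (v : EE 7) :
    TTv l p v = dot (crs (wv p) (sv p)) (ds p v) -
      hh p * dot (crs (wv p) (sv p)) (dw p v) -
      4 * π * l * ((1 - hh p ^ 2) * x1 p * xi2 p v) := by
  have h1 := wv_unit hp
  have h2 := sv_unit hp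
  unfold TTv DDv Dl Jl hh
  generalize wv p = w at *
  generalize sv p = s at *
  generalize ds p v = d at *
  generalize dw p v = e at *
  generalize xi2 p v = x at *
  generalize x1 p = y at *
  simp only [dot, Pi.sub_apply, Pi.smul_apply, smul_eq_mul, C0a_crs0, C0a_crs1, C0a_crs2] at *
  linear_combination (-4 * π * l * y * x * (s 0 * s 0 + s 1 * s 1 + s 2 * s 2)) * h1 -
    4 * π * l * y * x * h2

theorem tb4_dOM (f : EE 7 → ℝ) (hp : p ∈ OM) (hf : ContDiffOn ℝ ∞ f OM) :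
    DifferentiableAt ℝ f p :=
  (hf.contDiffAt (OM_open.mem_nhds hp)).differentiableAt (by simp)

theorem tb4_dOM3 (f : EE 7 → V3) (hp : p ∈ OM) (hf : ContDiffOn ℝ ∞ f OM) :
    DifferentiableAt ℝ f p :=
  (hf.contDiffAt (OM_open.mem_nhds hp)).differentiableAt (by simp)

theorem tb4_fd (l : ℕ) (hp : p ∈ OM) (u v : EE 7) :
    fderiv ℝ (fun q => TTv l q v) p u =
      (dot (crs (dw p u) (sv p)) (ds p v) + dot (crs (wv p) (ds p u)) (ds p v) -
      (dot (dw p u) (sv p) + dot (wv p) (ds p u)) * dot (crs (wv p) (sv p)) (dw p v) -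
      dot (wv p) (sv p) * (dot (crs (dw p u) (sv p)) (dw p v) +
        dot (crs (wv p) (ds p u)) (dw p v)) -
      4 * π * l * (-2 * dot (wv p) (sv p) * (dot (dw p u) (sv p) + dot (wv p) (ds p u)) * x1 p *
        xi2 p v + (1 - dot (wv p) (sv p) ^ 2) * xi1 p u * xi2 p v)) +
      (dot (crs (wv p) (sv p)) (fderiv ℝ (fun q => ds q v) p u) -
        dot (wv p) (sv p) * dot (crs (wv p) (sv p)) (fderiv ℝ (fun q => dw q v) p u) -
        4 * π * l * (1 - dot (wv p) (sv p) ^ 2) * x1 p * fderiv ℝ (fun q => xi2 q v) p u) := by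
  have hev : (fun q => TTv l q v) =ᶠ[nhds p] fun q => dot (crs (wv q) (sv q)) (ds q v) -
      hh q * dot (crs (wv q) (sv q)) (dw q v) -
      4 * π * l * ((1 - hh q * hh q) * x1 q * xi2 q v) :=
    Filter.eventually_of_mem (OM_open.mem_nhds hp) fun q hq => by
      beta_reduce
      rw [tb4_TT l hq v, pow_two]
  rw [hev.fderiv_eq]
  have hw := tb4_dOM3 wv hp smooth_wv
  have hs := tb4_dOM3 sv hp smooth_sv
  have hdw := tb4_dOM3 (fun q => dw q v) hp (smooth_dw v)
  have hds := tb4_dOM3 (fun q => ds q v) hp (smooth_ds v)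
  have hx1 := tb4_dOM x1 hp smooth_x1
  have hh' := tb4_dOM hh hp smooth_hh
  have hx2 := tb4_dOM (fun q => xi2 q v) hp (smooth_xi2 v)
  obtain ⟨k1, k1'⟩ := tb4_dot3 hw hs hds u
  obtain ⟨k2, k2'⟩ := tb4_dot3 hw hs hdw u
  have H : HasFDerivAt (fun q => dot (crs (wv q) (sv q)) (ds q v) -
      hh q * dot (crs (wv q) (sv q)) (dw q v) -
      4 * π * l * ((1 - hh q * hh q) * x1 q * xi2 q v)) _ p :=
    (k1.hasFDerivAt.fun_sub (hh'.hasFDerivAt.fun_mul k2.hasFDerivAt)).fun_sub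
      (((((hasFDerivAt_const (1 : ℝ) p).fun_sub (hh'.hasFDerivAt.fun_mul hh'.hasFDerivAt)).fun_mul
        hx1.hasFDerivAt).fun_mul hx2.hasFDerivAt).const_mul (4 * π * l))
  rw [H.fderiv]
  simp only [add_apply, sub_apply, smul_apply, smul_eq_mul, k1', k2', fderiv_wv hp,
    fderiv_sv hp, fderiv_x1 hp, fderiv_hh hp]
  simp only [zero_apply, hh, dh]
  norm_num
  ring

theorem tb4_smooth_dot {A B : EE 7 → V3} (hA : ContDiffOn ℝ ∞ A OM) (hB : ContDiffOn ℝ ∞ B OM) :
    ContDiffOn ℝ ∞ (fun q => dot (A q) (B q)) OM := by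
  have hA' := contDiffOn_pi.1 hA
  have hB' := contDiffOn_pi.1 hB
  unfold dot
  exact (((hA' 0).mul (hB' 0)).add ((hA' 1).mul (hB' 1))).add ((hA' 2).mul (hB' 2))

end main

theorem isD_TTv (l : ℕ) : IsD OM (TTv l)
    (fun p u v => 8 * π * hh p * Xf l p u v - (1 + hh p ^ 2) * FF l p u v) := by
  refine ⟨?_, ?_, ?_, ?_⟩
  · intro p hp u v
    rw [tb4_TT l hp, tb4_TT l hp, tb4_TT l hp, ds_add, dw_add, xi2_add]
    simp only [dot, Pi.add_apply]
    ring
  · intro p hp c u
    rw [tb4_TT l hp, tb4_TT l hp, ds_smul, dw_smul, xi2_smul]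
    simp only [dot, Pi.smul_apply, smul_eq_mul]
    ring
  · intro v
    unfold TTv DDv Dl
    refine tb4_smooth_dot smooth_Jl ?_
    have h4 : ContDiffOn ℝ ∞ (fun p => (4 * π * l * x1 p * xi2 p v) • Jl p) OM :=
      ContDiffOn.smul ((contDiffOn_const.mul smooth_x1).mul (smooth_xi2 v)) smooth_Jl
    exact (((smooth_ds v).sub ((tb4_smooth_dot smooth_wv (smooth_ds v)).smul smooth_wv)).sub
      (smooth_hh.smul (smooth_dw v))).sub h4
  · intro p hp u v
    rw [tb4_fd l hp, tb4_fd l hp, dw_symm hp u v, ds_symm hp u v, xi2_symm hp u v]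
    have key := tb4_id hp u v (4 * π * l) (x1 p) (xi1 p u) (xi1 p v) (xi2 p u) (xi2 p v)
    have hpi : (4 * π) ≠ 0 := by positivity
    have hX : 8 * π * hh p * Xf l p u v = 2 * dot (wv p) (sv p) * (dot (wv p) (sv p) * det3 (wv p)
        (ds p u - dot (wv p) (ds p u) • wv p - dot (wv p) (sv p) • dw p u -
          (4 * π * l * x1 p * xi2 p u) • crs (wv p) (sv p))
        (ds p v - dot (wv p) (ds p v) • wv p - dot (wv p) (sv p) • dw p v -
          (4 * π * l * x1 p * xi2 p v) • crs (wv p) (sv p)) -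
      ((dot (dw p u) (sv p) + dot (wv p) (ds p u)) *
          dot (crs (wv p) (sv p)) (ds p v - dot (wv p) (ds p v) • wv p -
            dot (wv p) (sv p) • dw p v - (4 * π * l * x1 p * xi2 p v) • crs (wv p) (sv p)) -
        (dot (dw p v) (sv p) + dot (wv p) (ds p v)) *
          dot (crs (wv p) (sv p)) (ds p u - dot (wv p) (ds p u) • wv p -
            dot (wv p) (sv p) • dw p u - (4 * π * l * x1 p * xi2 p u) • crs (wv p) (sv p))) +
      dot (wv p) (sv p) * (det3 (wv p) (dw p u) (dw p v) +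
        4 * π * l * (xi1 p u * xi2 p v - xi1 p v * xi2 p u))) := by
      have h8 : 8 * π * hh p * Xf l p u v = 2 * hh p * (4 * π * Xf l p u v) := by ring
      rw [h8]
      unfold Xf
      rw [mul_div_cancel₀ _ hpi]
      rfl
    rw [hX]
    have hF : FF l p u v = det3 (wv p) (dw p u) (dw p v) +
        4 * π * l * (xi1 p u * xi2 p v - xi1 p v * xi2 p u) := rfl
    rw [hF]
    have hh1 : hh p = dot (wv p) (sv p) := rfl
    rw [hh1]
    linear_combination key

end H31R.Tp
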