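import Pool.Agent.Lib.H31R.TB1

/-!
# H31R, chunk TB6: squares of the forms

`wedge_Wf`: the vectors `dw p (v i)` are in the plane orthogonal to `w`; in an orthonormal basis `(e, f)` of
this plane (`C0a.lean`: `exists_perp`, `fr_of`, `eq_lc`) `det3 w (dw vi) (dw vj) = a i * b j - a j * b i`, and the
wedge square of such a form is `0` (`ring`).
`wedge_Xf`: `4 π Xf - h FF = h det3 w (DDv) (DDv) - (dh ∧ TTv)`; with `DDv l p (v i) = a i e + b i f` (it is
orthogonal to `w`) `det3 w (DDv) (DDv) = a ∧ b`, and `TTv = c a + d b` with constants `c, d`, so the square is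
`-2 h (a ∧ b) ∧ (dh ∧ (c a + d b)) = 0` (`ring`).
-/

open scoped ContDiff
open Real Set MeasureTheory

namespace H31R.Tp

theorem tb6_frame {e f w : V3} (h : Fr e f w) {A : V3} (hA : dot w A = 0) :
    A = lc e f w (dot A e) (dot A f) 0 := by
  have h1 := eq_lc h A
  rwa [dot_comm A w, hA] at h1

theorem tb6_w (e f w : V3) : w = lc e f w 0 0 1 := by
  simp [lc]

theorem tb6_dotw {e f w : V3} (h : Fr e f w) (a b c : ℝ) : dot w (lc e f w a b c) = c := by
  have h1 := dot_lc h 0 0 1 a b c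
  rw [← tb6_w] at h1
  rw [h1]
  ring

theorem tb6_det {e f w : V3} (h : Fr e f w) {A B : V3} (hA : dot w A = 0) (hB : dot w B = 0) :
    det3 w A B = dot A e * dot B f - dot B e * dot A f := by
  have hA' := tb6_frame h hA
  have hB' := tb6_frame h hB
  generalize dot A e = a1 at hA' ⊢
  generalize dot A f = a2 at hA' ⊢
  generalize dot B e = b1 at hB' ⊢
  generalize dot B f = b2 at hB' ⊢
  subst hA' hB'
  unfold det3
  rw [crs_lc h, tb6_dotw h]
  ring

theorem tb6_dot {e f w : V3} (h : Fr e f w) (J : V3) {A : V3} (hA : dot w A = 0) :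
    dot J A = dot J e * dot A e + dot J f * dot A f := by
  have hA' := tb6_frame h hA
  have hJ' := eq_lc h J
  generalize dot A e = a1 at hA' ⊢
  generalize dot A f = a2 at hA' ⊢
  subst hA'
  generalize dot J e = b1 at hJ' ⊢
  generalize dot J f = b2 at hJ' ⊢
  generalize dot J w = b3 at hJ' ⊢
  subst hJ'
  rw [dot_lc h]
  ring

/-- the vectors `DDv` are orthogonal to `w` -/
theorem tb6_DDv (l : ℕ) {p : EE 7} (hp : p ∈ OM) (u : EE 7) : dot (wv p) (DDv l p u) = 0 := by
  have h1 := wv_unit hp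
  have h2 := dot_wv_dw hp u
  unfold DDv Dl Jl
  generalize wv p = w at *
  generalize sv p = s at *
  generalize ds p u = d at *
  generalize dw p u = e at *
  generalize hh p = h at *
  simp only [dot, Pi.sub_apply, Pi.smul_apply, smul_eq_mul, C0a_crs0, C0a_crs1, C0a_crs2] at *
  linear_combination -(w 0 * d 0 + w 1 * d 1 + w 2 * d 2) * h1 - h * h2

theorem wedge_Wf {p : EE 7} (hp : p ∈ OM) (v : Fin 4 → EE 7) :
    wedge (fun i j => Wf p (v i) (v j)) (fun i j => Wf p (v i) (v j)) = 0 := by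
  obtain ⟨e, he, hwe⟩ := exists_perp (wv_unit hp)
  have F := fr_of (wv_unit hp) he hwe
  have h1 : ∀ i j, Wf p (v i) (v j) = (dot (dw p (v i)) e * dot (dw p (v j)) (crs (wv p) e) -
      dot (dw p (v j)) e * dot (dw p (v i)) (crs (wv p) e)) / (4 * π) := fun i j => by
    unfold Wf
    rw [tb6_det F (dot_wv_dw hp _) (dot_wv_dw hp _)]
  simp only [h1, wedge]
  ring

theorem wedge_Thf (p : EE 7) (v : Fin 4 → EE 7) :
    wedge (fun i j => Thf p (v i) (v j)) (fun i j => Thf p (v i) (v j)) = 0 := by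
  simp only [wedge, Thf]
  ring

theorem tb6_wedge (a b : Fin 4 → Fin 4 → ℝ) (c h : ℝ) :
    16 * c ^ 2 * wedge a a - 8 * c * h * wedge a b + h ^ 2 * wedge b b =
      wedge (fun i j => 4 * c * a i j - h * b i j) (fun i j => 4 * c * a i j - h * b i j) := by
  simp only [wedge]
  ring

theorem wedge_Xf (l : ℕ) {p : EE 7} (hp : p ∈ OM) (v : Fin 4 → EE 7) :
    16 * π ^ 2 * wedge (fun i j => Xf l p (v i) (v j)) (fun i j => Xf l p (v i) (v j)) -
      8 * π * hh p * wedge (fun i j => Xf l p (v i) (v j)) (fun i j => FF l p (v i) (v j)) +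
      hh p ^ 2 * wedge (fun i j => FF l p (v i) (v j)) (fun i j => FF l p (v i) (v j)) = 0 := by
  obtain ⟨e, he, hwe⟩ := exists_perp (wv_unit hp)
  have F := fr_of (wv_unit hp) he hwe
  rw [tb6_wedge]
  have h1 : ∀ i j, 4 * π * Xf l p (v i) (v j) - hh p * FF l p (v i) (v j) =
      hh p * (dot (DDv l p (v i)) e * dot (DDv l p (v j)) (crs (wv p) e) -
        dot (DDv l p (v j)) e * dot (DDv l p (v i)) (crs (wv p) e)) -
      (dh p (v i) * (dot (Jl p) e * dot (DDv l p (v j)) e +
          dot (Jl p) (crs (wv p) e) * dot (DDv l p (v j)) (crs (wv p) e)) -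
        dh p (v j) * (dot (Jl p) e * dot (DDv l p (v i)) e +
          dot (Jl p) (crs (wv p) e) * dot (DDv l p (v i)) (crs (wv p) e))) := fun i j => by
    unfold Xf TTv
    rw [tb6_det F (tb6_DDv l hp _) (tb6_DDv l hp _), tb6_dot F _ (tb6_DDv l hp (v i)),
      tb6_dot F _ (tb6_DDv l hp (v j))]
    have hpi : (4 * π) ≠ 0 := by positivity
    rw [mul_div_cancel₀ _ hpi]
    ring
  simp only [h1, wedge]
  ring

end H31R.Tp
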