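import Pool.Agent.Lib.H31R.TA1
import Pool.Agent.Lib.H31R.TB1

/-!
# H31R, chunk TB7: pull-backs by equivariant maps

Differentiate `f (t + eb i) = act k (n i) (f t)` (chain rule: `contDiffAt_act`) and use the invariance.
`QA.lean`: `act_mem`, `act_zero`, `x1_act`, ...
-/

open scoped ContDiff
open Real Set MeasureTheory

namespace H31R.Tp

theorem TB7_ne : (∞ : WithTop ℕ∞) ≠ 0 := by simp

theorem TB7_act (k : ℕ) (n : ℤ × ℤ × ℤ) {p : EE 7} (hp : p ∈ OM) :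
    DifferentiableAt ℝ (act k n) p := (contDiffAt_act k n hp).differentiableAt TB7_ne

theorem Eqv.fderiv_eq {m : ℕ} {k : ℕ} {f : QQ m → EE 7} {n : Fin m → ℤ × ℤ × ℤ}
    (hf : Eqv k f n) (i : Fin m) (t u : QQ m) :
    fderiv ℝ f (t + eb i) u = fderiv ℝ (act k (n i)) (f t) (fderiv ℝ f t u) := by
  have h1 : (fun s => f (s + eb i)) = fun s => act k (n i) (f s) := funext fun s => hf.eqv i s
  have h2 : fderiv ℝ (fun s => f (s + eb i)) t = fderiv ℝ f (t + eb i) := fderiv_comp_add_right _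
  have h3 : fderiv ℝ (fun s => act k (n i) (f s)) t =
      (fderiv ℝ (act k (n i)) (f t)).comp (fderiv ℝ f t) :=
    fderiv_comp t (TB7_act k (n i) (hf.mem t)) (hf.smooth.differentiable TB7_ne t)
  rw [← h2, h1, h3]
  rfl

theorem Eqv.per {m : ℕ} {k : ℕ} {f : QQ m → EE 7} {n : Fin m → ℤ × ℤ × ℤ} (hf : Eqv k f n)
    {Y : EE 7 → EE 7 → EE 7 → ℝ} (hY : Inv k Y) : Per (pull f Y) := by
  intro i t u v
  simp only [pull]
  rw [hf.fderiv_eq, hf.fderiv_eq, hf.eqv]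
  exact hY _ _ (hf.mem t) _ _

theorem Eqv.per1 {m : ℕ} {k : ℕ} {f : QQ m → EE 7} {n : Fin m → ℤ × ℤ × ℤ} (hf : Eqv k f n)
    {β : EE 7 → EE 7 → ℝ} (hβ : Inv1 k β) : Per1 (pull1 f β) := by
  intro i t u
  simp only [pull1]
  rw [hf.fderiv_eq, hf.eqv]
  exact hβ _ _ (hf.mem t) _

theorem Eqv.cform {m : ℕ} {k : ℕ} {f : QQ m → EE 7} {n : Fin m → ℤ × ℤ × ℤ} (hf : Eqv k f n)
    {Y : EE 7 → EE 7 → EE 7 → ℝ} (hY : CForm OM Y) : CForm univ (pull f Y) :=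
  pull_cform isOpen_univ OM_open hf.smooth.contDiffOn (fun t _ => hf.mem t) hY

theorem Eqv.isD {m : ℕ} {k : ℕ} {f : QQ m → EE 7} {n : Fin m → ℤ × ℤ × ℤ} (hf : Eqv k f n)
    {β : EE 7 → EE 7 → ℝ} {Z : EE 7 → EE 7 → EE 7 → ℝ} (h : IsD OM β Z) :
    IsD univ (pull1 f β) (pull f Z) :=
  pull_isD isOpen_univ OM_open hf.smooth.contDiffOn (fun t _ => hf.mem t) h

/-- `m 0 = 0` (`PH (act k 0 p) = PH p`; compare the coordinates `x1`, `x2`, `x3`). -/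
theorem EqMap.zero {k l : ℕ} {PH : EE 7 → EE 7} {m : ℤ × ℤ × ℤ → ℤ × ℤ × ℤ}
    (h : EqMap k l PH m) : m 0 = 0 := by
  have hp : QM_base ∈ OM := QM_base_mem
  have h1 := h.eqv 0 _ hp
  rw [act_zero] at h1
  have hq := h.maps _ hp
  have e1 := congrArg x1 h1
  have e2 := congrArg x2 h1
  have e3 := congrArg x3 h1
  rw [x1_act l _ hq] at e1
  rw [x2_act l _ hq] at e2
  rw [x3_act l _ (PH QM_base)] at e3
  have z1 : ((m 0).1 : ℝ) = 0 := by linarith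
  have z2 : ((m 0).2.1 : ℝ) = 0 := by linarith
  have z3 : ((m 0).2.2 : ℝ) = 0 := by linarith
  refine Prod.ext (by exact_mod_cast z1) (Prod.ext (by exact_mod_cast z2) (by exact_mod_cast z3))

theorem EqMap.comp {k l : ℕ} {PH : EE 7 → EE 7} {m : ℤ × ℤ × ℤ → ℤ × ℤ × ℤ}
    (h : EqMap k l PH m) {j : ℕ} {f : QQ j → EE 7} {n : Fin j → ℤ × ℤ × ℤ} (hf : Eqv k f n) :
    Eqv l (fun t => PH (f t)) fun i => m (n i) where
  smooth := by
    rw [← contDiffOn_univ]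
    exact h.smooth.comp hf.smooth.contDiffOn fun t _ => hf.mem t
  mem t := h.maps _ (hf.mem t)
  eqv i t := by rw [hf.eqv, h.eqv _ _ (hf.mem t)]

theorem EqMap.cform {k l : ℕ} {PH : EE 7 → EE 7} {m : ℤ × ℤ × ℤ → ℤ × ℤ × ℤ}
    (h : EqMap k l PH m) {Y : EE 7 → EE 7 → EE 7 → ℝ} (hY : CForm OM Y) :
    CForm OM (pull PH Y) := pull_cform OM_open OM_open h.smooth h.maps hY

theorem EqMap.inv {k l : ℕ} {PH : EE 7 → EE 7} {m : ℤ × ℤ × ℤ → ℤ × ℤ × ℤ}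
    (h : EqMap k l PH m) {Y : EE 7 → EE 7 → EE 7 → ℝ} (hY : Inv l Y) : Inv k (pull PH Y) := by
  intro n p hp u v
  have hd : ∀ q ∈ OM, DifferentiableAt ℝ PH q := fun q hq =>
    (h.smooth.contDiffAt (OM_open.mem_nhds hq)).differentiableAt TB7_ne
  have h1 : (fun q => PH (act k n q)) =ᶠ[nhds p] fun q => act l (m n) (PH q) := by
    filter_upwards [OM_open.mem_nhds hp] with q hq using h.eqv n q hq
  have h2 : fderiv ℝ (fun q => PH (act k n q)) p =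
      (fderiv ℝ PH (act k n p)).comp (fderiv ℝ (act k n) p) :=
    fderiv_comp p (hd _ (act_mem k n hp)) (TB7_act k n hp)
  have h3 : fderiv ℝ (fun q => act l (m n) (PH q)) p =
      (fderiv ℝ (act l (m n)) (PH p)).comp (fderiv ℝ PH p) :=
    fderiv_comp p (TB7_act l (m n) (h.maps p hp)) (hd p hp)
  have h4 : ∀ x : EE 7, fderiv ℝ PH (act k n p) (fderiv ℝ (act k n) p x) =
      fderiv ℝ (act l (m n)) (PH p) (fderiv ℝ PH p x) := by
    intro x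
    have h5 := h1.fderiv_eq (𝕜 := ℝ)
    rw [h2, h3] at h5
    exact DFunLike.congr_fun h5 x
  simp only [pull]
  rw [h4, h4, h.eqv n p hp]
  exact hY _ _ (h.maps p hp) _ _

theorem EqMap.pull_pull {k l : ℕ} {PH : EE 7 → EE 7} {m : ℤ × ℤ × ℤ → ℤ × ℤ × ℤ}
    (h : EqMap k l PH m) {j : ℕ} {f : QQ j → EE 7} {n : Fin j → ℤ × ℤ × ℤ} (hf : Eqv k f n)
    (Y : EE 7 → EE 7 → EE 7 → ℝ) :
    pull f (pull PH Y) = pull (fun t => PH (f t)) Y := by
  funext t u v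
  exact Tp.pull_pull (hf.smooth.differentiable TB7_ne t)
    ((h.smooth.contDiffAt (OM_open.mem_nhds (hf.mem t))).differentiableAt TB7_ne) Y u v

end H31R.Tp
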