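import Pool.Agent.Lib.H31R.TA4
import Pool.Agent.Lib.H31R.TA5a
import Pool.Agent.Lib.H31R.TA7
import Pool.Agent.Lib.H31R.TB3
import Pool.Agent.Lib.H31R.TB4
import Pool.Agent.Lib.H31R.TB5
import Pool.Agent.Lib.H31R.TB6
import Pool.Agent.Lib.H31R.TB7

/-!
# H31R, chunk TB8: the square of `Xf` on equivariant 4-tori, means of `Thf`

`XX`: at every `t` (with `p = f t`, `v i = fderiv f t (eb i)`), by `wedge_Xf` and `isD_TTv` with `T = dTTv`:
`16 π^2 X∧X = 8 π h X∧F - h^2 F∧F = (T + (1+h^2) F)∧F - h^2 F∧F = T∧F + F∧F` and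
`F∧F = 16 π^2 * 2 l W∧Θ` since `F = 4 π W + 4 π l Θ`, `W∧W = Θ∧Θ = 0` (`wedge` is bilinear and symmetric).
The mean of `T∧F` is `0` by `wedge_exact` (`Eqv.isD`, `Eqv.per1`, `inv_FF`).
`mean_Thf`: `mean_dxdy` for `x = x1 ∘ f`, `y = x2 ∘ f` (`x1_act`, `x2_act`, chain rule).
-/

open scoped ContDiff
open Real Set MeasureTheory

namespace H31R.Tp

theorem tb8_co {Z : QQ 4 → QQ 4 → QQ 4 → ℝ} (h : CForm univ Z) (i j : Fin 4) :
    Continuous (fun t => co Z t i j) :=
  continuousOn_univ.1 (h.smooth (eb i) (eb j)).continuousOn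

theorem tb8_wedge {Z Z' : QQ 4 → QQ 4 → QQ 4 → ℝ} (h : CForm univ Z) (h' : CForm univ Z') :
    Continuous (fun t => wedge (co Z t) (co Z' t)) := by
  have a := tb8_co h
  have b := tb8_co h'
  unfold wedge
  exact ((((((a 0 1).mul (b 2 3)).sub ((a 0 2).mul (b 1 3))).add ((a 0 3).mul (b 1 2))).add
    ((a 1 2).mul (b 0 3))).sub ((a 1 3).mul (b 0 2))).add ((a 2 3).mul (b 0 1))

/-- The pointwise identity. -/
theorem tb8_point (l : ℕ) {p : EE 7} (hp : p ∈ OM) (v : Fin 4 → EE 7) :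
    16 * π ^ 2 * wedge (fun i j => Xf l p (v i) (v j)) (fun i j => Xf l p (v i) (v j)) =
      wedge (fun i j => 8 * π * hh p * Xf l p (v i) (v j) - (1 + hh p ^ 2) * FF l p (v i) (v j))
        (fun i j => FF l p (v i) (v j)) +
      16 * π ^ 2 * (2 * l * wedge (fun i j => Wf p (v i) (v j)) (fun i j => Thf p (v i) (v j))) := by
  have h1 := wedge_Xf l hp v
  have h2 := wedge_Wf hp v
  have h3 := wedge_Thf p v
  have h4 : wedge (fun i j => 8 * π * hh p * Xf l p (v i) (v j) - (1 + hh p ^ 2) * FF l p (v i) (v j))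
        (fun i j => FF l p (v i) (v j)) =
      8 * π * hh p * wedge (fun i j => Xf l p (v i) (v j)) (fun i j => FF l p (v i) (v j)) -
      (1 + hh p ^ 2) * wedge (fun i j => FF l p (v i) (v j)) (fun i j => FF l p (v i) (v j)) := by
    simp only [wedge]
    ring
  have hpi : π ≠ 0 := Real.pi_ne_zero
  have h5 : ∀ i j, FF l p (v i) (v j) = 4 * π * Wf p (v i) (v j) + 4 * π * l * Thf p (v i) (v j) := by
    intro i j
    have : 4 * π * Wf p (v i) (v j) = det3 (wv p) (dw p (v i)) (dw p (v j)) := by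
      simp only [Wf]
      field_simp
    rw [this]
    rfl
  have h6 : wedge (fun i j => FF l p (v i) (v j)) (fun i j => FF l p (v i) (v j)) =
      16 * π ^ 2 * wedge (fun i j => Wf p (v i) (v j)) (fun i j => Wf p (v i) (v j)) +
      16 * π ^ 2 * (2 * l * wedge (fun i j => Wf p (v i) (v j)) (fun i j => Thf p (v i) (v j))) +
      16 * π ^ 2 * l ^ 2 * wedge (fun i j => Thf p (v i) (v j)) (fun i j => Thf p (v i) (v j)) := by
    simp only [wedge, h5]
    ring
  rw [h2, h3] at h6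
  linear_combination h1 - h4 + h6

theorem XX {l : ℕ} {f : QQ 4 → EE 7} {n : Fin 4 → ℤ × ℤ × ℤ} (hf : Eqv l f n) :
    MM (fun t => wedge (co (pull f (Xf l)) t) (co (pull f (Xf l)) t)) =
      2 * l * MM (fun t => wedge (co (pull f Wf) t) (co (pull f Thf) t)) := by
  set T : EE 7 → EE 7 → EE 7 → ℝ :=
    fun p u v => 8 * π * hh p * Xf l p u v - (1 + hh p ^ 2) * FF l p u v with hT
  have h1 : MM (fun t => wedge (co (pull f T) t) (co (pull f (FF l)) t)) = 0 :=
    wedge_exact (hf.isD (isD_TTv l)) (hf.per1 (inv1_TTv l)) (hf.cform (cform_FF l))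
      (hf.per (inv_FF l))
  have hpi : (16 * π ^ 2 : ℝ) ≠ 0 := by positivity
  have h2 : (fun t => 16 * π ^ 2 * wedge (co (pull f (Xf l)) t) (co (pull f (Xf l)) t)) =
      fun t => wedge (co (pull f T) t) (co (pull f (FF l)) t) +
        16 * π ^ 2 * (2 * l * wedge (co (pull f Wf) t) (co (pull f Thf) t)) := by
    funext t
    exact tb8_point l (hf.mem t) fun i => fderiv ℝ f t (eb i)
  have h3 := congrArg MM h2
  rw [MM_mul] at h3
  have cT : CForm univ (pull f T) :=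
    (hf.isD (isD_TTv l)).cform isOpen_univ
  have c2 : Continuous fun t => 16 * π ^ 2 * (2 * l * wedge (co (pull f Wf) t) (co (pull f Thf) t)) :=
    continuous_const.mul
      (continuous_const.mul (tb8_wedge (hf.cform cform_Wf) (hf.cform cform_Thf)))
  rw [MM_add (tb8_wedge cT (hf.cform (cform_FF l))) c2, h1, zero_add, MM_mul, MM_mul] at h3
  exact mul_left_cancel₀ hpi h3

theorem WW {l : ℕ} {f : QQ 4 → EE 7} {n : Fin 4 → ℤ × ℤ × ℤ} (hf : Eqv l f n) :
    MM (fun t => wedge (co (pull f Wf) t) (co (pull f Wf) t)) = 0 := by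
  have h : (fun t => wedge (co (pull f Wf) t) (co (pull f Wf) t)) = fun _ => (0 : ℝ) := by
    funext t
    exact wedge_Wf (hf.mem t) fun i => fderiv ℝ f t (eb i)
  rw [h, MM_const]

theorem mean_Thf {l : ℕ} {f : QQ 4 → EE 7} {n : Fin 4 → ℤ × ℤ × ℤ} (hf : Eqv l f n)
    (i j : Fin 4) : mc (pull f Thf) i j = (n i).1 * (n j).2.1 - (n j).1 * (n i).2.1 := by
  have d1 : ∀ t, HasFDerivAt (fun t => x1 (f t)) ((fderiv ℝ x1 (f t)).comp (fderiv ℝ f t)) t :=
    fun t => ((contDiffAt_x1 (hf.mem t)).differentiableAt (by simp)).hasFDerivAt.comp t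
      ((hf.smooth.differentiable (by simp)) t).hasFDerivAt
  have d2 : ∀ t, HasFDerivAt (fun t => x2 (f t)) ((fderiv ℝ x2 (f t)).comp (fderiv ℝ f t)) t :=
    fun t => ((contDiffAt_x2 (hf.mem t)).differentiableAt (by simp)).hasFDerivAt.comp t
      ((hf.smooth.differentiable (by simp)) t).hasFDerivAt
  have c1 : ContDiff ℝ ∞ (fun t => x1 (f t)) := contDiff_iff_contDiffAt.2 fun t =>
    (contDiffAt_x1 (hf.mem t)).comp t hf.smooth.contDiffAt
  have c2 : ContDiff ℝ ∞ (fun t => x2 (f t)) := contDiff_iff_contDiffAt.2 fun t =>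
    (contDiffAt_x2 (hf.mem t)).comp t hf.smooth.contDiffAt
  have h := mean_dxdy c1 c2 (a := fun i => ((n i).1 : ℝ)) (b := fun i => ((n i).2.1 : ℝ))
    (fun i t => by rw [hf.eqv i t, x1_act l (n i) (hf.mem t)])
    (fun i t => by rw [hf.eqv i t, x2_act l (n i) (hf.mem t)]) i j
  rw [← h]
  have e : ∀ t, co (pull f Thf) t i j = fderiv ℝ (fun t => x1 (f t)) t (eb i) *
      fderiv ℝ (fun t => x2 (f t)) t (eb j) - fderiv ℝ (fun t => x1 (f t)) t (eb j) *
      fderiv ℝ (fun t => x2 (f t)) t (eb i) := by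
    intro t
    rw [(d1 t).fderiv, (d2 t).fderiv]
    simp only [ContinuousLinearMap.comp_apply, fderiv_x1 (hf.mem t), fderiv_x2 (hf.mem t)]
    rfl
  unfold mc
  simp only [e]

end H31R.Tp
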