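import Pool.Agent.Lib.H31R.TDefs

/-!
# H31R, chunk TC1: quaternions and rotations (algebra)

`qrot q v = q v q*` for the pure quaternion `v`. All identities are polynomial (`ring`/`linear_combination`
in components; `‖q‖^2 = q 0 ^ 2 + ... + q 3 ^ 2`: `EuclideanSpace.norm_sq_eq`/`real_norm_sq_eq`).
`exists_qrot`: for a unit vector `w /= -e3` take the normalization of the quaternion `(1 + w 2; e3 × w)`
(the rotation which moves `e3` to `w` along a great circle); for `w = -e3` take `(0; 1, 0, 0)`.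
`qmulR`: the right multiplication by a unit quaternion is a linear isometry of `EE 4`.
-/

open scoped ContDiff
open Real Set MeasureTheory

namespace H31R.Tp

theorem norm_sq_EE4 (q : EE 4) : ‖q‖ ^ 2 = q 0 ^ 2 + q 1 ^ 2 + q 2 ^ 2 + q 3 ^ 2 := by
  rw [EuclideanSpace.real_norm_sq_eq, Fin.sum_univ_four]

theorem TC1_qm0 (q p : EE 4) : qmul q p 0 = q 0 * p 0 - q 1 * p 1 - q 2 * p 2 - q 3 * p 3 := rfl
theorem TC1_qm1 (q p : EE 4) : qmul q p 1 = q 0 * p 1 + q 1 * p 0 + q 2 * p 3 - q 3 * p 2 := rfl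
theorem TC1_qm2 (q p : EE 4) : qmul q p 2 = q 0 * p 2 - q 1 * p 3 + q 2 * p 0 + q 3 * p 1 := rfl
theorem TC1_qm3 (q p : EE 4) : qmul q p 3 = q 0 * p 3 + q 1 * p 2 - q 2 * p 1 + q 3 * p 0 := rfl

theorem TC1_qr0 (q : EE 4) (v : V3) : qrot q v 0 =
    (q 0 ^ 2 - (q 1 ^ 2 + q 2 ^ 2 + q 3 ^ 2)) * v 0 +
      2 * (q 1 * v 0 + q 2 * v 1 + q 3 * v 2) * q 1 + 2 * q 0 * (q 2 * v 2 - q 3 * v 1) := rfl

theorem TC1_qr1 (q : EE 4) (v : V3) : qrot q v 1 =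
    (q 0 ^ 2 - (q 1 ^ 2 + q 2 ^ 2 + q 3 ^ 2)) * v 1 +
      2 * (q 1 * v 0 + q 2 * v 1 + q 3 * v 2) * q 2 + 2 * q 0 * (q 3 * v 0 - q 1 * v 2) := rfl

theorem TC1_qr2 (q : EE 4) (v : V3) : qrot q v 2 =
    (q 0 ^ 2 - (q 1 ^ 2 + q 2 ^ 2 + q 3 ^ 2)) * v 2 +
      2 * (q 1 * v 0 + q 2 * v 1 + q 3 * v 2) * q 3 + 2 * q 0 * (q 1 * v 1 - q 2 * v 0) := rfl

theorem norm_qmul (q p : EE 4) : ‖qmul q p‖ = ‖q‖ * ‖p‖ := by
  have h : ‖qmul q p‖ ^ 2 = (‖q‖ * ‖p‖) ^ 2 := by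
    rw [mul_pow, norm_sq_EE4, norm_sq_EE4, norm_sq_EE4, TC1_qm0, TC1_qm1, TC1_qm2, TC1_qm3]
    ring
  exact (sq_eq_sq₀ (norm_nonneg _) (mul_nonneg (norm_nonneg _) (norm_nonneg _))).1 h

theorem TC1_ext {u v : V3} (h0 : u 0 = v 0) (h1 : u 1 = v 1) (h2 : u 2 = v 2) : u = v := by
  funext i
  fin_cases i
  · exact h0
  · exact h1
  · exact h2

theorem qrot_qmul (q p : EE 4) (v : V3) : qrot (qmul q p) v = qrot q (qrot p v) := by
  apply TC1_ext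
  · simp only [TC1_qr0, TC1_qr1, TC1_qr2, TC1_qm0, TC1_qm1, TC1_qm2, TC1_qm3]
    ring
  · simp only [TC1_qr0, TC1_qr1, TC1_qr2, TC1_qm0, TC1_qm1, TC1_qm2, TC1_qm3]
    ring
  · simp only [TC1_qr0, TC1_qr1, TC1_qr2, TC1_qm0, TC1_qm1, TC1_qm2, TC1_qm3]
    ring

set_option linter.unusedSimpArgs false

theorem qrot_add (q : EE 4) (u v : V3) : qrot q (u + v) = qrot q u + qrot q v := by
  apply TC1_ext
  · simp only [TC1_qr0, TC1_qr1, TC1_qr2, Pi.add_apply]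
    ring
  · simp only [TC1_qr0, TC1_qr1, TC1_qr2, Pi.add_apply]
    ring
  · simp only [TC1_qr0, TC1_qr1, TC1_qr2, Pi.add_apply]
    ring

theorem qrot_smul (q : EE 4) (c : ℝ) (v : V3) : qrot q (c • v) = c • qrot q v := by
  apply TC1_ext
  · simp only [TC1_qr0, TC1_qr1, TC1_qr2, Pi.smul_apply, smul_eq_mul]
    ring
  · simp only [TC1_qr0, TC1_qr1, TC1_qr2, Pi.smul_apply, smul_eq_mul]
    ring
  · simp only [TC1_qr0, TC1_qr1, TC1_qr2, Pi.smul_apply, smul_eq_mul]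
    ring

theorem dot_qrot (q : EE 4) (u v : V3) : dot (qrot q u) (qrot q v) = ‖q‖ ^ 4 * dot u v := by
  have h : ‖q‖ ^ 4 = (q 0 ^ 2 + q 1 ^ 2 + q 2 ^ 2 + q 3 ^ 2) ^ 2 := by
    rw [← norm_sq_EE4]; ring
  rw [h]
  simp only [dot, TC1_qr0, TC1_qr1, TC1_qr2]
  ring

theorem TC1_det3 (u v w : V3) : det3 u v w = u 0 * (v 1 * w 2 - v 2 * w 1) +
    u 1 * (v 2 * w 0 - v 0 * w 2) + u 2 * (v 0 * w 1 - v 1 * w 0) := rfl

theorem det3_qrot (q : EE 4) (u v w : V3) :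
    det3 (qrot q u) (qrot q v) (qrot q w) = ‖q‖ ^ 6 * det3 u v w := by
  have h : ‖q‖ ^ 6 = (q 0 ^ 2 + q 1 ^ 2 + q 2 ^ 2 + q 3 ^ 2) ^ 3 := by
    rw [← norm_sq_EE4]; ring
  rw [h]
  simp only [TC1_det3, TC1_qr0, TC1_qr1, TC1_qr2]
  ring

theorem qrot_neg (q : EE 4) (v : V3) : qrot (-q) v = qrot q v := by
  apply TC1_ext
  · simp only [TC1_qr0, TC1_qr1, TC1_qr2, PiLp.neg_apply]
    ring
  · simp only [TC1_qr0, TC1_qr1, TC1_qr2, PiLp.neg_apply]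
    ring
  · simp only [TC1_qr0, TC1_qr1, TC1_qr2, PiLp.neg_apply]
    ring

theorem TC1_norm_one {q : EE 4} (h : q 0 ^ 2 + q 1 ^ 2 + q 2 ^ 2 + q 3 ^ 2 = 1) : ‖q‖ = 1 := by
  have h1 : ‖q‖ ^ 2 = 1 ^ 2 := by rw [norm_sq_EE4, h, one_pow]
  exact (sq_eq_sq₀ (norm_nonneg _) zero_le_one).1 h1

theorem exists_qrot {w : V3} (hw : dot w w = 1) : ∃ q : EE 4, ‖q‖ = 1 ∧ qrot q e3 = w := by
  have hw' : w 0 * w 0 + w 1 * w 1 + w 2 * w 2 = 1 := hw
  have e0 : e3 0 = 0 := rfl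
  have e1 : e3 1 = 0 := rfl
  have e2 : e3 2 = 1 := rfl
  by_cases h : w 2 = -1
  · refine ⟨!₂[0, 1, 0, 0], TC1_norm_one ?_, ?_⟩
    · show (0 : ℝ) ^ 2 + 1 ^ 2 + 0 ^ 2 + 0 ^ 2 = 1
      norm_num
    · have h0 : w 0 = 0 := by
        rw [h] at hw'
        nlinarith [mul_self_nonneg (w 0), mul_self_nonneg (w 1)]
      have h1 : w 1 = 0 := by
        rw [h] at hw'
        nlinarith [mul_self_nonneg (w 0), mul_self_nonneg (w 1)]
      have q0 : (!₂[0, 1, 0, 0] : EE 4) 0 = 0 := rfl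
      have q1 : (!₂[0, 1, 0, 0] : EE 4) 1 = 1 := rfl
      have q2 : (!₂[0, 1, 0, 0] : EE 4) 2 = 0 := rfl
      have q3 : (!₂[0, 1, 0, 0] : EE 4) 3 = 0 := rfl
      apply TC1_ext
      · rw [TC1_qr0, q0, q1, q2, q3, e0, e1, e2, h0]; norm_num
      · rw [TC1_qr1, q0, q1, q2, q3, e0, e1, e2, h1]; norm_num
      · rw [TC1_qr2, q0, q1, q2, q3, e0, e1, e2, h]; norm_num
  · have hc : 0 < 2 * (1 + w 2) := by
      have h1 : -1 ≤ w 2 := by nlinarith [mul_self_nonneg (w 0), mul_self_nonneg (w 1)]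
      have h2 : -1 < w 2 := lt_of_le_of_ne h1 (Ne.symm h)
      linarith
    obtain ⟨r, hr, hr2⟩ : ∃ r : ℝ, 0 < r ∧ r ^ 2 = 2 * (1 + w 2) :=
      ⟨√(2 * (1 + w 2)), Real.sqrt_pos.2 hc, Real.sq_sqrt hc.le⟩
    have q0 : (!₂[(1 + w 2) / r, -w 1 / r, w 0 / r, 0] : EE 4) 0 = (1 + w 2) / r := rfl
    have q1 : (!₂[(1 + w 2) / r, -w 1 / r, w 0 / r, 0] : EE 4) 1 = -w 1 / r := rfl
    have q2 : (!₂[(1 + w 2) / r, -w 1 / r, w 0 / r, 0] : EE 4) 2 = w 0 / r := rfl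
    have q3 : (!₂[(1 + w 2) / r, -w 1 / r, w 0 / r, 0] : EE 4) 3 = 0 := rfl
    refine ⟨!₂[(1 + w 2) / r, -w 1 / r, w 0 / r, 0], TC1_norm_one ?_, ?_⟩
    · rw [q0, q1, q2, q3]
      field_simp
      rw [hr2]
      nlinarith [hw']
    · apply TC1_ext
      · rw [TC1_qr0, q0, q1, q2, q3, e0, e1, e2]
        field_simp
        rw [hr2]
        ring
      · rw [TC1_qr1, q0, q1, q2, q3, e0, e1, e2]
        field_simp
        rw [hr2]
        ring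
      · rw [TC1_qr2, q0, q1, q2, q3, e0, e1, e2]
        field_simp
        rw [hr2]
        linear_combination (-1) * hw'

/-- The rotation by the angle `π` about `w`. -/
theorem exists_qrot_pi {w : V3} (hw : dot w w = 1) : ∃ q : EE 4, ‖q‖ = 1 ∧ qrot q w = w ∧
    ∀ v, dot w v = 0 → qrot q v = -v := by
  have hw' : w 0 * w 0 + w 1 * w 1 + w 2 * w 2 = 1 := hw
  have q0 : (!₂[0, w 0, w 1, w 2] : EE 4) 0 = 0 := rfl
  have q1 : (!₂[0, w 0, w 1, w 2] : EE 4) 1 = w 0 := rfl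
  have q2 : (!₂[0, w 0, w 1, w 2] : EE 4) 2 = w 1 := rfl
  have q3 : (!₂[0, w 0, w 1, w 2] : EE 4) 3 = w 2 := rfl
  refine ⟨!₂[0, w 0, w 1, w 2], TC1_norm_one ?_, ?_, fun v hv => ?_⟩
  · rw [q0, q1, q2, q3]
    linear_combination hw'
  · apply TC1_ext
    · rw [TC1_qr0, q0, q1, q2, q3]
      linear_combination w 0 * hw'
    · rw [TC1_qr1, q0, q1, q2, q3]
      linear_combination w 1 * hw'
    · rw [TC1_qr2, q0, q1, q2, q3]
      linear_combination w 2 * hw'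
  · have hv' : w 0 * v 0 + w 1 * v 1 + w 2 * v 2 = 0 := hv
    apply TC1_ext
    · rw [TC1_qr0, q0, q1, q2, q3, Pi.neg_apply]
      linear_combination (-v 0) * hw' + 2 * w 0 * hv'
    · rw [TC1_qr1, q0, q1, q2, q3, Pi.neg_apply]
      linear_combination (-v 1) * hw' + 2 * w 1 * hv'
    · rw [TC1_qr2, q0, q1, q2, q3, Pi.neg_apply]
      linear_combination (-v 2) * hw' + 2 * w 2 * hv'

/-- `qrot q` is onto. -/
theorem exists_qrot_eq {q : EE 4} (hq : ‖q‖ = 1) (v : V3) : ∃ u, qrot q u = v := by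
  have h : q 0 ^ 2 + q 1 ^ 2 + q 2 ^ 2 + q 3 ^ 2 = 1 := by rw [← norm_sq_EE4, hq, one_pow]
  have c0 : (!₂[q 0, -q 1, -q 2, -q 3] : EE 4) 0 = q 0 := rfl
  have c1 : (!₂[q 0, -q 1, -q 2, -q 3] : EE 4) 1 = -q 1 := rfl
  have c2 : (!₂[q 0, -q 1, -q 2, -q 3] : EE 4) 2 = -q 2 := rfl
  have c3 : (!₂[q 0, -q 1, -q 2, -q 3] : EE 4) 3 = -q 3 := rfl
  refine ⟨qrot !₂[q 0, -q 1, -q 2, -q 3] v, ?_⟩
  rw [← qrot_qmul]
  have m0 : qmul q !₂[q 0, -q 1, -q 2, -q 3] 0 = 1 := by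
    rw [TC1_qm0, c0, c1, c2, c3, ← h]; ring
  have m1 : qmul q !₂[q 0, -q 1, -q 2, -q 3] 1 = 0 := by
    rw [TC1_qm1, c0, c1, c2, c3]; ring
  have m2 : qmul q !₂[q 0, -q 1, -q 2, -q 3] 2 = 0 := by
    rw [TC1_qm2, c0, c1, c2, c3]; ring
  have m3 : qmul q !₂[q 0, -q 1, -q 2, -q 3] 3 = 0 := by
    rw [TC1_qm3, c0, c1, c2, c3]; ring
  apply TC1_ext
  · rw [TC1_qr0, m0, m1, m2, m3]; ring
  · rw [TC1_qr1, m0, m1, m2, m3]; ring
  · rw [TC1_qr2, m0, m1, m2, m3]; ring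

theorem TC1_ext4 {u v : EE 4} (h0 : u 0 = v 0) (h1 : u 1 = v 1) (h2 : u 2 = v 2)
    (h3 : u 3 = v 3) : u = v := by
  ext i
  fin_cases i
  · exact h0
  · exact h1
  · exact h2
  · exact h3

/-- Right multiplication by a unit quaternion. -/
theorem exists_qmulR {p : EE 4} (hp : ‖p‖ = 1) : ∃ L : EE 4 ≃ₗᵢ[ℝ] EE 4, ∀ q, L q = qmul q p := by
  let L0 : EE 4 →ₗ[ℝ] EE 4 :=
    { toFun := fun q => qmul q p
      map_add' := fun u v => by
        apply TC1_ext4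
        · rw [PiLp.add_apply, TC1_qm0, TC1_qm0, TC1_qm0]; simp only [PiLp.add_apply]; ring
        · rw [PiLp.add_apply, TC1_qm1, TC1_qm1, TC1_qm1]; simp only [PiLp.add_apply]; ring
        · rw [PiLp.add_apply, TC1_qm2, TC1_qm2, TC1_qm2]; simp only [PiLp.add_apply]; ring
        · rw [PiLp.add_apply, TC1_qm3, TC1_qm3, TC1_qm3]; simp only [PiLp.add_apply]; ring
      map_smul' := fun c u => by
        apply TC1_ext4
        · rw [PiLp.smul_apply, TC1_qm0, TC1_qm0]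
          simp only [PiLp.smul_apply, smul_eq_mul, RingHom.id_apply]; ring
        · rw [PiLp.smul_apply, TC1_qm1, TC1_qm1]
          simp only [PiLp.smul_apply, smul_eq_mul, RingHom.id_apply]; ring
        · rw [PiLp.smul_apply, TC1_qm2, TC1_qm2]
          simp only [PiLp.smul_apply, smul_eq_mul, RingHom.id_apply]; ring
        · rw [PiLp.smul_apply, TC1_qm3, TC1_qm3]
          simp only [PiLp.smul_apply, smul_eq_mul, RingHom.id_apply]; ring }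
  let L1 : EE 4 →ₗᵢ[ℝ] EE 4 := ⟨L0, fun q => by
    show ‖qmul q p‖ = ‖q‖
    rw [norm_qmul, hp, mul_one]⟩
  exact ⟨L1.toLinearIsometryEquiv rfl, fun q => rfl⟩

theorem TC1_qrot_ne {q : EE 4} (hq : q ≠ 0) {v : V3} (hv : v ≠ 0) : qrot q v ≠ 0 := by
  intro h
  have h1 := dot_qrot q v v
  rw [h] at h1
  have h2 : dot (0 : V3) 0 = 0 := by simp [dot]
  rw [h2] at h1
  have h3 : 0 < ‖q‖ ^ 4 * dot v v := mul_pos (pow_pos (norm_pos_iff.2 hq) 4) (C0a_dot_pos hv)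
  exact h3.ne h1

theorem RQ_mem {q q' : EE 4} (hq : q ≠ 0) (hq' : q' ≠ 0) {p : EE 7} (hp : p ∈ OM) :
    RQ q q' p ∈ OM := by
  constructor
  · show yv (mk7 (p 0) (qrot q (yv p)) (qrot q' (zv p))) ≠ 0
    rw [yv_mk7]
    exact TC1_qrot_ne hq hp.1
  · show zv (mk7 (p 0) (qrot q (yv p)) (qrot q' (zv p))) ≠ 0
    rw [zv_mk7]
    exact TC1_qrot_ne hq' hp.2

theorem RQ_RQ (q q' r r' : EE 4) (p : EE 7) :
    RQ q q' (RQ r r' p) = RQ (qmul q r) (qmul q' r') p := by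
  unfold RQ
  rw [yv_mk7, zv_mk7, mk7_zero, qrot_qmul, qrot_qmul]

theorem TC1_yv_add (u v : EE 7) : yv (u + v) = yv u + yv v := by
  apply TC1_ext <;> rfl

theorem TC1_zv_add (u v : EE 7) : zv (u + v) = zv u + zv v := by
  apply TC1_ext <;> rfl

theorem TC1_yv_smul (c : ℝ) (u : EE 7) : yv (c • u) = c • yv u := by
  apply TC1_ext <;> rfl

theorem TC1_zv_smul (c : ℝ) (u : EE 7) : zv (c • u) = c • zv u := by
  apply TC1_ext <;> rfl

theorem TC1_mk7_add (a a' : ℝ) (y y' z z' : V3) :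
    mk7 (a + a') (y + y') (z + z') = mk7 a y z + mk7 a' y' z' := by
  ext i
  fin_cases i <;> rfl

theorem TC1_mk7_smul (c a : ℝ) (y z : V3) : mk7 (c * a) (c • y) (c • z) = c • mk7 a y z := by
  ext i
  fin_cases i <;> rfl

theorem RQ_add (q q' : EE 4) (u v : EE 7) : RQ q q' (u + v) = RQ q q' u + RQ q q' v := by
  unfold RQ
  rw [TC1_yv_add, TC1_zv_add, qrot_add, qrot_add, ← TC1_mk7_add]
  rfl

theorem RQ_smul (q q' : EE 4) (c : ℝ) (u : EE 7) : RQ q q' (c • u) = c • RQ q q' u := by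
  unfold RQ
  rw [TC1_yv_smul, TC1_zv_smul, qrot_smul, qrot_smul, ← TC1_mk7_smul]
  rfl

/-- The map `(q, q', p) ↦ RQ q q' p` is smooth (polynomial). -/
theorem contDiff_RQ : ContDiff ℝ ∞ fun x : EE 4 × EE 4 × EE 7 => RQ x.1 x.2.1 x.2.2 := by
  have h1 : ∀ i, ContDiff ℝ ∞ fun x : EE 4 × EE 4 × EE 7 => x.1 i := fun i =>
    (EuclideanSpace.proj (𝕜 := ℝ) i).contDiff.comp contDiff_fst
  have h2 : ∀ i, ContDiff ℝ ∞ fun x : EE 4 × EE 4 × EE 7 => x.2.1 i := fun i =>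
    (EuclideanSpace.proj (𝕜 := ℝ) i).contDiff.comp (contDiff_fst.comp contDiff_snd)
  have h3 : ∀ i, ContDiff ℝ ∞ fun x : EE 4 × EE 4 × EE 7 => x.2.2 i := fun i =>
    (EuclideanSpace.proj (𝕜 := ℝ) i).contDiff.comp (contDiff_snd.comp contDiff_snd)
  have hy : ∀ i, ContDiff ℝ ∞ fun x : EE 4 × EE 4 × EE 7 => yv x.2.2 i := by
    intro i
    fin_cases i
    · exact h3 1
    · exact h3 2
    · exact h3 3
  have hz : ∀ i, ContDiff ℝ ∞ fun x : EE 4 × EE 4 × EE 7 => zv x.2.2 i := by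
    intro i
    fin_cases i
    · exact h3 4
    · exact h3 5
    · exact h3 6
  have key : ∀ (f : EE 4 × EE 4 × EE 7 → EE 4) (g : EE 4 × EE 4 × EE 7 → V3),
      (∀ i, ContDiff ℝ ∞ fun x => f x i) → (∀ i, ContDiff ℝ ∞ fun x => g x i) →
      ∀ i, ContDiff ℝ ∞ fun x => qrot (f x) (g x) i := by
    intro f g hf hg i
    have f0 := hf 0
    have f1 := hf 1
    have f2 := hf 2
    have f3 := hf 3
    have g0 := hg 0
    have g1 := hg 1
    have g2 := hg 2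
    fin_cases i
    · show ContDiff ℝ ∞ fun x => qrot (f x) (g x) 0
      simp only [TC1_qr0]
      fun_prop
    · show ContDiff ℝ ∞ fun x => qrot (f x) (g x) 1
      simp only [TC1_qr1]
      fun_prop
    · show ContDiff ℝ ∞ fun x => qrot (f x) (g x) 2
      simp only [TC1_qr2]
      fun_prop
  have k1 := key (fun x => x.1) (fun x => yv x.2.2) h1 hy
  have k2 := key (fun x => x.2.1) (fun x => zv x.2.2) h2 hz
  refine contDiff_euclidean.2 fun i => ?_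
  fin_cases i
  · exact h3 0
  · exact k1 0
  · exact k1 1
  · exact k1 2
  · exact k2 0
  · exact k2 1
  · exact k2 2

theorem fderiv_RQ (q q' : EE 4) (p u : EE 7) : fderiv ℝ (RQ q q') p u = RQ q q' u := by
  let L0 : EE 7 →ₗ[ℝ] EE 7 :=
    { toFun := RQ q q'
      map_add' := RQ_add q q'
      map_smul' := RQ_smul q q' }
  have h : HasFDerivAt (RQ q q') (LinearMap.toContinuousLinearMap L0) p :=
    (LinearMap.toContinuousLinearMap L0).hasFDerivAt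
  rw [h.fderiv]
  rfl

end H31R.Tp
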