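import Pool.Agent.Lib.H31R.TA3
import Pool.Agent.Lib.H31R.TB1
import Pool.Agent.Lib.H31R.TC1

/-!
# H31R, chunk TC2: homotopies of closed surfaces

`JJ_RQ`: if the real part `q 0 ≥ 0` and `q /= 0`, the path `q_τ = (1 - τ) 1 + τ q` (`1 = (1; 0, 0, 0)`) has no
zero for `0 ≤ τ ≤ 1`; reparametrize by `τ = Real.smoothTransition r` to get a path defined for all real `r`.
If `q 0 < 0` use `-q` (`qrot_neg`). Apply `JJ_homotopy` to `G t = RQ (q_(t 0)) (q'_(t 0)) (F ![t 1, t 2])`;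
`RQ 1 1 = id`.
`JJ_flat`: `G t = PT (r x1(F)) (r x2(F)) (r x3(F)) (wv F) (sv F)`, `r = t 0`, `F = F ![t 1, t 2]`; `PT_eta` (C0a) for
`r = 1`.
-/

open scoped ContDiff
open Real Set MeasureTheory

namespace H31R.Tp

/-- The surface with `x` replaced by `0`. -/
noncomputable def flat (F : QQ 2 → EE 7) (t : QQ 2) : EE 7 := PT 0 0 0 (wv (F t)) (sv (F t))

theorem contDiff_PT {m : ℕ} {a b c : QQ m → ℝ} {w s : QQ m → V3} (ha : ContDiff ℝ ∞ a)
    (hb : ContDiff ℝ ∞ b) (hc : ContDiff ℝ ∞ c) (hw : ContDiff ℝ ∞ w) (hs : ContDiff ℝ ∞ s) :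
    ContDiff ℝ ∞ fun t => PT (a t) (b t) (c t) (w t) (s t) := by
  have h1 : ContDiff ℝ ∞ fun t => (c t, exp (a t) • w t, exp (b t) • s t) :=
    hc.prodMk ((ha.exp.smul hw).prodMk (hb.exp.smul hs))
  exact contDiff_mk7.comp h1

/-- The linear map `(y, z) ↦ (0; y; z)`. -/
noncomputable def tc2_mk : (V3 × V3) →L[ℝ] EE 7 :=
  LinearMap.toContinuousLinearMap
    { toFun := fun q => mk7 0 q.1 q.2
      map_add' := by
        intro q r
        ext i
        fin_cases i <;> simp [mk7]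
      map_smul' := by
        intro c q
        ext i
        fin_cases i <;> simp [mk7] }

theorem tc2_mk_apply (q : V3 × V3) : tc2_mk q = mk7 0 q.1 q.2 := rfl

theorem tc2_fderiv_comp {F : QQ 2 → EE 7} (hF : ContDiff ℝ ∞ F) (mem : ∀ t, F t ∈ OM)
    (t u : QQ 2) : fderiv ℝ (flat F) t u =
      mk7 0 (dw (F t) (fderiv ℝ F t u)) (ds (F t) (fderiv ℝ F t u)) := by
  have hFd : HasFDerivAt F (fderiv ℝ F t) t :=
    (hF.differentiable (by simp)).differentiableAt.hasFDerivAt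
  obtain ⟨L1, hL1, h1⟩ := hasFDerivAt_wv (mem t)
  obtain ⟨L2, hL2, h2⟩ := hasFDerivAt_sv (mem t)
  have h3 : HasFDerivAt (fun t => (wv (F t), sv (F t)))
      ((L1.comp (fderiv ℝ F t)).prod (L2.comp (fderiv ℝ F t))) t :=
    (hL1.comp t hFd).prodMk (hL2.comp t hFd)
  have h4 := tc2_mk.hasFDerivAt.comp t h3
  have h5 : flat F = fun t => tc2_mk (wv (F t), sv (F t)) := by
    funext t
    rw [tc2_mk_apply]
    unfold flat PT
    rw [exp_zero, one_smul, one_smul]
  have h6 : HasFDerivAt (flat F) (tc2_mk.comp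
      ((L1.comp (fderiv ℝ F t)).prod (L2.comp (fderiv ℝ F t)))) t := by
    rw [h5]
    exact h4
  rw [h6.fderiv]
  show mk7 0 (L1 (fderiv ℝ F t u)) (L2 (fderiv ℝ F t u)) = _
  rw [h1, h2]

theorem tc2_mk7_zero : mk7 0 0 0 = 0 := by
  ext i
  fin_cases i <;> simp [mk7]

theorem tc2_dw_zero (p : EE 7) : dw p 0 = 0 := by
  have h := dw_smul (p := p) 0 0
  rw [zero_smul, zero_smul] at h
  exact h

theorem tc2_ds_zero (p : EE 7) : ds p 0 = 0 := by
  have h := ds_smul (p := p) 0 0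
  rw [zero_smul, zero_smul] at h
  exact h

theorem surf_flat {F : QQ 2 → EE 7} (hF : Surf F) : Surf (flat F) := by
  refine ⟨?_, ?_, ?_, ?_⟩
  · have hw : ContDiff ℝ ∞ fun t => wv (F t) := smooth_wv.comp_contDiff hF.smooth hF.mem
    have hs : ContDiff ℝ ∞ fun t => sv (F t) := smooth_sv.comp_contDiff hF.smooth hF.mem
    exact contDiff_PT contDiff_const contDiff_const contDiff_const hw hs
  · intro t
    exact PT_mem (wv_unit (hF.mem t)) (sv_unit (hF.mem t))
  · intro t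
    unfold flat
    rw [hF.per]
  · rcases hF.cl with h | h
    · left
      intro t
      unfold flat
      rw [h]
    · right
      intro t ht
      rw [tc2_fderiv_comp hF.smooth hF.mem, h t ht, tc2_dw_zero, tc2_ds_zero, tc2_mk7_zero]

/-- The linear map `t ↦ (t 1, t 2)`. -/
noncomputable def tc2_A : QQ 3 →L[ℝ] QQ 2 :=
  ContinuousLinearMap.pi ![ContinuousLinearMap.proj (1 : Fin 3), ContinuousLinearMap.proj (2 : Fin 3)]

theorem tc2_A_apply (t : QQ 3) : tc2_A t = ![t 1, t 2] := by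
  funext i
  fin_cases i <;> rfl

theorem tc2_A1 : tc2_A (eb 1) = eb 0 := by
  rw [tc2_A_apply]
  funext i
  fin_cases i <;> simp

theorem tc2_A2 : tc2_A (eb 2) = eb 1 := by
  rw [tc2_A_apply]
  funext i
  fin_cases i <;> simp

/-- Homotopies given by a family of maps of `OM` to itself. -/
theorem tc2_hom {Y : EE 7 → EE 7 → EE 7 → ℝ} (hY : CForm OM Y) {F : QQ 2 → EE 7} (hF : Surf F)
    (H : ℝ × EE 7 → EE 7) (hH : ContDiffOn ℝ ∞ H (univ ×ˢ OM))
    (hm : ∀ r, ∀ p ∈ OM, H (r, p) ∈ OM) :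
    JJ Y (fun t => H (1, F t)) = JJ Y (fun t => H (0, F t)) := by
  have hopen : IsOpen ((univ : Set ℝ) ×ˢ OM) := isOpen_univ.prod isOpen_OM
  set g : QQ 3 → ℝ × EE 7 := fun t => (t 0, F (tc2_A t)) with hg
  have hgs : ContDiff ℝ ∞ g :=
    (contDiff_apply (𝕜 := ℝ) (E := ℝ) (0 : Fin 3)).prodMk (hF.smooth.comp tc2_A.contDiff)
  have hgm : ∀ t, g t ∈ (univ : Set ℝ) ×ˢ OM := fun t => ⟨mem_univ _, hF.mem _⟩
  have hGs : ContDiff ℝ ∞ fun t => H (g t) := hH.comp_contDiff hgs hgm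
  have key := JJ_homotopy hY hGs (fun t => hm _ _ (hF.mem _)) (by
    intro t
    have h1 : g (t + eb 2) = g t := by
      rw [hg]
      show (((t + eb 2 : QQ 3)) 0, F (tc2_A (t + eb 2))) = (t 0, F (tc2_A t))
      rw [map_add, tc2_A2, hF.per]
      simp
    show H (g (t + eb 2)) = H (g t)
    rw [h1]) (by
    rcases hF.cl with h | h
    · left
      intro t
      have h1 : g (t + eb 1) = g t := by
        rw [hg]
        show (((t + eb 1 : QQ 3)) 0, F (tc2_A (t + eb 1))) = (t 0, F (tc2_A t))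
        rw [map_add, tc2_A1, h]
        simp
      show H (g (t + eb 1)) = H (g t)
      rw [h1]
    · right
      intro t ht
      have h1 : (tc2_A t) 0 = 0 ∨ (tc2_A t) 0 = 1 := by
        rw [tc2_A_apply]
        exact ht
      have h2 := h (tc2_A t) h1
      have hFd : HasFDerivAt F (fderiv ℝ F (tc2_A t)) (tc2_A t) :=
        (hF.smooth.differentiable (by simp)).differentiableAt.hasFDerivAt
      have h3 : HasFDerivAt g ((ContinuousLinearMap.proj (R := ℝ) (φ := fun _ : Fin 3 => ℝ) 0).prod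
          ((fderiv ℝ F (tc2_A t)).comp tc2_A)) t :=
        (ContinuousLinearMap.proj (R := ℝ) (φ := fun _ : Fin 3 => ℝ) 0).hasFDerivAt.prodMk
          (hFd.comp t tc2_A.hasFDerivAt)
      have h4 : DifferentiableAt ℝ H (g t) :=
        (hH.contDiffAt (hopen.mem_nhds (hgm t))).differentiableAt (by simp)
      have h5 := (h4.hasFDerivAt.comp t h3).fderiv
      have h6 : fderiv ℝ (fun t => H (g t)) t (eb 2) = fderiv ℝ H (g t) (0, 0) := by
        have h7 : (fun t => H (g t)) = H ∘ g := rfl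
        rw [h7, h5]
        show fderiv ℝ H (g t) ((eb 2 : QQ 3) 0, fderiv ℝ F (tc2_A t) (tc2_A (eb 2))) = _
        rw [tc2_A2, h2]
        simp
      rw [h6]
      have h8 : ((0 : ℝ), (0 : EE 7)) = 0 := rfl
      rw [h8, map_zero])
  have e1 : ∀ (a : ℝ) (t : QQ 2), g ![a, t 0, t 1] = (a, F t) := by
    intro a t
    rw [hg]
    show ((![a, t 0, t 1] : QQ 3) 0, F (tc2_A ![a, t 0, t 1])) = (a, F t)
    have h1 : tc2_A ![a, t 0, t 1] = t := by
      rw [tc2_A_apply]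
      funext i
      fin_cases i <;> rfl
    rw [h1]
    rfl
  simp only [e1] at key
  exact key

theorem JJ_flat {Y : EE 7 → EE 7 → EE 7 → ℝ} (hY : CForm OM Y) {F : QQ 2 → EE 7} (hF : Surf F) :
    JJ Y (flat F) = JJ Y F := by
  have h := tc2_hom hY hF
    (fun q => PT (q.1 * x1 q.2) (q.1 * x2 q.2) (q.1 * x3 q.2) (wv q.2) (sv q.2)) (by
      intro q hq
      apply ContDiffAt.contDiffWithinAt
      have hp : q.2 ∈ OM := hq.2
      have h2 : ContDiffAt ℝ ∞ (Prod.snd : ℝ × EE 7 → EE 7) q := contDiffAt_snd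
      have h1 : ContDiffAt ℝ ∞ (Prod.fst : ℝ × EE 7 → ℝ) q := contDiffAt_fst
      have hx1 : ContDiffAt ℝ ∞ (fun q : ℝ × EE 7 => x1 q.2) q := (contDiffAt_x1 hp).comp q h2
      have hx2 : ContDiffAt ℝ ∞ (fun q : ℝ × EE 7 => x2 q.2) q := (contDiffAt_x2 hp).comp q h2
      have hx3 : ContDiffAt ℝ ∞ (fun q : ℝ × EE 7 => x3 q.2) q := (contDiffAt_x3 _).comp q h2
      have hw : ContDiffAt ℝ ∞ (fun q : ℝ × EE 7 => wv q.2) q := (contDiffAt_wv hp).comp q h2
      have hs : ContDiffAt ℝ ∞ (fun q : ℝ × EE 7 => sv q.2) q := (contDiffAt_sv hp).comp q h2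
      have h3 : ContDiffAt ℝ ∞ (fun q : ℝ × EE 7 => (q.1 * x3 q.2, exp (q.1 * x1 q.2) • wv q.2,
          exp (q.1 * x2 q.2) • sv q.2)) q :=
        (h1.mul hx3).prodMk (((h1.mul hx1).exp.smul hw).prodMk ((h1.mul hx2).exp.smul hs))
      exact contDiff_mk7.contDiffAt.comp q h3)
    (fun r p hp => PT_mem (wv_unit hp) (sv_unit hp))
  have e1 : (fun t => PT (1 * x1 (F t)) (1 * x2 (F t)) (1 * x3 (F t)) (wv (F t)) (sv (F t))) = F := by
    funext t
    rw [one_mul, one_mul, one_mul]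
    exact PT_eta (hF.mem t)
  have e2 : (fun t => PT (0 * x1 (F t)) (0 * x2 (F t)) (0 * x3 (F t)) (wv (F t)) (sv (F t))) =
      flat F := by
    funext t
    rw [zero_mul, zero_mul, zero_mul]
    rfl
  beta_reduce at h
  rw [e1, e2] at h
  exact h.symm

/-- The unit quaternion. -/
noncomputable def tc2_one : EE 4 := !₂[1, 0, 0, 0]

theorem tc2_qrot_one (v : V3) : qrot tc2_one v = v := by
  funext i
  fin_cases i <;> simp [qrot, tc2_one, dot, crs]

theorem tc2_RQ_one (p : EE 7) : RQ tc2_one tc2_one p = p := by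
  unfold RQ
  rw [tc2_qrot_one, tc2_qrot_one, mk7_self]

/-- The path from the unit quaternion to `q`. -/
noncomputable def tc2_path (q : EE 4) (r : ℝ) : EE 4 :=
  (1 - Real.smoothTransition r) • tc2_one + Real.smoothTransition r • q

theorem tc2_path_ne {q : EE 4} (hq : q ≠ 0) (h0 : 0 ≤ q 0) (r : ℝ) : tc2_path q r ≠ 0 := by
  intro h
  have h1 : (tc2_path q r) 0 = 0 := by rw [h]; rfl
  have h2 : (tc2_path q r) 0 = (1 - Real.smoothTransition r) + Real.smoothTransition r * q 0 := by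
    simp [tc2_path, tc2_one]
  have h3 := Real.smoothTransition.nonneg r
  have h4 := Real.smoothTransition.le_one r
  have h5 := mul_nonneg h3 h0
  have h6 : Real.smoothTransition r = 1 := by linarith
  apply hq
  have h7 : tc2_path q r = q := by
    unfold tc2_path
    rw [h6, sub_self, zero_smul, zero_add, one_smul]
  rw [← h7]
  exact h

theorem tc2_path_smooth (q : EE 4) : ContDiff ℝ ∞ (tc2_path q) :=
  ((contDiff_const.sub Real.smoothTransition.contDiff).smul contDiff_const).add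
    (Real.smoothTransition.contDiff.smul contDiff_const)

theorem tc2_JJ_RQ {Y : EE 7 → EE 7 → EE 7 → ℝ} (hY : CForm OM Y) {F : QQ 2 → EE 7} (hF : Surf F)
    {q q' : EE 4} (hq : q ≠ 0) (hq' : q' ≠ 0) (h0 : 0 ≤ q 0) (h0' : 0 ≤ q' 0) :
    JJ Y (fun t => RQ q q' (F t)) = JJ Y F := by
  have h := tc2_hom hY hF (fun x => RQ (tc2_path q x.1) (tc2_path q' x.1) x.2) (by
      have h1 : ContDiff ℝ ∞ fun x : ℝ × EE 7 => (tc2_path q x.1, tc2_path q' x.1, x.2) :=
        ((tc2_path_smooth q).comp contDiff_fst).prodMk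
          (((tc2_path_smooth q').comp contDiff_fst).prodMk contDiff_snd)
      exact (contDiff_RQ.comp h1).contDiffOn)
    (fun r p hp => RQ_mem (tc2_path_ne hq h0 r) (tc2_path_ne hq' h0' r) hp)
  have e1 : ∀ q : EE 4, tc2_path q 1 = q := by
    intro q
    unfold tc2_path
    rw [Real.smoothTransition.one, sub_self, zero_smul, zero_add, one_smul]
  have e0 : ∀ q : EE 4, tc2_path q 0 = tc2_one := by
    intro q
    unfold tc2_path
    rw [Real.smoothTransition.zero, sub_zero, zero_smul, add_zero, one_smul]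
  simp only [e1, e0, tc2_RQ_one] at h
  exact h

theorem JJ_RQ {Y : EE 7 → EE 7 → EE 7 → ℝ} (hY : CForm OM Y) {F : QQ 2 → EE 7} (hF : Surf F)
    {q q' : EE 4} (hq : q ≠ 0) (hq' : q' ≠ 0) : JJ Y (fun t => RQ q q' (F t)) = JJ Y F := by
  have hneg : ∀ (r r' : EE 4) (p : EE 7), RQ (-r) r' p = RQ r r' p ∧ RQ r (-r') p = RQ r r' p := by
    intro r r' p
    unfold RQ
    rw [qrot_neg, qrot_neg]
    exact ⟨rfl, rfl⟩
  have hex : ∀ r : EE 4, r ≠ 0 → ∃ s : EE 4, s ≠ 0 ∧ 0 ≤ s 0 ∧ (s = r ∨ s = -r) := by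
    intro r hr
    rcases le_total 0 (r 0) with h | h
    · exact ⟨r, hr, h, Or.inl rfl⟩
    · refine ⟨-r, neg_ne_zero.2 hr, ?_, Or.inr rfl⟩
      show 0 ≤ -(r 0)
      linarith
  obtain ⟨s, hs, hs0, hs1⟩ := hex q hq
  obtain ⟨s', hs', hs0', hs1'⟩ := hex q' hq'
  have h := tc2_JJ_RQ hY hF hs hs' hs0 hs0'
  have h2 : (fun t => RQ s s' (F t)) = fun t => RQ q q' (F t) := by
    funext t
    rcases hs1 with h1 | h1 <;> rcases hs1' with h3 | h3 <;> rw [h1, h3]
    · exact (hneg q q' _).2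
    · exact (hneg q q' _).1
    · rw [(hneg q (-q') _).1, (hneg q q' _).2]
  rw [h2] at h
  exact h

/-- The tangent vectors of a flat surface. -/
theorem fderiv_flat {F : QQ 2 → EE 7} (hF : Surf F) (t u : QQ 2) :
    fderiv ℝ (flat F) t u = mk7 0 (dw (F t) (fderiv ℝ F t u)) (ds (F t) (fderiv ℝ F t u)) :=
  tc2_fderiv_comp hF.smooth hF.mem t u

end H31R.Tp
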