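import Pool.Agent.Lib.H31R.TA1
import Pool.Agent.Lib.H31R.TC1

/-!
# H31R, chunk TC3: the average over the rotations

`ann` is compact with positive finite volume, and for a unit quaternion `p` the map `q ↦ qmul q p` is
measure preserving (`exists_qmulR`, `LinearIsometryEquiv.measurePreserving`) and preserves `ann`
(`norm_qmul`). `avg_inv`: `RQ q q' (RQ p p' x) = RQ (qmul q p) (qmul q' p') x`, then change the variables in
both integrals (`MeasurePreserving.setIntegral_preimage_emb` or `..._comp_...`). Integrability: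
continuous functions on compact sets (`CForm.continuousOn`, `contDiff_RQ`, `RQ_mem`).
-/

open scoped ContDiff
open Real Set MeasureTheory

namespace H31R.Tp

theorem isCompact_ann : IsCompact ann := by
  have h1 : ann = Metric.closedBall (0 : EE 4) 2 ∩ {q | 1 ≤ ‖q‖} := by
    ext q
    simp only [ann, mem_ofPred_eq, mem_inter_iff, mem_closedBall_zero_iff]
    exact and_comm
  rw [h1]
  exact (isCompact_closedBall _ _).inter_right (isClosed_le continuous_const continuous_norm)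

theorem ann_ne_zero {q : EE 4} (hq : q ∈ ann) : q ≠ 0 := by
  rintro rfl
  have h := hq.1
  rw [norm_zero] at h
  linarith

theorem TC3_meas : MeasurableSet ann := isCompact_ann.isClosed.measurableSet

theorem vol_ann_pos : 0 < volume.real ann := by
  have hfin : volume ann ≠ ⊤ := isCompact_ann.measure_lt_top.ne
  refine ENNReal.toReal_pos ?_ hfin
  have hopen : IsOpen {q : EE 4 | 1 < ‖q‖ ∧ ‖q‖ < 2} :=
    (isOpen_lt continuous_const continuous_norm).inter (isOpen_lt continuous_norm continuous_const)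
  have hne : {q : EE 4 | 1 < ‖q‖ ∧ ‖q‖ < 2}.Nonempty := by
    refine ⟨EuclideanSpace.single 0 (3 / 2 : ℝ), ?_⟩
    have h1 : ‖(EuclideanSpace.single 0 (3 / 2 : ℝ) : EE 4)‖ = 3 / 2 := by
      rw [PiLp.norm_single, Real.norm_of_nonneg (by norm_num)]
    show 1 < ‖(EuclideanSpace.single 0 (3 / 2 : ℝ) : EE 4)‖ ∧
      ‖(EuclideanSpace.single 0 (3 / 2 : ℝ) : EE 4)‖ < 2
    rw [h1]
    norm_num
  have hpos := hopen.measure_pos volume hne
  refine (hpos.trans_le (measure_mono ?_)).ne'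
  intro q hq
  exact ⟨hq.1.le, hq.2.le⟩

/-- the integrand of the average -/
noncomputable def TC3_f (Y : EE 7 → EE 7 → EE 7 → ℝ) (p u v : EE 7) (x : EE 4 × EE 4) : ℝ :=
  Y (RQ x.1 x.2 p) (RQ x.1 x.2 u) (RQ x.1 x.2 v)

theorem TC3_cont {Y : EE 7 → EE 7 → EE 7 → ℝ} (hY : CForm OM Y) {p : EE 7} (hp : p ∈ OM)
    (u v : EE 7) : ContinuousOn (TC3_f Y p u v) (ann ×ˢ ann) := by
  have hR : ∀ z : EE 7, Continuous fun x : EE 4 × EE 4 => RQ x.1 x.2 z := fun z =>
    contDiff_RQ.continuous.comp (continuous_fst.prodMk (continuous_snd.prodMk continuous_const))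
  have h1 : Continuous fun x : EE 4 × EE 4 => (RQ x.1 x.2 p, RQ x.1 x.2 u, RQ x.1 x.2 v) :=
    (hR p).prodMk ((hR u).prodMk (hR v))
  exact hY.continuousOn.comp h1.continuousOn fun x hx =>
    ⟨RQ_mem (ann_ne_zero hx.1) (ann_ne_zero hx.2) hp, mem_univ _⟩

theorem TC3_int {Y : EE 7 → EE 7 → EE 7 → ℝ} (hY : CForm OM Y) {p : EE 7} (hp : p ∈ OM)
    (u v : EE 7) : Integrable (TC3_f Y p u v)
      ((volume.restrict ann).prod (volume.restrict ann)) := by
  rw [Measure.prod_restrict]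
  exact (TC3_cont hY hp u v).integrableOn_compact (isCompact_ann.prod isCompact_ann)

theorem TC3_int_in {Y : EE 7 → EE 7 → EE 7 → ℝ} (hY : CForm OM Y) {p : EE 7} (hp : p ∈ OM)
    (u v : EE 7) {q : EE 4} (hq : q ∈ ann) :
    IntegrableOn (fun q' => TC3_f Y p u v (q, q')) ann := by
  refine ContinuousOn.integrableOn_compact isCompact_ann ?_
  exact (TC3_cont hY hp u v).comp (continuous_const.prodMk continuous_id).continuousOn
    fun q' hq' => ⟨hq, hq'⟩

theorem TC3_int_out {Y : EE 7 → EE 7 → EE 7 → ℝ} (hY : CForm OM Y) {p : EE 7} (hp : p ∈ OM)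
    (u v : EE 7) : IntegrableOn (fun q => ∫ q' in ann, TC3_f Y p u v (q, q')) ann :=
  (TC3_int hY hp u v).integral_prod_left

theorem TC3_avg (Y : EE 7 → EE 7 → EE 7 → ℝ) (p u v : EE 7) :
    avg Y p u v = ∫ q in ann, ∫ q' in ann, TC3_f Y p u v (q, q') := rfl

theorem avg_add {Y : EE 7 → EE 7 → EE 7 → ℝ} (hY : CForm OM Y) {p : EE 7} (hp : p ∈ OM)
    (u u' v : EE 7) : avg Y p (u + u') v = avg Y p u v + avg Y p u' v := by
  rw [TC3_avg, TC3_avg, TC3_avg, ← integral_add (TC3_int_out hY hp u v) (TC3_int_out hY hp u' v)]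
  refine setIntegral_congr_fun TC3_meas fun q hq => ?_
  rw [← integral_add (TC3_int_in hY hp u v hq) (TC3_int_in hY hp u' v hq)]
  refine setIntegral_congr_fun TC3_meas fun q' hq' => ?_
  simp only [TC3_f]
  rw [RQ_add, hY.add_left _ (RQ_mem (ann_ne_zero hq) (ann_ne_zero hq') hp)]

theorem avg_smul {Y : EE 7 → EE 7 → EE 7 → ℝ} (hY : CForm OM Y) {p : EE 7} (hp : p ∈ OM)
    (c : ℝ) (u v : EE 7) : avg Y p (c • u) v = c * avg Y p u v := by
  rw [TC3_avg, TC3_avg, ← integral_const_mul]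
  refine setIntegral_congr_fun TC3_meas fun q hq => ?_
  rw [← integral_const_mul]
  refine setIntegral_congr_fun TC3_meas fun q' hq' => ?_
  simp only [TC3_f]
  rw [RQ_smul, hY.smul_left _ (RQ_mem (ann_ne_zero hq) (ann_ne_zero hq') hp)]

theorem avg_alt {Y : EE 7 → EE 7 → EE 7 → ℝ} (hY : CForm OM Y) {p : EE 7} (hp : p ∈ OM)
    (u v : EE 7) : avg Y p u v = -avg Y p v u := by
  rw [TC3_avg, TC3_avg, ← integral_neg]
  refine setIntegral_congr_fun TC3_meas fun q hq => ?_
  rw [← integral_neg]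
  refine setIntegral_congr_fun TC3_meas fun q' hq' => ?_
  simp only [TC3_f]
  exact hY.alt _ (RQ_mem (ann_ne_zero hq) (ann_ne_zero hq') hp) _ _

/-- change of variables -/
theorem TC3_cv {r : EE 4} (hr : ‖r‖ = 1) (G : EE 4 → ℝ) :
    ∫ q in ann, G (qmul q r) = ∫ q in ann, G q := by
  obtain ⟨L, hL⟩ := exists_qmulR hr
  have h1 : L ⁻¹' ann = ann := by
    ext q
    have h2 : ‖L q‖ = ‖q‖ := L.norm_map q
    simp only [ann, mem_preimage, mem_ofPred_eq, h2]
  have h3 := L.measurePreserving.setIntegral_preimage_emb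
    L.toHomeomorph.measurableEmbedding G ann
  rw [h1] at h3
  rw [← h3]
  refine setIntegral_congr_fun TC3_meas fun q _ => ?_
  congr 1
  exact (hL q).symm

theorem avg_inv {Y : EE 7 → EE 7 → EE 7 → ℝ} (hY : CForm OM Y) {r r' : EE 4} (hr : ‖r‖ = 1)
    (hr' : ‖r'‖ = 1) {p : EE 7} (hp : p ∈ OM) (u v : EE 7) :
    avg Y (RQ r r' p) (RQ r r' u) (RQ r r' v) = avg Y p u v := by
  rw [TC3_avg, TC3_avg, ← TC3_cv hr fun q => ∫ q' in ann, TC3_f Y p u v (q, q')]
  refine setIntegral_congr_fun TC3_meas fun q _ => ?_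
  rw [← TC3_cv hr' fun q' => TC3_f Y p u v (qmul q r, q')]
  refine setIntegral_congr_fun TC3_meas fun q' _ => ?_
  simp only [TC3_f, RQ_RQ]

end H31R.Tp
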