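import Pool.Agent.Lib.H31R.TC2
import Pool.Agent.Lib.H31R.TC3

/-!
# H31R, chunk TC4: the integral of the average

`JJ (avg Y) F = ∫ q in ann, ∫ q' in ann, JJ Y (RQ q q' ∘ F)` (Fubini for a continuous function on a
compact set; `fderiv (RQ q q' ∘ F) t u = RQ q q' (fderiv F t u)`), and `JJ Y (RQ q q' ∘ F) = JJ Y F` by `JJ_RQ`.
-/

open scoped ContDiff
open Real Set MeasureTheory

namespace H31R.Tp

/-- the integrand -/
noncomputable def tc4_f (Y : EE 7 → EE 7 → EE 7 → ℝ) (F : QQ 2 → EE 7)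
    (x : QQ 2 × EE 4 × EE 4) : ℝ :=
  Y (RQ x.2.1 x.2.2 (F x.1)) (RQ x.2.1 x.2.2 (fderiv ℝ F x.1 (eb 0)))
    (RQ x.2.1 x.2.2 (fderiv ℝ F x.1 (eb 1)))

theorem tc4_cont {Y : EE 7 → EE 7 → EE 7 → ℝ} (hY : CForm OM Y) {F : QQ 2 → EE 7}
    (hF : Surf F) : ContinuousOn (tc4_f Y F) (univ ×ˢ (ann ×ˢ ann)) := by
  have hd : Continuous (fderiv ℝ F) := hF.smooth.continuous_fderiv (by simp)
  have hR := contDiff_RQ.continuous
  have hc : Continuous fun x : QQ 2 × EE 4 × EE 4 => (RQ x.2.1 x.2.2 (F x.1),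
      RQ x.2.1 x.2.2 (fderiv ℝ F x.1 (eb 0)), RQ x.2.1 x.2.2 (fderiv ℝ F x.1 (eb 1))) := by
    have h1 : ∀ g : QQ 2 → EE 7, Continuous g →
        Continuous fun x : QQ 2 × EE 4 × EE 4 => RQ x.2.1 x.2.2 (g x.1) := by
      intro g hg
      have h2 : Continuous fun x : QQ 2 × EE 4 × EE 4 => (x.2.1, x.2.2, g x.1) :=
        (continuous_fst.comp continuous_snd).prodMk
          ((continuous_snd.comp continuous_snd).prodMk (hg.comp continuous_fst))
      exact hR.comp h2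
    exact (h1 _ hF.smooth.continuous).prodMk
      ((h1 _ (hd.clm_apply continuous_const)).prodMk (h1 _ (hd.clm_apply continuous_const)))
  refine (CForm.continuousOn hY).comp hc.continuousOn ?_
  rintro x ⟨_, h1, h2⟩
  exact ⟨RQ_mem (ann_ne_zero h1) (ann_ne_zero h2) (hF.mem _), mem_univ _⟩

theorem tc4_fderiv {F : QQ 2 → EE 7} (hF : Surf F) (q q' : EE 4) (t u : QQ 2) :
    fderiv ℝ (fun t => RQ q q' (F t)) t u = RQ q q' (fderiv ℝ F t u) := by
  have h1 : ContDiff ℝ ∞ (RQ q q') := by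
    have h2 : ContDiff ℝ ∞ fun p : EE 7 => (q, q', p) :=
      contDiff_const.prodMk (contDiff_const.prodMk contDiff_id)
    exact contDiff_RQ.comp h2
  have h3 : DifferentiableAt ℝ (RQ q q') (F t) := (h1.differentiable (by simp)).differentiableAt
  have h4 : DifferentiableAt ℝ F t := (hF.smooth.differentiable (by simp)).differentiableAt
  have h5 := (h3.hasFDerivAt.comp t h4.hasFDerivAt).fderiv
  have h6 : (fun t => RQ q q' (F t)) = RQ q q' ∘ F := rfl
  rw [h6, h5]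
  show fderiv ℝ (RQ q q') (F t) (fderiv ℝ F t u) = _
  rw [fderiv_RQ]

theorem JJ_avg {Y : EE 7 → EE 7 → EE 7 → ℝ} (hY : CForm OM Y) {F : QQ 2 → EE 7} (hF : Surf F) :
    JJ (avg Y) F = volume.real ann ^ 2 * JJ Y F := by
  have hcont := tc4_cont hY hF
  have hann : MeasurableSet ann := isCompact_ann.isClosed.measurableSet
  have hI : IsCompact (Icc (0 : QQ 2) 1) := isCompact_Icc
  have hK : IsCompact (Icc (0 : QQ 2) 1 ×ˢ (ann ×ˢ ann)) :=
    hI.prod (isCompact_ann.prod isCompact_ann)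
  have hint : IntegrableOn (tc4_f Y F) (Icc (0 : QQ 2) 1 ×ˢ (ann ×ˢ ann))
      (volume.prod (volume : Measure (EE 4 × EE 4))) := by
    refine ContinuousOn.integrableOn_compact hK (hcont.mono ?_)
    exact Set.prod_mono (subset_univ _) subset_rfl
  have hint2 : ∀ t : QQ 2, IntegrableOn (fun z : EE 4 × EE 4 => tc4_f Y F (t, z)) (ann ×ˢ ann)
      ((volume : Measure (EE 4)).prod volume) := by
    intro t
    refine ContinuousOn.integrableOn_compact (isCompact_ann.prod isCompact_ann) ?_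
    refine hcont.comp (continuous_const.prodMk continuous_id).continuousOn ?_
    intro z hz
    exact ⟨mem_univ _, hz⟩
  have h1 : ∀ t : QQ 2, pull F (avg Y) t (eb 0) (eb 1) =
      ∫ z in ann ×ˢ ann, tc4_f Y F (t, z) := by
    intro t
    have h2 := setIntegral_prod (fun z : EE 4 × EE 4 => tc4_f Y F (t, z)) (hint2 t)
    rw [← Measure.volume_eq_prod] at h2
    rw [h2]
    rfl
  have h3 : JJ (avg Y) F =
      ∫ t in Icc (0 : QQ 2) 1, ∫ z in ann ×ˢ ann, tc4_f Y F (t, z) := by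
    unfold JJ MM
    simp only [h1]
  have h4 : ∫ t in Icc (0 : QQ 2) 1, ∫ z in ann ×ˢ ann, tc4_f Y F (t, z) =
      ∫ z in ann ×ˢ ann, ∫ t in Icc (0 : QQ 2) 1, tc4_f Y F (t, z) := by
    apply integral_integral_swap
    show Integrable (Function.uncurry fun t z => tc4_f Y F (t, z)) _
    rw [Measure.prod_restrict]
    exact hint
  have h5 : ∀ z ∈ ann ×ˢ ann, ∫ t in Icc (0 : QQ 2) 1, tc4_f Y F (t, z) = JJ Y F := by
    rintro z ⟨hz1, hz2⟩
    rw [← JJ_RQ hY hF (ann_ne_zero hz1) (ann_ne_zero hz2)]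
    unfold JJ MM pull
    simp only [tc4_fderiv hF]
    rfl
  rw [h3, h4, setIntegral_congr_fun (hann.prod hann) h5, setIntegral_const, smul_eq_mul]
  congr 1
  rw [Measure.volume_eq_prod, measureReal_prod_prod]
  ring

end H31R.Tp
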