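import Pool.Agent.Lib.H31R.TC1

/-!
# H31R, chunk TC5: invariant 2-forms on the product of two spheres

Let `B` be a bilinear alternating form depending on the point `p ∈ OM`, invariant under all `RQ r r'` with
unit `r`, `r'`. At the point `p = mk7 0 w s` and for vectors `mk7 0 a b` with `a ⊥ w`, `b ⊥ s`:
(1) the mixed terms `B p (mk7 0 a 0) (mk7 0 0 b)` vanish: apply the invariance under `RQ r 1` with the
rotation `r` by `π` about `w` (`exists_qrot_pi`; `RQ r 1` with `1 = (1; 0, 0, 0)`, `qrot 1 v = v`).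
(2) `B p (mk7 0 a 0) (mk7 0 a' 0) = α * det3 w a a'` with `α = B (mk7 0 e3 e3) (mk7 0 e1 0) (mk7 0 e2 0)`: by
`exists_qrot` there are unit `r`, `r'` with `qrot r e3 = w`, `qrot r' e3 = s`; write `a = qrot r c`, `a' = qrot r c'`
(`exists_qrot_eq`), `c ⊥ e3`, `c' ⊥ e3` (`dot_qrot`), so `c = c0 e1 + c1 e2`, etc., and
`det3 w a a' = det3 e3 c c' = c0 c'1 - c1 c'0` (`det3_qrot`).
(3) the same for `s` with `β = B (mk7 0 e3 e3) (mk7 0 0 e1) (mk7 0 0 e2)`.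
-/

open scoped ContDiff
open Real Set MeasureTheory

namespace H31R.Tp

/-- The first basis vector. -/
def TC5_e1 : V3 := ![1, 0, 0]

/-- The second basis vector. -/
def TC5_e2 : V3 := ![0, 1, 0]

theorem TC5_RQ_mk7 (q q' : EE 4) (c : ℝ) (y z : V3) :
    RQ q q' (mk7 c y z) = mk7 c (qrot q y) (qrot q' z) := by
  unfold RQ
  rw [yv_mk7, zv_mk7, mk7_zero]

theorem TC5_qrot_zero (q : EE 4) : qrot q 0 = 0 := by
  have h := qrot_smul q 0 0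
  rw [zero_smul, zero_smul] at h
  exact h

theorem TC5_qrot_one (v : V3) : qrot !₂[1, 0, 0, 0] v = v := by
  have q0 : (!₂[1, 0, 0, 0] : EE 4) 0 = 1 := rfl
  have q1 : (!₂[1, 0, 0, 0] : EE 4) 1 = 0 := rfl
  have q2 : (!₂[1, 0, 0, 0] : EE 4) 2 = 0 := rfl
  have q3 : (!₂[1, 0, 0, 0] : EE 4) 3 = 0 := rfl
  apply TC1_ext
  · rw [TC1_qr0, q0, q1, q2, q3]; ring
  · rw [TC1_qr1, q0, q1, q2, q3]; ring
  · rw [TC1_qr2, q0, q1, q2, q3]; ring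

theorem TC5_norm_one : ‖(!₂[1, 0, 0, 0] : EE 4)‖ = 1 := by
  apply TC1_norm_one
  show (1 : ℝ) ^ 2 + 0 ^ 2 + 0 ^ 2 + 0 ^ 2 = 1
  norm_num

theorem TC5_mem {w s : V3} (hw : dot w w = 1) (hs : dot s s = 1) : mk7 0 w s ∈ OM := by
  constructor
  · show yv (mk7 0 w s) ≠ 0
    rw [yv_mk7]
    rintro rfl
    simp [dot] at hw
  · show zv (mk7 0 w s) ≠ 0
    rw [zv_mk7]
    rintro rfl
    simp [dot] at hs

theorem TC5_bil {B : EE 7 → EE 7 → EE 7 → ℝ}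
    (hadd : ∀ p ∈ OM, ∀ u u' v, B p (u + u') v = B p u v + B p u' v)
    (hsmul : ∀ p ∈ OM, ∀ (c : ℝ) (u v), B p (c • u) v = c * B p u v)
    (halt : ∀ p ∈ OM, ∀ u v, B p u v = -B p v u) {p : EE 7} (hp : p ∈ OM) (E1 E2 : EE 7)
    (x0 x1 y0 y1 : ℝ) : B p (x0 • E1 + x1 • E2) (y0 • E1 + y1 • E2) =
      (x0 * y1 - x1 * y0) * B p E1 E2 := by
  have hself : ∀ u, B p u u = 0 := fun u => by
    have := halt p hp u u
    linarith
  have e1 : B p E1 (y0 • E1 + y1 • E2) = y1 * B p E1 E2 := by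
    rw [halt p hp, hadd p hp, hsmul p hp, hsmul p hp, hself, halt p hp E2 E1]
    ring
  have e2 : B p E2 (y0 • E1 + y1 • E2) = -(y0 * B p E1 E2) := by
    rw [halt p hp, hadd p hp, hsmul p hp, hsmul p hp, hself]
    ring
  rw [hadd p hp, hsmul p hp, hsmul p hp, e1, e2]
  ring

theorem TC5_dec {c : V3} (hc : dot e3 c = 0) : c = c 0 • TC5_e1 + c 1 • TC5_e2 := by
  have h2 : c 2 = 0 := by
    have : (0 : ℝ) * c 0 + 0 * c 1 + 1 * c 2 = 0 := hc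
    linarith
  apply TC1_ext
  · show c 0 = c 0 * 1 + c 1 * 0
    ring
  · show c 1 = c 0 * 0 + c 1 * 1
    ring
  · show c 2 = c 0 * 0 + c 1 * 0
    rw [h2]; ring

theorem TC5_mk_y {c : V3} (hc : dot e3 c = 0) :
    mk7 0 c 0 = c 0 • mk7 0 TC5_e1 0 + c 1 • mk7 0 TC5_e2 0 := by
  have h := TC5_dec hc
  rw [← TC1_mk7_smul, ← TC1_mk7_smul, ← TC1_mk7_add, ← h]
  simp

theorem TC5_mk_z {c : V3} (hc : dot e3 c = 0) :
    mk7 0 0 c = c 0 • mk7 0 0 TC5_e1 + c 1 • mk7 0 0 TC5_e2 := by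
  have h := TC5_dec hc
  rw [← TC1_mk7_smul, ← TC1_mk7_smul, ← TC1_mk7_add, ← h]
  simp

theorem TC5_det (c c' : V3) : det3 e3 c c' = c 0 * c' 1 - c 1 * c' 0 := by
  rw [TC1_det3]
  have e0 : e3 0 = 0 := rfl
  have e1 : e3 1 = 0 := rfl
  have e2 : e3 2 = 1 := rfl
  rw [e0, e1, e2]
  ring

theorem TC5_e3 : dot e3 e3 = 1 := by
  show (0 : ℝ) * 0 + 0 * 0 + 1 * 1 = 1
  norm_num

theorem invariant_form {B : EE 7 → EE 7 → EE 7 → ℝ}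
    (hadd : ∀ p ∈ OM, ∀ u u' v, B p (u + u') v = B p u v + B p u' v)
    (hsmul : ∀ p ∈ OM, ∀ (c : ℝ) (u v), B p (c • u) v = c * B p u v)
    (halt : ∀ p ∈ OM, ∀ u v, B p u v = -B p v u)
    (hinv : ∀ r r' : EE 4, ‖r‖ = 1 → ‖r'‖ = 1 → ∀ p ∈ OM, ∀ u v,
      B (RQ r r' p) (RQ r r' u) (RQ r r' v) = B p u v) :
    ∃ α β : ℝ, ∀ w s a a' b b' : V3, dot w w = 1 → dot s s = 1 → dot w a = 0 → dot w a' = 0 →
      dot s b = 0 → dot s b' = 0 →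
      B (mk7 0 w s) (mk7 0 a b) (mk7 0 a' b') = α * det3 w a a' + β * det3 s b b' := by
  refine ⟨B (mk7 0 e3 e3) (mk7 0 TC5_e1 0) (mk7 0 TC5_e2 0),
    B (mk7 0 e3 e3) (mk7 0 0 TC5_e1) (mk7 0 0 TC5_e2), ?_⟩
  intro w s a a' b b' hw hs ha ha' hb hb'
  have hp := TC5_mem hw hs
  have hp3 := TC5_mem TC5_e3 TC5_e3
  -- the mixed terms vanish
  have hmix : ∀ c d : V3, dot w c = 0 → B (mk7 0 w s) (mk7 0 c 0) (mk7 0 0 d) = 0 := by
    intro c d hc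
    obtain ⟨r, hr, hrw, hrv⟩ := exists_qrot_pi hw
    have h := hinv r !₂[1, 0, 0, 0] hr TC5_norm_one (mk7 0 w s) hp (mk7 0 c 0) (mk7 0 0 d)
    rw [TC5_RQ_mk7, TC5_RQ_mk7, TC5_RQ_mk7, hrw, hrv c hc, TC5_qrot_zero, TC5_qrot_zero,
      TC5_qrot_one, TC5_qrot_one] at h
    have e : mk7 0 (-c) 0 = (-1 : ℝ) • mk7 0 c 0 := by
      rw [← TC1_mk7_smul]
      simp
    rw [e, hsmul _ hp] at h
    linarith
  obtain ⟨r, hr, hrw⟩ := exists_qrot hw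
  obtain ⟨r', hr', hrs⟩ := exists_qrot hs
  obtain ⟨c, hc⟩ := exists_qrot_eq hr a
  obtain ⟨c', hc'⟩ := exists_qrot_eq hr a'
  obtain ⟨d, hd⟩ := exists_qrot_eq hr' b
  obtain ⟨d', hd'⟩ := exists_qrot_eq hr' b'
  have orth : ∀ {q : EE 4} {v x y : V3}, ‖q‖ = 1 → qrot q e3 = v → qrot q x = y → dot v y = 0 →
      dot e3 x = 0 := by
    intro q v x y hq h1 h2 h3
    have h4 := dot_qrot q e3 x
    rw [h1, h2, h3, hq] at h4
    linarith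
  have oc := orth hr hrw hc ha
  have oc' := orth hr hrw hc' ha'
  have od := orth hr' hrs hd hb
  have od' := orth hr' hrs hd' hb'
  have dY : det3 w a a' = c 0 * c' 1 - c 1 * c' 0 := by
    rw [← TC5_det, ← hrw, ← hc, ← hc', det3_qrot, hr]
    ring
  have dZ : det3 s b b' = d 0 * d' 1 - d 1 * d' 0 := by
    rw [← TC5_det, ← hrs, ← hd, ← hd', det3_qrot, hr']
    ring
  have hY : B (mk7 0 w s) (mk7 0 a 0) (mk7 0 a' 0) =
      (c 0 * c' 1 - c 1 * c' 0) * B (mk7 0 e3 e3) (mk7 0 TC5_e1 0) (mk7 0 TC5_e2 0) := by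
    have h := hinv r r' hr hr' (mk7 0 e3 e3) hp3 (mk7 0 c 0) (mk7 0 c' 0)
    rw [TC5_RQ_mk7, TC5_RQ_mk7, TC5_RQ_mk7, hrw, hrs, hc, hc', TC5_qrot_zero] at h
    rw [h, TC5_mk_y oc, TC5_mk_y oc', TC5_bil hadd hsmul halt hp3]
  have hZ : B (mk7 0 w s) (mk7 0 0 b) (mk7 0 0 b') =
      (d 0 * d' 1 - d 1 * d' 0) * B (mk7 0 e3 e3) (mk7 0 0 TC5_e1) (mk7 0 0 TC5_e2) := by
    have h := hinv r r' hr hr' (mk7 0 e3 e3) hp3 (mk7 0 0 d) (mk7 0 0 d')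
    rw [TC5_RQ_mk7, TC5_RQ_mk7, TC5_RQ_mk7, hrw, hrs, hd, hd', TC5_qrot_zero] at h
    rw [h, TC5_mk_z od, TC5_mk_z od', TC5_bil hadd hsmul halt hp3]
  have sa : mk7 0 a b = mk7 0 a 0 + mk7 0 0 b := by
    rw [← TC1_mk7_add]; simp
  have sa' : mk7 0 a' b' = mk7 0 a' 0 + mk7 0 0 b' := by
    rw [← TC1_mk7_add]; simp
  have m1 := hmix a b' ha
  have m2 := hmix a' b ha'
  rw [sa, sa', hadd _ hp, halt _ hp (mk7 0 a 0), hadd _ hp, halt _ hp (mk7 0 0 b), hadd _ hp,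
    halt _ hp (mk7 0 a' 0) (mk7 0 a 0), halt _ hp (mk7 0 0 b') (mk7 0 a 0), m1, m2,
    halt _ hp (mk7 0 0 b') (mk7 0 0 b), hY, hZ, dY, dZ]
  ring

end H31R.Tp
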