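import Pool.Agent.Lib.H31R.TC2
import Pool.Agent.Lib.H31R.TB1

/-!
# H31R, chunk TC6: the two standard spheres

`det3 (sph θ φ) (∂θ) (∂φ) = sin θ`; with `θ = π t 0`, `φ = 2 π t 1` the integrand of `JJ Wf Sw` is
`2 π^2 sin (π t 0) / (4 π)`, with integral `1`. For `JJ Af Sw` the vector `sv` is constant.
`wv (PT ..) = w`, `sv (PT ..) = s` (`PT_coord`), `dw (F t) (fderiv F t u) = fderiv (wv ∘ F) t u`.
-/

open scoped ContDiff
open Real Set MeasureTheory

namespace H31R.Tp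

theorem dot_e3 : dot e3 e3 = 1 := by
  simp [dot, e3]

theorem dot_sph (θ φ : ℝ) : dot (sph θ φ) (sph θ φ) = 1 := by
  have h1 := sin_sq_add_cos_sq θ
  have h2 := sin_sq_add_cos_sq φ
  simp only [dot, sph, Matrix.cons_val_zero, Matrix.cons_val_one, Matrix.cons_val]
  linear_combination h1 + sin θ ^ 2 * h2

/-- smoothness of `sph` -/
theorem TC6_smooth_sph {m : ℕ} {θ φ : QQ m → ℝ} (h1 : ContDiff ℝ ∞ θ) (h2 : ContDiff ℝ ∞ φ) :
    ContDiff ℝ ∞ fun t => sph (θ t) (φ t) := by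
  rw [contDiff_pi]
  intro i
  fin_cases i
  · exact h1.sin.mul h2.cos
  · exact h1.sin.mul h2.sin
  · exact h1.cos

theorem TC6_sph_zero (φ : ℝ) : sph 0 φ = e3 := by
  unfold e3
  ext i
  fin_cases i <;> simp [sph]

theorem TC6_sph_pi (φ : ℝ) : sph π φ = -e3 := by
  unfold e3
  ext i
  fin_cases i <;> simp [sph]

theorem TC6_fderiv_zero_of {E : Type} [NormedAddCommGroup E] [NormedSpace ℝ E] {F : QQ 2 → E}
    {t : QQ 2} {i : Fin 2} (hF : ContDiff ℝ ∞ F) (h : ∀ r : ℝ, F (t + r • eb i) = F t) :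
    fderiv ℝ F t (eb i) = 0 := by
  have h1 : HasDerivAt (fun r : ℝ => F (t + r • eb i)) (fderiv ℝ F t (eb i)) 0 := by
    have h2 : HasDerivAt (fun r : ℝ => t + r • (eb i : QQ 2)) (eb i) 0 := by
      have := ((hasDerivAt_id (0 : ℝ)).smul_const (eb i : QQ 2)).const_add t
      simpa using this
    have h3 : HasFDerivAt F (fderiv ℝ F t) (t + (0 : ℝ) • (eb i : QQ 2)) := by
      rw [zero_smul, add_zero]
      exact ((hF.differentiable (by simp)) t).hasFDerivAt
    exact h3.comp_hasDerivAt (0 : ℝ) h2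
  have h4 : (fun r : ℝ => F (t + r • eb i)) = fun _ => F t := funext h
  rw [h4] at h1
  exact h1.unique (hasDerivAt_const (0 : ℝ) (F t))

theorem TC6_per (θ : ℝ) (r : ℝ) : sph θ (2 * π * (r + 1)) = sph θ (2 * π * r) := by
  have h : 2 * π * (r + 1) = 2 * π * r + 2 * π := by ring
  unfold sph
  rw [h, cos_add_two_pi, sin_add_two_pi]

theorem surf_Sw : Surf Sw := by
  have hs : ContDiff ℝ ∞ Sw :=
    contDiff_PT contDiff_const contDiff_const contDiff_const
      (TC6_smooth_sph (by fun_prop) (by fun_prop)) contDiff_const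
  refine ⟨hs, fun t => PT_mem (dot_sph _ _) dot_e3, fun t => ?_, Or.inr fun t ht => ?_⟩
  · have h0 : (t + eb 1 : QQ 2) 0 = t 0 := by simp
    have h1 : (t + eb 1 : QQ 2) 1 = t 1 + 1 := by simp
    unfold Sw
    rw [h0, h1, TC6_per]
  · apply TC6_fderiv_zero_of hs
    intro r
    have h0 : (t + r • eb 1 : QQ 2) 0 = t 0 := by simp
    unfold Sw
    rw [h0]
    rcases ht with ht | ht
    · rw [ht, mul_zero, TC6_sph_zero, TC6_sph_zero]
    · rw [ht, mul_one, TC6_sph_pi, TC6_sph_pi]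

theorem surf_Ss : Surf Ss := by
  have hs : ContDiff ℝ ∞ Ss :=
    contDiff_PT contDiff_const contDiff_const contDiff_const contDiff_const
      (TC6_smooth_sph (by fun_prop) (by fun_prop))
  refine ⟨hs, fun t => PT_mem dot_e3 (dot_sph _ _), fun t => ?_, Or.inr fun t ht => ?_⟩
  · have h0 : (t + eb 1 : QQ 2) 0 = t 0 := by simp
    have h1 : (t + eb 1 : QQ 2) 1 = t 1 + 1 := by simp
    unfold Ss
    rw [h0, h1, TC6_per]
  · apply TC6_fderiv_zero_of hs
    intro r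
    have h0 : (t + r • eb 1 : QQ 2) 0 = t 0 := by simp
    unfold Ss
    rw [h0]
    rcases ht with ht | ht
    · rw [ht, mul_zero, TC6_sph_zero, TC6_sph_zero]
    · rw [ht, mul_one, TC6_sph_pi, TC6_sph_pi]

theorem JJ_Wf_eq {F : QQ 2 → EE 7} (hF : ContDiff ℝ ∞ F) (mem : ∀ t, F t ∈ OM) :
    JJ Wf F = (MM fun t => det3 (wv (F t)) (fderiv ℝ (fun t => wv (F t)) t (eb 0))
      (fderiv ℝ (fun t => wv (F t)) t (eb 1))) / (4 * π) := by
  have h : ∀ t u, fderiv ℝ (fun t => wv (F t)) t u = dw (F t) (fderiv ℝ F t u) := by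
    intro t u
    have h1 : HasFDerivAt (fun t => wv (F t)) ((fderiv ℝ wv (F t)).comp (fderiv ℝ F t)) t :=
      (((contDiffAt_wv (mem t)).differentiableAt (by simp)).hasFDerivAt).comp t
        ((hF.differentiable (by simp)) t).hasFDerivAt
    rw [h1.fderiv, ContinuousLinearMap.comp_apply, fderiv_wv (mem t)]
  unfold JJ MM
  rw [← integral_div]
  congr 1
  funext t
  rw [h, h]
  rfl

theorem JJ_Af_eq {F : QQ 2 → EE 7} (hF : ContDiff ℝ ∞ F) (mem : ∀ t, F t ∈ OM) :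
    JJ Af F = (MM fun t => det3 (sv (F t)) (fderiv ℝ (fun t => sv (F t)) t (eb 0))
      (fderiv ℝ (fun t => sv (F t)) t (eb 1))) / (4 * π) := by
  have h : ∀ t u, fderiv ℝ (fun t => sv (F t)) t u = ds (F t) (fderiv ℝ F t u) := by
    intro t u
    have h1 : HasFDerivAt (fun t => sv (F t)) ((fderiv ℝ sv (F t)).comp (fderiv ℝ F t)) t :=
      (((contDiffAt_sv (mem t)).differentiableAt (by simp)).hasFDerivAt).comp t
        ((hF.differentiable (by simp)) t).hasFDerivAt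
    rw [h1.fderiv, ContinuousLinearMap.comp_apply, fderiv_sv (mem t)]
  unfold JJ MM
  rw [← integral_div]
  congr 1
  funext t
  rw [h, h]
  rfl

/-- derivative of `sph` -/
theorem TC6_fderiv_sph (a b : ℝ) (t : QQ 2) :
    fderiv ℝ (fun t : QQ 2 => sph (a * t 0) (b * t 1)) t (eb 0) =
      ![a * cos (a * t 0) * cos (b * t 1), a * cos (a * t 0) * sin (b * t 1), -a * sin (a * t 0)] ∧
    fderiv ℝ (fun t : QQ 2 => sph (a * t 0) (b * t 1)) t (eb 1) =
      ![-b * sin (a * t 0) * sin (b * t 1), b * sin (a * t 0) * cos (b * t 1), 0] := by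
  have p0 : HasFDerivAt (fun t : QQ 2 => a * t 0)
      (a • (ContinuousLinearMap.proj 0 : QQ 2 →L[ℝ] ℝ)) t :=
    ((ContinuousLinearMap.proj (R := ℝ) (φ := fun _ : Fin 2 => ℝ) 0).hasFDerivAt).const_mul a
  have p1 : HasFDerivAt (fun t : QQ 2 => b * t 1)
      (b • (ContinuousLinearMap.proj 1 : QQ 2 →L[ℝ] ℝ)) t :=
    ((ContinuousLinearMap.proj (R := ℝ) (φ := fun _ : Fin 2 => ℝ) 1).hasFDerivAt).const_mul b
  have hd : DifferentiableAt ℝ (fun t : QQ 2 => sph (a * t 0) (b * t 1)) t :=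
    ((TC6_smooth_sph (by fun_prop) (by fun_prop)).differentiable (by simp)) t
  have hc : ∀ (i : Fin 3) (u : QQ 2), fderiv ℝ (fun t : QQ 2 => sph (a * t 0) (b * t 1)) t u i =
      fderiv ℝ (fun t : QQ 2 => sph (a * t 0) (b * t 1) i) t u := by
    intro i u
    have h1 := ((ContinuousLinearMap.proj (R := ℝ) (φ := fun _ : Fin 3 => ℝ) i).hasFDerivAt).comp t
      hd.hasFDerivAt
    have h2 := h1.fderiv
    have h3 : (fun t : QQ 2 => sph (a * t 0) (b * t 1) i) =
        (ContinuousLinearMap.proj (R := ℝ) (φ := fun _ : Fin 3 => ℝ) i) ∘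
          fun t : QQ 2 => sph (a * t 0) (b * t 1) := rfl
    rw [h3, h2]
    rfl
  have c0 : HasFDerivAt (fun t : QQ 2 => sph (a * t 0) (b * t 1) 0) _ t := (p0.sin).mul (p1.cos)
  have c1 : HasFDerivAt (fun t : QQ 2 => sph (a * t 0) (b * t 1) 1) _ t := (p0.sin).mul (p1.sin)
  have c2 : HasFDerivAt (fun t : QQ 2 => sph (a * t 0) (b * t 1) 2) _ t := p0.cos
  constructor
  · ext i
    rw [hc]
    fin_cases i
    · show fderiv ℝ (fun t : QQ 2 => sph (a * t 0) (b * t 1) 0) t (eb 0) = _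
      rw [c0.fderiv]
      simp
      ring
    · show fderiv ℝ (fun t : QQ 2 => sph (a * t 0) (b * t 1) 1) t (eb 0) = _
      rw [c1.fderiv]
      simp
      ring
    · show fderiv ℝ (fun t : QQ 2 => sph (a * t 0) (b * t 1) 2) t (eb 0) = _
      rw [c2.fderiv]
      simp
      ring
  · ext i
    rw [hc]
    fin_cases i
    · show fderiv ℝ (fun t : QQ 2 => sph (a * t 0) (b * t 1) 0) t (eb 1) = _
      rw [c0.fderiv]
      simp
      ring
    · show fderiv ℝ (fun t : QQ 2 => sph (a * t 0) (b * t 1) 1) t (eb 1) = _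
      rw [c1.fderiv]
      simp
      ring
    · show fderiv ℝ (fun t : QQ 2 => sph (a * t 0) (b * t 1) 2) t (eb 1) = _
      rw [c2.fderiv]
      simp

theorem TC6_det_sph (a b : ℝ) (t : QQ 2) :
    det3 (sph (a * t 0) (b * t 1)) (fderiv ℝ (fun t : QQ 2 => sph (a * t 0) (b * t 1)) t (eb 0))
      (fderiv ℝ (fun t : QQ 2 => sph (a * t 0) (b * t 1)) t (eb 1)) = b * (a * sin (a * t 0)) := by
  rw [(TC6_fderiv_sph a b t).1, (TC6_fderiv_sph a b t).2]
  have h1 := sin_sq_add_cos_sq (b * t 1)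
  have h2 := sin_sq_add_cos_sq (a * t 0)
  simp only [det3, dot, crs, sph, Matrix.cons_val_zero, Matrix.cons_val_one, Matrix.cons_val]
  linear_combination (a * b * sin (a * t 0)) * (sin (a * t 0) ^ 2 * h1 +
    cos (a * t 0) ^ 2 * h1 + h2)

/-- Mean of a function of the first variable. -/
theorem TC6_MM_fst {g : ℝ → ℝ} (hg : Continuous g) :
    MM (fun t : QQ 2 => g (t 0)) = ∫ x in (0 : ℝ)..1, g x := by
  unfold MM
  have h1 : Icc (0 : QQ 2) 1 = (MeasurableEquiv.finTwoArrow (α := ℝ)) ⁻¹'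
      (Icc (0 : ℝ) 1 ×ˢ Icc (0 : ℝ) 1) := by
    ext t
    simp only [Set.mem_Icc, Set.mem_preimage, Set.mem_prod, Pi.le_def, Fin.forall_fin_two]
    show ((0 : ℝ) ≤ t 0 ∧ (0 : ℝ) ≤ t 1) ∧ (t 0 ≤ 1 ∧ t 1 ≤ 1) ↔
      (0 ≤ t 0 ∧ t 0 ≤ 1) ∧ (0 ≤ t 1 ∧ t 1 ≤ 1)
    tauto
  have h2 := (volume_preserving_finTwoArrow ℝ).setIntegral_preimage_emb
    (MeasurableEquiv.measurableEmbedding _) (fun p : ℝ × ℝ => g p.1)
    (Icc (0 : ℝ) 1 ×ˢ Icc (0 : ℝ) 1)
  have h3 : ∫ t in Icc (0 : QQ 2) 1, g (t 0) =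
      ∫ p in Icc (0 : ℝ) 1 ×ˢ Icc (0 : ℝ) 1, g p.1 := by
    rw [h1]
    exact h2
  rw [h3, Measure.volume_eq_prod, setIntegral_prod]
  · simp only [setIntegral_const]
    rw [intervalIntegral.integral_of_le zero_le_one, ← integral_Icc_eq_integral_Ioc]
    congr 1
    funext x
    simp [Measure.real]
  · apply ContinuousOn.integrableOn_compact
    · exact isCompact_Icc.prod isCompact_Icc
    · exact (hg.comp continuous_fst).continuousOn

theorem TC6_int : MM (fun t : QQ 2 => 2 * π * (π * sin (π * t 0))) = 4 * π := by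
  have h := TC6_MM_fst (g := fun x => 2 * π * (π * sin (π * x))) (by fun_prop)
  rw [h]
  have h2 : ∀ x ∈ uIcc (0 : ℝ) 1, HasDerivAt (fun x => 2 * π * (-cos (π * x)))
      (2 * π * (π * sin (π * x))) x := by
    intro x _
    have h3 : HasDerivAt (fun x : ℝ => π * x) π x := by
      simpa using (hasDerivAt_id x).const_mul π
    have h4 := (h3.cos.neg).const_mul (2 * π)
    refine h4.congr_deriv ?_
    ring
  rw [intervalIntegral.integral_eq_sub_of_hasDerivAt h2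
    ((by fun_prop : Continuous fun x : ℝ => 2 * π * (π * sin (π * x))).intervalIntegrable _ _)]
  simp
  ring

theorem TC6_wv_Sw : (fun t => wv (Sw t)) = fun t : QQ 2 => sph (π * t 0) (2 * π * t 1) := by
  funext t
  exact (PT_coord (dot_sph _ _) dot_e3).2.2.2.1

theorem TC6_sv_Sw : (fun t => sv (Sw t)) = fun _ : QQ 2 => e3 := by
  funext t
  exact (PT_coord (dot_sph _ _) dot_e3).2.2.2.2

theorem TC6_wv_Ss : (fun t => wv (Ss t)) = fun _ : QQ 2 => e3 := by
  funext t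
  exact (PT_coord dot_e3 (dot_sph _ _)).2.2.2.1

theorem TC6_sv_Ss : (fun t => sv (Ss t)) = fun t : QQ 2 => sph (π * t 0) (2 * π * t 1) := by
  funext t
  exact (PT_coord dot_e3 (dot_sph _ _)).2.2.2.2

theorem JJ_Wf_Sw : JJ Wf Sw = 1 := by
  rw [JJ_Wf_eq surf_Sw.smooth surf_Sw.mem]
  have h : (fun t => det3 (wv (Sw t)) (fderiv ℝ (fun t => wv (Sw t)) t (eb 0))
      (fderiv ℝ (fun t => wv (Sw t)) t (eb 1))) =
      fun t : QQ 2 => 2 * π * (π * sin (π * t 0)) := by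
    rw [TC6_wv_Sw]
    funext t
    rw [congrFun TC6_wv_Sw t]
    exact TC6_det_sph π (2 * π) t
  rw [h, TC6_int, div_self (by positivity)]

theorem JJ_Af_Sw : JJ Af Sw = 0 := by
  rw [JJ_Af_eq surf_Sw.smooth surf_Sw.mem, TC6_sv_Sw]
  unfold MM
  simp [det3, dot, crs]

theorem JJ_Wf_Ss : JJ Wf Ss = 0 := by
  rw [JJ_Wf_eq surf_Ss.smooth surf_Ss.mem, TC6_wv_Ss]
  unfold MM
  simp [det3, dot, crs]

theorem JJ_Af_Ss : JJ Af Ss = 1 := by
  rw [JJ_Af_eq surf_Ss.smooth surf_Ss.mem]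
  have h : (fun t => det3 (sv (Ss t)) (fderiv ℝ (fun t => sv (Ss t)) t (eb 0))
      (fderiv ℝ (fun t => sv (Ss t)) t (eb 1))) =
      fun t : QQ 2 => 2 * π * (π * sin (π * t 0)) := by
    rw [TC6_sv_Ss]
    funext t
    rw [congrFun TC6_sv_Ss t]
    exact TC6_det_sph π (2 * π) t
  rw [h, TC6_int, div_self (by positivity)]

end H31R.Tp
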