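import Pool.Agent.Lib.H31R.TC4
import Pool.Agent.Lib.H31R.TC5
import Pool.Agent.Lib.H31R.TC6
import Pool.Agent.Lib.H31R.TB2

/-!
# H31R, chunk TC7: the integral of a closed form over a closed surface depends only on the degrees

By `JJ_flat`, `JJ_avg`, `invariant_form` (for `B = avg Y`) and `fderiv_flat` there are `α`, `β` with
`volume.real ann ^ 2 * JJ Y F = α' * JJ Wf F + β' * JJ Af F` for all closed surfaces `F` (`α' = 4 π α`, ...).
The values for `F = Sw`, `F = Ss` (TC6) give `α'`, `β'`.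
-/

open scoped ContDiff
open Real Set MeasureTheory

namespace H31R.Tp

theorem TC7_lin {Y : EE 7 → EE 7 → EE 7 → ℝ} (hY : CForm OM Y) :
    ∃ α β : ℝ, ∀ F : QQ 2 → EE 7, Surf F →
      volume.real ann ^ 2 * JJ Y F = α * JJ Wf F + β * JJ Af F := by
  obtain ⟨α, β, h⟩ := invariant_form (B := avg Y) (fun p hp u u' v => avg_add hY hp u u' v)
    (fun p hp c u v => avg_smul hY hp c u v) (fun p hp u v => avg_alt hY hp u v)
    (fun r r' hr hr' p hp u v => avg_inv hY hr hr' hp u v)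
  refine ⟨4 * π * α, 4 * π * β, fun F hF => ?_⟩
  rw [← JJ_flat hY hF, ← JJ_avg hY (surf_flat hF), ← JJ_comb cform_Wf cform_Af _ _ hF]
  unfold JJ MM
  congr 1
  funext t
  have hw := wv_unit (hF.mem t)
  have hs := sv_unit (hF.mem t)
  have e : flat F t = mk7 0 (wv (F t)) (sv (F t)) := by
    unfold flat PT
    rw [exp_zero, one_smul, one_smul]
  simp only [pull]
  rw [fderiv_flat hF, fderiv_flat hF, e, h _ _ _ _ _ _ hw hs (dot_wv_dw (hF.mem t) _)
    (dot_wv_dw (hF.mem t) _) (dot_sv_ds (hF.mem t) _) (dot_sv_ds (hF.mem t) _)]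
  unfold Wf Af
  have := pi_pos
  field_simp

theorem JJ_eq {Y : EE 7 → EE 7 → EE 7 → ℝ} (hY : CForm OM Y) {F : QQ 2 → EE 7} (hF : Surf F) :
    JJ Y F = JJ Wf F * JJ Y Sw + JJ Af F * JJ Y Ss := by
  obtain ⟨α, β, h⟩ := TC7_lin hY
  have h1 := h F hF
  have h2 := h Sw surf_Sw
  have h3 := h Ss surf_Ss
  rw [JJ_Wf_Sw, JJ_Af_Sw] at h2
  rw [JJ_Wf_Ss, JJ_Af_Ss] at h3
  have hV : volume.real ann ^ 2 ≠ 0 := (pow_pos vol_ann_pos 2).ne'
  apply mul_left_cancel₀ hV
  rw [h1]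
  linear_combination (-JJ Wf F) * h2 - JJ Af F * h3

end H31R.Tp
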