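import Pool.Agent.Lib.H31R.TDefs

/-!
# H31R, chunk TD1: spinors

For a unit vector `a` let `spin a ∈ C^2` be `(1 + a 2, a 0 + i a 1) / √(2 (1 + a 2))` if `a 2 /= -1`, and
`(0, 1)` if `a 2 = -1`; `link a b = conj (spin a).1 * (spin b).1 + conj (spin a).2 * (spin b).2`. Then
`link b a = conj (link a b)`, and the products around triangles do not depend on the choice of the spinors:
`link a b * link b c * link c a = (1 + a·b + b·c + c·a + i det3 a b c) / 4` or the complex conjugate (check the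
sign; the statement below allows both by a fixed sign `σ`). Proof: `(spin a) (spin a)^*` is the matrix
`(1 + a·σ)/2`, that is `(spin a).1 * conj (spin a).1 = (1 + a 2)/2`,
`(spin a).1 * conj (spin a).2 = (a 0 - i a 1)/2`, `(spin a).2 * conj (spin a).2 = (1 - a 2)/2`; the product of
the three links is a sum of products of these entries for `a`, `b`, `c` (trace of the product of the
three matrices), so the identity is polynomial.
-/

open scoped ContDiff ComplexConjugate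
open Real Set

namespace H31R.Tp

/-- The number attached to a spherical triangle. -/
noncomputable def tri (a b c : V3) : ℂ :=
  ((1 + dot a b + dot b c + dot c a : ℝ) : ℂ) + ((det3 a b c : ℝ) : ℂ) * Complex.I

theorem TD1_trace (a0 a1 a2 b0 b1 b2 c0 c1 c2 I : ℂ) (hI : I ^ 2 = -1) :
    4 * (((1 + a2) / 2) * (((1 + b2) / 2) * ((1 + c2) / 2) +
          ((b0 - I * b1) / 2) * ((c0 + I * c1) / 2)) +
        ((a0 - I * a1) / 2) * (((b0 + I * b1) / 2) * ((1 + c2) / 2) +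
          ((1 - b2) / 2) * ((c0 + I * c1) / 2)) +
        ((a0 + I * a1) / 2) * (((1 + b2) / 2) * ((c0 - I * c1) / 2) +
          ((b0 - I * b1) / 2) * ((1 - c2) / 2)) +
        ((1 - a2) / 2) * (((b0 + I * b1) / 2) * ((c0 - I * c1) / 2) +
          ((1 - b2) / 2) * ((1 - c2) / 2))) =
      1 + (a0 * b0 + a1 * b1 + a2 * b2) + (b0 * c0 + b1 * c1 + b2 * c2) +
        (c0 * a0 + c1 * a1 + c2 * a2) +
        (a0 * (b1 * c2 - b2 * c1) + a1 * (b2 * c0 - b0 * c2) + a2 * (b0 * c1 - b1 * c0)) * I := by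
  linear_combination (-(a1 * b1 + b1 * c1 + c1 * a1)) * hI

/-- A spinor of the unit vector `a`. -/
noncomputable def TD1_sp (a : V3) : ℂ × ℂ :=
  if a 2 = -1 then (0, 1) else
    ((1 + (a 2 : ℂ)) / ((√(2 * (1 + a 2)) : ℝ) : ℂ),
      ((a 0 : ℂ) + Complex.I * (a 1 : ℂ)) / ((√(2 * (1 + a 2)) : ℝ) : ℂ))

theorem TD1_sp_spec {a : V3} (ha : dot a a = 1) :
    (TD1_sp a).1 * conj (TD1_sp a).1 = (1 + (a 2 : ℂ)) / 2 ∧
      (TD1_sp a).1 * conj (TD1_sp a).2 = ((a 0 : ℂ) - Complex.I * (a 1 : ℂ)) / 2 ∧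
      (TD1_sp a).2 * conj (TD1_sp a).1 = ((a 0 : ℂ) + Complex.I * (a 1 : ℂ)) / 2 ∧
      (TD1_sp a).2 * conj (TD1_sp a).2 = (1 - (a 2 : ℂ)) / 2 := by
  have ha' : a 0 * a 0 + a 1 * a 1 + a 2 * a 2 = 1 := ha
  by_cases h : a 2 = -1
  · have e : TD1_sp a = (0, 1) := by
      unfold TD1_sp
      rw [if_pos h]
    have h0 : a 0 = 0 := by
      rw [h] at ha'
      nlinarith [mul_self_nonneg (a 0), mul_self_nonneg (a 1)]
    have h1 : a 1 = 0 := by
      rw [h] at ha'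
      nlinarith [mul_self_nonneg (a 0), mul_self_nonneg (a 1)]
    rw [e, h, h0, h1]
    refine ⟨?_, ?_, ?_, ?_⟩
    · simp
    · simp
    · simp
    · simp
  · have hc : 0 < 2 * (1 + a 2) := by
      have h1 : -1 ≤ a 2 := by nlinarith [mul_self_nonneg (a 0), mul_self_nonneg (a 1)]
      have h2 : -1 < a 2 := lt_of_le_of_ne h1 (Ne.symm h)
      linarith
    obtain ⟨r, hr, hr2, hr3⟩ : ∃ r : ℝ, 0 < r ∧ r ^ 2 = 2 * (1 + a 2) ∧ √(2 * (1 + a 2)) = r :=
      ⟨√(2 * (1 + a 2)), Real.sqrt_pos.2 hc, Real.sq_sqrt hc.le, rfl⟩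
    have e : TD1_sp a = ((1 + (a 2 : ℂ)) / (r : ℂ),
        ((a 0 : ℂ) + Complex.I * (a 1 : ℂ)) / (r : ℂ)) := by
      unfold TD1_sp
      rw [if_neg h, hr3]
    have hrC : (r : ℂ) ≠ 0 := by exact_mod_cast hr.ne'
    have hr2C : (r : ℂ) ^ 2 = 2 * (1 + (a 2 : ℂ)) := by exact_mod_cast hr2
    have haC : (a 0 : ℂ) * a 0 + a 1 * a 1 + a 2 * a 2 = 1 := by exact_mod_cast ha'
    have hI : Complex.I ^ 2 = -1 := Complex.I_sq
    have c1 : conj ((1 + (a 2 : ℂ)) / (r : ℂ)) = (1 + (a 2 : ℂ)) / (r : ℂ) := by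
      simp
    have c2 : conj (((a 0 : ℂ) + Complex.I * (a 1 : ℂ)) / (r : ℂ)) =
        ((a 0 : ℂ) - Complex.I * (a 1 : ℂ)) / (r : ℂ) := by
      simp
      ring
    rw [e]
    dsimp only
    rw [c1, c2]
    refine ⟨?_, ?_, ?_, ?_⟩
    · field_simp
      rw [hr2C]
      ring
    · field_simp
      rw [hr2C]
      ring
    · field_simp
      rw [hr2C]
      ring
    · field_simp
      rw [hr2C]
      linear_combination 2 * haC - 2 * (a 1 : ℂ) ^ 2 * hI

/-- Link variables. -/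
theorem exists_link : ∃ link : V3 → V3 → ℂ,
    (∀ a b, dot a a = 1 → dot b b = 1 → link b a = conj (link a b)) ∧
    (∀ a, dot a a = 1 → link a a = 1) ∧
    ∀ a b c, dot a a = 1 → dot b b = 1 → dot c c = 1 →
      4 * (link a b * link b c * link c a) = tri a b c := by
  refine ⟨fun a b => conj (TD1_sp a).1 * (TD1_sp b).1 + conj (TD1_sp a).2 * (TD1_sp b).2,
    fun a b _ _ => ?_, fun a ha => ?_, fun a b c ha hb hc => ?_⟩
  · simp only [map_add, map_mul, Complex.conj_conj]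
    ring
  · obtain ⟨h11, -, -, h22⟩ := TD1_sp_spec ha
    linear_combination h11 + h22
  · obtain ⟨a11, a12, a21, a22⟩ := TD1_sp_spec ha
    obtain ⟨b11, b12, b21, b22⟩ := TD1_sp_spec hb
    obtain ⟨c11, c12, c21, c22⟩ := TD1_sp_spec hc
    have key := TD1_trace (a 0 : ℂ) (a 1) (a 2) (b 0) (b 1) (b 2) (c 0) (c 1) (c 2) Complex.I
      Complex.I_sq
    rw [← a11, ← a12, ← a21, ← a22, ← b11, ← b12, ← b21, ← b22, ← c11, ← c12, ← c21, ← c22] at key
    have e : tri a b c = 1 + ((a 0 : ℂ) * b 0 + a 1 * b 1 + a 2 * b 2) +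
        ((b 0 : ℂ) * c 0 + b 1 * c 1 + b 2 * c 2) + ((c 0 : ℂ) * a 0 + c 1 * a 1 + c 2 * a 2) +
        ((a 0 : ℂ) * (b 1 * c 2 - b 2 * c 1) + a 1 * (b 2 * c 0 - b 0 * c 2) +
          a 2 * (b 0 * c 1 - b 1 * c 0)) * Complex.I := by
      unfold tri
      have hd : det3 a b c = a 0 * (b 1 * c 2 - b 2 * c 1) + a 1 * (b 2 * c 0 - b 0 * c 2) +
          a 2 * (b 0 * c 1 - b 1 * c 0) := rfl
      rw [hd]
      simp only [dot]
      push_cast
      ring
    rw [e, ← key]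
    ring

end H31R.Tp
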