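import Pool.Agent.Lib.H31R.TD1

/-!
# H31R, chunk TD2: the sum of the arguments over a closed triangulated surface

Let `c i j` (`i ≤ N`, `j` modulo `N`) be unit vectors, `c 0 j` and `c N j` independent of `j`. The product of
`tri` over all triangles `(c i j, c (i+1) j, c (i+1) (j+1))`, `(c i j, c (i+1) (j+1), c i (j+1))` is, by
`exists_link`, a product of the numbers `link a b * link b a = |link a b|^2 ≥ 0` (edges that occur
twice, with opposite orientations) and of `link (c 0 j) (c 0 (j+1)) = 1`, `link (c N j) (c N (j+1)) = 1`.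
So if no `tri` vanishes, the product is a positive real number, and the sum of the arguments is in `2 π Z`
(`Complex.arg`, `Complex.exp` of the sum).
-/

open scoped ContDiff ComplexConjugate
open Real Set

namespace H31R.Tp

theorem TD2_prod1 (h : ℕ → ℂ) (M : ℕ) : ∃ r : ℝ, 0 ≤ r ∧
    ∏ j ∈ Finset.range (M + 1), (h j * conj (h (j + 1))) = (r : ℂ) * (h 0 * conj (h (M + 1))) := by
  induction M with
  | zero => exact ⟨1, zero_le_one, by simp⟩
  | succ M ih =>
    obtain ⟨r, hr, h1⟩ := ih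
    refine ⟨r * Complex.normSq (h (M + 1)), mul_nonneg hr (Complex.normSq_nonneg _), ?_⟩
    rw [Finset.prod_range_succ, h1, Complex.ofReal_mul, Complex.normSq_eq_conj_mul_self]
    ring

theorem TD2_nn_prod {ι : Type} (s : Finset ι) (f : ι → ℂ) (h : ∀ i ∈ s, ∃ r : ℝ, 0 ≤ r ∧ f i = r) :
    ∃ r : ℝ, 0 ≤ r ∧ ∏ i ∈ s, f i = r := by
  classical
  induction s using Finset.induction_on with
  | empty => exact ⟨1, zero_le_one, by simp⟩
  | insert a s ha ih =>
    obtain ⟨r, hr, h1⟩ := ih fun i hi => h i (Finset.mem_insert_of_mem hi)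
    obtain ⟨r', hr', h2⟩ := h a (Finset.mem_insert_self _ _)
    exact ⟨r' * r, mul_nonneg hr' hr, by rw [Finset.prod_insert ha, h1, h2, Complex.ofReal_mul]⟩

theorem TD2_arg (z : ℂ) : (‖z‖ : ℂ) * Complex.exp (Complex.arg z * Complex.I) = z :=
  Complex.norm_mul_exp_arg_mul_I z

theorem sum_arg_tri {N : ℕ} (hN : 1 ≤ N) {c : ℕ → ℕ → V3} (hu : ∀ i j, dot (c i j) (c i j) = 1)
    (hp : ∀ i, c i N = c i 0) (h0 : ∀ j, c 0 j = c 0 0) (h1 : ∀ j, c N j = c N 0)
    (hne : ∀ i < N, ∀ j < N, tri (c i j) (c (i + 1) j) (c (i + 1) (j + 1)) ≠ 0 ∧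
      tri (c i j) (c (i + 1) (j + 1)) (c i (j + 1)) ≠ 0) :
    ∃ n : ℤ, ∑ i ∈ Finset.range N, ∑ j ∈ Finset.range N,
      (Complex.arg (tri (c i j) (c (i + 1) j) (c (i + 1) (j + 1))) +
        Complex.arg (tri (c i j) (c (i + 1) (j + 1)) (c i (j + 1)))) = 2 * π * n := by
  obtain ⟨link, hl1, hl2, hl3⟩ := exists_link
  obtain ⟨M, rfl⟩ : ∃ M, N = M + 1 := ⟨N - 1, by omega⟩
  set T1 : ℕ → ℕ → ℂ := fun i j => tri (c i j) (c (i + 1) j) (c (i + 1) (j + 1)) with hT1
  set T2 : ℕ → ℕ → ℂ := fun i j => tri (c i j) (c (i + 1) (j + 1)) (c i (j + 1)) with hT2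
  set H : ℕ → ℕ → ℂ := fun i j => link (c i j) (c (i + 1) j) with hH
  set V : ℕ → ℕ → ℂ := fun i j => link (c i j) (c i (j + 1)) with hV
  set D : ℕ → ℕ → ℂ := fun i j => link (c i j) (c (i + 1) (j + 1)) with hD
  have hT : ∀ i j, T1 i j * T2 i j = ((16 * Complex.normSq (D i j) : ℝ) : ℂ) *
      ((H i j * conj (H i (j + 1))) * (V (i + 1) j * conj (V i j))) := by
    intro i j
    have e1 := hl3 (c i j) (c (i + 1) j) (c (i + 1) (j + 1)) (hu _ _) (hu _ _) (hu _ _)
    have e2 := hl3 (c i j) (c (i + 1) (j + 1)) (c i (j + 1)) (hu _ _) (hu _ _) (hu _ _)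
    have e3 := hl1 (c i j) (c (i + 1) (j + 1)) (hu _ _) (hu _ _)
    have e4 := hl1 (c i (j + 1)) (c (i + 1) (j + 1)) (hu _ _) (hu _ _)
    have e5 := hl1 (c i j) (c i (j + 1)) (hu _ _) (hu _ _)
    rw [e3] at e1
    rw [e4, e5] at e2
    simp only [hT1, hT2, hH, hV, hD]
    rw [← e1, ← e2, Complex.ofReal_mul, Complex.normSq_eq_conj_mul_self]
    push_cast
    ring
  -- the product is a nonnegative real number
  have hprod : ∃ r : ℝ, 0 ≤ r ∧ ∏ i ∈ Finset.range (M + 1), ∏ j ∈ Finset.range (M + 1),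
      (T1 i j * T2 i j) = r := by
    have e : ∏ i ∈ Finset.range (M + 1), ∏ j ∈ Finset.range (M + 1), (T1 i j * T2 i j) =
        (∏ i ∈ Finset.range (M + 1), ∏ j ∈ Finset.range (M + 1),
          ((16 * Complex.normSq (D i j) : ℝ) : ℂ)) *
        ((∏ i ∈ Finset.range (M + 1), ∏ j ∈ Finset.range (M + 1), (H i j * conj (H i (j + 1)))) *
        (∏ j ∈ Finset.range (M + 1), ∏ i ∈ Finset.range (M + 1), (V (i + 1) j * conj (V i j)))) := by
      rw [Finset.prod_comm (s := Finset.range (M + 1)) (t := Finset.range (M + 1))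
        (f := fun j i => V (i + 1) j * conj (V i j))]
      simp only [← Finset.prod_mul_distrib]
      exact Finset.prod_congr rfl fun i _ => Finset.prod_congr rfl fun j _ => hT i j
    obtain ⟨r1, hr1, p1⟩ := TD2_nn_prod (Finset.range (M + 1))
      (fun i => ∏ j ∈ Finset.range (M + 1), ((16 * Complex.normSq (D i j) : ℝ) : ℂ))
      (fun i _ => TD2_nn_prod _ _ fun j _ =>
        ⟨_, mul_nonneg (by norm_num) (Complex.normSq_nonneg _), rfl⟩)
    obtain ⟨r2, hr2, p2⟩ := TD2_nn_prod (Finset.range (M + 1))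
      (fun i => ∏ j ∈ Finset.range (M + 1), (H i j * conj (H i (j + 1))))
      (fun i _ => by
        obtain ⟨r, hr, p⟩ := TD2_prod1 (H i) M
        have e : H i (M + 1) = H i 0 := by simp only [hH, hp]
        refine ⟨r * Complex.normSq (H i 0), mul_nonneg hr (Complex.normSq_nonneg _), ?_⟩
        rw [p, e, Complex.ofReal_mul, Complex.normSq_eq_conj_mul_self]
        ring)
    obtain ⟨r3, hr3, p3⟩ := TD2_nn_prod (Finset.range (M + 1))
      (fun j => ∏ i ∈ Finset.range (M + 1), (V (i + 1) j * conj (V i j)))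
      (fun j _ => by
        obtain ⟨r, hr, p⟩ := TD2_prod1 (fun i => V i j) M
        have e0 : V 0 j = 1 := by
          simp only [hV]
          rw [h0 j, h0 (j + 1)]
          exact hl2 _ (hu _ _)
        have e1 : V (M + 1) j = 1 := by
          simp only [hV]
          rw [h1 j, h1 (j + 1)]
          exact hl2 _ (hu _ _)
        refine ⟨r, hr, ?_⟩
        have p' := congrArg (starRingEnd ℂ) p
        rw [map_prod] at p'
        simp only [map_mul, Complex.conj_conj, Complex.conj_ofReal, e0, e1, map_one, mul_one] at p'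
        rw [← p']
        exact Finset.prod_congr rfl fun i _ => mul_comm _ _)
    refine ⟨r1 * (r2 * r3), mul_nonneg hr1 (mul_nonneg hr2 hr3), ?_⟩
    rw [e, p1, p2, p3]
    push_cast
    rfl
  obtain ⟨r, hr, hprod⟩ := hprod
  set S : ℝ := ∑ i ∈ Finset.range (M + 1), ∑ j ∈ Finset.range (M + 1),
    (Complex.arg (T1 i j) + Complex.arg (T2 i j)) with hS
  set ρ : ℝ := ∏ i ∈ Finset.range (M + 1), ∏ j ∈ Finset.range (M + 1), (‖T1 i j‖ * ‖T2 i j‖) with hρ
  have hρ0 : 0 < ρ := Finset.prod_pos fun i hi => Finset.prod_pos fun j hj => by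
    have := hne i (Finset.mem_range.1 hi) j (Finset.mem_range.1 hj)
    exact mul_pos (norm_pos_iff.2 this.1) (norm_pos_iff.2 this.2)
  have hexp : (ρ : ℂ) * Complex.exp (S * Complex.I) = r := by
    rw [← hprod, hρ, hS]
    push_cast
    rw [Finset.sum_mul, Complex.exp_sum, ← Finset.prod_mul_distrib]
    refine Finset.prod_congr rfl fun i _ => ?_
    rw [Finset.sum_mul, Complex.exp_sum, ← Finset.prod_mul_distrib]
    refine Finset.prod_congr rfl fun j _ => ?_
    rw [add_mul, Complex.exp_add]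
    calc (‖T1 i j‖ : ℂ) * ‖T2 i j‖ * (Complex.exp (Complex.arg (T1 i j) * Complex.I) *
          Complex.exp (Complex.arg (T2 i j) * Complex.I))
        = ((‖T1 i j‖ : ℂ) * Complex.exp (Complex.arg (T1 i j) * Complex.I)) *
          ((‖T2 i j‖ : ℂ) * Complex.exp (Complex.arg (T2 i j) * Complex.I)) := by ring
      _ = T1 i j * T2 i j := by rw [TD2_arg, TD2_arg]
  have hr2 : r = ρ := by
    have h := congrArg (fun z : ℂ => ‖z‖) hexp
    simp only [norm_mul, Complex.norm_exp_ofReal_mul_I, mul_one, Complex.norm_real,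
      Real.norm_eq_abs, abs_of_nonneg hr, abs_of_pos hρ0] at h
    exact h.symm
  have hone : Complex.exp (S * Complex.I) = 1 := by
    have hρc : (ρ : ℂ) ≠ 0 := by exact_mod_cast hρ0.ne'
    rw [hr2] at hexp
    exact mul_left_cancel₀ hρc (by rw [hexp, mul_one])
  obtain ⟨n, hn⟩ := Complex.exp_eq_one_iff.1 hone
  refine ⟨n, ?_⟩
  have h2 : (S : ℂ) * Complex.I = ((2 * π * n : ℝ) : ℂ) * Complex.I := by
    rw [hn]
    push_cast
    ring
  have h3 := mul_right_cancel₀ Complex.I_ne_zero h2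
  exact_mod_cast h3

end H31R.Tp
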