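import Pool.Agent.Lib.H31R.TD1

/-!
# H31R, chunk TD3: small triangles

Let `|b - a|, |c - a| ≤ δ` (all unit vectors), `δ ≤ 1/10`. Then `Re (tri a b c)
= 4 - (|a-b|^2 + |b-c|^2 + |c-a|^2)/2 ∈ [4 - 3 δ^2, 4]` and `Im = det3 a b c = det3 a (b-a) (c-a)`, so `|Im| ≤ δ^2`
(up to a constant), and `|arg - Im/4| ≤ C δ^4` (`Complex.arg` of a number with positive real part is
`arctan (Im/Re)`; `|arctan x - x| ≤ |x|^3`).
-/

open scoped ContDiff
open Real Set

namespace H31R.Tp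

theorem TD3_arctan (x : ℝ) : |x - Real.arctan x| ≤ |x| ^ 3 := by
  have hf : Monotone (fun x : ℝ => x - Real.arctan x) := by
    refine monotone_of_deriv_nonneg (differentiable_id.sub Real.differentiable_arctan) fun y => ?_
    have h : HasDerivAt (fun x : ℝ => x - Real.arctan x) (1 - 1 / (1 + y ^ 2)) y :=
      (hasDerivAt_id y).sub (Real.hasDerivAt_arctan y)
    rw [h.deriv]
    have h1 : 1 / (1 + y ^ 2) ≤ 1 := by
      rw [div_le_one (by positivity)]
      nlinarith [sq_nonneg y]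
    linarith
  have hg : Monotone (fun x : ℝ => x ^ 3 - (x - Real.arctan x)) := by
    refine monotone_of_deriv_nonneg ((differentiable_id.pow 3).sub
      (differentiable_id.sub Real.differentiable_arctan)) fun y => ?_
    have h : HasDerivAt (fun x : ℝ => x ^ 3 - (x - Real.arctan x))
        (3 * y ^ 2 - (1 - 1 / (1 + y ^ 2))) y := by
      have h3 : HasDerivAt (fun x : ℝ => x ^ 3) (3 * y ^ 2) y := by
        simpa using hasDerivAt_pow 3 y
      exact h3.sub ((hasDerivAt_id y).sub (Real.hasDerivAt_arctan y))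
    rw [h.deriv]
    have h1 : 1 - 1 / (1 + y ^ 2) = y ^ 2 / (1 + y ^ 2) := by
      have : (1 + y ^ 2) ≠ 0 := by positivity
      field_simp
      ring
    have h2 : y ^ 2 / (1 + y ^ 2) ≤ y ^ 2 := by
      rw [div_le_iff₀ (by positivity)]
      nlinarith [sq_nonneg y, sq_nonneg (y ^ 2)]
    rw [h1]
    nlinarith [sq_nonneg y]
  rcases le_total 0 x with hx | hx
  · have h1 := hf hx
    have h2 := hg hx
    simp at h1 h2
    rw [abs_of_nonneg hx, abs_of_nonneg (by linarith)]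
    linarith
  · have h1 := hf hx
    have h2 := hg hx
    simp at h1 h2
    rw [abs_of_nonpos hx, abs_of_nonpos (by linarith)]
    have e : (-x) ^ 3 = - x ^ 3 := by ring
    rw [e]
    linarith

theorem TD3_arg {z : ℂ} (hz : 0 < z.re) : Complex.arg z = Real.arctan (z.im / z.re) := by
  rw [← Complex.tan_arg]
  have h := (Complex.abs_arg_lt_pi_div_two_iff (z := z)).2 (Or.inl hz)
  rw [abs_lt] at h
  rw [Real.arctan_tan h.1 h.2]

theorem TD3_mul {x y a b : ℝ} (hx : |x| ≤ a) (hy : |y| ≤ b) : |x * y| ≤ a * b := by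
  rw [abs_mul]
  exact mul_le_mul hx hy (abs_nonneg _) ((abs_nonneg _).trans hx)

theorem arg_tri_bound : ∃ C : ℝ, 0 < C ∧ ∀ (a b c : V3) (δ : ℝ), dot a a = 1 → dot b b = 1 →
    dot c c = 1 → 0 ≤ δ → δ ≤ 1 / 10 → (∀ i, |b i - a i| ≤ δ) → (∀ i, |c i - a i| ≤ δ) →
    tri a b c ≠ 0 ∧ |Complex.arg (tri a b c) - det3 a b c / 4| ≤ C * δ ^ 4 := by
  refine ⟨100, by norm_num, fun a b c δ ha hb hc hδ0 hδ hab hac => ?_⟩
  have hre : (tri a b c).re = 1 + dot a b + dot b c + dot c a := by simp [tri]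
  have him : (tri a b c).im = det3 a b c := by simp [tri]
  -- bounds of the coordinates of `a`
  have ha' : ∀ i, |a i| ≤ 1 := by
    intro i
    rw [← sq_le_one_iff_abs_le_one]
    simp only [dot] at ha
    have m0 := mul_self_nonneg (a 0)
    have m1 := mul_self_nonneg (a 1)
    have m2 := mul_self_nonneg (a 2)
    fin_cases i
    · change a 0 ^ 2 ≤ 1
      rw [sq]; linarith
    · change a 1 ^ 2 ≤ 1
      rw [sq]; linarith
    · change a 2 ^ 2 ≤ 1
      rw [sq]; linarith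
  -- the imaginary part
  have him2 : |det3 a b c| ≤ 6 * δ ^ 2 := by
    have e : det3 a b c = a 0 * ((b 1 - a 1) * (c 2 - a 2)) - a 0 * ((b 2 - a 2) * (c 1 - a 1))
        + a 1 * ((b 2 - a 2) * (c 0 - a 0)) - a 1 * ((b 0 - a 0) * (c 2 - a 2))
        + a 2 * ((b 0 - a 0) * (c 1 - a 1)) - a 2 * ((b 1 - a 1) * (c 0 - a 0)) := by
      simp [det3, dot, crs]
      ring
    have hb2 : ∀ i j k, |a i * ((b j - a j) * (c k - a k))| ≤ 1 * (δ * δ) := fun i j k =>
      TD3_mul (ha' i) (TD3_mul (hab j) (hac k))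
    have t1 := abs_le.1 (hb2 0 1 2)
    have t2 := abs_le.1 (hb2 0 2 1)
    have t3 := abs_le.1 (hb2 1 2 0)
    have t4 := abs_le.1 (hb2 1 0 2)
    have t5 := abs_le.1 (hb2 2 0 1)
    have t6 := abs_le.1 (hb2 2 1 0)
    have e1 : (1:ℝ) * (δ * δ) = δ ^ 2 := by ring
    rw [e1] at t1 t2 t3 t4 t5 t6
    rw [e, abs_le]
    constructor <;> linarith [t1.1, t1.2, t2.1, t2.2, t3.1, t3.2, t4.1, t4.2, t5.1, t5.2, t6.1, t6.2]
  -- the real part
  have hsq : ∀ {x : ℝ} {r : ℝ}, |x| ≤ r → x ^ 2 ≤ r ^ 2 := fun {x r} h => by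
    rw [← sq_abs]
    exact pow_le_pow_left₀ (abs_nonneg _) h 2
  have hbc : ∀ i, |c i - b i| ≤ 2 * δ := fun i => by
    have : c i - b i = (c i - a i) - (b i - a i) := by ring
    rw [this]
    refine (abs_sub _ _).trans ?_
    have := hab i
    have := hac i
    linarith
  have hR : 1 + dot a b + dot b c + dot c a = 4 - ((b 0 - a 0) ^ 2 + (b 1 - a 1) ^ 2
      + (b 2 - a 2) ^ 2 + (c 0 - a 0) ^ 2 + (c 1 - a 1) ^ 2 + (c 2 - a 2) ^ 2 + (c 0 - b 0) ^ 2
      + (c 1 - b 1) ^ 2 + (c 2 - b 2) ^ 2) / 2 := by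
    simp only [dot] at ha hb hc ⊢
    linear_combination ha + hb + hc
  have hR1 : 4 - 9 * δ ^ 2 ≤ 1 + dot a b + dot b c + dot c a := by
    rw [hR]
    have u1 := hsq (hab 0)
    have u2 := hsq (hab 1)
    have u3 := hsq (hab 2)
    have u4 := hsq (hac 0)
    have u5 := hsq (hac 1)
    have u6 := hsq (hac 2)
    have u7 := hsq (hbc 0)
    have u8 := hsq (hbc 1)
    have u9 := hsq (hbc 2)
    have e : (2 * δ) ^ 2 = 4 * δ ^ 2 := by ring
    rw [e] at u7 u8 u9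
    linarith
  have hR2 : 1 + dot a b + dot b c + dot c a ≤ 4 := by
    rw [hR]
    have : 0 ≤ ((b 0 - a 0) ^ 2 + (b 1 - a 1) ^ 2
      + (b 2 - a 2) ^ 2 + (c 0 - a 0) ^ 2 + (c 1 - a 1) ^ 2 + (c 2 - a 2) ^ 2 + (c 0 - b 0) ^ 2
      + (c 1 - b 1) ^ 2 + (c 2 - b 2) ^ 2) / 2 := by positivity
    linarith
  have hδ2 : δ ^ 2 ≤ 1 / 100 := by
    calc δ ^ 2 ≤ (1 / 10) ^ 2 := pow_le_pow_left₀ hδ0 hδ 2
      _ = 1 / 100 := by norm_num
  have hR3 : 3 ≤ 1 + dot a b + dot b c + dot c a := by linarith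
  have hpos : 0 < (tri a b c).re := by rw [hre]; linarith
  refine ⟨fun h => by rw [h] at hpos; simp at hpos, ?_⟩
  rw [TD3_arg hpos, hre, him]
  set R := 1 + dot a b + dot b c + dot c a with hRdef
  set I := det3 a b c with hI
  have hRpos : 0 < R := by linarith
  have h1 := TD3_arctan (I / R)
  have h2 : |I / R| ≤ 2 * δ ^ 2 := by
    rw [abs_div, abs_of_pos hRpos, div_le_iff₀ hRpos]
    calc |I| ≤ 6 * δ ^ 2 := him2
      _ = 2 * δ ^ 2 * 3 := by ring
      _ ≤ 2 * δ ^ 2 * R := mul_le_mul_of_nonneg_left hR3 (by positivity)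
  have h3 : |I / R| ^ 3 ≤ 8 * δ ^ 6 := by
    calc |I / R| ^ 3 ≤ (2 * δ ^ 2) ^ 3 := pow_le_pow_left₀ (abs_nonneg _) h2 3
      _ = 8 * δ ^ 6 := by ring
  have h4 : |I / R - I / 4| ≤ 18 * δ ^ 4 := by
    have e : I / R - I / 4 = I * (4 - R) / (4 * R) := by
      field_simp
    rw [e, abs_div, abs_mul, abs_of_nonneg (by linarith : 0 ≤ 4 - R), abs_of_pos (by linarith : 0 < 4 * R),
      div_le_iff₀ (by linarith)]
    have h5 : |I| * (4 - R) ≤ 6 * δ ^ 2 * (9 * δ ^ 2) :=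
      mul_le_mul him2 (by linarith) (by linarith) (by positivity)
    have h6 : 0 ≤ δ ^ 4 := by positivity
    calc |I| * (4 - R) ≤ 6 * δ ^ 2 * (9 * δ ^ 2) := h5
      _ = 54 * δ ^ 4 := by ring
      _ ≤ 72 * δ ^ 4 * 3 := by linarith
      _ ≤ 72 * δ ^ 4 * R := mul_le_mul_of_nonneg_left hR3 (by positivity)
      _ = 18 * δ ^ 4 * (4 * R) := by ring
  have h7 : δ ^ 6 ≤ δ ^ 4 := by
    have h6 : 0 ≤ δ ^ 4 := by positivity
    calc δ ^ 6 = δ ^ 4 * δ ^ 2 := by ring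
      _ ≤ δ ^ 4 * 1 := mul_le_mul_of_nonneg_left (by linarith) h6
      _ = δ ^ 4 := mul_one _
  have h8 : Real.arctan (I / R) - I / 4 = -(I / R - Real.arctan (I / R)) + (I / R - I / 4) := by ring
  rw [h8]
  refine (abs_add_le _ _).trans ?_
  rw [abs_neg]
  have h9 : 0 ≤ δ ^ 4 := by positivity
  linarith

end H31R.Tp
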