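import Pool.Agent.Lib.H31R.TDefs

/-!
# H31R, chunk TD4: Riemann sums

`F` is smooth and periodic in `t 1`; on the compact square its derivatives are bounded. With `h = 1/N`,
`a = F (h i, h j)`, `b = F (h (i+1), h j)`, `c = F (h (i+1), h (j+1))`, `d = F (h i, h (j+1))` one has
`det3 a b c = det3 a (b - a) (c - a) = h^2 D + O(h^3)`, `D = det3 F (∂0 F) (∂1 F)` at the point `(h i, h j)`,
`det3 a c d = h^2 D + O(h^3)` (Taylor), and the Riemann sums of the continuous function `D` converge to its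
integral. So the sum of `det3 a b c + det3 a c d` tends to `2 ∫ D`.
-/

open scoped ContDiff Topology
open Real Set MeasureTheory

namespace H31R.Tp

/-- The points of the grid. -/
noncomputable def gridp (N i j : ℕ) : QQ 2 := ![(i : ℝ) / N, (j : ℝ) / N]

theorem TD4_MM {D : QQ 2 → ℝ} (hD : Continuous D) :
    MM D = ∫ x in (0 : ℝ)..1, ∫ y in (0 : ℝ)..1, D ![x, y] := by
  have h := (volume_preserving_finTwoArrow ℝ).setIntegral_preimage_emb
    (MeasurableEquiv.measurableEmbedding _) (fun z : ℝ × ℝ => D ![z.1, z.2])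
    (Icc 0 1 ×ˢ Icc 0 1)
  have e : ((MeasurableEquiv.finTwoArrow : (Fin 2 → ℝ) ≃ᵐ ℝ × ℝ) ⁻¹' (Icc 0 1 ×ˢ Icc 0 1)) =
      Icc (0 : QQ 2) 1 := by
    ext t
    simp only [mem_preimage, mem_prod, mem_Icc, Pi.le_def, Fin.forall_fin_two, Pi.zero_apply,
      Pi.one_apply]
    constructor
    · rintro ⟨⟨h1, h2⟩, h3, h4⟩
      exact ⟨⟨h1, h3⟩, h2, h4⟩
    · rintro ⟨⟨h1, h3⟩, h2, h4⟩
      exact ⟨⟨h1, h2⟩, h3, h4⟩
  rw [e] at h
  have e2 : ∀ t : QQ 2, ![((MeasurableEquiv.finTwoArrow : (Fin 2 → ℝ) ≃ᵐ ℝ × ℝ) t).1,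
      ((MeasurableEquiv.finTwoArrow : (Fin 2 → ℝ) ≃ᵐ ℝ × ℝ) t).2] = t := by
    intro t
    funext i
    fin_cases i <;> rfl
  have h1 : MM D = ∫ z in Icc (0 : ℝ) 1 ×ˢ Icc (0 : ℝ) 1, D ![z.1, z.2] := by
    rw [← h]
    unfold MM
    simp only [e2]
  have hc : Continuous fun z : ℝ × ℝ => D ![z.1, z.2] := by
    refine hD.comp (continuous_pi fun i => ?_)
    fin_cases i
    · exact continuous_fst
    · exact continuous_snd
  have hI : IntegrableOn (fun z : ℝ × ℝ => D ![z.1, z.2]) (Icc (0 : ℝ) 1 ×ˢ Icc (0 : ℝ) 1)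
      (volume.prod volume) :=
    hc.continuousOn.integrableOn_compact (isCompact_Icc.prod isCompact_Icc)
  rw [h1, Measure.volume_eq_prod, setIntegral_prod _ hI]
  rw [intervalIntegral.integral_of_le zero_le_one, integral_Icc_eq_integral_Ioc]
  refine integral_congr_ae (Filter.Eventually.of_forall fun x => ?_)
  show ∫ y in Icc (0 : ℝ) 1, D ![x, y] = ∫ y in (0 : ℝ)..1, D ![x, y]
  rw [intervalIntegral.integral_of_le zero_le_one, integral_Icc_eq_integral_Ioc]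

theorem TD4_one {g : ℝ → ℝ} (hg : Continuous g) {N : ℕ} (hN : 1 ≤ N) {v : ℕ → ℝ} {ε : ℝ}
    (h : ∀ i < N, ∀ x, (i : ℝ) / N ≤ x → x ≤ ((i : ℝ) + 1) / N → |g x - N * v i| ≤ ε) :
    |(∫ x in (0 : ℝ)..1, g x) - ∑ i ∈ Finset.range N, v i| ≤ ε := by
  have hN0 : (0 : ℝ) < N := by exact_mod_cast hN
  have h1 := intervalIntegral.sum_integral_adjacent_intervals (f := g) (μ := volume)
    (a := fun i : ℕ => (i : ℝ) / N) (n := N) (fun k _ => hg.intervalIntegrable _ _)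
  have e0 : ((0 : ℕ) : ℝ) / N = 0 := by simp
  have e1 : ((N : ℕ) : ℝ) / N = 1 := div_self hN0.ne'
  rw [e0, e1] at h1
  rw [← h1, ← Finset.sum_sub_distrib]
  have h2 : ∀ i ∈ Finset.range N,
      |(∫ x in ((i : ℕ) : ℝ) / N..((i + 1 : ℕ) : ℝ) / N, g x) - v i| ≤ ε / N := by
    intro i hi
    have hi' := Finset.mem_range.1 hi
    have hlen : ((i + 1 : ℕ) : ℝ) / N - ((i : ℕ) : ℝ) / N = 1 / N := by
      push_cast
      field_simp
      ring
    have hle : ((i : ℕ) : ℝ) / N ≤ ((i + 1 : ℕ) : ℝ) / N := by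
      have : 0 ≤ 1 / (N : ℝ) := by positivity
      linarith
    have e2 : (∫ x in ((i : ℕ) : ℝ) / N..((i + 1 : ℕ) : ℝ) / N, g x) - v i =
        ∫ x in ((i : ℕ) : ℝ) / N..((i + 1 : ℕ) : ℝ) / N, (g x - N * v i) := by
      rw [intervalIntegral.integral_sub (hg.intervalIntegrable _ _)
        (continuous_const.intervalIntegrable _ _), intervalIntegral.integral_const, hlen,
        smul_eq_mul]
      field_simp
    rw [e2]
    have h3 := intervalIntegral.norm_integral_le_of_norm_le_const (C := ε)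
      (f := fun x => g x - N * v i) (a := ((i : ℕ) : ℝ) / N) (b := ((i + 1 : ℕ) : ℝ) / N) (by
        intro x hx
        rw [uIoc_of_le hle] at hx
        rw [Real.norm_eq_abs]
        refine h i hi' x hx.1.le ?_
        have := hx.2
        push_cast at this
        exact this)
    rw [Real.norm_eq_abs, hlen, abs_of_nonneg (by positivity : (0 : ℝ) ≤ 1 / N)] at h3
    calc _ ≤ ε * (1 / N) := h3
      _ = ε / N := by ring
  calc |∑ i ∈ Finset.range N, ((∫ x in ((i : ℕ) : ℝ) / N..((i + 1 : ℕ) : ℝ) / N, g x) - v i)|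
      ≤ ∑ i ∈ Finset.range N, |(∫ x in ((i : ℕ) : ℝ) / N..((i + 1 : ℕ) : ℝ) / N, g x) - v i| :=
        Finset.abs_sum_le_sum_abs _ _
    _ ≤ ∑ _i ∈ Finset.range N, ε / N := Finset.sum_le_sum h2
    _ = ε := by
        rw [Finset.sum_const, Finset.card_range, nsmul_eq_mul]
        field_simp

theorem TD4_det (u v w : V3) : det3 u v w = u 0 * (v 1 * w 2 - v 2 * w 1) +
    u 1 * (v 2 * w 0 - v 0 * w 2) + u 2 * (v 0 * w 1 - v 1 * w 0) := rfl

theorem TD4_det_le (u v w : V3) : |det3 u v w| ≤ 6 * (‖u‖ * ‖v‖ * ‖w‖) := by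
  have hu : ∀ i, |u i| ≤ ‖u‖ := fun i => norm_le_pi_norm u i
  have hv : ∀ i, |v i| ≤ ‖v‖ := fun i => norm_le_pi_norm v i
  have hw : ∀ i, |w i| ≤ ‖w‖ := fun i => norm_le_pi_norm w i
  have h3 : ∀ i j k, |u i * v j * w k| ≤ ‖u‖ * ‖v‖ * ‖w‖ := by
    intro i j k
    rw [abs_mul, abs_mul]
    exact mul_le_mul (mul_le_mul (hu i) (hv j) (abs_nonneg _) (norm_nonneg _)) (hw k)
      (abs_nonneg _) (mul_nonneg (norm_nonneg _) (norm_nonneg _))
  rw [TD4_det, abs_le]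
  have a1 := abs_le.1 (h3 0 1 2)
  have a2 := abs_le.1 (h3 0 2 1)
  have a3 := abs_le.1 (h3 1 2 0)
  have a4 := abs_le.1 (h3 1 0 2)
  have a5 := abs_le.1 (h3 2 0 1)
  have a6 := abs_le.1 (h3 2 1 0)
  constructor
  · linarith [a1.1, a2.2, a3.1, a4.2, a5.1, a6.2]
  · linarith [a1.2, a2.1, a3.2, a4.1, a5.2, a6.1]

theorem TD4_det_sub (u v w u' v' w' : V3) : det3 u v w - det3 u' v' w' =
    det3 (u - u') v w + det3 u' (v - v') w + det3 u' v' (w - w') := by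
  simp only [TD4_det, Pi.sub_apply]
  ring

theorem TD4_det_close {u v w u' v' w' : V3} {M η : ℝ} (hM : 0 ≤ M) (h0 : 0 ≤ η) (h1 : η ≤ 1)
    (hu : ‖u - u'‖ ≤ η) (hv : ‖v - v'‖ ≤ η) (hw : ‖w - w'‖ ≤ η) (hu' : ‖u'‖ ≤ M)
    (hv' : ‖v'‖ ≤ M) (hw' : ‖w'‖ ≤ M) :
    |det3 u v w - det3 u' v' w'| ≤ 18 * (M + 1) ^ 2 * η := by
  have hv2 : ‖v‖ ≤ M + 1 := by
    calc ‖v‖ = ‖(v - v') + v'‖ := by rw [sub_add_cancel]
      _ ≤ ‖v - v'‖ + ‖v'‖ := norm_add_le _ _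
      _ ≤ M + 1 := by linarith
  have hw2 : ‖w‖ ≤ M + 1 := by
    calc ‖w‖ = ‖(w - w') + w'‖ := by rw [sub_add_cancel]
      _ ≤ ‖w - w'‖ + ‖w'‖ := norm_add_le _ _
      _ ≤ M + 1 := by linarith
  have hM1 : M ≤ M + 1 := by linarith
  have t1 : |det3 (u - u') v w| ≤ 6 * (η * (M + 1) * (M + 1)) := by
    refine (TD4_det_le _ _ _).trans ?_
    gcongr
  have t2 : |det3 u' (v - v') w| ≤ 6 * ((M + 1) * η * (M + 1)) := by
    refine (TD4_det_le _ _ _).trans ?_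
    gcongr
    exact hu'.trans hM1
  have t3 : |det3 u' v' (w - w')| ≤ 6 * ((M + 1) * (M + 1) * η) := by
    refine (TD4_det_le _ _ _).trans ?_
    gcongr
    · exact hu'.trans hM1
    · exact hv'.trans hM1
  rw [TD4_det_sub]
  calc |det3 (u - u') v w + det3 u' (v - v') w + det3 u' v' (w - w')|
      ≤ |det3 (u - u') v w| + |det3 u' (v - v') w| + |det3 u' v' (w - w')| := by
        refine (abs_add_le _ _).trans ?_
        gcongr
        exact abs_add_le _ _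
    _ ≤ _ := by nlinarith [t1, t2, t3]

theorem TD4_gridp_mem {N i j : ℕ} (hN : 1 ≤ N) (hi : i ≤ N) (hj : j ≤ N) :
    gridp N i j ∈ Icc (0 : QQ 2) 1 := by
  have hN0 : (0 : ℝ) < N := by exact_mod_cast hN
  have hi' : (i : ℝ) ≤ N := by exact_mod_cast hi
  have hj' : (j : ℝ) ≤ N := by exact_mod_cast hj
  rw [mem_Icc, Pi.le_def, Pi.le_def, Fin.forall_fin_two, Fin.forall_fin_two]
  refine ⟨⟨?_, ?_⟩, ?_, ?_⟩
  · show (0 : ℝ) ≤ (i : ℝ) / N
    positivity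
  · show (0 : ℝ) ≤ (j : ℝ) / N
    positivity
  · show (i : ℝ) / N ≤ 1
    rw [div_le_one hN0]
    exact hi'
  · show (j : ℝ) / N ≤ 1
    rw [div_le_one hN0]
    exact hj'

theorem TD4_diff {N i j : ℕ} (hN : 1 ≤ N) :
    gridp N (i + 1) j - gridp N i j = (1 / (N : ℝ)) • eb 0 ∧
      gridp N (i + 1) (j + 1) - gridp N i j = (1 / (N : ℝ)) • (eb 0 + eb 1) ∧
      gridp N i (j + 1) - gridp N i j = (1 / (N : ℝ)) • eb 1 := by
  have hN0 : (0 : ℝ) < N := by exact_mod_cast hN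
  have a1 : (((i + 1 : ℕ) : ℝ) / N) - (i : ℝ) / N = 1 / N := by
    push_cast
    field_simp
    ring
  have a2 : (((j + 1 : ℕ) : ℝ) / N) - (j : ℝ) / N = 1 / N := by
    push_cast
    field_simp
    ring
  refine ⟨?_, ?_, ?_⟩
  · funext m
    fin_cases m
    · show (((i + 1 : ℕ) : ℝ) / N) - (i : ℝ) / N = (1 / N) * (eb (m := 2) 0) 0
      rw [a1]
      simp [eb]
    · show (j : ℝ) / N - (j : ℝ) / N = (1 / N) * (eb (m := 2) 0) 1
      simp [eb]
  · funext m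
    fin_cases m
    · show (((i + 1 : ℕ) : ℝ) / N) - (i : ℝ) / N = (1 / N) * ((eb (m := 2) 0) 0 + (eb (m := 2) 1) 0)
      rw [a1]
      simp [eb]
    · show (((j + 1 : ℕ) : ℝ) / N) - (j : ℝ) / N = (1 / N) * ((eb (m := 2) 0) 1 + (eb (m := 2) 1) 1)
      rw [a2]
      simp [eb]
  · funext m
    fin_cases m
    · show (i : ℝ) / N - (i : ℝ) / N = (1 / N) * (eb (m := 2) 1) 0
      simp [eb]
    · show (((j + 1 : ℕ) : ℝ) / N) - (j : ℝ) / N = (1 / N) * (eb (m := 2) 1) 1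
      rw [a2]
      simp [eb]

theorem TD4_eb_norm : ‖(eb 0 : QQ 2)‖ ≤ 1 ∧ ‖(eb 1 : QQ 2)‖ ≤ 1 ∧ ‖(eb 0 + eb 1 : QQ 2)‖ ≤ 1 := by
  refine ⟨?_, ?_, ?_⟩
  · refine (pi_norm_le_iff_of_nonneg zero_le_one).2 fun m => ?_
    fin_cases m <;> simp [eb]
  · refine (pi_norm_le_iff_of_nonneg zero_le_one).2 fun m => ?_
    fin_cases m <;> simp [eb]
  · refine (pi_norm_le_iff_of_nonneg zero_le_one).2 fun m => ?_
    fin_cases m <;> simp [eb]

theorem TD4_bound {F : QQ 2 → V3} (hF : ContDiff ℝ ∞ F) : ∃ M : ℝ, 0 < M ∧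
    ∀ t ∈ Icc (0 : QQ 2) 1, ‖F t‖ ≤ M ∧ ‖fderiv ℝ F t‖ ≤ M := by
  have hc : Continuous (fderiv ℝ F) := hF.continuous_fderiv (by simp)
  obtain ⟨M1, h1⟩ := (isCompact_Icc (a := (0 : QQ 2)) (b := 1)).exists_bound_of_continuousOn
    hF.continuous.continuousOn
  obtain ⟨M2, h2⟩ := (isCompact_Icc (a := (0 : QQ 2)) (b := 1)).exists_bound_of_continuousOn
    hc.continuousOn
  refine ⟨|M1| + |M2| + 1, by positivity, fun t ht => ⟨?_, ?_⟩⟩
  · have := h1 t ht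
    have h3 := le_abs_self M1
    have h4 := abs_nonneg M2
    linarith
  · have := h2 t ht
    have h3 := le_abs_self M2
    have h4 := abs_nonneg M1
    linarith

theorem grid_close {F : QQ 2 → V3} (hF : ContDiff ℝ ∞ F) : ∃ C : ℝ, 0 < C ∧ ∀ N : ℕ, 1 ≤ N →
    ∀ i < N, ∀ j < N, ∀ m, |F (gridp N (i + 1) j) m - F (gridp N i j) m| ≤ C / N ∧
      |F (gridp N (i + 1) (j + 1)) m - F (gridp N i j) m| ≤ C / N ∧
      |F (gridp N i (j + 1)) m - F (gridp N i j) m| ≤ C / N := by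
  obtain ⟨M, hM, hb⟩ := TD4_bound hF
  refine ⟨M, hM, fun N hN i hi j hj m => ?_⟩
  have hN0 : (0 : ℝ) < N := by exact_mod_cast hN
  have key : ∀ p ∈ Icc (0 : QQ 2) 1, ∀ q ∈ Icc (0 : QQ 2) 1, ∀ e : QQ 2, ‖e‖ ≤ 1 →
      q - p = (1 / (N : ℝ)) • e → |F q m - F p m| ≤ M / N := by
    intro p hp q hq e he hqp
    have h1 := (convex_Icc (0 : QQ 2) 1).norm_image_sub_le_of_norm_fderiv_le (𝕜 := ℝ)
      (fun x _ => (hF.differentiable (by simp)) x) (fun x hx => (hb x hx).2) hp hq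
    have h2 : ‖q - p‖ ≤ 1 / N := by
      rw [hqp, norm_smul, Real.norm_eq_abs, abs_of_nonneg (by positivity : (0 : ℝ) ≤ 1 / N)]
      calc 1 / (N : ℝ) * ‖e‖ ≤ 1 / (N : ℝ) * 1 := by gcongr
        _ = _ := mul_one _
    calc |F q m - F p m| = ‖(F q - F p) m‖ := rfl
      _ ≤ ‖F q - F p‖ := norm_le_pi_norm _ m
      _ ≤ M * ‖q - p‖ := h1
      _ ≤ M * (1 / N) := by gcongr
      _ = M / N := by ring
  obtain ⟨d1, d2, d3⟩ := TD4_diff (i := i) (j := j) hN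
  obtain ⟨n1, n2, n3⟩ := TD4_eb_norm
  have hp := TD4_gridp_mem hN hi.le hj.le
  exact ⟨key _ hp _ (TD4_gridp_mem hN hi hj.le) _ n1 d1,
    key _ hp _ (TD4_gridp_mem hN hi hj) _ n3 d2, key _ hp _ (TD4_gridp_mem hN hi.le hj) _ n2 d3⟩

theorem TD4_cell {F : QQ 2 → V3} (hF : ContDiff ℝ ∞ F) {ε : ℝ} (hε : 0 < ε) :
    ∃ N0 : ℕ, ∀ N ≥ N0, 1 ≤ N → ∀ i < N, ∀ j < N, ∀ t : QQ 2,
      (i : ℝ) / N ≤ t 0 → t 0 ≤ ((i : ℝ) + 1) / N → (j : ℝ) / N ≤ t 1 →
      t 1 ≤ ((j : ℝ) + 1) / N →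
      |2 * det3 (F t) (fderiv ℝ F t (eb 0)) (fderiv ℝ F t (eb 1)) - N * (N *
        (det3 (F (gridp N i j)) (F (gridp N (i + 1) j)) (F (gridp N (i + 1) (j + 1))) +
        det3 (F (gridp N i j)) (F (gridp N (i + 1) (j + 1))) (F (gridp N i (j + 1)))))| ≤ ε := by
  obtain ⟨M, hM, hb⟩ := TD4_bound hF
  have hc : Continuous (fderiv ℝ F) := hF.continuous_fderiv (by simp)
  obtain ⟨η, hη0, hη1, hη⟩ : ∃ η : ℝ, 0 < η ∧ η ≤ 1 ∧ 2 * (18 * (M + 1) ^ 2 * η) ≤ ε := by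
    refine ⟨min 1 (ε / (36 * (M + 1) ^ 2)), by positivity, min_le_left _ _, ?_⟩
    have h1 : min 1 (ε / (36 * (M + 1) ^ 2)) ≤ ε / (36 * (M + 1) ^ 2) := min_le_right _ _
    calc 2 * (18 * (M + 1) ^ 2 * min 1 (ε / (36 * (M + 1) ^ 2))) =
        36 * (M + 1) ^ 2 * min 1 (ε / (36 * (M + 1) ^ 2)) := by ring
      _ ≤ 36 * (M + 1) ^ 2 * (ε / (36 * (M + 1) ^ 2)) := by gcongr
      _ = ε := by field_simp
  obtain ⟨δ1, hδ1, u1⟩ := Metric.uniformContinuousOn_iff.1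
    ((isCompact_Icc (a := (0 : QQ 2)) (b := 1)).uniformContinuousOn_of_continuous
      hF.continuous.continuousOn) η hη0
  obtain ⟨δ2, hδ2, u2⟩ := Metric.uniformContinuousOn_iff.1
    ((isCompact_Icc (a := (0 : QQ 2)) (b := 1)).uniformContinuousOn_of_continuous
      hc.continuousOn) η hη0
  obtain ⟨N0, hN0⟩ := exists_nat_gt (1 / min δ1 δ2)
  refine ⟨N0, fun N hNN hN i hi j hj t t1 t2 t3 t4 => ?_⟩
  have hNp : (0 : ℝ) < N := by exact_mod_cast hN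
  have hδ : 0 < min δ1 δ2 := lt_min hδ1 hδ2
  have hNδ : 1 / (N : ℝ) < min δ1 δ2 := by
    have h1 : (N0 : ℝ) ≤ N := by exact_mod_cast hNN
    rw [div_lt_iff₀ hNp]
    rw [div_lt_iff₀ hδ] at hN0
    nlinarith
  -- the cell
  have hp := TD4_gridp_mem hN hi.le hj.le
  have hp' := TD4_gridp_mem hN hi hj
  have hQ : Icc (gridp N i j) (gridp N (i + 1) (j + 1)) ⊆ Icc (0 : QQ 2) 1 := by
    intro x hx
    exact ⟨hp.1.trans hx.1, hx.2.trans hp'.2⟩
  have ei : ((i + 1 : ℕ) : ℝ) / N = (i : ℝ) / N + 1 / N := by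
    push_cast
    ring
  have ej : ((j + 1 : ℕ) : ℝ) / N = (j : ℝ) / N + 1 / N := by
    push_cast
    ring
  have hmem : ∀ x : QQ 2, x ∈ Icc (gridp N i j) (gridp N (i + 1) (j + 1)) ↔
      ((i : ℝ) / N ≤ x 0 ∧ x 0 ≤ (i : ℝ) / N + 1 / N) ∧ (j : ℝ) / N ≤ x 1 ∧
        x 1 ≤ (j : ℝ) / N + 1 / N := by
    intro x
    rw [mem_Icc, Pi.le_def, Pi.le_def, Fin.forall_fin_two, Fin.forall_fin_two]
    show ((i : ℝ) / N ≤ x 0 ∧ (j : ℝ) / N ≤ x 1) ∧ (x 0 ≤ ((i + 1 : ℕ) : ℝ) / N ∧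
      x 1 ≤ ((j + 1 : ℕ) : ℝ) / N) ↔ _
    rw [ei, ej]
    tauto
  have hinv0 : 0 ≤ 1 / (N : ℝ) := by positivity
  have hdist : ∀ x ∈ Icc (gridp N i j) (gridp N (i + 1) (j + 1)),
      ∀ y ∈ Icc (gridp N i j) (gridp N (i + 1) (j + 1)), dist x y ≤ 1 / N := by
    intro x hx y hy
    rw [hmem] at hx hy
    refine (dist_pi_le_iff hinv0).2 fun m => ?_
    rw [Real.dist_eq]
    fin_cases m
    · show |x 0 - y 0| ≤ _
      rw [abs_le]
      constructor <;> linarith [hx.1.1, hx.1.2, hy.1.1, hy.1.2]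
    · show |x 1 - y 1| ≤ _
      rw [abs_le]
      constructor <;> linarith [hx.2.1, hx.2.2, hy.2.1, hy.2.2]
  have hle0 : (i : ℝ) / N + 1 / N = ((i : ℝ) + 1) / N := by ring
  have hle1 : (j : ℝ) / N + 1 / N = ((j : ℝ) + 1) / N := by ring
  have ht : t ∈ Icc (gridp N i j) (gridp N (i + 1) (j + 1)) := by
    rw [hmem, hle0, hle1]
    exact ⟨⟨t1, t2⟩, t3, t4⟩
  have m00 : gridp N i j ∈ Icc (gridp N i j) (gridp N (i + 1) (j + 1)) := by
    rw [hmem]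
    refine ⟨⟨le_rfl, ?_⟩, le_rfl, ?_⟩
    · show (i : ℝ) / N ≤ _
      linarith
    · show (j : ℝ) / N ≤ _
      linarith
  have m10 : gridp N (i + 1) j ∈ Icc (gridp N i j) (gridp N (i + 1) (j + 1)) := by
    rw [hmem]
    refine ⟨⟨?_, ?_⟩, le_rfl, ?_⟩
    · show _ ≤ ((i + 1 : ℕ) : ℝ) / N
      rw [ei]; linarith
    · show ((i + 1 : ℕ) : ℝ) / N ≤ _
      rw [ei]
    · show (j : ℝ) / N ≤ _
      linarith
  have m01 : gridp N i (j + 1) ∈ Icc (gridp N i j) (gridp N (i + 1) (j + 1)) := by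
    rw [hmem]
    refine ⟨⟨le_rfl, ?_⟩, ?_, ?_⟩
    · show (i : ℝ) / N ≤ _
      linarith
    · show _ ≤ ((j + 1 : ℕ) : ℝ) / N
      rw [ej]; linarith
    · show ((j + 1 : ℕ) : ℝ) / N ≤ _
      rw [ej]
  have m11 : gridp N (i + 1) (j + 1) ∈ Icc (gridp N i j) (gridp N (i + 1) (j + 1)) := by
    rw [hmem]
    refine ⟨⟨?_, ?_⟩, ?_, ?_⟩
    · show _ ≤ ((i + 1 : ℕ) : ℝ) / N
      rw [ei]; linarith
    · show ((i + 1 : ℕ) : ℝ) / N ≤ _
      rw [ei]
    · show _ ≤ ((j + 1 : ℕ) : ℝ) / N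
      rw [ej]; linarith
    · show ((j + 1 : ℕ) : ℝ) / N ≤ _
      rw [ej]
  -- the derivative
  have hder : ∀ q ∈ Icc (gridp N i j) (gridp N (i + 1) (j + 1)), ∀ e : QQ 2, ‖e‖ ≤ 1 →
      q - gridp N i j = (1 / (N : ℝ)) • e →
      ‖(N : ℝ) • (F q - F (gridp N i j)) - fderiv ℝ F t e‖ ≤ η := by
    intro q hq e he hqe
    have h1 := (convex_Icc (gridp N i j) (gridp N (i + 1) (j + 1))).norm_image_sub_le_of_norm_fderiv_le'
      (𝕜 := ℝ) (f := F) (φ := fderiv ℝ F t) (C := η)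
      (fun x _ => (hF.differentiable (by simp)) x) (fun x hx => by
        have h2 := u2 x (hQ hx) t (hQ ht)
          (lt_of_le_of_lt (hdist x hx t ht) (hNδ.trans_le (min_le_right _ _)))
        rw [dist_eq_norm] at h2
        exact h2.le) m00 hq
    have h3 : (N : ℝ) • (F q - F (gridp N i j)) - fderiv ℝ F t e =
        (N : ℝ) • (F q - F (gridp N i j) - fderiv ℝ F t (q - gridp N i j)) := by
      rw [hqe, map_smul, smul_sub (N : ℝ) (F q - F (gridp N i j)), smul_smul]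
      rw [mul_one_div_cancel hNp.ne', one_smul]
    rw [h3, norm_smul, Real.norm_eq_abs, abs_of_pos hNp]
    have h4 : ‖q - gridp N i j‖ ≤ 1 / N := by
      have := hdist q hq _ m00
      rwa [dist_eq_norm] at this
    calc (N : ℝ) * ‖F q - F (gridp N i j) - fderiv ℝ F t (q - gridp N i j)‖
        ≤ N * (η * ‖q - gridp N i j‖) := by gcongr
      _ ≤ N * (η * (1 / N)) := by gcongr
      _ = η := by field_simp
  have h0 : ‖F (gridp N i j) - F t‖ ≤ η := by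
    have h2 := u1 _ (hQ m00) t (hQ ht)
      (lt_of_le_of_lt (hdist _ m00 t ht) (hNδ.trans_le (min_le_left _ _)))
    rw [dist_eq_norm] at h2
    exact h2.le
  obtain ⟨d1, d2, d3⟩ := TD4_diff (i := i) (j := j) hN
  obtain ⟨n1, n2, n3⟩ := TD4_eb_norm
  have k1 := hder _ m10 _ n1 d1
  have k2 := hder _ m11 _ n3 d2
  have k3 := hder _ m01 _ n2 d3
  have hMt := hb t (hQ ht)
  have hn : ∀ e : QQ 2, ‖e‖ ≤ 1 → ‖fderiv ℝ F t e‖ ≤ M := by
    intro e he
    calc ‖fderiv ℝ F t e‖ ≤ ‖fderiv ℝ F t‖ * ‖e‖ := (fderiv ℝ F t).le_opNorm e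
      _ ≤ M * 1 := by
          gcongr
          exact hMt.2
      _ = M := mul_one M
  have A := TD4_det_close hM.le hη0.le hη1 h0 k1 k2 hMt.1 (hn _ n1) (hn _ n3)
  have B := TD4_det_close hM.le hη0.le hη1 h0 k2 k3 hMt.1 (hn _ n3) (hn _ n2)
  have eA : det3 (F (gridp N i j)) ((N : ℝ) • (F (gridp N (i + 1) j) - F (gridp N i j)))
      ((N : ℝ) • (F (gridp N (i + 1) (j + 1)) - F (gridp N i j))) =
      N * (N * det3 (F (gridp N i j)) (F (gridp N (i + 1) j)) (F (gridp N (i + 1) (j + 1)))) := by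
    simp only [TD4_det, Pi.smul_apply, Pi.sub_apply, smul_eq_mul]
    ring
  have eB : det3 (F (gridp N i j)) ((N : ℝ) • (F (gridp N (i + 1) (j + 1)) - F (gridp N i j)))
      ((N : ℝ) • (F (gridp N i (j + 1)) - F (gridp N i j))) =
      N * (N * det3 (F (gridp N i j)) (F (gridp N (i + 1) (j + 1))) (F (gridp N i (j + 1)))) := by
    simp only [TD4_det, Pi.smul_apply, Pi.sub_apply, smul_eq_mul]
    ring
  have eA' : det3 (F t) (fderiv ℝ F t (eb 0)) (fderiv ℝ F t (eb 0 + eb 1)) =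
      det3 (F t) (fderiv ℝ F t (eb 0)) (fderiv ℝ F t (eb 1)) := by
    rw [map_add]
    simp only [TD4_det, Pi.add_apply]
    ring
  have eB' : det3 (F t) (fderiv ℝ F t (eb 0 + eb 1)) (fderiv ℝ F t (eb 1)) =
      det3 (F t) (fderiv ℝ F t (eb 0)) (fderiv ℝ F t (eb 1)) := by
    rw [map_add]
    simp only [TD4_det, Pi.add_apply]
    ring
  rw [eA, eA'] at A
  rw [eB, eB'] at B
  rw [mul_add, mul_add]
  generalize det3 (F t) (fderiv ℝ F t (eb 0)) (fderiv ℝ F t (eb 1)) = P at A B ⊢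
  generalize (N : ℝ) * (N * det3 (F (gridp N i j)) (F (gridp N (i + 1) j))
    (F (gridp N (i + 1) (j + 1)))) = X at A ⊢
  generalize (N : ℝ) * (N * det3 (F (gridp N i j)) (F (gridp N (i + 1) (j + 1)))
    (F (gridp N i (j + 1)))) = Y at B ⊢
  generalize 18 * (M + 1) ^ 2 * η = E at A B hη
  rw [abs_le] at A B ⊢
  constructor
  · linarith [A.1, A.2, B.1, B.2]
  · linarith [A.1, A.2, B.1, B.2]

theorem TD4_cont {X : Type} [TopologicalSpace X] {u v w : X → V3} (hu : Continuous u)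
    (hv : Continuous v) (hw : Continuous w) : Continuous fun x => det3 (u x) (v x) (w x) := by
  have hu' : ∀ m, Continuous fun x => u x m := fun m => (continuous_apply m).comp hu
  have hv' : ∀ m, Continuous fun x => v x m := fun m => (continuous_apply m).comp hv
  have hw' : ∀ m, Continuous fun x => w x m := fun m => (continuous_apply m).comp hw
  simp only [TD4_det]
  exact (((hu' 0).mul (((hv' 1).mul (hw' 2)).sub ((hv' 2).mul (hw' 1)))).add
    ((hu' 1).mul (((hv' 2).mul (hw' 0)).sub ((hv' 0).mul (hw' 2))))).add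
    ((hu' 2).mul (((hv' 0).mul (hw' 1)).sub ((hv' 1).mul (hw' 0))))

theorem grid_sum {F : QQ 2 → V3} (hF : ContDiff ℝ ∞ F) :
    Filter.Tendsto (fun N : ℕ => ∑ i ∈ Finset.range N, ∑ j ∈ Finset.range N,
      (det3 (F (gridp N i j)) (F (gridp N (i + 1) j)) (F (gridp N (i + 1) (j + 1))) +
        det3 (F (gridp N i j)) (F (gridp N (i + 1) (j + 1))) (F (gridp N i (j + 1)))))
      Filter.atTop (𝓝 (2 * MM fun t => det3 (F t) (fderiv ℝ F t (eb 0)) (fderiv ℝ F t (eb 1)))) := by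
  have hc : Continuous (fderiv ℝ F) := hF.continuous_fderiv (by simp)
  have hD : Continuous fun t : QQ 2 =>
      2 * det3 (F t) (fderiv ℝ F t (eb 0)) (fderiv ℝ F t (eb 1)) := by
    exact continuous_const.mul (TD4_cont hF.continuous (hc.clm_apply continuous_const)
      (hc.clm_apply continuous_const))
  have hMM : 2 * MM (fun t => det3 (F t) (fderiv ℝ F t (eb 0)) (fderiv ℝ F t (eb 1))) =
      MM (fun t => 2 * det3 (F t) (fderiv ℝ F t (eb 0)) (fderiv ℝ F t (eb 1))) := by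
    unfold MM
    rw [integral_const_mul]
  rw [hMM, TD4_MM hD]
  rw [Metric.tendsto_atTop]
  intro ε hε
  obtain ⟨N0, h0⟩ := TD4_cell hF (half_pos hε)
  refine ⟨max N0 1, fun N hN => ?_⟩
  have hN0 : N0 ≤ N := (le_max_left _ _).trans hN
  have hN1 : 1 ≤ N := (le_max_right _ _).trans hN
  rw [Real.dist_eq, abs_sub_comm]
  refine lt_of_le_of_lt ?_ (half_lt_self hε)
  have hcx : ∀ x : ℝ, Continuous fun y : ℝ =>
      2 * det3 (F ![x, y]) (fderiv ℝ F ![x, y] (eb 0)) (fderiv ℝ F ![x, y] (eb 1)) := by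
    intro x
    refine hD.comp (continuous_pi fun i => ?_)
    fin_cases i
    · exact continuous_const
    · exact continuous_id
  have hcxy : Continuous (Function.uncurry fun x y : ℝ =>
      2 * det3 (F ![x, y]) (fderiv ℝ F ![x, y] (eb 0)) (fderiv ℝ F ![x, y] (eb 1))) := by
    refine hD.comp (continuous_pi fun i => ?_)
    fin_cases i
    · exact continuous_fst
    · exact continuous_snd
  refine TD4_one (intervalIntegral.continuous_parametric_intervalIntegral_of_continuous' hcxy 0 1)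
    hN1 fun i hi x hx1 hx2 => ?_
  rw [Finset.mul_sum]
  exact TD4_one (hcx x) hN1 fun j hj y hy1 hy2 => h0 N hN0 hN1 i hi j hj ![x, y] hx1 hx2 hy1 hy2

end H31R.Tp
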