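import Pool.Agent.Lib.H31R.TD2
import Pool.Agent.Lib.H31R.TD3
import Pool.Agent.Lib.H31R.TD4
import Pool.Agent.Lib.H31R.TC6

/-!
# H31R, chunk TD5: the degree of a sphere is an integer

`F` is constant on the edges `t 0 = 0`, `t 0 = 1` (its derivative in the direction `eb 1` vanishes there).
For large `N` all triangles are small, the sum of the arguments is in `2 π Z` (`sum_arg_tri`) and differs from
the sum of the `det3 / 4` by at most `2 N^2 * C (C'/N)^4 → 0`; so `(1/2) ∫ det3` is a limit of elements of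
`2 π Z` (a closed set), so it belongs to `2 π Z`.
-/

open scoped ContDiff
open Real Set MeasureTheory

namespace H31R.Tp

theorem TD5_const {F : QQ 2 → V3} (hF : ContDiff ℝ ∞ F) (x : ℝ)
    (cl : ∀ s : ℝ, fderiv ℝ F ![x, s] (eb 1) = 0) (s : ℝ) : F ![x, s] = F ![x, 0] := by
  have hd : Differentiable ℝ F := hF.differentiable (by simp)
  have hg : ∀ s : ℝ, HasDerivAt (fun s : ℝ => F ![x, s]) 0 s := by
    intro s
    have h1 : HasDerivAt (fun s : ℝ => (![x, s] : QQ 2)) (eb 1) s := by
      rw [hasDerivAt_pi]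
      intro i
      fin_cases i
      · simpa [eb] using hasDerivAt_const s x
      · simpa [eb] using hasDerivAt_id' s
    have h2 := (hd ![x, s]).hasFDerivAt.comp_hasDerivAt s h1
    rw [cl s] at h2
    exact h2
  have hdiff : Differentiable ℝ (fun s : ℝ => F ![x, s]) := fun s => (hg s).differentiableAt
  exact is_const_of_deriv_eq_zero hdiff (fun s => (hg s).deriv) s 0

theorem TD5_lim (n : ℕ → ℤ) {x : ℝ} (h : Filter.Tendsto (fun k => (n k : ℝ)) Filter.atTop (nhds x)) :
    ∃ m : ℤ, x = m := by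
  have hc : IsClosed (Set.range ((↑) : ℤ → ℝ)) := Int.isClosedEmbedding_coe_real.isClosed_range
  obtain ⟨m, hm⟩ := hc.mem_of_tendsto h (Filter.Eventually.of_forall fun k => ⟨n k, rfl⟩)
  exact ⟨m, hm.symm⟩

theorem degree_int {F : QQ 2 → V3} (hF : ContDiff ℝ ∞ F) (hu : ∀ t, dot (F t) (F t) = 1)
    (per : ∀ t, F (t + eb 1) = F t) (cl : ∀ t, t 0 = 0 ∨ t 0 = 1 → fderiv ℝ F t (eb 1) = 0) :
    ∃ n : ℤ, MM (fun t => det3 (F t) (fderiv ℝ F t (eb 0)) (fderiv ℝ F t (eb 1))) = 4 * π * n := by
  obtain ⟨C1, hC1, hclose⟩ := grid_close hF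
  obtain ⟨C2, hC2, htri⟩ := arg_tri_bound
  have hsum := grid_sum hF
  set I : ℝ := MM (fun t => det3 (F t) (fderiv ℝ F t (eb 0)) (fderiv ℝ F t (eb 1))) with hI
  obtain ⟨N0, hN0⟩ := exists_nat_ge (10 * C1)
  -- for `N ≥ N0 + 1` all the triangles are small
  have key : ∀ N : ℕ, N0 + 1 ≤ N → ∃ n : ℤ, |2 * π * n - (∑ i ∈ Finset.range N, ∑ j ∈ Finset.range N,
      (det3 (F (gridp N i j)) (F (gridp N (i + 1) j)) (F (gridp N (i + 1) (j + 1))) +
        det3 (F (gridp N i j)) (F (gridp N (i + 1) (j + 1))) (F (gridp N i (j + 1))))) / 4| ≤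
      2 * C2 * C1 ^ 4 / (N : ℝ) ^ 2 := by
    intro N hN
    have hN1 : 1 ≤ N := by omega
    have hNpos : (0:ℝ) < N := by exact_mod_cast hN1
    have hNN : (N0 : ℝ) ≤ N := by exact_mod_cast (by omega : N0 ≤ N)
    have hδ0 : 0 ≤ C1 / N := by positivity
    have hδ : C1 / N ≤ 1 / 10 := by
      rw [div_le_iff₀ hNpos]
      linarith
    have hb : ∀ i < N, ∀ j < N, _ := fun i hi j hj =>
      htri (F (gridp N i j)) (F (gridp N (i + 1) j)) (F (gridp N (i + 1) (j + 1))) (C1 / N)
        (hu _) (hu _) (hu _) hδ0 hδ (fun m => (hclose N hN1 i hi j hj m).1)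
        (fun m => (hclose N hN1 i hi j hj m).2.1)
    have hb' : ∀ i < N, ∀ j < N, _ := fun i hi j hj =>
      htri (F (gridp N i j)) (F (gridp N (i + 1) (j + 1))) (F (gridp N i (j + 1))) (C1 / N)
        (hu _) (hu _) (hu _) hδ0 hδ (fun m => (hclose N hN1 i hi j hj m).2.1)
        (fun m => (hclose N hN1 i hi j hj m).2.2)
    have hNN' : ((N : ℝ)) / N = 1 := div_self hNpos.ne'
    obtain ⟨n, hn⟩ := sum_arg_tri hN1 (c := fun i j => F (gridp N i j)) (fun i j => hu _)
      (fun i => by
        have e : gridp N i N = gridp N i 0 + eb 1 := by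
          funext m
          fin_cases m
          · simp [gridp, eb]
          · simp [gridp, eb, hNN']
        change F (gridp N i N) = F (gridp N i 0)
        rw [e, per])
      (fun j => by
        change F (gridp N 0 j) = F (gridp N 0 0)
        have e1 : gridp N 0 j = ![0, (j : ℝ) / N] := by simp [gridp]
        have e2 : gridp N 0 0 = ![0, 0] := by simp [gridp]
        rw [e1, e2]
        exact TD5_const hF 0 (fun s => cl _ (Or.inl rfl)) _)
      (fun j => by
        change F (gridp N N j) = F (gridp N N 0)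
        have e1 : gridp N N j = ![1, (j : ℝ) / N] := by simp [gridp, hNN']
        have e2 : gridp N N 0 = ![1, 0] := by simp [gridp, hNN']
        rw [e1, e2]
        exact TD5_const hF 1 (fun s => cl _ (Or.inr rfl)) _)
      (fun i hi j hj => ⟨(hb i hi j hj).1, (hb' i hi j hj).1⟩)
    refine ⟨n, ?_⟩
    rw [← hn, Finset.sum_div, ← Finset.sum_sub_distrib]
    refine (Finset.abs_sum_le_sum_abs _ _).trans ?_
    have hbd : ∀ i ∈ Finset.range N, |(∑ j ∈ Finset.range N,
        (Complex.arg (tri (F (gridp N i j)) (F (gridp N (i + 1) j)) (F (gridp N (i + 1) (j + 1)))) +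
        Complex.arg (tri (F (gridp N i j)) (F (gridp N (i + 1) (j + 1))) (F (gridp N i (j + 1)))))) -
        (∑ j ∈ Finset.range N,
      (det3 (F (gridp N i j)) (F (gridp N (i + 1) j)) (F (gridp N (i + 1) (j + 1))) +
        det3 (F (gridp N i j)) (F (gridp N (i + 1) (j + 1))) (F (gridp N i (j + 1))))) / 4| ≤
        N * (2 * (C2 * (C1 / N) ^ 4)) := by
      intro i hi
      rw [Finset.mem_range] at hi
      rw [Finset.sum_div, ← Finset.sum_sub_distrib]
      refine (Finset.abs_sum_le_sum_abs _ _).trans ?_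
      calc _ ≤ ∑ j ∈ Finset.range N, (2 * (C2 * (C1 / N) ^ 4)) := by
            refine Finset.sum_le_sum fun j hj => ?_
            rw [Finset.mem_range] at hj
            have h1 := (hb i hi j hj).2
            have h2 := (hb' i hi j hj).2
            have e : ∀ a b x y : ℝ, a + b - (x + y) / 4 = (a - x / 4) + (b - y / 4) := fun a b x y => by
              ring
            rw [e]
            refine (abs_add_le _ _).trans ?_
            linarith
        _ = N * (2 * (C2 * (C1 / N) ^ 4)) := by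
            rw [Finset.sum_const, Finset.card_range, nsmul_eq_mul]
    calc _ ≤ ∑ i ∈ Finset.range N, (N * (2 * (C2 * (C1 / N) ^ 4))) := Finset.sum_le_sum hbd
      _ = N * (N * (2 * (C2 * (C1 / N) ^ 4))) := by
          rw [Finset.sum_const, Finset.card_range, nsmul_eq_mul]
      _ = 2 * C2 * C1 ^ 4 / (N : ℝ) ^ 2 := by
          field_simp
  choose! n hn using key
  have hlim : Filter.Tendsto (fun N : ℕ => 2 * π * (n N : ℝ)) Filter.atTop (nhds (2 * I / 4)) := by
    have h1 := hsum.div_const 4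
    have h2 : Filter.Tendsto (fun N : ℕ => 2 * C2 * C1 ^ 4 / (N : ℝ) ^ 2) Filter.atTop (nhds 0) := by
      have h3 : Filter.Tendsto (fun N : ℕ => ((N : ℝ)) ^ 2) Filter.atTop Filter.atTop :=
        (Filter.tendsto_pow_atTop (by norm_num)).comp tendsto_natCast_atTop_atTop
      exact Filter.Tendsto.const_div_atTop h3 _
    have h4 := squeeze_zero_norm' (a := fun N : ℕ => 2 * C2 * C1 ^ 4 / (N : ℝ) ^ 2)
      (Filter.eventually_atTop.2 ⟨N0 + 1, fun N hN => by
        rw [Real.norm_eq_abs]; exact hn N hN⟩) h2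
    have h5 := h4.add h1
    rw [zero_add] at h5
    refine h5.congr fun N => ?_
    ring
  have hlim2 : Filter.Tendsto (fun N : ℕ => (n N : ℝ)) Filter.atTop (nhds (I / (4 * π))) := by
    have h1 := hlim.div_const (2 * π)
    have e : 2 * I / 4 / (2 * π) = I / (4 * π) := by
      field_simp
    rw [e] at h1
    refine h1.congr fun N => ?_
    field_simp
  obtain ⟨m, hm⟩ := TD5_lim n hlim2
  refine ⟨m, ?_⟩
  rw [← hm]
  field_simp

/-- The degrees of a sphere in `OM` are integers. -/
theorem JJ_Wf_int {F : QQ 2 → EE 7} (hF : Surf F)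
    (cl : ∀ t, t 0 = 0 ∨ t 0 = 1 → fderiv ℝ F t (eb 1) = 0) : ∃ n : ℤ, JJ Wf F = n := by
  have hsm : ContDiff ℝ ∞ (fun t => wv (F t)) := contDiff_iff_contDiffAt.2 fun t =>
    (contDiffAt_wv (hF.mem t)).comp t hF.smooth.contDiffAt
  obtain ⟨n, hn⟩ := degree_int hsm (fun t => QA_wv_unit (hF.mem t)) (fun t => by rw [hF.per])
    (fun t ht => by
      have hd : DifferentiableAt ℝ wv (F t) := (contDiffAt_wv (hF.mem t)).differentiableAt (by simp)
      have hd2 : DifferentiableAt ℝ F t := (hF.smooth.differentiable (by simp)) t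
      have h := (hd.hasFDerivAt.comp t hd2.hasFDerivAt).fderiv
      have e : fderiv ℝ (fun t => wv (F t)) t = (fderiv ℝ wv (F t)).comp (fderiv ℝ F t) := h
      rw [e, ContinuousLinearMap.comp_apply, cl t ht, map_zero])
  refine ⟨n, ?_⟩
  rw [JJ_Wf_eq hF.smooth hF.mem, hn]
  field_simp

theorem JJ_Af_int {F : QQ 2 → EE 7} (hF : Surf F)
    (cl : ∀ t, t 0 = 0 ∨ t 0 = 1 → fderiv ℝ F t (eb 1) = 0) : ∃ n : ℤ, JJ Af F = n := by
  have hsm : ContDiff ℝ ∞ (fun t => sv (F t)) := contDiff_iff_contDiffAt.2 fun t =>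
    (contDiffAt_sv (hF.mem t)).comp t hF.smooth.contDiffAt
  obtain ⟨n, hn⟩ := degree_int hsm (fun t => QA_sv_unit (hF.mem t)) (fun t => by rw [hF.per])
    (fun t ht => by
      have hd : DifferentiableAt ℝ sv (F t) := (contDiffAt_sv (hF.mem t)).differentiableAt (by simp)
      have hd2 : DifferentiableAt ℝ F t := (hF.smooth.differentiable (by simp)) t
      have h := (hd.hasFDerivAt.comp t hd2.hasFDerivAt).fderiv
      have e : fderiv ℝ (fun t => sv (F t)) t = (fderiv ℝ sv (F t)).comp (fderiv ℝ F t) := h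
      rw [e, ContinuousLinearMap.comp_apply, cl t ht, map_zero])
  refine ⟨n, ?_⟩
  rw [JJ_Af_eq hF.smooth hF.mem, hn]
  field_simp

end H31R.Tp
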