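import Pool.Agent.Lib.H31R.QI
import Pool.Agent.Lib.H31R.C0a

/-!
# H31R, part T (topology): definitions

Goal (`T.lean`): `Diffeomorphic (MK k) (MK l) → k = l`.  See `TPROOF.md`.
-/

open scoped ContDiff
open Real Set MeasureTheory

namespace H31R.Tp

/-- `R^m` (with the sup norm; used for integrals over cubes). -/
abbrev QQ (m : ℕ) := Fin m → ℝ

/-- The standard basis vectors of `R^m`. -/
noncomputable abbrev eb {m : ℕ} (i : Fin m) : QQ m := Pi.single i 1

/-- The mean over the unit cube. -/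
noncomputable def MM {m : ℕ} (f : QQ m → ℝ) : ℝ := ∫ t in Icc (0 : QQ m) 1, f t

/-! ## forms -/

section forms

variable {E F : Type} [NormedAddCommGroup E] [NormedSpace ℝ E] [NormedAddCommGroup F]
  [NormedSpace ℝ F]

/-- `Y` is a smooth closed 2-form on the open set `U`. -/
structure CForm (U : Set E) (Y : E → E → E → ℝ) : Prop where
  add_left : ∀ p ∈ U, ∀ u u' v, Y p (u + u') v = Y p u v + Y p u' v
  smul_left : ∀ p ∈ U, ∀ (c : ℝ) (u v), Y p (c • u) v = c * Y p u v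
  alt : ∀ p ∈ U, ∀ u v, Y p u v = -Y p v u
  smooth : ∀ u v, ContDiffOn ℝ ∞ (fun p => Y p u v) U
  closed : ∀ p ∈ U, ∀ u v w, fderiv ℝ (fun q => Y q v w) p u + fderiv ℝ (fun q => Y q w u) p v +
    fderiv ℝ (fun q => Y q u v) p w = 0

/-- `β` is a smooth 1-form on the open set `U` and `Z = dβ`. -/
structure IsD (U : Set E) (β : E → E → ℝ) (Z : E → E → E → ℝ) : Prop where
  add : ∀ p ∈ U, ∀ u v, β p (u + v) = β p u + β p v
  smul : ∀ p ∈ U, ∀ (c : ℝ) (u), β p (c • u) = c * β p u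
  smooth : ∀ u, ContDiffOn ℝ ∞ (fun p => β p u) U
  d : ∀ p ∈ U, ∀ u v, fderiv ℝ (fun q => β q v) p u - fderiv ℝ (fun q => β q u) p v = Z p u v

/-- Pull-back of a 2-form. -/
noncomputable def pull (G : E → F) (Y : F → F → F → ℝ) (p u v : E) : ℝ :=
  Y (G p) (fderiv ℝ G p u) (fderiv ℝ G p v)

/-- Pull-back of a 1-form. -/
noncomputable def pull1 (G : E → F) (β : F → F → ℝ) (p u : E) : ℝ :=
  β (G p) (fderiv ℝ G p u)

end forms

/-- Periodic 2-forms on `R^m`. -/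
def Per {m : ℕ} (Z : QQ m → QQ m → QQ m → ℝ) : Prop := ∀ i t u v, Z (t + eb i) u v = Z t u v

/-- Periodic 1-forms on `R^m`. -/
def Per1 {m : ℕ} (β : QQ m → QQ m → ℝ) : Prop := ∀ i t u, β (t + eb i) u = β t u

/-- The coefficient of `a ∧ b` (on `R^4`). -/
def wedge (a b : Fin 4 → Fin 4 → ℝ) : ℝ :=
  a 0 1 * b 2 3 - a 0 2 * b 1 3 + a 0 3 * b 1 2 + a 1 2 * b 0 3 - a 1 3 * b 0 2 + a 2 3 * b 0 1

/-- The coefficients of a 2-form on `R^4`. -/
noncomputable def co (Z : QQ 4 → QQ 4 → QQ 4 → ℝ) (t : QQ 4) (i j : Fin 4) : ℝ :=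
  Z t (eb i) (eb j)

/-- The means of the coefficients of a 2-form on `R^4`. -/
noncomputable def mc (Z : QQ 4 → QQ 4 → QQ 4 → ℝ) (i j : Fin 4) : ℝ := MM fun t => co Z t i j

/-! ## closed surfaces in `OM` and periods -/

/-- A closed surface in `OM`: a torus (both variables periodic) or a sphere (the second variable is
periodic, and the edges `t 0 = 0`, `t 0 = 1` are mapped to a point). -/
structure Surf (F : QQ 2 → EE 7) : Prop where
  smooth : ContDiff ℝ ∞ F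
  mem : ∀ t, F t ∈ OM
  per : ∀ t, F (t + eb 1) = F t
  cl : (∀ t, F (t + eb 0) = F t) ∨ ∀ t, t 0 = 0 ∨ t 0 = 1 → fderiv ℝ F t (eb 1) = 0

/-- The integral of the 2-form `Y` over the surface `F`. -/
noncomputable def JJ (Y : EE 7 → EE 7 → EE 7 → ℝ) (F : QQ 2 → EE 7) : ℝ :=
  MM fun t => pull F Y t (eb 0) (eb 1)

/-- The third basis vector. -/
def e3 : V3 := ![0, 0, 1]

/-- Spherical coordinates. -/
noncomputable def sph (θ φ : ℝ) : V3 := ![sin θ * cos φ, sin θ * sin φ, cos θ]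

/-- The `w`-sphere. -/
noncomputable def Sw (t : QQ 2) : EE 7 := PT 0 0 0 (sph (π * t 0) (2 * π * t 1)) e3

/-- The `s`-sphere. -/
noncomputable def Ss (t : QQ 2) : EE 7 := PT 0 0 0 e3 (sph (π * t 0) (2 * π * t 1))

/-! ## the forms -/

/-- The area form (divided by `4 π`) of the `w`-sphere. -/
noncomputable def Wf (p u v : EE 7) : ℝ := det3 (wv p) (dw p u) (dw p v) / (4 * π)

/-- The area form (divided by `4 π`) of the `s`-sphere (not invariant under the action). -/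
noncomputable def Af (p u v : EE 7) : ℝ := det3 (sv p) (ds p u) (ds p v) / (4 * π)

/-- `dx1 ∧ dx2` -/
noncomputable def Thf (p u v : EE 7) : ℝ := xi1 p u * xi2 p v - xi1 p v * xi2 p u

/-- The covariant differential of `l` (invariant under the action with parameter `l`). -/
noncomputable def DDv (l : ℕ) (p u : EE 7) : V3 :=
  Dl p u - (4 * π * l * x1 p * xi2 p u) • Jl p

/-- An invariant 1-form. -/
noncomputable def TTv (l : ℕ) (p u : EE 7) : ℝ := dot (Jl p) (DDv l p u)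

/-- The curvature. -/
noncomputable def FF (l : ℕ) (p u v : EE 7) : ℝ :=
  det3 (wv p) (dw p u) (dw p v) + 4 * π * l * Thf p u v

/-- The invariant closed form with integral `1` over the `s`-sphere. -/
noncomputable def Xf (l : ℕ) (p u v : EE 7) : ℝ :=
  (hh p * det3 (wv p) (DDv l p u) (DDv l p v) - (dh p u * TTv l p v - dh p v * TTv l p u) +
    hh p * FF l p u v) / (4 * π)

/-- `Xf l = Af - d (βf l)`. -/
noncomputable def βf (l : ℕ) (p u : EE 7) : ℝ :=
  (dot (Jl p) (dw p u) - 4 * π * l * hh p * x1 p * xi2 p u) / (4 * π)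

/-! ## equivariance -/

/-- Invariant 2-forms. -/
def Inv (k : ℕ) (Y : EE 7 → EE 7 → EE 7 → ℝ) : Prop :=
  ∀ n : ℤ × ℤ × ℤ, ∀ p ∈ OM, ∀ u v,
    Y (act k n p) (fderiv ℝ (act k n) p u) (fderiv ℝ (act k n) p v) = Y p u v

/-- Invariant 1-forms. -/
def Inv1 (k : ℕ) (β : EE 7 → EE 7 → ℝ) : Prop :=
  ∀ n : ℤ × ℤ × ℤ, ∀ p ∈ OM, ∀ u, β (act k n p) (fderiv ℝ (act k n) p u) = β p u

/-- A smooth map `f : R^m → OM` whose translates are the transforms by the action. -/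
structure Eqv {m : ℕ} (k : ℕ) (f : QQ m → EE 7) (n : Fin m → ℤ × ℤ × ℤ) : Prop where
  smooth : ContDiff ℝ ∞ f
  mem : ∀ t, f t ∈ OM
  eqv : ∀ i t, f (t + eb i) = act k (n i) (f t)

/-- A smooth map `OM → OM` that is equivariant with respect to the actions with parameters `k` (source)
and `l` (target). -/
structure EqMap (k l : ℕ) (PH : EE 7 → EE 7) (m : ℤ × ℤ × ℤ → ℤ × ℤ × ℤ) : Prop where
  smooth : ContDiffOn ℝ ∞ PH OM
  maps : ∀ p ∈ OM, PH p ∈ OM
  eqv : ∀ n, ∀ p ∈ OM, PH (act k n p) = act l (m n) (PH p)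

/-! ## rotations (quaternions) -/

/-- Product of quaternions. -/
noncomputable def qmul (q p : EE 4) : EE 4 :=
  !₂[q 0 * p 0 - q 1 * p 1 - q 2 * p 2 - q 3 * p 3,
    q 0 * p 1 + q 1 * p 0 + q 2 * p 3 - q 3 * p 2,
    q 0 * p 2 - q 1 * p 3 + q 2 * p 0 + q 3 * p 1,
    q 0 * p 3 + q 1 * p 2 - q 2 * p 1 + q 3 * p 0]

/-- The rotation (multiplied by `|q|^2`) of the quaternion `q`: `v ↦ q v q*`. -/
noncomputable def qrot (q : EE 4) (v : V3) : V3 :=
  (q 0 ^ 2 - (q 1 ^ 2 + q 2 ^ 2 + q 3 ^ 2)) • v +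
    (2 * dot ![q 1, q 2, q 3] v) • ![q 1, q 2, q 3] + (2 * q 0) • crs ![q 1, q 2, q 3] v

/-- The linear map `(p0; y; z) ↦ (p0; q y q*; q' z q'*)`. -/
noncomputable def RQ (q q' : EE 4) (p : EE 7) : EE 7 := mk7 (p 0) (qrot q (yv p)) (qrot q' (zv p))

/-- An annulus in the space of quaternions. -/
def ann : Set (EE 4) := {q | 1 ≤ ‖q‖ ∧ ‖q‖ ≤ 2}

/-- The average of a 2-form over the rotations. -/
noncomputable def avg (Y : EE 7 → EE 7 → EE 7 → ℝ) (p u v : EE 7) : ℝ :=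
  ∫ q in ann, ∫ q' in ann, Y (RQ q q' p) (RQ q q' u) (RQ q q' v)

/-! ## the test maps -/

/-- A torus in `R^3 - 0`. -/
noncomputable def cV (t : QQ 2) : V3 :=
  ![expNegInvGlue (sin (2 * π * t 0)) * cos (2 * π * t 1) + expNegInvGlue (-sin (2 * π * t 0)),
    expNegInvGlue (sin (2 * π * t 0)) * sin (2 * π * t 1), cos (2 * π * t 0)]

/-- A map of the torus to the sphere of nonzero degree. -/
noncomputable def cc (t : QQ 2) : V3 := (nr (cV t))⁻¹ • cV t

/-- Its degree. -/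
noncomputable def dc : ℝ :=
  (MM fun t => det3 (cc t) (fderiv ℝ cc t (eb 0)) (fderiv ℝ cc t (eb 1))) / (4 * π)

/-- First test map `T^4 → OM`. -/
noncomputable def f0 (t : QQ 4) : EE 7 := PT 0 0 0 (cc ![t 0, t 1]) (cc ![t 2, t 3])

/-- Second test map (`ε = 1` or `-1`). -/
noncomputable def f1 (ε : ℝ) (t : QQ 4) : EE 7 :=
  PT (t 0) (t 1) 0 (cc ![t 2, t 3]) (ε • cc ![t 2, t 3])

/-- The integers of `f1`. -/
def n1 : Fin 4 → ℤ × ℤ × ℤ := ![(1, 0, 0), (0, 1, 0), 0, 0]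

/-- The integral of `Y` over the torus `(t0, t1) ↦ (x = (t0, t1, 0), w = e3, s = ε e3)`. -/
noncomputable def YT (Y : EE 7 → EE 7 → EE 7 → ℝ) (ε : ℝ) : ℝ :=
  JJ Y fun t => PT (t 0) (t 1) 0 e3 (ε • e3)

end H31R.Tp
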