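import Pool.Agent.Lib.H31R.TDefs

/-!
# H31R, chunk TE1: the torus `cc` in the sphere

`|cV|^2 = A^2 + B^2 + H^2` with `A = expNegInvGlue (sin)`, `B = expNegInvGlue (-sin)`, `H = cos` of `2 π t 0`
(`A B = 0`), which is positive. With `φ = 2 π t 1`:
`det3 (cV) (∂0 cV) (∂1 cV) = 2 π A (H A' - A H')` (`A'`, `H'` = derivatives with respect to `t 0`; use `A B = 0`,
`A B' = 0`), and `det3 (cc) (∂0 cc) (∂1 cc) = det3 (cV) (∂0 cV) (∂1 cV) / |cV|^3` (the derivatives of the norm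
drop out). For `sin > 0`: `A' = A * (2 π cos) / sin^2`, so `H A' - A H' = 2 π A (cos^2/sin^2 + sin) > 0`; for
`sin ≤ 0` the determinant is `0`. So the integrand is continuous, nonnegative and positive at
`t = (1/4, 1/2)`.
-/

open scoped ContDiff
open Real Set MeasureTheory

namespace H31R.Tp

/-- the functions `A` and `B` -/
noncomputable def te1A (x : ℝ) : ℝ := expNegInvGlue (sin (2 * π * x))
noncomputable def te1B (x : ℝ) : ℝ := expNegInvGlue (-sin (2 * π * x))

theorem te1_deriv (y : ℝ) : HasDerivAt expNegInvGlue (y⁻¹ ^ 2 * expNegInvGlue y) y := by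
  have h := expNegInvGlue.hasDerivAt_polynomial_eval_inv_mul 1 y
  simpa using h

theorem te1_sin (x : ℝ) : HasDerivAt (fun x => sin (2 * π * x)) (2 * π * cos (2 * π * x)) x := by
  have h1 : HasDerivAt (fun x : ℝ => 2 * π * x) (2 * π) x := by
    simpa using (hasDerivAt_id x).const_mul (2 * π)
  have h2 := h1.sin
  convert h2 using 1
  ring

theorem te1_cos (x : ℝ) : HasDerivAt (fun x => cos (2 * π * x)) (-(2 * π * sin (2 * π * x))) x := by
  have h1 : HasDerivAt (fun x : ℝ => 2 * π * x) (2 * π) x := by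
    simpa using (hasDerivAt_id x).const_mul (2 * π)
  have h2 := h1.cos
  convert h2 using 1
  ring

theorem te1_A (x : ℝ) : HasDerivAt te1A
    ((sin (2 * π * x))⁻¹ ^ 2 * te1A x * (2 * π * cos (2 * π * x))) x :=
  (te1_deriv _).comp x (te1_sin x)

theorem te1_B (x : ℝ) : HasDerivAt te1B
    (-((sin (2 * π * x))⁻¹ ^ 2 * te1B x * (2 * π * cos (2 * π * x)))) x := by
  have h := (te1_deriv (-sin (2 * π * x))).comp x (te1_sin x).neg
  refine h.congr_deriv ?_
  rw [inv_neg]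
  unfold te1B
  ring

theorem te1_AB (x : ℝ) : te1A x * te1B x = 0 := by
  unfold te1A te1B
  rcases le_total (sin (2 * π * x)) 0 with h | h
  · rw [expNegInvGlue.zero_of_nonpos h, zero_mul]
  · rw [expNegInvGlue.zero_of_nonpos (neg_nonpos.2 h), mul_zero]

theorem te1_cV (t : QQ 2) : cV t = ![te1A (t 0) * cos (2 * π * t 1) + te1B (t 0),
    te1A (t 0) * sin (2 * π * t 1), cos (2 * π * t 0)] := rfl

theorem te1_pos (t : QQ 2) : 0 < dot (cV t) (cV t) := by
  have h1 : dot (cV t) (cV t) = te1A (t 0) ^ 2 + te1B (t 0) ^ 2 + cos (2 * π * t 0) ^ 2 := by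
    rw [te1_cV]
    simp only [dot, Matrix.cons_val_zero, Matrix.cons_val_one, Matrix.cons_val]
    have h2 := te1_AB (t 0)
    have h3 := sin_sq_add_cos_sq (2 * π * t 1)
    linear_combination (te1A (t 0)) ^ 2 * h3 + 2 * cos (2 * π * t 1) * h2
  rw [h1]
  rcases lt_trichotomy (sin (2 * π * t 0)) 0 with h | h | h
  · have h2 : 0 < te1B (t 0) := expNegInvGlue.pos_of_pos (neg_pos.2 h)
    positivity
  · have h3 := sin_sq_add_cos_sq (2 * π * t 0)
    rw [h] at h3
    have h4 : cos (2 * π * t 0) ^ 2 = 1 := by linear_combination h3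
    rw [h4]
    positivity
  · have h2 : 0 < te1A (t 0) := expNegInvGlue.pos_of_pos h
    positivity

theorem cV_ne (t : QQ 2) : cV t ≠ 0 := by
  intro h
  have h1 := te1_pos t
  rw [h] at h1
  simp [dot] at h1

theorem te1_smooth_cV : ContDiff ℝ ∞ cV := by
  have h0 : ContDiff ℝ ∞ (fun t : QQ 2 => t 0) := contDiff_apply ℝ ℝ 0
  have h1 : ContDiff ℝ ∞ (fun t : QQ 2 => t 1) := contDiff_apply ℝ ℝ 1
  have hs0 : ContDiff ℝ ∞ (fun t : QQ 2 => sin (2 * π * t 0)) := (contDiff_const.mul h0).sin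
  have hc0 : ContDiff ℝ ∞ (fun t : QQ 2 => cos (2 * π * t 0)) := (contDiff_const.mul h0).cos
  have hs1 : ContDiff ℝ ∞ (fun t : QQ 2 => sin (2 * π * t 1)) := (contDiff_const.mul h1).sin
  have hc1 : ContDiff ℝ ∞ (fun t : QQ 2 => cos (2 * π * t 1)) := (contDiff_const.mul h1).cos
  have hA : ContDiff ℝ ∞ (fun t : QQ 2 => te1A (t 0)) :=
    expNegInvGlue.contDiff.comp hs0
  have hB : ContDiff ℝ ∞ (fun t : QQ 2 => te1B (t 0)) :=
    expNegInvGlue.contDiff.comp hs0.neg
  rw [contDiff_pi]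
  intro i
  fin_cases i
  · exact (hA.mul hc1).add hB
  · exact hA.mul hs1
  · exact hc0

theorem te1_smooth_dot : ContDiff ℝ ∞ (fun t => dot (cV t) (cV t)) := by
  have h := contDiff_pi.1 te1_smooth_cV
  exact (((h 0).mul (h 0)).add ((h 1).mul (h 1))).add ((h 2).mul (h 2))

theorem te1_smooth_N : ContDiff ℝ ∞ (fun t => (nr (cV t))⁻¹) := by
  have h : ContDiff ℝ ∞ (fun t => nr (cV t)) := te1_smooth_dot.sqrt fun t => (te1_pos t).ne'
  exact h.inv fun t => (nr_pos (cV_ne t)).ne'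

theorem smooth_cc : ContDiff ℝ ∞ cc := te1_smooth_N.smul te1_smooth_cV

theorem dot_cc (t : QQ 2) : dot (cc t) (cc t) = 1 := C0a_unit (cV_ne t)

theorem te1_per0 (t : QQ 2) : cV (t + eb 0) = cV t := by
  have h0 : (t + eb 0 : QQ 2) 0 = t 0 + 1 := by simp
  have h1 : (t + eb 0 : QQ 2) 1 = t 1 := by simp
  unfold cV
  rw [h0, h1]
  have h2 : 2 * π * (t 0 + 1) = 2 * π * t 0 + 2 * π := by ring
  rw [h2, sin_add_two_pi, cos_add_two_pi]

theorem te1_per1 (t : QQ 2) : cV (t + eb 1) = cV t := by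
  have h0 : (t + eb 1 : QQ 2) 0 = t 0 := by simp
  have h1 : (t + eb 1 : QQ 2) 1 = t 1 + 1 := by simp
  unfold cV
  rw [h0, h1]
  have h2 : 2 * π * (t 1 + 1) = 2 * π * t 1 + 2 * π := by ring
  rw [h2, sin_add_two_pi, cos_add_two_pi]

theorem cc_per0 (t : QQ 2) : cc (t + eb 0) = cc t := by
  unfold cc
  rw [te1_per0]

theorem cc_per1 (t : QQ 2) : cc (t + eb 1) = cc t := by
  unfold cc
  rw [te1_per1]

theorem cc_zero {t : QQ 2} (ht : t 0 = 0) : cc t = e3 := by
  have h1 : cV t = e3 := by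
    unfold cV e3
    rw [ht]
    simp
  unfold cc
  rw [h1]
  have h2 : nr e3 = 1 := by
    unfold nr dot e3
    simp
  rw [h2]
  simp

theorem fderiv_cc_zero {t : QQ 2} (ht : t 0 = 0) : fderiv ℝ cc t (eb 1) = 0 := by
  have hd : DifferentiableAt ℝ cc t := (smooth_cc.differentiable (by simp)) t
  have h1 := hd.hasFDerivAt.hasLineDerivAt (eb 1)
  have h2 : HasDerivAt (fun s : ℝ => cc (t + s • (eb 1 : QQ 2))) 0 0 := by
    have h3 : (fun s : ℝ => cc (t + s • (eb 1 : QQ 2))) = fun _ => e3 := by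
      funext s
      apply cc_zero
      simp [ht]
    rw [h3]
    exact hasDerivAt_const _ _
  exact HasDerivAt.unique h1 h2

theorem te1_d0 (t : QQ 2) : fderiv ℝ cV t (eb 0) =
    ![(sin (2 * π * t 0))⁻¹ ^ 2 * te1A (t 0) * (2 * π * cos (2 * π * t 0)) * cos (2 * π * t 1) +
        -((sin (2 * π * t 0))⁻¹ ^ 2 * te1B (t 0) * (2 * π * cos (2 * π * t 0))),
      (sin (2 * π * t 0))⁻¹ ^ 2 * te1A (t 0) * (2 * π * cos (2 * π * t 0)) * sin (2 * π * t 1),
      -(2 * π * sin (2 * π * t 0))] := by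
  have hd : DifferentiableAt ℝ cV t := (te1_smooth_cV.differentiable (by simp)) t
  have h1 := hd.hasFDerivAt.hasLineDerivAt (eb 0)
  refine HasDerivAt.unique h1 ?_
  have e0 : ∀ s : ℝ, (t + s • (eb 0 : QQ 2)) 0 = t 0 + s := fun s => by simp
  have e1 : ∀ s : ℝ, (t + s • (eb 0 : QQ 2)) 1 = t 1 := fun s => by simp
  have hA : HasDerivAt (fun s : ℝ => te1A (t 0 + s))
      ((sin (2 * π * t 0))⁻¹ ^ 2 * te1A (t 0) * (2 * π * cos (2 * π * t 0))) 0 := by
    have h2 := te1_A (t 0 + 0)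
    have h3 := h2.comp_const_add _ (0 : ℝ)
    simpa only [add_zero] using h3
  have hB : HasDerivAt (fun s : ℝ => te1B (t 0 + s))
      (-((sin (2 * π * t 0))⁻¹ ^ 2 * te1B (t 0) * (2 * π * cos (2 * π * t 0)))) 0 := by
    have h2 := te1_B (t 0 + 0)
    have h3 := h2.comp_const_add _ (0 : ℝ)
    simpa only [add_zero] using h3
  have hH : HasDerivAt (fun s : ℝ => cos (2 * π * (t 0 + s))) (-(2 * π * sin (2 * π * t 0))) 0 := by
    have h2 := te1_cos (t 0 + 0)
    have h3 := h2.comp_const_add _ (0 : ℝ)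
    simpa only [add_zero] using h3
  rw [hasDerivAt_pi]
  intro i
  simp only [te1_cV, e0, e1]
  fin_cases i
  · exact (hA.mul_const _).add hB
  · exact hA.mul_const _
  · exact hH

theorem te1_d1 (t : QQ 2) : fderiv ℝ cV t (eb 1) =
    ![te1A (t 0) * (-(2 * π * sin (2 * π * t 1))), te1A (t 0) * (2 * π * cos (2 * π * t 1)), 0] := by
  have hd : DifferentiableAt ℝ cV t := (te1_smooth_cV.differentiable (by simp)) t
  have h1 := hd.hasFDerivAt.hasLineDerivAt (eb 1)
  refine HasDerivAt.unique h1 ?_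
  have e0 : ∀ s : ℝ, (t + s • (eb 1 : QQ 2)) 0 = t 0 := fun s => by simp
  have e1 : ∀ s : ℝ, (t + s • (eb 1 : QQ 2)) 1 = t 1 + s := fun s => by simp
  have hC : HasDerivAt (fun s : ℝ => cos (2 * π * (t 1 + s))) (-(2 * π * sin (2 * π * t 1))) 0 := by
    have h2 := te1_cos (t 1 + 0)
    have h3 := h2.comp_const_add _ (0 : ℝ)
    simpa only [add_zero] using h3
  have hS : HasDerivAt (fun s : ℝ => sin (2 * π * (t 1 + s))) (2 * π * cos (2 * π * t 1)) 0 := by
    have h2 := te1_sin (t 1 + 0)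
    have h3 := h2.comp_const_add _ (0 : ℝ)
    simpa only [add_zero] using h3
  rw [hasDerivAt_pi]
  intro i
  simp only [te1_cV, e0, e1]
  fin_cases i
  · exact (hC.const_mul (te1A (t 0))).add_const (te1B (t 0))
  · exact hS.const_mul _
  · exact hasDerivAt_const _ _

theorem te1_det (t : QQ 2) : det3 (cV t) (fderiv ℝ cV t (eb 0)) (fderiv ℝ cV t (eb 1)) =
    4 * π ^ 2 * te1A (t 0) ^ 2 * (cos (2 * π * t 0) ^ 2 * (sin (2 * π * t 0))⁻¹ ^ 2 +
      sin (2 * π * t 0)) := by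
  rw [te1_d0, te1_d1, te1_cV]
  simp only [det3, dot, crs, Matrix.cons_val_zero, Matrix.cons_val_one, Matrix.cons_val]
  have h2 := te1_AB (t 0)
  have h3 := sin_sq_add_cos_sq (2 * π * t 1)
  generalize te1A (t 0) = A at *
  generalize te1B (t 0) = B at *
  generalize (sin (2 * π * t 0))⁻¹ = I at *
  generalize sin (2 * π * t 0) = S at *
  generalize cos (2 * π * t 0) = H at *
  generalize sin (2 * π * t 1) = s at *
  generalize cos (2 * π * t 1) = c at *
  linear_combination (4 * π ^ 2 * A ^ 2 * (H ^ 2 * I ^ 2 + S)) * h3 +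
    (4 * π ^ 2 * c * S - 4 * π ^ 2 * H ^ 2 * I ^ 2 * c) * h2

theorem te1_det_smul (a b c : ℝ) (V V0 V1 : V3) :
    det3 (a • V) (a • V0 + b • V) (a • V1 + c • V) = a ^ 3 * det3 V V0 V1 := by
  simp only [det3, dot, crs, Matrix.cons_val_zero, Matrix.cons_val_one, Matrix.cons_val,
    Pi.add_apply, Pi.smul_apply, smul_eq_mul]
  ring

theorem te1_dcc (t v : QQ 2) : fderiv ℝ cc t v = (nr (cV t))⁻¹ • fderiv ℝ cV t v +
    (fderiv ℝ (fun t => (nr (cV t))⁻¹) t v) • cV t := by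
  have h1 : DifferentiableAt ℝ cV t := (te1_smooth_cV.differentiable (by simp)) t
  have h2 : DifferentiableAt ℝ (fun t => (nr (cV t))⁻¹) t :=
    (te1_smooth_N.differentiable (by simp)) t
  have h3 := h2.hasFDerivAt.fun_smul h1.hasFDerivAt
  have h4 : fderiv ℝ cc t = _ := h3.fderiv
  rw [h4]
  simp

theorem te1_integrand (t : QQ 2) : det3 (cc t) (fderiv ℝ cc t (eb 0)) (fderiv ℝ cc t (eb 1)) =
    (nr (cV t))⁻¹ ^ 3 * (4 * π ^ 2 * te1A (t 0) ^ 2 * (cos (2 * π * t 0) ^ 2 *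
      (sin (2 * π * t 0))⁻¹ ^ 2 + sin (2 * π * t 0))) := by
  rw [te1_dcc, te1_dcc, ← te1_det, ← te1_det_smul]
  rfl

theorem te1_nonneg (t : QQ 2) :
    0 ≤ det3 (cc t) (fderiv ℝ cc t (eb 0)) (fderiv ℝ cc t (eb 1)) := by
  rw [te1_integrand]
  have hN := nr_pos (cV_ne t)
  rcases le_or_gt (sin (2 * π * t 0)) 0 with h | h
  · have h1 : te1A (t 0) = 0 := expNegInvGlue.zero_of_nonpos h
    rw [h1]
    simp
  · positivity

theorem te1_cont : Continuous fun t : QQ 2 =>
    det3 (cc t) (fderiv ℝ cc t (eb 0)) (fderiv ℝ cc t (eb 1)) := by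
  have h0 : Continuous cc := smooth_cc.continuous
  have h1 : Continuous (fderiv ℝ cc) := smooth_cc.continuous_fderiv (by simp)
  have h2 : ∀ v : QQ 2, Continuous fun t => fderiv ℝ cc t v := fun v =>
    h1.clm_apply continuous_const
  have h3 : ∀ (v : QQ 2) (i : Fin 3), Continuous fun t => fderiv ℝ cc t v i := fun v i =>
    (continuous_apply i).comp (h2 v)
  have h4 : ∀ i : Fin 3, Continuous fun t => cc t i := fun i => (continuous_apply i).comp h0
  simp only [det3, dot, crs, Matrix.cons_val_zero, Matrix.cons_val_one, Matrix.cons_val]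
  exact (((h4 0).mul (((h3 _ 1).mul (h3 _ 2)).sub ((h3 _ 2).mul (h3 _ 1)))).add
    ((h4 1).mul (((h3 _ 2).mul (h3 _ 0)).sub ((h3 _ 0).mul (h3 _ 2))))).add
    ((h4 2).mul (((h3 _ 0).mul (h3 _ 1)).sub ((h3 _ 1).mul (h3 _ 0))))

theorem dc_pos : 0 < dc := by
  unfold dc MM
  apply div_pos _ (by positivity)
  have hc := te1_cont
  have hint : IntegrableOn (fun t : QQ 2 =>
      det3 (cc t) (fderiv ℝ cc t (eb 0)) (fderiv ℝ cc t (eb 1))) (Icc (0 : QQ 2) 1) :=
    hc.continuousOn.integrableOn_compact isCompact_Icc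
  rw [setIntegral_pos_iff_support_of_nonneg_ae (Filter.Eventually.of_forall te1_nonneg) hint]
  set U : Set (QQ 2) := Function.support (fun t : QQ 2 =>
      det3 (cc t) (fderiv ℝ cc t (eb 0)) (fderiv ℝ cc t (eb 1))) with hU
  have hUo : IsOpen U := hc.isOpen_support
  set pt : QQ 2 := ![1 / 4, 1 / 2] with hpt
  have hI : IsOpen (Set.pi Set.univ fun _ : Fin 2 => Ioo (0 : ℝ) 1) :=
    isOpen_set_pi Set.finite_univ fun _ _ => isOpen_Ioo
  have hmem : pt ∈ U ∩ Set.pi Set.univ fun _ : Fin 2 => Ioo (0 : ℝ) 1 := by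
    constructor
    · rw [hU, Function.mem_support, te1_integrand]
      have hN := nr_pos (cV_ne pt)
      have h0 : 2 * π * pt 0 = π / 2 := by
        rw [hpt]
        simp
        ring
      have hA : 0 < te1A (pt 0) := by
        unfold te1A
        rw [h0, sin_pi_div_two]
        exact expNegInvGlue.pos_of_pos one_pos
      rw [h0, sin_pi_div_two, cos_pi_div_two]
      have hpi := pi_pos
      positivity
    · intro i _
      fin_cases i
      · show (1 / 4 : ℝ) ∈ Ioo (0 : ℝ) 1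
        norm_num
      · show (1 / 2 : ℝ) ∈ Ioo (0 : ℝ) 1
        norm_num
  have hpos : 0 < volume (U ∩ Set.pi Set.univ fun _ : Fin 2 => Ioo (0 : ℝ) 1) :=
    (hUo.inter hI).measure_pos _ ⟨pt, hmem⟩
  refine lt_of_lt_of_le hpos (measure_mono ?_)
  intro y hy
  refine ⟨hy.1, ?_, ?_⟩
  · intro i
    exact (hy.2 i (Set.mem_univ i)).1.le
  · intro i
    exact (hy.2 i (Set.mem_univ i)).2.le

end H31R.Tp
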