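import Pool.Agent.Lib.H31R.TA6
import Pool.Agent.Lib.H31R.TB7
import Pool.Agent.Lib.H31R.TC7
import Pool.Agent.Lib.H31R.TE1

/-!
# H31R, chunk TE2: the first test map `f0 : T^4 → OM`

`f0` is periodic (`Eqv k f0 0`, `act_zero`). For `i < j` and fixed `t` the slice
`F x = f0 (Function.update (Function.update t i (x 0)) j (x 1))` is a closed surface (torus), and by the chain
rule `pull f0 Y (..) (eb i) (eb j) = pull F Y x (eb 0) (eb 1)`, so by `mean_slice` (`mean_slice'` below)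
`mc (pull f0 Y) i j = JJ Y F = JJ Wf F * JJ Y Sw + JJ Af F * JJ Y Ss` (`JJ_eq`).
Degrees (`JJ_Wf_eq`, `JJ_Af_eq`): for `(0, 1)` they are `dc` and `0`, for `(2, 3)` they are `0` and `dc`, for the other
pairs both are `0` (one of the two partial derivatives of `wv ∘ F`, and one of `sv ∘ F`, vanishes).
-/

open scoped ContDiff
open Real Set MeasureTheory

namespace H31R.Tp

theorem TE2_pair (a b : QQ 4 → ℝ) (t : QQ 4) : (![a t, b t] : QQ 2) = fun i => ![a t, b t] i := rfl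

theorem TE2_smooth_pair {m : ℕ} {a b : QQ m → ℝ} (ha : ContDiff ℝ ∞ a) (hb : ContDiff ℝ ∞ b) :
    ContDiff ℝ ∞ fun t => (![a t, b t] : QQ 2) := by
  rw [contDiff_pi]
  intro i
  fin_cases i
  · exact ha
  · exact hb

theorem TE2_cc0 (a b : ℝ) : cc ![a + 1, b] = cc ![a, b] := by
  have h := cc_per0 ![a, b]
  rw [← h]
  congr 1
  ext i
  fin_cases i <;> simp

theorem TE2_cc1 (a b : ℝ) : cc ![a, b + 1] = cc ![a, b] := by
  have h := cc_per1 ![a, b]
  rw [← h]
  congr 1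
  ext i
  fin_cases i <;> simp

theorem TE2_per_f0 (i : Fin 4) (t : QQ 4) : f0 (t + eb i) = f0 t := by
  unfold f0
  fin_cases i
  · have h0 : (t + eb 0 : QQ 4) 0 = t 0 + 1 := by simp
    have h1 : (t + eb 0 : QQ 4) 1 = t 1 := by simp
    have h2 : (t + eb 0 : QQ 4) 2 = t 2 := by simp
    have h3 : (t + eb 0 : QQ 4) 3 = t 3 := by simp
    simp only [Fin.zero_eta]
    rw [h0, h1, h2, h3, TE2_cc0]
  · have h0 : (t + eb 1 : QQ 4) 0 = t 0 := by simp
    have h1 : (t + eb 1 : QQ 4) 1 = t 1 + 1 := by simp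
    have h2 : (t + eb 1 : QQ 4) 2 = t 2 := by simp
    have h3 : (t + eb 1 : QQ 4) 3 = t 3 := by simp
    simp only [Fin.mk_one]
    rw [h0, h1, h2, h3, TE2_cc1]
  · have h0 : (t + eb 2 : QQ 4) 0 = t 0 := by simp
    have h1 : (t + eb 2 : QQ 4) 1 = t 1 := by simp
    have h2 : (t + eb 2 : QQ 4) 2 = t 2 + 1 := by simp
    have h3 : (t + eb 2 : QQ 4) 3 = t 3 := by simp
    simp only [Fin.reduceFinMk]
    rw [h0, h1, h2, h3, TE2_cc0]
  · have h0 : (t + eb 3 : QQ 4) 0 = t 0 := by simp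
    have h1 : (t + eb 3 : QQ 4) 1 = t 1 := by simp
    have h2 : (t + eb 3 : QQ 4) 2 = t 2 := by simp
    have h3 : (t + eb 3 : QQ 4) 3 = t 3 + 1 := by simp
    simp only [Fin.reduceFinMk]
    rw [h0, h1, h2, h3, TE2_cc1]

theorem TE2_smooth_f0 : ContDiff ℝ ∞ f0 :=
  contDiff_PT contDiff_const contDiff_const contDiff_const
    (smooth_cc.comp (TE2_smooth_pair (contDiff_apply _ _ _) (contDiff_apply _ _ _)))
    (smooth_cc.comp (TE2_smooth_pair (contDiff_apply _ _ _) (contDiff_apply _ _ _)))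

theorem TE2_mem_f0 (t : QQ 4) : f0 t ∈ OM := PT_mem (dot_cc _) (dot_cc _)

theorem eqv_f0 (k : ℕ) : Eqv k f0 0 := by
  refine ⟨TE2_smooth_f0, TE2_mem_f0, fun i t => ?_⟩
  rw [TE2_per_f0, Pi.zero_apply, act_zero]

/-- the linear part of the slice map -/
noncomputable def TE2L (i j : Fin 4) : QQ 2 →L[ℝ] QQ 4 :=
  (ContinuousLinearMap.proj (R := ℝ) (φ := fun _ : Fin 2 => ℝ) 0).smulRight (eb i) +
    (ContinuousLinearMap.proj (R := ℝ) (φ := fun _ : Fin 2 => ℝ) 1).smulRight (eb j)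

theorem TE2L_apply (i j : Fin 4) (u : QQ 2) : TE2L i j u = u 0 • eb i + u 1 • eb j := by
  simp [TE2L]

theorem TE2_affine {i j : Fin 4} (hij : i ≠ j) (t : QQ 4) (x : QQ 2) :
    Function.update (Function.update t i (x 0)) j (x 1) =
      Function.update (Function.update t i 0) j 0 + TE2L i j x := by
  rw [TE2L_apply]
  ext c
  by_cases h1 : c = j
  · subst h1
    simp [hij.symm]
  · by_cases h2 : c = i
    · subst h2
      simp [h1]
    · simp [h1, h2]

theorem TE2_deriv {i j : Fin 4} (hij : i ≠ j) (t : QQ 4) (x : QQ 2) :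
    HasFDerivAt (fun x : QQ 2 => Function.update (Function.update t i (x 0)) j (x 1)) (TE2L i j) x := by
  have h : (fun x : QQ 2 => Function.update (Function.update t i (x 0)) j (x 1)) =
      fun x => Function.update (Function.update t i 0) j 0 + TE2L i j x :=
    funext fun x => TE2_affine hij t x
  rw [h]
  exact (TE2L i j).hasFDerivAt.const_add _

theorem TE2_pull {f : QQ 4 → EE 7} (hf : ContDiff ℝ ∞ f) (Y : EE 7 → EE 7 → EE 7 → ℝ) {i j : Fin 4}
    (hij : i ≠ j) (t : QQ 4) (x : QQ 2) :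
    pull f Y (Function.update (Function.update t i (x 0)) j (x 1)) (eb i) (eb j) =
      pull (fun x : QQ 2 => f (Function.update (Function.update t i (x 0)) j (x 1))) Y x
        (eb 0) (eb 1) := by
  have h1 : HasFDerivAt (fun x : QQ 2 => f (Function.update (Function.update t i (x 0)) j (x 1)))
      ((fderiv ℝ f (Function.update (Function.update t i (x 0)) j (x 1))).comp (TE2L i j)) x :=
    ((hf.differentiable (by simp)) _).hasFDerivAt.comp x (TE2_deriv hij t x)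
  unfold pull
  rw [h1.fderiv, ContinuousLinearMap.comp_apply, ContinuousLinearMap.comp_apply]
  have e0 : TE2L i j (eb 0) = eb i := by
    rw [TE2L_apply]
    simp
  have e1 : TE2L i j (eb 1) = eb j := by
    rw [TE2L_apply]
    simp
  rw [e0, e1]

/-- If a slice is a closed surface, the mean is the integral over it. -/
theorem mean_slice_surf {k : ℕ} {f : QQ 4 → EE 7} {n : Fin 4 → ℤ × ℤ × ℤ} (hf : Eqv k f n)
    {Y : EE 7 → EE 7 → EE 7 → ℝ} (hY : CForm OM Y) (hI : Inv k Y) {i j : Fin 4} (hij : i ≠ j)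
    (t : QQ 4) :
    mc (pull f Y) i j =
      JJ Y fun x : QQ 2 => f (Function.update (Function.update t i (x 0)) j (x 1)) := by
  rw [← mean_slice (hf.cform hY) (hf.per hI) hij t]
  unfold JJ
  congr 1
  funext x
  exact TE2_pull hf.smooth Y hij t x

/-- The same if the map `f` is periodic (no invariance is necessary). -/
theorem mean_slice_surf' {f : QQ 4 → EE 7} (hf : ContDiff ℝ ∞ f) (mem : ∀ t, f t ∈ OM)
    (per : ∀ i t, f (t + eb i) = f t) {Y : EE 7 → EE 7 → EE 7 → ℝ} (hY : CForm OM Y) {i j : Fin 4}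
    (hij : i ≠ j) (t : QQ 4) :
    mc (pull f Y) i j =
      JJ Y fun x : QQ 2 => f (Function.update (Function.update t i (x 0)) j (x 1)) := by
  have h1 : CForm univ (pull f Y) :=
    pull_cform isOpen_univ isOpen_OM hf.contDiffOn (fun p _ => mem p) hY
  have h2 : Per (pull f Y) := by
    intro c t u v
    have h3 : fderiv ℝ f (t + eb c) = fderiv ℝ f t := by
      have h4 : (fun t => f (t + eb c)) = f := funext fun t => per c t
      rw [← fderiv_comp_add_right (f := f) (eb c), h4]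
    unfold pull
    rw [h3, per]
  rw [← mean_slice h1 h2 hij t]
  unfold JJ
  congr 1
  funext x
  exact TE2_pull hf Y hij t x

/-- tori with constant `x` -/
theorem TE2_surf (a b c : ℝ) {w s : QQ 2 → V3} (hw : ContDiff ℝ ∞ w) (hs : ContDiff ℝ ∞ s)
    (uw : ∀ t, dot (w t) (w t) = 1) (us : ∀ t, dot (s t) (s t) = 1)
    (pw0 : ∀ t, w (t + eb 0) = w t) (pw1 : ∀ t, w (t + eb 1) = w t)
    (ps0 : ∀ t, s (t + eb 0) = s t) (ps1 : ∀ t, s (t + eb 1) = s t) :
    Surf (fun t => PT a b c (w t) (s t)) ∧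
      JJ Wf (fun t => PT a b c (w t) (s t)) =
        (MM fun t => det3 (w t) (fderiv ℝ w t (eb 0)) (fderiv ℝ w t (eb 1))) / (4 * π) ∧
      JJ Af (fun t => PT a b c (w t) (s t)) =
        (MM fun t => det3 (s t) (fderiv ℝ s t (eb 0)) (fderiv ℝ s t (eb 1))) / (4 * π) := by
  have h1 : ContDiff ℝ ∞ fun t => PT a b c (w t) (s t) :=
    contDiff_PT contDiff_const contDiff_const contDiff_const hw hs
  have h2 : ∀ t, PT a b c (w t) (s t) ∈ OM := fun t => PT_mem (uw t) (us t)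
  refine ⟨⟨h1, h2, fun t => ?_, Or.inl fun t => ?_⟩, ?_, ?_⟩
  · simp only [pw1, ps1]
  · simp only [pw0, ps0]
  · rw [JJ_Wf_eq h1 h2]
    have e : (fun t => wv (PT a b c (w t) (s t))) = w :=
      funext fun t => (PT_coord (uw t) (us t)).2.2.2.1
    rw [e]
    have e' : ∀ t, wv (PT a b c (w t) (s t)) = w t := fun t => congrFun e t
    simp only [e']
  · rw [JJ_Af_eq h1 h2]
    have e : (fun t => sv (PT a b c (w t) (s t))) = s :=
      funext fun t => (PT_coord (uw t) (us t)).2.2.2.2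
    rw [e]
    have e' : ∀ t, sv (PT a b c (w t) (s t)) = s t := fun t => congrFun e t
    simp only [e']

/-- `cc` composed with a map depending only on one of the variables -/
theorem TE2_deg_zero {w : QQ 2 → V3} (hw : ContDiff ℝ ∞ w) {i : Fin 2}
    (h : ∀ (t : QQ 2) (r : ℝ), w (t + r • eb i) = w t) :
    (MM fun t => det3 (w t) (fderiv ℝ w t (eb 0)) (fderiv ℝ w t (eb 1))) / (4 * π) = 0 := by
  have h1 : ∀ t, fderiv ℝ w t (eb i) = 0 := fun t => TC6_fderiv_zero_of hw (h t)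
  have h2 : (fun t => det3 (w t) (fderiv ℝ w t (eb 0)) (fderiv ℝ w t (eb 1))) = fun _ => 0 := by
    funext t
    fin_cases i
    · have := h1 t
      simp only [Fin.zero_eta] at this
      rw [this]
      simp [det3, dot, crs]
    · have := h1 t
      simp only [Fin.mk_one] at this
      rw [this]
      simp [det3, dot, crs]
  rw [h2]
  simp [MM]

theorem TE2_smooth_cc {a b : QQ 2 → ℝ} (ha : ContDiff ℝ ∞ a) (hb : ContDiff ℝ ∞ b) :
    ContDiff ℝ ∞ fun t => cc ![a t, b t] :=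
  smooth_cc.comp (TE2_smooth_pair ha hb)

/-- maps of the torus to the sphere with degree `D` -/
structure TE2Good (w : QQ 2 → V3) (D : ℝ) : Prop where
  smooth : ContDiff ℝ ∞ w
  unit : ∀ t, dot (w t) (w t) = 1
  per0 : ∀ t, w (t + eb 0) = w t
  per1 : ∀ t, w (t + eb 1) = w t
  deg : (MM fun t => det3 (w t) (fderiv ℝ w t (eb 0)) (fderiv ℝ w t (eb 1))) / (4 * π) = D

theorem TE2_JJ {Y : EE 7 → EE 7 → EE 7 → ℝ} (hY : CForm OM Y) {w s : QQ 2 → V3} {D D' : ℝ}
    (hw : TE2Good w D) (hs : TE2Good s D') :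
    JJ Y (fun t => PT 0 0 0 (w t) (s t)) = D * JJ Y Sw + D' * JJ Y Ss := by
  obtain ⟨h1, h2, h3⟩ := TE2_surf 0 0 0 hw.smooth hs.smooth hw.unit hs.unit hw.per0 hw.per1
    hs.per0 hs.per1
  rw [JJ_eq hY h1, h2, h3, hw.deg, hs.deg]

theorem TE2_good1 : TE2Good (fun x => cc ![x 0, x 1]) dc := by
  have h : (fun x : QQ 2 => cc ![x 0, x 1]) = cc := by
    funext x
    congr 1
    ext i
    fin_cases i <;> rfl
  rw [h]
  exact ⟨smooth_cc, dot_cc, cc_per0, cc_per1, rfl⟩

theorem TE2_good2 : TE2Good (fun _ : QQ 2 => cc ![0, 0]) 0 :=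
  ⟨contDiff_const, fun _ => dot_cc _, fun _ => rfl, fun _ => rfl,
    TE2_deg_zero (i := 0) contDiff_const fun _ _ => rfl⟩

theorem TE2_good3 : TE2Good (fun x : QQ 2 => cc ![x 0, 0]) 0 := by
  have h : ContDiff ℝ ∞ fun x : QQ 2 => cc ![x 0, 0] :=
    TE2_smooth_cc (contDiff_apply _ _ _) contDiff_const
  refine ⟨h, fun _ => dot_cc _, fun t => ?_, fun t => ?_, TE2_deg_zero (i := 1) h fun t r => ?_⟩
  · have h0 : (t + eb 0 : QQ 2) 0 = t 0 + 1 := by simp
    rw [h0, TE2_cc0]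
  · have h0 : (t + eb 1 : QQ 2) 0 = t 0 := by simp
    rw [h0]
  · have h0 : (t + r • eb 1 : QQ 2) 0 = t 0 := by simp
    rw [h0]

theorem TE2_good4 : TE2Good (fun x : QQ 2 => cc ![x 1, 0]) 0 := by
  have h : ContDiff ℝ ∞ fun x : QQ 2 => cc ![x 1, 0] :=
    TE2_smooth_cc (contDiff_apply _ _ _) contDiff_const
  refine ⟨h, fun _ => dot_cc _, fun t => ?_, fun t => ?_, TE2_deg_zero (i := 0) h fun t r => ?_⟩
  · have h0 : (t + eb 0 : QQ 2) 1 = t 1 := by simp
    rw [h0]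
  · have h0 : (t + eb 1 : QQ 2) 1 = t 1 + 1 := by simp
    rw [h0, TE2_cc0]
  · have h0 : (t + r • eb 0 : QQ 2) 1 = t 1 := by simp
    rw [h0]

theorem TE2_good5 : TE2Good (fun x : QQ 2 => cc ![0, x 0]) 0 := by
  have h : ContDiff ℝ ∞ fun x : QQ 2 => cc ![0, x 0] :=
    TE2_smooth_cc contDiff_const (contDiff_apply _ _ _)
  refine ⟨h, fun _ => dot_cc _, fun t => ?_, fun t => ?_, TE2_deg_zero (i := 1) h fun t r => ?_⟩
  · have h0 : (t + eb 0 : QQ 2) 0 = t 0 + 1 := by simp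
    rw [h0, TE2_cc1]
  · have h0 : (t + eb 1 : QQ 2) 0 = t 0 := by simp
    rw [h0]
  · have h0 : (t + r • eb 1 : QQ 2) 0 = t 0 := by simp
    rw [h0]

theorem TE2_good6 : TE2Good (fun x : QQ 2 => cc ![0, x 1]) 0 := by
  have h : ContDiff ℝ ∞ fun x : QQ 2 => cc ![0, x 1] :=
    TE2_smooth_cc contDiff_const (contDiff_apply _ _ _)
  refine ⟨h, fun _ => dot_cc _, fun t => ?_, fun t => ?_, TE2_deg_zero (i := 0) h fun t r => ?_⟩
  · have h0 : (t + eb 0 : QQ 2) 1 = t 1 := by simp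
    rw [h0]
  · have h0 : (t + eb 1 : QQ 2) 1 = t 1 + 1 := by simp
    rw [h0, TE2_cc1]
  · have h0 : (t + r • eb 0 : QQ 2) 1 = t 1 := by simp
    rw [h0]

theorem mc_f0 {Y : EE 7 → EE 7 → EE 7 → ℝ} (hY : CForm OM Y) :
    mc (pull f0 Y) 0 1 = dc * JJ Y Sw ∧ mc (pull f0 Y) 2 3 = dc * JJ Y Ss ∧
      mc (pull f0 Y) 0 2 = 0 ∧ mc (pull f0 Y) 0 3 = 0 ∧ mc (pull f0 Y) 1 2 = 0 ∧
      mc (pull f0 Y) 1 3 = 0 := by
  have key : ∀ {i j : Fin 4}, i ≠ j → ∀ {w s : QQ 2 → V3} {D D' : ℝ}, TE2Good w D →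
      TE2Good s D' → (∀ x : QQ 2, f0 (Function.update (Function.update 0 i (x 0)) j (x 1)) =
        PT 0 0 0 (w x) (s x)) → mc (pull f0 Y) i j = D * JJ Y Sw + D' * JJ Y Ss := by
    intro i j hij w s D D' hw hs h
    rw [mean_slice_surf' TE2_smooth_f0 TE2_mem_f0 TE2_per_f0 hY hij 0, ← TE2_JJ hY hw hs]
    congr 1
    funext x
    exact h x
  refine ⟨?_, ?_, ?_, ?_, ?_, ?_⟩
  · rw [key (by decide) TE2_good1 TE2_good2 fun x => by simp [f0]]
    ring
  · rw [key (by decide) TE2_good2 TE2_good1 fun x => by simp [f0]]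
    ring
  · rw [key (by decide) TE2_good3 TE2_good4 fun x => by simp [f0]]
    ring
  · rw [key (by decide) TE2_good3 TE2_good6 fun x => by simp [f0]]
    ring
  · rw [key (by decide) TE2_good5 TE2_good4 fun x => by simp [f0]]
    ring
  · rw [key (by decide) TE2_good5 TE2_good6 fun x => by simp [f0]]
    ring

end H31R.Tp
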