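import Pool.Agent.Lib.H31R.TE2

/-!
# H31R, chunk TE3: the test maps `f1 ε`, `ε = ± 1`

`act k (1, 0, 0) (PT a b c w s) = PT (a + 1) b c w (rot w (4 π k b) s)` and `rot w φ (ε w) = ε w`. The means:
`(2, 3)`: the slice is a closed surface (torus) with degrees `dc` and `ε dc` (`ε^3 = ε`); `(0, 3)`, `(1, 3)`: in
`mean_slice_surf` choose `t` with `t 2 = 0`: there the derivative of `f1 ε` in the direction `eb 3` is `0`
(`fderiv_cc_zero`), so the integrand vanishes; `(0, 1)`: choose `t = 0`, `cc ![0, 0] = e3`.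
-/

open scoped ContDiff
open Real Set MeasureTheory

namespace H31R.Tp

theorem act_PT (k : ℕ) (n : ℤ × ℤ × ℤ) (a b c : ℝ) {w s : V3} (hw : dot w w = 1)
    (hs : dot s s = 1) :
    act k n (PT a b c w s) = PT (a + n.1) (b + n.2.1) (c + n.2.2) w (rot w (4 * π * k * n.1 * b) s) := by
  obtain ⟨-, h2, -, h4, -⟩ := PT_coord (a := a) (b := b) (c := c) hw hs
  have hy : yv (PT a b c w s) = exp a • w := QA_yv_mk7 _ _ _
  have hz : zv (PT a b c w s) = exp b • s := QA_zv_mk7 _ _ _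
  have h0 : PT a b c w s 0 = c := rfl
  unfold act
  rw [h2, h4, hy, hz, h0, QA_rot_smul, smul_smul, smul_smul, ← Real.exp_add, ← Real.exp_add]
  unfold PT
  rw [add_comm (n.1 : ℝ) a, add_comm (n.2.1 : ℝ) b]

theorem TE3_rot {w : V3} (hw : dot w w = 1) (φ ε : ℝ) : rot w φ (ε • w) = ε • w := by
  have h1 : crs w (ε • w) = 0 := by
    ext i
    fin_cases i
    · simp [crs]
      ring
    · simp [crs]
      ring
    · simp [crs]
      ring
  have h2 : dot w (ε • w) = ε := by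
    have h3 : dot w (ε • w) = ε * dot w w := by
      simp only [dot, Pi.smul_apply, smul_eq_mul]
      ring
    rw [h3, hw, mul_one]
  unfold rot
  rw [h1, h2]
  ext i
  simp only [Pi.add_apply, Pi.smul_apply, smul_eq_mul, Pi.zero_apply]
  ring

theorem TE3_unit {ε : ℝ} (hε : ε = 1 ∨ ε = -1) {w : V3} (hw : dot w w = 1) :
    dot (ε • w) (ε • w) = 1 := by
  rw [C0a_dot_smul, hw]
  rcases hε with h | h <;> rw [h] <;> norm_num

theorem TE3_smooth (ε : ℝ) : ContDiff ℝ ∞ (f1 ε) := by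
  have h : ContDiff ℝ ∞ fun t : QQ 4 => cc ![t 2, t 3] :=
    smooth_cc.comp (TE2_smooth_pair (contDiff_apply _ _ _) (contDiff_apply _ _ _))
  exact contDiff_PT (contDiff_apply _ _ _) (contDiff_apply _ _ _) contDiff_const h
    (h.const_smul ε)

theorem eqv_f1 (k : ℕ) {ε : ℝ} (hε : ε = 1 ∨ ε = -1) : Eqv k (f1 ε) n1 := by
  refine ⟨TE3_smooth ε, fun t => PT_mem (dot_cc _) (TE3_unit hε (dot_cc _)), fun i t => ?_⟩
  have hu := dot_cc ![t 2, t 3]
  fin_cases i
  · have h0 : (t + eb 0 : QQ 4) 0 = t 0 + 1 := by simp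
    have h1 : (t + eb 0 : QQ 4) 1 = t 1 := by simp
    have h2 : (t + eb 0 : QQ 4) 2 = t 2 := by simp
    have h3 : (t + eb 0 : QQ 4) 3 = t 3 := by simp
    simp only [Fin.zero_eta]
    unfold f1
    rw [h0, h1, h2, h3, act_PT k _ _ _ _ hu (TE3_unit hε hu), TE3_rot hu]
    simp [n1]
  · have h0 : (t + eb 1 : QQ 4) 0 = t 0 := by simp
    have h1 : (t + eb 1 : QQ 4) 1 = t 1 + 1 := by simp
    have h2 : (t + eb 1 : QQ 4) 2 = t 2 := by simp
    have h3 : (t + eb 1 : QQ 4) 3 = t 3 := by simp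
    simp only [Fin.mk_one]
    unfold f1
    rw [h0, h1, h2, h3, act_PT k _ _ _ _ hu (TE3_unit hε hu), TE3_rot hu]
    simp [n1]
  · have h0 : (t + eb 2 : QQ 4) 0 = t 0 := by simp
    have h1 : (t + eb 2 : QQ 4) 1 = t 1 := by simp
    have h2 : (t + eb 2 : QQ 4) 2 = t 2 + 1 := by simp
    have h3 : (t + eb 2 : QQ 4) 3 = t 3 := by simp
    simp only [Fin.reduceFinMk]
    unfold f1
    rw [h0, h1, h2, h3, TE2_cc0, act_PT k _ _ _ _ hu (TE3_unit hε hu), TE3_rot hu]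
    simp [n1]
  · have h0 : (t + eb 3 : QQ 4) 0 = t 0 := by simp
    have h1 : (t + eb 3 : QQ 4) 1 = t 1 := by simp
    have h2 : (t + eb 3 : QQ 4) 2 = t 2 := by simp
    have h3 : (t + eb 3 : QQ 4) 3 = t 3 + 1 := by simp
    simp only [Fin.reduceFinMk]
    unfold f1
    rw [h0, h1, h2, h3, TE2_cc1, act_PT k _ _ _ _ hu (TE3_unit hε hu), TE3_rot hu]
    simp [n1]

theorem TE3_det (ε : ℝ) (a b c : V3) : det3 (ε • a) (ε • b) (ε • c) = ε ^ 3 * det3 a b c := by
  simp only [det3, dot, crs, Pi.smul_apply, smul_eq_mul, Matrix.cons_val_zero, Matrix.cons_val_one,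
    Matrix.cons_val]
  ring

theorem TE3_good {ε : ℝ} (hε : ε = 1 ∨ ε = -1) :
    TE2Good (fun x : QQ 2 => ε • cc ![x 0, x 1]) (ε * dc) := by
  have h := TE2_good1
  refine ⟨h.smooth.const_smul ε, fun t => TE3_unit hε (h.unit t), fun t => ?_, fun t => ?_, ?_⟩
  · exact congrArg (fun v : V3 => ε • v) (h.per0 t)
  · exact congrArg (fun v : V3 => ε • v) (h.per1 t)
  · have e : ε ^ 3 = ε := by
      rcases hε with h | h <;> rw [h] <;> norm_num
    have e1 : ∀ t u, fderiv ℝ (fun x : QQ 2 => ε • cc ![x 0, x 1]) t u =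
        ε • fderiv ℝ (fun x : QQ 2 => cc ![x 0, x 1]) t u := by
      intro t u
      rw [fderiv_fun_const_smul ((h.smooth.differentiable (by simp)) t)]
      rfl
    have e2 : (fun t : QQ 2 => det3 (ε • cc ![t 0, t 1])
        (fderiv ℝ (fun x : QQ 2 => ε • cc ![x 0, x 1]) t (eb 0))
        (fderiv ℝ (fun x : QQ 2 => ε • cc ![x 0, x 1]) t (eb 1))) = fun t =>
        ε * det3 (cc ![t 0, t 1]) (fderiv ℝ (fun x : QQ 2 => cc ![x 0, x 1]) t (eb 0))
        (fderiv ℝ (fun x : QQ 2 => cc ![x 0, x 1]) t (eb 1)) := by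
      funext t
      rw [e1, e1, TE3_det, e]
    simp only [e2]
    rw [← h.deg]
    unfold MM
    rw [integral_const_mul, mul_div_assoc]

theorem TE3_zero_right {Y : EE 7 → EE 7 → EE 7 → ℝ} (hY : CForm OM Y) {p : EE 7} (hp : p ∈ OM)
    (u : EE 7) : Y p u 0 = 0 := by
  have h := hY.smul_right hp 0 u 0
  rwa [zero_smul, zero_mul] at h

theorem mc_f1 {k : ℕ} {ε : ℝ} (hε : ε = 1 ∨ ε = -1) {Y : EE 7 → EE 7 → EE 7 → ℝ}
    (hY : CForm OM Y) (hI : Inv k Y) :
    mc (pull (f1 ε) Y) 0 1 = YT Y ε ∧ mc (pull (f1 ε) Y) 2 3 = dc * (JJ Y Sw + ε * JJ Y Ss) ∧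
      mc (pull (f1 ε) Y) 0 3 = 0 ∧ mc (pull (f1 ε) Y) 1 3 = 0 := by
  have hc : ∀ r : ℝ, cc ![0, r] = e3 := fun r => cc_zero (by simp)
  have hz : ∀ (a b : QQ 2 → ℝ), ContDiff ℝ ∞ a → ContDiff ℝ ∞ b →
      (∀ (t : QQ 2) (r : ℝ), a (t + r • eb 1) = a t ∧ b (t + r • eb 1) = b t) →
      JJ Y (fun x : QQ 2 => PT (a x) (b x) 0 e3 (ε • e3)) = 0 := by
    intro a b ha hb h
    have h1 : ContDiff ℝ ∞ fun x : QQ 2 => PT (a x) (b x) 0 e3 (ε • e3) :=
      contDiff_PT ha hb contDiff_const contDiff_const contDiff_const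
    have h2 : ∀ t, fderiv ℝ (fun x : QQ 2 => PT (a x) (b x) 0 e3 (ε • e3)) t (eb 1) = 0 := by
      intro t
      apply TC6_fderiv_zero_of h1
      intro r
      rw [(h t r).1, (h t r).2]
    have h3 : (fun t => pull (fun x : QQ 2 => PT (a x) (b x) 0 e3 (ε • e3)) Y t (eb 0) (eb 1)) =
        fun _ => 0 := by
      funext t
      unfold pull
      rw [h2]
      exact TE3_zero_right hY (PT_mem dot_e3 (TE3_unit hε dot_e3)) _
    unfold JJ
    rw [h3]
    simp [MM]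
  have hx : ContDiff ℝ ∞ fun x : QQ 2 => x 0 := contDiff_apply _ _ _
  refine ⟨?_, ?_, ?_, ?_⟩
  · rw [mean_slice_surf (eqv_f1 k hε) hY hI (by decide) 0]
    unfold YT
    congr 1
    funext x
    simp [f1, hc]
  · rw [mean_slice_surf (eqv_f1 k hε) hY hI (by decide) 0]
    have h := TE2_JJ hY TE2_good1 (TE3_good hε)
    have e : (fun x : QQ 2 => f1 ε (Function.update (Function.update 0 2 (x 0)) 3 (x 1))) =
        fun x => PT 0 0 0 (cc ![x 0, x 1]) (ε • cc ![x 0, x 1]) := by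
      funext x
      simp [f1]
    rw [e, h]
    ring
  · rw [mean_slice_surf (eqv_f1 k hε) hY hI (by decide) 0]
    have e : (fun x : QQ 2 => f1 ε (Function.update (Function.update 0 0 (x 0)) 3 (x 1))) =
        fun x => PT (x 0) 0 0 e3 (ε • e3) := by
      funext x
      simp [f1, hc]
    rw [e]
    exact hz _ _ hx contDiff_const fun t r => ⟨by simp, rfl⟩
  · rw [mean_slice_surf (eqv_f1 k hε) hY hI (by decide) 0]
    have e : (fun x : QQ 2 => f1 ε (Function.update (Function.update 0 1 (x 0)) 3 (x 1))) =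
        fun x => PT 0 (x 0) 0 e3 (ε • e3) := by
      funext x
      simp [f1, hc]
    rw [e]
    exact hz _ _ contDiff_const hx fun t r => ⟨rfl, by simp⟩

end H31R.Tp
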