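import Pool.Agent.Lib.H31R.TB7
import Pool.Agent.Lib.H31R.TC7

/-!
# H31R, chunk TE4: `YT Y 1 - YT Y (-1) = 2 k JJ Y Ss` for closed invariant forms

(a) Let `G t = PT (t 1) (t 2) 0 e3 (sph (π t 0) (4 π k t 1 t 2))` and `Z = pull G Y` (`stokes3`). The faces
`t 0 = 0` and `t 0 = 1` give `YT Y 1` and `YT Y (-1)`. The faces `t 1 = 0, 1` cancel:
`G (t + eb 1) = act k (1, 0, 0) (G t)` (`rot e3 α (sph θ φ) = sph θ (φ + α)`). The face `t 2 = 1` is
`act k (0, 1, 0)` of `PT (t 1) 0 0 e3 (sph (π t 0) (4 π k t 1))`, so with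
`I j = MM (fun t : QQ 2 => pull (Fj j) Y t (eb 0) (eb 1))`, `Fj j t = PT (t 1) 0 0 e3 (sph (π t 0) (4 π j t 1))`, one gets
`YT Y 1 - YT Y (-1) = I k - I 0`.
(b) Let `G t = PT (t 0 * t 2) 0 0 e3 (sph (π t 1) (4 π j t 2))`, `Z = pull G Y` (`stokes3`). The face `t 0 = 1` gives
`I j`, the face `t 0 = 0` the closed surface (sphere) `PT 0 0 0 e3 (sph (π t 0) (4 π j t 1))`, whose integral is
`2 j * JJ Y Ss` by `JJ_eq` (degrees `0` and `2 j`; for `j = 0` this is `0`). The faces `t 1 = 0, 1` vanish (the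
vectors `∂0 G`, `∂2 G` are parallel), the face `t 2 = 0` vanishes (`∂0 G = 0`), and the face `t 2 = 1` does
not depend on `j` (`sph θ (φ + 4 π j) = sph θ φ`). So `I k - I 0 = 2 k JJ Y Ss`.
-/

open scoped ContDiff
open Real Set MeasureTheory

namespace H31R.Tp

/-- The integral over `(t 0, t 1) ↦ (x = (t 1, 0, 0), w = e3, s = sph (π t 0) (4 π j t 1))`. -/
noncomputable def Ij (Y : EE 7 → EE 7 → EE 7 → ℝ) (j : ℕ) : ℝ :=
  JJ Y fun t => PT (t 1) 0 0 e3 (sph (π * t 0) (4 * π * j * t 1))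

theorem TE4_e3 : e3 = (![0, 0, 1] : V3) := rfl

theorem TE4_act_PT (k : ℕ) (n : ℤ × ℤ × ℤ) (a b c : ℝ) {w s : V3} (hw : dot w w = 1)
    (hs : dot s s = 1) : act k n (PT a b c w s) =
      PT (a + n.1) (b + n.2.1) (c + n.2.2) w (rot w (4 * π * k * n.1 * b) s) := by
  obtain ⟨-, h2, -, h4, -⟩ := PT_coord (a := a) (b := b) (c := c) hw hs
  have hy : yv (PT a b c w s) = exp a • w := QA_yv_mk7 _ _ _
  have hz : zv (PT a b c w s) = exp b • s := QA_zv_mk7 _ _ _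
  have h0 : PT a b c w s 0 = c := rfl
  unfold act
  rw [h2, h4, hy, hz, h0, QA_rot_smul, smul_smul, smul_smul, ← Real.exp_add, ← Real.exp_add]
  unfold PT
  rw [add_comm (n.1 : ℝ) a, add_comm (n.2.1 : ℝ) b]

theorem TE4_rot_sph (α θ φ : ℝ) : rot e3 α (sph θ φ) = sph θ (φ + α) := by
  rw [TE4_e3]
  ext i
  fin_cases i
  · simp [rot, sph, crs, dot, cos_add]
    ring
  · simp [rot, sph, crs, dot, sin_add]
    ring
  · simp [rot, sph, crs, dot]
    ring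

theorem TE4_sph_zero (φ : ℝ) : sph 0 φ = (1 : ℝ) • e3 := by
  rw [TE4_e3]
  ext i
  fin_cases i <;> simp [sph]

theorem TE4_sph_pi (φ : ℝ) : sph π φ = (-1 : ℝ) • e3 := by
  rw [TE4_e3]
  ext i
  fin_cases i <;> simp [sph]

theorem TE4_sph_period (θ : ℝ) (j : ℕ) : sph θ (4 * π * j) = sph θ 0 := by
  have h1 : cos (4 * π * j) = 1 := by
    have := Real.cos_nat_mul_two_pi (2 * j)
    rw [← this]
    congr 1
    push_cast
    ring
  have h2 : sin (4 * π * j) = 0 := by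
    have := Real.sin_nat_mul_pi (4 * j)
    rw [← this]
    congr 1
    push_cast
    ring
  unfold sph
  rw [h1, h2, cos_zero, sin_zero]

/-- smoothness of `sph` -/
theorem TE4_smooth_sph {m : ℕ} {θ φ : QQ m → ℝ} (h1 : ContDiff ℝ ∞ θ) (h2 : ContDiff ℝ ∞ φ) :
    ContDiff ℝ ∞ fun t => sph (θ t) (φ t) := by
  rw [contDiff_pi]
  intro i
  fin_cases i
  · exact h1.sin.mul h2.cos
  · exact h1.sin.mul h2.sin
  · exact h1.cos

theorem TE4_smooth_PT {m : ℕ} {a b θ φ : QQ m → ℝ} (ha : ContDiff ℝ ∞ a) (hb : ContDiff ℝ ∞ b)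
    (h1 : ContDiff ℝ ∞ θ) (h2 : ContDiff ℝ ∞ φ) :
    ContDiff ℝ ∞ fun t => PT (a t) (b t) 0 e3 (sph (θ t) (φ t)) :=
  contDiff_PT ha hb contDiff_const contDiff_const (TE4_smooth_sph h1 h2)

theorem TE4_mem (a b θ φ : ℝ) : PT a b 0 e3 (sph θ φ) ∈ OM := PT_mem dot_e3 (dot_sph θ φ)

/-- affine embeddings -/
theorem TE4_face {G : QQ 3 → EE 7} (hG : ContDiff ℝ ∞ G) (Y : EE 7 → EE 7 → EE 7 → ℝ) (c : QQ 3)
    (L : QQ 2 →L[ℝ] QQ 3) (ι : QQ 2 → QQ 3) (hι : ∀ x, ι x = c + L x) (x u v : QQ 2) :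
    pull (fun x => G (ι x)) Y x u v = pull G Y (ι x) (L u) (L v) := by
  have h1 : HasFDerivAt ι L x := by
    have h2 : ι = fun x => c + L x := funext hι
    rw [h2]
    exact (L.hasFDerivAt).const_add c
  have h3 : HasFDerivAt (fun x => G (ι x)) ((fderiv ℝ G (ι x)).comp L) x :=
    ((hG.differentiable (by simp)) (ι x)).hasFDerivAt.comp x h1
  unfold pull
  rw [h3.fderiv]
  rfl

theorem TE4_face12 {G : QQ 3 → EE 7} (hG : ContDiff ℝ ∞ G) (Y : EE 7 → EE 7 → EE 7 → ℝ) (a : ℝ) :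
    JJ Y (fun x => G ![a, x 0, x 1]) =
      MM (fun x : QQ 2 => pull G Y ![a, x 0, x 1] (eb 1) (eb 2)) := by
  unfold JJ
  congr 1
  funext x
  have h := TE4_face hG Y ![a, 0, 0] (ContinuousLinearMap.pi ![0, ContinuousLinearMap.proj 0,
    ContinuousLinearMap.proj 1]) (fun x => ![a, x 0, x 1]) (fun x => by
      ext i
      fin_cases i <;> simp) x (eb 0) (eb 1)
  rw [h]
  congr 1
  · ext i
    fin_cases i <;> simp
  · ext i
    fin_cases i <;> simp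

theorem TE4_face02 {G : QQ 3 → EE 7} (hG : ContDiff ℝ ∞ G) (Y : EE 7 → EE 7 → EE 7 → ℝ) (a : ℝ) :
    JJ Y (fun x => G ![x 0, a, x 1]) =
      MM (fun x : QQ 2 => pull G Y ![x 0, a, x 1] (eb 0) (eb 2)) := by
  unfold JJ
  congr 1
  funext x
  have h := TE4_face hG Y ![0, a, 0] (ContinuousLinearMap.pi ![ContinuousLinearMap.proj 0, 0,
    ContinuousLinearMap.proj 1]) (fun x => ![x 0, a, x 1]) (fun x => by
      ext i
      fin_cases i <;> simp) x (eb 0) (eb 1)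
  rw [h]
  congr 1
  · ext i
    fin_cases i <;> simp
  · ext i
    fin_cases i <;> simp

theorem TE4_face01 {G : QQ 3 → EE 7} (hG : ContDiff ℝ ∞ G) (Y : EE 7 → EE 7 → EE 7 → ℝ) (a : ℝ) :
    JJ Y (fun x => G ![x 0, x 1, a]) =
      MM (fun x : QQ 2 => pull G Y ![x 0, x 1, a] (eb 0) (eb 1)) := by
  unfold JJ
  congr 1
  funext x
  have h := TE4_face hG Y ![0, 0, a] (ContinuousLinearMap.pi ![ContinuousLinearMap.proj 0,
    ContinuousLinearMap.proj 1, 0]) (fun x => ![x 0, x 1, a]) (fun x => by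
      ext i
      fin_cases i <;> simp) x (eb 0) (eb 1)
  rw [h]
  congr 1
  · ext i
    fin_cases i <;> simp
  · ext i
    fin_cases i <;> simp

/-- Stokes for a map of the cube. -/
theorem TE4_stokes {Y : EE 7 → EE 7 → EE 7 → ℝ} (hY : CForm OM Y) {G : QQ 3 → EE 7}
    (hG : ContDiff ℝ ∞ G) (mem : ∀ t, G t ∈ OM) :
    (JJ Y (fun x => G ![1, x 0, x 1]) - JJ Y (fun x => G ![0, x 0, x 1])) -
      (JJ Y (fun x => G ![x 0, 1, x 1]) - JJ Y (fun x => G ![x 0, 0, x 1])) +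
      (JJ Y (fun x => G ![x 0, x 1, 1]) - JJ Y (fun x => G ![x 0, x 1, 0])) = 0 := by
  have hZ : CForm univ (pull G Y) :=
    pull_cform isOpen_univ isOpen_OM hG.contDiffOn (fun p _ => mem p) hY
  have h := stokes3 hZ
  rw [TE4_face12 hG, TE4_face12 hG, TE4_face02 hG, TE4_face02 hG, TE4_face01 hG, TE4_face01 hG]
  exact h

/-- invariance -/
theorem TE4_JJ_act {k : ℕ} {Y : EE 7 → EE 7 → EE 7 → ℝ} (hI : Inv k Y) (n : ℤ × ℤ × ℤ)
    {F : QQ 2 → EE 7} (hF : ContDiff ℝ ∞ F) (mem : ∀ t, F t ∈ OM) :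
    JJ Y (fun t => act k n (F t)) = JJ Y F := by
  unfold JJ
  congr 1
  funext t
  have h1 : HasFDerivAt (fun t => act k n (F t)) ((fderiv ℝ (act k n) (F t)).comp
      (fderiv ℝ F t)) t :=
    (((contDiffAt_act k n (mem t)).differentiableAt (by simp)).hasFDerivAt).comp t
      ((hF.differentiable (by simp)) t).hasFDerivAt
  unfold pull
  rw [h1.fderiv]
  exact hI n (F t) (mem t) _ _

theorem YT_sub_eq_Ij {k : ℕ} {Y : EE 7 → EE 7 → EE 7 → ℝ} (hY : CForm OM Y) (hI : Inv k Y) :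
    YT Y 1 - YT Y (-1) = Ij Y k - Ij Y 0 := by
  have hG : ContDiff ℝ ∞ fun t : QQ 3 =>
      PT (t 1) (t 2) 0 e3 (sph (π * t 0) (4 * π * k * (t 1 * t 2))) := by
    apply TE4_smooth_PT <;> fun_prop
  have h := TE4_stokes hY hG fun t => TE4_mem _ _ _ _
  -- the faces
  have e1 : JJ Y (fun x : QQ 2 => PT ((![1, x 0, x 1] : QQ 3) 1) ((![1, x 0, x 1] : QQ 3) 2) 0 e3
      (sph (π * (![1, x 0, x 1] : QQ 3) 0)
        (4 * π * k * ((![1, x 0, x 1] : QQ 3) 1 * (![1, x 0, x 1] : QQ 3) 2)))) = YT Y (-1) := by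
    unfold YT
    congr 1
    funext x
    show PT (x 0) (x 1) 0 e3 (sph (π * 1) (4 * π * k * (x 0 * x 1))) = _
    rw [mul_one, TE4_sph_pi]
  have e2 : JJ Y (fun x : QQ 2 => PT ((![0, x 0, x 1] : QQ 3) 1) ((![0, x 0, x 1] : QQ 3) 2) 0 e3
      (sph (π * (![0, x 0, x 1] : QQ 3) 0)
        (4 * π * k * ((![0, x 0, x 1] : QQ 3) 1 * (![0, x 0, x 1] : QQ 3) 2)))) = YT Y 1 := by
    unfold YT
    congr 1
    funext x
    show PT (x 0) (x 1) 0 e3 (sph (π * 0) (4 * π * k * (x 0 * x 1))) = _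
    rw [mul_zero, TE4_sph_zero]
  have e3' : JJ Y (fun x : QQ 2 => PT ((![x 0, 1, x 1] : QQ 3) 1) ((![x 0, 1, x 1] : QQ 3) 2) 0 e3
      (sph (π * (![x 0, 1, x 1] : QQ 3) 0)
        (4 * π * k * ((![x 0, 1, x 1] : QQ 3) 1 * (![x 0, 1, x 1] : QQ 3) 2)))) =
      JJ Y (fun x : QQ 2 => PT ((![x 0, 0, x 1] : QQ 3) 1) ((![x 0, 0, x 1] : QQ 3) 2) 0 e3
      (sph (π * (![x 0, 0, x 1] : QQ 3) 0)
        (4 * π * k * ((![x 0, 0, x 1] : QQ 3) 1 * (![x 0, 0, x 1] : QQ 3) 2)))) := by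
    have hF : ContDiff ℝ ∞ fun x : QQ 2 => PT 0 (x 1) 0 e3 (sph (π * x 0) 0) := by
      apply TE4_smooth_PT <;> fun_prop
    have h1 := TE4_JJ_act hI (1, 0, 0) hF fun t => TE4_mem _ _ _ _
    have h2 : (fun x : QQ 2 => PT ((![x 0, 0, x 1] : QQ 3) 1) ((![x 0, 0, x 1] : QQ 3) 2) 0 e3
      (sph (π * (![x 0, 0, x 1] : QQ 3) 0)
        (4 * π * k * ((![x 0, 0, x 1] : QQ 3) 1 * (![x 0, 0, x 1] : QQ 3) 2)))) =
        fun x : QQ 2 => PT 0 (x 1) 0 e3 (sph (π * x 0) 0) := by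
      funext x
      show PT 0 (x 1) 0 e3 (sph (π * x 0) (4 * π * k * (0 * x 1))) = _
      rw [zero_mul, mul_zero]
    have h3 : (fun x : QQ 2 => PT ((![x 0, 1, x 1] : QQ 3) 1) ((![x 0, 1, x 1] : QQ 3) 2) 0 e3
      (sph (π * (![x 0, 1, x 1] : QQ 3) 0)
        (4 * π * k * ((![x 0, 1, x 1] : QQ 3) 1 * (![x 0, 1, x 1] : QQ 3) 2)))) =
        fun x : QQ 2 => act k (1, 0, 0) (PT 0 (x 1) 0 e3 (sph (π * x 0) 0)) := by
      funext x
      show PT 1 (x 1) 0 e3 (sph (π * x 0) (4 * π * k * (1 * x 1))) = _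
      rw [TE4_act_PT k (1, 0, 0) 0 (x 1) 0 dot_e3 (dot_sph _ _), TE4_rot_sph]
      simp
    rw [h2, h3, h1]
  have e4 : JJ Y (fun x : QQ 2 => PT ((![x 0, x 1, 1] : QQ 3) 1) ((![x 0, x 1, 1] : QQ 3) 2) 0 e3
      (sph (π * (![x 0, x 1, 1] : QQ 3) 0)
        (4 * π * k * ((![x 0, x 1, 1] : QQ 3) 1 * (![x 0, x 1, 1] : QQ 3) 2)))) = Ij Y k := by
    have hF : ContDiff ℝ ∞ fun x : QQ 2 => PT (x 1) 0 0 e3 (sph (π * x 0) (4 * π * k * x 1)) := by
      apply TE4_smooth_PT <;> fun_prop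
    have h1 := TE4_JJ_act hI (0, 1, 0) hF fun t => TE4_mem _ _ _ _
    unfold Ij
    rw [← h1]
    congr 1
    funext x
    show PT (x 1) 1 0 e3 (sph (π * x 0) (4 * π * k * (x 1 * 1))) = _
    rw [TE4_act_PT k (0, 1, 0) (x 1) 0 0 dot_e3 (dot_sph _ _), TE4_rot_sph]
    simp
  have e5 : JJ Y (fun x : QQ 2 => PT ((![x 0, x 1, 0] : QQ 3) 1) ((![x 0, x 1, 0] : QQ 3) 2) 0 e3
      (sph (π * (![x 0, x 1, 0] : QQ 3) 0)
        (4 * π * k * ((![x 0, x 1, 0] : QQ 3) 1 * (![x 0, x 1, 0] : QQ 3) 2)))) = Ij Y 0 := by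
    unfold Ij
    congr 1
    funext x
    show PT (x 1) 0 0 e3 (sph (π * x 0) (4 * π * k * (x 1 * 0))) = _
    simp
  rw [e1, e2, e3', e4, e5] at h
  linarith

/-- derivative of `sph` -/
theorem TE4_fderiv_sph (a b : ℝ) (t : QQ 2) :
    fderiv ℝ (fun t : QQ 2 => sph (a * t 0) (b * t 1)) t (eb 0) =
      ![a * cos (a * t 0) * cos (b * t 1), a * cos (a * t 0) * sin (b * t 1), -a * sin (a * t 0)] ∧
    fderiv ℝ (fun t : QQ 2 => sph (a * t 0) (b * t 1)) t (eb 1) =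
      ![-b * sin (a * t 0) * sin (b * t 1), b * sin (a * t 0) * cos (b * t 1), 0] := by
  have p0 : HasFDerivAt (fun t : QQ 2 => a * t 0)
      (a • (ContinuousLinearMap.proj 0 : QQ 2 →L[ℝ] ℝ)) t :=
    ((ContinuousLinearMap.proj (R := ℝ) (φ := fun _ : Fin 2 => ℝ) 0).hasFDerivAt).const_mul a
  have p1 : HasFDerivAt (fun t : QQ 2 => b * t 1)
      (b • (ContinuousLinearMap.proj 1 : QQ 2 →L[ℝ] ℝ)) t :=
    ((ContinuousLinearMap.proj (R := ℝ) (φ := fun _ : Fin 2 => ℝ) 1).hasFDerivAt).const_mul b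
  have hd : DifferentiableAt ℝ (fun t : QQ 2 => sph (a * t 0) (b * t 1)) t :=
    ((TE4_smooth_sph (by fun_prop) (by fun_prop)).differentiable (by simp)) t
  have hc : ∀ (i : Fin 3) (u : QQ 2), fderiv ℝ (fun t : QQ 2 => sph (a * t 0) (b * t 1)) t u i =
      fderiv ℝ (fun t : QQ 2 => sph (a * t 0) (b * t 1) i) t u := by
    intro i u
    have h1 := ((ContinuousLinearMap.proj (R := ℝ) (φ := fun _ : Fin 3 => ℝ) i).hasFDerivAt).comp t
      hd.hasFDerivAt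
    have h2 := h1.fderiv
    have h3 : (fun t : QQ 2 => sph (a * t 0) (b * t 1) i) =
        (ContinuousLinearMap.proj (R := ℝ) (φ := fun _ : Fin 3 => ℝ) i) ∘
          fun t : QQ 2 => sph (a * t 0) (b * t 1) := rfl
    rw [h3, h2]
    rfl
  have c0 : HasFDerivAt (fun t : QQ 2 => sph (a * t 0) (b * t 1) 0) _ t := (p0.sin).mul (p1.cos)
  have c1 : HasFDerivAt (fun t : QQ 2 => sph (a * t 0) (b * t 1) 1) _ t := (p0.sin).mul (p1.sin)
  have c2 : HasFDerivAt (fun t : QQ 2 => sph (a * t 0) (b * t 1) 2) _ t := p0.cos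
  constructor
  · ext i
    rw [hc]
    fin_cases i
    · show fderiv ℝ (fun t : QQ 2 => sph (a * t 0) (b * t 1) 0) t (eb 0) = _
      rw [c0.fderiv]
      simp
      ring
    · show fderiv ℝ (fun t : QQ 2 => sph (a * t 0) (b * t 1) 1) t (eb 0) = _
      rw [c1.fderiv]
      simp
      ring
    · show fderiv ℝ (fun t : QQ 2 => sph (a * t 0) (b * t 1) 2) t (eb 0) = _
      rw [c2.fderiv]
      simp
      ring
  · ext i
    rw [hc]
    fin_cases i
    · show fderiv ℝ (fun t : QQ 2 => sph (a * t 0) (b * t 1) 0) t (eb 1) = _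
      rw [c0.fderiv]
      simp
      ring
    · show fderiv ℝ (fun t : QQ 2 => sph (a * t 0) (b * t 1) 1) t (eb 1) = _
      rw [c1.fderiv]
      simp
      ring
    · show fderiv ℝ (fun t : QQ 2 => sph (a * t 0) (b * t 1) 2) t (eb 1) = _
      rw [c2.fderiv]
      simp

theorem TE4_det_sph (a b : ℝ) (t : QQ 2) :
    det3 (sph (a * t 0) (b * t 1)) (fderiv ℝ (fun t : QQ 2 => sph (a * t 0) (b * t 1)) t (eb 0))
      (fderiv ℝ (fun t : QQ 2 => sph (a * t 0) (b * t 1)) t (eb 1)) = b * (a * sin (a * t 0)) := by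
  rw [(TE4_fderiv_sph a b t).1, (TE4_fderiv_sph a b t).2]
  have h1 := sin_sq_add_cos_sq (b * t 1)
  have h2 := sin_sq_add_cos_sq (a * t 0)
  simp only [det3, dot, crs, sph, Matrix.cons_val_zero, Matrix.cons_val_one, Matrix.cons_val]
  linear_combination (a * b * sin (a * t 0)) * (sin (a * t 0) ^ 2 * h1 +
    cos (a * t 0) ^ 2 * h1 + h2)

/-- the spheres `S_j` -/
noncomputable def TE4_S (j : ℕ) (t : QQ 2) : EE 7 := PT 0 0 0 e3 (sph (π * t 0) (4 * π * j * t 1))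

theorem TE4_fderiv_zero_of {F : QQ 2 → EE 7} {t : QQ 2} {i : Fin 2} (hF : ContDiff ℝ ∞ F)
    (h : ∀ r : ℝ, F (t + r • eb i) = F t) : fderiv ℝ F t (eb i) = 0 := by
  have h1 : HasDerivAt (fun r : ℝ => F (t + r • eb i)) (fderiv ℝ F t (eb i)) 0 := by
    have h2 : HasDerivAt (fun r : ℝ => t + r • (eb i : QQ 2)) (eb i) 0 := by
      have := ((hasDerivAt_id (0 : ℝ)).smul_const (eb i : QQ 2)).const_add t
      simpa using this
    have h3 : HasFDerivAt F (fderiv ℝ F t) (t + (0 : ℝ) • (eb i : QQ 2)) := by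
      rw [zero_smul, add_zero]
      exact ((hF.differentiable (by simp)) t).hasFDerivAt
    exact h3.comp_hasDerivAt (0 : ℝ) h2
  have h4 : (fun r : ℝ => F (t + r • eb i)) = fun _ => F t := funext h
  rw [h4] at h1
  exact h1.unique (hasDerivAt_const (0 : ℝ) (F t))

theorem TE4_surf_S (j : ℕ) : Surf (TE4_S j) := by
  have hs : ContDiff ℝ ∞ (TE4_S j) := by
    have : ContDiff ℝ ∞ fun t : QQ 2 => PT 0 0 0 e3 (sph (π * t 0) (4 * π * j * t 1)) := by
      apply TE4_smooth_PT <;> fun_prop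
    exact this
  refine ⟨hs, fun t => TE4_mem _ _ _ _, fun t => ?_, Or.inr fun t ht => ?_⟩
  · unfold TE4_S
    congr 1
    have h0 : (t + eb 1 : QQ 2) 0 = t 0 := by simp
    have h1 : (t + eb 1 : QQ 2) 1 = t 1 + 1 := by simp
    rw [h0, h1]
    have hc : cos (4 * π * j * (t 1 + 1)) = cos (4 * π * j * t 1) := by
      have := Real.cos_add_nat_mul_two_pi (4 * π * j * t 1) (2 * j)
      rw [← this]
      congr 1
      push_cast
      ring
    have hsn : sin (4 * π * j * (t 1 + 1)) = sin (4 * π * j * t 1) := by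
      have := Real.sin_add_nat_mul_two_pi (4 * π * j * t 1) (2 * j)
      rw [← this]
      congr 1
      push_cast
      ring
    unfold sph
    rw [hc, hsn]
  · apply TE4_fderiv_zero_of hs
    intro r
    unfold TE4_S
    have h0 : (t + r • eb 1 : QQ 2) 0 = t 0 := by simp
    rw [h0]
    rcases ht with ht | ht
    · rw [ht, mul_zero, TE4_sph_zero, TE4_sph_zero]
    · rw [ht, mul_one, TE4_sph_pi, TE4_sph_pi]

theorem TE4_Af_S (j : ℕ) : JJ Af (TE4_S j) = 2 * j := by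
  have hS := TE4_surf_S j
  rw [JJ_Af_eq hS.smooth hS.mem]
  have h1 : (fun t => sv (TE4_S j t)) = fun t : QQ 2 => sph (π * t 0) (4 * π * j * t 1) := by
    funext t
    exact (PT_coord dot_e3 (dot_sph _ _)).2.2.2.2
  have hSs := surf_Ss
  have h2 := JJ_Af_eq hSs.smooth hSs.mem
  rw [JJ_Af_Ss] at h2
  have h3 : (fun t => sv (Ss t)) = fun t : QQ 2 => sph (π * t 0) (2 * π * t 1) := by
    funext t
    exact (PT_coord dot_e3 (dot_sph _ _)).2.2.2.2
  have h4 : (fun t => det3 (sv (Ss t)) (fderiv ℝ (fun t => sv (Ss t)) t (eb 0))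
      (fderiv ℝ (fun t => sv (Ss t)) t (eb 1))) =
      fun t : QQ 2 => (2 * π) * (π * sin (π * t 0)) := by
    rw [h3]
    funext t
    have := congrFun h3 t
    rw [this]
    exact TE4_det_sph π (2 * π) t
  have h5 : (fun t => det3 (sv (TE4_S j t)) (fderiv ℝ (fun t => sv (TE4_S j t)) t (eb 0))
      (fderiv ℝ (fun t => sv (TE4_S j t)) t (eb 1))) =
      fun t : QQ 2 => (2 * j : ℝ) * ((2 * π) * (π * sin (π * t 0))) := by
    rw [h1]
    funext t
    have := congrFun h1 t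
    rw [this, TE4_det_sph π (4 * π * j) t]
    ring
  rw [h4] at h2
  rw [h5]
  have h6 : MM (fun t : QQ 2 => (2 * j : ℝ) * ((2 * π) * (π * sin (π * t 0)))) =
      (2 * j : ℝ) * MM (fun t : QQ 2 => (2 * π) * (π * sin (π * t 0))) := by
    unfold MM
    rw [integral_const_mul]
  rw [h6, mul_div_assoc, ← h2, mul_one]

theorem TE4_JJ_zero {Y : EE 7 → EE 7 → EE 7 → ℝ} {F : QQ 2 → EE 7}
    (h : ∀ t, pull F Y t (eb 0) (eb 1) = 0) : JJ Y F = 0 := by
  unfold JJ MM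
  simp [h]

theorem TE4_Wf_S (j : ℕ) : JJ Wf (TE4_S j) = 0 := by
  have hS := TE4_surf_S j
  rw [JJ_Wf_eq hS.smooth hS.mem]
  have h1 : (fun t => wv (TE4_S j t)) = fun _ : QQ 2 => e3 := by
    funext t
    exact (PT_coord dot_e3 (dot_sph _ _)).2.2.2.1
  rw [h1]
  unfold MM
  simp [det3, dot, crs]

theorem TE4_Y_zero {Y : EE 7 → EE 7 → EE 7 → ℝ} (hY : CForm OM Y) {p : EE 7} (hp : p ∈ OM)
    (a b : ℝ) (v : EE 7) : Y p (a • v) (b • v) = 0 := by
  rw [hY.smul_left p hp, hY.smul_right hp, hY.self hp]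
  ring

theorem Ij_sub {Y : EE 7 → EE 7 → EE 7 → ℝ} (hY : CForm OM Y) (j : ℕ) :
    Ij Y j - Ij Y 0 = 2 * j * JJ Y Ss := by
  -- the integral over the face `t 2 = 1`
  have key : ∀ j : ℕ, Ij Y j - JJ Y (TE4_S j) +
      JJ Y (fun x : QQ 2 => PT (x 0) 0 0 e3 (sph (π * x 1) 0)) = 0 := by
    intro j
    have hG : ContDiff ℝ ∞ fun t : QQ 3 =>
        PT (t 0 * t 2) 0 0 e3 (sph (π * t 1) (4 * π * j * t 2)) := by
      apply TE4_smooth_PT <;> fun_prop
    have h := TE4_stokes hY hG fun t => TE4_mem _ _ _ _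
    have e1 : JJ Y (fun x : QQ 2 => PT ((![1, x 0, x 1] : QQ 3) 0 * (![1, x 0, x 1] : QQ 3) 2) 0 0
        e3 (sph (π * (![1, x 0, x 1] : QQ 3) 1) (4 * π * j * (![1, x 0, x 1] : QQ 3) 2))) =
        Ij Y j := by
      unfold Ij
      congr 1
      funext x
      show PT (1 * x 1) 0 0 e3 (sph (π * x 0) (4 * π * j * x 1)) = _
      rw [one_mul]
    have e2 : JJ Y (fun x : QQ 2 => PT ((![0, x 0, x 1] : QQ 3) 0 * (![0, x 0, x 1] : QQ 3) 2) 0 0
        e3 (sph (π * (![0, x 0, x 1] : QQ 3) 1) (4 * π * j * (![0, x 0, x 1] : QQ 3) 2))) =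
        JJ Y (TE4_S j) := by
      congr 1
      funext x
      show PT (0 * x 1) 0 0 e3 (sph (π * x 0) (4 * π * j * x 1)) = _
      rw [zero_mul]
      rfl
    have par : ∀ c : ℝ, c = 0 ∨ c = 1 → JJ Y (fun x : QQ 2 =>
        PT ((![x 0, c, x 1] : QQ 3) 0 * (![x 0, c, x 1] : QQ 3) 2) 0 0
        e3 (sph (π * (![x 0, c, x 1] : QQ 3) 1) (4 * π * j * (![x 0, c, x 1] : QQ 3) 2))) = 0 := by
      intro c hc
      obtain ⟨s, hs, hs2⟩ : ∃ s : V3, dot s s = 1 ∧ ∀ φ, sph (π * c) φ = s := by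
        refine ⟨sph (π * c) 0, dot_sph _ _, fun φ => ?_⟩
        rcases hc with rfl | rfl
        · rw [mul_zero, TE4_sph_zero, TE4_sph_zero]
        · rw [mul_one, TE4_sph_pi, TE4_sph_pi]
      have h1 : (fun x : QQ 2 =>
        PT ((![x 0, c, x 1] : QQ 3) 0 * (![x 0, c, x 1] : QQ 3) 2) 0 0
        e3 (sph (π * (![x 0, c, x 1] : QQ 3) 1) (4 * π * j * (![x 0, c, x 1] : QQ 3) 2))) =
        fun x : QQ 2 => (fun r : ℝ => PT r 0 0 e3 s) (x 0 * x 1) := by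
        funext x
        show PT (x 0 * x 1) 0 0 e3 (sph (π * c) (4 * π * j * x 1)) = _
        rw [hs2]
      rw [h1]
      apply TE4_JJ_zero
      intro t
      have hg : ContDiff ℝ ∞ fun x : QQ 1 => PT (x 0) 0 0 e3 s :=
        contDiff_PT (by fun_prop) contDiff_const contDiff_const contDiff_const contDiff_const
      have hg' : DifferentiableAt ℝ (fun r : ℝ => PT r 0 0 e3 s) (t 0 * t 1) := by
        have h2 : (fun r : ℝ => PT r 0 0 e3 s) = (fun x : QQ 1 => PT (x 0) 0 0 e3 s) ∘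
            fun r : ℝ => (fun _ => r : QQ 1) := rfl
        rw [h2]
        apply DifferentiableAt.comp
        · exact (hg.differentiable (by simp)) _
        · exact differentiableAt_pi.2 fun _ => differentiableAt_id
      have hp : HasFDerivAt (fun x : QQ 2 => x 0 * x 1)
          (t 0 • (ContinuousLinearMap.proj 1 : QQ 2 →L[ℝ] ℝ) +
            t 1 • (ContinuousLinearMap.proj 0 : QQ 2 →L[ℝ] ℝ)) t :=
        ((ContinuousLinearMap.proj (R := ℝ) (φ := fun _ : Fin 2 => ℝ) 0).hasFDerivAt).mul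
          ((ContinuousLinearMap.proj (R := ℝ) (φ := fun _ : Fin 2 => ℝ) 1).hasFDerivAt)
      have h3 := hg'.hasFDerivAt.comp t hp
      unfold pull
      rw [show fderiv ℝ (fun x : QQ 2 => (fun r : ℝ => PT r 0 0 e3 s) (x 0 * x 1)) t = _ from
        h3.fderiv]
      have h4 : ∀ a : ℝ, fderiv ℝ (fun r : ℝ => PT r 0 0 e3 s) (t 0 * t 1) a =
          a • fderiv ℝ (fun r : ℝ => PT r 0 0 e3 s) (t 0 * t 1) 1 := by
        intro a
        rw [← map_smul, smul_eq_mul, mul_one]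
      rw [ContinuousLinearMap.comp_apply, ContinuousLinearMap.comp_apply,
        h4 ((t 0 • (ContinuousLinearMap.proj 1 : QQ 2 →L[ℝ] ℝ) +
            t 1 • (ContinuousLinearMap.proj 0 : QQ 2 →L[ℝ] ℝ)) (eb 0)),
        h4 ((t 0 • (ContinuousLinearMap.proj 1 : QQ 2 →L[ℝ] ℝ) +
            t 1 • (ContinuousLinearMap.proj 0 : QQ 2 →L[ℝ] ℝ)) (eb 1))]
      have h5 : PT (t 0 * t 1) 0 0 e3 s ∈ OM := PT_mem dot_e3 hs
      exact TE4_Y_zero hY h5 _ _ (fderiv ℝ (fun r : ℝ => PT r 0 0 e3 s) (t 0 * t 1) 1)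
    have e5 : JJ Y (fun x : QQ 2 => PT ((![x 0, x 1, 1] : QQ 3) 0 * (![x 0, x 1, 1] : QQ 3) 2) 0 0
        e3 (sph (π * (![x 0, x 1, 1] : QQ 3) 1) (4 * π * j * (![x 0, x 1, 1] : QQ 3) 2))) =
        JJ Y (fun x : QQ 2 => PT (x 0) 0 0 e3 (sph (π * x 1) 0)) := by
      congr 1
      funext x
      show PT (x 0 * 1) 0 0 e3 (sph (π * x 1) (4 * π * j * 1)) = _
      rw [mul_one, mul_one, TE4_sph_period]
    have e6 : JJ Y (fun x : QQ 2 => PT ((![x 0, x 1, 0] : QQ 3) 0 * (![x 0, x 1, 0] : QQ 3) 2) 0 0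
        e3 (sph (π * (![x 0, x 1, 0] : QQ 3) 1) (4 * π * j * (![x 0, x 1, 0] : QQ 3) 2))) = 0 := by
      have h1 : (fun x : QQ 2 => PT ((![x 0, x 1, 0] : QQ 3) 0 * (![x 0, x 1, 0] : QQ 3) 2) 0 0
        e3 (sph (π * (![x 0, x 1, 0] : QQ 3) 1) (4 * π * j * (![x 0, x 1, 0] : QQ 3) 2))) =
        fun x : QQ 2 => PT 0 0 0 e3 (sph (π * x 1) 0) := by
        funext x
        show PT (x 0 * 0) 0 0 e3 (sph (π * x 1) (4 * π * j * 0)) = _
        rw [mul_zero, mul_zero]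
      rw [h1]
      apply TE4_JJ_zero
      intro t
      have hF : ContDiff ℝ ∞ fun x : QQ 2 => PT 0 0 0 e3 (sph (π * x 1) 0) := by
        apply TE4_smooth_PT <;> fun_prop
      have h2 : fderiv ℝ (fun x : QQ 2 => PT 0 0 0 e3 (sph (π * x 1) 0)) t (eb 0) = 0 := by
        apply TE4_fderiv_zero_of hF
        intro r
        have : (t + r • eb 0 : QQ 2) 1 = t 1 := by simp
        rw [this]
      unfold pull
      rw [h2]
      have := hY.smul_left (PT 0 0 0 e3 (sph (π * t 1) 0)) (TE4_mem _ _ _ _) 0 0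
        (fderiv ℝ (fun x : QQ 2 => PT 0 0 0 e3 (sph (π * x 1) 0)) t (eb 1))
      rw [zero_smul, zero_mul] at this
      exact this
    rw [e1, e2, par 1 (Or.inr rfl), par 0 (Or.inl rfl), e5, e6] at h
    linarith
  have k1 := key j
  have k0 := key 0
  have s1 := JJ_eq hY (TE4_surf_S j)
  have s0 := JJ_eq hY (TE4_surf_S 0)
  rw [TE4_Wf_S, TE4_Af_S] at s1 s0
  rw [s1] at k1
  rw [s0] at k0
  push_cast at k0
  linarith

theorem YT_sub {k : ℕ} {Y : EE 7 → EE 7 → EE 7 → ℝ} (hY : CForm OM Y) (hI : Inv k Y) :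
    YT Y 1 - YT Y (-1) = 2 * k * JJ Y Ss := by
  rw [YT_sub_eq_Ij hY hI, Ij_sub hY]

end H31R.Tp
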