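import Pool.Agent.Lib.H31R.TA5
import Pool.Agent.Lib.H31R.TB8
import Pool.Agent.Lib.H31R.TE3
import Pool.Agent.Lib.H31R.TE4

/-!
# H31R, chunk TF1: the relations between the periods of `PH^* Wf` and `PH^* Xf`

Let `Y = pull PH Wf`, `X = pull PH (Xf l)` (closed, `Inv k`: `EqMap.cform`, `EqMap.inv`, `cform_Wf`, `inv_Wf`, ...) and
`f = f0` or `f1 ε`; `PH ∘ f` is equivariant for `l` with `m ∘ n` (`EqMap.comp`; `m 0 = 0`) and
`pull (PH ∘ f) Wf = pull f Y` (`EqMap.pull_pull`).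
(1) `wedge (mc (pull f Y)) (mc (pull f Y)) = 0` by `mean_wedge` and `WW`. By `mc_f0`, `mc_f1` this is
`2 dc^2 pw ps = 0` and `2 (YT Y ε) dc (pw + ε ps) = 0`.
(2) `wedge (mc (pull f X)) (mc (pull f X)) = 2 l wedge (mc (pull f Y)) (mc Th)`, `Th = pull (PH ∘ f) Thf`, by `mean_wedge`
and `XX`. `mean_Thf`: for `f0` all `mc Th = 0` (`m 0 = 0`), for `f1 ε` all are `0` except `mc Th 0 1 = D`,
`mc Th 1 0 = -D`. So `2 dc^2 qw qs = 0`, `2 (YT X ε) dc (qw + ε qs) = 2 l dc (pw + ε ps) D`.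
-/

open scoped ContDiff
open Real Set MeasureTheory

namespace H31R.Tp

/-- The determinant of the translations. -/
def Dm (m : ℤ × ℤ × ℤ → ℤ × ℤ × ℤ) : ℤ :=
  (m (1, 0, 0)).1 * (m (0, 1, 0)).2.1 - (m (0, 1, 0)).1 * (m (1, 0, 0)).2.1

theorem TF1_W {k l : ℕ} {PH : EE 7 → EE 7} {m : ℤ × ℤ × ℤ → ℤ × ℤ × ℤ} (h : EqMap k l PH m)
    {f : QQ 4 → EE 7} {n : Fin 4 → ℤ × ℤ × ℤ} (hf : Eqv k f n) :
    wedge (mc (pull f (pull PH Wf))) (mc (pull f (pull PH Wf))) = 0 := by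
  have hc : CForm univ (pull f (pull PH Wf)) := hf.cform (h.cform cform_Wf)
  have hp : Per (pull f (pull PH Wf)) := hf.per (h.inv (inv_Wf l))
  rw [← mean_wedge hc hp hc hp, h.pull_pull hf]
  exact WW (h.comp hf)

theorem TF1_X {k l : ℕ} {PH : EE 7 → EE 7} {m : ℤ × ℤ × ℤ → ℤ × ℤ × ℤ} (h : EqMap k l PH m)
    {f : QQ 4 → EE 7} {n : Fin 4 → ℤ × ℤ × ℤ} (hf : Eqv k f n) :
    wedge (mc (pull f (pull PH (Xf l)))) (mc (pull f (pull PH (Xf l)))) =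
      2 * l * wedge (mc (pull f (pull PH Wf)))
        (fun i j => (m (n i)).1 * (m (n j)).2.1 - (m (n j)).1 * (m (n i)).2.1) := by
  have hc : CForm univ (pull f (pull PH (Xf l))) := hf.cform (h.cform (cform_Xf l))
  have hp : Per (pull f (pull PH (Xf l))) := hf.per (h.inv (inv_Xf l))
  have hc1 : CForm univ (pull f (pull PH Wf)) := hf.cform (h.cform cform_Wf)
  have hp1 : Per (pull f (pull PH Wf)) := hf.per (h.inv (inv_Wf l))
  have hf' := h.comp hf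
  have hc2 : CForm univ (pull (fun t => PH (f t)) Thf) := hf'.cform cform_Thf
  have hp2 : Per (pull (fun t => PH (f t)) Thf) := hf'.per (inv_Thf l)
  have e : (fun i j => (((m (n i)).1 : ℤ) : ℝ) * (m (n j)).2.1 - (m (n j)).1 * (m (n i)).2.1) =
      mc (pull (fun t => PH (f t)) Thf) := by
    funext i j
    exact (mean_Thf hf' i j).symm
  rw [e, ← mean_wedge hc hp hc hp, ← mean_wedge hc1 hp1 hc2 hp2, h.pull_pull hf, h.pull_pull hf]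
  exact XX hf'

theorem rel_W0 {k l : ℕ} {PH : EE 7 → EE 7} {m : ℤ × ℤ × ℤ → ℤ × ℤ × ℤ} (h : EqMap k l PH m) :
    JJ (pull PH Wf) Sw * JJ (pull PH Wf) Ss = 0 := by
  have h1 := TF1_W h (eqv_f0 k)
  obtain ⟨a1, a2, a3, a4, a5, a6⟩ := mc_f0 (h.cform cform_Wf)
  unfold wedge at h1
  rw [a1, a2, a3, a4, a5, a6] at h1
  have hd := dc_pos
  have h2 : 2 * dc ^ 2 * (JJ (pull PH Wf) Sw * JJ (pull PH Wf) Ss) = 0 := by
    linear_combination h1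
  exact (mul_eq_zero.1 h2).resolve_left (by positivity)

theorem rel_W1 {k l : ℕ} {PH : EE 7 → EE 7} {m : ℤ × ℤ × ℤ → ℤ × ℤ × ℤ} (h : EqMap k l PH m)
    {ε : ℝ} (hε : ε = 1 ∨ ε = -1) :
    YT (pull PH Wf) ε * (JJ (pull PH Wf) Sw + ε * JJ (pull PH Wf) Ss) = 0 := by
  have h1 := TF1_W h (eqv_f1 k hε)
  obtain ⟨a1, a2, a3, a4⟩ := mc_f1 hε (h.cform cform_Wf) (h.inv (inv_Wf l))
  unfold wedge at h1
  rw [a1, a2, a3, a4] at h1
  have hd := dc_pos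
  have h2 : 2 * dc * (YT (pull PH Wf) ε * (JJ (pull PH Wf) Sw + ε * JJ (pull PH Wf) Ss)) = 0 := by
    linear_combination h1
  exact (mul_eq_zero.1 h2).resolve_left (by positivity)

theorem rel_X0 {k l : ℕ} {PH : EE 7 → EE 7} {m : ℤ × ℤ × ℤ → ℤ × ℤ × ℤ} (h : EqMap k l PH m) :
    JJ (pull PH (Xf l)) Sw * JJ (pull PH (Xf l)) Ss = 0 := by
  have h1 := TF1_X h (eqv_f0 k)
  obtain ⟨a1, a2, a3, a4, a5, a6⟩ := mc_f0 (h.cform (cform_Xf l))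
  have hm : ∀ i : Fin 4, m ((0 : Fin 4 → ℤ × ℤ × ℤ) i) = 0 := fun i => h.zero
  unfold wedge at h1
  rw [a1, a2, a3, a4, a5, a6] at h1
  simp only [hm, Prod.fst_zero, Prod.snd_zero, Int.cast_zero, mul_zero, sub_zero, add_zero] at h1
  have hd := dc_pos
  have h2 : 2 * dc ^ 2 * (JJ (pull PH (Xf l)) Sw * JJ (pull PH (Xf l)) Ss) = 0 := by
    linear_combination h1
  exact (mul_eq_zero.1 h2).resolve_left (by positivity)

theorem rel_X1 {k l : ℕ} {PH : EE 7 → EE 7} {m : ℤ × ℤ × ℤ → ℤ × ℤ × ℤ} (h : EqMap k l PH m)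
    {ε : ℝ} (hε : ε = 1 ∨ ε = -1) :
    YT (pull PH (Xf l)) ε * (JJ (pull PH (Xf l)) Sw + ε * JJ (pull PH (Xf l)) Ss) =
      l * (JJ (pull PH Wf) Sw + ε * JJ (pull PH Wf) Ss) * Dm m := by
  have h1 := TF1_X h (eqv_f1 k hε)
  obtain ⟨a1, a2, a3, a4⟩ := mc_f1 hε (h.cform (cform_Xf l)) (h.inv (inv_Xf l))
  obtain ⟨-, b2, -, -⟩ := mc_f1 hε (h.cform cform_Wf) (h.inv (inv_Wf l))
  have n0 : n1 0 = (1, 0, 0) := rfl
  have n1' : n1 1 = (0, 1, 0) := rfl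
  have n2 : m (n1 2) = 0 := h.zero
  have n3 : m (n1 3) = 0 := h.zero
  unfold wedge at h1
  rw [a1, a2, a3, a4] at h1
  simp only [n2, n3, Prod.fst_zero, Prod.snd_zero, Int.cast_zero, mul_zero, sub_zero, add_zero,
    zero_mul, zero_add, sub_self] at h1
  rw [b2, n0, n1'] at h1
  have hd := dc_pos
  have hD : ((Dm m : ℤ) : ℝ) = ((m (1, 0, 0)).1 : ℝ) * (m (0, 1, 0)).2.1 -
      (m (0, 1, 0)).1 * (m (1, 0, 0)).2.1 := by
    unfold Dm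
    push_cast
    ring
  rw [hD]
  have h3 : (2 * dc : ℝ) ≠ 0 := by positivity
  apply mul_left_cancel₀ h3
  linear_combination h1

end H31R.Tp
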