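import Pool.Agent.Lib.H31R.TB8
import Pool.Agent.Lib.H31R.TC7
import Pool.Agent.Lib.H31R.TD5

/-!
# H31R, chunk TF2: the matrix of the periods is integral and invertible

`JJ (pull PH Y) F = JJ Y (PH ∘ F)` (`JJ_pull`), `PH ∘ Sw`, `PH ∘ Ss` are spheres (`Surf.comp`; the derivative
in the direction `eb 1` vanishes on the edges by the chain rule). `JJ (Xf l) F = JJ Af F` for closed
surfaces: `JJ_comb`, `JJ_exact` and `isD_βf`. So the periods are degrees: integers (`JJ_Wf_int`, `JJ_Af_int`).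
`periods_inv`: let `Y' = pull PH' Wf` and `X' = pull PH' (Xf k)` (closed on the target). By `JJ_eq`
`JJ (pull PH Y') Sw = JJ Y' (PH ∘ Sw) = JJ Wf (PH ∘ Sw) * JJ Y' Sw + JJ Af (PH ∘ Sw) * JJ Y' Ss`, and
`pull PH Y' = pull (PH' ∘ PH) Wf = pull (act k n0) Wf = Wf` on `OM` (`inv_Wf`; near a point of `OM`
`PH' ∘ PH = act k n0`), etc.; `JJ (Xf k) Sw = JJ Af Sw = 0`, `JJ (Xf k) Ss = 1`.
-/

open scoped ContDiff
open Real Set MeasureTheory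

namespace H31R.Tp

theorem JJ_Xf (l : ℕ) {F : QQ 2 → EE 7} (hF : Surf F) : JJ (Xf l) F = JJ Af F := by
  have h1 := JJ_exact (isD_βf l) hF
  have h2 := JJ_comb cform_Af (cform_Xf l) 1 (-1) hF
  have h3 : (fun p u v => (1 : ℝ) * Af p u v + (-1) * Xf l p u v) =
      fun p u v => Af p u v - Xf l p u v := by
    funext p u v
    ring
  rw [h3, h1] at h2
  linarith

theorem TF2_zero_of {F : QQ 2 → EE 7} {t : QQ 2} {i : Fin 2} (hF : ContDiff ℝ ∞ F)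
    (h : ∀ r : ℝ, F (t + r • eb i) = F t) : fderiv ℝ F t (eb i) = 0 := by
  have h1 : HasDerivAt (fun r : ℝ => F (t + r • eb i)) (fderiv ℝ F t (eb i)) 0 := by
    have h2 : HasDerivAt (fun r : ℝ => t + r • (eb i : QQ 2)) (eb i) 0 := by
      have := ((hasDerivAt_id (0 : ℝ)).smul_const (eb i : QQ 2)).const_add t
      simpa using this
    have h3 : HasFDerivAt F (fderiv ℝ F t) (t + (0 : ℝ) • (eb i : QQ 2)) := by
      rw [zero_smul, add_zero]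
      exact ((hF.differentiable (by simp)) t).hasFDerivAt
    exact h3.comp_hasDerivAt (0 : ℝ) h2
  have h4 : (fun r : ℝ => F (t + r • eb i)) = fun _ => F t := funext h
  rw [h4] at h1
  exact h1.unique (hasDerivAt_const (0 : ℝ) (F t))

theorem TF2_sph {t : QQ 2} (ht : t 0 = 0 ∨ t 0 = 1) (φ ψ : ℝ) :
    sph (π * t 0) φ = sph (π * t 0) ψ := by
  have h : sin (π * t 0) = 0 := by
    rcases ht with h | h
    · rw [h, mul_zero, sin_zero]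
    · rw [h, mul_one, sin_pi]
  unfold sph
  rw [h, zero_mul, zero_mul, zero_mul, zero_mul]

theorem TF2_Sw (t : QQ 2) (ht : t 0 = 0 ∨ t 0 = 1) : fderiv ℝ Sw t (eb 1) = 0 := by
  refine TF2_zero_of surf_Sw.smooth fun r => ?_
  have h0 : (t + r • eb 1 : QQ 2) 0 = t 0 := by simp
  unfold Sw
  rw [h0, TF2_sph ht]

theorem TF2_Ss (t : QQ 2) (ht : t 0 = 0 ∨ t 0 = 1) : fderiv ℝ Ss t (eb 1) = 0 := by
  refine TF2_zero_of surf_Ss.smooth fun r => ?_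
  have h0 : (t + r • eb 1 : QQ 2) 0 = t 0 := by simp
  unfold Ss
  rw [h0, TF2_sph ht]

theorem TF2_cl {PH : EE 7 → EE 7} (hPH : ContDiffOn ℝ ∞ PH OM) {F : QQ 2 → EE 7} (hF : Surf F)
    {t : QQ 2} (h : fderiv ℝ F t (eb 1) = 0) : fderiv ℝ (fun t => PH (F t)) t (eb 1) = 0 := by
  have h1 : HasFDerivAt PH (fderiv ℝ PH (F t)) (F t) :=
    ((hPH.contDiffAt (OM_open.mem_nhds (hF.mem t))).differentiableAt (by simp)).hasFDerivAt
  have h2 : HasFDerivAt F (fderiv ℝ F t) t := ((hF.smooth.differentiable (by simp)) t).hasFDerivAt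
  have h3 : HasFDerivAt (fun t => PH (F t)) ((fderiv ℝ PH (F t)).comp (fderiv ℝ F t)) t :=
    h1.comp t h2
  rw [h3.fderiv, ContinuousLinearMap.comp_apply, h, map_zero]

theorem periods_int {k l : ℕ} {PH : EE 7 → EE 7} {m : ℤ × ℤ × ℤ → ℤ × ℤ × ℤ}
    (h : EqMap k l PH m) : ∃ pw ps qw qs : ℤ, JJ (pull PH Wf) Sw = pw ∧ JJ (pull PH Wf) Ss = ps ∧
      JJ (pull PH (Xf l)) Sw = qw ∧ JJ (pull PH (Xf l)) Ss = qs := by
  have sw := surf_Sw.comp h.smooth h.maps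
  have ss := surf_Ss.comp h.smooth h.maps
  have cw : ∀ t, t 0 = 0 ∨ t 0 = 1 → fderiv ℝ (fun t => PH (Sw t)) t (eb 1) = 0 := fun t ht =>
    TF2_cl h.smooth surf_Sw (TF2_Sw t ht)
  have cs : ∀ t, t 0 = 0 ∨ t 0 = 1 → fderiv ℝ (fun t => PH (Ss t)) t (eb 1) = 0 := fun t ht =>
    TF2_cl h.smooth surf_Ss (TF2_Ss t ht)
  obtain ⟨pw, hpw⟩ := JJ_Wf_int sw cw
  obtain ⟨ps, hps⟩ := JJ_Wf_int ss cs
  obtain ⟨qw, hqw⟩ := JJ_Af_int sw cw
  obtain ⟨qs, hqs⟩ := JJ_Af_int ss cs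
  refine ⟨pw, ps, qw, qs, ?_, ?_, ?_, ?_⟩
  · rw [JJ_pull surf_Sw h.smooth, hpw]
  · rw [JJ_pull surf_Ss h.smooth, hps]
  · rw [JJ_pull surf_Sw h.smooth, JJ_Xf l sw, hqw]
  · rw [JJ_pull surf_Ss h.smooth, JJ_Xf l ss, hqs]

theorem TF2_pull {k l : ℕ} {PH PH' : EE 7 → EE 7} {m m' : ℤ × ℤ × ℤ → ℤ × ℤ × ℤ}
    (h : EqMap k l PH m) (h' : EqMap l k PH' m') {n0 : ℤ × ℤ × ℤ}
    (hn : ∀ p ∈ OM, PH' (PH p) = act k n0 p) {Y : EE 7 → EE 7 → EE 7 → ℝ} (hY : Inv k Y)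
    (p : EE 7) (hp : p ∈ OM) (u v : EE 7) : pull PH (pull PH' Y) p u v = Y p u v := by
  have hne : (∞ : WithTop ℕ∞) ≠ 0 := by simp
  have d1 : DifferentiableAt ℝ PH p :=
    (h.smooth.contDiffAt (OM_open.mem_nhds hp)).differentiableAt hne
  have d2 : DifferentiableAt ℝ PH' (PH p) :=
    (h'.smooth.contDiffAt (OM_open.mem_nhds (h.maps p hp))).differentiableAt hne
  rw [pull_pull d1 d2 Y u v]
  have he : (fun q => PH' (PH q)) =ᶠ[nhds p] act k n0 := by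
    filter_upwards [OM_open.mem_nhds hp] with q hq using hn q hq
  unfold pull
  rw [he.fderiv_eq]
  show Y (PH' (PH p)) _ _ = _
  rw [hn p hp]
  exact hY n0 p hp u v

/-- the main formula -/
theorem TF2_main {k l : ℕ} {PH PH' : EE 7 → EE 7} {m m' : ℤ × ℤ × ℤ → ℤ × ℤ × ℤ}
    (h : EqMap k l PH m) (h' : EqMap l k PH' m') {n0 : ℤ × ℤ × ℤ}
    (hn : ∀ p ∈ OM, PH' (PH p) = act k n0 p) {Y : EE 7 → EE 7 → EE 7 → ℝ} (hY : Inv k Y)
    (hYc : CForm OM Y) {F : QQ 2 → EE 7} (hF : Surf F) :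
    JJ (pull PH Wf) F * JJ (pull PH' Y) Sw + JJ (pull PH (Xf l)) F * JJ (pull PH' Y) Ss =
      JJ Y F := by
  have hs := hF.comp h.smooth h.maps
  have hc : CForm OM (pull PH' Y) := h'.cform hYc
  have h1 := JJ_eq hc hs
  have h2 : JJ (pull PH' Y) (fun t => PH (F t)) = JJ Y F := by
    rw [← JJ_pull hF h.smooth]
    exact JJ_congr (TF2_pull h h' hn hY) hF.mem
  rw [h2] at h1
  rw [JJ_pull hF h.smooth, JJ_pull hF h.smooth, JJ_Xf l hs]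
  exact h1.symm

theorem periods_inv {k l : ℕ} {PH PH' : EE 7 → EE 7} {m m' : ℤ × ℤ × ℤ → ℤ × ℤ × ℤ}
    (h : EqMap k l PH m) (h' : EqMap l k PH' m') {n0 : ℤ × ℤ × ℤ}
    (hn : ∀ p ∈ OM, PH' (PH p) = act k n0 p) :
    JJ (pull PH Wf) Sw * JJ (pull PH' Wf) Sw + JJ (pull PH (Xf l)) Sw * JJ (pull PH' Wf) Ss = 1 ∧
    JJ (pull PH Wf) Ss * JJ (pull PH' Wf) Sw + JJ (pull PH (Xf l)) Ss * JJ (pull PH' Wf) Ss = 0 ∧
    JJ (pull PH Wf) Sw * JJ (pull PH' (Xf k)) Sw +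
      JJ (pull PH (Xf l)) Sw * JJ (pull PH' (Xf k)) Ss = 0 ∧
    JJ (pull PH Wf) Ss * JJ (pull PH' (Xf k)) Sw +
      JJ (pull PH (Xf l)) Ss * JJ (pull PH' (Xf k)) Ss = 1 := by
  refine ⟨?_, ?_, ?_, ?_⟩
  · rw [TF2_main h h' hn (inv_Wf k) cform_Wf surf_Sw, JJ_Wf_Sw]
  · rw [TF2_main h h' hn (inv_Wf k) cform_Wf surf_Ss, JJ_Wf_Ss]
  · rw [TF2_main h h' hn (inv_Xf k) (cform_Xf k) surf_Sw, JJ_Xf k surf_Sw, JJ_Af_Sw]
  · rw [TF2_main h h' hn (inv_Xf k) (cform_Xf k) surf_Ss, JJ_Xf k surf_Ss, JJ_Af_Ss]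

end H31R.Tp
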