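import Pool.Agent.Lib.H31R.TF1
import Pool.Agent.Lib.H31R.TF2

/-!
# H31R, chunk TF3: divisibility

Integers `pw ps qw qs` (`periods_int`), `pw * ps = 0`, `qw * qs = 0` (`rel_W0`, `rel_X0`), and by `periods_inv` the matrix
has an integral inverse: `pw qs - ps qw = ± 1` (product of the determinants). If `ps /= 0`: `pw = 0`, so
`ps qw = ± 1`, `rel_W1` gives `YT Y ε = 0` for `ε = ± 1`, contradiction to `YT_sub`: `0 = 2 k ps`. So `ps = 0`,
`pw qs = ± 1`, `qs = ± 1`, `qw = 0`; `rel_X1`: `YT X ε * ε qs = l pw D`, so by `YT_sub`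
`2 k qs = YT X 1 - YT X (-1) = 2 l pw D / qs`, `k = l pw D` (`qs^2 = 1`).
-/

open scoped ContDiff
open Real Set MeasureTheory

namespace H31R.Tp

theorem TF3_int {k l pw ps qw qs pw' ps' qw' qs' D : ℤ} {a1 am b1 bm : ℝ} (hk : 1 ≤ k)
    (i1 : pw * pw' + qw * ps' = 1) (i2 : ps * pw' + qs * ps' = 0) (i3 : pw * qw' + qw * qs' = 0)
    (i4 : ps * qw' + qs * qs' = 1) (w0 : pw * ps = 0) (x0 : qw * qs = 0)
    (w1 : a1 * ((pw : ℝ) + ps) = 0) (wm : am * ((pw : ℝ) - ps) = 0)
    (aw : a1 - am = 2 * k * ps) (ax : b1 - bm = 2 * k * qs)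
    (x1 : b1 * ((qw : ℝ) + qs) = l * ((pw : ℝ) + ps) * D)
    (xm : bm * ((qw : ℝ) - qs) = l * ((pw : ℝ) - ps) * D) : l ∣ k := by
  have hdet : (pw * qs - qw * ps) * (pw' * qs' - qw' * ps') = 1 := by
    have e : (pw * qs - qw * ps) * (pw' * qs' - qw' * ps') =
        (pw * pw' + qw * ps') * (ps * qw' + qs * qs') -
          (pw * qw' + qw * qs') * (ps * pw' + qs * ps') := by ring
    rw [e, i1, i2, i3, i4]
    norm_num
  have hps : ps = 0 := by
    by_contra hne
    have hpw : pw = 0 := by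
      rcases mul_eq_zero.1 w0 with h | h
      · exact h
      · exact absurd h hne
    have hne' : (ps : ℝ) ≠ 0 := by exact_mod_cast hne
    subst hpw
    have ha1 : a1 = 0 := by
      rcases mul_eq_zero.1 w1 with h | h
      · exact h
      · exact absurd (by simpa using h) hne'
    have ham : am = 0 := by
      rcases mul_eq_zero.1 wm with h | h
      · exact h
      · exact absurd (by simpa using h) hne'
    rw [ha1, ham] at aw
    have hk' : (k : ℝ) ≠ 0 := by
      have : (1 : ℝ) ≤ k := by exact_mod_cast hk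
      positivity
    have : (2 : ℝ) * k * ps ≠ 0 := mul_ne_zero (mul_ne_zero two_ne_zero hk') hne'
    exact this (by linarith)
  subst hps
  have hu : pw * qs * (pw' * qs' - qw' * ps') = 1 := by linear_combination hdet
  have hqs0 : qs ≠ 0 := by
    rintro rfl
    simp at hu
  have hqw : qw = 0 := by
    rcases mul_eq_zero.1 x0 with h | h
    · exact h
    · exact absurd h hqs0
  subst hqw
  have hqs : IsUnit qs := IsUnit.of_mul_eq_one (pw * (pw' * qs' - qw' * ps')) (by
    linear_combination hu)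
  have hqs2 : qs * qs = 1 := by
    rcases Int.isUnit_iff.1 hqs with h | h <;> rw [h] <;> norm_num
  have hqs2' : (qs : ℝ) * qs = 1 := by exact_mod_cast hqs2
  have key : (2 : ℝ) * k = 2 * (l * pw * D) := by
    push_cast at x1 xm
    have h3 : (b1 - bm) * qs = 2 * (l * pw * D) := by linear_combination x1 + xm
    rw [ax] at h3
    calc (2 : ℝ) * k = 2 * k * ((qs : ℝ) * qs) := by rw [hqs2']; ring
      _ = 2 * k * qs * qs := by ring
      _ = _ := h3
  have key2 : k = l * (pw * D) := by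
    have : (k : ℝ) = ((l * (pw * D) : ℤ) : ℝ) := by push_cast; linarith
    exact_mod_cast this
  exact ⟨pw * D, key2⟩

theorem dvd_of_maps {k l : ℕ} (hk : 1 ≤ k) {PH PH' : EE 7 → EE 7}
    {m m' : ℤ × ℤ × ℤ → ℤ × ℤ × ℤ} (h : EqMap k l PH m) (h' : EqMap l k PH' m')
    {n0 : ℤ × ℤ × ℤ} (hn : ∀ p ∈ OM, PH' (PH p) = act k n0 p) : l ∣ k := by
  obtain ⟨pw, ps, qw, qs, e1, e2, e3, e4⟩ := periods_int h
  obtain ⟨pw', ps', qw', qs', e1', e2', e3', e4'⟩ := periods_int h'
  obtain ⟨i1, i2, i3, i4⟩ := periods_inv h h' hn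
  have w0 := rel_W0 h
  have x0 := rel_X0 h
  have w1 := rel_W1 h (ε := 1) (Or.inl rfl)
  have wm := rel_W1 h (ε := -1) (Or.inr rfl)
  have x1 := rel_X1 h (ε := 1) (Or.inl rfl)
  have xm := rel_X1 h (ε := -1) (Or.inr rfl)
  have aw := YT_sub (h.cform cform_Wf) (h.inv (inv_Wf l))
  have ax := YT_sub (h.cform (cform_Xf l)) (h.inv (inv_Xf l))
  rw [e1, e3, e1', e2'] at i1
  rw [e2, e4, e1', e2'] at i2
  rw [e1, e3, e3', e4'] at i3
  rw [e2, e4, e3', e4'] at i4
  rw [e1, e2] at w0 w1 wm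
  rw [e3, e4] at x0
  rw [e3, e4, e1, e2] at x1 xm
  rw [e2] at aw
  rw [e4] at ax
  have hk1 : (1 : ℤ) ≤ (k : ℤ) := by exact_mod_cast hk
  have := TF3_int (k := (k : ℤ)) (l := (l : ℤ)) (D := Dm m) hk1 (by exact_mod_cast i1)
    (by exact_mod_cast i2) (by exact_mod_cast i3) (by exact_mod_cast i4) (by exact_mod_cast w0)
    (by exact_mod_cast x0) (by simpa using w1) (a1 := YT (pull PH Wf) 1)
    (am := YT (pull PH Wf) (-1)) (b1 := YT (pull PH (Xf l)) 1) (bm := YT (pull PH (Xf l)) (-1))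
    (by rw [← wm]; ring) (by rw [aw]; push_cast; ring) (by rw [ax]; push_cast; ring)
    (by have := x1; push_cast; linear_combination this)
    (by have := xm; push_cast; linear_combination this)
  exact_mod_cast this

end H31R.Tp
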