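import Pool.Agent.Lib.H31R.TDefs

/-!
# H31R, chunk TG1: the covering `OM → MK l`, lifts and their uniqueness

`cov`: `OMt l` (QT.lean: `OM` with the action of `ℤ × ℤ × ℤ` as `AddAction`, `ContinuousConstVAdd`) and
`fun p : OMt l => prj l p.1` is an `IsAddQuotientCoveringMap`: it is continuous (`prj_contMDiffOn`), open
(`prj_isOpen_image`) and surjective (`prj_surj`), so a quotient map; `prj_eq_iff` = orbits; the
neighbourhood `Ubox p` is disjoint from its translates (`prj_injOn`). Then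
`IsAddQuotientCoveringMap.isCoveringMap` (or use `IsQuotientMap.isQuotientCoveringMap_of_...` in the additive
version).
`lift_unique`: `IsCoveringMap.eqOn_of_comp_eqOn` for `F'` and `act l n ∘ F`, where `n` is given by `prj_eq_iff` at one
point of `U`.
-/

open scoped Manifold ContDiff Topology
open Real Set MeasureTheory

namespace H31R.Tp

theorem TG1_cont (l : ℕ) : Continuous (fun p : OMt l => prj l p.1) := by
  have h1 : ContinuousOn (prj l) OM := (prj_contMDiffOn l).continuousOn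
  exact h1.comp_continuous (continuous_OMt_val l) fun p => p.2

theorem TG1_open (l : ℕ) : IsOpenMap (fun p : OMt l => prj l p.1) := by
  intro V hV
  obtain ⟨W, hW, hWV⟩ := isOpen_induced_iff.1 (show IsOpen (V : Set ↥OM) from hV)
  have hWV' : ∀ q : OMt l, q.1 ∈ W ↔ q ∈ V := fun q => Set.ext_iff.1 hWV q
  have h1 : (fun p : OMt l => prj l p.1) '' V = prj l '' (W ∩ OM) := by
    ext m
    constructor
    · rintro ⟨q, hq, rfl⟩
      exact ⟨q.1, ⟨(hWV' q).2 hq, q.2⟩, rfl⟩
    · rintro ⟨q, ⟨hq, hq2⟩, rfl⟩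
      exact ⟨⟨q, hq2⟩, (hWV' ⟨q, hq2⟩).1 hq, rfl⟩
  rw [h1]
  exact prj_isOpen_image l (hW.inter isOpen_OM) inter_subset_right

theorem TG1_quot (l : ℕ) :
    IsAddQuotientCoveringMap (fun p : OMt l => prj l p.1) (ℤ × ℤ × ℤ) := by
  have hs : Function.Surjective (fun p : OMt l => prj l p.1) := by
    intro m
    obtain ⟨p, hp, rfl⟩ := prj_surj l m
    exact ⟨⟨p, hp⟩, rfl⟩
  refine { toIsQuotientMap := (TG1_open l).isQuotientMap (TG1_cont l) hs
           toContinuousConstVAdd := inferInstance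
           apply_eq_iff_mem_orbit := ?_
           disjoint := ?_ }
  · intro e1 e2
    constructor
    · intro h
      obtain ⟨n, hn⟩ := (prj_eq_iff e2.2 e1.2).1 h.symm
      exact ⟨n, Subtype.ext hn.symm⟩
    · rintro ⟨n, hn⟩
      have h1 : e1.1 = act l n e2.1 := by rw [← hn]; rfl
      show prj l e1.1 = prj l e2.1
      rw [h1, prj_act e2.2 n]
  · intro e
    refine ⟨{q : OMt l | q.1 ∈ Ubox e.1}, ?_, ?_⟩
    · exact (isOpen_Ubox.preimage (continuous_OMt_val l)).mem_nhds (mem_Ubox e.2)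
    · rintro g ⟨q, ⟨a, ha, rfl⟩, hq⟩
      have ha' : a.1 ∈ Ubox e.1 := ha
      have hq' : act l g a.1 ∈ Ubox e.1 := hq
      have e1 : g.1 = 0 := QM_int_zero ha'.2.1 hq'.2.1 (by rw [x1_act l g ha'.1])
      have e2 : g.2.1 = 0 := QM_int_zero ha'.2.2.1 hq'.2.2.1 (by rw [x2_act l g ha'.1])
      have e3 : g.2.2 = 0 := QM_int_zero ha'.2.2.2 hq'.2.2.2 (by rw [x3_act l g a.1])
      exact Prod.ext e1 (Prod.ext e2 e3)

theorem cov (l : ℕ) : IsCoveringMap (fun p : OMt l => prj l p.1) := (TG1_quot l).isCoveringMap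

/-- The map `f` has a continuous lift to `OM` on the set `U`. -/
def HasLift (l : ℕ) (f : EE 7 → (MK l).carrier) (U : Set (EE 7)) : Prop :=
  ∃ F : EE 7 → EE 7, ContinuousOn F U ∧ (∀ p ∈ U, F p ∈ OM) ∧ ∀ p ∈ U, prj l (F p) = f p

theorem lift_unique {l : ℕ} {U : Set (EE 7)} (hU : IsPreconnected U) {F F' : EE 7 → EE 7}
    (hF : ContinuousOn F U) (hF' : ContinuousOn F' U) (hm : ∀ p ∈ U, F p ∈ OM)
    (hm' : ∀ p ∈ U, F' p ∈ OM) (he : ∀ p ∈ U, prj l (F p) = prj l (F' p)) :
    ∃ n : ℤ × ℤ × ℤ, ∀ p ∈ U, F' p = act l n (F p) := by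
  rcases U.eq_empty_or_nonempty with h0 | ⟨p0, hp0⟩
  · exact ⟨0, fun p hp => by rw [h0] at hp; exact absurd hp (notMem_empty p)⟩
  obtain ⟨n, hn⟩ := (prj_eq_iff (hm p0 hp0) (hm' p0 hp0)).1 (he p0 hp0)
  refine ⟨n, ?_⟩
  have : PreconnectedSpace ↥U := isPreconnected_iff_preconnectedSpace.mp hU
  let g1 : ↥U → OMt l := fun p => ⟨F' p.1, hm' p.1 p.2⟩
  let g2 : ↥U → OMt l := fun p => ⟨act l n (F p.1), act_mem l n (hm p.1 p.2)⟩
  have hg1 : Continuous g1 :=
    Continuous.subtype_mk (continuousOn_iff_continuous_domRestrict.1 hF') _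
  have hg2 : Continuous g2 := by
    refine Continuous.subtype_mk ?_ _
    exact (continuousOn_act l n).comp_continuous (continuousOn_iff_continuous_domRestrict.1 hF)
      fun p => hm p.1 p.2
  have h := (cov l).eq_of_comp_eq hg1 hg2 (by
    ext p
    show prj l (F' p.1) = prj l (act l n (F p.1))
    rw [prj_act (hm p.1 p.2), he p.1 p.2]) ⟨p0, hp0⟩ (Subtype.ext hn)
  intro p hp
  have h2 := congrFun h ⟨p, hp⟩
  exact congrArg Subtype.val h2

/-- Lifts on star-convex open sets (`StarConvex.contractibleSpace`,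
`IsCoveringMap.existsUnique_continuousMap_lifts`). -/
theorem lift_star {l : ℕ} {f : EE 7 → (MK l).carrier} {U : Set (EE 7)} (hU : IsOpen U) {a : EE 7}
    (ha : a ∈ U) (hs : StarConvex ℝ a U) (hf : ContinuousOn f U) : HasLift l f U := by
  classical
  have : ContractibleSpace ↥U := hs.contractibleSpace ⟨a, ha⟩
  have : LocallyPathConnectedSpace ↥U := hU.locallyPathConnectedSpace
  obtain ⟨q, hq, hqa⟩ := prj_surj l (f a)
  obtain ⟨G, ⟨-, hG⟩, -⟩ := (cov l).existsUnique_continuousMap_lifts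
    (⟨fun p : ↥U => f p.1, continuousOn_iff_continuous_domRestrict.1 hf⟩ : C(↥U, (MK l).carrier))
    ⟨a, ha⟩ (⟨q, hq⟩ : OMt l) hqa
  refine ⟨fun p => if h : p ∈ U then (G ⟨p, h⟩).1 else 0, ?_, ?_, ?_⟩
  · rw [continuousOn_iff_continuous_domRestrict]
    have h1 : Continuous fun p : ↥U => (G p).1 := (continuous_OMt_val l).comp G.continuous
    refine h1.congr fun p => ?_
    show (G p).1 = if h : p.1 ∈ U then (G ⟨p.1, h⟩).1 else 0
    rw [dif_pos p.2]
  · intro p hp
    show (if h : p ∈ U then (G ⟨p, h⟩).1 else 0) ∈ OM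
    rw [dif_pos hp]
    exact (G ⟨p, hp⟩).2
  · intro p hp
    show prj l (if h : p ∈ U then (G ⟨p, h⟩).1 else 0) = f p
    rw [dif_pos hp]
    exact congrFun hG ⟨p, hp⟩

/-- Glueing of lifts: replace the second lift by a transform so that both agree on `U ∩ V`. -/
theorem lift_union {l : ℕ} {f : EE 7 → (MK l).carrier} {U V : Set (EE 7)} (hU : IsOpen U)
    (hV : IsOpen V) (hc : IsPreconnected (U ∩ V)) (h1 : HasLift l f U) (h2 : HasLift l f V) :
    HasLift l f (U ∪ V) := by
  classical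
  obtain ⟨F, hF, hm, he⟩ := h1
  obtain ⟨F', hF', hm', he'⟩ := h2
  obtain ⟨n, hn⟩ := lift_unique (l := l) hc (hF.mono inter_subset_left)
    (hF'.mono inter_subset_right) (fun p hp => hm p hp.1) (fun p hp => hm' p hp.2)
    (fun p hp => by rw [he p hp.1, he' p hp.2])
  have hFn : ContinuousOn (fun p => act l n (F p)) U :=
    (continuousOn_act l n).comp hF fun p hp => hm p hp
  refine ⟨fun p => if p ∈ U then act l n (F p) else F' p, ?_, ?_, ?_⟩
  · refine ContinuousOn.union_of_isOpen ?_ ?_ hU hV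
    · exact hFn.congr fun p hp => if_pos hp
    · refine hF'.congr fun p hp => ?_
      by_cases h : p ∈ U
      · simp only [if_pos h]
        exact (hn p ⟨h, hp⟩).symm
      · simp only [if_neg h]
  · intro p hp
    by_cases h : p ∈ U
    · simp only [if_pos h]
      exact act_mem l n (hm p h)
    · simp only [if_neg h]
      exact hm' p (hp.resolve_left h)
  · intro p hp
    by_cases h : p ∈ U
    · simp only [if_pos h]
      rw [prj_act (hm p h), he p h]
    · simp only [if_neg h]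
      exact he' p (hp.resolve_left h)

end H31R.Tp
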