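import Pool.Agent.Lib.H31R.TG1

/-!
# H31R, chunk TG2: lifts on `OM`

`box P Q = {p | yv p ∈ P, zv p ∈ Q}`. For `e /= 0` let `Ax e = {y : V3 | ∀ t ≥ 0, y /= -t e}` (open, star-convex about
`e`). `Ax e ∪ Ax (-e) = {0}ᶜ`, `Ax e ∩ Ax (-e)` = complement of the line `R e`, which is connected
(`isConnected_compl_of_one_lt_codim` or similar for the subspace `span {e}`, codimension 2). Then
`OM = box {0}ᶜ {0}ᶜ`: `lift_star` for the four sets `box (Ax (± e)) (Ax (± e))`, then `lift_union` three times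
(first in `y`, then in `z`); the intersections are `box P Q` with `P`, `Q` preconnected (`box_preconnected`).
-/

open scoped Manifold ContDiff Topology
open Real Set MeasureTheory

namespace H31R.Tp

def box (P Q : Set V3) : Set (EE 7) := {p | yv p ∈ P ∧ zv p ∈ Q}

def Ax (e : V3) : Set V3 := {y | ∀ t : ℝ, 0 ≤ t → y ≠ -(t • e)}

theorem isOpen_box {P Q : Set V3} (hP : IsOpen P) (hQ : IsOpen Q) : IsOpen (box P Q) :=
  (hP.preimage contDiff_yv.continuous).inter (hQ.preimage contDiff_zv.continuous)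

theorem TG2_image (P Q : Set V3) : (fun q : ℝ × V3 × V3 => mk7 q.1 q.2.1 q.2.2) ''
    (univ ×ˢ (P ×ˢ Q)) = box P Q := by
  ext p
  constructor
  · rintro ⟨⟨a, y, z⟩, ⟨_, hy, hz⟩, rfl⟩
    exact ⟨by rw [QA_yv_mk7]; exact hy, by rw [QA_zv_mk7]; exact hz⟩
  · intro hp
    exact ⟨(p 0, yv p, zv p), ⟨mem_univ _, hp.1, hp.2⟩, mk7_self p⟩

theorem box_preconnected {P Q : Set V3} (hP : IsPreconnected P) (hQ : IsPreconnected Q) :
    IsPreconnected (box P Q) := by
  rw [← TG2_image]
  exact (isPreconnected_univ.prod (hP.prod hQ)).image _ contDiff_mk7.continuous.continuousOn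

theorem TG2_yv (s t : ℝ) (p q : EE 7) : yv (s • p + t • q) = s • yv p + t • yv q := by
  ext i
  fin_cases i <;> rfl

theorem TG2_zv (s t : ℝ) (p q : EE 7) : zv (s • p + t • q) = s • zv p + t • zv q := by
  ext i
  fin_cases i <;> rfl

theorem box_star {P Q : Set V3} {a b : V3} (hP : StarConvex ℝ a P) (hQ : StarConvex ℝ b Q) :
    StarConvex ℝ (mk7 0 a b) (box P Q) := by
  intro y hy s t hs ht hst
  refine ⟨?_, ?_⟩
  · rw [TG2_yv, QA_yv_mk7]
    exact hP hy.1 hs ht hst
  · rw [TG2_zv, QA_zv_mk7]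
    exact hQ hy.2 hs ht hst

theorem isOpen_Ax (e : V3) : IsOpen (Ax e) := by
  rw [← isClosed_compl_iff]
  have h1 : (Ax e)ᶜ = (fun t : ℝ => t • (-e)) '' Ici 0 := by
    ext y
    constructor
    · intro hy
      have hy' : ¬ ∀ t : ℝ, 0 ≤ t → y ≠ -(t • e) := hy
      push Not at hy'
      obtain ⟨t, ht, h⟩ := hy'
      refine ⟨t, ht, ?_⟩
      show t • (-e) = y
      rw [h, smul_neg]
    · rintro ⟨t, ht, rfl⟩ hy
      exact hy t ht (smul_neg t e)
  rw [h1]
  by_cases he : e = 0
  · subst he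
    have h2 : (fun t : ℝ => t • (-(0 : V3))) '' Ici 0 = {0} := by
      ext y
      constructor
      · rintro ⟨t, _, rfl⟩
        simp
      · intro hy
        rw [mem_singleton_iff] at hy
        subst hy
        exact ⟨0, mem_Ici.2 (le_refl _), by simp⟩
    rw [h2]
    exact isClosed_singleton
  · exact (isClosedEmbedding_smul_left (𝕜 := ℝ) (neg_ne_zero.2 he)).isClosedMap _ isClosed_Ici

theorem star_Ax {e : V3} (he : e ≠ 0) : StarConvex ℝ e (Ax e) := by
  intro y hy a b ha hb hab t ht h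
  rcases hb.eq_or_lt with h0 | h0
  · subst h0
    have ha1 : a = 1 := by linarith
    subst ha1
    rw [zero_smul, add_zero, one_smul] at h
    have h1 : (1 + t) • e = 0 := by
      rw [add_smul, one_smul]
      nth_rewrite 1 [h]
      simp
    rcases smul_eq_zero.1 h1 with h2 | h2
    · linarith
    · exact he h2
  · refine hy ((a + t) / b) (by positivity) ?_
    have h1 : b • y = -((a + t) • e) := by
      have h2 : b • y = -(t • e) - a • e := by
        rw [← h]
        abel
      rw [h2, add_smul]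
      abel
    have h3 : y = b⁻¹ • (b • y) := by
      rw [smul_smul, inv_mul_cancel₀ h0.ne', one_smul]
    rw [h3, h1, smul_neg, smul_smul]
    congr 2
    field_simp

theorem TG2_mem_Ax {e : V3} (he : e ≠ 0) : e ∈ Ax e := by
  intro t ht h
  have h1 : (1 + t) • e = 0 := by
    rw [add_smul, one_smul]
    nth_rewrite 1 [h]
    simp
  rcases smul_eq_zero.1 h1 with h2 | h2
  · linarith
  · exact he h2

theorem Ax_union {e : V3} (he : e ≠ 0) : Ax e ∪ Ax (-e) = {0}ᶜ := by
  ext y
  constructor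
  · rintro (h | h) h0
    · rw [mem_singleton_iff] at h0
      exact h 0 le_rfl (by rw [h0]; simp)
    · rw [mem_singleton_iff] at h0
      exact h 0 le_rfl (by rw [h0]; simp)
  · intro hy
    rw [mem_compl_iff, mem_singleton_iff] at hy
    by_contra hcon
    rw [mem_union, not_or] at hcon
    obtain ⟨h1, h2⟩ := hcon
    have h1' : ¬ ∀ t : ℝ, 0 ≤ t → y ≠ -(t • e) := h1
    have h2' : ¬ ∀ t : ℝ, 0 ≤ t → y ≠ -(t • (-e)) := h2
    push Not at h1' h2'
    obtain ⟨t, ht, h3⟩ := h1'
    obtain ⟨s, hs, h4⟩ := h2'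
    rw [smul_neg, neg_neg] at h4
    have h5 : (s + t) • e = 0 := by
      rw [add_smul, ← h4]
      nth_rewrite 1 [h3]
      simp
    rcases smul_eq_zero.1 h5 with h6 | h6
    · have : t = 0 := by linarith
      rw [this] at h3
      exact hy (by rw [h3]; simp)
    · exact he h6

theorem Ax_inter (e : V3) : IsPreconnected (Ax e ∩ Ax (-e)) := by
  have h1 : Ax e ∩ Ax (-e) = ((Submodule.span ℝ {e} : Submodule ℝ V3) : Set V3)ᶜ := by
    ext y
    rw [mem_compl_iff, SetLike.mem_coe, Submodule.mem_span_singleton]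
    constructor
    · rintro ⟨h1, h2⟩ ⟨c, rfl⟩
      rcases le_total 0 c with hc | hc
      · exact h2 c hc (by rw [smul_neg, neg_neg])
      · exact h1 (-c) (by linarith) (by rw [neg_smul, neg_neg])
    · intro h
      refine ⟨?_, ?_⟩
      · intro t _ h2
        exact h ⟨-t, by rw [h2, neg_smul]⟩
      · intro t _ h2
        exact h ⟨t, by rw [h2, smul_neg, neg_neg]⟩
  rw [h1]
  refine (isConnected_compl_of_one_lt_codim ?_).isPreconnected
  have h2 : Module.finrank ℝ (V3 ⧸ (Submodule.span ℝ {e} : Submodule ℝ V3)) +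
      Module.finrank ℝ (Submodule.span ℝ {e} : Submodule ℝ V3) = 3 := by
    rw [Submodule.finrank_quotient_add_finrank]
    simp
  have h3 : Module.finrank ℝ (Submodule.span ℝ {e} : Submodule ℝ V3) ≤ 1 := by
    have := finrank_span_le_card (R := ℝ) ({e} : Set V3)
    simpa using this
  have h4 : 1 < Module.finrank ℝ (V3 ⧸ (Submodule.span ℝ {e} : Submodule ℝ V3)) := by omega
  rw [← Module.finrank_eq_rank]
  exact_mod_cast h4

theorem OM_eq_box : OM = box {0}ᶜ {0}ᶜ := rfl

theorem OM_preconnected : IsPreconnected OM := isConnected_OM.isPreconnected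

theorem TG2_union_left (P P' Q : Set V3) : box P Q ∪ box P' Q = box (P ∪ P') Q := by
  ext p
  simp only [box, mem_union, mem_ofPred_eq]
  tauto

theorem TG2_union_right (P Q Q' : Set V3) : box P Q ∪ box P Q' = box P (Q ∪ Q') := by
  ext p
  simp only [box, mem_union, mem_ofPred_eq]
  tauto

theorem TG2_inter_left (P P' Q : Set V3) : box P Q ∩ box P' Q = box (P ∩ P') Q := by
  ext p
  simp only [box, mem_inter_iff, mem_ofPred_eq]
  tauto

theorem TG2_inter_right (P Q Q' : Set V3) : box P Q ∩ box P Q' = box P (Q ∩ Q') := by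
  ext p
  simp only [box, mem_inter_iff, mem_ofPred_eq]
  tauto

theorem TG2_Ax_pre {e : V3} (he : e ≠ 0) : IsPreconnected (Ax e) :=
  ((star_Ax he).isPathConnected (TG2_mem_Ax he)).isConnected.isPreconnected

theorem lift_OM {l : ℕ} {f : EE 7 → (MK l).carrier} (hf : ContinuousOn f OM) : HasLift l f OM := by
  obtain ⟨e, he⟩ : ∃ e : V3, e ≠ 0 := ⟨![1, 0, 0], fun h => by
    have := congrFun h 0
    simp at this⟩
  have he' : -e ≠ 0 := neg_ne_zero.2 he
  have hsub : ∀ a b : V3, a ≠ 0 → b ≠ 0 → (a = e ∨ a = -e) → (b = e ∨ b = -e) →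
      box (Ax a) (Ax b) ⊆ OM := by
    intro a b ha hb _ _ p hp
    refine ⟨?_, ?_⟩
    · intro h
      have h1 := hp.1 0 le_rfl
      rw [h] at h1
      exact h1 (by simp)
    · intro h
      have h1 := hp.2 0 le_rfl
      rw [h] at h1
      exact h1 (by simp)
  have hstar : ∀ a b : V3, a ≠ 0 → b ≠ 0 → (a = e ∨ a = -e) → (b = e ∨ b = -e) →
      HasLift l f (box (Ax a) (Ax b)) := by
    intro a b ha hb ha' hb'
    refine lift_star (isOpen_box (isOpen_Ax a) (isOpen_Ax b)) (a := mk7 0 a b) ?_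
      (box_star (star_Ax ha) (star_Ax hb)) (hf.mono (hsub a b ha hb ha' hb'))
    refine ⟨?_, ?_⟩
    · rw [QA_yv_mk7]
      exact TG2_mem_Ax ha
    · rw [QA_zv_mk7]
      exact TG2_mem_Ax hb
  have hy : ∀ b : V3, b ≠ 0 → (b = e ∨ b = -e) → HasLift l f (box {0}ᶜ (Ax b)) := by
    intro b hb hb'
    rw [← Ax_union he, ← TG2_union_left]
    refine lift_union (isOpen_box (isOpen_Ax e) (isOpen_Ax b))
      (isOpen_box (isOpen_Ax (-e)) (isOpen_Ax b)) ?_ (hstar e b he hb (Or.inl rfl) hb')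
      (hstar (-e) b he' hb (Or.inr rfl) hb')
    rw [TG2_inter_left]
    exact box_preconnected (Ax_inter e) (TG2_Ax_pre hb)
  have h0 : IsOpen ({0}ᶜ : Set V3) := isOpen_compl_singleton
  have h1 : IsPreconnected ({0}ᶜ : Set V3) := by
    have h1 : 1 < Module.rank ℝ V3 := by
      rw [rank_fin_fun]
      norm_cast
    exact (isConnected_compl_singleton_of_one_lt_rank h1 0).isPreconnected
  have h2 : OM = box {0}ᶜ (Ax e) ∪ box {0}ᶜ (Ax (-e)) := by
    rw [TG2_union_right, Ax_union he]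
    rfl
  rw [h2]
  refine lift_union (isOpen_box h0 (isOpen_Ax e)) (isOpen_box h0 (isOpen_Ax (-e))) ?_
    (hy e he (Or.inl rfl)) (hy (-e) he' (Or.inr rfl))
  rw [TG2_inter_right]
  exact box_preconnected h1 (Ax_inter e)

end H31R.Tp
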