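import Pool.Agent.Lib.H31R.PB
import Pool.Agent.Lib.H31R.TF3
import Pool.Agent.Lib.H31R.TG3
import Mathlib.Topology.Covering.AddCircle

/-!
# H31R, part P3 (1): lifts of maps on `R^n` to `OM` and to `R^m` (coverings `OM → MK l`, `R^m → T^m`)
-/

open scoped Manifold ContDiff Topology
open Real Set MeasureTheory

namespace H31R.Tp

theorem TP1_exists_lift {l n : ℕ} {f : QQ n → (MK l).carrier} (hf : Continuous f) :
    ∃ G : QQ n → EE 7, Continuous G ∧ (∀ t, G t ∈ OM) ∧ ∀ t, prj l (G t) = f t := by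
  obtain ⟨q, hq, hqa⟩ := prj_surj l (f 0)
  obtain ⟨G, ⟨-, hG⟩, -⟩ := (cov l).existsUnique_continuousMap_lifts
    (⟨f, hf⟩ : C(QQ n, (MK l).carrier)) 0 (⟨q, hq⟩ : OMt l) hqa
  refine ⟨fun t => (G t).1, (continuous_OMt_val l).comp G.continuous, fun t => (G t).2,
    fun t => ?_⟩
  exact congrFun hG t

theorem TP1_smooth {l n : ℕ} {f : QQ n → (MK l).carrier} (hf : ContMDiff 𝓘(ℝ, QQ n) (𝓡 7) ∞ f)
    {F : QQ n → EE 7} (hF : Continuous F) (hm : ∀ t, F t ∈ OM) (he : ∀ t, prj l (F t) = f t) :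
    ContDiff ℝ ∞ F := by
  rw [contDiff_iff_contDiffAt]
  intro t0
  obtain ⟨σ, hσ, hσ2⟩ := prj_local_inverse l (hm t0)
  have hU : IsOpen (F ⁻¹' Ubox (F t0)) := isOpen_Ubox.preimage hF
  have ht0 : t0 ∈ F ⁻¹' Ubox (F t0) := mem_Ubox (hm t0)
  have h1 : ContMDiffOn 𝓘(ℝ, QQ n) (𝓡 7) ∞ (σ ∘ f) (F ⁻¹' Ubox (F t0)) := by
    refine hσ.comp hf.contMDiffOn ?_
    intro q hq
    exact ⟨F q, hq, he q⟩
  have h2 : ContDiffOn ℝ ∞ (σ ∘ f) (F ⁻¹' Ubox (F t0)) := contMDiffOn_iff_contDiffOn.1 h1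
  have h3 : ContDiffOn ℝ ∞ F (F ⁻¹' Ubox (F t0)) := by
    refine h2.congr ?_
    intro q hq
    show F q = σ (f q)
    rw [← he q, hσ2 (F q) hq]
  exact h3.contDiffAt (hU.mem_nhds ht0)

theorem TP1_unique {l n : ℕ} {F F' : QQ n → EE 7} (hF : Continuous F) (hF' : Continuous F')
    (hm : ∀ t, F t ∈ OM) (hm' : ∀ t, F' t ∈ OM) (he : ∀ t, prj l (F t) = prj l (F' t)) :
    ∃ n0 : ℤ × ℤ × ℤ, ∀ t, F' t = act l n0 (F t) := by
  obtain ⟨n0, hn⟩ := (prj_eq_iff (hm 0) (hm' 0)).1 (he 0)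
  refine ⟨n0, ?_⟩
  let g1 : QQ n → OMt l := fun p => ⟨F' p, hm' p⟩
  let g2 : QQ n → OMt l := fun p => ⟨act l n0 (F p), act_mem l n0 (hm p)⟩
  have hg1 : Continuous g1 := Continuous.subtype_mk hF' _
  have hg2 : Continuous g2 := by
    refine Continuous.subtype_mk ?_ _
    exact (continuousOn_act l n0).comp_continuous hF fun p => hm p
  have h := (cov l).eq_of_comp_eq hg1 hg2 (by
    ext p
    show prj l (F' p) = prj l (act l n0 (F p))
    rw [prj_act (hm p), he p]) 0 (Subtype.ext hn)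
  intro p
  have h2 := congrFun h p
  exact congrArg Subtype.val h2

/-- The action is free. -/
theorem TP1_free {l : ℕ} {n0 : ℤ × ℤ × ℤ} {p : EE 7} (hp : p ∈ OM) (h : act l n0 p = p) :
    n0 = 0 := by
  have h1 := x1_act l n0 hp
  have h2 := x2_act l n0 hp
  have h3 := x3_act l n0 p
  rw [h] at h1 h2 h3
  have e1 : (n0.1 : ℝ) = 0 := by linarith
  have e2 : (n0.2.1 : ℝ) = 0 := by linarith
  have e3 : (n0.2.2 : ℝ) = 0 := by linarith
  exact Prod.ext (by exact_mod_cast e1) (Prod.ext (by exact_mod_cast e2) (by exact_mod_cast e3))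

theorem TP1_torus_lift {M : Type} [TopologicalSpace M] {n m : ℕ} {q : QQ n → PTor M m}
    (hq : Continuous q) : ∃ a : QQ n → Fin m → ℝ, Continuous a ∧
      ∀ t i, ((a t i : ℝ) : S1) = (q t).2 i := by
  have h : ∀ i : Fin m, ∃ a : QQ n → ℝ, Continuous a ∧ ∀ t, ((a t : ℝ) : S1) = (q t).2 i := by
    intro i
    have hc : Continuous fun t => (q t).2 i :=
      (continuous_apply i).comp ((continuous_snd : Continuous (fun x : M × (Fin m → S1) => x.2)).comp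
        hq)
    obtain ⟨r, hr⟩ : ∃ r : ℝ, (r : S1) = (q 0).2 i := ⟨crep ((q 0).2 i), coe_crep _⟩
    obtain ⟨G, ⟨-, hG⟩, -⟩ := (AddCircle.isCoveringMap_coe (1 : ℝ)).existsUnique_continuousMap_lifts
      (⟨fun t => (q t).2 i, hc⟩ : C(QQ n, AddCircle (1 : ℝ))) 0 r hr
    exact ⟨G, G.continuous, fun t => congrFun hG t⟩
  choose a ha using h
  exact ⟨fun t i => a i t, continuous_pi fun i => (ha i).1, fun t i => (ha i).2 t⟩

/-- Two points of the real line with the same image in the circle. -/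
theorem TP1_circle_unique {n : ℕ} {a b : QQ n → ℝ} (ha : Continuous a) (hb : Continuous b)
    (h : ∀ t, ((a t : ℝ) : S1) = (b t : ℝ)) : ∃ j : ℤ, ∀ t, b t = a t + j := by
  obtain ⟨j, hj⟩ := exists_int_of_coe_eq (h 0)
  refine ⟨j, ?_⟩
  have h1 := (AddCircle.isCoveringMap_coe (1 : ℝ)).eq_of_comp_eq (A := QQ n) (g₁ := b)
    (g₂ := fun t => a t + j) hb (ha.add continuous_const) (by
      ext t
      show ((b t : ℝ) : S1) = ((a t + j : ℝ) : S1)
      rw [coe_add_int, h t]) 0 hj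
  intro t
  exact congrFun h1 t

theorem TP1_torus_smooth {M : Type} [TopologicalSpace M] {d n m : ℕ} [ChartedSpace (EE d) M]
    {q : QQ n → PTor M m} (hq : ContMDiff 𝓘(ℝ, QQ n) (𝓡 (d + m)) ∞ q) {a : QQ n → Fin m → ℝ}
    (ha : Continuous a) (h : ∀ t i, ((a t i : ℝ) : S1) = (q t).2 i) : ContDiff ℝ ∞ a := by
  rw [contDiff_iff_contDiffAt]
  intro t0
  have h1 := (contMDiffAt_iff.1 (hq t0)).2
  have h2 : ContDiffAt ℝ ∞ (fun t => chartAt (EE (d + m)) (q t0) (q t)) t0 := by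
    have h3 : ContDiffWithinAt ℝ ∞ (fun t => chartAt (EE (d + m)) (q t0) (q t)) (range 𝓘(ℝ, QQ n)) t0 := h1
    have h4 : range (𝓘(ℝ, QQ n) : QQ n → QQ n) = univ := by simp
    rw [h4] at h3
    exact h3
  have h3 : ContDiffAt ℝ ∞ (fun t => jp2 d m (chartAt (EE (d + m)) (q t0) (q t))) t0 :=
    (jp2 d m).contDiff.contDiffAt.comp t0 h2
  obtain ⟨k, hk⟩ := PA_pi_circle (a := fun i => crep ((q t0).2 i) - 1 / 2) (t := a t0)
    fun i => by
      rw [h t0 i]
      exact ne_crep _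
  have h4 : a =ᶠ[𝓝 t0] fun t => jp2 d m (chartAt (EE (d + m)) (q t0) (q t)) -
      fun i => (k i : ℝ) := by
    filter_upwards [ha.continuousAt.eventually hk] with t ht
    rw [PB_chart_apply, jp2_jn]
    have h5 : (fun i => cch (crep ((q t0).2 i) - 1 / 2) ((q t).2 i)) = a t + fun i => (k i : ℝ) := by
      rw [← ht]
      funext i
      rw [h t i]
    rw [h5, add_sub_cancel_right]
  exact (h3.sub contDiffAt_const).congr_of_eventuallyEq h4

end H31R.Tp
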